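import Pool.Agent.Mg.F436a94p.Gcdf306

set_option linter.all false

section

/-!
The sums with a prime in the form `i` and a sieve weight on the form `j`.
-/

open Finset Filter

noncomputable section

namespace Pool.Agent.MP_43e117_nt.PG

namespace U1A

theorem big {J : Type} [Fintype J] (h : J → ℕ) (M : ℝ) :
    Ev h fun w _ _ => 2 ≤ w ∧ (∀ l, h l ≤ w) ∧ M ≤ w := by
  refine Ev.of_w h (P := fun w _ => 2 ≤ w ∧ (∀ l, h l ≤ w) ∧ M ≤ w)
    (2 + univ.sup h + ⌈M⌉₊) fun w hw => Eventually.of_forall fun _ => ⟨by omega, fun l => ?_, ?_⟩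
  · have := le_sup (f := h) (mem_univ l)
    omega
  · exact (Nat.le_ceil M).trans (Nat.cast_le.2 (by omega))

theorem QQ_nn {ι J : Type} [Fintype ι] [DecidableEq ι] [Fintype J] [DecidableEq J] {r : ι → ℝ}
    (hr : ∀ p, 0 ≤ r p) (C : (ι → Option J) → ℝ) : 0 ≤ QQ r C :=
  sum_nonneg fun σ _ => mul_nonneg (hh_nonneg hr σ) (sq_nonneg _)

theorem GG_nn {ι : Type} [Fintype ι] [DecidableEq ι] {r : ι → ℝ} (hr : ∀ p, 0 ≤ r p) (q : ι → ℕ)
    (t : ℝ) : 0 ≤ GG r q t :=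
  sum_nonneg fun s _ => by
    split_ifs
    · exact prod_nonneg fun p _ => hr p
    · exact le_rfl

theorem be_nn (w N : ℕ) : 0 ≤ be w N := div_nonneg (Nat.cast_nonneg _) (Nat.cast_nonneg _)

theorem sm {ι : Type} {r : ι → ℝ} {x y : ℝ} (h : Sm r x) (hy : y ≤ x) : Sm r y := fun p =>
  ⟨(h p).1, (mul_le_mul_of_nonneg_right hy (h p).1).trans (h p).2⟩

theorem small {k η w e c : ℝ} (he : 0 < e) (hw : 0 < w) (hc : 0 ≤ c) (hη : η ≤ 2 / w)
    (hM : 2 * c * k ^ 2 / e ≤ w) : c * k ^ 2 * η ≤ e := by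
  rw [div_le_iff₀ he] at hM
  refine (mul_le_mul_of_nonneg_left hη (by positivity)).trans ?_
  rw [← mul_div_assoc, div_le_iff₀ hw]
  linarith

theorem ex {J ι : Type} [Fintype ι] [DecidableEq ι] [Fintype J] [DecidableEq J] (hE0 : StE0)
    (hE2 : StE2) (hE4 : StE4) {q : ι → ℕ} (hq : ∀ p, 1 ≤ q p) {i j : J} (hij : i ≠ j)
    {F : (ι → Option Unit) → ℝ} {G : (ι → Option J) → ℝ} {D D' D'' L a : ℝ} {A : ℕ} (ha : 0 ≤ a)
    (hF : Exp q (fun _ => True) F D (L ^ 6) a)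
    (hG : Exp q (fun l => l ≠ i ∧ l ≠ j) G D' (L ^ A) 3) (hD : D * D' ≤ D'') :
    Exp q (fun l => l ≠ i) (fun o => F (pr j o) * G o) D'' (L ^ (6 + A)) (4 * a + 3) :=
  hE0 _ _ q _ _ _ _ _ _ _ _ _
    (hE2 _ _ q (fun l => l ≠ i) _ _ _ _ _ _ _ _ hq ha (by norm_num)
      (hE4 _ _ q (fun l => l ≠ i) j F _ _ _ hij.symm hF)
      (hE0 _ _ q _ _ _ _ _ _ _ _ _ hG le_rfl le_rfl (by norm_num) le_rfl fun _ hl => hl.1))
    hD (pow_add L 6 A).ge (by linarith) (by linarith) fun _ hl => hl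

theorem exp2 {R : ℕ} (hR : 2 ≤ R) : Real.exp (2 * Real.log R) = (R : ℝ) ^ 2 := by
  have h0 : (0 : ℝ) < R := Nat.cast_pos.2 (by omega)
  rw [two_mul, Real.exp_add, Real.exp_log h0, pow_two]

end U1A

open U1A

theorem s_U1 (hE0 : StE0) (hE2 : StE2) (hE4 : StE4) (hMU : StMU) (hSt : StSt) (hSi : StSi)
    (hBF : StBF) (hTA : StTA) (hEA : StEA) : StU1 := by
  intro J _ _ h δ ε A hinj h0 h1 hε
  obtain ⟨A', hA'⟩ := hEA J δ A h0 h1
  obtain ⟨e, he0, he1, he2⟩ : ∃ e : ℝ, 0 < e ∧ e ≤ 1 / 3 ∧ 3 * e ≤ ε :=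
    ⟨min ε 1 / 3, by positivity, by linarith [min_le_right ε 1], by linarith [min_le_left ε 1]⟩
  obtain ⟨k, hk⟩ : ∃ k : ℝ, k = Fintype.card J + 1 := ⟨_, rfl⟩
  have k1 : (Fintype.card J : ℝ) ≤ k := by linarith
  have k2 : 1 ≤ k := by linarith [Nat.cast_nonneg (α := ℝ) (Fintype.card J)]
  refine ((((hTA J h δ e (4 * 3 + 3) (6 + A') hinj h0 h1 he0 (by norm_num)).and
    (big h (max (14 * k) (2 * 42 * k ^ 2 / (e / 2))))).and (Ev.of_w h 2 hA')).and
    (Ev.of_w h (P := fun _ N => _) 0 fun _ _ => hBF δ h0 h1)).mono ?_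
  rintro w b N ⟨⟨⟨hT, w2, wh, wM⟩, hP, hS⟩, -, -, -, -, -, R2, hD⟩ i j hij C hC
  obtain ⟨s1, s2, s3, -⟩ := hSi w (RR δ N) w2
  have hr : ∀ p, 0 ≤ rr w (RR δ N) p := fun p => (s1 p).1
  have hL : 0 ≤ Real.log (RR δ N) := Real.log_natCast_nonneg _
  have hw : (0 : ℝ) < w := Nat.cast_pos.2 (by omega)
  have hX := ex hE0 hE2 hE4 s3 hij (by norm_num) (hS _ hL) (hP _ C hC) (by rw [exp2 R2]; exact hD :
    _ ≤ (N : ℝ) ^ (1 / 2 - 3 * δ / 2))
  have a1 := (hT i _ (fun o => mul_nonneg (sq_nonneg _) (sq_nonneg _)) hX).2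
  have a2 := hMU _ J (rr w (RR δ N)) (qq w (RR δ N)) k (Real.log (RR δ N)) i j ∅ C k1 k2
    (sm s1 (le_of_max_le_left wM)) hij hL hC.2.1 hC.1
  simp only [(hSt J h w (RR δ N) _ hinj wh).2 j] at a1
  refine le_trans a1 (add_le_add_left ?_ _)
  rw [sum_empty, mul_zero, add_zero] at a2
  have a3 := small (half_pos he0) hw (by norm_num) s2 (le_of_max_le_right wM)
  have a4 : 0 ≤ 42 * k ^ 2 * eta (rr w (RR δ N)) :=
    mul_nonneg (by positivity) (sum_nonneg fun _ _ => sq_nonneg _)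
  have a5 := (abs_le.1 (Real.abs_exp_sub_one_le (x := 42 * k ^ 2 * eta (rr w (RR δ N)))
    (by rw [abs_of_nonneg a4]; linarith))).2
  rw [abs_of_nonneg a4] at a5
  have b1 := be_nn w N
  have b2 : 0 ≤ QQ (rr w (RR δ N)) C / GA w (RR δ N) (Real.log (RR δ N)) :=
    div_nonneg (QQ_nn hr C) (GG_nn hr _ _)
  refine (mul_le_mul_of_nonneg_left a2 (by positivity)).trans ?_
  rw [mul_div_assoc, mul_div_assoc]
  have b3 : (1 + e) * Real.exp (42 * k ^ 2 * eta (rr w (RR δ N))) ≤ 1 + ε := by nlinarith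
  have b4 := mul_le_mul_of_nonneg_right b3 (mul_nonneg b1 b2)
  unfold GA at b4 ⊢
  linarith

theorem s_L1 (hE0 : StE0) (hE2 : StE2) (hE3 : StE3) (hE4 : StE4) (hML : StML) (hSt : StSt)
    (hSi : StSi) (hBF : StBF) (hEt : StEt) (hTA : StTA) (hEA : StEA) : StL1 := by
  intro J _ _ h δ ε A hinj h0 h1 hε
  obtain ⟨A', hA'⟩ := hEA J δ A h0 h1
  obtain ⟨e, he0, he1, he2⟩ : ∃ e : ℝ, 0 < e ∧ e ≤ 1 / 3 ∧ 3 * e ≤ ε :=
    ⟨min ε 1 / 3, by positivity, by linarith [min_le_right ε 1], by linarith [min_le_left ε 1]⟩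
  obtain ⟨k, hk⟩ : ∃ k : ℝ, k = Fintype.card J + 1 := ⟨_, rfl⟩
  have k1 : (Fintype.card J : ℝ) ≤ k := by linarith
  have k2 : 1 ≤ k := by linarith [Nat.cast_nonneg (α := ℝ) (Fintype.card J)]
  refine (((((hTA J h δ e (4 * (1 + 3 + 1 * 3) + 3) (6 + A') hinj h0 h1 he0 (by norm_num)).and
    (big h (max (14 * k) (2 * 110 * k ^ 2 / (e / 500))))).and (Ev.of_w h 2 hA')).and
    (Ev.of_w h (P := fun _ N => _) 0 fun _ _ => hBF δ h0 h1)).and
    (Ew.ev h hEt (δ := δ) (by linarith))).mono ?_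
  rintro w b N ⟨⟨⟨⟨hT, w2, wh, wM⟩, hP, hS⟩, -, -, -, -, -, R2, hD⟩, t1, t2, t3, t4, t5, -⟩
    i j hij C hC
  obtain ⟨s1, s2, s3, -⟩ := hSi w (RR δ N) w2
  have hr : ∀ p, 0 ≤ rr w (RR δ N) p := fun p => (s1 p).1
  have hL : 0 ≤ Real.log (RR δ N) := Real.log_natCast_nonneg _
  have hE : 0 ≤ ee (RR δ N) := div_nonneg hL (by norm_num)
  have hw : (0 : ℝ) < w := Nat.cast_pos.2 (by omega)
  have hww : ∀ p, ww w (RR δ N) p ≠ 0 → 180 * ee (RR δ N) < Real.log (qq w (RR δ N) p) ∧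
      Real.log (qq w (RR δ N) p) ≤ 181 * ee (RR δ N) := fun p hp => by
    by_contra hn
    exact hp (if_neg hn)
  have hY := hE2 _ _ _ _ _ _ _ _ _ _ _ _ s3 (by norm_num) (by norm_num)
    (hE3 _ (ww w (RR δ N)) (qq w (RR δ N)) (Real.exp (181 * ee (RR δ N)))
      (fun p => by rw [abs_of_nonneg (t5 p).1]; exact (t5 p).2) fun p hp =>
        (Real.log_le_iff_le_exp (Nat.cast_pos.2 (s3 p))).1 (hww p hp).2)
    (hS (109 * ee (RR δ N)) (by positivity))
  rw [one_mul] at hY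
  have hX := ex hE0 hE2 hE4 s3 hij (by norm_num) hY (hP _ C hC) (le_trans (by
    refine mul_le_mul_of_nonneg_right ?_ (by positivity)
    rw [← exp2 R2, ← Real.exp_add, Real.exp_le_exp]
    unfold ee
    linarith) hD)
  have a1 := (hT i _ (fun o => mul_nonneg (mul_nonneg (sum_nonneg fun p _ =>
    mul_nonneg (t5 p).1 (by unfold ind; split_ifs <;> norm_num)) (sq_nonneg _))
    (sq_nonneg _)) hX).1
  have a3 := small (show 0 < e / 500 by positivity) hw (by norm_num) s2 (le_of_max_le_right wM)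
  have a4 : 0 ≤ eta (rr w (RR δ N)) := sum_nonneg fun _ _ => sq_nonneg _
  have a2 := hML _ J (rr w (RR δ N)) (ww w (RR δ N)) (qq w (RR δ N)) k (109 * ee (RR δ N)) i j C
    k1 k2 (sm s1 (le_of_max_le_left wM)) hij (by positivity) hC.2.1 hC.1
    (by nlinarith [mul_le_mul_of_nonneg_right (one_le_pow₀ k2 (n := 2)) a4]) t5
    fun p hp => by linarith [(hww p hp).1]
  simp only [(hSt J h w (RR δ N) _ hinj wh).2 j] at a1
  refine le_trans (sub_le_sub_right ?_ _) a1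
  have b1 := be_nn w N
  have b2 : 0 ≤ QQ (rr w (RR δ N)) C / GA w (RR δ N) (109 * ee (RR δ N)) :=
    div_nonneg (QQ_nn hr C) (GG_nn hr _ _)
  refine le_trans ?_ (mul_le_mul_of_nonneg_left a2 (mul_nonneg (by linarith) b1))
  have b5 : 110 * k ^ 2 * eta (rr w (RR δ N)) * (1 + ∑ p, ww w (RR δ N) p * rr w (RR δ N) p) ≤
      e * Et w (RR δ N) := by
    refine (mul_le_mul a3 (show _ ≤ (2 : ℝ) by linarith) (by linarith) (by positivity)).trans ?_
    nlinarith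
  have b3 : (1 - ε) * Et w (RR δ N) ≤ (1 - e) * ((∑ p, ww w (RR δ N) p * rr w (RR δ N) p) -
      110 * k ^ 2 * eta (rr w (RR δ N)) * (1 + ∑ p, ww w (RR δ N) p * rr w (RR δ N) p)) := by
    refine le_trans ?_ (mul_le_mul_of_nonneg_left
      (show (1 - e) * Et w (RR δ N) ≤ _ by linarith) (by linarith))
    rw [← mul_assoc]
    exact mul_le_mul_of_nonneg_right (by nlinarith) (by linarith)
  have b4 := mul_le_mul_of_nonneg_right b3 (mul_nonneg b1 b2)
  unfold GA at b4 ⊢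
  refine le_trans (le_of_eq ?_) (b4.trans (le_of_eq ?_)) <;> ring

end Pool.Agent.MP_43e117_nt.PG

end
end

section

/-!
The contribution of the integers with a very small prime factor.
-/

open Finset Filter

noncomputable section

namespace Pool.Agent.MP_43e117_nt.PG

namespace U2A

theorem loglog {c : ℝ} (hc : 0 < c) :
    ∀ᶠ R : ℕ in atTop, Real.log (15 * Real.log R) ≤ c * Real.log R := by
  have t : Tendsto (fun R : ℕ => 15 * Real.log R) atTop atTop :=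
    (Real.tendsto_log_atTop.comp tendsto_natCast_atTop_atTop).const_mul_atTop (by norm_num)
  filter_upwards [t.eventually (Real.isLittleO_log_id_atTop.bound (show 0 < c / 15 by positivity))]
    with R hR
  have h0 : 0 ≤ Real.log R := Real.log_natCast_nonneg R
  rw [id, Real.norm_of_nonneg (by positivity : 0 ≤ 15 * Real.log R)] at hR
  have := (le_abs_self _).trans hR
  linarith

theorem incr (hGI : StGI) : Ew fun w R => ∃ C : ℝ, 0 ≤ C ∧
    (∀ t' t : ℝ, t' ≤ t → GA w R t - GA w R t' ≤ 3 / 2 * VV w * (t - t') + C) ∧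
    C * (4 * Real.log (15 * Real.log R)) ≤ VV w * ee R / 50 := by
  obtain ⟨w0, H⟩ := hGI
  refine ⟨w0, fun w hw => ?_⟩
  obtain ⟨C, hC, H⟩ := H w hw
  have hV := VV_pos w
  filter_upwards [loglog (show 0 < VV w / (40000 * (C + 1)) by positivity)] with R hR
  refine ⟨C, hC, H R, ?_⟩
  have h0 : 0 ≤ Real.log R := Real.log_natCast_nonneg R
  have h1 := mul_le_mul_of_nonneg_left hR hC
  have h2 : C * (VV w / (40000 * (C + 1)) * Real.log R) ≤ VV w * Real.log R / 40000 := by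
    rw [show C * (VV w / (40000 * (C + 1)) * Real.log R) =
      VV w * Real.log R / 40000 * (C / (C + 1)) by field_simp]
    exact mul_le_of_le_one_right (by positivity) ((div_le_one (by positivity)).2 (by linarith))
  unfold ee
  linarith

theorem ind_nn {ι : Type} (p : ι) (u : ι → Option Unit) : 0 ≤ ind p u := by
  unfold ind
  split_ifs <;> norm_num

theorem tt_ind {ι : Type} [Fintype ι] [DecidableEq ι] (Z : Finset ι) (u : ι → Option Unit) :
    tt (fun p => if p ∈ Z then 1 else 0) u = ∑ l ∈ Z, ind l u := by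
  simp [tt]

theorem QQ_nn {ι J : Type} [Fintype ι] [DecidableEq ι] [Fintype J] [DecidableEq J] {r : ι → ℝ}
    (hr : ∀ p, 0 ≤ r p) (C : (ι → Option J) → ℝ) : 0 ≤ QQ r C :=
  sum_nonneg fun σ _ => mul_nonneg (hh_nonneg hr σ) (sq_nonneg _)

theorem num {Q E E' S G x b : ℝ} (hQ : 0 ≤ Q) (hb : 0 ≤ b) (hG : 0 < G) (hE : 0 ≤ E') (hS : 0 ≤ S)
    (h1 : E' ≤ 11 / 10 * E) (h2 : S ≤ 172 / 10000 * G) (hx : x ≤ 3 / 2 * Q * E' * S / G ^ 2) :
    (1 + 1 / 20) * b * x ≤ 3 / 100 * b * Q * E / G := by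
  have h3 : E' * S ≤ 11 / 10 * E * (172 / 10000 * G) := mul_le_mul h1 h2 hS (hE.trans h1)
  have hE0 : 0 ≤ E := by linarith
  have h4 : x ≤ 3 / 2 * (11 / 10) * (172 / 10000) * (Q * E / G) := by
    refine hx.trans ?_
    rw [div_le_iff₀ (by positivity), show 3 / 2 * (11 / 10) * (172 / 10000) * (Q * E / G) * G ^ 2 =
      3 / 2 * Q * (11 / 10 * E * (172 / 10000 * G)) by field_simp, mul_assoc (3 / 2 * Q)]
    exact mul_le_mul_of_nonneg_left h3 (by positivity)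
  have h5 : 0 ≤ b * (Q * E / G) := by positivity
  have h6 := mul_le_mul_of_nonneg_left h4 hb
  rw [show 3 / 100 * b * Q * E / G = 3 / 100 * (b * (Q * E / G)) by ring]
  nlinarith

end U2A

open U2A in
theorem s_U2 (hE0 : StE0) (hE2 : StE2) (hE3 : StE3) (hE4 : StE4) (hMG : StMG) (hSt : StSt)
    (hSi : StSi) (hBF : StBF) (hEt : StEt) (hGI : StGI) (hGA : StGA) (hTA : StTA) (hEA : StEA) :
    StU2 := by
  intro J _ _ h δ A hinj hδ hδ2
  obtain ⟨A', hA'⟩ := hEA J δ A hδ hδ2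
  have hd : δ < 1 / 4 := by linarith
  refine (((((hTA J h δ (1 / 20) 63 (6 + A') hinj hδ hδ2 (by norm_num) (by norm_num)).and
    (Ev.of_w h 2 hA')).and (Ev.of_w h 0 fun _ _ => hBF δ hδ hδ2)).and
    ((hEt.and ((incr hGI).and (hGA (1 / 200) (by norm_num)))).ev h hd)).and
    (Ev.cop h (univ.sup h + 7000 + 336 * (Fintype.card J + 1) ^ 2))).mono ?_
  rintro w b N ⟨⟨⟨⟨hT, hP, hS⟩, -, -, -, -, -, hR2, hlev⟩, ⟨-, -, -, e4, e5, e6⟩, ⟨C0, hC0, hI, hC1⟩,
    hG⟩, hw, -⟩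
  set R := RR δ N with hR
  intro i j hij C hC
  obtain ⟨⟨s1, s2, s3, -, s5, -⟩⟩ : Nonempty _ := ⟨hSi w R (by omega)⟩
  have hh : ∀ l, h l ≤ w := fun l => (le_sup (f := h) (mem_univ l)).trans (by omega)
  have hRp : (2 : ℝ) ≤ R := by exact_mod_cast hR2
  have hL : 0 < Real.log R := Real.log_pos (by linarith)
  have hLe : Real.log R = 200 * ee R := by unfold ee; ring
  have he : 0 < ee R := by linarith
  have hV := VV_pos w
  have hr : ∀ p, 0 ≤ rr w R p := fun p => (s1 p).1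
  have hq : ∀ p : Si w R, (0 : ℝ) < qq w R p := fun p => by exact_mod_cast s3 p
  have hww : ∀ p, ww w R p ≠ 0 → 180 * ee R < Real.log (qq w R p) ∧
      Real.log (qq w R p) ≤ 181 * ee R := fun p hp => by
    by_contra H
    exact hp (if_neg H)
  have hZ : ∀ p, p ∈ ZZ w R → Real.log (qq w R p) ≤ ee R := fun p hp => (mem_filter.1 hp).2
  have x1 := hE3 _ (fun p => if p ∈ ZZ w R then 1 else 0) (qq w R) (Real.exp (ee R))
    (fun p => by split_ifs <;> norm_num) fun p hp =>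
      (Real.log_le_iff_le_exp (hq p)).1 (hZ p (by by_contra H; exact hp (if_neg H)))
  have x2 := hE3 _ (ww w R) (qq w R) (Real.exp (181 * ee R))
    (fun p => abs_le.2 ⟨by linarith [(e5 p).1], (e5 p).2⟩) fun p hp =>
      (Real.log_le_iff_le_exp (hq p)).1 (hww p hp).2
  have x3 := hE2 _ _ _ _ _ _ _ _ _ _ _ _ s3 (by norm_num) (by norm_num) x1
    (hE2 _ _ _ _ _ _ _ _ _ _ _ _ s3 (by norm_num) (by norm_num) x2 (hS (109 * ee R) (by linarith)))
  have x4 := hE2 _ _ _ _ _ _ _ _ _ _ _ _ s3 (by norm_num) (by norm_num)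
    (hE4 _ J _ (fun l => l ≠ i) j _ _ _ _ hij.symm x3)
    (hE0 _ _ _ _ (fun l => l ≠ i) _ _ _ _ _ _ _ (hP _ C hC) le_rfl le_rfl (by norm_num) le_rfl
      fun _ hl => hl.1)
  have x5 := hE0 _ _ _ _ (fun l => l ≠ i) _ _ _ _ ((N : ℝ) ^ (1 / 2 - 3 * δ / 2))
    (Real.log N ^ (6 + A')) 63 x4 (by
      refine le_trans (le_of_eq ?_) hlev
      rw [← Real.exp_add, ← Real.exp_add, show ee R + (181 * ee R + 2 * (109 * ee R)) =
        Real.log R + Real.log R by linarith, Real.exp_add, Real.exp_log (by linarith), sq])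
    (by rw [pow_add, one_mul, one_mul]) (by norm_num) (by norm_num) fun _ hl => hl
  simp only [tt_ind] at x5
  have t1 := (hT i _ (fun o => mul_nonneg (mul_nonneg (sum_nonneg fun l _ => ind_nn _ _)
    (mul_nonneg (sum_nonneg fun p _ => mul_nonneg (e5 p).1 (ind_nn _ _)) (sq_nonneg _)))
    (sq_nonneg _)) x5).2
  simp only [(hSt J h w R _ hinj hh).2] at t1
  refine le_trans (le_of_eq rfl) (t1.trans (add_le_add_left ?_ _))
  have hw' : (7000 : ℝ) + 336 * (Fintype.card J + 1) ^ 2 ≤ w := by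
    exact_mod_cast (by omega : 7000 + 336 * (Fintype.card J + 1) ^ 2 ≤ w)
  have hk : (0 : ℝ) ≤ Fintype.card J := Nat.cast_nonneg _
  have hw0 : (7000 : ℝ) ≤ w := by nlinarith
  have het : eta (rr w R) * w ≤ 2 := (le_div_iff₀ (by linarith)).1 s2
  have het0 : 0 ≤ eta (rr w R) := sum_nonneg fun _ _ => sq_nonneg _
  have m1 := hMG _ J (rr w R) (ww w R) (fun l => 3 / 2 * VV w * Real.log (qq w R l) + C0) (qq w R)
    (Fintype.card J + 1) (109 * ee R) i j (ZZ w R) C (by linarith) (by linarith)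
    (fun p => ⟨hr p, le_trans (mul_le_mul_of_nonneg_right (by nlinarith) (hr p)) (s1 p).2⟩) hij
    (by linarith) hC.2.1 hC.1 (by nlinarith) (fun p => (e5 p).1)
    (fun p hp => by linarith [(hww p hp).1])
    (fun l hl => by
      by_contra H
      linarith [(hww l H).1, hZ l hl])
    fun l _ x _ => by
      have := hI (x - Real.log (qq w R l)) x (by linarith [Real.log_natCast_nonneg (qq w R l)])
      rwa [sub_sub_cancel] at this
  have g1 : 108 * (VV w * ee R) ≤ GA w R (109 * ee R) := by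
    have := (abs_le.1 (hG (109 * ee R) (by linarith))).1
    rw [max_eq_left (by linarith), hLe] at this
    linarith
  have hVe : 0 < VV w * ee R := by positivity
  have hG0 : 0 < GA w R (109 * ee R) := by linarith
  refine num (QQ_nn hr C) (div_nonneg (Nat.cast_nonneg _) (Nat.cast_nonneg _)) hG0
    (sum_nonneg fun p _ => mul_nonneg (e5 p).1 (hr p)) (sum_nonneg fun l _ => ?_) e4 ?_ m1
  · have := hr l
    have := Real.log_natCast_nonneg (qq w R l)
    have : 0 < GG (rr w R) (qq w R) (109 * ee R) := hG0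
    positivity
  · have a1 : ∑ l ∈ ZZ w R, rr w R l ≤ 4 * Real.log (15 * Real.log R) :=
      (sum_le_univ_sum_of_nonneg hr).trans (s5 hR2)
    have a2 : ∑ l ∈ ZZ w R, rr w R l * rr w R l ^ 2 ≤ eta (rr w R) := by
      refine le_trans (sum_le_sum fun l _ => ?_) (sum_le_univ_sum_of_nonneg fun _ => sq_nonneg _)
      refine mul_le_of_le_one_left (sq_nonneg _) ?_
      nlinarith [(s1 l).2, hr l]
    have a3 : ∑ l ∈ ZZ w R, rr w R l * (3 / 2 * VV w * Real.log (qq w R l) + C0 +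
        rr w R l ^ 2 * GG (rr w R) (qq w R) (109 * ee R)) =
        3 / 2 * VV w * ∑ l ∈ ZZ w R, rr w R l * Real.log l.1 + C0 * ∑ l ∈ ZZ w R, rr w R l +
        GA w R (109 * ee R) * ∑ l ∈ ZZ w R, rr w R l * rr w R l ^ 2 := by
      simp only [mul_sum, ← sum_add_distrib]
      exact sum_congr rfl fun l _ => by unfold GA qq; ring
    have a4 : eta (rr w R) ≤ 1 / 3500 := by nlinarith
    rw [a3]
    nlinarith [mul_le_mul_of_nonneg_left a1 hC0, mul_le_mul_of_nonneg_left (a2.trans a4) hG0.le,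
      mul_le_mul_of_nonneg_left e6 hV.le]

end Pool.Agent.MP_43e117_nt.PG

end
end
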