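import Pool.Agent.Mg.F436a94p.G397d9a

set_option linter.all false

section

/-!
Upper bounds for the diagonal form of the truncated product weights.
-/

open Finset

noncomputable section

namespace Pool.Agent.MP_43e117_nt.PG

open MP_fdd1d3_nt (LL SS mem_SS)

namespace Y1A

variable {ι J : Type} [Fintype ι] [DecidableEq ι] [Fintype J] [DecidableEq J] {r : ι → ℝ}

omit [Fintype ι] [DecidableEq ι] in
theorem hs_nonneg (hr : ∀ p, 0 ≤ r p) (s : Finset ι) : 0 ≤ hs r s := prod_nonneg fun p _ => hr p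

theorem qq_le (hr : ∀ p, 0 ≤ r p) {C : (ι → Option J) → ℝ} {M : ℝ} {G : J → Finset ι → ℝ}
    (hC : ∀ σ, |C σ| ≤ M * ∏ l, G l (SS σ l)) :
    QQ r C ≤ M ^ 2 * ∏ l, ∑ s, hs r s * G l s ^ 2 := by
  rw [Fintype.prod_sum]
  refine le_trans ?_ (mul_le_mul_of_nonneg_left (MP_fdd1d3_nt.sum_SS_le
    (fun S : J → Finset ι => ∏ l, hs r (S l) * G l (S l) ^ 2) fun S =>
      prod_nonneg fun l _ => mul_nonneg (hs_nonneg hr _) (sq_nonneg _)) (sq_nonneg M))
  rw [mul_sum]
  refine sum_le_sum fun σ _ => ?_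
  have h := pow_le_pow_left₀ (abs_nonneg _) (hC σ) 2
  rw [sq_abs] at h
  refine (mul_le_mul_of_nonneg_left h (hh_nonneg hr σ)).trans_eq ?_
  rw [prod_mul_distrib, prod_pow, hh_eq]
  ring

theorem red_le (hr : ∀ p, 0 ≤ r p) (i : J) {C : (ι → Option J) → ℝ} {M : ℝ}
    {G : J → Finset ι → ℝ} (hM : 0 ≤ M) (hG : ∀ l s, 0 ≤ G l s)
    (hC : ∀ σ, |C σ| ≤ M * ∏ l, G l (SS σ l)) (τ : ι → Option J) :
    |red r i C τ| ≤ (M * ∑ s, hs r s * G i s) *
      ∏ l, Function.update G i (fun s => if s = ∅ then 1 else 0) l (SS τ l) := by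
  have h0 : ∀ s, 0 ≤ hs r s * G i s := fun s => mul_nonneg (hs_nonneg hr s) (hG i s)
  have hP : 0 ≤ ∏ l ∈ univ.erase i, G l (SS τ l) := prod_nonneg fun l _ => hG _ _
  rw [← mul_prod_erase univ _ (mem_univ i), Function.update_self,
    prod_congr rfl fun l hl => congrFun (Function.update_of_ne (ne_of_mem_erase hl) _ G) (SS τ l)]
  unfold red rd
  split_ifs with h h1 h1
  · rw [one_mul]
    refine (abs_sum_le_sum_abs _ _).trans ?_
    refine (sum_le_sum (g := fun ρ => M * (∏ l ∈ univ.erase i, G l (SS τ l)) *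
      (hs r (SS ρ i) * G i (SS ρ i))) fun ρ hρ => ?_).trans ?_
    · simp only [mem_filter, mem_univ, true_and] at hρ
      have e1 : SS (jn ρ τ) i = SS ρ i := by
        ext p
        rcases hρ p with h2 | ⟨h2, l, h3, h4⟩
        · simpa [mem_SS, jn, h2] using fun h5 => h p i h5 rfl
        · simp [mem_SS, jn, h2]
      have e2 : ∀ l ∈ univ.erase i, SS (jn ρ τ) l = SS τ l := fun l hl => by
        ext p
        rcases hρ p with h2 | ⟨h2, l', h3, rfl⟩
        · simp [mem_SS, jn, h2]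
        · simp [mem_SS, jn, h2, h3, (ne_of_mem_erase hl).symm]
      have e3 : hh r ρ = hs r (SS ρ i) := by
        rw [hh_eq]
        refine Fintype.prod_eq_single i fun l hl => ?_
        have : SS ρ l = ∅ := by
          ext p
          rcases hρ p with h2 | ⟨h2, l', h3, rfl⟩
          · simp [mem_SS, h2]
          · simp [mem_SS, h3, hl.symm]
        rw [this, hs, prod_empty]
      have e4 := hC (jn ρ τ)
      rw [← mul_prod_erase univ _ (mem_univ i), e1,
        prod_congr rfl fun l hl => congrArg (G l) (e2 l hl)] at e4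
      rw [abs_mul, abs_of_nonneg (hh_nonneg hr ρ), e3]
      exact (mul_le_mul_of_nonneg_left e4 (hs_nonneg hr _)).trans_eq (by ring)
    · rw [← mul_sum, mul_right_comm]
      refine mul_le_mul_of_nonneg_right (mul_le_mul_of_nonneg_left ?_ hM) hP
      rw [← sum_image (g := fun ρ : ι → Option J => SS ρ i) (f := fun s => hs r s * G i s)]
      · exact sum_le_sum_of_subset_of_nonneg (subset_univ _) fun s _ _ => h0 s
      · intro ρ hρ ρ' hρ' e
        simp only [mem_coe, mem_filter, mem_univ, true_and] at hρ hρ'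
        funext p
        have e1 : ρ p = some i ↔ ρ' p = some i := by
          rw [← mem_SS, ← mem_SS, show SS ρ i = SS ρ' i from e]
        rcases hρ p with h2 | ⟨-, l, h2, rfl⟩
        · rcases hρ' p with h3 | ⟨-, l, h3, rfl⟩
          · rw [h2, h3]
          · rw [e1.2 h3, h3]
        · rw [e1.1 h2, h2]
  · exact (h1 (eq_empty_of_forall_notMem fun p hp => h p i ((mem_SS _ _ _).1 hp) rfl)).elim
  · rw [abs_zero, one_mul]
    exact mul_nonneg (mul_nonneg hM (sum_nonneg fun s _ => h0 s)) hP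
  · simp

theorem abs_yy (q : ι → ℕ) {g : Finset ι → ℝ} (hg : Gd g) (D : ℝ) (σ : ι → Option J) :
    |yy q g D σ| ≤ 1 * ∏ l, g (SS σ l) := by
  have h : 0 ≤ ∏ l, g (SS σ l) := prod_nonneg fun l _ => (hg.1 _).1
  unfold yy
  split_ifs
  · rw [abs_of_nonneg h, one_mul]
  · simpa using h

omit [Fintype ι] [Fintype J] in
theorem upd_nonneg {G : J → Finset ι → ℝ} (hG : ∀ l s, 0 ≤ G l s) (i l : J) (s : Finset ι) :
    0 ≤ Function.update G i (fun s => if s = ∅ then (1 : ℝ) else 0) l s := by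
  rcases eq_or_ne l i with rfl | h
  · rw [Function.update_self]; split_ifs <;> norm_num
  · rw [Function.update_of_ne h]; exact hG l s

end Y1A

open Y1A

theorem s_Y1 : StY1 := by
  intro ι J _ _ _ _ r q g D hr hq hg
  have h0 : ∀ σ : ι → Option J, 0 ≤ yy q g D σ := fun σ => by
    unfold yy
    split_ifs
    exacts [prod_nonneg fun l _ => (hg.1 _).1, le_rfl]
  refine ⟨⟨h0, fun σ p => ?_⟩, fun σ => ⟨?_, fun h => ?_⟩, ?_⟩
  · have e : ∀ j, SS (Function.update σ p none) j = (SS σ j).erase p := fun j => by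
      ext x
      rcases eq_or_ne x p with rfl | h
      · simp [mem_SS]
      · simp [mem_SS, h]
    by_cases h : ∑ j, LL q (SS σ j) ≤ D
    · have h1 : ∑ j, LL q (SS (Function.update σ p none) j) ≤ D :=
        (sum_le_sum fun j _ => by
          rw [e]
          exact sum_le_sum_of_subset_of_nonneg (erase_subset _ _)
            fun x _ _ => Real.log_natCast_nonneg _).trans h
      rw [yy, yy, if_pos h, if_pos h1]
      exact prod_le_prod (fun j _ => (hg.1 _).1) fun j _ => by rw [e]; exact hg.2 _ _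
    · rw [yy, if_neg h]
      exact h0 _
  · refine ((le_abs_self _).trans (abs_yy q hg D σ)).trans ?_
    rw [one_mul]
    exact prod_le_one (fun l _ => (hg.1 _).1) fun l _ => (hg.1 _).2
  · have e : (dn q σ : ℝ) = MP_fdd1d3_nt.dm q σ := by
      rw [dn, Nat.cast_prod]
      exact prod_congr rfl fun p _ => by cases σ p <;> simp
    rw [e, MP_fdd1d3_nt.dm_eq_exp q hq]
    exact Real.exp_le_exp.2 (by_contra fun h1 => h (if_neg h1))
  · simpa [ga] using qq_le hr (G := fun _ : J => g) (abs_yy q hg D)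

theorem s_Y3 : StY3 := by
  intro ι J _ _ _ _ r q g D i j hr hg hij
  have g0 : ∀ (_ : J) s, 0 ≤ g s := fun _ s => (hg.1 s).1
  have h1 := red_le hr i (G := fun _ : J => g) zero_le_one g0 (abs_yy q hg D)
  have h2 := qq_le hr (red_le hr j (mul_nonneg zero_le_one
    (sum_nonneg fun s _ => mul_nonneg (hs_nonneg hr s) (g0 i s))) (upd_nonneg g0 i) h1)
  have e : ∑ s : Finset ι, hs r s * (if s = ∅ then (1 : ℝ) else 0) ^ 2 = 1 := by simp [hs]
  refine h2.trans_eq ?_
  rw [← mul_prod_erase univ _ (mem_univ j),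
    ← mul_prod_erase _ _ (mem_erase.2 ⟨hij, mem_univ i⟩), Function.update_self,
    Function.update_of_ne hij, Function.update_self, Function.update_of_ne hij.symm, e,
    prod_congr rfl (g := fun _ => ga r g) fun l hl => by
      rw [Function.update_of_ne (ne_of_mem_erase (mem_of_mem_erase hl)),
        Function.update_of_ne (ne_of_mem_erase hl), ga],
    prod_const, card_erase_of_mem (mem_erase.2 ⟨hij, mem_univ i⟩), card_erase_of_mem (mem_univ j),
    card_univ, Nat.sub_sub, m1]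
  ring

end Pool.Agent.MP_43e117_nt.PG

end
end

section

/-!
Lower bound for the diagonal form of the reduced product weights.
-/

open Finset

noncomputable section

namespace Pool.Agent.MP_43e117_nt.PG

open MP_fdd1d3_nt (LL SS mem_SS sum_SS_le sum_le_SS sum_label LL_nonneg)

namespace Y2A

variable {ι J : Type} [Fintype ι] [DecidableEq ι] [Fintype J] [DecidableEq J]

omit [Fintype ι] [DecidableEq ι] in
theorem hs_nonneg {r : ι → ℝ} (hr : ∀ p, 0 ≤ r p) (s : Finset ι) : 0 ≤ hs r s :=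
  prod_nonneg fun p _ => hr p

theorem mem_le {r : ι → ℝ} (hr : ∀ p, 0 ≤ r p) {φ : Finset ι → ℝ} (h0 : ∀ s, 0 ≤ φ s)
    (h1 : ∀ s p, φ s ≤ φ (s.erase p)) (p : ι) :
    ∑ s, (if p ∈ s then hs r s * φ s else 0) ≤ r p * ∑ s, hs r s * φ s := by
  rw [← sum_filter]
  calc _ ≤ ∑ s ∈ univ.filter (fun s : Finset ι => p ∈ s),
        r p * (hs r (s.erase p) * φ (s.erase p)) := by
        refine sum_le_sum fun s h => ?_
        rw [hs, ← mul_prod_erase s _ (mem_filter.1 h).2, mul_assoc]
        exact mul_le_mul_of_nonneg_left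
          (mul_le_mul_of_nonneg_left (h1 s p) (hs_nonneg hr _)) (hr p)
    _ ≤ _ := by
        rw [← mul_sum]
        refine mul_le_mul_of_nonneg_left ?_ (hr p)
        rw [← sum_image (g := fun s : Finset ι => s.erase p) (f := fun s => hs r s * φ s)]
        · exact sum_le_sum_of_subset_of_nonneg (subset_univ _) fun s _ _ =>
            mul_nonneg (hs_nonneg hr s) (h0 s)
        · intro s h s' h' e
          rw [← insert_erase (mem_filter.1 (mem_coe.1 h)).2,
            ← insert_erase (mem_filter.1 (mem_coe.1 h')).2]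
          exact congrArg _ e

theorem markA {ν : J → Finset ι → ℝ} (hν : ∀ l s, 0 ≤ ν l s) {p : ι} {c : ℝ}
    (h : ∀ l, ∑ s, (if p ∈ s then ν l s else 0) ≤ c * ∑ s, ν l s) (A : Finset J) :
    ∑ S : J → Finset ι, (if ∀ l ∈ A, p ∈ S l then ∏ l, ν l (S l) else 0) ≤
      c ^ A.card * ∏ l, ∑ s, ν l s := by
  have e1 : ∀ S : J → Finset ι, (if ∀ l ∈ A, p ∈ S l then ∏ l, ν l (S l) else 0) =
      ∏ l, (if l ∈ A then (if p ∈ S l then ν l (S l) else 0) else ν l (S l)) := by
    intro S
    split_ifs with h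
    · refine prod_congr rfl fun l _ => ?_
      split_ifs with h1 h2
      exacts [rfl, absurd (h l h1) h2, rfl]
    · obtain ⟨l, h1⟩ := not_forall.1 h
      obtain ⟨h2, h3⟩ := Classical.not_imp.1 h1
      exact (prod_eq_zero (mem_univ l) (by simp [h2, h3])).symm
  simp only [e1]
  rw [← Fintype.prod_sum (fun (l : J) (s : Finset ι) =>
    if l ∈ A then (if p ∈ s then ν l s else 0) else ν l s)]
  calc _ ≤ ∏ l : J, ((if l ∈ A then c else 1) * ∑ s, ν l s) := by
        refine prod_le_prod (fun l _ => sum_nonneg fun s _ => ?_) fun l _ => ?_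
        · split_ifs
          exacts [hν l s, le_rfl, hν l s]
        · split_ifs
          exacts [h l, by simp]
    _ = _ := by rw [prod_mul_distrib, prod_ite_mem, univ_inter, prod_const]

omit [DecidableEq ι] in
theorem mark (ν : J → Finset ι → ℝ) (F : Finset ι → ℝ) (j : J) :
    ∑ S : J → Finset ι, (∏ l, ν l (S l)) * F (S j) =
      (∑ s, ν j s * F s) * ∏ l ∈ univ.erase j, ∑ s, ν l s := by
  have e1 : ∀ S : J → Finset ι, (∏ l, ν l (S l)) * F (S j) =
      ∏ l, (ν l (S l) * if l = j then F (S l) else 1) := fun S => by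
    rw [prod_mul_distrib, prod_ite_eq' univ j, if_pos (mem_univ _)]
  simp only [e1]
  rw [← Fintype.prod_sum (fun (l : J) (s : Finset ι) => ν l s * if l = j then F s else 1),
    ← mul_prod_erase univ _ (mem_univ j)]
  simp only [if_true]
  exact congrArg _ (prod_congr rfl fun l h => by simp only [if_neg (ne_of_mem_erase h), mul_one])

open Classical in
theorem nondisj {ν : J → Finset ι → ℝ} (hν : ∀ l s, 0 ≤ ν l s) {r : ι → ℝ}
    (h : ∀ p l, ∑ s, (if p ∈ s then ν l s else 0) ≤ r p * ∑ s, ν l s) :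
    ∑ S : J → Finset ι, (if ∃ j j' p, j ≠ j' ∧ p ∈ S j ∧ p ∈ S j' then ∏ l, ν l (S l) else 0) ≤
      (Fintype.card J : ℝ) ^ 2 * eta r * ∏ l, ∑ s, ν l s := by
  have hZ : 0 ≤ ∏ l, ∑ s, ν l s := prod_nonneg fun l _ => sum_nonneg fun s _ => hν l s
  calc _ ≤ ∑ S : J → Finset ι, ∑ x : J × J × ι, (if x.1 ≠ x.2.1 then
          (if ∀ l ∈ ({x.1, x.2.1} : Finset J), x.2.2 ∈ S l then ∏ l, ν l (S l) else 0) else 0) := by
        refine sum_le_sum fun S _ => ?_
        have hn : ∀ x : J × J × ι, 0 ≤ (if x.1 ≠ x.2.1 then (if ∀ l ∈ ({x.1, x.2.1} : Finset J),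
            x.2.2 ∈ S l then ∏ l, ν l (S l) else 0) else 0) := fun x => by
          split_ifs
          exacts [prod_nonneg fun l _ => hν l _, le_rfl, le_rfl]
        split_ifs with h1
        · obtain ⟨j, j', p, h2, h3, h4⟩ := h1
          refine le_trans ?_ (single_le_sum (fun x _ => hn x) (mem_univ (j, j', p)))
          simp [h2, h3, h4]
        · exact sum_nonneg fun x _ => hn x
    _ ≤ ∑ x : J × J × ι, r x.2.2 ^ 2 * ∏ l, ∑ s, ν l s := by
        rw [sum_comm]
        refine sum_le_sum fun x _ => ?_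
        by_cases e : x.1 = x.2.1
        · simp only [e, ne_eq, not_true_eq_false, if_false, sum_const_zero]
          positivity
        · simp only [ne_eq, e, not_false_eq_true, if_true]
          have := markA hν (h x.2.2) {x.1, x.2.1}
          rwa [card_pair e] at this
    _ = _ := by
        simp only [Fintype.sum_prod_type, ← sum_mul, sum_const, card_univ, nsmul_eq_mul, eta]
        ring

theorem supp_le {ν : J → Finset ι → ℝ} (hν : ∀ l s, 0 ≤ ν l s) {r : ι → ℝ} (hr : ∀ p, 0 ≤ r p)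
    (h : ∀ p l, ∑ s, (if p ∈ s then ν l s else 0) ≤ r p * ∑ s, ν l s) :
    ∑ S : J → Finset ι, (∏ l, ν l (S l)) * ∑ j, ∑ p ∈ S j, r p ≤
      (Fintype.card J : ℝ) * eta r * ∏ l, ∑ s, ν l s := by
  calc _ = ∑ S : J → Finset ι, ∑ x : J × ι, r x.2 *
          (if ∀ l ∈ ({x.1} : Finset J), x.2 ∈ S l then ∏ l, ν l (S l) else 0) := by
        refine sum_congr rfl fun S _ => ?_
        rw [Fintype.sum_prod_type, mul_sum]
        refine sum_congr rfl fun j _ => ?_
        simp only [mem_singleton, forall_eq, mul_ite, mul_zero, sum_ite_mem, univ_inter]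
        rw [← sum_mul, mul_comm]
    _ ≤ ∑ x : J × ι, r x.2 ^ 2 * ∏ l, ∑ s, ν l s := by
        rw [sum_comm]
        refine sum_le_sum fun x _ => ?_
        have := markA hν (h x.2) {x.1}
        rw [card_singleton, pow_one] at this
        rw [← mul_sum, sq, mul_assoc]
        exact mul_le_mul_of_nonneg_left this (hr _)
    _ = _ := by
        simp only [Fintype.sum_prod_type, ← sum_mul, sum_const, card_univ, nsmul_eq_mul, eta]

theorem free_le {r : ι → ℝ} (hr : ∀ p, 0 ≤ r p) {g : Finset ι → ℝ} (hg : Gd g)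
    (τ : ι → Option J) : m1 r g * (1 - ∑ j, ∑ p ∈ SS τ j, r p) ≤
      ∑ s ∈ univ.filter (fun s : Finset ι => ∀ p ∈ s, τ p = none), hs r s * g s := by
  have h0 : ∀ s, 0 ≤ hs r s * g s := fun s => mul_nonneg (hs_nonneg hr s) (hg.1 s).1
  have h1 : ∑ s ∈ univ.filter (fun s : Finset ι => ¬ ∀ p ∈ s, τ p = none), hs r s * g s ≤
      ∑ p, (τ p).elim 0 (fun _ => r p) * m1 r g := by
    calc _ ≤ ∑ s : Finset ι, ∑ p, (τ p).elim 0 (fun _ => (1 : ℝ)) *
            if p ∈ s then hs r s * g s else 0 := by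
          rw [sum_filter]
          refine sum_le_sum fun s _ => ?_
          have hn : ∀ p, 0 ≤ (τ p).elim 0 (fun _ => (1 : ℝ)) *
              if p ∈ s then hs r s * g s else 0 := fun p => by
            refine mul_nonneg (by cases τ p <;> simp) ?_
            split_ifs
            exacts [h0 s, le_rfl]
          split_ifs with h
          · exact sum_nonneg fun p _ => hn p
          · obtain ⟨p, h1⟩ := not_forall.1 h
            obtain ⟨h2, h3⟩ := Classical.not_imp.1 h1
            refine le_trans ?_ (single_le_sum (fun p _ => hn p) (mem_univ p))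
            obtain ⟨l, h4⟩ := Option.ne_none_iff_exists'.1 h3
            simp [h2, h4]
      _ ≤ _ := by
          rw [sum_comm]
          refine sum_le_sum fun p _ => ?_
          rw [← mul_sum]
          cases τ p with
          | none => simp
          | some l => simpa [m1] using mem_le hr (fun s => (hg.1 s).1) hg.2 p
  rw [← sum_mul, sum_label] at h1
  have h2 := sum_filter_add_sum_filter_not univ (fun s : Finset ι => ∀ p ∈ s, τ p = none)
    fun s => hs r s * g s
  have h3 : m1 r g = ∑ s, hs r s * g s := rfl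
  linarith

theorem red_ge {r : ι → ℝ} (hr : ∀ p, 0 ≤ r p) {g : Finset ι → ℝ} (hg : Gd g) {q : ι → ℕ}
    {D T : ℝ} (hT : ∀ s, g s ≠ 0 → LL q s ≤ T) {i : J} {τ : ι → Option J} (hi : SS τ i = ∅)
    (hL : ∑ j, LL q (SS τ j) ≤ D - T) :
    (∏ l ∈ univ.erase i, g (SS τ l)) *
      ∑ s ∈ univ.filter (fun s : Finset ι => ∀ p ∈ s, τ p = none), hs r s * g s ≤
      red r i (yy q g D) τ := by
  have hn : ∀ p, τ p ≠ some i := fun p h => by simpa [hi] using (mem_SS τ i p).2 h
  have hy : ∀ σ : ι → Option J, 0 ≤ yy q g D σ := fun σ => by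
    unfold yy
    split_ifs
    exacts [prod_nonneg fun l _ => (hg.1 _).1, le_rfl]
  rw [red, rd, if_pos fun p l h (e : l = i) => hn p (e ▸ h)]
  refine le_trans ?_ (sum_le_sum_of_subset_of_nonneg (s := image
    (fun (s : Finset ι) p => if p ∈ s then some i else none)
    (univ.filter fun s : Finset ι => ∀ p ∈ s, τ p = none)) (fun ρ h => ?_)
    fun ρ _ _ => mul_nonneg (hh_nonneg hr ρ) (hy _))
  · rw [sum_image fun s _ s' _ e => by
      ext p
      have := congrFun e p
      by_cases h1 : p ∈ s <;> by_cases h2 : p ∈ s' <;> simp_all, mul_sum]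
    refine sum_le_sum fun s h => ?_
    have h1 := (mem_filter.1 h).2
    have e1 : hh r (fun p => if p ∈ s then some i else none) = hs r s := by
      rw [hh, hs, ← univ_inter s, ← prod_ite_mem]
      exact prod_congr rfl fun p _ => by by_cases h2 : p ∈ s <;> simp [h2]
    have e2 : SS (jn (fun p => if p ∈ s then some i else none) τ) i = s := by
      ext p
      by_cases h2 : p ∈ s <;> simp [mem_SS, jn, h2, hn p]
    have e3 : ∀ l ∈ univ.erase i,
        SS (jn (fun p => if p ∈ s then some i else none) τ) l = SS τ l := fun l hl => by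
      ext p
      by_cases h2 : p ∈ s
      · simp [mem_SS, jn, h2, h1 p h2, (ne_of_mem_erase hl).symm]
      · simp [mem_SS, jn, h2]
    rw [e1, mul_left_comm]
    refine mul_le_mul_of_nonneg_left ?_ (hs_nonneg hr s)
    by_cases h2 : g s = 0
    · rw [h2, mul_zero]
      exact hy _
    · rw [yy, if_pos, ← mul_prod_erase univ _ (mem_univ i), e2, mul_comm]
      · exact (congrArg _ (prod_congr rfl fun l hl => congrArg g (e3 l hl).symm)).le
      rw [← add_sum_erase univ _ (mem_univ i), hi, LL, sum_empty, zero_add] at hL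
      rw [← add_sum_erase univ _ (mem_univ i), e2,
        sum_congr rfl fun l hl => congrArg (LL q) (e3 l hl)]
      linarith [hT s h2]
  · obtain ⟨s, h1, rfl⟩ := mem_image.1 h
    simp only [mem_filter, mem_univ, true_and]
    intro p
    by_cases h2 : p ∈ s
    · exact Or.inr ⟨(mem_filter.1 h1).2 p h2, i, if_pos h2, rfl⟩
    · exact Or.inl (if_neg h2)

/-- the weights of the labels -/
def nu (r : ι → ℝ) (g : Finset ι → ℝ) (i l : J) (s : Finset ι) : ℝ :=
  if l = i then (if s = ∅ then 1 else 0) else hs r s * g s ^ 2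

theorem point {r : ι → ℝ} (hr : ∀ p, 0 ≤ r p) {g : Finset ι → ℝ} (hg : Gd g) {q : ι → ℕ}
    {D T : ℝ} (hT : ∀ s, g s ≠ 0 → LL q s ≤ T) (hD : T < D) (i : J) (τ : ι → Option J) :
    m1 r g ^ 2 * ((∏ l, nu r g i l (SS τ l)) *
      (1 - (∑ j, LL q (SS τ j)) / (D - T) - 2 * ∑ j, ∑ p ∈ SS τ j, r p)) ≤
      hh r τ * red r i (yy q g D) τ ^ 2 := by
  have h0 : 0 ≤ hh r τ * red r i (yy q g D) τ ^ 2 := mul_nonneg (hh_nonneg hr τ) (sq_nonneg _)
  have hy : 0 ≤ ∑ j, ∑ p ∈ SS τ j, r p := sum_nonneg fun j _ => sum_nonneg fun p _ => hr p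
  have hL0 : 0 ≤ (∑ j, LL q (SS τ j)) / (D - T) :=
    div_nonneg (sum_nonneg fun j _ => LL_nonneg q _) (sub_pos.2 hD).le
  by_cases hi : SS τ i = ∅
  swap
  · rwa [prod_eq_zero (mem_univ i) (by simp [nu, hi]), zero_mul, mul_zero]
  have e : ∏ l, nu r g i l (SS τ l) = hh r τ * (∏ l ∈ univ.erase i, g (SS τ l)) ^ 2 := by
    rw [hh_eq, ← mul_prod_erase univ _ (mem_univ i), ← mul_prod_erase univ _ (mem_univ i), hi,
      ← prod_pow, mul_assoc, ← prod_mul_distrib]
    exact congrArg₂ _ (by simp [nu, hs]) (prod_congr rfl fun l h => if_neg (ne_of_mem_erase h))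
  have hP : 0 ≤ ∏ l ∈ univ.erase i, g (SS τ l) := prod_nonneg fun l _ => (hg.1 _).1
  have hN : 0 ≤ hh r τ * (∏ l ∈ univ.erase i, g (SS τ l)) ^ 2 :=
    mul_nonneg (hh_nonneg hr τ) (sq_nonneg _)
  rw [e]
  by_cases hb : 1 - (∑ j, LL q (SS τ j)) / (D - T) - 2 * ∑ j, ∑ p ∈ SS τ j, r p ≤ 0
  · exact (mul_nonpos_of_nonneg_of_nonpos (sq_nonneg _)
      (mul_nonpos_of_nonneg_of_nonpos hN hb)).trans h0
  have hb' := not_le.1 hb
  have h1 := red_ge hr hg hT hi (D := D) ((div_le_one (sub_pos.2 hD)).1 (by linarith))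
  have h2 := free_le hr hg τ
  have hm : 0 ≤ m1 r g := sum_nonneg fun s _ => mul_nonneg (hs_nonneg hr s) (hg.1 s).1
  have h3 := pow_le_pow_left₀ (mul_nonneg hP (mul_nonneg hm (by linarith)))
    ((mul_le_mul_of_nonneg_left h2 hP).trans h1) 2
  refine le_trans ?_ (mul_le_mul_of_nonneg_left h3 (hh_nonneg hr τ))
  rw [mul_pow, mul_pow, ← mul_assoc (hh r τ), mul_left_comm]
  refine mul_le_mul_of_nonneg_left (mul_le_mul_of_nonneg_left ?_ (sq_nonneg _)) hN
  nlinarith [sq_nonneg (∑ j, ∑ p ∈ SS τ j, r p)]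

end Y2A

open Y2A in
theorem s_Y2 : StY2 := by
  intro ι J _ _ _ _ r q g k D T i hr hg hk h2 hT hD
  have hν : ∀ l s, 0 ≤ nu r g i l s := fun l s => by
    unfold nu
    split_ifs
    exacts [zero_le_one, le_rfl, mul_nonneg (hs_nonneg hr s) (sq_nonneg _)]
  have hZ : ∀ l, ∑ s, nu r g i l s = if l = i then 1 else ga r g := fun l => by
    by_cases h : l = i <;> simp [nu, h, ga]
  have hm : ∀ p l, ∑ s, (if p ∈ s then nu r g i l s else 0) ≤ r p * ∑ s, nu r g i l s :=
    fun p l => by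
      by_cases h : l = i
      · rw [hZ, if_pos h, mul_one, sum_eq_zero fun s _ => ?_]
        · exact hr p
        · by_cases h1 : s = ∅ <;> simp [nu, h, h1]
      · simp only [nu, if_neg h]
        exact mem_le hr (fun s => sq_nonneg _)
          (fun s p => pow_le_pow_left₀ (hg.1 s).1 (hg.2 s p) 2) p
  have hP : ∀ A : Finset J, i ∈ A → ∏ l ∈ A, ∑ s, nu r g i l s = ga r g ^ (A.card - 1) :=
    fun A h => by
      rw [← mul_prod_erase A _ h, hZ, if_pos rfl, one_mul, ← card_erase_of_mem h, ← prod_const]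
      exact prod_congr rfl fun l h => by rw [hZ, if_neg (ne_of_mem_erase h)]
  have hga : 0 ≤ ga r g := sum_nonneg fun s _ => mul_nonneg (hs_nonneg hr s) (sq_nonneg _)
  have hze : 0 ≤ ze r q g := sum_nonneg fun s _ =>
    mul_nonneg (mul_nonneg (hs_nonneg hr s) (sq_nonneg _)) (LL_nonneg q s)
  have he : 0 ≤ eta r := sum_nonneg fun p _ => sq_nonneg _
  have hG : ∀ S : J → Finset ι, 0 ≤ ∏ l, nu r g i l (S l) := fun S => prod_nonneg fun l _ => hν _ _
  have a1 := (sum_le_SS _ hG).trans (add_le_add le_rfl (nondisj hν hm))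
  rw [← Fintype.prod_sum] at a1
  have a2 := (sum_SS_le _ fun S => mul_nonneg (hG S)
    (sum_nonneg fun j _ => sum_nonneg fun p _ => hr p)).trans (supp_le hν hr hm)
  have a3 : ∑ τ : ι → Option J, (∏ l, nu r g i l (SS τ l)) * ∑ j, LL q (SS τ j) ≤
      k * ze r q g * ga r g ^ (Fintype.card J - 2) := by
    refine (sum_SS_le (fun S => (∏ l, nu r g i l (S l)) * ∑ j, LL q (S j)) fun S =>
      mul_nonneg (hG S) (sum_nonneg fun j _ => LL_nonneg q _)).trans ?_
    simp only [mul_sum]
    rw [sum_comm]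
    refine (sum_le_sum (g := fun _ => ze r q g * ga r g ^ (Fintype.card J - 2))
      fun j _ => ?_).trans ?_
    · rw [mark]
      by_cases h : j = i
      · rw [sum_eq_zero fun s _ => ?_, zero_mul]
        · positivity
        · by_cases h1 : s = ∅ <;> simp [nu, h, h1, LL]
      · rw [hP _ (mem_erase.2 ⟨Ne.symm h, mem_univ _⟩), card_erase_of_mem (mem_univ _), card_univ]
        simp only [nu, if_neg h]
        exact le_rfl
    · rw [sum_const, card_univ, nsmul_eq_mul, mul_assoc]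
      exact mul_le_mul_of_nonneg_right hk (by positivity)
  rw [hP _ (mem_univ i), card_univ] at a1 a2
  refine le_trans ?_ (sum_le_sum fun τ _ => point hr hg hT hD i τ)
  rw [← mul_sum]
  refine mul_le_mul_of_nonneg_left ?_ (sq_nonneg _)
  simp only [mul_sub, mul_one, sum_sub_distrib, ← mul_div_assoc, ← sum_div, mul_left_comm _ (2 : ℝ),
    ← mul_sum]
  have h3 : (2 : ℝ) ≤ Fintype.card J := by exact_mod_cast h2
  have h4 : 0 ≤ eta r * ga r g ^ (Fintype.card J - 1) := by positivity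
  have h5 : (Fintype.card J : ℝ) ^ 2 ≤ k ^ 2 := pow_le_pow_left₀ (by linarith) hk 2
  have h6 : (Fintype.card J : ℝ) ≤ k ^ 2 := by nlinarith
  have h7 := div_le_div_of_nonneg_right a3 (sub_pos.2 hD).le
  nlinarith [mul_le_mul_of_nonneg_right h5 h4, mul_le_mul_of_nonneg_right h6 h4]

end Pool.Agent.MP_43e117_nt.PG

end
end

section

open Finset

noncomputable section

namespace Pool.Agent.MP_43e117_nt.PG

open MP_fdd1d3_nt (LL SS)

namespace MYA

/-- a step function -/
def st (a t : ℕ → ℝ) (N : ℕ) (x : ℝ) : ℝ := ∑ j ∈ range N, if x ≤ t j then a j else 0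

theorem st_nonneg {a : ℕ → ℝ} (ha : ∀ j, 0 ≤ a j) (t : ℕ → ℝ) (N : ℕ) (x : ℝ) : 0 ≤ st a t N x :=
  sum_nonneg fun j _ => by split_ifs; exacts [ha j, le_rfl]

theorem st_anti {a : ℕ → ℝ} (ha : ∀ j, 0 ≤ a j) (t : ℕ → ℝ) (N : ℕ) {x y : ℝ} (h : x ≤ y) :
    st a t N y ≤ st a t N x := by
  refine sum_le_sum fun j _ => ?_
  by_cases h1 : y ≤ t j
  · rw [if_pos h1, if_pos (h.trans h1)]
  · rw [if_neg h1]
    split_ifs; exacts [ha j, le_rfl]

theorem st_succ (a t : ℕ → ℝ) (N : ℕ) (x : ℝ) :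
    st a t (N + 1) x = st a t N x + if x ≤ t N then a N else 0 := sum_range_succ _ _

theorem st_le (t : ℕ → ℝ) (N : ℕ) (x : ℝ) :
    st (fun j => (1 / 2) ^ (j + 1)) t N x + (1 / 2) ^ N ≤ 1 := by
  induction N with
  | zero => simp [st]
  | succ N ih =>
    have : (0 : ℝ) < (1 / 2) ^ N := by positivity
    rw [st_succ, pow_succ]
    split_ifs <;> linarith

theorem st_key (t : ℕ → ℝ) (N : ℕ) (x : ℝ) : st (fun j => (1 / 2) ^ (j + 1)) t N x = 0 ∨
    (st (fun j => (1 / 2) ^ (j + 1)) t N x + (1 / 2) ^ N) ^ 2 ≤ st (fun j => (1 / 4) ^ j) t N x := by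
  induction N with
  | zero => simp [st]
  | succ N ih =>
    have h0 : (0 : ℝ) < (1 / 2) ^ N := by positivity
    have h4 : ((1 / 4 : ℝ)) ^ N = ((1 / 2) ^ N) ^ 2 := by
      rw [← pow_mul, mul_comm, pow_mul]; norm_num
    have h1 := st_nonneg (a := fun j => (1 / 2) ^ (j + 1)) (fun _ => by positivity) t N x
    have h2 := st_nonneg (a := fun j => (1 / 4) ^ j) (fun _ => by positivity) t N x
    rw [st_succ, st_succ, h4, pow_succ (1 / 2 : ℝ) N]
    generalize st (fun j => (1 / 2 : ℝ) ^ (j + 1)) t N x = g at *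
    generalize st (fun j => (1 / 4 : ℝ) ^ j) t N x = S at *
    generalize (1 / 2 : ℝ) ^ N = u at *
    rcases ih with ih | ih
    · split_ifs
      · right
        rw [ih]
        nlinarith
      · left
        rw [ih, add_zero]
    · right
      split_ifs <;> nlinarith

theorem st_sq (t : ℕ → ℝ) (N : ℕ) (x : ℝ) :
    st (fun j => (1 / 2) ^ (j + 1)) t N x ^ 2 ≤ st (fun j => (1 / 4) ^ j) t N x := by
  have h1 := st_nonneg (a := fun j => (1 / 2) ^ (j + 1)) (fun _ => by positivity) t N x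
  have h0 : (0 : ℝ) < (1 / 2) ^ N := by positivity
  rcases st_key t N x with h | h
  · rw [h, zero_pow two_ne_zero]
    exact st_nonneg (fun _ => by positivity) t N x
  · exact le_trans (by nlinarith) h

theorem st_mul {a : ℕ → ℝ} (ha : ∀ j, 0 ≤ a j) (t : ℕ → ℝ) (N : ℕ) (x : ℝ) :
    st a t N x * x ≤ st (fun j => a j * t j) t N x := by
  rw [st, sum_mul]
  refine sum_le_sum fun j _ => ?_
  split_ifs with h
  · exact mul_le_mul_of_nonneg_left h (ha j)
  · rw [zero_mul]

theorem sum_st {ι : Type} [Fintype ι] [DecidableEq ι] (r : ι → ℝ) (q : ι → ℕ) (a t : ℕ → ℝ)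
    (N : ℕ) : ∑ s, hs r s * st a t N (LL q s) = ∑ j ∈ range N, a j * GG r q (t j) := by
  simp only [st, GG, mul_sum]
  rw [sum_comm]
  refine sum_congr rfl fun j _ => sum_congr rfl fun s _ => ?_
  split_ifs
  · exact mul_comm _ _
  · rw [mul_zero, mul_zero]

theorem geo (N : ℕ) : ∑ j ∈ range N, (1 / 2 : ℝ) ^ j ≤ 2 := sum_geometric_two_le N

end MYA

open MYA in
theorem s_MY : StMY := by
  intro ι _ _ r q V lam n hr hV hl hG
  have hh : ∀ s, 0 ≤ hs r s := fun s => prod_nonneg fun p _ => hr p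
  have hL : ∀ s, 0 ≤ LL q s := fun s => sum_nonneg fun p _ => Real.log_natCast_nonneg _
  have ha : ∀ j : ℕ, (0 : ℝ) ≤ (1 / 2) ^ (j + 1) := fun _ => by positivity
  have ha4 : ∀ j : ℕ, (0 : ℝ) ≤ (1 / 4) ^ j := fun _ => by positivity
  have e2 : ∀ j : ℕ, (1 / 2 : ℝ) ^ j * 2 ^ j = 1 := fun j => by rw [← mul_pow]; norm_num
  have e4 : ∀ j : ℕ, (1 / 4 : ℝ) ^ j * 2 ^ j = (1 / 2) ^ j := fun j => by rw [← mul_pow]; norm_num
  refine ⟨fun s => st (fun j => (1 / 2) ^ (j + 1)) (fun j => 2 ^ j * lam) (n + 1) (LL q s),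
    ⟨fun s => ⟨st_nonneg ha _ _ _, ?_⟩, fun s p => st_anti ha _ _ ?_⟩, fun s h => ?_, ?_, ?_, ?_, ?_⟩
  · have := st_le (fun j => 2 ^ j * lam) (n + 1) (LL q s)
    linarith [ha n]
  · exact sum_le_sum_of_subset_of_nonneg (erase_subset _ _) fun _ _ _ => Real.log_natCast_nonneg _
  · by_contra hn
    refine h (sum_eq_zero fun j hj => if_neg fun h1 => hn (h1.trans ?_))
    have : (2 : ℝ) ^ j ≤ 2 ^ n := pow_le_pow_right₀ one_le_two (Nat.lt_succ_iff.1 (mem_range.1 hj))
    exact mul_le_mul_of_nonneg_right this hl.le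
  · rw [m1, sum_st]
    calc (n + 1) * V * lam / 4 = ∑ _j ∈ range (n + 1), V * lam / 4 := by
          rw [sum_const, card_range, nsmul_eq_mul]; push_cast; ring
      _ ≤ _ := sum_le_sum fun j hj => by
          refine le_trans (le_of_eq ?_) (mul_le_mul_of_nonneg_left
            (hG j (Nat.lt_succ_iff.1 (mem_range.1 hj))).1 (ha j))
          rw [pow_succ]
          linear_combination (-(V * lam / 4)) * e2 j
  · have h1 := sum_st r q (fun _ => 1 / 4) (fun j => 2 ^ j * lam) 1
    rw [sum_range_one] at h1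
    have h2 := (hG 0 (Nat.zero_le n)).1
    refine le_trans (by rw [pow_zero] at h2 ⊢; linarith : _ ≤ 1 / 4 * GG r q (2 ^ 0 * lam)) ?_
    rw [← h1]
    refine sum_le_sum fun s _ => mul_le_mul_of_nonneg_left ?_ (hh s)
    rw [st, sum_range_one]
    split_ifs with h3
    · have h4 : (1 / 2 : ℝ) ≤
          st (fun j => (1 / 2) ^ (j + 1)) (fun j => 2 ^ j * lam) (n + 1) (LL q s) := by
        refine le_trans (le_of_eq ?_) (single_le_sum (f := fun j =>
          if LL q s ≤ 2 ^ j * lam then (1 / 2 : ℝ) ^ (j + 1) else 0)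
          (fun j _ => by split_ifs; exacts [ha j, le_rfl]) (mem_range.2 (Nat.succ_pos n)))
        rw [if_pos h3]
        norm_num
      nlinarith
    · positivity
  · refine le_trans (sum_le_sum fun s _ => mul_le_mul_of_nonneg_left (st_sq _ _ _) (hh s)) ?_
    rw [sum_st]
    calc _ ≤ ∑ j ∈ range (n + 1), 2 * V * lam * (1 / 2 : ℝ) ^ j := sum_le_sum fun j hj => by
          refine le_trans (mul_le_mul_of_nonneg_left
            (hG j (Nat.lt_succ_iff.1 (mem_range.1 hj))).2 (ha4 j)) (le_of_eq ?_)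
          linear_combination (2 * V * lam) * e4 j
      _ ≤ 2 * V * lam * 2 := by
          rw [← mul_sum]
          exact mul_le_mul_of_nonneg_left (geo _) (by positivity)
      _ = _ := by ring
  · refine le_trans (sum_le_sum fun s _ => (mul_assoc _ _ _).le.trans (mul_le_mul_of_nonneg_left
      ((mul_le_mul_of_nonneg_right (st_sq _ _ _) (hL s)).trans (st_mul ha4 _ _ _)) (hh s))) ?_
    rw [sum_st]
    calc _ ≤ ∑ _j ∈ range (n + 1), 2 * V * lam ^ 2 := sum_le_sum fun j hj => by
          refine le_trans (mul_le_mul_of_nonneg_left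
            (hG j (Nat.lt_succ_iff.1 (mem_range.1 hj))).2 (by positivity)) (le_of_eq ?_)
          linear_combination (2 * V * lam ^ 2 * 2 ^ j) * e4 j + 2 * V * lam ^ 2 * e2 j
      _ = _ := by
          rw [sum_const, card_range, nsmul_eq_mul]; push_cast; ring

end Pool.Agent.MP_43e117_nt.PG

end
end
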