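import Pool.Agent.Mg.F436a94p.Gcdf306
import Pool.Agent.Mg.Fc7a479.Gd25afc

set_option linter.all false

section

/-!
Mertens sums over short logarithmic ranges.
-/

open Finset Filter

noncomputable section

namespace Pool.Agent.MP_43e117_nt.PG

open MP_fdd1d3_nt (PP mem_PP)

theorem s_Me : StMe := by
  obtain ⟨C, -, h⟩ := MP_c7a479_co.Ex.EMert_prime
  refine ⟨2 * C, fun x y hx hxy => ?_⟩
  have e : PL x y = MP_c7a479_co.Ex.PP y \ MP_c7a479_co.Ex.PP x := by
    ext p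
    rw [mem_PL, Finset.mem_sdiff, MP_c7a479_co.Ex.mem_PP, MP_c7a479_co.Ex.mem_PP]
    exact ⟨fun a => ⟨⟨a.1, a.2.2⟩, fun b => absurd b.2 (not_le.2 a.2.1)⟩,
      fun a => ⟨a.1.1, not_le.1 fun b => a.2 ⟨a.1.1, b⟩, a.1.2⟩⟩
  rw [e, sum_sdiff_eq_sub fun p hp => MP_c7a479_co.Ex.mem_PP.2
    ((MP_c7a479_co.Ex.mem_PP.1 hp).imp_right fun a => a.trans hxy)]
  obtain ⟨a1, a2⟩ := abs_le.1 (h x hx)
  obtain ⟨a3, a4⟩ := abs_le.1 (h y (hx.trans hxy))
  exact abs_le.2 ⟨by linarith, by linarith⟩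

namespace MeA

theorem rr_bd {w R : ℕ} (hw : 10 ≤ w) (p : Si w R) :
    1 / (p.1 : ℝ) ≤ rr w R p ∧ rr w R p ≤ 11 / 10 * (1 / (p.1 : ℝ)) := by
  have h : (11 : ℝ) ≤ p.1 := by exact_mod_cast hw.trans_lt (si_mem p).1
  refine ⟨one_div_le_one_div_of_le (by linarith) (by linarith), ?_⟩
  rw [rr, mul_one_div, div_le_div_iff₀ (by linarith) (by linarith)]
  linarith

theorem tendsto_ee : Tendsto ee atTop atTop :=
  (Real.tendsto_log_atTop.comp tendsto_natCast_atTop_atTop).atTop_div_const (by norm_num)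

end MeA

open MeA in
theorem s_Et (hMe : StMe) : StEt := by
  obtain ⟨C, h⟩ := hMe
  refine ⟨10, fun w hw => ?_⟩
  filter_upwards [tendsto_ee.eventually_ge_atTop (Real.log w),
    tendsto_ee.eventually_ge_atTop (11 * C), tendsto_ee.eventually_gt_atTop 0] with R h1 h2 h3
  have hL : Real.log R = 200 * ee R := by rw [ee]; ring
  have hR : (0 : ℝ) < R := by
    rcases Nat.eq_zero_or_pos R with rfl | a
    · simp [ee] at h3
    · exact_mod_cast a
  have hww : ∀ p, 0 ≤ ww w R p ∧ ww w R p ≤ 1 := fun p => by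
    unfold ww
    split_ifs with a
    · exact ⟨div_nonneg (Real.log_natCast_nonneg _) (Real.log_natCast_nonneg _),
        (div_le_one (by linarith)).2 (by linarith [a.2])⟩
    · exact ⟨le_rfl, zero_le_one⟩
  have e : Et w R = (∑ p ∈ PL (180 * ee R) (181 * ee R), Real.log p / p) / (200 * ee R) := by
    have e1 : PL (180 * ee R) (181 * ee R) = (PP w R).filter fun p : ℕ =>
        180 * ee R < Real.log p ∧ Real.log p ≤ 181 * ee R := by
      ext p
      rw [mem_PL, mem_filter, mem_PP]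
      refine ⟨fun a => ⟨⟨⟨?_, ?_⟩, a.1⟩, a.2⟩, fun a => ⟨a.1.2, a.2⟩⟩
      · have : (w : ℝ) < p := (Real.log_lt_log_iff (by exact_mod_cast (by omega : 0 < w))
          (by exact_mod_cast a.1.pos)).1 (by linarith [a.2.1])
        exact_mod_cast this
      · have : (p : ℝ) ≤ R := (Real.log_le_log_iff (by exact_mod_cast a.1.pos) hR).1
          (by linarith [a.2.2])
        exact_mod_cast this
    rw [e1, sum_filter, sum_div, ← sum_coe_sort, Et]
    refine sum_congr rfl fun p _ => ?_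
    unfold ww
    split_ifs
    · rw [hL, div_right_comm]
    · simp
  obtain ⟨a1, a2⟩ := abs_le.1 (h (180 * ee R) (181 * ee R) (by linarith) (by linarith))
  refine ⟨?_, ?_, sum_le_sum fun p _ => ?_, ?_, hww, ?_⟩
  · rw [e, le_div_iff₀ (by linarith)]
    linarith
  · rw [e, div_le_iff₀ (by linarith)]
    linarith
  · rw [div_eq_mul_one_div]
    exact mul_le_mul_of_nonneg_left (rr_bd hw p).1 (hww p).1
  · rw [Et, mul_sum]
    refine sum_le_sum fun p _ => ?_
    rw [div_eq_mul_one_div (ww w R p), mul_left_comm]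
    exact mul_le_mul_of_nonneg_left (rr_bd hw p).2 (hww p).1
  · obtain ⟨-, a3⟩ := abs_le.1 (h 0 (ee R) le_rfl h3.le)
    have b1 : ∑ l ∈ ZZ w R, Real.log l.1 / l.1 ≤ ∑ p ∈ PL 0 (ee R), Real.log p / p := by
      rw [← sum_image (s := ZZ w R) (g := Subtype.val) (f := fun p : ℕ => Real.log p / p)
        fun _ _ _ _ a => Subtype.ext a]
      refine sum_le_sum_of_subset_of_nonneg (fun p hp => ?_) fun p _ _ =>
        div_nonneg (Real.log_natCast_nonneg _) (Nat.cast_nonneg _)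
      obtain ⟨l, hl, rfl⟩ := mem_image.1 hp
      exact mem_PL.2 ⟨(si_mem l).2.2, Real.log_pos (by exact_mod_cast (si_mem l).2.2.one_lt),
        (mem_filter.1 hl).2⟩
    have b2 : ∑ l ∈ ZZ w R, rr w R l * Real.log l.1 ≤
        11 / 10 * ∑ l ∈ ZZ w R, Real.log l.1 / l.1 := by
      rw [mul_sum]
      refine sum_le_sum fun p _ => ?_
      rw [div_eq_mul_one_div (Real.log _), mul_left_comm, mul_comm]
      exact mul_le_mul_of_nonneg_left (rr_bd hw p).2 (Real.log_natCast_nonneg _)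
    linarith

theorem s_CE (hMe : StMe) : StCE := by
  obtain ⟨C, h⟩ := hMe
  intro ε hε
  filter_upwards [eventually_ge_atTop (C / ε), eventually_gt_atTop 0] with e h1 h2 i
  have hi : (0 : ℝ) < i + 1 := by positivity
  obtain ⟨a1, -⟩ := abs_le.1 (h (i * e) ((i + 1) * e) (by positivity) (by linarith))
  rw [div_le_iff₀ hε] at h1
  have b : ∑ p ∈ PL (i * e) ((i + 1) * e), Real.log p / p ≤
      (∑ p ∈ PL (i * e) ((i + 1) * e), 1 / (p : ℝ)) * ((i + 1) * e) := by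
    rw [sum_mul]
    refine sum_le_sum fun p hp => ?_
    rw [div_eq_mul_one_div, mul_comm]
    exact mul_le_mul_of_nonneg_left (mem_PL.1 hp).2.2 (by positivity)
  rw [div_le_iff₀ hi]
  refine le_of_mul_le_mul_right ?_ h2
  linarith

end Pool.Agent.MP_43e117_nt.PG

end
end

section

/-! The value of the optimal sieve sum at numbers with few large prime factors. -/

open Finset Filter

noncomputable section

namespace Pool.Agent.MP_43e117_nt.PG

open MP_fdd1d3_nt (PP LL SS)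

namespace PVA

theorem phi_map (w R : ℕ) (t : ℝ) (s : Finset (Si w R)) :
    ∑ v ∈ s.powerset, (-1) ^ v.card * max 0 (1 - LL (qq w R) v / t) =
      Phi t (s.map (Function.Embedding.subtype _)) := by
  refine sum_nbij (fun v => v.map (Function.Embedding.subtype _)) (fun v hv => ?_)
    (Finset.map_injective _).injOn (fun v hv => ?_) fun v _ => ?_
  · exact mem_powerset.2 (map_subset_map.2 (mem_powerset.1 hv))
  · obtain ⟨u, hu, e⟩ := subset_map_iff.1 (mem_powerset.1 (mem_coe.1 hv))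
    exact ⟨u, mem_coe.2 (mem_powerset.2 hu), e.symm⟩
  · rw [card_map, sum_map]
    rfl

theorem phi_union (hPH : StPH) {t : ℝ} (ht : 0 < t) (T T' : Finset ℕ)
    (h : ∀ q ∈ T', t ≤ Real.log q ∧ q ∉ T) : Phi t (T' ∪ T) = Phi t T := by
  induction T' using Finset.induction_on with
  | empty => rw [empty_union]
  | insert a s ha ih =>
    rw [insert_union, (hPH t ht).2.2.2.1 a _ (h a (mem_insert_self _ _)).1
      (notMem_union.2 ⟨ha, (h a (mem_insert_self _ _)).2⟩)]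
    exact ih fun q hq => h q (mem_insert_of_mem hq)

theorem tendsto_ee : Tendsto ee atTop atTop :=
  (Real.tendsto_log_atTop.comp tendsto_natCast_atTop_atTop).atTop_div_const (by norm_num)

end PVA

theorem s_PV (hP1 : StP1) (hSi : StSi) (hGA : StGA) (hPH : StPH) : StPV := by
  intro ε hε
  obtain ⟨η, hη⟩ : ∃ η, η = min (ε / 96) (1 / 2) := ⟨_, rfl⟩
  have η0 : 0 < η := hη ▸ lt_min (by positivity) (by norm_num)
  have η1 : η ≤ ε / 96 := hη ▸ min_le_left _ _
  have η2 : η ≤ 1 / 2 := hη ▸ min_le_right _ _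
  obtain ⟨w0, hw0⟩ := hGA (η / 2) (half_pos η0)
  refine ⟨max w0 2, fun w hw => ?_⟩
  have w2 : 2 ≤ w := le_of_max_le_right hw
  filter_upwards [hw0 w (le_of_max_le_left hw), PVA.tendsto_ee.eventually_gt_atTop 0,
    PVA.tendsto_ee.eventually_ge_atTop (Real.log w),
    PVA.tendsto_ee.eventually_ge_atTop (Real.log (1 + 4 / η))] with R h1 h2 h3 h4 t m t1 t2 m0 hm hc
  have t0 : 0 < t := by linarith
  have w3 : (2 : ℝ) ≤ w := by exact_mod_cast w2
  have hL : Real.log R = 200 * ee R := by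
    unfold ee
    ring
  have hs : (dv w R m).map (Function.Embedding.subtype _) = m.primeFactors.filter (· ≤ R) := by
    ext p
    simp only [Finset.mem_map, dv, mem_filter, mem_univ, true_and, Function.Embedding.subtype_apply]
    constructor
    · rintro ⟨q, hq, rfl⟩
      exact ⟨Nat.mem_primeFactors.2 ⟨(si_mem q).2.2, hq, m0⟩, (si_mem q).2.1⟩
    · rintro ⟨hp, hR⟩
      have hp' := Nat.prime_of_mem_primeFactors hp
      have a1 : (w : ℝ) < p := (Real.log_lt_log_iff (by linarith) (Nat.cast_pos.2 hp'.pos)).1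
        (h3.trans_lt (hm p hp))
      exact ⟨⟨p, (MP_fdd1d3_nt.mem_PP w R p).2 ⟨⟨by exact_mod_cast a1, hR⟩, hp'⟩⟩,
        Nat.dvd_of_mem_primeFactors hp, rfl⟩
  have hcard : (dv w R m).card ≤ 4 := by
    rw [← card_map (Function.Embedding.subtype _), hs]
    exact (card_filter_le _ _).trans hc
  have hsum : ∑ p ∈ dv w R m, rr w R p ≤ η := by
    refine (sum_le_card_nsmul _ _ (η / 4) fun p hp => ?_).trans ?_
    · have hp' := (si_mem p).2.2
      have a1 : 1 + 4 / η < (p.1 : ℝ) :=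
        (Real.log_lt_log_iff (by positivity) (Nat.cast_pos.2 hp'.pos)).1 (h4.trans_lt
          (hm p (Nat.mem_primeFactors.2 ⟨hp', (mem_filter.1 hp).2, m0⟩)))
      have a2 : 0 < 4 / η := by positivity
      rw [rr, ← one_div_div 4 η]
      exact one_div_le_one_div_of_le a2 (by linarith)
    · have a1 : ((dv w R m).card : ℝ) ≤ 4 := by exact_mod_cast hcard
      rw [nsmul_eq_mul]
      nlinarith
  have hsm : Sm (rr w R) 1 := fun p => by
    obtain ⟨a1, a2⟩ := (hSi w R w2).1 p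
    exact ⟨a1, by nlinarith⟩
  have key := hP1 _ (rr w R) (qq w R) t (VV w) η (st1 w R m) hsm t0 (VV_pos w) η2
    (fun x hx => (h1 x (hx.trans t2)).trans (by
      rw [hL]
      linarith [mul_le_mul_of_nonneg_left t1 (mul_pos η0 (VV_pos w)).le]))
    (by rwa [SS_st1])
  rw [SS_st1, PVA.phi_map, hs, ← PVA.phi_union hPH t0 _ (m.primeFactors.filter fun p => ¬ p ≤ R)
    fun q hq => ?_, union_comm, filter_union_filter_not_eq] at key
  · refine key.trans ?_
    have a1 : (2 : ℝ) ^ (dv w R m).card ≤ 2 ^ 4 := pow_le_pow_right₀ (by norm_num) hcard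
    nlinarith
  · rw [mem_filter] at hq
    refine ⟨t2.trans (Real.log_le_log ?_ (by exact_mod_cast (not_le.1 hq.2).le)),
      fun h => hq.2 (mem_filter.1 h).2⟩
    rcases Nat.eq_zero_or_pos R with rfl | h
    · simp [ee] at h2
    · exact_mod_cast h

end Pool.Agent.MP_43e117_nt.PG

end
end

section

/-!
The sum over the shapes is bounded below by the grid sum.
-/

open Finset Filter

noncomputable section

namespace Pool.Agent.MP_43e117_nt.PG

namespace GTA

/-- a cell of primes -/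
def ce (e : ℝ) (i : ℕ) : Finset ℕ := PL (i * e) ((i + 1) * e)

/-- the term of a shape -/
def gg (e : ℝ) (s : Finset ℕ) : ℝ := max 0 (Phi (109 * e) s - 1 / 1000) ^ 2 /
  ((∏ p ∈ s, (p : ℝ)) * (622 * e - ∑ p ∈ s, Real.log p))

/-- the conditions on a shape -/
def OK (e : ℝ) (s : Finset ℕ) : Prop := Sh e s ∧ ∑ p ∈ s, Real.log p ≤ 419 * e ∧
  ∀ p ∈ s, Real.log p + ∑ p ∈ s, Real.log p ≤ 619 * e

/-- admitted cells -/
def P1 (i : ℕ) : Prop := 21 ≤ i ∧ i ≤ 308 ∧ i ≠ 180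

/-- admitted pairs of cells -/
def P2 (i j : ℕ) : Prop := 21 ≤ i ∧ i < j ∧ i ≠ 180 ∧ j ≠ 180 ∧
  2 * j + i ≤ 616 ∧ (i + j ≤ 216 ∨ 221 ≤ i + j)

theorem mem_A1 (i : ℕ) : i ∈ A1 → P1 i := by
  simp only [A1, mem_erase, mem_Icc, P1]
  omega

theorem mem_A2 (x : ℕ × ℕ) : x ∈ A2 → P2 x.1 x.2 := by
  simp only [A2, mem_filter, mem_product, mem_Icc, P2]
  omega

variable {e : ℝ} {i j p q : ℕ}

theorem ce_eq (he : 0 < e) (hi : p ∈ ce e i) (hj : p ∈ ce e j) : i = j := by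
  obtain ⟨-, a1, a2⟩ := mem_PL.1 hi
  obtain ⟨-, b1, b2⟩ := mem_PL.1 hj
  have h1 : i < j + 1 := by exact_mod_cast lt_of_mul_lt_mul_right (a1.trans_le b2) he.le
  have h2 : j < i + 1 := by exact_mod_cast lt_of_mul_lt_mul_right (b1.trans_le a2) he.le
  omega

theorem mul_le (he : 0 < e) {a b : ℕ} (h : a ≤ b) : (a : ℝ) * e ≤ b * e :=
  mul_le_mul_of_nonneg_right (Nat.cast_le.2 h) he.le

theorem ce_lt (he : 0 < e) (hi : p ∈ ce e i) (hj : q ∈ ce e j) (h : i < j) : p < q := by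
  obtain ⟨-, -, a2⟩ := mem_PL.1 hi
  obtain ⟨b0, b1, -⟩ := mem_PL.1 hj
  by_contra hc
  have h1 := Real.log_le_log (Nat.cast_pos.2 b0.pos) (Nat.cast_le.2 (not_lt.1 hc) : (q : ℝ) ≤ p)
  have h2 := mul_le he (Nat.succ_le_of_lt h)
  push_cast at h2
  linarith

theorem ce_sh (he : 0 < e) (hi : p ∈ ce e i) (h1 : 21 ≤ i) (h2 : i ≠ 180) :
    p.Prime ∧ 21 * e < Real.log p ∧ ¬ (180 * e < Real.log p ∧ Real.log p ≤ 181 * e) := by
  obtain ⟨a0, a1, a2⟩ := mem_PL.1 hi
  have h3 := mul_le he h1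
  push_cast at h3
  refine ⟨a0, by linarith, fun h4 => h2 (ce_eq he hi (mem_PL.2 ⟨a0, ?_, ?_⟩))⟩
  · exact_mod_cast h4.1
  · push_cast
    linarith [h4.2]

theorem ok0 (he : 0 < e) : OK e ∅ := ⟨⟨by simp, by simp, by simp⟩, by simp [he.le], by simp⟩

theorem ok1 (he : 0 < e) (hi : p ∈ ce e i) (h : P1 i) : OK e {p} := by
  obtain ⟨h3, h4, h1⟩ := h
  obtain ⟨-, -, a2⟩ := mem_PL.1 hi
  have h5 := mul_le he h4
  push_cast at h5
  refine ⟨⟨by simp, fun x hx => ?_, by simp⟩, ?_, fun x hx => ?_⟩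
  · rw [mem_singleton.1 hx]
    exact ce_sh he hi h3 h1
  · rw [sum_singleton]
    linarith
  · rw [mem_singleton.1 hx, sum_singleton]
    linarith

theorem ok2 (he : 0 < e) (hi : p ∈ ce e i) (hj : q ∈ ce e j) (h : P2 i j) :
    OK e {p, q} := by
  obtain ⟨h1, h2, h3, h4, h5, h6⟩ := h
  have hne := (ce_lt he hi hj h2).ne
  obtain ⟨-, a1, a2⟩ := mem_PL.1 hi
  obtain ⟨-, b1, b2⟩ := mem_PL.1 hj
  have h7 := mul_le he h5
  have h8 := mul_le he h2.le
  have h9 := mul_le he (by omega : i + j ≤ 417)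
  push_cast at h7 h9
  rw [OK, Sh, sum_pair hne]
  refine ⟨⟨card_le_two, fun x hx => ?_, fun _ => h6.imp (fun c => ?_) fun c => ?_⟩,
    by linarith, fun x hx => ?_⟩
  · rcases mem_insert.1 hx with rfl | hx
    · exact ce_sh he hi h1 h3
    · rw [mem_singleton.1 hx]
      exact ce_sh he hj (by omega) h4
  · have := mul_le he c
    push_cast at this
    linarith
  · have := mul_le he c
    push_cast at this
    linarith
  · rcases mem_insert.1 hx with rfl | hx
    · linarith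
    · rw [mem_singleton.1 hx]
      linarith

theorem div_mono (he : 0 < e) {x y : ℝ} (h : x * e ≤ y) : x / 109 ≤ y / (109 * e) := by
  rw [div_le_div_iff₀ (by norm_num) (by positivity)]
  linarith

theorem frac {a b P D D' : ℝ} (h : a ≤ b) (hP : 0 < P) (hD : 0 < D') (h' : D' ≤ D) :
    max 0 a ^ 2 / D * (1 / P) ≤ max 0 b ^ 2 / (P * D') := by
  rw [div_mul_div_comm, mul_one, mul_comm D]
  exact div_le_div₀ (by positivity) (pow_le_pow_left₀ (le_max_left _ _) (max_le_max_left _ h) 2)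
    (mul_pos hP hD) (mul_le_mul_of_nonneg_left h' hP.le)

theorem g1 (hPH : StPH) (he : 0 < e) (hi : p ∈ ce e i) (h : i ≤ 308) :
    c1 i ^ 2 / ((622 - i) * e) * (1 / p) ≤ gg e {p} := by
  obtain ⟨a0, a1, a2⟩ := mem_PL.1 hi
  have h5 := mul_le he h
  push_cast at h5
  rw [gg, (hPH _ (by positivity)).2.1, prod_singleton, sum_singleton, c1]
  exact frac (sub_le_sub_right (min_le_min_left _ (div_mono he a1.le)) _) (Nat.cast_pos.2 a0.pos)
    (by linarith) (by linarith)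

theorem f_mono {x x' y : ℝ} (h : x ≤ x') (hy : 0 ≤ y) :
    min 1 x - min 1 (x + y) ≤ min 1 x' - min 1 (x' + y) := by
  simp only [min_def]
  split_ifs <;> linarith

theorem g2 (hPH : StPH) (he : 0 < e) (hi : p ∈ ce e i) (hj : q ∈ ce e j) (h : P2 i j) :
    c2 i j ^ 2 / ((622 - i - j) * e) * (1 / p * (1 / q)) ≤ gg e {p, q} := by
  obtain ⟨h1, h2, h3, h4, h5, h6⟩ := h
  have hne := (ce_lt he hi hj h2).ne
  obtain ⟨a0, a1, a2⟩ := mem_PL.1 hi
  obtain ⟨b0, b1, b2⟩ := mem_PL.1 hj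
  have h9 := mul_le he (by omega : i + j ≤ 417)
  push_cast at h9
  rw [gg, (hPH _ (by positivity)).2.2.1 p q hne, prod_pair hne, sum_pair hne, c2,
    one_div_mul_one_div]
  refine frac (sub_le_sub_right ?_ _) (mul_pos (Nat.cast_pos.2 a0.pos) (Nat.cast_pos.2 b0.pos))
    (by linarith) (by linarith)
  have k1 := div_mono he a1.le
  have k2 := div_mono he b1.le
  have k3 := f_mono k1 (by positivity : (0 : ℝ) ≤ (j : ℝ) / 109)
  have k4 := f_mono k2 (le_trans (by positivity) k1)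
  rw [add_comm ((j : ℝ) / 109), add_comm (Real.log q / (109 * e))] at k4
  rw [add_div, add_div]
  linarith

theorem main (hPH : StPH) (he : 0 < e) {ε η : ℝ} (h0 : 0 ≤ η) (h1 : η ≤ 1) (h2 : 1 - ε ≤ η * η)
    (hc : ∀ i : ℕ, η / (i + 1) ≤ ∑ p ∈ ce e i, 1 / (p : ℝ)) {B1 : Finset ℕ} {B2 : Finset (ℕ × ℕ)}
    (k1 : ∀ i, i ∈ B1 → P1 i) (k2 : ∀ x, x ∈ B2 → P2 x.1 x.2) :
    ∃ S : Finset (Finset ℕ), (∀ s ∈ S, OK e s) ∧
      (1 - ε) * ((999 / 1000) ^ 2 / 622 + ∑ i ∈ B1, c1 i ^ 2 / ((i + 1) * (622 - i)) +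
        ∑ x ∈ B2, c2 x.1 x.2 ^ 2 / ((x.1 + 1) * (x.2 + 1) * (622 - x.1 - x.2))) / e ≤
      ∑ s ∈ S, gg e s := by
  have h3 : 1 - ε ≤ η := h2.trans (mul_le_of_le_one_left h0 h1)
  set S1 := (B1.sigma (ce e)).image fun x => ({x.2} : Finset ℕ) with hS1
  set S2 := (B2.sigma fun x => ce e x.1 ×ˢ ce e x.2).image
    fun x => ({x.2.1, x.2.2} : Finset ℕ) with hS2
  have m1 : ∀ s ∈ S1, OK e s ∧ s.card = 1 := fun s hs => by
    obtain ⟨x, hx, rfl⟩ := mem_image.1 hs
    exact ⟨ok1 he (mem_sigma.1 hx).2 (k1 _ (mem_sigma.1 hx).1), card_singleton _⟩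
  have m2 : ∀ s ∈ S2, OK e s ∧ s.card = 2 := fun s hs => by
    obtain ⟨x, hx, rfl⟩ := mem_image.1 hs
    obtain ⟨a, b⟩ := mem_sigma.1 hx
    obtain ⟨b1, b2⟩ := mem_product.1 b
    exact ⟨ok2 he b1 b2 (k2 _ a), card_pair (ce_lt he b1 b2 (k2 _ a).2.1).ne⟩
  refine ⟨insert ∅ (S1 ∪ S2), fun s hs => ?_, ?_⟩
  · rcases mem_insert.1 hs with rfl | hs
    · exact ok0 he
    · exact (mem_union.1 hs).elim (fun h => (m1 s h).1) fun h => (m2 s h).1
  rw [sum_insert fun h => (mem_union.1 h).elim (fun h => by simpa using (m1 _ h).2)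
      fun h => by simpa using (m2 _ h).2,
    sum_union (disjoint_left.2 fun s a b => by have := (m1 s a).2; have := (m2 s b).2; omega),
    hS1, hS2, sum_image, sum_image, sum_sigma, sum_sigma, mul_add, mul_add, add_div, add_div,
    mul_sum, mul_sum, sum_div, sum_div, add_assoc]
  · refine add_le_add ?_ (add_le_add (sum_le_sum fun i hi => ?_) (sum_le_sum fun x hx => ?_))
    · rw [gg, (hPH _ (by positivity)).1, prod_empty, sum_empty, max_eq_right (by norm_num),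
        one_mul, sub_zero, ← div_div]
      refine div_le_div_of_nonneg_right ?_ he.le
      linarith
    · have a1 : i ≤ 308 := (k1 i hi).2.1
      have a2 : (0 : ℝ) < 622 - i := by
        have : (i : ℝ) ≤ 308 := by exact_mod_cast a1
        linarith
      refine le_trans ?_ (sum_le_sum fun p hp => g1 hPH he hp a1)
      rw [← mul_sum]
      refine le_trans (le_of_eq ?_) (mul_le_mul_of_nonneg_left
        ((div_le_div_of_nonneg_right h3 (by positivity)).trans (hc i)) (by positivity))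
      field_simp
    · have a1 : x.1 + x.2 ≤ 417 := by have := k2 x hx; rw [P2] at this; omega
      have a2 : (0 : ℝ) < 622 - x.1 - x.2 := by
        have : (x.1 : ℝ) + x.2 ≤ 417 := by exact_mod_cast a1
        linarith
      refine le_trans ?_ (sum_le_sum fun y hy =>
        g2 hPH he (mem_product.1 hy).1 (mem_product.1 hy).2 (k2 x hx))
      rw [← mul_sum, sum_product]
      dsimp only
      rw [← sum_mul_sum]
      have a3 : (1 - ε) / ((x.1 + 1) * (x.2 + 1)) ≤ η / (x.1 + 1) * (η / (x.2 + 1)) := by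
        rw [div_mul_div_comm]
        exact div_le_div_of_nonneg_right h2 (by positivity)
      refine le_trans (le_of_eq ?_) (mul_le_mul_of_nonneg_left (a3.trans
        (mul_le_mul (hc x.1) (hc x.2) (by positivity) (by positivity))) (by positivity))
      field_simp
  · rintro ⟨x, p, q⟩ hx ⟨x', p', q'⟩ hx' h
    obtain ⟨a, b⟩ := mem_sigma.1 (mem_coe.1 hx)
    obtain ⟨b1, b2⟩ := mem_product.1 b
    obtain ⟨a', b'⟩ := mem_sigma.1 (mem_coe.1 hx')
    obtain ⟨b1', b2'⟩ := mem_product.1 b'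
    have c1 := ce_lt he b1 b2 (k2 _ a).2.1
    have c2 := ce_lt he b1' b2' (k2 _ a').2.1
    have c3 := Finset.ext_iff.1 h
    have c4 := c3 p
    have c5 := c3 q
    have c6 := c3 p'
    simp only [mem_insert, mem_singleton, true_or, or_true, true_iff, iff_true] at c1 c2 c4 c5 c6
    obtain rfl : p = p' := by omega
    obtain rfl : q = q' := by omega
    obtain rfl : x = x' := Prod.ext (ce_eq he b1 b1') (ce_eq he b2 b2')
    rfl
  · rintro ⟨i, p⟩ hx ⟨i', p'⟩ hx' h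
    obtain rfl : p = p' := singleton_injective h
    obtain rfl : i = i' := ce_eq he (mem_sigma.1 (mem_coe.1 hx)).2 (mem_sigma.1 (mem_coe.1 hx')).2
    rfl

end GTA

theorem s_GT (hPH : StPH) (hCE : StCE) : StGT := by
  intro ε hε
  have h1 : min ε 1 ≤ ε := min_le_left _ _
  have h2 : min ε 1 ≤ 1 := min_le_right _ _
  have h3 : 0 < min ε 1 := lt_min hε one_pos
  filter_upwards [hCE (min ε 1 / 2) (by positivity), eventually_gt_atTop 0] with e hc he
  exact GTA.main hPH he (η := 1 - min ε 1 / 2) (by linarith) (by linarith) (by nlinarith) hc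
    GTA.mem_A1 GTA.mem_A2

end Pool.Agent.MP_43e117_nt.PG

end
end

section

/-!
The numerical value of the grid sum.
-/

open Finset Filter

namespace Pool.Agent.MP_43e117_nt.PG

namespace GRA

def n1 (i : ℕ) : ℕ := 1000 * min 109 i - 109

def n2 (i j : ℕ) : ℕ := 1000 * (min 109 i + min 109 j - min 109 (i + j)) - 109

def t1 (i : ℕ) : ℕ := n1 i ^ 2 * 10 ^ 12 / (109000 ^ 2 * ((i + 1) * (622 - i)))

def t2 (i j : ℕ) : ℕ := n2 i j ^ 2 * 10 ^ 12 / (109000 ^ 2 * ((i + 1) * (j + 1) * (622 - i - j)))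

theorem sum1 : 3300000000 ≤ ∑ i ∈ Icc 21 308, if i = 180 then 0 else t1 i := by decide +kernel

def lp (f : ℕ → ℕ) (n : ℕ) : ℕ := Nat.rec 0 (fun k acc => Nat.add acc (f k)) n

theorem lp_eq (f : ℕ → ℕ) (n : ℕ) : lp f n = ∑ k ∈ range n, f k := by
  induction n with
  | zero => rfl
  | succ n ih => rw [sum_range_succ, ← ih]; rfl

def mn (i : ℕ) : ℕ := cond (Nat.ble i 109) i 109

theorem mn_eq (i : ℕ) : mn i = min 109 i := by
  unfold mn
  rcases le_or_gt i 109 with h | h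
  · rw [Nat.ble_eq_true_of_le h, min_eq_right h, cond_true]
  · rw [Bool.eq_false_iff.2 fun e => absurd (Nat.le_of_ble_eq_true e) h.not_ge,
      min_eq_left h.le, cond_false]

def sq' (n : ℕ) : ℕ := Nat.mul n n

def u2 (i j : ℕ) : ℕ :=
  Nat.div (Nat.mul (sq' (Nat.sub (Nat.mul 1000 (Nat.sub (Nat.add (mn i) (mn j)) (mn (Nat.add i j))))
    109)) 1000000000000) (Nat.mul 11881000000
      (Nat.mul (Nat.mul (Nat.succ i) (Nat.succ j)) (Nat.sub (Nat.sub 622 i) j)))

theorem u2_eq (i j : ℕ) : u2 i j = t2 i j := by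
  rw [u2, t2, n2, sq', mn_eq, mn_eq, mn_eq, sq]
  rfl

def ok (i j : ℕ) : Bool :=
  Nat.blt i j && (Nat.ble (Nat.add (Nat.mul 2 j) i) 616 && (!Nat.beq i 180 && (!Nat.beq j 180 &&
    (Nat.ble (Nat.add i j) 216 || Nat.ble 221 (Nat.add i j)))))

theorem ok_iff (i j : ℕ) : ok i j = true ↔
    i < j ∧ i ≠ 180 ∧ j ≠ 180 ∧ 2 * (j + 1) + (i + 1) ≤ 619 ∧ (i + j ≤ 216 ∨ 221 ≤ i + j) := by
  simp only [ok, Bool.and_eq_true, Nat.blt_eq, Nat.ble_eq, Bool.not_eq_true', Bool.or_eq_true,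
    Nat.add_eq, Nat.mul_eq, Bool.eq_false_iff, ne_eq, Nat.beq_eq]
  omega

def tot (a n : ℕ) : ℕ := lp (fun x => lp (fun y =>
    cond (ok (Nat.add a x) (Nat.add a y)) (u2 (Nat.add a x) (Nat.add a y)) 0) n) n

theorem sum2 : 2190000000 ≤ tot 21 288 := by decide +kernel

theorem conv (a n K : ℕ) (h : K ≤ tot a n)
    {b : ℕ} (hb : b + 1 = a + n) : K ≤ ∑ i ∈ Icc a b, ∑ j ∈ Icc a b,
    if i < j ∧ i ≠ 180 ∧ j ≠ 180 ∧ 2 * (j + 1) + (i + 1) ≤ 619 ∧ (i + j ≤ 216 ∨ 221 ≤ i + j)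
      then t2 i j else 0 := by
  have h1 : ∀ f : ℕ → ℕ, ∑ i ∈ Icc a b, f i = lp (fun x => f (a + x)) n := fun f => by
    rw [lp_eq, ← Ico_add_one_right_eq_Icc, sum_Ico_eq_sum_range, hb, Nat.add_sub_cancel_left]
  simp only [h1, ← ok_iff, ← u2_eq, ← Bool.cond_eq_ite]
  exact h

theorem cast_min (i : ℕ) : min 1 ((i : ℝ) / 109) = ((min 109 i : ℕ) : ℝ) / 109 := by
  rw [Nat.cast_min, ← min_div_div_right (by norm_num)]
  norm_num

theorem cast_sub (t : ℕ) : ((1000 * t - 109 : ℕ) : ℝ) / 109000 ≤ max 0 ((t : ℝ) / 109 - 1 / 1000) := by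
  rcases le_total (1000 * t) 109 with h | h
  · rw [Nat.sub_eq_zero_of_le h, Nat.cast_zero, zero_div]
    exact le_max_left _ _
  · rw [Nat.cast_sub h]
    refine le_trans (le_of_eq ?_) (le_max_right _ _)
    push_cast
    ring

theorem le_c1 (i : ℕ) : (n1 i : ℝ) / 109000 ≤ c1 i := by
  rw [c1, cast_min]
  exact cast_sub _

theorem le_c2 (i j : ℕ) : (n2 i j : ℝ) / 109000 ≤ c2 i j := by
  rw [c2, cast_min, cast_min, ← Nat.cast_add, cast_min]
  refine (cast_sub _).trans (le_of_eq ?_)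
  rw [Nat.cast_sub (by omega)]
  push_cast
  ring_nf

theorem term {n D : ℕ} {c : ℝ} (h : (n : ℝ) / 109000 ≤ c) :
    ((n ^ 2 * 10 ^ 12 / (109000 ^ 2 * D) : ℕ) : ℝ) / 10 ^ 12 ≤ c ^ 2 / D := by
  have h1 : ((n : ℝ) / 109000) ^ 2 ≤ c ^ 2 := pow_le_pow_left₀ (by positivity) h 2
  refine le_trans ?_ (div_le_div_of_nonneg_right h1 D.cast_nonneg)
  refine (div_le_div_of_nonneg_right Nat.cast_div_le (by positivity)).trans (le_of_eq ?_)
  push_cast
  ring

theorem er (s : Finset ℕ) (a : ℕ) (f : ℕ → ℕ) :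
    (∑ i ∈ s, if i = a then 0 else f i) = ∑ i ∈ s.erase a, f i := by
  rw [← filter_ne', sum_filter]
  exact sum_congr rfl fun i _ => by by_cases h : i = a <;> simp [h]

theorem g1 {a b k : ℕ} (hb : b ≤ 308) {K : ℕ} (h : K ≤ ∑ i ∈ (Icc a b).erase k, t1 i) :
    (K : ℝ) / 10 ^ 12 ≤ ∑ i ∈ (Icc a b).erase k, c1 i ^ 2 / ((i + 1) * (622 - i)) := by
  have h' : (K : ℝ) ≤ ∑ i ∈ (Icc a b).erase k, (t1 i : ℝ) := by exact_mod_cast h
  refine (div_le_div_of_nonneg_right h' (by positivity)).trans ?_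
  rw [sum_div]
  refine sum_le_sum fun i hi => (term (le_c1 i)).trans (le_of_eq ?_)
  have := (mem_Icc.1 (mem_erase.1 hi).2).2
  rw [Nat.cast_mul, Nat.cast_sub (by omega)]
  push_cast
  rfl

theorem g2 {a b : ℕ} (hb : b ≤ 308) (P : ℕ → ℕ → Prop) [∀ i j, Decidable (P i j)] {K : ℕ}
    (h : K ≤ ∑ i ∈ Icc a b, ∑ j ∈ Icc a b, if P i j then t2 i j else 0) :
    (K : ℝ) / 10 ^ 12 ≤ ∑ x ∈ (Icc a b ×ˢ Icc a b).filter fun x => P x.1 x.2,
      c2 x.1 x.2 ^ 2 / ((x.1 + 1) * (x.2 + 1) * (622 - x.1 - x.2)) := by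
  rw [← sum_product', ← sum_filter] at h
  have h' : (K : ℝ) ≤ ∑ x ∈ (Icc a b ×ˢ Icc a b).filter fun x => P x.1 x.2, (t2 x.1 x.2 : ℝ) := by
    exact_mod_cast h
  refine (div_le_div_of_nonneg_right h' (by positivity)).trans ?_
  rw [sum_div]
  refine sum_le_sum fun x hx => (term (le_c2 x.1 x.2)).trans (le_of_eq ?_)
  obtain ⟨h1, h2⟩ := mem_product.1 (mem_filter.1 hx).1
  have h3 := (mem_Icc.1 h1).2
  have h4 := (mem_Icc.1 h2).2
  rw [Nat.cast_mul, Nat.cast_sub (by omega), Nat.cast_sub (by omega)]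
  push_cast
  rfl

end GRA

theorem s_GR : StGR := by
  have h1 := GRA.g1 le_rfl (GRA.sum1.trans_eq (GRA.er _ _ _))
  have h2 := GRA.g2 le_rfl _ (GRA.conv 21 288 _ GRA.sum2 (b := 308) (by norm_num))
  rw [StGR, grid, A1, A2]
  push_cast at h1 h2
  linarith

end Pool.Agent.MP_43e117_nt.PG

end
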