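import Pool.Agent.Mg.F436a94p.Gcdf306

set_option linter.all false

/-!
Primes in two different cells.
-/

open Finset Filter

namespace Pool.Agent.MP_43e117_nt.PG

namespace MA

theorem err (w : ℕ) {ε : ℝ} (hε : 0 < ε) : ∀ᶠ N : ℕ in atTop,
    8 * Real.log N * er N ≤ ε * (be w N * VV w) ∧ 1 ≤ Real.log N ∧ 0 < be w N := by
  have hW : (0 : ℝ) < WW w := Nat.cast_pos.2 (WW_pos w)
  have hφ : (0 : ℝ) < (WW w).totient := Nat.cast_pos.2 (Nat.totient_pos.2 (WW_pos w))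
  have hl := Real.tendsto_log_atTop.comp tendsto_natCast_atTop_atTop
  filter_upwards [hl.eventually_ge_atTop (24 * WW w / ε), hl.eventually_ge_atTop 1,
    eventually_ge_atTop 2] with N h1 h2 h3
  simp only [Function.comp] at h1 h2
  have hX : (N : ℝ) ≤ 3 * XX N := by
    unfold XX
    exact_mod_cast (by omega : N ≤ 3 * (N / 2))
  have hN : (0 : ℝ) < N := by exact_mod_cast (by omega : 0 < N)
  refine ⟨?_, h2, div_pos (by linarith) hφ⟩
  have e1 : be w N * VV w = XX N / WW w := by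
    unfold be VV
    field_simp
  have e2 : 8 * Real.log N * er N = 8 * N / Real.log N := by
    unfold er
    field_simp
  rw [e1, e2, div_le_iff₀ (by linarith)]
  rw [div_le_iff₀ hε] at h1
  calc (8 : ℝ) * N ≤ XX N / WW w * (24 * WW w) := by
        rw [show XX N / WW w * (24 * WW w) = 24 * XX N by field_simp]
        linarith
    _ ≤ XX N / WW w * (Real.log N * ε) :=
        mul_le_mul_of_nonneg_left h1 (div_nonneg (by linarith) hW.le)
    _ = _ := by ring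

theorem fin {β V m g γ G L Lg : ℝ} (hβ : 0 < β) (hV : 0 < V) (hm : 1 ≤ m) (hg : 1 ≤ g)
    (hγ : 1 ≤ γ) (hL : 0 < L) (hG : (1 - 1 / 10 ^ 13) * (V * L) ≤ G)
    (hLg : Lg ≤ (4 + 17 * (1 / 10 ^ 13)) * L)
    (h : 4 * ((1 - 3 / 10 ^ 13) * β * (m ^ 2 * (g * γ))) ^ 2 * (1 - 1 / 10 ^ 13) ≤
      (1 + 2 / 10 ^ 13) * (β * V) * (g * γ ^ 2) *
        (Lg * ((1 - 99 / 10 ^ 13) * β * (m ^ 4 * g) / G))) : False := by
  have hx : 0 < V * L := mul_pos hV hL
  have hG0 : 0 < G := by linarith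
  set P := β ^ 2 * m ^ 4 * g ^ 2 * γ ^ 2 with hP
  have hP0 : 0 < P := by positivity
  have h1 : V * Lg / G ≤ (4 + 17 * (1 / 10 ^ 13)) / (1 - 1 / 10 ^ 13) := by
    rw [div_le_div_iff₀ hG0 (by norm_num)]
    nlinarith [mul_le_mul_of_nonneg_left hLg hV.le]
  have e1 : 4 * ((1 - 3 / 10 ^ 13) * β * (m ^ 2 * (g * γ))) ^ 2 * (1 - 1 / 10 ^ 13) =
      4 * (1 - 3 / 10 ^ 13) ^ 2 * (1 - 1 / 10 ^ 13) * P := by
    rw [hP]
    ring
  have e2 : (1 + 2 / 10 ^ 13) * (β * V) * (g * γ ^ 2) *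
      (Lg * ((1 - 99 / 10 ^ 13) * β * (m ^ 4 * g) / G)) =
      (1 + 2 / 10 ^ 13) * (1 - 99 / 10 ^ 13) * (V * Lg / G) * P := by
    rw [hP]
    ring
  rw [e1, e2] at h
  have h2 := le_of_mul_le_mul_right h hP0
  norm_num at h1 h2
  linarith

theorem th_nonneg (n : ℕ) : 0 ≤ th n := by
  unfold th
  split_ifs
  exacts [Real.log_natCast_nonneg _, le_rfl]

end MA

theorem s_M (hRD : StRD) (hSt : StSt) (hBF : StBF) (hGA : StGA) (hS0 : StS0) (hS1 : StS1)
    (hPair : StPair) (hMa : StMa) (hFI : StFI) : StM := by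
  have e0 : (0 : ℝ) < 1 / 10 ^ 13 := by norm_num
  obtain ⟨δ, hδ⟩ : ∃ δ : ℝ, δ = 1 / 10 ^ 13 := ⟨_, rfl⟩
  have d0 : 0 < δ := by rw [hδ]; norm_num
  have d1 : δ ≤ 1 / 2000 := by rw [hδ]; norm_num
  obtain ⟨k0, hk0⟩ := hMa δ (2 * 10 ^ 13) (1 / 10 ^ 13) d0 d1 e0
  refine ⟨k0 + 1, fun h hi => ?_⟩
  have hc : Fintype.card (Fin 4 × Fin (k0 + 1)) = (4 * k0 + 2) + 2 := by
    simp only [Fintype.card_prod, Fintype.card_fin]
    ring
  obtain ⟨A, w1, hA⟩ := hk0 (Fin 4 × Fin (k0 + 1)) (by omega)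
  have hh : ∀ᶠ N : ℕ in atTop, ∀ j, N + N / 2 + h j ≤ 2 * N := by
    refine eventually_all.2 fun j => ?_
    filter_upwards [eventually_ge_atTop (2 * h j)] with N hN
    omega
  refine (((((((hS0 _ h _ _ A hi d0 d1 e0).and (hS1 _ h _ _ A hi d0 d1 e0)).and
    (hPair _ h _ A hi d0 d1)).and (Ev.of_w h w1 hA)).and
    ((hGA _ e0).ev h (δ := δ) (by linarith))).and
    (Ev.of_w h 0 fun w _ => ((hBF _ d0 d1).and hh).and (MA.err w e0))).and
    (Ev.cop h (univ.sup h))).mono ?_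
  rintro w b N ⟨⟨⟨⟨⟨⟨s0, s1⟩, s2⟩, y, m, γ, hm, hγ, a0, a1, a2, q0, q1, q2, hμ⟩, ga⟩,
    ⟨⟨b1, -, b3, -, b5, b6, -⟩, hN⟩, r1, r2, hβ⟩, hw, -⟩
  by_contra hno
  push Not at hno
  have hL : 0 < Real.log (RR δ N) := Real.log_pos (by exact_mod_cast b6)
  have hV := VV_pos w
  have hV1 := VV_le w
  have g1 := ga _ le_rfl
  rw [max_eq_left hL.le, abs_le] at g1
  have hLN : Real.log (RR δ N) ≤ Real.log N := by unfold ee at b1; linarith
  have hVL : VV w * Real.log (RR δ N) ≤ Real.log N := by nlinarith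
  have hx := mul_pos hV hL
  have hG0 : 0 < GA w (RR δ N) (Real.log (RR δ N)) := by linarith [g1.1]
  have hG2 : GA w (RR δ N) (Real.log (RR δ N)) ≤ 2 * Real.log N := by linarith [g1.2]
  have her : 0 ≤ er N := by unfold er; positivity
  have hbV : be w N * VV w ≤ be w N := mul_le_of_le_one_right hβ.le hV1
  have r3 : er N ≤ 1 / 10 ^ 13 * (be w N * VV w) := by nlinarith
  have r4 : 4 * er N ≤ 1 / 10 ^ 13 * be w N / GA w (RR δ N) (Real.log (RR δ N)) := by
    rw [le_div_iff₀ hG0]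
    nlinarith
  rw [hc] at q0 q1 q2 hμ
  simp only [Nat.add_sub_cancel, show 4 * k0 + 2 + 2 - 1 = 4 * k0 + 2 + 1 from rfl] at q1 q2
  rw [pow_add] at q0
  simp only [pow_succ γ (4 * k0 + 2)] at q1
  set g := γ ^ (4 * k0 + 2) with hg
  have hg1 : 1 ≤ g := one_le_pow₀ hγ
  have hmem : ∀ n ∈ II N w b, ∀ i, (RR δ N) < n + h i ∧ n + h i ≤ 2 * N := fun n hn i => by
    have := mem_Ioc.1 (mem_filter.1 hn).1
    have := hN i
    omega
  have hle : ∀ n ∈ II N w b, ∀ i, Real.log ((n + h i : ℕ) : ℝ) ≤ Real.log (2 * N) :=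
    fun n hn i => Real.log_le_log (by exact_mod_cast (by have := (hmem n hn i).1; omega))
      (by exact_mod_cast (hmem n hn i).2)
  have hLg : 0 ≤ Real.log (2 * N) := Real.log_nonneg (by exact_mod_cast (by omega : 1 ≤ 2 * N))
  have hred : ∀ n ∈ II N w b, ∀ i, (n + h i).Prime → ∀ C,
      PC h w (RR δ N) C n = PC h w (RR δ N) (red (rr w (RR δ N)) i C) n := fun n hn i hp C => by
    refine hRD _ _ _ _ _ _ fun p l hl e => ?_
    have h1 := ((hSt _ h w (RR δ N) n hi fun l => (le_sup (mem_univ l)).trans hw).1 p l).1 hl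
    rw [e] at h1
    have h2 := (Nat.prime_dvd_prime_iff_eq (si_mem p).2.2 hp).1 h1
    have := (si_mem p).2.1
    have := (hmem n hn i).1
    omega
  have hmg : 1 ≤ m ^ 2 * (g * γ) :=
    one_le_mul_of_one_le_of_one_le (one_le_pow₀ hm) (one_le_mul_of_one_le_of_one_le hg1 hγ)
  refine MA.fin hβ hV hm hg1 hγ hL (G := GA w (RR δ N) (Real.log (RR δ N)))
    (Lg := Real.log (2 * N))
    (by linarith [g1.1]) (by rw [← hδ]; exact b3)
    (hFI (k0 + 1) (II N w b) (fun n => PC h w (RR δ N) y n ^ 2) (fun i n => th (n + h i))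
      (Real.log (2 * N)) _ _ _ (10 ^ 13) (fun n => sq_nonneg _) (fun i n hn => ⟨MA.th_nonneg _, ?_⟩)
      (fun n hn i j hij => ?_) ?_ (fun i => ?_) (fun i j hij => ?_) (by omega) (by positivity)
      (by norm_num) ?_)
  · unfold th
    split_ifs
    exacts [hle n hn i, hLg]
  · unfold th
    split_ifs with p1 p2
    · exact absurd p2 (hno n hn i j hij p1)
    all_goals simp
  · have h1 := s0 y a0
    have h2 : 1 ≤ g * γ ^ 2 := one_le_mul_of_one_le_of_one_le hg1 (one_le_pow₀ hγ)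
    have h3 := mul_pos hβ hV
    nlinarith [mul_le_mul_of_nonneg_left q0 h3.le, mul_le_mul_of_nonneg_left h2 h3.le]
  · have h1 := s1 i _ (a1 i)
    have h2 : ∑ n ∈ II N w b, th (n + h i) * PC h w (RR δ N) (red (rr w (RR δ N)) i y) n ^ 2 =
        ∑ n ∈ II N w b, th (n + h i) * PC h w (RR δ N) y n ^ 2 := sum_congr rfl fun n hn => by
      by_cases hp : (n + h i).Prime
      · rw [← hred n hn i hp]
      · simp [th, hp]
    rw [h2] at h1
    nlinarith [mul_le_mul_of_nonneg_left (q1 i) hβ.le, mul_le_mul_of_nonneg_left hmg hβ.le]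
  · have h1 := s2 i j hij _ (a2 i j)
    have h2 : 1 ≤ m ^ 4 * g := one_le_mul_of_one_le_of_one_le (one_le_pow₀ hm) hg1
    have h3 : (1 - 1 / 10 ^ 11) * be w N * QQ (rr w (RR δ N)) (red (rr w (RR δ N)) j (red (rr w (RR δ N)) i y)) /
        GA w (RR δ N) (Real.log (RR δ N)) + 1 / 10 ^ 13 * be w N / GA w (RR δ N) (Real.log (RR δ N)) ≤
        (1 - 99 / 10 ^ 13) * be w N * (m ^ 4 * g) / GA w (RR δ N) (Real.log (RR δ N)) := by
      rw [← add_div]
      refine div_le_div_of_nonneg_right ?_ hG0.le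
      nlinarith [mul_le_mul_of_nonneg_left (q2 i j hij) hβ.le, mul_le_mul_of_nonneg_left h2 hβ.le]
    refine le_trans ?_ (mul_le_mul_of_nonneg_left (h1.trans (by linarith)) hLg)
    rw [mul_sum]
    refine sum_le_sum fun n hn => ?_
    by_cases hp : (n + h i).Prime
    · by_cases hq : (n + h j).Prime
      · rw [← hred n hn j hq, ← hred n hn i hp, if_pos hq, one_mul, mul_comm (th _) (th _),
          mul_assoc]
        refine mul_le_mul_of_nonneg_right ?_ (mul_nonneg (MA.th_nonneg _) (sq_nonneg _))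
        rw [th, if_pos hq]
        exact hle n hn j
      · simp [th, hq]
    · simp [th, hp]
  · have h1 : 0 ≤ be w N * (g * γ) := by positivity
    have h2 := mul_le_mul_of_nonneg_left hμ h1
    have h3 : 0 ≤ be w N * (g * γ) * (VV w * Real.log (2 * N) * γ) := by positivity
    push_cast at h2 ⊢
    nlinarith

end Pool.Agent.MP_43e117_nt.PG
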