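import Pool.Agent.Mg.F436a94p.Gcdf306

set_option linter.all false

section

/-!
Upper bound for the sum of the weights over all reduced classes.
-/

open Finset Filter

noncomputable section

namespace Pool.Agent.MP_43e117_nt.PG

namespace U4A

theorem small {c : ℝ} (hc : 0 < c) :
    ∀ᶠ N : ℕ in atTop, (1 + Real.log N) ^ 15 * Real.exp (Real.log N / 2) ≤ c * N := by
  have h1 := (isLittleO_pow_exp_pos_mul_atTop 15 (b := 1 / 2) (by norm_num)).bound
    (div_pos hc (Real.exp_pos (1 / 2)))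
  have h2 : Tendsto (fun N : ℕ => 1 + Real.log N) atTop atTop :=
    tendsto_atTop_add_const_left _ _ (Real.tendsto_log_atTop.comp tendsto_natCast_atTop_atTop)
  filter_upwards [h2.eventually h1, eventually_gt_atTop 0] with N h3 h4
  have h5 : Real.exp (1 / 2 * (1 + Real.log N)) = Real.exp (1 / 2) * Real.exp (Real.log N / 2) := by
    rw [← Real.exp_add]
    congr 1
    ring
  have h6 : Real.exp (Real.log N / 2) * Real.exp (Real.log N / 2) = N := by
    rw [← Real.exp_add, add_halves, Real.exp_log (Nat.cast_pos.2 h4)]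
  rw [Real.norm_of_nonneg (Real.exp_pos _).le, h5, ← mul_assoc,
    div_mul_cancel₀ _ (Real.exp_pos _).ne'] at h3
  calc _ ≤ c * Real.exp (Real.log N / 2) * Real.exp (Real.log N / 2) :=
        mul_le_mul_of_nonneg_right ((le_abs_self _).trans h3) (Real.exp_pos _).le
    _ = _ := by rw [mul_assoc, h6]

theorem ex_w {ε : ℝ} (hε : 0 < ε) : ∃ w0 : ℕ, ∀ w : ℕ, w0 ≤ w → Real.exp (28 / w) ≤ 1 + ε := by
  have h1 : Tendsto (fun w : ℕ => Real.exp (28 / w)) atTop (nhds (Real.exp 0)) :=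
    (Real.continuous_exp.tendsto 0).comp (tendsto_const_div_atTop_nhds_zero_nat 28)
  rw [Real.exp_zero] at h1
  exact eventually_atTop.1 (h1.eventually_le_const (by linarith))

theorem split (I : Finset ℕ) {W : ℕ} (hW : 0 < W) (f : ℕ → ℝ) (M : ℝ)
    (h : ∀ b, ∑ m ∈ I.filter (fun m => m ≡ b [MOD W]), f m ≤ M) :
    ∑ m ∈ I.filter (fun m => m.Coprime W), f m ≤ W.totient * M := by
  rw [← sum_fiberwise_of_maps_to (t := (range W).filter fun a => W.Coprime a) (g := fun m => m % W)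
    fun m hm => mem_filter.2 ⟨mem_range.2 (Nat.mod_lt _ hW), by
      have := (mem_filter.1 hm).2
      rwa [Nat.Coprime, Nat.gcd_comm, ← Nat.gcd_rec, Nat.gcd_comm]⟩,
    Nat.totient_eq_card_coprime, ← nsmul_eq_mul]
  refine sum_le_card_nsmul _ _ _ fun b hb => le_of_eq_of_le (sum_congr ?_ fun _ _ => rfl) (h b)
  obtain ⟨h1, h2⟩ := mem_filter.1 hb
  ext m
  simp only [mem_filter, Nat.ModEq, Nat.mod_eq_of_lt (mem_range.1 h1), and_assoc]
  refine and_congr_right fun _ => ⟨fun c => c.2, fun c => ⟨?_, c⟩⟩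
  rwa [Nat.Coprime, Nat.gcd_comm, Nat.gcd_rec, c, Nat.gcd_comm]

theorem stt_unit (w R n : ℕ) : stt (fun _ : Unit => 0) w R n = st1 w R n := by
  funext p
  by_cases h : p.1 ∣ n <;> simp [stt, st1, h]

end U4A

open U4A in
theorem s_U4 (hE2 : StE2) (hE3 : StE3) (_hE4 : StE4) (hTM : StTM) (hSB : StSB) (_hSt : StSt)
    (hSi : StSi) (hBF : StBF) (hEt : StEt) (hGA : StGA) (hT0 : StT0) (hEA : StEA) : StU4 := by
  intro J h _ δ ε hδ hδ' hε
  obtain ⟨w1, hw1⟩ := ex_w (half_pos hε)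
  obtain ⟨w2, hw2⟩ := hEt.and (hGA 1 one_pos)
  obtain ⟨A', hA⟩ := hEA Unit δ 0 hδ hδ'
  refine Ev.of_w h (max 7 (max w1 w2)) fun w hw => ?_
  have hw7 : 7 ≤ w := le_of_max_le_left hw
  have hW : (0 : ℝ) < WW w := Nat.cast_pos.2 (WW_pos w)
  have hφ : (0 : ℝ) < (WW w).totient := Nat.cast_pos.2 (Nat.totient_pos.2 (WW_pos w))
  have hV := VV_pos w
  have hV1 := VV_le w
  have hx := hw1 w (le_of_max_le_left (le_of_max_le_right hw))
  filter_upwards [(tendsto_RR (δ := δ) (by linarith)).eventually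
    (hw2 w (le_of_max_le_right (le_of_max_le_right hw))), hBF δ hδ hδ', hA w (by omega),
    small (c := ε / 2 / 3 / 250 / WW w) (by positivity), eventually_ge_atTop 3]
    with N ⟨⟨h1, _, _, _, h2, _⟩, h3⟩ ⟨h4, _⟩ h6 h7 h8 j
  replace h6 := h6.2
  generalize RR δ N = R at *
  obtain ⟨s1, s2, s3, -, -, s4⟩ := hSi w R (by omega)
  have hL : 0 ≤ Real.log R := Real.log_natCast_nonneg R
  have he : Real.log R = 200 * ee R := by rw [ee]; ring
  have he0 : 0 ≤ ee R := by linarith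
  have hG1 : 1 ≤ GA w R (109 * ee R) := (hSB _ _ _ _ (fun p => (s1 p).1) (by linarith)).1
  have hG2 : GA w R (109 * ee R) ≤ 1 + Real.log N := by
    have h9 := (abs_le.1 (h3 (109 * ee R) (by linarith))).2
    rw [max_eq_left (by linarith)] at h9
    nlinarith
  have hws : ∀ p, ww w R p ≠ 0 → 180 * ee R < Real.log p.1 ∧ Real.log p.1 ≤ 181 * ee R :=
    fun p hp => by
      by_contra c
      exact hp (if_neg c)
  have hX := hE2 _ _ _ _ _ _ _ _ _ _ _ _ s3 zero_le_one (by norm_num)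
    (hE3 _ (ww w R) (qq w R) (Real.exp (181 * ee R))
      (fun p => abs_le.2 ⟨by linarith [(h2 p).1], (h2 p).2⟩) fun p hp =>
        (Real.log_le_iff_le_exp (Nat.cast_pos.2 (s3 p))).1 (hws p hp).2)
    (h6 (109 * ee R) (by linarith))
  rw [← Real.exp_add, one_mul] at hX
  have hM := (hTM _ (rr w R) (ww w R) (qq w R) (109 * ee R) 1 (un Unit w R) le_rfl
    (fun p => ⟨(s1 p).1, le_trans (mul_le_mul_of_nonneg_right (by exact_mod_cast hw7) (s1 p).1)
      (s1 p).2⟩) (by linarith) (s4 Unit (by simp; omega)) (fun p => (h2 p).1)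
    fun p hp => lt_of_le_of_lt (by linarith) (hws p hp).1).2
  have hE : ∑ p, ww w R p * un Unit w R p (some ()) = Et w R :=
    sum_congr rfl fun p _ => mul_one_div _ _
  have hη : Real.exp (14 * 1 * eta (rr w R)) ≤ 1 + ε / 2 := by
    refine le_trans (Real.exp_le_exp.2 ?_) hx
    have : (28 : ℝ) / w = 14 * (2 / w) := by ring
    linarith
  rw [hE] at hM
  change _ ≤ _ / GA w R (109 * ee R) at hM
  set G := GA w R (109 * ee R)
  set D := Real.exp (181 * ee R + 2 * (109 * ee R)) with hD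
  have hN : 0 ≤ Real.log N := Real.log_natCast_nonneg N
  have hXX : (N : ℝ) / 3 ≤ XX N := by
    have : N ≤ 3 * (N / 2) := by omega
    rw [XX, div_le_iff₀ (by norm_num), mul_comm]
    exact_mod_cast this
  have hN0 : (0 : ℝ) ≤ N := Nat.cast_nonneg N
  have hX0 : 0 ≤ XX N := Nat.cast_nonneg _
  have herr : Real.log N ^ 6 * (D * (1 + Real.log D) ^ 2 ^ 3) ≤
      ε / 2 * (XX N / WW w) * Et w R / G := by
    rw [le_div_iff₀ (by linarith)]
    have a1 : D ≤ Real.exp (Real.log N / 2) := Real.exp_le_exp.2 (by linarith)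
    have a2 : Real.log D ≤ Real.log N := by rw [hD, Real.log_exp]; linarith
    have a3 : 0 ≤ Real.log D := by rw [hD, Real.log_exp]; linarith
    calc _ ≤ (1 + Real.log N) ^ 6 * (Real.exp (Real.log N / 2) * (1 + Real.log N) ^ 2 ^ 3) *
          (1 + Real.log N) := by gcongr; linarith
      _ = (1 + Real.log N) ^ 15 * Real.exp (Real.log N / 2) := by ring
      _ ≤ ε / 2 * (N / 3 / WW w) * (1 / 250) := h7.trans (le_of_eq (by ring))
      _ ≤ _ := by gcongr
  refine (split _ (WW_pos w) _ ((1 + ε) * (XX N / WW w) * Et w R / G) fun b => ?_).trans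
    (le_of_eq (by rw [VV]; ring))
  have hT := (abs_le.1 (hT0 Unit (fun _ => 0) w R b (N + h j) (N / 2) 3 _ _ _ _ _
    (fun _ _ _ => rfl) (fun _ => Nat.zero_le w) hX (by norm_num) (by norm_num)
    (Real.one_le_exp (by linarith)))).2
  simp only [stt_unit] at hT
  rw [add_right_comm N (h j)] at hT
  have b1 : XX N / WW w * (Et w R * Real.exp (14 * 1 * eta (rr w R)) / G) ≤
      XX N / WW w * (Et w R * (1 + ε / 2) / G) := by
    gcongr
  have b2 := mul_le_mul_of_nonneg_left hM (div_nonneg hX0 hW.le)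
  have b3 : (1 + ε) * (XX N / WW w) * Et w R / G =
      XX N / WW w * (Et w R * (1 + ε / 2) / G) + ε / 2 * (XX N / WW w) * Et w R / G := by ring
  rw [b3]
  simp only [Tm, SA]
  rw [XX] at b1 b2 herr ⊢
  linarith

end Pool.Agent.MP_43e117_nt.PG

end
end

section

/-! Primes in an interval, and the final second moment inequality. -/

open Finset Filter

namespace Pool.Agent.MP_43e117_nt.PG

theorem s_PC (hPNT : StPNT) : StPC := by
  intro ε hε
  obtain ⟨n0, hn0⟩ := eventually_atTop.1 (hPNT 1)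
  have hl : Tendsto (fun y : ℝ => Real.log (⌊y⌋₊ : ℝ)) atTop atTop :=
    Real.tendsto_log_atTop.comp (tendsto_natCast_atTop_atTop.comp tendsto_nat_floor_atTop)
  filter_upwards [hl.eventually_ge_atTop (30 / ε), eventually_ge_atTop (10 / ε),
    eventually_ge_atTop (2 : ℝ), tendsto_nat_floor_atTop.eventually_ge_atTop n0]
    with y h1 h2 h3 h4 z hz1 hz2
  have hyz : y ≤ z := by linarith
  have hab : ⌊y⌋₊ ≤ ⌊z⌋₊ := Nat.floor_le_floor hyz
  have hA := (abs_le.1 (hn0 _ h4)).2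
  have hB := (abs_le.1 (hn0 _ (h4.trans hab))).1
  have ha : (⌊y⌋₊ : ℝ) ≤ y := Nat.floor_le (by linarith)
  have hb : (⌊z⌋₊ : ℝ) ≤ z := Nat.floor_le (by linarith)
  have hb' : z < ⌊z⌋₊ + 1 := Nat.lt_floor_add_one z
  have ha0 : (0 : ℝ) < ⌊y⌋₊ := by exact_mod_cast Nat.floor_pos.2 (by linarith)
  have hl0 : 0 < Real.log (⌊y⌋₊ : ℝ) := lt_of_lt_of_le (by positivity) h1
  have hl1 : Real.log (⌊y⌋₊ : ℝ) ≤ Real.log (⌊z⌋₊ : ℝ) :=
    Real.log_le_log ha0 (by exact_mod_cast hab)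
  rw [pow_one] at hA hB
  have e1 : (⌊y⌋₊ : ℝ) / Real.log (⌊y⌋₊ : ℝ) ≤ y * (ε / 30) := by
    rw [div_le_iff₀ hl0]
    rw [div_le_iff₀ hε] at h1
    nlinarith
  have e2 : (⌊z⌋₊ : ℝ) / Real.log (⌊z⌋₊ : ℝ) ≤ 2 * y * (ε / 30) := by
    rw [div_le_iff₀ (hl0.trans_le hl1)]
    rw [div_le_iff₀ hε] at h1
    have : 30 ≤ Real.log (⌊z⌋₊ : ℝ) * ε := h1.trans (mul_le_mul_of_nonneg_right hl1 hε.le)
    nlinarith
  have e3 : ∑ n ∈ Icc 1 ⌊z⌋₊, th n = ∑ n ∈ Icc 1 ⌊y⌋₊, th n + ∑ n ∈ Ioc ⌊y⌋₊ ⌊z⌋₊, th n := by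
    have := sum_Ioc_consecutive th (Nat.zero_le ⌊y⌋₊) hab
    exact this.symm
  have e4 : ∑ n ∈ Ioc ⌊y⌋₊ ⌊z⌋₊, th n ≤
      (((Ioc ⌊y⌋₊ ⌊z⌋₊).filter Nat.Prime).card : ℝ) * Real.log z := by
    simp only [th]
    rw [← sum_filter, ← nsmul_eq_mul]
    refine sum_le_card_nsmul _ _ _ fun p hp => ?_
    rw [mem_filter, mem_Ioc] at hp
    exact Real.log_le_log (by exact_mod_cast hp.2.pos)
      (le_trans (by exact_mod_cast hp.1.2) hb)
  rw [div_le_iff₀ (Real.log_pos (by linarith))]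
  rw [div_le_iff₀ hε] at h2
  nlinarith

theorem s_FI : StFI := by
  intro K I ν θ L S0 s1 s2 μ hν hθ hd h0 h1 h2 hK hs hμ hm
  have hK' : (1 : ℝ) ≤ K := by exact_mod_cast hK
  have hs2 : 0 ≤ s2 := by
    have := h2 (0, ⟨0, hK⟩) (1, ⟨0, hK⟩) (by simp)
    rwa [sum_eq_zero fun n hn => by rw [hd n hn _ _ (by simp), zero_mul]] at this
  set T := ∑ i, ∑ n ∈ I, θ i n * ν n with hT
  have hT1 : 4 * K * s1 ≤ T := by
    have := card_nsmul_le_sum univ _ s1 fun i _ => h1 i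
    simpa using this
  have hCS : T ^ 2 ≤ (∑ n ∈ I, ν n) * ∑ n ∈ I, ν n * (∑ i, θ i n) ^ 2 := by
    have e : T = ∑ n ∈ I, ν n * ∑ i, θ i n := by
      rw [hT, sum_comm]
      exact sum_congr rfl fun n _ => by rw [← sum_mul, mul_comm]
    rw [e]
    exact sum_sq_le_sum_mul_sum_of_sq_le_mul I (fun n _ => hν n)
      (fun n _ => mul_nonneg (hν n) (sq_nonneg _)) fun n _ => le_of_eq (by ring)
  have hU : ∑ n ∈ I, ν n * (∑ i, θ i n) ^ 2 ≤ L * T + 4 * K ^ 2 * s2 := by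
    have e : ∑ n ∈ I, ν n * (∑ i, θ i n) ^ 2 = ∑ i, ∑ j, ∑ n ∈ I, θ i n * θ j n * ν n := by
      have e1 : ∀ n, ν n * (∑ i, θ i n) ^ 2 = ∑ i, ∑ j, θ i n * θ j n * ν n := fun n => by
        rw [sq, sum_mul_sum, mul_comm, sum_mul]
        exact sum_congr rfl fun i _ => sum_mul _ _ _
      simp only [e1]
      rw [sum_comm]
      exact sum_congr rfl fun i _ => sum_comm
    have b : ∀ i j, ∑ n ∈ I, θ i n * θ j n * ν n ≤
        (if i = j then L * ∑ n ∈ I, θ i n * ν n else 0) + if i.1 = j.1 then s2 else 0 := by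
      intro i j
      by_cases hij : i = j
      · subst hij
        rw [if_pos rfl, if_pos rfl, mul_sum]
        refine le_add_of_le_of_nonneg (sum_le_sum fun n hn => ?_) hs2
        rw [mul_assoc]
        exact mul_le_mul_of_nonneg_right (hθ i n hn).2 (mul_nonneg (hθ i n hn).1 (hν n))
      · rw [if_neg hij, zero_add]
        split_ifs with h
        · exact h2 i j hij
        · exact (sum_eq_zero fun n hn => by rw [hd n hn i j h, zero_mul]).le
    rw [e]
    refine (sum_le_sum fun i _ => sum_le_sum fun j _ => b i j).trans (le_of_eq ?_)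
    simp only [sum_add_distrib, sum_ite_eq, mem_univ, if_true]
    rw [hT, mul_sum]
    congr 1
    have e2 : ∀ i : Fin 4 × Fin K,
        (∑ j : Fin 4 × Fin K, if i.1 = j.1 then s2 else 0) = K * s2 := fun i => by
      rw [Fintype.sum_prod_type, sum_comm]
      simp
    simp only [e2]
    simp
    ring
  have hS : 0 ≤ ∑ n ∈ I, ν n := sum_nonneg fun n _ => hν n
  have hU0 : 0 ≤ ∑ n ∈ I, ν n * (∑ i, θ i n) ^ 2 :=
    sum_nonneg fun n _ => mul_nonneg (hν n) (sq_nonneg _)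
  have h3 : T ^ 2 ≤ S0 * (L * T + 4 * K ^ 2 * s2) :=
    hCS.trans (mul_le_mul h0 hU hU0 (hS.trans h0))
  have hT0 : 0 < 4 * K * s1 := by positivity
  have h4 : S0 * L ≤ T * (1 / μ) := by
    rw [mul_one_div, le_div_iff₀ (by linarith)]
    linarith
  have h5 : 0 ≤ 1 - 1 / μ := by
    rw [sub_nonneg, div_le_one (by linarith)]
    linarith
  have h6 : T ^ 2 * (1 - 1 / μ) ≤ 4 * K ^ 2 * (S0 * s2) := by
    have := mul_le_mul_of_nonneg_right h4 (hT0.le.trans hT1)
    nlinarith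
  have h7 : (4 * K * s1) ^ 2 * (1 - 1 / μ) ≤ T ^ 2 * (1 - 1 / μ) :=
    mul_le_mul_of_nonneg_right (pow_le_pow_left₀ hT0.le hT1 2) h5
  refine le_of_mul_le_mul_left ?_ (by positivity : (0 : ℝ) < 4 * K ^ 2)
  nlinarith

end Pool.Agent.MP_43e117_nt.PG

end
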