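import Pool.Agent.Mg.F436a94p.G204ca6

set_option linter.all false

/-!
The mean value theorem for primes over the primitive characters.
-/

open Finset Filter

noncomputable section

namespace Pool.Agent.MP_43e117_nt.PG

namespace PTA

theorem avg (hPm : StPm) {r : ℕ} (hr : 1 ≤ r) {F : DirichletCharacter ℂ r → ℝ} {M : ℝ}
    (hM : 0 ≤ M) (h : ∀ χ ∈ pm r, F χ ≤ M) : 1 / (r : ℝ) * ∑ χ ∈ pm r, F χ ≤ M := by
  have h0 : (0 : ℝ) < r := by exact_mod_cast hr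
  have h1 : ((pm r).card : ℝ) ≤ r := by exact_mod_cast (hPm r hr).1
  have h2 := sum_le_card_nsmul _ _ _ h
  rw [nsmul_eq_mul] at h2
  rw [one_div, inv_mul_le_iff₀ h0]
  exact h2.trans (mul_le_mul_of_nonneg_right h1 hM)

theorem sum_le {a b : ℕ} {F : ℕ → ℝ} {M : ℝ} (hM : 0 ≤ M) (h : ∀ r ∈ Ioc a b, F r ≤ M) :
    ∑ r ∈ Ioc a b, F r ≤ b * M := by
  have h2 := sum_le_card_nsmul _ _ _ h
  rw [nsmul_eq_mul, Nat.card_Ioc] at h2
  exact h2.trans (mul_le_mul_of_nonneg_right (by exact_mod_cast Nat.sub_le b a) hM)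

theorem log_le {y x : ℕ} (h : y ≤ x) : Real.log y ≤ Real.log x := by
  rcases Nat.eq_zero_or_pos y with rfl | hy
  · rw [Nat.cast_zero, Real.log_zero]
    exact Real.log_natCast_nonneg x
  · exact Real.log_le_log (by exact_mod_cast hy) (by exact_mod_cast h)

theorem va_sq (U x : ℕ) : ∀ y ≤ x, ∑ m ∈ Icc 1 y, ‖va U m‖ ^ 2 ≤ (1 + Real.log x) ^ 2 * y := by
  intro y hy
  have h : ∀ m ∈ Icc 1 y, ‖va U m‖ ^ 2 ≤ (1 + Real.log x) ^ 2 := fun m hm => by
    refine pow_le_pow_left₀ (norm_nonneg _) ?_ 2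
    have h1 := log_le ((mem_Icc.1 hm).2.trans hy)
    have h2 := ArithmeticFunction.vonMangoldt_le_log (n := m)
    have h3 := Real.log_natCast_nonneg x
    unfold va
    split_ifs
    · rw [Complex.norm_real, Real.norm_of_nonneg ArithmeticFunction.vonMangoldt_nonneg]
      linarith
    · rw [norm_zero]
      linarith
  have h2 := sum_le_card_nsmul _ _ _ h
  rwa [nsmul_eq_mul, Nat.card_Icc, Nat.add_sub_cancel, mul_comm] at h2

theorem vb_le (V n : ℕ) : ‖vb V n‖ ≤ ta n := by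
  refine (norm_sum_le _ _).trans ((sum_le_card_nsmul _ _ 1 fun d _ => ?_).trans ?_)
  · rw [Complex.norm_intCast]
    exact_mod_cast ArithmeticFunction.abs_moebius_le_one
  · rw [nsmul_eq_mul, mul_one, ta]
    exact_mod_cast card_filter_le _ _

theorem vb_sq (hTau : StTau) (V x : ℕ) :
    ∀ y ≤ x, ∑ n ∈ Icc 1 y, ‖vb V n‖ ^ 2 ≤ ((1 + Real.log x) ^ 2) ^ 2 * y := by
  intro y hy
  refine (sum_le_sum fun n _ => pow_le_pow_left₀ (norm_nonneg _) (vb_le V n) 2).trans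
    ((hTau 2 y).2.trans ?_)
  rw [mul_comm, ← pow_mul]
  have h1 := log_le hy
  have h2 := Real.log_natCast_nonneg y
  exact mul_le_mul_of_nonneg_right (pow_le_pow_left₀ (by linarith) (by linarith) _) (by positivity)

theorem vb_ne {V n : ℕ} (h : vb V n ≠ 0) : V < n := by
  obtain ⟨d, hd, -⟩ := exists_ne_zero_of_sum_ne_zero h
  exact (mem_filter.1 hd).2.trans_le (Nat.divisor_le (mem_filter.1 hd).1)

theorem ev (k : ℕ) {η : ℝ} (hη : 0 < η) :
    ∀ᶠ N : ℕ in atTop, Real.log N ^ k ≤ (N : ℝ) ^ η := by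
  filter_upwards [tendsto_natCast_atTop_atTop.eventually
    (isLittleO_log_rpow_rpow_atTop (k : ℝ) hη).eventuallyLE] with N h
  rw [Real.rpow_natCast, Real.norm_of_nonneg (pow_nonneg (Real.log_natCast_nonneg N) k),
    Real.norm_of_nonneg (by positivity)] at h
  exact h

end PTA

open PTA in
theorem s_PT (hTau : StTau) (hPm : StPm) (hB2 : StB2) (hV1 : StV1) (hTL : StTL) (hSW : StSW) :
    StPT := by
  intro δ A hδ hδ'
  obtain ⟨c, hc, hB⟩ := hB2
  filter_upwards [hSW (A + 1 + (A + 7)) (A + 7), ev (A + 7) (by positivity : 0 < δ / 4),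
    (Real.tendsto_log_atTop.comp tendsto_natCast_atTop_atTop).eventually_ge_atTop (43 + 640 * c),
    eventually_ge_atTop 1] with N h1 h2 h3 hN x e hx hx' he
  change 43 + 640 * c ≤ Real.log N at h3
  have N1 : (1 : ℝ) ≤ N := by exact_mod_cast hN
  have N0 : (0 : ℝ) < N := by linarith
  have x1 : (N : ℝ) ≤ x := by exact_mod_cast hx
  have x2 : (x : ℝ) ≤ 2 * N := by exact_mod_cast hx'
  have e1 := log_le (mem_Icc.1 he).2
  have l0 := Real.log_natCast_nonneg x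
  have l1 : 1 + Real.log x ≤ 2 * Real.log N := by
    have a := Real.log_le_log (by linarith) x2
    have b := Real.log_le_sub_one_of_pos (two_pos (α := ℝ))
    rw [Real.log_mul two_ne_zero N0.ne'] at a
    linarith
  have hp : ∀ t : ℝ, t ≤ 1 → (N : ℝ) ^ t ≤ x := fun t ht =>
    ((Real.rpow_le_rpow_of_exponent_le N1 ht).trans_eq (Real.rpow_one _)).trans x1
  have hS : (N : ℝ) ^ (1 / 2 - δ) * ((N : ℝ) ^ (δ / 4)) ^ 4 = √N := by
    rw [← Real.rpow_natCast, ← Real.rpow_mul N0.le, ← Real.rpow_add N0, Real.sqrt_eq_rpow]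
    congr 1
    push_cast
    ring
  have P1 := hp (1 / 2 - δ) (by linarith)
  have h4 := h1 x e
  have h5 := hp (1 / 10) (by norm_num)
  have P0 : 0 ≤ (N : ℝ) ^ (1 / 2 - δ) := by positivity
  generalize (N : ℝ) ^ (1 / 2 - δ) = P at *
  generalize (N : ℝ) ^ (δ / 4) = E at *
  generalize Real.log N = L at *
  have L1 : 2 ≤ L := by linarith
  have L0 : 0 < L := by linarith
  have hW : L ^ (A + 7) = L ^ (A + 1) * L ^ 6 := by ring
  have Y1 : 1 ≤ L ^ (A + 1) := one_le_pow₀ (by linarith)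
  have W2 : 2 ≤ L ^ (A + 7) := L1.trans (le_self_pow₀ (by linarith) (by omega))
  rw [pow_add L (A + 1)] at h4
  have hA : L ^ (A + 1) = L ^ A * L := pow_succ _ _
  generalize L ^ (A + 7) = W at *
  have E1 : 1 ≤ E := by linarith
  have E4 : W ≤ E ^ 4 := h2.trans (le_self_pow₀ E1 (by norm_num))
  have S0 : 0 ≤ √(N : ℝ) := Real.sqrt_nonneg _
  have S1 : 1 ≤ √(N : ℝ) := Real.one_le_sqrt.2 N1
  have S2 : √(N : ℝ) * √N = N := Real.mul_self_sqrt N0.le
  have S3 : √(x : ℝ) ≤ 2 * √N := Real.sqrt_le_iff.2 ⟨by positivity, by nlinarith⟩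
  have S4 : 0 ≤ √(x : ℝ) := Real.sqrt_nonneg _
  obtain ⟨T, hT⟩ : ∃ T, T = N / W := ⟨_, rfl⟩
  have T0 : 0 ≤ T := by rw [hT]; positivity
  have T1 : P * √N ≤ T := by
    rw [hT, le_div_iff₀ (by linarith)]
    calc P * √N * W ≤ P * √N * E ^ 4 := by gcongr
      _ = N := by rw [mul_right_comm, hS, S2]
  have T2 : E ^ 4 * P ^ 2 ≤ T := by
    rw [hT, le_div_iff₀ (by linarith)]
    calc E ^ 4 * P ^ 2 * W ≤ E ^ 4 * P ^ 2 * E ^ 4 := by gcongr
      _ = P * E ^ 4 * (P * E ^ 4) := by ring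
      _ = (N : ℝ) := by rw [hS, S2]
  have D1 : W / 2 ≤ ⌊W⌋₊ := by linarith [Nat.lt_floor_add_one W]
  have D1' : (⌊W⌋₊ : ℝ) ≤ W := Nat.floor_le (by linarith)
  have D1'' : 1 ≤ ⌊W⌋₊ := (Nat.one_le_floor_iff _).2 (by linarith)
  have D2 : (⌊P⌋₊ : ℝ) ≤ P := Nat.floor_le P0
  have U1 : E ^ 2 ≤ ⌈E ^ 2⌉₊ := Nat.le_ceil _
  have U0 : 1 ≤ E ^ 2 := one_le_pow₀ E1
  have U2 : (⌈E ^ 2⌉₊ : ℝ) ≤ 2 * E ^ 2 := by linarith [Nat.ceil_lt_add_one (zero_le_one.trans U0)]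
  have U3 : 1 ≤ ⌈E ^ 2⌉₊ := by exact_mod_cast U0.trans U1
  have U4 : E ≤ √(⌈E ^ 2⌉₊ : ℝ) := Real.le_sqrt_of_sq_le U1
  generalize ⌊W⌋₊ = D₁ at *
  generalize ⌊P⌋₊ = D₂ at *
  generalize ⌈E ^ 2⌉₊ = U at *
  have a1 : PS th (Icc 1 x) e 1 D₂ ≤ PS th (Icc 1 x) e 1 D₁ + PS th (Icc 1 x) e D₁ D₂ := by
    unfold PS
    rw [← sum_union (disjoint_left.2 fun r a b => by
      rw [mem_Ioc] at a b
      omega)]
    refine sum_le_sum_of_subset_of_nonneg (fun r hr => ?_) fun r _ _ =>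
      mul_nonneg (by positivity) (sum_nonneg fun _ _ => norm_nonneg _)
    simp only [mem_union, mem_Ioc] at hr ⊢
    omega
  have a2 : PS th (Icc 1 x) e 1 D₁ ≤ 2 * (N / L ^ (A + 1)) := by
    refine (sum_le (M := x / (L ^ (A + 1) * W)) (by positivity) fun r hr => ?_).trans ?_
    · obtain ⟨r1, r2⟩ := mem_Ioc.1 hr
      exact avg hPm r1.le (by positivity) fun χ hχ => h4 r χ h5 hx' he r1.le
        (le_trans (by exact_mod_cast r2) D1') ((hPm r r1.le).2 r1 χ hχ)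
    · calc (D₁ : ℝ) * (x / (L ^ (A + 1) * W)) ≤ W * (2 * N / (L ^ (A + 1) * W)) := by gcongr
        _ = _ := by field_simp
  have a3 := hB x D₁ D₂ U U (1 + Real.log x) ((1 + Real.log x) ^ 2) (va U) (vb U) D1''
    (by exact_mod_cast D2.trans P1) (U0.trans U1) (U0.trans U1) (by positivity) (by positivity)
    (fun m hm => by
      have : U < m := by_contra fun a => hm (if_neg a)
      exact_mod_cast this) (fun n hn => by exact_mod_cast vb_ne hn) (va_sq U x) (vb_sq hTau U x)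
  have a4 : c * (1 + Real.log x) * (1 + Real.log x) ^ 2 * (1 + Real.log x) ^ 3 *
      (x / D₁ + x / √U + x / √U + D₂ * √x) ≤ c * (2 * L) * (2 * L) ^ 2 * (2 * L) ^ 3 * (10 * T) := by
    have b1 : (x : ℝ) / D₁ ≤ 4 * T :=
      calc (x : ℝ) / D₁ ≤ 2 * N / (W / 2) := by gcongr
        _ = _ := by rw [hT]; field_simp; norm_num
    have b2 : (x : ℝ) / √U ≤ 2 * T :=
      calc (x : ℝ) / √U ≤ 2 * N / W := by gcongr; exact h2.trans U4
        _ = _ := by rw [hT]; ring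
    have b3 : (D₂ : ℝ) * √x ≤ 2 * T :=
      calc (D₂ : ℝ) * √x ≤ P * (2 * √N) := by gcongr
        _ ≤ _ := by linarith
    gcongr
    linarith
  have a5 : PS th (Icc 1 x) e D₁ D₂ ≤ D₂ * (2 * (2 * √N) * (2 * L) + L * √N +
      4 * (2 * E ^ 2) * (2 * E ^ 2) * P * (2 * L)) +
      ∑ r ∈ Ioc D₁ D₂, (1 / (r : ℝ)) * ∑ χ ∈ pm r, ‖BS (va U) (vb U) x χ‖ := by
    rw [← sub_le_iff_le_add, PS, ← sum_sub_distrib]
    refine sum_le (by positivity) fun r hr => ?_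
    obtain ⟨r1, r2⟩ := mem_Ioc.1 hr
    have r3 : 1 < r := by omega
    have r4 : (r : ℝ) ≤ P := le_trans (by exact_mod_cast r2) D2
    rw [← mul_sub, ← sum_sub_distrib]
    refine avg hPm r3.le (by positivity) fun χ hχ => ?_
    have b1 := hTL x e r χ (hN.trans hx) (mem_Icc.1 he).1
    have b2 := hV1 U U x r χ U3 U3 (hN.trans hx) r3.le ((hPm r r3.le).2 r3 χ hχ)
    have b3 := norm_sub_norm_le (CS th (Icc 1 x) e χ) (PX x χ)
    have b4 := norm_sub_norm_le (PX x χ) (BS (va U) (vb U) x χ)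
    have b5 : 2 * √x * Real.log x ≤ 2 * (2 * √N) * (2 * L) := by
      gcongr
      linarith
    have b6 : 4 * (U : ℝ) * U * r * (1 + Real.log x) ≤
      4 * (2 * E ^ 2) * (2 * E ^ 2) * P * (2 * L) := by gcongr
    have b7 : L ≤ L * √N := le_mul_of_one_le_right L0.le S1
    linarith
  have a6 : D₂ * (2 * (2 * √N) * (2 * L) + L * √N + 4 * (2 * E ^ 2) * (2 * E ^ 2) * P * (2 * L)) ≤
      41 * (L ^ 6 * T) :=
    calc _ ≤ P * (2 * (2 * √N) * (2 * L) + L * √N +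
          4 * (2 * E ^ 2) * (2 * E ^ 2) * P * (2 * L)) := by gcongr
      _ = L * (9 * (P * √N) + 32 * (E ^ 4 * P ^ 2)) := by ring
      _ ≤ L ^ 6 * (9 * T + 32 * T) := by
        gcongr
        exact le_self_pow₀ (by linarith) (by norm_num)
      _ = _ := by ring
  have a7 : L ^ 6 * T = N / L ^ (A + 1) := by
    rw [hT, hW]
    field_simp
  have a8 : N / L ^ A = L * (N / L ^ (A + 1)) := by
    rw [hA]
    field_simp
  have a9 : (43 + 640 * c) * (N / L ^ (A + 1)) ≤ L * (N / L ^ (A + 1)) := by gcongr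
  have a10 : c * (2 * L) * (2 * L) ^ 2 * (2 * L) ^ 3 * (10 * T) = 640 * c * (L ^ 6 * T) := by ring
  rw [a7] at a6 a10
  linarith

end Pool.Agent.MP_43e117_nt.PG
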