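import Mathlib

set_option linter.all false

section

/-!
Primes in arithmetic progressions on average: definitions and statements.
-/

open Finset Filter

noncomputable section

namespace Pool.Agent.MP_43e117_nt.PG

/-- `log n` on primes, zero elsewhere -/
def th (n : ℕ) : ℝ := if n.Prime then Real.log n else 0

/-- the number of divisors -/
def ta (n : ℕ) : ℝ := (n.divisors.card : ℝ)

open Classical in
/-- the primitive characters -/
def pm (r : ℕ) : Finset (DirichletCharacter ℂ r) := univ.filter fun χ => χ.IsPrimitive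

/-- the discrepancy of `f` on `I` in the class `a` modulo `q` -/
def Dl (f : ℕ → ℝ) (I : Finset ℕ) (q a : ℕ) : ℝ :=
  ∑ n ∈ I.filter (fun n => n ≡ a [MOD q]), f n -
    (∑ n ∈ I.filter (fun n => n.Coprime q), f n) / q.totient

/-- level of distribution `Q` with divisor weights and total error `ε` -/
def Lev (f : ℕ → ℝ) (I : Finset ℕ) (Q : ℝ) (c : ℕ) (ε : ℝ) : Prop :=
  ∃ E : ℕ → ℝ, (∀ q, 0 ≤ E q) ∧
    (∀ q a : ℕ, 1 ≤ q → (q : ℝ) ≤ Q → a.Coprime q → |Dl f I q a| ≤ E q) ∧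
    ∑ q ∈ Icc 1 ⌊Q⌋₊, ta q ^ c * E q ≤ ε

/-- character sum over the elements of `I` coprime to `e` -/
def CS (f : ℕ → ℝ) (I : Finset ℕ) (e : ℕ) {r : ℕ} (χ : DirichletCharacter ℂ r) : ℂ :=
  ∑ n ∈ I.filter (fun n => n.Coprime e), (f n : ℂ) * χ (n : ZMod r)

/-- mean value over the primitive characters with conductor in `(D1, D2]` -/
def PS (f : ℕ → ℝ) (I : Finset ℕ) (e D1 D2 : ℕ) : ℝ :=
  ∑ r ∈ Ioc D1 D2, (1 / (r : ℝ)) * ∑ χ ∈ pm r, ‖CS f I e χ‖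

open Classical in
/-- mean value over the nontrivial characters -/
def EC (f : ℕ → ℝ) (I : Finset ℕ) (q : ℕ) : ℝ :=
  (∑ χ ∈ univ.filter (fun χ : DirichletCharacter ℂ q => χ ≠ 1), ‖CS f I 1 χ‖) / q.totient

/-- convolution of the primes of `(y1, y2]` with `b` -/
def bl (y1 y2 : ℕ) (b : ℕ → ℝ) (m : ℕ) : ℝ :=
  ∑ p ∈ (Ioc y1 y2).filter (fun p => p ∣ m), th p * b (m / p)

/-- bilinear character sum under the hyperbola -/
def BS (a b : ℕ → ℂ) (x : ℕ) {r : ℕ} (χ : DirichletCharacter ℂ r) : ℂ :=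
  ∑ m ∈ Icc 1 x, ∑ n ∈ (Icc 1 x).filter (fun n => m * n ≤ x),
    a m * b n * χ ((m * n : ℕ) : ZMod r)

/-- the sum of the von Mangoldt function against a character -/
def PX (x : ℕ) {r : ℕ} (χ : DirichletCharacter ℂ r) : ℂ :=
  ∑ n ∈ Icc 1 x, χ (n : ZMod r) * (ArithmeticFunction.vonMangoldt n : ℂ)

/-- first coefficient in the bilinear term of Vaughan's identity -/
def va (U m : ℕ) : ℂ := if U < m then (ArithmeticFunction.vonMangoldt m : ℂ) else 0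

/-- second coefficient in the bilinear term of Vaughan's identity -/
def vb (V n : ℕ) : ℂ :=
  ∑ d ∈ n.divisors.filter (fun d => V < d), (ArithmeticFunction.moebius d : ℂ)

def StLS : Prop := ∃ c : ℝ, 0 < c ∧ ∀ (R L : ℕ) (a : ℕ → ℂ),
  ∑ r ∈ Icc 1 R, ∑ χ ∈ pm r, ‖∑ n ∈ Icc 1 L, a n * χ (n : ZMod r)‖ ^ 2 ≤
    c * ((R : ℝ) ^ 2 + L) * ∑ n ∈ Icc 1 L, ‖a n‖ ^ 2

def StTau : Prop := ∀ c N : ℕ, ∑ n ∈ Icc 1 N, ta n ^ c / n ≤ (1 + Real.log N) ^ 2 ^ c ∧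
  ∑ n ∈ Icc 1 N, ta n ^ c ≤ N * (1 + Real.log N) ^ 2 ^ c

def StPsi : Prop := ∀ A B : ℕ, ∀ᶠ x : ℕ in atTop, ∀ (q : ℕ) (χ : DirichletCharacter ℂ q),
  1 ≤ q → (q : ℝ) ≤ Real.log x ^ B → χ ≠ 1 → ‖PX x χ‖ ≤ x / Real.log x ^ A

def StPNT : Prop := ∀ A : ℕ, ∀ᶠ x : ℕ in atTop,
  |∑ n ∈ Icc 1 x, th n - x| ≤ x / Real.log x ^ A

def StPm : Prop := ∀ r : ℕ, 1 ≤ r → (pm r).card ≤ r ∧ (1 < r → ∀ χ ∈ pm r, χ ≠ 1)

def StTot : Prop := ∀ n : ℕ, 1 ≤ n → (n : ℝ) ≤ n.totient * (1 + 2 * Real.log n)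

def StR1 : Prop := ∀ (f : ℕ → ℝ) (I : Finset ℕ) (q a : ℕ), 1 ≤ q → a.Coprime q →
  |Dl f I q a| ≤ EC f I q

def StR2 : Prop := ∀ (f : ℕ → ℝ) (I : Finset ℕ) (Q : ℕ), ∑ q ∈ Icc 1 Q, EC f I q ≤
  ∑ e ∈ Icc 1 Q, (1 / (e.totient : ℝ)) *
    ∑ r ∈ Ioc 1 Q, (1 / (r.totient : ℝ)) * ∑ χ ∈ pm r, ‖CS f I e χ‖

def StLV : Prop := ∀ A c A0 : ℕ, ∃ A' : ℕ, ∀ᶠ N : ℕ in atTop,
  ∀ (f : ℕ → ℝ) (I : Finset ℕ) (Q : ℝ), I ⊆ Icc 1 (2 * N) → Q ≤ N →
    (∀ n ∈ I, |f n| ≤ Real.log N ^ A0) →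
    (∀ e ∈ Icc 1 N, PS f I e 1 ⌊Q⌋₊ ≤ N / Real.log N ^ A') → Lev f I Q c (N / Real.log N ^ A)

def StSC : Prop := ∀ (X : Type) (s : Finset X) (φ ψ : X → ℕ → ℂ) (I J : Finset ℕ) (K1 K2 : ℝ),
  0 ≤ K1 → 0 ≤ K2 →
  (∀ a : ℕ → ℂ, ∑ x ∈ s, ‖∑ m ∈ I, a m * φ x m‖ ^ 2 ≤ K1 * ∑ m ∈ I, ‖a m‖ ^ 2) →
  (∀ b : ℕ → ℂ, ∑ x ∈ s, ‖∑ n ∈ J, b n * ψ x n‖ ^ 2 ≤ K2 * ∑ n ∈ J, ‖b n‖ ^ 2) →
  ∀ g : ℕ → ℕ, (∀ m m', 1 ≤ m → m ≤ m' → g m' ≤ g m) →
  ∀ u t : ℕ, 1 ≤ u → I ⊆ Ico u (u + 2 ^ t) → ∀ a b : ℕ → ℂ,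
    ∑ x ∈ s, ‖∑ m ∈ I, ∑ n ∈ J.filter (fun n => n ≤ g m), a m * φ x m * (b n * ψ x n)‖ ≤
      (t + 1) * √(K1 * K2) * √(∑ m ∈ I, ‖a m‖ ^ 2) * √(∑ n ∈ J, ‖b n‖ ^ 2)

def StB1 : Prop := ∃ c : ℝ, 0 < c ∧ ∀ (Q M x : ℕ) (a b : ℕ → ℂ), 1 ≤ Q → 1 ≤ M → M ≤ x →
  ∑ r ∈ Ico Q (2 * Q), ∑ χ ∈ pm r, ‖∑ m ∈ Ico M (2 * M),
      ∑ n ∈ (Icc 1 x).filter (fun n => m * n ≤ x), a m * b n * χ ((m * n : ℕ) : ZMod r)‖ ≤
    c * (1 + Real.log x) * √(((Q : ℝ) ^ 2 + M) * ((Q : ℝ) ^ 2 + (x : ℝ) / M)) *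
      √(∑ m ∈ Ico M (2 * M), ‖a m‖ ^ 2) * √(∑ n ∈ Icc 1 (x / M), ‖b n‖ ^ 2)

def StB2 : Prop := ∃ c : ℝ, 0 < c ∧ ∀ (x D1 D2 : ℕ) (U V α β : ℝ) (a b : ℕ → ℂ),
  1 ≤ D1 → D2 ≤ x → 1 ≤ U → 1 ≤ V → 0 ≤ α → 0 ≤ β →
  (∀ m, a m ≠ 0 → U < m) → (∀ n, b n ≠ 0 → V < n) →
  (∀ y ≤ x, ∑ m ∈ Icc 1 y, ‖a m‖ ^ 2 ≤ α ^ 2 * y) →
  (∀ y ≤ x, ∑ n ∈ Icc 1 y, ‖b n‖ ^ 2 ≤ β ^ 2 * y) →
  ∑ r ∈ Ioc D1 D2, (1 / (r : ℝ)) * ∑ χ ∈ pm r, ‖BS a b x χ‖ ≤
    c * α * β * (1 + Real.log x) ^ 3 * (x / D1 + x / √U + x / √V + D2 * √x)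

def StV0 : Prop := ∀ (U V x r : ℕ) (χ : DirichletCharacter ℂ r), PX x χ =
  ∑ n ∈ (Icc 1 x).filter (fun n => n ≤ U),
      χ (n : ZMod r) * (ArithmeticFunction.vonMangoldt n : ℂ) +
    ∑ d ∈ Icc 1 V, (ArithmeticFunction.moebius d : ℂ) * χ (d : ZMod r) *
      ∑ n ∈ Icc 1 (x / d), (Real.log n : ℂ) * χ (n : ZMod r) -
    ∑ d ∈ Icc 1 V, ∑ e ∈ Icc 1 U,
      (ArithmeticFunction.moebius d : ℂ) * (ArithmeticFunction.vonMangoldt e : ℂ) *
        χ (d : ZMod r) * χ (e : ZMod r) * ∑ n ∈ Icc 1 (x / (d * e)), χ (n : ZMod r) +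
    BS (va U) (vb V) x χ

def StV1 : Prop := ∀ (U V x r : ℕ) (χ : DirichletCharacter ℂ r), 1 ≤ U → 1 ≤ V → 1 ≤ x → 1 ≤ r →
  χ ≠ 1 → ‖PX x χ - BS (va U) (vb V) x χ‖ ≤ 4 * U * V * r * (1 + Real.log x)

def StTL : Prop := ∀ (y e r : ℕ) (χ : DirichletCharacter ℂ r), 1 ≤ y → 1 ≤ e →
  ‖CS th (Icc 1 y) e χ - PX y χ‖ ≤ 2 * √y * Real.log y + Real.log e

def StSW : Prop := ∀ A B : ℕ, ∀ᶠ N : ℕ in atTop, ∀ (y e r : ℕ) (χ : DirichletCharacter ℂ r),
  (N : ℝ) ^ (1 / 10 : ℝ) ≤ y → y ≤ 2 * N → e ∈ Icc 1 N → 1 ≤ r → (r : ℝ) ≤ Real.log N ^ B →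
  χ ≠ 1 → ‖CS th (Icc 1 y) e χ‖ ≤ y / Real.log N ^ A

def StPT : Prop := ∀ (δ : ℝ) (A : ℕ), 0 < δ → δ ≤ 1 / 4 → ∀ᶠ N : ℕ in atTop, ∀ x e : ℕ,
  N ≤ x → x ≤ 2 * N → e ∈ Icc 1 N →
  PS th (Icc 1 x) e 1 ⌊(N : ℝ) ^ (1 / 2 - δ)⌋₊ ≤ N / Real.log N ^ A

def StPB : Prop := ∀ (δ B0 : ℝ) (A : ℕ), 0 < δ → δ ≤ 1 / 4 → ∀ᶠ N : ℕ in atTop,
  ∀ (x e y1 y2 : ℕ) (b : ℕ → ℝ), N ≤ x → x ≤ 2 * N → e ∈ Icc 1 N →
  (N : ℝ) ^ (1 / 10 : ℝ) ≤ y1 → (y2 : ℝ) ≤ (N : ℝ) ^ (1 / 4 : ℝ) → (∀ n, |b n| ≤ B0) →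
  PS (bl y1 y2 b) (Icc 1 x) e 1 ⌊(N : ℝ) ^ (1 / 2 - δ)⌋₊ ≤ N / Real.log N ^ A

def StBV : Prop := ∀ (δ : ℝ) (A c : ℕ), 0 < δ → δ ≤ 1 / 4 → ∀ᶠ N : ℕ in atTop, ∀ x1 x2 : ℕ,
  N ≤ x1 → x1 ≤ x2 → x2 ≤ 2 * N →
  Lev th (Ioc x1 x2) ((N : ℝ) ^ (1 / 2 - δ)) c (N / Real.log N ^ A)

def StBB : Prop := ∀ (δ B0 : ℝ) (A c : ℕ), 0 < δ → δ ≤ 1 / 4 → ∀ᶠ N : ℕ in atTop,
  ∀ (x1 x2 y1 y2 : ℕ) (b : ℕ → ℝ), N ≤ x1 → x1 ≤ x2 → x2 ≤ 2 * N →
  (N : ℝ) ^ (1 / 10 : ℝ) ≤ y1 → (y2 : ℝ) ≤ (N : ℝ) ^ (1 / 4 : ℝ) → (∀ n, |b n| ≤ B0) →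
  Lev (bl y1 y2 b) (Ioc x1 x2) ((N : ℝ) ^ (1 / 2 - δ)) c (N / Real.log N ^ A)

end Pool.Agent.MP_43e117_nt.PG

end
end

section

open Finset Filter

noncomputable section

namespace Pool.Agent.MP_43e117_nt.PG

namespace R1A

open Classical in
theorem key (f : ℕ → ℝ) (I : Finset ℕ) (q a : ℕ) (hq : 1 ≤ q) (ha : a.Coprime q) :
    ((Dl f I q a : ℝ) : ℂ) =
      (∑ χ ∈ univ.filter (fun χ : DirichletCharacter ℂ q => χ ≠ 1),
        χ (a : ZMod q)⁻¹ * CS f I 1 χ) / (q.totient : ℂ) := by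
  have hsplit : ∑ χ : DirichletCharacter ℂ q, χ (a : ZMod q)⁻¹ * CS f I 1 χ =
      (1 : DirichletCharacter ℂ q) (a : ZMod q)⁻¹ * CS f I 1 (1 : DirichletCharacter ℂ q) +
      ∑ χ ∈ univ.filter (fun χ : DirichletCharacter ℂ q => χ ≠ 1),
        χ (a : ZMod q)⁻¹ * CS f I 1 χ := by
    rw [Finset.filter_ne' univ (1 : DirichletCharacter ℂ q),
      Finset.add_sum_erase univ (fun χ : DirichletCharacter ℂ q => χ (a : ZMod q)⁻¹ * CS f I 1 χ)
        (mem_univ 1)]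
  have : NeZero q := ⟨by omega⟩
  have hu : IsUnit (a : ZMod q) := (ZMod.isUnit_iff_coprime a q).2 ha
  have hT : (q.totient : ℂ) ≠ 0 := by
    have : 0 < q.totient := Nat.totient_pos.2 (by omega)
    exact_mod_cast this.ne'
  have hall : ∑ χ : DirichletCharacter ℂ q, χ (a : ZMod q)⁻¹ * CS f I 1 χ =
      (q.totient : ℂ) * ∑ n ∈ I.filter (fun n => n ≡ a [MOD q]), (f n : ℂ) := by
    have h1 : ∀ χ : DirichletCharacter ℂ q, χ (a : ZMod q)⁻¹ * CS f I 1 χ =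
        ∑ n ∈ I, (f n : ℂ) * (χ (a : ZMod q)⁻¹ * χ (n : ZMod q)) := by
      intro χ
      unfold CS
      rw [Finset.filter_true_of_mem (fun n _ => Nat.coprime_one_right n), Finset.mul_sum]
      exact Finset.sum_congr rfl (fun n _ => by ring)
    rw [Finset.sum_congr rfl (fun χ _ => h1 χ), Finset.sum_comm, Finset.sum_filter, Finset.mul_sum]
    refine Finset.sum_congr rfl (fun n _ => ?_)
    rw [← Finset.mul_sum, DirichletCharacter.sum_char_inv_mul_char_eq ℂ hu]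
    by_cases h : n ≡ a [MOD q]
    · have h' : (a : ZMod q) = (n : ZMod q) := (ZMod.natCast_eq_natCast_iff a n q).2 h.symm
      rw [if_pos h, if_pos h']; ring
    · have h' : ¬ (a : ZMod q) = (n : ZMod q) := fun e =>
        h ((ZMod.natCast_eq_natCast_iff a n q).1 e).symm
      rw [if_neg h, if_neg h']; ring
  have hone : (1 : DirichletCharacter ℂ q) (a : ZMod q)⁻¹ * CS f I 1 (1 : DirichletCharacter ℂ q) =
      ∑ n ∈ I.filter (fun n => n.Coprime q), (f n : ℂ) := by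
    have hi : IsUnit ((a : ZMod q)⁻¹) :=
      IsUnit.of_mul_eq_one (a : ZMod q) (ZMod.inv_mul_of_unit _ hu)
    rw [MulChar.one_apply hi, one_mul]
    unfold CS
    rw [Finset.filter_true_of_mem (fun n _ => Nat.coprime_one_right n), Finset.sum_filter]
    refine Finset.sum_congr rfl (fun n _ => ?_)
    by_cases h : n.Coprime q
    · rw [if_pos h, MulChar.one_apply ((ZMod.isUnit_iff_coprime n q).2 h), mul_one]
    · rw [if_neg h, MulChar.map_nonunit _ (fun e => h ((ZMod.isUnit_iff_coprime n q).1 e)),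
        mul_zero]
  rw [hall, hone] at hsplit
  unfold Dl
  push_cast
  rw [eq_div_iff hT, sub_mul, div_mul_cancel₀ _ hT]
  linear_combination hsplit

end R1A

theorem s_R1 : StR1 := by
  intro f I q a hq ha
  classical
  have h := R1A.key f I q a hq ha
  have hn : |Dl f I q a| = ‖((Dl f I q a : ℝ) : ℂ)‖ := by
    rw [Complex.norm_real, Real.norm_eq_abs]
  rw [hn, h, norm_div, Complex.norm_natCast]
  unfold EC
  refine div_le_div_of_nonneg_right ?_ (Nat.cast_nonneg _)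
  refine (norm_sum_le _ _).trans (Finset.sum_le_sum (fun χ _ => ?_))
  rw [norm_mul]
  exact mul_le_of_le_one_left (norm_nonneg _) (DirichletCharacter.norm_le_one χ _)

end Pool.Agent.MP_43e117_nt.PG

end
end

section

/-! Reduction to primitive characters. -/

open Finset Filter

noncomputable section

namespace Pool.Agent.MP_43e117_nt.PG

namespace R2A

open DirichletCharacter

theorem cs_level (f : ℕ → ℝ) (I : Finset ℕ) {q r : ℕ} (h : r ∣ q) (ψ : DirichletCharacter ℂ r) :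
    CS f I 1 (changeLevel h ψ) = CS f I (q / r) ψ := by
  unfold CS
  rw [sum_filter, sum_filter]
  refine sum_congr rfl fun n _ => ?_
  rw [if_pos (Nat.coprime_one_right n)]
  by_cases hn : n.Coprime q
  · rw [if_pos (Nat.Coprime.coprime_dvd_right (Nat.div_dvd_of_dvd h) hn)]
    have e := changeLevel_eq_cast_of_dvd' ψ h (a := (n : ℤ)) (Nat.isCoprime_iff_coprime.2 hn)
    rw [Int.cast_natCast, Int.cast_natCast] at e
    rw [e]
  · rw [MulChar.map_nonunit _ (fun hu => hn ((ZMod.isUnit_iff_coprime n q).1 hu)), mul_zero]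
    split_ifs with h2
    · have h3 : ¬ n.Coprime r := fun h3 => hn (by
        have := Nat.Coprime.mul_right h2 h3
        rwa [Nat.div_mul_cancel h] at this)
      rw [MulChar.map_nonunit _ (fun hu => h3 ((ZMod.isUnit_iff_coprime n r).1 hu)), mul_zero]
    · rfl

abbrev Ch : Type := Σ r : ℕ, DirichletCharacter ℂ r

def fw (x : Ch) : ℕ × Ch := (x.1 / x.2.conductor, ⟨x.2.conductor, x.2.primitiveCharacter⟩)

def bw (y : ℕ × Ch) : Ch := ⟨y.1 * y.2.1, changeLevel (Dvd.intro_left _ rfl) y.2.2⟩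

theorem lev_eq {r q q' : ℕ} (e : q = q') (h : r ∣ q) (h' : r ∣ q') (ψ : DirichletCharacter ℂ r) :
    (⟨q, changeLevel h ψ⟩ : Ch) = ⟨q', changeLevel h' ψ⟩ := by
  subst e; rfl

theorem bw_fw (x : Ch) : bw (fw x) = x := by
  obtain ⟨q, χ⟩ := x
  have h := lev_eq (Nat.div_mul_cancel χ.conductor_dvd_level) (Dvd.intro_left _ rfl)
    χ.conductor_dvd_level χ.primitiveCharacter
  rw [changeLevel_primitiveCharacter] at h
  exact h

theorem fw_inj : Function.Injective fw := Function.LeftInverse.injective bw_fw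

def G (f : ℕ → ℝ) (I : Finset ℕ) (y : ℕ × Ch) : ℝ :=
  1 / (y.1.totient : ℝ) * (1 / (y.2.1.totient : ℝ) * ‖CS f I y.1 y.2.2‖)

theorem G_nn (f : ℕ → ℝ) (I : Finset ℕ) (y : ℕ × Ch) : 0 ≤ G f I y := by
  unfold G; positivity

theorem le_G (f : ℕ → ℝ) (I : Finset ℕ) {q : ℕ} (hq : 1 ≤ q) (χ : DirichletCharacter ℂ q) :
    ‖CS f I 1 χ‖ / q.totient ≤ G f I (fw ⟨q, χ⟩) := by
  have hd := χ.conductor_dvd_level
  have e := cs_level f I hd χ.primitiveCharacter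
  rw [changeLevel_primitiveCharacter] at e
  have hr : 0 < χ.conductor := Nat.pos_of_dvd_of_pos hd hq
  have he : 0 < q / χ.conductor := Nat.div_pos (Nat.le_of_dvd hq hd) hr
  have h1 := Nat.totient_super_multiplicative (q / χ.conductor) χ.conductor
  rw [Nat.div_mul_cancel hd] at h1
  have h2 : (((q / χ.conductor).totient : ℝ)) * χ.conductor.totient ≤ q.totient := by
    exact_mod_cast h1
  have p1 : (0 : ℝ) < (q / χ.conductor).totient := by exact_mod_cast Nat.totient_pos.2 he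
  have p2 : (0 : ℝ) < χ.conductor.totient := by exact_mod_cast Nat.totient_pos.2 hr
  show _ ≤ 1 / ((q / χ.conductor).totient : ℝ) *
    (1 / (χ.conductor.totient : ℝ) * ‖CS f I (q / χ.conductor) χ.primitiveCharacter‖)
  rw [← e, ← mul_assoc, one_div_mul_one_div, one_div_mul_eq_div]
  exact div_le_div_of_nonneg_left (norm_nonneg _) (mul_pos p1 p2) h2

end R2A

open R2A in
theorem s_R2 : StR2 := by
  classical
  intro f I Q
  have e1 : ∑ q ∈ Icc 1 Q, EC f I q = ∑ x ∈ (Icc 1 Q).sigma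
      (fun q => univ.filter (fun χ : DirichletCharacter ℂ q => χ ≠ 1)),
      ‖CS f I 1 x.2‖ / x.1.totient := by
    rw [sum_sigma]
    refine sum_congr rfl fun q _ => ?_
    rw [EC, sum_div]
  have e2 : ∑ e ∈ Icc 1 Q, (1 / (e.totient : ℝ)) *
      ∑ r ∈ Ioc 1 Q, (1 / (r.totient : ℝ)) * ∑ χ ∈ pm r, ‖CS f I e χ‖ =
      ∑ y ∈ Icc 1 Q ×ˢ (Ioc 1 Q).sigma pm, G f I y := by
    rw [sum_product]
    refine sum_congr rfl fun e _ => ?_
    rw [sum_sigma, mul_sum]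
    refine sum_congr rfl fun r _ => ?_
    rw [mul_sum, mul_sum]
    rfl
  rw [e1, e2]
  refine (sum_le_sum (g := fun x => G f I (fw x)) fun x hx =>
    le_G f I (mem_Icc.1 (mem_sigma.1 hx).1).1 x.2).trans ?_
  rw [← sum_image (f := G f I) (fun _ _ _ _ h => fw_inj h)]
  refine sum_le_sum_of_subset_of_nonneg (fun y hy => ?_) fun y _ _ => G_nn f I y
  obtain ⟨⟨q, χ⟩, hx, rfl⟩ := mem_image.1 hy
  obtain ⟨h1, h2⟩ := mem_sigma.1 hx
  obtain ⟨hq, hQ⟩ := mem_Icc.1 h1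
  have hχ : χ ≠ 1 := (mem_filter.1 h2).2
  have : NeZero q := ⟨Nat.one_le_iff_ne_zero.1 hq⟩
  have hd := χ.conductor_dvd_level
  have hr : 0 < χ.conductor := Nat.pos_of_dvd_of_pos hd hq
  have hr1 : χ.conductor ≠ 1 := fun h => hχ (DirichletCharacter.eq_one_iff_conductor_eq_one.2 h)
  have hle : χ.conductor ≤ q := Nat.le_of_dvd hq hd
  refine mem_product.2 ⟨mem_Icc.2 ⟨Nat.div_pos hle hr, (Nat.div_le_self _ _).trans hQ⟩,
    mem_sigma.2 ⟨mem_Ioc.2 ⟨?_, hle.trans hQ⟩, ?_⟩⟩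
  · show 1 < χ.conductor
    omega
  · exact mem_filter.2 ⟨mem_univ _, χ.primitiveCharacter_isPrimitive⟩

end Pool.Agent.MP_43e117_nt.PG

end
end

section

/-!
A lower bound for the totient function, and the removal of prime powers from character sums.
-/

open Finset Filter

noncomputable section

namespace Pool.Agent.MP_43e117_nt.PG

namespace TotA

theorem prod_le (S : Finset ℕ) : (∀ p ∈ S, 2 ≤ p) →
    ∏ p ∈ S, p ≤ (S.card + 1) * ∏ p ∈ S, (p - 1) := by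
  induction S using Finset.induction_on_max with
  | empty => simp
  | insert a S ha ih =>
    intro h
    have hn : a ∉ S := fun e => lt_irrefl _ (ha a e)
    have h1 := ih fun p hp => h p (mem_insert_of_mem hp)
    have h2 : S.card ≤ a - 2 := by
      rw [← Nat.card_Ico]
      exact card_le_card fun p hp => mem_Ico.2 ⟨h p (mem_insert_of_mem hp), ha p hp⟩
    have h3 := h a (mem_insert_self _ _)
    rw [prod_insert hn, prod_insert hn, card_insert_of_notMem hn, ← mul_assoc]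
    obtain ⟨b, rfl⟩ : ∃ b, a = b + 2 := ⟨a - 2, by omega⟩
    have h4 : (b + 2) * (S.card + 1) ≤ (S.card + 1 + 1) * (b + 2 - 1) := by
      have : S.card ≤ b := by omega
      rw [show b + 2 - 1 = b + 1 from rfl]
      nlinarith
    calc (b + 2) * ∏ p ∈ S, p ≤ (b + 2) * ((S.card + 1) * ∏ p ∈ S, (p - 1)) :=
          Nat.mul_le_mul_left _ h1
      _ = (b + 2) * (S.card + 1) * ∏ p ∈ S, (p - 1) := (mul_assoc _ _ _).symm
      _ ≤ _ := Nat.mul_le_mul_right _ h4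

theorem le_tot (n : ℕ) : n ≤ n.totient * (n.primeFactors.card + 1) := by
  have h2 : ∀ p ∈ n.primeFactors, 2 ≤ p := fun p hp => (Nat.prime_of_mem_primeFactors hp).two_le
  have h0 : 0 < ∏ p ∈ n.primeFactors, (p - 1) := prod_pos fun p hp => by
    have := h2 p hp
    omega
  refine Nat.le_of_mul_le_mul_right ?_ h0
  rw [← Nat.totient_mul_prod_primeFactors, mul_assoc]
  exact Nat.mul_le_mul_left _ (prod_le _ h2)

theorem sum_log_le {n : ℕ} (hn : 1 ≤ n) : ∑ p ∈ n.primeFactors, Real.log p ≤ Real.log n := by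
  have h0 : ∀ p ∈ n.primeFactors, (p : ℝ) ≠ 0 := fun p hp =>
    Nat.cast_ne_zero.2 (Nat.prime_of_mem_primeFactors hp).ne_zero
  rw [← Real.log_prod h0, ← Nat.cast_prod]
  refine Real.log_le_log (Nat.cast_pos.2 (prod_pos fun p hp =>
    (Nat.prime_of_mem_primeFactors hp).pos)) (Nat.cast_le.2 ?_)
  exact Nat.le_of_dvd hn (Nat.prod_primeFactors_dvd n)

theorem card_le {n : ℕ} (hn : 1 ≤ n) : (n.primeFactors.card : ℝ) ≤ 2 * Real.log n := by
  have h1 : ∑ p ∈ n.primeFactors, (1 / 2 : ℝ) ≤ ∑ p ∈ n.primeFactors, Real.log p := by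
    refine sum_le_sum fun p hp => ?_
    have : (2 : ℝ) ≤ p := Nat.ofNat_le_cast.2 (Nat.prime_of_mem_primeFactors hp).two_le
    have := Real.log_le_log two_pos this
    linarith [Real.log_two_gt_d9]
  rw [sum_const, nsmul_eq_mul] at h1
  linarith [sum_log_le hn]

theorem th_le (n : ℕ) : th n ≤ ArithmeticFunction.vonMangoldt n := by
  unfold th
  split_ifs with h
  · rw [ArithmeticFunction.vonMangoldt_apply_prime h]
  · exact ArithmeticFunction.vonMangoldt_nonneg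

theorem th_nonneg (n : ℕ) : 0 ≤ th n := by
  unfold th
  split_ifs with h
  · exact Real.log_natCast_nonneg n
  · exact le_rfl

end TotA

open TotA

theorem s_Tot : StTot := by
  intro n hn
  have h1 : (n : ℝ) ≤ n.totient * (n.primeFactors.card + 1) := by exact_mod_cast le_tot n
  refine h1.trans (mul_le_mul_of_nonneg_left ?_ (Nat.cast_nonneg _))
  linarith [card_le hn]

theorem s_TL : StTL := by
  intro y e r χ hy he
  have h1 : ‖CS th (Icc 1 y) e χ - PX y χ‖ ≤ ∑ n ∈ Icc 1 y,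
      (ArithmeticFunction.vonMangoldt n - th n + if n ∈ e.primeFactors then Real.log n else 0) := by
    rw [CS, PX, sum_filter, ← sum_sub_distrib]
    refine (norm_sum_le _ _).trans (sum_le_sum fun n _ => ?_)
    have hχ := χ.norm_le_one (n : ZMod r)
    have h2 := th_le n
    have h3 := th_nonneg n
    have h4 : (0 : ℝ) ≤ if n ∈ e.primeFactors then Real.log n else 0 := by
      split_ifs
      · exact Real.log_natCast_nonneg n
      · exact le_rfl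
    by_cases hc : n.Coprime e
    · rw [if_pos hc, mul_comm (χ _), ← sub_mul, norm_mul, ← Complex.ofReal_sub, Complex.norm_real,
        Real.norm_eq_abs, abs_sub_comm, abs_of_nonneg (sub_nonneg.2 h2)]
      nlinarith [norm_nonneg (χ (n : ZMod r))]
    · rw [if_neg hc, zero_sub, norm_neg, norm_mul, Complex.norm_real, Real.norm_eq_abs,
        abs_of_nonneg ArithmeticFunction.vonMangoldt_nonneg]
      have h5 : th n ≤ if n ∈ e.primeFactors then Real.log n else 0 := by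
        by_cases hp : n.Prime
        · rw [if_pos (Nat.mem_primeFactors.2 ⟨hp, by
            by_contra hd
            exact hc ((Nat.Prime.coprime_iff_not_dvd hp).2 hd), by omega⟩), th, if_pos hp]
        · rw [th, if_neg hp]
          exact h4
      nlinarith [norm_nonneg (χ (n : ZMod r))]
  refine h1.trans ?_
  rw [sum_add_distrib, sum_sub_distrib]
  refine add_le_add ?_ ?_
  · have h2 := Chebyshev.abs_psi_sub_theta_le_sqrt_mul_log (x := y) (Nat.one_le_cast.2 hy)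
    refine le_trans (le_of_eq ?_) ((le_abs_self _).trans h2)
    rw [Chebyshev.psi, Chebyshev.theta, Nat.floor_natCast, sum_filter]
    rfl
  · rw [← sum_filter]
    refine le_trans (sum_le_sum_of_subset_of_nonneg (fun p hp => (mem_filter.1 hp).2)
      fun p _ _ => Real.log_natCast_nonneg p) (sum_log_le he)

end Pool.Agent.MP_43e117_nt.PG

end
end

section

open Finset Filter

noncomputable section

namespace Pool.Agent.MP_43e117_nt.PG

namespace V0A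

open ArithmeticFunction
open scoped ArithmeticFunction.zeta ArithmeticFunction.Moebius

variable {r : ℕ} (χ : DirichletCharacter ℂ r)

def tw (f : ArithmeticFunction ℂ) : ArithmeticFunction ℂ :=
  ⟨fun n => f n * χ (n : ZMod r), by simp⟩

theorem tw_apply (f : ArithmeticFunction ℂ) (n : ℕ) : tw χ f n = f n * χ (n : ZMod r) := rfl

theorem tw_mul (f g : ArithmeticFunction ℂ) : tw χ (f * g) = tw χ f * tw χ g := by
  ext n
  rw [tw_apply, mul_apply, mul_apply, sum_mul]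
  refine sum_congr rfl fun p hp => ?_
  rw [tw_apply, tw_apply, ← (Nat.mem_divisorsAntidiagonal.1 hp).1, Nat.cast_mul, map_mul]
  ring

def FF (f : ArithmeticFunction ℂ) (x : ℕ) : ℂ := ∑ n ∈ Icc 1 x, f n * χ (n : ZMod r)

theorem FF_zero (f : ArithmeticFunction ℂ) : FF χ f 0 = 0 := by simp [FF]

theorem FF_mul (f g : ArithmeticFunction ℂ) (x : ℕ) :
    FF χ (f * g) x = ∑ d ∈ Icc 1 x, f d * χ (d : ZMod r) * FF χ g (x / d) := by
  have h := sum_Ioc_mul_eq_sum_sum (tw χ f) (tw χ g) x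
  rw [← tw_mul] at h
  have e : ∀ y : ℕ, Icc 1 y = Ioc 0 y := fun y => by ext; simp only [mem_Icc, mem_Ioc]; omega
  simp only [FF, e]
  exact h

theorem cut (h : ℕ → ℂ) (x V : ℕ) (h0 : ∀ d, x < d → h d = 0) :
    ∑ d ∈ Icc 1 x, (if d ≤ V then h d else 0) = ∑ d ∈ Icc 1 V, h d := by
  rw [← sum_filter]
  refine sum_subset (fun d hd => ?_) fun d hd hn => h0 d ?_
  · simp only [mem_filter, mem_Icc] at hd ⊢
    omega
  · simp only [mem_filter, mem_Icc] at hd hn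
    omega

def sm (f : ArithmeticFunction ℂ) (U : ℕ) : ArithmeticFunction ℂ :=
  ⟨fun n => if n ≤ U then f n else 0, by simp⟩

def bg (f : ArithmeticFunction ℂ) (U : ℕ) : ArithmeticFunction ℂ :=
  ⟨fun n => if U < n then f n else 0, by simp⟩

theorem sm_apply (f : ArithmeticFunction ℂ) (U n : ℕ) : sm f U n = if n ≤ U then f n else 0 := rfl

theorem bg_apply (f : ArithmeticFunction ℂ) (U n : ℕ) : bg f U n = if U < n then f n else 0 := rfl

theorem sm_add (f : ArithmeticFunction ℂ) (U : ℕ) : sm f U + bg f U = f := by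
  ext n
  rw [ArithmeticFunction.add_apply, sm_apply, bg_apply]
  by_cases h : n ≤ U
  · rw [if_pos h, if_neg h.not_gt, add_zero]
  · rw [if_neg h, if_pos (not_le.1 h), zero_add]

theorem FF_sm (f g : ArithmeticFunction ℂ) (V x : ℕ) :
    FF χ (sm f V * g) x = ∑ d ∈ Icc 1 V, f d * χ (d : ZMod r) * FF χ g (x / d) := by
  rw [FF_mul, ← cut (fun d => f d * χ (d : ZMod r) * FF χ g (x / d)) x V]
  · refine sum_congr rfl fun d _ => ?_
    rw [sm_apply]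
    split_ifs <;> simp
  · intro d hd
    rw [Nat.div_eq_of_lt hd, FF_zero, mul_zero]

def LL : ArithmeticFunction ℂ := ⟨fun n => (vonMangoldt n : ℂ), by simp⟩

def lg : ArithmeticFunction ℂ := ⟨fun n => (Real.log n : ℂ), by simp⟩

theorem LL_apply (n : ℕ) : LL n = (vonMangoldt n : ℂ) := rfl

theorem lg_apply (n : ℕ) : lg n = (Real.log n : ℂ) := rfl

theorem LL_zeta : LL * (ζ : ArithmeticFunction ℂ) = lg := by
  ext n
  rw [coe_mul_zeta_apply, lg_apply, ← vonMangoldt_sum, Complex.ofReal_sum]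
  rfl

theorem vau (U V : ℕ) : LL + sm (μ : ArithmeticFunction ℂ) V * (sm LL U * ζ) =
    sm LL U + sm (μ : ArithmeticFunction ℂ) V * lg +
      bg LL U * (bg (μ : ArithmeticFunction ℂ) V * ζ) := by
  have h1 := sm_add LL U
  have h2 := sm_add (μ : ArithmeticFunction ℂ) V
  have h3 : (μ : ArithmeticFunction ℂ) * (ζ : ArithmeticFunction ℂ) = 1 := coe_moebius_mul_coe_zeta
  rw [← LL_zeta]
  linear_combination (-1 + sm (μ : ArithmeticFunction ℂ) V * (ζ : ArithmeticFunction ℂ)) * h1 -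
    (bg LL U * (ζ : ArithmeticFunction ℂ)) * h2 - bg LL U * h3

theorem FF_add (f g : ArithmeticFunction ℂ) (x : ℕ) : FF χ (f + g) x = FF χ f x + FF χ g x := by
  simp only [FF, ArithmeticFunction.add_apply, add_mul, sum_add_distrib]

theorem FF_zeta (x : ℕ) : FF χ (ζ : ArithmeticFunction ℂ) x = ∑ n ∈ Icc 1 x, χ (n : ZMod r) := by
  refine sum_congr rfl fun n hn => ?_
  rw [natCoe_apply, zeta_apply, if_neg (by rw [mem_Icc] at hn; omega), Nat.cast_one, one_mul]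

theorem bz (V n : ℕ) : (bg (μ : ArithmeticFunction ℂ) V * (ζ : ArithmeticFunction ℂ)) n =
    vb V n := by
  rw [coe_mul_zeta_apply, vb, sum_filter]
  rfl

theorem FF_BS (U V x : ℕ) :
    FF χ (bg LL U * (bg (μ : ArithmeticFunction ℂ) V * ζ)) x = BS (va U) (vb V) x χ := by
  rw [FF_mul, BS]
  refine sum_congr rfl fun m hm => ?_
  rw [mem_Icc] at hm
  have e : (Icc 1 x).filter (fun n => m * n ≤ x) = Icc 1 (x / m) := by
    ext n
    rw [mem_filter, mem_Icc, mem_Icc, Nat.le_div_iff_mul_le (by omega), mul_comm n m]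
    exact ⟨fun h => ⟨h.1.1, h.2⟩, fun h =>
      ⟨⟨h.1, le_trans (Nat.le_mul_of_pos_left n (by omega)) h.2⟩, h.2⟩⟩
  rw [e, FF, mul_sum]
  refine sum_congr rfl fun n _ => ?_
  rw [bz, Nat.cast_mul, map_mul, show bg LL U m = va U m from rfl]
  ring

end V0A

open V0A in
theorem s_V0 : StV0 := by
  intro U V x r χ
  have h := congrArg (fun f => FF χ f x) (vau U V)
  simp only [FF_add, FF_sm, FF_BS, FF_zeta] at h
  have e1 : PX x χ = FF χ LL x := sum_congr rfl fun n _ => mul_comm _ _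
  have e2 : ∑ n ∈ (Icc 1 x).filter (fun n => n ≤ U),
      χ (n : ZMod r) * (ArithmeticFunction.vonMangoldt n : ℂ) = FF χ (sm LL U) x := by
    rw [sum_filter]
    refine sum_congr rfl fun n _ => ?_
    rw [sm_apply, LL_apply]
    split_ifs
    · exact mul_comm _ _
    · exact (zero_mul _).symm
  have e3 : ∑ d ∈ Icc 1 V, ∑ e ∈ Icc 1 U,
      (ArithmeticFunction.moebius d : ℂ) * (ArithmeticFunction.vonMangoldt e : ℂ) *
        χ (d : ZMod r) * χ (e : ZMod r) * ∑ n ∈ Icc 1 (x / (d * e)), χ (n : ZMod r) =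
      ∑ d ∈ Icc 1 V, (ArithmeticFunction.moebius : ArithmeticFunction ℂ) d * χ (d : ZMod r) *
        ∑ e ∈ Icc 1 U, LL e * χ (e : ZMod r) * ∑ n ∈ Icc 1 (x / d / e), χ (n : ZMod r) := by
    refine sum_congr rfl fun d _ => ?_
    rw [mul_sum]
    refine sum_congr rfl fun e _ => ?_
    rw [Nat.div_div_eq_div_mul, LL_apply, ArithmeticFunction.intCoe_apply]
    ring
  have e4 : ∑ d ∈ Icc 1 V, (ArithmeticFunction.moebius d : ℂ) * χ (d : ZMod r) *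
      ∑ n ∈ Icc 1 (x / d), (Real.log n : ℂ) * χ (n : ZMod r) =
      ∑ d ∈ Icc 1 V, (ArithmeticFunction.moebius : ArithmeticFunction ℂ) d * χ (d : ZMod r) *
        FF χ lg (x / d) := rfl
  rw [e1, e2, e3, e4]
  linear_combination h

end Pool.Agent.MP_43e117_nt.PG

end
end
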