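import Pool.Agent.MP_fdd1d3_nt.Tuples

set_option linter.all false

section

/-!
The independent model of the multidimensional sieve: definitions and statements.
A state gives for every site (prime) the label of the form that it divides, if any.
-/

open Finset

noncomputable section

namespace Pool.Agent.MP_43e117_nt.PG

open MP_fdd1d3_nt (LL SS)

section

variable {ι J : Type} [Fintype ι] [DecidableEq ι] [Fintype J] [DecidableEq J]

/-- site functions -/
def fr (r : ℝ) : Option J → Option J → ℝ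
  | none, _ => 1
  | some i, o => r - if o = some i then 1 else 0

/-- the sieve sum with coefficients `C` -/
def Psi (r : ι → ℝ) (C : (ι → Option J) → ℝ) (o : ι → Option J) : ℝ :=
  ∑ σ, C σ * ∏ p, fr (r p) (σ p) (o p)

def hh (r : ι → ℝ) (σ : ι → Option J) : ℝ := ∏ p, (σ p).elim 1 fun _ => r p

def hs (r : ι → ℝ) (s : Finset ι) : ℝ := ∏ p ∈ s, r p

/-- the diagonal form -/
def QQ (r : ι → ℝ) (C : (ι → Option J) → ℝ) : ℝ := ∑ σ, hh r σ * C σ ^ 2

/-- expectation for a product weight -/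
def Ex (ω : ι → Option J → ℝ) (F : (ι → Option J) → ℝ) : ℝ :=
  ∑ o : ι → Option J, (∏ p, ω p (o p)) * F o

def jn (ρ σ : ι → Option J) : ι → Option J := fun p => (ρ p).or (σ p)

def Av (r : ι → ℝ) (C : (ι → Option J) → ℝ) (Q : ℝ) : Prop := ∀ ρ : ι → Option J,
  ∑ σ ∈ univ.filter (fun σ : ι → Option J => ∀ p, ρ p = none ∨ σ p = none),
    hh r σ * C (jn ρ σ) ^ 2 ≤ Q

def Mono (C : (ι → Option J) → ℝ) : Prop :=
  (∀ σ, 0 ≤ C σ) ∧ ∀ σ p, C σ ≤ C (Function.update σ p none)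

def Sup (Lb : ι → J → Prop) (C : (ι → Option J) → ℝ) : Prop :=
  ∀ σ, C σ ≠ 0 → ∀ p l, σ p = some l → Lb p l

/-- weights close to the matched ones, with dead sites `S` -/
def Cl (r : ι → ℝ) (Lb : ι → J → Prop) (S : Finset ι) (c : ℝ) (μ : ι → Option J → ℝ) : Prop :=
  ∀ p, (∀ o, 0 ≤ μ p o) ∧ |∑ o, μ p o - 1| ≤ c * r p ^ 2 ∧ ∀ l, Lb p l →
    (p ∈ S → μ p (some l) = 0) ∧ (p ∉ S → |μ p (some l) - r p| ≤ c * r p ^ 2)

def eta (r : ι → ℝ) : ℝ := ∑ p, r p ^ 2

/-- `r` is nonnegative and at most `1 / x` -/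
def Sm (r : ι → ℝ) (x : ℝ) : Prop := ∀ p, 0 ≤ r p ∧ x * r p ≤ 1

open Classical in
/-- summing out the labels in `Z` -/
def rd (r : ι → ℝ) (Z : ι → J → Prop) (C : (ι → Option J) → ℝ) (τ : ι → Option J) : ℝ :=
  if ∀ p l, τ p = some l → ¬ Z p l then
    ∑ ρ ∈ univ.filter (fun ρ : ι → Option J =>
      ∀ p, ρ p = none ∨ (τ p = none ∧ ∃ l, ρ p = some l ∧ Z p l)), hh r ρ * C (jn ρ τ)
  else 0

def red (r : ι → ℝ) (i : J) (C : (ι → Option J) → ℝ) : (ι → Option J) → ℝ :=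
  rd r (fun _ l => l = i) C

/-- the normalised site weight with given label weights -/
def mk (a : J → ℝ) : Option J → ℝ
  | none => 1 - ∑ l, a l
  | some l => a l

/-- the weight when the form `j` takes a value whose prime factors are the sites `S` -/
def om (r : ι → ℝ) (j : J) (S : Finset ι) (p : ι) : Option J → ℝ :=
  mk fun l => if l = j ∨ p ∈ S then 0 else r p

def pr (j : J) (o : ι → Option J) : ι → Option Unit :=
  fun p => if o p = some j then some () else none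

def bm (r : ι → ℝ) (p : ι) : Option Unit → ℝ := mk fun _ => r p

def bp (r : ι → ℝ) (k : ℝ) (S : Finset ι) (p : ι) : Option Unit → ℝ
  | none => if p ∈ S then 1 else 1 - r p
  | some _ => if p ∈ S then 0 else r p * (1 + k * r p)

def bw (ω : ι → Option J → ℝ) (j : J) (p : ι) : Option Unit → ℝ := mk fun _ => ω p (some j)

def cd (ω : ι → Option J → ℝ) (j : J) (u : ι → Option Unit) (p : ι) (o : Option J) : ℝ :=
  if u p = none then (if o = some j then 0 else ω p o / (1 - ω p (some j)))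
  else (if o = some j then 1 else 0)

def ind (p : ι) (u : ι → Option Unit) : ℝ := if u p = some () then 1 else 0

def dl (o : Option Unit) : ℝ := if o = some () then 1 else 0

def tt (w : ι → ℝ) (u : ι → Option Unit) : ℝ := ∑ p, w p * ind p u

def GG (r : ι → ℝ) (q : ι → ℕ) (t : ℝ) : ℝ := ∑ s : Finset ι, if LL q s ≤ t then hs r s else 0

def sel (r : ι → ℝ) (q : ι → ℕ) (t : ℝ) (σ : ι → Option Unit) : ℝ :=
  if LL q (SS σ ()) ≤ t then (GG r q t)⁻¹ else 0

/-- the optimal one-dimensional sieve sum of logarithmic level `t` -/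
def Sel (r : ι → ℝ) (q : ι → ℕ) (t : ℝ) : (ι → Option Unit) → ℝ := Psi r (sel r q t)

def MM (τ o : ι → Option J) : ℝ := ∏ p, if τ p = none ∨ o p = τ p then 1 else 0

def dn (q : ι → ℕ) (τ : ι → Option J) : ℕ := ∏ p, (τ p).elim 1 fun _ => q p

def ct (τ : ι → Option J) : ℕ := (univ.filter fun p => τ p ≠ none).card

/-- `F` is a combination of divisibility conditions of level `D` -/
def Exp (q : ι → ℕ) (Lb : J → Prop) (F : (ι → Option J) → ℝ) (D B a : ℝ) : Prop :=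
  ∃ c : (ι → Option J) → ℝ, (∀ o, F o = ∑ τ, c τ * MM τ o) ∧
    ∀ τ, |c τ| ≤ B * a ^ ct τ ∧ (c τ ≠ 0 → (dn q τ : ℝ) ≤ D ∧ ∀ p l, τ p = some l → Lb l)

def yy (q : ι → ℕ) (g : Finset ι → ℝ) (D : ℝ) (σ : ι → Option J) : ℝ :=
  if ∑ j, LL q (SS σ j) ≤ D then ∏ j, g (SS σ j) else 0

def Gd (g : Finset ι → ℝ) : Prop := (∀ s, 0 ≤ g s ∧ g s ≤ 1) ∧ ∀ s p, g s ≤ g (s.erase p)

def m1 (r : ι → ℝ) (g : Finset ι → ℝ) : ℝ := ∑ s, hs r s * g s

def ga (r : ι → ℝ) (g : Finset ι → ℝ) : ℝ := ∑ s, hs r s * g s ^ 2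

def ze (r : ι → ℝ) (q : ι → ℕ) (g : Finset ι → ℝ) : ℝ := ∑ s, hs r s * g s ^ 2 * LL q s

omit [DecidableEq ι] in
theorem hh_eq (r : ι → ℝ) (σ : ι → Option J) : hh r σ = ∏ j, hs r (SS σ j) :=
  MP_fdd1d3_nt.prod_label σ r

omit [DecidableEq ι] in
theorem hh_unit (r : ι → ℝ) (σ : ι → Option Unit) : hh r σ = hs r (SS σ ()) := by
  rw [hh_eq, Fintype.prod_unique]

omit [DecidableEq ι] [Fintype J] [DecidableEq J] in
theorem hh_nonneg {r : ι → ℝ} (hr : ∀ p, 0 ≤ r p) (σ : ι → Option J) : 0 ≤ hh r σ :=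
  prod_nonneg fun p _ => by cases σ p <;> simp [hr p]

theorem sum_unit (F : Finset ι → ℝ) : ∑ σ : ι → Option Unit, F (SS σ ()) = ∑ s, F s := by
  refine sum_nbij' (fun σ => SS σ ()) (fun s p => if p ∈ s then some () else none) (by simp)
    (by simp) (fun σ _ => ?_) (fun s _ => ?_) fun _ _ => rfl
  · funext p
    simp only [MP_fdd1d3_nt.mem_SS]
    cases σ p <;> simp
  · ext p
    simp [MP_fdd1d3_nt.mem_SS]

end

def StSI : Prop := ∀ (J : Type) [Fintype J] [DecidableEq J] (k c r : ℝ) (μ v : Option J → ℝ)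
  (Lb : J → Prop), (Fintype.card J : ℝ) ≤ k → 1 ≤ k → 1 ≤ c → 0 ≤ r → r ≤ 1 →
  |∑ o, μ o - 1| ≤ c * r ^ 2 → (∀ l, Lb l → |μ (some l) - r| ≤ c * r ^ 2) →
  (∀ l, ¬ Lb l → v (some l) = 0) →
  |∑ o, μ o * (∑ a, v a * fr r a o) ^ 2 - (v none ^ 2 + r * ∑ l, v (some l) ^ 2)| ≤
    7 * c * k * r ^ 2 * (v none ^ 2 + ∑ l, v (some l) ^ 2)

def StSD : Prop := ∀ (J : Type) [Fintype J] [DecidableEq J] (k m r : ℝ) (μ v : Option J → ℝ)
  (Lb : J → Prop), (Fintype.card J : ℝ) ≤ k → 0 ≤ r → (∀ o, 0 ≤ μ o) → ∑ o, μ o ≤ m →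
  (∀ l, Lb l → μ (some l) = 0) → (∀ l, ¬ Lb l → v (some l) = 0) →
  ∑ o, μ o * (∑ a, v a * fr r a o) ^ 2 ≤
    m * (1 + k * r) * (v none ^ 2 + r * ∑ l, v (some l) ^ 2)

def StTS : Prop := ∀ (ι J : Type) [Fintype ι] [DecidableEq ι] [Fintype J] [DecidableEq J]
  (s : ℝ) (r : ι → ℝ) (μ d : ι → Option J → ℝ) (Lb : ι → J → Prop) (C : (ι → Option J) → ℝ),
  (∀ p o, 0 ≤ μ p o) → (∀ p a, 0 ≤ d p a) → Sup Lb C →
  (∀ p (v : Option J → ℝ), (∀ l, ¬ Lb p l → v (some l) = 0) →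
    s * ∑ o, μ p o * (∑ a, v a * fr (r p) a o) ^ 2 ≤ s * ∑ a, d p a * v a ^ 2) →
  s * Ex μ (fun o => Psi r C o ^ 2) ≤ s * ∑ σ, (∏ p, d p (σ p)) * C σ ^ 2

def StAV : Prop := ∀ (ι J : Type) [Fintype ι] [DecidableEq ι] [Fintype J] [DecidableEq J]
  (r : ι → ℝ) (k x Q : ℝ) (C : (ι → Option J) → ℝ), (Fintype.card J : ℝ) ≤ k → 0 ≤ x →
  (∀ p, 0 ≤ r p) → Av r C Q →
  ∑ σ, hh r σ * C σ ^ 2 * ∏ p, ((σ p).elim 1 fun _ => 1 + x * r p) ≤
    Real.exp (x * k * eta r) * Q

def StPt : Prop := ∀ (ι J : Type) [Fintype ι] [DecidableEq ι] [Fintype J] [DecidableEq J]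
  (r : ι → ℝ) (k Q : ℝ) (C : (ι → Option J) → ℝ), (Fintype.card J : ℝ) ≤ k →
  (∀ p, 0 ≤ r p) → Av r C Q → QQ r C ≤ Q ∧ ∀ p,
    ∑ σ ∈ univ.filter (fun σ : ι → Option J => σ p ≠ none), hh r σ * C σ ^ 2 ≤ k * r p * Q

def StMA : Prop := ∀ (ι J : Type) [Fintype ι] [DecidableEq ι] [Fintype J] [DecidableEq J]
  (r : ι → ℝ) (C : (ι → Option J) → ℝ), (∀ p, 0 ≤ r p) → Mono C → Av r C (QQ r C)

def StGU : Prop := ∀ (ι J : Type) [Fintype ι] [DecidableEq ι] [Fintype J] [DecidableEq J]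
  (r : ι → ℝ) (k c Q : ℝ) (Lb : ι → J → Prop) (S : Finset ι) (μ : ι → Option J → ℝ)
  (C : (ι → Option J) → ℝ), (Fintype.card J : ℝ) ≤ k → 1 ≤ k → 1 ≤ c → Sm r 1 →
  Cl r Lb S c μ → Sup Lb C → Av r C Q →
  Ex μ (fun o => Psi r C o ^ 2) ≤
    Real.exp (14 * c * k ^ 2 * eta r) * (∏ p ∈ S, (1 + k * r p)) * Q

def StRD : Prop := ∀ (ι J : Type) [Fintype ι] [DecidableEq ι] [Fintype J] [DecidableEq J]
  (r : ι → ℝ) (Z : ι → J → Prop) (C : (ι → Option J) → ℝ) (o : ι → Option J),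
  (∀ p l, o p = some l → ¬ Z p l) → Psi r C o = Psi r (rd r Z C) o

def StRM : Prop := ∀ (ι J : Type) [Fintype ι] [DecidableEq ι] [Fintype J] [DecidableEq J]
  (r : ι → ℝ) (Z : ι → J → Prop) (C : (ι → Option J) → ℝ), (∀ p, 0 ≤ r p) →
  (Mono C → Mono (rd r Z C)) ∧
  (∀ Lb, Sup Lb C → Sup (fun p l => Lb p l ∧ ¬ Z p l) (rd r Z C)) ∧
  ((∀ σ, 0 ≤ C σ) → ∀ τ, (∀ p l, τ p = some l → ¬ Z p l) → C τ ≤ rd r Z C τ) ∧
  (∀ M k : ℝ, (Fintype.card J : ℝ) ≤ k → (∀ σ, |C σ| ≤ M) →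
    ∀ τ, |rd r Z C τ| ≤ M * ∏ p, (1 + k * r p)) ∧
  (∀ (q : ι → ℕ) (D : ℝ), (∀ p, 1 ≤ q p) → (∀ σ, C σ ≠ 0 → (dn q σ : ℝ) ≤ D) →
    ∀ τ, rd r Z C τ ≠ 0 → (dn q τ : ℝ) ≤ D)

def StGL : Prop := ∀ (ι J : Type) [Fintype ι] [DecidableEq ι] [Fintype J] [DecidableEq J]
  (r : ι → ℝ) (k c Q : ℝ) (Lb : ι → J → Prop) (S : Finset ι) (μ : ι → Option J → ℝ)
  (C : (ι → Option J) → ℝ), (Fintype.card J : ℝ) ≤ k → 1 ≤ k → 1 ≤ c → Sm r (7 * c * k) →
  Cl r Lb S c μ → Sup Lb C → Av r C Q → (∀ σ, 0 ≤ C σ) →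
  QQ r C - (14 * c * k ^ 2 * eta r + k * ∑ p ∈ S, r p) * Q ≤ Ex μ (fun o => Psi r C o ^ 2)

def StLY : Prop := ∀ (ι J : Type) [Fintype ι] [DecidableEq ι] [Fintype J] [DecidableEq J]
  (ω : ι → Option J → ℝ) (j : J) (F : (ι → Option Unit) → ℝ) (Φ : (ι → Option J) → ℝ),
  (∀ p, ω p (some j) ≠ 1) →
  Ex ω (fun o => F (pr j o) * Φ o) = Ex (bw ω j) fun u => F u * Ex (cd ω j u) Φ

def StCD : Prop := ∀ (ι : Type) [Fintype ι] [DecidableEq ι] (μ : ι → Option Unit → ℝ) (p : ι)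
  (F : (ι → Option Unit) → ℝ),
  Ex μ (fun u => ind p u * F u) = μ p (some ()) * Ex (Function.update μ p dl) F

def StLU : Prop := ∀ (ι J : Type) [Fintype ι] [DecidableEq ι] [Fintype J] [DecidableEq J]
  (r : ι → ℝ) (k Q : ℝ) (i j : J) (S : Finset ι) (F : (ι → Option Unit) → ℝ)
  (C : (ι → Option J) → ℝ), (Fintype.card J : ℝ) ≤ k → 1 ≤ k → Sm r (2 * k) → i ≠ j →
  (∀ u, 0 ≤ F u) → Sup (fun _ l => l ≠ i ∧ l ≠ j) C → Av r C Q →
  Ex (om r i S) (fun o => F (pr j o) * Psi r C o ^ 2) ≤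
    Real.exp (28 * k ^ 2 * eta r) * (∏ p ∈ S, (1 + k * r p)) * Q * Ex (bp r k S) F

def StLL : Prop := ∀ (ι J : Type) [Fintype ι] [DecidableEq ι] [Fintype J] [DecidableEq J]
  (r : ι → ℝ) (k : ℝ) (i j : J) (F : (ι → Option Unit) → ℝ)
  (C : (ι → Option J) → ℝ), (Fintype.card J : ℝ) ≤ k → 1 ≤ k → Sm r (14 * k) → i ≠ j →
  (∀ u, 0 ≤ F u) → Sup (fun _ l => l ≠ i ∧ l ≠ j) C → Mono C →
  QQ r C * ((1 - 28 * k ^ 2 * eta r) * Ex (bm r) F -
      k * ∑ p, r p * Ex (bm r) fun u => ind p u * F u) ≤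
    Ex (om r i ∅) fun o => F (pr j o) * Psi r C o ^ 2

def StSB : Prop := ∀ (ι : Type) [Fintype ι] [DecidableEq ι] (r : ι → ℝ) (q : ι → ℕ) (t : ℝ),
  (∀ p, 0 ≤ r p) → 0 ≤ t → 1 ≤ GG r q t ∧ Mono (sel r q t) ∧
    QQ r (sel r q t) = (GG r q t)⁻¹ ∧ (∀ σ, |sel r q t σ| ≤ 1) ∧
    ((∀ p, 1 ≤ q p) → ∀ σ, sel r q t σ ≠ 0 → (dn q σ : ℝ) ≤ Real.exp t) ∧
    Sup (fun p _ => Real.log (q p) ≤ t) (sel r q t) ∧ Sel r q t (fun _ => none) = 1 ∧
    ∀ u u', (∀ p, Real.log (q p) ≤ t → u p = u' p) → Sel r q t u = Sel r q t u'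

def StP0 : Prop := ∀ (ι : Type) [Fintype ι] [DecidableEq ι] (r : ι → ℝ) (q : ι → ℕ) (t : ℝ)
  (u : ι → Option Unit), Sel r q t u = (∑ v ∈ (SS u ()).powerset, (∏ p ∈ v, (r p - 1)) *
    ∑ s : Finset ι, if Disjoint s (SS u ()) ∧ LL q s + LL q v ≤ t then hs r s else 0) / GG r q t

def StP2 : Prop := ∀ (ι : Type) [Fintype ι] [DecidableEq ι] (r : ι → ℝ) (q : ι → ℕ) (t : ℝ)
  (u : ι → Option Unit), Sm r 1 → 0 ≤ t → |Sel r q t u| ≤ 2 ^ (SS u ()).card

def StP1 : Prop := ∀ (ι : Type) [Fintype ι] [DecidableEq ι] (r : ι → ℝ) (q : ι → ℕ)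
  (t V ε : ℝ) (u : ι → Option Unit), Sm r 1 → 0 < t → 0 < V → ε ≤ 1 / 2 →
  (∀ x ≤ t, |GG r q x - V * max x 0| ≤ ε * V * t) → ∑ p ∈ SS u (), r p ≤ ε →
  |Sel r q t u - ∑ v ∈ (SS u ()).powerset, (-1) ^ v.card * max 0 (1 - LL q v / t)| ≤
    2 ^ (SS u ()).card * (6 * ε)

def StTM : Prop := ∀ (ι : Type) [Fintype ι] [DecidableEq ι] (r w : ι → ℝ) (q : ι → ℕ) (t c : ℝ)
  (μ : ι → Option Unit → ℝ), 1 ≤ c → Sm r (7 * c) → 0 ≤ t → Cl r (fun _ _ => True) ∅ c μ →
  (∀ p, 0 ≤ w p) → (∀ p, w p ≠ 0 → t < Real.log (q p)) →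
  (∑ p, w p * μ p (some ())) * (1 - 14 * c * eta r) / GG r q t ≤
      Ex μ (fun u => tt w u * Sel r q t u ^ 2) ∧
    Ex μ (fun u => tt w u * Sel r q t u ^ 2) ≤
      (∑ p, w p * μ p (some ())) * Real.exp (14 * c * eta r) / GG r q t

def StGC : Prop := ∀ (ι : Type) [Fintype ι] [DecidableEq ι] (r : ι → ℝ) (q : ι → ℕ)
  (t c I : ℝ) (μ : ι → Option Unit → ℝ) (l : ι), 1 ≤ c → Sm r 1 → 0 ≤ t → μ l = dl →
  Cl r (fun p _ => p ≠ l ∧ Real.log (q p) ≤ t) ∅ c μ →
  (∀ x ≤ t, GG r q x - GG r q (x - Real.log (q l)) ≤ I) →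
  Ex μ (fun u => Sel r q t u ^ 2) ≤
    Real.exp (14 * c * eta r) * ((I + r l ^ 2 * GG r q t) / GG r q t ^ 2)

def StTP : Prop := ∀ (ι : Type) [Fintype ι] [DecidableEq ι] (r w : ι → ℝ) (q : ι → ℕ)
  (t c I : ℝ) (μ : ι → Option Unit → ℝ) (l : ι), 1 ≤ c → Sm r 1 → 0 ≤ t →
  Cl r (fun _ _ => True) ∅ c μ → (∀ p, 0 ≤ w p) → (∀ p, w p ≠ 0 → t < Real.log (q p)) →
  (∀ x ≤ t, GG r q x - GG r q (x - Real.log (q l)) ≤ I) →
  Ex μ (fun u => ind l u * (tt w u * Sel r q t u ^ 2)) ≤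
    μ l (some ()) * (w l + ∑ p, w p * μ p (some ())) * Real.exp (14 * c * eta r) *
      ((I + r l ^ 2 * GG r q t) / GG r q t ^ 2)

def StMU : Prop := ∀ (ι J : Type) [Fintype ι] [DecidableEq ι] [Fintype J] [DecidableEq J]
  (r : ι → ℝ) (q : ι → ℕ) (k t : ℝ) (i j : J) (S : Finset ι) (C : (ι → Option J) → ℝ),
  (Fintype.card J : ℝ) ≤ k → 1 ≤ k → Sm r (14 * k) → i ≠ j → 0 ≤ t →
  Sup (fun _ l => l ≠ i ∧ l ≠ j) C → Mono C →
  Ex (om r i S) (fun o => Sel r q t (pr j o) ^ 2 * Psi r C o ^ 2) ≤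
    Real.exp (42 * k ^ 2 * eta r + (k + 1) * ∑ p ∈ S, r p) * QQ r C / GG r q t

def StML : Prop := ∀ (ι J : Type) [Fintype ι] [DecidableEq ι] [Fintype J] [DecidableEq J]
  (r w : ι → ℝ) (q : ι → ℕ) (k t : ℝ) (i j : J) (C : (ι → Option J) → ℝ),
  (Fintype.card J : ℝ) ≤ k → 1 ≤ k → Sm r (14 * k) → i ≠ j → 0 ≤ t →
  Sup (fun _ l => l ≠ i ∧ l ≠ j) C → Mono C → 14 * eta r ≤ 1 →
  (∀ p, 0 ≤ w p ∧ w p ≤ 1) → (∀ p, w p ≠ 0 → t < Real.log (q p)) →
  QQ r C * ((∑ p, w p * r p) - 110 * k ^ 2 * eta r * (1 + ∑ p, w p * r p)) / GG r q t ≤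
    Ex (om r i ∅) fun o => tt w (pr j o) * Sel r q t (pr j o) ^ 2 * Psi r C o ^ 2

def StMG : Prop := ∀ (ι J : Type) [Fintype ι] [DecidableEq ι] [Fintype J] [DecidableEq J]
  (r w I : ι → ℝ) (q : ι → ℕ) (k t : ℝ) (i j : J) (Z : Finset ι) (C : (ι → Option J) → ℝ),
  (Fintype.card J : ℝ) ≤ k → 1 ≤ k → Sm r (14 * k) → i ≠ j → 0 ≤ t →
  Sup (fun _ l => l ≠ i ∧ l ≠ j) C → Mono C → 168 * k ^ 2 * eta r ≤ 1 →
  (∀ p, 0 ≤ w p) → (∀ p, w p ≠ 0 → t < Real.log (q p)) → (∀ l ∈ Z, w l = 0) →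
  (∀ l ∈ Z, ∀ x ≤ t, GG r q x - GG r q (x - Real.log (q l)) ≤ I l) →
  Ex (om r i ∅) (fun o => (∑ l ∈ Z, ind l (pr j o)) *
      (tt w (pr j o) * Sel r q t (pr j o) ^ 2) * Psi r C o ^ 2) ≤
    3 / 2 * QQ r C * (∑ p, w p * r p) *
      (∑ l ∈ Z, r l * (I l + r l ^ 2 * GG r q t)) / GG r q t ^ 2

def StE0 : Prop := ∀ (ι J : Type) [Fintype ι] [DecidableEq ι] [Fintype J] [DecidableEq J]
  (q : ι → ℕ) (Lb Lb' : J → Prop) (F : (ι → Option J) → ℝ) (D B a D' B' a' : ℝ),
  Exp q Lb F D B a → D ≤ D' → B ≤ B' → 0 ≤ a → a ≤ a' → (∀ l, Lb l → Lb' l) →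
  Exp q Lb' F D' B' a'

def StE1 : Prop := ∀ (ι J : Type) [Fintype ι] [DecidableEq ι] [Fintype J] [DecidableEq J]
  (r : ι → ℝ) (q : ι → ℕ) (Lb : J → Prop) (C : (ι → Option J) → ℝ) (k D M : ℝ),
  (Fintype.card J : ℝ) ≤ k → (∀ p, 0 ≤ r p) → (∀ p, 1 ≤ q p) → (∀ σ, |C σ| ≤ M) →
  (∀ σ, C σ ≠ 0 → (dn q σ : ℝ) ≤ D) → Sup (fun _ l => Lb l) C →
  Exp q Lb (Psi r C) D (M * ∏ p, (1 + k * r p)) 1

def StE2 : Prop := ∀ (ι J : Type) [Fintype ι] [DecidableEq ι] [Fintype J] [DecidableEq J]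
  (q : ι → ℕ) (Lb : J → Prop) (F F' : (ι → Option J) → ℝ) (D B a D' B' a' : ℝ),
  (∀ p, 1 ≤ q p) → 0 ≤ a → 0 ≤ a' → Exp q Lb F D B a → Exp q Lb F' D' B' a' →
  Exp q Lb (fun o => F o * F' o) (D * D') (B * B') (a + a' + a * a')

def StE3 : Prop := ∀ (ι : Type) [Fintype ι] [DecidableEq ι] (w : ι → ℝ) (q : ι → ℕ) (D : ℝ),
  (∀ p, |w p| ≤ 1) → (∀ p, w p ≠ 0 → (q p : ℝ) ≤ D) → Exp q (fun _ => True) (tt w) D 1 1

def StE4 : Prop := ∀ (ι J : Type) [Fintype ι] [DecidableEq ι] [Fintype J] [DecidableEq J]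
  (q : ι → ℕ) (Lb : J → Prop) (j : J) (F : (ι → Option Unit) → ℝ) (D B a : ℝ), Lb j →
  Exp q (fun _ => True) F D B a → Exp q Lb (fun o => F (pr j o)) D B a

def StEM : Prop := ∀ (ι J : Type) [Fintype ι] [DecidableEq ι] [Fintype J] [DecidableEq J]
  (a : ι → J → ℝ) (c : (ι → Option J) → ℝ),
  Ex (fun p => mk (a p)) (fun o => ∑ τ, c τ * MM τ o) = ∑ τ, c τ * ∏ p, (τ p).elim 1 (a p)

def StY1 : Prop := ∀ (ι J : Type) [Fintype ι] [DecidableEq ι] [Fintype J] [DecidableEq J]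
  (r : ι → ℝ) (q : ι → ℕ) (g : Finset ι → ℝ) (D : ℝ), (∀ p, 0 ≤ r p) → (∀ p, 1 ≤ q p) → Gd g →
  Mono (yy (J := J) q g D) ∧
    (∀ σ : ι → Option J, yy q g D σ ≤ 1 ∧ (yy q g D σ ≠ 0 → (dn q σ : ℝ) ≤ Real.exp D)) ∧
    QQ r (yy (J := J) q g D) ≤ ga r g ^ Fintype.card J

def StY3 : Prop := ∀ (ι J : Type) [Fintype ι] [DecidableEq ι] [Fintype J] [DecidableEq J]
  (r : ι → ℝ) (q : ι → ℕ) (g : Finset ι → ℝ) (D : ℝ) (i j : J), (∀ p, 0 ≤ r p) → Gd g → i ≠ j →
  QQ r (red r j (red r i (yy q g D))) ≤ m1 r g ^ 4 * ga r g ^ (Fintype.card J - 2)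

def StY2 : Prop := ∀ (ι J : Type) [Fintype ι] [DecidableEq ι] [Fintype J] [DecidableEq J]
  (r : ι → ℝ) (q : ι → ℕ) (g : Finset ι → ℝ) (k D T : ℝ) (i : J), (∀ p, 0 ≤ r p) → Gd g →
  (Fintype.card J : ℝ) ≤ k → 2 ≤ Fintype.card J → (∀ s, g s ≠ 0 → LL q s ≤ T) → T < D →
  m1 r g ^ 2 * (ga r g ^ (Fintype.card J - 1) * (1 - 3 * k ^ 2 * eta r) -
      k * ze r q g * ga r g ^ (Fintype.card J - 2) / (D - T)) ≤ QQ r (red r i (yy q g D))

def StMY : Prop := ∀ (ι : Type) [Fintype ι] [DecidableEq ι] (r : ι → ℝ) (q : ι → ℕ)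
  (V lam : ℝ) (n : ℕ), (∀ p, 0 ≤ r p) → 0 < V → 0 < lam →
  (∀ j ≤ n, V * (2 ^ j * lam) / 2 ≤ GG r q (2 ^ j * lam) ∧
    GG r q (2 ^ j * lam) ≤ 2 * V * (2 ^ j * lam)) →
  ∃ g : Finset ι → ℝ, Gd g ∧ (∀ s, g s ≠ 0 → LL q s ≤ 2 ^ n * lam) ∧
    (n + 1) * V * lam / 4 ≤ m1 r g ∧ V * lam / 8 ≤ ga r g ∧ ga r g ≤ 4 * V * lam ∧
    ze r q g ≤ 2 * (n + 1) * V * lam ^ 2

end Pool.Agent.MP_43e117_nt.PG

end
end

section

open Finset

noncomputable section

namespace Pool.Agent.MP_43e117_nt.PG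

namespace AVA

variable {ι J : Type} [Fintype ι] [DecidableEq ι] [Fintype J] [DecidableEq J]

omit [DecidableEq ι] [Fintype J] [DecidableEq J] in
theorem hh_jn (r : ι → ℝ) {ρ σ : ι → Option J} (h : ∀ p, ρ p = none ∨ σ p = none) :
    hh r (jn ρ σ) = hh r ρ * hh r σ := by
  rw [hh, hh, hh, ← prod_mul_distrib]
  refine prod_congr rfl fun p _ => ?_
  rcases h p with e | e <;> simp [jn, e]

theorem ext_le {r : ι → ℝ} (hr : ∀ p, 0 ≤ r p) {C : (ι → Option J) → ℝ} {Q : ℝ} (hA : Av r C Q)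
    (ρ : ι → Option J) :
    ∑ σ : ι → Option J, (if ∀ p, ρ p = none ∨ σ p = ρ p then hh r σ * C σ ^ 2 else 0)
      ≤ hh r ρ * Q := by
  refine le_trans (le_of_eq ?_) (mul_le_mul_of_nonneg_left (hA ρ) (hh_nonneg hr ρ))
  rw [← sum_filter, mul_sum]
  symm
  refine sum_nbij' (jn ρ) (fun σ p => if ρ p = none then σ p else none) (fun σ _ => ?_)
    (fun σ _ => ?_) (fun σ hσ => ?_) (fun σ hσ => ?_) fun σ hσ => ?_
  · refine mem_filter.2 ⟨mem_univ _, fun p => ?_⟩
    cases h : ρ p <;> simp [jn, h]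
  · refine mem_filter.2 ⟨mem_univ _, fun p => ?_⟩
    by_cases h : ρ p = none <;> simp [h]
  · funext p
    rcases (mem_filter.1 hσ).2 p with e | e
    · simp [jn, e]
    · by_cases h : ρ p = none <;> simp [jn, e, h]
  · funext p
    rcases (mem_filter.1 hσ).2 p with e | e
    · simp [jn, e]
    · cases h : ρ p <;> simp [jn, e, h]
  · rw [hh_jn r (mem_filter.1 hσ).2, mul_assoc]

omit [DecidableEq J] in
theorem Q_nonneg {r : ι → ℝ} (hr : ∀ p, 0 ≤ r p) {C : (ι → Option J) → ℝ} {Q : ℝ}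
    (hA : Av r C Q) : 0 ≤ Q :=
  (sum_nonneg fun σ _ => mul_nonneg (hh_nonneg hr σ) (sq_nonneg _)).trans (hA fun _ => none)

theorem site (y : ℝ) (a : Option J) :
    (a.elim 1 fun _ => 1 + y) =
      ∑ b : Option J, if b = none ∨ a = b then (b.elim 1 fun _ => y) else 0 := by
  rw [Fintype.sum_option]
  cases a <;> simp

omit [Fintype ι] [Fintype J] [DecidableEq J] in
theorem reset {C : (ι → Option J) → ℝ} (hC : Mono C) (τ : ι → Option J) (T : Finset ι) :
    C τ ≤ C fun p => if p ∈ T then none else τ p := by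
  induction T using Finset.induction_on with
  | empty => simp
  | insert a T _ ih =>
    refine ih.trans ((hC.2 _ a).trans (le_of_eq (congrArg C (funext fun p => ?_))))
    by_cases h : p = a
    · simp [h]
    · simp [h]

end AVA

open AVA in
theorem s_AV : StAV := by
  intro ι J _ _ _ _ r k x Q C hk hx hr hA
  have hQ := Q_nonneg hr hA
  have hx' : ∀ p, 0 ≤ x * r p := fun p => mul_nonneg hx (hr p)
  have e1 : ∀ σ : ι → Option J, hh r σ * C σ ^ 2 * ∏ p, ((σ p).elim 1 fun _ => 1 + x * r p)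
      = ∑ ρ : ι → Option J, hh (fun p => x * r p) ρ *
        if ∀ p, ρ p = none ∨ σ p = ρ p then hh r σ * C σ ^ 2 else 0 := by
    intro σ
    simp only [site]
    rw [Fintype.prod_sum, mul_sum]
    refine sum_congr rfl fun ρ _ => ?_
    rw [Fintype.prod_ite_zero]
    split_ifs
    · rw [mul_comm]
      rfl
    · simp
  have e2 : ∑ ρ : ι → Option J, hh (fun p => x * r p) ρ * hh r ρ
      = ∏ p, (1 + Fintype.card J * (x * r p ^ 2)) := by
    have : ∀ p, 1 + Fintype.card J * (x * r p ^ 2)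
        = ∑ b : Option J, (b.elim 1 fun _ => x * r p) * (b.elim 1 fun _ => r p) := by
      intro p
      rw [Fintype.sum_option]
      simp [sq, mul_assoc]
    simp only [this]
    rw [Fintype.prod_sum]
    exact sum_congr rfl fun ρ _ => by rw [prod_mul_distrib]; rfl
  simp only [e1]
  rw [sum_comm]
  simp only [← mul_sum]
  refine (sum_le_sum fun ρ _ =>
    mul_le_mul_of_nonneg_left (ext_le hr hA ρ) (hh_nonneg hx' ρ)).trans ?_
  simp only [← mul_assoc]
  rw [← sum_mul, e2, eta, mul_sum, Real.exp_sum]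
  refine mul_le_mul_of_nonneg_right (prod_le_prod (fun p _ => by positivity) fun p _ => ?_) hQ
  have := mul_le_mul_of_nonneg_right hk (mul_nonneg hx (sq_nonneg (r p)))
  linarith [Real.add_one_le_exp (x * k * r p ^ 2)]

open AVA in
theorem s_Pt : StPt := by
  intro ι J _ _ _ _ r k Q C hk hr hA
  have hQ := Q_nonneg hr hA
  refine ⟨?_, fun p => ?_⟩
  · have := ext_le hr hA fun _ => none
    simpa [hh, QQ] using this
  · have e1 : ∀ σ : ι → Option J, (if σ p ≠ none then hh r σ * C σ ^ 2 else 0)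
        = ∑ l : J, if σ p = some l then hh r σ * C σ ^ 2 else 0 := by
      intro σ
      cases σ p <;> simp
    rw [sum_filter]
    simp only [e1]
    rw [sum_comm]
    refine (sum_le_card_nsmul _ _ (r p * Q) fun l _ => ?_).trans ?_
    · have h := ext_le hr hA (Function.update (fun _ => none) p (some l))
      have e2 : hh r (Function.update (fun _ => none) p (some l) : ι → Option J) = r p := by
        rw [hh, prod_eq_single p (fun q _ hq => by simp [hq]) (by simp)]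
        simp
      rw [e2] at h
      refine le_trans (le_of_eq (sum_congr rfl fun σ _ => if_congr ?_ rfl rfl)) h
      refine ⟨fun e q => ?_, fun e => by simpa using e p⟩
      by_cases hq : q = p
      · simp [hq, e]
      · simp [hq]
    · rw [card_univ, nsmul_eq_mul, mul_assoc]
      exact mul_le_mul_of_nonneg_right hk (mul_nonneg (hr p) hQ)

open AVA in
theorem s_MA : StMA := by
  intro ι J _ _ _ _ r C hr hC ρ
  refine (sum_le_sum fun σ hσ => ?_).trans (sum_le_sum_of_subset_of_nonneg (filter_subset _ _)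
    fun σ _ _ => mul_nonneg (hh_nonneg hr σ) (sq_nonneg _))
  refine mul_le_mul_of_nonneg_left (pow_le_pow_left₀ (hC.1 _) ?_ 2) (hh_nonneg hr σ)
  refine (reset hC _ (univ.filter fun p => ρ p ≠ none)).trans
    (le_of_eq (congrArg C (funext fun p => ?_)))
  rcases (mem_filter.1 hσ).2 p with e | e
  · simp [jn, e]
  · by_cases h : ρ p = none <;> simp [jn, e, h]

end Pool.Agent.MP_43e117_nt.PG

end
end

section

open Finset

noncomputable section

namespace Pool.Agent.MP_43e117_nt.PG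

namespace RDA

variable {ι J : Type} [Fintype ι] [DecidableEq ι] [Fintype J] [DecidableEq J]

open Classical in
/-- the entries with a label in `Z` -/
def zp (Z : ι → J → Prop) (σ : ι → Option J) : ι → Option J :=
  fun p => if ∃ l, σ p = some l ∧ Z p l then σ p else none

open Classical in
/-- the other entries -/
def np (Z : ι → J → Prop) (σ : ι → Option J) : ι → Option J :=
  fun p => if ∃ l, σ p = some l ∧ Z p l then none else σ p

omit [Fintype ι] [DecidableEq ι] [Fintype J] [DecidableEq J] in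
theorem jn_zp (Z : ι → J → Prop) (σ : ι → Option J) : jn (zp Z σ) (np Z σ) = σ := by
  funext p
  simp only [jn, zp, np]
  split_ifs <;> simp

omit [DecidableEq J] in
theorem sum_hh (r : ι → ℝ) :
    ∑ ρ : ι → Option J, hh r ρ = ∏ p, (1 + Fintype.card J * r p) := by
  simp only [hh]
  rw [← Fintype.prod_sum (fun (p : ι) (o : Option J) => (Option.elim o 1 fun _ => r p : ℝ))]
  simp [Fintype.sum_option]

theorem rd_ne {r : ι → ℝ} {Z : ι → J → Prop} {C : (ι → Option J) → ℝ} {τ : ι → Option J}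
    (h : rd r Z C τ ≠ 0) : (∀ p l, τ p = some l → ¬ Z p l) ∧
      ∃ ρ : ι → Option J, (∀ p, ρ p = none ∨ τ p = none) ∧ C (jn ρ τ) ≠ 0 := by
  classical
  unfold rd at h
  split_ifs at h with h₀
  · obtain ⟨ρ, h₁, h₂⟩ := exists_ne_zero_of_sum_ne_zero h
    exact ⟨h₀, ρ, fun p => ((mem_filter.1 h₁).2 p).imp_right And.left, right_ne_zero_of_mul h₂⟩
  · exact absurd rfl h

theorem rd_nonneg {r : ι → ℝ} (hr : ∀ p, 0 ≤ r p) (Z : ι → J → Prop) {C : (ι → Option J) → ℝ}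
    (hC : ∀ σ, 0 ≤ C σ) (τ : ι → Option J) : 0 ≤ rd r Z C τ := by
  unfold rd
  split_ifs
  · exact sum_nonneg fun ρ _ => mul_nonneg (hh_nonneg hr ρ) (hC _)
  · exact le_rfl

end RDA

open RDA

theorem s_RD : StRD := by
  classical
  intro ι J _ _ _ _ r Z C o ho
  simp only [Psi, rd, ite_mul, zero_mul, sum_mul]
  rw [← sum_filter, sum_sigma']
  refine sum_nbij' (fun σ => ⟨np Z σ, zp Z σ⟩) (fun x => jn x.2 x.1) (fun σ _ => ?_) (by simp)
    (fun σ _ => jn_zp Z σ) (fun ⟨τ, ρ⟩ hx => ?_) fun σ _ => ?_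
  · simp only [mem_sigma, mem_filter, mem_univ, true_and, np, zp]
    refine ⟨fun p l h hz => ?_, fun p => ?_⟩
    · split_ifs at h with h'
      exact h' ⟨l, h, hz⟩
    · split_ifs with h'
      · exact Or.inr ⟨rfl, h'⟩
      · exact Or.inl rfl
  · simp only [mem_sigma, mem_filter, mem_univ, true_and] at hx
    have key : ∀ p, np Z (jn ρ τ) p = τ p ∧ zp Z (jn ρ τ) p = ρ p := by
      intro p
      simp only [np, zp, jn]
      rcases hx.2 p with h | ⟨h, l, h₁, h₂⟩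
      · have : ¬ ∃ l, τ p = some l ∧ Z p l := fun ⟨l, h₁, h₂⟩ => hx.1 p l h₁ h₂
        simp only [h, Option.none_or, if_neg this, and_self]
      · simp [h, h₁, h₂]
    rw [funext fun p => (key p).1, funext fun p => (key p).2]
  · rw [jn_zp, mul_comm (hh _ _), mul_assoc, hh, ← prod_mul_distrib]
    refine congrArg _ (prod_congr rfl fun p _ => ?_)
    simp only [np, zp]
    split_ifs with h
    · obtain ⟨l, h₁, h₂⟩ := h
      have : o p ≠ some l := fun e => ho p l e h₂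
      simp [h₁, fr, this]
    · simp

theorem s_RM : StRM := by
  classical
  intro ι J _ _ _ _ r Z C hr
  refine ⟨fun hC => ⟨rd_nonneg hr Z hC.1, fun τ p => ?_⟩, fun Lb hL τ h p l hp => ?_,
    fun hC τ h => ?_, fun M k hk hM τ => ?_, fun q D hq hD τ h => ?_⟩
  · by_cases h : ∀ p l, τ p = some l → ¬ Z p l
    · have h' : ∀ p' l, Function.update τ p none p' = some l → ¬ Z p' l := by
        intro p' l e
        by_cases hp : p' = p
        · simp [hp] at e
        · exact h p' l (by rwa [Function.update_of_ne hp] at e)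
      rw [rd, rd, if_pos h, if_pos h']
      refine le_trans (sum_le_sum fun ρ hρ => ?_) (sum_le_sum_of_subset_of_nonneg
        (fun ρ hρ => ?_) fun ρ _ _ => mul_nonneg (hh_nonneg hr ρ) (hC.1 _))
      · refine mul_le_mul_of_nonneg_left ?_ (hh_nonneg hr ρ)
        rcases (mem_filter.1 hρ).2 p with e | ⟨e, -⟩
        · refine (hC.2 _ p).trans_eq (congrArg C (funext fun p' => ?_))
          by_cases hp : p' = p
          · simp [hp, jn, e]
          · simp [jn, Function.update_of_ne hp]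
        · rw [← e, Function.update_eq_self]
      · refine mem_filter.2 ⟨mem_univ _, fun p' => ((mem_filter.1 hρ).2 p').imp_right
          (And.imp_left fun e => ?_)⟩
        by_cases hp : p' = p
        · simp [hp]
        · rwa [Function.update_of_ne hp]
    · rw [rd, if_neg h]
      exact rd_nonneg hr Z hC.1 _
  · obtain ⟨h₀, ρ, h₁, h₂⟩ := rd_ne h
    refine ⟨hL _ h₂ p l ?_, h₀ p l hp⟩
    rcases h₁ p with e | e
    · simp [jn, e, hp]
    · simp [e] at hp
  · rw [rd, if_pos h]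
    refine le_trans (le_of_eq ?_) (single_le_sum (f := fun ρ => hh r ρ * C (jn ρ τ))
      (a := fun _ => none) (fun ρ _ => mul_nonneg (hh_nonneg hr ρ) (hC _)) (by simp))
    have : jn (fun _ => none) τ = τ := funext fun p => by simp [jn]
    simp [hh, this]
  · have hM0 : 0 ≤ M := (abs_nonneg _).trans (hM τ)
    have hk0 : 0 ≤ k := (Nat.cast_nonneg _).trans hk
    unfold rd
    split_ifs
    · refine (abs_sum_le_sum_abs _ _).trans ?_
      calc _ ≤ ∑ ρ : ι → Option J, |hh r ρ * C (jn ρ τ)| :=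
            sum_le_sum_of_subset_of_nonneg (subset_univ _) fun _ _ _ => abs_nonneg _
        _ ≤ ∑ ρ : ι → Option J, M * hh r ρ := sum_le_sum fun ρ _ => by
            rw [abs_mul, abs_of_nonneg (hh_nonneg hr ρ), mul_comm]
            exact mul_le_mul_of_nonneg_right (hM _) (hh_nonneg hr ρ)
        _ ≤ _ := by
            rw [← mul_sum, sum_hh]
            refine mul_le_mul_of_nonneg_left (prod_le_prod (fun p _ => ?_) fun p _ => ?_) hM0
            · have := hr p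
              positivity
            · have := hr p
              gcongr
    · rw [abs_zero]
      exact mul_nonneg hM0 (prod_nonneg fun p _ => by have := hr p; positivity)
  · obtain ⟨-, ρ, h₁, h₂⟩ := rd_ne h
    refine le_trans (Nat.cast_le.2 (prod_le_prod' fun p _ => ?_)) (hD _ h₂)
    rcases h₁ p with e | e
    · simp [jn, e]
    · rw [e]
      cases jn ρ τ p
      · exact le_rfl
      · exact hq p

end Pool.Agent.MP_43e117_nt.PG

end
end

section

open Finset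

noncomputable section

namespace Pool.Agent.MP_43e117_nt.PG

namespace GLA

theorem weier {ι : Type} (s : Finset ι) (e : ι → ℝ) (h0 : ∀ p, 0 ≤ e p) (h1 : ∀ p, e p ≤ 1) :
    1 - ∑ p ∈ s, e p ≤ ∏ p ∈ s, (1 - e p) := by
  classical
  induction s using Finset.induction_on with
  | empty => simp
  | insert i s hi ih =>
    rw [sum_insert hi, prod_insert hi]
    have h2 : 0 ≤ ∑ p ∈ s, e p := sum_nonneg fun p _ => h0 p
    nlinarith [mul_le_mul_of_nonneg_left ih (sub_nonneg.2 (h1 i)), mul_nonneg (h0 i) h2]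

variable {ι J : Type} [Fintype ι] [DecidableEq ι] [Fintype J] [DecidableEq J]

/-- the relative loss at a site -/
def ee (a r : ℝ) (o : Option J) : ℝ := o.elim (a * r ^ 2) fun _ => a * r

/-- the lower site weights -/
def dd (a r : ℝ) (o : Option J) : ℝ := (o.elim 1 fun _ => r) * (1 - ee a r o)

/-- the total loss -/
def BB (a : ℝ) (r : ι → ℝ) (S : Finset ι) (τ : ι → Option J) : ℝ :=
  1 - a * eta r - ∑ p, if τ p ≠ none then a * r p + if p ∈ S then 1 else 0 else 0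

omit [Fintype J] [DecidableEq J] in
theorem ee_bd {a r : ℝ} (ha : 1 ≤ a) (h0 : 0 ≤ r) (h1 : a * r ≤ 1) (o : Option J) :
    0 ≤ ee a r o ∧ ee a r o ≤ 1 := by
  have h2 : r ≤ 1 := by nlinarith
  have h3 : 0 ≤ a * r := by positivity
  cases o
  · exact ⟨by simp only [ee, Option.elim]; positivity, by simp only [ee, Option.elim]; nlinarith⟩
  · exact ⟨h3, h1⟩

omit [Fintype J] [DecidableEq J] in
theorem dd_nonneg {a r : ℝ} (ha : 1 ≤ a) (h0 : 0 ≤ r) (h1 : a * r ≤ 1) (o : Option J) :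
    0 ≤ dd a r o :=
  mul_nonneg (by cases o <;> simp [h0]) (sub_nonneg.2 (ee_bd ha h0 h1 o).2)

omit [Fintype J] in
theorem term {a x y : ℝ} {r : ι → ℝ} (ha : 1 ≤ a) (hr : Sm r a) (S : Finset ι) (τ : ι → Option J)
    (hx : 0 ≤ x) (hxy : (∀ p ∈ S, τ p = none) → x ≤ y) :
    hh r τ * x ^ 2 * BB a r S τ ≤ (∏ p, dd a (r p) (τ p)) * y ^ 2 := by
  have h0 : 0 ≤ hh r τ := hh_nonneg (fun p => (hr p).1) τ
  have he := fun p => ee_bd ha (hr p).1 (hr p).2 (τ p)
  have hP : 0 ≤ ∏ p, (1 - ee a (r p) (τ p)) := prod_nonneg fun p _ => sub_nonneg.2 (he p).2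
  have har : ∀ p, 0 ≤ a * r p := fun p => mul_nonneg (by linarith) (hr p).1
  have e1 : ∏ p, dd a (r p) (τ p) = hh r τ * ∏ p, (1 - ee a (r p) (τ p)) := prod_mul_distrib
  rw [e1]
  by_cases h : ∀ p ∈ S, τ p = none
  · have h1 := weier univ _ (fun p => (he p).1) fun p => (he p).2
    have h2 : ∑ p, ee a (r p) (τ p) ≤ a * eta r +
        ∑ p, if τ p ≠ none then a * r p + if p ∈ S then 1 else 0 else 0 := by
      rw [eta, mul_sum, ← sum_add_distrib]
      refine sum_le_sum fun p _ => ?_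
      have h3 : 0 ≤ a * r p ^ 2 := mul_nonneg (by linarith) (sq_nonneg _)
      cases τ p
      · simp [ee]
      · simp only [ee, Option.elim, ne_eq, reduceCtorEq, not_false_eq_true, if_true]
        split_ifs <;> linarith
    have h3 : BB a r S τ ≤ ∏ p, (1 - ee a (r p) (τ p)) := by
      rw [BB]
      linarith
    calc hh r τ * x ^ 2 * BB a r S τ ≤ hh r τ * x ^ 2 * ∏ p, (1 - ee a (r p) (τ p)) := by gcongr
      _ ≤ hh r τ * y ^ 2 * ∏ p, (1 - ee a (r p) (τ p)) := by gcongr; exact hxy h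
      _ = _ := by ring
  · push Not at h
    obtain ⟨p, hp, hτ⟩ := h
    have h1 := single_le_sum (f := fun p => if τ p ≠ none then a * r p +
      if p ∈ S then (1 : ℝ) else 0 else 0) (fun p _ => by
        have := har p
        split_ifs <;> linarith) (mem_univ p)
    simp only [if_pos hτ, if_pos hp] at h1
    have h2 : 0 ≤ a * eta r := mul_nonneg (by linarith) (sum_nonneg fun p _ => sq_nonneg _)
    have h3 : BB a r S τ ≤ 0 := by
      rw [BB]
      linarith [har p]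
    exact (mul_nonpos_of_nonneg_of_nonpos (by positivity) h3).trans (by positivity)

theorem total (a : ℝ) (r : ι → ℝ) (S : Finset ι) (C : (ι → Option J) → ℝ) :
    ∑ τ, hh r τ * C τ ^ 2 * BB a r S τ = QQ r C - a * eta r * QQ r C -
      ∑ p, (a * r p + if p ∈ S then 1 else 0) *
        ∑ σ ∈ univ.filter (fun σ : ι → Option J => σ p ≠ none), hh r σ * C σ ^ 2 := by
  simp only [BB, QQ, mul_sub, sum_sub_distrib, mul_one, sum_filter, mul_sum]
  rw [sum_comm]
  congr 1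
  · congr 1
    exact sum_congr rfl fun τ _ => mul_comm _ _
  · refine sum_congr rfl fun p _ => sum_congr rfl fun τ _ => ?_
    split_ifs <;> ring

end GLA

open GLA in
theorem s_GL (hSI : StSI) (hTS : StTS) (hPt : StPt) (hRD : StRD) (hRM : StRM) : StGL := by
  intro ι J _ _ _ _ r k c Q Lb S μ C hk h1k h1c hr hcl hs hav hC
  have ha : 1 ≤ 7 * c * k := by nlinarith
  have hr0 : ∀ p, 0 ≤ r p := fun p => (hr p).1
  obtain ⟨-, m2, m3, -⟩ := hRM ι J r (fun p l => p ∈ S ∧ Lb p l) C hr0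
  have eA : Ex μ (fun o => Psi r C o ^ 2) =
      Ex μ fun o => Psi r (rd r (fun p l => p ∈ S ∧ Lb p l) C) o ^ 2 := by
    refine sum_congr rfl fun o _ => ?_
    by_cases h : ∏ p, μ p (o p) = 0
    · rw [h, zero_mul, zero_mul]
    · beta_reduce
      rw [hRD ι J r (fun p l => p ∈ S ∧ Lb p l) C o fun p l e hz =>
        h (prod_eq_zero (mem_univ p) (e ▸ ((hcl p).2.2 l hz.2).1 hz.1))]
  have eB := hTS ι J (-1) r μ (fun p => dd (7 * c * k) (r p)) _ _ (fun p => (hcl p).1)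
    (fun p => dd_nonneg ha (hr p).1 (hr p).2) (m2 Lb hs) fun p v hv => by
      have h1 : r p ≤ 1 := by nlinarith [(hr p).1, (hr p).2]
      have h2 := (abs_le.1 (hSI J k c (r p) (μ p) v _ hk h1k h1c (hr p).1 h1 (hcl p).2.1
        (fun l hl => ((hcl p).2.2 l hl.1).2 fun hp => hl.2 ⟨hp, hl.1⟩) hv)).1
      have h3 : ∑ a, dd (7 * c * k) (r p) a * v a ^ 2 = v none ^ 2 + r p * ∑ l, v (some l) ^ 2 -
          7 * c * k * r p ^ 2 * (v none ^ 2 + ∑ l, v (some l) ^ 2) := by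
        simp only [Fintype.sum_option, dd, ee, Option.elim, ← mul_sum]
        ring
      linarith
  have eC : ∑ τ, hh r τ * C τ ^ 2 * BB (7 * c * k) r S τ ≤ ∑ τ, (∏ p, dd (7 * c * k) (r p) (τ p)) *
      rd r (fun p l => p ∈ S ∧ Lb p l) C τ ^ 2 := sum_le_sum fun τ _ =>
    term ha hr S τ (hC τ) fun h => m3 hC τ fun p l e hz => by simp [h p hz.1] at e
  obtain ⟨p1, p2⟩ := hPt ι J r k Q C hk hr0 hav
  have hQ : 0 ≤ Q := le_trans (sum_nonneg fun σ _ => mul_nonneg (hh_nonneg hr0 σ) (sq_nonneg _)) p1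
  have hη : 0 ≤ 7 * c * k * eta r :=
    mul_nonneg (by linarith) (sum_nonneg fun p _ => sq_nonneg _)
  have eD : ∑ p, (7 * c * k * r p + if p ∈ S then 1 else 0) *
      ∑ σ ∈ univ.filter (fun σ : ι → Option J => σ p ≠ none), hh r σ * C σ ^ 2 ≤
      (k * (7 * c * k * eta r) + k * ∑ p ∈ S, r p) * Q := by
    refine (sum_le_sum fun p _ => mul_le_mul_of_nonneg_left (p2 p) ?_).trans (le_of_eq ?_)
    · have := mul_nonneg (le_trans zero_le_one ha) (hr0 p)
      split_ifs <;> linarith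
    · rw [eta, ← sum_ite_mem_eq S]
      simp only [mul_sum, ← sum_add_distrib, sum_mul]
      refine sum_congr rfl fun p _ => ?_
      split_ifs <;> ring
  rw [total] at eC
  have e1 := mul_le_mul_of_nonneg_left p1 hη
  have e2 := mul_nonneg (mul_nonneg (sub_nonneg.2 h1k) hη) hQ
  rw [eA]
  linarith

end Pool.Agent.MP_43e117_nt.PG

end
end

section

open Finset

noncomputable section

namespace Pool.Agent.MP_43e117_nt.PG

namespace LYA

variable {ι J : Type} [Fintype ι] [DecidableEq ι] [Fintype J] [DecidableEq J]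

omit [Fintype ι] [DecidableEq ι] [Fintype J] in
theorem site (ω : ι → Option J → ℝ) (j : J) (h : ∀ p, ω p (some j) ≠ 1) (u : ι → Option Unit)
    (o : ι → Option J) (p : ι) :
    bw ω j p (u p) * cd ω j u p (o p) = ω p (o p) * if u p = pr j o p then 1 else 0 := by
  have h1 : 1 - ω p (some j) ≠ 0 := sub_ne_zero.2 (h p).symm
  unfold bw cd pr
  rcases hu : u p with _ | ⟨⟨⟩⟩ <;> by_cases ho : o p = some j
  · simp [ho]
  · simp only [mk, Fintype.sum_unique, ho, if_true, if_false]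
    field_simp
  · simp [mk, ho]
  · simp [ho]

omit [Fintype J] in
theorem prod_site (ω : ι → Option J → ℝ) (j : J) (h : ∀ p, ω p (some j) ≠ 1)
    (u : ι → Option Unit) (o : ι → Option J) :
    (∏ p, bw ω j p (u p)) * ∏ p, cd ω j u p (o p)
      = if u = pr j o then ∏ p, ω p (o p) else 0 := by
  rw [← prod_mul_distrib]
  simp only [site ω j h, prod_mul_distrib, prod_boole, mem_univ, true_imp_iff]
  by_cases e : u = pr j o
  · simp [e]
  · rw [if_neg e, if_neg fun h => e (funext h), mul_zero]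

theorem sum_mk (a : J → ℝ) (t : Option J) :
    ∑ o, mk a o * (if t = none ∨ o = t then (1 : ℝ) else 0) = t.elim 1 a := by
  cases t with
  | none => simp [Fintype.sum_option, mk]
  | some l => simp [mk]

end LYA

theorem s_LY : StLY := by
  intro ι J _ _ _ _ ω j F Φ h
  have e : ∀ u : ι → Option Unit, (∏ p, bw ω j p (u p)) * (F u * Ex (cd ω j u) Φ)
      = ∑ o, if u = pr j o then (∏ p, ω p (o p)) * (F u * Φ o) else 0 := by
    intro u
    rw [Ex, mul_sum, mul_sum]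
    refine sum_congr rfl fun o _ => ?_
    rw [show (∏ p, bw ω j p (u p)) * (F u * ((∏ p, cd ω j u p (o p)) * Φ o))
      = ((∏ p, bw ω j p (u p)) * ∏ p, cd ω j u p (o p)) * (F u * Φ o) by ring,
      LYA.prod_site ω j h, ite_mul, zero_mul]
  rw [Ex, Ex]
  simp only [e]
  rw [sum_comm]
  simp

theorem s_CD : StCD := by
  intro ι _ _ μ p F
  rw [Ex, Ex, mul_sum]
  refine sum_congr rfl fun u _ => ?_
  have e : ∏ x ∈ univ.erase p, Function.update μ p dl x (u x) = ∏ x ∈ univ.erase p, μ x (u x) :=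
    prod_congr rfl fun x hx => by rw [Function.update_of_ne (ne_of_mem_erase hx)]
  rw [← mul_prod_erase univ (fun x => μ x (u x)) (mem_univ p),
    ← mul_prod_erase univ (fun x => Function.update μ p dl x (u x)) (mem_univ p), e,
    Function.update_self, ind, dl]
  split_ifs with h
  · rw [h]; ring
  · ring

theorem s_EM : StEM := by
  intro ι J _ _ _ _ a c
  simp only [Ex, mul_sum]
  rw [sum_comm]
  refine sum_congr rfl fun τ _ => ?_
  simp only [← LYA.sum_mk]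
  rw [Fintype.prod_sum, mul_sum]
  refine sum_congr rfl fun o _ => ?_
  rw [prod_mul_distrib, MM]
  ring

end Pool.Agent.MP_43e117_nt.PG

end
end

section

/-!
Upper and lower bounds for the sieve sum after fixing the layer of one form.
-/

open Finset

noncomputable section

namespace Pool.Agent.MP_43e117_nt.PG

open MP_fdd1d3_nt (LL SS)

namespace LUA

variable {ι J : Type} [Fintype ι] [DecidableEq ι] [Fintype J] [DecidableEq J]
  {r : ι → ℝ} {k : ℝ} {i j : J}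

omit [Fintype ι] [DecidableEq ι] in
theorem half (hk : 1 ≤ k) (hr : Sm r (2 * k)) (p : ι) : 2 * r p ≤ 1 := by
  obtain ⟨a, b⟩ := hr p
  nlinarith

omit [Fintype ι] in
theorem om_some (S : Finset ι) (p : ι) {l : J} (h : l ≠ i) :
    om r i S p (some l) = if p ∈ S then 0 else r p := by
  simp [om, mk, h]

omit [Fintype ι] in
theorem om_sum (S : Finset ι) (p : ι) : ∑ o, om r i S p o = 1 := by
  rw [Fintype.sum_option]
  simp [om, mk]

omit [Fintype ι] in
theorem om_nonneg (hJ : (Fintype.card J : ℝ) ≤ k) (hr : Sm r (2 * k)) (S : Finset ι) (p : ι)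
    (o : Option J) : 0 ≤ om r i S p o := by
  obtain ⟨a, b⟩ := hr p
  cases o with
  | some l =>
    simp only [om, mk]
    split_ifs
    exacts [le_rfl, a]
  | none =>
    simp only [om, mk]
    have h1 : ∑ l : J, (if l = i ∨ p ∈ S then 0 else r p) ≤ ∑ _l : J, r p :=
      sum_le_sum fun l _ => by
        split_ifs
        exacts [a, le_rfl]
    rw [sum_const, card_univ, nsmul_eq_mul] at h1
    have h2 : (Fintype.card J : ℝ) * r p ≤ k * r p := mul_le_mul_of_nonneg_right hJ a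
    have h3 : (0 : ℝ) ≤ Fintype.card J * r p := by positivity
    linarith

omit [Fintype ι] in
theorem om_lt (hk : 1 ≤ k) (hr : Sm r (2 * k)) (hij : i ≠ j) (S : Finset ι) (p : ι) :
    om r i S p (some j) < 1 := by
  have := half hk hr p
  rw [om_some S p hij.symm]
  split_ifs <;> linarith

theorem cl (hJ : (Fintype.card J : ℝ) ≤ k) (hk : 1 ≤ k) (hr : Sm r (2 * k)) (hij : i ≠ j)
    (S : Finset ι) (u : ι → Option Unit) :
    Cl r (fun _ l => l ≠ i ∧ l ≠ j) (S ∪ SS u ()) 2 (cd (om r i S) j u) := by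
  intro p
  have h0 := (hr p).1
  have h1 := half hk hr p
  have h2 := sub_pos.2 (om_lt hk hr hij S p)
  have hm : p ∈ S ∪ SS u () ↔ p ∈ S ∨ u p = some () := by
    rw [mem_union, MP_fdd1d3_nt.mem_SS]
  by_cases hu : u p = none
  · simp only [cd, if_pos hu]
    refine ⟨fun o => ?_, ?_, fun l hl => ?_⟩
    · split_ifs
      exacts [le_rfl, div_nonneg (om_nonneg hJ hr S p o) h2.le]
    · have e : ∑ o, (if o = some j then 0 else om r i S p o / (1 - om r i S p (some j))) = 1 := by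
        have : ∀ o, (if o = some j then 0 else om r i S p o / (1 - om r i S p (some j))) =
            (om r i S p o - if o = some j then om r i S p (some j) else 0) /
              (1 - om r i S p (some j)) := fun o => by
          split_ifs with c
          · rw [c, sub_self, zero_div]
          · rw [sub_zero]
        simp only [this]
        rw [← sum_div, sum_sub_distrib, om_sum, sum_ite_eq' univ (some j), if_pos (mem_univ _),
          div_self h2.ne']
      rw [e, sub_self, abs_zero]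
      positivity
    · rw [if_neg (by simpa using hl.2), om_some S p hl.1, om_some S p hij.symm, hm, hu]
      refine ⟨fun c => ?_, fun c => ?_⟩
      · rw [if_pos (by simpa using c), zero_div]
      · have c' : p ∉ S := by simpa using c
        have h3 : 0 < 1 - r p := by linarith
        rw [if_neg c', show r p / (1 - r p) - r p = r p ^ 2 / (1 - r p) by field_simp; ring,
          abs_of_nonneg (by positivity), div_le_iff₀ h3]
        nlinarith [sq_nonneg (r p)]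
  · simp only [cd, if_neg hu]
    refine ⟨fun o => ?_, ?_, fun l hl => ⟨fun _ => if_neg (by simpa using hl.2), fun c => ?_⟩⟩
    · split_ifs
      exacts [zero_le_one, le_rfl]
    · rw [sum_ite_eq' univ (some j), if_pos (mem_univ _), sub_self, abs_zero]
      positivity
    · exact absurd (hm.2 (Or.inr (Option.ne_none_iff_exists'.1 hu).choose_spec)) c

omit [Fintype ι] in
theorem bw_nonneg (hJ : (Fintype.card J : ℝ) ≤ k) (hk : 1 ≤ k) (hr : Sm r (2 * k)) (hij : i ≠ j)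
    (S : Finset ι) (p : ι) (o : Option Unit) : 0 ≤ bw (om r i S) j p o := by
  cases o with
  | none =>
    have := om_lt hk hr hij S p
    simp only [bw, mk, Fintype.sum_unique]
    linarith
  | some _ => exact om_nonneg (i := i) hJ hr S p (some j)

theorem site (hij : i ≠ j) (S : Finset ι) (u : ι → Option Unit) :
    (∏ p, bw (om r i S) j p (u p)) * ∏ p ∈ S ∪ SS u (), (1 + k * r p) =
      (∏ p ∈ S, (1 + k * r p)) * ∏ p, bp r k S p (u p) := by
  have e : ∀ T : Finset ι, ∏ p ∈ T, (1 + k * r p) = ∏ p, if p ∈ T then 1 + k * r p else 1 :=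
    fun T => by rw [prod_ite_mem, univ_inter]
  rw [e, e S, ← prod_mul_distrib, ← prod_mul_distrib]
  refine prod_congr rfl fun p _ => ?_
  simp only [mem_union, MP_fdd1d3_nt.mem_SS]
  rcases u p with _ | a <;> by_cases c : p ∈ S <;>
    simp [bw, mk, bp, om_some S p hij.symm, c]

end LUA

open LUA

theorem s_LU (hGU : StGU) (hLY : StLY) : StLU := by
  intro ι J _ _ _ _ r k Q i j S F C hJ hk hr hij hF hS hA
  have h1 : Sm r 1 := fun p => ⟨(hr p).1, by linarith [half hk hr p, (hr p).1]⟩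
  rw [hLY ι J _ j F _ fun p => (om_lt hk hr hij S p).ne, Ex, Ex, mul_sum]
  refine sum_le_sum fun u _ => ?_
  have g := hGU ι J r k 2 Q _ _ _ C hJ hk one_le_two h1 (cl hJ hk hr hij S u) hS hA
  refine (mul_le_mul_of_nonneg_left (mul_le_mul_of_nonneg_left g (hF u))
    (prod_nonneg fun p _ => bw_nonneg hJ hk hr hij S p _)).trans_eq ?_
  rw [show (14 * 2 : ℝ) = 28 by norm_num]
  linear_combination Real.exp (28 * k ^ 2 * eta r) * Q * F u * site (r := r) (k := k) hij S u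

theorem s_LL (hGL : StGL) (hMA : StMA) (hLY : StLY) : StLL := by
  intro ι J _ _ _ _ r k i j F C hJ hk hr hij hF hS hM
  have h2 : Sm r (2 * k) := fun p => ⟨(hr p).1, by nlinarith [(hr p).1, (hr p).2]⟩
  have h7 : Sm r (7 * 2 * k) := by rwa [show (7 * 2 : ℝ) = 14 by norm_num]
  have hb : bw (om r i ∅) j = bm r := by
    funext p
    simp [bw, bm, om_some ∅ p hij.symm]
  have e : QQ r C * ((1 - 28 * k ^ 2 * eta r) * Ex (bm r) F -
      k * ∑ p, r p * Ex (bm r) fun u => ind p u * F u) = Ex (bm r) fun u =>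
        F u * (QQ r C - (14 * 2 * k ^ 2 * eta r + k * ∑ p, r p * ind p u) * QQ r C) := by
    have : ∑ p, r p * Ex (bm r) (fun u => ind p u * F u) =
        Ex (bm r) fun u => (∑ p, r p * ind p u) * F u := by
      simp only [Ex, mul_sum, sum_mul]
      rw [sum_comm]
      exact sum_congr rfl fun u _ => sum_congr rfl fun p _ => by ring
    rw [this, Ex, Ex, Ex, mul_sum, mul_sum, ← sum_sub_distrib, mul_sum]
    exact sum_congr rfl fun u _ => by ring
  rw [hLY ι J _ j F _ fun p => (om_lt hk h2 hij ∅ p).ne, e, ← hb, Ex, Ex]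
  refine sum_le_sum fun u _ => mul_le_mul_of_nonneg_left (mul_le_mul_of_nonneg_left ?_ (hF u))
    (prod_nonneg fun p _ => bw_nonneg hJ hk h2 hij ∅ p _)
  have g := hGL ι J r k 2 _ _ _ _ C hJ hk one_le_two h7 (cl hJ hk h2 hij ∅ u) hS
    (hMA ι J r C (fun p => (hr p).1) hM) hM.1
  have s : ∑ p ∈ ∅ ∪ SS u (), r p = ∑ p, r p * ind p u := by
    rw [empty_union, SS, sum_filter]
    exact sum_congr rfl fun p _ => by simp [ind]
  rwa [s] at g

end Pool.Agent.MP_43e117_nt.PG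

end
end

section

/-! The one-dimensional optimal sieve sum: basic properties. -/

open Finset

namespace Pool.Agent.MP_43e117_nt.PG

open MP_fdd1d3_nt (LL SS mem_SS LL_nonneg)

namespace SBA

variable {ι : Type} [Fintype ι] [DecidableEq ι]

omit [DecidableEq ι] in
theorem prod_fr (r : ι → ℝ) (σ u : ι → Option Unit) :
    ∏ p, fr (r p) (σ p) (u p) = ∏ p ∈ SS σ (), (r p - if u p = some () then 1 else 0) := by
  rw [SS, prod_filter]
  refine prod_congr rfl fun p _ => ?_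
  cases σ p <;> simp [fr]

theorem Sel_eq (r : ι → ℝ) (q : ι → ℕ) (t : ℝ) (u : ι → Option Unit) :
    Sel r q t u = (∑ s : Finset ι, if LL q s ≤ t then
      ∏ p ∈ s, (r p - if u p = some () then 1 else 0) else 0) / GG r q t := by
  rw [Sel, Psi, sum_div, ← sum_unit]
  refine sum_congr rfl fun σ _ => ?_
  rw [prod_fr, sel]
  split_ifs
  · rw [div_eq_inv_mul]
  · simp

omit [Fintype ι] [DecidableEq ι] in
theorem hs_nonneg {r : ι → ℝ} (hr : ∀ p, 0 ≤ r p) (s : Finset ι) : 0 ≤ hs r s :=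
  prod_nonneg fun p _ => hr p

omit [DecidableEq ι] in
theorem one_le_GG {r : ι → ℝ} (q : ι → ℕ) {t : ℝ} (hr : ∀ p, 0 ≤ r p) (ht : 0 ≤ t) :
    1 ≤ GG r q t := by
  have := single_le_sum (f := fun s : Finset ι => if LL q s ≤ t then hs r s else 0)
    (fun s _ => by split_ifs; exacts [hs_nonneg hr s, le_rfl]) (mem_univ ∅)
  simpa [LL, hs, ht, GG] using this

omit [Fintype ι] [DecidableEq ι] in
theorem LL_mono (q : ι → ℕ) {s s' : Finset ι} (h : s ⊆ s') : LL q s ≤ LL q s' :=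
  sum_le_sum_of_subset_of_nonneg h fun _ _ _ => Real.log_natCast_nonneg _

omit [Fintype ι] [DecidableEq ι] in
theorem log_le_LL (q : ι → ℕ) {s : Finset ι} {p : ι} (h : p ∈ s) : Real.log (q p) ≤ LL q s :=
  single_le_sum (f := fun p => Real.log (q p)) (fun _ _ => Real.log_natCast_nonneg _) h

theorem split (S : Finset ι) (F : Finset ι → ℝ) :
    ∑ s, F s = ∑ v ∈ S.powerset, ∑ s, if Disjoint s S then F (s ∪ v) else 0 := by
  rw [← sum_fiberwise_of_maps_to (s := univ) (t := S.powerset) (g := fun s => s ∩ S)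
    (fun s _ => mem_powerset.2 inter_subset_right)]
  refine sum_congr rfl fun v hv => ?_
  rw [mem_powerset] at hv
  rw [← sum_filter]
  refine sum_nbij' (fun s => s \ S) (fun s => s ∪ v) (fun s _ => by simp [sdiff_disjoint])
    (fun s hs => ?_) (fun s hs => ?_) (fun s hs => ?_) fun s hs => ?_
  · simp only [coe_filter, mem_univ, true_and, Set.mem_ofPred_eq, mem_filter] at hs ⊢
    rw [union_inter_distrib_right, disjoint_iff_inter_eq_empty.1 hs, empty_union,
      inter_eq_left.2 hv]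
  · simp only [coe_filter, mem_univ, true_and, Set.mem_ofPred_eq, mem_filter] at hs
    rw [← hs, sdiff_union_inter]
  · simp only [coe_filter, mem_univ, true_and, Set.mem_ofPred_eq, mem_filter] at hs
    rw [union_sdiff_distrib, sdiff_eq_self_of_disjoint hs, sdiff_eq_empty_iff_subset.2 hv,
      union_empty]
  · simp only [mem_univ, true_and, mem_filter] at hs
    rw [← hs, sdiff_union_inter]

end SBA

open SBA

theorem s_P0 : StP0 := by
  intro ι _ _ r q t u
  rw [Sel_eq, split (SS u ())]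
  congr 1
  refine sum_congr rfl fun v hv => ?_
  rw [mem_powerset] at hv
  rw [mul_sum]
  refine sum_congr rfl fun s _ => ?_
  by_cases hd : Disjoint s (SS u ())
  · have hd' : Disjoint s v := hd.mono_right hv
    have e : LL q (s ∪ v) = LL q s + LL q v := sum_union hd'
    simp only [hd, if_true, true_and, e]
    split_ifs
    · rw [prod_union hd', mul_comm, hs]
      congr 1
      · refine prod_congr rfl fun p hp => ?_
        rw [if_pos ((mem_SS u () p).1 (hv hp))]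
      · refine prod_congr rfl fun p hp => ?_
        rw [if_neg (fun h => disjoint_left.1 hd hp ((mem_SS u () p).2 h)), sub_zero]
    · simp
  · simp [hd]

theorem s_P2 : StP2 := by
  intro ι _ _ r q t u hr ht
  have h0 : ∀ p, 0 ≤ r p := fun p => (hr p).1
  have hG := one_le_GG q h0 ht
  rw [s_P0, abs_div, abs_of_pos (by linarith : 0 < GG r q t), div_le_iff₀ (by linarith)]
  refine (abs_sum_le_sum_abs _ _).trans ?_
  refine (sum_le_card_nsmul _ _ (GG r q t) fun v _ => ?_).trans (by simp)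
  have a : |∏ p ∈ v, (r p - 1)| ≤ 1 := by
    rw [abs_prod]
    refine prod_le_one (fun _ _ => abs_nonneg _) fun p _ => ?_
    have := (hr p).2
    rw [abs_le]
    constructor <;> linarith [h0 p]
  have b : 0 ≤ ∑ s : Finset ι,
      if Disjoint s (SS u ()) ∧ LL q s + LL q v ≤ t then hs r s else 0 :=
    sum_nonneg fun s _ => by split_ifs; exacts [hs_nonneg h0 s, le_rfl]
  have c : (∑ s : Finset ι, if Disjoint s (SS u ()) ∧ LL q s + LL q v ≤ t then hs r s else 0) ≤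
      GG r q t := sum_le_sum fun s _ => by
    split_ifs with h1 h2
    · exact le_rfl
    · exact (h2 (by linarith [h1.2, LL_nonneg q v])).elim
    · exact hs_nonneg h0 s
    · exact le_rfl
  rw [abs_mul, abs_of_nonneg b]
  exact (mul_le_of_le_one_left b a).trans c

theorem s_SB : StSB := by
  intro ι _ _ r q t hr ht
  have hG := one_le_GG q hr ht
  have hG0 : 0 < GG r q t := by linarith
  have hn : ∀ σ, 0 ≤ sel r q t σ := fun σ => by
    rw [sel]; split_ifs; exacts [inv_nonneg.2 hG0.le, le_rfl]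
  have hl : ∀ σ, sel r q t σ ≠ 0 → LL q (SS σ ()) ≤ t := fun σ h => by
    by_contra hc
    exact h (if_neg hc)
  refine ⟨hG, ⟨hn, fun σ p => ?_⟩, ?_, fun σ => ?_, fun hq σ h => ?_, fun σ h p l e => ?_, ?_,
    fun u u' h => ?_⟩
  · by_cases h : LL q (SS σ ()) ≤ t
    · have : LL q (SS (Function.update σ p none) ()) ≤ t := (LL_mono q fun x hx => by
        rw [mem_SS] at hx ⊢
        by_cases e : x = p
        · subst e; simp at hx
        · rwa [Function.update_of_ne e] at hx).trans h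
      rw [sel, sel, if_pos h, if_pos this]
    · rw [sel, if_neg h]; exact hn _
  · have : QQ r (sel r q t) = ∑ s : Finset ι, (if LL q s ≤ t then hs r s else 0) *
        (GG r q t)⁻¹ ^ 2 := by
      rw [QQ, ← sum_unit]
      refine sum_congr rfl fun σ _ => ?_
      rw [hh_unit, sel]
      split_ifs <;> simp
    rw [this, ← sum_mul]
    change GG r q t * _ = _
    field_simp
  · rw [abs_of_nonneg (hn σ), sel]
    split_ifs
    · exact inv_le_one_of_one_le₀ hG
    · exact zero_le_one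
  · have e : (dn q σ : ℝ) = MP_fdd1d3_nt.dm q σ := by
      rw [dn, MP_fdd1d3_nt.dm, Nat.cast_prod]
      refine prod_congr rfl fun p _ => ?_
      cases σ p <;> simp
    rw [e, MP_fdd1d3_nt.dm_eq_exp q (fun p => hq p), Fintype.sum_unique]
    exact Real.exp_le_exp.2 (hl σ h)
  · exact (log_le_LL q ((mem_SS σ () p).2 e)).trans (hl σ h)
  · rw [Sel_eq, div_eq_one_iff_eq hG0.ne']
    simp [GG, hs]
  · rw [Sel_eq, Sel_eq]
    congr 1
    refine sum_congr rfl fun s _ => ?_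
    split_ifs with hs
    · exact prod_congr rfl fun p hp => by rw [h p ((log_le_LL q hp).trans hs)]
    · rfl

end Pool.Agent.MP_43e117_nt.PG

end
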