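import Pool.Agent.Mg.F436a94p.G397d9a

set_option linter.all false

section

/-!
The upper bound for the second moment under weights close to the matched ones.
-/

open Finset

noncomputable section

namespace Pool.Agent.MP_43e117_nt.PG

theorem s_GU (hSI : StSI) (hSD : StSD) (hTS : StTS) (hAV : StAV) : StGU := by
  intro ι J _ _ _ _ r k c Q Lb S μ C hk hk1 hc hr hCl hS hA
  have h0 : ∀ p, 0 ≤ r p := fun p => (hr p).1
  obtain ⟨a, ha⟩ : ∃ a, a = 7 * c * k := ⟨_, rfl⟩
  have hca : c ≤ a := by rw [ha]; nlinarith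
  have ha0 : 0 ≤ a := by linarith
  have hg : ∀ p, 0 ≤ if p ∈ S then 1 + k * r p else 1 := fun p => by
    have := h0 p
    split_ifs <;> positivity
  have h1 := hTS ι J 1 r μ (fun p o => (1 + a * r p ^ 2) * (if p ∈ S then 1 + k * r p else 1) *
      ((o.elim 1 fun _ => r p) * o.elim 1 fun _ => 1 + a * r p)) Lb C (fun p => (hCl p).1)
    (fun p o => by
      have := h0 p
      have := hg p
      cases o <;> simp only [Option.elim] <;> positivity) hS fun p v hv => by
      have hp := h0 p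
      have hL : 0 ≤ ∑ l, v (some l) ^ 2 := sum_nonneg fun _ _ => sq_nonneg _
      have hN := sq_nonneg (v none)
      rw [one_mul, one_mul, Fintype.sum_option (fun o => _ * v o ^ 2)]
      simp only [Option.elim, ← mul_sum]
      obtain ⟨c1, c2, c3⟩ := hCl p
      have hE : 0 ≤ a * r p ^ 2 := by positivity
      have hF : 0 ≤ r p * (a * r p) * ∑ l, v (some l) ^ 2 := by positivity
      by_cases hp' : p ∈ S
      · refine (hSD J k (1 + c * r p ^ 2) (r p) (μ p) v (Lb p) hk hp c1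
          (by linarith [(abs_le.1 c2).2]) (fun l hl => (c3 l hl).1 hp') hv).trans ?_
        rw [if_pos hp', mul_assoc (_ * _) (1 * 1), mul_assoc (_ * _) (r p * _), ← mul_add]
        refine mul_le_mul (mul_le_mul_of_nonneg_right (by nlinarith [sq_nonneg (r p)])
          (by positivity)) (by linarith) (by positivity) (by positivity)
      · have h2 := hSI J k c (r p) (μ p) v (Lb p) hk hk1 hc hp (by simpa using (hr p).2) c2
          (fun l hl => (c3 l hl).2 hp') hv
        rw [← ha] at h2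
        rw [if_neg hp']
        have h3 : 0 ≤ a * r p ^ 2 * (r p * (1 + a * r p) * ∑ l, v (some l) ^ 2) := by positivity
        linarith [(abs_le.1 h2).2]
  have h2 := hAV ι J r k a Q C hk ha0 h0 hA
  have h3 : ∏ p, (1 + a * r p ^ 2) ≤ Real.exp (a * eta r) := by
    rw [eta, mul_sum, Real.exp_sum]
    exact prod_le_prod (fun p _ => by positivity) fun p _ => by
      rw [add_comm]; exact Real.add_one_le_exp _
  have h4 : 0 ≤ ∑ σ, hh r σ * C σ ^ 2 * ∏ p, ((σ p).elim 1 fun _ => 1 + a * r p) :=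
    sum_nonneg fun σ _ => mul_nonneg (mul_nonneg (hh_nonneg h0 σ) (sq_nonneg _))
      (prod_nonneg fun p _ => by
        have := h0 p
        cases σ p <;> simp only [Option.elim] <;> positivity)
  have h5 : 0 ≤ Q := nonneg_of_mul_nonneg_right (h4.trans h2) (Real.exp_pos _)
  have h6 : 0 ≤ ∏ p ∈ S, (1 + k * r p) := prod_nonneg fun p _ => by
    have := h0 p
    positivity
  have h7 : 0 ≤ eta r := sum_nonneg fun _ _ => sq_nonneg _
  rw [one_mul, one_mul] at h1
  refine h1.trans ?_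
  simp only [prod_mul_distrib, prod_ite_mem, univ_inter]
  calc _ = (∏ p, (1 + a * r p ^ 2)) * (∏ p ∈ S, (1 + k * r p)) *
        ∑ σ, hh r σ * C σ ^ 2 * ∏ p, ((σ p).elim 1 fun _ => 1 + a * r p) := by
        rw [mul_sum]
        exact sum_congr rfl fun σ _ => by rw [hh]; ring
    _ ≤ Real.exp (a * eta r) * (∏ p ∈ S, (1 + k * r p)) * (Real.exp (a * k * eta r) * Q) :=
        mul_le_mul (mul_le_mul_of_nonneg_right h3 h6) h2 h4 (by positivity)
    _ = Real.exp ((a + a * k) * eta r) * (∏ p ∈ S, (1 + k * r p)) * Q := by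
        rw [add_mul, Real.exp_add]; ring
    _ ≤ _ := by
        gcongr
        rw [ha]
        nlinarith [mul_nonneg (mul_nonneg (zero_le_one.trans hc) (zero_le_one.trans hk1))
          (sub_nonneg.2 hk1)]

end Pool.Agent.MP_43e117_nt.PG

end
end

section

open Finset

noncomputable section

namespace Pool.Agent.MP_43e117_nt.PG

namespace MUA

variable {ι J : Type} [Fintype ι] [DecidableEq ι] [Fintype J] [DecidableEq J]
  {r : ι → ℝ} {k : ℝ}

omit [Fintype ι] [DecidableEq ι] in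
theorem sm {x y : ℝ} (h : Sm r x) (hy : y ≤ x) : Sm r y := fun p =>
  ⟨(h p).1, (mul_le_mul_of_nonneg_right hy (h p).1).trans (h p).2⟩

omit [Fintype ι] in
theorem cl_bp (h : Sm r 1) (hk : 0 ≤ k) (S : Finset ι) :
    Cl r (fun _ _ => True) S k (bp r k S) := fun p => by
  obtain ⟨h0, h1⟩ := h p
  have h2 : 0 ≤ k * r p ^ 2 := by positivity
  refine ⟨fun o => ?_, ?_, fun l _ => ⟨fun hp => if_pos hp, fun hp => ?_⟩⟩
  · cases o <;> simp only [bp] <;> split_ifs
    exacts [zero_le_one, by linarith, le_rfl, by positivity]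
  · rw [Fintype.sum_option, Fintype.sum_unique]
    simp only [bp]
    split_ifs
    · simpa using h2
    · rw [show 1 - r p + r p * (1 + k * r p) - 1 = k * r p ^ 2 by ring, abs_of_nonneg h2]
  · simp only [bp, if_neg hp]
    rw [show r p * (1 + k * r p) - r p = k * r p ^ 2 by ring, abs_of_nonneg h2]

omit [Fintype ι] [DecidableEq ι] in
theorem cl_bm (h : Sm r 1) : Cl r (fun _ _ => True) ∅ 1 (bm r) := fun p => by
  obtain ⟨h0, h1⟩ := h p
  refine ⟨fun o => ?_, ?_, fun l _ => ⟨fun hp => absurd hp (notMem_empty p), fun _ => ?_⟩⟩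
  · cases o
    · simp only [bm, mk, Fintype.sum_unique]; linarith
    · exact h0
  · simp [Fintype.sum_option, bm, mk, sq_nonneg]
  · simp [bm, mk, sq_nonneg]

omit [DecidableEq ι] in
theorem gg_mono (hr : ∀ p, 0 ≤ r p) (q : ι → ℕ) {x y : ℝ} (h : x ≤ y) : GG r q x ≤ GG r q y :=
  sum_le_sum fun s _ => by
    split_ifs with h1 h2
    exacts [le_rfl, absurd (h1.trans h) h2, prod_nonneg fun p _ => hr p, le_rfl]

omit [DecidableEq ι] in
theorem gg_nonneg (hr : ∀ p, 0 ≤ r p) (q : ι → ℕ) (x : ℝ) : 0 ≤ GG r q x :=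
  sum_nonneg fun s _ => by
    split_ifs
    exacts [prod_nonneg fun p _ => hr p, le_rfl]

omit [DecidableEq J] in
theorem qq_nonneg (hr : ∀ p, 0 ≤ r p) (C : (ι → Option J) → ℝ) : 0 ≤ QQ r C :=
  sum_nonneg fun σ _ => mul_nonneg (hh_nonneg hr σ) (sq_nonneg _)

omit [DecidableEq ι] in
theorem eta_nonneg (r : ι → ℝ) : 0 ≤ eta r := sum_nonneg fun _ _ => sq_nonneg _

omit [Fintype ι] [DecidableEq ι] in
theorem ind_nonneg (p : ι) (u : ι → Option Unit) : 0 ≤ ind p u := by
  unfold ind; split_ifs <;> norm_num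

omit [DecidableEq ι] in
theorem tt_nonneg {w : ι → ℝ} (hw : ∀ p, 0 ≤ w p) (u : ι → Option Unit) : 0 ≤ tt w u :=
  sum_nonneg fun p _ => mul_nonneg (hw p) (ind_nonneg p u)

omit [Fintype ι] [DecidableEq ι] in
theorem prod_exp (hr : ∀ p, 0 ≤ r p) (hk : 0 ≤ k) (S : Finset ι) :
    ∏ p ∈ S, (1 + k * r p) ≤ Real.exp (k * ∑ p ∈ S, r p) := by
  rw [mul_sum, Real.exp_sum]
  exact prod_le_prod (fun p _ => add_nonneg zero_le_one (mul_nonneg hk (hr p))) fun p _ => by
    rw [add_comm]; exact Real.add_one_le_exp _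

theorem exp_q {x : ℝ} (h : x ≤ 1 / 4) : Real.exp x ≤ 13 / 10 := by
  refine (Real.exp_le_exp.2 h).trans (le_of_pow_le_pow_left₀ (n := 4) (by norm_num) (by norm_num) ?_)
  rw [← Real.exp_nat_mul, show ((4 : ℕ) : ℝ) * (1 / 4) = 1 by norm_num]
  exact Real.exp_one_lt_d9.le.trans (by norm_num)

end MUA

open MUA

theorem s_MU (hGU : StGU) (hMA : StMA) (hLU : StLU) (hSB : StSB) : StMU := by
  intro ι J _ _ _ _ r q k t i j S C hJ hk hr hij ht hS hM
  have h0 : ∀ p, 0 ≤ r p := fun p => (hr p).1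
  have h1 : Sm r 1 := sm hr (by linarith)
  obtain ⟨g1, g2, g3, -⟩ := hSB ι r q t h0 ht
  have e1 := hLU ι J r k _ i j S (fun u => Sel r q t u ^ 2) C hJ hk (sm hr (by linarith)) hij
    (fun _ => sq_nonneg _) hS (hMA ι J r C h0 hM)
  have e2 := hGU ι Unit r 1 k _ (fun _ _ => True) S (bp r k S) (sel r q t) (by simp) le_rfl hk h1
    (cl_bp h1 (by linarith) S) (fun _ _ _ _ _ => trivial) (hMA ι Unit r _ h0 g2)
  rw [g3] at e2
  have hQ := qq_nonneg h0 C
  have hη := eta_nonneg r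
  have p1 := prod_exp h0 (by linarith : 0 ≤ k) S
  have p2 := prod_exp h0 zero_le_one S
  have p3 : 0 ≤ ∏ p ∈ S, (1 + k * r p) := prod_nonneg fun p _ => by have := h0 p; positivity
  have p5 : 0 ≤ ∏ p ∈ S, (1 + 1 * r p) := prod_nonneg fun p _ => by have := h0 p; positivity
  have p4 : 14 * k * 1 ^ 2 * eta r ≤ 14 * k ^ 2 * eta r :=
    mul_le_mul_of_nonneg_right (by nlinarith) hη
  refine e1.trans ((mul_le_mul_of_nonneg_left e2 (by positivity)).trans ?_)
  calc _ ≤ Real.exp (28 * k ^ 2 * eta r) * Real.exp (k * ∑ p ∈ S, r p) * QQ r C *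
        (Real.exp (14 * k ^ 2 * eta r) * Real.exp (1 * ∑ p ∈ S, r p) * (GG r q t)⁻¹) := by
        gcongr
    _ = _ := by
        rw [show 42 * k ^ 2 * eta r + (k + 1) * ∑ p ∈ S, r p = 28 * k ^ 2 * eta r +
          k * ∑ p ∈ S, r p + (14 * k ^ 2 * eta r + 1 * ∑ p ∈ S, r p) by ring]
        simp only [Real.exp_add]
        ring

theorem s_ML (hLL : StLL) (hTM : StTM) (hTP : StTP) (hSB : StSB) : StML := by
  intro ι J _ _ _ _ r w q k t i j C hJ hk hr hij ht hS hM hη hw hwt
  have h0 : ∀ p, 0 ≤ r p := fun p => (hr p).1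
  have h1 : Sm r 1 := sm hr (by linarith)
  have w0 : ∀ p, 0 ≤ w p := fun p => (hw p).1
  have g1 := (hSB ι r q t h0 ht).1
  have hη0 := eta_nonneg r
  have e3 : Real.exp (14 * 1 * eta r) ≤ 3 :=
    (Real.exp_le_exp.2 (by linarith)).trans (Real.exp_one_lt_d9.le.trans (by norm_num))
  refine le_trans ?_ (hLL ι J r k i j (fun u => tt w u * Sel r q t u ^ 2) C hJ hk hr hij
    (fun u => mul_nonneg (tt_nonneg w0 u) (sq_nonneg _)) hS hM)
  obtain ⟨e1, e2⟩ := hTM ι r w q t 1 (bm r) le_rfl (sm hr (by linarith)) ht (cl_bm h1) w0 hwt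
  have e4 := fun l => hTP ι r w q t 1 (GG r q t) (bm r) l le_rfl h1 ht (cl_bm h1) w0 hwt
    fun x hx => (sub_le_self _ (gg_nonneg h0 q _)).trans (gg_mono h0 q hx)
  have eb : ∀ p, bm r p (some ()) = r p := fun _ => rfl
  simp only [eb] at e1 e2 e4
  have E0 : 0 ≤ ∑ p, w p * r p := sum_nonneg fun p _ => mul_nonneg (w0 p) (h0 p)
  generalize ∑ p, w p * r p = E at *
  generalize GG r q t = G at *
  have G0 : 0 < G := by linarith
  have e5 : ∑ p, r p * Ex (bm r) (fun u => ind p u * (tt w u * Sel r q t u ^ 2)) ≤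
      eta r * (6 * (1 + E) / G) := by
    rw [eta, sum_mul]
    refine sum_le_sum fun p _ => (mul_le_mul_of_nonneg_left (e4 p) (h0 p)).trans ?_
    have a0 := h0 p
    have a1 : r p ^ 2 ≤ 1 := pow_le_one₀ a0 (by simpa using (h1 p).2)
    have a2 := (hw p).2
    have a3 := w0 p
    calc _ ≤ r p * (r p * (1 + E) * 3 * ((G + 1 * G) / G ^ 2)) := by gcongr
      _ = _ := by field_simp; ring
  have e6 : Ex (bm r) (fun u => tt w u * Sel r q t u ^ 2) ≤ E * 3 / G := e2.trans (by gcongr)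
  rw [mul_div_assoc]
  refine mul_le_mul_of_nonneg_left ?_ (qq_nonneg h0 C)
  have k2 : k ≤ k ^ 2 := by nlinarith
  have b1 := mul_le_mul_of_nonneg_left e6 (show 0 ≤ 28 * k ^ 2 * eta r by positivity)
  have b2 := mul_le_mul_of_nonneg_left e5 (show 0 ≤ k by linarith)
  have b3 : (E - 110 * k ^ 2 * eta r * (1 + E)) / G ≤ E * (1 - 14 * 1 * eta r) / G -
      28 * k ^ 2 * eta r * (E * 3 / G) - k * (eta r * (6 * (1 + E) / G)) := by
    have c1 : eta r * E ≤ k ^ 2 * (eta r * E) :=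
      le_mul_of_one_le_left (by positivity) (by linarith)
    have c2 : k * (eta r * (1 + E)) ≤ k ^ 2 * (eta r * (1 + E)) :=
      mul_le_mul_of_nonneg_right k2 (by positivity)
    have c3 : 0 ≤ k ^ 2 * eta r := by positivity
    have c4 : 0 ≤ k ^ 2 * (eta r * E) := by positivity
    rw [show E * (1 - 14 * 1 * eta r) / G - 28 * k ^ 2 * eta r * (E * 3 / G) -
      k * (eta r * (6 * (1 + E) / G)) = (E * (1 - 14 * 1 * eta r) - 28 * k ^ 2 * eta r * (E * 3) -
      k * (eta r * (6 * (1 + E)))) / G by ring]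
    exact div_le_div_of_nonneg_right (by linarith) G0.le
  linarith

theorem s_MG (hMA : StMA) (hLU : StLU) (hTP : StTP) (hSB : StSB) : StMG := by
  intro ι J _ _ _ _ r w I q k t i j Z C hJ hk hr hij ht hS hM hη w0 hwt hZ hI
  have h0 : ∀ p, 0 ≤ r p := fun p => (hr p).1
  have h1 : Sm r 1 := sm hr (by linarith)
  have g1 := (hSB ι r q t h0 ht).1
  have hη0 := eta_nonneg r
  have hQ := qq_nonneg h0 C
  refine (hLU ι J r k _ i j ∅ (fun u => (∑ l ∈ Z, ind l u) * (tt w u * Sel r q t u ^ 2)) C hJ hk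
    (sm hr (by linarith)) hij (fun u => mul_nonneg (sum_nonneg fun l _ => ind_nonneg l u)
      (mul_nonneg (tt_nonneg w0 u) (sq_nonneg _))) hS (hMA ι J r C h0 hM)).trans ?_
  have eb : ∀ p, 0 ≤ bp r k ∅ p (some ()) ∧ bp r k ∅ p (some ()) ≤ r p * (15 / 14) := fun p =>
    ⟨(cl_bp h1 (by linarith) ∅ p).1 _, by
      simp only [bp, if_neg (notMem_empty p)]
      exact mul_le_mul_of_nonneg_left (by linarith [(hr p).2]) (h0 p)⟩
  have E0 : 0 ≤ ∑ p, w p * r p := sum_nonneg fun p _ => mul_nonneg (w0 p) (h0 p)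
  have E1 : ∑ p, w p * bp r k ∅ p (some ()) ≤ (∑ p, w p * r p) * (15 / 14) := by
    rw [sum_mul]
    exact sum_le_sum fun p _ => by
      rw [mul_assoc]; exact mul_le_mul_of_nonneg_left (eb p).2 (w0 p)
  have E2 : 0 ≤ ∑ p, w p * bp r k ∅ p (some ()) := sum_nonneg fun p _ => mul_nonneg (w0 p) (eb p).1
  have I0 : ∀ l ∈ Z, 0 ≤ I l + r l ^ 2 * GG r q t := fun l hl =>
    add_nonneg ((sub_nonneg.2 (gg_mono h0 q (sub_le_self t (Real.log_natCast_nonneg _)))).trans
      (hI l hl t le_rfl)) (by positivity)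
  have e1 : Ex (bp r k ∅) (fun u => (∑ l ∈ Z, ind l u) * (tt w u * Sel r q t u ^ 2)) ≤
      (15 / 14) ^ 2 * (∑ p, w p * r p) * Real.exp (14 * k ^ 2 * eta r) *
        ((∑ l ∈ Z, r l * (I l + r l ^ 2 * GG r q t)) / GG r q t ^ 2) := by
    have a1 : Ex (bp r k ∅) (fun u => (∑ l ∈ Z, ind l u) * (tt w u * Sel r q t u ^ 2)) =
        ∑ l ∈ Z, Ex (bp r k ∅) fun u => ind l u * (tt w u * Sel r q t u ^ 2) := by
      simp only [Ex, sum_mul, mul_sum]
      exact sum_comm
    rw [a1, sum_div, mul_sum]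
    refine sum_le_sum fun l hl => (hTP ι r w q t k (I l) _ l hk h1 ht (cl_bp h1 (by linarith) ∅)
      w0 hwt (hI l hl)).trans ?_
    have a2 := I0 l hl
    have a3 := h0 l
    have a4 : 14 * k * eta r ≤ 14 * k ^ 2 * eta r := mul_le_mul_of_nonneg_right (by nlinarith) hη0
    rw [hZ l hl, zero_add]
    calc _ ≤ r l * (15 / 14) * ((∑ p, w p * r p) * (15 / 14)) * Real.exp (14 * k ^ 2 * eta r) *
          ((I l + r l ^ 2 * GG r q t) / GG r q t ^ 2) := by gcongr; exact (eb l).2
      _ = _ := by ring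
  have X0 : 0 ≤ (∑ l ∈ Z, r l * (I l + r l ^ 2 * GG r q t)) / GG r q t ^ 2 :=
    div_nonneg (sum_nonneg fun l hl => mul_nonneg (h0 l) (I0 l hl)) (sq_nonneg _)
  have e2 : Real.exp (28 * k ^ 2 * eta r) * Real.exp (14 * k ^ 2 * eta r) ≤ 13 / 10 := by
    rw [← Real.exp_add]
    exact exp_q (by linarith)
  rw [prod_empty, mul_one, mul_div_assoc]
  refine (mul_le_mul_of_nonneg_left e1 (by positivity)).trans ?_
  have e3 := mul_le_mul_of_nonneg_right e2 (mul_nonneg (mul_nonneg hQ E0) X0)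
  have e4 := mul_nonneg (mul_nonneg hQ E0) X0
  linarith

end Pool.Agent.MP_43e117_nt.PG

end
end

section

/-!
Products of combinations of divisibility conditions.
-/

open Finset

noncomputable section

namespace Pool.Agent.MP_43e117_nt.PG

namespace E2A

variable {ι J : Type} [Fintype ι] [DecidableEq ι] [Fintype J] [DecidableEq J]

/-- the join of two compatible labels -/
def ee (t t' s : Option J) : ℝ :=
  if (t = none ∨ t' = none ∨ t = t') ∧ s = t.or t' then 1 else 0

omit [Fintype J] in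
theorem ee_nonneg (t t' s : Option J) : 0 ≤ ee t t' s := by
  unfold ee
  split_ifs <;> norm_num

theorem site (t t' o : Option J) :
    ((if t = none ∨ o = t then 1 else 0) * if t' = none ∨ o = t' then 1 else 0 : ℝ) =
      ∑ s, ee t t' s * if s = none ∨ o = s then 1 else 0 := by
  rw [sum_eq_single (t.or t') (fun s _ hs => by simp [ee, hs]) (by simp)]
  rcases t with _ | a
  · simp [ee]
  · rcases t' with _ | b
    · simp [ee]
    · by_cases h : a = b
      · subst h
        by_cases h1 : o = some a <;> simp [ee, h1]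
      · by_cases h1 : o = some a <;> simp [ee, h1, h]

theorem mm_mul (τ τ' o : ι → Option J) :
    MM τ o * MM τ' o = ∑ ρ : ι → Option J, (∏ p, ee (τ p) (τ' p) (ρ p)) * MM ρ o := by
  unfold MM
  rw [← prod_mul_distrib, prod_congr rfl fun p _ => site (τ p) (τ' p) (o p), Fintype.prod_sum]
  exact sum_congr rfl fun ρ _ => prod_mul_distrib

omit [DecidableEq ι] [Fintype J] [DecidableEq J] in
theorem pow_ct (a : ℝ) (τ : ι → Option J) : a ^ ct τ = ∏ p, (τ p).elim 1 fun _ => a := by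
  rw [ct, ← prod_const, prod_filter]
  exact prod_congr rfl fun p _ => by cases τ p <;> simp

theorem site_sum (a a' : ℝ) (s : Option J) :
    ∑ t : Option J, ∑ t' : Option J,
      (t.elim 1 fun _ => a) * (t'.elim 1 fun _ => a') * ee t t' s =
      s.elim 1 fun _ => a + a' + a * a' := by
  rcases s with _ | l
  · simp [Fintype.sum_option, ee]
  · simp only [Fintype.sum_option, ee, Option.elim_none, Option.elim_some, Option.none_or,
      Option.some_or, true_or, or_true, reduceCtorEq, false_or, Option.some.injEq,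
      if_false, ite_and, mul_ite, mul_one, mul_zero, one_mul, sum_add_distrib,
      sum_ite_eq, mem_univ, if_true, zero_add]
    ring

end E2A

open E2A in
theorem s_E2 : StE2 := by
  intro ι J _ _ _ _ q Lb F F' D B a D' B' a' hq _ _ ⟨c, h1, h2⟩ ⟨c', h1', h2'⟩
  refine ⟨fun ρ => ∑ τ, ∑ τ', c τ * c' τ' * ∏ p, ee (τ p) (τ' p) (ρ p), fun o => ?_,
    fun ρ => ⟨?_, fun h => ?_⟩⟩
  · beta_reduce
    rw [h1, h1', sum_mul_sum]
    simp only [sum_mul]
    rw [sum_comm (s := univ) (t := univ)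
      (f := fun ρ τ => ∑ τ', c τ * c' τ' * (∏ p, ee (τ p) (τ' p) (ρ p)) * MM ρ o)]
    refine sum_congr rfl fun τ _ => ?_
    rw [sum_comm]
    refine sum_congr rfl fun τ' _ => ?_
    rw [mul_mul_mul_comm, mm_mul, mul_sum]
    exact sum_congr rfl fun ρ _ => (mul_assoc _ _ _).symm
  · rw [pow_ct, prod_congr rfl fun p _ => (site_sum a a' (ρ p)).symm, Fintype.prod_sum, mul_sum]
    refine (abs_sum_le_sum_abs _ _).trans (sum_le_sum fun τ _ => ?_)
    rw [Fintype.prod_sum, mul_sum]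
    refine (abs_sum_le_sum_abs _ _).trans (sum_le_sum fun τ' _ => ?_)
    have h0 : 0 ≤ ∏ p, ee (τ p) (τ' p) (ρ p) := prod_nonneg fun p _ => ee_nonneg _ _ _
    rw [abs_mul, abs_mul, abs_of_nonneg h0, prod_mul_distrib, prod_mul_distrib, ← pow_ct,
      ← pow_ct, ← mul_assoc, mul_mul_mul_comm]
    exact mul_le_mul_of_nonneg_right (mul_le_mul (h2 τ).1 (h2' τ').1 (abs_nonneg _)
      ((abs_nonneg _).trans (h2 τ).1)) h0
  · obtain ⟨τ, -, h⟩ := exists_ne_zero_of_sum_ne_zero h
    obtain ⟨τ', -, h⟩ := exists_ne_zero_of_sum_ne_zero h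
    obtain ⟨k1, k2⟩ := (h2 τ).2 (left_ne_zero_of_mul (left_ne_zero_of_mul h))
    obtain ⟨k1', k2'⟩ := (h2' τ').2 (right_ne_zero_of_mul (left_ne_zero_of_mul h))
    have hρ : ∀ p, ρ p = (τ p).or (τ' p) := fun p => by
      have := prod_ne_zero_iff.1 (right_ne_zero_of_mul h) p (mem_univ p)
      by_contra hn
      exact this (if_neg fun hh => hn hh.2)
    refine ⟨le_trans ?_ (mul_le_mul k1 k1' (Nat.cast_nonneg _) ((Nat.cast_nonneg _).trans k1)),
      fun p l hl => ?_⟩
    · rw [← Nat.cast_mul, Nat.cast_le, dn, dn, dn, ← prod_mul_distrib]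
      refine prod_le_prod' fun p _ => ?_
      rw [hρ p]
      have := hq p
      cases τ p <;> cases τ' p <;> simp
      exact Nat.le_mul_self _
    · rw [hρ p] at hl
      cases h3 : τ p with
      | none => exact k2' p l (by simpa [h3] using hl)
      | some b => exact k2 p l (by simpa [h3] using hl)

end Pool.Agent.MP_43e117_nt.PG

end
end
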