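import Pool.Agent.Mg.F436a94p.G204ca6

set_option linter.all false

/-!
The mean value over primitive characters for a convolution with a block of primes.
-/

open Finset Filter

noncomputable section

namespace Pool.Agent.MP_43e117_nt.PG

namespace PBA

/-- the primes of the block coprime to `e` -/
def aa (y1 y2 e p : ℕ) : ℂ := if p ∈ Ioc y1 y2 ∧ p.Coprime e then (th p : ℂ) else 0

/-- the second factor restricted to numbers coprime to `e` -/
def bb (b : ℕ → ℝ) (e n : ℕ) : ℂ := if n.Coprime e then (b n : ℂ) else 0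

theorem coef (y1 y2 e x : ℕ) (b : ℕ → ℝ) {m : ℕ} (hm : m ∈ Icc 1 x) :
    (if m.Coprime e then (bl y1 y2 b m : ℂ) else 0) =
      ∑ p ∈ (Icc 1 x).filter (fun p => p ∣ m), aa y1 y2 e p * bb b e (m / p) := by
  rw [mem_Icc] at hm
  split_ifs with h
  · have e1 : (Ioc y1 y2).filter (fun p => p ∣ m) =
        ((Icc 1 x).filter (fun p => p ∣ m)).filter (fun p => p ∈ Ioc y1 y2) := by
      ext p
      simp only [mem_filter, mem_Icc, mem_Ioc]
      exact ⟨fun t => ⟨⟨⟨by omega, (Nat.le_of_dvd (by omega) t.2).trans hm.2⟩, t.2⟩, t.1⟩,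
        fun t => ⟨t.2, t.1.2⟩⟩
    rw [bl, e1, sum_filter (fun p => p ∈ Ioc y1 y2), Complex.ofReal_sum]
    refine sum_congr rfl fun p hp => ?_
    have hd := (mem_filter.1 hp).2
    have c1 : p.Coprime e := h.coprime_dvd_left hd
    have c2 : (m / p).Coprime e := h.coprime_dvd_left (Nat.div_dvd_of_dvd hd)
    by_cases t : p ∈ Ioc y1 y2
    · rw [aa, bb, if_pos t, if_pos ⟨t, c1⟩, if_pos c2, Complex.ofReal_mul]
    · rw [aa, if_neg t, if_neg fun u => t u.1, zero_mul, Complex.ofReal_zero]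
  · refine (sum_eq_zero fun p hp => ?_).symm
    have hd := (mem_filter.1 hp).2
    by_cases c2 : (m / p).Coprime e
    · rw [aa, if_neg, zero_mul]
      intro u
      exact h (by rw [← Nat.mul_div_cancel' hd]; exact Nat.Coprime.mul_left u.2 c2)
    · rw [bb, if_neg c2, mul_zero]

theorem cs_eq (y1 y2 e x : ℕ) (b : ℕ → ℝ) {r : ℕ} (χ : DirichletCharacter ℂ r) :
    CS (bl y1 y2 b) (Icc 1 x) e χ = BS (aa y1 y2 e) (bb b e) x χ := by
  have h1 : CS (bl y1 y2 b) (Icc 1 x) e χ = ∑ m ∈ Icc 1 x, ∑ p ∈ Icc 1 x,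
      if p ∣ m then aa y1 y2 e p * bb b e (m / p) * χ (m : ZMod r) else 0 := by
    rw [CS, sum_filter]
    refine sum_congr rfl fun m hm => ?_
    rw [← sum_filter, ← sum_mul, ← coef y1 y2 e x b hm, ite_mul, zero_mul]
  rw [h1, sum_comm, BS]
  refine sum_congr rfl fun p hp => ?_
  rw [← sum_filter]
  have hp1 : 0 < p := (mem_Icc.1 hp).1
  refine sum_nbij' (fun m => m / p) (fun n => p * n) ?_ ?_ ?_ ?_ ?_
  · intro m hm
    simp only [mem_filter, mem_Icc] at hm ⊢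
    rw [Nat.mul_div_cancel' hm.2]
    exact ⟨⟨Nat.div_pos (Nat.le_of_dvd hm.1.1 hm.2) hp1, (Nat.div_le_self _ _).trans hm.1.2⟩,
      hm.1.2⟩
  · intro n hn
    simp only [mem_filter, mem_Icc] at hn ⊢
    exact ⟨⟨Nat.mul_pos hp1 hn.1.1, hn.2⟩, dvd_mul_right _ _⟩
  · intro m hm
    exact Nat.mul_div_cancel' (mem_filter.1 hm).2
  · intro n _
    exact Nat.mul_div_cancel_left n hp1
  · intro m hm
    rw [Nat.mul_div_cancel' (mem_filter.1 hm).2]

theorem inner (y1 y2 e x : ℕ) {r : ℕ} (χ : DirichletCharacter ℂ r) {K : ℝ} (hK : 0 ≤ K)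
    (h : ∀ y, y1 ≤ y → y ≤ x → ‖CS th (Icc 1 y) e χ‖ ≤ y * K) {n : ℕ} (hn : 0 < n) :
    ‖∑ m ∈ (Icc 1 x).filter (fun m => m * n ≤ x), aa y1 y2 e m * χ (m : ZMod r)‖ ≤
      2 * K * x * (n : ℝ)⁻¹ := by
  have hx : x / n ≤ x := Nat.div_le_self _ _
  have e1 : ∑ m ∈ (Icc 1 x).filter (fun m => m * n ≤ x), aa y1 y2 e m * χ (m : ZMod r) =
      CS th (Ioc y1 (min y2 (x / n))) e χ := by
    simp only [aa, ite_mul, zero_mul]
    rw [← sum_filter, CS]
    refine sum_congr ?_ fun _ _ => rfl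
    ext m
    simp only [mem_filter, mem_Icc, mem_Ioc, le_min_iff, Nat.le_div_iff_mul_le hn]
    refine ⟨fun t => ⟨⟨t.2.1.1, t.2.1.2, t.1.2⟩, t.2.2⟩, fun t => ⟨⟨⟨by omega, ?_⟩, t.1.2.2⟩,
      ⟨t.1.1, t.1.2.1⟩, t.2⟩⟩
    exact (Nat.le_mul_of_pos_right m hn).trans t.1.2.2
  rw [e1]
  have h0 : (0 : ℝ) ≤ 2 * K * x * (n : ℝ)⁻¹ := by positivity
  rcases le_total (min y2 (x / n)) y1 with t | t
  · rw [Ioc_eq_empty (not_lt.2 t)]
    simpa [CS] using h0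
  · have hy : min y2 (x / n) ≤ x / n := min_le_right _ _
    have e2 : CS th (Ioc y1 (min y2 (x / n))) e χ =
        CS th (Icc 1 (min y2 (x / n))) e χ - CS th (Icc 1 y1) e χ := by
      simp only [CS, sum_filter]
      rw [eq_sub_iff_add_eq']
      exact sum_Ioc_consecutive _ (Nat.zero_le y1) t
    have c1 : ((min y2 (x / n) : ℕ) : ℝ) ≤ x * (n : ℝ)⁻¹ :=
      (Nat.cast_le.2 hy).trans Nat.cast_div_le
    have c2 : (y1 : ℝ) ≤ x * (n : ℝ)⁻¹ := (Nat.cast_le.2 t).trans c1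
    rw [e2]
    refine (norm_sub_le _ _).trans ?_
    have := h _ t (hy.trans hx)
    have := h y1 le_rfl (t.trans (hy.trans hx))
    nlinarith [mul_le_mul_of_nonneg_right c1 hK, mul_le_mul_of_nonneg_right c2 hK]

theorem small (y1 y2 e x : ℕ) {r : ℕ} (χ : DirichletCharacter ℂ r) {K β : ℝ} (hK : 0 ≤ K)
    (h : ∀ y, y1 ≤ y → y ≤ x → ‖CS th (Icc 1 y) e χ‖ ≤ y * K) {b : ℕ → ℂ}
    (hb : ∀ n, ‖b n‖ ≤ β) :
    ‖BS (aa y1 y2 e) b x χ‖ ≤ β * (2 * K * x) * (1 + Real.log x) := by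
  have hβ : 0 ≤ β := (norm_nonneg _).trans (hb 0)
  have e1 : BS (aa y1 y2 e) b x χ = ∑ n ∈ Icc 1 x, b n * χ (n : ZMod r) *
      ∑ m ∈ (Icc 1 x).filter (fun m => m * n ≤ x), aa y1 y2 e m * χ (m : ZMod r) := by
    simp only [BS, sum_filter, mul_sum]
    rw [sum_comm]
    refine sum_congr rfl fun n _ => sum_congr rfl fun m _ => ?_
    split_ifs
    · rw [Nat.cast_mul, map_mul]
      ring
    · rw [mul_zero]
  have hh : ∑ n ∈ Icc 1 x, (n : ℝ)⁻¹ ≤ 1 + Real.log x := by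
    have := harmonic_le_one_add_log x
    rw [harmonic_eq_sum_Icc] at this
    simpa using this
  rw [e1]
  refine (norm_sum_le _ _).trans (le_trans (sum_le_sum fun n hn => ?_)
    ((mul_sum _ _ _).symm.le.trans (mul_le_mul_of_nonneg_left hh (by positivity))))
  rw [norm_mul, norm_mul, mul_assoc β]
  refine mul_le_mul ?_ (inner y1 y2 e x χ hK h (mem_Icc.1 hn).1) (norm_nonneg _) hβ
  exact (mul_le_of_le_one_right (norm_nonneg _) (χ.norm_le_one _)).trans (hb n)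

theorem triv (a b : ℕ → ℂ) (x : ℕ) {r : ℕ} (χ : DirichletCharacter ℂ r) :
    ‖BS a b x χ‖ ≤ (∑ m ∈ Icc 1 x, ‖a m‖) * ∑ n ∈ Icc 1 x, ‖b n‖ := by
  rw [BS, sum_mul]
  refine (norm_sum_le _ _).trans (sum_le_sum fun m _ => (norm_sum_le _ _).trans ?_)
  rw [mul_sum]
  refine le_trans (sum_le_sum fun n _ => ?_)
    (sum_le_sum_of_subset_of_nonneg (filter_subset _ _) fun _ _ _ => by positivity)
  rw [norm_mul, norm_mul]
  exact mul_le_of_le_one_right (by positivity) (χ.norm_le_one _)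

theorem supp {f : ℕ → ℂ} {Y β : ℝ} (hY : 0 ≤ Y) (h0 : ∀ n, f n ≠ 0 → (n : ℝ) ≤ Y)
    (h : ∀ n, ‖f n‖ ≤ β) (x : ℕ) : ∑ n ∈ Icc 1 x, ‖f n‖ ≤ Y * β := by
  classical
  have hβ : 0 ≤ β := (norm_nonneg _).trans (h 0)
  rw [← sum_filter_ne_zero]
  refine (sum_le_card_nsmul _ _ β fun n _ => h n).trans ?_
  rw [nsmul_eq_mul]
  refine mul_le_mul_of_nonneg_right (le_trans (Nat.cast_le.2 ?_) (Nat.floor_le hY)) hβ
  refine (card_le_card (t := Icc 1 ⌊Y⌋₊) fun n hn => ?_).trans (by simp)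
  rw [mem_filter, mem_Icc] at hn
  exact mem_Icc.2 ⟨hn.1.1, Nat.le_floor (h0 n (norm_ne_zero_iff.1 hn.2))⟩

theorem sqs {f : ℕ → ℂ} {β : ℝ} (h : ∀ n, ‖f n‖ ≤ β) (y : ℕ) :
    ∑ n ∈ Icc 1 y, ‖f n‖ ^ 2 ≤ β ^ 2 * y := by
  refine (sum_le_card_nsmul _ _ (β ^ 2) fun n _ =>
    pow_le_pow_left₀ (norm_nonneg _) (h n) 2).trans ?_
  simp [mul_comm]

theorem avg (hPm : StPm) (g : (r : ℕ) → DirichletCharacter ℂ r → ℝ) (D1 D2 : ℕ) {M : ℝ}
    (hM : 0 ≤ M) (h : ∀ r ∈ Ioc D1 D2, ∀ χ ∈ pm r, g r χ ≤ M) :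
    ∑ r ∈ Ioc D1 D2, (1 / (r : ℝ)) * ∑ χ ∈ pm r, g r χ ≤ D2 * M := by
  refine (sum_le_card_nsmul _ _ M fun r hr => ?_).trans ?_
  · have h1 : 1 ≤ r := by have := (mem_Ioc.1 hr).1; omega
    have h2 : (0 : ℝ) < r := by exact_mod_cast h1
    have h3 := sum_le_card_nsmul _ _ M (h r hr)
    rw [nsmul_eq_mul] at h3
    rw [one_div, inv_mul_le_iff₀ h2]
    exact h3.trans (mul_le_mul_of_nonneg_right (Nat.cast_le.2 (hPm r h1).1) hM)
  · rw [nsmul_eq_mul, Nat.card_Ioc]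
    exact mul_le_mul_of_nonneg_right (Nat.cast_le.2 (Nat.sub_le _ _)) hM

theorem split (a b : ℕ → ℂ) (V : ℝ) (x : ℕ) {r : ℕ} (χ : DirichletCharacter ℂ r) :
    BS a b x χ = BS a (fun n => if V < n then b n else 0) x χ +
      BS a (fun n => if V < n then 0 else b n) x χ := by
  simp only [BS, ← sum_add_distrib]
  refine sum_congr rfl fun m _ => sum_congr rfl fun n _ => ?_
  split_ifs <;> simp

theorem ev (k : ℕ) {ε : ℝ} (hε : 0 < ε) :
    ∀ᶠ N : ℕ in atTop, Real.log N ^ k ≤ (N : ℝ) ^ ε := by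
  have h := (isLittleO_log_rpow_rpow_atTop (k : ℝ) hε).eventuallyLE
  filter_upwards [tendsto_natCast_atTop_atTop.eventually h] with N hN
  rw [Real.rpow_natCast, Real.norm_eq_abs, Real.norm_eq_abs,
    abs_of_nonneg (Real.rpow_nonneg (Nat.cast_nonneg _) _)] at hN
  exact (le_abs_self _).trans hN

end PBA

open PBA in
theorem s_PB (hPm : StPm) (hB2 : StB2) (hSW : StSW) : StPB := by
  intro δ B0 A hδ _
  obtain ⟨c, hc, hB⟩ := hB2
  have hlog : Tendsto (fun N : ℕ => Real.log N) atTop atTop :=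
    Real.tendsto_log_atTop.comp tendsto_natCast_atTop_atTop
  filter_upwards [hSW (A + 5 + (A + 2)) (A + 5), ev (A + 5) hδ,
    ev (A + 5) (by norm_num : (0 : ℝ) < 1 / 20), hlog.eventually_ge_atTop 1,
    hlog.eventually_ge_atTop ((270 * c + 13) * B0), eventually_ge_atTop 1]
    with N hS hY hW hL hL2 hN x e y1 y2 b hx1 hx2 he hy1 hy2 hb
  have hβ : 0 ≤ B0 := (abs_nonneg _).trans (hb 0)
  have hN1 : (1 : ℝ) ≤ N := by exact_mod_cast hN
  have hN0 : (0 : ℝ) < N := by linarith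
  have pw : ∀ k : ℕ, (N : ℝ) ^ ((k : ℝ) / 20) = ((N : ℝ) ^ (1 / 20 : ℝ)) ^ k := fun k => by
    rw [← Real.rpow_natCast, ← Real.rpow_mul hN0.le]
    exact congrArg _ (by ring)
  have hW1 : (1 : ℝ) ≤ (N : ℝ) ^ (1 / 20 : ℝ) := Real.one_le_rpow hN1 (by norm_num)
  have hY1 : (1 : ℝ) ≤ (N : ℝ) ^ δ := Real.one_le_rpow hN1 hδ.le
  have p2 := pw 2
  have p5 := pw 5
  have p10 := pw 10
  have p20 := pw 20
  have hD : (⌊(N : ℝ) ^ (1 / 2 - δ)⌋₊ : ℝ) * (N : ℝ) ^ δ ≤ ((N : ℝ) ^ (1 / 20 : ℝ)) ^ 10 := by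
    rw [← p10, show ((10 : ℕ) : ℝ) / 20 = 1 / 2 - δ + δ by push_cast; ring, Real.rpow_add hN0]
    exact mul_le_mul_of_nonneg_right (Nat.floor_le (by positivity)) (by positivity)
  rw [show ((2 : ℕ) : ℝ) / 20 = 1 / 10 by norm_num] at p2
  rw [show ((5 : ℕ) : ℝ) / 20 = 1 / 4 by norm_num] at p5
  rw [show ((20 : ℕ) : ℝ) / 20 = 1 by norm_num, Real.rpow_one] at p20
  rw [p5] at hy2
  simp only [p2] at hS hy1
  have hx2' : (x : ℝ) ≤ 2 * N := by exact_mod_cast hx2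
  have hx1' : (N : ℝ) ≤ x := by exact_mod_cast hx1
  have hlx : 1 + Real.log x ≤ 3 * Real.log N := by
    have h1 := Real.log_le_log (by linarith) hx2'
    rw [Real.log_mul (by norm_num) hN0.ne'] at h1
    linarith [Real.log_two_lt_d9]
  have hlx0 : 0 ≤ Real.log x := Real.log_natCast_nonneg x
  have ha : ∀ m, ‖aa y1 y2 e m‖ ≤ Real.log N := fun m => by
    unfold aa th
    split_ifs with h1 h2
    · rw [Complex.norm_real, Real.norm_eq_abs, abs_of_nonneg (Real.log_natCast_nonneg m)]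
      refine Real.log_le_log (by exact_mod_cast h2.pos) ?_
      refine (Nat.cast_le.2 (mem_Ioc.1 h1.1).2).trans (hy2.trans ?_)
      exact (pow_le_pow_right₀ hW1 (by norm_num)).trans p20.ge
    · simpa using zero_le_one.trans hL
    · simpa using zero_le_one.trans hL
  have ha0 : ∀ m, aa y1 y2 e m ≠ 0 → m ∈ Ioc y1 y2 := fun m h => by
    by_contra t
    exact h (if_neg fun u => t u.1)
  have hb1 : ∀ n, ‖bb b e n‖ ≤ B0 := fun n => by
    unfold bb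
    split_ifs
    · simpa using hb n
    · simpa using hβ
  generalize (N : ℝ) ^ (1 / 20 : ℝ) = W at *
  generalize (N : ℝ) ^ δ = Y at *
  generalize ⌊(N : ℝ) ^ (1 / 2 - δ)⌋₊ = D at *
  generalize Real.log N = L at *
  have hT : 1 ≤ L ^ (A + 5) := one_le_pow₀ hL
  have hL0 : 0 < L := by linarith
  have hD1 : 1 ≤ ⌊L ^ (A + 5)⌋₊ := Nat.le_floor (by simpa using hT)
  have hD2 : (⌊L ^ (A + 5)⌋₊ : ℝ) ≤ L ^ (A + 5) := Nat.floor_le (by positivity)
  have hD3 : L ^ (A + 5) ≤ 2 * (⌊L ^ (A + 5)⌋₊ : ℝ) := by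
    have h1 := Nat.lt_floor_add_one (L ^ (A + 5))
    have h2 : (1 : ℝ) ≤ ⌊L ^ (A + 5)⌋₊ := by exact_mod_cast hD1
    linarith
  generalize ⌊L ^ (A + 5)⌋₊ = D1 at *
  have hDW : (D : ℝ) ≤ W ^ 10 := (le_mul_of_one_le_right (Nat.cast_nonneg _) hY1).trans hD
  have hDx : D ≤ x := by
    have : (D : ℝ) ≤ x :=
      hDW.trans (((pow_le_pow_right₀ hW1 (by norm_num)).trans p20.ge).trans hx1')
    exact_mod_cast this
  have b2 : ∀ n : ℕ, ‖if W ^ 2 < n then bb b e n else 0‖ ≤ B0 := fun n => by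
    split_ifs
    · exact hb1 n
    · simpa using hβ
  have b3 : ∀ n : ℕ, ‖if W ^ 2 < n then 0 else bb b e n‖ ≤ B0 := fun n => by
    split_ifs
    · simpa using hβ
    · exact hb1 n
  have s1 := avg hPm (fun r χ => ‖BS (aa y1 y2 e) (bb b e) x χ‖) 1 D1
    (M := B0 * (2 * (L ^ (A + 5 + (A + 2)))⁻¹ * x) * (1 + Real.log x)) (by positivity)
    fun r hr χ hχ => small y1 y2 e x χ (by positivity) (fun y t1 t2 =>
      hS y e r χ (hy1.trans (Nat.cast_le.2 t1)) (t2.trans hx2) he (mem_Ioc.1 hr).1.le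
        ((Nat.cast_le.2 (mem_Ioc.1 hr).2).trans hD2)
        ((hPm r (mem_Ioc.1 hr).1.le).2 (mem_Ioc.1 hr).1 χ hχ)) hb1
  have s2 := hB x D1 D (W ^ 2) (W ^ 2) L B0 (aa y1 y2 e)
    (fun n => if W ^ 2 < n then bb b e n else 0) hD1 hDx (one_le_pow₀ hW1) (one_le_pow₀ hW1)
    hL0.le hβ (fun m h => hy1.trans_lt (Nat.cast_lt.2 (mem_Ioc.1 (ha0 m h)).1))
    (fun n h => by by_contra t; exact h (if_neg t)) (fun y _ => sqs ha y) (fun y _ => sqs b2 y)
  have s3 := avg hPm (fun r χ => ‖BS (aa y1 y2 e) (fun n => if W ^ 2 < n then 0 else bb b e n)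
    x χ‖) D1 D (M := W ^ 5 * L * (W ^ 2 * B0)) (by positivity) fun r _ χ _ =>
      (triv _ _ x χ).trans (mul_le_mul (supp (by positivity) (fun m h =>
        (Nat.cast_le.2 (mem_Ioc.1 (ha0 m h)).2).trans hy2) ha x)
        (supp (by positivity) (fun n h => by
          by_contra t; exact h (if_pos (not_le.1 t))) b3 x)
        (by positivity) (by positivity))
  have s0 : PS (bl y1 y2 b) (Icc 1 x) e 1 D ≤
      ∑ r ∈ Ioc 1 D1, (1 / (r : ℝ)) * ∑ χ ∈ pm r, ‖BS (aa y1 y2 e) (bb b e) x χ‖ +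
      (∑ r ∈ Ioc D1 D, (1 / (r : ℝ)) * ∑ χ ∈ pm r,
        ‖BS (aa y1 y2 e) (fun n => if W ^ 2 < n then bb b e n else 0) x χ‖ +
      ∑ r ∈ Ioc D1 D, (1 / (r : ℝ)) * ∑ χ ∈ pm r,
        ‖BS (aa y1 y2 e) (fun n => if W ^ 2 < n then 0 else bb b e n) x χ‖) := by
    simp only [PS, cs_eq]
    refine (sum_le_sum_of_subset_of_nonneg (t := Ioc 1 D1 ∪ Ioc D1 D) (fun r hr => by
      simp only [mem_union, mem_Ioc] at hr ⊢; omega) fun _ _ _ => by positivity).trans ?_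
    rw [sum_union (Ioc_disjoint_Ioc_of_le le_rfl), ← sum_add_distrib]
    refine add_le_add le_rfl (sum_le_sum fun r _ => ?_)
    rw [← mul_add, ← sum_add_distrib]
    refine mul_le_mul_of_nonneg_left (sum_le_sum fun χ _ => ?_) (by positivity)
    rw [split _ (bb b e) (W ^ 2)]
    exact norm_add_le _ _
  rw [Real.sqrt_sq (by linarith)] at s2
  have hsx : √(x : ℝ) ≤ 2 * W ^ 10 := by
    rw [Real.sqrt_le_left (by positivity)]
    nlinarith [show (2 * W ^ 10) ^ 2 = 4 * W ^ 20 by ring]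
  have q0 : (0 : ℝ) < D1 := by exact_mod_cast hD1
  have q1 : (x : ℝ) / D1 ≤ 4 * N / L ^ (A + 5) := by
    rw [div_le_div_iff₀ q0 (by positivity)]
    nlinarith [mul_le_mul hx2' hD3 (by positivity) (by positivity)]
  have q2 : (x : ℝ) / W ≤ 2 * N / L ^ (A + 5) :=
    div_le_div₀ (by positivity) hx2' (by positivity) hW
  have q3 : D * √(x : ℝ) ≤ 2 * N / L ^ (A + 5) := by
    rw [le_div_iff₀ (by positivity)]
    calc _ ≤ D * (2 * W ^ 10) * Y := by gcongr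
      _ = D * Y * (2 * W ^ 10) := by ring
      _ ≤ W ^ 10 * (2 * W ^ 10) := by gcongr
      _ = 2 * N := by rw [p20]; ring
  have t1 : D1 * (B0 * (2 * (L ^ (A + 5 + (A + 2)))⁻¹ * x) * (1 + Real.log x)) ≤
      12 * B0 * (N / L ^ (A + 1)) := by
    calc _ ≤ L ^ (A + 5) * (B0 * (2 * (L ^ (A + 5 + (A + 2)))⁻¹ * (2 * N)) * (3 * L)) := by
          gcongr
      _ = _ := by field_simp; ring
  have t2 : c * L * B0 * (1 + Real.log x) ^ 3 * (x / D1 + x / W + x / W + D * √(x : ℝ)) ≤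
      270 * c * B0 * (N / L ^ (A + 1)) := by
    calc _ ≤ c * L * B0 * (3 * L) ^ 3 * (4 * N / L ^ (A + 5) + 2 * N / L ^ (A + 5) +
          2 * N / L ^ (A + 5) + 2 * N / L ^ (A + 5)) := by gcongr
      _ = _ := by field_simp; ring
  have t3 : D * (W ^ 5 * L * (W ^ 2 * B0)) ≤ B0 * (N / L ^ (A + 1)) := by
    have u1 : L ^ (A + 2) ≤ W ^ 3 := ((pow_le_pow_right₀ hL (by omega)).trans hW).trans
      (le_self_pow₀ hW1 (by norm_num))
    rw [← mul_div_assoc, le_div_iff₀ (by positivity)]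
    calc _ = D * W ^ 7 * B0 * L ^ (A + 2) := by ring
      _ ≤ W ^ 10 * W ^ 7 * B0 * W ^ 3 := by gcongr
      _ = _ := by rw [p20]; ring
  calc _ ≤ (270 * c + 13) * B0 * (N / L ^ (A + 1)) := by linarith
    _ ≤ L * (N / L ^ (A + 1)) := by gcongr
    _ = _ := by field_simp; ring

end Pool.Agent.MP_43e117_nt.PG
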