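import Pool.Agent.Mg.F436a94p.Gcdf306

set_option linter.all false

section

/-!
Increments and asymptotics of the function `GA`.
-/

open Finset Filter

noncomputable section

namespace Pool.Agent.MP_43e117_nt.PG

namespace GAA

theorem HW_neg (w : ℕ) {a : ℝ} (h : a < 0) : HW w a = 0 := by
  have : ⌊Real.exp a⌋₊ = 0 := Nat.floor_eq_zero.2 (Real.exp_lt_one_iff.2 h)
  simp [HW, this]

theorem GA_neg (w R : ℕ) {t : ℝ} (h : t < 0) : GA w R t = 0 := by
  unfold GA GG
  exact sum_eq_zero fun s _ => if_neg (not_le.2 (h.trans_le (MP_fdd1d3_nt.LL_nonneg _ s)))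

theorem inc (hHH : StHH) (w : ℕ) : ∃ C : ℝ, 0 ≤ C ∧ (∀ t : ℝ, 0 ≤ t → VV w * t - C ≤ HW w t) ∧
    ∀ a b : ℝ, a ≤ b → HW w b - HW w a ≤ VV w * (b - a) + C := by
  obtain ⟨C, hC⟩ := hHH w
  have h0 : 0 ≤ C := (abs_nonneg _).trans (hC 0 le_rfl)
  have hV := VV_pos w
  refine ⟨2 * C, by linarith, fun t ht => by linarith [(abs_le.1 (hC t ht)).1], fun a b h => ?_⟩
  rcases lt_or_ge b 0 with hb | hb
  · rw [HW_neg w hb, HW_neg w (h.trans_lt hb)]
    nlinarith [mul_nonneg hV.le (sub_nonneg.2 h)]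
  · have h1 := (abs_le.1 (hC b hb)).2
    rcases lt_or_ge a 0 with ha | ha
    · rw [HW_neg w ha]
      nlinarith [mul_nonneg hV.le (neg_nonneg.2 ha.le)]
    · have h2 := (abs_le.1 (hC a ha)).1
      nlinarith

theorem exp_le {x : ℝ} (h : 4 ≤ x) : Real.exp (2 / x) ≤ 1 + 4 / x := by
  have h0 : 0 < x := by linarith
  refine (Real.exp_bound_div_one_sub_of_interval (by positivity)
    ((div_lt_one h0).2 (by linarith))).trans ?_
  have h1 : 0 < 1 - 2 / x := sub_pos.2 ((div_lt_one h0).2 (by linarith))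
  have h2 : 2 / x ≤ 1 / 2 := (div_le_iff₀ h0).2 (by linarith)
  have h3 : 0 ≤ 2 / x := by positivity
  have h4 : 4 / x = 2 * (2 / x) := by ring
  rw [div_le_iff₀ h1, h4]
  nlinarith

end GAA

open GAA

theorem s_GI (hHH : StHH) (hG1 : StG1) : StGI := by
  refine ⟨8, fun w hw => ?_⟩
  obtain ⟨C, h0, -, hC⟩ := inc hHH w
  refine ⟨3 / 2 * C, by positivity, fun R t' t h => (hG1 w R C (by omega) hC t' t h).trans ?_⟩
  have h1 : (8 : ℝ) ≤ w := by exact_mod_cast hw
  have h2 := exp_le (x := w) (by linarith)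
  have h3 : (4 : ℝ) / w ≤ 1 / 2 := (div_le_iff₀ (by linarith)).2 (by linarith)
  have h4 : 0 ≤ VV w * (t - t') + C := add_nonneg (mul_nonneg (VV_pos w).le (sub_nonneg.2 h)) h0
  nlinarith [mul_le_mul_of_nonneg_right (h2.trans (by linarith : 1 + (4 : ℝ) / w ≤ 3 / 2)) h4]

theorem s_GA (hHH : StHH) (hG1 : StG1) (hG2 : StG2) : StGA := by
  intro ε hε
  refine ⟨⌈8 / ε⌉₊ + 4, fun w hw => ?_⟩
  obtain ⟨C, h0, hL, hC⟩ := inc hHH w
  have hV := VV_pos w
  have h1 : 8 / ε + 4 ≤ w :=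
    le_trans (by linarith [Nat.le_ceil (8 / ε)]) (by exact_mod_cast hw : (⌈8 / ε⌉₊ : ℝ) + 4 ≤ w)
  have h2 : 0 < 8 / ε := by positivity
  have hw0 : (0 : ℝ) < w := by linarith
  have h3 : (4 : ℝ) / w ≤ ε / 2 := by
    have : 8 / ε ≤ w := by linarith
    rw [div_le_iff₀ hε] at this
    rw [div_le_iff₀ hw0]
    linarith
  have h4 : Real.exp (2 / w) ≤ 1 + ε / 2 := (exp_le (by linarith)).trans (by linarith)
  have h5 : (1 : ℝ) / w ≤ ε / 2 := le_trans (by gcongr; norm_num) h3
  filter_upwards [(Real.tendsto_log_atTop.comp tendsto_natCast_atTop_atTop).eventually_ge_atTop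
    ((1 + ε / 2) * (VV w + C) / (ε / 2 * VV w))] with R hR t ht
  rw [Function.comp_apply, div_le_iff₀ (by positivity)] at hR
  rcases lt_or_ge t 0 with h | h
  · rw [GA_neg w R h, max_eq_right h.le, mul_zero, sub_zero, abs_zero]
    exact mul_nonneg (by positivity) (Real.log_natCast_nonneg R)
  · have a1 := hG1 w R C (by omega) hC (-1) t (by linarith)
    have a2 := hG2 w R C (by omega) hC (-1) t (by linarith) ht
    rw [GA_neg w R (by norm_num : (-1 : ℝ) < 0)] at a1 a2
    rw [HW_neg w (by norm_num : (-1 : ℝ) < 0), div_eq_mul_one_div] at a2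
    have a3 : 0 ≤ VV w * (t - -1) + C := add_nonneg (mul_nonneg hV.le (by linarith)) h0
    have a4 := mul_le_mul_of_nonneg_right h4 a3
    have a5 := mul_le_mul_of_nonneg_left h5 a3
    have a6 := mul_le_mul_of_nonneg_left ht (by positivity : 0 ≤ ε / 2 * VV w)
    have a7 := hL t h
    rw [max_eq_left h, abs_le]
    constructor <;> nlinarith

end Pool.Agent.MP_43e117_nt.PG

end
end

section

/-!
The limit shape of the sieve weight at numbers with few prime factors.
-/

open Finset Filter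

noncomputable section

namespace Pool.Agent.MP_43e117_nt.PG

namespace PHA

/-- the shifted sum -/
def Ps (t c : ℝ) (T : Finset ℕ) : ℝ :=
  ∑ v ∈ T.powerset, (-1) ^ v.card * max 0 (1 - (c + ∑ p ∈ v, Real.log p) / t)

theorem phi_eq (t : ℝ) (T : Finset ℕ) : Phi t T = Ps t 0 T := by
  simp only [Phi, Ps, zero_add]

theorem ps_empty (t c : ℝ) : Ps t c ∅ = max 0 (1 - c / t) := by
  simp [Ps]

theorem ps_insert (t c : ℝ) {p : ℕ} {s : Finset ℕ} (hp : p ∉ s) :
    Ps t c (insert p s) = Ps t c s - Ps t (c + Real.log p) s := by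
  unfold Ps
  rw [sum_powerset_insert hp, sub_eq_add_neg, ← sum_neg_distrib]
  congr 1
  refine sum_congr rfl fun v hv => ?_
  have h : p ∉ v := fun h => hp (mem_powerset.1 hv h)
  rw [card_insert_of_notMem h, sum_insert h, pow_succ, add_assoc]
  ring

theorem ps_big {t c : ℝ} (ht : 0 < t) {s : Finset ℕ} (h : ∀ a ∈ s, t ≤ c + Real.log a) :
    Ps t c s = max 0 (1 - c / t) := by
  unfold Ps
  rw [sum_eq_single ∅]
  · simp
  · intro v hv h0
    obtain ⟨a, ha⟩ := nonempty_iff_ne_empty.2 h0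
    have h1 := h a (mem_powerset.1 hv ha)
    have h2 : Real.log a ≤ ∑ p ∈ v, Real.log p :=
      single_le_sum (f := fun p : ℕ => Real.log p) (fun p _ => Real.log_natCast_nonneg p) ha
    rw [max_eq_left, mul_zero]
    rw [sub_nonpos, one_le_div ht]
    linarith
  · simp

theorem mx (x : ℝ) : max 0 (1 - x) = 1 - min 1 x := by
  rcases le_total 1 x with h | h
  · rw [max_eq_left (by linarith), min_eq_left h, sub_self]
  · rw [max_eq_right (by linarith), min_eq_right h]

theorem pair_le {x y : ℝ} (hx : 0 ≤ x) (hy : 0 ≤ y) :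
    |min 1 x + min 1 y - min 1 (x + y)| ≤ 1 := by
  rw [abs_le]
  simp only [min_def]
  split_ifs <;> constructor <;> linarith

theorem pair_ge {x y z : ℝ} (hx : 21 / 200 < x) (hy : 21 / 200 < y) (hz : 180 / 200 < z)
    (hz' : z ≤ 181 / 200) (h : x + y ≤ 218 / 200 ∨ 221 / 200 ≤ x + y) :
    1 / 200 ≤ |min 1 x + min 1 y - min 1 (x + y) - (1 - z)| := by
  rw [le_abs]
  simp only [min_def]
  rcases h with h | h
  · right
    split_ifs <;> linarith
  · left
    split_ifs <;> linarith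

end PHA

open PHA

theorem s_PH : StPH := by
  intro t ht
  refine ⟨?_, fun a => ?_, fun a b hab => ?_, fun q s hq hs => ?_, fun p s hp hs => ?_⟩
  · simp [phi_eq, ps_empty]
  · rw [phi_eq, ← insert_empty_eq, ps_insert _ _ (notMem_empty _), ps_empty, ps_empty, mx, mx]
    simp
  · rw [phi_eq, ps_insert _ _ (notMem_singleton.2 hab), ← insert_empty_eq,
      ps_insert _ _ (notMem_empty _), ps_insert _ _ (notMem_empty _)]
    simp only [ps_empty, mx, zero_add, zero_div, min_eq_right (zero_le_one' ℝ)]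
    ring
  · rw [phi_eq, phi_eq, ps_insert _ _ hs, zero_add, ps_big ht (c := Real.log q) fun a _ => by
      linarith [Real.log_natCast_nonneg a], max_eq_left, sub_zero]
    rwa [sub_nonpos, one_le_div ht]
  · rw [phi_eq, phi_eq, ps_insert _ _ hp, zero_add, ps_big ht hs]

theorem s_PG (hPH : StPH) : StPG := by
  rintro e m he ⟨s, q, rfl, hq, hq1, hlt, hc, hs, h2⟩
  have hqs : q ∉ s := fun h => lt_irrefl _ (hlt q h)
  have h0 : ∏ p ∈ s, p ≠ 0 := prod_ne_zero_iff.2 fun p hp => (hs p hp).1.ne_zero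
  have e1 : ((∏ p ∈ s, p) * q).primeFactors = insert q s := by
    rw [Nat.primeFactors_mul h0 hq.ne_zero, Nat.primeFactors_prod fun p hp => (hs p hp).1,
      hq.primeFactors, union_comm, ← insert_eq]
  have cs : s = ∅ ∨ (∃ a, s = {a}) ∨ ∃ a b, a ≠ b ∧ s = {a, b} := by
    rw [← card_eq_zero, ← card_eq_one, ← card_eq_two]
    omega
  obtain ⟨a0, a1, a2, a3, -⟩ := hPH (109 * e) (by positivity)
  obtain ⟨b0, b1, b2, b3, b4⟩ := hPH (200 * e) (by positivity)
  have nn : ∀ a : ℕ, 0 ≤ Real.log a / (109 * e) := fun a =>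
    div_nonneg (Real.log_natCast_nonneg a) (by positivity)
  have he2 : 0 < 200 * e := by positivity
  refine ⟨?_, ?_, ?_, ?_, fun p hp hp1 hp2 => ?_⟩
  · rw [e1, card_insert_of_notMem hqs]
    omega
  · rw [e1]
    intro p hp
    rcases mem_insert.1 hp with rfl | hp
    · linarith
    · exact (hs p hp).2.1
  · exact hq.one_lt.trans_le (Nat.le_mul_of_pos_left _ (Nat.pos_of_ne_zero h0))
  · rw [e1, a3 q s (by linarith) hqs]
    rcases cs with rfl | ⟨a, rfl⟩ | ⟨a, b, hab, rfl⟩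
    · rw [a0, abs_one]
    · rw [a1, abs_of_nonneg (le_min zero_le_one (nn a))]
      exact min_le_left _ _
    · rw [a2 a b hab, add_div]
      exact pair_le (nn a) (nn b)
  have hps : p ∉ s := fun h => (hs p h).2.2 ⟨hp1, hp2⟩
  have hpq : q ≠ p := by
    rintro rfl
    linarith
  have hq' : q ∉ insert p s := by
    rw [mem_insert, not_or]
    exact ⟨hpq, hqs⟩
  have e2 : (p * ((∏ p ∈ s, p) * q)).primeFactors = insert q (insert p s) := by
    rw [Nat.primeFactors_mul hp.ne_zero (mul_ne_zero h0 hq.ne_zero), e1, hp.primeFactors,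
      ← insert_eq, insert_comm]
  rw [e2, card_insert_of_notMem hq', card_insert_of_notMem hps]
  refine ⟨by omega, ?_⟩
  have z1 : 180 / 200 < Real.log p / (200 * e) := by
    rw [lt_div_iff₀ he2]
    linarith
  have z2 : Real.log p / (200 * e) ≤ 181 / 200 := by
    rw [div_le_iff₀ he2]
    linarith
  have x1 : ∀ a ∈ s, 21 / 200 < Real.log a / (200 * e) := fun a ha => by
    rw [lt_div_iff₀ he2]
    linarith [(hs a ha).2.1]
  rw [b3 q _ hq1.le hq', b4 p s hps fun a ha => by linarith [(hs a ha).2.1],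
    max_eq_right (by linarith)]
  rcases cs with rfl | ⟨a, rfl⟩ | ⟨a, b, hab, rfl⟩
  · rw [b0]
    exact le_abs.2 (Or.inl (by linarith))
  · have := x1 a (mem_singleton_self a)
    rw [b1, min_def]
    refine le_abs.2 (Or.inl ?_)
    split_ifs <;> linarith
  · rw [b2 a b hab, add_div]
    refine pair_ge (x1 a (by simp)) (x1 b (by simp)) z1 z2 ?_
    have h3 := h2 (card_pair hab)
    rw [sum_pair hab] at h3
    rw [← add_div, div_le_iff₀ he2, le_div_iff₀ he2]
    exact h3.imp (fun h => by linarith) fun h => by linarith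

end Pool.Agent.MP_43e117_nt.PG

end
end

section

/-!
The pointwise inequalities for the weights.
-/

open Finset Filter

noncomputable section

namespace Pool.Agent.MP_43e117_nt.PG

namespace W1A

theorem ee_pos {R : ℕ} (hR : 2 ≤ R) : 0 < ee R :=
  div_pos (Real.log_pos (by exact_mod_cast hR)) (by norm_num)

theorem log_eq (R : ℕ) : Real.log R = 200 * ee R := by
  rw [ee]; ring

theorem ww_nonneg (w R : ℕ) (p : Si w R) : 0 ≤ ww w R p := by
  rw [ww]
  split_ifs
  · exact div_nonneg (Real.log_natCast_nonneg _) (Real.log_natCast_nonneg _)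
  · exact le_rfl

theorem ww_ne {w R : ℕ} {p : Si w R} (h : ww w R p ≠ 0) :
    180 * ee R < Real.log p.1 ∧ Real.log p.1 ≤ 181 * ee R := by
  by_contra h1
  exact h (if_neg h1)

theorem ind_st1 (w R m : ℕ) (p : Si w R) : ind p (st1 w R m) = if p.1 ∣ m then 1 else 0 := by
  by_cases h : p.1 ∣ m <;> simp [ind, st1, h]

theorem Tm_eq (w R m : ℕ) : Tm w R m =
    ∑ p : Si w R, if p.1 ∣ m then ww w R p * SA w R (109 * ee R) m ^ 2 else 0 := by
  rw [Tm, tt, sum_mul]
  refine sum_congr rfl fun p _ => ?_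
  rw [ind_st1]
  split_ifs <;> ring

theorem nz_nonneg (w R m : ℕ) : 0 ≤ nz w R m :=
  sum_nonneg fun p _ => by rw [ind_st1]; split_ifs <;> norm_num

theorem one_le_nz {w R m : ℕ} {l : Si w R} (h1 : l.1 ∣ m) (h2 : Real.log l.1 ≤ ee R) :
    1 ≤ nz w R m := by
  have h3 : l ∈ ZZ w R := mem_filter.2 ⟨mem_univ _, h2⟩
  have h4 := single_le_sum (f := fun l => ind l (st1 w R m)) (s := ZZ w R)
    (fun p _ => by rw [ind_st1]; split_ifs <;> norm_num) h3
  rw [ind_st1, if_pos h1] at h4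
  exact h4

theorem SA_div (hSB : StSB) (hSi : StSi) {w R m : ℕ} (hw : 2 ≤ w) (hR : 2 ≤ R) {p : Si w R}
    (hp : p.1 ∣ m) (h : ww w R p ≠ 0) :
    SA w R (109 * ee R) (m / p.1) = SA w R (109 * ee R) m := by
  have he := ee_pos hR
  refine (hSB _ (rr w R) (qq w R) _ (fun p => ((hSi w R hw).1 p).1)
    (by positivity)).2.2.2.2.2.2.2 _ _ fun l hl => ?_
  have h1 : l.1 ≠ p.1 := fun h2 => by
    have h3 := (ww_ne h).1
    rw [qq, h2] at hl
    linarith
  have h2 : l.1 ∣ m / p.1 ↔ l.1 ∣ m := by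
    refine ⟨fun h3 => h3.trans (Nat.div_dvd_of_dvd hp), fun h3 => ?_⟩
    rw [← Nat.mul_div_cancel' hp] at h3
    exact ((Nat.coprime_primes (si_mem l).2.2 (si_mem p).2.2).2 h1).dvd_of_dvd_mul_left h3
  simp only [st1, h2]

theorem card_dv {w R m : ℕ} (hm : m ≠ 0) : (dv w R m).card ≤ m.primeFactors.card :=
  card_le_card_of_injOn (fun p => p.1)
    (fun p hp => mem_coe.2 (Nat.mem_primeFactors.2
      ⟨(si_mem p).2.2, (mem_filter.1 (mem_coe.1 hp)).2, hm⟩))
    fun _ _ _ _ h => Subtype.ext h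

end W1A

open W1A

theorem s_W1 (hSB : StSB) (hSi : StSi) (hEt : StEt) (hPG : StPG) (hPV : StPV) : StW1 := by
  have h0 : Ew fun w R => 2 ≤ w ∧ 2 ≤ R :=
    ⟨2, fun w hw => (eventually_ge_atTop 2).mono fun R hR => ⟨hw, hR⟩⟩
  refine (h0.and (hEt.and (hPV (1 / 400) (by norm_num)))).mono ?_
  rintro w R ⟨⟨hw, hR⟩, ⟨-, -, -, -, hww, -⟩, hV⟩ m hm
  have he := ee_pos hR
  have hL := log_eq R
  have hm0 : m ≠ 0 := by omega
  split_ifs with hp
  · have h1 : ∀ p : Si w R, ¬ p.1 ∣ m := fun p h => by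
      have h2 := (Nat.prime_dvd_prime_iff_eq (si_mem p).2.2 hp).1 h
      have h3 := (si_mem p).2.1
      omega
    have h2 : st1 w R m = fun _ => none := funext fun p => if_neg (h1 p)
    have h3 : TG w R m = 0 := sum_eq_zero fun p _ => if_neg fun h => h1 p h.1
    have h4 : SA w R (Real.log R) m = 1 := by
      rw [SA, h2]
      exact (hSB _ (rr w R) (qq w R) _ (fun p => ((hSi w R hw).1 p).1)
        (Real.log_natCast_nonneg _)).2.2.2.2.2.2.1
    rw [h3, h4]
    norm_num
  · by_cases h1 : TG w R m = 0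
    · rw [h1, mul_zero, sub_zero]
      positivity
    obtain ⟨p, -, h2⟩ := exists_ne_zero_of_sum_ne_zero h1
    have h3 : p.1 ∣ m ∧ Good (ee R) (m / p.1) := by
      by_contra h3
      exact h2 (if_neg h3)
    rw [if_pos h3] at h2
    obtain ⟨h4, h5⟩ := ww_ne (left_ne_zero_of_mul h2)
    obtain ⟨-, a2, a3, -, a5⟩ := hPG _ _ he h3.2
    obtain ⟨b1, b2⟩ := a5 p.1 (si_mem p).2.2 h4 h5
    rw [Nat.mul_div_cancel' h3.1] at b1 b2
    have b3 : ∀ l ∈ m.primeFactors, ee R < Real.log l := fun l hl => by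
      obtain ⟨c1, c2, -⟩ := Nat.mem_primeFactors.1 hl
      rw [← Nat.mul_div_cancel' h3.1] at c2
      rcases (Nat.Prime.dvd_mul c1).1 c2 with c3 | c3
      · rw [(Nat.prime_dvd_prime_iff_eq c1 (si_mem p).2.2).1 c3]
        linarith
      · have := a2 l (Nat.mem_primeFactors.2 ⟨c1, c3, by omega⟩)
        linarith
    have b4 := hV (Real.log R) m (by linarith) le_rfl hm0 b3 b1
    rw [← hL] at b2
    have b5 : 1 / 400 ≤ |SA w R (Real.log R) m| := by
      have := abs_sub_abs_le_abs_sub (Phi (Real.log R) m.primeFactors) (SA w R (Real.log R) m)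
      rw [abs_sub_comm] at this
      linarith
    have b6 : (1 / 400 : ℝ) ^ 2 ≤ SA w R (Real.log R) m ^ 2 := by
      rw [← sq_abs (SA w R (Real.log R) m)]
      exact pow_le_pow_left₀ (by norm_num) b5 2
    have b7 : TG w R m ≤ ∑ l : Si w R, if l.1 ∣ m then (4 : ℝ) else 0 := by
      refine sum_le_sum fun l _ => ?_
      by_cases c1 : l.1 ∣ m ∧ Good (ee R) (m / l.1)
      · rw [if_pos c1, if_pos c1.1]
        obtain ⟨d1, d2, d3, d4, -⟩ := hPG _ _ he c1.2
        have d5 := hV (109 * ee R) (m / l.1) (by linarith) (by linarith) (by omega)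
          (fun x hx => by have := d2 x hx; linarith) (by omega)
        have d6 : |SA w R (109 * ee R) (m / l.1)| ≤ 2 := by
          have := abs_sub_abs_le_abs_sub (SA w R (109 * ee R) (m / l.1))
            (Phi (109 * ee R) (m / l.1).primeFactors)
          linarith
        have d7 : SA w R (109 * ee R) (m / l.1) ^ 2 ≤ 2 ^ 2 := by
          rw [← sq_abs (SA w R (109 * ee R) (m / l.1))]
          exact pow_le_pow_left₀ (abs_nonneg _) d6 2
        have d8 := mul_le_mul (hww l).2 d7 (sq_nonneg _) zero_le_one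
        linarith
      · rw [if_neg c1]
        split_ifs <;> norm_num
    rw [← sum_filter, sum_const, nsmul_eq_mul] at b7
    have b8 : ((dv w R m).card : ℝ) ≤ 4 := by exact_mod_cast (card_dv hm0).trans b1
    have b9 : TG w R m ≤ ((dv w R m).card : ℝ) * 4 := b7
    linarith

theorem s_W2 (hSB : StSB) (hSi : StSi) : StW2 := by
  classical
  intro w R m hw hR hm hl
  have key : ∀ p : Si w R,
      (if p.1 ∣ m then ww w R p * SA w R (109 * ee R) m ^ 2 else 0) -
          (if p.1 ∣ m then ww w R p * bb w R (m / p.1) else 0) -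
          nz w R m * (if p.1 ∣ m then ww w R p * SA w R (109 * ee R) m ^ 2 else 0) ≤
        (if p.1 ∣ m ∧ Good (ee R) (m / p.1) then
          ww w R p * SA w R (109 * ee R) (m / p.1) ^ 2 else 0) ∧
      (if p.1 ∣ m then ww w R p * bb w R (m / p.1) else 0) ≤
        (if p.1 ∣ m then ww w R p * SA w R (109 * ee R) m ^ 2 else 0) -
          (if p.1 ∣ m ∧ Good (ee R) (m / p.1) then
            ww w R p * SA w R (109 * ee R) (m / p.1) ^ 2 else 0) ∧
      0 ≤ (if p.1 ∣ m then ww w R p * bb w R (m / p.1) else 0) := fun p => by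
    by_cases h1 : p.1 ∣ m
    swap
    · simp [h1]
    by_cases h2 : ww w R p = 0
    · simp [h2]
    have h3 := SA_div hSB hSi hw hR h1 h2
    have h4 : 0 ≤ ww w R p * SA w R (109 * ee R) m ^ 2 :=
      mul_nonneg (ww_nonneg w R p) (sq_nonneg _)
    have h5 := mul_nonneg (nz_nonneg w R m) h4
    rw [if_pos h1, if_pos h1, bb, h3]
    by_cases h6 : Good (ee R) (m / p.1)
    · rw [if_pos (And.intro h1 h6),
        if_neg fun h : Rough w R (m / p.1) ∧ ¬ Good (ee R) (m / p.1) => h.2 h6, mul_zero]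
      exact ⟨by linarith, by linarith, le_rfl⟩
    rw [if_neg fun h : p.1 ∣ m ∧ Good (ee R) (m / p.1) => h6 h.2]
    by_cases h7 : Rough w R (m / p.1)
    · rw [if_pos ⟨h7, h6⟩]
      exact ⟨by linarith, by linarith, h4⟩
    rw [if_neg fun h => h7 h.1, mul_zero]
    have h8 : m / p.1 ≠ 0 := fun h => hm (by rw [← Nat.mul_div_cancel' h1, h, mul_zero])
    have h9 : Real.log (m / p.1 : ℕ) ≤ 802 * ee R :=
      (Real.log_le_log (Nat.cast_pos.2 (Nat.pos_of_ne_zero h8))
        (Nat.cast_le.2 (Nat.div_le_self _ _))).trans hl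
    obtain ⟨l, c1, c2⟩ : ∃ l : Si w R, l.1 ∣ m / p.1 ∧ Real.log l.1 ≤ ee R := by
      by_contra h
      push Not at h
      exact h7 ⟨h8, h9, h⟩
    have c3 := mul_le_mul_of_nonneg_right (one_le_nz (c1.trans (Nat.div_dvd_of_dvd h1)) c2) h4
    exact ⟨by linarith, by linarith, le_rfl⟩
  rw [Tm_eq, fb, TG, mul_sum, ← sum_sub_distrib, ← sum_sub_distrib, ← sum_sub_distrib]
  exact ⟨sum_le_sum fun p _ => (key p).1, sum_le_sum fun p _ => (key p).2.1,
    sum_nonneg fun p _ => (key p).2.2⟩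

end Pool.Agent.MP_43e117_nt.PG

end
end

section

/-!
From the statement on four cells to a structure statement on the exceptional set.
-/

open Finset

namespace Pool.Agent.MP_43e117_nt.PG

namespace C1A

/-- `r` cells of size `n`, each in one class modulo `W`, with no good difference -/
def Conf (P : ℕ → Prop) (W : ℕ) (r n : ℕ) : Prop :=
  ∃ (A : Fin r → Finset ℤ) (c : Fin r → ℤ),
    (∀ i, (A i).card = n ∧ (c i % 6 = 0 ∨ c i % 6 = 2) ∧ ∀ a ∈ A i, a % (W : ℤ) = c i) ∧
    ∀ i j, i ≠ j → ∀ a ∈ A i, ∀ b ∈ A j, a ≠ b ∧ ¬ P (a - b).natAbs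

theorem miss {ι : Type} [Fintype ι] (f : ι → ℤ) {p : ℕ} (h : Fintype.card ι < p) :
    ∃ t : ℤ, ∀ i, ¬ (p : ℤ) ∣ f i - t := by
  by_contra hc
  push Not at hc
  have : NeZero p := ⟨by omega⟩
  have h1 := Fintype.card_le_of_surjective (fun i => (f i : ZMod p)) fun y => by
    obtain ⟨i, hi⟩ := hc (y.val : ℤ)
    refine ⟨i, ?_⟩
    have := (ZMod.intCast_eq_intCast_iff_dvd_sub _ _ _).2 hi
    simpa using this.symm
  rw [ZMod.card] at h1
  omega

theorem not_four {P : ℕ → Prop} {K : ℕ} (hK : ∀ h : Fin 4 × Fin K → ℕ, Function.Injective h →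
    (∀ p : ℕ, p.Prime → ∃ c : ℕ, ∀ l, ¬ p ∣ c + h l) →
    ∃ i j, i.1 ≠ j.1 ∧ h i < h j ∧ P (h j - h i)) : ¬ Conf P (6 * (4 * K).factorial) 4 K := by
  rintro ⟨A, c, h1, h2⟩
  let g : Fin 4 × Fin K → ℤ := fun l => (equivFinOfCardEq (h1 l.1).1).symm l.2
  have gm : ∀ l, g l ∈ A l.1 := fun l => ((equivFinOfCardEq (h1 l.1).1).symm l.2).2
  have gi : Function.Injective g := by
    rintro ⟨i, k⟩ ⟨j, k'⟩ e
    by_cases hij : i = j
    · subst hij
      exact congrArg (Prod.mk i) ((equivFinOfCardEq (h1 i).1).symm.injective (Subtype.ext e))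
    · exact absurd e (h2 i j hij _ (gm (i, k)) _ (gm (j, k'))).1
  obtain ⟨M, hM⟩ : ∃ M : ℤ, ∀ l, 0 ≤ g l + M := by
    refine ⟨∑ l, |g l|, fun l => ?_⟩
    have := single_le_sum (f := fun l => |g l|) (fun l _ => abs_nonneg _) (mem_univ l)
    linarith [neg_abs_le (g l)]
  have g6 : ∀ l, g l % 6 = 0 ∨ g l % 6 = 2 := fun l => by
    have e := (h1 l.1).2.2 _ (gm l)
    have := (h1 l.1).2.1
    rwa [← e, Int.emod_emod_of_dvd _ (by push_cast; exact dvd_mul_right _ _)] at this
  obtain ⟨i, j, hij, hlt, hP⟩ := hK (fun l => (g l + M).toNat) (fun l l' e => gi (by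
      have h3 := hM l
      have h4 := hM l'
      simp only at e
      omega)) fun p hp => by
    obtain ⟨t, ht⟩ : ∃ t : ℤ, ∀ l, ¬ (p : ℤ) ∣ g l - t := by
      by_cases h3 : 4 * K < p
      · exact miss g (by simpa using h3)
      by_cases h4 : 4 < p
      · obtain ⟨t, ht⟩ := miss c (p := p) (by simpa using h4)
        refine ⟨t, fun l h => ht l.1 ?_⟩
        have h5 : (p : ℤ) ∣ ((6 * (4 * K).factorial : ℕ) : ℤ) := Int.natCast_dvd_natCast.2
          ((Nat.dvd_factorial hp.pos (not_lt.1 h3)).mul_left _)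
        have h6 := h5.trans (Int.dvd_self_sub_of_emod_eq ((h1 l.1).2.2 _ (gm l)))
        have h7 := h.sub h6
        rwa [sub_sub_sub_cancel_left] at h7
      · have h5 := hp.two_le
        have h6 : p ≠ 4 := fun e => by rw [e] at hp; norm_num at hp
        refine ⟨1, fun l h => ?_⟩
        have h7 := g6 l
        obtain rfl | rfl : p = 2 ∨ p = 3 := by omega
        all_goals push_cast at h; omega
    have hp0 : (p : ℤ) ≠ 0 := by exact_mod_cast hp.ne_zero
    refine ⟨((-t - M) % p).toNat, fun l h => ht l ?_⟩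
    have h3 := Int.natCast_dvd_natCast.2 h
    rw [Nat.cast_add, Int.toNat_of_nonneg (Int.emod_nonneg _ hp0), Int.toNat_of_nonneg (hM l),
      Int.emod_def] at h3
    have h4 := h3.add (dvd_mul_right (p : ℤ) ((-t - M) / p))
    rwa [show -t - M - p * ((-t - M) / p) + (g l + M) + p * ((-t - M) / p) = g l - t by ring] at h4
  refine (h2 j.1 i.1 hij.symm _ (gm j) _ (gm i)).2 ?_
  have h3 := hM i
  have h4 := hM j
  rwa [show (g j - g i).natAbs = (g j + M).toNat - (g i + M).toNat by omega]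

theorem step {P : ℕ → Prop} {W r K : ℕ} (hW : 6 ∣ W) (hW0 : 0 < W) (hr : r ≤ 3)
    (h : ∀ n, Conf P W r n) (hn : ¬ Conf P W (r + 1) K) : Str P := by
  classical
  have hW' : (6 : ℤ) ∣ W := by exact_mod_cast hW
  refine ⟨K, fun n => ?_⟩
  obtain ⟨A, c, h1, h2⟩ := h n
  refine ⟨r, A, fun i => c i % 6, hr, fun i => ⟨(h1 i).1, (h1 i).2.1, fun a ha => ?_⟩, ?_⟩
  · show a % 6 = c i % 6
    rw [← (h1 i).2.2 a ha, Int.emod_emod_of_dvd _ hW']
  refine Set.Finite.of_sdiff ?_ (univ.biUnion A).finite_toSet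
  refine Set.Finite.of_finite_fibers
    (fun x : ℤ => (x % (W : ℤ), fun i => (A i).filter fun a => ¬ P (x - a).natAbs))
    (((Ico (0 : ℤ) W) ×ˢ Fintype.piFinset fun i => (A i).powerset).finite_toSet.subset ?_) ?_
  · rintro _ ⟨x, -, rfl⟩
    exact mem_coe.2 (mem_product.2 ⟨mem_Ico.2 ⟨Int.emod_nonneg _ (by omega),
      Int.emod_lt_of_pos _ (by omega)⟩,
      Fintype.mem_piFinset.2 fun i => mem_powerset.2 (filter_subset _ _)⟩)
  rintro _ ⟨x, hx, rfl⟩
  by_contra hc
  obtain ⟨B, hB, hB'⟩ := Set.Infinite.exists_subset_card_eq hc K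
  choose A' h3 h4 using fun i => exists_subset_card_eq (hx.1.2 i)
  have h5 : ∀ i, ∀ a ∈ B, ∀ b ∈ A' i, a ≠ b ∧ ¬ P (a - b).natAbs := fun i a ha b hb => by
    obtain ⟨h6, h7⟩ := hB ha
    have h8 := h3 i hb
    have h9 : ((A i).filter fun b => ¬ P (a - b).natAbs) =
        (A i).filter fun b => ¬ P (x - b).natAbs := congrFun (Prod.ext_iff.1 h7).2 i
    rw [← h9] at h8
    exact ⟨fun e => h6.2 (mem_coe.2 (mem_biUnion.2 ⟨i, mem_univ _, e ▸ (mem_filter.1 h8).1⟩)),
      (mem_filter.1 h8).2⟩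
  refine hn ⟨Fin.cons B A', Fin.cons (x % W) c, fun i => ?_, fun i j hij => ?_⟩
  · refine Fin.cases ⟨hB', ?_, fun a ha => (Prod.ext_iff.1 (hB ha).2).1⟩ (fun i => ⟨h4 i,
      (h1 i).2.1, fun a ha => (h1 i).2.2 a (mem_filter.1 (h3 i ha)).1⟩) i
    rw [Fin.cons_zero, Int.emod_emod_of_dvd _ hW']
    exact hx.1.1
  · induction i using Fin.cases with
    | zero =>
      induction j using Fin.cases with
      | zero => exact absurd rfl hij
      | succ j => exact h5 j
    | succ i =>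
      induction j using Fin.cases with
      | zero =>
        intro a ha b hb
        have h6 := h5 i b hb a ha
        rw [← Int.natAbs_neg, neg_sub] at h6
        exact ⟨h6.1.symm, h6.2⟩
      | succ j =>
        exact fun a ha b hb => h2 i j (fun e => hij (congrArg _ e)) a
          (mem_filter.1 (h3 i ha)).1 b (mem_filter.1 (h3 j hb)).1

end C1A

theorem s_C1 : StC1 := by
  rintro P ⟨K, hK⟩
  by_contra hS
  have h : ∀ r ≤ 4, ∀ n, C1A.Conf P (6 * (4 * K).factorial) r n := by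
    intro r
    induction r with
    | zero => exact fun _ _ => ⟨Fin.elim0, Fin.elim0, fun i => i.elim0, fun i => i.elim0⟩
    | succ r ih =>
      intro hr n
      by_contra hn
      exact hS (C1A.step (dvd_mul_right _ _) (by positivity) (by omega) (ih (by omega)) hn)
  exact C1A.not_four hK (h 4 le_rfl K)

end Pool.Agent.MP_43e117_nt.PG

end
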