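import Pool.Agent.Mg.F436a94p.G204ca6

set_option linter.all false

/-!
From the mean values over primitive characters to the level of distribution.
-/

open Finset Filter

noncomputable section

namespace Pool.Agent.MP_43e117_nt.PG

namespace BVA

theorem ps_sub (f : ℕ → ℝ) {x1 x2 : ℕ} (h : x1 ≤ x2) (e D1 D2 : ℕ) :
    PS f (Ioc x1 x2) e D1 D2 ≤ PS f (Icc 1 x2) e D1 D2 + PS f (Icc 1 x1) e D1 D2 := by
  unfold PS
  rw [← sum_add_distrib]
  refine sum_le_sum fun r _ => ?_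
  rw [← mul_add, ← sum_add_distrib]
  refine mul_le_mul_of_nonneg_left (sum_le_sum fun χ _ => ?_) (by positivity)
  have e1 : CS f (Ioc x1 x2) e χ = CS f (Icc 1 x2) e χ - CS f (Icc 1 x1) e χ := by
    have i1 : ∀ x : ℕ, Icc 1 x = Ioc 0 x := fun x => rfl
    unfold CS
    rw [i1, i1, sum_filter, sum_filter, sum_filter, ← sum_Ioc_consecutive _ (Nat.zero_le x1) h]
    ring
  rw [e1]
  exact norm_sub_le _ _

theorem th_nonneg (n : ℕ) : 0 ≤ th n := by
  unfold th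
  split_ifs
  · exact Real.log_natCast_nonneg n
  · exact le_rfl

theorem th_le (n : ℕ) : th n ≤ ArithmeticFunction.vonMangoldt n := by
  unfold th
  split_ifs with h
  · rw [ArithmeticFunction.vonMangoldt_apply_prime h]
  · exact ArithmeticFunction.vonMangoldt_nonneg

theorem bl_le (y1 y2 : ℕ) {b : ℕ → ℝ} {B0 : ℝ} (hb : ∀ n, |b n| ≤ B0) {m : ℕ} (hm : m ≠ 0) :
    |bl y1 y2 b m| ≤ B0 * Real.log m := by
  have h0 : 0 ≤ B0 := (abs_nonneg _).trans (hb 0)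
  unfold bl
  refine (abs_sum_le_sum_abs _ _).trans ?_
  rw [← ArithmeticFunction.vonMangoldt_sum, mul_sum]
  refine (sum_le_sum fun p _ => ?_).trans (sum_le_sum_of_subset_of_nonneg
    (fun p hp => Nat.mem_divisors.2 ⟨(mem_filter.1 hp).2, hm⟩)
    fun p _ _ => mul_nonneg h0 ArithmeticFunction.vonMangoldt_nonneg)
  rw [abs_mul, abs_of_nonneg (th_nonneg p), mul_comm]
  exact mul_le_mul (hb _) (th_le p) (th_nonneg p) h0

theorem ev_log (C : ℝ) : ∀ᶠ N : ℕ in atTop, C ≤ Real.log N :=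
  (Real.tendsto_log_atTop.comp tendsto_natCast_atTop_atTop).eventually_ge_atTop C

theorem log_le {N n : ℕ} (hN : 2 ≤ Real.log N) (h1 : 1 ≤ n) (h2 : n ≤ 2 * N) :
    Real.log n ≤ 2 * Real.log N := by
  have h3 : (0 : ℝ) < N := Nat.cast_pos.2 (by omega)
  have h4 : Real.log n ≤ Real.log (2 * N) :=
    Real.log_le_log (Nat.cast_pos.2 h1) (by exact_mod_cast h2)
  rw [Real.log_mul two_ne_zero h3.ne'] at h4
  have := Real.log_two_lt_d9
  linarith

theorem sub_I {N x1 x2 : ℕ} (h : x2 ≤ 2 * N) : Ioc x1 x2 ⊆ Icc 1 (2 * N) := fun n hn => by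
  rw [mem_Ioc] at hn
  rw [mem_Icc]
  omega

theorem rpow_le {N : ℕ} {δ : ℝ} (hN : 1 ≤ N) (h : 0 < δ) : (N : ℝ) ^ (1 / 2 - δ) ≤ N := by
  conv_rhs => rw [← Real.rpow_one (N : ℝ)]
  exact Real.rpow_le_rpow_of_exponent_le (by exact_mod_cast hN) (by linarith)

theorem half {N L a b c : ℝ} {A : ℕ} (hN : 0 ≤ N) (hL : 2 ≤ L) (h : a ≤ b + c)
    (hb : b ≤ N / L ^ (A + 1)) (hc : c ≤ N / L ^ (A + 1)) : a ≤ N / L ^ A := by
  have h1 : N / L ^ (A + 1) ≤ N / (L ^ A * 2) :=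
    div_le_div_of_nonneg_left hN (by positivity)
      (by rw [pow_succ]; exact mul_le_mul_of_nonneg_left hL (by positivity))
  rw [← div_div] at h1
  linarith

end BVA

open BVA

theorem s_BV (hLV : StLV) (hPT : StPT) : StBV := by
  intro δ A c h0 h1
  obtain ⟨A', hA⟩ := hLV A c 2
  filter_upwards [hA, hPT δ (A' + 1) h0 h1, ev_log 2, eventually_ge_atTop 1] with N a1 a2 a3 a4
    x1 x2 b1 b2 b3
  refine a1 _ _ _ (sub_I b3) (rpow_le a4 h0) (fun n hn => ?_) fun e he =>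
    half (Nat.cast_nonneg N) a3 (ps_sub th b2 e _ _) (a2 x2 e (b1.trans b2) b3 he)
      (a2 x1 e b1 (b2.trans b3) he)
  have hn' := mem_Icc.1 (sub_I b3 hn)
  have c1 := log_le a3 hn'.1 hn'.2
  have c2 := (th_le n).trans ArithmeticFunction.vonMangoldt_le_log
  rw [abs_of_nonneg (th_nonneg n)]
  nlinarith

theorem s_BB (hLV : StLV) (hPB : StPB) : StBB := by
  intro δ B0 A c h0 h1
  obtain ⟨A', hA⟩ := hLV A c 2
  filter_upwards [hA, hPB δ B0 (A' + 1) h0 h1, ev_log 2, ev_log (2 * B0), eventually_ge_atTop 1]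
    with N a1 a2 a3 a5 a4 x1 x2 y1 y2 b b1 b2 b3 b4 b5 b6
  refine a1 _ _ _ (sub_I b3) (rpow_le a4 h0) (fun n hn => ?_) fun e he =>
    half (Nat.cast_nonneg N) a3 (ps_sub _ b2 e _ _)
      (a2 x2 e y1 y2 b (b1.trans b2) b3 he b4 b5 b6) (a2 x1 e y1 y2 b b1 (b2.trans b3) he b4 b5 b6)
  have hn' := mem_Icc.1 (sub_I b3 hn)
  have c1 := log_le a3 hn'.1 hn'.2
  have c2 := bl_le y1 y2 b6 (m := n) (by omega)
  have c3 : 0 ≤ B0 := (abs_nonneg _).trans (b6 0)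
  have c4 := mul_le_mul_of_nonneg_left c1 c3
  nlinarith

end Pool.Agent.MP_43e117_nt.PG
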