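import Pool.Agent.Mg.F436a94p.Gcdf306

set_option linter.all false

section

/-!
Expansions of the squared sieve sums, and the two basic sums.
-/

open Finset Filter Topology

noncomputable section

namespace Pool.Agent.MP_43e117_nt.PG

namespace EAA

theorem log_ge (c : ℝ) : ∀ᶠ N : ℕ in atTop, c ≤ Real.log N :=
  (Real.tendsto_log_atTop.comp tendsto_natCast_atTop_atTop).eventually_ge_atTop c

theorem log_pow (m : ℕ) : ∀ᶠ N : ℕ in atTop, Real.log N ^ m ≤ (N : ℝ) ^ (1 / 2 : ℝ) := by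
  have h := (isLittleO_log_rpow_rpow_atTop (m : ℝ) (s := 1 / 2) (by norm_num)).eventuallyLE
  filter_upwards [tendsto_natCast_atTop_atTop.eventually h] with N hN
  rw [Real.rpow_natCast, Real.norm_eq_abs, Real.norm_eq_abs,
    abs_of_nonneg (a := (N : ℝ) ^ (1 / 2 : ℝ)) (by positivity)] at hN
  exact (le_abs_self _).trans hN

theorem small (K : ℝ) {ε : ℝ} (hε : 0 < ε) : ∃ w0 : ℕ, ∀ w, w0 ≤ w → K * (2 / (w : ℝ)) ≤ ε := by
  have h := (tendsto_const_div_atTop_nhds_zero_nat (2 : ℝ)).const_mul K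
  rw [mul_zero] at h
  exact eventually_atTop.1 (h.eventually (ge_mem_nhds hε))

theorem err {δ : ℝ} (h0 : 0 < δ) (h1 : δ ≤ 1 / 2000) (A c : ℕ) : ∀ᶠ N : ℕ in atTop,
    Real.log N ^ A * ((N : ℝ) ^ (δ / 2) * (1 + Real.log ((N : ℝ) ^ (δ / 2))) ^ c) ≤ er N := by
  filter_upwards [log_ge 2, log_pow (A + 2 * c + 2), eventually_ge_atTop 1] with N h2 h3 h4
  have hN : (1 : ℝ) ≤ N := by exact_mod_cast h4
  have e1 : Real.log ((N : ℝ) ^ (δ / 2)) = δ / 2 * Real.log N := Real.log_rpow (by linarith) _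
  have e2 : 1 + Real.log ((N : ℝ) ^ (δ / 2)) ≤ Real.log N ^ 2 := by
    rw [e1]
    nlinarith
  have e3 : (1 + Real.log ((N : ℝ) ^ (δ / 2))) ^ c ≤ Real.log N ^ (2 * c) := by
    rw [pow_mul]
    exact pow_le_pow_left₀ (by rw [e1]; positivity) e2 c
  have e6 : 0 ≤ (1 + Real.log ((N : ℝ) ^ (δ / 2))) ^ c := by
    rw [e1]
    positivity
  have e4 : (N : ℝ) ^ (δ / 2) ≤ (N : ℝ) ^ (1 / 2 : ℝ) :=
    Real.rpow_le_rpow_of_exponent_le hN (by linarith)
  have e5 : (N : ℝ) ^ (1 / 2 : ℝ) * (N : ℝ) ^ (1 / 2 : ℝ) = N := by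
    rw [← Real.rpow_add (by linarith)]
    norm_num
  unfold er
  rw [le_div_iff₀ (by positivity)]
  calc _ ≤ Real.log N ^ A * ((N : ℝ) ^ (1 / 2 : ℝ) * Real.log N ^ (2 * c)) * Real.log N ^ 2 := by
        gcongr
    _ = (N : ℝ) ^ (1 / 2 : ℝ) * Real.log N ^ (A + 2 * c + 2) := by ring
    _ ≤ (N : ℝ) ^ (1 / 2 : ℝ) * (N : ℝ) ^ (1 / 2 : ℝ) := by gcongr
    _ = N := e5

section
variable {ι J : Type} [Fintype ι] [DecidableEq ι] [Fintype J] [DecidableEq J]

omit [Fintype ι] [DecidableEq ι] in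
theorem sm_mono {r : ι → ℝ} {x y : ℝ} (h : Sm r x) (hy : y ≤ x) : Sm r y := fun p =>
  ⟨(h p).1, (mul_le_mul_of_nonneg_right hy (h p).1).trans (h p).2⟩

omit [DecidableEq J] in
theorem qq_nonneg {r : ι → ℝ} (hr : ∀ p, 0 ≤ r p) (C : (ι → Option J) → ℝ) : 0 ≤ QQ r C :=
  sum_nonneg fun σ _ => mul_nonneg (hh_nonneg hr σ) (sq_nonneg _)

omit [Fintype ι] in
theorem cl_om {r : ι → ℝ} (h : Sm r (Fintype.card J)) (i : J) :
    Cl r (fun _ l => l ≠ i) ∅ 1 (om r i ∅) := by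
  intro p
  have h0 := (h p).1
  have h1 : ∀ l, 0 ≤ (if l = i ∨ p ∈ (∅ : Finset ι) then 0 else r p) ∧
      (if l = i ∨ p ∈ (∅ : Finset ι) then 0 else r p) ≤ r p := fun l => by
    split_ifs
    exacts [⟨le_rfl, h0⟩, ⟨h0, le_rfl⟩]
  refine ⟨?_, ?_, fun l hl => ⟨fun hp => absurd hp (notMem_empty p), fun _ => ?_⟩⟩
  · rintro (_ | l)
    · have h2 := sum_le_card_nsmul univ _ _ fun l _ => (h1 l).2
      rw [nsmul_eq_mul, card_univ] at h2
      exact sub_nonneg.2 (h2.trans (h p).2)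
    · exact (h1 l).1
  · rw [Fintype.sum_option]
    simp only [om, mk, sub_add_cancel, sub_self, abs_zero]
    positivity
  · simp only [om, mk, hl, notMem_empty, or_self, if_false, sub_self, abs_zero]
    positivity

end

end EAA

open EAA

theorem s_EA (hE0 : StE0) (hE1 : StE1) (hE2 : StE2) (hSB : StSB) (hSi : StSi) (hBF : StBF) :
    StEA := by
  intro J _ _ δ A h0 h1
  refine ⟨2 * (A + 3 * Fintype.card J), fun w hw => ?_⟩
  filter_upwards [hBF δ h0 h1, log_ge 225] with N hN hl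
  obtain ⟨-, -, -, -, hRN, hR, -⟩ := hN
  obtain ⟨s1, -, s3, s4, -⟩ := hSi w (RR δ N) hw
  have hr : ∀ p, 0 ≤ rr w (RR δ N) p := fun p => (s1 p).1
  have hN0 : (0 : ℝ) < N := Nat.cast_pos.2 (by omega)
  have hP : ∀ k : ℕ, ∏ p, (1 + k * rr w (RR δ N) p) ≤ Real.log N ^ (3 * k) := fun k => by
    refine (s4 k hR).trans ?_
    rw [pow_mul, pow_mul]
    refine pow_le_pow_left₀ (sq_nonneg _) ?_ k
    have a0 := Real.log_natCast_nonneg (RR δ N)
    have a1 : Real.log (RR δ N) ≤ Real.log N :=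
      Real.log_le_log (Nat.cast_pos.2 (by omega)) (Nat.cast_le.2 hRN.le)
    have a2 := pow_le_pow_left₀ a0 a1 2
    nlinarith [sq_nonneg (Real.log N)]
  refine ⟨fun Lb C hC => ?_, fun t ht => ?_⟩
  · obtain ⟨-, c2, c3, c4⟩ := hC
    have e1 := hE0 _ J _ Lb Lb _ _ _ _ _ (Real.log N ^ (A + 3 * Fintype.card J)) 1
      (hE1 _ J _ _ Lb C _ _ _ le_rfl hr s3 c3 c4 c2) le_rfl (by
        rw [pow_add]
        exact mul_le_mul_of_nonneg_left (hP _) (by positivity)) zero_le_one le_rfl fun _ h => h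
    have e2 := hE2 _ J _ Lb _ _ _ _ _ _ _ _ s3 zero_le_one zero_le_one e1 e1
    simp only [sq]
    refine hE0 _ J _ Lb Lb _ _ _ _ _ _ _ e2 (le_of_eq ?_) (le_of_eq ?_) (by norm_num)
      (by norm_num) fun _ h => h
    · rw [← Real.rpow_add hN0]
      congr 1
      ring
    · ring
  · obtain ⟨-, -, -, b4, b5, -⟩ := hSB _ (rr w (RR δ N)) (qq w (RR δ N)) t hr ht
    have e1 := hE0 _ Unit _ (fun _ => True) (fun _ => True) _ _ _ _ _ (Real.log N ^ 3) 1
      (hE1 _ Unit _ _ (fun _ => True) _ ((1 : ℕ) : ℝ) _ _ (by simp) hr s3 b4 (b5 s3)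
        fun _ _ _ _ _ => trivial) le_rfl (by rw [one_mul]; exact hP 1) zero_le_one le_rfl
        fun _ h => h
    have e2 := hE2 _ Unit _ _ _ _ _ _ _ _ _ _ s3 zero_le_one zero_le_one e1 e1
    simp only [sq]
    refine hE0 _ Unit _ _ _ _ _ _ _ _ _ _ e2 (le_of_eq ?_) (le_of_eq ?_) (by norm_num)
      (by norm_num) fun _ h => h
    · rw [← Real.exp_add, two_mul]
    · ring

theorem s_S0 (hMA : StMA) (hGU : StGU) (hSi : StSi) (hT0 : StT0) (hEA : StEA) : StS0 := by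
  intro J _ _ h δ ε A hi h0 h1 hε
  obtain ⟨A', hA⟩ := hEA J δ A h0 h1
  obtain ⟨w1, hw1⟩ := small (14 * 1 * ((Fintype.card J : ℝ) + 1) ^ 2)
    (Real.log_pos (show 1 < 1 + ε by linarith))
  refine Ev.of_w h (P := fun w N => ∀ b C, Adm δ A N w (fun _ : J => True) C →
    ∑ n ∈ II N w b, PC h w (RR δ N) C n ^ 2 ≤
      (1 + ε) * (be w N * VV w) * QQ (rr w (RR δ N)) C + er N)
    (2 + w1 + Fintype.card J + univ.sup h) (fun w hw => ?_) |>.mono fun w b N H => H b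
  filter_upwards [hA w (by omega), err h0 h1 A' (2 ^ (3 * Fintype.card J)),
    eventually_ge_atTop 1] with N e1 e2 hN b C hC
  obtain ⟨s1, s2, -, -, -, s6⟩ := hSi w (RR δ N) (by omega)
  have hr : ∀ p, 0 ≤ rr w (RR δ N) p := fun p => (s1 p).1
  have t0 := hT0 J h w (RR δ N) b N (N / 2) (3 * Fintype.card J) _ _ _ _ _ hi
    (fun l => (le_sup (mem_univ l)).trans (by omega)) (e1.1 _ C hC) (by norm_num)
    (by exact_mod_cast Nat.lt_two_pow_self.le)
    (Real.one_le_rpow (by exact_mod_cast hN) (by positivity))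
  have g := hGU _ J _ ((Fintype.card J : ℝ) + 1) 1 _ _ ∅ _ C (by linarith)
    (le_add_of_nonneg_left (Nat.cast_nonneg _)) le_rfl
    (sm_mono s1 (by exact_mod_cast (show 1 ≤ w by omega))) (s6 J (by omega)) hC.2.1
    (hMA _ J _ C hr hC.1)
  rw [prod_empty, mul_one] at g
  have g1 : Real.exp (14 * 1 * ((Fintype.card J : ℝ) + 1) ^ 2 * eta (rr w (RR δ N))) ≤ 1 + ε :=
    (Real.le_log_iff_exp_le (by linarith)).1
      ((mul_le_mul_of_nonneg_left s2 (by positivity)).trans (hw1 w (by omega)))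
  have g2 := g.trans (mul_le_mul_of_nonneg_right g1 (qq_nonneg hr C))
  have e3 : be w N * VV w = ((N / 2 : ℕ) : ℝ) / WW w := by
    have : ((WW w).totient : ℝ) ≠ 0 := Nat.cast_ne_zero.2 (Nat.totient_pos.2 (WW_pos w)).ne'
    unfold be VV XX
    field_simp
  have g3 := mul_le_mul_of_nonneg_left g2
    (show 0 ≤ ((N / 2 : ℕ) : ℝ) / WW w by positivity)
  have t1 := (le_abs_self _).trans (t0.trans e2)
  rw [e3]
  unfold II PC
  linarith

theorem s_S1 (hE0 : StE0) (hMA : StMA) (hGL : StGL) (hSi : StSi) (hTA : StTA) (hEA : StEA) :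
    StS1 := by
  intro J _ _ h δ ε A hi h0 h1 hε
  obtain ⟨A', hA⟩ := hEA J δ A h0 h1
  have m0 : 0 < min ε 1 / 2 := half_pos (lt_min hε one_pos)
  have m1 := min_le_left ε 1
  have m2 := min_le_right ε 1
  generalize min ε 1 = η at m0 m1 m2
  obtain ⟨w1, hw1⟩ := small (14 * 1 * ((Fintype.card J : ℝ) + 1) ^ 2) m0
  refine ((hTA J h δ _ 3 A' hi h0 h1 m0 (by norm_num)).and ((Ev.of_w h 2 hA).and
    ((Ev.cop h (2 + w1 + 7 * (Fintype.card J + 1))).and
      (Ev.of_w h 0 fun _ _ => eventually_ge_atTop 1)))).mono ?_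
  rintro w b N ⟨t, e1, ⟨hw, -⟩, hN⟩ i C hC
  obtain ⟨s1, s2, -⟩ := hSi w (RR δ N) (by omega)
  have hr : ∀ p, 0 ≤ rr w (RR δ N) p := fun p => (s1 p).1
  have t0 := (t i _ (fun o => sq_nonneg _) (hE0 _ J _ _ _ _ _ _ _ _ _ _ (e1.1 _ C hC)
    (Real.rpow_le_rpow_of_exponent_le (by exact_mod_cast hN) (by linarith)) le_rfl (by norm_num)
    le_rfl fun _ h => h)).1
  have g := hGL _ J _ ((Fintype.card J : ℝ) + 1) 1 _ _ ∅ _ C (by linarith)
    (le_add_of_nonneg_left (Nat.cast_nonneg _)) le_rfl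
    (sm_mono s1 (by exact_mod_cast (show 7 * 1 * (Fintype.card J + 1) ≤ w by omega)))
    (cl_om (sm_mono s1 (by exact_mod_cast (show Fintype.card J ≤ w by omega))) i) hC.2.1
    (hMA _ J _ C hr hC.1) hC.1.1
  rw [sum_empty, mul_zero, add_zero] at g
  have g1 := mul_le_mul_of_nonneg_right
    ((mul_le_mul_of_nonneg_left s2 (by positivity)).trans (hw1 w (by omega))) (qq_nonneg hr C)
  have q0 := qq_nonneg hr C
  have b0 : 0 ≤ be w N := by
    unfold be XX
    positivity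
  have g2 : (1 - η / 2) * QQ (rr w (RR δ N)) C ≤ _ := le_trans (by linarith) g
  have g3 := mul_le_mul_of_nonneg_left g2 (mul_nonneg (show 0 ≤ 1 - η / 2 by linarith) b0)
  have g4 := mul_le_mul_of_nonneg_right (show 1 - ε ≤ (1 - η / 2) * (1 - η / 2) by nlinarith)
    (mul_nonneg b0 q0)
  unfold PC
  linarith

end Pool.Agent.MP_43e117_nt.PG

end
end

section

/-!
Counting the good numbers through their largest prime factor.
-/

open Finset Filter

noncomputable section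

namespace Pool.Agent.MP_43e117_nt.PG

namespace GSA

/-- the admitted largest prime factors -/
def QS (y z : ℝ) (s : Finset ℕ) : Finset ℕ :=
  (Ioc ⌊y / ∏ p ∈ s, (p : ℝ)⌋₊ ⌊z / ∏ p ∈ s, (p : ℝ)⌋₊).filter Nat.Prime

theorem pos {s : Finset ℕ} (hs : ∀ p ∈ s, p.Prime) : 0 < ∏ p ∈ s, (p : ℝ) :=
  prod_pos fun p hp => Nat.cast_pos.2 (hs p hp).pos

theorem lg {s : Finset ℕ} (hs : ∀ p ∈ s, p.Prime) {y : ℝ} (hy : 0 < y) :
    Real.log (y / ∏ p ∈ s, (p : ℝ)) = Real.log y - ∑ p ∈ s, Real.log p := by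
  rw [Real.log_div hy.ne' (pos hs).ne', Real.log_prod fun p hp => (Nat.cast_pos.2 (hs p hp).pos).ne']

theorem cnt {ε e y z Y : ℝ} {s : Finset ℕ} (hs : ∀ p ∈ s, p.Prime) (he : 0 < e) (hy : 0 < y)
    (hY : Y ≤ Real.exp (200 * e))
    (H : ∀ y, Y ≤ y → ∀ z : ℝ, 6 / 5 * y ≤ z → z ≤ 2 * y →
      (1 - ε) * (z - y) / Real.log z ≤ (((Ioc ⌊y⌋₊ ⌊z⌋₊).filter Nat.Prime).card : ℝ))
    (h1 : 619 * e ≤ Real.log y) (h2 : Real.log z ≤ 622 * e) (h3 : 6 / 5 * y ≤ z) (h4 : z ≤ 2 * y)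
    (h5 : ∑ p ∈ s, Real.log p ≤ 419 * e) :
    (1 - ε) * (z - y) / ((∏ p ∈ s, (p : ℝ)) * (622 * e - ∑ p ∈ s, Real.log p)) ≤
      (QS y z s).card := by
  have hP := pos hs
  have hz : 0 < z := by linarith
  have hd : 0 < 622 * e - ∑ p ∈ s, Real.log p := by linarith
  rcases le_total ε 1 with hε | hε
  · have a1 := lg hs hy
    have a2 := lg hs hz
    have a3 : Real.log y ≤ Real.log z := Real.log_le_log hy (by linarith)
    have a4 : Y ≤ y / ∏ p ∈ s, (p : ℝ) := by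
      refine hY.trans ?_
      rw [← Real.le_log_iff_exp_le (div_pos hy hP), a1]
      linarith
    refine le_trans ?_ (H _ a4 (z / ∏ p ∈ s, (p : ℝ)) ?_ ?_)
    · rw [a2, ← sub_div, ← mul_div_assoc, div_div]
      have b1 : 0 < Real.log z - ∑ p ∈ s, Real.log p := by linarith
      refine div_le_div_of_nonneg_left (mul_nonneg (by linarith) (by linarith)) (mul_pos hP b1) ?_
      exact mul_le_mul_of_nonneg_left (by linarith) hP.le
    · rw [← mul_div_assoc]
      exact div_le_div_of_nonneg_right h3 hP.le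
    · rw [← mul_div_assoc]
      exact div_le_div_of_nonneg_right h4 hP.le
  · refine le_trans (div_nonpos_of_nonpos_of_nonneg ?_ (mul_pos hP hd).le) (Nat.cast_nonneg _)
    exact mul_nonpos_of_nonpos_of_nonneg (by linarith) (by linarith)

theorem mem {y z : ℝ} {s : Finset ℕ} (hs : ∀ p ∈ s, p.Prime) (hy : 0 < y) (hz : 0 < z) {q : ℕ}
    (hq : q ∈ QS y z s) : q.Prime ∧ Real.log y - ∑ p ∈ s, Real.log p < Real.log q ∧
      (∏ p ∈ s, p) * q ∈ Ioc ⌊y⌋₊ ⌊z⌋₊ := by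
  have hP := pos hs
  obtain ⟨h1, h2⟩ := mem_filter.1 hq
  obtain ⟨h3, h4⟩ := mem_Ioc.1 h1
  rw [Nat.floor_lt (div_pos hy hP).le] at h3
  rw [Nat.le_floor_iff (div_pos hz hP).le] at h4
  refine ⟨h2, ?_, mem_Ioc.2 ⟨?_, ?_⟩⟩
  · rw [← lg hs hy]
    exact Real.log_lt_log (div_pos hy hP) h3
  · rw [Nat.floor_lt hy.le]
    push_cast
    rwa [div_lt_iff₀' hP] at h3
  · rw [Nat.le_floor_iff hz.le]
    push_cast
    rwa [le_div_iff₀' hP] at h4

theorem pf {s : Finset ℕ} (hs : ∀ p ∈ s, p.Prime) {q : ℕ} (hq : q.Prime) (h : q ∉ s) :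
    ((∏ p ∈ s, p) * q).primeFactors = insert q s := by
  rw [mul_comm, ← prod_insert (f := fun p : ℕ => p) h]
  exact Nat.primeFactors_prod fun p hp => (mem_insert.1 hp).elim (fun e => e ▸ hq) (hs p)

end GSA

open GSA in
theorem s_GS (hPH : StPH) (hPC : StPC) : StGS := by
  classical
  intro ε hε
  obtain ⟨Y, H⟩ := eventually_atTop.1 (hPC ε hε)
  have hE : ∀ᶠ e : ℝ in atTop, Y ≤ Real.exp (200 * e) :=
    (Real.tendsto_exp_atTop.comp (tendsto_id.const_mul_atTop (by norm_num))).eventually_ge_atTop Y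
  filter_upwards [hE, eventually_gt_atTop 0] with e hY he y z F S hy h1 h2 h3 h4 hF hG hS
  have hz : 0 < z := by linarith
  have hpr : ∀ s ∈ S, ∀ p ∈ s, p.Prime := fun s hs p hp => ((hS s hs).1.2.1 p hp).1
  have hlt : ∀ s ∈ S, ∀ q ∈ QS y z s, ∀ p ∈ s, p < q := by
    intro s hs q hq p hp
    obtain ⟨a1, a2, -⟩ := mem (hpr s hs) hy hz hq
    have a3 := (hS s hs).2.2 p hp
    have a4 : Real.log p < Real.log q := by linarith
    exact_mod_cast (Real.log_lt_log_iff (Nat.cast_pos.2 (hpr s hs p hp).pos)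
      (Nat.cast_pos.2 a1.pos)).1 a4
  have hn : ∀ s ∈ S, ∀ q ∈ QS y z s, q ∉ s := fun s hs q hq h => lt_irrefl _ (hlt s hs q hq q h)
  have hinj : Set.InjOn (fun x : Σ _ : Finset ℕ, ℕ => (∏ p ∈ x.1, p) * x.2)
      (S.sigma (QS y z) : Finset (Σ _ : Finset ℕ, ℕ)) := by
    rintro ⟨s, q⟩ hx ⟨s', q'⟩ hx' h
    obtain ⟨hs, hq⟩ := mem_sigma.1 (mem_coe.1 hx)
    obtain ⟨hs', hq'⟩ := mem_sigma.1 (mem_coe.1 hx')
    have e1 : insert q s = insert q' s' := by
      rw [← pf (hpr s hs) (mem (hpr s hs) hy hz hq).1 (hn s hs q hq),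
        ← pf (hpr s' hs') (mem (hpr s' hs') hy hz hq').1 (hn s' hs' q' hq')]
      exact congrArg Nat.primeFactors h
    have e2 : q ≤ q' := (mem_insert.1 (e1 ▸ mem_insert_self q s)).elim le_of_eq
      fun h => (hlt s' hs' q' hq' q h).le
    have e3 : q' ≤ q := (mem_insert.1 (e1.symm ▸ mem_insert_self q' s')).elim le_of_eq
      fun h => (hlt s hs q hq q' h).le
    obtain rfl : q = q' := le_antisymm e2 e3
    obtain rfl : s = s' := by
      rw [← erase_insert (hn s hs q hq), e1, erase_insert (hn s' hs' q hq')]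
    rfl
  calc _ = ∑ s ∈ S, (1 - ε) * (z - y) / ((∏ p ∈ s, (p : ℝ)) * (622 * e - ∑ p ∈ s, Real.log p)) *
        max 0 (Phi (109 * e) s - 1 / 1000) ^ 2 := by
        rw [mul_sum]
        exact sum_congr rfl fun s _ => by ring
    _ ≤ ∑ s ∈ S, ∑ q ∈ QS y z s, max 0 (Phi (109 * e) s - 1 / 1000) ^ 2 := by
        refine sum_le_sum fun s hs => ?_
        rw [sum_const, nsmul_eq_mul]
        exact mul_le_mul_of_nonneg_right
          (cnt (hpr s hs) he hy hY H h1 h2 h3 h4 (hS s hs).2.1) (sq_nonneg _)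
    _ ≤ ∑ s ∈ S, ∑ q ∈ QS y z s,
        if Good e ((∏ p ∈ s, p) * q) then F ((∏ p ∈ s, p) * q) else 0 := by
        refine sum_le_sum fun s hs => sum_le_sum fun q hq => ?_
        obtain ⟨a1, a2, -⟩ := mem (hpr s hs) hy hz hq
        have a3 := (hS s hs).2.1
        have a4 : Good e ((∏ p ∈ s, p) * q) :=
          ⟨s, q, rfl, a1, by linarith, hlt s hs q hq, (hS s hs).1⟩
        have a5 := hG _ a4
        rw [pf (hpr s hs) a1 (hn s hs q hq),
          (hPH (109 * e) (by linarith)).2.2.2.1 q s (by linarith) (hn s hs q hq)] at a5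
        rwa [if_pos a4]
    _ = ∑ m ∈ (S.sigma (QS y z)).image (fun x : Σ _ : Finset ℕ, ℕ => (∏ p ∈ x.1, p) * x.2),
        if Good e m then F m else 0 := by
        rw [sum_image hinj, sum_sigma]
    _ ≤ _ := by
        refine sum_le_sum_of_subset_of_nonneg (fun m hm => ?_) fun m _ _ => ?_
        · obtain ⟨x, hx, rfl⟩ := mem_image.1 hm
          obtain ⟨hs, hq⟩ := mem_sigma.1 hx
          exact (mem (hpr _ hs) hy hz hq).2.2
        · split_ifs
          exacts [hF m, le_rfl]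

end Pool.Agent.MP_43e117_nt.PG

end
end

section

/-!
The mean of the weight carried by the good numbers.
-/

open Finset Filter

noncomputable section

namespace Pool.Agent.MP_43e117_nt.PG

namespace GMA

theorem big {w q : ℕ} {e : ℝ} (hw : (w : ℝ) ≤ e) (h : e < Real.log q) : w < q :=
  Nat.cast_lt.1 (hw.trans_lt (h.trans_le (Real.log_le_self (Nat.cast_nonneg q))))

open Classical in
theorem inj (hPG : StPG) {w N x p : ℕ} {e : ℝ} (he : 0 < e) (hw : (w : ℝ) ≤ e) (hp : p.Prime)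
    (hl : e < Real.log p) (F : ℕ → ℝ) (hF : ∀ m, 0 ≤ F m) :
    ∑ m ∈ Ioc ((N + x) / p) ((N + N / 2 + x) / p), (if Good e m then F m else 0) ≤
      ∑ m ∈ IW N w x, if p ∣ m ∧ Good e (m / p) then F (m / p) else 0 := by
  have h0 := hp.pos
  rw [← sum_filter]
  calc _ = ∑ m ∈ ((Ioc ((N + x) / p) ((N + N / 2 + x) / p)).filter (Good e)).image (p * ·),
        if p ∣ m ∧ Good e (m / p) then F (m / p) else 0 := by
        rw [sum_image fun a _ b _ h => Nat.eq_of_mul_eq_mul_left h0 h]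
        refine sum_congr rfl fun m hm => ?_
        rw [Nat.mul_div_cancel_left m h0, if_pos ⟨dvd_mul_right _ _, (mem_filter.1 hm).2⟩]
    _ ≤ _ := by
        refine sum_le_sum_of_subset_of_nonneg (fun m hm => ?_) fun m _ _ => by
          split_ifs
          · exact hF _
          · exact le_rfl
        obtain ⟨a, ha, rfl⟩ := mem_image.1 hm
        obtain ⟨h1, h2⟩ := mem_filter.1 ha
        rw [mem_Ioc, Nat.div_lt_iff_lt_mul h0, Nat.le_div_iff_mul_le h0, mul_comm] at h1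
        refine mem_filter.2 ⟨mem_Ioc.2 h1, Nat.coprime_of_dvd fun k hk h3 h4 => ?_⟩
        obtain ⟨-, h5, h6, -⟩ := hPG e a he h2
        refine absurd (hk.dvd_primorial_iff.1 h4) (not_le.2 (big hw ?_))
        rcases (Nat.Prime.dvd_mul hk).1 h3 with h | h
        · rwa [(Nat.prime_dvd_prime_iff_eq hk hp).1 h]
        · have := h5 k (Nat.mem_primeFactors.2 ⟨hk, h, by omega⟩)
          linarith

theorem sq_le {a b : ℝ} (h : |a - b| ≤ 1 / 1000) : max 0 (b - 1 / 1000) ^ 2 ≤ a ^ 2 := by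
  rcases le_total 0 (b - 1 / 1000) with h1 | h1
  · rw [max_eq_right h1]
    exact pow_le_pow_left₀ h1 (by linarith [(abs_le.1 h).1]) 2
  · rw [max_eq_left h1]
    simpa using sq_nonneg a

theorem ee_top {δ : ℝ} (hδ : δ < 1 / 4) : Tendsto (fun N => ee (RR δ N)) atTop atTop :=
  (Real.tendsto_log_atTop.comp
    (tendsto_natCast_atTop_atTop.comp (tendsto_RR hδ))).atTop_div_const (by norm_num)

end GMA

open GMA in
theorem s_GM (hBF : StBF) (hEt : StEt) (hPG : StPG) (hPV : StPV) (hGS : StGS) (hGT : StGT)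
    (hGR : StGR) : StGM := by
  classical
  intro J h _ δ h0 h1
  have hδ : δ < 1 / 4 := by linarith
  have hT := ee_top hδ
  refine ((((hEt.and (hPV (1 / 1000) (by norm_num))).ev h hδ)).and (Ev.of_w h 0 fun w _ =>
    (hBF δ h0 h1).and ((hT.eventually ((hGS (1 / 1000) (by norm_num)).and
      ((hGT (1 / 1000) (by norm_num)).and ((eventually_ge_atTop (w : ℝ)).and
        (eventually_gt_atTop 0))))).and (eventually_ge_atTop (2 * ∑ j, h j + 5))))).mono ?_
  rintro w - N ⟨⟨hE, hV⟩, hB, ⟨hS, ⟨S, hS1, hS2⟩, hw, he⟩, hN⟩ j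
  generalize RR δ N = R at *
  have hL : Real.log R = 200 * ee R := by rw [ee]; ring
  have hj : h j ≤ ∑ j, h j := single_le_sum (fun _ _ => Nat.zero_le _) (mem_univ j)
  have key : ∀ p : Si w R, 141 / 100 * XX N * (ww w R p / p.1) / Real.log R ≤ ∑ m ∈ IW N w (h j),
      if p.1 ∣ m ∧ Good (ee R) (m / p.1) then ww w R p * SA w R (109 * ee R) (m / p.1) ^ 2
      else 0 := fun p => by
    have hw0 := (hE.2.2.2.2.1 p).1
    by_cases hp : ww w R p = 0
    · simp [hp]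
    have hp1 : 180 * ee R < Real.log p.1 ∧ Real.log p.1 ≤ 181 * ee R := by
      by_contra h2
      exact hp (if_neg h2)
    have hp2 := (si_mem p).2.2
    have hp0 : (0 : ℝ) < p.1 := Nat.cast_pos.2 hp2.pos
    refine le_trans ?_ (inj hPG he hw hp2 (by linarith [hp1.1])
      (fun m => ww w R p * SA w R (109 * ee R) m ^ 2) fun m => mul_nonneg hw0 (sq_nonneg _))
    have hN0 : (0 : ℝ) < N := Nat.cast_pos.2 (by omega)
    have a1 : (N : ℝ) ≤ (N + h j : ℕ) := Nat.cast_le.2 (by omega)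
    have a2 : ((N + N / 2 + h j : ℕ) : ℝ) ≤ 2 * N := by
      exact_mod_cast (by omega : N + N / 2 + h j ≤ 2 * N)
    have a3 : 6 * ((N + h j : ℕ) : ℝ) ≤ 5 * ((N + N / 2 + h j : ℕ) : ℝ) := by
      exact_mod_cast (by omega : 6 * (N + h j) ≤ 5 * (N + N / 2 + h j))
    have a4 : (0 : ℝ) < (N + N / 2 + h j : ℕ) := by linarith
    have h3 := hS (((N + h j : ℕ) : ℝ) / p.1) (((N + N / 2 + h j : ℕ) : ℝ) / p.1)
      (fun m => SA w R (109 * ee R) m ^ 2) S (div_pos (by linarith) hp0)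
      (by
        rw [Real.log_div (by linarith) hp0.ne']
        linarith [Real.log_le_log hN0 a1, hB.1, hp1.2])
      (by
        rw [Real.log_div a4.ne' hp0.ne']
        linarith [Real.log_le_log a4 a2, hB.2.1, hp1.1])
      (by rw [← mul_div_assoc]; exact div_le_div_of_nonneg_right (by linarith) hp0.le)
      (by rw [← mul_div_assoc]; exact div_le_div_of_nonneg_right (by linarith) hp0.le)
      (fun m => sq_nonneg _) (fun m hm => by
        obtain ⟨b1, b2, b3, -⟩ := hPG _ m he hm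
        exact sq_le (hV _ m (by linarith) (by linarith) (by omega)
          (fun q hq => by linarith [b2 q hq]) (by omega))) hS1
    rw [Nat.floor_div_eq_div, Nat.floor_div_eq_div, ← sub_div] at h3
    have h4 : ((N + N / 2 + h j : ℕ) : ℝ) - (N + h j : ℕ) = XX N := by
      rw [XX]
      push_cast
      ring
    have h5 : 0 ≤ XX N / p.1 := div_nonneg (Nat.cast_nonneg _) hp0.le
    have h6 : 141 / 100 / (200 * ee R) ≤ (1 - 1 / 1000) * ((1 - 1 / 1000) * grid / ee R) := by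
      rw [← mul_div_assoc, mul_comm 200, ← div_div, div_right_comm]
      refine div_le_div_of_nonneg_right ?_ he.le
      have : 1415 / 1000 ≤ 200 * grid := hGR
      linarith
    rw [h4] at h3
    simp only [← mul_ite_zero, ← mul_sum]
    calc _ = ww w R p * (XX N / p.1 * (141 / 100 / (200 * ee R))) := by rw [hL]; ring
      _ ≤ _ := by
        refine mul_le_mul_of_nonneg_left (le_trans ?_ h3) hw0
        rw [mul_comm (1 - 1 / 1000), mul_assoc]
        exact mul_le_mul_of_nonneg_left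
          (h6.trans (mul_le_mul_of_nonneg_left hS2 (by norm_num))) h5
  simp only [TG]
  rw [sum_comm, Et, mul_sum, sum_div]
  exact sum_le_sum fun p _ => by convert key p

end Pool.Agent.MP_43e117_nt.PG

end
end

section

/-!
The choice of the residue class, and the passage to gaps between consecutive primes.
-/

open Finset Filter

namespace Pool.Agent.MP_43e117_nt.PG

namespace ClA

theorem res {J : Type} (h : J → ℕ) (H : ℕ) (hH : ∀ l, h l ≤ H) (q : ℕ → ℕ)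
    (hq : Function.Injective q) (hq' : ∀ x, H < q x)
    (ha : ∀ p : ℕ, p.Prime → ∃ c : ℕ, ∀ l, ¬ p ∣ c + h l) (p : ℕ) :
    ∃ c : ℕ, p.Prime → (∀ l, ¬ p ∣ c + h l) ∧
      ∀ x ≤ H, (∀ l, h l ≠ x) → p = q x → p ∣ c + x := by
  by_cases hp : p.Prime
  swap
  · exact ⟨0, fun h => absurd h hp⟩
  by_cases hx : ∃ x ≤ H, (∀ l, h l ≠ x) ∧ p = q x
  · obtain ⟨x, h1, h2, h3⟩ := hx
    have h4 : p ∣ (p - 1) * x + x := by
      rw [← add_one_mul, Nat.sub_add_cancel hp.one_le]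
      exact dvd_mul_right _ _
    refine ⟨(p - 1) * x, fun _ => ⟨fun l h5 => h2 l ?_, fun y _ _ h5 => ?_⟩⟩
    · have h6 : (p - 1) * x + h l ≡ (p - 1) * x + x [MOD p] :=
        ((Nat.modEq_zero_iff_dvd).2 h5).trans ((Nat.modEq_zero_iff_dvd).2 h4).symm
      have h7 := hq' x
      have h8 := hH l
      exact (Nat.ModEq.add_left_cancel' _ h6).eq_of_lt_of_lt (by omega) (by omega)
    · rwa [← hq (h3.symm.trans h5)]
  · obtain ⟨c, hc⟩ := ha p hp
    exact ⟨c, fun _ => ⟨hc, fun x h1 h2 h3 => absurd ⟨x, h1, h2, h3⟩ hx⟩⟩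

theorem near {K : ℕ} (h : Fin 4 × Fin K → ℕ) (hh : Function.Injective h) (n : ℕ)
    (h0 : ∀ x l, x ≤ h l → (n + x).Prime → ∃ l, h l = x)
    (h1 : ∃ i j, i.1 ≠ j.1 ∧ (n + h i).Prime ∧ (n + h j).Prime) :
    ∃ i j, i.1 ≠ j.1 ∧ h i < h j ∧ (n + h i).Prime ∧ (n + h j).Prime ∧
      ∀ q, n + h i < q → q < n + h j → ¬ q.Prime := by
  obtain ⟨⟨i, j⟩, ⟨h2, h3, h4, h5⟩, h6⟩ := Set.exists_min_image
    {t : (Fin 4 × Fin K) × (Fin 4 × Fin K) | t.1.1 ≠ t.2.1 ∧ h t.1 < h t.2 ∧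
      (n + h t.1).Prime ∧ (n + h t.2).Prime} (fun t => h t.2 - h t.1) (Set.toFinite _) (by
    obtain ⟨i, j, h2, h3, h4⟩ := h1
    rcases lt_trichotomy (h i) (h j) with h5 | h5 | h5
    · exact ⟨(i, j), h2, h5, h3, h4⟩
    · exact absurd (congrArg Prod.fst (hh h5)) h2
    · exact ⟨(j, i), h2.symm, h5, h4, h3⟩)
  refine ⟨i, j, h2, h3, h4, h5, fun q h7 h8 hq => ?_⟩
  obtain ⟨x, rfl⟩ : ∃ x, q = n + x := ⟨q - n, by omega⟩
  obtain ⟨l, rfl⟩ := h0 x j (by omega) hq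
  by_cases e : i.1 = l.1
  · have h9 : h j - h i ≤ h j - h l :=
      h6 (l, j) ⟨fun e' => h2 (e.trans e'), show h l < h j by omega, hq, h5⟩
    omega
  · have h9 : h j - h i ≤ h l - h i := h6 (i, l) ⟨e, show h i < h l by omega, h4, hq⟩
    omega

end ClA

theorem s_Cl : StCl := by
  intro J _ h w0 ha
  have hH : ∀ l, h l ≤ univ.sup h := fun l => le_sup (f := h) (mem_univ l)
  generalize univ.sup h = H at hH
  have hs := Nat.nth_strictMono Nat.infinite_setOfPred_prime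
  choose c hc using ClA.res h H hH (fun x => Nat.nth Nat.Prime (H + x))
    (fun x y e => by simpa using hs.injective e)
    (fun x => by have := Nat.add_two_le_nth_prime (H + x); omega) ha
  refine ⟨max w0 (Nat.nth Nat.Prime (H + H)), le_max_left _ _, ?_⟩
  have hw := le_max_right w0 (Nat.nth Nat.Prime (H + H))
  generalize max w0 (Nat.nth Nat.Prime (H + H)) = w at hw
  obtain ⟨b, hb⟩ := Nat.chineseRemainderOfFinset c id ((range (w + 1)).filter Nat.Prime)
    (fun p hp => (mem_filter.1 hp).2.ne_zero) fun p hp q hq e =>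
      (Nat.coprime_primes (mem_filter.1 hp).2 (mem_filter.1 hq).2).2 e
  have hb' : ∀ p x, p.Prime → p ≤ w → (p ∣ b + x ↔ p ∣ c p + x) := fun p x hp hpw =>
    ((hb p (mem_filter.2 ⟨mem_range_succ_iff.2 hpw, hp⟩)).add_right x).dvd_iff dvd_rfl
  refine ⟨b, fun l => Nat.coprime_of_dvd fun p hp h1 h2 =>
    (hc p hp).1 l ((hb' p _ hp (hp.dvd_primorial_iff.1 h2)).1 h1), ?_⟩
  rintro x ⟨l, hl⟩ hx
  have h1 := hl.trans (hH l)
  have h2 := Nat.prime_nth_prime (H + x)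
  have h3 := (hs.monotone (Nat.add_le_add_left h1 H)).trans hw
  exact ⟨_, h2, h3, (hb' _ _ h2 h3).2 ((hc _ h2).2 x h1 hx rfl)⟩

theorem s_A (hM : StM) (hCl : StCl) : StA := by
  intro S hS
  obtain ⟨K, hK⟩ := hM
  refine ⟨K, fun h hh ha => ?_⟩
  obtain ⟨w0, hw0⟩ := hK h hh
  obtain ⟨w, hw, b, hb, hb'⟩ := hCl _ h w0 ha
  obtain ⟨N0, hN0⟩ := eventually_atTop.1 (hw0 w hw b hb)
  have hH : ∀ l, h l ≤ univ.sup h := fun l => le_sup (f := h) (mem_univ l)
  generalize univ.sup h = H at hH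
  by_contra hc
  push Not at hc
  refine hS (((Set.finite_Iic (N0 + w + 2 * H + 2)).union (Set.finite_iUnion
    (f := fun t : {t : (Fin 4 × Fin K) × (Fin 4 × Fin K) // t.1.1 ≠ t.2.1 ∧ h t.1 < h t.2} =>
      {n ∈ S | ∃ p, n < p ∧ p + (h t.1.2 - h t.1.1) < 2 * n ∧ p.Prime ∧
        (p + (h t.1.2 - h t.1.1)).Prime ∧
        ∀ q, p < q → q < p + (h t.1.2 - h t.1.1) → ¬ q.Prime})
    fun t => Set.not_infinite.1 (hc _ _ t.2.1 t.2.2))).subset fun N hN => ?_)
  by_cases h1 : N ≤ N0 + w + 2 * H + 2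
  · exact Or.inl h1
  obtain ⟨n, hn, h2⟩ := hN0 N (by omega)
  obtain ⟨h3, h4⟩ := mem_filter.1 hn
  rw [mem_Ioc] at h3
  obtain ⟨i, j, h5, h6, h7, h8, h9⟩ := ClA.near h hh n (fun x l hl hp => by
    by_contra h5
    push Not at h5
    obtain ⟨q, hq, hqw, hqb⟩ := hb' x ⟨l, hl⟩ h5
    have h6 := ((h4.add_right x).dvd_iff (hq.dvd_primorial_iff.2 hqw)).2 hqb
    have h7 := (Nat.prime_dvd_prime_iff_eq hq hp).1 h6
    omega) h2
  have e : n + h i + (h j - h i) = n + h j := by omega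
  have h10 := hH j
  refine Or.inr (Set.mem_iUnion.2 ⟨⟨(i, j), h5, h6⟩, hN, n + h i, by omega, ?_⟩)
  show n + h i + (h j - h i) < 2 * N ∧ (n + h i).Prime ∧ (n + h i + (h j - h i)).Prime ∧
    ∀ q, n + h i < q → q < n + h i + (h j - h i) → ¬ q.Prime
  rw [e]
  exact ⟨by omega, h7, h8, h9⟩

end Pool.Agent.MP_43e117_nt.PG

end
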