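import Pool.Agent.Mg.F436a94p.Gcdf306

set_option linter.all false

section

/-!
Basic facts about the sites and the level.
-/

open Finset Filter

noncomputable section

namespace Pool.Agent.MP_43e117_nt.PG

open MP_fdd1d3_nt (PP LL SS)

namespace SiA

theorem uniq {p w n a b : ℕ} (hp : w < p) (ha : a ≤ w) (hb : b ≤ w) (h1 : p ∣ n + a)
    (h2 : p ∣ n + b) : a = b :=
  Nat.ModEq.eq_of_lt_of_lt (Nat.ModEq.add_left_cancel' n
    (((Nat.modEq_zero_iff_dvd).2 h1).trans ((Nat.modEq_zero_iff_dvd).2 h2).symm))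
    (by omega) (by omega)

theorem tail {w : ℕ} (hw : 2 ≤ w) (R : ℕ) (hR : w ≤ R) :
    ∑ n ∈ Ioc w R, (1 / ((n : ℝ) - 1)) ^ 2 ≤ 1 / ((w : ℝ) - 1) - 1 / ((R : ℝ) - 1) := by
  induction R, hR using Nat.le_induction with
  | base => simp
  | succ R hR ih =>
    have h2 : (2 : ℝ) ≤ R := by exact_mod_cast hw.trans hR
    have h3 : (1 / (R : ℝ)) ^ 2 ≤ 1 / ((R : ℝ) - 1) - 1 / R := by
      rw [div_sub_div _ _ (by linarith) (by linarith), div_pow, div_le_div_iff₀ (by positivity)
        (mul_pos (by linarith) (by linarith))]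
      nlinarith
    rw [sum_Ioc_succ_top hR]
    push_cast
    rw [add_sub_cancel_right]
    linarith

theorem lo {w R : ℕ} (p : Si w R) : (w : ℝ) ≤ (p.1 : ℝ) - 1 := by
  have : ((w + 1 : ℕ) : ℝ) ≤ p.1 := Nat.cast_le.2 (si_mem p).1
  push_cast at this
  linarith

theorem two {w R : ℕ} (p : Si w R) : (2 : ℝ) ≤ p.1 := by exact_mod_cast (si_mem p).2.2.two_le

theorem r0 {w R : ℕ} (p : Si w R) : 0 ≤ rr w R p := div_nonneg zero_le_one (by linarith [two p])

theorem r1 {w R : ℕ} (p : Si w R) : rr w R p ≤ 1 :=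
  (div_le_one (by linarith [two p])).2 (by linarith [two p])

theorem prod1 (w : ℕ) {R : ℕ} (hR : 2 ≤ R) :
    ∏ p, (1 + rr w R p) ≤ (15 * Real.log R) ^ 2 := by
  have h1 : ∏ p : Si w R, (1 + 1 / (p.1 : ℝ)) ≤ 15 * Real.log R := by
    rw [prod_coe_sort (PP w R) fun p => 1 + 1 / (p : ℝ)]
    refine le_trans (prod_le_prod_of_subset_of_one_le (s := PP w R) (t := PP 0 R) (fun p hp => ?_)
      (fun _ _ => by positivity) fun _ _ _ => le_add_of_nonneg_right (by positivity)) ?_
    · rw [MP_fdd1d3_nt.mem_PP] at hp ⊢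
      exact ⟨⟨by omega, hp.1.2⟩, hp.2⟩
    · rw [prod_one_add]
      refine le_trans (le_of_eq (sum_congr rfl fun s _ => ?_)) (MP_fdd1d3_nt.mertens_b R hR)
      rw [prod_div_distrib, prod_const_one, MP_fdd1d3_nt.nn]
  refine le_trans ?_ (pow_le_pow_left₀ (by positivity) h1 2)
  rw [← prod_pow]
  refine prod_le_prod (fun p _ => by linarith [r0 p]) fun p _ => ?_
  have h2 := two p
  have e1 : 1 + rr w R p = p.1 / ((p.1 : ℝ) - 1) := by
    rw [rr, eq_div_iff (by linarith), add_mul, div_mul_cancel₀ _ (by linarith)]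
    ring
  have e2 : (1 + 1 / (p.1 : ℝ)) = (p.1 + 1) / p.1 := by field_simp
  rw [e1, e2, div_pow, div_le_div_iff₀ (by linarith) (by positivity)]
  nlinarith

end SiA

theorem s_St : StSt := by
  intro J _ h w R n hi hw
  have key : ∀ (p : Si w R) l, stt h w R n p = some l ↔ p.1 ∣ n + h l := fun p l => by
    rw [stt]
    split_ifs with H
    · rw [Option.some_inj]
      exact ⟨fun e => e ▸ H.choose_spec, fun e =>
        hi (SiA.uniq (si_mem p).1 (hw _) (hw _) H.choose_spec e)⟩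
    · exact ⟨fun e => (by cases e), fun e => absurd ⟨l, e⟩ H⟩
  refine ⟨key, fun j => funext fun p => ?_⟩
  simp only [pr, st1, key]

theorem s_Si : StSi := by
  intro w R hw
  have hw' : (2 : ℝ) ≤ w := by exact_mod_cast hw
  refine ⟨fun p => ⟨SiA.r0 p, ?_⟩, ?_, fun p => (si_mem p).2.2.one_le, fun k hR => ?_,
    fun hR => ?_, fun J _ hJ p => ⟨?_, ?_, fun l _ => ⟨fun h => absurd h (notMem_empty _),
      fun _ => ?_⟩⟩⟩
  · rw [rr, mul_one_div, div_le_one (by linarith [SiA.two p])]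
    exact SiA.lo p
  · have h1 : eta (rr w R) ≤ ∑ n ∈ Ioc w R, (1 / ((n : ℝ) - 1)) ^ 2 := by
      rw [eta]
      simp only [rr]
      rw [sum_coe_sort (PP w R) fun p => (1 / ((p : ℝ) - 1)) ^ 2]
      exact sum_le_sum_of_subset_of_nonneg (filter_subset _ _) fun _ _ _ => sq_nonneg _
    refine h1.trans ?_
    by_cases hR : w ≤ R
    · have h2 : (2 : ℝ) ≤ R := by exact_mod_cast hw.trans hR
      have h3 : 0 ≤ 1 / ((R : ℝ) - 1) := div_nonneg zero_le_one (by linarith)
      have h4 : 1 / ((w : ℝ) - 1) ≤ 2 / w := by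
        rw [div_le_div_iff₀ (by linarith) (by linarith)]
        linarith
      linarith [SiA.tail hw R hR]
    · rw [Ioc_eq_empty (by omega), sum_empty]
      positivity
  · have h1 : ∏ p, (1 + k * rr w R p) ≤ ∏ p, (1 + rr w R p) ^ k :=
      prod_le_prod (fun p _ => add_nonneg zero_le_one (mul_nonneg k.cast_nonneg (SiA.r0 p)))
        fun p _ => one_add_mul_le_pow (by linarith [SiA.r0 p]) k
    rw [prod_pow] at h1
    rw [pow_mul]
    exact h1.trans (pow_le_pow_left₀ (prod_nonneg fun p _ => by linarith [SiA.r0 p])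
      (SiA.prod1 w hR) k)
  · have h1 : ∑ p, rr w R p ≤ ∑ p, 2 * Real.log (1 + rr w R p) := sum_le_sum fun p _ => by
      have a0 := SiA.r0 p
      have a1 := SiA.r1 p
      have a2 := Real.one_sub_inv_le_log_of_pos (show 0 < 1 + rr w R p by linarith)
      have a3 : (1 + rr w R p)⁻¹ ≤ 1 - rr w R p / 2 := by
        rw [inv_eq_one_div, div_le_iff₀ (by linarith)]
        nlinarith
      linarith
    rw [← mul_sum, ← Real.log_prod fun p _ => by linarith [SiA.r0 p]] at h1
    have h2 := Real.log_le_log (prod_pos fun p _ => by linarith [SiA.r0 p]) (SiA.prod1 w hR)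
    rw [Real.log_pow] at h2
    push_cast at h2
    linarith
  · have h2 := SiA.two p
    rintro (_ | l)
    · have h3 : (Fintype.card J : ℝ) ≤ w := by exact_mod_cast hJ
      simp only [un, mk, sum_const, card_univ, nsmul_eq_mul, mul_one_div, sub_nonneg]
      rw [div_le_one (by linarith)]
      linarith [SiA.lo p]
    · simp only [un, mk]
      positivity
  · rw [Fintype.sum_option]
    simp only [un, mk, sub_add_cancel, sub_self, abs_zero]
    positivity
  · have h2 := SiA.two p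
    have h3 : 0 < (p.1 : ℝ) - 1 := by linarith
    simp only [un, mk, rr]
    rw [abs_sub_comm, abs_of_nonneg (sub_nonneg.2 (one_div_le_one_div_of_le h3 (by linarith))),
      div_sub_div _ _ h3.ne' (by linarith), one_mul (_ ^ 2), div_pow,
      div_le_div_iff₀ (by positivity) (by positivity)]
    nlinarith

theorem s_BF : StBF := by
  intro δ h0 h1
  have t1 : Tendsto (fun N : ℕ => (N : ℝ) ^ (1 / 4 - δ)) atTop atTop :=
    (tendsto_rpow_atTop (by linarith)).comp tendsto_natCast_atTop_atTop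
  have t2 : Tendsto (fun N : ℕ => Real.log N) atTop atTop :=
    Real.tendsto_log_atTop.comp tendsto_natCast_atTop_atTop
  filter_upwards [t1.eventually_ge_atTop 2, t2.eventually_ge_atTop (30 / δ),
    t2.eventually_ge_atTop 10000, eventually_gt_atTop 1] with N a1 a2 a3 a4
  have hN : (1 : ℝ) < N := by exact_mod_cast a4
  have b1 : (RR δ N : ℝ) ≤ (N : ℝ) ^ (1 / 4 - δ) := Nat.floor_le (by linarith)
  have b2 : 2 ≤ RR δ N := Nat.le_floor (by exact_mod_cast a1)
  have b3 : (2 : ℝ) ≤ RR δ N := by exact_mod_cast b2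
  have b4 : (N : ℝ) ^ (1 / 4 - δ) ≤ 2 * RR δ N := by
    have : (N : ℝ) ^ (1 / 4 - δ) < RR δ N + 1 := Nat.lt_floor_add_one _
    linarith
  have c1 := Real.log_le_log (by linarith) b1
  have c2 := Real.log_le_log (by linarith) b4
  rw [Real.log_rpow (by linarith)] at c1 c2
  rw [Real.log_mul two_ne_zero (by linarith)] at c2
  have c3 := Real.log_two_lt_d9
  have c4 := Real.log_two_gt_d9
  have c5 : 30 ≤ δ * Real.log N := by rwa [div_le_iff₀' h0] at a2
  have c6 : δ * Real.log N ≤ 1 / 2000 * Real.log N := by nlinarith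
  rw [Real.log_mul two_ne_zero (by linarith), ee]
  refine ⟨by nlinarith, by nlinarith, ?_, b1, ?_, b2, ?_⟩
  · have d1 : (4 + 17 * δ) * ((1 / 4 - δ) * Real.log N - Real.log 2) ≤
        (4 + 17 * δ) * Real.log (RR δ N) := mul_le_mul_of_nonneg_left (by linarith) (by linarith)
    have d2 : δ * (δ * Real.log N) ≤ 1 / 2000 * (δ * Real.log N) := by nlinarith
    have d3 : δ * Real.log 2 ≤ 1 / 2000 := by nlinarith
    nlinarith
  · have d1 : (N : ℝ) ^ (1 / 4 - δ) < (N : ℝ) ^ (1 : ℝ) :=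
      Real.rpow_lt_rpow_of_exponent_lt hN (by linarith)
    rw [Real.rpow_one] at d1
    exact_mod_cast b1.trans_lt d1
  · calc (RR δ N : ℝ) ^ 2 * (N : ℝ) ^ (δ / 2)
        ≤ ((N : ℝ) ^ (1 / 4 - δ)) ^ 2 * (N : ℝ) ^ (δ / 2) := by gcongr
      _ = (N : ℝ) ^ (1 / 2 - 3 * δ / 2) := by
        rw [sq, ← Real.rpow_add (by linarith), ← Real.rpow_add (by linarith)]
        congr 1
        ring

end Pool.Agent.MP_43e117_nt.PG

end
end

section

/-!
Transfer to the model for the weight `th`.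
-/

open Finset Filter

noncomputable section

namespace Pool.Agent.MP_43e117_nt.PG

namespace TAA

theorem ex_nonneg {ι J : Type} [Fintype ι] [DecidableEq ι] [Fintype J] [DecidableEq J]
    {r : ι → ℝ} {x : ℝ} (hr : Sm r x) (hx : (Fintype.card J : ℝ) ≤ x) (j : J) (S : Finset ι)
    {F : (ι → Option J) → ℝ} (hF : ∀ o, 0 ≤ F o) : 0 ≤ Ex (om r j S) F := by
  refine sum_nonneg fun o _ => mul_nonneg (prod_nonneg fun p _ => ?_) (hF o)
  have h0 := (hr p).1
  have h1 := (hr p).2
  unfold om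
  cases o p with
  | none =>
    simp only [mk]
    have h2 : ∑ l : J, (if l = j ∨ p ∈ S then 0 else r p) ≤ ∑ _l : J, r p :=
      sum_le_sum fun l _ => by split_ifs <;> linarith
    rw [sum_const, card_univ, nsmul_eq_mul] at h2
    nlinarith [mul_le_mul_of_nonneg_right hx h0]
  | some l =>
    simp only [mk]
    split_ifs <;> linarith

theorem sum_Ioc_eq (f : ℕ → ℝ) {a b : ℕ} (h : a ≤ b) :
    ∑ m ∈ Ioc a b, f m = ∑ m ∈ Icc 1 b, f m - ∑ m ∈ Icc 1 a, f m := by
  have e : ∀ c : ℕ, Icc 1 c = Ioc 0 c := fun c => by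
    ext m
    simp only [mem_Icc, mem_Ioc]
    omega
  rw [e, e, ← sum_Ioc_consecutive f (Nat.zero_le a) h]
  ring

theorem theta (hPNT : StPNT) {ε : ℝ} (hε : 0 < ε) : ∀ᶠ N : ℕ in atTop, ∀ x : ℕ,
    N + N / 2 + x ≤ 2 * N → |∑ m ∈ Ioc (N + x) (N + N / 2 + x), th m - XX N| ≤ ε * XX N := by
  obtain ⟨N0, h0⟩ := eventually_atTop.1 (hPNT 1)
  have hl : Tendsto (fun N : ℕ => Real.log N) atTop atTop :=
    Real.tendsto_log_atTop.comp tendsto_natCast_atTop_atTop
  filter_upwards [eventually_ge_atTop N0, eventually_ge_atTop 2,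
    hl.eventually_ge_atTop (12 / ε)] with N h1 h2 h3 x hx
  have hL : 0 < Real.log N := lt_of_lt_of_le (by positivity) h3
  have hN : (0 : ℝ) < N := by exact_mod_cast (by omega : 0 < N)
  have key : ∀ y : ℕ, N ≤ y → y ≤ 2 * N → |∑ n ∈ Icc 1 y, th n - y| ≤ ε * N / 6 := by
    intro y a1 a2
    have b1 := h0 y (h1.trans a1)
    rw [pow_one] at b1
    have b2 : Real.log N ≤ Real.log y := Real.log_le_log hN (by exact_mod_cast a1)
    have b3 : (y : ℝ) ≤ 2 * N := by exact_mod_cast a2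
    have b4 : (y : ℝ) / Real.log y ≤ 2 * N / Real.log N := by
      gcongr
    have b5 : 2 * (N : ℝ) / Real.log N ≤ ε * N / 6 := by
      rw [div_le_iff₀ hL]
      have : 12 ≤ ε * Real.log N := by
        rw [div_le_iff₀ hε] at h3
        linarith
      nlinarith
    linarith
  have k1 := key (N + x) (by omega) (by omega)
  have k2 := key (N + N / 2 + x) (by omega) hx
  have hX : (N : ℝ) ≤ 3 * XX N := by
    unfold XX
    exact_mod_cast (by omega : N ≤ 3 * (N / 2))
  rw [sum_Ioc_eq th (by omega)]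
  have e : ((N + N / 2 + x : ℕ) : ℝ) = ((N + x : ℕ) : ℝ) + XX N := by
    unfold XX
    rw [Nat.cast_add, Nat.cast_add, Nat.cast_add]
    ring
  rw [e] at k2
  rw [abs_le] at k1 k2 ⊢
  have : ε * N ≤ ε * (3 * XX N) := mul_le_mul_of_nonneg_left hX hε.le
  constructor <;> linarith [k1.1, k1.2, k2.1, k2.2]

theorem main_sum {w R N x : ℕ} (hR : R < N) (hw : w < N) (G : Finset (Si w R) → ℝ) :
    ∑ m ∈ IW N w x, th m * G (dv w R m) = (∑ m ∈ Ioc (N + x) (N + N / 2 + x), th m) * G ∅ := by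
  rw [IW, sum_filter, sum_mul]
  refine sum_congr rfl fun m hm => ?_
  have hm1 := (mem_Ioc.1 hm).1
  by_cases hp : m.Prime
  · have c1 : m.Coprime (WW w) := by
      rw [hp.coprime_iff_not_dvd, WW, hp.dvd_primorial_iff]
      omega
    have c2 : dv w R m = ∅ := by
      rw [dv, filter_eq_empty_iff]
      intro p _ hd
      obtain ⟨_, a2, a3⟩ := si_mem p
      have := (Nat.prime_dvd_prime_iff_eq a3 hp).1 hd
      omega
    rw [if_pos c1, c2]
  · simp [th, hp]

theorem lev (w : ℕ) {δ : ℝ} (hδ : 0 < δ) : ∀ᶠ N : ℕ in atTop,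
    (WW w : ℝ) * (N : ℝ) ^ (1 / 2 - 3 * δ / 2) ≤ (N : ℝ) ^ (1 / 2 - δ) := by
  have hl : Tendsto (fun N : ℕ => (N : ℝ) ^ (δ / 2)) atTop atTop :=
    (tendsto_rpow_atTop (by linarith)).comp tendsto_natCast_atTop_atTop
  filter_upwards [hl.eventually_ge_atTop (WW w : ℝ), eventually_ge_atTop 1] with N h1 h2
  have hN : (0 : ℝ) < N := by exact_mod_cast h2
  have e : (1 / 2 - δ) = δ / 2 + (1 / 2 - 3 * δ / 2) := by ring
  rw [e, Real.rpow_add hN]
  exact mul_le_mul_of_nonneg_right h1 (Real.rpow_nonneg hN.le _)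

end TAA

open TAA in
theorem s_TA (hBV : StBV) (hPNT : StPNT) (hSi : StSi) (hBF : StBF) (hTR : StTR) : StTA := by
  intro J _ _ h δ ε a A hinj hδ hδ' hε ha
  obtain ⟨c, hc⟩ : ∃ c : ℕ, a * Fintype.card J ≤ 2 ^ c := by
    obtain ⟨c, hc⟩ := pow_unbounded_of_one_lt (a * Fintype.card J) (by norm_num : (1 : ℝ) < 2)
    exact ⟨c, hc.le⟩
  refine ⟨max 2 (max (Fintype.card J) (univ.sup h)), fun w hw b hb => ?_⟩
  have hw2 : 2 ≤ w := le_of_max_le_left hw
  have hwJ : Fintype.card J ≤ w := le_of_max_le_left (le_of_max_le_right hw)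
  have hwh : ∀ l, h l ≤ w := fun l =>
    (le_sup (mem_univ l)).trans (le_of_max_le_right (le_of_max_le_right hw))
  filter_upwards [hBV δ (A + 2) c hδ (by linarith), hBF δ hδ hδ', theta hPNT hε, lev w hδ,
    eventually_ge_atTop (2 * w + 2)] with N h1 h2 h3 h4 h5 i F hF hE
  have hi := hwh i
  have hx : N + N / 2 + h i ≤ 2 * N := by omega
  have hL : 0 < Real.log N := Real.log_pos (by exact_mod_cast (by omega : 1 < N))
  have t1 := hTR J h w (RR δ N) b N c i th F _ _ a _ hinj hwh (hb i) hE ha hc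
    ((h1 (N + h i) (N + N / 2 + h i) (by omega) (by omega) hx).mono h4)
  rw [main_sum h2.2.2.2.2.1 (by omega) fun S => Ex (om (rr w (RR δ N)) i S) F] at t1
  have e1 : Real.log N ^ A * (N / Real.log N ^ (A + 2)) = er N := by
    unfold er
    field_simp
    ring
  rw [e1, abs_le] at t1
  have t2 := abs_le.1 (h3 (h i) hx)
  have t3 : 0 ≤ Ex (om (rr w (RR δ N)) i ∅) F :=
    ex_nonneg (hSi w (RR δ N) hw2).1 (by exact_mod_cast hwJ) i ∅ hF
  have hφ : (0 : ℝ) < (WW w).totient := Nat.cast_pos.2 (Nat.totient_pos.2 (WW_pos w))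
  have t4 : 0 ≤ Ex (om (rr w (RR δ N)) i ∅) F / (WW w).totient := div_nonneg t3 hφ.le
  set Θ := ∑ m ∈ Ioc (N + h i) (N + N / 2 + h i), th m
  set E := Ex (om (rr w (RR δ N)) i ∅) F
  have u1 : (1 - ε) * XX N * (E / (WW w).totient) ≤ Θ * (E / (WW w).totient) :=
    mul_le_mul_of_nonneg_right (by linarith [t2.1]) t4
  have u2 : Θ * (E / (WW w).totient) ≤ (1 + ε) * XX N * (E / (WW w).totient) :=
    mul_le_mul_of_nonneg_right (by linarith [t2.2]) t4
  have e2 : ∀ s : ℝ, s * be w N * E = s * XX N * (E / (WW w).totient) := fun s => by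
    unfold be
    ring
  rw [e2, e2]
  rw [mul_div_assoc] at t1
  constructor <;> linarith [t1.1, t1.2]

end Pool.Agent.MP_43e117_nt.PG

end
end

section

/-!
The transfer for the bilinear weight.
-/

open Finset Filter

noncomputable section

namespace Pool.Agent.MP_43e117_nt.PG

open MP_fdd1d3_nt (PP LL SS)

namespace TBA

theorem card_dv {w R m : ℕ} (h : Rough w R m) (he : 0 < ee R) : (dv w R m).card ≤ 802 := by
  have h1 := MP_fdd1d3_nt.LL_le_log ((dv w R m).map (Function.Embedding.subtype _)) m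
    (Nat.pos_of_ne_zero h.1) fun p hp => by
      obtain ⟨q, hq, rfl⟩ := mem_map.1 hp
      exact ⟨(si_mem q).2.2, (mem_filter.1 hq).2⟩
  rw [LL, sum_map] at h1
  have h2 := card_nsmul_le_sum (dv w R m) (fun p => Real.log p.1) (ee R) fun p hp =>
    (h.2.2 p (mem_filter.1 hp).2).le
  rw [nsmul_eq_mul] at h2
  have h3 := le_of_mul_le_mul_right (h2.trans (h1.trans h.2.1)) he
  exact_mod_cast h3

theorem sq_le {x : ℝ} {a n : ℕ} (h : |x| ≤ 2 ^ a) (ha : a ≤ n) : |x ^ 2| ≤ 4 ^ n := by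
  rw [abs_pow, show (4 : ℝ) = 2 ^ 2 by norm_num, ← pow_mul, mul_comm, pow_mul]
  exact pow_le_pow_left₀ (abs_nonneg _) (h.trans (pow_le_pow_right₀ one_le_two ha)) 2

theorem ev_ee (C : ℝ) : ∀ᶠ R : ℕ in atTop, C ≤ ee R :=
  ((Real.tendsto_log_atTop.comp tendsto_natCast_atTop_atTop).atTop_div_const
    (by norm_num)).eventually_ge_atTop C

theorem ev_pow {x : ℝ} (hx : 0 < x) (C : ℝ) : ∀ᶠ N : ℕ in atTop, C ≤ (N : ℝ) ^ x :=
  ((tendsto_rpow_atTop hx).comp tendsto_natCast_atTop_atTop).eventually_ge_atTop C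

theorem fb_eq {w R : ℕ} (h1 : w ≤ ⌊Real.exp (180 * ee R)⌋₊) (h2 : ⌊Real.exp (181 * ee R)⌋₊ ≤ R) :
    fb w R = bl ⌊Real.exp (180 * ee R)⌋₊ ⌊Real.exp (181 * ee R)⌋₊
      fun n => bb w R n / Real.log R := by
  funext m
  have hs : PL (180 * ee R) (181 * ee R) ⊆ PP w R :=
    filter_subset_filter _ (Ioc_subset_Ioc h1 h2)
  have e1 : fb w R m = ∑ p ∈ PP w R, if p ∣ m then
      (if 180 * ee R < Real.log p ∧ Real.log p ≤ 181 * ee R then Real.log p / Real.log R else 0) *
        bb w R (m / p) else 0 := sum_coe_sort (PP w R) fun p => if p ∣ m then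
      (if 180 * ee R < Real.log p ∧ Real.log p ≤ 181 * ee R then Real.log p / Real.log R else 0) *
        bb w R (m / p) else 0
  rw [e1, bl, sum_filter, ← sum_subset hs,
    ← sum_subset (filter_subset Nat.Prime _ : PL (180 * ee R) (181 * ee R) ⊆ _)]
  · refine sum_congr rfl fun p hp => ?_
    rw [if_pos (mem_PL.1 hp).2, th, if_pos (mem_PL.1 hp).1]
    split_ifs
    · ring
    · rfl
  · intro p hp hp'
    rw [th, if_neg (fun h : p.Prime => hp' (mem_filter.2 ⟨hp, h⟩)), zero_mul, ite_self]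
  · intro p hp hp'
    rw [if_neg (fun h => hp' (mem_PL.2 ⟨(mem_filter.1 hp).2, h⟩)), zero_mul, ite_self]

end TBA

open TBA

theorem s_FS (hP2 : StP2) (hSi : StSi) : StFS := by
  intro ε w hε hw
  filter_upwards [ev_ee (803 / ε)] with R hR
  have he : 0 < ee R := lt_of_lt_of_le (by positivity) hR
  have hS : Sm (rr w R) 1 := fun p => by
    have h1 := (hSi w R hw).1 p
    have h2 : (1 : ℝ) ≤ w := Nat.one_le_cast.2 (by omega)
    exact ⟨h1.1, (mul_le_mul_of_nonneg_right h2 h1.1).trans h1.2⟩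
  refine ⟨fun m => ?_, fun m hm => ?_⟩
  · unfold bb
    split_ifs with h
    · have h1 := hP2 _ (rr w R) (qq w R) (109 * ee R) (st1 w R m) hS (by positivity)
      rw [SS_st1] at h1
      exact sq_le h1 (card_dv h.1 he)
    · rw [abs_zero]
      exact pow_nonneg (by norm_num) _
  · obtain ⟨p, -, hp⟩ := exists_ne_zero_of_sum_ne_zero hm
    have h1 : p.1 ∣ m := by_contra fun h => hp (if_neg h)
    rw [if_pos h1] at hp
    have h2 : 180 * ee R < Real.log p.1 := by_contra fun h =>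
      left_ne_zero_of_mul hp (if_neg fun h' => h h'.1)
    have h3 : Rough w R (m / p.1) := by_contra fun h =>
      right_ne_zero_of_mul hp (if_neg fun h' => h h'.1)
    have h4 : dv w R m ⊆ insert p (dv w R (m / p.1)) := fun q hq => by
      have h5 := (mem_filter.1 hq).2
      rw [← Nat.mul_div_cancel' h1, (si_mem q).2.2.dvd_mul] at h5
      rcases h5 with h | h
      · exact mem_insert.2 (Or.inl (Subtype.ext
          ((Nat.prime_dvd_prime_iff_eq (si_mem q).2.2 (si_mem p).2.2).1 h)))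
      · exact mem_insert_of_mem (mem_filter.2 ⟨mem_univ _, h⟩)
    have h5 : ((dv w R m).card : ℝ) ≤ 803 := by
      have := (card_le_card h4).trans (card_insert_le _ _)
      have := card_dv h3 he
      exact_mod_cast (by omega : (dv w R m).card ≤ 803)
    have h6 := sum_le_card_nsmul (dv w R m) (rr w R) (ε / 803) fun q hq => by
      have h7 : ee R ≤ Real.log q.1 := by
        rcases mem_insert.1 (h4 hq) with rfl | h
        · linarith
        · exact (h3.2.2 q (mem_filter.1 h).2).le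
      have h8 := Real.log_le_sub_one_of_pos (Nat.cast_pos.2 (si_mem q).2.2.pos : (0 : ℝ) < q.1)
      refine (one_div_le_one_div_of_le (by positivity) (hR.trans (h7.trans h8))).trans_eq ?_
      rw [one_div_div]
    rw [nsmul_eq_mul] at h6
    refine h6.trans ((mul_le_mul_of_nonneg_right h5 (by positivity)).trans_eq ?_)
    ring

theorem s_TB (hBB : StBB) (hBF : StBF) (hTR : StTR) (hFS : StFS) : StTB := by
  intro J _ _ h δ a A hinj h0 h1 ha
  obtain ⟨c, hc⟩ := pow_unbounded_of_one_lt (a * Fintype.card J) (one_lt_two : (1 : ℝ) < 2)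
  obtain ⟨B, hB⟩ : ∃ B : ℝ, ∀ w, 2 ≤ w → ∀ᶠ R : ℕ in atTop, ∀ m, |bb w R m| ≤ B :=
    ⟨_, fun w hw => (hFS 1 w one_pos hw).mono fun _ h => h.1⟩
  have hδ : δ < 1 / 4 := by linarith
  refine ⟨max 2 (univ.sup h), fun w hw b hb => ?_⟩
  have hl : ∀ l, h l ≤ w := fun l => (le_sup (mem_univ l)).trans (le_of_max_le_right hw)
  filter_upwards [hBF δ h0 h1, (tendsto_RR hδ).eventually (hB w (le_of_max_le_left hw)),
    (tendsto_RR hδ).eventually (ev_ee 1), hBB δ B (A + 4) c h0 hδ.le,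
    ev_pow (half_pos h0) (WW w), ev_pow (by norm_num : (0 : ℝ) < 1 / 10) w,
    eventually_ge_atTop (2 * w + 2)] with N a1 a2 a3 a4 a5 a6 a7 j F hF
  obtain ⟨-, b1, -, b2, -, b3, -⟩ := a1
  generalize RR δ N = R at *
  have hN : (1 : ℝ) < N := Nat.one_lt_cast.2 (by omega)
  have hR : (0 : ℝ) < R := Nat.cast_pos.2 (by omega)
  have hL : Real.log R = 200 * ee R := by unfold ee; ring
  have c1 : (N : ℝ) ^ (1 / 10 : ℝ) ≤ ⌊Real.exp (180 * ee R)⌋₊ := by
    have d1 : Real.log N ≤ Real.log (2 * N) := Real.log_le_log (by linarith) (by linarith)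
    have d2 : (N : ℝ) ^ (1 / 10 : ℝ) ≤ Real.exp (90 * ee R) := by
      rw [Real.rpow_def_of_pos (by linarith)]
      exact Real.exp_le_exp.2 (by linarith)
    have d3 := Real.add_one_le_exp (90 * ee R)
    have d4 := Nat.lt_floor_add_one (Real.exp (180 * ee R))
    rw [show 180 * ee R = 90 * ee R + 90 * ee R by ring, Real.exp_add] at d4 ⊢
    nlinarith
  have c2 : ⌊Real.exp (181 * ee R)⌋₊ ≤ R := by
    refine Nat.floor_le_of_le ?_
    conv_rhs => rw [← Real.exp_log hR]
    exact Real.exp_le_exp.2 (by linarith)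
  have c3 := a4 (N + h j) (N + N / 2 + h j) _ _ (fun n => bb w R n / Real.log R) (by omega)
    (by omega) (by have := hl j; omega) c1 ((Nat.cast_le.2 c2).trans (b2.trans
      (Real.rpow_le_rpow_of_exponent_le hN.le (by linarith)))) fun n => by
      rw [abs_div]
      exact (div_le_self (abs_nonneg _) (le_abs.2 (Or.inl (by linarith)))).trans (a2 n)
  rw [← fb_eq (Nat.cast_le.1 (a6.trans c1)) c2] at c3
  have c4 : WW w * (N : ℝ) ^ (1 / 2 - 3 * δ / 2) ≤ (N : ℝ) ^ (1 / 2 - δ) := by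
    refine (mul_le_mul_of_nonneg_right a5 (by positivity)).trans_eq ?_
    rw [← Real.rpow_add (by linarith)]
    ring_nf
  refine (hTR J h w R b N c j _ F _ _ a _ hinj hl (hb j) hF ha hc.le (c3.mono c4)).trans_eq ?_
  have := (Real.log_pos hN).ne'
  rw [pow_add]
  field_simp

end Pool.Agent.MP_43e117_nt.PG

end
end
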