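import Pool.Agent.Mg.F436a94p.Gcdf306

set_option linter.all false

/-!
The choice of the multidimensional sieve coefficients.
-/

open Finset Filter

noncomputable section

namespace Pool.Agent.MP_43e117_nt.PG

namespace MaA

theorem tail {m γ K η z D T ε lam n : ℝ} {c : ℕ} (hc : 2 ≤ c) (hγ : 0 ≤ γ) (hK : 0 ≤ K)
    (hε : 0 ≤ ε) (hD : 0 < D) (hT : T ≤ D / 2) (hη : 3 * K ^ 2 * η ≤ ε / 2)
    (hz : z ≤ 16 * n * lam * γ) (hl : 64 * n * K * lam = ε * D) :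
    (1 - ε) * m ^ 2 * γ ^ (c - 1) ≤
      m ^ 2 * (γ ^ (c - 1) * (1 - 3 * K ^ 2 * η) - K * z * γ ^ (c - 2) / (D - T)) := by
  obtain ⟨d, rfl⟩ : ∃ d, c = d + 2 := ⟨c - 2, by omega⟩
  rw [show d + 2 - 1 = d + 1 by omega, Nat.add_sub_cancel, pow_succ γ d]
  have hp : 0 ≤ γ ^ d := pow_nonneg hγ d
  have h1 : K * z ≤ ε / 2 * γ * (D - T) := by
    have h2 : K * z ≤ K * (16 * n * lam * γ) := mul_le_mul_of_nonneg_left hz hK
    have h3 : K * (16 * n * lam * γ) = ε / 2 * γ * (D / 2) := by linear_combination γ / 4 * hl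
    have h4 : ε / 2 * γ * (D / 2) ≤ ε / 2 * γ * (D - T) :=
      mul_le_mul_of_nonneg_left (by linarith) (by positivity)
    linarith
  have h5 : K * z * γ ^ d / (D - T) ≤ ε / 2 * (γ ^ d * γ) := by
    rw [div_le_iff₀ (by linarith)]
    nlinarith [mul_le_mul_of_nonneg_right h1 hp]
  have h6 : γ ^ d * γ * (1 - ε / 2) ≤ γ ^ d * γ * (1 - 3 * K ^ 2 * η) :=
    mul_le_mul_of_nonneg_left (by linarith) (mul_nonneg hp hγ)
  rw [mul_comm (1 - ε), mul_assoc]
  exact mul_le_mul_of_nonneg_left (by linarith) (sq_nonneg m)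

theorem last {μ V L' L γ K m n lam ε δ : ℝ} (hV : 0 < V) (hL0 : 0 ≤ L') (hL : L' ≤ 2 * L)
    (hγ0 : 0 ≤ γ) (hγ : γ ≤ 4 * V * lam) (hK : 0 ≤ K) (hn : 0 < n) (hlam : 0 < lam)
    (hm : n * V * lam / 4 ≤ m) (hl : 64 * n * K * lam = ε * (δ / 4 * L))
    (hμ : 32768 * μ ≤ n * (ε * δ)) (hεδ : 0 < ε * δ) : μ * V * L' * γ ≤ K * m ^ 2 := by
  have hL1 : 0 ≤ L := by linarith
  have h1 : K * (n * V * lam / 4) ^ 2 ≤ K * m ^ 2 := by gcongr
  have h2 : μ * V * L' * γ ≤ n * (ε * δ) / 32768 * V * (2 * L) * (4 * V * lam) := by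
    have h3 : μ * (V * L' * γ) ≤ n * (ε * δ) / 32768 * (V * L' * γ) :=
      mul_le_mul_of_nonneg_right (by linarith) (by positivity)
    have h4 : n * (ε * δ) / 32768 * (V * L' * γ) ≤
        n * (ε * δ) / 32768 * (V * (2 * L) * (4 * V * lam)) := by gcongr
    linarith
  have h5 : n * (ε * δ) / 32768 * V * (2 * L) * (4 * V * lam) = K * (n * V * lam / 4) ^ 2 := by
    linear_combination (-(n * V ^ 2 * lam / 1024)) * hl
  linarith

theorem adm {J : Type} [Fintype J] [DecidableEq J] (hRM : StRM) {δ : ℝ} {A N w : ℕ}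
    {Lb Lb' : J → Prop} {C : (Si w (RR δ N) → Option J) → ℝ} (i : J) {M : ℝ}
    (hr : ∀ p, 0 ≤ rr w (RR δ N) p) (hq : ∀ p, 1 ≤ qq w (RR δ N) p) (hC : Adm δ A N w Lb C)
    (hM : ∀ σ, |C σ| ≤ M) (hL : ∀ l, Lb l → l ≠ i → Lb' l)
    (hb : M * ∏ p, (1 + (Fintype.card J : ℝ) * rr w (RR δ N) p) ≤ Real.log N ^ A) :
    Adm δ A N w Lb' (red (rr w (RR δ N)) i C) ∧
      ∀ σ, |red (rr w (RR δ N)) i C σ| ≤ M * ∏ p, (1 + (Fintype.card J : ℝ) * rr w (RR δ N) p) := by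
  obtain ⟨h1, h2, -, h4, h5⟩ := hRM _ J (rr w (RR δ N)) (fun _ l => l = i) C hr
  have h6 := h4 M _ le_rfl hM
  refine ⟨⟨h1 hC.1, fun σ hσ p l hl => ?_, fun σ => (h6 σ).trans hb, h5 _ _ hq hC.2.2.2⟩, h6⟩
  have h7 := h2 _ hC.2.1 σ hσ p l hl
  exact hL l h7.1 h7.2

end MaA

theorem s_Ma (hRM : StRM) (hY1 : StY1) (hY2 : StY2) (hY3 : StY3) (hMY : StMY) (hSi : StSi)
    (hBF : StBF) (hGA : StGA) : StMa := by
  intro δ μ ε' hδ hδ' hε'
  obtain ⟨ε, hε, hε1, hεε⟩ : ∃ ε : ℝ, 0 < ε ∧ ε ≤ 1 ∧ ε ≤ ε' :=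
    ⟨min ε' 1, lt_min hε' one_pos, min_le_right _ _, min_le_left _ _⟩
  have hεδ : 0 < ε * δ := mul_pos hε hδ
  obtain ⟨n, hn⟩ := exists_nat_ge (32768 * μ / (ε * δ))
  have hμ : 32768 * μ ≤ ((n : ℝ) + 1) * (ε * δ) := by
    rw [div_le_iff₀ hεδ] at hn
    linarith
  refine ⟨max 2 (2 ^ n), fun J _ _ hJ => ?_⟩
  have hc2 : 2 ≤ Fintype.card J := le_of_max_le_left hJ
  set K : ℝ := (Fintype.card J : ℝ) with hK
  have hK2 : (2 : ℝ) ≤ K := by rw [hK]; exact_mod_cast hc2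
  have hKn : (2 : ℝ) ^ n ≤ K := by rw [hK]; exact_mod_cast le_of_max_le_right hJ
  have hn1 : (1 : ℝ) ≤ n + 1 := by linarith [Nat.cast_nonneg (α := ℝ) n]
  set c : ℝ := ε * δ / (256 * (n + 1) * K) with hc
  have hc0 : 0 < c := by positivity
  obtain ⟨w1, hw1⟩ := hGA (c / 2) (by positivity)
  obtain ⟨w2, hw2⟩ := exists_nat_ge (12 * K ^ 2 / ε)
  refine ⟨8 * Fintype.card J, max (max w1 w2) 2, fun w hw => ?_⟩
  have hw0 : 2 ≤ w := le_of_max_le_right hw
  have hwR : (0 : ℝ) < w := by exact_mod_cast (by omega : 0 < w)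
  have hwK : 12 * K ^ 2 ≤ w * ε := by
    rw [← div_le_iff₀ hε]
    exact hw2.trans (by exact_mod_cast le_of_max_le_right (le_of_max_le_left hw))
  have hV := VV_pos w
  have hlog : Tendsto (fun N : ℕ => Real.log N) atTop atTop :=
    Real.tendsto_log_atTop.comp tendsto_natCast_atTop_atTop
  filter_upwards [hBF δ hδ hδ', (tendsto_RR (by linarith : δ < 1 / 4)).eventually
    (hw1 w (le_of_max_le_left (le_of_max_le_left hw))), hlog.eventually_ge_atTop 4,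
    hlog.eventually_ge_atTop (8 / (VV w * c))] with N hB hG hL4 hL8
  obtain ⟨b1, b2, -, -, b5, b6, -⟩ := hB
  obtain ⟨s1, s2, s3, s4, -, -⟩ := hSi w (RR δ N) hw0
  have hr : ∀ p, 0 ≤ rr w (RR δ N) p := fun p => (s1 p).1
  have hN : (2 : ℝ) ≤ N := by exact_mod_cast (by omega : 2 ≤ N)
  have hN0 : (0 : ℝ) < N := by linarith
  have hL2 : Real.log (2 * N) ≤ 2 * Real.log N := by
    rw [Real.log_mul two_ne_zero hN0.ne']
    linarith [Real.log_le_log two_pos hN]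
  have hL3 : Real.log N ≤ Real.log (2 * N) := Real.log_le_log hN0 (by linarith)
  have hexp : Real.exp (δ / 4 * Real.log N) = (N : ℝ) ^ (δ / 4) := by
    rw [Real.rpow_def_of_pos hN0, mul_comm]
  rw [ee] at b1 b2
  set L := Real.log N with hL
  set lam := c * L with hlam
  have hlam0 : 0 < lam := by positivity
  have hl : 64 * (n + 1) * K * lam = ε * (δ / 4 * L) := by
    rw [hlam, hc]
    field_simp
    norm_num
  have hVl : 8 ≤ VV w * lam := by
    rw [div_le_iff₀ (by positivity)] at hL8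
    rw [hlam]
    linarith
  have hD0 : 0 < δ / 4 * L := by positivity
  have hT : 2 ^ n * lam ≤ δ / 4 * L / 2 := by
    have h1 : 2 ^ n * lam ≤ K * lam := by gcongr
    have h2 : K * lam ≤ (n + 1) * (K * lam) := le_mul_of_one_le_left (by positivity) hn1
    have h3 : ε * (δ / 4 * L) ≤ δ / 4 * L := mul_le_of_le_one_left hD0.le hε1
    linarith
  have hTR : 2 ^ n * lam ≤ Real.log (RR δ N) := by
    have h1 : δ * L ≤ 1 / 2000 * L := by gcongr
    linarith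
  obtain ⟨g, hg, g1, g2, g3, g4, g5⟩ := hMY _ (rr w (RR δ N)) (qq w (RR δ N)) (VV w) lam n hr hV
    hlam0 fun j hj => by
      have h1 : lam ≤ 2 ^ j * lam := le_mul_of_one_le_left hlam0.le (one_le_pow₀ one_le_two)
      have h2 : (2 : ℝ) ^ j * lam ≤ 2 ^ n * lam := by gcongr; norm_num
      have h3 := hG _ (h2.trans hTR)
      rw [max_eq_left (by positivity), abs_le, GA] at h3
      have h4 : c / 2 * VV w * Real.log (RR δ N) ≤ c / 2 * VV w * L := by
        gcongr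
        linarith
      have h5 : VV w * lam ≤ VV w * (2 ^ j * lam) := by gcongr
      have h6 : c / 2 * VV w * L = VV w * lam / 2 := by rw [hlam]; ring
      constructor <;> linarith [h3.1, h3.2]
  obtain ⟨y1, y2, y3⟩ := hY1 _ J (rr w (RR δ N)) (qq w (RR δ N)) g (δ / 4 * L) hr s3 hg
  have hγ : 1 ≤ ga (rr w (RR δ N)) g := by linarith
  have hyb : ∀ σ, |yy (J := J) (qq w (RR δ N)) g (δ / 4 * L) σ| ≤ 1 := fun σ => by
    rw [abs_of_nonneg (y1.1 σ)]
    exact (y2 σ).1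
  have hy : Adm δ (8 * Fintype.card J) N w (fun _ : J => True)
      (yy (qq w (RR δ N)) g (δ / 4 * L)) :=
    ⟨y1, fun _ _ _ _ _ => trivial, fun σ => (hyb σ).trans (one_le_pow₀ (by linarith)),
      fun σ hσ => hexp ▸ (y2 σ).2 hσ⟩
  have hΛ : ∏ p, (1 + K * rr w (RR δ N) p) ≤ L ^ (4 * Fintype.card J) := by
    refine (s4 _ b6).trans ?_
    rw [show 4 * Fintype.card J = 2 * (2 * Fintype.card J) by ring, pow_mul L]
    have h1 : 0 ≤ Real.log (RR δ N) := Real.log_natCast_nonneg _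
    exact pow_le_pow_left₀ (by positivity) (by nlinarith) _
  have hΛ0 : 0 ≤ ∏ p, (1 + K * rr w (RR δ N) p) :=
    prod_nonneg fun p _ => by have := hr p; positivity
  have h1 := fun i : J => MaA.adm (Lb' := fun l => l ≠ i) hRM i hr s3 hy hyb (fun _ _ h => h) (by
    rw [one_mul]
    exact hΛ.trans (pow_le_pow_right₀ (by linarith) (by omega)))
  refine ⟨_, m1 (rr w (RR δ N)) g, ga (rr w (RR δ N)) g, ?_, hγ, hy, fun i => (h1 i).1,
    fun i j => (MaA.adm hRM j hr s3 (h1 i).1 (h1 i).2 (fun _ h h' => ⟨h, h'⟩) ?_).1, y3,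
    fun i => ?_, fun i j hij => hY3 _ J _ _ g _ i j hr hg hij, ?_⟩
  · nlinarith
  · rw [one_mul, show 8 * Fintype.card J = 4 * Fintype.card J + 4 * Fintype.card J by ring,
      pow_add]
    exact mul_le_mul hΛ hΛ hΛ0 (hΛ0.trans hΛ)
  · refine le_trans ?_ (hY2 _ J _ _ g K _ _ i hr hg le_rfl hc2 g1 (by linarith))
    refine le_trans ?_ (MaA.tail (n := n + 1) (lam := lam) hc2 (by linarith) (by linarith) hε.le hD0
      hT ?_ ?_ hl)
    · have : 0 ≤ ga (rr w (RR δ N)) g := by linarith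
      gcongr
    · have h2 : 3 * K ^ 2 * eta (rr w (RR δ N)) ≤ 3 * K ^ 2 * (2 / w) := by gcongr
      refine h2.trans ?_
      rw [← mul_div_assoc, div_le_iff₀ hwR]
      linarith
    · have h2 : (n + 1) * lam * (VV w * lam) ≤ (n + 1) * lam * (8 * ga (rr w (RR δ N)) g) :=
        mul_le_mul_of_nonneg_left (by linarith) (by positivity)
      linarith
  · exact MaA.last hV (by linarith) hL2 (by linarith) g4 (by linarith) (by linarith) hlam0 g2 hl hμ
      hεδ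

end Pool.Agent.MP_43e117_nt.PG
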