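import Pool.Agent.Mg.F436a94p.Gcdf306

set_option linter.all false

section

/-!
The upper bound for pairs of primes with a constant below that of the Selberg sieve.
-/

open Finset Filter

namespace Pool.Agent.MP_43e117_nt.PG

namespace PairA

theorem num {X φ Q E G Gc L V Lg Sf er U1 L1 U2 U3 S : ℝ} (hX : 0 ≤ X) (hφ : 0 < φ) (hQ : 0 ≤ Q)
    (hE : 1 / 250 ≤ E) (hV : 0 < V) (hL : 0 < L) (hG : |G - V * L| ≤ 1 / 1000 * V * L)
    (hGc : |Gc - V * (109 * (L / 200))| ≤ 1 / 1000 * V * L) (hLg : Lg ≤ 802 * (L / 200))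
    (hLg0 : 0 ≤ Lg) (her : 0 ≤ er)
    (hSf : Sf ≤ (1 + 1 / 1000) * X * V * E / Gc - 141 / 100 * X * E / L)
    (h1 : U1 ≤ (1 + 1 / 10 ^ 11) * (X / φ) * Q / G + er)
    (h2 : (1 - 1 / 1000) * (X / φ) * Q * E / Gc - er ≤ L1)
    (h3 : U2 ≤ 3 / 100 * (X / φ) * Q * E / Gc + er)
    (h4 : U3 ≤ (1 + 1 / 1000) * Lg * Q / G * (Sf / φ) + er)
    (hS : S ≤ U1 - 1 / 2560000 * (L1 - U3 - U2)) :
    S ≤ (1 - 1 / 10 ^ 11) * (X / φ) * Q / G + 4 * er := by
  have hx : 0 < V * L := mul_pos hV hL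
  obtain ⟨g1, -⟩ := abs_le.1 hG
  obtain ⟨g2, g3⟩ := abs_le.1 hGc
  have hG0 : 0 < G := by linarith
  have hC0 : 0 < Gc := by linarith
  have hE0 : 0 ≤ E := by linarith
  have hb : 0 ≤ X / φ := div_nonneg hX hφ.le
  set u := X / φ * Q * E / (V * L) with hu
  have hu0 : 0 ≤ u := by positivity
  have a1 : u * (1000 / 546) ≤ X / φ * Q * E / Gc := by
    have : u * (1000 / 546) = X / φ * Q * E / (546 / 1000 * (V * L)) := by
      rw [hu]; field_simp
    rw [this]
    exact div_le_div_of_nonneg_left (by positivity) hC0 (by linarith)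
  have a2 : Sf / φ ≤ X / φ * E / L * (1001 / 544 - 141 / 100) := by
    have b1 : (1 + 1 / 1000) * X * V * E / Gc ≤
        (1 + 1 / 1000) * X * V * E / (544 / 1000 * (V * L)) :=
      div_le_div_of_nonneg_left (by positivity) (by positivity) (by linarith)
    have b2 : (1 + 1 / 1000) * X * V * E / (544 / 1000 * (V * L)) - 141 / 100 * X * E / L =
        X / φ * E / L * (1001 / 544 - 141 / 100) * φ := by
      field_simp
      ring
    rw [div_le_iff₀ hφ]
    linarith
  have a3 : (1 + 1 / 1000) * Lg * Q / G ≤ (1 + 1 / 1000) * (802 * (L / 200)) * Q /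
      (999 / 1000 * (V * L)) := by
    gcongr
    linarith
  have a4 : (1 + 1 / 1000) * Lg * Q / G * (Sf / φ) ≤
      u * (1001 / 999 * (401 / 100) * (1001 / 544 - 141 / 100)) := by
    calc _ ≤ (1 + 1 / 1000) * Lg * Q / G * (X / φ * E / L * (1001 / 544 - 141 / 100)) :=
          mul_le_mul_of_nonneg_left a2 (by positivity)
      _ ≤ (1 + 1 / 1000) * (802 * (L / 200)) * Q / (999 / 1000 * (V * L)) *
            (X / φ * E / L * (1001 / 544 - 141 / 100)) :=
          mul_le_mul_of_nonneg_right a3 (by positivity)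
      _ = _ := by
          rw [hu]
          field_simp
          ring
  have a5 : X / φ * Q / G * (999 / 250000) ≤ u := by
    have b1 : X / φ * Q / G ≤ X / φ * Q / (999 / 1000 * (V * L)) :=
      div_le_div_of_nonneg_left (by positivity) (by positivity) (by linarith)
    have b2 : X / φ * Q / (999 / 1000 * (V * L)) * (999 / 250000) =
        X / φ * Q * (1 / 250) / (V * L) := by
      field_simp
      ring
    have b3 : X / φ * Q * (1 / 250) / (V * L) ≤ u := by
      rw [hu]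
      gcongr
    linarith
  have e1 : (1 + 1 / 10 ^ 11) * (X / φ) * Q / G = (1 + 1 / 10 ^ 11) * (X / φ * Q / G) := by ring
  have e2 : (1 - 1 / 10 ^ 11) * (X / φ) * Q / G = (1 - 1 / 10 ^ 11) * (X / φ * Q / G) := by ring
  have e3 : (1 - 1 / 1000) * (X / φ) * Q * E / Gc = (1 - 1 / 1000) * (X / φ * Q * E / Gc) := by
    ring
  have e4 : 3 / 100 * (X / φ) * Q * E / Gc = 3 / 100 * (X / φ * Q * E / Gc) := by ring
  rw [e1] at h1
  rw [e3] at h2
  rw [e4] at h3
  rw [e2]
  linarith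

end PairA

theorem s_Pair (hSB : StSB) (hSi : StSi) (hBF : StBF) (hEt : StEt) (hGA : StGA) (hU1 : StU1)
    (hL1 : StL1) (hU2 : StU2) (hU3 : StU3) (hU4 : StU4) (hW1 : StW1) (hW2 : StW2) (hGM : StGM) :
    StPair := by
  intro J _ _ h δ A hi h0 h1
  have hδ : δ < 1 / 4 := by linarith
  have hh : ∀ᶠ N : ℕ in atTop, ∀ j, N + N / 2 + h j ≤ 2 * N := by
    refine eventually_all.2 fun j => ?_
    filter_upwards [eventually_ge_atTop (2 * h j)] with N hN
    omega
  refine ((((((((((hU1 J h δ (1 / 10 ^ 11) A hi h0 h1 (by norm_num)).and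
    (hL1 J h δ (1 / 1000) A hi h0 h1 (by norm_num))).and (hU2 J h δ A hi h0 h1)).and
    (hU3 J h δ (1 / 1000) A hi h0 h1 (by norm_num))).and
    (hU4 J h δ (1 / 1000) h0 h1 (by norm_num))).and (hGM J h δ h0 h1)).and
    (((hEt.and (hGA (1 / 1000) (by norm_num))).and hW1).ev h hδ)).and
    (Ev.of_w h 0 fun _ _ => (hBF δ h0 h1).and hh)).and (Ev.cop h 2))).mono ?_
  rintro w b N ⟨⟨⟨⟨⟨⟨⟨⟨u1, l1⟩, u2⟩, u3⟩, u4⟩, gm⟩, ⟨et, ga⟩, w1⟩,
    ⟨b1, b2, -, -, b5, b6, -⟩, hN⟩, hw, -⟩ i j hij C hC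
  have hr := fun p => ((hSi w (RR δ N) hw).1 p).1
  have hL : 0 < Real.log (RR δ N) := Real.log_pos (by exact_mod_cast b6)
  have hlog : ∀ m : ℕ, N < m → m ≤ 2 * N → Real.log m ≤ 802 * ee (RR δ N) := fun m m1 m2 =>
    (Real.log_le_log (by exact_mod_cast (by omega : 0 < m)) (by exact_mod_cast m2)).trans b2
  have g1 := ga _ le_rfl
  have g2 := ga (109 * ee (RR δ N)) (by unfold ee; linarith)
  rw [max_eq_left hL.le] at g1
  rw [max_eq_left (by unfold ee; positivity)] at g2
  refine PairA.num (Sf := ∑ m ∈ IW N w (h j), fb w (RR δ N) m) (Nat.cast_nonneg _)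
    (Nat.cast_pos.2 (Nat.totient_pos.2 (WW_pos w)))
    (sum_nonneg fun σ _ => mul_nonneg (hh_nonneg hr σ) (sq_nonneg _)) et.1 (VV_pos w) hL g1 g2 b2
    (Real.log_nonneg (by exact_mod_cast (by omega : 1 ≤ 2 * N))) (by unfold er; positivity) ?_
    (u1 i j hij C hC) (l1 i j hij C hC) (u2 i j hij C hC) (u3 i j hij C hC) ?_
  · refine le_trans ?_ (sub_le_sub (u4 j) (gm j))
    rw [← sum_sub_distrib]
    refine sum_le_sum fun m hm => ?_
    have := mem_Ioc.1 (mem_filter.1 hm).1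
    have h2 := hN j
    exact (hW2 w _ m hw b6 (by omega) (hlog m (by omega) (by omega))).2.1
  · rw [← sum_sub_distrib, ← sum_sub_distrib, mul_sum, ← sum_sub_distrib]
    refine sum_le_sum fun n hn => ?_
    have := mem_Ioc.1 (mem_filter.1 hn).1
    have h2 := hN j
    have p1 := w1 (n + h j) (by omega)
    have p2 := (hW2 w _ (n + h j) hw b6 (by omega) (hlog _ (by omega) (by omega))).1
    have p3 : 0 ≤ th (n + h i) * PC h w (RR δ N) C n ^ 2 := by
      refine mul_nonneg ?_ (sq_nonneg _)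
      unfold th
      split_ifs
      exacts [Real.log_natCast_nonneg _, le_rfl]
    nlinarith [mul_le_mul_of_nonneg_left p1 p3, mul_le_mul_of_nonneg_left p2 p3]

end Pool.Agent.MP_43e117_nt.PG

end

section

open Finset

namespace Pool.Agent.MP_43e117_nt.PG

namespace C2A

/-- many integers of the class `v` on the side `s` of an interval, outside a finite set -/
theorem exX (s v a b : ℤ) (hs : s = 1 ∨ s = -1) (hv : v = 0 ∨ v = 2) (X0 : Finset ℤ) :
    ∃ X : Finset ℤ, (∀ x ∈ X, x % 6 = v ∧ a < s * x ∧ s * x ≤ b ∧ x ∉ X0) ∧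
      b - a - 5 - 6 * (X0.card : ℤ) ≤ 6 * (X.card : ℤ) := by
  classical
  set T := (Ioc ((a - s * v) / 6) ((b - s * v) / 6)).image fun t => v + 6 * (s * t) with hT
  refine ⟨T \ X0, fun x hx => ?_, ?_⟩
  · obtain ⟨h1, h2⟩ := mem_sdiff.mp hx
    obtain ⟨t, ht, rfl⟩ := mem_image.mp h1
    rw [mem_Ioc] at ht
    refine ⟨?_, ?_, ?_, h2⟩ <;> rcases hs with rfl | rfl <;> rcases hv with rfl | rfl <;> omega
  · have h1 : T.card = (Ioc ((a - s * v) / 6) ((b - s * v) / 6)).card := by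
      apply card_image_of_injective
      intro t u h
      rcases hs with rfl | rfl <;> simp only at h <;> omega
    have h2 : T.card ≤ (T \ X0).card + X0.card := by
      have := card_le_card_sdiff_add_card (s := T) (t := X0)
      exact this
    rw [Int.card_Ioc] at h1
    omega

/-- double counting -/
theorem dc {r : ℕ} (A : Fin r → Finset ℤ) (cl : Fin r → ℤ) (n m : ℕ) (s v : ℤ)
    (hs : s = 1 ∨ s = -1) (X H : Finset ℤ)
    (hA : ∀ i, (A i).card = n ∧ ∀ a ∈ A i, a % 6 = cl i)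
    (hX : ∀ x ∈ X, x % 6 = v ∧ ∃ i, m ≤ ((A i).filter fun a => s * (x - a) ∈ H).card) :
    m * X.card ≤ n * ∑ i, (H.filter fun h => h % 6 = (s * (v - cl i)) % 6).card := by
  classical
  calc m * X.card = ∑ _x ∈ X, m := by rw [sum_const, smul_eq_mul, mul_comm]
    _ ≤ ∑ x ∈ X, ∑ i, ((A i).filter fun a => s * (x - a) ∈ H).card := by
        refine sum_le_sum fun x hx => ?_
        obtain ⟨i, hi⟩ := (hX x hx).2
        exact hi.trans (single_le_sum
          (f := fun i => ((A i).filter fun a => s * (x - a) ∈ H).card)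
          (fun _ _ => Nat.zero_le _) (mem_univ i))
    _ = ∑ i, ∑ a ∈ A i, (X.filter fun x => s * (x - a) ∈ H).card := by
        rw [sum_comm]
        refine sum_congr rfl fun i _ => ?_
        simp only [card_filter]
        exact sum_comm
    _ ≤ ∑ i, ∑ _a ∈ A i, (H.filter fun h => h % 6 = (s * (v - cl i)) % 6).card := by
        refine sum_le_sum fun i _ => sum_le_sum fun a ha => ?_
        refine card_le_card_of_injOn (fun x => s * (x - a)) (fun x hx => ?_) ?_
        · rw [mem_coe, mem_filter] at hx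
          rw [mem_coe, mem_filter]
          refine ⟨hx.2, ?_⟩
          have h1 := (hX x hx.1).1
          have h2 := (hA i).2 a ha
          show (s * (x - a)) % 6 = _
          rcases hs with rfl | rfl <;> omega
        · intro x _ y _ h
          rcases hs with rfl | rfl <;> simp only at h <;> omega
    _ = n * ∑ i, (H.filter fun h => h % 6 = (s * (v - cl i)) % 6).card := by
        rw [mul_sum]
        refine sum_congr rfl fun i _ => ?_
        rw [sum_const, smul_eq_mul, (hA i).1]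

theorem split {r : ℕ} (cl : Fin r → ℤ) (hcl : ∀ i, cl i = 0 ∨ cl i = 2) (f : ℤ → ℕ) :
    ∑ i, f (cl i) = (univ.filter fun i => cl i = 0).card * f 0 +
      (univ.filter fun i => ¬ cl i = 0).card * f 2 := by
  rw [← sum_filter_add_sum_filter_not univ fun i => cl i = 0]
  congr 1
  · rw [← smul_eq_mul, ← sum_const]
    exact sum_congr rfl fun i hi => by rw [(mem_filter.mp hi).2]
  · rw [← smul_eq_mul, ← sum_const]
    exact sum_congr rfl fun i hi => by rw [(hcl i).resolve_left (mem_filter.mp hi).2]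

theorem lp (n0 n2 : ℕ) (h : n0 + n2 ≤ 3) (a b c M : ℝ) (ha : 0 ≤ a) (hb : 0 ≤ b) (hc : 0 ≤ c)
    (h1 : M ≤ n0 * a + n2 * c) (h2 : M ≤ n0 * b + n2 * a) (h3 : M ≤ n0 * a + n2 * b)
    (h4 : M ≤ n0 * c + n2 * a) : M ≤ a + b + c := by
  have e0 : n0 ≤ 3 := by omega
  have e2 : n2 ≤ 3 := by omega
  interval_cases n0 <;> interval_cases n2 <;> first | omega | (push_cast at *; linarith)

theorem three (H : Finset ℤ) :
    (H.filter fun h => h % 6 = 0).card + (H.filter fun h => h % 6 = 2).card +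
      (H.filter fun h => h % 6 = 4).card ≤ H.card := by
  simp only [card_filter, ← sum_add_distrib]
  rw [card_eq_sum_ones]
  refine sum_le_sum fun h _ => ?_
  split_ifs <;> omega

end C2A

open C2A in
theorem s_C2 : StC2 := by
  classical
  rintro P ⟨K, hK⟩ ε hε
  obtain ⟨n0, hn0⟩ := exists_nat_ge ((K : ℝ) / ε)
  obtain ⟨r, A, cl, hr, hA, hfin⟩ := hK (n0 + K + 1)
  set n := n0 + K + 1 with hn
  have hn1 : (0 : ℝ) < n := by rw [hn]; positivity
  have hKn : K ≤ n := by omega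
  have hKe : (K : ℝ) ≤ ε * n := by
    rw [div_le_iff₀ hε] at hn0
    have : (n0 : ℝ) ≤ n := by exact_mod_cast (by omega : n0 ≤ n)
    nlinarith
  obtain ⟨B, hB⟩ : ∃ B : ℕ, ∀ i, ∀ a ∈ A i, a.natAbs ≤ B :=
    ⟨(univ.biUnion A).sup Int.natAbs, fun i a ha =>
      le_sup (f := Int.natAbs) (mem_biUnion.mpr ⟨i, mem_univ i, ha⟩)⟩
  set X0 := hfin.toFinset with hX0
  set C : ℝ := (2 * B + 5 + 6 * X0.card) / 6 with hC
  have hC0 : 0 ≤ C := by positivity
  obtain ⟨L0, hL0⟩ := exists_nat_ge (2 * C / ε)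
  refine ⟨L0, fun L hL Y => ?_⟩
  have hL1 : 2 * C ≤ ε * L := by
    rw [div_le_iff₀ hε] at hL0
    have : (L0 : ℝ) ≤ L := by exact_mod_cast hL
    nlinarith
  set H : Finset ℤ := (Ioc (Y : ℤ) (Y + L)).filter fun h => P h.natAbs with hH
  have hcard : H.card ≤ {h ∈ Set.Ioc Y (Y + L) | P h}.ncard := by
    rw [← Set.ncard_coe_finset]
    refine Set.ncard_le_ncard_of_injOn Int.natAbs (fun h hh => ?_) (fun x hx y hy h => ?_)
      ((Set.finite_Ioc Y (Y + L)).subset fun h hh => hh.1)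
    · rw [mem_coe, hH, mem_filter, mem_Ioc] at hh
      exact ⟨⟨by omega, by omega⟩, hh.2⟩
    · rw [mem_coe, hH, mem_filter, mem_Ioc] at hx hy
      omega
  set D : ℤ → ℕ := fun c => (H.filter fun h => h % 6 = c).card with hD
  set p := (univ.filter fun i => cl i = 0).card with hp
  set q := (univ.filter fun i => ¬ cl i = 0).card with hq
  have hpq : p + q ≤ 3 := by
    rw [hp, hq, card_filter_add_card_filter_not, card_univ, Fintype.card_fin]
    exact hr
  have key : ∀ s v : ℤ, (s = 1 ∨ s = -1) → (v = 0 ∨ v = 2) →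
      ((n : ℝ) - K) * (L / 6 - C) / n ≤
        p * (D ((s * (v - 0)) % 6) : ℝ) + q * (D ((s * (v - 2)) % 6) : ℝ) := by
    intro s v hs hv
    obtain ⟨X, hX, hXc⟩ := exX s v (Y + B) (Y + L - B) hs hv X0
    have h1 := dc A cl n (n - K) s v hs X H (fun i => ⟨(hA i).1, (hA i).2.2⟩) (fun x hx => by
      obtain ⟨e1, e2, e3, e4⟩ := hX x hx
      refine ⟨e1, ?_⟩
      rw [hX0, Set.Finite.mem_toFinset, Set.mem_ofPred_eq, not_and, not_forall] at e4
      obtain ⟨i, hi⟩ := e4 (by rw [e1]; exact hv)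
      refine ⟨i, ?_⟩
      have e5 := card_filter_add_card_filter_not (s := A i) fun a => P (x - a).natAbs
      rw [(hA i).1] at e5
      have e6 : ((A i).filter fun a => P (x - a).natAbs).card ≤
          ((A i).filter fun a => s * (x - a) ∈ H).card := by
        refine card_le_card fun a ha => ?_
        rw [mem_filter] at ha ⊢
        refine ⟨ha.1, ?_⟩
        have e7 := hB i a ha.1
        rw [hH, mem_filter, mem_Ioc]
        have e8 : (s * (x - a)).natAbs = (x - a).natAbs := by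
          rcases hs with rfl | rfl <;> omega
        rw [e8]
        refine ⟨⟨?_, ?_⟩, ha.2⟩ <;> rcases hs with rfl | rfl <;> omega
      omega)
    rw [split cl (fun i => (hA i).2.1) fun c => D ((s * (v - c)) % 6)] at h1
    have h2 : ((n : ℝ) - K) * X.card ≤
        n * (p * (D ((s * (v - 0)) % 6) : ℝ) + q * (D ((s * (v - 2)) % 6) : ℝ)) := by
      rw [← Nat.cast_sub hKn]
      exact_mod_cast h1
    have h3 : (L : ℝ) / 6 - C ≤ X.card := by
      have h4 : ((Y : ℝ) + L - B) - (Y + B) - 5 - 6 * (X0.card : ℝ) ≤ 6 * (X.card : ℝ) := by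
        exact_mod_cast hXc
      rw [hC]; linarith
    have h5 : (0 : ℝ) ≤ (n : ℝ) - K := sub_nonneg.mpr (by exact_mod_cast hKn)
    rw [div_le_iff₀ hn1]
    have := mul_le_mul_of_nonneg_left h3 h5
    linarith
  have k1 := key 1 0 (Or.inl rfl) (Or.inl rfl)
  have k2 := key 1 2 (Or.inl rfl) (Or.inr rfl)
  have k3 := key (-1) 0 (Or.inr rfl) (Or.inl rfl)
  have k4 := key (-1) 2 (Or.inr rfl) (Or.inr rfl)
  norm_num only at k1 k2 k3 k4
  have k5 := lp p q hpq (D 0) (D 2) (D 4) _ (Nat.cast_nonneg _) (Nat.cast_nonneg _)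
    (Nat.cast_nonneg _) k1 k2 k3 k4
  have k6 : (D 0 : ℝ) + D 2 + D 4 ≤ ({h ∈ Set.Ioc Y (Y + L) | P h}.ncard : ℝ) := by
    exact_mod_cast (three H).trans hcard
  refine le_trans ?_ (k5.trans k6)
  rw [le_div_iff₀ hn1]
  have hL2 : (0 : ℝ) ≤ L := Nat.cast_nonneg L
  have hK0 : (0 : ℝ) ≤ K := Nat.cast_nonneg K
  have m1 : (K : ℝ) * L ≤ ε * n * L := mul_le_mul_of_nonneg_right hKe hL2
  have m2 : (n : ℝ) * (2 * C) ≤ n * (ε * L) := mul_le_mul_of_nonneg_left hL1 hn1.le
  have m3 : 0 ≤ (K : ℝ) * C := mul_nonneg hK0 hC0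
  have m4 : 0 ≤ ε * n * L := by positivity
  nlinarith

end Pool.Agent.MP_43e117_nt.PG

end
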