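import Pool.Agent.Mg.F436a94p.G397d9a

set_option linter.all false

section

/-!
The quadratic form at one site, and its tensor power.
-/

open Finset

noncomputable section

namespace Pool.Agent.MP_43e117_nt.PG

namespace SIA

variable {J : Type} [Fintype J] [DecidableEq J]

theorem vl (r : ℝ) (v : Option J → ℝ) (o : Option J) : ∑ a, v a * fr r a o =
    v none + r * (∑ i, v (some i)) - Option.elim o 0 fun i => v (some i) := by
  rw [Fintype.sum_option]
  simp only [fr, mul_one, mul_sub, sum_sub_distrib, ← sum_mul]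
  cases o with
  | none => simp; ring
  | some j => simp; ring

omit [DecidableEq J] in
theorem cs {k : ℝ} (hk : (Fintype.card J : ℝ) ≤ k) (x : J → ℝ) :
    (∑ i, x i) ^ 2 ≤ k * ∑ i, x i ^ 2 :=
  (sq_sum_le_card_mul_sum_sq (s := univ) (f := x)).trans
    (mul_le_mul_of_nonneg_right hk (by positivity))

open Classical in
/-- cutting a function to the allowed labels -/
def cut (Lb : J → Prop) (x : Option J → ℝ) (a : Option J) : ℝ :=
  if ∀ l, a = some l → Lb l then x a else 0

end SIA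

open SIA

theorem s_SI : StSI := by
  intro J _ _ k c r μ v Lb hk hk1 hc hr hr1 h0 h1 h2
  classical
  have hε : 0 ≤ c * r ^ 2 := by positivity
  obtain ⟨d, hd, he⟩ : ∃ d : J → ℝ, (∀ l, |d l| ≤ c * r ^ 2) ∧
      ∀ l, μ (some l) * v (some l) = (r + d l) * v (some l) := by
    refine ⟨fun l => if Lb l then μ (some l) - r else 0, fun l => ?_, fun l => ?_⟩
    · by_cases t : Lb l
      · simpa [t] using h1 l t
      · simpa [t] using hε
    · by_cases t : Lb l
      · simp [t]
      · simp [h2 l t]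
  have hs := cs hk fun i => v (some i)
  have hP : 0 ≤ ∑ i, v (some i) ^ 2 := by positivity
  have e1 : ∀ a : ℝ, ∑ o, μ o * (a - Option.elim o 0 fun i => v (some i)) ^ 2 =
      a ^ 2 * ∑ o, μ o - 2 * a * (r * ∑ i, v (some i) + ∑ i, d i * v (some i)) +
        (r * ∑ i, v (some i) ^ 2 + ∑ i, d i * v (some i) ^ 2) := by
    intro a
    simp only [Fintype.sum_option, Option.elim, mul_add, mul_sum, ← sum_add_distrib]
    rw [add_sub_assoc, add_assoc, ← sum_sub_distrib, ← sum_add_distrib]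
    refine congrArg₂ _ (by ring) (sum_congr rfl fun l _ => ?_)
    linear_combination (v (some l) - 2 * a) * he l
  have d1 : (∑ i, d i * v (some i)) ^ 2 ≤ k * ((c * r ^ 2) ^ 2 * ∑ i, v (some i) ^ 2) := by
    refine (cs hk _).trans (mul_le_mul_of_nonneg_left ?_ (by linarith))
    rw [mul_sum]
    refine sum_le_sum fun i _ => ?_
    rw [mul_pow, ← sq_abs (d i)]
    exact mul_le_mul_of_nonneg_right (pow_le_pow_left₀ (abs_nonneg _) (hd i) 2) (sq_nonneg _)
  have d2 : |∑ i, d i * v (some i) ^ 2| ≤ c * r ^ 2 * ∑ i, v (some i) ^ 2 := by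
    rw [mul_sum]
    refine (abs_sum_le_sum_abs _ _).trans (sum_le_sum fun i _ => ?_)
    rw [abs_mul, abs_sq]
    exact mul_le_mul_of_nonneg_right (hd i) (sq_nonneg _)
  simp only [vl, e1]
  generalize ∑ i, v (some i) = s at *
  generalize ∑ i, v (some i) ^ 2 = P at *
  generalize ∑ i, d i * v (some i) = D1 at *
  generalize ∑ i, d i * v (some i) ^ 2 = D2 at *
  generalize ∑ o, μ o = m at *
  generalize v none = x at *
  have hT : 0 ≤ x ^ 2 + P := by positivity
  have r2 : r ^ 2 ≤ 1 := pow_le_one₀ hr hr1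
  have r3 : r ^ 2 ≤ c * r ^ 2 := le_mul_of_one_le_left (sq_nonneg _) hc
  have p1 : P ≤ x ^ 2 + P := by linarith [sq_nonneg x]
  have p2 : x ^ 2 + P ≤ k * (x ^ 2 + P) := le_mul_of_one_le_left hT hk1
  have p3 : s ^ 2 ≤ k * (x ^ 2 + P) := hs.trans (by gcongr)
  have a2 : (x + r * s) ^ 2 ≤ 2 * (k * (x ^ 2 + P)) := by
    have u1 : r ^ 2 * s ^ 2 ≤ s ^ 2 := mul_le_of_le_one_left (sq_nonneg _) r2
    have u2 : x ^ 2 ≤ k * x ^ 2 := le_mul_of_one_le_left (sq_nonneg _) hk1
    nlinarith [sq_nonneg (x - r * s)]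
  have b1 : |r ^ 2 * s ^ 2| ≤ c * r ^ 2 * (k * (x ^ 2 + P)) := by
    rw [abs_of_nonneg (by positivity)]
    gcongr
  have b2 : |(m - 1) * (x + r * s) ^ 2| ≤ c * r ^ 2 * (2 * (k * (x ^ 2 + P))) := by
    rw [abs_mul, abs_sq]
    gcongr
  have b3 : |2 * (x + r * s) * D1| ≤ 3 * (c * r ^ 2 * (k * (x ^ 2 + P))) := by
    refine abs_le_of_sq_le_sq ?_ (by positivity)
    calc _ = 4 * ((x + r * s) ^ 2 * D1 ^ 2) := by ring
      _ ≤ 4 * (2 * (k * (x ^ 2 + P)) * (k * ((c * r ^ 2) ^ 2 * (x ^ 2 + P)))) := by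
          gcongr
          exact d1.trans (by gcongr)
      _ = 8 * (c * r ^ 2 * (k * (x ^ 2 + P))) ^ 2 := by ring
      _ ≤ _ := by nlinarith [sq_nonneg (c * r ^ 2 * (k * (x ^ 2 + P)))]
  have b4 : |D2| ≤ c * r ^ 2 * (k * (x ^ 2 + P)) :=
    d2.trans (mul_le_mul_of_nonneg_left (p1.trans p2) hε)
  rw [abs_le] at b1 b2 b3 b4 ⊢
  constructor <;> nlinarith [b1.1, b1.2, b2.1, b2.2, b3.1, b3.2, b4.1, b4.2]

theorem s_SD : StSD := by
  intro J _ _ k m r μ v Lb hk hr h0 hm h1 h2
  have hs := cs hk fun i => v (some i)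
  have hP : 0 ≤ ∑ i, v (some i) ^ 2 := by positivity
  have hk0 : 0 ≤ k := (Nat.cast_nonneg _).trans hk
  have e1 : ∀ a : ℝ, ∑ o, μ o * (a - Option.elim o 0 fun i => v (some i)) ^ 2 =
      (∑ o, μ o) * a ^ 2 := by
    intro a
    rw [sum_mul]
    refine sum_congr rfl fun o _ => ?_
    cases o with
    | none => simp
    | some l =>
      by_cases t : Lb l
      · simp [h1 l t]
      · simp [h2 l t]
  have hm0 : 0 ≤ ∑ o, μ o := sum_nonneg fun o _ => h0 o
  simp only [vl, e1]
  generalize ∑ i, v (some i) = s at *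
  generalize ∑ i, v (some i) ^ 2 = P at *
  generalize v none = x at *
  rw [mul_assoc]
  refine mul_le_mul hm ?_ (sq_nonneg _) (hm0.trans hm)
  have u : 2 * s * x ≤ P + k * x ^ 2 := by
    refine (le_abs_self _).trans (abs_le_of_sq_le_sq ?_ (by positivity))
    nlinarith [mul_le_mul_of_nonneg_right hs (sq_nonneg x), sq_nonneg (P - k * x ^ 2)]
  nlinarith [mul_le_mul_of_nonneg_left u hr, mul_le_mul_of_nonneg_left hs (sq_nonneg r)]

theorem s_TS : StTS := by
  intro ι J _ _ _ _ s r μ d Lb C h0 hd hC h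
  have key := MP_fdd1d3_nt.tensor s μ (fun p a o => cut (Lb p) (fun a => fr (r p) a o) a)
    (fun p => cut (Lb p) (d p)) h0 (fun p a => by
      unfold cut
      split_ifs
      exacts [hd p a, le_rfl]) (fun p v => by
      have t := h p (cut (Lb p) v) fun l hl => if_neg fun u => hl (u l rfl)
      have e1 : ∀ o a, cut (Lb p) v a * fr (r p) a o =
          v a * cut (Lb p) (fun a => fr (r p) a o) a := fun o a => by
        unfold cut
        split_ifs <;> simp
      have e2 : ∀ a, d p a * cut (Lb p) v a ^ 2 = cut (Lb p) (d p) a * v a ^ 2 := fun a => by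
        unfold cut
        split_ifs <;> simp
      simpa only [e1, e2] using t) C
  have e : ∀ (x : ι → Option J → ℝ) (σ : ι → Option J), C σ ≠ 0 →
      ∏ p, cut (Lb p) (x p) (σ p) = ∏ p, x p (σ p) := fun x σ hσ =>
    prod_congr rfl fun p _ => if_pos (hC σ hσ p)
  have e1 : ∀ (o σ : ι → Option J), C σ * ∏ p, cut (Lb p) (fun a => fr (r p) a (o p)) (σ p) =
      C σ * ∏ p, fr (r p) (σ p) (o p) := fun o σ => by
    by_cases t : C σ = 0
    · rw [t, zero_mul, zero_mul]
    · rw [e (fun p a => fr (r p) a (o p)) σ t]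
  have e2 : ∀ σ : ι → Option J, (∏ p, cut (Lb p) (d p) (σ p)) * C σ ^ 2 =
      (∏ p, d p (σ p)) * C σ ^ 2 := fun σ => by
    by_cases t : C σ = 0
    · simp [t]
    · rw [e d σ t]
  simpa only [e1, e2, Ex, Psi] using key

end Pool.Agent.MP_43e117_nt.PG

end
end

section

/-!
The one-dimensional sieve sum is close to the linear cut-off sum.
-/

open Finset

noncomputable section

namespace Pool.Agent.MP_43e117_nt.PG

open MP_fdd1d3_nt (LL SS)

namespace P1A

variable {ι : Type} [Fintype ι] [DecidableEq ι]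

omit [Fintype ι] [DecidableEq ι] in
theorem LL_nonneg (q : ι → ℕ) (s : Finset ι) : 0 ≤ LL q s :=
  sum_nonneg fun _ _ => Real.log_natCast_nonneg _

omit [Fintype ι] [DecidableEq ι] in
theorem hs_nonneg {r : ι → ℝ} (hr : ∀ p, 0 ≤ r p) (s : Finset ι) : 0 ≤ hs r s :=
  prod_nonneg fun p _ => hr p

omit [Fintype ι] in
theorem prod_ge {r : ι → ℝ} (hr : ∀ p, 0 ≤ r p ∧ r p ≤ 1) (v : Finset ι) :
    1 - ∑ p ∈ v, r p ≤ ∏ p ∈ v, (1 - r p) := by
  induction v using Finset.induction_on with
  | empty => simp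
  | insert a s ha ih =>
    rw [sum_insert ha, prod_insert ha]
    have h1 : 0 ≤ ∑ p ∈ s, r p := sum_nonneg fun p _ => (hr p).1
    have h2 := mul_le_mul_of_nonneg_left ih (sub_nonneg.2 (hr a).2)
    nlinarith [mul_nonneg (hr a).1 h1]

omit [DecidableEq ι] in
theorem GG_nonneg {r : ι → ℝ} (hr : ∀ p, 0 ≤ r p) (q : ι → ℕ) (x : ℝ) : 0 ≤ GG r q x :=
  sum_nonneg fun s _ => by
    split_ifs
    exacts [hs_nonneg hr s, le_rfl]

omit [DecidableEq ι] in
theorem GG_mono {r : ι → ℝ} (hr : ∀ p, 0 ≤ r p) (q : ι → ℕ) {x y : ℝ} (h : x ≤ y) :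
    GG r q x ≤ GG r q y :=
  sum_le_sum fun s _ => by
    split_ifs with h1 h2
    exacts [le_rfl, absurd (h1.trans h) h2, hs_nonneg hr s, le_rfl]

theorem mem_le {r : ι → ℝ} (hr : ∀ p, 0 ≤ r p) (q : ι → ℕ) (x : ℝ) (p : ι) :
    (∑ s : Finset ι, if p ∈ s ∧ LL q s ≤ x then hs r s else 0) ≤ r p * GG r q x := by
  have h1 : (∑ s : Finset ι, if p ∈ s ∧ LL q s ≤ x then hs r s else 0) ≤
      ∑ s ∈ univ.filter (fun s : Finset ι => p ∈ s),
        r p * (if LL q (s.erase p) ≤ x then hs r (s.erase p) else 0) := by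
    rw [sum_filter]
    refine sum_le_sum fun s _ => ?_
    by_cases hp : p ∈ s
    · by_cases hx : LL q s ≤ x
      · have h2 : LL q (s.erase p) ≤ x :=
          le_trans (sum_le_sum_of_subset_of_nonneg (erase_subset p s)
            fun _ _ _ => Real.log_natCast_nonneg _) hx
        rw [if_pos ⟨hp, hx⟩, if_pos hp, if_pos h2]
        exact (mul_prod_erase s r hp).symm.le
      · rw [if_neg fun h => hx h.2, if_pos hp]
        refine mul_nonneg (hr p) ?_
        split_ifs
        exacts [hs_nonneg hr _, le_rfl]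
    · rw [if_neg fun h => hp h.1, if_neg hp]
  refine h1.trans ?_
  rw [← mul_sum]
  refine mul_le_mul_of_nonneg_left ?_ (hr p)
  rw [← sum_image (s := univ.filter (fun s : Finset ι => p ∈ s)) (g := fun s => s.erase p)
    (f := fun s => if LL q s ≤ x then hs r s else 0)]
  · refine sum_le_sum_of_subset_of_nonneg (subset_univ _) fun s _ _ => ?_
    split_ifs
    exacts [hs_nonneg hr _, le_rfl]
  · intro a ha b hb hab
    have ha' : p ∈ a := by simpa using ha
    have hb' : p ∈ b := by simpa using hb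
    have hab' : a.erase p = b.erase p := hab
    rw [← insert_erase ha', ← insert_erase hb', hab']

theorem inner_bd {r : ι → ℝ} (hr : ∀ p, 0 ≤ r p) (q : ι → ℕ) (x : ℝ) (S : Finset ι) :
    (∑ s : Finset ι, if Disjoint s S ∧ LL q s ≤ x then hs r s else 0) ≤ GG r q x ∧
      (1 - ∑ p ∈ S, r p) * GG r q x ≤
        ∑ s : Finset ι, if Disjoint s S ∧ LL q s ≤ x then hs r s else 0 := by
  constructor
  · refine sum_le_sum fun s _ => ?_
    split_ifs with h1 h2
    exacts [le_rfl, absurd h1.2 h2, hs_nonneg hr s, le_rfl]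
  · have h1 : GG r q x ≤ (∑ s : Finset ι, if Disjoint s S ∧ LL q s ≤ x then hs r s else 0) +
        ∑ p ∈ S, ∑ s : Finset ι, if p ∈ s ∧ LL q s ≤ x then hs r s else 0 := by
      rw [sum_comm, ← sum_add_distrib]
      refine sum_le_sum fun s _ => ?_
      have h0 : ∀ p ∈ S, 0 ≤ if p ∈ s ∧ LL q s ≤ x then hs r s else 0 := fun p _ => by
        split_ifs
        exacts [hs_nonneg hr s, le_rfl]
      by_cases hx : LL q s ≤ x
      · rw [if_pos hx]
        by_cases hd : Disjoint s S
        · rw [if_pos ⟨hd, hx⟩]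
          exact le_add_of_nonneg_right (sum_nonneg h0)
        · rw [if_neg fun h => hd h.1, zero_add]
          obtain ⟨p, hp, hp'⟩ := not_disjoint_iff.1 hd
          have := single_le_sum h0 hp'
          rwa [if_pos ⟨hp, hx⟩] at this
      · rw [if_neg hx, if_neg fun h => hx h.2, zero_add]
        exact sum_nonneg h0
    have h2 := sum_le_sum fun p (_ : p ∈ S) => mem_le hr q x p
    rw [← sum_mul] at h2
    linarith

theorem num {a b g G W m ε : ℝ} (hε : 0 ≤ ε) (hε' : ε ≤ 1 / 2) (hW : 0 < W) (ha : 1 - ε ≤ a)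
    (ha' : a ≤ 1) (hb : (1 - ε) * g ≤ b) (hb' : b ≤ g) (hg : 0 ≤ g) (hG : g ≤ G)
    (hm : 0 ≤ m) (hm' : m ≤ 1) (h1 : |g - m * W| ≤ ε * W) (h2 : |G - W| ≤ ε * W) :
    |a * b / G - m| ≤ 6 * ε := by
  obtain ⟨h1a, h1b⟩ := abs_le.1 h1
  obtain ⟨h2a, h2b⟩ := abs_le.1 h2
  have h3 : W ≤ 2 * G := by nlinarith
  have hG0 : 0 < G := by linarith
  have hb0 : 0 ≤ b := le_trans (mul_nonneg (by linarith) hg) hb
  have h4 : a * b ≤ g := by nlinarith
  have h5 : (1 - 2 * ε) * g ≤ a * b := by
    have := mul_le_mul ha hb (mul_nonneg (by linarith) hg) (by linarith)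
    nlinarith [mul_nonneg (mul_nonneg hε hε) hg]
  have h6 : ε * W ≤ 2 * ε * G := by nlinarith
  have h7 : ε * g ≤ ε * G := mul_le_mul_of_nonneg_left hG hε
  have h8 : m * G ≤ m * W + ε * W := by nlinarith [mul_nonneg hε hW.le]
  have h9 : m * W - ε * W ≤ m * G := by nlinarith [mul_nonneg hε hW.le]
  rw [show a * b / G - m = (a * b - m * G) / G by field_simp, abs_div, abs_of_pos hG0,
    div_le_iff₀ hG0, abs_le]
  constructor <;> nlinarith

end P1A

theorem s_P1 (hP0 : StP0) : StP1 := by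
  intro ι _ _ r q t V ε u hr ht hV hε hG hS
  have hr0 : ∀ p, 0 ≤ r p := fun p => (hr p).1
  have hr1 : ∀ p, 0 ≤ r p ∧ r p ≤ 1 := fun p => ⟨(hr p).1, by simpa using (hr p).2⟩
  have hε0 : 0 ≤ ε := le_trans (sum_nonneg fun p _ => hr0 p) hS
  rw [hP0 ι r q t u, sum_div, ← sum_sub_distrib]
  refine (abs_sum_le_sum_abs _ _).trans ?_
  refine (sum_le_card_nsmul _ _ (6 * ε) fun v hv => ?_).trans (by simp)
  have hv' : v ⊆ SS u () := mem_powerset.1 hv
  have hL := P1A.LL_nonneg q v
  have e1 : ∏ p ∈ v, (r p - 1) = (-1) ^ v.card * ∏ p ∈ v, (1 - r p) := by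
    rw [← prod_const, ← prod_mul_distrib]
    exact prod_congr rfl fun p _ => by ring
  have e2 : max 0 (1 - LL q v / t) = max (t - LL q v) 0 / t := by
    rw [← max_div_div_right ht.le, zero_div, max_comm, sub_div, div_self ht.ne']
  have e3 : (∑ s : Finset ι, if Disjoint s (SS u ()) ∧ LL q s + LL q v ≤ t then hs r s else 0) =
      ∑ s : Finset ι, if Disjoint s (SS u ()) ∧ LL q s ≤ t - LL q v then hs r s else 0 := by
    simp only [le_sub_iff_add_le]
  obtain ⟨b1, b2⟩ := P1A.inner_bd hr0 q (t - LL q v) (SS u ())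
  have g0 := P1A.GG_nonneg hr0 q (t - LL q v)
  rw [e1, e2, e3, mul_assoc, mul_div_assoc, ← mul_sub, abs_mul, abs_pow, abs_neg, abs_one, one_pow,
    one_mul]
  refine P1A.num (W := V * t) hε0 hε (mul_pos hV ht) ?_ ?_ ?_ b1 g0
    (P1A.GG_mono hr0 q (by linarith)) (div_nonneg (le_max_right _ _) ht.le)
    ((div_le_one ht).2 (max_le (by linarith) ht.le)) ?_ ?_
  · have := P1A.prod_ge hr1 v
    have := sum_le_sum_of_subset_of_nonneg hv' fun p _ _ => hr0 p
    linarith
  · exact prod_le_one (fun p _ => sub_nonneg.2 (hr1 p).2) fun p _ => by linarith [hr0 p]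
  · exact le_trans (mul_le_mul_of_nonneg_right (by linarith) g0) b2
  · have := hG (t - LL q v) (by linarith)
    rwa [show max (t - LL q v) 0 / t * (V * t) = V * max (t - LL q v) 0 by field_simp,
      ← mul_assoc]
  · have := hG t le_rfl
    rwa [max_eq_left ht.le, mul_assoc] at this

end Pool.Agent.MP_43e117_nt.PG

end
end

section

/-! Expansions into divisibility conditions. -/

open Finset

noncomputable section

namespace Pool.Agent.MP_43e117_nt.PG

namespace E1A

theorem push {U T : Type} [Fintype U] [Fintype T] [DecidableEq T] (φ : U → T)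
    (hφ : Function.Injective φ) (c : U → ℝ) : ∃ c1 : T → ℝ,
    (∀ G : T → ℝ, ∑ τ, c1 τ * G τ = ∑ u, c u * G (φ u)) ∧
      ∀ τ, c1 τ = 0 ∨ ∃ u, τ = φ u ∧ c1 τ = c u := by
  refine ⟨fun τ => ∑ u, if τ = φ u then c u else 0, fun G => ?_, fun τ => ?_⟩
  · simp only [sum_mul]
    rw [sum_comm]
    refine sum_congr rfl fun u _ => ?_
    rw [sum_eq_single (φ u) (fun τ _ h => by rw [if_neg h, zero_mul]) (by simp), if_pos rfl]
  · by_cases h : ∃ u, τ = φ u
    · obtain ⟨u, rfl⟩ := h
      refine Or.inr ⟨u, rfl, ?_⟩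
      show (∑ v, if φ u = φ v then c v else 0) = c u
      rw [sum_eq_single u (fun v _ h => if_neg fun e => h (hφ e).symm) (by simp), if_pos rfl]
    · exact Or.inl (sum_eq_zero fun u _ => if_neg fun e => h ⟨u, e⟩)

variable {J : Type} [Fintype J] [DecidableEq J]

def kap (r : ℝ) : Option J → Option J → ℝ
  | none, none => 1
  | none, some _ => 0
  | some _, none => r
  | some i, some l => if l = i then -1 else 0

theorem fr_eq (r : ℝ) (a o : Option J) :
    fr r a o = ∑ t, kap r a t * if t = none ∨ o = t then 1 else 0 := by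
  rw [Fintype.sum_option]
  cases a with
  | none => simp [fr, kap]
  | some i =>
    rw [sum_eq_single i (fun l _ h => by simp [kap, h]) (by simp)]
    simp only [fr, kap, true_or, if_true, mul_one, reduceCtorEq, false_or]
    ring

theorem kap_sum {r k : ℝ} (hr : 0 ≤ r) (hk : (Fintype.card J : ℝ) ≤ k) (t : Option J) :
    ∑ a, |kap r a t| ≤ 1 + k * r := by
  rw [Fintype.sum_option]
  cases t with
  | none =>
    simp only [kap, abs_one, abs_of_nonneg hr, sum_const, card_univ, nsmul_eq_mul]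
    have := mul_le_mul_of_nonneg_right hk hr
    linarith
  | some l =>
    rw [sum_eq_single l (fun i _ h => by simp [kap, h.symm]) (by simp)]
    have := mul_nonneg ((Nat.cast_nonneg _).trans hk) hr
    simp only [kap, if_true, abs_zero, abs_neg, abs_one]
    linarith

omit [Fintype J] in
theorem kap_ne {r : ℝ} {a t : Option J} (h : kap r a t ≠ 0) : t = none ∨ t = a := by
  cases t with
  | none => exact Or.inl rfl
  | some l =>
    cases a with
    | none => simp [kap] at h
    | some i =>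
      by_cases e : l = i
      · exact Or.inr (by rw [e])
      · simp [kap, e] at h

end E1A

open E1A

theorem s_E0 : StE0 := by
  rintro ι J _ _ _ _ q Lb Lb' F D B a D' B' a' ⟨c, h1, h2⟩ hD hB ha haa hL
  have h0 : 0 ≤ B := by
    have h := (abs_nonneg _).trans (h2 fun _ => none).1
    simpa [ct] using h
  refine ⟨c, h1, fun τ => ⟨(h2 τ).1.trans ?_, fun h =>
    ⟨((h2 τ).2 h).1.trans hD, fun p l e => hL l (((h2 τ).2 h).2 p l e)⟩⟩⟩
  exact mul_le_mul hB (pow_le_pow_left₀ ha haa _) (pow_nonneg ha _) (h0.trans hB)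

theorem s_E1 : StE1 := by
  intro ι J _ _ _ _ r q Lb C k D M hk hr hq hM hD hS
  have h0 : 0 ≤ M := (abs_nonneg _).trans (hM fun _ => none)
  refine ⟨fun τ => ∑ σ, C σ * ∏ p, kap (r p) (σ p) (τ p), fun o => ?_, fun τ => ⟨?_, fun h => ?_⟩⟩
  · simp only [Psi, sum_mul]
    rw [sum_comm]
    refine sum_congr rfl fun σ _ => ?_
    simp only [fr_eq]
    rw [Fintype.prod_sum, mul_sum]
    refine sum_congr rfl fun τ _ => ?_
    rw [prod_mul_distrib, mul_assoc]
    rfl
  · rw [one_pow, mul_one]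
    refine (abs_sum_le_sum_abs _ _).trans ?_
    calc ∑ σ : ι → Option J, |C σ * ∏ p, kap (r p) (σ p) (τ p)|
        ≤ ∑ σ : ι → Option J, M * ∏ p, |kap (r p) (σ p) (τ p)| := by
          refine sum_le_sum fun σ _ => ?_
          rw [abs_mul, abs_prod]
          exact mul_le_mul_of_nonneg_right (hM σ) (prod_nonneg fun _ _ => abs_nonneg _)
      _ = M * ∏ p, ∑ a, |kap (r p) a (τ p)| := by rw [Fintype.prod_sum, mul_sum]
      _ ≤ _ := mul_le_mul_of_nonneg_left (prod_le_prod
          (fun _ _ => sum_nonneg fun _ _ => abs_nonneg _) fun p _ => kap_sum (hr p) hk _) h0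
  · obtain ⟨σ, -, hσ⟩ := exists_ne_zero_of_sum_ne_zero h
    have h1 := left_ne_zero_of_mul hσ
    have h2 : ∀ p, τ p = none ∨ τ p = σ p := fun p =>
      kap_ne (prod_ne_zero_iff.1 (right_ne_zero_of_mul hσ) p (mem_univ p))
    refine ⟨le_trans ?_ (hD σ h1), fun p l e => hS σ h1 p l ?_⟩
    · refine Nat.cast_le.2 (prod_le_prod' fun p _ => ?_)
      rcases h2 p with e | e
      · rw [e]
        cases σ p with
        | none => exact le_rfl
        | some _ => exact hq p
      · rw [e]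
    · rcases h2 p with e' | e'
      · rw [e'] at e; cases e
      · rw [← e', e]

theorem s_E3 : StE3 := by
  intro ι _ _ w q D hw hD
  obtain ⟨c, h1, h2⟩ := push
    (fun p : ι => Function.update (fun _ : ι => (none : Option Unit)) p (some ()))
    (fun p p' e => by
      by_contra h
      have := congrFun e p
      simp [Function.update_of_ne h] at this) w
  refine ⟨c, fun o => ?_, fun τ => ?_⟩
  · rw [h1 fun τ => MM τ o]
    refine sum_congr rfl fun p _ => ?_
    rw [MM, prod_eq_single p (fun p' _ h => by simp [Function.update_of_ne h]) (by simp)]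
    simp [ind]
  · rw [one_pow, mul_one]
    rcases h2 τ with e | ⟨p, rfl, e⟩
    · exact ⟨by simp [e], fun h => absurd e h⟩
    · rw [e]
      refine ⟨hw p, fun h => ⟨?_, fun _ _ _ => trivial⟩⟩
      rw [dn, prod_eq_single p (fun p' _ h => by simp [Function.update_of_ne h]) (by simp)]
      simpa using hD p h

theorem s_E4 : StE4 := by
  rintro ι J _ _ _ _ q Lb j F D B a hj ⟨c, h1, h2⟩
  obtain ⟨c1, h3, h4⟩ := push
    (fun (u : ι → Option Unit) (p : ι) => (u p).map fun _ => j)
    (fun u v e => funext fun p => Option.map_injective (fun _ _ _ => rfl) (congrFun e p)) c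
  refine ⟨c1, fun o => ?_, fun τ => ?_⟩
  · rw [h3 fun τ => MM τ o]
    refine (h1 _).trans (sum_congr rfl fun u _ => ?_)
    congr 1
    refine prod_congr rfl fun p _ => ?_
    rcases hu : u p with _ | ⟨⟨⟩⟩ <;> simp [hu, pr]
  · rcases h4 τ with e | ⟨u, rfl, e⟩
    · refine ⟨?_, fun h => absurd e h⟩
      have h := (abs_nonneg _).trans (h2 fun p => (τ p).map fun _ => ()).1
      rw [e, abs_zero]
      simpa [ct] using h
    · rw [e]
      refine ⟨?_, fun h => ⟨?_, fun p l e' => ?_⟩⟩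
      · simpa [ct] using (h2 u).1
      · refine le_trans (le_of_eq ?_) ((h2 u).2 h).1
        congr 1
        refine prod_congr rfl fun p _ => ?_
        rcases hu : u p with _ | ⟨⟨⟩⟩ <;> simp [hu]
      · obtain ⟨_, -, rfl⟩ := Option.map_eq_some_iff.1 e'
        exact hj

end Pool.Agent.MP_43e117_nt.PG

end
end
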