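import Pool.Agent.Mg.F436a94p.G397d9a

set_option linter.all false

section

open Finset

noncomputable section

namespace Pool.Agent.MP_43e117_nt.PG

namespace TMA

variable {ι : Type} [Fintype ι] [DecidableEq ι]

omit [Fintype ι] in
theorem cl_upd {r : ι → ℝ} {Lb Lb' : ι → Unit → Prop} {c : ℝ} {μ : ι → Option Unit → ℝ}
    (h : Cl r Lb ∅ c μ) (hc : 0 ≤ c) (p₀ : ι) (hL : ∀ p l, Lb' p l → Lb p l ∧ p ≠ p₀) :
    Cl r Lb' ∅ c (Function.update μ p₀ dl) := by
  intro p
  by_cases hp : p = p₀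
  · subst hp
    rw [Function.update_self]
    refine ⟨fun o => ?_, ?_, fun l hl => absurd rfl (hL p l hl).2⟩
    · unfold dl; split_ifs <;> norm_num
    · have : ∑ o, dl o = 1 := by simp [dl]
      rw [this, sub_self, abs_zero]
      positivity
  · rw [Function.update_of_ne hp]
    exact ⟨(h p).1, (h p).2.1, fun l hl => (h p).2.2 l (hL p l hl).1⟩

theorem ex_tt (μ : ι → Option Unit → ℝ) (w : ι → ℝ) (F : (ι → Option Unit) → ℝ) :
    Ex μ (fun u => tt w u * F u) = ∑ p, w p * Ex μ (fun u => ind p u * F u) := by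
  simp only [Ex, tt, sum_mul, mul_sum]
  rw [sum_comm]
  exact sum_congr rfl fun p _ => sum_congr rfl fun o _ => by ring

theorem ex_nonneg {μ : ι → Option Unit → ℝ} (h : ∀ p o, 0 ≤ μ p o) {F : (ι → Option Unit) → ℝ}
    (hF : ∀ u, 0 ≤ F u) : 0 ≤ Ex μ F :=
  sum_nonneg fun o _ => mul_nonneg (prod_nonneg fun p _ => h p (o p)) (hF o)

end TMA

open TMA

theorem s_TM (hGU : StGU) (hGL : StGL) (hMA : StMA) (hCD : StCD) (hSB : StSB) : StTM := by
  intro ι _ _ r w q t c μ hc hr ht hμ hw hq
  have r0 : ∀ p, 0 ≤ r p := fun p => (hr p).1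
  have hr1 : Sm r 1 := fun p => ⟨r0 p, by nlinarith [(hr p).2, r0 p]⟩
  have hr7 : Sm r (7 * c * 1) := by rwa [mul_one]
  obtain ⟨-, hmono, hQ, -, -, hsup, -⟩ := hSB ι r q t r0 ht
  have hav := hMA ι Unit r _ r0 hmono
  have hk : (Fintype.card Unit : ℝ) ≤ 1 := by simp
  have key : ∀ p, w p ≠ 0 →
      (1 - 14 * c * eta r) / GG r q t ≤ Ex (Function.update μ p dl) (fun u => Sel r q t u ^ 2) ∧
      Ex (Function.update μ p dl) (fun u => Sel r q t u ^ 2) ≤
        Real.exp (14 * c * eta r) / GG r q t := fun p hp => by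
    have hcl : Cl r (fun p _ => Real.log (q p) ≤ t) ∅ c (Function.update μ p dl) :=
      cl_upd hμ (by linarith) p fun p' _ h => ⟨trivial, by
        rintro rfl
        exact absurd (hq p' hp) (not_lt.2 h)⟩
    have h1 := hGL ι Unit r 1 c _ _ ∅ _ _ hk le_rfl hc hr7 hcl hsup hav hmono.1
    have h2 := hGU ι Unit r 1 c _ _ ∅ _ _ hk le_rfl hc hr1 hcl hsup hav
    rw [hQ] at h1 h2
    simp only [sum_empty, prod_empty, one_pow, mul_one, mul_zero, add_zero] at h1 h2
    refine ⟨le_trans (le_of_eq ?_) h1, h2.trans (le_of_eq ?_)⟩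
    · rw [div_eq_mul_inv]; ring
    · rw [div_eq_mul_inv]
  rw [ex_tt, mul_div_assoc, mul_div_assoc, sum_mul, sum_mul]
  constructor
  · refine sum_le_sum fun p _ => ?_
    by_cases hp : w p = 0
    · simp [hp]
    · rw [hCD, ← mul_assoc]
      exact mul_le_mul_of_nonneg_left (key p hp).1 (mul_nonneg (hw p) ((hμ p).1 _))
  · refine sum_le_sum fun p _ => ?_
    by_cases hp : w p = 0
    · simp [hp]
    · rw [hCD, ← mul_assoc]
      exact mul_le_mul_of_nonneg_left (key p hp).2 (mul_nonneg (hw p) ((hμ p).1 _))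

theorem s_TP (hCD : StCD) (hGC : StGC) : StTP := by
  intro ι _ _ r w q t c I μ l hc hr ht hμ hw hq hI
  have c0 : 0 ≤ c := by linarith
  set K : ℝ := Real.exp (14 * c * eta r) * ((I + r l ^ 2 * GG r q t) / GG r q t ^ 2) with hK
  have hcl : Cl r (fun p _ => p ≠ l ∧ Real.log (q p) ≤ t) ∅ c (Function.update μ l dl) :=
    cl_upd hμ c0 l fun p _ h => ⟨trivial, h.1⟩
  have h1 : Ex (Function.update μ l dl) (fun u => Sel r q t u ^ 2) ≤ K :=
    hGC ι r q t c I _ l hc hr ht (Function.update_self _ _ _) hcl hI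
  have K0 : 0 ≤ K := (ex_nonneg (fun p => (hcl p).1) fun u => sq_nonneg _).trans h1
  have m0 : ∀ p, 0 ≤ μ p (some ()) := fun p => (hμ p).1 _
  have e : (fun u => ind l u * (tt w u * Sel r q t u ^ 2)) =
      fun u => tt w u * (ind l u * Sel r q t u ^ 2) := funext fun u => by ring
  have key : ∀ p, w p * Ex μ (fun u => ind p u * (ind l u * Sel r q t u ^ 2)) ≤
      (if p = l then w l * (μ l (some ()) * K) else 0) +
        w p * μ p (some ()) * (μ l (some ()) * K) := fun p => by
    have n1 : 0 ≤ w p * μ p (some ()) * (μ l (some ()) * K) :=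
      mul_nonneg (mul_nonneg (hw p) (m0 p)) (mul_nonneg (m0 l) K0)
    by_cases hp : p = l
    · subst hp
      have e2 : (fun u => ind p u * (ind p u * Sel r q t u ^ 2)) =
          fun u => ind p u * Sel r q t u ^ 2 := funext fun u => by
        unfold ind; split_ifs <;> simp
      rw [if_pos rfl, e2, hCD]
      exact le_add_of_le_of_nonneg
        (mul_le_mul_of_nonneg_left (mul_le_mul_of_nonneg_left h1 (m0 p)) (hw p)) n1
    · rw [if_neg hp, zero_add]
      by_cases hw0 : w p = 0
      · simp [hw0]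
      · have hc1 : Cl r (fun p _ => Real.log (q p) ≤ t) ∅ c (Function.update μ p dl) :=
          cl_upd hμ c0 p fun p' _ h => ⟨trivial, by
            rintro rfl
            exact absurd (hq p' hw0) (not_lt.2 h)⟩
        have hc2 : Cl r (fun p _ => p ≠ l ∧ Real.log (q p) ≤ t) ∅ c
            (Function.update (Function.update μ p dl) l dl) :=
          cl_upd hc1 c0 l fun p _ h => ⟨h.2, h.1⟩
        have h2 := hGC ι r q t c I _ l hc hr ht (Function.update_self _ _ _) hc2 hI
        rw [hCD, hCD, Function.update_of_ne (Ne.symm hp), ← mul_assoc]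
        exact mul_le_mul_of_nonneg_left (mul_le_mul_of_nonneg_left h2 (m0 l))
          (mul_nonneg (hw p) (m0 p))
  rw [e, ex_tt]
  refine (sum_le_sum fun p _ => key p).trans (le_of_eq ?_)
  rw [sum_add_distrib, sum_ite_eq' univ l, if_pos (mem_univ l), ← sum_mul, hK]
  ring

end Pool.Agent.MP_43e117_nt.PG

end
end

section

/-!
The one-dimensional sieve sum conditioned on divisibility by one site.
-/

open Finset

noncomputable section

namespace Pool.Agent.MP_43e117_nt.PG

open MP_fdd1d3_nt (LL SS mem_SS LL_nonneg)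

namespace GCA

variable {ι : Type} [Fintype ι] [DecidableEq ι]

/-- the coefficients after the site `l` is summed out -/
def c1 (r : ι → ℝ) (C : (ι → Option Unit) → ℝ) (l : ι) (σ : ι → Option Unit) : ℝ :=
  if σ l = none then C σ + (r l - 1) * C (Function.update σ l (some ())) else 0

theorem prod_upd (r : ι → ℝ) {l : ι} {σ u : ι → Option Unit} (hσ : σ l = none)
    (hu : u l = some ()) : ∏ p, fr (r p) (Function.update σ l (some ()) p) (u p) =
      (r l - 1) * ∏ p, fr (r p) (σ p) (u p) := by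
  rw [← mul_prod_erase univ _ (mem_univ l), ← mul_prod_erase univ
    (fun p => fr (r p) (σ p) (u p)) (mem_univ l), Function.update_self, hσ, hu]
  simp only [fr, if_true, one_mul]
  exact congrArg _ (prod_congr rfl fun p hp => by
    rw [Function.update_of_ne (ne_of_mem_erase hp)])

theorem psi_eq (r : ι → ℝ) (C : (ι → Option Unit) → ℝ) {l : ι} {u : ι → Option Unit}
    (hu : u l = some ()) : Psi r C u = Psi r (c1 r C l) u := by
  have h1 : ∑ σ ∈ univ.filter (fun σ : ι → Option Unit => ¬ σ l = none),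
      C σ * ∏ p, fr (r p) (σ p) (u p) = ∑ σ ∈ univ.filter (fun σ : ι → Option Unit => σ l = none),
        (r l - 1) * C (Function.update σ l (some ())) * ∏ p, fr (r p) (σ p) (u p) := by
    symm
    refine sum_nbij' (fun σ => Function.update σ l (some ())) (fun σ => Function.update σ l none)
      (by simp) (by simp) (fun σ hσ => ?_) (fun σ hσ => ?_) fun σ hσ => ?_
    · rw [Function.update_idem, ← (mem_filter.1 hσ).2, Function.update_eq_self]
    · have h : σ l = some () := by
        have := (mem_filter.1 hσ).2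
        cases e : σ l <;> simp_all
      rw [Function.update_idem, ← h, Function.update_eq_self]
    · rw [prod_upd r (mem_filter.1 hσ).2 hu]
      ring
  unfold Psi
  rw [← sum_filter_add_sum_filter_not univ (fun σ : ι → Option Unit => σ l = none), h1,
    ← sum_add_distrib, sum_filter]
  refine sum_congr rfl fun σ _ => ?_
  unfold c1
  split_ifs
  · ring
  · rw [zero_mul]

omit [DecidableEq ι] in
theorem ll_jn (q : ι → ℕ) {ρ σ : ι → Option Unit} (h : ∀ p, ρ p = none ∨ σ p = none) :
    LL q (SS (jn ρ σ) ()) = LL q (SS ρ ()) + LL q (SS σ ()) := by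
  simp only [LL, SS, sum_filter, ← sum_add_distrib]
  refine sum_congr rfl fun p _ => ?_
  have := h p
  unfold jn
  cases e : ρ p <;> cases e' : σ p <;> simp_all

theorem ll_upd (q : ι → ℕ) {l : ι} {σ : ι → Option Unit} (h : σ l = none) :
    LL q (SS (Function.update σ l (some ())) ()) = Real.log (q l) + LL q (SS σ ()) := by
  have e : SS (Function.update σ l (some ())) () = insert l (SS σ ()) := by
    ext p
    by_cases hp : p = l
    · simp [mem_SS, hp]
    · simp [mem_SS, hp]
  rw [e, LL, sum_insert (by simp [mem_SS, h]), LL]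

/-- the pointwise bound -/
def bb (q : ι → ℕ) (t x L a : ℝ) (s : Finset ι) : ℝ :=
  (if LL q s ≤ x then 1 else 0) - (if LL q s ≤ x - L then 1 else 0) +
    a ^ 2 * if LL q s ≤ t then 1 else 0

omit [Fintype ι] [DecidableEq ι] in
theorem bb_nonneg (q : ι → ℕ) (t x a : ℝ) {L : ℝ} (hL : 0 ≤ L) (s : Finset ι) :
    0 ≤ bb q t x L a s := by
  unfold bb
  have := sq_nonneg a
  split_ifs <;> linarith

theorem term_le (r : ι → ℝ) (q : ι → ℕ) (t : ℝ) (l : ι) {ρ σ : ι → Option Unit}
    (h : ∀ p, ρ p = none ∨ σ p = none) : c1 r (sel r q t) l (jn ρ σ) ^ 2 ≤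
      bb q t (t - LL q (SS ρ ())) (Real.log (q l)) (r l) (SS σ ()) * (GG r q t)⁻¹ ^ 2 := by
  have hL : 0 ≤ Real.log (q l) := Real.log_natCast_nonneg _
  have h0 := LL_nonneg q (SS ρ ())
  have h1 := sq_nonneg (GG r q t)⁻¹
  unfold c1
  split_ifs with hl
  · unfold sel bb
    rw [ll_upd q hl, ll_jn q h]
    have h2 := mul_nonneg (sq_nonneg (r l)) h1
    split_ifs <;> linarith
  · rw [zero_pow two_ne_zero]
    exact mul_nonneg (bb_nonneg _ _ _ _ hL _) h1

omit [DecidableEq ι] in
theorem sum_bb (r : ι → ℝ) (q : ι → ℕ) (t x L a : ℝ) :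
    ∑ s, hs r s * bb q t x L a s = GG r q x - GG r q (x - L) + a ^ 2 * GG r q t := by
  unfold GG bb
  rw [mul_sum, ← sum_sub_distrib, ← sum_add_distrib]
  refine sum_congr rfl fun s _ => ?_
  split_ifs <;> ring

theorem av {r : ι → ℝ} (hr : ∀ p, 0 ≤ r p) (q : ι → ℕ) {t I : ℝ} (l : ι)
    (hI : ∀ x ≤ t, GG r q x - GG r q (x - Real.log (q l)) ≤ I) :
    Av r (c1 r (sel r q t) l) ((I + r l ^ 2 * GG r q t) / GG r q t ^ 2) := by
  intro ρ
  have hL : 0 ≤ Real.log (q l) := Real.log_natCast_nonneg _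
  have h1 := sq_nonneg (GG r q t)⁻¹
  calc _ ≤ ∑ σ ∈ univ.filter (fun σ : ι → Option Unit => ∀ p, ρ p = none ∨ σ p = none),
        hh r σ * (bb q t (t - LL q (SS ρ ())) (Real.log (q l)) (r l) (SS σ ()) *
          (GG r q t)⁻¹ ^ 2) :=
        sum_le_sum fun σ hσ => mul_le_mul_of_nonneg_left (term_le r q t l (mem_filter.1 hσ).2)
          (hh_nonneg hr σ)
    _ ≤ ∑ σ : ι → Option Unit, hh r σ *
        (bb q t (t - LL q (SS ρ ())) (Real.log (q l)) (r l) (SS σ ()) * (GG r q t)⁻¹ ^ 2) :=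
        sum_le_sum_of_subset_of_nonneg (filter_subset _ _) fun σ _ _ =>
          mul_nonneg (hh_nonneg hr σ) (mul_nonneg (bb_nonneg _ _ _ _ hL _) h1)
    _ = (∑ s, hs r s * bb q t (t - LL q (SS ρ ())) (Real.log (q l)) (r l) s) *
        (GG r q t)⁻¹ ^ 2 := by
        rw [← sum_unit, sum_mul]
        exact sum_congr rfl fun σ _ => by rw [hh_unit, mul_assoc]
    _ ≤ _ := by
        rw [sum_bb, div_eq_mul_inv, ← inv_pow]
        refine mul_le_mul_of_nonneg_right ?_ h1
        have := hI (t - LL q (SS ρ ())) (sub_le_self _ (LL_nonneg _ _))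
        linarith

end GCA

theorem s_GC (hGU : StGU) (hSB : StSB) : StGC := by
  intro ι _ _ r q t c I μ l hc hr ht hμ hCl hI
  have h0 : ∀ p, 0 ≤ r p := fun p => (hr p).1
  have hS := (hSB ι r q t h0 ht).2.2.2.2.2.1
  have h1 := hGU ι Unit r 1 c _ _ ∅ μ (GCA.c1 r (sel r q t) l) (by simp) le_rfl hc hr hCl
    (fun σ hσ p a hp => by
      unfold GCA.c1 at hσ
      split_ifs at hσ with hl
      · have hpl : p ≠ l := fun e => by rw [e, hl] at hp; cases hp
        refine ⟨hpl, ?_⟩
        by_cases e : sel r q t σ = 0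
        · rw [e, zero_add] at hσ
          exact hS _ (right_ne_zero_of_mul hσ) p a (by rw [Function.update_of_ne hpl, hp])
        · exact hS σ e p a hp
      · exact absurd rfl hσ) (GCA.av h0 q l hI)
  rw [prod_empty, mul_one, one_pow, mul_one] at h1
  refine le_of_eq_of_le (sum_congr rfl fun u _ => ?_) h1
  by_cases hu : u l = some ()
  · beta_reduce
    rw [Sel, GCA.psi_eq r _ hu]
  · rw [prod_eq_zero (mem_univ l) (by rw [hμ, dl, if_neg hu]), zero_mul, zero_mul]

end Pool.Agent.MP_43e117_nt.PG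

end
end
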