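import Pool.Agent.Mg.F436a94p.G204ca6

set_option linter.all false

section

/-!
From mean values of character sums to the level of distribution with divisor weights.
-/

open Finset Filter

noncomputable section

namespace Pool.Agent.MP_43e117_nt.PG

namespace LVA

theorem lg {n N : ℕ} (h : n ≤ N) : Real.log n ≤ Real.log N := by
  rcases n.eq_zero_or_pos with rfl | h0
  · simpa using Real.log_natCast_nonneg N
  · exact Real.log_le_log (by exact_mod_cast h0) (by exact_mod_cast h)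

theorem tot (hTot : StTot) {n N : ℕ} (h1 : 1 ≤ n) (h : n ≤ N) :
    1 / (n.totient : ℝ) ≤ (1 + 2 * Real.log N) * (1 / n) := by
  have h2 : (0 : ℝ) < n.totient := by exact_mod_cast Nat.totient_pos.2 h1
  have h3 : (0 : ℝ) < n := by exact_mod_cast h1
  rw [mul_one_div, div_le_div_iff₀ h2 h3]
  nlinarith [hTot n h1, lg h]

theorem asum {f : ℕ → ℝ} {I J : Finset ℕ} {B y : ℝ} (hB : 0 ≤ B) (h : ∀ n ∈ I, |f n| ≤ B)
    (hJ : J ⊆ I) (hy : (J.card : ℝ) ≤ y) : |∑ n ∈ J, f n| ≤ y * B := by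
  refine (abs_sum_le_sum_abs _ _).trans ((sum_le_card_nsmul _ _ _ fun n hn => h n (hJ hn)).trans ?_)
  rw [nsmul_eq_mul]
  exact mul_le_mul_of_nonneg_right hy hB

theorem triv (hTot : StTot) {f : ℕ → ℝ} {I : Finset ℕ} {N q : ℕ} {B : ℝ} (hB : 0 ≤ B)
    (hI : I ⊆ Icc 1 (2 * N)) (h : ∀ n ∈ I, |f n| ≤ B) (h1 : 1 ≤ q) (hq : q ≤ N) (a : ℕ) :
    |Dl f I q a| ≤ 5 * N * B * (1 + 2 * Real.log N) * (1 / q) := by
  have h0 : (0 : ℝ) < q := by exact_mod_cast h1
  have h2 : (I.filter fun n => n ≡ a [MOD q]).card ≤ 2 * N / q + 1 := by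
    rw [← card_range (2 * N / q + 1)]
    refine card_le_card_of_injOn (· / q) (fun n hn => ?_) fun n hn m hm e => ?_
    · exact mem_range.2 (Nat.lt_succ_of_le
        (Nat.div_le_div_right (mem_Icc.1 (hI (mem_filter.1 hn).1)).2))
    · rw [← Nat.div_add_mod n q, ← Nat.div_add_mod m q, show n / q = m / q from e,
        show n % q = m % q from (mem_filter.1 hn).2.trans (mem_filter.1 hm).2.symm]
  have h3 : ((I.filter fun n => n ≡ a [MOD q]).card : ℝ) ≤ 3 * N * (1 / q) := by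
    have h4 : ((2 * N / q : ℕ) : ℝ) ≤ (2 * N : ℕ) / q := Nat.cast_div_le
    have h5 : (1 : ℝ) ≤ N / q := (one_le_div h0).2 (by exact_mod_cast hq)
    have h6 : ((I.filter fun n => n ≡ a [MOD q]).card : ℝ) ≤ (2 * N / q : ℕ) + 1 := by
      exact_mod_cast h2
    push_cast at h4
    rw [mul_one_div, mul_div_assoc] at *
    linarith
  have h4 : ((I.filter fun n => n.Coprime q).card : ℝ) ≤ 2 * N := by
    have := card_le_card ((filter_subset (fun n => n.Coprime q) I).trans hI)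
    rw [Nat.card_Icc, Nat.add_sub_cancel] at this
    exact_mod_cast this
  have h5 := asum hB h (filter_subset _ _) h3
  have h6 := mul_le_mul (asum hB h (filter_subset _ _) h4) (tot hTot h1 hq) (by positivity)
    (by positivity)
  have h7 : 0 ≤ N * B * Real.log N * (1 / q) := by
    have := Real.log_natCast_nonneg N
    positivity
  refine (abs_sub _ _).trans ?_
  rw [abs_div, Nat.abs_cast, div_eq_mul_one_div]
  linarith

theorem ec (hTot : StTot) (hTau : StTau) (hR2 : StR2) {f : ℕ → ℝ} {I : Finset ℕ} {N Q : ℕ} {B : ℝ}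
    (hB : 0 ≤ B) (hQ : Q ≤ N) (h : ∀ e ∈ Icc 1 N, PS f I e 1 Q ≤ B) :
    ∑ q ∈ Icc 1 Q, EC f I q ≤ (1 + 2 * Real.log N) ^ 2 * B * (1 + Real.log N) := by
  have h0 := Real.log_natCast_nonneg N
  have h1 := (hTau 0 Q).1
  simp only [pow_zero, pow_one] at h1
  refine (hR2 f I Q).trans ((sum_le_sum (g := fun e : ℕ =>
    (1 + 2 * Real.log N) ^ 2 * B * (1 / e)) fun e he => ?_).trans ?_)
  · rw [mem_Icc] at he
    have h2 : ∑ r ∈ Ioc 1 Q, (1 / (r.totient : ℝ)) * ∑ χ ∈ pm r, ‖CS f I e χ‖ ≤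
        (1 + 2 * Real.log N) * B := by
      refine le_trans ?_ (mul_le_mul_of_nonneg_left (h e (mem_Icc.2 ⟨he.1, he.2.trans hQ⟩))
        (by positivity))
      rw [PS, mul_sum]
      refine sum_le_sum fun r hr => ?_
      rw [mem_Ioc] at hr
      rw [← mul_assoc]
      exact mul_le_mul_of_nonneg_right (tot hTot hr.1.le (hr.2.trans hQ)) (by positivity)
    exact (mul_le_mul (tot hTot he.1 (he.2.trans hQ)) h2 (by positivity)
      (by positivity)).trans_eq (by ring)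
  · rw [← mul_sum]
    exact mul_le_mul_of_nonneg_left (h1.trans (by linarith [lg hQ])) (by positivity)

end LVA

theorem s_LV (hTot : StTot) (hTau : StTau) (hR1 : StR1) (hR2 : StR2) : StLV := by
  intro A c A0
  refine ⟨2 * A + (A0 + 2 * 2 ^ (2 * c) + 9), ?_⟩
  filter_upwards [(Real.tendsto_log_atTop.comp tendsto_natCast_atTop_atTop).eventually_ge_atTop 5]
    with N hL f I Q hI hQ hf hP
  change 5 ≤ Real.log N at hL
  have hQ' : ⌊Q⌋₊ ≤ N := Nat.floor_le_of_le hQ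
  have hE : ∀ q, 0 ≤ EC f I q := fun q => by unfold EC; positivity
  have hT := (hTau (2 * c) ⌊Q⌋₊).1
  have hl := LVA.lg hQ'
  have hl0 := Real.log_natCast_nonneg ⌊Q⌋₊
  have hS := LVA.ec hTot hTau hR2 (by positivity) hQ' hP
  have hD := fun q h1 h2 a => LVA.triv (q := q) hTot (by positivity) hI hf h1 h2 a
  generalize Real.log N = L at *
  have h0 : 0 < L := by linarith
  set K := 5 * N * L ^ A0 * (1 + 2 * L) with hK
  have hK0 : 0 ≤ K := by positivity
  refine ⟨fun q => min (EC f I q) (K * (1 / q)), fun q => le_min (hE q) (by positivity),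
    fun q a h1 h2 h3 => le_min (hR1 f I q a h1 h3)
      (hD q h1 (by exact_mod_cast h2.trans hQ) a), abs_le_of_sq_le_sq' ?_ (by positivity) |>.2⟩
  refine (sum_sq_le_sum_mul_sum_of_sq_le_mul _ (f := fun q => K * (ta q ^ (2 * c) / q))
    (g := EC f I) (fun q _ => by unfold ta; positivity) (fun q _ => hE q) fun q _ => ?_).trans ?_
  · have h1 := mul_le_mul (min_le_right (EC f I q) (K * (1 / q))) (min_le_left _ (K * (1 / q)))
      (le_min (hE q) (by positivity)) (by positivity)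
    rw [mul_pow, ← pow_mul, mul_comm c 2, sq]
    exact (mul_le_mul_of_nonneg_left h1 (by unfold ta; positivity)).trans_eq (by ring)
  · have h1 : 1 + L ≤ L ^ 2 := by nlinarith
    have h2 : 1 + 2 * L ≤ L ^ 2 := by nlinarith
    have h3 : 1 + Real.log ⌊Q⌋₊ ≤ L ^ 2 := by linarith
    rw [← mul_sum]
    calc _ ≤ L * N * L ^ A0 * L ^ 2 * (L ^ 2) ^ 2 ^ (2 * c) *
          ((L ^ 2) ^ 2 * (N / L ^ (2 * A + (A0 + 2 * 2 ^ (2 * c) + 9))) * L ^ 2) := by
          refine mul_le_mul (mul_le_mul ?_ (hT.trans ?_) (sum_nonneg fun q _ => ?_) ?_)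
            (hS.trans ?_) (sum_nonneg fun q _ => hE q) ?_
          · rw [hK]
            gcongr
          · gcongr
          · unfold ta
            positivity
          · positivity
          · gcongr
          · positivity
      _ = _ := by
          rw [← pow_mul]
          generalize 2 * 2 ^ (2 * c) = T
          field_simp
          ring

end Pool.Agent.MP_43e117_nt.PG

end
end

section

open Finset

namespace Pool.Agent.MP_43e117_nt.PG

namespace SCA

lemma sub {X : Type} {s : Finset X} {φ : X → ℕ → ℂ} {I I1 : Finset ℕ} {K : ℝ}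
    (h : ∀ a : ℕ → ℂ, ∑ x ∈ s, ‖∑ m ∈ I, a m * φ x m‖ ^ 2 ≤ K * ∑ m ∈ I, ‖a m‖ ^ 2)
    (hI : I1 ⊆ I) (a : ℕ → ℂ) :
    ∑ x ∈ s, ‖∑ m ∈ I1, a m * φ x m‖ ^ 2 ≤ K * ∑ m ∈ I1, ‖a m‖ ^ 2 := by
  have h1 := h fun m => if m ∈ I1 then a m else 0
  simp only [ite_mul, zero_mul, apply_ite (fun z : ℂ => ‖z‖ ^ 2), norm_zero, ne_eq,
    OfNat.ofNat_ne_zero, not_false_eq_true, zero_pow, sum_ite_mem, inter_eq_right.2 hI] at h1
  exact h1

lemma cs {x1 x2 y1 y2 : ℝ} (h1 : 0 ≤ x1) (h2 : 0 ≤ x2) (h3 : 0 ≤ y1) (h4 : 0 ≤ y2) :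
    √x1 * √y1 + √x2 * √y2 ≤ √(x1 + x2) * √(y1 + y2) := by
  have h := Real.sum_mul_le_sqrt_mul_sqrt univ ![√x1, √x2] ![√y1, √y2]
  simpa [Fin.sum_univ_two, Real.sq_sqrt, h1, h2, h3, h4] using h

end SCA

open SCA in
theorem s_SC : StSC := by
  intro X s φ ψ I J K1 K2 hK1 hK2 hφ hψ g hg u t hu hI a b
  have rect : ∀ I1 ⊆ I, ∀ J1 ⊆ J,
      ∑ x ∈ s, ‖∑ m ∈ I1, ∑ n ∈ J1, a m * φ x m * (b n * ψ x n)‖ ≤
        √(K1 * K2) * √(∑ m ∈ I1, ‖a m‖ ^ 2) * √(∑ n ∈ J1, ‖b n‖ ^ 2) := by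
    intro I1 h1 J1 h2
    simp only [← sum_mul_sum, norm_mul]
    refine (Real.sum_mul_le_sqrt_mul_sqrt _ _ _).trans ((mul_le_mul
      (Real.sqrt_le_sqrt (sub hφ h1 a)) (Real.sqrt_le_sqrt (sub hψ h2 b)) (Real.sqrt_nonneg _)
      (Real.sqrt_nonneg _)).trans_eq ?_)
    rw [Real.sqrt_mul hK1, Real.sqrt_mul hK2, Real.sqrt_mul hK1]
    ring
  have nn : ∀ (c : ℕ → ℂ) (T : Finset ℕ), 0 ≤ ∑ m ∈ T, ‖c m‖ ^ 2 := fun c T =>
    sum_nonneg fun _ _ => sq_nonneg _
  have mono : ∀ (c : ℕ → ℂ) {T T' : Finset ℕ}, T ⊆ T' →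
      √(∑ m ∈ T, ‖c m‖ ^ 2) ≤ √(∑ m ∈ T', ‖c m‖ ^ 2) := fun c _ _ h =>
    Real.sqrt_le_sqrt (sum_le_sum_of_subset_of_nonneg h fun _ _ _ => sq_nonneg _)
  suffices H : ∀ t u : ℕ, 1 ≤ u → ∀ I1 ⊆ I, I1 ⊆ Ico u (u + 2 ^ t) → ∀ J1 ⊆ J,
      ∑ x ∈ s, ‖∑ m ∈ I1, ∑ n ∈ J1.filter (fun n => n ≤ g m), a m * φ x m * (b n * ψ x n)‖ ≤
        (t + 1) * √(K1 * K2) * √(∑ m ∈ I1, ‖a m‖ ^ 2) * √(∑ n ∈ J1, ‖b n‖ ^ 2) from
    H t u hu I Subset.rfl hI J Subset.rfl
  intro t
  induction t with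
  | zero =>
    intro u _ I1 h1 h2 J1 h3
    have h4 : ∀ x, ∑ m ∈ I1, ∑ n ∈ J1.filter (fun n => n ≤ g m), a m * φ x m * (b n * ψ x n)
        = ∑ m ∈ I1, ∑ n ∈ J1.filter (fun n => n ≤ g u), a m * φ x m * (b n * ψ x n) := fun x =>
      sum_congr rfl fun m hm => by
        have := mem_Ico.1 (h2 hm)
        rw [show m = u by omega]
    simp only [h4]
    refine (rect I1 h1 _ ((filter_subset _ _).trans h3)).trans ?_
    rw [Nat.cast_zero, zero_add, one_mul]
    exact mul_le_mul_of_nonneg_left (mono b (filter_subset _ _)) (by positivity)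
  | succ t ih =>
    intro u hu I1 h1 h2 J1 h3
    obtain ⟨c, hc⟩ : ∃ c, c = u + 2 ^ t := ⟨_, rfl⟩
    have hc1 : 1 ≤ c := hc ▸ hu.trans (Nat.le_add_right _ _)
    have e1 := sum_filter_add_sum_filter_not I1 (fun m => m < c) fun m => ‖a m‖ ^ 2
    have e2 := sum_filter_add_sum_filter_not J1 (fun n => n ≤ g c) fun n => ‖b n‖ ^ 2
    have k0 := rect _ ((filter_subset (fun m => m < c) _).trans h1) _
      ((filter_subset (fun n => n ≤ g c) _).trans h3)
    have k1 := ih u hu _ ((filter_subset (fun m => m < c) _).trans h1) (fun m hm => by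
      have := mem_Ico.1 (h2 (mem_filter.1 hm).1)
      exact mem_Ico.2 ⟨this.1, hc ▸ (mem_filter.1 hm).2⟩) _
      ((filter_subset (fun n => ¬ n ≤ g c) _).trans h3)
    have k2 := ih c hc1 _ ((filter_subset (fun m => ¬ m < c) _).trans h1) (fun m hm => by
      have := mem_Ico.1 (h2 (mem_filter.1 hm).1)
      exact mem_Ico.2 ⟨not_lt.1 (mem_filter.1 hm).2, by omega⟩) _
      ((filter_subset (fun n => n ≤ g c) _).trans h3)
    have h4 : ∀ x, ∑ m ∈ I1, ∑ n ∈ J1.filter (fun n => n ≤ g m), a m * φ x m * (b n * ψ x n)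
        = ∑ m ∈ I1.filter (fun m => m < c), ∑ n ∈ J1.filter (fun n => n ≤ g c),
            a m * φ x m * (b n * ψ x n) +
          (∑ m ∈ I1.filter (fun m => m < c), ∑ n ∈ (J1.filter (fun n => ¬ n ≤ g c)).filter
            (fun n => n ≤ g m), a m * φ x m * (b n * ψ x n) +
          ∑ m ∈ I1.filter (fun m => ¬ m < c), ∑ n ∈ (J1.filter (fun n => n ≤ g c)).filter
            (fun n => n ≤ g m), a m * φ x m * (b n * ψ x n)) := by
      intro x
      rw [← add_assoc, ← sum_add_distrib, ← sum_filter_add_sum_filter_not I1 (fun m => m < c)]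
      congr 1
      · refine sum_congr rfl fun m hm => ?_
        have h5 := hg m c (by have := mem_Ico.1 (h2 (mem_filter.1 hm).1); omega)
          (mem_filter.1 hm).2.le
        rw [← sum_filter_add_sum_filter_not _ (fun n => n ≤ g c), filter_filter, filter_filter,
          filter_filter]
        congr 2
        · exact filter_congr fun n _ => by omega
        · exact filter_congr fun n _ => and_comm
      · refine sum_congr rfl fun m hm => ?_
        have h5 := hg c m hc1 (not_lt.1 (mem_filter.1 hm).2)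
        rw [filter_filter]
        congr 1
        exact filter_congr fun n _ => by omega
    simp only [h4]
    refine (sum_le_sum fun x _ => (norm_add_le _ _).trans
      (add_le_add le_rfl (norm_add_le _ _))).trans ?_
    rw [sum_add_distrib, sum_add_distrib]
    have k3 := cs (nn a (I1.filter fun m => m < c)) (nn a (I1.filter fun m => ¬ m < c))
      (nn b (J1.filter fun n => ¬ n ≤ g c)) (nn b (J1.filter fun n => n ≤ g c))
    rw [e1, add_comm (∑ n ∈ J1.filter _, _), e2] at k3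
    have k4 := mul_le_mul (mono a (filter_subset (fun m => m < c) I1))
      (mono b (filter_subset (fun n => n ≤ g c) J1)) (Real.sqrt_nonneg _) (Real.sqrt_nonneg _)
    have k5 := mul_le_mul_of_nonneg_left k3 (by positivity : 0 ≤ ((t : ℝ) + 1) * √(K1 * K2))
    have k6 := mul_le_mul_of_nonneg_left k4 (Real.sqrt_nonneg (K1 * K2))
    push_cast
    linarith

end Pool.Agent.MP_43e117_nt.PG

end

section

/-!
The bilinear estimate on one dyadic block.
-/

open Finset Filter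

noncomputable section

namespace Pool.Agent.MP_43e117_nt.PG

namespace B1A

theorem ls {c : ℝ} (hc : 0 < c) (h : ∀ (R L : ℕ) (a : ℕ → ℂ),
    ∑ r ∈ Icc 1 R, ∑ χ ∈ pm r, ‖∑ n ∈ Icc 1 L, a n * χ (n : ZMod r)‖ ^ 2 ≤
      c * ((R : ℝ) ^ 2 + L) * ∑ n ∈ Icc 1 L, ‖a n‖ ^ 2) {Q L : ℕ} (hQ : 1 ≤ Q) {I : Finset ℕ}
    (hI : I ⊆ Icc 1 L) {y : ℝ} (hy : (L : ℝ) ≤ 4 * y) (a : ℕ → ℂ) :
    ∑ x ∈ (Ico Q (2 * Q)).sigma pm, ‖∑ m ∈ I, a m * x.2 (m : ZMod x.1)‖ ^ 2 ≤
      4 * c * ((Q : ℝ) ^ 2 + y) * ∑ m ∈ I, ‖a m‖ ^ 2 := by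
  have h1 := h (2 * Q) L fun n => if n ∈ I then a n else 0
  have e : ∀ n, ‖if n ∈ I then a n else 0‖ ^ 2 = if n ∈ I then ‖a n‖ ^ 2 else 0 := fun n => by
    split_ifs <;> simp
  simp only [e, ite_mul, zero_mul, sum_ite_mem, inter_eq_right.2 hI] at h1
  rw [sum_sigma]
  refine ((sum_le_sum_of_subset_of_nonneg (fun r hr => ?_) fun _ _ _ => by positivity).trans
    h1).trans (mul_le_mul_of_nonneg_right ?_ (by positivity))
  · rw [mem_Ico] at hr
    exact mem_Icc.2 ⟨by omega, hr.2.le⟩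
  · push_cast
    nlinarith

theorem lg {M x : ℕ} (hM : 1 ≤ M) (hx : M ≤ x) :
    ((Nat.log 2 M + 1 : ℕ) : ℝ) + 1 ≤ 2 * (1 + Real.log x) := by
  have h1 : (2 : ℝ) ^ Nat.log 2 M ≤ x := by
    exact_mod_cast (Nat.pow_log_le_self 2 (by omega)).trans hx
  have h2 := Real.log_le_log (by positivity) h1
  rw [Real.log_pow] at h2
  have h3 := Real.log_two_gt_d9
  have h4 : (0 : ℝ) ≤ Nat.log 2 M := by positivity
  push_cast
  nlinarith

end B1A

theorem s_B1 (hLS : StLS) (hSC : StSC) : StB1 := by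
  obtain ⟨c, hc, h⟩ := hLS
  refine ⟨8 * c, by positivity, fun Q M x a b hQ hM hx => ?_⟩
  have h1 := hSC _ ((Ico Q (2 * Q)).sigma pm) (fun x m => x.2 (m : ZMod x.1))
    (fun x m => x.2 (m : ZMod x.1)) (Ico M (2 * M)) (Icc 1 (x / M)) _ _ (by positivity)
    (by positivity)
    (B1A.ls hc h (L := 2 * M) (y := M) hQ (fun m hm => by
      rw [mem_Ico] at hm
      exact mem_Icc.2 ⟨by omega, hm.2.le⟩) (by push_cast; linarith [Nat.cast_nonneg (α := ℝ) M]))
    (B1A.ls hc h (y := (x : ℝ) / M) hQ subset_rfl (Nat.cast_div_le.trans (by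
      linarith [show (0 : ℝ) ≤ (x : ℝ) / M by positivity])))
    (fun m => x / m) (fun m m' h1 h2 => Nat.div_le_div_left h2 h1) M (Nat.log 2 M + 1) hM
    (Ico_subset_Ico_right (by have := Nat.lt_pow_succ_log_self one_lt_two M; omega)) a b
  rw [sum_sigma] at h1
  refine (le_of_eq (sum_congr rfl fun r _ => sum_congr rfl fun χ _ => congrArg _
    (sum_congr rfl fun m hm => sum_congr ?_ fun n _ => ?_))).trans (h1.trans ?_)
  · rw [mem_Ico] at hm
    have h2 : x / m ≤ x / M := Nat.div_le_div_left hm.1 hM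
    have h3 := Nat.div_le_self x m
    ext n
    simp only [mem_filter, mem_Icc, mul_comm m, ← Nat.le_div_iff_mul_le (show 0 < m by omega)]
    omega
  · rw [Nat.cast_mul, map_mul]
    ring
  · rw [mul_mul_mul_comm (4 * c), Real.sqrt_mul (by positivity), Real.sqrt_mul_self (by positivity)]
    have h2 := B1A.lg hM hx
    gcongr ?_ * _ * _
    rw [← mul_assoc]
    gcongr ?_ * _
    nlinarith

end Pool.Agent.MP_43e117_nt.PG

end
end

section

open Finset Filter

noncomputable section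

namespace Pool.Agent.MP_43e117_nt.PG

namespace B2A

theorem dya {E : Type} [AddCommMonoid E] (f : ℕ → E) (T : ℕ) :
    ∑ m ∈ Ico 1 (2 ^ T), f m = ∑ j ∈ range T, ∑ m ∈ Ico (2 ^ j) (2 * 2 ^ j), f m := by
  induction T with
  | zero => simp
  | succ T ih =>
    rw [sum_range_succ, ← ih, pow_succ', sum_Ico_consecutive _ Nat.one_le_two_pow (by omega)]

theorem lg {x : ℕ} (hx : x ≠ 0) : ((Nat.log 2 x + 1 : ℕ) : ℝ) ≤ 2 * (1 + Real.log x) := by
  have h1 : ((2 : ℝ)) ^ Nat.log 2 x ≤ x := by exact_mod_cast Nat.pow_log_le_self 2 hx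
  have h2 := Real.log_le_log (by positivity) h1
  rw [Real.log_pow] at h2
  have h3 := Real.log_two_gt_d9
  have h4 : (0 : ℝ) ≤ Nat.log 2 x := Nat.cast_nonneg _
  push_cast
  nlinarith

theorem pair {Q M x D1 D2 U V α β A B : ℝ} (hQ : 1 ≤ Q) (hM : 1 ≤ M) (hx : 0 < x) (h1 : 0 < D1)
    (hU : 0 < U) (hV : 0 < V) (hα : 0 ≤ α) (hβ : 0 ≤ β) (a1 : U ≤ 2 * M) (a2 : V ≤ x / M)
    (a3 : Q ≤ D2) (a4 : D1 ≤ 2 * Q) (hA : A ≤ α ^ 2 * (2 * M)) (hB : B ≤ β ^ 2 * (x / M)) :
    1 / Q * (√((Q ^ 2 + M) * (Q ^ 2 + x / M)) * √A * √B) ≤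
      4 * α * β * (x / D1 + x / √U + x / √V + D2 * √x) := by
  have hM0 : 0 < M := by linarith
  have hQ0 : 0 < Q := by linarith
  obtain ⟨s, hs, rfl⟩ : ∃ s, 0 < s ∧ M = s ^ 2 := ⟨√M, by positivity, (Real.sq_sqrt hM0.le).symm⟩
  obtain ⟨t, ht, e⟩ : ∃ t, 0 < t ∧ x / s ^ 2 = t ^ 2 :=
    ⟨√(x / s ^ 2), by positivity, (Real.sq_sqrt (by positivity)).symm⟩
  have ex : x = (s * t) ^ 2 := by rw [mul_pow, ← e]; field_simp
  rw [e] at a2 hB ⊢
  have b1 : √((Q ^ 2 + s ^ 2) * (Q ^ 2 + t ^ 2)) ≤ (Q + s) * (Q + t) :=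
    Real.sqrt_le_iff.2 ⟨by positivity, by
      rw [mul_pow]
      exact mul_le_mul (by nlinarith) (by nlinarith) (by positivity) (by positivity)⟩
  have b2 : √A ≤ α * (2 * s) := Real.sqrt_le_iff.2 ⟨by positivity, hA.trans (by
    rw [mul_pow]; exact mul_le_mul_of_nonneg_left (by nlinarith) (sq_nonneg _))⟩
  have b3 : √B ≤ β * t := Real.sqrt_le_iff.2 ⟨by positivity, by rwa [mul_pow]⟩
  have b4 : √U ≤ 2 * s := Real.sqrt_le_iff.2 ⟨by positivity, by nlinarith⟩
  have b5 : √V ≤ t := Real.sqrt_le_iff.2 ⟨ht.le, a2⟩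
  have c1 : x / (2 * Q) ≤ x / D1 := div_le_div_of_nonneg_left hx.le h1 a4
  have c2 : x / (2 * s) ≤ x / √U := div_le_div_of_nonneg_left hx.le (Real.sqrt_pos.2 hU) b4
  have c3 : x / t ≤ x / √V := div_le_div_of_nonneg_left hx.le (Real.sqrt_pos.2 hV) b5
  have c4 : Q * (s * t) ≤ D2 * √x := by
    rw [ex, Real.sqrt_sq (by positivity)]
    exact mul_le_mul_of_nonneg_right a3 (by positivity)
  have c5 : 0 ≤ x / t := by positivity
  have c6 : 0 ≤ Q * (s * t) := by positivity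
  calc _ ≤ 1 / Q * ((Q + s) * (Q + t) * (α * (2 * s)) * (β * t)) := by gcongr
    _ = 4 * α * β * (x / (2 * Q) + x / (2 * s) + x / t / 2 + Q * (s * t) / 2) := by
      rw [ex]; field_simp; ring
    _ ≤ _ := mul_le_mul_of_nonneg_left (by linarith) (by positivity)

end B2A

theorem s_B2 (hB1 : StB1) : StB2 := by
  obtain ⟨c, hc, hB1⟩ := hB1
  refine ⟨16 * c, by positivity, fun x D1 D2 U V α β a b h1 h2 hU hV hα hβ ha hb hA hB => ?_⟩
  rcases eq_or_ne x 0 with rfl | hx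
  · obtain rfl : D2 = 0 := by omega
    simp
  have hx1 : (1 : ℝ) ≤ x := by exact_mod_cast Nat.pos_of_ne_zero hx
  have hL : 0 ≤ 1 + Real.log x := by linarith [Real.log_nonneg hx1]
  obtain ⟨T, hT⟩ : ∃ T, T = Nat.log 2 x + 1 := ⟨_, rfl⟩
  have hT1 : x < 2 ^ T := hT ▸ Nat.lt_pow_succ_log_self one_lt_two x
  have hT2 : ∀ j ∈ range T, 2 ^ j ≤ x := fun j hj =>
    (Nat.pow_le_pow_right two_pos (by have := mem_range.1 hj; omega)).trans
      (Nat.pow_log_le_self 2 hx)
  have hT3 : (T : ℝ) ≤ 2 * (1 + Real.log x) := hT ▸ B2A.lg hx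
  set a1 : ℕ → ℂ := fun m => if m ≤ x then a m else 0 with ha1
  set G : ℕ → ℕ → ℝ := fun j r => ∑ χ ∈ pm r, ‖∑ m ∈ Ico (2 ^ j) (2 * 2 ^ j),
    ∑ n ∈ (Icc 1 x).filter (fun n => m * n ≤ x), a1 m * b n * χ ((m * n : ℕ) : ZMod r)‖ with hG
  have G0 : ∀ j r, 0 ≤ G j r := fun j r => sum_nonneg fun _ _ => norm_nonneg _
  have k1 : ∀ r, ∑ χ ∈ pm r, ‖BS a b x χ‖ ≤ ∑ j ∈ range T, G j r := fun r => by
    rw [hG, sum_comm]
    refine sum_le_sum fun χ _ => le_trans (le_of_eq ?_) (norm_sum_le _ _)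
    rw [← B2A.dya, BS]
    congr 1
    rw [← sum_subset (s₁ := Icc 1 x) (s₂ := Ico 1 (2 ^ T)) (fun m hm => by
      rw [mem_Icc] at hm; rw [mem_Ico]; omega) fun m h3 h4 => by
        have : ¬ m ≤ x := by rw [mem_Ico] at h3; rw [mem_Icc] at h4; omega
        simp [ha1, this]]
    exact sum_congr rfl fun m hm => by simp only [ha1, if_pos (mem_Icc.1 hm).2]
  set K : ℝ := c * (1 + Real.log x) * (4 * α * β * (x / D1 + x / √U + x / √V + D2 * √x)) with hK
  have K0 : 0 ≤ K := by positivity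
  have k2 : ∀ j ∈ range T, ∀ i, ∑ r ∈ Ico (2 ^ i) (2 * 2 ^ i),
      (if r ∈ Ioc D1 D2 then 1 / (r : ℝ) * G j r else 0) ≤ K := fun j hj i => by
    by_cases q1 : ∃ r ∈ Ico (2 ^ i) (2 * 2 ^ i), r ∈ Ioc D1 D2
    swap
    · rw [sum_eq_zero fun r hr => if_neg fun h => q1 ⟨r, hr, h⟩]
      exact K0
    obtain ⟨r0, q1, q2⟩ := q1
    rw [mem_Ico] at q1
    rw [mem_Ioc] at q2
    have hQ : (1 : ℝ) ≤ ((2 ^ i : ℕ) : ℝ) := by exact_mod_cast Nat.one_le_two_pow
    have hM : (1 : ℝ) ≤ ((2 ^ j : ℕ) : ℝ) := by exact_mod_cast Nat.one_le_two_pow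
    have e1 : ∑ r ∈ Ico (2 ^ i) (2 * 2 ^ i), (if r ∈ Ioc D1 D2 then 1 / (r : ℝ) * G j r else 0) ≤
        1 / ((2 ^ i : ℕ) : ℝ) * ∑ r ∈ Ico (2 ^ i) (2 * 2 ^ i), G j r := by
      rw [mul_sum]
      refine sum_le_sum fun r hr => ?_
      split_ifs
      · exact mul_le_mul_of_nonneg_right (one_div_le_one_div_of_le (by linarith)
          (by exact_mod_cast (mem_Ico.1 hr).1)) (G0 j r)
      · exact mul_nonneg (by positivity) (G0 j r)
    refine e1.trans ((mul_le_mul_of_nonneg_left (hB1 (2 ^ i) (2 ^ j) x a1 b Nat.one_le_two_pow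
      Nat.one_le_two_pow (hT2 j hj)) (by positivity)).trans ?_)
    by_cases q3 : ∃ m ∈ Ico (2 ^ j) (2 * 2 ^ j), a1 m ≠ 0
    swap
    · rw [sum_eq_zero (s := Ico (2 ^ j) (2 * 2 ^ j)) fun m hm => by
        rw [not_not.1 fun h => q3 ⟨m, hm, h⟩, norm_zero, sq, mul_zero]]
      simpa using K0
    by_cases q4 : ∃ n ∈ Icc 1 (x / 2 ^ j), b n ≠ 0
    swap
    · rw [sum_eq_zero (s := Icc 1 (x / 2 ^ j)) fun m hm => by
        rw [not_not.1 fun h => q4 ⟨m, hm, h⟩, norm_zero, sq, mul_zero]]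
      simpa using K0
    obtain ⟨m, q3, q5⟩ := q3
    obtain ⟨n, q4, q6⟩ := q4
    have d1 : ((x / 2 ^ j : ℕ) : ℝ) ≤ x / ((2 ^ j : ℕ) : ℝ) := Nat.cast_div_le
    have d2 : U ≤ 2 * ((2 ^ j : ℕ) : ℝ) :=
      (ha m fun h => q5 (by simp [ha1, h])).le.trans (by exact_mod_cast (mem_Ico.1 q3).2.le)
    have d3 : V ≤ x / ((2 ^ j : ℕ) : ℝ) :=
      (hb n q6).le.trans (le_trans (by exact_mod_cast (mem_Icc.1 q4).2) d1)
    have d4 : ∑ m ∈ Ico (2 ^ j) (2 * 2 ^ j), ‖a1 m‖ ^ 2 ≤ α ^ 2 * (2 * ((2 ^ j : ℕ) : ℝ)) := by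
      have f1 : ∑ m ∈ Ico (2 ^ j) (2 * 2 ^ j), ‖a1 m‖ ^ 2 =
          ∑ m ∈ (Ico (2 ^ j) (2 * 2 ^ j)).filter (· ≤ x), ‖a m‖ ^ 2 := by
        rw [sum_filter]
        exact sum_congr rfl fun m _ => by simp only [ha1]; split_ifs <;> simp
      rw [f1]
      refine (sum_le_sum_of_subset_of_nonneg (t := Icc 1 (min (2 * 2 ^ j) x)) (fun m hm => ?_)
        fun _ _ _ => sq_nonneg _).trans ((hA _ (min_le_right _ _)).trans
          (mul_le_mul_of_nonneg_left (by exact_mod_cast min_le_left _ _) (sq_nonneg _)))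
      have := Nat.one_le_two_pow (n := j)
      rw [mem_filter, mem_Ico] at hm
      rw [mem_Icc]
      omega
    have d5 := (hB _ (Nat.div_le_self x (2 ^ j))).trans (mul_le_mul_of_nonneg_left d1 (sq_nonneg β))
    have d6 := B2A.pair (D1 := D1) (D2 := D2) hQ hM (by linarith) (by exact_mod_cast h1)
      (by linarith) (by linarith) hα hβ d2 d3 (by exact_mod_cast q1.1.trans q2.2)
      (by exact_mod_cast (q2.1.trans q1.2).le) d4 d5
    refine le_trans (le_of_eq ?_) (mul_le_mul_of_nonneg_left d6 (mul_nonneg hc.le hL))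
    ring
  have k3 : ∀ j ∈ range T, ∑ r ∈ Ioc D1 D2, 1 / (r : ℝ) * G j r ≤ T * K := fun j hj => by
    have e1 : ∑ r ∈ Ioc D1 D2, 1 / (r : ℝ) * G j r =
        ∑ r ∈ Ico 1 (2 ^ T), (if r ∈ Ioc D1 D2 then 1 / (r : ℝ) * G j r else 0) := by
      rw [sum_ite_mem, inter_eq_right.2 fun r hr => by rw [mem_Ioc] at hr; rw [mem_Ico]; omega]
    rw [e1, B2A.dya]
    simpa using sum_le_card_nsmul _ _ _ fun i (_ : i ∈ range T) => k2 j hj i
  calc _ ≤ ∑ r ∈ Ioc D1 D2, ∑ j ∈ range T, 1 / (r : ℝ) * G j r :=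
        sum_le_sum fun r _ => by
          rw [← mul_sum]; exact mul_le_mul_of_nonneg_left (k1 r) (by positivity)
    _ ≤ T * (T * K) := by
        rw [sum_comm]
        simpa using sum_le_card_nsmul _ _ _ k3
    _ ≤ 2 * (1 + Real.log x) * (2 * (1 + Real.log x) * K) := by gcongr
    _ = _ := by rw [hK]; ring

end Pool.Agent.MP_43e117_nt.PG

end
end

section

/-!
The type I terms of the identity of Vaughan.
-/

open Finset Filter

noncomputable section

namespace Pool.Agent.MP_43e117_nt.PG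

namespace V1A

lemma period {r : ℕ} (hr : 1 ≤ r) (χ : DirichletCharacter ℂ r) (hχ : χ ≠ 1) (y : ℕ) :
    ∑ n ∈ range r, χ ((y + n : ℕ) : ZMod r) = 0 := by
  have : NeZero r := ⟨by omega⟩
  have h0 : ∑ a : ZMod r, χ a = 0 := MulChar.sum_eq_zero_of_ne_one hχ
  rw [← h0]
  refine Finset.sum_bij (fun n _ => ((y + n : ℕ) : ZMod r)) (fun _ _ => mem_univ _) ?_ ?_
    (fun _ _ => rfl)
  · intro a ha b hb hab
    have h1 : (a : ZMod r) = (b : ZMod r) := by
      push_cast at hab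
      exact add_left_cancel hab
    have h2 := (ZMod.natCast_eq_natCast_iff' a b r).1 h1
    rwa [Nat.mod_eq_of_lt (mem_range.1 ha), Nat.mod_eq_of_lt (mem_range.1 hb)] at h2
  · intro b _
    refine ⟨(b - (y : ZMod r)).val, mem_range.2 (ZMod.val_lt _), ?_⟩
    push_cast
    rw [ZMod.natCast_zmod_val]
    ring

lemma icc_range (f : ℕ → ℂ) (y : ℕ) : ∑ n ∈ Icc 1 y, f n = ∑ n ∈ range y, f (1 + n) := by
  rw [← Finset.Ico_add_one_right_eq_Icc, Finset.sum_Ico_eq_sum_range]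
  simp

lemma sum_le {r : ℕ} (hr : 1 ≤ r) (χ : DirichletCharacter ℂ r) (hχ : χ ≠ 1) (y : ℕ) :
    ‖∑ n ∈ Icc 1 y, χ (n : ZMod r)‖ ≤ r := by
  rw [icc_range (fun n => χ (n : ZMod r))]
  induction y using Nat.strong_induction_on with
  | _ y ih =>
    by_cases hy : y ≤ r
    · calc ‖∑ n ∈ range y, χ ((1 + n : ℕ) : ZMod r)‖
          ≤ ∑ n ∈ range y, ‖χ ((1 + n : ℕ) : ZMod r)‖ := norm_sum_le _ _
        _ ≤ ∑ _n ∈ range y, (1 : ℝ) := sum_le_sum fun n _ => χ.norm_le_one _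
        _ = y := by simp
        _ ≤ r := by exact_mod_cast hy
    · obtain ⟨z, rfl⟩ : ∃ z, y = z + r := ⟨y - r, by omega⟩
      rw [Finset.sum_range_add]
      have h := period hr χ hχ (1 + z)
      simp only [add_assoc] at h
      rw [h, add_zero]
      exact ih z (by omega)

lemma abel (f : ℕ → ℂ) (y : ℕ) :
    ∑ n ∈ Icc 1 y, (Real.log n : ℂ) * f n =
      (Real.log y : ℂ) * ∑ n ∈ Icc 1 y, f n -
        ∑ n ∈ range y, ((Real.log (n + 1 : ℕ) - Real.log n : ℝ) : ℂ) * ∑ m ∈ Icc 1 n, f m := by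
  induction y with
  | zero => simp
  | succ y ih =>
    rw [Finset.sum_Icc_succ_top (by omega), ih, Finset.sum_range_succ,
      Finset.sum_Icc_succ_top (by omega : 1 ≤ y + 1)]
    push_cast
    ring

lemma log_step (n : ℕ) : 0 ≤ Real.log (n + 1 : ℕ) - Real.log n := by
  rcases Nat.eq_zero_or_pos n with rfl | hn
  · simp
  · have : Real.log n ≤ Real.log (n + 1 : ℕ) :=
      Real.log_le_log (by exact_mod_cast hn) (by exact_mod_cast Nat.le_succ n)
    linarith

lemma log_sum_le (f : ℕ → ℂ) (R : ℝ) (hf : ∀ y, ‖∑ n ∈ Icc 1 y, f n‖ ≤ R) (y : ℕ) :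
    ‖∑ n ∈ Icc 1 y, (Real.log n : ℂ) * f n‖ ≤ 2 * R * Real.log y := by
  have hl : 0 ≤ Real.log y := Real.log_natCast_nonneg y
  rw [abel]
  have h1 : ‖(Real.log y : ℂ) * ∑ n ∈ Icc 1 y, f n‖ ≤ Real.log y * R := by
    rw [norm_mul, Complex.norm_real, Real.norm_of_nonneg hl]
    exact mul_le_mul_of_nonneg_left (hf y) hl
  have h2 : ‖∑ n ∈ range y, ((Real.log (n + 1 : ℕ) - Real.log n : ℝ) : ℂ) * ∑ m ∈ Icc 1 n, f m‖ ≤
      Real.log y * R := by
    calc _ ≤ ∑ n ∈ range y,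
          ‖((Real.log (n + 1 : ℕ) - Real.log n : ℝ) : ℂ) * ∑ m ∈ Icc 1 n, f m‖ := norm_sum_le _ _
      _ ≤ ∑ n ∈ range y, (Real.log (n + 1 : ℕ) - Real.log n) * R := by
          refine sum_le_sum fun n _ => ?_
          rw [norm_mul, Complex.norm_real, Real.norm_of_nonneg (log_step n)]
          exact mul_le_mul_of_nonneg_left (hf n) (log_step n)
      _ = Real.log y * R := by
          rw [← Finset.sum_mul, Finset.sum_range_sub (fun n : ℕ => Real.log (n : ℕ))]
          simp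
  calc _ ≤ _ := norm_sub_le _ _
    _ ≤ Real.log y * R + Real.log y * R := add_le_add h1 h2
    _ = 2 * R * Real.log y := by ring

lemma mu_le (d : ℕ) : ‖(ArithmeticFunction.moebius d : ℂ)‖ ≤ 1 := by
  rw [Complex.norm_intCast]
  exact_mod_cast ArithmeticFunction.abs_moebius_le_one

lemma vm_le {n x : ℕ} (hn : 1 ≤ n) (hx : n ≤ x) :
    ‖(ArithmeticFunction.vonMangoldt n : ℂ)‖ ≤ Real.log x := by
  rw [Complex.norm_real, Real.norm_of_nonneg ArithmeticFunction.vonMangoldt_nonneg]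
  exact ArithmeticFunction.vonMangoldt_le_log.trans
    (Real.log_le_log (by exact_mod_cast hn) (by exact_mod_cast hx))

lemma log_div_le (x d : ℕ) : Real.log ((x / d : ℕ) : ℝ) ≤ Real.log x := by
  rcases Nat.eq_zero_or_pos (x / d) with h | h
  · rw [h]
    simpa using Real.log_natCast_nonneg x
  · exact Real.log_le_log (by exact_mod_cast h) (by exact_mod_cast Nat.div_le_self x d)

lemma t1 (U x r : ℕ) (χ : DirichletCharacter ℂ r) :
    ‖∑ n ∈ (Icc 1 x).filter (fun n => n ≤ U),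
      χ (n : ZMod r) * (ArithmeticFunction.vonMangoldt n : ℂ)‖ ≤ U * Real.log x := by
  have hl : 0 ≤ Real.log x := Real.log_natCast_nonneg x
  calc _ ≤ ∑ n ∈ (Icc 1 x).filter (fun n => n ≤ U),
        ‖χ (n : ZMod r) * (ArithmeticFunction.vonMangoldt n : ℂ)‖ := norm_sum_le _ _
    _ ≤ ∑ _n ∈ (Icc 1 x).filter (fun n => n ≤ U), Real.log x := by
        refine sum_le_sum fun n hn => ?_
        have h := mem_Icc.1 (mem_filter.1 hn).1
        rw [norm_mul]
        calc _ ≤ 1 * Real.log x :=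
              mul_le_mul (χ.norm_le_one _) (vm_le h.1 h.2) (norm_nonneg _) zero_le_one
          _ = _ := one_mul _
    _ = (((Icc 1 x).filter (fun n => n ≤ U)).card : ℝ) * Real.log x := by
        rw [sum_const, nsmul_eq_mul]
    _ ≤ U * Real.log x := by
        refine mul_le_mul_of_nonneg_right ?_ hl
        have : ((Icc 1 x).filter (fun n => n ≤ U)).card ≤ (Icc 1 U).card := by
          refine card_le_card fun n hn => ?_
          have h := mem_filter.1 hn
          exact mem_Icc.2 ⟨(mem_Icc.1 h.1).1, h.2⟩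
        simp only [Nat.card_Icc, add_tsub_cancel_right] at this
        exact_mod_cast this

lemma t2 (V x r : ℕ) (hr : 1 ≤ r) (χ : DirichletCharacter ℂ r) (hχ : χ ≠ 1) :
    ‖∑ d ∈ Icc 1 V, (ArithmeticFunction.moebius d : ℂ) * χ (d : ZMod r) *
      ∑ n ∈ Icc 1 (x / d), (Real.log n : ℂ) * χ (n : ZMod r)‖ ≤ V * (2 * r * Real.log x) := by
  calc _ ≤ ∑ d ∈ Icc 1 V, ‖(ArithmeticFunction.moebius d : ℂ) * χ (d : ZMod r) *
      ∑ n ∈ Icc 1 (x / d), (Real.log n : ℂ) * χ (n : ZMod r)‖ := norm_sum_le _ _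
    _ ≤ ∑ _d ∈ Icc 1 V, 2 * r * Real.log x := by
        refine sum_le_sum fun d _ => ?_
        rw [norm_mul, norm_mul]
        have h1 : ‖(ArithmeticFunction.moebius d : ℂ)‖ * ‖χ (d : ZMod r)‖ ≤ 1 :=
          mul_le_one₀ (mu_le d) (norm_nonneg _) (χ.norm_le_one _)
        have h2 := log_sum_le (fun n => χ (n : ZMod r)) r (sum_le hr χ hχ) (x / d)
        have h3 : 2 * (r : ℝ) * Real.log ((x / d : ℕ) : ℝ) ≤ 2 * r * Real.log x :=
          mul_le_mul_of_nonneg_left (log_div_le x d) (by positivity)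
        calc _ ≤ 1 * (2 * r * Real.log x) :=
              mul_le_mul h1 (h2.trans h3) (norm_nonneg _) zero_le_one
          _ = _ := one_mul _
    _ = V * (2 * r * Real.log x) := by
        rw [sum_const, nsmul_eq_mul]
        simp

lemma t3 (U V x r : ℕ) (hr : 1 ≤ r) (χ : DirichletCharacter ℂ r) (hχ : χ ≠ 1) :
    ‖∑ d ∈ Icc 1 V, ∑ e ∈ Icc 1 U,
      (ArithmeticFunction.moebius d : ℂ) * (ArithmeticFunction.vonMangoldt e : ℂ) *
        χ (d : ZMod r) * χ (e : ZMod r) * ∑ n ∈ Icc 1 (x / (d * e)), χ (n : ZMod r)‖ ≤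
      V * (U * (r * Real.log x)) := by
  have hl : 0 ≤ Real.log x := Real.log_natCast_nonneg x
  calc _ ≤ ∑ d ∈ Icc 1 V, ‖∑ e ∈ Icc 1 U,
      (ArithmeticFunction.moebius d : ℂ) * (ArithmeticFunction.vonMangoldt e : ℂ) *
        χ (d : ZMod r) * χ (e : ZMod r) * ∑ n ∈ Icc 1 (x / (d * e)), χ (n : ZMod r)‖ :=
        norm_sum_le _ _
    _ ≤ ∑ _d ∈ Icc 1 V, U * (r * Real.log x) := by
        refine sum_le_sum fun d hd => ?_
        calc _ ≤ ∑ e ∈ Icc 1 U,
            ‖(ArithmeticFunction.moebius d : ℂ) * (ArithmeticFunction.vonMangoldt e : ℂ) *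
              χ (d : ZMod r) * χ (e : ZMod r) * ∑ n ∈ Icc 1 (x / (d * e)), χ (n : ZMod r)‖ :=
              norm_sum_le _ _
          _ ≤ ∑ _e ∈ Icc 1 U, r * Real.log x := by
              refine sum_le_sum fun e he => ?_
              have hd1 := (mem_Icc.1 hd).1
              have he1 := (mem_Icc.1 he).1
              by_cases hex : e ≤ x
              · rw [norm_mul, norm_mul, norm_mul, norm_mul]
                have h1 : ‖(ArithmeticFunction.moebius d : ℂ)‖ *
                    ‖(ArithmeticFunction.vonMangoldt e : ℂ)‖ ≤ 1 * Real.log x :=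
                  mul_le_mul (mu_le d) (vm_le he1 hex) (norm_nonneg _) zero_le_one
                have h2 : ‖(ArithmeticFunction.moebius d : ℂ)‖ *
                    ‖(ArithmeticFunction.vonMangoldt e : ℂ)‖ * ‖χ (d : ZMod r)‖ ≤
                    1 * Real.log x * 1 :=
                  mul_le_mul h1 (χ.norm_le_one _) (norm_nonneg _) (by positivity)
                have h3 : ‖(ArithmeticFunction.moebius d : ℂ)‖ *
                    ‖(ArithmeticFunction.vonMangoldt e : ℂ)‖ * ‖χ (d : ZMod r)‖ *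
                    ‖χ (e : ZMod r)‖ ≤ 1 * Real.log x * 1 * 1 :=
                  mul_le_mul h2 (χ.norm_le_one _) (norm_nonneg _) (by positivity)
                calc _ ≤ 1 * Real.log x * 1 * 1 * r :=
                      mul_le_mul h3 (sum_le hr χ hχ _) (norm_nonneg _) (by positivity)
                  _ = _ := by ring
              · have h0 : x / (d * e) = 0 := by
                  apply Nat.div_eq_of_lt
                  calc x < e := by omega
                    _ ≤ d * e := Nat.le_mul_of_pos_left e hd1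
                rw [h0]
                simp only [Icc_eq_empty_of_lt zero_lt_one, sum_empty, mul_zero, norm_zero]
                positivity
          _ = U * (r * Real.log x) := by
              rw [sum_const, nsmul_eq_mul]
              simp
    _ = V * (U * (r * Real.log x)) := by
        rw [sum_const, nsmul_eq_mul]
        simp

end V1A

theorem s_V1 (hV0 : StV0) : StV1 := by
  intro U V x r χ hU hV hx hr hχ
  rw [hV0 U V x r χ, add_sub_cancel_right]
  have h1 := V1A.t1 U x r χ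
  have h2 := V1A.t2 V x r hr χ hχ
  have h3 := V1A.t3 U V x r hr χ hχ
  have hl : 0 ≤ Real.log x := Real.log_natCast_nonneg x
  have hU' : (1 : ℝ) ≤ U := by exact_mod_cast hU
  have hV' : (1 : ℝ) ≤ V := by exact_mod_cast hV
  have hr' : (1 : ℝ) ≤ r := by exact_mod_cast hr
  refine (norm_sub_le _ _).trans ((add_le_add ((norm_add_le _ _).trans (add_le_add h1 h2)) h3).trans ?_)
  have hVr : (1 : ℝ) ≤ V * r := one_le_mul_of_one_le_of_one_le hV' hr'
  have a1 : U * Real.log x ≤ U * Real.log x * (V * r) :=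
    le_mul_of_one_le_right (by positivity) hVr
  have a2 : V * (2 * r * Real.log x) ≤ V * (2 * r * Real.log x) * U :=
    le_mul_of_one_le_right (by positivity) hU'
  have a3 : (0 : ℝ) ≤ U * V * r := by positivity
  nlinarith

end Pool.Agent.MP_43e117_nt.PG

end
end

section

open Finset Filter

noncomputable section

namespace Pool.Agent.MP_43e117_nt.PG

namespace SWA

theorem ev_pow (A : ℕ) : ∀ᶠ N : ℕ in atTop, 12 * Real.log N ^ A ≤ (N : ℝ) ^ (1 / 20 : ℝ) := by
  have h := (isLittleO_log_rpow_rpow_atTop (A : ℝ) (show (0 : ℝ) < 1 / 20 by norm_num)).bound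
    (show (0 : ℝ) < 1 / 12 by norm_num)
  filter_upwards [tendsto_natCast_atTop_atTop.eventually h] with N hN
  rw [Real.rpow_natCast, Real.norm_of_nonneg (pow_nonneg (Real.log_natCast_nonneg N) _),
    Real.norm_of_nonneg (by positivity)] at hN
  linarith

end SWA

theorem s_SW (hPsi : StPsi) (hTL : StTL) : StSW := by
  intro A B
  obtain ⟨x0, hx0⟩ := eventually_atTop.1 (hPsi (A + 1) (B + 1))
  have hlog := Real.tendsto_log_atTop.comp (tendsto_natCast_atTop_atTop (R := ℝ))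
  have hr := (tendsto_rpow_atTop (show (0 : ℝ) < 1 / 10 by norm_num)).comp
    (tendsto_natCast_atTop_atTop (R := ℝ))
  filter_upwards [SWA.ev_pow (A + 1), hlog.eventually_ge_atTop (10 ^ (B + 1)),
    hlog.eventually_ge_atTop (3 * 10 ^ (A + 1)), hr.eventually_ge_atTop x0,
    eventually_ge_atTop 2] with N h1 h2 h3 h4 h5 y e r χ hy hy2 he hr1 hrB hχ
  simp only [Function.comp_apply] at h2 h3 h4
  have hN : (2 : ℝ) ≤ N := by exact_mod_cast h5
  have hN0 : (0 : ℝ) < N := by linarith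
  set L := Real.log N with hL
  have p10 : (1 : ℝ) ≤ 10 ^ (A + 1) := one_le_pow₀ (by norm_num)
  have hL1 : 1 ≤ L := by linarith
  have hy1 : (1 : ℝ) ≤ y := (Real.one_le_rpow (by linarith) (by norm_num)).trans hy
  have hy0 : (0 : ℝ) < y := by linarith
  have l1 : L / 10 ≤ Real.log y := by
    have := Real.log_le_log (by positivity) hy
    rw [Real.log_rpow hN0] at this
    linarith
  have l2 : Real.log y ≤ 2 * L := by
    have a1 : (y : ℝ) ≤ N * N := by
      have : (y : ℝ) ≤ 2 * N := by exact_mod_cast hy2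
      nlinarith
    have := Real.log_le_log hy0 a1
    rw [Real.log_mul hN0.ne' hN0.ne'] at this
    linarith
  have l0 : 0 < Real.log y := by linarith
  have hP := hx0 y (by exact_mod_cast h4.trans hy) r χ hr1 (hrB.trans (by
    calc L ^ B ≤ (10 * Real.log y) ^ B := pow_le_pow_left₀ (by linarith) (by linarith) B
      _ = Real.log y ^ B * 10 ^ B := by rw [mul_pow, mul_comm]
      _ ≤ Real.log y ^ B * Real.log y := by
          refine mul_le_mul_of_nonneg_left ?_ (by positivity)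
          rw [pow_succ] at h2
          linarith
      _ = _ := (pow_succ _ _).symm)) hχ
  have hT := hTL y e r χ (by exact_mod_cast hy1) (mem_Icc.1 he).1
  have hLA : 0 < L ^ A := by positivity
  have b1 : (y : ℝ) / Real.log y ^ (A + 1) ≤ y / (3 * L ^ A) := by
    refine div_le_div_of_nonneg_left hy0.le (by positivity) ?_
    have a1 : L ^ (A + 1) ≤ 10 ^ (A + 1) * Real.log y ^ (A + 1) := by
      rw [← mul_pow]
      exact pow_le_pow_left₀ (by linarith) (by linarith) _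
    refine le_of_mul_le_mul_left (le_trans ?_ a1) (by positivity)
    rw [pow_succ L]
    nlinarith
  have s1 : 12 * L ^ (A + 1) ≤ √y := by
    refine h1.trans (Real.le_sqrt_of_sq_le (le_trans (le_of_eq ?_) hy))
    rw [← Real.rpow_natCast, ← Real.rpow_mul hN0.le]
    norm_num
  have s2 : 1 ≤ √(y : ℝ) := Real.one_le_sqrt.2 hy1
  have s3 : √(y : ℝ) * √y = y := Real.mul_self_sqrt hy0.le
  rw [pow_succ] at s1
  have b2 : 2 * √(y : ℝ) * Real.log y ≤ y / (3 * L ^ A) := by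
    rw [le_div_iff₀ (by positivity)]
    have a1 := mul_le_mul_of_nonneg_left s1 (by linarith : 0 ≤ √(y : ℝ))
    have a2 := mul_le_mul_of_nonneg_left l2 (by positivity : 0 ≤ √(y : ℝ) * L ^ A)
    nlinarith
  have b3 : Real.log e ≤ y / (3 * L ^ A) := by
    have a0 : Real.log e ≤ L := Real.log_le_log (by exact_mod_cast (mem_Icc.1 he).1)
      (by exact_mod_cast (mem_Icc.1 he).2)
    rw [le_div_iff₀ (by positivity)]
    have a1 := mul_le_mul_of_nonneg_right a0 hLA.le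
    have a2 : 0 < L ^ A * L := by positivity
    nlinarith
  have e3 : (y : ℝ) / L ^ A = y / (3 * L ^ A) + y / (3 * L ^ A) + y / (3 * L ^ A) := by
    field_simp
    ring
  have := norm_le_norm_sub_add (CS th (Icc 1 y) e χ) (PX y χ)
  linarith

end Pool.Agent.MP_43e117_nt.PG

end
end
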