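import Pool.Agent.Mg.F436a94p.G025e1e
import Pool.Agent.Mg.F436a94p.G204ca6
import Pool.Agent.Mg.F436a94p.Gefc083
import Pool.Agent.Mg.F436a94p.G184d2a
import Pool.Agent.Mg.F436a94p.G839e82
import Pool.Agent.Mg.F436a94p.G8f6ef8
import Pool.Agent.Mg.F436a94p.Gd35906
import Pool.Agent.Mg.F436a94p.G397d9a
import Pool.Agent.Mg.F436a94p.G4f7e17
import Pool.Agent.Mg.F436a94p.Gd5362b
import Pool.Agent.Mg.F436a94p.G08a52e
import Pool.Agent.Mg.F436a94p.Gcdf306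
import Pool.Agent.Mg.F436a94p.Gb564e4
import Pool.Agent.Mg.F436a94p.G0d7e3b
import Pool.Agent.Mg.F436a94p.G87a64b
import Pool.Agent.Mg.F436a94p.Ga1c80b
import Pool.Agent.Mg.F436a94p.G004524
import Pool.Agent.Mg.F436a94p.G1119f6
import Pool.Agent.Mg.F436a94p.Gc4799f
import Pool.Agent.Mg.F436a94p.Gbd639d
import Pool.Agent.Mg.F436a94p.G0f45c8

set_option linter.all false

section

/-!
The mean value theorems and the model estimates without hypotheses.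
-/

namespace Pool.Agent.MP_43e117_nt.PG

theorem a_LV : StLV := s_LV s_Tot s_Tau s_R1 s_R2

theorem a_B2 : StB2 := s_B2 (s_B1 s_LS s_SC)

theorem a_SW : StSW := s_SW s_Psi s_TL

theorem a_BV : StBV := s_BV a_LV (s_PT s_Tau s_Pm a_B2 (s_V1 s_V0) s_TL a_SW)

theorem a_BB : StBB := s_BB a_LV (s_PB s_Pm a_B2 a_SW)

theorem a_GU : StGU := s_GU s_SI s_SD s_TS s_AV

theorem a_GL : StGL := s_GL s_SI s_TS s_Pt s_RD s_RM

theorem a_LU : StLU := s_LU a_GU s_LY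

theorem a_TM : StTM := s_TM a_GU a_GL s_MA s_CD s_SB

theorem a_TP : StTP := s_TP s_CD (s_GC a_GU s_SB)

theorem a_MU : StMU := s_MU a_GU s_MA a_LU s_SB

theorem a_ML : StML := s_ML (s_LL a_GL s_MA s_LY) a_TM a_TP s_SB

theorem a_MG : StMG := s_MG s_MA a_LU a_TP s_SB

end Pool.Agent.MP_43e117_nt.PG

end

section

/-!
Assembly.
-/

namespace Pool.Agent.MP_43e117_nt.PG

theorem a_Et : StEt := s_Et s_Me

theorem a_GI : StGI := s_GI s_HH (s_G1 s_Si)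

theorem a_GA : StGA := s_GA s_HH (s_G1 s_Si) s_G2

theorem a_TR : StTR := s_TR s_EM (s_CR s_St) s_CN

theorem a_T0 : StT0 := s_T0 s_Tau s_EM (s_CR s_St) s_CN

theorem a_TA : StTA := s_TA a_BV s_PNT s_Si s_BF a_TR

theorem a_FS : StFS := s_FS s_P2 s_Si

theorem a_TB : StTB := s_TB a_BB s_BF a_TR a_FS

theorem a_EA : StEA := s_EA s_E0 s_E1 s_E2 s_SB s_Si s_BF

theorem a_PG : StPG := s_PG s_PH

theorem a_PV : StPV := s_PV (s_P1 s_P0) s_Si a_GA s_PH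

theorem a_W2 : StW2 := s_W2 s_SB s_Si

theorem a_Pair : StPair :=
  s_Pair s_SB s_Si s_BF a_Et a_GA (s_U1 s_E0 s_E2 s_E4 a_MU s_St s_Si s_BF a_TA a_EA)
    (s_L1 s_E0 s_E2 s_E3 s_E4 a_ML s_St s_Si s_BF a_Et a_TA a_EA)
    (s_U2 s_E0 s_E2 s_E3 s_E4 a_MG s_St s_Si s_BF a_Et a_GI a_GA a_TA a_EA)
    (s_U3 s_E0 s_E2 s_E4 s_SB a_MU s_St s_Si s_BF a_FS a_TB a_EA a_W2)
    (s_U4 s_E2 s_E3 s_E4 a_TM s_SB s_St s_Si s_BF a_Et a_GA a_T0 a_EA)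
    (s_W1 s_SB s_Si a_Et a_PG a_PV) a_W2
    (s_GM s_BF a_Et a_PG a_PV (s_GS s_PH (s_PC s_PNT)) (s_GT s_PH (s_CE s_Me)) s_GR)

theorem a_M : StM :=
  s_M s_RD s_St s_BF a_GA (s_S0 s_MA a_GU s_Si a_T0 a_EA) (s_S1 s_E0 s_MA a_GL s_Si a_TA a_EA)
    a_Pair (s_Ma s_RM s_Y1 s_Y2 s_Y3 s_MY s_Si s_BF a_GA) s_FI

theorem a_A : StA := s_A a_M s_Cl

theorem main (q : ℕ) (hq : 1 ≤ q) (S : Set ℕ) (hS : S.Infinite) (ε : ℝ) (hε : 0 < ε) :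
    ∃ L0 : ℕ, ∀ L, L0 ≤ L → ∀ Y : ℕ,
      (1 / 3 - ε) * L ≤ ({m ∈ Set.Ioc Y (Y + L) | Pol S (2 * q * m)}.ncard : ℝ) :=
  den_mul (s_C2 _ (s_C1 _ ((a_A S hS).mul hq))) ε hε

end Pool.Agent.MP_43e117_nt.PG

end
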