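import Pool.Agent.Mg.F436a94p.G204ca6
import Pool.Agent.Mg.C853.G182092
import Pool.Agent.Mg.C853.Gee9e08
import Pool.Agent.Mg.C853.Gd0cebc
import Pool.Agent.MP_e23604_nt.P.SW
import Pool.Agent.MP_e23604_nt.P.Div

set_option linter.all false

/-!
Inputs taken from other folders.
-/

open Finset Filter

namespace Pool.Agent.MP_43e117_nt.PG

theorem s_LS : StLS :=
  MP_2a1f0e_nt.RF.ls0_stmt (MP_2a1f0e_nt.RF.ls_stmt MP_2a1f0e_nt.RF.kp_stmt)
    MP_2a1f0e_nt.RF.farey_stmt

theorem s_Tau : StTau := fun c N =>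
  ⟨MP_e23604_nt.P.sum_tau_pow_div c N, MP_e23604_nt.P.sum_tau_pow c N⟩

theorem s_Psi : StPsi := by
  intro A B
  obtain ⟨x0, h⟩ := MP_e23604_nt.P.psi_chi A B
  filter_upwards [tendsto_natCast_atTop_atTop.eventually_ge_atTop x0] with x hx q χ h1 h2 h3
  have : NeZero q := ⟨by omega⟩
  simpa [PX] using h x hx q χ h2 h3

theorem s_PNT : StPNT := by
  intro A
  obtain ⟨x0, h⟩ := MP_e23604_nt.P.siegel_walfisz A 0
  filter_upwards [tendsto_natCast_atTop_atTop.eventually_ge_atTop x0] with x hx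
  have := h x hx 1 0 le_rfl (by simp) (by simp)
  simpa [th, sum_filter, Nat.mod_one] using this

theorem s_Pm : StPm := by
  classical
  intro r hr
  have : NeZero r := ⟨by omega⟩
  unfold pm
  refine ⟨?_, fun h1 χ hχ h => ?_⟩
  · refine (card_filter_le _ _).trans ?_
    rw [card_univ, ← Nat.card_eq_fintype_card,
      DirichletCharacter.card_eq_totient_of_hasEnoughRootsOfUnity]
    exact Nat.totient_le r
  · have h2 : χ.IsPrimitive := (mem_filter.1 hχ).2
    rw [h, DirichletCharacter.isPrimitive_def, DirichletCharacter.conductor_one] at h2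
    omega

end Pool.Agent.MP_43e117_nt.PG
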