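import Pool.Agent.Mg.F436a94p.G4b5bd6
import Pool.Agent.MP_c853c5_nt.Z.PDefs
import Pool.Agent.Mg.C853.Gee9e08
import Pool.Agent.Mg.F436a94p.G204ca6
import Pool.Agent.MP_88bd62_nt.U.Mert

set_option linter.all false

section

/-!
Primes in progressions in almost all short intervals: definitions and statements.
-/

set_option autoImplicit false

open Finset Filter
open scoped ComplexConjugate

noncomputable section

namespace Pool.Agent.MP_436a94_nt.A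

open Pool.Agent.MP_2a1f0e_nt Pool.Agent.MP_43e117_nt.PG DirichletCharacter

/-! ### Exponential sums with periodic coefficients -/

/-- periodic and bounded by one -/
def Per (q : ℕ) (ψ : ℕ → ℂ) : Prop := (∀ n, ψ (n + q) = ψ n) ∧ ∀ n, ‖ψ n‖ ≤ 1

def EP (ψ : ℕ → ℂ) (N M : ℕ) (t : ℝ) : ℂ := ∑ n ∈ Ioc N M, ψ n * GM.pw (n : ℝ) t

/-- the size of the mean value -/
def mn (q : ℕ) (ψ : ℕ → ℂ) : ℝ := ‖∑ n ∈ range q, ψ n‖ / q

def StExS : Prop := ∃ A : ℝ, 10 ≤ A ∧ ∀ (k N M : ℕ) (x t : ℝ), 1 ≤ k → 1 ≤ N → N ≤ M →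
  M ≤ 2 * N → 0 ≤ x → x ≤ 1 → (N : ℝ) ^ (9 / 10 : ℝ) ≤ |t| → |t| ≤ (N : ℝ) ^ k →
    ‖∑ n ∈ Ioc N M, GM.pw ((n : ℝ) - x) t‖ ≤
      Real.exp (A * (k : ℝ) ^ 8) * (N : ℝ) ^ (1 - 1 / (A * (k : ℝ) ^ 8))

def StPer : Prop := ∀ (q : ℕ) (ψ : ℕ → ℂ) (N M : ℕ) (t : ℝ), 1 ≤ q → Per q ψ → 1 ≤ N → N ≤ M →
  ‖EP ψ N M t‖ ≤ mn q ψ * (3 * M / (1 + |t|)) + 5 * q * (1 + |t| * M / N)

def StKer : Prop := ∃ A : ℝ, 20 ≤ A ∧ ∀ (k q : ℕ) (ψ : ℕ → ℂ) (N M : ℕ) (t : ℝ), 1 ≤ k → 1 ≤ q →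
  Per q ψ → q ^ 20 ≤ N → N ≤ M → M ≤ 2 * N → |t| ≤ (N : ℝ) ^ k →
    ‖EP ψ N M t‖ ≤ mn q ψ * (6 * N / (1 + |t|)) +
      Real.exp (A * (k : ℝ) ^ 8) * (N : ℝ) ^ (1 - 1 / (A * (k : ℝ) ^ 8))

/-! ### The zero free region -/

def StLT : Prop := ∀ (q : ℕ) [NeZero q] (χ : DirichletCharacter ℂ q), χ ≠ 1 →
  ∀ (N : ℕ) (s : ℂ), 1 ≤ N → 0 < s.re →
    ‖LFunction χ s - ∑ n ∈ Icc 1 N, χ n * (n : ℂ) ^ (-s)‖ ≤
      2 * q * (1 + ‖s‖ / s.re) * (N : ℝ) ^ (-s.re)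

def StNear : Prop := ∀ B : ℕ, ∃ C T₀ : ℝ, 1 ≤ C ∧ 3 ≤ T₀ ∧ ∀ T : ℝ, T₀ ≤ T →
  ∀ (q : ℕ) [NeZero q] (χ : DirichletCharacter ℂ q), χ ≠ 1 → (q : ℝ) ≤ Real.log T ^ B →
  ∀ s : ℂ, |s.im| ≤ T → 1 - Real.log T ^ (-(19 / 20) : ℝ) ≤ s.re → s.re ≤ 2 →
    ‖LFunction χ s‖ ≤ C * Real.log T

def StT341 : Prop := ∀ (q : ℕ) [NeZero q] (χ : DirichletCharacter ℂ q),
  (∀ σ t : ℝ, 1 < σ → 0 ≤ (-3 * logDeriv riemannZeta σ -
    4 * logDeriv (LFunction χ) (σ + t * Complex.I) -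
      logDeriv (LFunction (χ ^ 2)) (σ + (2 * t : ℝ) * Complex.I)).re) ∧
  (χ ^ 2 = 1 → ∀ σ t : ℝ, 1 < σ → 0 ≤ (-3 * logDeriv riemannZeta σ -
    4 * logDeriv (LFunction χ) (σ + t * Complex.I) -
      logDeriv riemannZeta (σ + (2 * t : ℝ) * Complex.I)).re) ∧
  ∀ s : ℂ, 1 < s.re → s.re ≤ 2 → (s.re - 1) / 2 ≤ ‖LFunction χ s‖

def StZF : Prop := ∃ t₀ : ℝ, 3 ≤ t₀ ∧ ∀ B : ℕ, ∃ T₀ : ℝ, 3 ≤ T₀ ∧ ∀ T : ℝ, T₀ ≤ T →
  ∀ (q : ℕ) [NeZero q] (χ : DirichletCharacter ℂ q), χ ≠ 1 → (q : ℝ) ≤ Real.log T ^ B →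
  ∀ ρ : ℂ, LFunction χ ρ = 0 → t₀ ≤ |ρ.im| → |ρ.im| ≤ T →
    ρ.re ≤ 1 - Real.log T ^ (-(39 / 40) : ℝ)

def StLd : Prop := ∃ t₀ : ℝ, 3 ≤ t₀ ∧ ∀ B : ℕ, ∃ C T₀ : ℝ, 1 ≤ C ∧ 3 ≤ T₀ ∧ ∀ T : ℝ, T₀ ≤ T →
  ∀ (q : ℕ) [NeZero q] (χ : DirichletCharacter ℂ q), χ ≠ 1 → (q : ℝ) ≤ Real.log T ^ B →
  ∀ z : ℂ, 1 - Real.log T ^ (-(39 / 40) : ℝ) / 2 ≤ z.re → z.re ≤ 2 → t₀ ≤ |z.im| →
    |z.im| ≤ T - 2 →
    LFunction χ z ≠ 0 ∧ ‖logDeriv (LFunction χ) z‖ ≤ C * Real.log T ^ 2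

/-- the von Mangoldt function with complex values -/
def La (n : ℕ) : ℂ := (ArithmeticFunction.vonMangoldt n : ℂ)

def StTw : Prop := ∀ k A B : ℕ, ∀ᶠ x : ℕ in atTop,
  ∀ (q : ℕ) (χ : DirichletCharacter ℂ q) (t : ℝ), 1 ≤ q → (q : ℝ) ≤ Real.log x ^ B → χ ≠ 1 →
    |t| ≤ (x : ℝ) ^ k →
    ‖∑ n ∈ Icc 1 x, La n * (χ n * GM.pw (n : ℝ) t)‖ ≤ x / Real.log x ^ A

/-! ### Mean values -/

/-- characters with their modulus -/
abbrev CH : Type := Σ r : ℕ, DirichletCharacter ℂ r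

/-- primitive characters of conductor at most `R` -/
def XR (R : ℕ) : Finset CH := (Icc 1 R).sigma pm

/-- `χ(n) n ^ (i u)` -/
def cw (x : CH) (u : ℤ) (n : ℕ) : ℂ := x.2 n * GM.pw (n : ℝ) u

/-- Dirichlet polynomial over `J` -/
def DP (a : ℕ → ℂ) (J : Finset ℕ) (x : CH) (u : ℤ) : ℂ := ∑ n ∈ J, a n * cw x u n

/-- dyadic block -/
def dy (M : ℕ) : Finset ℕ := Ioc M (2 * M)

/-- the term of the mean value at the point `t` -/
def Mt (T : ℕ) (w : ℕ → ℤ → ℂ) (Φ : CH → ℤ → ℂ) (t : ℕ) (x : CH) : ℝ :=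
  1 / (x.1.totient : ℝ) * ‖∑ u ∈ RF.IT T, w x.1 u * GM.pw (t : ℝ) (-(u : ℝ)) * Φ x u‖

/-- the mean value -/
def MS (N T R : ℕ) (w : ℕ → ℤ → ℂ) (Φ : CH → ℤ → ℂ) : ℝ :=
  ∑ t ∈ Ico (2 * N) (4 * N), ∑ x ∈ XR R, Mt T w Φ t x

/-- admissible weights -/
def Adm (T : ℕ) (η : ℝ) (w : ℕ → ℤ → ℂ) : Prop :=
  (∀ r u, ‖w r u‖ ≤ 1) ∧ ∑ u ∈ RF.IT T, ‖w 1 u‖ ^ 2 / (1 + |(u : ℝ)|) ^ 2 ≤ η ∧
  ∀ (r : ℕ) (y : ℝ), Real.log 2 ≤ |y| → |y| ≤ 3 →
    ‖RF.trig T (w r) y‖ ≤ 11 / T + if r = 1 then η else 0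

def StOrth : Prop := ∀ (R : ℕ), ∀ x ∈ XR R, ∀ y ∈ XR R, x ≠ y →
  ∑ n ∈ range (x.1 * y.1), x.2 n * conj (y.2 n) = 0

def StHM : Prop := ∀ k : ℕ, ∃ C δ : ℝ, 0 < C ∧ 0 < δ ∧
  ∀ (M R T : ℕ) (E : Finset (CH × ℤ)) (b : ℕ → ℂ), 1 ≤ M → R ^ 40 ≤ M →
    4 * (T : ℝ) ≤ (M : ℝ) ^ k → E ⊆ XR R ×ˢ RF.IT T →
    ∑ z ∈ E, ‖DP b (dy M) z.1 z.2‖ ^ 2 ≤
      C * (M * Real.log (4 * T + 2) + E.card * (M : ℝ) ^ (1 - δ)) * ∑ n ∈ dy M, ‖b n‖ ^ 2

def StMV : Prop := ∃ C : ℝ, 0 < C ∧ ∀ (M T : ℕ) (b : ℕ → ℂ) (x : CH), 1 ≤ M → 1 ≤ T →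
  ∑ u ∈ RF.IT T, ‖DP b (dy M) x u‖ ^ 2 ≤ C * (M + T) * ∑ n ∈ dy M, ‖b n‖ ^ 2

def StL2 : Prop := ∃ C : ℝ, 0 < C ∧ ∀ (N T : ℕ) (c : ℤ → ℂ), 1 ≤ T → T ≤ N →
  ∑ t ∈ Ico (2 * N) (4 * N), ‖∑ u ∈ RF.IT T, c u * GM.pw (t : ℝ) (-(u : ℝ))‖ ≤
    C * N * √(∑ u ∈ RF.IT T, ‖c u‖ ^ 2)

def StPt : Prop := ∃ C : ℝ, 0 < C ∧ ∀ (N T R : ℕ) (η P Q : ℝ) (w : ℕ → ℤ → ℂ) (Φ : CH → ℤ → ℂ),
  1 ≤ T → T ≤ N → 0 ≤ P → 0 ≤ Q → Adm T η w →
  (∀ x ∈ XR R, ∀ u ∈ RF.IT T, ‖Φ x u‖ ≤ (if x.1 = 1 then P / (1 + |(u : ℝ)|) else 0) + Q) →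
    MS N T R w Φ ≤ C * N * (P * √η + R * Q * √T)

def StLV : Prop := ∃ θ : ℝ, 0 < θ ∧ θ ≤ 1 / 100 ∧ ∀ᶠ N : ℕ in atTop,
  ∀ (M K R : ℕ) (a b : ℕ → ℂ), N ≤ M ^ 20 → N ≤ K ^ 20 → N < 4 * (M * K) → M * K < 8 * N →
    (R : ℝ) ≤ (N : ℝ) ^ θ → ∑ n ∈ dy M, ‖a n‖ ^ 2 ≤ M * Real.log N ^ 6 →
    ∑ n ∈ dy K, ‖b n‖ ^ 2 ≤ K * Real.log N ^ 6 →
    ∃ E ⊆ XR R ×ˢ RF.IT (TT N),
      ∑ z ∈ E, ‖DP a (dy M) z.1 z.2‖ ^ 2 ≤ (M : ℝ) ^ 2 * Real.log N ^ 8 ∧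
      ∑ z ∈ E, ‖DP b (dy K) z.1 z.2‖ ^ 2 ≤ (K : ℝ) ^ 2 * Real.log N ^ 8 ∧
      ∃ F : CH → Finset ℤ, ∀ x ∈ XR R, (∀ u ∈ RF.IT (TT N), (x, u) ∈ E ∨ u ∈ F x) ∧
        ∑ u ∈ F x, ‖DP a (dy M) x u * DP b (dy K) x u‖ ^ 2 ≤ (N : ℝ) ^ (2 - 4 * θ)

def StBox : Prop := ∃ θ : ℝ, 0 < θ ∧ θ ≤ 1 / 100 ∧ ∀ A : ℕ, ∃ A₀ : ℕ, ∀ᶠ N : ℕ in atTop,
  ∀ (M K R : ℕ) (η : ℝ) (w : ℕ → ℤ → ℂ) (b : ℕ → ℂ), N ≤ M ^ 20 → N ≤ K ^ 20 →
    N < 4 * (M * K) → M * K < 8 * N → (R : ℝ) ≤ (N : ℝ) ^ θ → η ≤ 1 / Real.log N ^ A₀ →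
    Adm (TT N) η w → (∀ n, ‖b n‖ ≤ ta n) →
    MS N (TT N) R w (fun x u => DP La (dy M) x u * DP b (dy K) x u) ≤
      (N : ℝ) ^ 2 / Real.log N ^ A

/-- the part of a box under the cut -/
def BI (N M K : ℕ) (a b : ℕ → ℂ) (f : ℕ → ℂ) : ℂ :=
  ∑ m ∈ dy M, ∑ k ∈ (dy K).filter (fun k => m * k ∈ Ioc N (8 * N)), a m * b k * f (m * k)

def StOff : Prop := ∀ (N T R M K : ℕ) (η : ℝ) (w : ℕ → ℤ → ℂ) (a b : ℕ → ℂ), 1 ≤ T → 0 ≤ η →
  Adm T η w → N < 4 * (M * K) → M * K < 8 * N →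
    MS N T R w (fun x u => BI N M K a b (cw x u)) ≤
      MS N T R w (fun x u => DP a (dy M) x u * DP b (dy K) x u) +
        2 * N * (η + 11 * R / T) * ((∑ m ∈ dy M, ‖a m‖) * ∑ k ∈ dy K, ‖b k‖)

/-- the linear terms in the identity of Vaughan -/
def TI (N U : ℕ) (f : ℕ → ℂ) : ℂ :=
  ∑ d ∈ Icc 1 U, (ArithmeticFunction.moebius d : ℂ) * f d *
      ∑ n ∈ Ioc (N / d) (8 * N / d), (Real.log n : ℂ) * f n -
    ∑ d ∈ Icc 1 U, ∑ e ∈ Icc 1 U, (ArithmeticFunction.moebius d : ℂ) * La e * f d * f e *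
      ∑ n ∈ Ioc (N / (d * e)) (8 * N / (d * e)), f n

/-- the boxes -/
def BX (N i : ℕ) : Finset (ℕ × ℕ) :=
  (Ico i (Nat.log 2 N + 4) ×ˢ Ico i (Nat.log 2 N + 4)).filter fun z =>
    N < 4 * (2 ^ z.1 * 2 ^ z.2) ∧ 2 ^ z.1 * 2 ^ z.2 < 8 * N

def StVau : Prop := ∀ (N i : ℕ) (f : ℕ → ℂ), 2 ^ i ≤ N →
  (∀ m k, 1 ≤ m → 1 ≤ k → f (m * k) = f m * f k) →
    ∑ n ∈ Ioc N (8 * N), La n * f n =
      TI N (2 ^ i) f + ∑ z ∈ BX N i, BI N (2 ^ z.1) (2 ^ z.2) La (vb (2 ^ i)) f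

def StT1 : Prop := ∃ C : ℝ, 0 < C ∧ ∀ (N U R : ℕ), ∀ x ∈ XR R, ∀ u : ℤ, 1 ≤ U → U ^ 2 ≤ N →
  ‖TI N U (cw x u)‖ ≤ (if x.1 = 1 then C * N * (1 + Real.log N) ^ 3 / (1 + |(u : ℝ)|) else 0) +
    C * (U : ℝ) ^ 2 * R * (1 + |(u : ℝ)|) * (1 + Real.log N)

def StMean : Prop := ∃ θ : ℝ, 0 < θ ∧ θ ≤ 1 / 100 ∧ ∀ A : ℕ, ∃ A₀ : ℕ, ∀ᶠ N : ℕ in atTop,
  ∀ (R : ℕ) (η : ℝ) (w : ℕ → ℤ → ℂ), (R : ℝ) ≤ (N : ℝ) ^ θ → 0 ≤ η →
    η ≤ 1 / Real.log N ^ A₀ → Adm (TT N) η w →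
    MS N (TT N) R w (DP (fun n => (th n : ℂ)) (Ioc N (8 * N))) ≤ (N : ℝ) ^ 2 / Real.log N ^ A

/-! ### The kernel and the sieve -/

/-- the triangle -/
def wt (T : ℕ) (u : ℤ) : ℝ := max 0 (1 - |(u : ℝ)| / (2 * T))

/-- the weights -/
def ww (T T₀ r : ℕ) (u : ℤ) : ℂ := ((wt T u - if r = 1 then wt T₀ u else 0 : ℝ) : ℂ)

def StFej2 : Prop := ∀ (T : ℕ) (y : ℝ), 1 ≤ T → |y| ≤ 1 / (2 * T) → T ≤ fej T y

def StAdm : Prop := ∀ T T₀ : ℕ, 1 ≤ T₀ → T₀ ≤ T → Adm T (11 / T₀) (ww T T₀) ∧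
  ∀ (r : ℕ) (y : ℝ), RF.trig T (ww T T₀ r) y =
    ((fej T y - if r = 1 then fej T₀ y else 0 : ℝ) : ℂ)

def StLong : Prop := ∀ A : ℕ, ∀ᶠ N : ℕ in atTop, ∀ T₀ : ℕ, 1 ≤ T₀ →
  (T₀ : ℝ) ≤ Real.log N ^ A → ∀ t ∈ Ico (2 * N) (4 * N),
    (N : ℝ) / 2 ≤ ∑ n ∈ Ioc N (8 * N), th n * fej T₀ (Real.log n - Real.log t)

open Classical in
def StFLW : Prop := ∀ K : ℝ, ∃ m : ℕ, ∀ (Ω P : Type) [Fintype P] (S : Finset Ω) (μ : Ω → ℝ)
  (E : P → Ω → Prop) (g : P → ℝ) (blk : P → ℕ) (J : ℕ) (Z ρ : ℝ), 0 ≤ Z → (∀ ω, 0 ≤ μ ω) →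
    (∀ p, 0 ≤ g p ∧ g p ≤ 1 / 2) → (∀ p, blk p < J) →
    (∀ j, ∑ p ∈ univ.filter (fun p => blk p = j), g p ≤ K) →
    ∑ T ∈ univ.filter (fun T : Finset P => ∀ j, (T.filter fun p => blk p = j).card ≤
      2 * (m + j) + 1),
        |∑ ω ∈ S.filter (fun ω => ∀ p ∈ T, E p ω), μ ω - Z * ∏ p ∈ T, g p| ≤ ρ →
    Z / 2 * ∏ p, (1 - g p) - (J + 1) * ρ ≤ ∑ ω ∈ S.filter (fun ω => ∀ p, ¬ E p ω), μ ω

def StPr : Prop := ∃ c : ℝ, 0 < c ∧ ∀ z : ℕ, 2 ≤ z →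
  c / Real.log z ≤ ∏ p ∈ (Ioc 2 z).filter Nat.Prime, (1 - 1 / ((p : ℝ) - 1))

open Classical in
def StSv : Prop := ∀ θ : ℝ, 0 < θ → θ ≤ 1 / 100 → ∃ al c : ℝ, 0 < al ∧ 0 < c ∧
  ∀ᶠ N : ℕ in atTop, ∀ g : ℕ → ℝ, (∀ n, 0 ≤ g n) →
    c / Real.log N * ∑ n ∈ Ioc N (8 * N), th n * g n -
      Real.log N ^ 4 * ∑ r ∈ Ioc 1 ⌊(N : ℝ) ^ θ⌋₊, 1 / (r.totient : ℝ) *
        ∑ χ ∈ pm r, ‖CS (fun n => th n * g n) (Ioc N (8 * N)) 1 χ‖ ≤
    ∑ p ∈ (Ioc N (8 * N)).filter (rough N al), Real.log p * g p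

end Pool.Agent.MP_436a94_nt.A

end
end

section

/-!
Simple facts used in several steps.
-/

set_option autoImplicit false

open Finset Filter
open scoped ComplexConjugate

namespace Pool.Agent.MP_436a94_nt.A

open Pool.Agent.MP_2a1f0e_nt Pool.Agent.MP_43e117_nt.PG DirichletCharacter

lemma mem_XR {R : ℕ} {x : CH} : x ∈ XR R ↔ 1 ≤ x.1 ∧ x.1 ≤ R ∧ x.2.IsPrimitive := by
  simp [XR, pm, mem_sigma, and_assoc]

lemma card_pm {r : ℕ} (hr : 1 ≤ r) : (pm r).card ≤ r.totient := by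
  classical
  have : NeZero r := ⟨by omega⟩
  unfold pm
  refine (card_filter_le _ _).trans ?_
  rw [card_univ, ← Nat.card_eq_fintype_card,
    DirichletCharacter.card_eq_totient_of_hasEnoughRootsOfUnity]

lemma ne_one_of_XR {R : ℕ} {x : CH} (hx : x ∈ XR R) (h : x.1 ≠ 1) : x.2 ≠ 1 := by
  obtain ⟨r, χ⟩ := x
  obtain ⟨h1, -, h2⟩ := mem_XR.1 hx
  have : NeZero r := ⟨by simp only at h1; omega⟩
  intro h3
  simp only at h h2 h3
  rw [h3, isPrimitive_def, conductor_one] at h2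
  exact h h2.symm

lemma val_one {x : CH} (h : x.1 = 1) (n : ℕ) : x.2 n = 1 := by
  obtain ⟨r, χ⟩ := x
  simp only at h
  subst h
  simp only
  rw [Subsingleton.elim (n : ZMod 1) 1, map_one]

lemma sum_XR (R : ℕ) (c : ℕ → ℝ) (hc : ∀ r, 0 ≤ c r) :
    ∑ x ∈ XR R, 1 / (x.1.totient : ℝ) * c x.1 ≤ ∑ r ∈ Icc 1 R, c r := by
  rw [XR, sum_sigma]
  refine sum_le_sum fun r hr => ?_
  have h1 := (mem_Icc.1 hr).1
  have h2 : (0 : ℝ) < r.totient := by exact_mod_cast Nat.totient_pos.2 h1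
  have h3 : ((pm r).card : ℝ) ≤ r.totient := by exact_mod_cast card_pm h1
  simp only [sum_const, nsmul_eq_mul]
  calc _ ≤ (r.totient : ℝ) * (1 / (r.totient : ℝ) * c r) :=
        mul_le_mul_of_nonneg_right h3 (mul_nonneg (by positivity) (hc r))
    _ = c r := by field_simp

lemma sum_XR2 (R : ℕ) {P Q : ℝ} (hP : 0 ≤ P) (hQ : 0 ≤ Q) :
    ∑ x ∈ XR R, 1 / (x.1.totient : ℝ) * ((if x.1 = 1 then P else 0) + Q) ≤ P + R * Q := by
  refine (sum_XR R (fun r => (if r = 1 then P else 0) + Q)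
    fun r => add_nonneg (by split_ifs <;> simp [hP]) hQ).trans ?_
  rw [sum_add_distrib, sum_ite_eq', sum_const, Nat.card_Icc, nsmul_eq_mul, Nat.add_sub_cancel]
  split_ifs <;> linarith

lemma norm_cw (x : CH) (u : ℤ) (n : ℕ) : ‖cw x u n‖ ≤ 1 := by
  rw [cw, norm_mul, GM.norm_pw, mul_one]
  exact x.2.norm_le_one _

lemma cw_mul (x : CH) (u : ℤ) (m k : ℕ) (hm : 1 ≤ m) (hk : 1 ≤ k) :
    cw x u (m * k) = cw x u m * cw x u k := by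
  have h1 : (m : ℝ) ≠ 0 := by positivity
  have h2 : (k : ℝ) ≠ 0 := by positivity
  rw [cw, cw, cw, Nat.cast_mul, Nat.cast_mul, map_mul, GM.pw_mul h1 h2]
  ring

lemma norm_DP_le (a : ℕ → ℂ) (J : Finset ℕ) (x : CH) (u : ℤ) :
    ‖DP a J x u‖ ≤ ∑ n ∈ J, ‖a n‖ := by
  refine norm_sum_le_of_le _ fun n _ => ?_
  rw [norm_mul]
  exact mul_le_of_le_one_right (norm_nonneg _) (norm_cw x u n)

lemma card_IT (T : ℕ) : ((RF.IT T).card : ℝ) ≤ 4 * T := by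
  have : (RF.IT T).card ≤ 4 * T := by
    rw [RF.IT, Int.card_Ioo]
    omega
  exact_mod_cast this

lemma abs_IT {T : ℕ} {u : ℤ} (hu : u ∈ RF.IT T) : |(u : ℝ)| ≤ 2 * T := by
  have := mem_Ioo.1 hu
  have h : |u| ≤ 2 * (T : ℤ) := abs_le.2 ⟨by omega, by omega⟩
  exact_mod_cast h

lemma card_dy (M : ℕ) : (dy M).card = M := by
  rw [dy, Nat.card_Ioc]
  omega

lemma Mt_nonneg (T : ℕ) (w : ℕ → ℤ → ℂ) (Φ : CH → ℤ → ℂ) (t : ℕ) (x : CH) :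
    0 ≤ Mt T w Φ t x := by
  unfold Mt
  positivity

lemma MS_congr {N T R : ℕ} {w : ℕ → ℤ → ℂ} {Φ Ψ : CH → ℤ → ℂ}
    (h : ∀ x ∈ XR R, ∀ u ∈ RF.IT T, Φ x u = Ψ x u) : MS N T R w Φ = MS N T R w Ψ := by
  refine sum_congr rfl fun t _ => sum_congr rfl fun x hx => ?_
  unfold Mt
  rw [sum_congr rfl fun u hu => by rw [h x hx u hu]]

lemma MS_add (N T R : ℕ) (w : ℕ → ℤ → ℂ) (Φ Ψ : CH → ℤ → ℂ) :
    MS N T R w (fun x u => Φ x u + Ψ x u) ≤ MS N T R w Φ + MS N T R w Ψ := by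
  unfold MS
  rw [← sum_add_distrib]
  refine sum_le_sum fun t _ => ?_
  rw [← sum_add_distrib]
  refine sum_le_sum fun x _ => ?_
  unfold Mt
  rw [← mul_add]
  refine mul_le_mul_of_nonneg_left ?_ (by positivity)
  simp only [mul_add, sum_add_distrib]
  exact norm_add_le _ _

lemma MS_sum {ι : Type} (s : Finset ι) (N T R : ℕ) (w : ℕ → ℤ → ℂ) (Φ : ι → CH → ℤ → ℂ) :
    MS N T R w (fun x u => ∑ i ∈ s, Φ i x u) ≤ ∑ i ∈ s, MS N T R w (Φ i) := by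
  classical
  induction s using Finset.induction_on with
  | empty => simp [MS, Mt]
  | insert a s ha ih =>
    simp only [sum_insert ha]
    exact (MS_add N T R w (Φ a) _).trans (add_le_add le_rfl ih)

lemma phys1 (T : ℕ) (w : ℤ → ℂ) (t n : ℕ) (x : CH) :
    ∑ u ∈ RF.IT T, w u * GM.pw (t : ℝ) (-(u : ℝ)) * cw x u n =
      x.2 n * RF.trig T w (Real.log n - Real.log t) := by
  rw [RF.trig, mul_sum]
  refine sum_congr rfl fun u _ => ?_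
  rw [cw, GM.pw, GM.pw]
  have : Complex.exp (Complex.I * (u : ℂ) * ((Real.log n - Real.log t : ℝ) : ℂ)) =
      Complex.exp (Complex.I * ((-(u : ℝ) : ℝ) : ℂ) * ((Real.log t : ℝ) : ℂ)) *
        Complex.exp (Complex.I * (((u : ℝ) : ℝ) : ℂ) * ((Real.log n : ℝ) : ℂ)) := by
    rw [← Complex.exp_add]
    congr 1
    push_cast
    ring
  rw [this]
  ring

lemma phys (T : ℕ) (w : ℤ → ℂ) (t : ℕ) (x : CH) (a : ℕ → ℂ) (J : Finset ℕ) :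
    ∑ u ∈ RF.IT T, w u * GM.pw (t : ℝ) (-(u : ℝ)) * DP a J x u =
      ∑ n ∈ J, a n * (x.2 n * RF.trig T w (Real.log n - Real.log t)) := by
  simp only [DP, mul_sum, ← phys1]
  rw [sum_comm]
  refine sum_congr rfl fun n _ => sum_congr rfl fun u _ => ?_
  ring

lemma tlog : Tendsto (fun N : ℕ => Real.log N) atTop atTop :=
  Real.tendsto_log_atTop.comp tendsto_natCast_atTop_atTop

lemma ev_L (C : ℝ) : ∀ᶠ N : ℕ in atTop, C ≤ Real.log N := tlog.eventually_ge_atTop C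

lemma ev_log (C : ℝ) (k : ℕ) {ε : ℝ} (hε : 0 < ε) :
    ∀ᶠ N : ℕ in atTop, C * Real.log N ^ k ≤ (N : ℝ) ^ ε := by
  have h := (isLittleO_log_rpow_rpow_atTop ((k + 1 : ℕ) : ℝ) hε).bound (c := 1) one_pos
  filter_upwards [tendsto_natCast_atTop_atTop.eventually h, ev_L C, ev_L 0] with N h1 h2 h3
  rw [Real.rpow_natCast, Real.norm_of_nonneg (by positivity), one_mul,
    Real.norm_of_nonneg (by positivity), pow_succ, mul_comm] at h1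
  exact (mul_le_mul_of_nonneg_right h2 (by positivity)).trans h1

lemma ev_TT : ∀ᶠ N : ℕ in atTop, 1 ≤ TT N ∧ 4 * TT N + 2 ≤ N ∧ √(N : ℝ) ≤ TT N ∧
    (TT N : ℝ) ≤ 2 * √(N : ℝ) * Real.log N ^ 5 := by
  filter_upwards [ev_log 10 5 (show (0 : ℝ) < 1 / 2 by norm_num), ev_L 1,
    eventually_ge_atTop 1] with N h1 h2 h3
  have n1 : (1 : ℝ) ≤ N := by exact_mod_cast h3
  have s1 : 1 ≤ √(N : ℝ) := Real.one_le_sqrt.2 n1
  have l5 : 1 ≤ Real.log N ^ 5 := one_le_pow₀ h2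
  have a1 : √(N : ℝ) * Real.log N ^ 5 ≤ TT N := Nat.le_ceil _
  have a2 : (TT N : ℝ) < √(N : ℝ) * Real.log N ^ 5 + 1 := Nat.ceil_lt_add_one (by positivity)
  have a3 : √(N : ℝ) ≤ √(N : ℝ) * Real.log N ^ 5 := le_mul_of_one_le_right (by positivity) l5
  rw [← Real.sqrt_eq_rpow] at h1
  have a4 := Real.mul_self_sqrt (show (0 : ℝ) ≤ N by linarith)
  have a5 := mul_le_mul_of_nonneg_left h1 (show 0 ≤ √(N : ℝ) by linarith)
  refine ⟨?_, ?_, by linarith, by linarith⟩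
  · have : (1 : ℝ) ≤ TT N := by linarith
    exact_mod_cast this
  · have : 4 * (TT N : ℝ) + 2 ≤ N := by linarith
    exact_mod_cast this

end Pool.Agent.MP_436a94_nt.A

end

section

/-!
Mean values from pointwise bounds, and removal of the cut.
-/

set_option autoImplicit false

open Finset Filter

namespace Pool.Agent.MP_436a94_nt.A

open Pool.Agent.MP_2a1f0e_nt Pool.Agent.MP_43e117_nt.PG DirichletCharacter

lemma sqrt_add_Pt {a b : ℝ} (ha : 0 ≤ a) (hb : 0 ≤ b) {S : ℝ} (h : S ≤ a ^ 2 + b ^ 2) :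
    √S ≤ a + b :=
  Real.sqrt_le_iff.2 ⟨by positivity, by nlinarith [mul_nonneg ha hb]⟩

lemma eta_nonneg {T : ℕ} {η : ℝ} {w : ℕ → ℤ → ℂ} (h : Adm T η w) : 0 ≤ η :=
  le_trans (sum_nonneg fun _ _ => by positivity) h.2.1

lemma MS_le_L2 {C : ℝ} {N T R : ℕ} (hC : ∀ c : ℤ → ℂ,
      ∑ t ∈ Ico (2 * N) (4 * N), ‖∑ u ∈ RF.IT T, c u * GM.pw (t : ℝ) (-(u : ℝ))‖ ≤
        C * N * √(∑ u ∈ RF.IT T, ‖c u‖ ^ 2)) (w : ℕ → ℤ → ℂ) (Φ : CH → ℤ → ℂ) :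
    MS N T R w Φ ≤ ∑ x ∈ XR R, 1 / (x.1.totient : ℝ) *
      (C * N * √(∑ u ∈ RF.IT T, ‖w x.1 u * Φ x u‖ ^ 2)) := by
  rw [MS, sum_comm]
  refine sum_le_sum fun x _ => ?_
  unfold Mt
  rw [← mul_sum]
  refine mul_le_mul_of_nonneg_left (le_trans (le_of_eq ?_) (hC fun u => w x.1 u * Φ x u))
    (by positivity)
  refine sum_congr rfl fun t _ => ?_
  congr 1
  exact sum_congr rfl fun u _ => by ring

theorem s_Pt (hL : StL2) : StPt := by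
  obtain ⟨C, hC, hL⟩ := hL
  refine ⟨3 * C, by positivity, fun N T R η P Q w Φ hT hTN hP hQ hA hΦ => ?_⟩
  have η0 := eta_nonneg hA
  refine (MS_le_L2 (hL N T · hT hTN) w Φ).trans ?_
  have key : ∀ x ∈ XR R, √(∑ u ∈ RF.IT T, ‖w x.1 u * Φ x u‖ ^ 2) ≤
      (if x.1 = 1 then 3 * (P * √η) else 0) + 3 * (Q * √T) := fun x hx => by
    refine sqrt_add_Pt (by split_ifs <;> positivity) (by positivity) ?_
    have h1 : ∑ u ∈ RF.IT T, ‖w x.1 u * Φ x u‖ ^ 2 ≤ ∑ u ∈ RF.IT T,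
        ((if x.1 = 1 then 2 * P ^ 2 * (‖w 1 u‖ ^ 2 / (1 + |(u : ℝ)|) ^ 2) else 0) + 2 * Q ^ 2) := by
      refine sum_le_sum fun u hu => ?_
      have h2 := hΦ x hx u hu
      have h3 := hA.1 x.1 u
      have h4 := norm_nonneg (w x.1 u)
      have h5 := norm_nonneg (Φ x u)
      rw [norm_mul]
      split_ifs at h2 ⊢ with h
      · rw [h] at h3 h4 ⊢
        have e : 2 * P ^ 2 * (‖w 1 u‖ ^ 2 / (1 + |(u : ℝ)|) ^ 2) =
            2 * (‖w 1 u‖ * (P / (1 + |(u : ℝ)|))) ^ 2 := by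
          field_simp
        have h6 : ‖w 1 u‖ * ‖Φ x u‖ ≤ ‖w 1 u‖ * (P / (1 + |(u : ℝ)|)) + Q := by
          nlinarith [mul_le_mul_of_nonneg_left h2 h4]
        have h7 := pow_le_pow_left₀ (by positivity) h6 2
        rw [e]
        nlinarith [sq_nonneg (‖w 1 u‖ * (P / (1 + |(u : ℝ)|)) - Q)]
      · have h6 : ‖w x.1 u‖ * ‖Φ x u‖ ≤ Q := by nlinarith
        have h7 := pow_le_pow_left₀ (by positivity) h6 2
        nlinarith [sq_nonneg Q]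
    refine h1.trans ?_
    rw [sum_add_distrib, sum_const, nsmul_eq_mul]
    refine add_le_add ?_ ?_
    · split_ifs
      · rw [← mul_sum, mul_pow, mul_pow, Real.sq_sqrt η0]
        nlinarith [mul_le_mul_of_nonneg_left hA.2.1 (sq_nonneg P), mul_nonneg (sq_nonneg P) η0]
      · simp
    · rw [mul_pow, mul_pow, Real.sq_sqrt (Nat.cast_nonneg T)]
      nlinarith [mul_le_mul_of_nonneg_right (card_IT T) (sq_nonneg Q),
        mul_nonneg (sq_nonneg Q) (Nat.cast_nonneg (α := ℝ) T)]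
  calc _ ≤ ∑ x ∈ XR R, C * N * (1 / (x.1.totient : ℝ) *
        ((if x.1 = 1 then 3 * (P * √η) else 0) + 3 * (Q * √T))) := by
        refine sum_le_sum fun x hx => ?_
        rw [mul_left_comm (C * N)]
        gcongr
        exact key x hx
    _ ≤ C * N * (3 * (P * √η) + R * (3 * (Q * √T))) := by
        rw [← mul_sum]
        exact mul_le_mul_of_nonneg_left (sum_XR2 R (by positivity) (by positivity))
          (by positivity)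
    _ = _ := by ring

lemma range_Off {N M K m k t : ℕ} (h1 : N < 4 * (M * K)) (h2 : M * K < 8 * N) (hm : m ∈ dy M)
    (hk : k ∈ dy K) (ht : t ∈ Ico (2 * N) (4 * N)) (h : m * k ∉ Ioc N (8 * N)) :
    Real.log 2 ≤ |Real.log (m * k : ℕ) - Real.log t| ∧ |Real.log (m * k : ℕ) - Real.log t| ≤ 3 := by
  obtain ⟨m1, m2⟩ := mem_Ioc.1 hm
  obtain ⟨k1, k2⟩ := mem_Ioc.1 hk
  obtain ⟨t1, t2⟩ := mem_Ico.1 ht
  have a1 : M * K ≤ m * k := Nat.mul_le_mul m1.le k1.le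
  have a2 : m * k ≤ 4 * (M * K) := (Nat.mul_le_mul m2 k2).trans_eq (by ring)
  rw [mem_Ioc] at h
  generalize m * k = n at *
  generalize M * K = P at *
  have n0 : (0 : ℝ) < n := by exact_mod_cast (by omega : 0 < n)
  have t0 : (0 : ℝ) < t := by exact_mod_cast (by omega : 0 < t)
  have l16 : Real.log 16 ≤ 3 := by
    rw [show (16 : ℝ) = 2 ^ 4 by norm_num, Real.log_pow]
    push_cast
    linarith [Real.log_two_lt_d9]
  have b1 : Real.log n ≤ Real.log 16 + Real.log t := by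
    rw [← Real.log_mul (by norm_num) t0.ne']
    exact Real.log_le_log n0 (by exact_mod_cast (by omega : n ≤ 16 * t))
  have b2 : Real.log t ≤ Real.log 16 + Real.log n := by
    rw [← Real.log_mul (by norm_num) n0.ne']
    exact Real.log_le_log t0 (by exact_mod_cast (by omega : t ≤ 16 * n))
  refine ⟨?_, abs_le.2 ⟨by linarith, by linarith⟩⟩
  rcases le_or_gt n N with c | c
  · have : Real.log 2 + Real.log n ≤ Real.log t := by
      rw [← Real.log_mul (by norm_num) n0.ne']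
      exact Real.log_le_log (by positivity) (by exact_mod_cast (by omega : 2 * n ≤ t))
    exact le_abs.2 (Or.inr (by linarith))
  · have : Real.log 2 + Real.log t ≤ Real.log n := by
      rw [← Real.log_mul (by norm_num) t0.ne']
      exact Real.log_le_log (by positivity) (by exact_mod_cast (by omega : 2 * t ≤ n))
    exact le_abs.2 (Or.inl (by linarith))

theorem s_Off : StOff := by
  intro N T R M K η w a b hT η0 hA h1 h2
  set O : CH → ℤ → ℂ := fun x u => -∑ m ∈ dy M,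
    ∑ k ∈ (dy K).filter (fun k => m * k ∉ Ioc N (8 * N)), a m * b k * cw x u (m * k) with hO
  have e : ∀ x u, BI N M K a b (cw x u) = DP a (dy M) x u * DP b (dy K) x u + O x u := fun x u => by
    rw [hO, ← sub_eq_add_neg, eq_sub_iff_add_eq, BI, ← sum_add_distrib, DP, DP, sum_mul_sum]
    refine sum_congr rfl fun m hm => ?_
    rw [sum_filter_add_sum_filter_not]
    refine sum_congr rfl fun k hk => ?_
    rw [cw_mul x u m k (by have := (mem_Ioc.1 hm).1; omega) (by have := (mem_Ioc.1 hk).1; omega)]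
    ring
  simp only [e]
  refine (MS_add N T R w _ O).trans (add_le_add le_rfl ?_)
  set S : ℝ := (∑ m ∈ dy M, ‖a m‖) * ∑ k ∈ dy K, ‖b k‖ with hS
  have S0 : 0 ≤ S := by positivity
  have key : ∀ t ∈ Ico (2 * N) (4 * N), ∑ x ∈ XR R, Mt T w O t x ≤ (η + 11 * R / T) * S :=
    fun t ht => by
    refine le_trans (sum_le_sum fun x _ => ?_) ((sum_XR2 R (P := η * S) (Q := 11 / T * S)
      (by positivity) (by positivity)).trans_eq (by ring))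
    refine mul_le_mul_of_nonneg_left ?_ (by positivity)
    have e2 : ∑ u ∈ RF.IT T, w x.1 u * GM.pw (t : ℝ) (-(u : ℝ)) * O x u = -∑ m ∈ dy M,
        ∑ k ∈ (dy K).filter (fun k => m * k ∉ Ioc N (8 * N)), a m * b k *
          (x.2 ((m * k : ℕ) : ZMod x.1) *
            RF.trig T (w x.1) (Real.log (m * k : ℕ) - Real.log t)) := by
      simp only [hO, ← phys1, mul_neg, sum_neg_distrib, mul_sum]
      congr 1
      rw [sum_comm]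
      refine sum_congr rfl fun m _ => ?_
      rw [sum_comm]
      refine sum_congr rfl fun k _ => sum_congr rfl fun u _ => ?_
      ring
    have e3 : (if x.1 = 1 then η * S else 0) + 11 / T * S = ∑ m ∈ dy M, ∑ k ∈ dy K,
        ‖a m‖ * ‖b k‖ * (11 / T + if x.1 = 1 then η else 0) := by
      simp only [← sum_mul]
      rw [← sum_mul_sum, ← hS]
      split_ifs <;> ring
    rw [e2, norm_neg, e3]
    refine norm_sum_le_of_le _ fun m hm => ?_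
    refine (norm_sum_le_of_le _ (n := fun k =>
      ‖a m‖ * ‖b k‖ * (11 / T + if x.1 = 1 then η else 0)) fun k hk => ?_).trans
      (sum_le_sum_of_subset_of_nonneg (filter_subset _ _) fun k _ _ =>
        mul_nonneg (by positivity) (add_nonneg (by positivity) (by split_ifs <;> simp [η0])))
    obtain ⟨k1, k2⟩ := mem_filter.1 hk
    obtain ⟨r1, r2⟩ := range_Off h1 h2 hm k1 ht k2
    rw [norm_mul, norm_mul, norm_mul]
    refine mul_le_mul_of_nonneg_left ?_ (by positivity)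
    exact (mul_le_of_le_one_left (norm_nonneg _) (x.2.norm_le_one _)).trans (hA.2.2 _ _ r1 r2)
  refine (sum_le_card_nsmul _ _ _ key).trans (le_of_eq ?_)
  rw [Nat.card_Ico, nsmul_eq_mul, show 4 * N - 2 * N = 2 * N by omega]
  push_cast
  ring

end Pool.Agent.MP_436a94_nt.A

end

section

/-!
The set of large values of the short factor.
-/

set_option autoImplicit false

open Finset Filter

namespace Pool.Agent.MP_436a94_nt.A

open Pool.Agent.MP_2a1f0e_nt Pool.Agent.MP_43e117_nt.PG DirichletCharacter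

lemma card_LV {e s v C L : ℝ} (he : 0 ≤ e) (hs : 0 < s) (hv : 0 < v) (hC : 0 < C) (hL : 1 ≤ L)
    (h1 : e * (s / v ^ 3) ^ 2 ≤ C * (s * L + e * (s / v ^ 7)) * (s * L ^ 6))
    (h2 : 2 * C * L ^ 7 ≤ v) : e ≤ v ^ 7 := by
  have e1 : e * (s / v ^ 3) ^ 2 = s ^ 2 / v ^ 7 * (e * v) := by field_simp
  have e2 : C * (s * L + e * (s / v ^ 7)) * (s * L ^ 6) =
      s ^ 2 / v ^ 7 * (C * L ^ 7 * v ^ 7 + C * L ^ 6 * e) := by field_simp
  rw [e1, e2] at h1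
  have h3 := le_of_mul_le_mul_left h1 (by positivity)
  have h4 : C * L ^ 6 ≤ C * L ^ 7 :=
    mul_le_mul_of_nonneg_left (pow_le_pow_right₀ hL (by norm_num)) hC.le
  have h5 : C * L ^ 6 * e ≤ v / 2 * e := mul_le_mul_of_nonneg_right (by linarith) he
  have h6 : C * L ^ 7 * v ^ 7 ≤ v / 2 * v ^ 7 :=
    mul_le_mul_of_nonneg_right (by linarith) (by positivity)
  refine le_of_mul_le_mul_left (a := v) ?_ hv
  linarith

lemma core_LV {N T R s l : ℕ} {v L C C₂ : ℝ} {a b : ℕ → ℂ} (hs : 1 ≤ s) (hsl : s ≤ l)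
    (hv : 1 ≤ v) (hC : 0 < C) (hC₂ : 0 < C₂) (hL : 1 ≤ L) (h2 : 2 * C * L ^ 7 ≤ v)
    (h3 : 2 * C ≤ L) (h4 : 320 * C₂ * L ^ 11 ≤ v) (hN : N < 4 * (s * l)) (hN' : s * l < 8 * N)
    (hT : (T : ℝ) ≤ 2 * √(N : ℝ) * L ^ 5)
    (ha : ∀ E ⊆ XR R ×ˢ RF.IT T, ∑ z ∈ E, ‖DP a (dy s) z.1 z.2‖ ^ 2 ≤
      C * (s * L + E.card * (s / v ^ 7)) * (s * L ^ 6))
    (hb : ∀ E ⊆ XR R ×ˢ RF.IT T, ∑ z ∈ E, ‖DP b (dy l) z.1 z.2‖ ^ 2 ≤
      C * (l * L + E.card * (l / v ^ 7)) * (l * L ^ 6))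
    (hm : ∀ x, ∑ u ∈ RF.IT T, ‖DP b (dy l) x u‖ ^ 2 ≤ C₂ * (l + T) * (l * L ^ 6)) :
    ∃ E ⊆ XR R ×ˢ RF.IT T,
      ∑ z ∈ E, ‖DP a (dy s) z.1 z.2‖ ^ 2 ≤ (s : ℝ) ^ 2 * L ^ 8 ∧
      ∑ z ∈ E, ‖DP b (dy l) z.1 z.2‖ ^ 2 ≤ (l : ℝ) ^ 2 * L ^ 8 ∧
      ∃ F : CH → Finset ℤ, ∀ x ∈ XR R, (∀ u ∈ RF.IT T, (x, u) ∈ E ∨ u ∈ F x) ∧
        ∑ u ∈ F x, ‖DP a (dy s) x u * DP b (dy l) x u‖ ^ 2 ≤ (N : ℝ) ^ 2 / v ^ 4 := by
  classical
  have s1 : (1 : ℝ) ≤ s := by exact_mod_cast hs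
  have sl : (s : ℝ) ≤ l := by exact_mod_cast hsl
  have v0 : 0 < v := by linarith
  set E := (XR R ×ˢ RF.IT T).filter fun z => s / v ^ 3 < ‖DP a (dy s) z.1 z.2‖ with hE
  have E1 : E ⊆ XR R ×ˢ RF.IT T := filter_subset _ _
  have c1 : (E.card : ℝ) ≤ v ^ 7 := by
    refine card_LV (Nat.cast_nonneg _) (by linarith : (0 : ℝ) < s) v0 hC hL
      (le_trans ?_ (ha E E1)) h2
    rw [← nsmul_eq_mul]
    exact card_nsmul_le_sum _ _ _ fun z hz =>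
      pow_le_pow_left₀ (by positivity) (mem_filter.1 hz).2.le 2
  have fin : ∀ m : ℝ, 0 ≤ m → C * (m * L + E.card * (m / v ^ 7)) * (m * L ^ 6) ≤ m ^ 2 * L ^ 8 :=
    fun m hm => by
    have b1 : E.card * (m / v ^ 7) ≤ m * L := by
      calc _ ≤ v ^ 7 * (m / v ^ 7) := by gcongr
        _ = m := by field_simp
        _ ≤ _ := le_mul_of_one_le_right hm hL
    calc _ ≤ C * (m * L + m * L) * (m * L ^ 6) := by gcongr
      _ = 2 * C * (m ^ 2 * L ^ 7) := by ring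
      _ ≤ L * (m ^ 2 * L ^ 7) := by gcongr
      _ = _ := by ring
  refine ⟨E, E1, (ha E E1).trans (fin s (by linarith)), (hb E E1).trans (fin l (by linarith)),
    fun x => (RF.IT T).filter fun u => ‖DP a (dy s) x u‖ ≤ s / v ^ 3, fun x hx =>
      ⟨fun u hu => ?_, ?_⟩⟩
  · rcases lt_or_ge (s / v ^ 3) ‖DP a (dy s) x u‖ with h | h
    · exact Or.inl (mem_filter.2 ⟨mem_product.2 ⟨hx, hu⟩, h⟩)
    · exact Or.inr (mem_filter.2 ⟨hu, h⟩)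
  have n1 : (N : ℝ) ≤ 4 * (s * l) := by exact_mod_cast hN.le
  have n2 : (s : ℝ) * l ≤ 8 * N := by exact_mod_cast hN'.le
  have n3 : √(N : ℝ) ≤ 2 * l := Real.sqrt_le_iff.2 ⟨by linarith, by nlinarith⟩
  have l5 : 1 ≤ L ^ 5 := one_le_pow₀ hL
  have n4 : (l : ℝ) + T ≤ 5 * l * L ^ 5 := by
    nlinarith [mul_le_mul_of_nonneg_right n3 (show 0 ≤ L ^ 5 by linarith)]
  calc _ ≤ ∑ u ∈ (RF.IT T).filter fun u => ‖DP a (dy s) x u‖ ≤ s / v ^ 3,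
        (s / v ^ 3) ^ 2 * ‖DP b (dy l) x u‖ ^ 2 := by
        refine sum_le_sum fun u hu => ?_
        rw [norm_mul, mul_pow]
        gcongr
        exact (mem_filter.1 hu).2
    _ ≤ ∑ u ∈ RF.IT T, (s / v ^ 3) ^ 2 * ‖DP b (dy l) x u‖ ^ 2 :=
        sum_le_sum_of_subset_of_nonneg (filter_subset _ _) fun _ _ _ => by positivity
    _ ≤ (s / v ^ 3) ^ 2 * (C₂ * (5 * l * L ^ 5) * (l * L ^ 6)) := by
        rw [← mul_sum]
        refine mul_le_mul_of_nonneg_left ((hm x).trans ?_) (by positivity)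
        gcongr
    _ = 5 * C₂ * L ^ 11 * (s * l) ^ 2 / v ^ 6 := by ring
    _ ≤ 5 * C₂ * L ^ 11 * (8 * N) ^ 2 / v ^ 6 := by gcongr
    _ = 320 * C₂ * L ^ 11 * (N ^ 2 / v ^ 6) := by ring
    _ ≤ v ^ 2 * (N ^ 2 / v ^ 6) :=
        mul_le_mul_of_nonneg_right (h4.trans (le_self_pow₀ hv (by norm_num))) (by positivity)
    _ = _ := by field_simp

lemma root_LV {N M : ℕ} (h : N ≤ M ^ 20) : (N : ℝ) ^ (1 / 20 : ℝ) ≤ M := by
  have h1 : (N : ℝ) ≤ (M : ℝ) ^ 20 := by exact_mod_cast h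
  refine (Real.rpow_le_rpow (Nat.cast_nonneg N) h1 (by norm_num)).trans (le_of_eq ?_)
  rw [← Real.rpow_natCast, ← Real.rpow_mul (Nat.cast_nonneg M)]
  norm_num

theorem s_LV (hH : StHM) (hV : StMV) : StLV := by
  obtain ⟨C, δ, hC, hδ, hH⟩ := hH 20
  obtain ⟨C₂, hC₂, hV⟩ := hV
  obtain ⟨θ, θ0, θ1, θ2⟩ : ∃ θ : ℝ, 0 < θ ∧ θ ≤ 1 / 800 ∧ θ ≤ δ / 140 :=
    ⟨min (1 / 800) (δ / 140), by positivity, min_le_left _ _, min_le_right _ _⟩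
  refine ⟨θ, θ0, by linarith, ?_⟩
  filter_upwards [ev_TT, ev_L 1, ev_L (2 * C), ev_log (2 * C) 7 θ0, ev_log (320 * C₂) 11 θ0,
    eventually_ge_atTop 1] with N hT l1 l2 l3 l4 hN M K R a b hM hK h1 h2 hR ha hb
  obtain ⟨t1, t2, -, t4⟩ := hT
  have n1 : (1 : ℝ) ≤ N := by exact_mod_cast hN
  have n0 : (0 : ℝ) < N := by linarith
  have t2' : 4 * (TT N : ℝ) + 2 ≤ N := by exact_mod_cast t2
  have v1 : 1 ≤ (N : ℝ) ^ θ := Real.one_le_rpow n1 θ0.le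
  have hp : ∀ m : ℕ, ((N : ℝ) ^ θ) ^ m = (N : ℝ) ^ (θ * m) := fun m => by
    rw [← Real.rpow_natCast, ← Real.rpow_mul n0.le]
  have one : ∀ m : ℕ, N ≤ m ^ 20 → 1 ≤ m := fun m hm => Nat.pos_of_ne_zero fun h => by
    rw [h] at hm
    omega
  have hH' : ∀ (m : ℕ) (c : ℕ → ℂ), N ≤ m ^ 20 → ∑ n ∈ dy m, ‖c n‖ ^ 2 ≤ m * Real.log N ^ 6 →
      ∀ E ⊆ XR R ×ˢ RF.IT (TT N), ∑ z ∈ E, ‖DP c (dy m) z.1 z.2‖ ^ 2 ≤
        C * (m * Real.log N + E.card * (m / ((N : ℝ) ^ θ) ^ 7)) * (m * Real.log N ^ 6) :=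
    fun m c hm hc E hE => by
    have m1 : (1 : ℝ) ≤ m := by exact_mod_cast one m hm
    have r1 := root_LV hm
    have r2 : R ^ 40 ≤ m := by
      have : (R : ℝ) ^ 40 ≤ m := by
        refine (pow_le_pow_left₀ (Nat.cast_nonneg R) hR 40).trans (le_trans ?_ r1)
        rw [hp]
        exact Real.rpow_le_rpow_of_exponent_le n1 (by push_cast; linarith)
      exact_mod_cast this
    have r3 : 4 * (TT N : ℝ) ≤ (m : ℝ) ^ 20 := by
      have : (N : ℝ) ≤ (m : ℝ) ^ 20 := by exact_mod_cast hm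
      linarith
    have r4 : (m : ℝ) ^ (1 - δ) ≤ m / ((N : ℝ) ^ θ) ^ 7 := by
      rw [Real.rpow_sub (by linarith), Real.rpow_one]
      refine div_le_div_of_nonneg_left (by linarith) (by positivity) ?_
      refine le_trans ?_ (Real.rpow_le_rpow (by positivity) r1 hδ.le)
      rw [hp, ← Real.rpow_mul n0.le]
      exact Real.rpow_le_rpow_of_exponent_le n1 (by push_cast; linarith)
    have r5 : Real.log (4 * TT N + 2) ≤ Real.log N := Real.log_le_log (by positivity) t2'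
    refine (hH m R (TT N) E c (one m hm) r2 r3 hE).trans ?_
    gcongr
  have hV' : ∀ (m : ℕ) (c : ℕ → ℂ), N ≤ m ^ 20 → ∑ n ∈ dy m, ‖c n‖ ^ 2 ≤ m * Real.log N ^ 6 →
      ∀ x, ∑ u ∈ RF.IT (TT N), ‖DP c (dy m) x u‖ ^ 2 ≤
        C₂ * (m + TT N) * (m * Real.log N ^ 6) := fun m c hm hc x =>
    (hV m (TT N) c x (one m hm) t1).trans (mul_le_mul_of_nonneg_left hc (by positivity))
  have e : (N : ℝ) ^ (2 - 4 * θ) = (N : ℝ) ^ 2 / ((N : ℝ) ^ θ) ^ 4 := by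
    rw [hp, Real.rpow_sub n0, Real.rpow_two, mul_comm θ]
    norm_num
  rw [e]
  rcases le_total M K with h | h
  · exact core_LV (one M hM) h v1 hC hC₂ l1 l3 l2 l4 h1 h2 t4 (hH' M a hM ha) (hH' K b hK hb)
      (hV' K b hK hb)
  · obtain ⟨E, E1, E2, E3, F, hF⟩ := core_LV (one K hK) h v1 hC hC₂ l1 l3 l2 l4
      (by rwa [mul_comm K]) (by rwa [mul_comm K]) t4 (hH' K b hK hb) (hH' M a hM ha)
      (hV' M a hM ha)
    refine ⟨E, E1, E3, E2, F, fun x hx => ⟨(hF x hx).1, ?_⟩⟩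
    simpa only [mul_comm] using (hF x hx).2

end Pool.Agent.MP_436a94_nt.A

end

section

/-!
A lower bound for the sieve density.
-/

set_option autoImplicit false

open Finset

namespace Pool.Agent.MP_436a94_nt.A

lemma one_Pr {p : ℝ} (hp : 3 ≤ p) :
    Real.exp (-(1 / p + 3 * (1 / (p - 2) - 1 / (p - 1)))) ≤ 1 - 1 / (p - 1) := by
  have h1 : 0 < p - 2 := by linarith
  have h2 : 0 < p - 1 := by linarith
  have h3 : 1 / (p - 2) ≤ 1 / p + 3 * (1 / (p - 2) - 1 / (p - 1)) := by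
    have e : 1 / p + 3 * (1 / (p - 2) - 1 / (p - 1)) - 1 / (p - 2) =
        (p + 2) / (p * (p - 1) * (p - 2)) := by
      field_simp
      ring
    have : 0 ≤ (p + 2) / (p * (p - 1) * (p - 2)) := by positivity
    linarith
  have h4 := Real.add_one_le_exp (1 / p + 3 * (1 / (p - 2) - 1 / (p - 1)))
  have e2 : 1 - 1 / (p - 1) = (1 / (p - 2) + 1)⁻¹ := by
    field_simp
    ring
  rw [Real.exp_neg, e2]
  exact inv_anti₀ (by positivity) (by linarith)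

lemma tele_Pr (z : ℕ) (hz : 2 ≤ z) :
    ∑ p ∈ Ioc 2 z, (1 / ((p : ℝ) - 2) - 1 / ((p : ℝ) - 1)) = 1 - 1 / ((z : ℝ) - 1) := by
  induction z, hz using Nat.le_induction with
  | base => norm_num
  | succ z hz ih =>
    rw [sum_Ioc_succ_top hz, ih]
    push_cast
    rw [show (z : ℝ) + 1 - 2 = z - 1 by ring]
    ring

lemma sum_Pr : ∃ C : ℝ, ∀ z : ℕ, 2 ≤ z →
    ∑ p ∈ (Ioc 2 z).filter Nat.Prime, (1 / p : ℝ) ≤ Real.log (Real.log z) + C := by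
  obtain ⟨y, hy⟩ : ∃ y : ℕ, 2 ^ 20 ≤ y := ⟨_, le_rfl⟩
  have hM := fun x => MP_88bd62_nt.U.stMert y x hy
  have y3 : 3 ≤ y := le_trans (by norm_num) hy
  clear hy
  have y1 : 1 ≤ Real.log y := by
    rw [Real.le_log_iff_exp_le (by exact_mod_cast (by omega : 0 < y))]
    exact (Real.exp_one_lt_d9.le.trans (by norm_num)).trans (by exact_mod_cast y3 : (3 : ℝ) ≤ y)
  have s1 : ∀ z ≤ y, ∑ p ∈ (Ioc 2 z).filter Nat.Prime, (1 / p : ℝ) ≤ y := fun z hz => by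
    refine (sum_le_card_nsmul _ _ 1 fun p hp => ?_).trans ?_
    · exact Nat.cast_inv_le_one p |>.trans' (one_div _).le
    · rw [nsmul_one]
      exact_mod_cast (card_filter_le _ _).trans (by rw [Nat.card_Ioc]; omega)
  refine ⟨y + 2, fun z hz => ?_⟩
  have l1 : Real.log 2 ≤ Real.log z := Real.log_le_log (by norm_num) (by exact_mod_cast hz)
  have l2 := Real.log_two_gt_d9
  rcases le_total z y with c | c
  · have a1 := Real.one_sub_inv_le_log_of_pos (x := Real.log z) (by linarith)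
    have a2 : (Real.log z)⁻¹ ≤ 2 := by
      rw [inv_le_comm₀ (by linarith) (by norm_num)]
      linarith
    linarith [s1 z c]
  · have a1 := hM z c
    have a2 : Real.log (Real.log z / Real.log y) ≤ Real.log (Real.log z) :=
      Real.log_le_log (div_pos (by linarith) (by linarith)) (div_le_self (by linarith) y1)
    have a3 : 1.42 / Real.log y ≤ 2 := by
      rw [div_le_iff₀ (by linarith)]
      linarith
    have e := sum_Ioc_consecutive (fun p : ℕ => if p.Prime then (1 / p : ℝ) else 0)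
      (show 2 ≤ y by omega) c
    have a4 := s1 y le_rfl
    rw [sum_filter] at a1 a4 ⊢
    linarith

theorem s_Pr : StPr := by
  obtain ⟨C, hC⟩ := sum_Pr
  refine ⟨Real.exp (-(C + 3)), Real.exp_pos _, fun z hz => ?_⟩
  have z2 : (2 : ℝ) ≤ z := by exact_mod_cast hz
  have l1 : 0 < Real.log z := Real.log_pos (by linarith)
  have h3 : ∀ p ∈ Ioc 2 z, (3 : ℝ) ≤ p := fun p hp => by exact_mod_cast (mem_Ioc.1 hp).1
  refine le_trans ?_ (prod_le_prod (fun p _ => (Real.exp_pos _).le)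
    fun p hp => one_Pr (h3 p (mem_filter.1 hp).1))
  have a1 : ∑ p ∈ (Ioc 2 z).filter Nat.Prime, (1 / ((p : ℝ) - 2) - 1 / ((p : ℝ) - 1)) ≤ 1 := by
    refine (sum_le_sum_of_subset_of_nonneg (filter_subset _ _) fun p hp _ => sub_nonneg.2
      (one_div_le_one_div_of_le (by linarith [h3 p hp]) (by linarith))).trans ?_
    rw [tele_Pr z hz]
    exact sub_le_self _ (div_nonneg zero_le_one (by linarith))
  rw [← Real.exp_sum, sum_neg_distrib, sum_add_distrib, ← mul_sum, div_eq_mul_inv,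
    ← Real.exp_log l1, ← Real.exp_neg, ← Real.exp_add, Real.exp_le_exp]
  linarith [hC z hz]

end Pool.Agent.MP_436a94_nt.A

end

section

/-!
From the mean value estimate and the sieve to almost all intervals.
-/

set_option autoImplicit false

open Finset Filter

namespace Pool.Agent.MP_436a94_nt.A

open Pool.Agent.MP_2a1f0e_nt Pool.Agent.MP_43e117_nt.PG DirichletCharacter

lemma G_AE (hA : StAdm) {T T₀ : ℕ} (h1 : 1 ≤ T₀) (h2 : T₀ ≤ T) (R t : ℕ) (I : Finset ℕ) :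
    ∑ r ∈ Ioc 1 R, 1 / (r.totient : ℝ) * ∑ χ ∈ pm r,
      ‖CS (fun n => th n * fej T (Real.log n - Real.log t)) I 1 χ‖ ≤
      ∑ x ∈ XR R, Mt T (ww T T₀) (DP (fun n => (th n : ℂ)) I) t x := by
  rw [XR, sum_sigma]
  refine le_trans (le_of_eq ?_) (sum_le_sum_of_subset_of_nonneg (s := Ioc 1 R)
    Ioc_subset_Icc_self fun r _ _ => sum_nonneg fun χ _ => Mt_nonneg _ _ _ _ _)
  refine sum_congr rfl fun r hr => ?_
  rw [mul_sum]
  refine sum_congr rfl fun χ _ => ?_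
  have hr1 : r ≠ 1 := (mem_Ioc.1 hr).1.ne'
  rw [Mt, phys, CS, filter_true_of_mem fun n _ => Nat.coprime_one_right n]
  congr 2
  refine sum_congr rfl fun n _ => ?_
  rw [(hA T T₀ h1 h2).2, if_neg hr1, sub_zero]
  push_cast
  ring

lemma S_AE (hA : StAdm) {T T₀ R : ℕ} (h1 : 1 ≤ T₀) (h2 : T₀ ≤ T) (hR : 1 ≤ R) (t : ℕ)
    (I : Finset ℕ) :
    ∑ n ∈ I, th n * fej T₀ (Real.log n - Real.log t) -
      ∑ x ∈ XR R, Mt T (ww T T₀) (DP (fun n => (th n : ℂ)) I) t x ≤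
      ∑ n ∈ I, th n * fej T (Real.log n - Real.log t) := by
  have hx : (⟨1, 1⟩ : CH) ∈ XR R := mem_XR.2 ⟨le_rfl, hR, isPrimitive_one_level_one⟩
  have h3 := single_le_sum (f := fun x => Mt T (ww T T₀) (DP (fun n => (th n : ℂ)) I) t x)
    (fun x _ => Mt_nonneg _ _ _ _ _) hx
  have h4 : Mt T (ww T T₀) (DP (fun n => (th n : ℂ)) I) t ⟨1, 1⟩ =
      |∑ n ∈ I, th n * fej T (Real.log n - Real.log t) -
        ∑ n ∈ I, th n * fej T₀ (Real.log n - Real.log t)| := by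
    rw [Mt, phys, Nat.totient_one, Nat.cast_one, div_one, one_mul, ← Real.norm_eq_abs,
      ← Complex.norm_real, ← sum_sub_distrib, Complex.ofReal_sum]
    congr 1
    refine sum_congr rfl fun n _ => ?_
    rw [(hA T T₀ h1 h2).2, if_pos rfl, val_one rfl]
    push_cast
    ring
  rw [h4] at h3
  linarith [neg_abs_le (∑ n ∈ I, th n * fej T (Real.log n - Real.log t) -
    ∑ n ∈ I, th n * fej T₀ (Real.log n - Real.log t))]

theorem s_AE (hM : StMean) (hS : StSv) (hA : StAdm) (hL : StLong) (hF : StFej) : StAE := by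
  classical
  obtain ⟨θ, θ0, θ1, hM⟩ := hM
  obtain ⟨al, c, al0, c0, hS⟩ := hS θ θ0 θ1
  refine ⟨al, c / 8, al0, by positivity, fun B => ?_⟩
  obtain ⟨A₀, hM⟩ := hM (B + 6)
  filter_upwards [hM, hS, hL (A₀ + 1), ev_TT, ev_L 12, ev_L (8 / c),
    ev_log 1 (A₀ + 1) (show (0 : ℝ) < 1 / 2 by norm_num), eventually_ge_atTop 1]
    with N hM hS hL hT l1 l2 l3 hN
  obtain ⟨t1, -, t3, -⟩ := hT
  have n1 : (1 : ℝ) ≤ N := by exact_mod_cast hN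
  set L := Real.log N with hLd
  have L0 : 0 < L := by linarith
  have p1 : 1 ≤ L ^ A₀ := one_le_pow₀ (by linarith)
  obtain ⟨T₀, a1, a2⟩ : ∃ T₀ : ℕ, 11 * L ^ A₀ ≤ T₀ ∧ (T₀ : ℝ) ≤ L ^ (A₀ + 1) := by
    refine ⟨⌈11 * L ^ A₀⌉₊, Nat.le_ceil _, (Nat.ceil_lt_add_one (by positivity)).le.trans ?_⟩
    rw [pow_succ]
    nlinarith
  have a3 : 1 ≤ T₀ := by
    have : (1 : ℝ) ≤ T₀ := by linarith
    exact_mod_cast this
  have a4 : T₀ ≤ TT N := by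
    rw [← Real.sqrt_eq_rpow, one_mul] at l3
    have : (T₀ : ℝ) ≤ TT N := by linarith
    exact_mod_cast this
  have a5 : (11 : ℝ) / T₀ ≤ 1 / L ^ A₀ := by
    rw [div_le_div_iff₀ (by linarith) (by linarith)]
    linarith
  have r1 : 1 ≤ ⌊(N : ℝ) ^ θ⌋₊ := Nat.le_floor (by
    rw [Nat.cast_one]
    exact Real.one_le_rpow n1 θ0.le)
  have key := hM ⌊(N : ℝ) ^ θ⌋₊ (11 / T₀) (ww (TT N) T₀) (Nat.floor_le (by positivity))
    (by positivity) a5 (hA _ _ a3 a4).1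
  rw [MS] at key
  set m : ℕ → ℝ := fun t => ∑ x ∈ XR ⌊(N : ℝ) ^ θ⌋₊, Mt (TT N) (ww (TT N) T₀)
    (DP (fun n => (th n : ℂ)) (Ioc N (8 * N))) t x with hm
  have m0 : ∀ t, 0 ≤ m t := fun t => sum_nonneg fun x _ => Mt_nonneg _ _ _ _ _
  have bad : ∀ t ∈ (Ico (2 * N) (4 * N)).filter fun t : ℕ => WS N al t < c / 8 * N / L,
      N / L ^ 6 ≤ m t := fun t ht => by
    obtain ⟨ht1, ht2⟩ := mem_filter.1 ht
    by_contra hc
    replace hc := not_le.1 hc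
    have b1 := hS (fun n => fej (TT N) (Real.log n - Real.log t)) fun n => (hF _ _ t1).1
    have b2 := G_AE hA a3 a4 ⌊(N : ℝ) ^ θ⌋₊ t (Ioc N (8 * N))
    have b3 := S_AE hA a3 a4 r1 t (Ioc N (8 * N))
    have b4 := hL T₀ a3 a2 t ht1
    have b5 : (N : ℝ) / L ^ 6 ≤ N / 4 :=
      div_le_div_of_nonneg_left (by linarith) (by norm_num)
        (le_trans (by linarith) (le_self_pow₀ (by linarith) (by norm_num)))
    have b6 : c / L * (N / 4) ≤ c / L * ∑ n ∈ Ioc N (8 * N),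
        th n * fej (TT N) (Real.log n - Real.log t) :=
      mul_le_mul_of_nonneg_left (by simp only [hm] at hc; linarith) (by positivity)
    have b7 : L ^ 4 * m t ≤ c / 8 * N / L := by
      refine (mul_le_mul_of_nonneg_left hc.le (by positivity)).trans ?_
      have e : L ^ 4 * (N / L ^ 6) = 1 / L * N / L := by field_simp
      have : 1 / L ≤ c / 8 := by
        rw [div_le_iff₀ c0] at l2
        rw [div_le_div_iff₀ L0 (by norm_num)]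
        linarith
      rw [e]
      gcongr
    have b8 := mul_le_mul_of_nonneg_left b2 (show 0 ≤ L ^ 4 by positivity)
    have e2 : c / L * (N / 4) = 2 * (c / 8 * N / L) := by ring
    unfold WS at ht2
    simp only [hm] at b7
    linarith
  have c1 := (card_nsmul_le_sum _ m _ bad).trans ((sum_le_sum_of_subset_of_nonneg
    (filter_subset _ _) fun t _ _ => m0 t).trans key)
  rw [nsmul_eq_mul, ← le_div_iff₀ (by positivity)] at c1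
  refine c1.trans (le_of_eq ?_)
  rw [pow_add]
  field_simp

end Pool.Agent.MP_436a94_nt.A

end

section

/-!
The identity of Vaughan with dyadic boxes.
-/

set_option autoImplicit false

open Finset Filter

namespace Pool.Agent.MP_436a94_nt.A

open Pool.Agent.MP_43e117_nt.PG Pool.Agent.MP_43e117_nt.PG.V0A ArithmeticFunction
open scoped ArithmeticFunction.zeta ArithmeticFunction.Moebius

/-- twist of an arithmetic function -/
def tw_Vau (f : ℕ → ℂ) (g : ArithmeticFunction ℂ) : ArithmeticFunction ℂ :=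
  ⟨fun n => g n * f n, by simp⟩

/-- its partial sums -/
noncomputable def F_Vau (f : ℕ → ℂ) (g : ArithmeticFunction ℂ) (x : ℕ) : ℂ :=
  ∑ n ∈ Ioc 0 x, g n * f n

section

variable {f : ℕ → ℂ} (hf : ∀ m k, 1 ≤ m → 1 ≤ k → f (m * k) = f m * f k)

include hf

lemma mul_Vau (g h : ArithmeticFunction ℂ) : tw_Vau f (g * h) = tw_Vau f g * tw_Vau f h := by
  ext n
  change (g * h) n * f n = _
  rw [mul_apply, mul_apply, sum_mul]
  refine sum_congr rfl fun p hp => ?_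
  obtain ⟨h1, h2⟩ := Nat.mem_divisorsAntidiagonal.1 hp
  rw [← h1] at h2
  change _ = g p.1 * f p.1 * (h p.2 * f p.2)
  rw [← h1, hf _ _ (Nat.pos_of_ne_zero (left_ne_zero_of_mul h2))
    (Nat.pos_of_ne_zero (right_ne_zero_of_mul h2))]
  ring

lemma sm_Vau (g h : ArithmeticFunction ℂ) (V x : ℕ) :
    F_Vau f (sm g V * h) x = ∑ d ∈ Icc 1 V, g d * f d * F_Vau f h (x / d) := by
  have e := sum_Ioc_mul_eq_sum_sum (tw_Vau f (sm g V)) (tw_Vau f h) x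
  rw [← mul_Vau hf] at e
  rw [← cut (fun d => g d * f d * F_Vau f h (x / d)) x V]
  · refine Eq.trans e (sum_congr rfl fun d _ => ?_)
    change sm g V d * f d * F_Vau f h (x / d) = _
    rw [sm_apply]
    split_ifs <;> simp
  · intro d hd
    rw [Nat.div_eq_of_lt hd]
    simp [F_Vau]

end

lemma sub_Vau (f : ℕ → ℂ) (g : ArithmeticFunction ℂ) {a b : ℕ} (h : a ≤ b) :
    ∑ n ∈ Ioc a b, g n * f n = F_Vau f g b - F_Vau f g a :=
  eq_sub_of_add_eq' (sum_Ioc_consecutive _ (Nat.zero_le a) h)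

lemma dy_Vau {a m : ℕ} (hm : 2 ≤ m) : m ∈ dy (2 ^ a) ↔ Nat.log 2 (m - 1) = a := by
  rw [dy, mem_Ioc, Nat.log_eq_iff (Or.inr ⟨by norm_num, by omega⟩), pow_succ]
  omega

lemma two_Vau (N i : ℕ) (f : ℕ → ℂ) :
    ∑ n ∈ Ioc N (8 * N), (bg LL (2 ^ i) * (bg (μ : ArithmeticFunction ℂ) (2 ^ i) * ζ)) n * f n =
      ∑ z ∈ BX N i, BI N (2 ^ z.1) (2 ^ z.2) La (vb (2 ^ i)) f := by
  have i1 : 1 ≤ 2 ^ i := Nat.one_le_two_pow
  set S := (Ioc (2 ^ i) (8 * N) ×ˢ Ioc (2 ^ i) (8 * N)).filter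
    fun p : ℕ × ℕ => p.1 * p.2 ∈ Ioc N (8 * N) with hS
  trans ∑ p ∈ S, La p.1 * vb (2 ^ i) p.2 * f (p.1 * p.2)
  · rw [← sum_fiberwise_of_maps_to (s := S) (t := Ioc N (8 * N)) (g := fun p => p.1 * p.2)
      fun p hp => (mem_filter.1 hp).2]
    refine sum_congr rfl fun n hn => ?_
    obtain ⟨n1, n2⟩ := mem_Ioc.1 hn
    rw [mul_apply, sum_mul]
    refine Eq.symm (sum_subset_zero_on_sdiff (fun p hp => ?_) (fun p hp => ?_) fun p hp => ?_)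
    · exact Nat.mem_divisorsAntidiagonal.2 ⟨(mem_filter.1 hp).2, by omega⟩
    · obtain ⟨p1, p2⟩ := mem_sdiff.1 hp
      obtain ⟨p3, p4⟩ := Nat.mem_divisorsAntidiagonal.1 p1
      have a1 : p.1 ≤ n := Nat.le_of_dvd (by omega) (Dvd.intro _ p3)
      have a2 : p.2 ≤ n := Nat.le_of_dvd (by omega) (Dvd.intro_left _ p3)
      by_cases c : 2 ^ i < p.1
      · have c2 : ¬ 2 ^ i < p.2 := fun c2 => p2 (mem_filter.2 ⟨mem_filter.2 ⟨mem_product.2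
          ⟨mem_Ioc.2 ⟨c, by omega⟩, mem_Ioc.2 ⟨c2, by omega⟩⟩, p3 ▸ hn⟩, p3⟩)
        rw [bz, vb, filter_false_of_mem fun d hd => by
          have := Nat.divisor_le hd
          omega]
        simp
      · rw [bg_apply, if_neg c]
        simp
    · obtain ⟨p1, p2⟩ := mem_filter.1 hp
      rw [bz, bg_apply, if_pos (mem_Ioc.1 (mem_product.1 (mem_filter.1 p1).1).1).1, p2]
      rfl
  · rw [← sum_fiberwise_of_maps_to (s := S) (t := BX N i)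
      (g := fun p => (Nat.log 2 (p.1 - 1), Nat.log 2 (p.2 - 1))) fun p hp => ?_]
    · refine sum_congr rfl fun z hz => ?_
      obtain ⟨z1, z2, z3⟩ := mem_filter.1 hz
      obtain ⟨z4, z5⟩ := mem_product.1 z1
      have a1 : 2 ^ i ≤ 2 ^ z.1 := Nat.pow_le_pow_right (by norm_num) (mem_Ico.1 z4).1
      have a2 : 2 ^ i ≤ 2 ^ z.2 := Nat.pow_le_pow_right (by norm_num) (mem_Ico.1 z5).1
      simp only [BI, sum_filter]
      rw [← sum_product', ← sum_filter, ← sum_filter]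
      refine sum_congr ?_ fun _ _ => rfl
      ext p
      simp only [hS, mem_filter, mem_product, Prod.ext_iff]
      constructor
      · rintro ⟨⟨⟨p1, p2⟩, p3⟩, p4, p5⟩
        have := mem_Ioc.1 p1
        have := mem_Ioc.1 p2
        exact ⟨⟨(dy_Vau (by omega)).2 p4, (dy_Vau (by omega)).2 p5⟩, p3⟩
      · rintro ⟨⟨p1, p2⟩, p3⟩
        have b1 := mem_Ioc.1 p1
        have b2 := mem_Ioc.1 p2
        have b3 := mem_Ioc.1 p3
        have b4 : p.1 ≤ p.1 * p.2 := Nat.le_mul_of_pos_right _ (by omega)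
        have b5 : p.2 ≤ p.1 * p.2 := Nat.le_mul_of_pos_left _ (by omega)
        exact ⟨⟨⟨mem_Ioc.2 ⟨by omega, by omega⟩, mem_Ioc.2 ⟨by omega, by omega⟩⟩, p3⟩,
          (dy_Vau (by omega)).1 p1, (dy_Vau (by omega)).1 p2⟩
    · obtain ⟨p1, p2⟩ := mem_filter.1 hp
      obtain ⟨p3, p4⟩ := mem_product.1 p1
      have key : ∀ m ∈ Ioc (2 ^ i) (8 * N), Nat.log 2 (m - 1) ∈ Ico i (Nat.log 2 N + 4) ∧
          2 ^ Nat.log 2 (m - 1) < m ∧ m ≤ 2 * 2 ^ Nat.log 2 (m - 1) := fun m hm => by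
        obtain ⟨m1, m2⟩ := mem_Ioc.1 hm
        refine ⟨mem_Ico.2 ⟨Nat.le_log_of_pow_le (by norm_num) (by omega),
          Nat.log_lt_of_lt_pow (by omega) ?_⟩, mem_Ioc.1 ((dy_Vau (by omega)).2 rfl)⟩
        have := Nat.lt_pow_succ_log_self (b := 2) (by norm_num) N
        rw [Nat.pow_succ] at this
        rw [pow_add]
        omega
      obtain ⟨a1, a2, a3⟩ := key _ p3
      obtain ⟨b1, b2, b3⟩ := key _ p4
      obtain ⟨c1, c2⟩ := mem_Ioc.1 p2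
      refine mem_filter.2 ⟨mem_product.2 ⟨a1, b1⟩, c1.trans_le ?_, lt_of_lt_of_le ?_ c2⟩
      · exact (Nat.mul_le_mul a3 b3).trans_eq (by ring)
      · exact Nat.mul_lt_mul'' a2 b2

theorem s_Vau : StVau := by
  intro N i f hi hf
  have h := congrArg (fun g : ArithmeticFunction ℂ => ∑ n ∈ Ioc N (8 * N), g n * f n)
    (vau (2 ^ i) (2 ^ i))
  simp only [ArithmeticFunction.add_apply, add_mul, sum_add_distrib, two_Vau] at h
  have n8 : N ≤ 8 * N := by omega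
  have e1 : ∑ n ∈ Ioc N (8 * N), sm LL (2 ^ i) n * f n = 0 := sum_eq_zero fun n hn => by
    rw [sm_apply, if_neg (by have := (mem_Ioc.1 hn).1; omega), zero_mul]
  have e2 : ∑ n ∈ Ioc N (8 * N), (sm (μ : ArithmeticFunction ℂ) (2 ^ i) * lg) n * f n =
      ∑ d ∈ Icc 1 (2 ^ i), (μ d : ℂ) * f d *
        ∑ n ∈ Ioc (N / d) (8 * N / d), (Real.log n : ℂ) * f n := by
    rw [sub_Vau f _ n8, sm_Vau hf, sm_Vau hf, ← sum_sub_distrib]
    refine sum_congr rfl fun d _ => ?_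
    rw [← mul_sub, ← sub_Vau f _ (Nat.div_le_div_right n8)]
    rfl
  have e3 : ∑ n ∈ Ioc N (8 * N),
      (sm (μ : ArithmeticFunction ℂ) (2 ^ i) * (sm LL (2 ^ i) * ζ)) n * f n =
      ∑ d ∈ Icc 1 (2 ^ i), ∑ e ∈ Icc 1 (2 ^ i), (μ d : ℂ) * La e * f d * f e *
        ∑ n ∈ Ioc (N / (d * e)) (8 * N / (d * e)), f n := by
    rw [sub_Vau f _ n8, sm_Vau hf, sm_Vau hf, ← sum_sub_distrib]
    refine sum_congr rfl fun d _ => ?_
    rw [← mul_sub, sm_Vau hf, sm_Vau hf, ← sum_sub_distrib, mul_sum]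
    refine sum_congr rfl fun e _ => ?_
    rw [← mul_sub, ← sub_Vau f _ (Nat.div_le_div_right (Nat.div_le_div_right n8)),
      Nat.div_div_eq_div_mul, Nat.div_div_eq_div_mul,
      sum_congr rfl (g := f) fun n hn => by
        rw [natCoe_apply, zeta_apply, if_neg (Nat.ne_zero_of_lt (mem_Ioc.1 hn).1), Nat.cast_one,
          one_mul], intCoe_apply, LL_apply, La]
    ring
  rw [e1, e2, e3] at h
  rw [TI]
  change ∑ n ∈ Ioc N (8 * N), LL n * f n = _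
  linear_combination h

end Pool.Agent.MP_436a94_nt.A

end
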