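import Pool.Agent.Mg.F436a94p.G58f7c4
import Pool.Agent.Mg.C853.Gbe42ac
import Pool.Agent.MP_e23604_nt.P.SGrow
import Pool.Agent.Mg.C853.G342b30
import Pool.Agent.Mg.C853.Gf8de24
import Pool.Agent.MP_e23604_nt.P.SPsi

set_option linter.all false

section

/-!
Partial summation for periodic coefficients.
-/

set_option autoImplicit false

open Finset Filter

namespace Pool.Agent.MP_436a94_nt.A

open Pool.Agent.MP_2a1f0e_nt Pool.Agent.MP_c853c5_nt

lemma abel {a : ℕ} (g c : ℕ → ℂ) (G : ℕ → ℝ) {B : ℝ} (hB0 : 0 ≤ B)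
    (hg : ∀ n, a ≤ n → ‖g (n + 1) - g n‖ ≤ G (n + 1) - G n) (b : ℕ) (hab : a ≤ b)
    (hB : ∀ L, a ≤ L → L ≤ b → ‖∑ n ∈ Ioc a L, c n‖ ≤ B) :
    ‖∑ n ∈ Ioc a b, g n * c n - g b * ∑ n ∈ Ioc a b, c n‖ ≤ B * (G b - G a) := by
  induction b, hab using Nat.le_induction with
  | base => simp
  | succ b hab ih =>
    have h1 := ih fun L h1 h2 => hB L h1 (by omega)
    have e : ∑ n ∈ Ioc a (b + 1), g n * c n - g (b + 1) * ∑ n ∈ Ioc a (b + 1), c n =
        (∑ n ∈ Ioc a b, g n * c n - g b * ∑ n ∈ Ioc a b, c n) -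
          (∑ n ∈ Ioc a b, c n) * (g (b + 1) - g b) := by
      rw [sum_Ioc_succ_top hab, sum_Ioc_succ_top hab]
      ring
    have h2 : ‖(∑ n ∈ Ioc a b, c n) * (g (b + 1) - g b)‖ ≤ B * (G (b + 1) - G b) := by
      rw [norm_mul]
      exact mul_le_mul (hB b hab (by omega)) (hg b hab) (norm_nonneg _) hB0
    rw [e]
    refine (norm_sub_le _ _).trans ?_
    linarith

lemma shift_Per {q : ℕ} {c : ℕ → ℂ} (hc : ∀ n, c (n + q) = c n) (a : ℕ) :
    ∑ n ∈ range q, c (a + n) = ∑ n ∈ range q, c n := by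
  induction a with
  | zero => simp
  | succ a ih =>
    have h1 := sum_range_succ (fun n => c (a + n)) q
    have h2 := sum_range_succ' (fun n => c (a + n)) q
    rw [hc, h2, add_zero, add_left_inj] at h1
    rw [← ih, ← h1]
    exact sum_congr rfl fun n _ => by rw [add_assoc, add_comm 1]

lemma psum_Per {q : ℕ} (hq : 1 ≤ q) {c : ℕ → ℂ} {β : ℝ} (hc : ∀ n, c (n + q) = c n)
    (hb : ∀ n, ‖c n‖ ≤ β) (h0 : ∑ n ∈ range q, c n = 0) (a l : ℕ) :
    ‖∑ n ∈ range l, c (a + n)‖ ≤ β * q := by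
  have β0 : 0 ≤ β := (norm_nonneg _).trans (hb 0)
  induction l using Nat.strong_induction_on with
  | _ l ih =>
    rcases le_or_gt l q with h | h
    · refine (norm_sum_le_of_le _ fun n _ => hb _).trans ?_
      rw [sum_const, card_range, nsmul_eq_mul, mul_comm]
      exact mul_le_mul_of_nonneg_left (by exact_mod_cast h) β0
    · obtain ⟨m, rfl⟩ : ∃ m, l = m + q := ⟨l - q, by omega⟩
      rw [sum_range_add]
      simp only [← add_assoc]
      rw [shift_Per hc, h0, add_zero]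
      exact ih m (by omega)

lemma psum_Per' {q : ℕ} (hq : 1 ≤ q) {c : ℕ → ℂ} {β : ℝ} (hc : ∀ n, c (n + q) = c n)
    (hb : ∀ n, ‖c n‖ ≤ β) (h0 : ∑ n ∈ range q, c n = 0) (a L : ℕ) :
    ‖∑ n ∈ Ioc a L, c n‖ ≤ β * q := by
  have := psum_Per hq hc hb h0 (a + 1) (L + 1 - (a + 1))
  rwa [← sum_Ico_eq_sum_range, Ico_add_one_add_one_eq_Ioc] at this

lemma pw_g (t x : ℝ) : GM.pw x t = Z.g_Ker t x := by
  unfold GM.pw Z.g_Ker
  congr 1
  push_cast
  ring

theorem s_Per : StPer := by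
  intro q ψ N M t hq hψ hN hM
  have q1 : (1 : ℝ) ≤ q := by exact_mod_cast hq
  have N0 : (0 : ℝ) < N := by exact_mod_cast hN
  have NM : (N : ℝ) ≤ M := by exact_mod_cast hM
  have q0 : (q : ℂ) ≠ 0 := by exact_mod_cast (by omega : q ≠ 0)
  set μ : ℂ := (∑ n ∈ range q, ψ n) / q with hμ
  have m1 : ‖μ‖ = mn q ψ := by rw [hμ, norm_div, Complex.norm_natCast, mn]
  have m2 : ‖μ‖ ≤ 1 := by
    rw [m1, mn, div_le_one (by linarith)]
    refine (norm_sum_le_of_le _ fun n _ => hψ.2 n).trans_eq ?_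
    simp
  have hB := psum_Per' hq (c := fun n => ψ n - μ) (β := 2) (fun n => by rw [hψ.1])
    (fun n => (norm_sub_le _ _).trans (by linarith [hψ.2 n])) (by
      rw [sum_sub_distrib, sum_const, card_range, nsmul_eq_mul, hμ]
      field_simp
      ring) N
  have h1 := abel (a := N) (fun n => GM.pw (n : ℝ) t) (fun n => ψ n - μ)
    (fun n => n * (|t| / N)) (B := 2 * q) (by positivity) (fun n hn => by
      have := Z.lip_Ker t N0 (show (N : ℝ) ≤ n by exact_mod_cast hn) (y := (n + 1 : ℕ))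
        (by push_cast; linarith) (by push_cast; linarith)
      rw [norm_sub_rev, pw_g, pw_g]
      refine this.trans_eq ?_
      push_cast
      ring) M hM fun L _ _ => hB L
  have h2 : ‖GM.pw (M : ℝ) t * ∑ n ∈ Ioc N M, (ψ n - μ)‖ ≤ 2 * q := by
    rw [norm_mul, GM.norm_pw, one_mul]
    exact hB M
  have h3 := Z.tele_Ker t hN M hM
  have h4 := Z.normF_Ker t (Nat.cast_nonneg M)
  have h5 := Z.normF_Ker t (Nat.cast_nonneg N)
  have h6 : ‖Z.ES N M t‖ ≤ 3 * M / (1 + |t|) + (M - N) * (|t| / N) := by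
    have a1 := norm_le_norm_sub_add (Z.ES N M t) (Z.F_Ker t M - Z.F_Ker t N)
    have a2 := norm_sub_le (Z.F_Ker t M) (Z.F_Ker t N)
    have a3 : 3 / 2 * (M : ℝ) / (1 + |t|) + 3 / 2 * (N : ℝ) / (1 + |t|) ≤ 3 * M / (1 + |t|) := by
      rw [← add_div]
      exact div_le_div_of_nonneg_right (by linarith) (by positivity)
    linarith
  have e : EP ψ N M t = μ * Z.ES N M t + ∑ n ∈ Ioc N M, GM.pw (n : ℝ) t * (ψ n - μ) := by
    rw [EP, Z.ES, mul_sum, ← sum_add_distrib]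
    refine sum_congr rfl fun n hn => ?_
    rw [← Z.pw_eq_cpow (Nat.zero_lt_of_lt (mem_Ioc.1 hn).1)]
    ring
  have h7 := norm_le_norm_sub_add (∑ n ∈ Ioc N M, GM.pw (n : ℝ) t * (ψ n - μ))
    (GM.pw (M : ℝ) t * ∑ n ∈ Ioc N M, (ψ n - μ))
  have p0 : 0 ≤ |t| / N := by positivity
  have h8 : ‖μ * Z.ES N M t‖ ≤ mn q ψ * (3 * M / (1 + |t|)) + M * (|t| / N) := by
    rw [norm_mul, ← m1]
    have := mul_le_mul_of_nonneg_left h6 (norm_nonneg μ)
    have a1 : ‖μ‖ * ((M - N) * (|t| / N)) ≤ 1 * (M * (|t| / N)) :=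
      mul_le_mul m2 (mul_le_mul_of_nonneg_right (by linarith) p0) (mul_nonneg (by linarith) p0)
        zero_le_one
    linarith
  have e2 : |t| * M / N = M * (|t| / N) := by ring
  have p1 : 0 ≤ M * (|t| / N) := by positivity
  have p2 : 0 ≤ N * (|t| / N) := by positivity
  rw [e, e2]
  refine (norm_add_le _ _).trans ?_
  nlinarith [mul_le_mul_of_nonneg_right q1 p1, mul_nonneg (zero_le_one.trans q1) p2]

end Pool.Agent.MP_436a94_nt.A

end

section

/-!
The linear terms.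
-/

set_option autoImplicit false

open Finset Filter

namespace Pool.Agent.MP_436a94_nt.A

open Pool.Agent.MP_2a1f0e_nt Pool.Agent.MP_43e117_nt.PG DirichletCharacter

lemma per_chi {q : ℕ} (χ : DirichletCharacter ℂ q) : Per q fun n => χ n :=
  ⟨fun n => by simp, fun n => χ.norm_le_one _⟩

lemma mn_chi {q : ℕ} [NeZero q] {χ : DirichletCharacter ℂ q} (h : χ ≠ 1) :
    mn q (fun n => χ n) = 0 := by
  rw [mn, MP_e23604_nt.P.xSGrow_sum_range (fun a => χ a), MulChar.sum_eq_zero_of_ne_one h]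
  simp

lemma lin_T1 (hP : StPer) {N R D : ℕ} {x : CH} (hx : x ∈ XR R) (u : ℤ) (hD : 1 ≤ D)
    (hDN : D ≤ N) (L : ℕ) (h1 : N / D ≤ L) (h2 : L ≤ 8 * N / D) :
    ‖∑ n ∈ Ioc (N / D) L, cw x u n‖ ≤
      (if x.1 = 1 then 24 * N / (1 + |(u : ℝ)|) else 0) * (1 / D) + 75 * R * (1 + |(u : ℝ)|) := by
  obtain ⟨x1, x2, -⟩ := mem_XR.1 hx
  have a1 : 1 ≤ N / D := Nat.div_pos hDN hD
  have a2 : 8 * N / D ≤ 15 * (N / D) := by
    have b1 : 8 * N / D < 8 * (N / D + 1) := by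
      rw [Nat.div_lt_iff_lt_mul hD]
      have := Nat.lt_div_mul_add (a := N) hD
      nlinarith
    omega
  have h := hP x.1 (fun n => x.2 n) (N / D) L u x1 (per_chi _) a1 h1
  have a3 : (L : ℝ) ≤ 15 * (N / D : ℕ) := by exact_mod_cast h2.trans a2
  have a4 : (L : ℝ) ≤ 8 * N / D := by
    refine le_trans (by exact_mod_cast h2) (Nat.cast_div_le.trans_eq ?_)
    push_cast
    rfl
  have a5 : (0 : ℝ) < (N / D : ℕ) := by exact_mod_cast a1
  have a6 : (x.1 : ℝ) ≤ R := by exact_mod_cast x2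
  have u0 := abs_nonneg (u : ℝ)
  refine h.trans (add_le_add ?_ ?_)
  · split_ifs with c
    · have b1 : mn x.1 (fun n => x.2 n) ≤ 1 := by
        rw [mn, div_le_one (by exact_mod_cast x1)]
        refine (norm_sum_le_of_le _ fun n _ => x.2.norm_le_one _).trans_eq ?_
        simp
      calc _ ≤ 1 * (3 * (8 * N / D) / (1 + |(u : ℝ)|)) := by gcongr
        _ = _ := by ring
    · have : NeZero x.1 := ⟨by omega⟩
      rw [mn_chi (ne_one_of_XR hx c)]
      simp
  · have b1 : |(u : ℝ)| * L / (N / D : ℕ) ≤ 15 * |(u : ℝ)| := by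
      rw [div_le_iff₀ a5]
      nlinarith
    calc _ ≤ 5 * R * (15 * (1 + |(u : ℝ)|)) := by
          gcongr
          linarith
      _ = _ := by ring

lemma harm_T1 {U N : ℕ} (hU : 1 ≤ U) (h : U ≤ N) :
    ∑ d ∈ Icc 1 U, (1 / d : ℝ) ≤ 1 + Real.log N := by
  have h2 := harmonic_le_one_add_log U
  rw [harmonic_eq_sum_Icc] at h2
  push_cast at h2
  simp only [one_div]
  exact h2.trans (add_le_add le_rfl
    (Real.log_le_log (by exact_mod_cast hU) (by exact_mod_cast h)))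

theorem s_T1 (hP : StPer) : StT1 := by
  refine ⟨525, by norm_num, fun N U R x hx u hU hN => ?_⟩
  have UN : U ≤ N := (Nat.le_self_pow two_ne_zero U).trans hN
  have N1 : 1 ≤ N := hU.trans UN
  have n0 : (0 : ℝ) < N := by exact_mod_cast N1
  have U1 : (1 : ℝ) ≤ U := by exact_mod_cast hU
  have hl := fun D => lin_T1 hP (N := N) (D := D) hx u
  have hh := harm_T1 hU UN
  have l0 := Real.log_natCast_nonneg N
  have u0 := abs_nonneg (u : ℝ)
  have eP : (if x.1 = 1 then 525 * N * (1 + Real.log N) ^ 3 / (1 + |(u : ℝ)|) else 0) =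
      525 / 24 * ((if x.1 = 1 then 24 * N / (1 + |(u : ℝ)|) else 0) * (1 + Real.log N) ^ 3) := by
    split_ifs <;> ring
  have eQ : 525 * (U : ℝ) ^ 2 * R * (1 + |(u : ℝ)|) * (1 + Real.log N) =
      7 * (U ^ 2 * (75 * R * (1 + |(u : ℝ)|)) * (1 + Real.log N)) := by ring
  have P0 : 0 ≤ (if x.1 = 1 then 24 * N / (1 + |(u : ℝ)|) else 0 : ℝ) := by positivity
  have Q0 : 0 ≤ 75 * R * (1 + |(u : ℝ)|) := by positivity
  rw [eP, eQ]
  generalize (if x.1 = 1 then 24 * N / (1 + |(u : ℝ)|) else 0 : ℝ) = P at *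
  generalize 75 * R * (1 + |(u : ℝ)|) = Q at *
  have mu : ∀ d : ℕ, ‖(ArithmeticFunction.moebius d : ℂ)‖ ≤ 1 := fun d => by
    rw [Complex.norm_intCast]
    exact_mod_cast ArithmeticFunction.abs_moebius_le_one
  have n8 : N ≤ 8 * N := by omega
  have H1 : 1 ≤ 1 + Real.log N := by linarith
  have k1 : ‖∑ d ∈ Icc 1 U, (ArithmeticFunction.moebius d : ℂ) * cw x u d *
      ∑ n ∈ Ioc (N / d) (8 * N / d), (Real.log n : ℂ) * cw x u n‖ ≤
      6 * (1 + Real.log N) * (P * (1 + Real.log N) + U * Q) := by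
    refine le_trans (norm_sum_le_of_le _
      (n := fun d : ℕ => 6 * (1 + Real.log N) * (P * (1 / d) + Q)) fun d hd => ?_) ?_
    · obtain ⟨d1, d2⟩ := mem_Icc.1 hd
      have a1 : 1 ≤ N / d := Nat.div_pos (d2.trans UN) d1
      have a2 : N / d ≤ 8 * N / d := Nat.div_le_div_right n8
      have B0 : 0 ≤ P * (1 / d) + Q := by positivity
      have a3 := abel (a := N / d) (fun n => (Real.log n : ℂ)) (cw x u) (fun n => Real.log n) B0
        (fun n hn => by
          rw [← Complex.ofReal_sub, Complex.norm_real, Real.norm_of_nonneg]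
          exact sub_nonneg.2 (Real.log_le_log (by exact_mod_cast (by omega : 0 < n))
            (by push_cast; linarith))) _ a2 (hl d d1 (d2.trans UN))
      have a4 := hl d d1 (d2.trans UN) _ a2 le_rfl
      have a5 : Real.log (8 * N / d : ℕ) ≤ 3 * (1 + Real.log N) := by
        have b1 : Real.log (8 * N / d : ℕ) ≤ Real.log (8 * N) := Real.log_le_log
          (by exact_mod_cast (by omega : 0 < 8 * N / d))
          (by exact_mod_cast Nat.div_le_self _ _)
        rw [Real.log_mul (by norm_num) n0.ne', show (8 : ℝ) = 2 ^ 3 by norm_num,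
          Real.log_pow] at b1
        push_cast at b1
        linarith [Real.log_two_lt_d9]
      have a6 := Real.log_natCast_nonneg (8 * N / d)
      have a7 := Real.log_natCast_nonneg (N / d)
      have a8 := norm_le_norm_sub_add
        (∑ n ∈ Ioc (N / d) (8 * N / d), (Real.log n : ℂ) * cw x u n)
        ((Real.log (8 * N / d : ℕ) : ℂ) * ∑ n ∈ Ioc (N / d) (8 * N / d), cw x u n)
      rw [norm_mul, Complex.norm_real, Real.norm_of_nonneg a6] at a8
      rw [norm_mul, norm_mul]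
      refine (mul_le_of_le_one_left (norm_nonneg _)
        (mul_le_one₀ (mu d) (norm_nonneg _) (norm_cw x u d))).trans ?_
      nlinarith [mul_le_mul_of_nonneg_left a4 a6, mul_le_mul_of_nonneg_left a5 B0,
        mul_nonneg B0 a7]
    · rw [← mul_sum, sum_add_distrib, ← mul_sum, sum_const, Nat.card_Icc, Nat.add_sub_cancel,
        nsmul_eq_mul]
      gcongr
  have k2 : ‖∑ d ∈ Icc 1 U, ∑ e ∈ Icc 1 U, (ArithmeticFunction.moebius d : ℂ) * La e *
      cw x u d * cw x u e * ∑ n ∈ Ioc (N / (d * e)) (8 * N / (d * e)), cw x u n‖ ≤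
      (1 + Real.log N) * (P * (1 + Real.log N) ^ 2 + U ^ 2 * Q) := by
    refine le_trans (norm_sum_le_of_le _ (n := fun d : ℕ => ∑ e ∈ Icc 1 U,
      (1 + Real.log N) * (P * (1 / d * (1 / e)) + Q)) fun d hd =>
        norm_sum_le_of_le _ fun e he => ?_) ?_
    · obtain ⟨d1, d2⟩ := mem_Icc.1 hd
      obtain ⟨e1, e2⟩ := mem_Icc.1 he
      have a1 := hl (d * e) (Nat.mul_pos d1 e1) ((Nat.mul_le_mul d2 e2).trans (by rwa [← sq])) _
        (Nat.div_le_div_right n8) le_rfl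
      have a2 : ‖La e‖ ≤ 1 + Real.log N := by
        rw [La, Complex.norm_real, Real.norm_of_nonneg ArithmeticFunction.vonMangoldt_nonneg]
        have := Real.log_le_log (by exact_mod_cast e1 : (0 : ℝ) < e)
          (by exact_mod_cast e2.trans UN : (e : ℝ) ≤ N)
        linarith [ArithmeticFunction.vonMangoldt_le_log (n := e)]
      rw [Nat.cast_mul, ← one_div_mul_one_div] at a1
      have a3 := mu d
      have a4 := norm_cw x u d
      have a5 := norm_cw x u e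
      rw [norm_mul, norm_mul, norm_mul, norm_mul]
      calc _ ≤ 1 * (1 + Real.log N) * 1 * 1 * (P * (1 / d * (1 / e)) + Q) := by gcongr
        _ = _ := by ring
    · simp only [← mul_sum, sum_add_distrib, sum_const, Nat.card_Icc, Nat.add_sub_cancel,
        nsmul_eq_mul, ← sum_mul]
      have s0 : 0 ≤ ∑ d ∈ Icc 1 U, (1 / d : ℝ) := by positivity
      refine mul_le_mul_of_nonneg_left (add_le_add ?_ (le_of_eq (by ring))) (by linarith)
      rw [sq]
      gcongr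
  refine (norm_sub_le _ _).trans ?_
  generalize 1 + Real.log N = H at *
  have c1 : P * H ^ 2 ≤ P * H ^ 3 :=
    mul_le_mul_of_nonneg_left (pow_le_pow_right₀ H1 (by norm_num)) P0
  have c2 : U * Q * H ≤ U ^ 2 * Q * H := by
    gcongr
    exact le_self_pow₀ U1 two_ne_zero
  have c3 : 0 ≤ P * H ^ 3 := by positivity
  nlinarith

end Pool.Agent.MP_436a94_nt.A

end

section

/-!
The tail of a Dirichlet L-series.
-/

set_option autoImplicit false

open Complex Finset Filter Topology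

noncomputable section

namespace Pool.Agent.MP_436a94_nt.A

open Pool.Agent.MP_c853c5_nt DirichletCharacter

lemma df_LT {s : ℂ} {a y : ℝ} (ha : 0 < a) (hs : a ≤ s.re) (hy : 1 ≤ y) :
    ‖(y : ℂ) ^ (-s) - ((y + 1 : ℝ) : ℂ) ^ (-s)‖ ≤ ‖s‖ * ((y ^ (-a) - (y + 1) ^ (-a)) / a) := by
  have hp : ∀ u ∈ Set.Icc (0 : ℝ) 1, 1 ≤ y + 1 - u := fun u hu => by linarith [hu.2]
  have hd : ∀ x ∈ Set.Icc (0 : ℝ) 1, HasDerivAt
      (fun u : ℝ => ((y + 1 - u : ℝ) : ℂ) ^ (-s) - ((y + 1 : ℝ) : ℂ) ^ (-s))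
      (s * ((y + 1 - x : ℝ) : ℂ) ^ (-s - 1)) x := fun x hx =>
    ((Z.cp_EM (-s) (by linarith [hp x hx])).sub_const _).congr_deriv (by ring)
  have hB : ∀ x ∈ Set.Icc (0 : ℝ) 1, HasDerivAt
      (fun u : ℝ => ‖s‖ * (((y + 1 - u) ^ (-a) - (y + 1) ^ (-a)) / a))
      (‖s‖ * (y + 1 - x) ^ (-a - 1)) x := fun x hx => by
    have h1 : HasDerivAt (fun u : ℝ => y + 1 - u) (-1) x := by
      simpa using (hasDerivAt_id x).const_sub (y + 1)
    have h2 := h1.rpow_const (p := -a) (Or.inl (by linarith [hp x hx]))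
    refine (((h2.sub_const ((y + 1) ^ (-a))).div_const a).const_mul ‖s‖).congr_deriv ?_
    field_simp
  have h := image_norm_le_of_norm_deriv_right_le_deriv_boundary'
    (f := fun u : ℝ => ((y + 1 - u : ℝ) : ℂ) ^ (-s) - ((y + 1 : ℝ) : ℂ) ^ (-s))
    (f' := fun x => s * ((y + 1 - x : ℝ) : ℂ) ^ (-s - 1)) (a := 0) (b := 1)
    (fun x hx => (hd x hx).continuousAt.continuousWithinAt)
    (fun x hx => (hd x (Set.Ico_subset_Icc_self hx)).hasDerivWithinAt)
    (B := fun u : ℝ => ‖s‖ * (((y + 1 - u) ^ (-a) - (y + 1) ^ (-a)) / a))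
    (B' := fun x => ‖s‖ * (y + 1 - x) ^ (-a - 1)) (by simp)
    (fun x hx => (hB x hx).continuousAt.continuousWithinAt)
    (fun x hx => (hB x (Set.Ico_subset_Icc_self hx)).hasDerivWithinAt) (fun x hx => by
      have h1 := hp x (Set.Ico_subset_Icc_self hx)
      rw [norm_mul, norm_cpow_eq_rpow_re_of_pos (by linarith)]
      refine mul_le_mul_of_nonneg_left (Real.rpow_le_rpow_of_exponent_le h1 ?_) (norm_nonneg _)
      simp only [sub_re, neg_re, one_re]
      linarith) (x := 1) ⟨zero_le_one, le_rfl⟩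
  simpa only [add_sub_cancel_right] using h

/-- the terms after partial summation -/
def V_LT (c : ℕ → ℂ) (N m : ℕ) (s : ℂ) : ℂ :=
  (∑ n ∈ Ioc N (N + m), c n) *
    ((((N : ℝ) + m : ℝ) : ℂ) ^ (-s) - (((N : ℝ) + m + 1 : ℝ) : ℂ) ^ (-s))

lemma bd_LT {c : ℕ → ℂ} {B : ℝ} {N : ℕ} (hB : ∀ L, ‖∑ n ∈ Ioc N L, c n‖ ≤ B) {s : ℂ} {a : ℝ}
    (ha : 0 < a) (hs : a ≤ s.re) (hN : 1 ≤ N) (m : ℕ) :
    ‖V_LT c N m s‖ ≤ B * (‖s‖ * ((((N : ℝ) + m) ^ (-a) - ((N : ℝ) + m + 1) ^ (-a)) / a)) := by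
  have hN' : (1 : ℝ) ≤ N := by exact_mod_cast hN
  have hm : (0 : ℝ) ≤ m := m.cast_nonneg
  rw [V_LT, norm_mul]
  exact mul_le_mul (hB _) (df_LT ha hs (by linarith)) (norm_nonneg _)
    ((norm_nonneg _).trans (hB 0))

lemma gt_LT {q : ℕ} [NeZero q] {χ : DirichletCharacter ℂ q} {N : ℕ}
    (hB : ∀ L, ‖∑ n ∈ Ioc N L, χ n‖ ≤ q) {s : ℂ} (hs : 1 < s.re) (hN : 1 ≤ N) :
    ∑' m : ℕ, V_LT (fun n => χ n) N m s =
      LFunction χ s - ∑ n ∈ Icc 1 N, χ n * (n : ℂ) ^ (-s) := by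
  have hN' : (1 : ℝ) ≤ N := by exact_mod_cast hN
  have hsum : Summable fun m : ℕ => V_LT (fun n => χ n) N m s :=
    Summable.of_norm_bounded (((Z.tel_EM (a := s.re) (y := (N : ℝ)) (by linarith)
      (by linarith)).summable.mul_left _).mul_left _) (bd_LT hB (by linarith) le_rfl hN)
  have key : ∀ M : ℕ, ∑ m ∈ range M, V_LT (fun n => χ n) N m s =
      ∑ n ∈ Icc 1 (N + M), χ n * (n : ℂ) ^ (-s) - ∑ n ∈ Icc 1 N, χ n * (n : ℂ) ^ (-s) -
        (∑ n ∈ Ioc N (N + M), χ n) * (((N : ℝ) + M : ℝ) : ℂ) ^ (-s) := by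
    intro M
    induction M with
    | zero => simp
    | succ M ih =>
      rw [sum_range_succ, ih, ← add_assoc N, sum_Icc_succ_top (by omega),
        sum_Ioc_succ_top (by omega), V_LT]
      push_cast
      rw [← add_assoc]
      ring
  have hz : Tendsto (fun M : ℕ => ∑ n ∈ Icc 1 (N + M), χ n * (n : ℂ) ^ (-s)) atTop
      (𝓝 (LFunction χ s)) := by
    have h := (LSeriesSummable_of_one_lt_re χ hs).hasSum.tendsto_sum_nat
    rw [LFunction_eq_LSeries χ hs]
    refine (h.comp (tendsto_add_atTop_nat (N + 1))).congr fun M => ?_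
    simp only [Function.comp]
    rw [range_eq_Ico, sum_eq_sum_Ico_succ_bot (by omega), LSeries.term_zero, zero_add,
      show M + (N + 1) = N + M + 1 by ring]
    refine sum_congr rfl fun n hn => ?_
    have := (mem_Icc.1 hn).1
    rw [LSeries.term_of_ne_zero (by omega), cpow_neg, div_eq_mul_inv]
  have hA : Tendsto (fun M : ℕ => (∑ n ∈ Ioc N (N + M), χ n) * (((N : ℝ) + M : ℝ) : ℂ) ^ (-s))
      atTop (𝓝 0) := by
    have h1 : Tendsto (fun M : ℕ => (N : ℝ) + M) atTop atTop :=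
      tendsto_atTop_add_const_left _ _ tendsto_natCast_atTop_atTop
    have h2 := ((tendsto_rpow_neg_atTop (y := s.re) (by linarith)).comp h1).const_mul (q : ℝ)
    rw [mul_zero] at h2
    refine squeeze_zero_norm (fun M => ?_) h2
    rw [norm_mul, norm_cpow_eq_rpow_re_of_pos (by positivity), neg_re]
    exact mul_le_mul_of_nonneg_right (hB _) (by positivity)
  have h := (hz.sub_const (∑ n ∈ Icc 1 N, χ n * (n : ℂ) ^ (-s))).sub hA
  rw [sub_zero] at h
  exact tendsto_nhds_unique hsum.hasSum.tendsto_sum_nat (h.congr fun M => (key M).symm)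

lemma eq_LT {q : ℕ} [NeZero q] {χ : DirichletCharacter ℂ q} (hχ : χ ≠ 1) {N : ℕ}
    (hB : ∀ L, ‖∑ n ∈ Ioc N L, χ n‖ ≤ q) {s : ℂ} (hs : 0 < s.re) (hN : 1 ≤ N) :
    ∑' m : ℕ, V_LT (fun n => χ n) N m s =
      LFunction χ s - ∑ n ∈ Icc 1 N, χ n * (n : ℂ) ^ (-s) := by
  have hN' : (1 : ℝ) ≤ N := by exact_mod_cast hN
  set B := ‖s‖ + 3 with hB'
  have hB0 : 3 ≤ B := by linarith [norm_nonneg s]
  set a := min (s.re / 2) 1 with ha
  have ha0 : 0 < a := lt_min (by linarith) one_pos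
  have ha1 : a ≤ 1 := min_le_right _ _
  have ha2 : a < s.re := (min_le_left _ _).trans_lt (by linarith)
  set D : Set ℂ := {z | a < z.re} ∩ Metric.ball 0 B with hD
  have ho : IsOpen D := (isOpen_lt continuous_const continuous_re).inter Metric.isOpen_ball
  have hc : Convex ℝ D := (convex_halfSpace_re_gt _).inter (convex_ball _ _)
  have h1 : DifferentiableOn ℂ (fun z => ∑' m : ℕ, V_LT (fun n => χ n) N m z) D := by
    refine differentiableOn_tsum_of_summable_norm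
      (((Z.tel_EM (a := a) (y := (N : ℝ)) ha0
        (by linarith)).summable.mul_left B).mul_left (q : ℝ))
      (fun m => Differentiable.differentiableOn ?_) ho fun m z hz => ?_
    · have hm : (0 : ℝ) ≤ m := m.cast_nonneg
      exact ((Z.pow_EM (ofReal_ne_zero.2 (by linarith)) (by fun_prop)).sub
        (Z.pow_EM (ofReal_ne_zero.2 (by linarith)) (by fun_prop))).const_mul _
    · have hm : (0 : ℝ) ≤ m := m.cast_nonneg
      have hz1 : a < z.re := hz.1
      have hz2 : ‖z‖ ≤ B := (mem_ball_zero_iff.1 hz.2).le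
      refine (bd_LT hB ha0 hz1.le hN m).trans ?_
      have a5 : 0 ≤ (((N : ℝ) + m) ^ (-a) - ((N : ℝ) + m + 1) ^ (-a)) / a :=
        div_nonneg (sub_nonneg.2
          (Real.rpow_le_rpow_of_nonpos (by linarith) (by linarith) (by linarith))) ha0.le
      gcongr
  have h2 : Differentiable ℂ fun z => LFunction χ z - ∑ n ∈ Icc 1 N, χ n * (n : ℂ) ^ (-z) := by
    refine (differentiable_LFunction hχ).sub (Differentiable.fun_sum fun n hn =>
      (Z.pow_EM ?_ (by fun_prop)).const_mul _)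
    have := (mem_Icc.1 hn).1
    exact_mod_cast (by omega : n ≠ 0)
  have h2D : (2 : ℂ) ∈ D :=
    ⟨by show a < (2 : ℂ).re; norm_num; linarith, by rw [mem_ball_zero_iff]; norm_num; linarith⟩
  refine (h1.analyticOnNhd ho).eqOn_of_preconnected_of_eventuallyEq
    (h2.differentiableOn.analyticOnNhd ho) hc.isPreconnected h2D ?_
    ⟨ha2, by rw [mem_ball_zero_iff]; linarith⟩
  filter_upwards [(isOpen_lt continuous_const continuous_re).mem_nhds
    (show (2 : ℂ) ∈ {z : ℂ | 1 < z.re} by norm_num)] with z hz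
  exact gt_LT hB hz hN

theorem s_LT : StLT := by
  intro q _ χ hχ N s hN hs
  have hN' : (1 : ℝ) ≤ N := by exact_mod_cast hN
  have hB : ∀ L, ‖∑ n ∈ Ioc N L, χ n‖ ≤ q := fun L => by
    have := psum_Per' (q := q) NeZero.one_le (c := fun n => χ n) (β := 1) (per_chi χ).1
      (per_chi χ).2 (by
        rw [MP_e23604_nt.P.xSGrow_sum_range (fun a => χ a), MulChar.sum_eq_zero_of_ne_one hχ]) N L
    rwa [one_mul] at this
  have h1 := tsum_of_norm_bounded (((Z.tel_EM (a := s.re) (y := (N : ℝ)) hs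
    (by linarith)).mul_left ‖s‖).mul_left (q : ℝ)) (bd_LT hB hs le_rfl hN)
  rw [eq_LT hχ hB hs hN] at h1
  refine h1.trans ?_
  have a1 : 0 ≤ (q : ℝ) * (N : ℝ) ^ (-s.re) := by positivity
  have a2 : 0 ≤ ‖s‖ / s.re := by positivity
  have e : (q : ℝ) * (‖s‖ * ((N : ℝ) ^ (-s.re) / s.re)) =
      (q : ℝ) * (N : ℝ) ^ (-s.re) * (‖s‖ / s.re) := by ring
  rw [e]
  nlinarith [mul_nonneg a1 a2]

end Pool.Agent.MP_436a94_nt.A

end
end

section

/-!
Growth of L-functions close to the line of real part one.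
-/

set_option autoImplicit false

open Finset Filter

namespace Pool.Agent.MP_436a94_nt.A

open Pool.Agent.MP_2a1f0e_nt Pool.Agent.MP_c853c5_nt DirichletCharacter

lemma head_Near (c : ℕ → ℂ) (hc : ∀ n, ‖c n‖ ≤ 1) (N : ℕ) (s : ℂ) (δ : ℝ) (hN : 1 ≤ N)
    (hδ : 0 ≤ δ) (hs : 1 - δ ≤ s.re) (h : δ * Real.log N ≤ 2) :
    ‖∑ n ∈ Icc 1 N, c n * (n : ℂ) ^ (-s)‖ ≤ Real.exp 2 * (1 + Real.log N) := by
  refine le_trans ?_ (Z.head_Near N s.re δ hN hδ (by simpa using hs) h)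
  have e : ∑ n ∈ Icc 1 N, (n : ℂ) ^ (-(s.re : ℂ)) =
      ((∑ n ∈ Icc 1 N, (n : ℝ) ^ (-s.re) : ℝ) : ℂ) := by
    rw [Complex.ofReal_sum]
    refine sum_congr rfl fun n _ => ?_
    rw [Complex.ofReal_cpow (Nat.cast_nonneg n), Complex.ofReal_natCast, Complex.ofReal_neg]
  rw [e, Complex.norm_real, Real.norm_of_nonneg (sum_nonneg fun n _ => by positivity)]
  refine norm_sum_le_of_le _ fun n hn => ?_
  rw [norm_mul, Complex.norm_natCast_cpow_of_pos (mem_Icc.1 hn).1, Complex.neg_re]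
  exact mul_le_of_le_one_left (by positivity) (hc n)

lemma block_Near (c : ℕ → ℂ) {M : ℕ} {s : ℂ} {E d n : ℝ} (hM : 1 ≤ M) (hE : 0 ≤ E)
    (hd : 0 < d) (hd' : d ≤ 1) (hs : 1 - d ≤ s.re) (n0 : 0 < n) (hn : n ≤ M)
    (h : ∀ L, M ≤ L → L ≤ 2 * M → ‖EP c M L (-s.im)‖ ≤ E * (M : ℝ) ^ (1 - 2 * d)) :
    ‖∑ n ∈ Ioc M (2 * M), c n * (n : ℂ) ^ (-s)‖ ≤ 2 * (E * n ^ (-d)) := by
  have m1 : (1 : ℝ) ≤ M := by exact_mod_cast hM
  have e : ∑ n ∈ Ioc M (2 * M), c n * (n : ℂ) ^ (-s) = ∑ n ∈ Ioc M (2 * M),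
      (((n : ℝ) ^ (-s.re) : ℝ) : ℂ) * (c n * GM.pw (n : ℝ) (-s.im)) :=
    sum_congr rfl fun n hn => by
      have n1 : 0 < n := by have := (mem_Ioc.1 hn).1; omega
      rw [Z.cpow_neg_split n1 s, Z.pw_eq_cpow n1]
      ring
  rw [e]
  refine (Z.psum M (2 * M) _ _ s.re hM (by omega) (by linarith) h).trans ?_
  rw [mul_assoc, mul_assoc, ← Real.rpow_add (by linarith)]
  gcongr
  exact (Real.rpow_le_rpow_of_exponent_le m1 (by linarith)).trans
    (Real.rpow_le_rpow_of_nonpos n0 hn (by linarith))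

lemma ev_Near (B : ℕ) : ∀ᶠ L : ℝ in atTop, ∀ y : ℝ, 0 ≤ y → L ≤ y ^ 2 →
    (L ^ B) ^ 20 ≤ Real.exp y := by
  have h := (Real.tendsto_sqrt_atTop).eventually
    (MP_e23604_nt.P.xSPsi_pow_exp (2 * B * 20) one_pos)
  filter_upwards [h, eventually_ge_atTop (0 : ℝ)] with L h1 h0 y y0 hy
  have e : (L ^ B) ^ 20 = √L ^ (2 * B * 20) := by
    rw [pow_mul, pow_mul, Real.sq_sqrt h0]
  rw [e]
  refine h1.trans (Real.exp_le_exp.2 ?_)
  rw [one_mul]
  exact Real.sqrt_le_iff.2 ⟨y0, hy⟩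

theorem s_Near (hK : StKer) (hT : StLT) : StNear := by
  obtain ⟨A, hA, hK⟩ := hK
  intro B
  have he : (1 : ℝ) ≤ Real.exp 2 := Real.one_le_exp (by norm_num)
  obtain ⟨T₀, hT₀⟩ := eventually_atTop.1 (Real.tendsto_log_atTop.eventually
    ((ev_Near B).and ((eventually_ge_atTop ((64 * (2 * A)) ^ 20)).and (eventually_ge_atTop 1))))
  refine ⟨2 * Real.exp 2 + 24, max T₀ 3, by linarith, le_max_right _ _,
    fun T hT3 q _ χ hχ hq s s1 s2 s3 => ?_⟩
  obtain ⟨t1, t3⟩ := max_le_iff.1 hT3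
  obtain ⟨l1, l2, l3⟩ := hT₀ T t1
  have T0 : 0 < T := by linarith
  obtain ⟨k, N, h1, h2, h3, h4, h5, h6, h7⟩ := Z.num_Near (2 * A) _ (by linarith) l2
  rw [Real.exp_log T0] at h3 h4
  have k1 : (1 : ℝ) ≤ k := by exact_mod_cast h1
  have k8 : (k : ℝ) ≤ (k : ℝ) ^ 8 := le_self_pow₀ k1 (by norm_num)
  have a1 : 20 * (k : ℝ) ≤ A * (k : ℝ) ^ 8 := by nlinarith
  rw [mul_assoc 2 A] at h5 h6
  have hK' := hK k q
  generalize A * (k : ℝ) ^ 8 = a at *
  have a0 : 0 < a := by linarith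
  have e2 : 1 / a = 2 * (1 / (2 * a)) := by field_simp
  rw [e2] at hK'
  have d0 : 0 < 1 / (2 * a) := by positivity
  have d1 : 1 / (2 * a) ≤ 1 / 40 := one_div_le_one_div_of_le (by norm_num) (by linarith)
  generalize 1 / (2 * a) = d at *
  have n1 : (1 : ℝ) ≤ N := by exact_mod_cast h2
  have n0 : (0 : ℝ) < N := by linarith
  have g0 : 0 ≤ Real.log N := Real.log_nonneg n1
  have g1 : (k : ℝ) ≤ Real.log N := by
    rw [Real.rpow_def_of_pos n0, ← Real.exp_add, Real.exp_le_one_iff] at h6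
    nlinarith
  have g2 : Real.log T ≤ Real.log N ^ 2 := by
    have := Real.log_le_log T0 h4
    rw [Real.log_pow] at this
    nlinarith
  have q1 : 1 ≤ q := NeZero.one_le
  have q20 : q ^ 20 ≤ N := by
    have b1 := (pow_le_pow_left₀ (Nat.cast_nonneg q) hq 20).trans (l1 _ g0 g2)
    rw [Real.exp_log n0] at b1
    exact_mod_cast b1
  have qT : (q : ℝ) ≤ T := by
    refine le_trans ?_ h3
    exact_mod_cast (le_self_pow₀ q1 (by norm_num)).trans q20
  have hI1 : 6 * Real.log T ≤ (⌈6 * Real.log T⌉₊ : ℝ) := Nat.le_ceil _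
  have hI2 : (⌈6 * Real.log T⌉₊ : ℝ) ≤ 7 * Real.log T := by
    have := Nat.ceil_lt_add_one (show 0 ≤ 6 * Real.log T by linarith)
    linarith
  generalize ⌈6 * Real.log T⌉₊ = I at hI1 hI2
  have E2 : Real.exp a * (N : ℝ) ^ (-d) ≤ 1 :=
    le_trans (mul_le_mul_of_nonneg_right (Real.exp_le_exp.2 (by linarith)) (by positivity)) h6
  have hb : ‖∑ n ∈ Ioc N (2 ^ I * N), χ n * (n : ℂ) ^ (-s)‖ ≤ (I : ℝ) * 2 := by
    refine Z.dy_Tail _ N _ _ fun j _ => ?_
    have l1 : N ≤ 2 ^ j * N := Nat.le_mul_of_pos_left N (by positivity)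
    have l2 : (N : ℝ) ≤ ((2 ^ j * N : ℕ) : ℝ) := by exact_mod_cast l1
    refine (block_Near (fun n => χ n) (h2.trans l1) (Real.exp_pos a).le d0 (by linarith)
      (by linarith) n0 l2 fun L b1 b2 => ?_).trans (by linarith)
    have := hK' (fun n => χ n) _ L (-s.im) h1 q1 (per_chi χ) (q20.trans l1) b1 b2 (by
      rw [abs_neg]
      exact s1.trans (h4.trans (pow_le_pow_left₀ n0.le l2 k)))
    rwa [mn_chi hχ, zero_mul, zero_add] at this
  have hM : T ^ 4 ≤ ((2 ^ I * N : ℕ) : ℝ) := by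
    have lg2 : (69 / 100 : ℝ) < Real.log 2 := by linarith [Real.log_two_gt_d9]
    have b1 : T ^ 4 ≤ (2 : ℝ) ^ I := by
      rw [← Real.log_le_log_iff (by positivity) (by positivity), Real.log_pow, Real.log_pow]
      push_cast
      nlinarith
    push_cast
    exact b1.trans (le_mul_of_one_le_right (by positivity) n1)
  have l4 : N ≤ 2 ^ I * N := Nat.le_mul_of_pos_left N (by positivity)
  generalize 2 ^ I * N = M at *
  have σ0 : 1 / 2 ≤ s.re := by linarith
  have t2 : 2 * q * (1 + ‖s‖ / s.re) * (M : ℝ) ^ (-s.re) ≤ 10 := by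
    have b1 : ‖s‖ / s.re ≤ 4 * T := by
      have := Complex.norm_le_abs_re_add_abs_im s
      rw [abs_of_nonneg (by linarith : 0 ≤ s.re)] at this
      rw [div_le_iff₀ (by linarith)]
      nlinarith
    have T4 : 1 ≤ T ^ 4 := one_le_pow₀ (by linarith)
    have b2 : (M : ℝ) ^ (-s.re) ≤ (T ^ 2)⁻¹ := by
      calc (M : ℝ) ^ (-s.re) ≤ (M : ℝ) ^ (-(1 / 2) : ℝ) :=
            Real.rpow_le_rpow_of_exponent_le (T4.trans hM) (by linarith)
        _ ≤ (T ^ 4) ^ (-(1 / 2) : ℝ) := Real.rpow_le_rpow_of_nonpos (by positivity) hM (by norm_num)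
        _ = _ := by
            rw [Real.rpow_neg (by positivity), ← Real.sqrt_eq_rpow,
              show T ^ 4 = (T ^ 2) ^ 2 by ring, Real.sqrt_sq (by positivity)]
    calc _ ≤ 2 * T * (5 * T) * (T ^ 2)⁻¹ := by
          gcongr
          linarith
      _ = 10 := by
          field_simp
          norm_num
  have k1 := (hT q χ hχ M s (h2.trans l4) (by linarith)).trans t2
  have k2 := head_Near (fun n => χ n) (fun n => χ.norm_le_one _) N s _ h2
    (Real.rpow_nonneg (by linarith) _) s2 h7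
  have k3 : Real.log N ≤ Real.log T := Real.log_le_log n0 h3
  have k5 : Real.exp 2 * (1 + Real.log N) ≤ Real.exp 2 * (2 * Real.log T) :=
    mul_le_mul_of_nonneg_left (by linarith) (by linarith)
  have e : LFunction χ s = (LFunction χ s - ∑ n ∈ Icc 1 M, χ n * (n : ℂ) ^ (-s)) +
      ∑ n ∈ Icc 1 N, χ n * (n : ℂ) ^ (-s) + ∑ n ∈ Ioc N M, χ n * (n : ℂ) ^ (-s) := by
    have h1 := sum_Ioc_consecutive (fun n : ℕ => χ n * (n : ℂ) ^ (-s)) (Nat.zero_le N) l4
    rw [show Icc 1 N = Ioc 0 N from rfl, show Icc 1 M = Ioc 0 M from rfl, ← h1]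
    ring
  rw [e]
  refine norm_add₃_le.trans ?_
  linarith

end Pool.Agent.MP_436a94_nt.A

end
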