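import Pool.Agent.MP_436a94_nt.Defs

set_option linter.all false

section

/-!
The elementary half: definitions and statements.
-/

set_option autoImplicit false

open Finset Filter
open scoped Classical

noncomputable section

namespace Pool.Agent.MP_436a94_nt.E

/-- `a` is a primitive root modulo `p` -/
def PR (a : ℤ) (p : ℕ) : Prop := orderOf (a : ZMod p) = p - 1

/-- independence modulo squares and modulo `-1, 2, 3` -/
def Ind (S : Finset ℤ) : Prop := ∀ S' ⊆ S, S'.Nonempty →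
  ∃ l : ℕ, 5 ≤ l ∧ Odd (∑ a ∈ S', a.natAbs.factorization l)

/-- primes `p` with `(p - 1) / 2` odd and free of small prime factors -/
def Rg (z : ℝ) (p : ℕ) : Prop :=
  p.Prime ∧ p % 4 = 3 ∧ ∀ l : ℕ, l.Prime → l ∣ p - 1 → l = 2 ∨ z < l

/-- `0` for squares modulo `p`, `1` otherwise -/
def nr (a : ℤ) (p : ℕ) : ZMod 2 := if IsSquare (a : ZMod p) then 0 else 1

/-- primes modulo which `s` independent small integers lie in a small subgroup -/
def GMS (s Z y p : ℕ) : Prop := p.Prime ∧ ∃ S : Finset ℤ, S.card = s ∧ Ind S ∧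
  (∀ a ∈ S, a.natAbs ≤ Z) ∧ ∃ e : ℕ, 0 < e ∧ e ≤ y ∧ ∀ a ∈ S, (a : ZMod p) ^ e = 1

def StS1 : Prop := ∀ (a : ℤ) (n p : ℕ), 10 ≤ n → p.Prime → n < p → (p - n) ^ 2 ≤ n → PR a p →
  IsLeast {q : ℕ | q.Prime ∧ n < q ∧ orderOf (a : ZMod q) = q - 1} (f a n)

def StS2 : Prop := ∀ (a : ℤ) (n p : ℕ), 10 ≤ n → p.Prime → 2 * n < p →
  (p - 2 * n) ^ 2 ≤ 2 * n → PR a p →
  IsLeast {q : ℕ | q.Prime ∧ 2 * n < q ∧ Sep (a ^ 2) ((q - 1) / 2) q} (f (a ^ 2) n)

def StGM : Prop := ∀ (s Z y Y : ℕ) (P : Finset ℕ), 1 ≤ Z → y < (Y + 1) ^ s →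
  (∀ p ∈ P, GMS s Z y p) →
    P.card ≤ (2 * Z + 1) ^ s * (2 * Y + 1) ^ s * (1 + s * Y * (Nat.log 2 Z + 1))

def StKey : Prop := ∀ (z : ℝ) (k s Z y p : ℕ) (S : Finset ℤ), 1 ≤ z → Rg z p →
  (p : ℝ) ≤ z ^ k → (p : ℝ) ≤ y * z → Ind S → k * s < S.card → (∀ a ∈ S, a.natAbs ≤ Z) →
  (∀ a ∈ S, nr a p = 1) → (∀ a ∈ S, ¬ PR a p) → GMS s Z y p

def StRec : Prop := ∃ κ : ℤ → ℕ → ZMod 2, ∀ (a : ℤ) (p : ℕ) (T : Finset ℕ), a ≠ 0 → p.Prime →
  p % 4 = 3 → 3 < p → a.natAbs < p → (∀ l : ℕ, l.Prime → 5 ≤ l → l ∣ a.natAbs → l ∈ T) →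
  (∀ l ∈ T, 5 ≤ l) →
    nr a p = κ a (p % 24) + ∑ l ∈ T, (a.natAbs.factorization l : ZMod 2) * nr p l

def StPat : Prop := ∀ (ι κ : Type) [Fintype ι] (w : ι → ZMod 2 → ℝ),
  (∀ l x, 0 ≤ w l x ∧ w l x ≤ 2 / 3 * (w l 0 + w l 1)) →
  ∀ (S : Finset κ) (M : κ → ι → ZMod 2) (v : κ → ZMod 2),
    (∀ S' ⊆ S, S'.Nonempty → ∑ a ∈ S', M a ≠ 0) →
    ∑ ε ∈ univ.filter (fun ε : ι → ZMod 2 => ∀ a ∈ S, ∑ l, M a l * ε l = v a), ∏ l, w l (ε l) ≤
      (2 / 3) ^ S.card * ∏ l, (w l 0 + w l 1)

def StUp : Prop := ∃ A : ℕ, ∀ x h Q z m₀ : ℕ, 1 ≤ x → 1 ≤ Q → 2 ≤ z →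
  (((Ioc x (x + h)).filter fun m => m ≡ m₀ [MOD Q] ∧
      ∀ l : ℕ, l.Prime → 5 ≤ l → l ≤ z → ¬ l ∣ m ∧ ¬ l ∣ m - 1).card : ℝ) ≤
    2 * ((h : ℝ) / Q + 1) *
      ∏ l ∈ (Icc 5 z).filter (fun l => l.Prime ∧ ¬ l ∣ Q), (1 - 2 / (l : ℝ)) + (z : ℝ) ^ A

def StCnt : Prop := ∃ A : ℕ, ∀ (x h z Z : ℕ) (zz : ℝ) (S : Finset ℤ) (v : ℤ → ZMod 2),
  3 ≤ z → (z : ℝ) ≤ zz → (Z : ℝ) ≤ zz → Z ≤ x → z ≤ x → 1 ≤ Z → Ind S → (∀ a ∈ S, a.natAbs ≤ Z) →
  Z ^ S.card ≤ h →
    (((Ioc x (x + h)).filter fun p => Rg zz p ∧ ∀ a ∈ S, nr a p = v a).card : ℝ) ≤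
      864 * (2 / 3) ^ S.card * h / Real.log z ^ 2 + 24 * (Z : ℝ) ^ S.card * (z : ℝ) ^ A

/-- many rough primes in almost all short intervals -/
def StW : Prop := ∃ al c : ℝ, 0 < al ∧ 0 < c ∧ ∀ B : ℕ, ∀ᶠ N : ℕ in atTop,
  (((Ico (2 * N) (3 * N)).filter fun n =>
    (((Ioc n (n + Nat.sqrt N)).filter (Rg ((N : ℝ) ^ al))).card : ℝ) <
      c * Nat.sqrt N / Real.log N ^ 2).card : ℝ) ≤ N / Real.log N ^ B

/-- among `s` independent small integers one is a primitive root of a prime just above `n` -/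
def StM : Prop := ∃ (s : ℕ) (c : ℝ), 0 < c ∧ ∀ B : ℕ, ∀ᶠ N : ℕ in atTop,
  (((Ico (2 * N) (3 * N)).filter fun n => ¬ ∀ S : Finset ℤ, S.card = s → Ind S →
    (∀ a ∈ S, (a.natAbs : ℝ) ≤ (N : ℝ) ^ c) →
      ∃ a ∈ S, ∃ p : ℕ, p.Prime ∧ n < p ∧ p ≤ n + Nat.sqrt N ∧ PR a p).card : ℝ) ≤
    N / Real.log N ^ B

def StRank : Prop := ∀ (s : ℕ) (F : Finset ℤ), (0 : ℤ) ∉ F →
  (∀ S ⊆ F, Ind S → S.card ≠ s) →
    ∃ D : Finset ℤ, D.card ≤ 8 * 2 ^ s ∧ (0 : ℤ) ∉ D ∧ ∀ a ∈ F, ∃ d ∈ D, IsSquare (d * a)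

def StDen : Prop := ∀ G : ℕ → Prop,
  (∀ B : ℕ, ∀ᶠ N : ℕ in atTop,
    (((Ico (2 * N) (3 * N)).filter fun n => ¬ G n).card : ℝ) ≤ N / Real.log N ^ B) →
  ∀ B : ℕ, ∃ K : ℝ, 0 ≤ K ∧ ∀ X : ℕ, 2 ≤ X →
    (((range (X + 1)).filter fun n => ¬ G n).card : ℝ) ≤ K * X / Real.log X ^ B

end Pool.Agent.MP_436a94_nt.E

end
end

section

/-!
Few primes have many independent small integers in a small subgroup.
-/

set_option autoImplicit false

open Finset

namespace Pool.Agent.MP_436a94_nt.E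

lemma Ind.mono {S S' : Finset ℤ} (h : Ind S) (hs : S' ⊆ S) : Ind S' :=
  fun T hT hn => h T (hT.trans hs) hn

lemma Ind.ne_zero {S : Finset ℤ} (h : Ind S) {a : ℤ} (ha : a ∈ S) : a ≠ 0 := by
  rintro rfl
  obtain ⟨l, -, hl⟩ := h {0} (singleton_subset_iff.2 ha) (singleton_nonempty _)
  simp at hl

/-- no nontrivial additive relation between the valuation vectors -/
lemma no_rel {s : ℕ} {a : Fin s → ℤ} (ha : Function.Injective a) (hI : Ind (univ.image a)) :
    ∀ (t : ℕ) (d : Fin s → ℤ), ∑ i, (d i).natAbs ≤ t →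
      (∀ l : ℕ, ∑ i, d i * ((a i).natAbs.factorization l : ℤ) = 0) → d = 0 := by
  classical
  intro t
  induction t with
  | zero =>
    intro d hd _
    funext i
    have := sum_eq_zero_iff.1 (Nat.le_zero.1 hd) i (mem_univ i)
    simpa using this
  | succ t ih =>
    intro d hd hrel
    by_cases hev : ∀ i, Even (d i)
    · choose e he using hev
      by_cases h0 : ∑ i, (e i).natAbs = 0
      · funext i
        have := sum_eq_zero_iff.1 h0 i (mem_univ i)
        have h1 : e i = 0 := by simpa using this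
        rw [he i, h1]
        simp
      have h2 : ∑ i, (d i).natAbs = 2 * ∑ i, (e i).natAbs := by
        rw [mul_sum]
        refine sum_congr rfl fun i _ => ?_
        rw [he i]
        omega
      have h3 := ih e (by omega) fun l => by
        have h4 := hrel l
        have h5 : ∑ i, d i * ((a i).natAbs.factorization l : ℤ) =
            2 * ∑ i, e i * ((a i).natAbs.factorization l : ℤ) := by
          rw [mul_sum]
          refine sum_congr rfl fun i _ => ?_
          rw [he i]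
          ring
        omega
      funext i
      rw [he i, h3]
      simp
    · exfalso
      push Not at hev
      obtain ⟨i0, hi0⟩ := hev
      obtain ⟨l, -, hl⟩ := hI ((univ.filter fun i => ¬ Even (d i)).image a)
        (image_subset_image (filter_subset _ _)) ⟨a i0, mem_image_of_mem _ (by simpa using hi0)⟩
      rw [sum_image fun i _ j _ e => ha e] at hl
      have h1 := congrArg (Int.cast : ℤ → ZMod 2) (hrel l)
      have h2 := (ZMod.natCast_eq_one_iff_odd).2 hl
      push_cast at h1 h2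
      rw [sum_filter] at h2
      have h3 : ∑ i, (d i : ZMod 2) * ((a i).natAbs.factorization l : ZMod 2) =
          ∑ i, if ¬ Even (d i) then ((a i).natAbs.factorization l : ZMod 2) else 0 := by
        refine sum_congr rfl fun i _ => ?_
        split_ifs with h
        · rw [(ZMod.intCast_eq_zero_iff_even).2 h, zero_mul]
        · rw [(ZMod.intCast_eq_one_iff_odd).2 (Int.not_even_iff_odd.1 h), one_mul]
      rw [h3, h2] at h1
      exact one_ne_zero h1

/-- the integer attached to a family and an exponent vector -/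
def ww {s : ℕ} (a d : Fin s → ℤ) : ℤ := ∏ i, a i ^ (d i).toNat - ∏ i, a i ^ (-d i).toNat

lemma fac_prod {s : ℕ} {a : Fin s → ℤ} (h0 : ∀ i, a i ≠ 0) (e : Fin s → ℕ) (l : ℕ) :
    ((∏ i, a i ^ e i).natAbs.factorization l : ℤ) =
      ∑ i, (e i : ℤ) * ((a i).natAbs.factorization l : ℤ) := by
  have : (∏ i, a i ^ e i).natAbs = ∏ i, (a i).natAbs ^ e i := by
    rw [← Int.natAbsHom_apply, map_prod]
    simp
  rw [this, Nat.factorization_prod fun i _ => pow_ne_zero _ (Int.natAbs_ne_zero.2 (h0 i))]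
  simp [Finsupp.finsetSum_apply]

lemma ww_ne {s : ℕ} {a d : Fin s → ℤ} (ha : Function.Injective a) (hI : Ind (univ.image a))
    (hd : d ≠ 0) : ww a d ≠ 0 := by
  intro h
  have h0 : ∀ i, a i ≠ 0 := fun i => hI.ne_zero (mem_image_of_mem _ (mem_univ i))
  refine hd (no_rel ha hI _ d le_rfl fun l => ?_)
  have h1 := fac_prod h0 (fun i => (d i).toNat) l
  have h2 := fac_prod h0 (fun i => (-d i).toNat) l
  rw [ww, sub_eq_zero] at h
  rw [h, h2] at h1
  rw [← sub_eq_zero, ← sum_sub_distrib] at h1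
  rw [← neg_eq_zero, ← h1, ← sum_neg_distrib]
  refine sum_congr rfl fun i _ => ?_
  have : ((d i).toNat : ℤ) - ((-d i).toNat : ℤ) = d i := Int.toNat_sub_toNat_neg _
  linear_combination ((a i).natAbs.factorization l : ℤ) * this

lemma prod_le {s Z Y : ℕ} {a : Fin s → ℤ} (hZ : 1 ≤ Z) (ha : ∀ i, (a i).natAbs ≤ Z)
    {e : Fin s → ℕ} (he : ∀ i, e i ≤ Y) : (∏ i, a i ^ e i).natAbs ≤ Z ^ (s * Y) := by
  have : (∏ i, a i ^ e i).natAbs = ∏ i, (a i).natAbs ^ e i := by
    rw [← Int.natAbsHom_apply, map_prod]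
    simp
  rw [this]
  refine (prod_le_pow_card _ _ (Z ^ Y) fun i _ =>
    (Nat.pow_le_pow_left (ha i) _).trans (Nat.pow_le_pow_right hZ (he i))).trans ?_
  rw [card_univ, Fintype.card_fin, ← pow_mul, mul_comm]

lemma card_pf {w k : ℕ} (h : w ≤ 2 ^ k) : w.primeFactors.card ≤ k := by
  rcases Nat.eq_zero_or_pos w with rfl | hw
  · simp
  have h1 : 2 ^ w.primeFactors.card ≤ ∏ p ∈ w.primeFactors, p :=
    pow_card_le_prod _ _ 2 fun p hp => (Nat.prime_of_mem_primeFactors hp).two_le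
  have h2 := Nat.le_of_dvd hw (Nat.prod_primeFactors_dvd w)
  exact (Nat.pow_le_pow_iff_right (by norm_num)).1 ((h1.trans h2).trans h)

lemma exists_rel {s y Y p : ℕ} (hp : p.Prime) (hy : y < (Y + 1) ^ s) {a : Fin s → ℤ} {e : ℕ}
    (he : 0 < e) (hey : e ≤ y) (h : ∀ i, (a i : ZMod p) ^ e = 1) :
    ∃ d : Fin s → ℤ, d ≠ 0 ∧ (∀ i, d i ∈ Icc (-(Y : ℤ)) Y) ∧ (p : ℤ) ∣ ww a d := by
  classical
  have := Fact.mk hp
  have hu : ∀ i, (a i : ZMod p) ≠ 0 := fun i h0 => by
    have := h i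
    rw [h0, zero_pow he.ne'] at this
    exact zero_ne_one this
  have hc : (Polynomial.nthRoots e (1 : ZMod p)).toFinset.card <
      (Fintype.piFinset fun _ : Fin s => range (Y + 1)).card := by
    rw [Fintype.card_piFinset]
    simp only [card_range, prod_const, card_univ, Fintype.card_fin]
    exact lt_of_le_of_lt ((Multiset.toFinset_card_le _).trans
      ((Polynomial.card_nthRoots _ _).trans hey)) hy
  obtain ⟨u, hu1, v, hv1, hne, huv⟩ := exists_ne_map_eq_of_card_lt_of_maps_to hc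
    (f := fun u : Fin s → ℕ => ∏ i, (a i : ZMod p) ^ u i) fun u _ => by
      rw [mem_coe, Multiset.mem_toFinset, Polynomial.mem_nthRoots he, ← prod_pow]
      refine prod_eq_one fun i _ => ?_
      rw [← pow_mul, mul_comm, pow_mul, h i, one_pow]
  rw [Fintype.mem_piFinset] at hu1 hv1
  refine ⟨fun i => (u i : ℤ) - v i, fun h0 => hne (funext fun i => ?_), fun i => ?_, ?_⟩
  · have := congrFun h0 i
    simp only [Pi.zero_apply] at this
    omega
  · have h1 := mem_range.1 (hu1 i)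
    have h2 := mem_range.1 (hv1 i)
    rw [mem_Icc]
    simp only
    omega
  · rw [← ZMod.intCast_zmod_eq_zero_iff_dvd, ww]
    push_cast
    have hm : ∏ i, (a i : ZMod p) ^ min (u i) (v i) ≠ 0 :=
      prod_ne_zero_iff.2 fun i _ => pow_ne_zero _ (hu i)
    refine mul_left_cancel₀ hm ?_
    rw [mul_zero, mul_sub, ← prod_mul_distrib, ← prod_mul_distrib, sub_eq_zero]
    have e1 : ∀ i, (a i : ZMod p) ^ min (u i) (v i) * (a i : ZMod p) ^ ((u i : ℤ) - v i).toNat =
        (a i : ZMod p) ^ u i := fun i => by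
      rw [← pow_add]
      congr 1
      omega
    have e2 : ∀ i, (a i : ZMod p) ^ min (u i) (v i) *
        (a i : ZMod p) ^ (-((u i : ℤ) - v i)).toNat = (a i : ZMod p) ^ v i := fun i => by
      rw [← pow_add]
      congr 1
      omega
    simp only [e1, e2]
    exact huv

theorem s_GM : StGM := by
  classical
  intro s Z y Y P hZ hy hP
  set A := Fintype.piFinset fun _ : Fin s => Icc (-(Z : ℤ)) Z with hA
  set D := Fintype.piFinset fun _ : Fin s => Icc (-(Y : ℤ)) Y with hD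
  have hsub : P ⊆ (A ×ˢ D).biUnion fun x => (ww x.1 x.2).natAbs.primeFactors := by
    intro p hp
    obtain ⟨hpp, S, hs, hI, hZS, e, he, hey, h1⟩ := hP p hp
    have him : univ.image (S.orderEmbOfFin hs) = S := by
      ext x
      simp only [mem_image, mem_univ, true_and]
      have := S.range_orderEmbOfFin hs
      rw [← mem_coe, ← this]
      rfl
    have hm : ∀ i, S.orderEmbOfFin hs i ∈ S := fun i => S.orderEmbOfFin_mem hs i
    obtain ⟨d, d0, d1, d2⟩ := exists_rel hpp hy (a := S.orderEmbOfFin hs) he hey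
      fun i => h1 _ (hm i)
    refine mem_biUnion.2 ⟨(S.orderEmbOfFin hs, d), mem_product.2 ⟨?_, ?_⟩, ?_⟩
    · rw [hA, Fintype.mem_piFinset]
      intro i
      have := hZS _ (hm i)
      rw [mem_Icc]
      simp only
      omega
    · rw [hD, Fintype.mem_piFinset]
      exact d1
    · rw [Nat.mem_primeFactors]
      exact ⟨hpp, Int.natCast_dvd.1 d2, Int.natAbs_ne_zero.2
        (ww_ne (S.orderEmbOfFin hs).injective (by rw [him]; exact hI) d0)⟩
  refine (card_le_card hsub).trans (card_biUnion_le.trans ((sum_le_card_nsmul _ _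
    (1 + s * Y * (Nat.log 2 Z + 1)) fun x hx => card_pf ?_).trans (le_of_eq ?_)))
  · obtain ⟨h1, h2⟩ := mem_product.1 hx
    rw [hA, Fintype.mem_piFinset] at h1
    rw [hD, Fintype.mem_piFinset] at h2
    have ha : ∀ i, (x.1 i).natAbs ≤ Z := fun i => by
      have := mem_Icc.1 (h1 i)
      omega
    have b1 := prod_le (Y := Y) hZ ha (e := fun i => (x.2 i).toNat) fun i => by
      have := mem_Icc.1 (h2 i)
      omega
    have b2 := prod_le (Y := Y) hZ ha (e := fun i => (-x.2 i).toNat) fun i => by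
      have := mem_Icc.1 (h2 i)
      omega
    have b3 : Z ^ (s * Y) ≤ 2 ^ (s * Y * (Nat.log 2 Z + 1)) := by
      rw [mul_comm (s * Y), pow_mul 2]
      exact Nat.pow_le_pow_left (Nat.lt_pow_succ_log_self (by norm_num) Z).le _
    have b4 := Int.natAbs_sub_le (∏ i, x.1 i ^ (x.2 i).toNat) (∏ i, x.1 i ^ (-x.2 i).toNat)
    rw [pow_add, ww]
    omega
  · have c1 : ∀ W : ℕ, (Icc (-(W : ℤ)) W).card = 2 * W + 1 := fun W => by
      rw [Int.card_Icc]
      omega
    rw [card_product, hA, hD, Fintype.card_piFinset, Fintype.card_piFinset]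
    simp [c1]

end Pool.Agent.MP_436a94_nt.E

end

section

/-!
Many non-residues none of which is a primitive root; the exceptional classes; sign patterns.
-/

set_option autoImplicit false

open Finset
open scoped Classical

namespace Pool.Agent.MP_436a94_nt.E

lemma nr_one {a : ℤ} {p : ℕ} : nr a p = 1 ↔ ¬ IsSquare (a : ZMod p) := by
  unfold nr
  split_ifs with h
  · simp [h]
  · simp [h]

theorem s_Key : StKey := by
  intro z k s Z y p S hz hR hk hy hI hc hZ hn hP
  obtain ⟨hp, h4, hl⟩ := hR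
  have := Fact.mk hp
  have hp2 := hp.two_le
  have hq : ∀ a ∈ S, ∃ q ∈ (p - 1).primeFactors.erase 2, (a : ZMod p) ^ ((p - 1) / q) = 1 := by
    intro a ha
    have h1 := nr_one.1 (hn a ha)
    have h0 : (a : ZMod p) ≠ 0 := fun h => h1 (by rw [h]; exact IsSquare.zero)
    by_contra hh
    push Not at hh
    refine hP a ha (orderOf_eq_of_pow_and_pow_div_prime (by omega)
      (ZMod.pow_card_sub_one_eq_one h0) fun q hq hd => ?_)
    by_cases h2 : q = 2
    · subst h2
      rw [show (p - 1) / 2 = p / 2 by omega]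
      exact fun e => h1 ((ZMod.euler_criterion p h0).2 e)
    · exact hh q (mem_erase.2 ⟨h2, Nat.mem_primeFactors.2 ⟨hq, hd, by omega⟩⟩)
  have hbig : ∀ q ∈ (p - 1).primeFactors.erase 2, z < q := fun q hq => by
    obtain ⟨h1, h2⟩ := mem_erase.1 hq
    exact (hl q (Nat.prime_of_mem_primeFactors h2) (Nat.dvd_of_mem_primeFactors h2)).resolve_left h1
  have hcard : ((p - 1).primeFactors.erase 2).card ≤ k := by
    have h1 : z ^ ((p - 1).primeFactors.erase 2).card ≤
        ∏ q ∈ (p - 1).primeFactors.erase 2, (q : ℝ) := by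
      rw [← prod_const]
      exact prod_le_prod (fun _ _ => by linarith) fun q hq => (hbig q hq).le
    have h2 : ∏ q ∈ (p - 1).primeFactors.erase 2, q ≤ p :=
      (Nat.le_of_dvd (by omega) ((prod_dvd_prod_of_subset _ _ _ (erase_subset _ _)).trans
        (Nat.prod_primeFactors_dvd _))).trans (Nat.sub_le _ _)
    have h3 : ∏ q ∈ (p - 1).primeFactors.erase 2, (q : ℝ) ≤ p := by
      rw [← Nat.cast_prod]
      exact Nat.cast_le.2 h2
    have h5 : 1 < z := by
      rcases hz.lt_or_eq with h | h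
      · exact h
      · rw [← h, one_pow] at hk
        have : (2 : ℝ) ≤ p := by exact_mod_cast hp2
        linarith
    exact (pow_le_pow_iff_right₀ h5).1 (h1.trans (h3.trans hk))
  choose! q hq1 hq2 using hq
  obtain ⟨r, hr, hf⟩ := exists_lt_card_fiber_of_mul_lt_card_of_maps_to hq1
    (lt_of_le_of_lt (Nat.mul_le_mul_right s hcard) hc)
  obtain ⟨T, hT, hTc⟩ := exists_subset_card_eq hf.le
  have hTS : T ⊆ S := hT.trans (filter_subset _ _)
  have hd := Nat.dvd_of_mem_primeFactors (mem_erase.1 hr).2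
  have hr0 := (Nat.prime_of_mem_primeFactors (mem_erase.1 hr).2).pos
  refine ⟨hp, T, hTc, hI.mono hTS, fun a ha => hZ a (hTS ha), (p - 1) / r,
    Nat.div_pos (Nat.le_of_dvd (by omega) hd) hr0, ?_, fun a ha => ?_⟩
  · have h1 : (p - 1) / r * r ≤ p := (Nat.div_mul_le_self _ _).trans (Nat.sub_le _ _)
    have h2 : (((p - 1) / r : ℕ) : ℝ) * r ≤ p := by exact_mod_cast h1
    have h3 := hbig r hr
    have h5 : (((p - 1) / r : ℕ) : ℝ) * z ≤ y * z :=
      (mul_le_mul_of_nonneg_left h3.le (Nat.cast_nonneg _)).trans (h2.trans hy)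
    exact_mod_cast le_of_mul_le_mul_right h5 (by linarith)
  · rw [← (mem_filter.1 (hT ha)).2]
    exact hq2 a (hTS ha)

lemma sq_of_even {w : ℕ} (hw : w ≠ 0) (h : ∀ l, Even (w.factorization l)) : IsSquare w := by
  refine ⟨∏ l ∈ w.primeFactors, l ^ (w.factorization l / 2), ?_⟩
  conv_lhs => rw [← Nat.prod_factorization_pow_eq_self hw]
  rw [← prod_mul_distrib, Finsupp.prod, Nat.support_factorization]
  refine prod_congr rfl fun l _ => ?_
  rw [← pow_add]
  congr 1
  obtain ⟨c, hc⟩ := h l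
  omega

lemma unit_sq {w : ℤ} (hw : w ≠ 0) (h : ∀ l, 5 ≤ l → Even (w.natAbs.factorization l)) :
    ∃ u ∈ ({1, -1, 2, -2, 3, -3, 6, -6} : Finset ℤ), IsSquare (u * w) := by
  have hn := Int.natAbs_ne_zero.2 hw
  have key : ∃ u : ℕ, (u = 1 ∨ u = 2 ∨ u = 3 ∨ u = 6) ∧ IsSquare (u * w.natAbs) := by
    refine ⟨2 ^ (w.natAbs.factorization 2 % 2) * 3 ^ (w.natAbs.factorization 3 % 2), ?_,
      sq_of_even (by positivity) fun l => ?_⟩
    · rcases Nat.mod_two_eq_zero_or_one (w.natAbs.factorization 2) with h1 | h1 <;>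
        rcases Nat.mod_two_eq_zero_or_one (w.natAbs.factorization 3) with h2 | h2 <;>
        simp [h1, h2]
    · rw [Nat.factorization_mul (by positivity) hn, Nat.factorization_mul (by positivity)
        (by positivity), Nat.prime_two.factorization_pow, Nat.prime_three.factorization_pow]
      simp only [Finsupp.add_apply, Finsupp.single_apply]
      by_cases h5 : 5 ≤ l
      · rw [if_neg (by omega), if_neg (by omega)]
        simpa using h l h5
      by_cases h2 : 2 = l
      · subst h2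
        rw [Nat.even_iff]
        simp only [if_true]
        norm_num
        omega
      by_cases h3 : 3 = l
      · subst h3
        rw [Nat.even_iff]
        simp only [if_true]
        norm_num
        omega
      rw [if_neg h2, if_neg h3, Nat.factorization_eq_zero_of_not_prime]
      · simp
      · have : l = 0 ∨ l = 1 ∨ l = 4 := by omega
        rcases this with rfl | rfl | rfl <;> norm_num
  obtain ⟨u, hu, r, hr⟩ := key
  have hr' : (u : ℤ) * (w.natAbs : ℤ) = (r : ℤ) * r := by exact_mod_cast hr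
  rcases Int.natAbs_eq w with e | e
  · refine ⟨u, ?_, r, by rw [← hr', ← e]⟩
    rcases hu with rfl | rfl | rfl | rfl <;> simp
  · refine ⟨-u, ?_, r, by rw [← hr']; linear_combination (-(u : ℤ)) * e⟩
    rcases hu with rfl | rfl | rfl | rfl <;> simp

theorem s_Rank : StRank := by
  intro s F h0 hF
  obtain ⟨S, hS, hmax⟩ := exists_max_image (F.powerset.filter Ind) card
    ⟨∅, mem_filter.2 ⟨empty_mem_powerset _, fun T hT hn => by
      rw [subset_empty] at hT
      subst hT
      exact absurd hn not_nonempty_empty⟩⟩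
  obtain ⟨hS1, hS2⟩ := mem_filter.1 hS
  rw [mem_powerset] at hS1
  have hs : S.card ≤ s := by
    by_contra h
    obtain ⟨T, hT, hc⟩ := exists_subset_card_eq (show s ≤ S.card by omega)
    exact hF T (hT.trans hS1) (hS2.mono hT) hc
  refine ⟨((({1, -1, 2, -2, 3, -3, 6, -6} : Finset ℤ) ×ˢ S.powerset).image
    fun x => x.1 * ∏ b ∈ x.2, b), card_image_le.trans ?_, fun h => ?_, fun a ha => ?_⟩
  · rw [card_product, card_powerset]
    exact Nat.mul_le_mul (by decide) (Nat.pow_le_pow_right (by norm_num) hs)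
  · obtain ⟨x, hx, e⟩ := mem_image.1 h
    obtain ⟨x1, x2⟩ := mem_product.1 hx
    rcases mul_eq_zero.1 e with e | e
    · rw [e] at x1
      revert x1
      decide
    · obtain ⟨b, hb, e⟩ := prod_eq_zero_iff.1 e
      exact hS2.ne_zero (mem_powerset.1 x2 hb) e
  have ha0 : a ≠ 0 := fun e => h0 (e ▸ ha)
  have key : ∃ T ⊆ S, ∀ l, 5 ≤ l → Even (((∏ b ∈ T, b) * a).natAbs.factorization l) := by
    have fac : ∀ T ⊆ S, ∀ l, ((∏ b ∈ T, b) * a).natAbs.factorization l =
        ∑ b ∈ T, b.natAbs.factorization l + a.natAbs.factorization l := fun T hT l => by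
      have e : (∏ b ∈ T, b).natAbs = ∏ b ∈ T, b.natAbs := by
        rw [← Int.natAbsHom_apply, map_prod]
        simp
      have hne : ∀ b ∈ T, b.natAbs ≠ 0 := fun b hb => Int.natAbs_ne_zero.2 (hS2.ne_zero (hT hb))
      rw [Int.natAbs_mul, e, Nat.factorization_mul (prod_ne_zero_iff.2 hne)
        (Int.natAbs_ne_zero.2 ha0), Nat.factorization_prod hne]
      simp
    by_cases haS : a ∈ S
    · refine ⟨{a}, singleton_subset_iff.2 haS, fun l _ => ?_⟩
      rw [fac _ (singleton_subset_iff.2 haS), sum_singleton]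
      exact ⟨_, rfl⟩
    have hni : ¬ Ind (insert a S) := fun h => by
      have := hmax (insert a S) (mem_filter.2 ⟨mem_powerset.2 (insert_subset ha hS1), h⟩)
      rw [card_insert_of_notMem haS] at this
      omega
    unfold Ind at hni
    push Not at hni
    obtain ⟨T, hT, hn, hl⟩ := hni
    have haT : a ∈ T := by
      by_contra h
      obtain ⟨l, l1, l2⟩ := hS2 T ((subset_insert_iff_of_notMem h).1 hT) hn
      exact hl l l1 l2
    refine ⟨T.erase a, subset_insert_iff.1 hT, fun l l1 => ?_⟩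
    rw [fac _ (subset_insert_iff.1 hT), sum_erase_add _ _ haT]
    exact Nat.not_odd_iff_even.1 (hl l l1)
  obtain ⟨T, hT, hl⟩ := key
  obtain ⟨u, hu, hsq⟩ := unit_sq (mul_ne_zero (prod_ne_zero_iff.2 fun b hb =>
    hS2.ne_zero (hT hb)) ha0) hl
  exact ⟨u * ∏ b ∈ T, b, mem_image.2 ⟨(u, T), mem_product.2 ⟨hu, mem_powerset.2 hT⟩, rfl⟩,
    by rwa [mul_assoc]⟩

lemma z2 (x : ZMod 2) : x = 0 ∨ x = 1 := by
  revert x
  decide

theorem s_Pat : StPat := by
  intro ι κ _ w hw S
  induction S using Finset.induction_on with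
  | empty =>
    intro M v _
    have : ∏ l, (w l 0 + w l 1) = ∏ l, ∑ x : ZMod 2, w l x :=
      prod_congr rfl fun l _ => by
        rw [show (univ : Finset (ZMod 2)) = {0, 1} by decide, sum_pair (by decide)]
    rw [this, prod_univ_sum, Fintype.piFinset_univ]
    simp
  | insert a0 S ha ih =>
    intro M v hM
    obtain ⟨l0, hl0⟩ : ∃ l0, M a0 l0 = 1 := by
      have := hM {a0} (by simp) (singleton_nonempty _)
      rw [sum_singleton] at this
      obtain ⟨l, hl⟩ := Function.ne_iff.1 this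
      exact ⟨l, (z2 _).resolve_left hl⟩
    have h1 := ih (fun a l => M a l + M a l0 * M a0 l) (fun a => v a + M a l0 * v a0)
      fun T hT hn h => by
        have haT : a0 ∉ T := fun hh => ha (hT hh)
        have hf : ∀ l, ∑ a ∈ T, M a l + (∑ a ∈ T, M a l0) * M a0 l = 0 := fun l => by
          have := congrFun h l
          rw [Finset.sum_apply] at this
          simpa [sum_add_distrib, sum_mul] using this
        rcases z2 (∑ a ∈ T, M a l0) with e | e
        · refine hM T (hT.trans (subset_insert _ _)) hn (funext fun l => ?_)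
          have := hf l
          rw [e, zero_mul, add_zero] at this
          rw [Finset.sum_apply, this]
          rfl
        · refine hM (insert a0 T) (insert_subset_insert _ hT) (insert_nonempty _ _)
            (funext fun l => ?_)
          have := hf l
          rw [e, one_mul, add_comm] at this
          rw [sum_insert haT, Pi.add_apply, Finset.sum_apply, this]
          rfl
    set σ : (ι → ZMod 2) → (ι → ZMod 2) := fun ε => Function.update ε l0 (ε l0 + 1) with hσ
    have two : ∀ x : ZMod 2, x + x = 0 := by decide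
    have hσσ : ∀ ε, σ (σ ε) = ε := fun ε => by
      simp only [hσ, Function.update_idem, Function.update_self]
      rw [add_assoc, two, add_zero, Function.update_eq_self]
    have hlin : ∀ (r : ι → ZMod 2) (ε : ι → ZMod 2),
        ∑ l, r l * σ ε l = ∑ l, r l * ε l + r l0 := fun r ε => by
      rw [← add_sum_erase _ _ (mem_univ l0), ← add_sum_erase _ (fun l => r l * ε l) (mem_univ l0)]
      have : ∑ l ∈ univ.erase l0, r l * σ ε l = ∑ l ∈ univ.erase l0, r l * ε l :=
        sum_congr rfl fun l hl => by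
          simp only [hσ, Function.update_of_ne (mem_erase.1 hl).1]
      rw [this]
      simp only [hσ, Function.update_self]
      ring
    set μ : (ι → ZMod 2) → ℝ := fun ε => ∏ l, w l (ε l) with hμ
    have hμ0 : ∀ ε, 0 ≤ μ ε := fun ε => prod_nonneg fun l _ => (hw l _).1
    have hstep : ∀ ε, μ ε ≤ 2 / 3 * (μ ε + μ (σ ε)) := fun ε => by
      have e1 : μ ε = w l0 (ε l0) * ∏ l ∈ univ.erase l0, w l (ε l) :=
        (mul_prod_erase _ (fun l => w l (ε l)) (mem_univ l0)).symm
      have e2 : μ (σ ε) = w l0 (ε l0 + 1) * ∏ l ∈ univ.erase l0, w l (ε l) := by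
        rw [hμ]
        simp only
        rw [← mul_prod_erase _ _ (mem_univ l0)]
        congr 1
        · simp only [hσ, Function.update_self]
        · exact prod_congr rfl fun l hl => by
            simp only [hσ, Function.update_of_ne (mem_erase.1 hl).1]
      have e3 : w l0 (ε l0) + w l0 (ε l0 + 1) = w l0 0 + w l0 1 := by
        rcases z2 (ε l0) with e | e
        · rw [e, zero_add]
        · rw [e, two, add_comm]
      rw [e2, e1, ← add_mul, e3, ← mul_assoc]
      exact mul_le_mul_of_nonneg_right (hw l0 _).2 (prod_nonneg fun l _ => (hw l _).1)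
    set E := univ.filter (fun ε : ι → ZMod 2 => ∀ a ∈ insert a0 S, ∑ l, M a l * ε l = v a)
      with hE
    set E' := univ.filter (fun ε : ι → ZMod 2 => ∀ a ∈ S,
      ∑ l, (M a l + M a l0 * M a0 l) * ε l = v a + M a l0 * v a0) with hE'
    have hsub : ∀ ε ∈ E, ε ∈ E' ∧ σ ε ∈ E' ∧ σ ε ∉ E := fun ε hε => by
      have h := (mem_filter.1 hε).2
      have h0 := h a0 (mem_insert_self _ _)
      have h2 : ∀ a ∈ S, ∑ l, (M a l + M a l0 * M a0 l) * ε l = v a + M a l0 * v a0 :=
        fun a haS => by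
          rw [← h a (mem_insert_of_mem haS), ← h0, mul_sum, ← sum_add_distrib]
          exact sum_congr rfl fun l _ => by ring
      refine ⟨mem_filter.2 ⟨mem_univ _, h2⟩, mem_filter.2 ⟨mem_univ _, fun a haS => ?_⟩,
        fun hh => ?_⟩
      · rw [hlin (fun l => M a l + M a l0 * M a0 l), h2 a haS, hl0, mul_one, two, add_zero]
      · have h3 := (mem_filter.1 hh).2 a0 (mem_insert_self _ _)
        rw [hlin, h0, hl0] at h3
        simp at h3
    have hinj : Function.Injective σ := Function.LeftInverse.injective hσσ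
    have h2 : ∑ ε ∈ E, μ ε + ∑ ε ∈ E, μ (σ ε) ≤ ∑ ε ∈ E', μ ε := by
      rw [← sum_image (s := E) (g := σ) (f := μ) fun x _ y _ e => hinj e, ← sum_union]
      · refine sum_le_sum_of_subset_of_nonneg (union_subset (fun ε hε => (hsub ε hε).1)
          fun ε hε => ?_) fun ε _ _ => hμ0 ε
        obtain ⟨x, hx, rfl⟩ := mem_image.1 hε
        exact (hsub x hx).2.1
      · refine disjoint_right.2 fun ε hε => ?_
        obtain ⟨x, hx, rfl⟩ := mem_image.1 hε
        exact (hsub x hx).2.2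
    have h3 : ∑ ε ∈ E, μ ε ≤ 2 / 3 * (∑ ε ∈ E, μ ε + ∑ ε ∈ E, μ (σ ε)) := by
      rw [← sum_add_distrib, mul_sum]
      exact sum_le_sum fun ε _ => hstep ε
    rw [card_insert_of_notMem ha, pow_succ]
    have h4 : ∑ ε ∈ E', μ ε ≤ (2 / 3) ^ S.card * ∏ l, (w l 0 + w l 1) := h1
    change ∑ ε ∈ E, μ ε ≤ _
    linarith

end Pool.Agent.MP_436a94_nt.E

end

section

/-!
The least separating modulus, given a prime with a primitive root just above the bound.
-/

set_option autoImplicit false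

open Finset

namespace Pool.Agent.MP_436a94_nt.E

lemma modeq_iff (x y : ℤ) (m : ℕ) : x ≡ y [ZMOD (m : ℤ)] ↔ (x : ZMod m) = (y : ZMod m) :=
  (ZMod.intCast_eq_intCast_iff x y m).symm

lemma sep_mono {a : ℤ} {n n' m : ℕ} (h : Sep a n m) (hn : n' ≤ n) : Sep a n' m :=
  fun i j h1 h2 h3 h4 e => h i j h1 (h2.trans hn) h3 (h4.trans hn) e

lemma sep_of_ord {a : ℤ} {n m : ℕ} (h : n ≤ orderOf (a : ZMod m)) : Sep a n m := by
  intro i j h1 h2 h3 h4 e
  rw [modeq_iff] at e
  push_cast at e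
  rcases Nat.eq_zero_or_pos n with rfl | hn
  · omega
  have h0 : 0 < orderOf (a : ZMod m) := by omega
  have hf : IsOfFinOrder (a : ZMod m) := orderOf_pos_iff.1 h0
  have hu := hf.isUnit
  obtain ⟨i, rfl⟩ : ∃ k, i = k + 1 := ⟨i - 1, by omega⟩
  obtain ⟨j, rfl⟩ : ∃ k, j = k + 1 := ⟨j - 1, by omega⟩
  rw [pow_succ, pow_succ] at e
  have e2 := hu.mul_right_cancel e
  have := pow_injOn_Iio_orderOf (x := (a : ZMod m)) (show i ∈ Set.Iio _ from by
    simp only [Set.mem_Iio]; omega) (show j ∈ Set.Iio _ from by simp only [Set.mem_Iio]; omega) e2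
  omega

lemma le_of_sep {a : ℤ} {n m k : ℕ} (h : Sep a n m) (hk : 0 < k) (e : (a : ZMod m) ^ k = 1) :
    n ≤ k := by
  by_contra hc
  have := h 1 (1 + k) le_rfl (by omega) (by omega) (by omega) (by
    rw [modeq_iff]
    push_cast
    rw [pow_add, e, mul_one])
  omega

lemma le_div_of_sep {a : ℤ} {n m l : ℕ} (h : Sep a n m) (hm : 0 < m) (hl : l ∣ m)
    (ha : (l : ℤ) ∣ a) : n * l ≤ m := by
  obtain ⟨k, rfl⟩ := hl
  have hl0 : 0 < l := Nat.pos_of_mul_pos_right hm
  have hk0 : 0 < k := Nat.pos_of_mul_pos_left hm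
  have key : (Icc 1 n).card ≤ (range k).card := by
    refine card_le_card_of_injOn (fun i => ((a ^ i / l) % k).toNat) (fun i _ => ?_)
      fun i hi j hj e => ?_
    · have h1 : (a ^ i / l) % k < k := Int.emod_lt_of_pos _ (by exact_mod_cast hk0)
      have h2 : 0 ≤ (a ^ i / l) % k := Int.emod_nonneg _ (by exact_mod_cast hk0.ne')
      simp only [coe_range, Set.mem_Iio]
      omega
    · simp only [coe_Icc, Set.mem_Icc] at hi hj
      have h2 : 0 ≤ (a ^ i / l) % k := Int.emod_nonneg _ (by exact_mod_cast hk0.ne')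
      have h3 : 0 ≤ (a ^ j / l) % k := Int.emod_nonneg _ (by exact_mod_cast hk0.ne')
      have e' : (a ^ i / l) % k = (a ^ j / l) % k := by
        simp only at e
        omega
      have d1 : (l : ℤ) ∣ a ^ i := dvd_pow ha (by omega)
      have d2 : (l : ℤ) ∣ a ^ j := dvd_pow ha (by omega)
      refine h i j hi.1 hi.2 hj.1 hj.2 ?_
      have e2 : (a ^ i / l) ≡ (a ^ j / l) [ZMOD (k : ℤ)] := e'
      have e3 := Int.ModEq.mul_left' (c := (l : ℤ)) e2
      rw [Int.mul_ediv_cancel' d1, Int.mul_ediv_cancel' d2] at e3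
      push_cast
      exact e3
  rw [Nat.card_Icc, card_range] at key
  have : n ≤ k := by omega
  rw [mul_comm l k]
  exact Nat.mul_le_mul_right _ this

lemma pow_tot {a : ℤ} {m : ℕ} (h : a.natAbs.Coprime m) : (a : ZMod m) ^ m.totient = 1 := by
  have hu : IsUnit (a : ZMod m) := by
    rw [ZMod.coe_int_isUnit_iff_isCoprime, Int.isCoprime_iff_gcd_eq_one, Int.gcd_comm]
    exact h
  obtain ⟨u, hu⟩ := hu
  rw [← hu, ← Units.val_pow_eq_pow_val, ZMod.pow_totient, Units.val_one]

lemma tot_le {m : ℕ} (h1 : 1 < m) (hp : ¬ m.Prime) :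
    ∃ r, m ≤ r ^ 2 ∧ m.totient + r ≤ m := by
  have hq := Nat.minFac_prime (show m ≠ 1 by omega)
  have hd := Nat.minFac_dvd m
  have hs := Nat.minFac_sq_le_self (by omega) hp
  set q := m.minFac
  obtain ⟨r, hr⟩ := hd
  have hq0 := hq.pos
  have hqr : q ≤ r := by
    rw [hr, sq] at hs
    exact Nat.le_of_mul_le_mul_left hs hq0
  refine ⟨r, by rw [hr, sq]; exact Nat.mul_le_mul_right _ hqr, ?_⟩
  have h2 : (filter (fun a => m.Coprime a) (range m)).card +
      (filter (fun a => ¬ m.Coprime a) (range m)).card = m := by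
    rw [card_filter_add_card_filter_not, card_range]
  have h3 : (range r).card ≤ (filter (fun a => ¬ m.Coprime a) (range m)).card := by
    refine card_le_card_of_injOn (fun i => q * i) (fun i hi => ?_) fun i _ j _ e => ?_
    · simp only [coe_range, Set.mem_Iio] at hi
      simp only [coe_filter, mem_range, Set.mem_ofPred_eq]
      refine ⟨by rw [hr]; exact Nat.mul_lt_mul_of_pos_left hi hq0, fun hc => ?_⟩
      have : q ∣ Nat.gcd m (q * i) := Nat.dvd_gcd ⟨r, hr⟩ ⟨i, rfl⟩
      rw [hc] at this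
      exact hq.one_lt.ne' (Nat.dvd_one.1 this)
    · exact Nat.eq_of_mul_eq_mul_left hq0 e
  rw [card_range] at h3
  rw [Nat.totient_eq_card_coprime]
  omega

lemma prime_of_tot {m n p : ℕ} (h1 : 1 < m) (hm : m ≤ p) (hs : (p - n) ^ 2 ≤ n)
    (ht : n ≤ m.totient) : m.Prime := by
  by_contra hp
  obtain ⟨r, r1, r2⟩ := tot_le h1 hp
  have h3 : m.totient < m := Nat.totient_lt m h1
  have h4 : r ≤ p - n := by omega
  have h5 : r ^ 2 ≤ (p - n) ^ 2 := Nat.pow_le_pow_left h4 2
  omega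

lemma isLeast_f {a : ℤ} {n p : ℕ} {A : Set ℕ} (hp : p ∈ A)
    (h1 : ∀ q ∈ A, 1 < q ∧ Sep a n q)
    (h2 : ∀ m, 1 < m → m ≤ p → Sep a n m → m ∈ A) : IsLeast A (f a n) := by
  have hne : ({m : ℕ | 1 < m ∧ Sep a n m} : Set ℕ).Nonempty := ⟨p, h1 p hp⟩
  have hm := Nat.sInf_mem hne
  have hl : ∀ q ∈ A, f a n ≤ q := fun q hq => Nat.sInf_le (h1 q hq)
  exact ⟨h2 _ hm.1 (hl p hp) hm.2, hl⟩

lemma eq_of_dvd {d k n : ℕ} (hd : d ∣ k) (hk : 0 < k) (h1 : n ≤ d) (h2 : k < 2 * n) : d = k := by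
  obtain ⟨c, rfl⟩ := hd
  have hc : 0 < c := Nat.pos_of_mul_pos_left hk
  by_contra hne
  have : 2 ≤ c := by
    by_contra h
    have : c = 1 := by omega
    subst this
    simp at hne
  nlinarith

lemma small {n p : ℕ} (hn : 10 ≤ n) (hs : (p - n) ^ 2 ≤ n) : 2 * p < 3 * n := by
  by_contra h
  have h1 : n ≤ 2 * (p - n) := by omega
  nlinarith

theorem s_S1 : StS1 := by
  intro a n p hn hp hnp hs hpr
  refine isLeast_f (p := p) ⟨hp, hnp, hpr⟩ (fun q hq => ⟨hq.1.one_lt, sep_of_ord ?_⟩)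
    fun m h1 hm hS => ?_
  · have := hq.2.1
    rw [hq.2.2]
    omega
  have hsm := small hn hs
  have hc : a.natAbs.Coprime m := by
    refine Nat.coprime_of_dvd fun l hl la lm => ?_
    have := le_div_of_sep hS (by omega) lm (Int.natCast_dvd.2 la)
    have := hl.two_le
    nlinarith
  have ht := pow_tot hc
  have h2 := le_of_sep hS (Nat.totient_pos.2 (by omega)) ht
  have hmp := prime_of_tot h1 hm hs h2
  rw [Nat.totient_prime hmp] at ht h2
  have ho : 0 < orderOf (a : ZMod m) :=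
    orderOf_pos_iff.2 (isOfFinOrder_iff_pow_eq_one.2 ⟨m - 1, by omega, ht⟩)
  have h3 := le_of_sep hS ho (pow_orderOf_eq_one _)
  exact ⟨hmp, by omega, eq_of_dvd (orderOf_dvd_of_pow_eq_one ht) (by omega) h3 (by omega)⟩

lemma sq_tot {a : ℤ} {n m : ℕ} (hS : Sep (a ^ 2) n m) (hm : 2 < m) (hc : a.natAbs.Coprime m) :
    2 * n ≤ m.totient ∧ ((a ^ 2 : ℤ) : ZMod m) ^ (m.totient / 2) = 1 := by
  have he := Nat.totient_even hm
  have h0 : 0 < m.totient := Nat.totient_pos.2 (by omega)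
  obtain ⟨k, hk⟩ := he
  have e : ((a ^ 2 : ℤ) : ZMod m) ^ (m.totient / 2) = 1 := by
    push_cast
    rw [← pow_mul, show 2 * (m.totient / 2) = m.totient by omega, pow_tot hc]
  have := le_of_sep hS (by omega) e
  exact ⟨by omega, e⟩

theorem s_S2 : StS2 := by
  intro a n p hn hp hnp hs hpr
  have hsm := small (n := 2 * n) (by omega) hs
  have hp2 : p % 2 = 1 := hp.eq_two_or_odd.resolve_left (by omega)
  refine isLeast_f (p := p) ⟨hp, hnp, sep_of_ord ?_⟩
    (fun q hq => ⟨hq.1.one_lt, sep_mono hq.2.2 ?_⟩) fun m h1 hm hS => ?_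
  · push_cast
    rw [orderOf_pow' _ two_ne_zero, show orderOf (a : ZMod p) = p - 1 from hpr]
    exact Nat.div_le_div_left (Nat.gcd_le_right _ (by norm_num))
      (Nat.gcd_pos_of_pos_right _ (by norm_num))
  · have := hq.2.1
    omega
  have hn1 : n ≤ m := by
    have := le_div_of_sep (l := 1) hS (by omega) (one_dvd _) (by simp)
    omega
  have h3 : ∀ l : ℕ, 3 ≤ l → l ∣ m → (l : ℤ) ∣ a ^ 2 → False := fun l hl lm la => by
    have := le_div_of_sep hS (by omega) lm la
    nlinarith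
  have hc : a.natAbs.Coprime m := by
    refine Nat.coprime_of_dvd fun l hl la lm => ?_
    have la' : (l : ℤ) ∣ a := Int.natCast_dvd.2 la
    by_cases hl3 : 3 ≤ l
    · exact h3 l hl3 lm (dvd_pow la' two_ne_zero)
    have hl2 : l = 2 := by
      have := hl.two_le
      omega
    subst hl2
    obtain ⟨m', rfl⟩ := lm
    by_cases h4 : 2 ∣ m'
    · refine h3 4 (by norm_num) (by omega) ?_
      obtain ⟨b, rfl⟩ := la'
      exact ⟨b ^ 2, by push_cast; ring⟩
    have hc' : a.natAbs.Coprime m' := by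
      refine Nat.coprime_of_dvd fun l hl la lm => ?_
      have la' : (l : ℤ) ∣ a := Int.natCast_dvd.2 la
      refine h3 l ?_ (Dvd.dvd.mul_left lm 2) (dvd_pow la' two_ne_zero)
      have := hl.two_le
      by_contra hh
      have : l = 2 := by omega
      subst this
      exact h4 lm
    have hS' : Sep (a ^ 2) n m' := by
      intro i j i1 i2 j1 j2 e
      refine hS i j i1 i2 j1 j2 ?_
      push_cast
      refine (Int.modEq_and_modEq_iff_modEq_mul ?_).1 ⟨?_, e⟩
      · simpa using (Nat.coprime_two_left.2 (Nat.odd_iff.2 (by omega)) : Nat.Coprime 2 m')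
      · have d1 : (2 : ℤ) ∣ (a ^ 2) ^ i := dvd_pow (dvd_pow la' two_ne_zero) (by omega)
        have d2 : (2 : ℤ) ∣ (a ^ 2) ^ j := dvd_pow (dvd_pow la' two_ne_zero) (by omega)
        exact (Int.modEq_zero_iff_dvd.2 d1).trans (Int.modEq_zero_iff_dvd.2 d2).symm
    have h5 := (sq_tot hS' (by omega) hc').1
    have h6 := Nat.totient_le m'
    omega
  obtain ⟨t1, t2⟩ := sq_tot hS (by omega) hc
  have hmp := prime_of_tot h1 hm hs t1
  rw [Nat.totient_prime hmp] at t1 t2
  have ho : 0 < orderOf ((a ^ 2 : ℤ) : ZMod m) :=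
    orderOf_pos_iff.2 (isOfFinOrder_iff_pow_eq_one.2 ⟨(m - 1) / 2, by omega, t2⟩)
  have h7 := le_of_sep hS ho (pow_orderOf_eq_one _)
  refine ⟨hmp, by omega, sep_of_ord ?_⟩
  exact (eq_of_dvd (orderOf_dvd_of_pow_eq_one t2) (by omega) h7 (by omega)).ge

end Pool.Agent.MP_436a94_nt.E

end

section

/-!
Quadratic reciprocity in additive form.
-/

set_option autoImplicit false

open Finset
open scoped Classical

namespace Pool.Agent.MP_436a94_nt.E

lemma nr_zero {a : ℤ} {p : ℕ} : nr a p = 0 ↔ IsSquare (a : ZMod p) := by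
  unfold nr
  split_ifs with h
  · simp [h]
  · simp [h]

lemma nr_mul {p : ℕ} (hp : p.Prime) {a b : ℤ} (ha : (a : ZMod p) ≠ 0) (hb : (b : ZMod p) ≠ 0) :
    nr (a * b) p = nr a p + nr b p := by
  have := Fact.mk hp
  have hab : ((a * b : ℤ) : ZMod p) ≠ 0 := by
    push_cast
    exact mul_ne_zero ha hb
  have k0 : ∀ x : ℤ, (x : ZMod p) ≠ 0 → legendreSym p x = 1 → nr x p = 0 := fun x hx h =>
    nr_zero.2 ((legendreSym.eq_one_iff p hx).1 h)
  have k1 : ∀ x : ℤ, legendreSym p x = -1 → nr x p = 1 := fun x h =>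
    nr_one.2 ((legendreSym.eq_neg_one_iff p).1 h)
  have hm := legendreSym.mul p a b
  rcases legendreSym.eq_one_or_neg_one p ha with h1 | h1 <;>
    rcases legendreSym.eq_one_or_neg_one p hb with h2 | h2 <;> rw [h1, h2] at hm
  · rw [k0 _ hab (by rw [hm]; norm_num), k0 _ ha h1, k0 _ hb h2]; rfl
  · rw [k1 _ (by rw [hm]; norm_num), k0 _ ha h1, k1 _ h2]; rfl
  · rw [k1 _ (by rw [hm]; norm_num), k1 _ h1, k0 _ hb h2]; rfl
  · rw [k0 _ hab (by rw [hm]; norm_num), k1 _ h1, k1 _ h2]; rfl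

lemma nr_pow {p : ℕ} (hp : p.Prime) {a : ℤ} (ha : (a : ZMod p) ≠ 0) (k : ℕ) :
    nr (a ^ k) p = k * nr a p := by
  have := Fact.mk hp
  induction k with
  | zero => simpa using nr_zero.2 (by simp)
  | succ k ih =>
    rw [pow_succ, nr_mul hp (by push_cast; exact pow_ne_zero _ ha) ha, ih]
    push_cast
    ring

lemma nr_prod {p : ℕ} (hp : p.Prime) (T : Finset ℕ) (g : ℕ → ℤ)
    (h : ∀ l ∈ T, (g l : ZMod p) ≠ 0) : nr (∏ l ∈ T, g l) p = ∑ l ∈ T, nr (g l) p := by
  have := Fact.mk hp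
  induction T using Finset.induction_on with
  | empty => simpa using nr_zero.2 (by simp)
  | insert a T ha ih =>
    have h2 : ∀ l ∈ T, (g l : ZMod p) ≠ 0 := fun l hl => h l (mem_insert_of_mem hl)
    rw [prod_insert ha, sum_insert ha, nr_mul hp (h a (mem_insert_self _ _))
      (by push_cast; exact prod_ne_zero_iff.2 h2), ih h2]

/-- the correction term of a prime -/
noncomputable def k0 (l c : ℕ) : ZMod 2 :=
  if l = 2 then (if c % 8 = 7 then 0 else 1) else if l = 3 then 1 + nr c 3 else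
    if l % 4 = 1 then 0 else 1

lemma nr_flip {a b : ℤ} {p q : ℕ} (h : IsSquare (a : ZMod p) ↔ ¬ IsSquare (b : ZMod q)) :
    nr a p = 1 + nr b q := by
  by_cases hb : IsSquare (b : ZMod q)
  · rw [nr_zero.2 hb, add_zero]
    exact nr_one.2 fun ha => h.1 ha hb
  · rw [nr_one.2 hb, nr_zero.2 (h.2 hb)]
    rfl

lemma nr_same {a b : ℤ} {p q : ℕ} (h : IsSquare (a : ZMod p) ↔ IsSquare (b : ZMod q)) :
    nr a p = nr b q := by
  unfold nr
  simp only [h]

lemma nr_prime {p l : ℕ} (hp : p.Prime) (h4 : p % 4 = 3) (hl : l.Prime) (hlp : l < p) :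
    nr l p = k0 l (p % 24) + if 5 ≤ l then nr p l else 0 := by
  have := Fact.mk hp
  have := Fact.mk hl
  unfold k0
  by_cases h2 : l = 2
  · subst h2
    rw [if_pos rfl, if_neg (show ¬ 5 ≤ 2 by norm_num), add_zero]
    have h := ZMod.exists_sq_eq_two_iff (p := p) (by omega)
    split_ifs with h7
    · exact nr_zero.2 (by push_cast; exact h.2 (by omega))
    · exact nr_one.2 (by push_cast; exact fun hh => by have := h.1 hh; omega)
  rw [if_neg h2]
  have hodd : l % 2 = 1 := hl.eq_two_or_odd.resolve_left h2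
  have h3m : l % 4 = 3 → nr l p = 1 + nr p l := fun h => nr_flip (by
    push_cast
    exact ZMod.exists_sq_eq_prime_iff_of_mod_four_eq_three h4 h (by omega))
  by_cases h3 : l = 3
  · subst h3
    rw [if_pos rfl, if_neg (show ¬ 5 ≤ 3 by norm_num), add_zero, h3m rfl]
    congr 1
    refine nr_same ?_
    have : ((p : ℤ) : ZMod 3) = (((p % 24 : ℕ) : ℤ) : ZMod 3) := by
      rw [Int.cast_natCast, Int.cast_natCast, ZMod.natCast_eq_natCast_iff']
      omega
    rw [this]
  have h5 : 5 ≤ l := by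
    have := hl.two_le
    omega
  rw [if_neg h3, if_pos h5]
  split_ifs with h1
  · rw [zero_add]
    refine nr_same ?_
    push_cast
    exact (ZMod.exists_sq_eq_prime_iff_of_mod_four_eq_one h1 (by omega)).symm
  · exact h3m (by omega)

theorem s_Rec : StRec := by
  refine ⟨fun a c => (if a < 0 then 1 else 0) +
    ∑ l ∈ a.natAbs.primeFactors, (a.natAbs.factorization l : ZMod 2) * k0 l c, ?_⟩
  intro a p T ha hp h4 h3 hap hT h5
  have := Fact.mk hp
  have hn := Int.natAbs_ne_zero.2 ha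
  have hne : ∀ m : ℕ, m ≠ 0 → m < p → ((m : ℤ) : ZMod p) ≠ 0 := fun m h0 hm h => by
    rw [Int.cast_natCast, ZMod.natCast_eq_zero_iff] at h
    exact absurd (Nat.le_of_dvd (by omega) h) (by omega)
  have hlt : ∀ l ∈ a.natAbs.primeFactors, l < p := fun l hl =>
    lt_of_le_of_lt (Nat.le_of_mem_primeFactors hl) hap
  have h1 : nr (a.natAbs : ℤ) p = ∑ l ∈ a.natAbs.primeFactors,
      (a.natAbs.factorization l : ZMod 2) * nr l p := by
    have e : (a.natAbs : ℤ) = ∏ l ∈ a.natAbs.primeFactors, (l : ℤ) ^ a.natAbs.factorization l := by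
      conv_lhs => rw [← Nat.prod_factorization_pow_eq_self hn]
      rw [Finsupp.prod, Nat.support_factorization]
      push_cast
      rfl
    have h0 : ∀ l ∈ a.natAbs.primeFactors, ((l : ℤ) : ZMod p) ≠ 0 := fun l hl =>
      hne l (Nat.prime_of_mem_primeFactors hl).ne_zero (hlt l hl)
    rw [e, nr_prod hp _ _ fun l hl => by push_cast; exact pow_ne_zero _ (by simpa using h0 l hl)]
    exact sum_congr rfl fun l hl => nr_pow hp (h0 l hl) _
  have h2 : nr a p = (if a < 0 then 1 else 0) + nr (a.natAbs : ℤ) p := by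
    split_ifs with h
    · have e : a = -1 * (a.natAbs : ℤ) := by omega
      conv_lhs => rw [e]
      rw [nr_mul hp (by simp) (hne _ hn hap)]
      congr 1
      refine nr_one.2 ?_
      push_cast
      rw [ZMod.exists_sq_eq_neg_one_iff]
      omega
    · rw [zero_add, Int.natAbs_of_nonneg (by omega)]
  rw [h2, h1, add_assoc]
  congr 1
  have h6 : ∑ l ∈ T, (a.natAbs.factorization l : ZMod 2) * nr p l =
      ∑ l ∈ a.natAbs.primeFactors, (a.natAbs.factorization l : ZMod 2) *
        if 5 ≤ l then nr p l else 0 := by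
    simp only [mul_ite, mul_zero]
    rw [← sum_filter]
    symm
    refine sum_subset (fun l hl => ?_) fun l hl hl2 => ?_
    · obtain ⟨l1, l2⟩ := mem_filter.1 hl
      exact hT l (Nat.prime_of_mem_primeFactors l1) l2 (Nat.dvd_of_mem_primeFactors l1)
    · have : l ∉ a.natAbs.primeFactors := fun h => hl2 (mem_filter.2 ⟨h, h5 l hl⟩)
      rw [← Nat.support_factorization, Finsupp.notMem_support_iff] at this
      rw [this]
      simp
  rw [h6, ← sum_add_distrib]
  refine sum_congr rfl fun l hl => ?_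
  rw [nr_prime hp h4 (Nat.prime_of_mem_primeFactors hl) (hlt l hl), mul_add]

end Pool.Agent.MP_436a94_nt.E

end
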