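import Pool.Agent.Mg.F436a94p.Gedbf33
import Pool.Agent.Mg.F436a94p.Gb8cf27
import Pool.Agent.Mg.F436a94p.G58f7c4

set_option linter.all false

section

/-!
A positive proportion of the windows contain many rough primes; the exceptional classes.
-/

set_option autoImplicit false

open Finset Filter
open scoped Classical

namespace Pool.Agent.MP_436a94_nt.E

/-- many rough primes in a long interval -/
def StLR : Prop := ∃ al c : ℝ, 0 < al ∧ 0 < c ∧ ∀ᶠ N : ℕ in atTop,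
  c * N / Real.log N ^ 2 ≤ (((Ioc (2 * N) (3 * N)).filter (Rg ((N : ℝ) ^ al))).card : ℝ)

lemma win_le (hC : StCnt) {al : ℝ} (hal : 0 < al) : ∃ K : ℝ, 0 < K ∧ ∀ᶠ N : ℕ in atTop,
    ∀ n, N ≤ n → (((Ioc n (n + Nat.sqrt N)).filter (Rg ((N : ℝ) ^ al))).card : ℝ) ≤
      K * Nat.sqrt N / Real.log N ^ 2 := by
  obtain ⟨A, hC⟩ := hC
  set β := min al (1 / (8 * (A + 1))) with hβ
  have β0 : 0 < β := lt_min hal (by positivity)
  have β1 : β ≤ al := min_le_left _ _
  have β3 : β * (8 * (A + 1)) ≤ 1 := (le_div_iff₀ (by positivity)).1 (min_le_right _ _)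
  have A0 : (0 : ℝ) ≤ A := Nat.cast_nonneg A
  refine ⟨3456 / β ^ 2 + 1, by positivity, ?_⟩
  filter_upwards [ev_pow 3 0 (half_pos β0), ev_pow 48 2 (show (0 : ℝ) < 1 / 8 by norm_num),
    ev_log 1, eventually_ge_atTop 4] with N e2 e4 hL hN n hn
  rw [pow_zero, mul_one] at e2
  set L := Real.log N with hLd
  set H := Nat.sqrt N with hH
  have hH1 : 1 ≤ H := Nat.le_sqrt.2 (by omega)
  have H1 : (1 : ℝ) ≤ H := by exact_mod_cast hH1
  have N1 : (1 : ℝ) ≤ N := by exact_mod_cast (show 1 ≤ N by omega)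
  have N0 : (0 : ℝ) < N := by linarith
  have L0 : 0 < L := by linarith
  have mono : ∀ {a b : ℝ}, a ≤ b → (N : ℝ) ^ a ≤ (N : ℝ) ^ b := fun h =>
    Real.rpow_le_rpow_of_exponent_le N1 h
  set w := (N : ℝ) ^ (1 / 8 : ℝ) with hw
  have w1 : 1 ≤ w := Real.one_le_rpow N1 (by norm_num)
  have w8 : (w ^ 4) ^ 2 = N := by
    rw [← pow_mul, hw, ← Real.rpow_natCast, ← Real.rpow_mul N0.le]
    norm_num
  have w4 : w ^ 4 ≤ 2 * H := by
    have a1 : (N : ℝ) ≤ (H + 1) ^ 2 := by exact_mod_cast (Nat.lt_succ_sqrt' N).le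
    rw [← w8] at a1
    have := (pow_le_pow_iff_left₀ (by positivity) (by positivity) two_ne_zero).1 a1
    linarith
  set z := ⌊(N : ℝ) ^ β⌋₊ with hz
  have z0 : (z : ℝ) ≤ (N : ℝ) ^ β := Nat.floor_le (by positivity)
  have z1 : (N : ℝ) ^ (β / 2) ≤ z := by
    have a1 : (N : ℝ) ^ β < z + 1 := Nat.lt_floor_add_one _
    have a2 : (N : ℝ) ^ β = (N : ℝ) ^ (β / 2) * (N : ℝ) ^ (β / 2) := by
      rw [← Real.rpow_add N0, add_halves]
    nlinarith
  have z2 : β / 2 * L ≤ Real.log z := by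
    rw [hLd, ← Real.log_rpow N0]
    exact Real.log_le_log (by positivity) z1
  have z4 : (z : ℝ) ^ A ≤ w := by
    refine (pow_le_pow_left₀ (by positivity) z0 _).trans ?_
    rw [← Real.rpow_natCast, ← Real.rpow_mul N0.le]
    exact mono (by nlinarith)
  have z5 : (z : ℝ) ≤ n := z0.trans (((mono (by nlinarith)).trans_eq (Real.rpow_one _)).trans
    (Nat.cast_le.2 hn))
  have b1 := hC n H z 1 ((N : ℝ) ^ al) ∅ (fun _ => 0) (by exact_mod_cast e2.trans z1)
    (z0.trans (mono β1)) (by rw [Nat.cast_one]; exact Real.one_le_rpow N1 hal.le) (by omega)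
    (by exact_mod_cast z5) le_rfl (fun S hS h => absurd (subset_empty.1 hS) h.ne_empty)
    (by simp) (by simpa using hH1)
  simp only [notMem_empty, false_imp_iff, implies_true, and_true, card_empty, pow_zero,
    mul_one] at b1
  have b2 : 864 * (H : ℝ) / Real.log z ^ 2 ≤ 3456 / β ^ 2 * H / L ^ 2 := by
    calc _ ≤ 864 * (H : ℝ) / (β / 2 * L) ^ 2 := by gcongr
      _ = _ := by
        field_simp
        ring
  have b3 : 24 * (z : ℝ) ^ A ≤ H / L ^ 2 := by
    rw [le_div_iff₀ (by positivity)]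
    have : w ^ 2 ≤ w ^ 4 := pow_le_pow_right₀ w1 (by norm_num)
    calc _ ≤ 24 * w * L ^ 2 := by gcongr
      _ = w * (48 * L ^ 2) / 2 := by ring
      _ ≤ w * w / 2 := by gcongr
      _ ≤ H := by nlinarith
  rw [add_mul, add_div, one_mul]
  exact b1.trans (add_le_add b2 b3)

lemma pos_many (hL : StLR) (hC : StCnt) : ∃ al c δ : ℝ, 0 < al ∧ 0 < c ∧ 0 < δ ∧
    ∀ᶠ N : ℕ in atTop,
      δ * N ≤ (((Ico N ((3 * N + 1) / 2)).filter fun n => Many al c N (2 * n)).card : ℝ) := by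
  obtain ⟨al, c, hal, hc, hL⟩ := hL
  obtain ⟨K, hK, hW⟩ := win_le hC hal
  refine ⟨al, c / 12, c / (12 * K), hal, by positivity, by positivity, ?_⟩
  filter_upwards [hL, hW, ev_pow (2 / c) 2 (show (0 : ℝ) < 1 / 2 by norm_num), ev_log 1,
    eventually_ge_atTop 4] with N h1 h2 h3 h4 hN
  set L := Real.log N with hLd
  set H := Nat.sqrt N with hH
  have hH2 : 2 ≤ H := Nat.le_sqrt.2 (by omega)
  have H0 : (0 : ℝ) < H := by exact_mod_cast (show 0 < H by omega)
  have N0 : (0 : ℝ) < N := by exact_mod_cast (show 0 < N by omega)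
  have L0 : 0 < L := by linarith
  set J := Ico N ((3 * N + 1) / 2) with hJ
  set R := (Ioc (2 * N) (3 * N)).filter (Rg ((N : ℝ) ^ al)) with hR
  set R' := R.filter fun p => 2 * N + H < p with hR'
  set W : ℕ → ℝ := fun n => ((Ioc (2 * n) (2 * n + H)).filter (Rg ((N : ℝ) ^ al))).card with hW
  have a1 : R.card ≤ R'.card + H := by
    have : R ⊆ R' ∪ Ioc (2 * N) (2 * N + H) := fun p hp => by
      by_cases e : 2 * N + H < p
      · exact mem_union_left _ (mem_filter.2 ⟨hp, e⟩)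
      · exact mem_union_right _ (mem_Ioc.2 ⟨(mem_Ioc.1 (mem_filter.1 hp).1).1, not_lt.1 e⟩)
    have := (card_le_card this).trans (card_union_le _ _)
    rw [Nat.card_Ioc] at this
    omega
  have a2 : (H : ℝ) ≤ c * N / L ^ 2 / 2 := by
    rw [← Real.sqrt_eq_rpow, div_mul_eq_mul_div, div_le_iff₀ hc] at h3
    have b1 : (H : ℝ) ≤ √(N : ℝ) := Real.nat_sqrt_le_real_sqrt
    rw [le_div_iff₀ (by norm_num), le_div_iff₀ (by positivity)]
    calc _ = H * (2 * L ^ 2) := by ring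
      _ ≤ √(N : ℝ) * (√(N : ℝ) * c) := by gcongr
      _ = _ := by rw [← mul_assoc, Real.mul_self_sqrt N0.le, mul_comm]
  have a3 : c * N / L ^ 2 / 2 ≤ R'.card := by
    have : (R.card : ℝ) ≤ R'.card + H := by exact_mod_cast a1
    linarith
  have a4 : R'.card * H ≤
      3 * ∑ n ∈ J, ((Ioc (2 * n) (2 * n + H)).filter (Rg ((N : ℝ) ^ al))).card := by
    have b1 : ∑ n ∈ J, (R'.filter fun p => p ∈ Ioc (2 * n) (2 * n + H)).card ≤
        ∑ n ∈ J, ((Ioc (2 * n) (2 * n + H)).filter (Rg ((N : ℝ) ^ al))).card :=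
      sum_le_sum fun n _ => card_le_card fun p hp => mem_filter.2 ⟨(mem_filter.1 hp).2,
        (mem_filter.1 (mem_filter.1 (mem_filter.1 hp).1).1).2⟩
    refine le_trans ?_ (Nat.mul_le_mul_left 3 b1)
    simp only [card_filter]
    rw [sum_comm, mul_sum, ← smul_eq_mul]
    refine card_nsmul_le_sum _ _ _ fun p hp => ?_
    rw [← card_filter]
    have p1 := (mem_filter.1 hp).2
    have p2 := mem_Ioc.1 (mem_filter.1 (mem_filter.1 hp).1).1
    have : Ico ((p - H + 1) / 2) ((p + 1) / 2) ⊆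
        J.filter fun n => p ∈ Ioc (2 * n) (2 * n + H) := fun n hn => by
      rw [mem_Ico] at hn
      rw [mem_filter, hJ, mem_Ico, mem_Ioc]
      omega
    have := card_le_card this
    rw [Nat.card_Ico] at this
    omega
  have a5 : (R'.card : ℝ) * H ≤ 3 * ∑ n ∈ J, W n := by
    simp only [hW]
    exact_mod_cast a4
  rw [← sum_filter_add_sum_filter_not J fun n => Many al (c / 12) N (2 * n)] at a5
  have a6 : ∑ n ∈ J.filter (fun n => Many al (c / 12) N (2 * n)), W n ≤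
      (J.filter fun n => Many al (c / 12) N (2 * n)).card * (K * H / L ^ 2) := by
    rw [← nsmul_eq_mul]
    refine sum_le_card_nsmul _ _ _ fun n hn => h2 _ ?_
    have := mem_Ico.1 (mem_filter.1 hn).1
    omega
  have a7 : ∑ n ∈ J.filter (fun n => ¬ Many al (c / 12) N (2 * n)), W n ≤
      N * (c / 12 * H / L ^ 2) := by
    refine (sum_le_card_nsmul (J.filter fun n => ¬ Many al (c / 12) N (2 * n)) W
      (c / 12 * H / L ^ 2) fun n hn => (not_le.1 (mem_filter.1 hn).2).le).trans ?_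
    rw [nsmul_eq_mul]
    have : (J.filter fun n => ¬ Many al (c / 12) N (2 * n)).card ≤ N := by
      refine (card_filter_le _ _).trans ?_
      rw [Nat.card_Ico]
      omega
    gcongr
  have a8 := mul_le_mul_of_nonneg_right a3 H0.le
  refine le_of_mul_le_mul_right ?_ (show 0 < K * H / L ^ 2 by positivity)
  have a9 : c / (12 * K) * N * (K * H / L ^ 2) = N * (c / 12 * H / L ^ 2) := by field_simp
  have a10 : c * N / L ^ 2 / 2 * H = 6 * (N * (c / 12 * H / L ^ 2)) := by ring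
  linarith

lemma good_D {s N m : ℕ} {c : ℝ} (hc : 0 < c) (hN : 3 ≤ N) (h1 : 2 * N ≤ m) (h2 : m < 3 * N)
    (h : Good s c N m) : ∃ D : Finset ℤ, D.card ≤ 8 * 2 ^ s ∧ (0 : ℤ) ∉ D ∧ ∀ a : ℤ, a ≠ 0 →
      ((|a| : ℤ) : ℝ) ≤ (m : ℝ) ^ (c / 2) → (∀ d ∈ D, ¬ IsSquare (d * a)) →
        ∃ p : ℕ, p.Prime ∧ m < p ∧ (p - m) ^ 2 ≤ m ∧ PR a p := by
  set K : ℤ := ⌈(N : ℝ) ^ c⌉ with hK
  obtain ⟨D, d1, d2, d3⟩ := s_Rank s ((Icc (-K) K).filter fun a => a ≠ 0 ∧
    (a.natAbs : ℝ) ≤ (N : ℝ) ^ c ∧ ¬ ∃ p : ℕ, p.Prime ∧ m < p ∧ (p - m) ^ 2 ≤ m ∧ PR a p)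
    (fun e => (mem_filter.1 e).2.1 rfl) fun S hS hI e => by
      obtain ⟨a, a1, p, p1, p2, p3, p4⟩ := h S e hI fun a ha => (mem_filter.1 (hS ha)).2.2.1
      refine (mem_filter.1 (hS a1)).2.2.2 ⟨p, p1, p2, ?_, p4⟩
      have := Nat.sqrt_le' N
      exact (Nat.pow_le_pow_left (show p - m ≤ Nat.sqrt N by omega) 2).trans (by omega)
  refine ⟨D, d1, d2, fun a a0 a1 a2 => ?_⟩
  by_contra hno
  have a3 : ((|a| : ℤ) : ℝ) ≤ (N : ℝ) ^ c := by
    refine a1.trans ?_
    have b1 : (m : ℝ) ≤ (N : ℝ) ^ 2 := by exact_mod_cast (show m ≤ N ^ 2 by nlinarith)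
    refine (Real.rpow_le_rpow (Nat.cast_nonneg m) b1 (by positivity)).trans_eq ?_
    rw [← Real.rpow_natCast, ← Real.rpow_mul (Nat.cast_nonneg N)]
    congr 1
    push_cast
    ring
  have a4 : |a| ≤ K := by exact_mod_cast a3.trans (Int.le_ceil _)
  obtain ⟨d, e1, e2⟩ := d3 a (mem_filter.2 ⟨mem_Icc.2 (abs_le.1 a4), a0, by
    rw [Nat.cast_natAbs]
    exact a3, hno⟩)
  exact a2 d e1 e2

theorem pos_main (hL : StLR) (hC : StCnt) : ∃ (C : ℕ) (c δ : ℝ), 0 < c ∧ 0 < δ ∧ ∃ X₀ : ℕ,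
    ∀ X : ℕ, X₀ ≤ X → δ * X ≤ ({n : ℕ | n ≤ X ∧ ∃ D : Finset ℤ, D.card ≤ C ∧ (0 : ℤ) ∉ D ∧
      ∀ a : ℤ, 1 < |a| → ((|a| : ℤ) : ℝ) ≤ (n : ℝ) ^ c → (∀ d ∈ D, ¬ IsSquare (d * a)) →
        IsLeast {p : ℕ | p.Prime ∧ 2 * n < p ∧ orderOf (a : ZMod p) = p - 1} (f a (2 * n)) ∧
        IsLeast {p : ℕ | p.Prime ∧ 2 * n < p ∧ Sep (a ^ 2) ((p - 1) / 2) p}
          (f (a ^ 2) n)}.ncard : ℝ) := by
  obtain ⟨al, c, δ, hal, hc, hδ, h1⟩ := pos_many hL hC
  obtain ⟨s, c', hc', h2⟩ := main2 hC hal hc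
  obtain ⟨N₀, h⟩ := eventually_atTop.1 (h1.and ((h2 1).and ((ev_log (2 / δ)).and
    (eventually_ge_atTop 10))))
  refine ⟨8 * 2 ^ s, c' / 2, δ / 6, by positivity, by positivity, 2 * N₀, fun X hX => ?_⟩
  obtain ⟨h1, h2, h3, h4⟩ := h (X / 2) (by omega)
  set N := X / 2 with hN
  set J := Ico N ((3 * N + 1) / 2) with hJ
  have N0 : (0 : ℝ) ≤ N := Nat.cast_nonneg N
  have a1 : (N : ℝ) / Real.log N ^ 1 ≤ δ / 2 * N := by
    have L0 : 0 < Real.log N := lt_of_lt_of_le (by positivity) h3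
    rw [div_le_iff₀ hδ] at h3
    rw [pow_one, div_le_iff₀ L0]
    nlinarith
  have a2 : (J.filter fun n => Many al c N (2 * n)).card ≤
      (J.filter fun n => Good s c' N (2 * n)).card + ((Ico (2 * N) (3 * N)).filter fun n =>
        Many al c N n ∧ ¬ Good s c' N n).card := by
    rw [← card_filter_add_card_filter_not (s := J.filter fun n => Many al c N (2 * n))
      fun n => Good s c' N (2 * n)]
    refine add_le_add (card_le_card fun n hn => mem_filter.2
      ⟨(mem_filter.1 (mem_filter.1 hn).1).1, (mem_filter.1 hn).2⟩) ?_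
    refine card_le_card_of_injOn (fun n => 2 * n) (fun n hn => ?_) fun n _ m _ e => by
      simp only at e
      omega
    obtain ⟨n1, n2⟩ := mem_filter.1 (mem_coe.1 hn)
    obtain ⟨n3, n4⟩ := mem_filter.1 n1
    have := mem_Ico.1 n3
    exact mem_coe.2 (mem_filter.2 ⟨mem_Ico.2 (show 2 * N ≤ 2 * n ∧ 2 * n < 3 * N by omega),
      n4, n2⟩)
  have a3 : δ / 6 * X ≤ (J.filter fun n => Good s c' N (2 * n)).card := by
    have b1 : (X : ℝ) ≤ 3 * N := by exact_mod_cast (show X ≤ 3 * N by omega)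
    have b2 := (Nat.cast_le (α := ℝ)).2 a2
    rw [Nat.cast_add] at b2
    nlinarith
  refine a3.trans (Nat.cast_le.2 ?_)
  rw [← Set.ncard_coe_finset]
  refine Set.ncard_le_ncard (fun n hn => ?_) ((Set.finite_Iic X).subset fun n hn => hn.1)
  obtain ⟨n1, n2⟩ := mem_filter.1 (mem_coe.1 hn)
  have n3 := mem_Ico.1 n1
  obtain ⟨D, d1, d2, d3⟩ := good_D hc' (by omega) (by omega) (by omega) n2
  refine ⟨by omega, D, d1, d2, fun a b1 b2 b3 => ?_⟩
  obtain ⟨p, p1, p2, p3, p4⟩ := d3 a (abs_pos.1 (by omega)) (b2.trans (Real.rpow_le_rpow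
    (Nat.cast_nonneg n) (Nat.cast_le.2 (by omega)) (by positivity))) b3
  exact ⟨s_S1 a _ p (by omega) p1 p2 p3 p4, s_S2 a n p (by omega) p1 p2 p3 p4⟩

end Pool.Agent.MP_436a94_nt.E

end

section

/-!
From the blocks to all integers; the statement for almost all integers.
-/

set_option autoImplicit false

open Finset Filter
open scoped Classical

namespace Pool.Agent.MP_436a94_nt.E

lemma cover (G : ℕ → Prop) (M : ℕ) {ε : ℝ} (hε : 0 ≤ ε)
    (h : ∀ N, M ≤ N → (((Ico (2 * N) (3 * N)).filter fun n => ¬ G n).card : ℝ) ≤ ε * N) (X : ℕ) :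
    (((range X).filter fun n => ¬ G n).card : ℝ) ≤ 3 * M + 10 + 2 * ε * X := by
  induction X using Nat.strong_induction_on with
  | _ X ih =>
    by_cases hX : X ≤ 3 * M + 10
    · have h1 : ((range X).filter fun n => ¬ G n).card ≤ 3 * M + 10 :=
        (card_filter_le _ _).trans (by rwa [card_range])
      have h2 : (((range X).filter fun n => ¬ G n).card : ℝ) ≤ 3 * M + 10 := by exact_mod_cast h1
      have : 0 ≤ 2 * ε * X := by positivity
      linarith
    obtain ⟨N, hN⟩ : ∃ N, N = (X + 2) / 3 := ⟨_, rfl⟩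
    have h1 := ih (2 * N) (by omega)
    have h2 := h N (by omega)
    have h3 : ((range X).filter fun n => ¬ G n) ⊆ ((range (2 * N)).filter fun n => ¬ G n) ∪
        (Ico (2 * N) (3 * N)).filter fun n => ¬ G n := fun n hn => by
      obtain ⟨n1, n2⟩ := mem_filter.1 hn
      rw [mem_range] at n1
      by_cases e : n < 2 * N
      · exact mem_union_left _ (mem_filter.2 ⟨mem_range.2 e, n2⟩)
      · exact mem_union_right _ (mem_filter.2 ⟨mem_Ico.2 (by omega), n2⟩)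
    have h4 := (Nat.cast_le (α := ℝ)).2 ((card_le_card h3).trans (card_union_le _ _))
    have h5 : 5 * (N : ℝ) ≤ 2 * X := by exact_mod_cast (show 5 * N ≤ 2 * X by omega)
    have h6 := mul_le_mul_of_nonneg_left h5 hε
    push_cast at h1 h4
    linarith

theorem s_Den : StDen := by
  intro G h B
  obtain ⟨N₀, h⟩ := eventually_atTop.1 (h B)
  refine ⟨(3 * N₀ + 16) * (2 * (B + 1)) ^ B + 4 * 2 ^ B, by positivity, fun X hX => ?_⟩
  have X2 : (2 : ℝ) ≤ X := by exact_mod_cast hX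
  have X0 : (0 : ℝ) < X := by linarith
  have L0 : 0 < Real.log X := Real.log_pos (by linarith)
  have s1 : 1 ≤ √(X : ℝ) := Real.one_le_sqrt.2 (by linarith)
  have h1 := cover G (N₀ + Nat.sqrt X + 1) (ε := 2 ^ B / Real.log X ^ B) (by positivity)
    (fun N hN => (h N (by omega)).trans (by
      have a1 : (X : ℝ) ≤ (N : ℝ) ^ 2 := by
        have := (Nat.lt_succ_sqrt' X).le.trans
          (Nat.pow_le_pow_left (show (Nat.sqrt X).succ ≤ N by omega) 2)
        exact_mod_cast this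
      have a2 := Real.log_le_log X0 a1
      rw [Real.log_pow] at a2
      push_cast at a2
      rw [← div_pow, div_eq_inv_mul, ← inv_pow]
      have a3 : (Real.log N)⁻¹ ≤ 2 / Real.log X := by
        rw [inv_eq_one_div, div_le_div_iff₀ (by linarith) L0]
        linarith
      have a4 : 0 ≤ (Real.log N)⁻¹ := inv_nonneg.2 (by linarith)
      gcongr)) (X + 1)
  have h2 : Real.log X ^ B ≤ (2 * (B + 1)) ^ B * √(X : ℝ) := by
    have a1 := Real.log_le_rpow_div X0.le (show (0 : ℝ) < 1 / (2 * (B + 1)) by positivity)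
    rw [div_div_eq_mul_div, div_one, mul_comm] at a1
    refine (pow_le_pow_left₀ L0.le a1 B).trans ?_
    rw [mul_pow, ← Real.rpow_natCast (_ ^ _), ← Real.rpow_mul X0.le, Real.sqrt_eq_rpow]
    refine mul_le_mul_of_nonneg_left (Real.rpow_le_rpow_of_exponent_le (by linarith) ?_)
      (by positivity)
    rw [div_mul_eq_mul_div, div_le_div_iff₀ (by positivity) (by norm_num)]
    linarith
  have h3 : (Nat.sqrt X : ℝ) ≤ √(X : ℝ) := Real.nat_sqrt_le_real_sqrt
  have h4 : √(X : ℝ) ≤ (2 * (B + 1)) ^ B * X / Real.log X ^ B := by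
    rw [le_div_iff₀ (by positivity)]
    calc _ ≤ √(X : ℝ) * ((2 * (B + 1)) ^ B * √(X : ℝ)) := by gcongr
      _ = _ := by rw [mul_left_comm, Real.mul_self_sqrt X0.le]
  have h5 : (3 * N₀ + 16) * √(X : ℝ) ≤ (3 * N₀ + 16) * ((2 * (B + 1)) ^ B * X / Real.log X ^ B) := by
    gcongr
  have h6 : (0 : ℝ) ≤ N₀ := Nat.cast_nonneg _
  have h7 : 2 * (2 ^ B / Real.log X ^ B) * (X + 1) ≤ 2 * (2 ^ B / Real.log X ^ B) * (2 * X) := by
    gcongr
    linarith
  push_cast at h1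
  calc _ ≤ (3 * N₀ + 16) * ((2 * (B + 1)) ^ B * X / Real.log X ^ B) +
        2 * (2 ^ B / Real.log X ^ B) * (2 * X) := by nlinarith
    _ = _ := by ring

theorem ae_main (hM : StM) : ∃ (C : ℕ) (c : ℝ), 0 < c ∧ ∀ B : ℕ, ∃ K : ℝ, ∀ X : ℕ, 2 ≤ X →
    ({n : ℕ | n ≤ X ∧ ¬ ∃ D : Finset ℤ, D.card ≤ C ∧ (0 : ℤ) ∉ D ∧
      ∀ a : ℤ, 1 < |a| → ((|a| : ℤ) : ℝ) ≤ (n : ℝ) ^ c → (∀ d ∈ D, ¬ IsSquare (d * a)) →
        IsLeast {p : ℕ | p.Prime ∧ n < p ∧ orderOf (a : ZMod p) = p - 1} (f a n) ∧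
        IsLeast {p : ℕ | p.Prime ∧ 2 * n < p ∧ Sep (a ^ 2) ((p - 1) / 2) p}
          (f (a ^ 2) n)}.ncard : ℝ) ≤ K * X / Real.log X ^ B := by
  obtain ⟨s, c, hc, hM⟩ := hM
  refine ⟨8 * 2 ^ s + 8 * 2 ^ s, c / 2, by positivity, fun B => ?_⟩
  set G : ℕ → Prop := fun n => ∃ N, 10 ≤ N ∧ 2 * N ≤ n ∧ n < 3 * N ∧ Good s c N n with hG
  obtain ⟨K, K0, hK⟩ := s_Den G (fun B => by
    filter_upwards [hM B, eventually_ge_atTop 10] with N h1 h2
    refine le_trans (Nat.cast_le.2 (card_le_card fun n hn => ?_)) h1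
    obtain ⟨n1, n2⟩ := mem_filter.1 hn
    exact mem_filter.2 ⟨n1, fun e => n2 ⟨N, h2, (mem_Ico.1 n1).1, (mem_Ico.1 n1).2, e⟩⟩) B
  refine ⟨3 * K, fun X hX => ?_⟩
  have h1 := hK X hX
  have h2 := hK (2 * X) (by omega)
  have X2 : (2 : ℝ) ≤ X := by exact_mod_cast hX
  have L0 : 0 < Real.log X := Real.log_pos (by linarith)
  have h3 : K * (2 * X : ℕ) / Real.log (2 * X : ℕ) ^ B ≤ K * (2 * X) / Real.log X ^ B := by
    have : Real.log X ≤ Real.log (2 * X : ℕ) :=
      Real.log_le_log (by linarith) (by push_cast; linarith)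
    have e : ((2 * X : ℕ) : ℝ) = 2 * X := by push_cast; ring
    nth_rewrite 1 [e]
    gcongr
  have h4 : ((range (X + 1)).filter fun n => ¬ G (2 * n)).card ≤
      ((range (2 * X + 1)).filter fun n => ¬ G n).card := by
    refine card_le_card_of_injOn (fun n => 2 * n) (fun n hn => ?_) fun n _ m _ e => by
      simp only at e
      omega
    obtain ⟨n1, n2⟩ := mem_filter.1 (mem_coe.1 hn)
    rw [mem_range] at n1
    exact mem_coe.2 (mem_filter.2 ⟨mem_range.2 (show 2 * n < 2 * X + 1 by omega), n2⟩)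
  have h5 := (Nat.cast_le (α := ℝ)).2 ((card_union_le ((range (X + 1)).filter fun n => ¬ G n)
    ((range (X + 1)).filter fun n => ¬ G (2 * n))).trans (Nat.add_le_add_left h4 _))
  rw [Nat.cast_add] at h5
  have h6 : 3 * K * X / Real.log X ^ B =
      K * X / Real.log X ^ B + K * (2 * X) / Real.log X ^ B := by ring
  refine le_trans (Nat.cast_le.2 ?_) (h5.trans (by linarith))
  rw [← Set.ncard_coe_finset]
  refine Set.ncard_le_ncard (fun n hn => ?_) (finite_toSet _)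
  obtain ⟨n1, n2⟩ := hn
  have n3 : n ∈ range (X + 1) := mem_range.2 (by omega)
  by_contra hcon
  rw [mem_coe, mem_union, mem_filter, mem_filter] at hcon
  push Not at hcon
  obtain ⟨N, a1, a2, a3, a4⟩ := hcon.1 n3
  obtain ⟨N', b1, b2, b3, b4⟩ := hcon.2 n3
  obtain ⟨D, d1, d2, d3⟩ := good_D hc (by omega) a2 a3 a4
  obtain ⟨D', e1, e2, e3⟩ := good_D hc (by omega) b2 b3 b4
  refine n2 ⟨D ∪ D', (card_union_le _ _).trans (add_le_add d1 e1),
    fun e => (mem_union.1 e).elim d2 e2, fun a c1 c2 c3 => ?_⟩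
  have a0 : a ≠ 0 := abs_pos.1 (by omega)
  obtain ⟨p, p1, p2, p3, p4⟩ := d3 a a0 c2 fun d hd => c3 d (mem_union_left _ hd)
  obtain ⟨q, q1, q2, q3, q4⟩ := e3 a a0 (c2.trans (Real.rpow_le_rpow (Nat.cast_nonneg n)
    (Nat.cast_le.2 (by omega)) (by positivity))) fun d hd => c3 d (mem_union_right _ hd)
  exact ⟨s_S1 a n p (by omega) p1 p2 p3 p4, s_S2 a n q (by omega) q1 q2 q3 q4⟩

end Pool.Agent.MP_436a94_nt.E

end

section

/-!
The kernel of Fejér.
-/

set_option autoImplicit false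

open Finset Filter

namespace Pool.Agent.MP_436a94_nt.A

open Pool.Agent.MP_2a1f0e_nt Pool.Agent.MP_43e117_nt.PG

lemma sym_Fej (f : ℤ → ℝ) (n : ℕ) : ∑ u ∈ Ioo (-((n + 1 : ℕ) : ℤ)) (n + 1 : ℕ), f u =
    f 0 + ∑ r ∈ range n, (f (r + 1) + f (-(r + 1))) := by
  induction n with
  | zero =>
    rw [show Ioo (-((0 + 1 : ℕ) : ℤ)) (0 + 1 : ℕ) = {0} by decide]
    simp
  | succ n ih =>
    have e : Ioo (-((n + 1 + 1 : ℕ) : ℤ)) (n + 1 + 1 : ℕ) = insert ((n : ℤ) + 1)
        (insert (-((n : ℤ) + 1)) (Ioo (-((n + 1 : ℕ) : ℤ)) (n + 1 : ℕ))) := by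
      ext u
      simp only [mem_insert, mem_Ioo]
      omega
    rw [e, sum_insert (by simp only [mem_insert, mem_Ioo]; omega),
      sum_insert (by simp only [mem_Ioo]; omega), ih, sum_range_succ]
    ring

lemma gs_Fej (y : ℝ) (n : ℕ) : ‖gs (n + 1) (y / (2 * Real.pi))‖ ^ 2 =
    (n + 1) + 2 * ∑ r ∈ range n, ((n : ℝ) - r) * Real.cos ((r + 1) * y) := by
  induction n with
  | zero => simp [gs, ex_zero]
  | succ n ih =>
    have e1 : gs (n + 1 + 1) (y / (2 * Real.pi)) =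
        ex (y / (2 * Real.pi)) * gs (n + 1) (y / (2 * Real.pi)) + 1 := by
      rw [gs, sum_range_succ', gs, mul_sum, Nat.cast_zero, zero_mul, ex_zero]
      congr 1
      refine sum_congr rfl fun r _ => ?_
      rw [← ex_add]
      congr 1
      push_cast
      ring
    have e2 : (ex (y / (2 * Real.pi)) * gs (n + 1) (y / (2 * Real.pi))).re =
        ∑ r ∈ range (n + 1), Real.cos ((r + 1) * y) := by
      rw [gs, mul_sum, Complex.re_sum]
      refine sum_congr rfl fun r _ => ?_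
      rw [← ex_add, ex, mul_comm, Complex.exp_ofReal_mul_I_re]
      congr 1
      field_simp
      ring
    have e3 : ‖ex (y / (2 * Real.pi)) * gs (n + 1) (y / (2 * Real.pi))‖ ^ 2 =
        ‖gs (n + 1) (y / (2 * Real.pi))‖ ^ 2 := by rw [norm_mul, norm_ex, one_mul]
    rw [e1, Complex.sq_norm, Complex.normSq_add, Complex.normSq_eq_norm_sq, e3, ih, map_one,
      map_one, mul_one, e2]
    have e4 : ∑ r ∈ range (n + 1), (((n + 1 : ℕ) : ℝ) - r) * Real.cos ((r + 1) * y) =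
        ∑ r ∈ range (n + 1), ((n : ℝ) - r) * Real.cos ((r + 1) * y) +
          ∑ r ∈ range (n + 1), Real.cos ((r + 1) * y) := by
      rw [← sum_add_distrib]
      refine sum_congr rfl fun r _ => ?_
      push_cast
      ring
    rw [e4, sum_range_succ (fun r : ℕ => ((n : ℝ) - r) * Real.cos ((r + 1) * y))]
    push_cast
    ring

lemma fej_eq {T : ℕ} (hT : 1 ≤ T) (y : ℝ) :
    fej T y = ‖gs (2 * T) (y / (2 * Real.pi))‖ ^ 2 / (2 * T) := by
  obtain ⟨n, hn⟩ : ∃ n, 2 * T = n + 1 := ⟨2 * T - 1, by omega⟩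
  have e1 : (2 * T : ℤ) = (n + 1 : ℕ) := by exact_mod_cast hn
  have e2 : (2 * T : ℝ) = n + 1 := by exact_mod_cast hn
  have n0 : (n : ℝ) + 1 ≠ 0 := by positivity
  rw [fej, hn, e1, e2, gs_Fej, sym_Fej, eq_div_iff n0, add_mul, sum_mul, mul_sum]
  congr 1
  · simp
  · refine sum_congr rfl fun r _ => ?_
    push_cast
    rw [abs_neg, neg_mul, Real.cos_neg, abs_of_nonneg (by positivity)]
    field_simp
    ring

theorem s_Fej : StFej := by
  intro T y hT
  have T0 : (0 : ℝ) < T := by exact_mod_cast hT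
  have pi0 := Real.pi_pos
  rw [fej_eq hT]
  refine ⟨by positivity, ?_, fun y0 hy => ?_⟩
  · have := pow_le_pow_left₀ (norm_nonneg _) (norm_gs_le (2 * T) (y / (2 * Real.pi))) 2
    rw [div_le_iff₀ (by positivity)]
    push_cast at this
    linarith
  · have a0 : 0 < |y| := abs_pos.2 y0
    have e : |y / (2 * Real.pi)| = |y| / (2 * Real.pi) := by
      rw [abs_div, abs_of_pos (by positivity : 0 < 2 * Real.pi)]
    have h1 := norm_ex_sub_one (x := y / (2 * Real.pi)) (by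
      rw [e, div_le_iff₀ (by positivity)]
      linarith)
    have h2 : ‖gs (2 * T) (y / (2 * Real.pi))‖ * ‖ex (y / (2 * Real.pi)) - 1‖ ≤ 2 := by
      rw [← norm_mul, gs_mul]
      refine (norm_sub_le _ _).trans ?_
      rw [norm_ex, norm_one]
      norm_num
    have h3 : ‖gs (2 * T) (y / (2 * Real.pi))‖ ≤ Real.pi / |y| := by
      have := (mul_le_mul_of_nonneg_left h1 (norm_nonneg _)).trans h2
      rw [e, show 4 * (|y| / (2 * Real.pi)) = 2 * |y| / Real.pi by ring, ← mul_div_assoc,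
        div_le_iff₀ pi0] at this
      rw [le_div_iff₀ a0]
      linarith
    calc _ ≤ (Real.pi / |y|) ^ 2 / (2 * T) := by gcongr
      _ = _ := by
          rw [div_pow, sq_abs]
          field_simp

theorem s_Fej2 : StFej2 := by
  intro T y hT hy
  have T0 : (0 : ℝ) < T := by exact_mod_cast hT
  have e : fej T 0 = 2 * T := by
    rw [fej_eq hT, zero_div, gs]
    simp only [mul_zero, ex_zero, sum_const, card_range, nsmul_eq_mul, mul_one,
      Complex.norm_natCast]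
    push_cast
    field_simp
  have h : fej T 0 / 2 ≤ fej T y := by
    rw [fej, fej, sum_div]
    refine sum_le_sum fun u hu => ?_
    have a1 : |(u : ℝ)| ≤ 2 * T := abs_IT hu
    have a2 : 0 ≤ 1 - |(u : ℝ)| / (2 * T) := sub_nonneg.2 ((div_le_one (by positivity)).2 a1)
    have a3 : |u * y| ≤ 1 := by
      rw [abs_mul]
      refine (mul_le_mul a1 hy (abs_nonneg _) (by positivity)).trans_eq ?_
      field_simp
    have a4 := Real.one_sub_sq_div_two_le_cos (x := u * y)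
    have a5 : (u * y) ^ 2 ≤ 1 := by rwa [sq_le_one_iff_abs_le_one]
    rw [mul_zero, Real.cos_zero, mul_div_assoc]
    exact mul_le_mul_of_nonneg_left (by linarith) a2
  linarith

lemma trig_even (T : ℕ) (w : ℤ → ℝ) (hw : ∀ u, w (-u) = w u) (y : ℝ) :
    RF.trig T (fun u => (w u : ℂ)) y = ((∑ u ∈ RF.IT T, w u * Real.cos (u * y) : ℝ) : ℂ) := by
  have e : RF.trig T (fun u => (w u : ℂ)) y =
      ∑ u ∈ RF.IT T, (w u : ℂ) * Complex.exp (-(Complex.I * (u : ℂ) * (y : ℂ))) := by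
    refine sum_nbij' (fun u => -u) (fun u => -u) ?_ ?_ ?_ ?_ ?_
    · intro u hu
      simp only [RF.IT, mem_Ioo] at hu ⊢
      omega
    · intro u hu
      simp only [RF.IT, mem_Ioo] at hu ⊢
      omega
    · simp
    · simp
    · intro u _
      simp [hw]
  refine mul_left_cancel₀ two_ne_zero ?_
  rw [two_mul]
  nth_rewrite 1 [e]
  rw [RF.trig, ← sum_add_distrib, Complex.ofReal_sum, mul_sum]
  refine sum_congr rfl fun u _ => ?_
  push_cast
  rw [mul_left_comm, Complex.two_cos, ← mul_add, add_comm]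
  congr 3 <;> ring

lemma wt_sum {T T₀ : ℕ} (h1 : 1 ≤ T₀) (h2 : T₀ ≤ T) (y : ℝ) :
    ∑ u ∈ RF.IT T, wt T₀ u * Real.cos (u * y) = fej T₀ y := by
  have T0 : (0 : ℝ) < T₀ := by exact_mod_cast h1
  refine Eq.symm (sum_subset_zero_on_sdiff (Ioo_subset_Ioo (by omega) (by omega))
    (fun u hu => ?_) fun u hu => ?_)
  · have h3 := (mem_sdiff.1 hu).2
    rw [mem_Ioo] at h3
    have h4 : 2 * (T₀ : ℤ) ≤ |u| := by
      rcases abs_cases u with h | h <;> omega
    have h5 : 2 * (T₀ : ℝ) ≤ |(u : ℝ)| := by exact_mod_cast h4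
    rw [wt, max_eq_left (sub_nonpos.2 ((one_le_div (by positivity)).2 h5)), zero_mul]
  · rw [wt, max_eq_right (sub_nonneg.2 ((div_le_one (by positivity)).2 (abs_IT hu)))]

lemma wt_mem (T : ℕ) (u : ℤ) : 0 ≤ wt T u ∧ wt T u ≤ 1 :=
  ⟨le_max_left _ _, max_le zero_le_one (sub_le_self _ (by positivity))⟩

lemma tele_Fej {a : ℝ} (ha : 0 < a) (n : ℕ) :
    ∑ r ∈ range n, 1 / (a + (r + 1)) ^ 2 ≤ 1 / a - 1 / (a + n) := by
  induction n with
  | zero => simp
  | succ n ih =>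
    rw [sum_range_succ]
    have : 1 / (a + (n + 1)) ^ 2 ≤ 1 / (a + n) - 1 / (a + (n + 1)) := by
      rw [div_sub_div _ _ (by positivity) (by positivity), div_le_div_iff₀ (by positivity)
        (by positivity)]
      nlinarith [(Nat.cast_nonneg n : (0 : ℝ) ≤ n)]
    push_cast
    linarith

theorem s_Adm (hF : StFej) : StAdm := by
  intro T T₀ h1 h2
  have t1 : (1 : ℝ) ≤ T₀ := by exact_mod_cast h1
  have t2 : (T₀ : ℝ) ≤ T := by exact_mod_cast h2
  have key : ∀ (r : ℕ) (y : ℝ), RF.trig T (ww T T₀ r) y =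
      ((fej T y - if r = 1 then fej T₀ y else 0 : ℝ) : ℂ) := fun r y => by
    refine (trig_even T (fun u => wt T u - if r = 1 then wt T₀ u else 0)
      (fun u => by simp [wt]) y).trans ?_
    simp only [sub_mul, sum_sub_distrib, wt_sum (h1.trans h2) le_rfl]
    split_ifs
    · rw [wt_sum h1 h2]
    · simp
  have hw : ∀ r u, ‖ww T T₀ r u‖ ≤ 1 := fun r u => by
    rw [ww, Complex.norm_real, Real.norm_eq_abs, abs_le]
    have := wt_mem T u
    have := wt_mem T₀ u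
    split_ifs <;> constructor <;> linarith
  refine ⟨⟨hw, ?_, fun r y y1 y2 => ?_⟩, key⟩
  · have a1 : ∀ u : ℤ, ‖ww T T₀ 1 u‖ ^ 2 / (1 + |(u : ℝ)|) ^ 2 ≤
        4 * (1 / (2 * T₀ + |(u : ℝ)|) ^ 2) := fun u => by
      have u0 := abs_nonneg (u : ℝ)
      rw [← div_pow, show 4 * (1 / (2 * T₀ + |(u : ℝ)|) ^ 2) = (2 / (2 * T₀ + |(u : ℝ)|)) ^ 2 by
        rw [div_pow]; ring]
      refine pow_le_pow_left₀ (by positivity) ?_ 2
      rw [div_le_div_iff₀ (by positivity) (by positivity)]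
      rcases le_total (2 * T₀ : ℝ) |(u : ℝ)| with c | c
      · nlinarith [hw 1 u, mul_le_mul_of_nonneg_right (hw 1 u)
          (show 0 ≤ 2 * T₀ + |(u : ℝ)| by positivity)]
      · have b1 : |(u : ℝ)| / (2 * T) ≤ |(u : ℝ)| / (2 * T₀) :=
          div_le_div_of_nonneg_left u0 (by positivity) (by linarith)
        have b2 : |(u : ℝ)| / (2 * T₀) ≤ 1 := (div_le_one (by positivity)).2 c
        have b3 : 0 ≤ |(u : ℝ)| / (2 * T) := by positivity
        have b4 : ‖ww T T₀ 1 u‖ ≤ |(u : ℝ)| / (2 * T₀) := by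
          rw [ww, if_pos rfl, Complex.norm_real, Real.norm_eq_abs, wt, wt,
            max_eq_right (by linarith), max_eq_right (by linarith), abs_le]
          constructor <;> linarith
        rw [le_div_iff₀ (by positivity)] at b4
        nlinarith [mul_le_mul_of_nonneg_left c (norm_nonneg (ww T T₀ 1 u))]
    obtain ⟨n, hn⟩ : ∃ n, 2 * T = n + 1 := ⟨2 * T - 1, by omega⟩
    have e1 : (2 * T : ℤ) = (n + 1 : ℕ) := by exact_mod_cast hn
    refine (sum_le_sum fun u _ => a1 u).trans ?_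
    rw [← mul_sum, RF.IT, e1, sym_Fej]
    have e2 : ∑ r ∈ range n, (1 / (2 * T₀ + |(((r : ℤ) + 1 : ℤ) : ℝ)|) ^ 2 +
        1 / (2 * T₀ + |((-((r : ℤ) + 1) : ℤ) : ℝ)|) ^ 2) =
        2 * ∑ r ∈ range n, 1 / (2 * (T₀ : ℝ) + (r + 1)) ^ 2 := by
      rw [mul_sum]
      refine sum_congr rfl fun r _ => ?_
      push_cast
      rw [abs_neg, abs_of_nonneg (by positivity)]
      ring
    have a2 := tele_Fej (show 0 < 2 * (T₀ : ℝ) by positivity) n
    have a3 : 0 ≤ 1 / (2 * (T₀ : ℝ) + n) := by positivity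
    have a4 : 1 / (2 * (T₀ : ℝ)) ^ 2 ≤ 1 / (2 * T₀) :=
      one_div_le_one_div_of_le (by positivity) (le_self_pow₀ (by linarith) two_ne_zero)
    have e3 : (11 : ℝ) / T₀ = 22 * (1 / (2 * T₀)) := by
      field_simp
      norm_num
    have a5 : 0 ≤ 1 / (2 * (T₀ : ℝ)) := by positivity
    rw [e2, e3, Int.cast_zero, abs_zero, add_zero]
    linarith
  · have l2 := Real.log_two_gt_d9
    have y0 : y ≠ 0 := abs_pos.1 (by linarith)
    have b : ∀ S : ℕ, 1 ≤ S → 0 ≤ fej S y ∧ fej S y ≤ 11 / S := fun S hS => by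
      obtain ⟨f1, -, f2⟩ := hF S y hS
      have S0 : (0 : ℝ) < S := by exact_mod_cast hS
      refine ⟨f1, (f2 y0 (by linarith [Real.pi_gt_three])).trans ?_⟩
      have c1 : (0.69 : ℝ) ^ 2 ≤ y ^ 2 := by
        rw [← sq_abs y]
        exact pow_le_pow_left₀ (by norm_num) (by linarith) 2
      have c2 : Real.pi ^ 2 ≤ 3.15 ^ 2 := pow_le_pow_left₀ Real.pi_pos.le Real.pi_lt_d2.le 2
      rw [div_le_div_iff₀ (by positivity) S0]
      nlinarith [mul_le_mul_of_nonneg_left c1 S0.le, mul_le_mul_of_nonneg_left c2 S0.le]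
    rw [key, Complex.norm_real, Real.norm_eq_abs, abs_le]
    obtain ⟨c1, c2⟩ := b T (h1.trans h2)
    obtain ⟨c3, c4⟩ := b T₀ h1
    split_ifs <;> constructor <;> linarith

theorem s_Long (hF : StFej) (hG : StFej2) (hP : StPNT) : StLong := by
  intro A
  obtain ⟨x₀, hP⟩ := eventually_atTop.1 (hP (A + 1))
  filter_upwards [eventually_ge_atTop x₀, ev_L 40, ev_log 8 A one_pos, eventually_ge_atTop 1]
    with N hN l1 l2 N1 T hT hTA t ht
  obtain ⟨t1, t2⟩ := mem_Ico.1 ht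
  rw [Real.rpow_one] at l2
  have T1 : (1 : ℝ) ≤ T := by exact_mod_cast hT
  have n0 : (0 : ℝ) < N := by exact_mod_cast N1
  have r1 : 2 * (N : ℝ) ≤ t := by exact_mod_cast t1
  have r2 : (t : ℝ) ≤ 4 * N := by exact_mod_cast t2.le
  have th0 : ∀ n, 0 ≤ th n := fun n => by
    unfold th
    split_ifs
    · exact Real.log_natCast_nonneg n
    · exact le_rfl
  obtain ⟨h, h1, h2⟩ : ∃ h : ℕ, h * (2 * T) ≤ t ∧ t < h * (2 * T) + 2 * T :=
    ⟨t / (2 * T), Nat.div_mul_le_self _ _, Nat.lt_div_mul_add (by omega)⟩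
  have h3 : 2 * h ≤ t := by nlinarith
  have g1 : (h : ℝ) * (2 * T) ≤ t := by exact_mod_cast h1
  have g2 : (t : ℝ) ≤ h * (2 * T) + 2 * T := by exact_mod_cast h2.le
  have pn : ∀ x : ℕ, N ≤ x → x ≤ 6 * N →
      |∑ n ∈ Ioc 0 x, th n - x| * (40 * T) ≤ 6 * N := fun x x1 x2 => by
    have b1 := hP x (hN.trans x1)
    have b2 : Real.log N ≤ Real.log x := Real.log_le_log n0 (by exact_mod_cast x1)
    have b3 : 40 * T ≤ Real.log x ^ (A + 1) := by
      refine le_trans ?_ (pow_le_pow_left₀ (by linarith) b2 _)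
      rw [pow_succ, mul_comm]
      gcongr
    have b4 : (x : ℝ) ≤ 6 * N := by exact_mod_cast x2
    rw [le_div_iff₀ (by linarith)] at b1
    exact (mul_le_mul_of_nonneg_left b3 (abs_nonneg _)).trans (b1.trans b4)
  have p1 := pn t (by omega) (by omega)
  have p2 := pn (t + h) (by omega) (by omega)
  have e := sum_Ioc_consecutive th (Nat.zero_le t) (Nat.le_add_right t h)
  have k1 : ∑ n ∈ Ioc t (t + h), th n * T ≤
      ∑ n ∈ Ioc N (8 * N), th n * fej T (Real.log n - Real.log t) := by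
    refine le_trans (sum_le_sum fun n hn => mul_le_mul_of_nonneg_left (hG T _ hT ?_) (th0 n))
      (sum_le_sum_of_subset_of_nonneg (Ioc_subset_Ioc (by omega) (by omega))
        fun n _ _ => mul_nonneg (th0 n) (hF T _ hT).1)
    obtain ⟨n1, n2⟩ := mem_Ioc.1 hn
    have c1 : (t : ℝ) ≤ n := by exact_mod_cast n1.le
    have c2 : (n : ℝ) ≤ t + h := by exact_mod_cast n2
    have t0 : (0 : ℝ) < t := by linarith
    rw [abs_of_nonneg (sub_nonneg.2 (Real.log_le_log t0 c1)), ← Real.log_div (by linarith) t0.ne']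
    refine (Real.log_le_sub_one_of_pos (div_pos (by linarith) t0)).trans ?_
    rw [div_sub_one t0.ne', div_le_div_iff₀ t0 (by positivity)]
    nlinarith
  refine le_trans ?_ k1
  rw [← sum_mul]
  push_cast at p2
  have q1 := mul_le_mul_of_nonneg_right (le_abs_self (∑ n ∈ Ioc 0 t, th n - t))
    (show (0 : ℝ) ≤ 40 * T by positivity)
  have q2 := mul_le_mul_of_nonneg_right (neg_abs_le (∑ n ∈ Ioc 0 (t + h), th n - (t + h)))
    (show (0 : ℝ) ≤ 40 * T by positivity)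
  rw [← e] at q2 p2
  nlinarith

end Pool.Agent.MP_436a94_nt.A

end
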