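import Pool.Agent.Mg.F436a94p.G399d04
import Pool.Agent.Mg.F436a94p.G707398
import Pool.Agent.MP_357fb4_an.BoxFL
import Pool.Agent.Mg.F436a94p.G58f7c4
import Pool.Agent.MP_357fb4_an.FL
import Pool.Agent.Mg.F436a94p.Gd8c730
import Pool.Agent.Mg.F436a94p.G204ca6

set_option linter.all false

section

/-!
The sieve for shifted primes with weights.
-/

set_option autoImplicit false

open Finset Filter

namespace Pool.Agent.MP_436a94_nt.A

open Pool.Agent.MP_43e117_nt.PG Pool.Agent.GT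

lemma cop_Sv {g : ℕ → ℝ} {N q n : ℕ} (h1 : 1 ≤ q) (h2 : q ≤ N) (hn : n ∈ Ioc N (8 * N))
    (h : th n * g n ≠ 0) : n.Coprime q := by
  have hp : n.Prime := by
    by_contra c
    rw [th, if_neg c, zero_mul] at h
    exact h rfl
  exact Nat.coprime_of_lt_prime (by omega) (h2.trans_lt (mem_Ioc.1 hn).1) hp

lemma tot_Sv {z : ℕ} (T : Finset (PP 2 z)) :
    ((∏ p ∈ T, (p : ℕ)).totient : ℝ) = ∏ p ∈ T, (((p : ℕ) : ℝ) - 1) := by
  classical
  induction T using Finset.induction_on with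
  | empty => simp
  | insert a T ha ih =>
    rw [prod_insert ha, prod_insert ha, Nat.totient_mul (Nat.Coprime.prod_right fun p hp =>
      (Nat.coprime_primes (MBasic_prime a) (MBasic_prime p)).2 fun h =>
        ha (Subtype.ext h ▸ hp)), Nat.cast_mul, ih, Nat.totient_prime (MBasic_prime a),
      Nat.cast_pred (MBasic_prime a).pos]

open Classical in
lemma cls_Sv (h1 : StR1) (g : ℕ → ℝ) {N z : ℕ} (T : Finset (PP 2 z))
    (hT : 4 * ∏ p ∈ T, (p : ℕ) ≤ N) :
    |∑ ω ∈ ((Ioc N (8 * N)).filter fun n => n % 4 = 3).filter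
        (fun ω => ∀ p ∈ T, (p : ℕ) ∣ ω - 1), th ω * g ω -
      (∑ n ∈ Ioc N (8 * N), th n * g n) / 2 * ∏ p ∈ T, 1 / (((p : ℕ) : ℝ) - 1)| ≤
      EC (fun n => th n * g n) (Ioc N (8 * N)) (4 * ∏ p ∈ T, (p : ℕ)) := by
  have co : Nat.Coprime 4 (∏ p ∈ T, (p : ℕ)) := Nat.Coprime.prod_right fun p _ =>
    Nat.Coprime.pow_left 2 ((Nat.coprime_primes Nat.prime_two (MBasic_prime p)).2
      (MBasic_lt p).ne)
  have d0 := MBasic_prod_pos T
  obtain ⟨a, a1, a2⟩ := Nat.chineseRemainder co 3 1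
  have a3 : a.Coprime (4 * ∏ p ∈ T, (p : ℕ)) :=
    Nat.Coprime.mul_right (a1.gcd_eq.trans (by norm_num)) (a2.gcd_eq.trans (Nat.gcd_one_left _))
  refine le_trans (le_of_eq ?_) (h1 _ _ _ a (by omega) a3)
  have e : ∑ n ∈ (Ioc N (8 * N)).filter (fun n => n.Coprime (4 * ∏ p ∈ T, (p : ℕ))), th n * g n =
      ∑ n ∈ Ioc N (8 * N), th n * g n :=
    sum_filter_of_ne fun n hn h => cop_Sv (by omega) hT hn h
  rw [Dl, e, Nat.totient_mul co, Nat.cast_mul, tot_Sv, filter_filter,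
    show Nat.totient 4 = 2 by decide, prod_div_distrib, prod_const_one, div_mul_div_comm, mul_one,
    Nat.cast_ofNat]
  congr 3
  refine filter_congr fun n hn => ?_
  have n1 : 1 ≤ n := Nat.zero_lt_of_lt (mem_Ioc.1 hn).1
  rw [← Nat.modEq_and_modEq_iff_modEq_mul co]
  refine and_congr ⟨fun h => Nat.ModEq.trans (show n ≡ 3 [MOD 4] from h) a1.symm,
    fun h => (h.trans a1 : n ≡ 3 [MOD 4])⟩ ⟨fun h => ?_, fun h => ?_⟩
  · refine Nat.ModEq.trans ((Nat.modEq_iff_dvd' n1).2 ?_).symm a2.symm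
    exact Finset.prod_dvd_of_isRelPrime (s := fun p : PP 2 z => (p : ℕ)) (t := T)
      (fun p _ q _ hpq => Nat.coprime_iff_isRelPrime.1
        ((Nat.coprime_primes (MBasic_prime p) (MBasic_prime q)).2 fun e => hpq (Subtype.ext e))) h
  · intro p hp
    exact (dvd_prod_of_mem _ hp).trans ((Nat.modEq_iff_dvd' n1).1 (h.trans a2).symm)

lemma EC_nonneg (f : ℕ → ℝ) (I : Finset ℕ) (q : ℕ) : 0 ≤ EC f I q := by
  unfold EC
  positivity

lemma tot_sum_Sv (hT : StTot) {R : ℕ} (hR : 1 ≤ R) :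
    ∑ e ∈ Icc 1 R, 1 / (e.totient : ℝ) ≤ (1 + 2 * Real.log R) * (1 + Real.log R) := by
  have l0 := Real.log_natCast_nonneg R
  refine le_trans ?_ (mul_le_mul_of_nonneg_left (harm_T1 hR le_rfl) (by linarith))
  rw [mul_sum]
  refine sum_le_sum fun e he => ?_
  obtain ⟨e1, e2⟩ := mem_Icc.1 he
  have a1 := hT e e1
  have a2 : (0 : ℝ) < e := by exact_mod_cast e1
  have a3 : (0 : ℝ) < e.totient := by exact_mod_cast Nat.totient_pos.2 e1
  have a4 : Real.log e ≤ Real.log R := Real.log_le_log a2 (by exact_mod_cast e2)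
  rw [mul_one_div, div_le_div_iff₀ a3 a2]
  nlinarith [mul_le_mul_of_nonneg_left a4 a3.le]

theorem s_Sv (hF : StFLW) (hP : StPr) (h1 : StR1) (h2 : StR2) (hT : StTot) : StSv := by
  classical
  intro θ θ0 θ1
  obtain ⟨C, hC⟩ := MP_357fb4_an.prime_recip
  obtain ⟨m, hF⟩ := hF (2 * C)
  obtain ⟨c, c0, hP⟩ := hP
  have al0 : 0 < θ / (4 * m + 7) := by positivity
  refine ⟨θ / (4 * m + 7), c / 4, al0, by positivity, ?_⟩
  filter_upwards [ev_log 4 0 al0, ev_L 4, eventually_ge_atTop 1] with N l1 l2 N1 g hg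
  rw [pow_zero, mul_one] at l1
  have n1 : (1 : ℝ) ≤ N := by exact_mod_cast N1
  have n0 : (0 : ℝ) < N := by linarith
  have e1 : ((N : ℝ) ^ (θ / (4 * m + 7))) ^ (4 * m + 7) = (N : ℝ) ^ θ := by
    rw [← Real.rpow_natCast, ← Real.rpow_mul n0.le]
    congr 1
    push_cast
    field_simp
  have e2 : (N : ℝ) ^ θ ≤ N := by
    conv_rhs => rw [← Real.rpow_one (N : ℝ)]
    exact Real.rpow_le_rpow_of_exponent_le n1 (by linarith)
  set R := ⌊(N : ℝ) ^ θ⌋₊ with hR
  set z := ⌊(N : ℝ) ^ (θ / (4 * m + 7))⌋₊ with hz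
  have z1 : (z : ℝ) ≤ (N : ℝ) ^ (θ / (4 * m + 7)) := Nat.floor_le (by positivity)
  have z2 : 4 ≤ z := Nat.le_floor l1
  have r1 : (R : ℝ) ≤ (N : ℝ) ^ θ := Nat.floor_le (by positivity)
  have r2 : 4 * z ^ (4 * m + 6) ≤ R := Nat.le_floor (by
    rw [← e1, pow_succ' _ (4 * m + 6)]
    push_cast
    gcongr)
  have r3 : R ≤ N := by exact_mod_cast r1.trans e2
  have z3 : z ≤ R := le_trans ((Nat.le_self_pow (n := 4 * m + 6) (by omega) z).trans (by omega)) r2
  have th0 : ∀ n, 0 ≤ th n := fun n => by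
    unfold th
    split_ifs
    · exact Real.log_natCast_nonneg n
    · exact le_rfl
  have f0 : ∀ n, 0 ≤ th n * g n := fun n => mul_nonneg (th0 n) (hg n)
  have S0 : 0 ≤ ∑ n ∈ Ioc N (8 * N), th n * g n := sum_nonneg fun n _ => f0 n
  set G := ∑ r ∈ Ioc 1 R, 1 / (r.totient : ℝ) *
    ∑ χ ∈ pm r, ‖CS (fun n => th n * g n) (Ioc N (8 * N)) 1 χ‖ with hG
  have G0 : 0 ≤ G := by positivity
  have p3 : ∀ p : PP 2 z, (3 : ℝ) ≤ (p : ℕ) := fun p => by exact_mod_cast MBasic_lt p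
  have key := hF ℕ (PP 2 z) ((Ioc N (8 * N)).filter fun n => n % 4 = 3) (fun n => th n * g n)
    (fun p ω => (p : ℕ) ∣ ω - 1) (fun p => 1 / (((p : ℕ) : ℝ) - 1))
    (fun p => Nat.log 2 (Nat.log p z)) (Nat.log 2 N + 1)
    ((∑ n ∈ Ioc N (8 * N), th n * g n) / 2) (Real.log N ^ 2 * G) (by positivity) f0
    (fun p => ⟨div_nonneg zero_le_one (by linarith [p3 p]),
      one_div_le_one_div_of_le (by norm_num) (by linarith [p3 p])⟩)
    (fun p => Nat.lt_succ_of_le (Nat.log_mono_right ((Nat.log_le_self _ _).trans (z3.trans r3))))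
    (fun j => by
      refine le_trans ?_ (mul_le_mul_of_nonneg_left
        (MP_357fb4_an.BoxFL_block hC 2 z j (by omega)) zero_le_two)
      rw [mul_sum]
      refine sum_le_sum fun p _ => ?_
      rw [mul_one_div, div_le_div_iff₀ (by linarith [p3 p]) (by linarith [p3 p])]
      linarith [p3 p])
    (by
      have a1 : ∀ T ∈ univ.filter (fun T : Finset (PP 2 z) => ∀ j, (T.filter
          fun p : PP 2 z => Nat.log 2 (Nat.log p z) = j).card ≤ 2 * (m + j) + 1),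
          4 * ∏ p ∈ T, (p : ℕ) ≤ R := fun T hT => le_trans (Nat.mul_le_mul_left 4
            (MP_357fb4_an.BoxFL_prod_le (by omega) T (mem_filter.1 hT).2)) r2
      have a2 := sum_le_sum fun T hT => cls_Sv h1 g T ((a1 T hT).trans r3)
      rw [← sum_image (g := fun T : Finset (PP 2 z) => 4 * ∏ p ∈ T, (p : ℕ))
        (f := EC (fun n => th n * g n) (Ioc N (8 * N))) fun S _ T _ h =>
          MBasic_prod_inj (Nat.eq_of_mul_eq_mul_left (by norm_num) h)] at a2
      have a3 := (a2.trans (sum_le_sum_of_subset_of_nonneg (t := Icc 1 R) (fun q hq => by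
        obtain ⟨T, hT, rfl⟩ := mem_image.1 hq
        have := MBasic_prod_pos T
        exact mem_Icc.2 ⟨by omega, a1 T hT⟩) fun q _ _ => EC_nonneg _ _ _)).trans (h2 _ _ R)
      have a4 : ∀ e ∈ Icc 1 R, 1 / (e.totient : ℝ) * ∑ r ∈ Ioc 1 R, 1 / (r.totient : ℝ) *
          ∑ χ ∈ pm r, ‖CS (fun n => th n * g n) (Ioc N (8 * N)) e χ‖ =
          1 / (e.totient : ℝ) * G := fun e he => by
        obtain ⟨b1, b2⟩ := mem_Icc.1 he
        congr 1
        refine sum_congr rfl fun r _ => ?_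
        congr 1
        refine sum_congr rfl fun χ _ => ?_
        rw [CS, CS, filter_true_of_mem fun n _ => Nat.coprime_one_right n,
          sum_filter_of_ne fun n hn h => cop_Sv (g := g) b1 (b2.trans r3) hn fun h0 => h (by
            rw [h0, Complex.ofReal_zero, zero_mul])]
      rw [sum_congr rfl a4, ← sum_mul] at a3
      have a5 : Real.log R ≤ 1 / 100 * Real.log N := by
        refine (Real.log_le_log (by exact_mod_cast (by omega : 0 < R)) r1).trans ?_
        rw [Real.log_rpow n0]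
        exact mul_le_mul_of_nonneg_right θ1 (by linarith)
      have a6 := Real.log_natCast_nonneg R
      have a7 : (1 + 2 * Real.log R) * (1 + Real.log R) ≤ Real.log N ^ 2 := by
        rw [sq]
        exact mul_le_mul (by linarith) (by linarith) (by linarith) (by linarith)
      refine le_trans (le_of_eq ?_) (a3.trans (mul_le_mul_of_nonneg_right
        ((tot_sum_Sv hT (by omega)).trans a7) G0))
      congr
      funext T
      congr)
  have b1 : c / Real.log N ≤ ∏ p : PP 2 z, (1 - 1 / (((p : ℕ) : ℝ) - 1)) := by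
    have z0 : (1 : ℝ) < z := by exact_mod_cast (by omega : 1 < z)
    rw [prod_coe_sort (PP 2 z) fun p => 1 - 1 / ((p : ℝ) - 1)]
    exact le_trans (div_le_div_of_nonneg_left c0.le (Real.log_pos z0)
      (Real.log_le_log (by linarith) (by exact_mod_cast z3.trans r3))) (hP z (by omega))
  have b2 : ((Nat.log 2 N + 1 : ℕ) : ℝ) + 1 ≤ Real.log N ^ 2 := by
    have := log2_le N
    push_cast
    nlinarith
  have b3 := mul_le_mul_of_nonneg_left b1 S0
  have b4 := mul_le_mul_of_nonneg_right b2 (show 0 ≤ Real.log N ^ 2 * G by positivity)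
  refine le_trans ?_ (key.trans ?_)
  · have e : c / 4 / Real.log N * ∑ n ∈ Ioc N (8 * N), th n * g n =
        (∑ n ∈ Ioc N (8 * N), th n * g n) * (c / Real.log N) / 4 := by ring
    rw [e]
    nlinarith
  · rw [filter_filter, sum_filter, sum_filter]
    refine sum_le_sum fun n _ => ?_
    have n2 : 0 ≤ Real.log n * g n := mul_nonneg (Real.log_natCast_nonneg n) (hg n)
    by_cases hp : n.Prime
    · rw [th, if_pos hp]
      split_ifs with c1 c2
      · exact le_rfl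
      · refine absurd ⟨hp, c1.1, fun l hl hd => ?_⟩ c2
        by_contra c3
        obtain ⟨c4, c5⟩ := not_or.1 c3
        exact c1.2 ⟨l, mem_filter.2 ⟨mem_Ioc.2 ⟨lt_of_le_of_ne hl.two_le (Ne.symm c4),
          Nat.le_floor (not_lt.1 c5)⟩, hl⟩⟩ hd
      · exact n2
      · exact le_rfl
    · rw [th, if_neg hp, zero_mul, ite_self]
      split_ifs
      · exact n2
      · exact le_rfl

end Pool.Agent.MP_436a94_nt.A

end

section

/-!
The fundamental lemma of the sieve with weights.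
-/

set_option autoImplicit false

open scoped Classical
open Finset

namespace Pool.Agent.MP_436a94_nt.A

open Pool.Agent.MP_357fb4_an Pool.Agent.GT

lemma ind_FLW {Ω : Type} (S : Finset Ω) (μ : Ω → ℝ) (Q : Ω → Prop) [DecidablePred Q] :
    ∑ ω ∈ S.filter Q, μ ω = ∑ ω ∈ S, μ ω * ind (Q ω) := by
  rw [sum_filter]
  refine sum_congr rfl fun ω _ => ?_
  split_ifs with h
  · rw [ind_of h, mul_one]
  · rw [ind_of_not h, mul_zero]

lemma close_FLW {Ω P : Type} [Fintype P] (S : Finset Ω) (μ : Ω → ℝ) (E : P → Ω → Prop)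
    (g : P → ℝ) (blk : P → ℕ) {J : ℕ}
    (hJ : ∀ p, blk p < J) (n : ℕ → ℕ) (c : ℕ → ℕ → ℝ) (hc : ∀ j k, |c j k| ≤ 1)
    (hc0 : ∀ j k, n j < k → c j k = 0) {Z ρ : ℝ}
    (hρ : ∑ T ∈ univ.filter (fun T : Finset P => ∀ j, (T.filter fun p => blk p = j).card ≤ n j),
      |∑ ω ∈ S, μ ω * ind (∀ p ∈ T, E p ω) - Z * ∏ p ∈ T, g p| ≤ ρ) :
    |∑ ω ∈ S, μ ω * (∏ j ∈ range J, flS (univ.filter fun p => blk p = j) (c j)
      fun p => ind (E p ω)) -
      Z * ∏ j ∈ range J, flS (univ.filter fun p => blk p = j) (c j) g| ≤ ρ := by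
  have hu : (univ.filter fun p => blk p < J) = univ := filter_true_of_mem fun p _ => hJ p
  simp only [fl_expand, hu, powerset_univ, ← ind_forall, mul_sum]
  rw [sum_comm, ← sum_sub_distrib]
  refine (abs_sum_le_sum_abs _ _).trans (le_trans ?_ hρ)
  rw [sum_filter]
  refine sum_le_sum fun T _ => ?_
  simp only [mul_left_comm _ (∏ j ∈ range J, c j (T.filter fun p => blk p = j).card)]
  rw [← mul_sum, ← mul_sub, abs_mul]
  split_ifs with h
  · refine mul_le_of_le_one_left (abs_nonneg _) ?_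
    rw [abs_prod]
    exact prod_le_one (fun j _ => abs_nonneg _) fun j _ => hc _ _
  · push Not at h
    obtain ⟨j, hj⟩ := h
    obtain ⟨p, hp⟩ := card_pos.1 ((Nat.zero_le _).trans_lt hj)
    have : j < J := (mem_filter.1 hp).2 ▸ hJ p
    have h0 : ∏ j ∈ range J, c j (T.filter fun p => blk p = j).card = 0 :=
      prod_eq_zero (mem_range.2 this) (hc0 j _ hj)
    rw [h0, abs_zero, zero_mul]

theorem s_FLW : StFLW := by
  intro K
  obtain ⟨m₁, hm₁⟩ := pow_unbounded_of_one_lt (Real.exp (4 * K)) (one_lt_two (α := ℝ))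
  obtain ⟨m, hm, hm3⟩ : ∃ m, m₁ + 2 ≤ m ∧ 3 ≤ m := ⟨m₁ + 3, by omega, by omega⟩
  refine ⟨m, fun Ω P _ S μ E g blk J Z ρ hZ hμ hg hJ hK hρ => ?_⟩
  simp only [ind_FLW S μ] at hρ ⊢
  set B : ℕ → Finset P := fun j => univ.filter fun p => blk p = j with hB
  set X : (P → ℝ) → ℕ → ℝ := fun t j => ∏ p ∈ B j, (1 - t p) with hX
  set Y : (P → ℝ) → ℕ → ℝ := fun t j => flS (B j) (flY (2 * (m + j))) t with hY
  set e : (P → ℝ) → ℕ → ℝ := fun t j => flS (B j) (flE (2 * (m + j) + 1)) t with he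
  set χ : Ω → P → ℝ := fun ω p => ind (E p ω) with hχ
  have hχ1 : ∀ ω p, 0 ≤ χ ω p ∧ χ ω p ≤ 1 := fun ω p => ⟨ind_nonneg _, ind_le_one _⟩
  have hg1 : ∀ p, 0 ≤ g p ∧ g p ≤ 1 := fun p => ⟨(hg p).1, by linarith [(hg p).2]⟩
  have hρ0 : 0 ≤ ρ := le_trans (sum_nonneg fun _ _ => abs_nonneg _) hρ
  have hX0 : ∀ t : P → ℝ, (∀ p, 0 ≤ t p ∧ t p ≤ 1) → ∀ j, 0 ≤ X t j := fun t ht j =>
    prod_nonneg fun p _ => sub_nonneg.2 (ht p).2
  have hXY : ∀ t : P → ℝ, (∀ p, 0 ≤ t p ∧ t p ≤ 1) → ∀ j, X t j ≤ Y t j := fun t ht j =>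
    fl_lower ht _ _
  have hYX : ∀ t : P → ℝ, (∀ p, 0 ≤ t p ∧ t p ≤ 1) → ∀ j, Y t j ≤ X t j + e t j := fun t ht j =>
    fl_upper ht _ _
  have hfib : ∀ t : P → ℝ, ∏ p, (1 - t p) = ∏ j ∈ range J, X t j := fun t =>
    (prod_fiberwise_of_maps_to (fun p _ => mem_range.2 (hJ p)) _).symm
  have hpr : ∑ ω ∈ S, μ ω * ind (∀ p, ¬ E p ω) = ∑ ω ∈ S, μ ω * ∏ j ∈ range J, X (χ ω) j := by
    refine sum_congr rfl fun ω _ => ?_
    rw [← hfib]
    simp only [hχ, ← ind_not, ← ind_forall, mem_univ, true_implies]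
  have hYb : ∀ n k, |flY n k| ≤ 1 := fun n k => by unfold flY; split_ifs <;> simp
  have hEb : ∀ n k, |flE n k| ≤ 1 := fun n k => by unfold flE; split_ifs <;> simp
  have c1 : |∑ ω ∈ S, μ ω * ∏ j ∈ range J, Y (χ ω) j - Z * ∏ j ∈ range J, Y g j| ≤ ρ :=
    close_FLW S μ E g blk hJ (fun j => 2 * (m + j) + 1) (fun j => flY (2 * (m + j)))
      (fun j k => hYb _ _) (fun j k h => if_neg (by omega)) hρ
  have c2 : ∀ l ∈ range J, |∑ ω ∈ S, μ ω * (e (χ ω) l * ∏ j ∈ (range J).erase l, Y (χ ω) j) -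
      Z * (e g l * ∏ j ∈ (range J).erase l, Y g j)| ≤ ρ := fun l hl => by
    have key : ∀ t : P → ℝ, e t l * ∏ j ∈ (range J).erase l, Y t j = ∏ j ∈ range J, flS (B j)
        (if j = l then flE (2 * (m + j) + 1) else flY (2 * (m + j))) t := fun t => by
      rw [← mul_prod_erase _ _ hl, if_pos rfl]
      congr 1
      exact prod_congr rfl fun j hj => by rw [if_neg (ne_of_mem_erase hj)]
    simp only [key]
    refine close_FLW S μ E g blk hJ (fun j => 2 * (m + j) + 1) _ (fun j k => ?_)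
      (fun j k h => ?_) hρ
    · split_ifs
      exacts [hEb _ _, hYb _ _]
    · split_ifs
      exacts [if_neg (by omega), if_neg (by omega)]
  -- the model
  have hm2 : (4 : ℝ) ≤ 2 ^ m := by
    calc (4 : ℝ) = 2 ^ 2 := by norm_num
      _ ≤ 2 ^ m := pow_le_pow_right₀ one_le_two (by omega)
  have he1 : ∀ j, e g j ≤ 1 / 2 ^ (m + j) * X g j := fun j => by
    have h1 := fl_E_le (fun p => (hg p).1) (B j) (2 * (m + j) + 1)
    have h2 := fl_X_ge hg (B j)
    have h3 : Real.exp (2 * ∑ p ∈ B j, g p) ≤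
        Real.exp (4 * K) * Real.exp (-(2 * ∑ p ∈ B j, g p)) := by
      rw [← Real.exp_add]
      exact Real.exp_le_exp.2 (by linarith [hK j])
    have h4 : Real.exp (4 * K) ≤ 2 ^ (m + j) :=
      hm₁.le.trans (pow_le_pow_right₀ one_le_two (by omega))
    have h5 : (0 : ℝ) < 2 ^ (m + j) := by positivity
    have h6 := fl_E_nonneg (fun p => (hg p).1) (B j) (2 * (m + j) + 1)
    have h7 : (2 : ℝ) ^ (2 * (m + j) + 1) * e g j ≤ 2 ^ (m + j) * X g j :=
      h1.trans (h3.trans (mul_le_mul h4 h2 (Real.exp_pos _).le h5.le))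
    rw [pow_succ, two_mul, pow_add 2 (m + j) (m + j), mul_assoc, mul_assoc] at h7
    have h8 := le_of_mul_le_mul_left h7 h5
    rw [one_div, inv_mul_eq_div, le_div_iff₀ h5]
    change 0 ≤ e g j at h6
    nlinarith [mul_nonneg h5.le h6]
  have hsum : ∑ j ∈ range J, (1 : ℝ) / 2 ^ (m + j) ≤ 2 / 2 ^ m := by
    have h1 := sum_geometric_two_le J
    calc ∑ j ∈ range J, (1 : ℝ) / 2 ^ (m + j) = (∑ j ∈ range J, (1 / 2 : ℝ) ^ j) / 2 ^ m := by
          rw [sum_div]
          exact sum_congr rfl fun j _ => by rw [pow_add, one_div_pow]; field_simp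
      _ ≤ 2 / 2 ^ m := div_le_div_of_nonneg_right h1 (by positivity)
  have hq : (2 : ℝ) / 2 ^ m ≤ 1 / 2 := by
    rw [div_le_div_iff₀ (by positivity) two_pos]; linarith
  have hYs : ∀ s ⊆ range J, ∏ j ∈ s, Y g j ≤ (1 + 2 * (2 / 2 ^ m)) * ∏ j ∈ s, X g j :=
    fun s hs => by
    calc ∏ j ∈ s, Y g j ≤ ∏ j ∈ s, (1 + 1 / 2 ^ (m + j)) * X g j :=
          prod_le_prod (fun j _ => (hX0 g hg1 j).trans (hXY g hg1 j)) fun j _ => by
            linarith [hYX g hg1 j, he1 j]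
      _ = (∏ j ∈ s, (1 + 1 / 2 ^ (m + j) : ℝ)) * ∏ j ∈ s, X g j := prod_mul_distrib
      _ ≤ _ := mul_le_mul_of_nonneg_right (fl_prod_one_add s (fun j => by positivity)
          ((sum_le_sum_of_subset_of_nonneg hs fun j _ _ => by positivity).trans hsum)
          (by linarith)) (prod_nonneg fun j _ => hX0 g hg1 j)
  have hP0 : 0 ≤ ∏ j ∈ range J, X g j := prod_nonneg fun j _ => hX0 g hg1 j
  have hV : ∑ l ∈ range J, e g l * ∏ j ∈ (range J).erase l, Y g j ≤
      2 * (2 / 2 ^ m) * ∏ j ∈ range J, X g j := by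
    calc ∑ l ∈ range J, e g l * ∏ j ∈ (range J).erase l, Y g j ≤
          ∑ l ∈ range J, 1 / 2 ^ (m + l) * (2 * ∏ j ∈ range J, X g j) := by
          refine sum_le_sum fun l hl => ?_
          have h1 := hYs _ (erase_subset l (range J))
          have h2 : 0 ≤ ∏ j ∈ (range J).erase l, X g j := prod_nonneg fun j _ => hX0 g hg1 j
          have h3 : ∏ j ∈ (range J).erase l, Y g j ≤ 2 * ∏ j ∈ (range J).erase l, X g j := by
            nlinarith
          calc e g l * ∏ j ∈ (range J).erase l, Y g j ≤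
                (1 / 2 ^ (m + l) * X g l) * (2 * ∏ j ∈ (range J).erase l, X g j) :=
                mul_le_mul (he1 l) h3
                  (prod_nonneg fun j _ => (hX0 g hg1 j).trans (hXY g hg1 j))
                  (mul_nonneg (by positivity) (hX0 g hg1 l))
            _ = _ := by rw [← mul_prod_erase _ _ hl]; ring
      _ = (∑ l ∈ range J, 1 / 2 ^ (m + l)) * (2 * ∏ j ∈ range J, X g j) := by rw [sum_mul]
      _ ≤ 2 / 2 ^ m * (2 * ∏ j ∈ range J, X g j) :=
          mul_le_mul_of_nonneg_right hsum (by positivity)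
      _ = _ := by ring
  have u2 : ∑ ω ∈ S, μ ω * ∏ j ∈ range J, Y (χ ω) j - ∑ l ∈ range J,
      ∑ ω ∈ S, μ ω * (e (χ ω) l * ∏ j ∈ (range J).erase l, Y (χ ω) j) ≤
        ∑ ω ∈ S, μ ω * ∏ j ∈ range J, X (χ ω) j := by
    rw [sum_comm, ← sum_sub_distrib]
    refine sum_le_sum fun ω _ => ?_
    rw [← mul_sum, ← mul_sub]
    exact mul_le_mul_of_nonneg_left
      (fl_prod_ge _ (hX0 _ (hχ1 ω)) (hXY _ (hχ1 ω)) (hYX _ (hχ1 ω))) (hμ ω)
  have u3 : ∑ l ∈ range J, ∑ ω ∈ S, μ ω * (e (χ ω) l * ∏ j ∈ (range J).erase l, Y (χ ω) j) ≤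
      Z * ∑ l ∈ range J, e g l * ∏ j ∈ (range J).erase l, Y g j + J * ρ := by
    have : (J : ℝ) * ρ = ∑ _l ∈ range J, ρ := by simp
    rw [this, mul_sum, ← sum_add_distrib]
    exact sum_le_sum fun l hl => by linarith [(abs_le.1 (c2 l hl)).2]
  have u4 : ∏ j ∈ range J, X g j ≤ ∏ j ∈ range J, Y g j :=
    prod_le_prod (fun j _ => hX0 g hg1 j) fun j _ => hXY g hg1 j
  have u5 : (2 : ℝ) / 2 ^ m ≤ 1 / 4 := by
    have : (2 : ℝ) ^ 3 ≤ 2 ^ m := pow_le_pow_right₀ one_le_two hm3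
    rw [div_le_div_iff₀ (by positivity) (by norm_num)]
    linarith
  have u6 : ∑ l ∈ range J, e g l * ∏ j ∈ (range J).erase l, Y g j ≤
      1 / 2 * ∏ j ∈ range J, X g j :=
    hV.trans (mul_le_mul_of_nonneg_right (by linarith) hP0)
  rw [hpr, hfib g]
  obtain ⟨c3, -⟩ := abs_le.1 c1
  nlinarith [mul_le_mul_of_nonneg_left u4 hZ, mul_le_mul_of_nonneg_left u6 hZ]

end Pool.Agent.MP_436a94_nt.A

end

section

/-!
The sieve statement without hypotheses.
-/

set_option autoImplicit false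

namespace Pool.Agent.MP_436a94_nt.A

open Pool.Agent.MP_43e117_nt.PG

theorem sv_all : StSv := s_Sv s_FLW s_Pr s_R1 s_R2 s_Tot

end Pool.Agent.MP_436a94_nt.A

end
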