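import Pool.Agent.Mg.F436a94p.Ga92a96
import Pool.Agent.Mg.F436a94p.G204ca6
import Pool.Agent.MP_357fb4_an.BoxFL

set_option linter.all false

section

/-!
Lower bounds for primes in progressions, uniformly in the interval.
-/

set_option autoImplicit false

open Finset Filter

noncomputable section

namespace Pool.Agent.MP_9d0b4d_nt

open Pool.Agent.GT (av pr ind)
open Pool.Agent.MP_43e117_nt.PG (th PS)
open Pool.Agent.MP_43e117_nt.PG (Dl Lev ta StLV StPNT)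
open Pool.Agent.MP_43e117_nt.PG.TotA (th_nonneg th_le sum_log_le)

namespace BVLX

theorem diff (f : ℕ → ℝ) {z1 z2 : ℕ} (h : z1 ≤ z2) :
    ∑ n ∈ Icc 1 z2, f n - ∑ n ∈ Icc 1 z1, f n = ∑ n ∈ Ioc z1 z2, f n := by
  have i1 : ∀ x : ℕ, Icc 1 x = Ioc 0 x := fun x => rfl
  rw [i1, i1, ← sum_Ioc_consecutive _ (Nat.zero_le z1) h, add_sub_cancel_left]

theorem cop {q : ℕ} (hq : 1 ≤ q) (I : Finset ℕ) :
    ∑ n ∈ I, th n - Real.log q ≤ ∑ n ∈ I.filter (fun n => n.Coprime q), th n := by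
  have h1 := sum_filter_add_sum_filter_not I (fun n => n.Coprime q) th
  have h2 : ∑ n ∈ I.filter (fun n => ¬ n.Coprime q), th n ≤ ∑ n ∈ q.primeFactors, th n := by
    rw [← sum_filter_ne_zero]
    refine sum_le_sum_of_subset_of_nonneg (fun n hn => ?_) fun n _ _ => th_nonneg n
    obtain ⟨a1, a2⟩ := mem_filter.1 hn
    have hp : n.Prime := by
      by_contra e
      exact a2 (if_neg e)
    refine Nat.mem_primeFactors.2 ⟨hp, ?_, by omega⟩
    by_contra e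
    exact (mem_filter.1 a1).2 ((Nat.Prime.coprime_iff_not_dvd hp).2 e)
  have h3 : ∑ n ∈ q.primeFactors, th n = ∑ n ∈ q.primeFactors, Real.log n :=
    sum_congr rfl fun n hn => if_pos (Nat.prime_of_mem_primeFactors hn)
  linarith [sum_log_le hq]

theorem core {q b y1 y2 z1 z2 : ℕ} (hq : 1 ≤ q) (h1 : y1 ≤ z1) (h2 : z1 ≤ z2) (h3 : z2 ≤ y2)
    {c e1 e2 : ℝ} (hc : c ≤ ∑ n ∈ Icc 1 z2, th n - ∑ n ∈ Icc 1 z1, th n - Real.log q)
    (d1 : |Dl th (Icc 1 z1) q b| ≤ e1) (d2 : |Dl th (Icc 1 z2) q b| ≤ e2) :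
    c / q.totient - (e1 + e2) ≤ ∑ n ∈ (Ioc y1 y2).filter (fun n => n ≡ b [MOD q]), th n := by
  have a1 : ∑ n ∈ (Ioc z1 z2).filter (fun n => n ≡ b [MOD q]), th n ≤
      ∑ n ∈ (Ioc y1 y2).filter (fun n => n ≡ b [MOD q]), th n :=
    sum_le_sum_of_subset_of_nonneg (filter_subset_filter _ (Ioc_subset_Ioc h1 h3))
      fun n _ _ => th_nonneg n
  have a2 := cop hq (Ioc z1 z2)
  rw [diff th h2] at hc
  have a3 := div_le_div_of_nonneg_right (hc.trans a2) (Nat.cast_nonneg q.totient)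
  rw [sum_filter, ← diff _ h2, ← sum_filter, ← sum_filter] at a1
  rw [sum_filter, ← diff _ h2, ← sum_filter, ← sum_filter, sub_div] at a3
  rw [Dl] at d1 d2
  linarith [(abs_le.1 d1).2, (abs_le.1 d2).1]

theorem ev_log (C : ℝ) : ∀ᶠ N : ℕ in atTop, C ≤ Real.log N :=
  (Real.tendsto_log_atTop.comp tendsto_natCast_atTop_atTop).eventually_ge_atTop C

theorem ev_pow (k : ℕ) : ∀ᶠ N : ℕ in atTop, 8 * Real.log N ^ k ≤ N := by
  have h := (Real.isLittleO_pow_log_id_atTop (n := k)).bound (show (0 : ℝ) < 1 / 8 by norm_num)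
  filter_upwards [tendsto_natCast_atTop_atTop.eventually h] with N hN
  rw [id, Real.norm_natCast, Real.norm_eq_abs] at hN
  linarith [le_abs_self (Real.log N ^ k)]

theorem lev (hLV : StLV) (hP : StPTL) (A : ℕ) : ∃ B : ℕ, ∀ᶠ X : ℕ in atTop, ∀ y : ℕ,
    ∃ E : ℕ → ℝ, (∀ q, 0 ≤ E q) ∧
      ∑ q ∈ Icc 1 ⌊√(X : ℝ) / Real.log X ^ B⌋₊, E q ≤ X / Real.log X ^ A ∧
      (√(X : ℝ) ≤ y → y ≤ 2 * X → ∀ q a : ℕ, 1 ≤ q → q ≤ ⌊√(X : ℝ) / Real.log X ^ B⌋₊ →
        a.Coprime q → |Dl th (Icc 1 y) q a| ≤ E q) := by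
  obtain ⟨A', hA⟩ := hLV A 0 2
  obtain ⟨B, hB⟩ := hP A'
  refine ⟨B, ?_⟩
  filter_upwards [hA, hB, ev_log 2, eventually_ge_atTop 1] with X a1 a2 a3 a4 y
  have X1 : (1 : ℝ) ≤ X := by exact_mod_cast a4
  by_cases hy : √(X : ℝ) ≤ y ∧ y ≤ 2 * X
  · obtain ⟨E, e1, e2, e3⟩ := a1 th (Icc 1 y) (√(X : ℝ) / Real.log X ^ B)
      (Icc_subset_Icc_right hy.2)
      ((div_le_self (Real.sqrt_nonneg _) (one_le_pow₀ (by linarith))).trans
        (Real.sqrt_le_iff.2 ⟨by linarith, by nlinarith⟩))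
      (fun n hn => by
        have c0 := mem_Icc.1 hn
        have c1 : Real.log n ≤ Real.log (2 * X) :=
          Real.log_le_log (Nat.cast_pos.2 c0.1) (by exact_mod_cast c0.2.trans hy.2)
        rw [Real.log_mul two_ne_zero (by linarith)] at c1
        have c2 := (th_le n).trans ArithmeticFunction.vonMangoldt_le_log
        have c3 := Real.log_two_lt_d9
        rw [abs_of_nonneg (th_nonneg n)]
        nlinarith)
      fun e he => a2 y e hy.1 hy.2 he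
    refine ⟨E, e1, by simpa only [pow_zero, one_mul] using e3, fun _ _ q a q1 q2 q3 =>
      e2 q a q1 ((Nat.le_floor_iff (by positivity)).1 q2) q3⟩
  · exact ⟨fun _ => 0, fun _ => le_rfl, by rw [sum_const_zero]; positivity,
      fun h1 h2 => absurd ⟨h1, h2⟩ hy⟩

theorem pnt (hPNT : StPNT) (α : ℕ) : ∀ᶠ X : ℕ in atTop, ∀ z : ℕ, √(X : ℝ) ≤ z → z ≤ 2 * X →
    |∑ n ∈ Icc 1 z, th n - z| ≤ X / Real.log X ^ α / 16 := by
  obtain ⟨x₀, hx⟩ := eventually_atTop.1 (hPNT (α + 1))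
  filter_upwards [ev_log (2 ^ (α + 6)), eventually_ge_atTop (x₀ ^ 2), eventually_ge_atTop 1]
    with X a1 a2 a3 z z1 z2
  have X1 : (1 : ℝ) ≤ X := by exact_mod_cast a3
  have L0 : 0 < Real.log X := lt_of_lt_of_le (by positivity) a1
  have h1 : x₀ ≤ z := by
    have : (x₀ : ℝ) ≤ √(X : ℝ) := Real.le_sqrt_of_sq_le (by exact_mod_cast a2)
    exact_mod_cast this.trans z1
  have h2 : Real.log X / 2 ≤ Real.log z := by
    rw [← Real.log_sqrt (by linarith)]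
    exact Real.log_le_log (Real.sqrt_pos.2 (by linarith)) z1
  refine (hx z h1).trans ((div_le_div₀ (by positivity) (show (z : ℝ) ≤ 2 * X by exact_mod_cast z2)
    (by positivity) (pow_le_pow_left₀ (by positivity) h2 _)).trans ?_)
  rw [div_div, div_le_div_iff₀ (by positivity) (by positivity), div_pow, mul_div_assoc',
    le_div_iff₀ (by positivity)]
  calc _ = X * Real.log X ^ α * 2 ^ (α + 6) := by ring
    _ ≤ X * Real.log X ^ α * Real.log X := mul_le_mul_of_nonneg_left a1 (by positivity)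
    _ = _ := by ring

end BVLX

open BVLX

theorem sBVL (hLV : StLV) (hP : StPTL) (hPNT : StPNT) : StBVL := by
  intro A α
  obtain ⟨B, hB⟩ := lev hLV hP (A + α + 1)
  refine ⟨B, ?_⟩
  filter_upwards [hB, pnt hPNT α, ev_log 17, ev_pow (α + 1), eventually_ge_atTop 1]
    with X a1 a2 a3 a4 a5
  choose E e1 e2 e3 using a1
  have X1 : (1 : ℝ) ≤ X := by exact_mod_cast a5
  have hQ : ∀ q : ℕ, q ≤ ⌊√(X : ℝ) / Real.log X ^ B⌋₊ → (q : ℝ) ≤ X := fun q hq =>
    ((Nat.le_floor_iff (by positivity)).1 hq).trans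
      ((div_le_self (Real.sqrt_nonneg _) (one_le_pow₀ (by linarith))).trans
        (Real.sqrt_le_iff.2 ⟨by linarith, by nlinarith⟩))
  generalize ⌊√(X : ℝ) / Real.log X ^ B⌋₊ = Q at e2 e3 hQ ⊢
  have P1 : 1 ≤ Real.log X ^ α := one_le_pow₀ (by linarith)
  have hY : 8 * Real.log X ≤ X / Real.log X ^ α := by
    rw [le_div_iff₀ (by linarith)]
    rw [pow_succ] at a4
    linarith
  have hX : X / Real.log X ^ α * Real.log X ^ α = X := div_mul_cancel₀ _ (by linarith)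
  have hE : X / Real.log X ^ (A + α + 1) * (17 * Real.log X ^ α) ≤ X / Real.log X ^ A := by
    have L0 : 0 < Real.log X := by linarith
    rw [div_mul_eq_mul_div, div_le_div_iff₀ (by positivity) (by positivity)]
    calc _ = X * Real.log X ^ (A + α) * 17 := by ring
      _ ≤ X * Real.log X ^ (A + α) * Real.log X := mul_le_mul_of_nonneg_left a3 (by positivity)
      _ = _ := by ring
  have e0 : 0 ≤ X / Real.log X ^ (A + α + 1) := by positivity
  generalize X / Real.log X ^ (A + α + 1) = ε at e2 hE e0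
  generalize X / Real.log X ^ α = Y at a2 hY hX ⊢
  obtain ⟨μ, m1, m2⟩ : ∃ μ : ℕ, (μ : ℝ) ≤ Y / 4 ∧ Y / 8 ≤ μ :=
    ⟨⌊Y / 4⌋₊, Nat.floor_le (by linarith), by linarith [Nat.lt_floor_add_one (Y / 4)]⟩
  have m0 : 0 < μ := Nat.cast_pos.1 (show (0 : ℝ) < μ by linarith)
  refine ⟨fun q => ∑ g ∈ range (2 * X / μ + 1), E (g * μ) q,
    fun q => sum_nonneg fun g _ => e1 _ q, ?_, fun q b y1 y2 q1 q2 hb b1 b2 b3 => ?_⟩
  · rw [sum_comm]
    refine (sum_le_card_nsmul _ _ _ fun g _ => e2 (g * μ)).trans (le_trans ?_ hE)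
    rw [card_range, nsmul_eq_mul, mul_comm]
    refine mul_le_mul_of_nonneg_left ?_ e0
    have c1 : ((2 * X / μ : ℕ) : ℝ) * μ ≤ 2 * X := by exact_mod_cast Nat.div_mul_le_self (2 * X) μ
    have c2 : ((2 * X / μ : ℕ) : ℝ) * (Y / 8) ≤ 16 * Real.log X ^ α * (Y / 8) := by
      have := mul_le_mul_of_nonneg_left m2 (Nat.cast_nonneg (α := ℝ) (2 * X / μ))
      linarith
    have c3 := le_of_mul_le_mul_right c2 (by linarith)
    push_cast
    linarith
  · have c1 : y1 < (y1 / μ + 1) * μ := by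
      rw [mul_comm]
      exact Nat.lt_mul_div_succ y1 m0
    have c2 : (y1 / μ + 1) * μ ≤ y1 + μ := by
      rw [add_mul, one_mul]
      exact Nat.add_le_add_right (Nat.div_mul_le_self y1 μ) μ
    have c3 : y2 / μ * μ ≤ y2 := Nat.div_mul_le_self y2 μ
    have c4 : y2 < y2 / μ * μ + μ := Nat.lt_div_mul_add m0
    have c5 : y2 ≤ 2 * X := by exact_mod_cast b3
    have c6 : y2 / μ < 2 * X / μ + 1 := Nat.lt_succ_of_le (Nat.div_le_div_right c5)
    generalize y1 / μ + 1 = g1 at c1 c2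
    generalize y2 / μ = g2 at c3 c4 c6
    have r1 : (y1 : ℝ) < (g1 * μ : ℕ) := by exact_mod_cast c1
    have r2 : ((g1 * μ : ℕ) : ℝ) ≤ y1 + μ := by exact_mod_cast c2
    have r4 : (y2 : ℝ) < (g2 * μ : ℕ) + μ := by exact_mod_cast c4
    have c7 : g1 * μ < g2 * μ := Nat.cast_lt.1 (show ((g1 * μ : ℕ) : ℝ) < (g2 * μ : ℕ) by linarith)
    have c8 : g1 < g2 := lt_of_mul_lt_mul_right c7 (Nat.zero_le μ)
    have r7 : ((g1 * μ : ℕ) : ℝ) < (g2 * μ : ℕ) := by exact_mod_cast c7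
    have s1 : √(X : ℝ) ≤ (g1 * μ : ℕ) := by linarith
    have s2 : √(X : ℝ) ≤ (g2 * μ : ℕ) := by linarith
    have p1 := abs_le.1 (a2 _ s1 (by omega))
    have p2 := abs_le.1 (a2 _ s2 (by omega))
    have p3 : Real.log q ≤ Real.log X := Real.log_le_log (Nat.cast_pos.2 q1) (hQ q q2)
    have key := core (c := ((y2 : ℝ) - y1) / 4) q1 c1.le c7.le c3 (by linarith)
      (e3 _ s1 (by omega) q b q1 q2 hb) (e3 _ s2 (by omega) q b q1 q2 hb)
    rw [div_div] at key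
    refine le_trans (sub_le_sub_left ?_ _) key
    rw [← sum_pair (f := fun g => E (g * μ) q) c8.ne]
    refine sum_le_sum_of_subset_of_nonneg (fun g hg => mem_range.2 ?_) fun g _ _ => e1 _ q
    rcases mem_insert.1 hg with rfl | hg
    · omega
    · rw [mem_singleton.1 hg]
      exact c6

end Pool.Agent.MP_9d0b4d_nt

end
end

section

/-!
The fundamental lemma of the sieve on a box.
-/

set_option autoImplicit false

open Finset Filter
open scoped Classical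

noncomputable section

namespace Pool.Agent.MP_9d0b4d_nt

open Pool.Agent.GT
open Pool.Agent.MP_357fb4_an

namespace GFX

lemma err {w z H : ℕ} (hH : 1 ≤ H) {T : Type} [Fintype T] (Y : (p : ℕ) → (T → ZMod p) → Prop)
    (S : Finset (PP w z)) :
    |pr (fun h : T → Fin H => ∀ p ∈ S, Y (p : ℕ) fun v => ((h v : ℕ) : ZMod (p : ℕ))) -
      ∏ p ∈ S, pr (Y (p : ℕ))| ≤ 2 * Fintype.card T * ((∏ p ∈ S, (p : ℕ) : ℕ) : ℝ) / H := by
  have : ∀ p : PP w z, NeZero (p : ℕ) := fun p => ⟨(MBasic_prime p).ne_zero⟩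
  have key := box_periodic (T := T)
    (fun x => ind (∀ p ∈ S, Y (p : ℕ) fun v => ((x v : ℤ) : ZMod (p : ℕ))))
    (d := ∏ p ∈ S, (p : ℕ)) (D := ∏ p : PP w z, (p : ℕ)) (H := H)
    (MBasic_prod_pos _) (prod_dvd_prod_of_subset _ _ _ (subset_univ S)) hH
    (fun x => abs_ind_le_one _) (fun x y hxy => ind_congr (forall₂_congr fun p hp => by
      rw [funext fun v => ((ZMod.intCast_eq_intCast_iff_dvd_sub (y v) (x v) (p : ℕ)).2
        ((Int.natCast_dvd_natCast.2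
          (dvd_prod_of_mem (fun p : PP w z => (p : ℕ)) hp)).trans (hxy v))).symm]))
  simp only [Int.cast_natCast] at key
  have e1 : av (fun h : T → Fin (∏ p : PP w z, (p : ℕ)) =>
      ind (∀ p ∈ S, Y (p : ℕ) fun v => ((h v : ℕ) : ZMod (p : ℕ)))) =
      ∏ p ∈ S, pr (Y (p : ℕ)) := by
    have e2 := crt_av (T := T) (fun p : PP w z => (p : ℕ)) (fun p => (MBasic_prime p).pos)
      (fun p p' h => (Nat.coprime_primes (MBasic_prime p) (MBasic_prime p')).2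
        fun e => h (Subtype.ext e))
      (fun x => ∏ p : PP w z, if p ∈ S then ind (Y (p : ℕ) (x p)) else 1)
    rw [av_pi_prod (f := fun (p : PP w z) (a : T → ZMod (p : ℕ)) =>
      if p ∈ S then ind (Y (p : ℕ) a) else 1)] at e2
    have e3 : (∏ p : PP w z, av fun a : T → ZMod (p : ℕ) =>
        if p ∈ S then ind (Y (p : ℕ) a) else 1) =
        ∏ p : PP w z, if p ∈ S then pr (Y (p : ℕ)) else 1 :=
      prod_congr rfl fun p _ => by
        split_ifs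
        · rfl
        · exact av_const _
    rw [e3, prod_ite_mem, univ_inter] at e2
    rw [← e2]
    refine av_congr fun h => ?_
    rw [prod_ite_mem, univ_inter, ind_forall]
  rw [← e1]
  exact key

lemma sum_err {w z H k : ℕ} (hz : 1 ≤ z) (hH : 1 ≤ H) {T : Type} [Fintype T]
    (Y : (p : ℕ) → (T → ZMod p) → Prop) (F : Finset (Finset (PP w z))) (hF : ∀ S ∈ F, ∀ j,
      (S.filter fun p : PP w z => Nat.log 2 (Nat.log p z) = j).card ≤ 2 * (k + j) + 1) :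
    ∑ S ∈ F,
      |pr (fun h : T → Fin H => ∀ p ∈ S, Y (p : ℕ) fun v => ((h v : ℕ) : ZMod (p : ℕ))) -
        ∏ p ∈ S, pr (Y (p : ℕ))| ≤
      (z : ℝ) ^ (4 * k + 6) * (2 * Fintype.card T * (z : ℝ) ^ (4 * k + 6) / H) := by
  refine (sum_le_card_nsmul _ _ (2 * Fintype.card T * (z : ℝ) ^ (4 * k + 6) / H)
    fun S hS => (err hH Y S).trans ?_).trans ?_
  · have : ((∏ p ∈ S, (p : ℕ) : ℕ) : ℝ) ≤ (z : ℝ) ^ (4 * k + 6) := by
      exact_mod_cast BoxFL_prod_le hz S (hF S hS)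
    gcongr
  · rw [nsmul_eq_mul]
    have h : #F ≤ #(Icc 1 (z ^ (4 * k + 6))) :=
      card_le_card_of_injOn (fun S => ∏ p ∈ S, (p : ℕ))
        (fun S hS => by
          simp only [coe_Icc, Set.mem_Icc]
          exact ⟨MBasic_prod_pos S, BoxFL_prod_le hz S (hF S hS)⟩)
        fun S _ T _ h => MBasic_prod_inj h
    rw [Nat.card_Icc, Nat.add_sub_cancel] at h
    have h' : (#F : ℝ) ≤ (z : ℝ) ^ (4 * k + 6) := by exact_mod_cast h
    gcongr

lemma mem_PP {w z p : ℕ} : p ∈ PP w z ↔ w < p ∧ p ≤ z ∧ p.Prime := by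
  rw [PP, mem_filter, mem_Ioc, and_assoc]

lemma Vs_eq {w s : ℕ} (hs : ∀ p : ℕ, p.Prime → p ≤ w → p ∣ s) (z : ℕ) :
    Vs s z = ∏ p : PP w z, if ¬ (p : ℕ) ∣ s then 1 - 1 / ((p : ℕ) : ℝ) else 1 := by
  rw [prod_coe_sort (PP w z) fun p => if ¬ p ∣ s then 1 - 1 / (p : ℝ) else 1, ← prod_filter, Vs]
  refine prod_congr ?_ fun _ _ => rfl
  ext p
  simp only [mem_filter, mem_Icc, mem_PP]
  exact ⟨fun h => ⟨⟨not_le.1 fun e => h.2.2 (hs p h.2.1 e), h.1.2, h.2.1⟩, h.2.2⟩,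
    fun h => ⟨⟨h.1.2.2.one_le, h.1.2.1⟩, h.1.2.2, h.2⟩⟩

lemma half {w z : ℕ} (p : PP w z) : (1 : ℝ) / 2 ≤ 1 - 1 / ((p : ℕ) : ℝ) := by
  have : 1 / ((p : ℕ) : ℝ) ≤ 1 / 2 := one_div_le_one_div_of_le (by norm_num) (MBasic_two_le p)
  linarith

lemma Vp_le {w s : ℕ} (hs : ∀ p : ℕ, p.Prime → p ≤ w → p ∣ s) (z : ℕ) : Vp w z ≤ Vs s z := by
  have e : Vp w z = ∏ p : PP w z, (1 - 1 / ((p : ℕ) : ℝ)) :=
    (prod_coe_sort (PP w z) fun p => 1 - 1 / (p : ℝ)).symm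
  rw [e, Vs_eq hs]
  refine prod_le_prod (fun p _ => by linarith [half p]) fun p _ => ?_
  split_ifs
  · exact sub_le_self _ (by positivity)
  · exact le_rfl

lemma main {w s z m : ℕ} (hs : ∀ p : ℕ, p.Prime → p ≤ w → p ∣ s) (hm : m ≤ 4) {T : Type}
    [Fintype T] (Z : (p : ℕ) → (T → ZMod p) → Prop)
    (hZ : ∀ p : ℕ, p.Prime → ¬ p ∣ s → |1 - pr (Z p) - (1 - 1 / (p : ℝ)) ^ m| ≤ 40 / (p : ℝ) ^ 2) :
    |(∏ p : PP w z, (1 - pr fun x => ¬ (p : ℕ) ∣ s ∧ Z (p : ℕ) x)) * (Vs s z)⁻¹ ^ m - 1| ≤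
      ∏ p : PP w z, (1 + (640 : ℝ) / ((p : ℕ) : ℝ) ^ 2) - 1 := by
  rw [Vs_eq hs, ← prod_inv_distrib, ← prod_pow, ← prod_mul_distrib]
  refine BoxFL_prod_close _ _ _ fun p => ?_
  have : NeZero (p : ℕ) := ⟨(MBasic_prime p).ne_zero⟩
  by_cases hp : (p : ℕ) ∣ s
  · rw [if_neg (not_not.2 hp), pr_of_forall_not fun x hx => hx.1 hp]
    simp only [sub_zero, inv_one, one_pow, mul_one, sub_self, abs_zero]
    positivity
  rw [if_pos hp, pr_congr (Q := Z p) fun x => and_iff_right hp]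
  have h := hZ p (MBasic_prime p) hp
  have h1 := half p
  set u : ℝ := 1 - 1 / ((p : ℕ) : ℝ)
  have u0 : 0 < u := by linarith
  have h2 : u⁻¹ ≤ 2 := by
    rw [inv_le_comm₀ u0 (by norm_num)]
    linarith
  have e2 : (1 - pr (Z p)) * u⁻¹ ^ m - 1 = (1 - pr (Z p) - u ^ m) * u⁻¹ ^ m := by
    rw [sub_mul _ (u ^ _), ← mul_pow, mul_inv_cancel₀ u0.ne', one_pow]
  rw [e2, abs_mul, abs_of_nonneg (a := u⁻¹ ^ _) (by positivity)]
  have h3 : (2 : ℝ) ^ m ≤ 2 ^ 4 := pow_le_pow_right₀ (by norm_num) hm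
  calc _ ≤ 40 / ((p : ℕ) : ℝ) ^ 2 * 2 ^ m := by gcongr
    _ ≤ 40 / ((p : ℕ) : ℝ) ^ 2 * 2 ^ 4 := by gcongr
    _ = _ := by ring

lemma g_le {s m p : ℕ} (hp : p.Prime) (hm : m ≤ 4) {T : Type} [Fintype T]
    (Z : (T → ZMod p) → Prop)
    (hZ : ¬ p ∣ s → |1 - pr Z - (1 - 1 / (p : ℝ)) ^ m| ≤ 40 / (p : ℝ) ^ 2) :
    (pr fun x => ¬ p ∣ s ∧ Z x) ≤ 44 * (1 / p) := by
  have : NeZero p := ⟨hp.ne_zero⟩
  by_cases h : p ∣ s
  · rw [pr_of_forall_not fun x hx => hx.1 h]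
    positivity
  rw [pr_congr (Q := Z) fun x => and_iff_right h]
  have h0 := (abs_le.1 (hZ h)).1
  have hp1 : (1 : ℝ) ≤ p := by exact_mod_cast hp.one_le
  have hp0 : (0 : ℝ) < p := by linarith
  have h1 := MLocal_le_pow (x := 1 / (p : ℝ)) (by rw [div_le_one hp0]; exact hp1) m
  have h2 : (40 : ℝ) / (p : ℝ) ^ 2 ≤ 40 * (1 / p) := by
    rw [mul_one_div]
    have : (p : ℝ) ≤ (p : ℝ) ^ 2 := by nlinarith
    gcongr
  have h3 : (m : ℝ) * (1 / p) ≤ 4 * (1 / p) := by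
    have : (m : ℝ) ≤ 4 := by exact_mod_cast hm
    gcongr
  linarith

end GFX

theorem sGF : StGF := by
  obtain ⟨C, hC⟩ := prime_recip
  obtain ⟨k₀, hk₀⟩ := fl (44 * C)
  refine ⟨19, k₀, fun ε hε => ?_⟩
  obtain ⟨w₁, hw₁⟩ := tail_small (640 : ℝ) (lt_min hε one_pos)
  refine ⟨max w₁ 88, fun s z H k m hs hk hz hH hm Z hZ => ?_⟩
  set w := max w₁ 88 with hw
  have hw1 : w₁ ≤ w := le_max_left _ _
  have hw2 : 88 ≤ w := le_max_right _ _
  have : Nonempty (Fin H) := ⟨⟨0, hH⟩⟩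
  have : ∀ p : PP w z, NeZero (p : ℕ) := fun p => ⟨(MBasic_prime p).ne_zero⟩
  have hg : ∀ p : PP w z, (pr fun x => ¬ (p : ℕ) ∣ s ∧ Z (p : ℕ) x) ≤ 44 * (1 / (p : ℕ)) :=
    fun p => GFX.g_le (MBasic_prime p) hm _ (hZ p (MBasic_prime p))
  have h1 := hk₀ k hk (Fin 3 × Fin 2 → Fin H) (PP w z)
    (fun p h => ¬ (p : ℕ) ∣ s ∧ Z (p : ℕ) fun v => ((h v : ℕ) : ZMod (p : ℕ)))
    (fun p => pr fun x => ¬ (p : ℕ) ∣ s ∧ Z (p : ℕ) x) (fun p => Nat.log 2 (Nat.log p z)) z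
    ((z : ℝ) ^ (4 * k + 6) * (2 * Fintype.card (Fin 3 × Fin 2) * (z : ℝ) ^ (4 * k + 6) / H))
    (fun p => ⟨pr_nonneg _, (hg p).trans (by
      have h2 : ((88 : ℕ) : ℝ) ≤ (p : ℕ) := by
        exact_mod_cast hw2.trans (MBasic_lt p).le
      push_cast at h2
      rw [mul_one_div, div_le_iff₀ (by linarith)]
      linarith)⟩)
    (fun p => lt_of_le_of_lt (Nat.log_le_self _ _) (Nat.log_lt_self _ (by omega)))
    (fun j => (sum_le_sum fun p _ => hg p).trans (by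
      rw [← mul_sum]
      exact mul_le_mul_of_nonneg_left (BoxFL_block hC w z j (by omega)) (by positivity)))
    (GFX.sum_err (k := k) (show 1 ≤ z by omega) hH (fun p x => ¬ p ∣ s ∧ Z p x) _
      fun S hS => (mem_filter.1 hS).2)
  have h2 := (GFX.main (z := z) hs hm Z hZ).trans (hw₁ w z hw1)
  rw [pr_congr (Q := fun h : Fin 3 × Fin 2 → Fin H => ∀ p : PP w z,
      ¬ (¬ (p : ℕ) ∣ s ∧ Z (p : ℕ) fun v => ((h v : ℕ) : ZMod (p : ℕ)))) fun h =>
    ⟨fun a p b => a p (MBasic_prime p) (MBasic_le p) b.1 b.2, fun a p p1 p2 p3 b =>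
      a ⟨p, GFX.mem_PP.2 ⟨not_le.1 fun e => p3 (hs p p1 e), p2, p1⟩⟩ ⟨p3, b⟩⟩,
    div_eq_mul_inv, ← inv_pow, kap]
  have hT : (Fintype.card (Fin 3 × Fin 2) : ℝ) = 6 := by simp
  rw [hT] at h1
  have hz' : (2 : ℝ) ≤ z := by exact_mod_cast hz
  have hH' : (0 : ℝ) < H := by exact_mod_cast hH
  have hV := GFX.Vp_le hs z
  have hV0 : 0 ≤ (Vs s z)⁻¹ := inv_nonneg.2 ((Vp_pos w z).le.trans hV)
  have v0 : 0 ≤ (Vs s z)⁻¹ ^ m := pow_nonneg hV0 _
  have v1 : (Vs s z)⁻¹ ^ m ≤ (z : ℝ) ^ 4 :=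
    (pow_le_pow_left₀ hV0 ((inv_anti₀ (Vp_pos w z) hV).trans (inv_Vp_le w (by omega))) _).trans
      (pow_le_pow_right₀ (by linarith) hm)
  set V := (Vs s z)⁻¹ ^ m
  set Q := ∏ p : PP w z, (1 - pr fun x => ¬ (p : ℕ) ∣ s ∧ Z (p : ℕ) x)
  set R := pr (fun h : Fin 3 × Fin 2 → Fin H => ∀ p : PP w z,
    ¬ (¬ (p : ℕ) ∣ s ∧ Z (p : ℕ) fun v => ((h v : ℕ) : ZMod (p : ℕ))))
  have h3 : Q * V ≤ 2 := by linarith [(abs_le.1 h2).2, min_le_right ε 1]
  have h4 : ((z : ℝ) + 1) * ((z : ℝ) ^ (4 * k + 6) * (2 * 6 * (z : ℝ) ^ (4 * k + 6) / H)) * V ≤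
      6 * (z : ℝ) ^ (19 * (k + 1)) / H := by
    have a1 : (z : ℝ) + 1 ≤ z ^ 2 := by nlinarith
    calc _ ≤ (z : ℝ) ^ 2 * ((z : ℝ) ^ (4 * k + 6) *
          (z * 6 * (z : ℝ) ^ (4 * k + 6) / H)) * (z : ℝ) ^ 4 := by gcongr
      _ = 6 * (z : ℝ) ^ (8 * k + 19) / H := by ring
      _ ≤ _ := by
        have : (z : ℝ) ^ (8 * k + 19) ≤ (z : ℝ) ^ (19 * (k + 1)) :=
          pow_le_pow_right₀ (by linarith) (by omega)
        gcongr
  have h5 : |R * V - Q * V| ≤ 16 / 2 ^ k + 6 * (z : ℝ) ^ (19 * (k + 1)) / H := by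
    rw [← sub_mul, abs_mul, abs_of_nonneg v0]
    refine (mul_le_mul_of_nonneg_right h1 v0).trans ?_
    rw [add_mul, mul_assoc]
    refine add_le_add ?_ h4
    calc _ ≤ 8 / 2 ^ k * (2 : ℝ) := by gcongr
      _ = _ := by ring
  have h6 := abs_sub_le (R * V) (Q * V) 1
  linarith [min_le_left ε 1]

end Pool.Agent.MP_9d0b4d_nt

end
end

section

/-!
The local densities of the four shifted values.
-/

set_option autoImplicit false

open Finset Filter

noncomputable section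

namespace Pool.Agent.MP_9d0b4d_nt

open Pool.Agent.GT (av pr ind)
open Pool.Agent.MP_43e117_nt.PG (th PS)

namespace LocX

open Pool.Agent.GT Function

variable {K : Type} [Field K] [Finite K]

theorem quad {P : K → Prop} {A B C : K} (hA : A ≠ 0) (h : ∀ t, P t → A * t ^ 2 + B * t + C = 0) :
    pr P ≤ 2 * (1 / Nat.card K) := by
  by_cases e : ∃ t, P t
  · obtain ⟨u, hu⟩ := e
    have h1 : ∀ t, P t → t = u ∨ t = -B / A - u := fun t ht => by
      have h2 : (t - u) * (A * (t + u) + B) = 0 := by linear_combination h t ht - h u hu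
      refine (mul_eq_zero.1 h2).imp sub_eq_zero.1 fun h3 => ?_
      field_simp
      linear_combination h3
    refine (pr_mono h1).trans ((pr_or_le _ _).trans ?_)
    rw [pr_eq_single, pr_eq_single, two_mul]
  · rw [pr_of_forall_not (not_exists.1 e)]
    positivity

theorem lin {s : K} (hs : s ≠ 0) (X d e e' : K) :
    pr (fun t : K => s * X * (d + t - e - e') + 1 = 0) = ind (¬ X = 0) * (1 / Nat.card K) := by
  by_cases hX : X = 0
  · rw [ind_of_not (not_not.2 hX), zero_mul]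
    exact pr_of_forall_not fun t => by simp [hX]
  · rw [ind_of hX, one_mul, ← pr_eq_single (-(s * X)⁻¹ - d + e + e')]
    refine pr_congr fun t => ⟨fun h => ?_, fun h => ?_⟩
    · field_simp
      linear_combination h
    · rw [h]
      field_simp
      ring

variable {c r r' : K} (a d : K)

theorem one (hc : c ≠ 0) (hr : r ≠ 0) (hr' : r' ≠ 0) (i : Fin 2 × Fin 2) :
    pr (fun h : Fin 3 × Fin 2 → K => Qf c r r' a d h i = 0) =
      (1 - 1 / Nat.card K) * (1 / Nat.card K) := by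
  have hs : c * r * r' ≠ 0 := mul_ne_zero (mul_ne_zero hc hr) hr'
  have h1 : ∀ x : Fin 3 × Fin 2 → K, (av fun t : K =>
      ind (Qf c r r' a d (update x (0, 1) t) i = 0)) =
      ind (¬ a + x (0, 0) + r' * x (1, i.1) + r * x (2, i.2) = 0) * (1 / Nat.card K) := fun x => by
    rw [← lin hs _ d (c * r * x (1, i.1)) (c * r' * x (2, i.2))]
    refine av_congr fun t => ?_
    rw [Qf, update_self, update_of_ne (by simp), update_of_ne (by simp), update_of_ne (by simp)]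
  have h2 : ∀ x : Fin 3 × Fin 2 → K, (av fun t : K => ind (¬ a + update x (0, 0) t (0, 0) +
      r' * update x (0, 0) t (1, i.1) + r * update x (0, 0) t (2, i.2) = 0)) =
      1 - 1 / Nat.card K := fun x => by
    rw [← pr_eq_single (-(a + r' * x (1, i.1) + r * x (2, i.2))), ← pr_not]
    refine av_congr fun t => ind_congr (not_congr ?_)
    rw [update_self, update_of_ne (by simp), update_of_ne (by simp)]
    exact ⟨fun h => by linear_combination h, fun h => by linear_combination h⟩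
  rw [pr, av_update (0, 1), av_congr h1, av_mul_const, av_update (0, 0), av_congr h2, av_const]

theorem two (hc : c ≠ 0) (hr : r ≠ 0) (hr' : r' ≠ 0) {i j : Fin 2 × Fin 2} (hij : j ≠ i) :
    pr (fun h : Fin 3 × Fin 2 → K => Qf c r r' a d h i = 0 ∧ Qf c r r' a d h j = 0) ≤
      2 * (1 / Nat.card K) ^ 2 := by
  have hs : -(c * r * r' * (c * r * r')) ≠ 0 := by simp [hc, hr, hr']
  obtain ⟨v, h1, h2⟩ : ∃ v : Fin 3 × Fin 2,
      (∀ x t, Qf c r r' a d (update x v t) i = Qf c r r' a d x i) ∧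
      ∀ x, pr (fun t => Qf c r r' a d (update x v t) j = 0) ≤ 2 * (1 / Nat.card K) := by
    by_cases e : i.1 = j.1
    · have e' : i.2 ≠ j.2 := fun e' => hij (Prod.ext e e').symm
      refine ⟨(2, j.2), fun x t => ?_, fun x => quad hs
        (B := c * r * r' * (r * (d + x (0, 1) - c * r * x (1, j.1)) -
          c * r' * (a + x (0, 0) + r' * x (1, j.1))))
        (C := c * r * r' * (a + x (0, 0) + r' * x (1, j.1)) * (d + x (0, 1) - c * r * x (1, j.1)) +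
          1) fun t ht => ?_⟩
      · rw [Qf, Qf, update_of_ne (by simp), update_of_ne (by simp), update_of_ne (by simp [e']),
          update_of_ne (by simp)]
      · rw [Qf, update_self, update_of_ne (by simp), update_of_ne (by simp),
          update_of_ne (by simp)] at ht
        linear_combination ht
    · refine ⟨(1, j.1), fun x t => ?_, fun x => quad hs
        (B := c * r * r' * (r' * (d + x (0, 1) - c * r' * x (2, j.2)) -
          c * r * (a + x (0, 0) + r * x (2, j.2))))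
        (C := c * r * r' * (a + x (0, 0) + r * x (2, j.2)) * (d + x (0, 1) - c * r' * x (2, j.2)) +
          1) fun t ht => ?_⟩
      · rw [Qf, Qf, update_of_ne (by simp), update_of_ne (by simp [e]), update_of_ne (by simp),
          update_of_ne (by simp)]
      · rw [Qf, update_self, update_of_ne (by simp), update_of_ne (by simp),
          update_of_ne (by simp)] at ht
        linear_combination ht
  have h3 : ∀ x : Fin 3 × Fin 2 → K, (av fun t : K => ind (Qf c r r' a d (update x v t) i = 0 ∧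
      Qf c r r' a d (update x v t) j = 0)) ≤
      ind (Qf c r r' a d x i = 0) * (2 * (1 / Nat.card K)) := fun x => by
    simp only [ind_and, h1, av_const_mul]
    exact mul_le_mul_of_nonneg_left (h2 x) (ind_nonneg _)
  rw [pr, av_update v]
  refine (av_mono h3).trans ?_
  have h4 := one a d hc hr hr' i
  rw [pr] at h4
  rw [av_mul_const, h4]
  have h5 : (0 : ℝ) ≤ 1 / Nat.card K := by positivity
  nlinarith [mul_nonneg h5 (mul_nonneg h5 h5)]

theorem bonf {ι : Type} [DecidableEq ι] (S : Finset ι) (P : ι → Prop) :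
    ∑ i ∈ S, ind (P i) ≤ ind (∃ i ∈ S, P i) + ∑ i ∈ S, ∑ j ∈ S.erase i, ind (P i ∧ P j) := by
  have h0 : ∀ i ∈ S, 0 ≤ ∑ j ∈ S.erase i, ind (P i ∧ P j) := fun i _ =>
    sum_nonneg fun j _ => ind_nonneg _
  by_cases h : ∃ i ∈ S, P i
  · rw [ind_of h]
    obtain ⟨i, hi, h⟩ := h
    rw [← add_sum_erase _ _ hi, ind_of h]
    refine add_le_add_right (le_trans (le_of_eq ?_) (single_le_sum h0 hi)) 1
    exact sum_congr rfl fun j _ => ind_congr (and_iff_right h).symm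
  · rw [ind_of_not h, sum_eq_zero fun i hi => ind_of_not fun e => h ⟨i, hi, e⟩, zero_add]
    exact sum_nonneg h0

theorem pw {x : ℝ} (h0 : 0 ≤ x) (h1 : x ≤ 1) {m : ℕ} (hm : m ≤ 4) :
    0 ≤ (1 - x) ^ m - 1 + m * x ∧ (1 - x) ^ m - 1 + m * x ≤ 6 * x ^ 2 := by
  have h2 := mul_nonneg (sq_nonneg x) h0
  have h3 := mul_nonneg (sq_nonneg x) (sub_nonneg.2 h1)
  have h4 := mul_nonneg h2 (sub_nonneg.2 h1)
  have h5 := sq_nonneg x
  have h6 := sq_nonneg (x ^ 2)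
  interval_cases m <;> constructor <;> push_cast <;> nlinarith

end LocX

theorem sLoc : StLoc := by
  intro p hp c r r' a d hc hr hr' S
  have := Fact.mk hp
  have hq : (Nat.card (ZMod p) : ℝ) = p := by rw [Nat.card_zmod]
  have hm : S.card ≤ 4 := (card_le_univ S).trans (by simp)
  have hm' : (S.card : ℝ) ≤ 4 := by exact_mod_cast hm
  have x0 : (0 : ℝ) ≤ 1 / p := by positivity
  have x1 : (1 : ℝ) / p ≤ 1 := by
    rw [div_le_one (Nat.cast_pos.2 hp.pos)]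
    exact_mod_cast hp.one_le
  have e1 : ∑ i ∈ S, pr (fun h : Fin 3 × Fin 2 → ZMod p => Qf c r r' a d h i = 0) =
      S.card * ((1 - 1 / p) * (1 / p)) := by
    rw [sum_congr rfl fun i _ => LocX.one a d hc hr hr' i, sum_const, nsmul_eq_mul, hq]
  have e2 := GT.pr_exists_le S fun i (h : Fin 3 × Fin 2 → ZMod p) => Qf c r r' a d h i = 0
  have e3 := GT.av_mono fun h : Fin 3 × Fin 2 → ZMod p =>
    LocX.bonf S fun i => Qf c r r' a d h i = 0
  simp only [GT.av_add, GT.av_sum] at e3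
  have e4 : ∑ i ∈ S, ∑ j ∈ S.erase i, pr (fun h : Fin 3 × Fin 2 → ZMod p =>
      Qf c r r' a d h i = 0 ∧ Qf c r r' a d h j = 0) ≤ S.card • (6 * (1 / (p : ℝ)) ^ 2) := by
    refine sum_le_card_nsmul _ _ _ fun i hi => ?_
    refine (sum_le_card_nsmul _ _ _ fun j hj =>
      LocX.two a d hc hr hr' (ne_of_mem_erase hj)).trans ?_
    have h1 : (S.erase i).card ≤ 3 := by
      rw [card_erase_of_mem hi]
      omega
    have h2 : ((S.erase i).card : ℝ) ≤ 3 := by exact_mod_cast h1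
    rw [nsmul_eq_mul, hq]
    nlinarith [sq_nonneg (1 / (p : ℝ))]
  obtain ⟨e5, e6⟩ := LocX.pw x0 x1 hm
  have e7 := mul_le_mul_of_nonneg_right hm' (sq_nonneg (1 / (p : ℝ)))
  have e8 := mul_nonneg (Nat.cast_nonneg (α := ℝ) S.card) (sq_nonneg (1 / (p : ℝ)))
  have e9 : 40 / (p : ℝ) ^ 2 = 40 * (1 / (p : ℝ)) ^ 2 := by ring
  rw [nsmul_eq_mul] at e4
  simp only [pr] at e1 e2 e4 ⊢
  rw [e9, abs_le]
  constructor <;> nlinarith [sq_nonneg (1 / (p : ℝ))]

end Pool.Agent.MP_9d0b4d_nt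

end
end

section

set_option autoImplicit false

open Finset Filter

noncomputable section

namespace Pool.Agent.MP_9d0b4d_nt

open Pool.Agent.GT (av pr ind)
open Pool.Agent.MP_43e117_nt.PG (th PS)

namespace N1X

theorem ev_log (c : ℝ) : ∀ᶠ N : ℕ in atTop, c ≤ Real.log N :=
  (Real.tendsto_log_atTop.comp tendsto_natCast_atTop_atTop).eventually_ge_atTop c

theorem ev_pow (k : ℕ) (c : ℝ) (hc : 0 < c) : ∀ᶠ N : ℕ in atTop, c * Real.log N ^ k ≤ N := by
  have h := (Real.isLittleO_pow_log_id_atTop (n := k)).bound (inv_pos.2 hc)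
  filter_upwards [tendsto_natCast_atTop_atTop.eventually h] with N hN
  rw [Real.norm_eq_abs, id, Real.norm_eq_abs, Nat.abs_cast, inv_mul_eq_div, le_div_iff₀ hc] at hN
  have := mul_le_mul_of_nonneg_left (le_abs_self (Real.log N ^ k)) hc.le
  linarith

theorem ev_sc (k c : ℕ) : ∀ᶠ N : ℕ in atTop, c ≤ sc N k ∧ (sc N k : ℝ) * Real.log N ^ k ≤ N ∧
    (N : ℝ) ≤ 2 * sc N k * Real.log N ^ k := by
  filter_upwards [ev_log 1, ev_pow k (c + 2) (by positivity)] with N h1 h2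
  have hp : 0 < Real.log N ^ k := by positivity
  have h3 : (c : ℝ) + 2 ≤ N / Real.log N ^ k := (le_div_iff₀ hp).2 h2
  have h4 : (sc N k : ℝ) ≤ N / Real.log N ^ k := Nat.floor_le (by positivity)
  have h5 : N / Real.log N ^ k < (sc N k : ℝ) + 1 := Nat.lt_floor_add_one _
  have hc : (0 : ℝ) ≤ c := Nat.cast_nonneg _
  refine ⟨Nat.le_floor (by linarith), (le_div_iff₀ hp).1 h4, (div_le_iff₀ hp).1 (by linarith)⟩

theorem dy_le {N k : ℕ} (h : 1 ≤ sc N k) : (dy N k : ℝ) ≤ sc N k := by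
  exact_mod_cast Nat.pow_log_le_self 2 (by omega)

theorem quot {x y c L : ℝ} (hy : 0 < y) (hL : 0 < L) (h : x * L ≤ c * y) : x / y ≤ c / L := by
  rwa [div_le_div_iff₀ hy hL]

end N1X

open N1X in
theorem sN1 : StN1 := by
  intro s R α B τ hs hR hα hτ
  filter_upwards [ev_log 1, ev_log (4 * s ^ 4), ev_log (8 * s),
    ev_log ((4 + 8 * s ^ 4 * R + s ^ 5 * R) / τ), ev_log (6 * R / τ), ev_sc α 1,
    ev_sc (α + 2 * B + 1) (2 * R), ev_sc (α + 2 * B + 2) 1, ev_sc (α + 2 * B + 3) 1,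
    eventually_ge_atTop 4, eventually_ge_atTop R] with N hL c1 c2 c3 c4 ⟨l0, l1, _⟩ ⟨a0, a1, a2⟩
    ⟨x0, x1, x2⟩ ⟨m0, m1, _⟩ hN4 hNR
  have hD : 3 * N ≤ R * (3 * N / R + 1) := (Nat.lt_mul_div_succ _ hR).le
  have hD' : R * (3 * N / R + 1) ≤ 4 * N := by
    have := Nat.mul_div_le (3 * N) R
    rw [mul_add]
    omega
  have hl := dy_le l0
  have hm := dy_le m0
  have hn : (4 : ℝ) ≤ N := by exact_mod_cast hN4
  have h2N : Real.log (2 * N) ≤ 2 * Real.log N := by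
    rw [Real.log_mul two_ne_zero (by linarith)]
    have := Real.log_le_log two_pos (show (2 : ℝ) ≤ N by linarith)
    linarith
  have h2N0 : 0 ≤ Real.log (2 * N) := Real.log_nonneg (by linarith)
  have hLa : Real.log N ≤ Real.log N ^ α := le_self_pow₀ hL (by omega)
  have hLb : Real.log N ≤ Real.log N ^ (α + 2 * B + 1) := le_self_pow₀ hL (by omega)
  rw [show α + 2 * B + 2 = α + 2 * B + 1 + 1 from rfl, pow_succ] at x1 x2
  have e3 : Real.log N ^ (α + 2 * B + 3) =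
      Real.log N ^ (α + 2 * B + 1) * Real.log N * Real.log N := by ring
  rw [e3] at m1
  have hA0 : 0 < sc N (α + 2 * B + 1) := by omega
  refine ⟨a0, x0, Nat.two_pow_pos _, Nat.two_pow_pos _, ?_, ?_, hD, hD', hN4, ?_⟩
  · have h0 : (0 : ℝ) ≤ sc N α := Nat.cast_nonneg _
    have : 4 * (s : ℝ) ^ 4 * dy N α ≤ N :=
      (mul_le_mul (c1.trans hLa) hl (Nat.cast_nonneg _) (by positivity)).trans (by linarith)
    exact_mod_cast this
  · have : 8 * (s : ℝ) * sc N (α + 2 * B + 1) ≤ N :=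
      (mul_le_mul_of_nonneg_right (c2.trans hLb) (Nat.cast_nonneg _)).trans (by linarith)
    exact_mod_cast this
  rw [e3]
  have hD1 : 3 * (N : ℝ) ≤ R * ((3 * N / R + 1 : ℕ) : ℝ) := by exact_mod_cast hD
  have hD0 : (0 : ℝ) < ((3 * N / R + 1 : ℕ) : ℝ) := by exact_mod_cast Nat.succ_pos _
  have hA1 : (0 : ℝ) < sc N (α + 2 * B + 1) := by exact_mod_cast hA0
  have hX1 : (0 : ℝ) < sc N (α + 2 * B + 2) := by exact_mod_cast x0
  have hm0 : (0 : ℝ) ≤ dy N (α + 2 * B + 3) := Nat.cast_nonneg _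
  have hR0 : (0 : ℝ) ≤ R := Nat.cast_nonneg _
  have hs0 : (0 : ℝ) ≤ s := Nat.cast_nonneg _
  change (sc N (α + 2 * B + 2) : ℝ) * _ ≤ _ at x1
  change _ ≤ 2 * (sc N (α + 2 * B + 2) : ℝ) * _ at x2
  generalize ((3 * N / R + 1 : ℕ) : ℝ) = D at *
  generalize (sc N (α + 2 * B + 1) : ℝ) = A at *
  generalize (sc N (α + 2 * B + 2) : ℝ) = X at *
  generalize (sc N (α + 2 * B + 3) : ℝ) = Y at *
  generalize (dy N (α + 2 * B + 3) : ℝ) = m at *
  generalize Real.log N ^ (α + 2 * B + 1) = P at *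
  generalize Real.log (2 * N) = L2 at *
  generalize Real.log N = L at *
  have hL0 : 0 < L := by linarith
  have hP1 : 1 ≤ P := by linarith
  have hP0 : 0 < P := by linarith
  have q1 : m / X ≤ 2 / L := quot hX1 hL0 (by
    refine le_of_mul_le_mul_right ?_ (mul_pos hP0 hL0)
    have := mul_le_mul_of_nonneg_right hm (show 0 ≤ P * L * L by positivity)
    linarith)
  have q2 : X / A ≤ 2 / L := quot hA1 hL0 (by
    refine le_of_mul_le_mul_right ?_ hP0
    linarith)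
  have q3 : X / D ≤ R / 3 / L := quot hD0 hL0 (by
    have := mul_le_mul_of_nonneg_left hP1 (show 0 ≤ X * L by positivity)
    linarith)
  rw [div_le_iff₀ hτ, mul_comm L τ, ← div_le_iff₀ hL0] at c3 c4
  constructor
  · refine le_trans ?_ c3
    have r2 := mul_le_mul_of_nonneg_left q2 (show 0 ≤ 4 * (s : ℝ) ^ 4 * R by positivity)
    have r3 := mul_le_mul_of_nonneg_left q3 (show 0 ≤ 2 * (s : ℝ) ^ 5 by positivity)
    have r4 : 0 ≤ (s : ℝ) ^ 5 * R / L := by positivity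
    calc _ = 2 * (m / X) + 4 * (s : ℝ) ^ 4 * R * (X / A) + 2 * (s : ℝ) ^ 5 * (X / D) := by ring
      _ ≤ 2 * (2 / L) + 4 * (s : ℝ) ^ 4 * R * (2 / L) + 2 * (s : ℝ) ^ 5 * (R / 3 / L) := by
        linarith
      _ = (4 + 8 * s ^ 4 * R + s ^ 5 * R) / L - (s : ℝ) ^ 5 * R / L / 3 := by ring
      _ ≤ _ := by linarith
  · refine le_trans (quot (by positivity) hL0 ?_) c4
    have r1 : (N : ℝ) * (3 * N) ≤ 2 * A * P * (R * D) :=
      mul_le_mul a2 hD1 (by positivity) (by positivity)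
    calc _ ≤ (N : ℝ) * (2 * N / (P * L * L)) * (2 * (2 * L)) * L := by gcongr
      _ = 8 / 3 * (N * (3 * N)) / P := by field_simp; ring
      _ ≤ 8 / 3 * (2 * A * P * (R * D)) / P := by gcongr
      _ = 16 / 3 * (R * (A * D)) := by field_simp; ring
      _ ≤ _ := by
        have : 0 ≤ R * (A * D) := by positivity
        linarith

end Pool.Agent.MP_9d0b4d_nt

end
end

section

set_option autoImplicit false

open Finset Filter

noncomputable section

namespace Pool.Agent.MP_9d0b4d_nt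

namespace N3X

theorem log_le (β : ℕ) : ∀ᶠ x : ℝ in atTop, Real.log x ^ β ≤ x ^ (1 / 8 : ℝ) := by
  have h := (isLittleO_log_rpow_rpow_atTop (β : ℝ) (s := 1 / 8) (by norm_num)).eventuallyLE
  filter_upwards [h, eventually_ge_atTop 1] with x hx h1
  rw [Real.rpow_natCast, Real.norm_eq_abs, Real.norm_eq_abs,
    abs_of_nonneg (Real.rpow_nonneg (by linarith) _)] at hx
  exact (le_abs_self _).trans hx

theorem main (z H A D s R t τ : ℝ) (ht : 2 ≤ t) (hz : z ≤ t ^ 2) (hH0 : 0 ≤ H)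
    (hH : H ≤ t ^ 4) (hA : t ^ 7 / 2 ≤ A) (hR : 0 < R) (hs : 0 ≤ s) (hD : 3 * t ^ 8 ≤ R * D)
    (hτ : 8 * (1 + 4 * R) + 2 * ((1 + 2 * s) * R) ≤ τ * t) :
    2 * (z + 1) * (H * (1 + 4 * R) / A + H * (1 + 2 * s) / D) ≤ τ := by
  have t0 : 0 < t := by linarith
  have t1 : 1 ≤ t := by linarith
  have hA0 : 0 < A := lt_of_lt_of_le (by positivity) hA
  have hD0 : 0 < D := by
    by_contra hc
    have : R * D ≤ 0 := mul_nonpos_of_nonneg_of_nonpos hR.le (not_lt.1 hc)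
    have : 0 < 3 * t ^ 8 := by positivity
    linarith
  have h1 : z + 1 ≤ 2 * t ^ 2 := by nlinarith [one_le_pow₀ (n := 2) t1]
  have h2 : H * (1 + 4 * R) / A ≤ 2 * (1 + 4 * R) / t ^ 3 := by
    rw [div_le_div_iff₀ hA0 (by positivity)]
    calc H * (1 + 4 * R) * t ^ 3 ≤ t ^ 4 * (1 + 4 * R) * t ^ 3 := by gcongr
      _ = 2 * (1 + 4 * R) * (t ^ 7 / 2) := by ring
      _ ≤ 2 * (1 + 4 * R) * A := by gcongr
  have h3 : H * (1 + 2 * s) / D ≤ (1 + 2 * s) * R / 2 / t ^ 3 := by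
    rw [div_le_div_iff₀ hD0 (by positivity)]
    have h7 : t ^ 7 ≤ t ^ 8 := pow_le_pow_right₀ t1 (by norm_num)
    have h8 : 0 < t ^ 8 := by positivity
    calc H * (1 + 2 * s) * t ^ 3 ≤ t ^ 4 * (1 + 2 * s) * t ^ 3 := by gcongr
      _ = (1 + 2 * s) * t ^ 7 := by ring
      _ ≤ (1 + 2 * s) * (R * D / 2) := by gcongr; linarith
      _ = (1 + 2 * s) * R / 2 * D := by ring
  calc 2 * (z + 1) * (H * (1 + 4 * R) / A + H * (1 + 2 * s) / D)
      ≤ 2 * (2 * t ^ 2) * (2 * (1 + 4 * R) / t ^ 3 + (1 + 2 * s) * R / 2 / t ^ 3) := by gcongr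
    _ = (8 * (1 + 4 * R) + 2 * ((1 + 2 * s) * R)) / t := by field_simp; ring
    _ ≤ τ := by rwa [div_le_iff₀ t0]

end N3X

theorem sN3 : StN3 := by
  intro s R β u e τ hR hu he hτ
  have hu4 : (4 : ℝ) ≤ u := by exact_mod_cast hu
  have hu0 : (0 : ℝ) < u := by linarith
  have T8 : Tendsto (fun N : ℕ => (N : ℝ) ^ (1 / 8 : ℝ)) atTop atTop :=
    (tendsto_rpow_atTop (by norm_num)).comp tendsto_natCast_atTop_atTop
  have Tu : Tendsto (fun N : ℕ => (N : ℝ) ^ (1 / u : ℝ)) atTop atTop :=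
    (tendsto_rpow_atTop (by positivity)).comp tendsto_natCast_atTop_atTop
  filter_upwards [tendsto_natCast_atTop_atTop.eventually (N3X.log_le β),
    T8.eventually_ge_atTop 2, Tu.eventually_ge_atTop 2, T8.eventually_ge_atTop (12 / τ),
    T8.eventually_ge_atTop ((8 * (1 + 4 * R) + 2 * ((1 + 2 * s) * R)) / τ),
    eventually_ge_atTop 2] with N hlog ht2 hz2 ht12 htK hN2
  have hN : (2 : ℝ) ≤ N := by exact_mod_cast hN2
  have hN0 : (0 : ℝ) < N := by linarith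
  have hN1 : (1 : ℝ) ≤ N := by linarith
  obtain ⟨t, htd⟩ : ∃ t : ℝ, t = (N : ℝ) ^ (1 / 8 : ℝ) := ⟨_, rfl⟩
  obtain ⟨y, hyd⟩ : ∃ y : ℝ, y = (N : ℝ) ^ (1 / u : ℝ) := ⟨_, rfl⟩
  have e8 : t ^ 8 = N := by
    rw [htd, ← Real.rpow_natCast, ← Real.rpow_mul hN0.le]; norm_num
  have e2 : t ^ 2 = (N : ℝ) ^ (1 / 4 : ℝ) := by
    rw [htd, ← Real.rpow_natCast, ← Real.rpow_mul hN0.le]; norm_num
  have hy2 : y ≤ t ^ 2 := by
    rw [e2, hyd]
    exact Real.rpow_le_rpow_of_exponent_le hN1 (one_div_le_one_div_of_le (by norm_num) hu4)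
  have hye : y ^ e ≤ t ^ 2 := by
    rw [e2, hyd, ← Real.rpow_natCast, ← Real.rpow_mul hN0.le]
    refine Real.rpow_le_rpow_of_exponent_le hN1 ?_
    have : (4 : ℝ) * e ≤ u := by exact_mod_cast he
    rw [one_div_mul_eq_div, div_le_iff₀ hu0]
    linarith
  have hlu : Real.log N = u * Real.log y := by
    rw [hyd, Real.log_rpow hN0]; field_simp
  rw [← htd] at hlog ht2 ht12 htK
  rw [← hyd] at hz2 ⊢
  have t0 : 0 < t := by linarith
  have t1 : 1 ≤ t := by linarith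
  have y0 : 0 ≤ y := by linarith
  have hz : (⌊y⌋₊ : ℝ) ≤ y := Nat.floor_le y0
  have hHle : ((Nat.sqrt N : ℕ) : ℝ) ≤ t ^ 4 := by
    refine le_of_pow_le_pow_left₀ two_ne_zero (by positivity) ?_
    have : ((Nat.sqrt N : ℕ) : ℝ) ^ 2 ≤ N := by exact_mod_cast Nat.sqrt_le' N
    calc ((Nat.sqrt N : ℕ) : ℝ) ^ 2 ≤ t ^ 8 := by rwa [e8]
      _ = (t ^ 4) ^ 2 := by ring
  have t4 : 2 ≤ t ^ 4 := ht2.trans (le_self_pow₀ t1 (by norm_num))
  have t7 : 2 ≤ t ^ 7 := ht2.trans (le_self_pow₀ t1 (by norm_num))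
  have hHge : t ^ 4 / 2 ≤ ((Nat.sqrt N : ℕ) : ℝ) := by
    have h1 : t ^ 4 ≤ ((Nat.sqrt N : ℕ) : ℝ) + 1 := by
      refine le_of_pow_le_pow_left₀ two_ne_zero (by positivity) ?_
      have : (N : ℝ) ≤ (((Nat.sqrt N : ℕ) : ℝ) + 1) ^ 2 := by
        exact_mod_cast (Nat.lt_succ_sqrt' N).le
      calc (t ^ 4) ^ 2 = t ^ 8 := by ring
        _ ≤ _ := by rwa [e8]
    linarith
  have hl0 : 0 < Real.log N := Real.log_pos (by linarith)
  have hA : t ^ 7 / 2 ≤ (sc N β : ℝ) := by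
    have h1 : (N : ℝ) / Real.log N ^ β < (sc N β : ℝ) + 1 := Nat.lt_floor_add_one _
    have h2 : t ^ 7 ≤ (N : ℝ) / Real.log N ^ β := by
      rw [le_div_iff₀ (by positivity)]
      calc t ^ 7 * Real.log N ^ β ≤ t ^ 7 * t := by gcongr
        _ = (N : ℝ) := by rw [← e8]; ring
    linarith
  have hD : 3 * t ^ 8 ≤ (R : ℝ) * ((3 * N / R + 1 : ℕ) : ℝ) := by
    rw [e8]
    exact_mod_cast (Nat.lt_mul_div_succ (3 * N) hR).le
  refine ⟨?_, Nat.le_floor (by exact_mod_cast hz2), ?_, ?_, ?_, ?_⟩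
  · have h1 : (⌊y⌋₊ : ℝ) ^ e ≤ t ^ 2 := (pow_le_pow_left₀ (by positivity) hz e).trans hye
    rw [div_le_iff₀ hτ] at ht12
    rw [div_le_iff₀ (lt_of_lt_of_le (by positivity) hHge)]
    have h2 : t ^ 3 ≤ t ^ 4 := pow_le_pow_right₀ t1 (by norm_num)
    calc 6 * (⌊y⌋₊ : ℝ) ^ e ≤ 6 * t ^ 2 := by gcongr
      _ = 12 * (t ^ 2 / 2) := by ring
      _ ≤ t * τ * (t ^ 2 / 2) := by gcongr
      _ = τ * (t ^ 3 / 2) := by ring
      _ ≤ τ * (t ^ 4 / 2) := by gcongr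
      _ ≤ _ := by gcongr
  · have h1 : t ^ 2 ≤ t ^ 7 / 2 := by
      have h5 : 2 ≤ t ^ 5 := ht2.trans (le_self_pow₀ t1 (by norm_num))
      calc t ^ 2 = t ^ 2 * 2 / 2 := by ring
        _ ≤ t ^ 2 * t ^ 5 / 2 := by gcongr
        _ = t ^ 7 / 2 := by ring
    have : (⌊y⌋₊ : ℝ) ≤ (sc N β : ℝ) := hz.trans (hy2.trans (h1.trans hA))
    exact_mod_cast this
  · have : (1 : ℝ) ≤ ((Nat.sqrt N : ℕ) : ℝ) := by linarith
    exact_mod_cast this
  · refine N3X.main _ _ _ _ _ _ t τ ht2 (hz.trans hy2) (by positivity) hHle hA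
      (by exact_mod_cast hR) (by positivity) hD ?_
    rw [div_le_iff₀ hτ] at htK
    linarith
  · rw [hlu]
    exact mul_le_mul_of_nonneg_left
      (Real.log_le_log (by linarith) (Nat.lt_floor_add_one y).le) hu0.le

end Pool.Agent.MP_9d0b4d_nt

end
end
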