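import Pool.Agent.Mg.F436a94p.Ga92a96

set_option linter.all false

/-!
The inequality at one scale.
-/

set_option autoImplicit false

open Finset Filter

noncomputable section

namespace Pool.Agent.MP_9d0b4d_nt

open Pool.Agent.GT (av pr ind)

namespace StepX

theorem bx_add (A D : ℕ) (F G : ℤ → ℤ → ℝ) :
    (bx A D fun a d => F a d + G a d) = bx A D F + bx A D G := by
  simp only [bx, sum_add_distrib, add_div]

theorem bx_sub (A D : ℕ) (F G : ℤ → ℤ → ℝ) :
    (bx A D fun a d => F a d - G a d) = bx A D F - bx A D G := by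
  simp only [bx, sum_sub_distrib, sub_div]

theorem bx_one {A D : ℕ} (hA : 0 < A) (hD : 0 < D) : (bx A D fun _ _ => 1) = 1 := by
  have h1 : (0 : ℝ) < A := by exact_mod_cast hA
  have h2 : (0 : ℝ) < D := by exact_mod_cast hD
  simp only [bx, sum_const, card_range, nsmul_eq_mul, mul_one]
  exact div_self (by positivity)

theorem hE01 (S : Finset ℕ) (n : ℤ) : 0 ≤ hE S n ∧ hE S n ≤ 1 :=
  ⟨GT.ind_nonneg _, GT.ind_le_one _⟩

end StepX

open StepX in
theorem sStep (hV : StV) (hP : StP) (h3 : StC3) (hB : StB0) (hA : StAbs) (hS : StStr)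
    (hU : StUp) : StStep := by
  intro J w s R N A X l l' D z H Q Λ r S E Bm τ γ η u Y0 Y1 Y2 Err hsys hJ hSN hBm hBm0 g1 g2 g3
    hBV hC η0 τ0 ητ γ0 u0 hΛ hEn
  obtain ⟨s0, R0, -, h1, h2⟩ := hsys
  obtain ⟨a1, a2, a3, a4, a5, a6, a7, a8, a9, a10, a11⟩ := g1
  obtain ⟨b1, b2, b3, b4, b5⟩ := g2
  obtain ⟨c1, c2, c3, c4, c5⟩ := g3
  choose U hU1 hU2 using fun j => (h1 j).2.2
  have r1 : ∀ j, R ≤ r j := fun j => (h1 j).1
  have r2 : ∀ j, r j ≤ 2 * R := fun j => (h1 j).2.1
  have r0 : ∀ j, 0 < r j := fun j => R0.trans_le (r1 j)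
  have U0 : ∀ j, 0 < U j := fun j => Nat.pos_of_ne_zero fun e => by
    have := hU1 j
    rw [e, zero_mul] at this
    omega
  have Us : ∀ j, U j ≤ s := fun j => by
    rw [hU1 j]
    exact Nat.le_mul_of_pos_right _ (r0 j)
  have A0 : 0 < A := by omega
  have D0 : 0 < D := Nat.pos_of_ne_zero fun e => by
    rw [e] at a7
    omega
  have M0 : 0 < s ^ 4 := by positivity
  have z1 : 1 ≤ z := by omega
  have Ar : (0 : ℝ) < A := by exact_mod_cast A0
  have Dr : (0 : ℝ) < D := by exact_mod_cast D0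
  have Nr : (4 : ℝ) ≤ N := by exact_mod_cast a9
  have lr : (0 : ℝ) < l := by exact_mod_cast a3
  have rD1 : ∀ j, 3 * N ≤ r j * D := fun j => a7.trans (Nat.mul_le_mul_right _ (r1 j))
  have rD2 : ∀ j, r j * D ≤ 8 * N := fun j =>
    (Nat.mul_le_mul_right _ (r2 j)).trans (by rw [mul_assoc]; omega)
  have UA : ∀ j, 8 * U j * A ≤ N := fun j =>
    (Nat.mul_le_mul_right _ (Nat.mul_le_mul_left _ (Us j))).trans a6
  set f : ℤ → ℝ := fun n => hE S n - cE (s ^ 4) l (hE S) n with hf
  have f1 : ∀ n, |f n| ≤ 1 := fun n => by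
    have x1 := hE01 S n
    have x2 := (h3 _ l (hE S) M0 a3 (hE01 S)).1 n
    rw [hf, abs_le]
    constructor <;> linarith [x1.1, x1.2, x2.1, x2.2]
  -- pairs
  have pair : ∀ i j, i ≠ j → ∀ φ ψ : ℤ → ℝ, (∀ n, |φ n| ≤ 1) → (∀ n, |ψ n| ≤ 1) →
      (bx A D fun a d => (nu s z (s * a * d + 1) - 1) *
        (φ (U i * a + r i * d) * ψ (U j * a + r j * d))) ≤ η + τ := by
    intro i j hij φ ψ p1 p2
    obtain ⟨c, t, e1, -⟩ := h2 i j hij
    have e2 : U i = c * r j := Nat.eq_of_mul_eq_mul_right (r0 i) (by rw [← hU1 i, e1]; ring)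
    have e3 : U j = c * r i := Nat.eq_of_mul_eq_mul_right (r0 j) (by rw [← hU1 j, e1])
    have x := (le_abs_self _).trans
      (hP c (r i) (r j) z H A D η φ ψ z1 c3 A0 D0 η0 (hC c i j e1) p1 p2)
    rw [← e1, ← e2, ← e3] at x
    refine x.trans (add_le_add le_rfl (le_trans ?_ c4))
    have y1 : (r i : ℝ) ≤ 2 * R := by exact_mod_cast r2 i
    have y2 : (r j : ℝ) ≤ 2 * R := by exact_mod_cast r2 j
    have y3 : (c : ℝ) * r i ≤ s := by exact_mod_cast e3 ▸ Us j
    have y4 : (c : ℝ) * r j ≤ s := by exact_mod_cast e2 ▸ Us i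
    have y5 : 1 + (r i : ℝ) + r j ≤ 1 + 4 * R := by linarith
    have y6 : 1 + (c : ℝ) * r i + c * r j ≤ 1 + 2 * s := by linarith
    gcongr 2 * ((z : ℝ) + 1) * (H * ?_ / A + H * ?_ / D)
  have pair0 : ∀ i j, i ≠ j →
      (bx A D fun a d => f (U i * a + r i * d) * f (U j * a + r j * d)) ≤ γ + τ := by
    intro i j hij
    obtain ⟨c, t, e1, e4⟩ := h2 i j hij
    have e2 : U i = c * r j := Nat.eq_of_mul_eq_mul_right (r0 i) (by rw [← hU1 i, e1]; ring)
    have e3 : U j = c * r i := Nat.eq_of_mul_eq_mul_right (r0 j) (by rw [← hU1 j, e1])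
    have y0 : (3 : ℝ) * N ≤ r i * D := by exact_mod_cast rD1 i
    have x := hB c (r i) (r j) (s ^ 4) l l' X A D Λ t (hE S) γ M0 a3 a4 a2 (r0 i)
      ((r2 i).trans a1) D0 (e2 ▸ hU2 i) (by rw [e4]; push_cast; rfl) (hE01 S)
      (by
        have := UA i
        have := rD2 i
        rw [← e2]
        nlinarith) γ0
      (by
        calc _ ≤ 2 / (3 * (N : ℝ)) * (N * γ ^ 2) := by
              gcongr
          _ = 2 / 3 * γ ^ 2 := by field_simp
          _ ≤ _ := by nlinarith [sq_nonneg γ])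
    rw [← e2, ← e3] at x
    refine x.trans ?_
    have y2 : (r j : ℝ) ≤ 2 * R := by exact_mod_cast r2 j
    have y3 : (c : ℝ) * r i ≤ s := by exact_mod_cast e3 ▸ Us j
    rw [add_assoc]
    refine add_le_add le_rfl (le_trans ?_ a10)
    push_cast
    gcongr
  have sg1 := hV.2.1 s s0
  have i0 : (⟨0, by omega⟩ : Fin J) ≠ ⟨1, by omega⟩ := by simp
  have hnu : (bx A D fun a d => nu s z (s * a * d + 1)) ≤ 2 := by
    have x := pair _ _ i0 (fun _ => 1) (fun _ => 1) (by simp) (by simp)
    simp only [mul_one] at x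
    rw [bx_sub, bx_one A0 D0] at x
    linarith
  have key := hA J A D (fun a d => tz (s * a * d + 1)) (fun a d => nu s z (s * a * d + 1))
    (fun j a d => f (U j * a + r j * d)) (2 * u * sg s) (γ + η + 2 * τ) (by omega)
    (by positivity) (by positivity)
    (fun a ha d hd => by
      refine hV.2.2.2 s z _ ((N : ℝ) ^ 2) (2 * u) s0 z1 ?_ ?_ (by nlinarith) ?_
      · rcases Nat.eq_zero_or_pos d with rfl | d0
        · left
          simp
        · right
          have : z < s * (A + a) * d + 1 := by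
            have : A + a ≤ s * (A + a) * d :=
              (Nat.le_mul_of_pos_left _ s0).trans (Nat.le_mul_of_pos_right _ d0)
            omega
          exact_mod_cast this
      · have x1 : D ≤ 4 * N := (Nat.le_mul_of_pos_left _ R0).trans a8
        have x2 : 4 * (s * (A + a)) ≤ N := by nlinarith
        have x3 : 0 < s * (A + a) := by positivity
        have : s * (A + a) * d + 1 ≤ N ^ 2 := by
          generalize s * (A + a) = k at *
          have : k * (d + 1) ≤ k * (4 * N) := Nat.mul_le_mul_left _ (by omega)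
          nlinarith
        exact_mod_cast this
      · rw [Real.log_pow]
        push_cast
        linarith)
    (fun a d => (hV.2.2.1 s z _ z1).1) (fun j a d => f1 _) hnu
    (fun i j hij => by
      have x1 := pair i j hij f f f1 f1
      have x2 := pair0 i j hij
      have x3 := bx_add A D (fun a d => (nu s z (s * a * d + 1) - 1) *
        (f (U i * a + r i * d) * f (U j * a + r j * d)))
        fun a d => f (U i * a + r i * d) * f (U j * a + r j * d)
      simp only [sub_mul, one_mul, sub_add_cancel] at x3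
      simp only [sub_mul, one_mul] at x1
      linarith)
  have cS : (S.card : ℝ) ≤ N := by
    have := card_le_card hSN
    rw [Nat.card_Ico] at this
    exact_mod_cast (by omega : S.card ≤ N)
  have E0 : 0 ≤ Err := (sum_nonneg fun q _ => hBV.1 q).trans hBV.2.1
  have each : ∀ j, (bx A D fun a d => tz (s * a * d + 1) * f (U j * a + r j * d)) ≤
      2 * τ - S.card * sg s / (64 * N) := by
    intro j
    have x1 := (hU s (U j) (r j) A D N S Bm (hU1 j) (U0 j) (r0 j) A0 D0
      (by have := UA j; nlinarith) hSN hBm hBm0).trans a11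
    have x2 := hS s (U j) (r j) (s ^ 4) l A D N Q S E Y0 Y1 Y2 Err hBV (hU1 j) (hU2 j) (U0 j) (r0 j)
      ((Dvd.intro_left _ (hU1 j).symm).trans (dvd_pow_self s (by norm_num))) dvd_rfl a3
      ((r2 j).trans a1) a5 (UA j) (rD1 j) b1 b2 (by push_cast; exact b3)
      (le_trans (by
        have : (U j : ℝ) ≤ s := by exact_mod_cast Us j
        gcongr) b4) hSN
    have x3 := bx_sub A D (fun a d => tz (s * a * d + 1) * hE S (U j * a + r j * d))
      fun a d => tz (s * a * d + 1) * cE (s ^ 4) l (hE S) (U j * a + r j * d)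
    simp only [← mul_sub] at x3
    have y0 : (0 : ℝ) < r j := by exact_mod_cast r0 j
    have y1 : (r j : ℝ) * D ≤ 8 * N := by exact_mod_cast rD2 j
    have y2 : (S.card : ℝ) * (sg s * A / (8 * r j) - Err / l) / (A * D) =
        S.card * sg s / (8 * (r j * D)) - S.card * (Err / l) / (A * D) := by
      field_simp
    have y3 : (S.card : ℝ) * sg s / (64 * N) ≤ S.card * sg s / (8 * (r j * D)) :=
      div_le_div_of_nonneg_left (by positivity) (by positivity) (by linarith)
    have y4 : (S.card : ℝ) * (Err / l) / (A * D) ≤ N * (Err / l) / (A * D) := by gcongr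
    rw [hf]
    linarith
  have Jr : (0 : ℝ) < J := by exact_mod_cast (by omega : 0 < J)
  have tot := sum_le_card_nsmul univ _ _ fun j _ => each j
  rw [card_univ, Fintype.card_fin, nsmul_eq_mul] at tot
  set ρ := √(2 * (2 / (J : ℝ) + (γ + η + 2 * τ))) with hρ
  have ρ0 : 0 ≤ ρ := Real.sqrt_nonneg _
  rw [← Real.sq_sqrt (show 0 ≤ 2 * (2 / (J : ℝ) + (γ + η + 2 * τ)) by positivity), ← hρ,
    ← mul_pow] at key
  have k2 := (abs_le_of_sq_le_sq' key (by positivity)).1
  have k3 : (S.card : ℝ) * sg s / (64 * N) ≤ 2 * τ + 2 * u * sg s * ρ :=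
    le_of_mul_le_mul_left (by linarith) Jr
  rw [div_le_iff₀ (by positivity)] at k3
  refine le_of_mul_le_mul_right (k3.trans ?_) (show 0 < sg s by linarith)
  have : τ * N ≤ τ * N * sg s := le_mul_of_one_le_right (by positivity) sg1
  nlinarith

end Pool.Agent.MP_9d0b4d_nt
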