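import Pool.Agent.Mg.F436a94p.Gbd861e

set_option linter.all false

/-!
The mean value estimate for primes.
-/

set_option autoImplicit false

open Finset Filter

namespace Pool.Agent.MP_436a94_nt.A

open Pool.Agent.MP_2a1f0e_nt Pool.Agent.MP_43e117_nt.PG DirichletCharacter

lemma vb_le (V n : ℕ) : ‖vb V n‖ ≤ ta n := by
  refine (norm_sum_le_of_le _ (n := fun _ => (1 : ℝ)) fun d _ => ?_).trans ?_
  · rw [Complex.norm_intCast]
    exact_mod_cast ArithmeticFunction.abs_moebius_le_one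
  · rw [sum_const, nsmul_one, ta]
    exact_mod_cast card_filter_le _ _

lemma pp_Mean {N : ℕ} (hN : 1 ≤ N) (x : CH) (u : ℤ) :
    ‖DP (fun n => (th n : ℂ)) (Ioc N (8 * N)) x u - DP La (Ioc N (8 * N)) x u‖ ≤
      2 * √((8 * N : ℕ) : ℝ) * Real.log (8 * N : ℕ) := by
  have h0 : ∀ n, 0 ≤ ArithmeticFunction.vonMangoldt n - th n := fun n => by
    unfold th
    split_ifs with h
    · rw [ArithmeticFunction.vonMangoldt_apply_prime h, sub_self]
    · rw [sub_zero]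
      exact ArithmeticFunction.vonMangoldt_nonneg
  refine le_trans ?_ (Chebyshev.psi_sub_theta_le (by exact_mod_cast (by omega : 1 ≤ 8 * N)))
  rw [DP, DP, ← sum_sub_distrib, Chebyshev.psi, Chebyshev.theta, Nat.floor_natCast, sum_filter,
    ← sum_sub_distrib]
  refine (norm_sum_le_of_le _ (n := fun n => ArithmeticFunction.vonMangoldt n - th n)
    fun n _ => ?_).trans (sum_le_sum_of_subset_of_nonneg (Ioc_subset_Ioc_left (Nat.zero_le N))
      fun n _ _ => h0 n)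
  rw [← sub_mul, norm_mul, norm_sub_rev, La, ← Complex.ofReal_sub, Complex.norm_real,
    Real.norm_of_nonneg (h0 n)]
  exact mul_le_of_le_one_right (h0 n) (norm_cw x u n)

lemma log2_le (N : ℕ) : (Nat.log 2 N : ℝ) ≤ 2 * Real.log N := by
  rcases Nat.eq_zero_or_pos N with rfl | h
  · simp
  have h1 : ((2 ^ Nat.log 2 N : ℕ) : ℝ) ≤ N := by exact_mod_cast Nat.pow_log_le_self 2 h.ne'
  have h2 := Real.log_le_log (by positivity) h1
  rw [Nat.cast_pow, Real.log_pow, Nat.cast_ofNat] at h2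
  nlinarith [Real.log_two_gt_d9, (Nat.cast_nonneg (Nat.log 2 N) : (0 : ℝ) ≤ _)]

lemma idx_Mean {N : ℕ} (hN : 1 < N) :
    ∃ i : ℕ, N ≤ (2 ^ i) ^ 20 ∧ ((2 ^ i : ℕ) : ℝ) ≤ 2 * (N : ℝ) ^ (1 / 20 : ℝ) := by
  have h1 := Nat.le_pow_clog (b := 2 ^ 20) (by norm_num) N
  have h2 := Nat.pow_pred_clog_lt_self (b := 2 ^ 20) (by norm_num) hN
  have h3 := Nat.clog_pos (b := 2 ^ 20) (by norm_num) hN
  obtain ⟨j, hj⟩ : ∃ j, Nat.clog (2 ^ 20) N = j + 1 := ⟨_, (Nat.succ_pred_eq_of_pos h3).symm⟩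
  rw [hj] at h1 h2
  rw [Nat.pred_succ, ← pow_mul, mul_comm, pow_mul] at h2
  rw [← pow_mul, mul_comm, pow_mul] at h1
  refine ⟨j + 1, h1, ?_⟩
  have h4 : ((2 ^ j : ℕ) : ℝ) ^ 20 ≤ N := by exact_mod_cast h2.le
  have h5 : ((2 ^ j : ℕ) : ℝ) ≤ (N : ℝ) ^ (1 / 20 : ℝ) := by
    refine le_trans (le_of_eq ?_) (Real.rpow_le_rpow (by positivity) h4 (by norm_num))
    rw [← Real.rpow_natCast, ← Real.rpow_mul (by positivity)]
    norm_num
  rw [pow_succ, Nat.cast_mul, Nat.cast_ofNat]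
  linarith

theorem s_Mean (hB : StBox) (hO : StOff) (hV : StVau) (h1 : StT1) (hP : StPt) (hTa : StTau) :
    StMean := by
  obtain ⟨θ, θ0, θ1, hB⟩ := hB
  obtain ⟨C, hC, hP⟩ := hP
  obtain ⟨C₁, hC₁, h1⟩ := h1
  refine ⟨θ, θ0, θ1, fun A => ?_⟩
  obtain ⟨A₀, hB⟩ := hB (A + 4)
  refine ⟨A₀ + 2 * (A + 9), ?_⟩
  have e0 : (0 : ℝ) < 1 / 100 := by norm_num
  filter_upwards [hB, ev_TT, ev_L 54, ev_L (24 * C * C₁), ev_log 2 5 e0,
    ev_log (3 * C * (24 * C₁ + 12)) (A + 1) e0, ev_log 11 (A + 9) e0, ev_log 2 0 e0,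
    eventually_ge_atTop (16 ^ 20)] with N hB hT l1 l2 l3 l4 l5 l6 hN R η w hR η0 hη hA
  obtain ⟨t1, t2, t3, t4⟩ := hT
  have N8 : 8 ≤ N := le_trans (by norm_num) hN
  obtain ⟨i, i1, i2⟩ := idx_Mean (show 1 < N by omega)
  have n1 : (1 : ℝ) ≤ N := by exact_mod_cast (by omega : 1 ≤ N)
  have n0 : (0 : ℝ) < N := by linarith
  have l0 : 1 ≤ Real.log N := by linarith
  have hp : ∀ m : ℕ, ((N : ℝ) ^ (1 / 100 : ℝ)) ^ m = (N : ℝ) ^ ((m : ℝ) / 100) := fun m => by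
    rw [← Real.rpow_natCast, ← Real.rpow_mul n0.le]
    congr 1
    ring
  have y1 : (R : ℝ) ≤ (N : ℝ) ^ (1 / 100 : ℝ) :=
    hR.trans (Real.rpow_le_rpow_of_exponent_le n1 θ1)
  have y2 : (N : ℝ) ^ (1 / 20 : ℝ) = ((N : ℝ) ^ (1 / 100 : ℝ)) ^ 5 := by rw [hp]; norm_num
  have y3 : √(N : ℝ) = ((N : ℝ) ^ (1 / 100 : ℝ)) ^ 50 := by
    rw [hp, Real.sqrt_eq_rpow]; norm_num
  have y4 : ((N : ℝ) ^ (1 / 100 : ℝ)) ^ 100 = N := by rw [hp]; norm_num
  have y5 : √((8 * N : ℕ) : ℝ) ≤ 3 * √(N : ℝ) := Real.sqrt_le_iff.2 ⟨by positivity, by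
    rw [mul_pow, Real.sq_sqrt n0.le]
    push_cast
    linarith⟩
  have y6 : Real.log (8 * N : ℕ) ≤ 2 * Real.log N := by
    have : Real.log 8 ≤ Real.log N := Real.log_le_log (by norm_num) (by exact_mod_cast N8)
    rw [Nat.cast_mul, Real.log_mul (by norm_num) n0.ne', Nat.cast_ofNat]
    linarith
  rw [y2] at i2
  rw [y3] at t3 t4 y5
  rw [pow_zero, mul_one] at l6
  generalize (N : ℝ) ^ (1 / 100 : ℝ) = y at *
  set L := Real.log N with hLd
  have L0 : 0 < L := by linarith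
  have y0 : 0 < y := by linarith
  have y7 : 1 ≤ y := by linarith
  have u1 : ((2 ^ i : ℕ) : ℝ) ^ 2 ≤ 4 * y ^ 10 :=
    (pow_le_pow_left₀ (by positivity) i2 2).trans_eq (by ring)
  have u2 : (2 ^ i) ^ 2 ≤ N := by
    have : ((2 ^ i : ℕ) : ℝ) ^ 2 ≤ N := by
      calc _ ≤ 4 * y ^ 10 := u1
        _ ≤ y ^ 2 * y ^ 10 := by
            gcongr
            nlinarith
        _ = y ^ 12 := by ring
        _ ≤ y ^ 100 := pow_le_pow_right₀ y7 (by norm_num)
        _ = N := y4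
    exact_mod_cast this
  have u3 : 2 ^ i ≤ N := (Nat.le_self_pow two_ne_zero _).trans u2
  have e : MS N (TT N) R w (DP (fun n => (th n : ℂ)) (Ioc N (8 * N))) = MS N (TT N) R w
      fun x u => (TI N (2 ^ i) (cw x u) + (DP (fun n => (th n : ℂ)) (Ioc N (8 * N)) x u -
        DP La (Ioc N (8 * N)) x u)) +
        ∑ z ∈ BX N i, BI N (2 ^ z.1) (2 ^ z.2) La (vb (2 ^ i)) (cw x u) := MS_congr fun x _ u _ => by
    have : DP La (Ioc N (8 * N)) x u = _ := hV N i (cw x u) u3 (cw_mul x u)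
    rw [this]
    ring
  have η1 : η ≤ 1 / L ^ A₀ := hη.trans (one_div_le_one_div_of_le (by positivity)
    (pow_le_pow_right₀ l0 (by omega)))
  have η2 : η ≤ 1 / L ^ (2 * (A + 9)) := hη.trans (one_div_le_one_div_of_le (by positivity)
    (pow_le_pow_right₀ l0 (by omega)))
  have η3 : η ≤ 1 / L ^ (A + 9) := hη.trans (one_div_le_one_div_of_le (by positivity)
    (pow_le_pow_right₀ l0 (by omega)))
  have s1 : √η ≤ 1 / L ^ (A + 4) := Real.sqrt_le_iff.2 ⟨by positivity, by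
    rw [div_pow, one_pow, ← pow_mul]
    exact η2.trans (one_div_le_one_div_of_le (by positivity) (pow_le_pow_right₀ l0 (by omega)))⟩
  have T1 : (TT N : ℝ) ≤ y ^ 52 := by
    calc _ ≤ 2 * y ^ 50 * L ^ 5 := t4
      _ = y ^ 50 * (2 * L ^ 5) := by ring
      _ ≤ y ^ 50 * y ^ 2 := mul_le_mul_of_nonneg_left
          (l3.trans (le_self_pow₀ y7 (by norm_num))) (by positivity)
      _ = _ := by ring
  have T2 : √(TT N : ℝ) ≤ y ^ 26 := Real.sqrt_le_iff.2 ⟨by positivity, T1.trans_eq (by ring)⟩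
  have y52 : 1 ≤ y ^ 52 := one_le_pow₀ y7
  have p0 : 0 < L ^ A := by positivity
  have k1 := hP N (TT N) R η (C₁ * N * (1 + L) ^ 3) ((24 * C₁ + 12) * L * y ^ 63) w
    (fun x u => TI N (2 ^ i) (cw x u) + (DP (fun n => (th n : ℂ)) (Ioc N (8 * N)) x u -
      DP La (Ioc N (8 * N)) x u)) t1 (by omega) (by positivity) (by positivity) hA
    fun x hx u hu => by
      have a1 := h1 N (2 ^ i) R x hx u Nat.one_le_two_pow u2
      have a2 := pp_Mean (show 1 ≤ N by omega) x u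
      have a3 : 1 + |(u : ℝ)| ≤ 3 * y ^ 52 := by linarith [abs_IT hu]
      have a4 : C₁ * ((2 ^ i : ℕ) : ℝ) ^ 2 * R * (1 + |(u : ℝ)|) * (1 + L) ≤
          24 * C₁ * L * y ^ 63 := by
        calc _ ≤ C₁ * (4 * y ^ 10) * y * (3 * y ^ 52) * (2 * L) := by
              gcongr
              linarith
          _ = _ := by ring
      have a5 : 2 * √((8 * N : ℕ) : ℝ) * Real.log (8 * N : ℕ) ≤ 12 * L * y ^ 63 := by
        have := Real.log_natCast_nonneg (8 * N)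
        have : y ^ 50 ≤ y ^ 63 := pow_le_pow_right₀ y7 (by norm_num)
        calc _ ≤ 2 * (3 * y ^ 63) * (2 * L) := by
              gcongr
              linarith
          _ = _ := by ring
      refine (norm_add_le _ _).trans ?_
      linarith
  have c1 : C * N * (C₁ * N * (1 + L) ^ 3 * √η) ≤ 1 / 3 * (N ^ 2 / L ^ A) := by
    calc _ ≤ C * N * (C₁ * N * (2 * L) ^ 3 * (1 / L ^ (A + 4))) := by
          gcongr
          linarith
      _ = 24 * C * C₁ / L * (1 / 3 * (N ^ 2 / L ^ A)) := by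
          rw [pow_add L A]
          field_simp
          norm_num
      _ ≤ _ := mul_le_of_le_one_left (by positivity) ((div_le_one L0).2 l2)
  have c2 : C * N * (R * ((24 * C₁ + 12) * L * y ^ 63) * √(TT N : ℝ)) ≤
      1 / 3 * (N ^ 2 / L ^ A) := by
    calc _ ≤ C * N * (y * ((24 * C₁ + 12) * L * y ^ 63) * y ^ 26) := by gcongr
      _ = 3 * C * (24 * C₁ + 12) * L ^ (A + 1) * (1 / 3 * (N * y ^ 90 / L ^ A)) := by
          rw [pow_add L A]
          field_simp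
      _ ≤ y ^ 10 * (1 / 3 * (N * y ^ 90 / L ^ A)) :=
          mul_le_mul_of_nonneg_right (l4.trans (le_self_pow₀ y7 (by norm_num))) (by positivity)
      _ = 1 / 3 * (N * y ^ 100 / L ^ A) := by ring
      _ = _ := by rw [y4, sq]
  have r1 : 11 * (R : ℝ) / TT N ≤ 1 / L ^ (A + 9) := by
    have T0 : (0 : ℝ) < TT N := by exact_mod_cast t1
    rw [div_le_div_iff₀ T0 (by positivity), one_mul]
    calc _ = 11 * L ^ (A + 9) * R := by ring
      _ ≤ y * y := by gcongr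
      _ = y ^ 2 := by ring
      _ ≤ y ^ 50 := pow_le_pow_right₀ y7 (by norm_num)
      _ ≤ _ := t3
  have k2 : ∀ z ∈ BX N i, MS N (TT N) R w
      (fun x u => BI N (2 ^ z.1) (2 ^ z.2) La (vb (2 ^ i)) (cw x u)) ≤
      2 * (N ^ 2 / L ^ (A + 4)) := fun z hz => by
    obtain ⟨z1, z2, z3⟩ := mem_filter.1 hz
    obtain ⟨z4, z5⟩ := mem_product.1 z1
    have m1 : N ≤ (2 ^ z.1) ^ 20 := i1.trans (Nat.pow_le_pow_left
      (Nat.pow_le_pow_right (by norm_num) (mem_Ico.1 z4).1) 20)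
    have m2 : N ≤ (2 ^ z.2) ^ 20 := i1.trans (Nat.pow_le_pow_left
      (Nat.pow_le_pow_right (by norm_num) (mem_Ico.1 z5).1) 20)
    have k1 : 1 ≤ 2 ^ z.2 := Nat.one_le_two_pow
    generalize 2 ^ z.1 = M at *
    generalize 2 ^ z.2 = K at *
    have b1 := hO N (TT N) R M K η w La (vb (2 ^ i)) t1 η0 hA z2 z3
    have b2 := hB M K R η w (vb (2 ^ i)) m1 m2 z2 z3 hR η1 hA (vb_le _)
    have b3 := La_dy (half_Box hN m2 z3) 1
    have b4 := ta_dy hTa k1 (half_Box hN m1 (by rwa [mul_comm] at z3)) l0 1 (vb_le (2 ^ i))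
    simp only [pow_one] at b3 b4
    have mk : (M : ℝ) * K ≤ 8 * N := by exact_mod_cast z3.le
    have b5 : 2 * N * (η + 11 * R / TT N) *
        ((∑ m ∈ dy M, ‖La m‖) * ∑ k ∈ dy K, ‖vb (2 ^ i) k‖) ≤ N ^ 2 / L ^ (A + 4) := by
      calc _ ≤ 2 * N * (1 / L ^ (A + 9) + 1 / L ^ (A + 9)) * (M * L * (2 * K * (2 * L) ^ 2)) := by
            gcongr
        _ = 32 * N * L ^ 3 / L ^ (A + 9) * (M * K) := by ring
        _ ≤ 32 * N * L ^ 3 / L ^ (A + 9) * (8 * N) := by gcongr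
        _ = 256 / L ^ 2 * (N ^ 2 / L ^ (A + 4)) := by
            rw [pow_add L A, pow_add L A]
            field_simp
            norm_num
        _ ≤ _ := mul_le_of_le_one_left (by positivity)
            ((div_le_one (by positivity)).2 (by nlinarith))
    linarith
  have c3 : ((BX N i).card : ℝ) ≤ 9 * L ^ 2 := by
    have a1 : (BX N i).card ≤ (Nat.log 2 N + 4) ^ 2 := by
      refine (card_filter_le _ _).trans ?_
      rw [card_product, Nat.card_Ico, sq]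
      exact Nat.mul_le_mul (Nat.sub_le _ _) (Nat.sub_le _ _)
    have a2 : ((BX N i).card : ℝ) ≤ ((Nat.log 2 N : ℝ) + 4) ^ 2 := by exact_mod_cast a1
    have a3 := log2_le N
    refine a2.trans ((pow_le_pow_left₀ (by positivity)
      (show _ ≤ 3 * L by linarith) 2).trans_eq (by ring))
  have c4 : ((BX N i).card : ℝ) * (2 * (N ^ 2 / L ^ (A + 4))) ≤ 1 / 3 * (N ^ 2 / L ^ A) := by
    calc _ ≤ 9 * L ^ 2 * (2 * (N ^ 2 / L ^ (A + 4))) := by gcongr
      _ = 54 / L ^ 2 * (1 / 3 * (N ^ 2 / L ^ A)) := by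
          rw [pow_add L A]
          field_simp
          norm_num
      _ ≤ _ := mul_le_of_le_one_left (by positivity)
          ((div_le_one (by positivity)).2 (by nlinarith))
  have k3 := (MS_sum (BX N i) N (TT N) R w fun z x u =>
    BI N (2 ^ z.1) (2 ^ z.2) La (vb (2 ^ i)) (cw x u)).trans (sum_le_card_nsmul _ _ _ k2)
  rw [nsmul_eq_mul] at k3
  rw [mul_add (C * N)] at k1
  rw [e]
  refine (MS_add _ _ _ _ _ _).trans ?_
  linarith

end Pool.Agent.MP_436a94_nt.A
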