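import Pool.Agent.Mg.F436a94p.G9089d4

set_option linter.all false

section

open Finset Filter Topology

namespace Pool.Agent.MP_971f68_nt

theorem tele_S12 (m n : ℕ) (hm : 1 ≤ m) :
    ∑ l ∈ Icc (m + 1) n, 1 / ((l : ℝ) * ((l : ℝ) - 1)) ≤ 1 / (m : ℝ) := by
  have h1 : ∀ n, m ≤ n →
      ∑ l ∈ Icc (m + 1) n, 1 / ((l : ℝ) * ((l : ℝ) - 1)) = 1 / (m : ℝ) - 1 / (n : ℝ) := by
    intro n hn
    induction n, hn using Nat.le_induction with
    | base => simp
    | succ n hn ih =>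
      have h2 : (1 : ℝ) ≤ n := by exact_mod_cast hm.trans hn
      rw [sum_Icc_succ_top (by omega), ih]
      push_cast
      rw [add_sub_cancel_right]
      field_simp
      ring
  rcases le_total m n with h | h
  · rw [h1 n h]
    exact sub_le_self _ (by positivity)
  · rw [Icc_eq_empty (by omega), sum_empty]
    positivity

theorem logtop_S12 : Tendsto (fun p : ℕ => Real.log p) atTop atTop :=
  Real.tendsto_log_atTop.comp tendsto_natCast_atTop_atTop

theorem s_S1 (h1 : StDv) (h2 : StRho) : StS1 := by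
  intro D hD
  filter_upwards [h1 1, logtop_S12.eventually_ge_atTop (3 * D)] with p ⟨E, e1, e2, e3⟩ h4 hp
  have hD' : (5 : ℝ) ≤ D := by exact_mod_cast hD
  have hp0 : (0 : ℝ) < p := by exact_mod_cast hp.pos
  set L := (Icc D p).filter fun l => l.Prime ∧ l ^ 8 ≤ p with hL
  have a1 : TH p (fun q => ∃ l : ℕ, l.Prime ∧ D ≤ l ∧ l ^ 8 ≤ p ∧ l ^ 2 ∣ F p q) ≤
      ∑ l ∈ L, TH p (fun q => l ^ 2 ∣ F p q) := by
    refine le_trans (TH_mono ?_) (TH_ex p L fun l q => l ^ 2 ∣ F p q)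
    rintro q - - - ⟨l, b1, b2, b3, b4⟩
    exact ⟨l, mem_filter.mpr ⟨mem_Icc.mpr ⟨b2, (Nat.le_self_pow (by norm_num) l).trans b3⟩, b1, b3⟩,
      b4⟩
  have a2 : ∀ l ∈ L, TH p (fun q => l ^ 2 ∣ F p q) ≤
      3 * p * (1 / ((l : ℝ) * ((l : ℝ) - 1))) + 3 * E (l ^ 2) := by
    intro l hl
    obtain ⟨b1, b2, b3⟩ := mem_filter.mp hl
    have b4 : l < p := lt_of_lt_of_le (lt_self_pow₀ b2.one_lt (by norm_num)) b3
    have b5 := e2 (l ^ 2) (pow_pos b2.pos 2) (by rw [← pow_mul]; exact b3)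
      (Nat.Coprime.pow_right _ ((Nat.coprime_primes hp b2).mpr b4.ne'))
    have b6 : ((l ^ 2).totient : ℝ) = (l : ℝ) * ((l : ℝ) - 1) := by
      rw [Nat.totient_prime_pow b2 two_pos, Nat.cast_mul, Nat.cast_sub b2.one_le]
      simp
    have b7 : (rho p (l ^ 2) : ℝ) ≤ 3 := by
      rw [(h2.2.2.2.2 p l hp b2 b4).1]
      exact_mod_cast (h2.2.1 l b2).2
    have b8 : (2 : ℝ) ≤ l := by exact_mod_cast b2.two_le
    have b9 : (0 : ℝ) < (l : ℝ) * ((l : ℝ) - 1) := mul_pos (by linarith) (by linarith)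
    rw [b6] at b5
    have b10 : (rho p (l ^ 2) : ℝ) * p / ((l : ℝ) * ((l : ℝ) - 1)) ≤
        3 * p * (1 / ((l : ℝ) * ((l : ℝ) - 1))) := by
      rw [mul_one_div]
      gcongr
    have b11 : (rho p (l ^ 2) : ℝ) * E (l ^ 2) ≤ 3 * E (l ^ 2) :=
      mul_le_mul_of_nonneg_right b7 (e1 _)
    linarith [(abs_le.mp b5).2]
  have a3 : ∑ l ∈ L, 1 / ((l : ℝ) * ((l : ℝ) - 1)) ≤ 1 / ((D : ℝ) - 1) := by
    have b1 := tele_S12 (D - 1) p (by omega)
    rw [Nat.sub_add_cancel (by omega), Nat.cast_sub (by omega), Nat.cast_one] at b1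
    refine le_trans (sum_le_sum_of_subset_of_nonneg (filter_subset _ _) fun l hl _ => ?_) b1
    have b2 : (5 : ℝ) ≤ l := by exact_mod_cast hD.trans (mem_Icc.mp hl).1
    exact div_nonneg zero_le_one (mul_nonneg (by linarith) (by linarith))
  have a4 : ∑ l ∈ L, E (l ^ 2) ≤ p / Real.log p ^ 1 := by
    refine le_trans ?_ e3
    rw [← sum_image (f := E) (g := fun l : ℕ => l ^ 2)
      fun a _ b _ h => Nat.pow_left_injective two_ne_zero h]
    refine sum_le_sum_of_subset_of_nonneg (fun d hd => ?_) fun d _ _ => e1 d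
    obtain ⟨l, hl, rfl⟩ := mem_image.mp hd
    obtain ⟨-, b2, b3⟩ := mem_filter.mp hl
    have b4 : (l ^ 2) ^ 4 ≤ p := by rw [← pow_mul]; exact b3
    exact mem_filter.mpr ⟨mem_Icc.mpr ⟨pow_pos b2.pos 2,
      (Nat.le_self_pow (by norm_num) _).trans b4⟩, b4⟩
  have a5 : (p : ℝ) / Real.log p ^ 1 ≤ p / (3 * D) := by
    rw [pow_one]
    gcongr
  have a6 : 1 / ((D : ℝ) - 1) ≤ 4 / (3 * D) := by
    rw [div_le_div_iff₀ (by linarith) (by linarith)]
    linarith
  have a7 := sum_le_sum a2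
  rw [sum_add_distrib, ← mul_sum, ← mul_sum] at a7
  have a8 : 3 * (p : ℝ) * ∑ l ∈ L, 1 / ((l : ℝ) * ((l : ℝ) - 1)) ≤ 3 * p * (4 / (3 * D)) :=
    mul_le_mul_of_nonneg_left (a3.trans a6) (by positivity)
  have a9 : 3 * (p : ℝ) * (4 / (3 * D)) + 3 * (p / (3 * D)) = 5 * p / D := by
    field_simp
    ring
  linarith

theorem cn_S12 (p X d : ℕ) (hd : 0 < d) :
    CN X (fun q => d ∣ F p q) ≤ rho p d * ((X : ℝ) / d + 1) := by
  rw [CN_eq]
  have h1 : ((Icc 1 X).filter fun q => d ∣ F p q).card ≤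
      (((range d).filter fun x => d ∣ F p x) ×ˢ range (X / d + 1)).card := by
    refine card_le_card_of_injOn (fun q => (q % d, q / d)) (fun q hq => ?_) fun a _ b _ h => ?_
    · obtain ⟨b1, b2⟩ := mem_filter.mp (mem_coe.mp hq)
      refine mem_coe.mpr (mem_product.mpr ⟨mem_filter.mpr ⟨mem_range.mpr (Nat.mod_lt _ hd), ?_⟩,
        mem_range.mpr (Nat.lt_succ_of_le (Nat.div_le_div_right (mem_Icc.mp b1).2))⟩)
      have b3 : F p (q % d) ≡ F p q [MOD d] :=
        (((Nat.mod_modEq q d).pow 3).mul_left 2).add_left _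
      exact (b3.dvd_iff dvd_rfl).mpr b2
    · rw [Prod.mk.injEq] at h
      rw [← Nat.mod_add_div a d, ← Nat.mod_add_div b d, h.1, h.2]
  rw [card_product, card_range] at h1
  calc _ ≤ ((rho p d * (X / d + 1) : ℕ) : ℝ) := by exact_mod_cast h1
    _ ≤ _ := by
      push_cast
      gcongr
      exact Nat.cast_div_le

theorem s_S2 (h2 : StRho) : StS2 := by
  intro ε hε hε1
  have t1 : Tendsto (fun p : ℕ => ε * p) atTop atTop :=
    tendsto_natCast_atTop_atTop.const_mul_atTop hε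
  have t2 := (tendsto_natCast_atTop_atTop (R := ℝ)).eventually
    ((Real.isLittleO_pow_log_id_atTop (n := 8)).bound (c := (ε / 5) ^ 8) (by positivity))
  filter_upwards [t1.eventually (Chebyshev.eventually_primeCounting_le (ε := 0.1) (by norm_num)),
    t2, logtop_S12.eventually_ge_atTop 1,
    logtop_S12.eventually_ge_atTop (-2 * Real.log ε)] with p c1 c2 c3 c4 hp
  have hp0 : (0 : ℝ) < p := by exact_mod_cast hp.pos
  set m := ⌈3 * Real.log p / ε⌉₊ with hm
  have m1 : 3 * Real.log p / ε ≤ m := Nat.le_ceil _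
  have m0 : 0 < 3 * Real.log p / ε := by positivity
  have m2 : (m : ℝ) ≤ 5 * Real.log p / ε := by
    have b1 := (Nat.ceil_lt_add_one m0.le).le
    have b2 : 1 ≤ Real.log p / ε := by
      rw [le_div_iff₀ hε]
      linarith
    rw [mul_div_assoc] at b1 ⊢
    rw [hm, mul_div_assoc]
    linarith
  have m3 : m ^ 8 ≤ p := by
    have b1 : (m : ℝ) ^ 8 ≤ (5 * Real.log p / ε) ^ 8 := by gcongr
    rw [Real.norm_of_nonneg (by positivity), id, Real.norm_of_nonneg hp0.le] at c2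
    have b2 : (5 * Real.log p / ε) ^ 8 = (5 / ε) ^ 8 * Real.log p ^ 8 := by ring
    have b3 : (5 / ε) ^ 8 * Real.log p ^ 8 ≤ (5 / ε) ^ 8 * ((ε / 5) ^ 8 * p) := by gcongr
    have b4 : (5 / ε) ^ 8 * ((ε / 5) ^ 8 * p) = p := by field_simp
    exact_mod_cast (b1.trans (b2.le.trans (b3.trans b4.le)))
  have m4 : 1 ≤ m := Nat.ceil_pos.mpr m0
  set L := (Icc (m + 1) ⌊ε * p⌋₊).filter Nat.Prime with hL
  have a1 : CN p (fun q => ∃ l : ℕ, l.Prime ∧ p < l ^ 8 ∧ l ≤ ε * p ∧ l ^ 2 ∣ F p q) ≤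
      ∑ l ∈ L, CN p (fun q => l ^ 2 ∣ F p q) := by
    refine le_trans (CN_mono ?_) (CN_ex p L fun l q => l ^ 2 ∣ F p q)
    rintro q - - ⟨l, b1, b2, b3, b4⟩
    exact ⟨l, mem_filter.mpr ⟨mem_Icc.mpr ⟨lt_of_pow_lt_pow_left₀ 8 (Nat.zero_le _)
      (lt_of_le_of_lt m3 b2), Nat.le_floor b3⟩, b1⟩, b4⟩
  have a2 : ∀ l ∈ L, CN p (fun q => l ^ 2 ∣ F p q) ≤
      3 * p * (1 / ((l : ℝ) * ((l : ℝ) - 1))) + 3 := by
    intro l hl
    obtain ⟨b1, b2⟩ := mem_filter.mp hl
    have b3 : (l : ℝ) ≤ ε * p := (Nat.le_floor_iff (by positivity)).mp (mem_Icc.mp b1).2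
    have b4 : l < p := by
      have : (l : ℝ) < p := by nlinarith
      exact_mod_cast this
    have b7 : (rho p (l ^ 2) : ℝ) ≤ 3 := by
      rw [(h2.2.2.2.2 p l hp b2 b4).1]
      exact_mod_cast (h2.2.1 l b2).2
    have b8 : (2 : ℝ) ≤ l := by exact_mod_cast b2.two_le
    have b9 : (0 : ℝ) < (l : ℝ) * ((l : ℝ) - 1) := mul_pos (by linarith) (by linarith)
    have b10 : (p : ℝ) / ((l ^ 2 : ℕ) : ℝ) ≤ p * (1 / ((l : ℝ) * ((l : ℝ) - 1))) := by
      rw [mul_one_div]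
      refine div_le_div_of_nonneg_left hp0.le b9 ?_
      push_cast
      nlinarith
    refine (cn_S12 p p (l ^ 2) (pow_pos b2.pos 2)).trans ?_
    calc _ ≤ 3 * (p * (1 / ((l : ℝ) * ((l : ℝ) - 1))) + 1) := by gcongr
      _ = _ := by ring
  have a3 : ∑ l ∈ L, 1 / ((l : ℝ) * ((l : ℝ) - 1)) ≤ 1 / (m : ℝ) := by
    refine le_trans (sum_le_sum_of_subset_of_nonneg (filter_subset _ _) fun l hl _ => ?_)
      (tele_S12 m ⌊ε * p⌋₊ m4)
    have b2 : (1 : ℝ) ≤ l := by exact_mod_cast (by have := (mem_Icc.mp hl).1; omega : 1 ≤ l)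
    exact div_nonneg zero_le_one (mul_nonneg (by linarith) (by linarith))
  have a4 : (L.card : ℝ) ≤ Nat.primeCounting ⌊ε * p⌋₊ := by
    rw [← Nat.primesLE_card_eq_primeCounting]
    exact_mod_cast card_le_card fun l hl =>
      Nat.mem_primesLE.mpr ⟨(mem_Icc.mp (mem_filter.mp hl).1).2, (mem_filter.mp hl).2⟩
  have a5 : Real.log p / 2 ≤ Real.log (ε * p) := by
    rw [Real.log_mul hε.ne' hp0.ne']
    linarith
  have a6 : Real.log 4 ≤ 1.4 := by
    have : Real.log 4 = 2 * Real.log 2 := by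
      rw [show (4 : ℝ) = 2 ^ 2 by norm_num, Real.log_pow]
      norm_num
    linarith [Real.log_two_lt_d9]
  have a7 : (Real.log 4 + 0.1) * (ε * p) / Real.log (ε * p) ≤ 1.5 * (ε * p) / (Real.log p / 2) := by
    gcongr
    linarith
  have a8 := sum_le_sum a2
  rw [sum_add_distrib, ← mul_sum, sum_const, nsmul_eq_mul] at a8
  have a9 : 1 / (m : ℝ) ≤ 1 / (3 * Real.log p / ε) := one_div_le_one_div_of_le m0 m1
  have a10 : 3 * (p : ℝ) * ∑ l ∈ L, 1 / ((l : ℝ) * ((l : ℝ) - 1)) ≤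
      3 * p * (1 / (3 * Real.log p / ε)) :=
    mul_le_mul_of_nonneg_left (a3.trans a9) (by positivity)
  have a11 : Real.log p * (3 * p * (1 / (3 * Real.log p / ε)) +
      1.5 * (ε * p) / (Real.log p / 2) * 3) = 10 * ε * p := by
    field_simp
    ring
  rw [← a11]
  refine mul_le_mul_of_nonneg_left ?_ (by linarith)
  linarith

end Pool.Agent.MP_971f68_nt

end

section

open Finset Filter Topology

namespace Pool.Agent.MP_971f68_nt

open Classical in
theorem ind_Sv {α : Type} [Finite α] (S : α → Prop) (c : ℝ) :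
    ∑ᶠ x, (if S x then c else 0) = c * Nat.card {x // S x} := by
  have := Fintype.ofFinite α
  rw [finsum_eq_sum_of_fintype, ← sum_filter, sum_const, Nat.card_eq_fintype_card,
    Fintype.card_subtype, nsmul_eq_mul, mul_comm]

theorem small_Sv (P : Finset ℕ) (Z : ℕ → Prop) [DecidablePred Z] (g : ℕ → ℝ) (H : ℕ)
    (hg : ∀ r ∈ P, ¬ Z r → g r = 0) (hw : (P.filter Z).card < H) :
    ∑ T ∈ P.powerset.filter (fun T => T.card < H), ∏ r ∈ T, g r = ∏ r ∈ P, (1 + g r) := by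
  rw [prod_one_add]
  refine sum_subset (filter_subset _ _) fun T hT hT' => ?_
  by_contra hne
  refine hT' (mem_filter.2 ⟨hT, lt_of_le_of_lt (card_le_card fun r hr => ?_) hw⟩)
  have hrP := mem_powerset.1 hT hr
  refine mem_filter.2 ⟨hrP, ?_⟩
  by_contra hz
  exact hne (prod_eq_zero hr (hg r hrP hz))

theorem large_Sv (P : Finset ℕ) (Z : ℕ → Prop) [DecidablePred Z] (g : ℕ → ℝ) (H : ℕ)
    (hg : ∀ r ∈ P, ¬ Z r → g r = 0) (h4 : ∀ r ∈ P, |g r| ≤ 4) (hw : H ≤ (P.filter Z).card) :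
    0 ≤ ∑ T ∈ P.powerset.filter (fun T => T.card < H), ∏ r ∈ T, g r +
      5 ^ H * ∑ U ∈ P.powersetCard H, ∏ r ∈ U, (if Z r then (1 : ℝ) else 0) := by
  have hi : ∀ U : Finset ℕ, (0 : ℝ) ≤ ∏ r ∈ U, (if Z r then (1 : ℝ) else 0) := fun U =>
    prod_nonneg fun r _ => by split_ifs <;> norm_num
  have key : ∀ T ∈ P.powerset.filter (fun T => T.card < H), -(∏ r ∈ T, g r) ≤
      ∑ U ∈ P.powersetCard H,
        if T ⊆ U then (4 : ℝ) ^ T.card * ∏ r ∈ U, (if Z r then (1 : ℝ) else 0) else 0 := by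
    intro T hT
    obtain ⟨hTP, hTH⟩ := mem_filter.1 hT
    have hnn : ∀ U ∈ P.powersetCard H, (0 : ℝ) ≤
        if T ⊆ U then (4 : ℝ) ^ T.card * ∏ r ∈ U, (if Z r then (1 : ℝ) else 0) else 0 := by
      intro U _
      by_cases h : T ⊆ U
      · rw [if_pos h]; exact mul_nonneg (by positivity) (hi U)
      · rw [if_neg h]
    by_cases hz : ∏ r ∈ T, g r = 0
    · rw [hz, neg_zero]; exact sum_nonneg hnn
    have hTW : T ⊆ P.filter Z := fun r hr => by
      have hrP := mem_powerset.1 hTP hr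
      refine mem_filter.2 ⟨hrP, ?_⟩
      by_contra hz'
      exact hz (prod_eq_zero hr (hg r hrP hz'))
    obtain ⟨U, hTU, hUW, hUc⟩ := exists_subsuperset_card_eq hTW hTH.le hw
    have hU : U ∈ P.powersetCard H :=
      mem_powersetCard.2 ⟨hUW.trans (filter_subset _ _), hUc⟩
    refine le_trans ?_ (single_le_sum hnn hU)
    rw [if_pos hTU, prod_eq_one fun r hr => if_pos (mem_filter.1 (hUW hr)).2, mul_one]
    refine (neg_le_abs _).trans ?_
    rw [abs_prod, ← prod_const]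
    exact prod_le_prod (fun r _ => abs_nonneg _) fun r hr => h4 r (mem_powerset.1 hTP hr)
  have h1 := sum_le_sum key
  rw [sum_neg_distrib, sum_comm] at h1
  have h2 : ∀ U ∈ P.powersetCard H, ∑ T ∈ P.powerset.filter (fun T => T.card < H),
      (if T ⊆ U then (4 : ℝ) ^ T.card * ∏ r ∈ U, (if Z r then (1 : ℝ) else 0) else 0) ≤
      5 ^ H * ∏ r ∈ U, (if Z r then (1 : ℝ) else 0) := by
    intro U hU
    rw [← sum_filter, ← sum_mul]
    refine mul_le_mul_of_nonneg_right ?_ (hi U)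
    have h5 : (5 : ℝ) ^ H = ∑ T ∈ U.powerset, (4 : ℝ) ^ T.card := by
      have := prod_one_add (f := fun _ : ℕ => (4 : ℝ)) U
      simp only [prod_const] at this
      rw [← this, (mem_powersetCard.1 hU).2]
      norm_num
    rw [h5]
    exact sum_le_sum_of_subset_of_nonneg (fun T hT => mem_powerset.2 (mem_filter.1 hT).2)
      fun _ _ _ => by positivity
  have h3 := sum_le_sum h2
  rw [← mul_sum] at h3
  linarith

theorem cnt_Sv (P : Finset ℕ) (z H : ℕ) (hz : 2 ≤ z) (hP : P.card ≤ z) :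
    (P.powerset.filter fun T => T.card < H).card ≤ z ^ H ∧ (P.powersetCard H).card ≤ z ^ H := by
  have h1 : ∀ j, (P.powersetCard j).card ≤ z ^ j := fun j => by
    rw [card_powersetCard]
    exact (Nat.choose_le_pow _ _).trans (Nat.pow_le_pow_left hP j)
  refine ⟨?_, h1 H⟩
  have h2 : (P.powerset.filter fun T => T.card < H) ⊆
      (range H).biUnion fun j => P.powersetCard j := fun T hT =>
    mem_biUnion.2 ⟨T.card, mem_range.2 (mem_filter.1 hT).2,
      mem_powersetCard.2 ⟨mem_powerset.1 (mem_filter.1 hT).1, rfl⟩⟩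
  refine (card_le_card h2).trans (card_biUnion_le.trans ((sum_le_sum fun j _ => h1 j).trans ?_))
  clear h2
  induction H with
  | zero => simp
  | succ n ih => rw [sum_range_succ, pow_succ]; nlinarith [Nat.zero_le (z ^ n)]

theorem rank_Sv (P : Finset ℕ) (H : ℕ) (a : ℕ → ℝ) (ha : ∀ r ∈ P, 0 ≤ a r ∧ a r ≤ 3 * (1 / r))
    (hs : 41 * ∑ r ∈ P, 1 / (r : ℝ) ≤ H) :
    5 ^ H * ∑ U ∈ P.powersetCard H, ∏ r ∈ U, a r ≤ 1 := by
  have he := Real.exp_one_lt_d9
  have he0 := Real.exp_pos 1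
  have h1 : ∑ U ∈ P.powersetCard H, ∏ r ∈ U, (5 * Real.exp 1 * a r) ≤
      ∏ r ∈ P, (1 + 5 * Real.exp 1 * a r) := by
    rw [prod_one_add]
    refine sum_le_sum_of_subset_of_nonneg
      (fun U hU => mem_powerset.2 (mem_powersetCard.1 hU).1) fun U hU _ => ?_
    exact prod_nonneg fun r hr => mul_nonneg (by positivity) (ha r (mem_powerset.1 hU hr)).1
  have h2 : ∏ r ∈ P, (1 + 5 * Real.exp 1 * a r) ≤ Real.exp (41 * ∑ r ∈ P, 1 / (r : ℝ)) := by
    rw [mul_sum, Real.exp_sum]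
    refine prod_le_prod (fun r hr => ?_) fun r hr => ?_
    · have := (ha r hr).1; positivity
    · have h0 : (0 : ℝ) ≤ 1 / r := by positivity
      have := Real.add_one_le_exp (41 * (1 / (r : ℝ)))
      nlinarith [(ha r hr).1, (ha r hr).2, mul_le_mul_of_nonneg_left (ha r hr).2 he0.le]
  have h3 : ∑ U ∈ P.powersetCard H, ∏ r ∈ U, (5 * Real.exp 1 * a r) =
      Real.exp H * (5 ^ H * ∑ U ∈ P.powersetCard H, ∏ r ∈ U, a r) := by
    rw [← mul_assoc, mul_sum]
    refine sum_congr rfl fun U hU => ?_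
    rw [prod_mul_distrib, prod_const, (mem_powersetCard.1 hU).2, mul_pow, ← Real.exp_nat_mul]
    simp [mul_comm]
  have h4 := (h1.trans h2).trans (Real.exp_le_exp.2 hs)
  rw [h3] at h4
  exact le_of_mul_le_mul_left (by rwa [mul_one]) (Real.exp_pos (H : ℝ))

theorem s_Sv (h : StBox) : StSv := by
  classical
  intro P S Z k z H B t hP hz hH hB hs ht
  set L : ℝ := 2 * B + 1 with hL
  have hL0 : 0 < L := by positivity
  set kap : ℕ → ℝ := fun r => k r * Nat.card {x // S r x} / Nat.card {x // Z r x} with hkap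
  set g : ∀ r : ℕ, T (ZMod r) → ℝ :=
    fun r x => (if S r x then k r else 0) - (if Z r x then kap r else 0) with hg
  set i : ∀ r : ℕ, T (ZMod r) → ℝ := fun r x => if Z r x then 1 else 0 with hi
  have hk01 : ∀ r ∈ P, 0 ≤ kap r ∧ kap r ≤ 1 := fun r hr => by
    obtain ⟨-, -, h0, -, -, h1, -⟩ := hP r hr
    exact ⟨by simp only [hkap]; positivity, div_le_one_of_le₀ h1 (Nat.cast_nonneg _)⟩
  have hg0 : ∀ r ∈ P, ∀ x, ¬ Z r x → g r x = 0 := fun r hr x hx => by
    have : ¬ S r x := fun h' => hx ((hP r hr).2.2.2.2.1 x h')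
    simp [hg, hx, this]
  have hg4 : ∀ r ∈ P, ∀ x, |g r x| ≤ 4 ∧ 0 ≤ 1 + g r x := fun r hr x => by
    obtain ⟨-, -, h0, h4, -⟩ := hP r hr
    obtain ⟨h5, h6⟩ := hk01 r hr
    simp only [hg, abs_le]
    split_ifs <;> refine ⟨⟨?_, ?_⟩, ?_⟩ <;> linarith
  have hgs : ∀ r ∈ P, ∑ᶠ x, g r x = 0 := fun r hr => by
    obtain ⟨hp, -, h0, -, -, h1, -⟩ := hP r hr
    have : NeZero r := ⟨hp.ne_zero⟩
    simp only [hg]
    rw [finsum_sub_distrib (Set.toFinite _) (Set.toFinite _), ind_Sv, ind_Sv, sub_eq_zero]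
    by_cases hZ : (Nat.card {x // Z r x} : ℝ) = 0
    · rw [hZ, mul_zero]
      exact le_antisymm (hZ ▸ h1) (by positivity)
    · simp only [hkap]; field_simp
  have hcard : P.card ≤ z := by
    have : P ⊆ Icc 1 z := fun r hr => mem_Icc.2 ⟨(hP r hr).1.pos, (hP r hr).2.1⟩
    simpa using card_le_card this
  obtain ⟨c1, c2⟩ := cnt_Sv P z H (by omega) hcard
  have hz1 : (1 : ℝ) ≤ z := by exact_mod_cast (by omega : 1 ≤ z)
  have hpr : ∀ U ⊆ P, U.card ≤ H → ∏ r ∈ U, (r : ℝ) ≤ (z : ℝ) ^ H := fun U hU hc => by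
    refine le_trans ?_ (pow_le_pow_right₀ hz1 hc)
    rw [← prod_const]
    exact prod_le_prod (fun r _ => Nat.cast_nonneg r) fun r hr => by
      exact_mod_cast (hP r (hU hr)).2.1
  set E : ℝ := 6 * L ^ 2 * (z : ℝ) ^ H with hE
  have hE0 : 0 ≤ E := by positivity
  -- the first sum
  have hA : ∑ U ∈ P.powerset.filter (fun U => U.card < H), ∑ b ∈ box B, ∏ r ∈ U, g r (c3 r b) ≤
      L ^ 3 + (z : ℝ) ^ H * (5 ^ H * E) := by
    have h1 : ∀ U ∈ P.powerset.filter (fun U => U.card < H),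
        ∑ b ∈ box B, ∏ r ∈ U, g r (c3 r b) ≤ (if U = ∅ then L ^ 3 else 0) + 5 ^ H * E := by
      intro U hU
      obtain ⟨hUP, hUH⟩ := mem_filter.1 hU
      have hUP := mem_powerset.1 hUP
      have h2 := (abs_le.1 (h U g 4 B (fun r hr => (hP r (hUP hr)).1) (by norm_num)
        fun r hr x => (hg4 r (hUP hr) x).1)).2
      have h3 : L ^ 3 * ∏ r ∈ U, (∑ᶠ x, g r x) / (r : ℝ) ^ 3 = if U = ∅ then L ^ 3 else 0 := by
        split_ifs with hU0
        · simp [hU0]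
        · obtain ⟨r, hr⟩ := nonempty_iff_ne_empty.2 hU0
          rw [prod_eq_zero hr (by rw [hgs r (hUP hr), zero_div]), mul_zero]
      have h4 : (4 : ℝ) ^ U.card ≤ 5 ^ H :=
        (pow_le_pow_left₀ (by norm_num) (by norm_num) _).trans
          (pow_le_pow_right₀ (by norm_num) hUH.le)
      have h5 : 6 * L ^ 2 * 4 ^ U.card * ∏ r ∈ U, (r : ℝ) ≤ 6 * L ^ 2 * 5 ^ H * (z : ℝ) ^ H := by
        have := hpr U hUP hUH.le
        have h6 : (0 : ℝ) ≤ ∏ r ∈ U, (r : ℝ) := prod_nonneg fun r _ => Nat.cast_nonneg r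
        gcongr
      rw [← hL, h3] at h2
      simp only [hE]
      linarith
    refine (sum_le_sum h1).trans ?_
    rw [sum_add_distrib, sum_ite_eq', sum_const, nsmul_eq_mul]
    refine add_le_add (by split_ifs <;> [exact le_rfl; positivity]) ?_
    exact mul_le_mul_of_nonneg_right (by exact_mod_cast c1) (by positivity)
  -- the second sum
  have hB2 : 5 ^ H * ∑ U ∈ P.powersetCard H, ∑ b ∈ box B, ∏ r ∈ U, i r (c3 r b) ≤
      L ^ 3 + (z : ℝ) ^ H * (5 ^ H * E) := by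
    have h1 : ∀ U ∈ P.powersetCard H, ∑ b ∈ box B, ∏ r ∈ U, i r (c3 r b) ≤
        L ^ 3 * ∏ r ∈ U, (∑ᶠ x, i r x) / (r : ℝ) ^ 3 + E := by
      intro U hU
      obtain ⟨hUP, hUH⟩ := mem_powersetCard.1 hU
      have h2 := (abs_le.1 (h U i 1 B (fun r hr => (hP r (hUP hr)).1) (by norm_num)
        fun r _ x => by simp only [hi]; split_ifs <;> simp)).2
      have h5 : 6 * L ^ 2 * ∏ r ∈ U, (r : ℝ) ≤ 6 * L ^ 2 * (z : ℝ) ^ H := by
        have := hpr U hUP hUH.le
        gcongr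
      rw [← hL, one_pow, mul_one] at h2
      simp only [hE]
      linarith
    have h2 := sum_le_sum h1
    rw [sum_add_distrib, sum_const, nsmul_eq_mul, ← mul_sum] at h2
    have h3 := rank_Sv P H (fun r => (∑ᶠ x, i r x) / (r : ℝ) ^ 3) (fun r hr => by
      obtain ⟨hp, -, -, -, -, -, h7⟩ := hP r hr
      have : NeZero r := ⟨hp.ne_zero⟩
      have hr0 : (0 : ℝ) < r := by exact_mod_cast hp.pos
      have h8 : (Nat.card {x // Z r x} : ℝ) ≤ 3 * r ^ 2 := by exact_mod_cast h7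
      simp only [hi]
      rw [ind_Sv, one_mul]
      refine ⟨by positivity, ?_⟩
      rw [div_le_iff₀ (by positivity)]
      refine h8.trans (le_of_eq ?_)
      field_simp) hs
    have h4 : ((P.powersetCard H).card : ℝ) * E ≤ (z : ℝ) ^ H * E :=
      mul_le_mul_of_nonneg_right (by exact_mod_cast c2) hE0
    have h5 : (0 : ℝ) ≤ 5 ^ H := by positivity
    have h6 := mul_le_mul_of_nonneg_left h3 (pow_pos hL0 3).le
    nlinarith [mul_le_mul_of_nonneg_left h2 h5, mul_le_mul_of_nonneg_left h4 h5]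
  have hErr : 2 * ((z : ℝ) ^ H * (5 ^ H * E)) ≤ L ^ 3 := by
    have h1 : (12 : ℝ) * 5 ^ H ≤ (z : ℝ) ^ H := by
      have h2 : (60 : ℝ) ^ H ≤ (z : ℝ) ^ H :=
        pow_le_pow_left₀ (by norm_num) (by exact_mod_cast hz) H
      have h3 : (12 : ℝ) ≤ 12 ^ H := le_self_pow₀ (by norm_num) (by omega)
      refine le_trans ?_ h2
      rw [show (60 : ℝ) = 12 * 5 by norm_num, mul_pow]
      gcongr
    have h2 : ((z : ℝ) ^ H) ^ 3 ≤ L := by
      rw [← pow_mul, mul_comm, hL]; exact_mod_cast hB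
    calc 2 * ((z : ℝ) ^ H * (5 ^ H * E)) = L ^ 2 * (((z : ℝ) ^ H) ^ 2 * (12 * 5 ^ H)) := by
          simp only [hE]; ring
      _ ≤ L ^ 2 * (((z : ℝ) ^ H) ^ 2 * (z : ℝ) ^ H) := by gcongr
      _ ≤ L ^ 2 * L := by rw [← pow_succ]; gcongr
      _ = L ^ 3 := by ring
  rw [le_div_iff₀ ht, ← nsmul_eq_mul, ← sum_const, sum_filter]
  have hpt := sum_le_sum (s := box B) (f := fun b => if (∀ r ∈ P, Z r (c3 r b) → S r (c3 r b)) ∧
      (P.filter fun r => Z r (c3 r b)).card < H ∧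
      t ≤ ∏ r ∈ P.filter fun r => Z r (c3 r b), k r then t else 0)
    (g := fun b => ∑ U ∈ P.powerset.filter (fun U => U.card < H), ∏ r ∈ U, g r (c3 r b) +
      5 ^ H * ∑ U ∈ P.powersetCard H, ∏ r ∈ U, i r (c3 r b)) fun b _ => by
    rcases lt_or_ge (P.filter fun r => Z r (c3 r b)).card H with hw | hw
    · rw [small_Sv P (fun r => Z r (c3 r b)) (fun r => g r (c3 r b)) H
        (fun r hr => hg0 r hr _) hw]
      refine le_add_of_le_of_nonneg ?_ (mul_nonneg (by positivity) (sum_nonneg fun U _ =>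
        prod_nonneg fun r _ => by simp only [hi]; split_ifs <;> norm_num))
      split_ifs with hc
      · refine hc.2.2.trans ?_
        rw [prod_filter]
        refine prod_le_prod (fun r hr => ?_) fun r hr => ?_
        · split_ifs
          exacts [(hP r hr).2.2.1, zero_le_one]
        · split_ifs with hzr
          · simp only [hg, if_pos hzr, if_pos (hc.1 r hr hzr)]
            linarith [(hk01 r hr).2]
          · rw [hg0 r hr _ hzr, add_zero]
      · exact prod_nonneg fun r hr => (hg4 r hr _).2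
    · rw [if_neg fun hc => absurd hc.2.1 (not_lt.2 hw)]
      exact large_Sv P (fun r => Z r (c3 r b)) (fun r => g r (c3 r b)) H
        (fun r hr => hg0 r hr _) (fun r hr => (hg4 r hr _).1) hw
  rw [sum_add_distrib, ← mul_sum, sum_comm, sum_comm (s := box B)] at hpt
  refine hpt.trans ?_
  linarith

end Pool.Agent.MP_971f68_nt

end
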