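import Mathlib
import Pool.Agent.Mg.F436a94p.Gb8cf27

set_option linter.all false

section

/-!
Primes `p` with `p - 1` almost prime in almost all short intervals: the interface.
-/

set_option autoImplicit false

open Finset Filter

namespace Pool.Agent.MP_436a94_nt.A

/-- the kernel of Fejér of order `2 T` -/
noncomputable def fej (T : ℕ) (y : ℝ) : ℝ :=
  ∑ u ∈ Ioo (-(2 * T : ℤ)) (2 * T), (1 - |(u : ℝ)| / (2 * T)) * Real.cos (u * y)

/-- the order of the kernel -/
noncomputable def TT (N : ℕ) : ℕ := ⌈√(N : ℝ) * Real.log N ^ 5⌉₊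

/-- primes `p = 3` modulo `4` such that `p - 1` has no small odd prime factor -/
def rough (N : ℕ) (al : ℝ) (p : ℕ) : Prop :=
  p.Prime ∧ p % 4 = 3 ∧ ∀ l : ℕ, l.Prime → l ∣ p - 1 → l = 2 ∨ (N : ℝ) ^ al < l

open Classical in
/-- the weighted count of such primes near `t` -/
noncomputable def WS (N : ℕ) (al : ℝ) (t : ℕ) : ℝ :=
  ∑ p ∈ (Ioc N (8 * N)).filter (rough N al),
    Real.log p * fej (TT N) (Real.log p - Real.log t)

open Classical in
def StAE : Prop := ∃ al c : ℝ, 0 < al ∧ 0 < c ∧ ∀ B : ℕ, ∀ᶠ N : ℕ in atTop,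
  (((Ico (2 * N) (4 * N)).filter fun t : ℕ => WS N al t < c * N / Real.log N).card : ℝ) ≤
    N / Real.log N ^ B

def StFej : Prop := ∀ (T : ℕ) (y : ℝ), 1 ≤ T → 0 ≤ fej T y ∧ fej T y ≤ 2 * T ∧
  (y ≠ 0 → |y| ≤ Real.pi → fej T y ≤ Real.pi ^ 2 / (2 * T * y ^ 2))

end Pool.Agent.MP_436a94_nt.A

end

section

/-!
From the weighted count to the number of rough primes in almost all short intervals.
-/

set_option autoImplicit false

open Finset Filter
open scoped Classical

namespace Pool.Agent.MP_436a94_nt.E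

open Pool.Agent.MP_436a94_nt.A

lemma markov (I B : Finset ℕ) (a w : ℕ) (θ : ℝ) :
    ((I.filter fun n => θ ≤ ((B.filter fun m => m ∈ Ioc (n + a) (n + a + w)).card : ℝ)).card : ℝ)
      * θ ≤ B.card * w := by
  set J := I.filter fun n => θ ≤ ((B.filter fun m => m ∈ Ioc (n + a) (n + a + w)).card : ℝ)
  have h1 : (J.card : ℝ) * θ ≤
      ∑ n ∈ J, ((B.filter fun m => m ∈ Ioc (n + a) (n + a + w)).card : ℝ) := by
    rw [← nsmul_eq_mul]
    exact card_nsmul_le_sum _ _ _ fun n hn => (mem_filter.1 hn).2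
  have h2 : ∑ n ∈ J, (B.filter fun m => m ∈ Ioc (n + a) (n + a + w)).card ≤ B.card * w := by
    simp only [card_filter]
    rw [sum_comm, ← smul_eq_mul]
    refine sum_le_card_nsmul _ _ _ fun m _ => ?_
    rw [← card_filter]
    have : (J.filter fun n => m ∈ Ioc (n + a) (n + a + w)) ⊆ Ico (m - a - w) (m - a) := by
      intro n hn
      have := mem_Ioc.1 (mem_filter.1 hn).2
      rw [mem_Ico]
      omega
    refine (card_le_card this).trans ?_
    rw [Nat.card_Ico]
    omega
  exact h1.trans (by exact_mod_cast h2)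

lemma tail1 (P : Finset ℕ) (d : ℕ → ℕ) (hd : Set.InjOn d P) {g : ℕ} (hg : 1 ≤ g)
    (h : ∀ m ∈ P, g < d m) : ∑ m ∈ P, ((d m : ℝ) ^ 2)⁻¹ ≤ (g : ℝ)⁻¹ := by
  rw [← sum_image (s := P) (g := d) (f := fun k : ℕ => ((k : ℝ) ^ 2)⁻¹) hd]
  have h1 := sum_Ioc_inv_sq_le_sub (α := ℝ) (k := g) (n := g + (P.image d).sup id) (by omega)
    (Nat.le_add_right _ _)
  refine (sum_le_sum_of_subset_of_nonneg (fun k hk => ?_) fun _ _ _ => by positivity).trans
    (h1.trans (sub_le_self _ (by positivity)))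
  have h2 : k ≤ (P.image d).sup id := le_sup (f := id) hk
  obtain ⟨m, hm, rfl⟩ := mem_image.1 hk
  exact mem_Ioc.2 ⟨h m hm, by omega⟩

lemma tail2 (P : Finset ℕ) (c : ℕ) {g : ℕ} (hg : 1 ≤ g) (h : ∀ m ∈ P, m + g < c ∨ c + g < m) :
    ∑ m ∈ P, (((m : ℝ) - c) ^ 2)⁻¹ ≤ 2 / g := by
  rw [← sum_filter_add_sum_filter_not P (fun m => m < c)]
  have h1 := tail1 (P.filter fun m => m < c) (fun m => c - m) (fun m hm m' hm' e => by
    have := (mem_filter.1 hm).2
    have := (mem_filter.1 hm').2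
    simp only at e
    omega) hg fun m hm => by
      have := h m (mem_filter.1 hm).1
      have := (mem_filter.1 hm).2
      omega
  have h2 := tail1 (P.filter fun m => ¬ m < c) (fun m => m - c) (fun m hm m' hm' e => by
    have := (mem_filter.1 hm).2
    have := (mem_filter.1 hm').2
    simp only at e
    omega) hg fun m hm => by
      have := h m (mem_filter.1 hm).1
      have := (mem_filter.1 hm).2
      omega
  have e1 : ∑ m ∈ P.filter (fun m => m < c), (((m : ℝ) - c) ^ 2)⁻¹ =
      ∑ m ∈ P.filter (fun m => m < c), (((c - m : ℕ) : ℝ) ^ 2)⁻¹ := sum_congr rfl fun m hm => by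
    rw [Nat.cast_sub (mem_filter.1 hm).2.le]
    ring
  have e2 : ∑ m ∈ P.filter (fun m => ¬ m < c), (((m : ℝ) - c) ^ 2)⁻¹ =
      ∑ m ∈ P.filter (fun m => ¬ m < c), (((m - c : ℕ) : ℝ) ^ 2)⁻¹ := sum_congr rfl fun m hm => by
    rw [Nat.cast_sub (not_lt.1 (mem_filter.1 hm).2)]
  rw [e1, e2, div_eq_mul_inv]
  linarith

lemma log_gap {x y M : ℝ} (hx : 0 < x) (hxy : x ≤ y) (hy : y ≤ M) :
    (y - x) / M ≤ Real.log y - Real.log x := by
  have h0 : 0 < y := by linarith
  have h1 := Real.log_le_sub_one_of_pos (div_pos hx h0)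
  rw [Real.log_div hx.ne' h0.ne'] at h1
  have h2 : (y - x) / M ≤ (y - x) / y := div_le_div_of_nonneg_left (by linarith) h0 hy
  have h3 : (y - x) / y = 1 - x / y := by field_simp
  linarith

lemma fej_le (hF : StFej) {T N p t : ℕ} (hT : 1 ≤ T) (hp : p ∈ Ioc N (8 * N))
    (ht : t ∈ Ico (2 * N) (4 * N)) (hne : p ≠ t) :
    fej T (Real.log p - Real.log t) ≤ 320 * (N : ℝ) ^ 2 / T * (((p : ℝ) - t) ^ 2)⁻¹ := by
  obtain ⟨p1, p2⟩ := mem_Ioc.1 hp
  obtain ⟨t1, t2⟩ := mem_Ico.1 ht
  have hN : (0 : ℝ) < N := by exact_mod_cast (show 0 < N by omega)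
  have p1' : (N : ℝ) < p := by exact_mod_cast p1
  have p2' : (p : ℝ) ≤ 8 * N := by exact_mod_cast p2
  have t1' : 2 * (N : ℝ) ≤ t := by exact_mod_cast t1
  have t2' : (t : ℝ) < 4 * N := by exact_mod_cast t2
  have hT' : (0 : ℝ) < T := by exact_mod_cast hT
  have hd : (p : ℝ) - t ≠ 0 := sub_ne_zero.2 (by exact_mod_cast hne)
  set y := Real.log p - Real.log t with hy
  have h1 : |(p : ℝ) - t| / (8 * N) ≤ |y| := by
    rcases le_total (p : ℝ) t with h | h
    · have := log_gap (M := 8 * N) (by linarith) h (by linarith)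
      rw [abs_of_nonpos (by linarith), neg_sub]
      exact this.trans (by rw [abs_sub_comm]; exact le_abs_self _)
    · have := log_gap (M := 8 * N) (by linarith) h p2'
      rw [abs_of_nonneg (by linarith)]
      exact this.trans (le_abs_self _)
  have h2 : |y| ≤ Real.pi := by
    have a1 := Real.log_le_sub_one_of_pos (show 0 < (p : ℝ) / t by
      exact div_pos (by linarith) (by linarith))
    have a2 := Real.log_le_sub_one_of_pos (show 0 < (t : ℝ) / p by
      exact div_pos (by linarith) (by linarith))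
    rw [Real.log_div (by linarith) (by linarith)] at a1 a2
    have a3 : (p : ℝ) / t ≤ 4 := by
      rw [div_le_iff₀ (by linarith)]
      linarith
    have a4 : (t : ℝ) / p ≤ 4 := by
      rw [div_le_iff₀ (by linarith)]
      linarith
    have := Real.pi_gt_three
    rw [abs_le]
    constructor <;> linarith
  have h3 : 0 < |(p : ℝ) - t| / (8 * N) := div_pos (abs_pos.2 hd) (by linarith)
  have h4 : y ≠ 0 := abs_pos.1 (h3.trans_le h1)
  have h5 : (|(p : ℝ) - t| / (8 * N)) ^ 2 ≤ y ^ 2 := by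
    rw [← sq_abs y]
    exact pow_le_pow_left₀ h3.le h1 2
  have h6 : Real.pi ^ 2 ≤ 10 := by
    have := Real.pi_lt_d2
    have := Real.pi_pos
    nlinarith
  refine ((hF T y hT).2.2 h4 h2).trans ?_
  calc _ ≤ 10 / (2 * T * (|(p : ℝ) - t| / (8 * N)) ^ 2) := by gcongr
    _ = _ := by
      rw [div_pow, sq_abs]
      field_simp
      ring

lemma fej_tot (hF : StFej) {T N p : ℕ} (hT : 1 ≤ T) (hTN : T ≤ N) (hp : p ∈ Ioc N (8 * N))
    {W : Finset ℕ} (hW : W ⊆ Ico (2 * N) (4 * N)) :
    ∑ t ∈ W, fej T (Real.log p - Real.log t) ≤ 650 * N := by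
  set g := N / T + 1 with hg
  have hT' : (0 : ℝ) < T := by exact_mod_cast hT
  have hN : (0 : ℝ) < N := by exact_mod_cast (show 0 < N by omega)
  have g0 : (0 : ℝ) < g := by exact_mod_cast (show 0 < g from Nat.succ_pos _)
  have g1 : (N : ℝ) ≤ g * T := by
    have : N ≤ g * T := by
      rw [mul_comm]
      exact (Nat.lt_mul_div_succ N hT).le
    exact_mod_cast this
  have g2 : (g : ℝ) * T ≤ N + T := by
    have : g * T ≤ N + T := by
      rw [hg, add_mul, one_mul]
      exact Nat.add_le_add_right (Nat.div_mul_le_self _ _) _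
    exact_mod_cast this
  have hTN' : (T : ℝ) ≤ N := by exact_mod_cast hTN
  rw [← sum_filter_add_sum_filter_not W (fun t => t + g < p ∨ p + g < t)]
  have h1 : ∑ t ∈ W.filter (fun t => t + g < p ∨ p + g < t), fej T (Real.log p - Real.log t) ≤
      320 * (N : ℝ) ^ 2 / T * (2 / g) := by
    refine le_trans ?_ (mul_le_mul_of_nonneg_left (tail2
      (W.filter fun t => t + g < p ∨ p + g < t) p (Nat.succ_pos _)
      fun t ht => (mem_filter.1 ht).2) (by positivity))
    rw [mul_sum]
    refine sum_le_sum fun t ht => (fej_le hF hT hp (hW (mem_filter.1 ht).1)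
      (by have := (mem_filter.1 ht).2; clear_value g; omega)).trans (le_of_eq ?_)
    ring
  have h2 : ∑ t ∈ W.filter (fun t => ¬ (t + g < p ∨ p + g < t)),
      fej T (Real.log p - Real.log t) ≤ (2 * g + 1) * (2 * T) := by
    refine (sum_le_card_nsmul _ _ _ fun t _ => (hF T _ hT).2.1).trans ?_
    rw [nsmul_eq_mul]
    have : (W.filter fun t => ¬ (t + g < p ∨ p + g < t)).card ≤ 2 * g + 1 := by
      refine (card_le_card (t := Icc (p - g) (p + g)) fun t ht => ?_).trans ?_
      · have := (mem_filter.1 ht).2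
        rw [mem_Icc]
        omega
      · rw [Nat.card_Icc]
        omega
    have : ((W.filter fun t => ¬ (t + g < p ∨ p + g < t)).card : ℝ) ≤ 2 * g + 1 := by
      exact_mod_cast this
    gcongr
  have h3 : 320 * (N : ℝ) ^ 2 / T * (2 / g) ≤ 640 * N := by
    rw [div_mul_div_comm, div_le_iff₀ (by positivity)]
    nlinarith
  nlinarith

lemma ev_T : ∀ᶠ N : ℕ in atTop, TT N ≤ N := by
  have h := (isLittleO_log_rpow_rpow_atTop (5 : ℝ) (show (0 : ℝ) < 1 / 2 by norm_num)).bound
    one_pos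
  filter_upwards [tendsto_natCast_atTop_atTop.eventually h] with N hN
  rw [show (5 : ℝ) = (5 : ℕ) by norm_num, Real.rpow_natCast,
    Real.norm_of_nonneg (pow_nonneg (Real.log_natCast_nonneg N) _),
    Real.norm_of_nonneg (by positivity), one_mul, ← Real.sqrt_eq_rpow] at hN
  refine Nat.ceil_le.2 ?_
  have h0 : (0 : ℝ) ≤ N := Nat.cast_nonneg N
  calc _ ≤ √(N : ℝ) * √(N : ℝ) := mul_le_mul_of_nonneg_left hN (Real.sqrt_nonneg _)
    _ = N := Real.mul_self_sqrt h0

lemma ev_log (C : ℝ) : ∀ᶠ N : ℕ in atTop, C ≤ Real.log N :=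
  (Real.tendsto_log_atTop.comp tendsto_natCast_atTop_atTop).eventually_ge_atTop C

theorem s_W (hA : StAE) (hF : StFej) : StW := by
  obtain ⟨al, c, hal, hc, hA⟩ := hA
  refine ⟨al, c / 20800, hal, by positivity, fun B => ?_⟩
  filter_upwards [hA (B + 1), ev_T, ev_log 2, ev_log (20480 / c), eventually_ge_atTop 64] with
    N hA hTN hL hLc hN
  set L := Real.log N with hLd
  set H := Nat.sqrt N with hH
  set g := H / 3 with hg
  have hH8 : 8 ≤ H := Nat.le_sqrt.2 (by omega)
  have hHN : H ≤ N := Nat.sqrt_le_self N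
  have hN0 : (0 : ℝ) < N := by exact_mod_cast (show 0 < N by omega)
  have hL0 : 0 < L := by linarith
  have g4 : (H : ℝ) ≤ 4 * g := by exact_mod_cast (show H ≤ 4 * g by omega)
  have g0 : (0 : ℝ) < g := by exact_mod_cast (show 0 < g by omega)
  have hs0 : 0 < √(N : ℝ) := Real.sqrt_pos.2 hN0
  have hs : √(N : ℝ) ≤ 8 * g := by
    have h1 : √(N : ℝ) ≤ H + 1 := by
      rw [Real.sqrt_le_iff]
      refine ⟨by positivity, ?_⟩
      exact_mod_cast (Nat.lt_succ_sqrt' N).le
    have : (H : ℝ) + 1 ≤ 8 * g := by exact_mod_cast (show H + 1 ≤ 8 * g by omega)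
    linarith
  have hT0 : √(N : ℝ) * L ^ 5 ≤ TT N := Nat.le_ceil _
  have hT1 : 1 ≤ TT N := Nat.ceil_pos.2 (by positivity)
  have hT' : (0 : ℝ) < TT N := by exact_mod_cast hT1
  set Bt := (Ico (2 * N) (4 * N)).filter fun t : ℕ => WS N al t < c * N / L with hBt
  have hM := markov (Ico (2 * N) (3 * N)) Bt g g (g / 2)
  have hlog : ∀ p ∈ Ioc N (8 * N), Real.log p ≤ 2 * L := fun p hp => by
    obtain ⟨p1, p2⟩ := mem_Ioc.1 hp
    have h1 : (p : ℝ) ≤ (N : ℝ) ^ 2 := by
      have : p ≤ N ^ 2 := by nlinarith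
      exact_mod_cast this
    have := Real.log_le_log (by exact_mod_cast (show 0 < p by omega)) h1
    rw [Real.log_pow] at this
    exact_mod_cast this
  have hsub : ((Ico (2 * N) (3 * N)).filter fun n =>
      (((Ioc n (n + H)).filter (Rg ((N : ℝ) ^ al))).card : ℝ) < c / 20800 * H / L ^ 2) ⊆
      (Ico (2 * N) (3 * N)).filter fun n =>
        (g : ℝ) / 2 ≤ ((Bt.filter fun m => m ∈ Ioc (n + g) (n + g + g)).card : ℝ) := by
    intro n hn
    obtain ⟨n1, n2⟩ := mem_filter.1 hn
    refine mem_filter.2 ⟨n1, ?_⟩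
    by_contra hcon
    rw [not_le] at hcon
    obtain ⟨n3, n4⟩ := mem_Ico.1 n1
    set G := (Ioc (n + g) (n + g + g)).filter fun t => t ∉ Bt with hG
    have hGI : G ⊆ Ico (2 * N) (4 * N) := fun t ht => by
      have := mem_Ioc.1 (mem_filter.1 ht).1
      rw [mem_Ico]
      omega
    have hGc : (g : ℝ) / 2 ≤ G.card := by
      have h1 : g ≤ (Bt.filter fun m => m ∈ Ioc (n + g) (n + g + g)).card + G.card := by
        have h0 : Ioc (n + g) (n + g + g) ⊆
            (Bt.filter fun m => m ∈ Ioc (n + g) (n + g + g)) ∪ G := fun t ht => by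
          by_cases h : t ∈ Bt
          · exact mem_union_left _ (mem_filter.2 ⟨h, ht⟩)
          · exact mem_union_right _ (mem_filter.2 ⟨ht, h⟩)
        have := (card_le_card h0).trans (card_union_le _ _)
        rw [Nat.card_Ioc] at this
        omega
      have h2 : (g : ℝ) ≤ (Bt.filter fun m => m ∈ Ioc (n + g) (n + g + g)).card + G.card := by
        exact_mod_cast h1
      linarith
    set P := (Ioc n (n + H)).filter (Rg ((N : ℝ) ^ al)) with hP
    have hPI : P ⊆ Ioc N (8 * N) := fun p hp => by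
      have := mem_Ioc.1 (mem_filter.1 hp).1
      rw [mem_Ioc]
      omega
    have h1 : ∀ t ∈ G, c * N / (2 * L) ≤
        ∑ p ∈ P, 2 * L * fej (TT N) (Real.log p - Real.log t) := fun t ht => by
      have t1 := hGI ht
      have t2 := mem_Ioc.1 (mem_filter.1 ht).1
      have a1 : c * N / L ≤ WS N al t :=
        not_lt.1 fun h => (mem_filter.1 ht).2 (mem_filter.2 ⟨t1, h⟩)
      set R := (Ioc N (8 * N)).filter (rough N al) with hR
      have a2 : WS N al t ≤ ∑ p ∈ R, 2 * L * fej (TT N) (Real.log p - Real.log t) :=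
        sum_le_sum fun p hp => mul_le_mul_of_nonneg_right (hlog p (mem_filter.1 hp).1)
          (hF _ _ hT1).1
      rw [← sum_filter_add_sum_filter_not R (fun p => p ∈ Ioc n (n + H))] at a2
      have a3 : ∑ p ∈ R.filter (fun p => p ∈ Ioc n (n + H)),
          2 * L * fej (TT N) (Real.log p - Real.log t) ≤
          ∑ p ∈ P, 2 * L * fej (TT N) (Real.log p - Real.log t) :=
        sum_le_sum_of_subset_of_nonneg (fun p hp => mem_filter.2 ⟨(mem_filter.1 hp).2,
          (mem_filter.1 (mem_filter.1 hp).1).2⟩) fun _ _ _ =>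
            mul_nonneg (by positivity) (hF _ _ hT1).1
      have hfar : ∀ p ∈ R.filter (fun p => ¬ p ∈ Ioc n (n + H)), p + g < t ∨ t + g < p :=
        fun p hp => by
          have := (mem_filter.1 hp).2
          rw [mem_Ioc] at this
          omega
      have a4 : ∑ p ∈ R.filter (fun p => ¬ p ∈ Ioc n (n + H)),
          2 * L * fej (TT N) (Real.log p - Real.log t) ≤
          2 * L * (320 * (N : ℝ) ^ 2 / TT N) * (2 / g) := by
        refine le_trans ?_ (mul_le_mul_of_nonneg_left (tail2 _ t (by omega) hfar) (by positivity))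
        rw [mul_sum]
        refine sum_le_sum fun p hp => ?_
        rw [mul_assoc (2 * L)]
        exact mul_le_mul_of_nonneg_left (fej_le hF hT1 (mem_filter.1 (mem_filter.1 hp).1).1 t1
          (by have := hfar p hp; omega)) (by positivity)
      have a5 : 2 * L * (320 * (N : ℝ) ^ 2 / TT N) * (2 / g) ≤ c * N / (2 * L) := by
        have b1 : (N : ℝ) * L ^ 5 ≤ TT N * (8 * g) := by
          calc _ = √(N : ℝ) * L ^ 5 * √(N : ℝ) := by
                rw [mul_right_comm, Real.mul_self_sqrt hN0.le]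
            _ ≤ _ := by gcongr
        have b2 : 20480 ≤ c * L ^ 3 := by
          rw [div_le_iff₀ hc] at hLc
          have : L ≤ L ^ 3 := le_self_pow₀ (by linarith) (by norm_num)
          nlinarith
        rw [show 2 * L * (320 * (N : ℝ) ^ 2 / TT N) * (2 / g) =
          1280 * L * (N : ℝ) ^ 2 / (TT N * g) by field_simp; ring,
          div_le_div_iff₀ (by positivity) (by positivity)]
        calc _ = 20480 * (N * (N * L ^ 2)) / 8 := by ring
          _ ≤ c * L ^ 3 * (N * (N * L ^ 2)) / 8 := by gcongr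
          _ = c * N * (N * L ^ 5) / 8 := by ring
          _ ≤ c * N * (TT N * (8 * g)) / 8 := by gcongr
          _ = _ := by ring
      have a6 : c * N / L = 2 * (c * N / (2 * L)) := by field_simp
      linarith
    have h2 : (G.card : ℝ) * (c * N / (2 * L)) ≤ P.card * (2 * L * (650 * N)) := by
      rw [← nsmul_eq_mul, ← nsmul_eq_mul]
      refine (card_nsmul_le_sum _ _ _ h1).trans ?_
      rw [sum_comm]
      refine sum_le_card_nsmul _ _ _ fun p hp => ?_
      rw [← mul_sum]
      exact mul_le_mul_of_nonneg_left (fej_tot hF hT1 hTN (hPI hp) hGI) (by positivity)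
    have h3 : (P.card : ℝ) * (2 * L * (650 * N)) < c / 20800 * H / L ^ 2 * (2 * L * (650 * N)) :=
      mul_lt_mul_of_pos_right n2 (by positivity)
    have h4 : c / 20800 * H / L ^ 2 * (2 * L * (650 * N)) = H / 8 * (c * N / (2 * L)) := by
      field_simp
      ring
    have h5 : (H : ℝ) / 8 * (c * N / (2 * L)) ≤ G.card * (c * N / (2 * L)) :=
      mul_le_mul_of_nonneg_right (by linarith) (by positivity)
    linarith
  refine (Nat.cast_le.2 (card_le_card hsub)).trans ?_
  have h6 := hM.trans (mul_le_mul_of_nonneg_right hA g0.le)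
  have h7 : (N : ℝ) / L ^ (B + 1) * g ≤ N / L ^ B * (g / 2) := by
    rw [pow_succ, ← div_div, div_mul_eq_mul_div, mul_div_assoc]
    gcongr
  exact le_of_mul_le_mul_right (h6.trans h7) (by positivity)

end Pool.Agent.MP_436a94_nt.E

end
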