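import Pool.Agent.Mg.F436a94p.Gb8cf27
import Pool.Agent.MP_357fb4_an.BoxFL

set_option linter.all false

section

/-!
An upper bound sieve of dimension two in a progression.
-/

set_option autoImplicit false

open Finset
open scoped Classical

namespace Pool.Agent.MP_436a94_nt.E

open Pool.Agent.GT Pool.Agent.MP_357fb4_an

/-- the coefficients of the two forms -/
def cc : Bool → Unit → ℤ := fun _ _ => 1

/-- the constant terms of the two forms -/
def bb (m : ℕ) : Bool → ℤ := fun i => if i then m else m - 1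

lemma Z_iff (Q m p : ℕ) (x : Unit → ZMod p) : BoxFL_Z cc Q (bb m) p x ↔
    (Q : ZMod p) * x () + m = 0 ∨ (Q : ZMod p) * x () + (m - 1) = 0 := by
  simp [BoxFL_Z, cc, bb, or_comm]

lemma g_zero {Q m p : ℕ} [NeZero p] (hm : 1 ≤ m) (hQ : p ∣ Q) (h1 : ¬ p ∣ m)
    (h2 : ¬ p ∣ m - 1) : pr (BoxFL_Z cc Q (bb m) p) = 0 := by
  refine pr_of_forall_not fun x => ?_
  rw [Z_iff, (ZMod.natCast_eq_zero_iff Q p).2 hQ, zero_mul, zero_add, zero_add]
  rintro (h | h)
  · exact h1 ((ZMod.natCast_eq_zero_iff m p).1 h)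
  · refine h2 ((ZMod.natCast_eq_zero_iff _ p).1 ?_)
    rw [Nat.cast_sub hm, Nat.cast_one, h]

lemma g_two {Q m p : ℕ} (hp : p.Prime) (hQ : ¬ p ∣ Q) :
    pr (BoxFL_Z cc Q (bb m) p) = 2 / p := by
  have := Fact.mk hp
  have h0 : (Q : ZMod p) ≠ 0 := fun h => hQ ((ZMod.natCast_eq_zero_iff Q p).1 h)
  rw [pr_eq_card]
  have e : univ.filter (BoxFL_Z cc Q (bb m) p) =
      {fun _ => -(m : ZMod p) / Q, fun _ => -((m : ZMod p) - 1) / Q} := by
    ext x
    rw [mem_filter, Z_iff, mem_insert, mem_singleton]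
    have k : ∀ c : ZMod p, (Q : ZMod p) * x () + c = 0 ↔ x = fun _ => -c / Q := fun c => by
      constructor
      · intro h
        funext u
        rw [eq_div_iff h0]
        linear_combination h
      · intro h
        rw [h]
        field_simp
        ring
    simp only [mem_univ, true_and, k]
  rw [e, card_pair]
  · simp
  · intro h
    have := congrFun h ()
    rw [div_left_inj' h0] at this
    exact one_ne_zero (α := ZMod p) (by linear_combination -this)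

theorem s_Up : StUp := by
  obtain ⟨C, hC⟩ := prime_recip
  obtain ⟨k₀, hk₀⟩ := fl (2 * C)
  refine ⟨8 * (k₀ + 3) + 15, fun x h Q z m₀ hx hQ hz => ?_⟩
  set k := k₀ + 3 with hk
  set A := (Ioc x (x + h)).filter fun m => m ≡ m₀ [MOD Q] ∧
      ∀ l : ℕ, l.Prime → 5 ≤ l → l ≤ z → ¬ l ∣ m ∧ ¬ l ∣ m - 1 with hA
  set V := ∏ l ∈ (Icc 5 z).filter (fun l => l.Prime ∧ ¬ l ∣ Q), (1 - 2 / (l : ℝ)) with hV
  have h25 : ∀ l : ℕ, 5 ≤ l → 2 / (l : ℝ) ≤ 1 / 2 := fun l hl => by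
    have : (5 : ℝ) ≤ l := by exact_mod_cast hl
    rw [div_le_iff₀ (by linarith)]
    linarith
  have hV0 : 0 ≤ V := prod_nonneg fun l hl => by
    have := h25 l (mem_Icc.1 (mem_filter.1 hl).1).1
    linarith
  rcases A.eq_empty_or_nonempty with e | hne
  · rw [e, card_empty, Nat.cast_zero]
    positivity
  obtain ⟨m, hm, hmin⟩ := exists_min_image A id hne
  obtain ⟨m1, m2, m3⟩ := mem_filter.1 hm
  rw [mem_Ioc] at m1
  set H := h / Q + 1 with hH
  have hH1 : 1 ≤ H := Nat.le_add_left _ _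
  have : Nonempty (Fin H) := ⟨⟨0, hH1⟩⟩
  have : ∀ p : PP 4 z, NeZero (p : ℕ) := fun p => ⟨(MBasic_prime p).ne_zero⟩
  have hg : ∀ p : PP 4 z, pr (BoxFL_Z cc Q (bb m) (p : ℕ)) =
      if (p : ℕ) ∣ Q then 0 else 2 / ((p : ℕ) : ℝ) := fun p => by
    split_ifs with hd
    · obtain ⟨a1, a2⟩ := m3 p (MBasic_prime p) (MBasic_lt p) (MBasic_le p)
      exact g_zero (by omega) hd a1 a2
    · exact g_two (MBasic_prime p) hd
  have hg2 : ∀ p : PP 4 z, pr (BoxFL_Z cc Q (bb m) (p : ℕ)) ≤ 2 * (1 / ((p : ℕ) : ℝ)) :=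
    fun p => by
      rw [hg, mul_one_div]
      split_ifs
      · positivity
      · exact le_rfl
  have h1 := hk₀ k (by omega) (Unit → Fin H) (PP 4 z)
    (fun p t => BoxFL_E cc Q (bb m) (p : ℕ) fun v => ((t v : ℕ) : ℤ))
    (fun p => pr (BoxFL_Z cc Q (bb m) (p : ℕ))) (fun p => Nat.log 2 (Nat.log p z)) z
    ((z : ℝ) ^ (4 * k + 6) * (2 * Fintype.card Unit * (z : ℝ) ^ (4 * k + 6) / H))
    (fun p => ⟨pr_nonneg _, (hg2 p).trans (by rw [mul_one_div]; exact h25 _ (MBasic_lt p))⟩)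
    (fun p => lt_of_le_of_lt (Nat.log_le_self _ _) (Nat.log_lt_self _ (by omega)))
    (fun j => (sum_le_sum fun p _ => hg2 p).trans (by
      rw [← mul_sum]
      exact mul_le_mul_of_nonneg_left (BoxFL_block hC 4 z j (by omega)) (by positivity)))
    (by convert BoxFL_sum (w := 4) (k := k) (show 1 ≤ z by omega) hH1 cc Q (bb m))
  have hP : ∏ p : PP 4 z, (1 - pr (BoxFL_Z cc Q (bb m) (p : ℕ))) = V := by
    have e1 : ∏ p : PP 4 z, (1 - pr (BoxFL_Z cc Q (bb m) (p : ℕ))) =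
        ∏ p : PP 4 z, (if ¬ (p : ℕ) ∣ Q then 1 - 2 / ((p : ℕ) : ℝ) else 1) :=
      prod_congr rfl fun p _ => by
        rw [hg]
        split_ifs <;> simp
    rw [e1, prod_coe_sort (PP 4 z) fun p => if ¬ p ∣ Q then 1 - 2 / (p : ℝ) else 1,
      ← prod_filter, hV, PP, filter_filter]
    rfl
  rw [hP] at h1
  set R := pr (fun t : Unit → Fin H => ∀ p : PP 4 z,
    ¬ BoxFL_E cc Q (bb m) (p : ℕ) fun v => ((t v : ℕ) : ℤ)) with hR
  have hH0 : (0 : ℝ) < H := by exact_mod_cast hH1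
  have h2 : (A.card : ℝ) ≤ R * H := by
    rw [hR, pr_eq_card]
    have e : (Fintype.card (Unit → Fin H) : ℝ) = H := by simp
    rw [e, div_mul_cancel₀ _ hH0.ne', Nat.cast_le]
    have hd : ∀ n ∈ A, m ≤ n ∧ n ≤ x + h ∧ Q * ((n - m) / Q) + m = n := fun n hn => by
      have a1 : m ≤ n := hmin n hn
      obtain ⟨n1, n2, -⟩ := mem_filter.1 hn
      refine ⟨a1, (mem_Ioc.1 n1).2, ?_⟩
      rw [Nat.mul_div_cancel' ((Nat.modEq_iff_dvd' a1).1 (m2.trans n2.symm))]
      omega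
    have hlt : ∀ n ∈ A, (n - m) / Q < H := fun n hn => by
      obtain ⟨a1, a2, -⟩ := hd n hn
      exact Nat.lt_succ_of_le (Nat.div_le_div_right (by omega))
    refine card_le_card_of_injOn (fun n _ => ⟨(n - m) / Q % H, Nat.mod_lt _ hH1⟩)
      (fun n hn => ?_) fun n hn n' hn' e => ?_
    · rw [mem_coe] at hn
      obtain ⟨a1, a2, a3⟩ := hd n hn
      obtain ⟨-, -, n3⟩ := mem_filter.1 hn
      simp only [coe_filter, mem_univ, true_and, Set.mem_ofPred_eq]
      intro p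
      obtain ⟨b1, b2⟩ := n3 p (MBasic_prime p) (MBasic_lt p) (MBasic_le p)
      rw [Nat.mod_eq_of_lt (hlt n hn)]
      have a4 : (Q : ℤ) * (((n - m) / Q : ℕ) : ℤ) + m = n := by exact_mod_cast a3
      rintro ⟨i, hi⟩
      cases i
      · refine b2 (Int.natCast_dvd_natCast.1 ?_)
        rw [Nat.cast_sub (by omega), ← a4]
        simpa [cc, bb, add_sub_assoc] using hi
      · refine b1 (Int.natCast_dvd_natCast.1 ?_)
        rw [← a4]
        simpa [cc, bb] using hi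
    · rw [mem_coe] at hn hn'
      have e2 := congrArg Fin.val (congrFun e ())
      simp only at e2
      rw [Nat.mod_eq_of_lt (hlt n hn), Nat.mod_eq_of_lt (hlt n' hn')] at e2
      rw [← (hd n hn).2.2, ← (hd n' hn').2.2, e2]
  have h3 : (H : ℝ) ≤ (h : ℝ) / Q + 1 := by
    rw [hH]
    push_cast
    linarith [Nat.cast_div_le (α := ℝ) (m := h) (n := Q)]
  have hz' : (2 : ℝ) ≤ z := by exact_mod_cast hz
  have h4 : (8 : ℝ) / 2 ^ k ≤ 1 := by
    rw [div_le_one (by positivity), hk, pow_add]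
    have : (1 : ℝ) ≤ 2 ^ k₀ := one_le_pow₀ (by norm_num)
    linarith
  have h5 : ((z : ℝ) + 1) * ((z : ℝ) ^ (4 * k + 6) *
      (2 * Fintype.card Unit * (z : ℝ) ^ (4 * k + 6) / H)) * H ≤ (z : ℝ) ^ (8 * k + 15) := by
    have a1 : (z : ℝ) + 1 ≤ z ^ 2 := by nlinarith
    calc _ = ((z : ℝ) + 1) * 2 * (z : ℝ) ^ (8 * k + 12) := by
          simp only [Fintype.card_unit, Nat.cast_one]
          field_simp
          ring
      _ ≤ (z : ℝ) ^ 2 * z * (z : ℝ) ^ (8 * k + 12) := by gcongr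
      _ = _ := by ring
  have h6 : R ≤ 2 * V + ((z : ℝ) + 1) * ((z : ℝ) ^ (4 * k + 6) *
      (2 * Fintype.card Unit * (z : ℝ) ^ (4 * k + 6) / H)) := by
    have := (abs_le.1 h1).2
    nlinarith
  have h7 := mul_le_mul_of_nonneg_right h6 hH0.le
  have h8 := mul_le_mul_of_nonneg_left h3 hV0
  nlinarith

end Pool.Agent.MP_436a94_nt.E

end

section

/-!
Rough primes of a short interval with a prescribed pattern of quadratic residues.
-/

set_option autoImplicit false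

open Finset
open scoped Classical

namespace Pool.Agent.MP_436a94_nt.E

open Pool.Agent.GT Pool.Agent.MP_357fb4_an

/-- the admissible classes with a given quadratic character -/
noncomputable def Cl (l : ℕ) (x : ZMod 2) : Finset ℕ :=
  (range l).filter fun r => (r : ZMod l) ≠ 0 ∧ (r : ZMod l) ≠ 1 ∧ nr r l = x

lemma card_range_eq {l : ℕ} [NeZero l] (P : ZMod l → Prop) [DecidablePred P] :
    ((range l).filter fun r : ℕ => P r).card = (univ.filter P).card := by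
  refine card_nbij (fun r : ℕ => (r : ZMod l)) (fun r hr => ?_) (fun r hr r' hr' e => ?_)
    fun y hy => ?_
  · simpa using (mem_filter.1 hr).2
  · have h1 := mem_range.1 (mem_filter.1 hr).1
    have h2 := mem_range.1 (mem_filter.1 hr').1
    simp only at e
    rwa [ZMod.natCast_eq_natCast_iff', Nat.mod_eq_of_lt h1, Nat.mod_eq_of_lt h2] at e
  · refine ⟨y.val, mem_filter.2 ⟨mem_range.2 (ZMod.val_lt y), ?_⟩, by simp⟩
    simpa using hy

lemma card_Cl {l : ℕ} (hl : l.Prime) (h5 : 5 ≤ l) :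
    2 * (Cl l 0).card + 3 = l ∧ 2 * (Cl l 1).card + 1 = l := by
  have := Fact.mk hl
  have e0 : (Cl l 0).card =
      (univ.filter fun y : ZMod l => y ≠ 0 ∧ y ≠ 1 ∧ IsSquare y).card := by
    rw [← card_range_eq, Cl]
    congr 1
    refine filter_congr fun r _ => ?_
    rw [nr_zero, Int.cast_natCast]
  have e1 : (Cl l 1).card = (univ.filter fun y : ZMod l => ¬ IsSquare y).card := by
    rw [← card_range_eq, Cl]
    congr 1
    refine filter_congr fun r _ => ?_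
    rw [nr_one, Int.cast_natCast]
    refine ⟨fun h => h.2.2, fun h => ⟨fun e => h ?_, fun e => h ?_, h⟩⟩
    · rw [e]; exact IsSquare.zero
    · rw [e]; exact IsSquare.one
  set A := univ.filter fun y : ZMod l => y ≠ 0 ∧ y ≠ 1 ∧ IsSquare y with hA
  set B := univ.filter fun y : ZMod l => ¬ IsSquare y with hB
  have hu : (univ : Finset (ZMod l)) = insert 0 (insert 1 (A ∪ B)) := by
    ext y
    simp only [mem_univ, mem_insert, mem_union, hA, hB, mem_filter, true_and, true_iff]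
    tauto
  have n0 : (0 : ZMod l) ∉ insert 1 (A ∪ B) := by simp [hA, hB]
  have n1 : (1 : ZMod l) ∉ A ∪ B := by simp [hA, hB]
  have hd : Disjoint A B := disjoint_left.2 fun y h1 h2 =>
    (mem_filter.1 h2).2 (mem_filter.1 h1).2.2.2
  have c1 : l = A.card + B.card + 1 + 1 := by
    rw [← card_union_of_disjoint hd, ← card_insert_of_notMem n1, ← card_insert_of_notMem n0, ← hu,
      card_univ, ZMod.card]
  have c2 := quadraticChar_sum_zero (F := ZMod l) (by rw [ZMod.ringChar_zmod_n]; omega)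
  rw [hu, sum_insert n0, sum_insert n1, sum_union hd, quadraticChar_zero, map_one,
    sum_congr rfl (g := fun _ => (1 : ℤ)) fun y hy => (quadraticChar_one_iff_isSquare
      (mem_filter.1 hy).2.1).2 (mem_filter.1 hy).2.2.2,
    sum_congr rfl (s₁ := B) (g := fun _ => (-1 : ℤ)) fun y hy =>
      quadraticChar_neg_one_iff_not_isSquare.2 (mem_filter.1 hy).2] at c2
  simp only [sum_const, nsmul_eq_mul, mul_one, mul_neg] at c2
  omega

lemma mertens {z : ℕ} (hz : 3 ≤ z) :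
    ∏ l ∈ (Icc 5 z).filter Nat.Prime, (1 - 2 / (l : ℝ)) ≤ 9 / Real.log z ^ 2 := by
  have h1 : ∏ l ∈ (Icc 5 z).filter Nat.Prime, (1 - 2 / (l : ℝ)) ≤
      ∏ l ∈ (Icc 5 z).filter Nat.Prime, (1 - 1 / (l : ℝ)) ^ 2 := by
    refine prod_le_prod (fun l hl => ?_) fun l _ => ?_
    · have : (5 : ℝ) ≤ l := by exact_mod_cast (mem_Icc.1 (mem_filter.1 hl).1).1
      rw [sub_nonneg, div_le_one (by linarith)]
      linarith
    · have : 2 / (l : ℝ) = 2 * (1 / l) := by ring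
      nlinarith [sq_nonneg (1 / (l : ℝ))]
  have h2 : PI 0 z = insert 2 (insert 3 ((Icc 5 z).filter Nat.Prime)) := by
    ext l
    simp only [Nu_mem, mem_insert, mem_filter, mem_Icc]
    constructor
    · rintro ⟨a, b, c⟩
      have := c.two_le
      have h4 : l ≠ 4 := fun e => by
        rw [e] at c
        exact absurd c (by norm_num)
      by_cases h : 5 ≤ l
      · exact Or.inr (Or.inr ⟨⟨h, b⟩, c⟩)
      · omega
    · rintro (rfl | rfl | ⟨⟨a, b⟩, c⟩)
      · exact ⟨by norm_num, by omega, Nat.prime_two⟩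
      · exact ⟨by norm_num, by omega, Nat.prime_three⟩
      · exact ⟨by omega, b, c⟩
  have h3 : ∏ l ∈ (Icc 5 z).filter Nat.Prime, (1 - 1 / (l : ℝ)) = 3 * Vp 0 z := by
    rw [Vp, h2, prod_insert (by simp), prod_insert (by simp)]
    push_cast
    ring
  have hz' : (3 : ℝ) ≤ z := by exact_mod_cast hz
  have h4 : 0 < Real.log z := Real.log_pos (by linarith)
  have h5 : Vp 0 z ≤ 1 / Real.log z := by
    rw [one_div, le_inv_comm₀ (Vp_pos 0 z) h4]
    exact (Real.log_le_log (by linarith) (by linarith)).trans (log_le_inv_Vp z)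
  rw [prod_pow, h3] at h1
  refine h1.trans ?_
  have h6 := pow_le_pow_left₀ (Vp_pos 0 z).le h5 2
  calc _ = 9 * Vp 0 z ^ 2 := by ring
    _ ≤ 9 * (1 / Real.log z) ^ 2 := by linarith
    _ = _ := by ring

lemma prod_split {T : Finset ℕ} (hT : ∀ l ∈ T, l.Prime ∧ 5 ≤ l) (z : ℕ) :
    (∏ l ∈ T, (1 - 2 / (l : ℝ))) *
      ∏ l ∈ (Icc 5 z).filter (fun l => l.Prime ∧ ¬ l ∣ ∏ l ∈ T, l), (1 - 2 / (l : ℝ)) ≤
      ∏ l ∈ (Icc 5 z).filter Nat.Prime, (1 - 2 / (l : ℝ)) := by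
  have h01 : ∀ l : ℕ, 5 ≤ l → 0 ≤ 1 - 2 / (l : ℝ) ∧ 1 - 2 / (l : ℝ) ≤ 1 := fun l hl => by
    have : (5 : ℝ) ≤ l := by exact_mod_cast hl
    constructor
    · rw [sub_nonneg, div_le_one (by linarith)]
      linarith
    · have : 0 ≤ 2 / (l : ℝ) := by positivity
      linarith
  rw [← prod_union]
  · refine prod_le_prod_of_subset_of_le_one (fun l hl => ?_) (fun l hl => ?_) fun l hl _ => ?_
    · by_cases h : l ∈ T
      · exact mem_union_left _ h
      · obtain ⟨a, b⟩ := mem_filter.1 hl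
        refine mem_union_right _ (mem_filter.2 ⟨a, b, fun hd => h ?_⟩)
        obtain ⟨q, hq, hd⟩ := (Prime.dvd_finsetProd_iff b.prime _).1 hd
        rwa [(Nat.prime_dvd_prime_iff_eq b (hT q hq).1).1 hd]
    · rcases mem_union.1 hl with h | h
      · exact (h01 l (hT l h).2).1
      · exact (h01 l (mem_Icc.1 (mem_filter.1 h).1).1).1
    · rcases mem_union.1 hl with h | h
      · exact (h01 l (hT l h).2).2
      · exact (h01 l (mem_Icc.1 (mem_filter.1 h).1).1).2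
  · exact disjoint_left.2 fun l h1 h2 => (mem_filter.1 h2).2.2 (dvd_prod_of_mem _ h1)

theorem s_Cnt (hRec : StRec) (hPat : StPat) (hUp : StUp) : StCnt := by
  obtain ⟨κ, hκ⟩ := hRec
  obtain ⟨A, hA⟩ := hUp
  refine ⟨A, fun x h z Z zz S v hz hzz hZz hZx hzx hZ hI hS hh => ?_⟩
  have hS0 : ∀ a ∈ S, a.natAbs ≠ 0 := fun a ha => Int.natAbs_ne_zero.2 (hI.ne_zero ha)
  have hW0 : ∏ a ∈ S, a.natAbs ≠ 0 := prod_ne_zero_iff.2 hS0
  set T := (∏ a ∈ S, a.natAbs).primeFactors.filter (5 ≤ ·) with hT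
  have hT1 : ∀ l ∈ T, l.Prime ∧ 5 ≤ l := fun l hl =>
    ⟨Nat.prime_of_mem_primeFactors (mem_filter.1 hl).1, (mem_filter.1 hl).2⟩
  have hT2 : ∀ l ∈ T, l ≤ Z := fun l hl => by
    obtain ⟨a, ha, hd⟩ := (Prime.dvd_finsetProd_iff (hT1 l hl).1.prime _).1
      (Nat.dvd_of_mem_primeFactors (mem_filter.1 hl).1)
    exact (Nat.le_of_dvd (Nat.pos_of_ne_zero (hS0 a ha)) hd).trans (hS a ha)
  have hT3 : ∀ a ∈ S, ∀ l : ℕ, l.Prime → 5 ≤ l → l ∣ a.natAbs → l ∈ T := fun a ha l l1 l2 l3 =>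
    mem_filter.2 ⟨Nat.mem_primeFactors.2 ⟨l1, l3.trans (dvd_prod_of_mem _ ha), hW0⟩, l2⟩
  set Q := ∏ l ∈ T, l with hQ
  have hQ1 : 1 ≤ Q := prod_pos fun l hl => (hT1 l hl).1.pos
  have hQZ : Q ≤ Z ^ S.card :=
    (Nat.le_of_dvd (Nat.pos_of_ne_zero hW0) ((prod_dvd_prod_of_subset _ _ _
      (filter_subset _ _)).trans (Nat.prod_primeFactors_dvd _))).trans (prod_le_pow_card _ _ _ hS)
  set V := ∏ l ∈ (Icc 5 z).filter (fun l => l.Prime ∧ ¬ l ∣ Q), (1 - 2 / (l : ℝ)) with hV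
  set U := 2 * ((h : ℝ) / Q + 1) * V + (z : ℝ) ^ A with hU
  have hV0 : 0 ≤ V := prod_nonneg fun l hl => by
    have : (5 : ℝ) ≤ l := by exact_mod_cast (mem_Icc.1 (mem_filter.1 hl).1).1
    rw [sub_nonneg, div_le_one (by linarith)]
    linarith
  have hU0 : 0 ≤ U := by positivity
  set G : (T → ℕ) → Finset ℕ := fun c => (Ioc x (x + h)).filter fun m =>
    (∀ l : T, m % l = c l) ∧ ∀ l : ℕ, l.Prime → 5 ≤ l → l ≤ z → ¬ l ∣ m ∧ ¬ l ∣ m - 1 with hG
  have hGU : ∀ c, ((G c).card : ℝ) ≤ U := fun c => by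
    rcases (G c).eq_empty_or_nonempty with e | ⟨m₀, hm⟩
    · rw [e, card_empty, Nat.cast_zero]
      exact hU0
    refine le_trans (Nat.cast_le.2 (card_le_card fun m hm' => ?_))
      (hA x h Q z m₀ (by omega) hQ1 (by omega))
    obtain ⟨m1, m2, m3⟩ := mem_filter.1 hm'
    refine mem_filter.2 ⟨m1, ?_, m3⟩
    rw [Nat.modEq_iff_dvd, hQ, Nat.cast_prod]
    refine prod_dvd_of_coprime (fun l hl l' hl' hne => ?_) fun l hl => ?_
    · exact Nat.isCoprime_iff_coprime.2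
        ((Nat.coprime_primes (hT1 l hl).1 (hT1 l' hl').1).2 hne)
    · exact Nat.modEq_iff_dvd.1 ((m2 ⟨l, hl⟩).trans ((mem_filter.1 hm).2.1 ⟨l, hl⟩).symm)
  set E : ℕ → Finset (T → ZMod 2) := fun c0 => univ.filter fun ε => ∀ a ∈ S,
    ∑ l : T, (a.natAbs.factorization l : ZMod 2) * ε l = v a - κ a c0 with hE
  have hsub : ((Ioc x (x + h)).filter fun p => Rg zz p ∧ ∀ a ∈ S, nr a p = v a) ⊆
      (range 24).biUnion fun c0 => (E c0).biUnion fun ε =>
        (Fintype.piFinset fun l : T => Cl l (ε l)).biUnion G := by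
    intro p hp
    obtain ⟨p1, ⟨pp, p4, pr⟩, pv⟩ := mem_filter.1 hp
    have px := (mem_Ioc.1 p1).1
    have hnd : ∀ l : ℕ, l.Prime → 5 ≤ l → l ≤ x → (l : ℝ) ≤ zz → ¬ l ∣ p ∧ ¬ l ∣ p - 1 :=
      fun l l1 l2 l3 l4 => ⟨fun hd => by
        have := (Nat.prime_dvd_prime_iff_eq l1 pp).1 hd
        omega, fun hd => by
        rcases pr l l1 hd with e | e
        · omega
        · linarith⟩
    refine mem_biUnion.2 ⟨p % 24, mem_range.2 (Nat.mod_lt _ (by norm_num)),
      mem_biUnion.2 ⟨fun l => nr p l, mem_filter.2 ⟨mem_univ _, fun a ha => ?_⟩,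
        mem_biUnion.2 ⟨fun l => p % l, Fintype.mem_piFinset.2 fun l => ?_,
          mem_filter.2 ⟨p1, fun _ => rfl, fun l l1 l2 l3 => hnd l l1 l2 (l3.trans hzx)
            ((Nat.cast_le.2 l3).trans hzz)⟩⟩⟩⟩
    · have := hκ a p T (hI.ne_zero ha) pp p4 (by omega) (by have := hS a ha; omega) (hT3 a ha)
        fun l hl => (hT1 l hl).2
      rw [← pv a ha, this, sum_coe_sort T fun l => (a.natAbs.factorization l : ZMod 2) * nr p l]
      ring
    · obtain ⟨l1, l2⟩ := hT1 l l.2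
      obtain ⟨d1, d2⟩ := hnd l l1 l2 ((hT2 l l.2).trans hZx)
        ((Nat.cast_le.2 (hT2 l l.2)).trans hZz)
      refine mem_filter.2 ⟨mem_range.2 (Nat.mod_lt _ l1.pos), ?_, ?_, nr_same ?_⟩
      · rw [ZMod.natCast_mod]
        exact fun e => d1 ((ZMod.natCast_eq_zero_iff _ _).1 e)
      · rw [ZMod.natCast_mod]
        refine fun e => d2 ((ZMod.natCast_eq_zero_iff _ _).1 ?_)
        rw [Nat.cast_sub pp.one_le, e, Nat.cast_one, sub_self]
      · rw [Int.cast_natCast, Int.cast_natCast, ZMod.natCast_mod]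
  have hw : ∀ l : T, ((Cl l 0).card : ℝ) + (Cl l 1).card = (l : ℕ) - 2 := fun l => by
    obtain ⟨a, b⟩ := card_Cl (hT1 l l.2).1 (hT1 l l.2).2
    have a' : 2 * ((Cl l 0).card : ℝ) + 3 = (l : ℕ) := by exact_mod_cast a
    have b' : 2 * ((Cl l 1).card : ℝ) + 1 = (l : ℕ) := by exact_mod_cast b
    linarith
  have hpat : ∀ c0, ∑ ε ∈ E c0, ∏ l : T, ((Cl l (ε l)).card : ℝ) ≤
      (2 / 3) ^ S.card * ∏ l ∈ T, ((l : ℝ) - 2) := fun c0 => by
    have := hPat T ℤ (fun l x => ((Cl l x).card : ℝ)) (fun l y => ⟨Nat.cast_nonneg _, by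
      obtain ⟨a, b⟩ := card_Cl (hT1 l l.2).1 (hT1 l l.2).2
      have c := (hT1 l l.2).2
      have : 3 * (Cl l y).card ≤ 2 * ((Cl l 0).card + (Cl l 1).card) := by
        rcases z2 y with rfl | rfl <;> omega
      have : 3 * ((Cl l y).card : ℝ) ≤ 2 * ((Cl l 0).card + (Cl l 1).card) := by
        exact_mod_cast this
      linarith⟩) S (fun a l => (a.natAbs.factorization l : ZMod 2)) (fun a => v a - κ a c0)
      fun S' hS' hn e => by
        obtain ⟨l, l1, l2⟩ := hI S' hS' hn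
        obtain ⟨a, ha, h0⟩ := exists_ne_zero_of_sum_ne_zero l2.pos.ne'
        have h1 : l ∈ a.natAbs.primeFactors := by
          rwa [← Nat.support_factorization, Finsupp.mem_support_iff]
        have h2 := congrFun e ⟨l, hT3 a (hS' ha) l (Nat.prime_of_mem_primeFactors h1) l1
          (Nat.dvd_of_mem_primeFactors h1)⟩
        rw [Finset.sum_apply, ← Nat.cast_sum, ZMod.natCast_eq_one_iff_odd.2 l2] at h2
        exact one_ne_zero h2
    simp only [hw] at this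
    rw [prod_coe_sort T fun l => (l : ℝ) - 2] at this
    exact le_trans (le_of_eq (sum_congr (by ext; simp only [hE, mem_filter, mem_univ])
      fun _ _ => rfl)) this
  have h1 : ((((Ioc x (x + h)).filter fun p => Rg zz p ∧ ∀ a ∈ S, nr a p = v a).card : ℕ) : ℝ) ≤
      24 * ((2 / 3) ^ S.card * (∏ l ∈ T, ((l : ℝ) - 2)) * U) := by
    refine (Nat.cast_le.2 ((card_le_card hsub).trans (card_biUnion_le.trans
      (sum_le_sum fun c0 _ => card_biUnion_le.trans
        (sum_le_sum fun ε _ => card_biUnion_le))))).trans ?_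
    push_cast
    refine (sum_le_card_nsmul _ _ _ fun c0 _ => ?_).trans (by rw [card_range, nsmul_eq_mul]; rfl)
    refine le_trans ?_ (mul_le_mul_of_nonneg_right (hpat c0) hU0)
    rw [sum_mul]
    refine sum_le_sum fun ε _ => (sum_le_card_nsmul _ _ _ fun c _ => hGU c).trans ?_
    rw [Fintype.card_piFinset, nsmul_eq_mul, Nat.cast_prod]
  have hQ0 : (0 : ℝ) < Q := by exact_mod_cast hQ1
  have hP : ∏ l ∈ T, ((l : ℝ) - 2) = Q * ∏ l ∈ T, (1 - 2 / (l : ℝ)) := by
    rw [hQ, Nat.cast_prod, ← prod_mul_distrib]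
    refine prod_congr rfl fun l hl => ?_
    have : (l : ℝ) ≠ 0 := by exact_mod_cast (hT1 l hl).1.ne_zero
    field_simp
  set P := ∏ l ∈ T, (1 - 2 / (l : ℝ)) with hPd
  have hP0 : 0 ≤ P ∧ P ≤ 1 := by
    have : ∀ l ∈ T, 0 ≤ 1 - 2 / (l : ℝ) := fun l hl => by
      have : (5 : ℝ) ≤ l := by exact_mod_cast (hT1 l hl).2
      rw [sub_nonneg, div_le_one (by linarith)]
      linarith
    exact ⟨prod_nonneg this, prod_le_one this fun l _ => sub_le_self _ (by positivity)⟩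
  have h2 : P * V ≤ 9 / Real.log z ^ 2 := (prod_split hT1 z).trans (mertens hz)
  have hQh : (Q : ℝ) ≤ h := by exact_mod_cast hQZ.trans hh
  have hQZ' : (Q : ℝ) ≤ (Z : ℝ) ^ S.card := by exact_mod_cast hQZ
  have h3 : Q * P * (2 * ((h : ℝ) / Q + 1) * V) ≤ 36 * h / Real.log z ^ 2 := by
    calc _ = 2 * (h + Q) * (P * V) := by field_simp
      _ ≤ 2 * (h + h) * (9 / Real.log z ^ 2) := by
          have := mul_nonneg hP0.1 hV0
          gcongr
      _ = _ := by ring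
  have h4 : (2 / 3 : ℝ) ^ S.card * (Q * P * (z : ℝ) ^ A) ≤ (Z : ℝ) ^ S.card * (z : ℝ) ^ A := by
    have a1 : (2 / 3 : ℝ) ^ S.card ≤ 1 := pow_le_one₀ (by norm_num) (by norm_num)
    have := hP0.1
    calc _ ≤ 1 * ((Z : ℝ) ^ S.card * 1 * (z : ℝ) ^ A) := by gcongr; exact hP0.2
      _ = _ := by ring
  have h5 := mul_le_mul_of_nonneg_left h3 (show (0 : ℝ) ≤ (2 / 3) ^ S.card by positivity)
  rw [hP, hU] at h1
  calc _ ≤ _ := h1
    _ = 24 * ((2 / 3) ^ S.card * (Q * P * (2 * ((h : ℝ) / Q + 1) * V))) +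
        24 * ((2 / 3 : ℝ) ^ S.card * (Q * P * (z : ℝ) ^ A)) := by ring
    _ ≤ 24 * ((2 / 3) ^ S.card * (36 * h / Real.log z ^ 2)) +
        24 * ((Z : ℝ) ^ S.card * (z : ℝ) ^ A) := by gcongr
    _ = _ := by ring

end Pool.Agent.MP_436a94_nt.E

end
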