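import Pool.Agent.Mg.F436a94p.G66a334
import Pool.Agent.Mg.F436a94p.Gc4799f
import Pool.Agent.Mg.F436a94p.Gbd639d
import Pool.Agent.Mg.F436a94p.Gb564e4
import Pool.Agent.Mg.F436a94p.Ga1c80b

set_option linter.all false

section

/-!
The upper bound for pairs of primes in two front forms.
-/

open Finset Filter

namespace Pool.Agent.MP_43e117_nt.GP

open PG

theorem unif {P : ℕ → ℕ → ℕ → Prop} (H : ℕ)
    (h : ∀ x : ℕ, Ev (fun _ : Unit => x) fun w _ N => P x w N) :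
    Ew fun w N => ∀ x ≤ H, P x w N := by
  choose v hv using h
  refine ⟨(range (H + 1)).sup v, fun w hw => ?_⟩
  have h1 : ∀ x ∈ range (H + 1), ∀ᶠ N in atTop, P x w N := fun x hx => by
    refine hv x w ((le_sup hx).trans hw) ((WW w - 1) * x + 1) fun _ => ?_
    have e : (WW w - 1) * x + 1 + x = 1 + x * WW w := by
      obtain ⟨k, hk⟩ : ∃ k, WW w = k + 1 := ⟨WW w - 1, by have := WW_pos w; omega⟩
      rw [hk, Nat.add_sub_cancel]
      ring
    rw [e]
    exact (Nat.coprime_add_mul_right_left 1 _ x).2 (Nat.coprime_one_left _)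
  exact ((eventually_all_finset _).2 h1).mono fun N hN x hx =>
    hN x (mem_range_succ_iff.2 hx)

theorem s_Pair2 (hSB : StSB) (hSi : StSi) (hBF : StBF) (hEt : StEt) (hGA : StGA) (hU1 : StU12)
    (hL1 : StL12) (hU2 : StU22) (hU3 : StU32) (hU4 : StU4) (hW1 : StW1) (hW2 : StW2) (hGM : StGM) :
    StPair2 := by
  intro J _ _ H δ A h0 h1
  have hδ : δ < 1 / 4 := by linarith
  have hh : ∀ᶠ N : ℕ in atTop, N + N / 2 + H ≤ 2 * N := by
    filter_upwards [eventually_ge_atTop (2 * H)] with N hN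
    omega
  refine ((((((((((hU1 J H δ (1 / 10 ^ 11) A h0 h1 (by norm_num)).and
    (hL1 J H δ (1 / 1000) A h0 h1 (by norm_num))).and (hU2 J H δ A h0 h1)).and
    (hU3 J H δ (1 / 1000) A h0 h1 (by norm_num))).and
    (unif H fun x => hU4 Unit (fun _ => x) δ (1 / 1000) h0 h1 (by norm_num))).and 
    (unif H fun x => hGM Unit (fun _ => x) δ h0 h1)).and
    (Ew_RR ((hEt.and (hGA (1 / 1000) (by norm_num))).and hW1) hδ)).and
    (Ew_of 0 fun _ _ => (hBF δ h0 h1).and hh)).and (Ew_ge 2))).mono ?_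
  rintro w N ⟨⟨⟨⟨⟨⟨⟨⟨u1, l1⟩, u2⟩, u3⟩, u4⟩, gm⟩, ⟨et, ga⟩, w1⟩,
    ⟨b1, b2, -, -, b5, b6, -⟩, hN⟩, hw⟩ s i j hij hi hj C hC hLv
  have hr := fun p => ((hSi w (RR δ N) hw).1 p).1
  have hL : 0 < Real.log (RR δ N) := Real.log_pos (by exact_mod_cast b6)
  have hlog : ∀ m : ℕ, N < m → m ≤ 2 * N → Real.log m ≤ 802 * ee (RR δ N) := fun m m1 m2 =>
    (Real.log_le_log (by exact_mod_cast (by omega : 0 < m)) (by exact_mod_cast m2)).trans b2
  have g1 := ga _ le_rfl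
  have g2 := ga (109 * ee (RR δ N)) (by unfold ee; linarith)
  rw [max_eq_left hL.le] at g1
  rw [max_eq_left (by unfold ee; positivity)] at g2
  refine PairA.num (Sf := ∑ m ∈ IW N w (s.h j), fb w (RR δ N) m) (Nat.cast_nonneg _)
    (Nat.cast_pos.2 (Nat.totient_pos.2 (WW_pos w)))
    (sum_nonneg fun σ _ => mul_nonneg (hh_nonneg hr σ) (sq_nonneg _)) et.1 (VV_pos w) hL g1 g2 b2
    (Real.log_nonneg (by exact_mod_cast (by omega : 1 ≤ 2 * N))) (by unfold er; positivity) ?_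
    (u1 s i j hij hi hj C hC hLv) (l1 s i j hij hi hj C hC hLv) (u2 s i j hij hi hj C hC hLv)
    (u3 s i j hij hi hj C hC hLv) ?_
  · refine le_trans ?_ (sub_le_sub (u4 _ hj.2.1 ()) (gm _ hj.2.1 ()))
    rw [← sum_sub_distrib]
    refine sum_le_sum fun m hm => ?_
    have := mem_Ioc.1 (mem_filter.1 hm).1
    have h2 := hj.2.1
    exact (hW2 w _ m hw b6 (by omega) (hlog m (by omega) (by omega))).2.1
  · rw [← sum_sub_distrib, ← sum_sub_distrib, mul_sum, ← sum_sub_distrib]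
    refine sum_le_sum fun n hn => ?_
    have := mem_Ioc.1 (mem_filter.1 hn).1
    have h2 := hj.2.1
    have p1 := w1 (n + s.h j) (by omega)
    have p2 := (hW2 w _ (n + s.h j) hw b6 (by omega) (hlog _ (by omega) (by omega))).1
    have p3 : 0 ≤ th (n + s.h i) * s.P C n ^ 2 := by
      refine mul_nonneg ?_ (sq_nonneg _)
      unfold th
      split_ifs
      exacts [Real.log_natCast_nonneg _, le_rfl]
    nlinarith [mul_le_mul_of_nonneg_left p1 p3, mul_le_mul_of_nonneg_left p2 p3]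

end Pool.Agent.MP_43e117_nt.GP

end

section

/-!
The choice of the multidimensional sieve coefficients for live labels.
-/

open Finset Filter

noncomputable section

namespace Pool.Agent.MP_43e117_nt.GP

open PG FAA WTA
open MP_fdd1d3_nt (LL SS mem_SS LL_nonneg)

namespace MbA

theorem tele (m : ℕ) : ∏ n ∈ Icc 2 (m + 1), (1 + 1 / ((n : ℝ) - 1)) = m + 1 := by
  induction m with
  | zero => simp
  | succ m ih =>
    rw [prod_Icc_succ_top (by omega), ih]
    push_cast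
    rw [show (m : ℝ) + 1 + 1 - 1 = m + 1 by ring]
    field_simp

theorem small {w R : ℕ} {z : ℝ} (hz : 1 ≤ z) :
    LL (qq w R) (univ.filter fun p : Si w R => (p.1 : ℝ) ≤ z) ≤ 2 * z ∧
      ∏ p ∈ univ.filter (fun p : Si w R => (p.1 : ℝ) ≤ z), (1 + rr w R p) ≤ z := by
  constructor
  · have h1 := Chebyshev.theta_le_log4_mul_x (show 0 ≤ z by linarith)
    have h2 : Real.log 4 ≤ 2 := by
      rw [show (4 : ℝ) = 2 ^ 2 by norm_num, Real.log_pow]
      push_cast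
      linarith [Real.log_two_lt_d9]
    refine le_trans ?_ (h1.trans (mul_le_mul_of_nonneg_right h2 (by linarith)))
    rw [LL, Chebyshev.theta]
    refine le_trans (le_of_eq (sum_map _ (Function.Embedding.subtype _)
      fun p : ℕ => Real.log p).symm) (sum_le_sum_of_subset_of_nonneg (fun p hp => ?_)
        fun _ _ _ => Real.log_natCast_nonneg _)
    obtain ⟨x, hx, rfl⟩ := mem_map.1 hp
    exact mem_filter.2 ⟨mem_Ioc.2 ⟨(si_mem x).2.2.pos, Nat.le_floor (mem_filter.1 hx).2⟩,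
      (si_mem x).2.2⟩
  · obtain ⟨m, hm⟩ : ∃ m, ⌊z⌋₊ = m + 1 := ⟨⌊z⌋₊ - 1, by
      have : 1 ≤ ⌊z⌋₊ := Nat.le_floor (by simpa using hz)
      omega⟩
    have h1 : ((m + 1 : ℕ) : ℝ) ≤ z := hm ▸ Nat.floor_le (by linarith)
    push_cast at h1
    refine le_trans ?_ ((tele m).le.trans h1)
    have h0 : ∀ n ∈ Icc 2 (m + 1), (1 : ℝ) ≤ 1 + 1 / ((n : ℝ) - 1) := fun n hn => by
      have : (2 : ℝ) ≤ n := by exact_mod_cast (mem_Icc.1 hn).1
      exact le_add_of_nonneg_right (div_nonneg zero_le_one (by linarith))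
    have h2 : (univ.filter fun p : Si w R => (p.1 : ℝ) ≤ z).map (Function.Embedding.subtype _) ⊆
        Icc 2 (m + 1) := fun p hp => by
      obtain ⟨x, hx, rfl⟩ := mem_map.1 hp
      exact mem_Icc.2 ⟨(si_mem x).2.2.two_le, hm ▸ Nat.le_floor (mem_filter.1 hx).2⟩
    refine le_trans (le_of_eq (prod_map _ (Function.Embedding.subtype _)
      fun n : ℕ => 1 + 1 / ((n : ℝ) - 1)).symm) (prod_le_prod_of_subset_of_one_le h2
        (fun p hp => zero_le_one.trans (h0 p (h2 hp))) fun p hp _ => h0 p hp)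

theorem dead {w R : ℕ} {z Λ : ℝ} (hz : 1 < z) (Ir : Finset (Si w R))
    (h : ∑ p ∈ Ir, Real.log p.1 ≤ Λ) (hΛ : 6 * Λ ≤ z * Real.log z) :
    ∏ p ∈ Ir \ univ.filter (fun p : Si w R => (p.1 : ℝ) ≤ z), (1 + rr w R p) ≤ 3 / 2 := by
  have hl : 0 < Real.log z := Real.log_pos hz
  have hp : 0 < z * Real.log z := by positivity
  have h1 : ∑ p ∈ Ir \ univ.filter (fun p : Si w R => (p.1 : ℝ) ≤ z), rr w R p ≤ 1 / 3 := by
    refine (sum_le_sum (g := fun p => 2 / (z * Real.log z) * Real.log p.1) fun p hp => ?_).trans ?_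
    · have h2 : z < p.1 := by simpa using (mem_sdiff.1 hp).2
      have h3 := SiA.two p
      have h4 : Real.log z ≤ Real.log p.1 := Real.log_le_log (by linarith) h2.le
      rw [rr, div_mul_eq_mul_div, div_le_div_iff₀ (by linarith) (by positivity)]
      nlinarith [mul_le_mul h2.le h4 hl.le (by linarith : (0 : ℝ) ≤ p.1)]
    · rw [← mul_sum]
      have h2 := (sum_le_sum_of_subset_of_nonneg (f := fun p : Si w R => Real.log p.1)
        (sdiff_subset (s := Ir) (t := univ.filter fun p : Si w R => (p.1 : ℝ) ≤ z))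
        fun _ _ _ => Real.log_natCast_nonneg _).trans h
      refine (mul_le_mul_of_nonneg_left h2 (by positivity)).trans ?_
      rw [div_mul_eq_mul_div, div_le_iff₀ hp]
      linarith
  refine (Real.prod_one_add_le_exp_sum _ SiA.r0).trans ((Real.exp_le_exp.2 h1).trans ?_)
  have h2 := Real.add_one_le_exp (-(1 / 3))
  have h3 : Real.exp (1 / 3) * Real.exp (-(1 / 3)) = 1 := by rw [← Real.exp_add]; simp
  nlinarith [Real.exp_pos (1 / 3)]

theorem n1 {x L : ℝ} (h : 800 * (x / 200) ≤ L) (h4 : 4 ≤ L) : 15 * x ≤ L ^ 2 := by nlinarith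

theorem n2 {K n lam D T ε : ℝ} (hl : 64 * n * K * lam = ε * D) (hD : 0 < D) (hT : T ≤ D / 2)
    (hε : 0 < ε) : K * (16 * n * lam) / (D - T) ≤ ε / 2 := by
  rw [div_le_iff₀ (by linarith)]
  nlinarith [mul_le_mul_of_nonneg_left hT hε.le]

theorem n3 {n V lam m : ℝ} (hn : 1 ≤ n) (h : 2 ≤ V * lam / 8) (hm : n * V * lam / 4 ≤ m) :
    1 ≤ m := by nlinarith

theorem n4 {K η w ε : ℝ} (hw : 0 < w) (h : η ≤ 2 / w) (hK : 12 * K ^ 2 ≤ w * ε) :
    3 * K ^ 2 * η ≤ ε / 2 := by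
  refine le_trans (by gcongr : _ ≤ 3 * K ^ 2 * (2 / w)) ?_
  rw [← mul_div_assoc, div_le_iff₀ hw]
  linarith

theorem n5 {n V lam γ z : ℝ} (hn : 1 ≤ n) (hl : 0 < lam) (h : V * lam / 8 ≤ γ)
    (hz : z ≤ 2 * n * V * lam ^ 2) : z ≤ 16 * n * lam * γ := by
  have h3 : n * lam * (V * lam) ≤ n * lam * (8 * γ) :=
    mul_le_mul_of_nonneg_left (by linarith) (by positivity)
  linarith

theorem n6 {c V L x t G : ℝ} (hc : 0 < c) (hV : 0 < V) (h1 : c * L ≤ t) (h0 : 0 < c * L)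
    (hx : x ≤ L) (h : |G - V * max t 0| ≤ c / 4 * V * x) :
    3 / 4 * (V * t) ≤ G ∧ G ≤ 5 / 4 * (V * t) := by
  rw [max_eq_left (by linarith), abs_le] at h
  have h4 : c / 4 * V * x ≤ c / 4 * V * L := by gcongr
  have h5 : V * (c * L) ≤ V * t := by gcongr
  constructor <;> linarith [h.1, h.2]

theorem n7 {c V L B x : ℝ} (hc : 0 < c) (hV : 0 < V) (hL : 0 ≤ L) (h : 48 * B / (V * c) ≤ x) :
    6 * (B * L) ≤ V * (c * L) / 8 * x := by
  rw [div_le_iff₀ (by positivity)] at h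
  linarith [mul_le_mul_of_nonneg_right h hL]

theorem n8 {a k γ z : ℝ} (h1 : k * a = γ) (h2 : 1 ≤ k) (h3 : k ≤ z) (h4 : z ≤ γ) : 1 ≤ a :=
  le_of_mul_le_mul_left (a := k) (by linarith) (by linarith)

end MbA

theorem s_Ma2 (hRM : StRM) (hYA : StYA) (hYB : StYB) (hSi : StSi) (hBF : StBF) (hGA : StGA) :
    StMa2 := by
  intro δ μ ε' hδ hδ' hε'
  obtain ⟨ε, hε, hε1, hεε⟩ : ∃ ε : ℝ, 0 < ε ∧ ε ≤ 1 ∧ ε ≤ ε' :=
    ⟨min ε' 1, lt_min hε' one_pos, min_le_right _ _, min_le_left _ _⟩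
  have hεδ : 0 < ε * (δ / 2) := by positivity
  obtain ⟨n, hn⟩ := exists_nat_ge (32768 * μ / (ε * (δ / 2)))
  have hμ : 32768 * μ ≤ ((n : ℝ) + 1) * (ε * (δ / 2)) := by
    rw [div_le_iff₀ hεδ] at hn
    linarith
  refine ⟨max 2 (2 ^ n), fun J _ _ hJ B => ?_⟩
  have hc2 : 2 ≤ Fintype.card J := le_of_max_le_left hJ
  set K : ℝ := (Fintype.card J : ℝ) with hK
  have hK2 : (2 : ℝ) ≤ K := by rw [hK]; exact_mod_cast hc2
  have hKn : (2 : ℝ) ^ n ≤ K := by rw [hK]; exact_mod_cast le_of_max_le_right hJ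
  have hn1 : (1 : ℝ) ≤ n + 1 := by linarith [Nat.cast_nonneg (α := ℝ) n]
  set c : ℝ := ε * δ / (512 * (n + 1) * K) with hc
  have hc0 : 0 < c := by positivity
  obtain ⟨w1, hw1⟩ := hGA (c / 4) (by positivity)
  obtain ⟨w2, hw2⟩ := exists_nat_ge (12 * K ^ 2 / ε)
  refine ⟨8 * Fintype.card J, max (max w1 w2) 2, fun w hw => ?_⟩
  have hw0 : 2 ≤ w := le_of_max_le_right hw
  have hwR : (0 : ℝ) < w := by exact_mod_cast (by omega : 0 < w)
  have hwK : 12 * K ^ 2 ≤ w * ε := by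
    rw [← div_le_iff₀ hε]
    exact hw2.trans (by exact_mod_cast le_of_max_le_right (le_of_max_le_left hw))
  have hV := VV_pos w
  have hV1 := VV_le w
  have hlog : Tendsto (fun N : ℕ => Real.log N) atTop atTop :=
    Real.tendsto_log_atTop.comp tendsto_natCast_atTop_atTop
  have hz : Tendsto (fun N : ℕ => VV w * (c * Real.log N) / 8) atTop atTop :=
    ((hlog.const_mul_atTop hc0).const_mul_atTop hV).atTop_div_const (by norm_num)
  filter_upwards [hBF δ hδ hδ', (tendsto_RR (by linarith : δ < 1 / 4)).eventually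
    (hw1 w (le_of_max_le_left (le_of_max_le_left hw))), hlog.eventually_ge_atTop 4,
    hz.eventually_ge_atTop 2,
    (Real.tendsto_log_atTop.comp hz).eventually_ge_atTop (48 * B / (VV w * c))]
    with N hB hG hL4 hL8 hLB Ir Lb Lb' π hIr hπ hLb ⟨i0, j0, h00, h01, h02⟩
  obtain ⟨b1, b2, -, -, b5, b6, -⟩ := hB
  obtain ⟨s1, s2, s3, s4, -, -⟩ := hSi w (RR δ N) hw0
  have hr : ∀ p, 0 ≤ rr w (RR δ N) p := fun p => (s1 p).1
  have hN : (2 : ℝ) ≤ N := by exact_mod_cast (by omega : 2 ≤ N)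
  have hN0 : (0 : ℝ) < N := by linarith
  have hL2 : Real.log (2 * N) ≤ 2 * Real.log N := by
    rw [Real.log_mul two_ne_zero hN0.ne']
    linarith [Real.log_le_log two_pos hN]
  have hL3 : Real.log N ≤ Real.log (2 * N) := Real.log_le_log hN0 (by linarith)
  have hexp : Real.exp (δ / 4 * Real.log N) = (N : ℝ) ^ (δ / 4) := by
    rw [Real.rpow_def_of_pos hN0, mul_comm]
  rw [ee] at b1 b2
  simp only [Function.comp] at hLB
  set L := Real.log N with hL
  set lam := c * L with hlam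
  have hL0 : 0 ≤ L := by linarith only [hL4]
  have hRL : Real.log (RR δ N) ≤ L := by linarith only [b1, hL0]
  have hlam0 : 0 < lam := mul_pos hc0 (by linarith only [hL4])
  have hl : 64 * (n + 1) * K * lam = ε * (δ / 2 / 4 * L) := by
    rw [hlam, hc]
    field_simp
    norm_num
  have hL1 : 1 ≤ L := by linarith only [hL4]
  have hD0 : 0 < δ / 2 / 4 * L := by positivity
  have hT : 2 ^ n * lam ≤ δ / 2 / 4 * L / 2 := by
    have h1 : 2 ^ n * lam ≤ K * lam := by gcongr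
    have h2 : K * lam ≤ (n + 1) * (K * lam) := le_mul_of_one_le_left (by positivity) hn1
    have h3 : ε * (δ / 2 / 4 * L) ≤ δ / 2 / 4 * L := mul_le_of_le_one_left hD0.le hε1
    linarith
  have hT1 : lam ≤ 2 ^ n * lam := le_mul_of_one_le_left hlam0.le (one_le_pow₀ one_le_two)
  have hTR : 2 * (2 ^ n * lam) ≤ Real.log (RR δ N) := by
    have h1 : δ * L ≤ 1 / 2000 * L := by gcongr
    linarith
  obtain ⟨t1, t2⟩ := MbA.small (w := w) (R := RR δ N) (z := VV w * lam / 8) (by linarith only [hL8])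
  have t3 := MbA.dead (z := VV w * lam / 8) (by linarith only [hL8]) Ir hIr (MbA.n7 hc0 hV hL0 hLB)
  set T := univ.filter fun p : Si w (RR δ N) => (p.1 : ℝ) ≤ VV w * lam / 8
  set U := Ir \ T
  have hVl : VV w * lam ≤ lam := mul_le_of_le_one_left hlam0.le hV1
  obtain ⟨φ, hφ⟩ := my3 (qq w (RR δ N)) T U (VV w) lam n hr hV hlam0 (by linarith only [t1, hVl]) t3
    fun t h1 h2 => MbA.n6 hc0 hV h1 hlam0 hRL (hG t (by linarith only [h2, hT1, hTR, hlam0]))
  obtain ⟨hg, g1, g2, g3, g4, g5⟩ := hφ _ rfl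
  set q' : Si w (RR δ N) → ℕ := fun p => if p ∈ T then 1 else qq w (RR δ N) p with hq'
  have hq1 : ∀ p ∈ T, q' p = 1 := fun p hp => if_pos hp
  set g := cut U fun s => φ (LL q' s) with hgd
  have hinv : ∀ p ∈ T, ∀ s, g (insert p s) = g s := fun p hp s => by
    have h1 : p ∉ U := fun h => (mem_sdiff.1 h).2 hp
    simp only [hgd, cut, disjoint_insert_left, h1, not_false_eq_true, true_and, LL_ins (hq1 p hp)]
  have hreg : ∀ p, p ∉ T → p ∉ U → p ∉ Ir := fun p h1 h2 h3 => h2 (mem_sdiff.2 ⟨h3, h1⟩)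
  set γ := ga (rr w (RR δ N)) g with hγd
  have hγ : 1 ≤ γ := by linarith only [g3, hL8]
  have hγ0 : γ ≠ 0 := (zero_lt_one.trans_le hγ).ne'
  have hγ2 : γ ^ 2 ≠ 0 := pow_ne_zero 2 hγ0
  have hΛ : ∏ p, (1 + K * rr w (RR δ N) p) ≤ L ^ (4 * Fintype.card J) := by
    refine (s4 _ b6).trans ?_
    rw [show 4 * Fintype.card J = 2 * (2 * Fintype.card J) by ring, pow_mul L]
    have h1 : 0 ≤ Real.log (RR δ N) := Real.log_natCast_nonneg _
    exact pow_le_pow_left₀ (mul_nonneg (by norm_num) h1) (MbA.n1 b1 hL4) _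
  have hΛ0 : 0 ≤ ∏ p, (1 + K * rr w (RR δ N) p) :=
    prod_nonneg fun p _ => add_nonneg zero_le_one (mul_nonneg (by linarith only [hK2]) (hr p))
  have hga : ∀ (Lb : Si w (RR δ N) → J → Prop) l, 1 ≤ ga (rr w (RR δ N)) (Gl T g Lb l) :=
    fun Lb l => MbA.n8 (ga_Gl hr hinv l) (ka_le hr l).1 ((ka_le hr l).2.trans t2) g3
  have hze : ∀ (Lb : Si w (RR δ N) → J → Prop) l, ze (rr w (RR δ N)) q' (Gl T g Lb l) ≤
      16 * (n + 1) * lam * ga (rr w (RR δ N)) (Gl T g Lb l) := fun Lb l => by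
    have h2 := ka_le (T := T) (Lb := Lb) hr l
    refine le_of_mul_le_mul_left ?_ (zero_lt_one.trans_le h2.1)
    rw [ze_Gl hr hinv hq1, mul_left_comm, ga_Gl hr hinv]
    exact MbA.n5 hn1 hlam0 g3 g5
  have h1e : ∀ (Lb : Si w (RR δ N) → J → Prop) i, (∀ p, Lb p i) →
      ∏ l, ga (rr w (RR δ N)) (Gl T g Lb l) =
        γ * ∏ l ∈ univ.erase i, ga (rr w (RR δ N)) (Gl T g Lb l) := fun Lb i hi => by
    rw [← mul_prod_erase univ _ (mem_univ i), front hi]
  have h2e : ∀ (Lb : Si w (RR δ N) → J → Prop) i j, i ≠ j → (∀ p, Lb p i) → (∀ p, Lb p j) →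
      (∏ l, ga (rr w (RR δ N)) (Gl T g Lb l)) / γ ^ 2 =
        ∏ l ∈ (univ.erase j).erase i, ga (rr w (RR δ N)) (Gl T g Lb l) := fun Lb i j h hi hj => by
    rw [h1e Lb j hj, ← mul_prod_erase _ _ (mem_erase.2 ⟨h, mem_univ i⟩), front hi, ← hγd,
      ← mul_assoc, ← sq, mul_div_cancel_left₀ _ hγ2]
  have key : ∀ Lb : Si w (RR δ N) → J → Prop, (∀ p, p ∉ Ir → ∀ l, Lb p l) →
      Wt δ ε' (8 * Fintype.card J) N w (m1 (rr w (RR δ N)) g) γ
        ((∏ l, ga (rr w (RR δ N)) (Gl T g Lb l)) / γ ^ 2) Lb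
        (yG q' (Gl T g Lb) (δ / 2 / 4 * L)) := fun Lb hL => by
    have hG : ∀ l, Gd (Gl T g Lb l) := fun l => gd_cut _ hg
    obtain ⟨y1, y2, y3, y4⟩ := hYA _ J (rr w (RR δ N)) q' (Gl T g Lb) (δ / 2 / 4 * L) hr hG
    have hyb : ∀ σ, |yG q' (Gl T g Lb) (δ / 2 / 4 * L) σ| ≤ 1 := fun σ => by
      rw [abs_of_nonneg (y1.1 σ)]
      exact y2 σ
    have hy : Adm δ (8 * Fintype.card J) N w (fun _ : J => True)
        (yG q' (Gl T g Lb) (δ / 2 / 4 * L)) :=
      ⟨y1, fun _ _ _ _ _ => trivial, fun σ => (hyb σ).trans (one_le_pow₀ hL1),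
        fun σ hσ => (y_lev s3 hσ).trans (hexp ▸ Real.exp_le_exp.2
          (by linarith only [t1, hVl, hT1, hT, hD0]))⟩
    have hS : Sup Lb (yG q' (Gl T g Lb) (δ / 2 / 4 * L)) :=
      y_sup _ fun p h1 h2 => hL p (hreg p h1 h2)
    have hSr : ∀ i C, Sup Lb C → Sup Lb (red (rr w (RR δ N)) i C) := fun i C h σ h0 p l e =>
      ((hRM _ J (rr w (RR δ N)) (fun _ l => l = i) C hr).2.1 _ h σ h0 p l e).1
    have h1 := fun i : J => MaA.adm (Lb' := fun l => l ≠ i) hRM i hr s3 hy hyb (fun _ _ h => h) (by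
      rw [one_mul]
      exact hΛ.trans (pow_le_pow_right₀ hL1 (by omega)))
    refine ⟨hy, hS, y3.trans_eq (div_mul_cancel₀ _ hγ2).symm, fun i => ⟨(h1 i).1, hSr _ _ hS, fun hi => ?_⟩,
      fun i j => ⟨(MaA.adm hRM j hr s3 (h1 i).1 (h1 i).2 (fun _ h h' => ⟨h, h'⟩) ?_).1,
        hSr _ _ (hSr _ _ hS), fun hij hi hj => (y4 i j hij).trans_eq ?_⟩⟩
    · refine le_trans ?_ (hYB _ J _ q' (Gl T g Lb) K _ (2 ^ n * lam) _ i hr hG le_rfl hc2
        (by rw [front hi]; exact g1) (by linarith only [hT, hD0]) (hze Lb)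
        (mul_nonneg (by linarith only [hn1]) hlam0.le))
      have e : (∏ l, ga (rr w (RR δ N)) (Gl T g Lb l)) / γ ^ 2 * γ =
          ∏ l ∈ univ.erase i, ga (rr w (RR δ N)) (Gl T g Lb l) := by
        rw [h1e Lb i hi, sq, mul_div_mul_left _ _ hγ0, div_mul_cancel₀ _ hγ0]
      rw [e, front hi, mul_assoc, mul_comm]
      refine mul_le_mul_of_nonneg_left ?_ (mul_nonneg (sq_nonneg _)
        (prod_nonneg fun l _ => zero_le_one.trans (hga Lb l)))
      linarith only [MbA.n4 hwR s2 hwK, MbA.n2 hl hD0 hT hε, hεε]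
    · rw [one_mul, show 8 * Fintype.card J = 4 * Fintype.card J + 4 * Fintype.card J by ring,
        pow_add]
      exact mul_le_mul hΛ hΛ hΛ0 (hΛ0.trans hΛ)
    · rw [h2e Lb i j hij hi hj, front hi, front hj]
      ring
  have hΓ : ∏ l, ga (rr w (RR δ N)) (Gl T g Lb' l) = ∏ l, ga (rr w (RR δ N)) (Gl T g Lb l) := by
    have h1 : ∀ Lb : Si w (RR δ N) → J → Prop, (∏ l, ka (rr w (RR δ N)) T Lb l) *
        ∏ l, ga (rr w (RR δ N)) (Gl T g Lb l) = ∏ _l : J, γ := fun Lb => by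
      rw [← prod_mul_distrib]
      exact prod_congr rfl fun l _ => ga_Gl hr hinv l
    have h2 : 0 < ∏ l, ka (rr w (RR δ N)) T Lb l :=
      prod_pos fun l _ => zero_lt_one.trans_le (ka_le hr l).1
    refine mul_left_cancel₀ h2.ne' ?_
    rw [h1, ← ka_tw hLb, h1]
  have k2 := key Lb' fun p hp l => by
    have := (hLb p l).2 ((hπ p hp).2 l)
    rwa [(hπ p hp).1] at this
  rw [hΓ] at k2
  refine ⟨_, _, _, γ, _, ?_, hγ, ?_, key Lb fun p hp => (hπ p hp).2, k2,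
    y_tw _ hq1 (fun p h1 h2 => (hπ p (hreg p h1 h2)).1) hLb, ?_⟩
  · exact MbA.n3 hn1 hL8 g2
  · rw [h2e Lb i0 j0 h00 h01 h02]
    exact one_le_prod fun l _ => hga Lb l
  · exact MaA.last hV (hL0.trans hL3) hL2 (zero_le_one.trans hγ) g4 (by linarith only [hK2])
      (by linarith only [hn1]) hlam0 g2 hl hμ hεδ

end Pool.Agent.MP_43e117_nt.GP

end
end

section

/-!
The final passage: gaps between consecutive primes or sums of two primes.
-/

open Finset Filter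

namespace Pool.Agent.MP_43e117_nt.GP

open PG

namespace AA

theorem near {K : ℕ} (h : Fin 2 × Fin K → ℕ) (hh : Function.Injective h) (n : ℕ)
    (h0 : ∀ x l, x ≤ h l → (n + x).Prime → ∃ l, h l = x)
    (h1 : ∃ i j, i.1 ≠ j.1 ∧ (n + h i).Prime ∧ (n + h j).Prime) :
    ∃ i j, i.1 ≠ j.1 ∧ h i < h j ∧ (n + h i).Prime ∧ (n + h j).Prime ∧
      ∀ q, n + h i < q → q < n + h j → ¬ q.Prime := by
  obtain ⟨⟨i, j⟩, ⟨h2, h3, h4, h5⟩, h6⟩ := Set.exists_min_image
    {t : (Fin 2 × Fin K) × (Fin 2 × Fin K) | t.1.1 ≠ t.2.1 ∧ h t.1 < h t.2 ∧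
      (n + h t.1).Prime ∧ (n + h t.2).Prime} (fun t => h t.2 - h t.1) (Set.toFinite _) (by
    obtain ⟨i, j, h2, h3, h4⟩ := h1
    rcases lt_trichotomy (h i) (h j) with h5 | h5 | h5
    · exact ⟨(i, j), h2, h5, h3, h4⟩
    · exact absurd (congrArg Prod.fst (hh h5)) h2
    · exact ⟨(j, i), h2.symm, h5, h4, h3⟩)
  refine ⟨i, j, h2, h3, h4, h5, fun q h7 h8 hq => ?_⟩
  obtain ⟨x, rfl⟩ : ∃ x, q = n + x := ⟨q - n, by omega⟩
  obtain ⟨l, rfl⟩ := h0 x j (by omega) hq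
  by_cases e : i.1 = l.1
  · have h9 : h j - h i ≤ h j - h l :=
      h6 (l, j) ⟨fun e' => h2 (e.trans e'), show h l < h j by omega, hq, h5⟩
    omega
  · have h9 : h j - h i ≤ h l - h i := h6 (i, l) ⟨e, show h i < h l by omega, h4, hq⟩
    omega

/-- the base label -/
def bl {K : ℕ} (l : Fin 4 × Fin K) : Fin 2 × Fin K := (if l.1.1 % 2 = 0 then 0 else 1, l.2)

theorem bl_fst {K : ℕ} {l l' : Fin 4 × Fin K} (h1 : sd l = sd l') (h2 : (bl l).1 = (bl l').1) :
    l.1 = l'.1 := by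
  have key : ∀ c c' : Fin 4, decide (c < 2) = decide (c' < 2) →
      (if c.1 % 2 = 0 then 0 else 1 : Fin 2) = (if c'.1 % 2 = 0 then 0 else 1) → c = c' := by
    decide
  exact key _ _ h1 h2

theorem split (y : ℕ) (hy : 1 ≤ y) :
    ∃ N u, y = MN N + u ∧ u ≤ 2 ∧ 2 * y ≤ 5 * N + 5 ∧ 5 * N ≤ 2 * y := by
  unfold MN
  by_cases h : (y - 1) % 5 ≤ 1
  · exact ⟨2 * ((y - 1) / 5), (y - 1) % 5, by omega⟩
  · exact ⟨2 * ((y - 1) / 5) + 1, (y - 1) % 5 - 2, by omega⟩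

theorem cls (W x c : ℕ) (hW : 1 ≤ W) : ∃ y, x ≤ y ∧ y < x + W ∧ y ≡ c [MOD W] := by
  refine ⟨x + (c + (W - 1) * x) % W, by omega, Nat.add_lt_add_left (Nat.mod_lt _ hW) x, ?_⟩
  obtain ⟨V, rfl⟩ : ∃ V, W = V + 1 := ⟨W - 1, by omega⟩
  refine ((Nat.mod_modEq _ _).add_left x).trans ?_
  rw [Nat.add_sub_cancel, show x + (c + V * x) = c + (V + 1) * x by ring]
  exact Nat.ModEq.symm (Nat.modEq_iff_dvd' (by omega) |>.2 (by simp))

end AA

open AA in
theorem s_A2 (hM : StM2) (hCl : StCl) : StA2 := by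
  obtain ⟨K, hK⟩ := hM
  refine ⟨K, fun S => ?_⟩
  by_cases hc : Cell2 K (Pol S)
  · exact Or.inl hc
  refine Or.inr ?_
  unfold Cell2 at hc
  push Not at hc
  obtain ⟨h, hh, ha, hc⟩ := hc
  have hH : ∀ l, h l ≤ univ.sup h := fun l => le_sup (f := h) (mem_univ l)
  generalize univ.sup h = H at hH
  obtain ⟨w0, hw0⟩ := hK (H + 2)
  obtain ⟨w, hw, b, hb, hb'⟩ := hCl _ h w0 ha
  obtain ⟨N0, hN0⟩ := eventually_atTop.1 (hw0 w hw)
  obtain ⟨B, hB⟩ := (Set.finite_iUnion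
    (f := fun t : {t : (Fin 2 × Fin K) × (Fin 2 × Fin K) // t.1.1 ≠ t.2.1 ∧ h t.1 < h t.2} =>
      {n ∈ S | ∃ p, n < p ∧ p + (h t.1.2 - h t.1.1) < 2 * n ∧ p.Prime ∧
        (p + (h t.1.2 - h t.1.1)).Prime ∧
        ∀ q, p < q → q < p + (h t.1.2 - h t.1.1) → ¬ q.Prime})
    fun t => Set.not_infinite.1 (hc _ _ t.2.1 t.2.2)).bddAbove
  have hW : 1 ≤ WW w := primorial_pos w
  refine ⟨WW w + 2 * H, B + N0 + w + 3 * WW w + 5 * H + 20, fun n hn h1 x x1 x2 => ?_⟩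
  have side : ∀ m, n < m → m + H < 2 * n → m ≡ b [MOD WW w] → ∀ i j, i.1 ≠ j.1 →
      (m + h i).Prime → ¬ (m + h j).Prime := by
    intro m m1 m2 m3 i j e p1 p2
    obtain ⟨i, j, h5, h6, h7, h8, h9⟩ := near h hh m (fun x l hl hp => by
      by_contra h5
      push Not at h5
      obtain ⟨q, hq, hqw, hqb⟩ := hb' x ⟨l, hl⟩ h5
      have h6 := ((m3.add_right x).dvd_iff (hq.dvd_primorial_iff.2 hqw)).2 hqb
      have h7 := (Nat.prime_dvd_prime_iff_eq hq hp).1 h6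
      omega) ⟨i, j, e, p1, p2⟩
    have e : m + h i + (h j - h i) = m + h j := by omega
    have h10 := hH j
    have h11 : n ≤ B := by
      refine hB (Set.mem_iUnion.2 ⟨⟨(i, j), h5, h6⟩, hn, m + h i, by omega, ?_⟩)
      show m + h i + (h j - h i) < 2 * n ∧ (m + h i).Prime ∧ (m + h i + (h j - h i)).Prime ∧
        ∀ q, m + h i < q → q < m + h i + (h j - h i) → ¬ q.Prime
      rw [e]
      exact ⟨by omega, h7, h8, h9⟩
    omega
  obtain ⟨y, y1, y2, y3⟩ := cls (WW w) x (2 * b) hW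
  obtain ⟨N, u, e1, u1, u2, u3⟩ := split y (by omega)
  obtain ⟨m, hm, i, j, hij, p1, p2⟩ := hN0 N (by omega)
    (fun l => h (bl l) + if sd l then 0 else u) (fun s => if s then b else b + 2 * WW w - u)
    (fun l => by
      have := hH (bl l)
      split_ifs <;> omega)
    (fun l l' a1 a2 => by
      rw [a1] at a2
      have a3 := hh (Nat.add_right_cancel a2)
      exact Prod.ext (bl_fst a1 (congrArg Prod.fst a3)) (congrArg Prod.snd a3 :))
    (fun l => by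
      split_ifs
      · exact hb _
      · rw [show b + 2 * WW w - u + (h (bl l) + u) = b + h (bl l) + 2 * WW w by omega]
        exact (Nat.coprime_add_mul_right_left _ _ _).2 (hb _))
    (by
      refine Nat.ModEq.add_right_cancel' u ?_
      rw [← e1]
      refine Nat.ModEq.trans ?_ y3.symm
      simp only [if_true, Bool.false_eq_true, if_false]
      rw [show b + (b + 2 * WW w - u) + u = 2 * b + 2 * WW w by omega]
      exact Nat.ModEq.symm (Nat.modEq_iff_dvd' (by omega) |>.2 (by simp)))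
  obtain ⟨m1, m2⟩ := mem_filter.1 hm
  rw [mem_Ioc] at m1
  have m2 : m ≡ b [MOD WW w] := m2
  have e2 : MN N = 2 * N + N / 2 + 1 := rfl
  have m3 : y - m ≡ b [MOD WW w] := by
    refine Nat.ModEq.add_right_cancel m2 ?_
    rw [Nat.sub_add_cancel (by omega), ← two_mul]
    exact y3
  have e3 : ∀ l : Fin 4 × Fin K, ro N (sd l) m + (h (bl l) + if sd l then 0 else u) =
      (if sd l then m else y - m) + h (bl l) := by
    intro l
    unfold ro
    split_ifs <;> omega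
  rw [e3] at p1 p2
  have a1 := hH (bl i)
  have a2 := hH (bl j)
  by_cases hs : sd i = sd j
  · rw [← hs] at p2
    refine (side _ ?_ ?_ ?_ _ _ (fun a => hij (bl_fst hs a)) p1 p2).elim
    · split_ifs <;> omega
    · split_ifs <;> omega
    · split_ifs
      exacts [m2, m3]
  · refine ⟨_, _, p1, p2, ?_⟩
    cases a3 : sd i <;> cases a4 : sd j <;> simp only [a3, a4, not_true_eq_false] at hs ⊢ <;>
      simp only [if_true, Bool.false_eq_true, if_false] <;> omega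

end Pool.Agent.MP_43e117_nt.GP

end
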