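import Pool.Agent.Mg.F436a94p.G9089d4

set_option linter.all false

section

/-! Averages of periodic functions over a cube. -/

open Finset Filter Topology

namespace Pool.Agent.MP_971f68_nt

theorem period_Box {D : ℕ} [NeZero D] (g : ZMod D → ℝ) (a : ZMod D) :
    ∑ k ∈ range D, g (a + k) = ∑ u, g u := by
  rw [← Equiv.sum_comp (Equiv.addLeft a) g]
  refine sum_nbij' (fun k : ℕ => (k : ZMod D)) (fun u => u.val) ?_ ?_ ?_ ?_ ?_
  · intro k _; exact mem_univ _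
  · intro u _; exact mem_range.2 (ZMod.val_lt u)
  · intro k hk; exact ZMod.val_cast_of_lt (mem_range.1 hk)
  · intro u _; exact ZMod.natCast_zmod_val u
  · intro k _; rfl

theorem avg_Box {D : ℕ} [NeZero D] (g : ZMod D → ℝ) {C : ℝ} (hg : ∀ u, |g u| ≤ C) :
    |(∑ u, g u) / D| ≤ C := by
  have hD : (0 : ℝ) < D := by exact_mod_cast Nat.pos_of_ne_zero (NeZero.ne D)
  rw [abs_div, abs_of_pos hD, div_le_iff₀ hD]
  refine (abs_sum_le_sum_abs _ _).trans ((sum_le_sum fun u _ => hg u).trans ?_)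
  simp [ZMod.card, mul_comm]

theorem range_Box {D : ℕ} [NeZero D] (g : ZMod D → ℝ) {C : ℝ} (hg : ∀ u, |g u| ≤ C)
    (a : ZMod D) (L : ℕ) : |∑ k ∈ range L, g (a + k) - L * ((∑ u, g u) / D)| ≤ 2 * D * C := by
  have hD0 : 0 < D := Nat.pos_of_ne_zero (NeZero.ne D)
  have hD : (0 : ℝ) < D := by exact_mod_cast hD0
  have hC : 0 ≤ C := (abs_nonneg _).trans (hg 0)
  induction L using Nat.strong_induction_on with
  | _ L ih =>
    rcases lt_or_ge L D with h | h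
    · have h1 : |∑ k ∈ range L, g (a + k)| ≤ L * C :=
        (abs_sum_le_sum_abs _ _).trans ((sum_le_sum fun k _ => hg _).trans (by simp))
      have h2 := avg_Box g hg
      have h3 : (L : ℝ) ≤ D := by exact_mod_cast h.le
      have h4 : (0 : ℝ) ≤ L := Nat.cast_nonneg L
      refine (abs_sub _ _).trans ?_
      rw [abs_mul, abs_of_nonneg h4]
      nlinarith [mul_le_mul_of_nonneg_left h2 h4, mul_le_mul_of_nonneg_right h3 hC]
    · obtain ⟨L', rfl⟩ := Nat.exists_eq_add_of_le h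
      have h1 := ih L' (by omega)
      rw [sum_range_add, period_Box]
      have h2 : ∑ k ∈ range L', g (a + ((D + k : ℕ) : ZMod D)) = ∑ k ∈ range L', g (a + k) :=
        sum_congr rfl fun k _ => by simp
      rw [h2]
      refine le_of_eq_of_le ?_ h1
      congr 1
      push_cast
      field_simp
      ring

theorem one_Box {D : ℕ} [NeZero D] (g : ZMod D → ℝ) {C : ℝ} (hg : ∀ u, |g u| ≤ C) (B : ℕ) :
    |∑ x ∈ Icc (-(B : ℤ)) B, g x - (2 * B + 1) * ((∑ u, g u) / D)| ≤ 2 * D * C := by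
  have h := range_Box g hg (-(B : ZMod D)) (2 * B + 1)
  have h1 : ∑ x ∈ Icc (-(B : ℤ)) B, g x = ∑ k ∈ range (2 * B + 1), g (-(B : ZMod D) + k) := by
    symm
    refine sum_nbij' (fun k : ℕ => -(B : ℤ) + k) (fun x => (x + B).toNat) ?_ ?_ ?_ ?_ ?_
    · intro k hk; simp only [mem_range, mem_Icc] at *; omega
    · intro k hk; simp only [mem_range, mem_Icc] at *; omega
    · intro k hk; simp only [mem_range] at *; omega
    · intro k hk; simp only [mem_Icc] at *; omega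
    · intro k _; simp
  rw [h1]
  simpa using h

theorem sum_Box {B : ℕ} (f : ℤ → ℝ) {C : ℝ} (hf : ∀ x, |f x| ≤ C) :
    |∑ x ∈ Icc (-(B : ℤ)) B, f x| ≤ (2 * B + 1) * C := by
  refine (abs_sum_le_sum_abs _ _).trans ((sum_le_sum fun u _ => hf u).trans ?_)
  have : ((B : ℤ) + 1 - -(B : ℤ)).toNat = 2 * B + 1 := by omega
  rw [sum_const, Int.card_Icc, this, nsmul_eq_mul]
  push_cast
  exact le_rfl

theorem three_Box {D : ℕ} [NeZero D] (G : T (ZMod D) → ℝ) {C : ℝ} (hG : ∀ u, |G u| ≤ C) (B : ℕ) :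
    |∑ b ∈ box B, G (c3 D b) - (2 * B + 1 : ℝ) ^ 3 * ((∑ u, G u) / (D : ℝ) ^ 3)| ≤
      6 * (2 * B + 1 : ℝ) ^ 2 * C * D := by
  have hL : (0 : ℝ) ≤ 2 * B + 1 := by positivity
  set A1 : ZMod D → ZMod D → ℝ := fun x y => (∑ z, G (x, y, z)) / D with hA1
  set A2 : ZMod D → ℝ := fun x => (∑ y, A1 x y) / D with hA2
  have b1 : ∀ x y, |A1 x y| ≤ C := fun x y => avg_Box (fun z => G (x, y, z)) fun z => hG _
  have b2 : ∀ x, |A2 x| ≤ C := fun x => avg_Box (A1 x) (b1 x)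
  have e1 := sum_Box (B := B) (fun x : ℤ => ∑ y ∈ Icc (-(B : ℤ)) B,
    (∑ z ∈ Icc (-(B : ℤ)) B, G (x, y, z) - (2 * B + 1) * A1 x y)) fun x =>
      sum_Box (B := B) (fun y : ℤ => ∑ z ∈ Icc (-(B : ℤ)) B, G (x, y, z) - (2 * B + 1) * A1 x y)
        fun y => one_Box (fun z => G (x, y, z)) (fun z => hG _) B
  have e2 := sum_Box (B := B) (fun x : ℤ => ∑ y ∈ Icc (-(B : ℤ)) B, A1 x y - (2 * B + 1) * A2 x)
    fun x => one_Box (A1 x) (b1 x) B
  have e3 := one_Box A2 b2 B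
  have h1 : (∑ u, G u) / (D : ℝ) ^ 3 = (∑ x, A2 x) / D := by
    simp only [hA2, hA1, Fintype.sum_prod_type, ← sum_div]
    ring
  have h2 : ∑ b ∈ box B, G (c3 D b) = ∑ x ∈ Icc (-(B : ℤ)) B, ∑ y ∈ Icc (-(B : ℤ)) B,
      ∑ z ∈ Icc (-(B : ℤ)) B, G (x, y, z) := by
    simp only [box, sum_product, c3]
  rw [h1, h2]
  simp only [sum_sub_distrib, ← mul_sum] at e1 e2
  have e2' := mul_le_mul_of_nonneg_left e2 hL
  have e3' := mul_le_mul_of_nonneg_left e3 (pow_nonneg hL 2)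
  rw [← abs_of_nonneg hL, ← abs_mul, abs_of_nonneg hL] at e2'
  rw [← abs_of_nonneg (pow_nonneg hL 2), ← abs_mul, abs_of_nonneg (pow_nonneg hL 2)] at e3'
  rw [abs_le] at *
  constructor <;> nlinarith [e1.1, e1.2, e2'.1, e2'.2, e3'.1, e3'.2]

theorem s_Box : StBox := by
  classical
  intro S φ M B hS hM hφ
  have : ∀ i : S, NeZero (i : ℕ) := fun i => ⟨(hS i i.2).ne_zero⟩
  have hc : Pairwise (Function.onFun Nat.Coprime fun i : S => (i : ℕ)) := fun i j hij =>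
    (Nat.coprime_primes (hS i i.2) (hS j j.2)).2 fun h => hij (Subtype.ext h)
  have : NeZero (∏ i : S, (i : ℕ)) := ⟨prod_ne_zero_iff.2 fun i _ => NeZero.ne _⟩
  let e := ZMod.prodEquivPi (fun i : S => (i : ℕ)) hc
  let Ψ : T (ZMod (∏ i : S, (i : ℕ))) ≃ (∀ i : S, T (ZMod i)) :=
    { toFun := fun u i => (e u.1 i, e u.2.1 i, e u.2.2 i)
      invFun := fun v => (e.symm fun i => (v i).1, e.symm fun i => (v i).2.1,
        e.symm fun i => (v i).2.2)
      left_inv := fun u => by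
        refine Prod.ext ?_ (Prod.ext ?_ ?_) <;> exact e.symm_apply_apply _
      right_inv := fun v => by
        funext i
        simp only [RingEquiv.apply_symm_apply] }
  have h := three_Box (fun u => ∏ i : S, φ i (Ψ u i)) (C := M ^ S.card) (fun u => by
    rw [abs_prod]
    refine (Finset.prod_le_prod (s := univ) (g := fun _ : S => M) (fun i _ => abs_nonneg _)
      fun i _ => hφ i i.2 _).trans ?_
    simp) B
  have h1 : ∀ b : T ℤ, ∏ i : S, φ i (Ψ (c3 _ b) i) = ∏ r ∈ S, φ r (c3 r b) := fun b => by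
    rw [← prod_coe_sort S fun r => φ r (c3 r b)]
    refine prod_congr rfl fun i _ => ?_
    congr 1
    change (e (b.1 : ZMod _) i, e (b.2.1 : ZMod _) i, e (b.2.2 : ZMod _) i) = c3 i b
    simp only [map_intCast, Pi.intCast_apply, c3]
  have h2 : ∑ u, ∏ i : S, φ i (Ψ u i) = ∏ r ∈ S, ∑ᶠ x, φ r x := by
    rw [Equiv.sum_comp Ψ fun v => ∏ i : S, φ i (v i), ← prod_coe_sort S fun r => ∑ᶠ x, φ r x,
      ← Fintype.piFinset_univ, ← prod_univ_sum]
    exact prod_congr rfl fun i _ => (finsum_eq_sum_of_fintype _).symm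
  have h3 : ((∏ i : S, (i : ℕ) : ℕ) : ℝ) = ∏ r ∈ S, (r : ℝ) := by
    rw [prod_coe_sort S fun r => r]; push_cast; rfl
  simp only [h1] at h
  rw [h2, h3, ← prod_pow, ← prod_div_distrib] at h
  exact h

end Pool.Agent.MP_971f68_nt

end

section

/-!
The descent datum.
-/

open Finset Filter Topology

namespace Pool.Agent.MP_971f68_nt

theorem dv_Rep {R : Type} [CommRing R] (t q y z u : R) (hu : u ^ 2 = 0) (ht : t ^ 3 = 2) :
    mul (-q * t, q, 0) (mul (adj (u - y * t - z * t ^ 2, y, z))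
      (adj (u - y * t - z * t ^ 2, y, z))) = (0, 0, 0) := by
  simp only [mul, adj, Prod.mk.injEq]
  refine ⟨?_, ?_, ?_⟩
  · linear_combination ((-1)*q*t*u^2 + (12)*q*t*y*z + (4)*q*t^2*u*y + (12)*q*t^2*z^2 +
      (4)*q*t^3*u*z + (-6)*q*t^3*y^2 + (-12)*q*t^4*y*z + (-6)*q*t^5*z^2 + (-4)*q*u*z +
      (6)*q*y^2) * hu + ((4)*q*t*u*y^3 + (-4)*q*t*u*z^3 + (6)*q*t*y^2*z^2 + (12)*q*t^2*u*y^2*z +
      (4)*q*t^2*y*z^3 + (-1)*q*t^2*y^4 + (12)*q*t^3*u*y*z^2 + (-4)*q*t^3*y^3*z + (2)*q*t^3*z^4 +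
      (4)*q*t^4*u*z^3 + (-6)*q*t^4*y^2*z^2 + (-4)*q*t^5*y*z^3 + (-1)*q*t^6*z^4 + (4)*q*y^3*z +
      (-4)*q*z^4) * ht
  · linear_combination ((-2)*q*t*u*y + (-6)*q*t*z^2 + (-4)*q*t^2*u*z + (6)*q*t^3*y*z +
      (6)*q*t^4*z^2 + q*u^2) * hu + ((-8)*q*t*y*z^3 + (-1)*q*t*y^4 + (-6)*q*t^2*u*y*z^2 +
      (-2)*q*t^2*y^3*z + (-4)*q*t^2*z^4 + (-4)*q*t^3*u*z^3 + (2)*q*t^4*y*z^3 + q*t^5*z^4 +
      (2)*q*u*y^3 + (4)*q*u*z^3 + (-6)*q*y^2*z^2) * ht
  · linear_combination ((2)*q*t*u*z + (3)*q*t*y^2 + (-6)*q*t^3*z^2 + (-2)*q*u*y +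
      (6)*q*z^2) * hu + ((6)*q*t*u*y*z^2 + (-2)*q*t*y^3*z + (2)*q*t*z^4 + (6)*q*t^2*u*z^3 +
      (-3)*q*t^2*y^2*z^2 + (-4)*q*t^3*y*z^3 + (-2)*q*t^4*z^4 + (4)*q*y*z^3 + (-1)*q*y^4) * ht

theorem step_Rep {a b c : ℤ} (h : nm (a, b, c) = 0) : ∃ a', a = 2 * a' ∧ nm (b, c, a') = 0 := by
  simp only [nm] at h ⊢
  obtain ⟨a', rfl⟩ : (2 : ℤ) ∣ a := Int.prime_two.dvd_of_dvd_pow (n := 3)
    ⟨3 * a * b * c - b ^ 3 - 2 * c ^ 3, by linear_combination h⟩
  exact ⟨a', rfl, by linarith⟩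

theorem nz_Rep (n : ℕ) : ∀ a b c : ℤ, a.natAbs + b.natAbs + c.natAbs ≤ n → nm (a, b, c) = 0 →
    a = 0 ∧ b = 0 ∧ c = 0 := by
  induction n with
  | zero => intro a b c h _; omega
  | succ n ih =>
    intro a b c h h0
    obtain ⟨a', rfl, h1⟩ := step_Rep h0
    obtain ⟨b', rfl, h2⟩ := step_Rep h1
    obtain ⟨c', rfl, h3⟩ := step_Rep h2
    have := ih a' b' c' (by omega) h3
    omega

theorem pig_Rep {l : ℕ} (hl : l.Prime) (t : ℤ) : ∃ (A : ℤ) (a : T ℤ), 0 ≤ A ∧ A ^ 3 ≤ l ∧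
    |a.1| ≤ A ∧ |a.2.1| ≤ A ∧ |a.2.2| ≤ A ∧ nm a ≠ 0 ∧
    (l : ℤ) ∣ a.1 + a.2.1 * t + a.2.2 * t ^ 2 := by
  have : NeZero l := ⟨hl.ne_zero⟩
  have hex : ∃ A : ℕ, l < (A + 1) ^ 3 := ⟨l, by nlinarith [sq_nonneg (l : ℤ), Nat.zero_le (l * l), Nat.zero_le (l * l * l)]⟩
  set A := Nat.find hex with hA
  have h1 : l < (A + 1) ^ 3 := Nat.find_spec hex
  have h2 : A ^ 3 ≤ l := by
    rcases Nat.eq_zero_or_pos A with h | h
    · simp [h]
    · have := Nat.find_min hex (m := A - 1) (by omega)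
      rwa [Nat.sub_add_cancel h, not_lt] at this
  obtain ⟨x, hx, y, hy, hne, he⟩ := exists_ne_map_eq_of_card_lt_of_maps_to
    (s := Icc (0 : ℤ) A ×ˢ Icc (0 : ℤ) A ×ˢ Icc (0 : ℤ) A) (t := (univ : Finset (ZMod l)))
    (by
      have : ((A : ℤ) + 1 - 0).toNat = A + 1 := by omega
      simp only [card_univ, ZMod.card, card_product, Int.card_Icc, this]
      nlinarith)
    (f := fun x => ((x.1 + x.2.1 * t + x.2.2 * t ^ 2 : ℤ) : ZMod l)) (fun _ _ => mem_coe.2 (mem_univ _))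
  simp only [mem_product, mem_Icc] at hx hy
  refine ⟨A, (x.1 - y.1, x.2.1 - y.2.1, x.2.2 - y.2.2), by positivity, by exact_mod_cast h2,
    abs_le.2 ⟨by dsimp only; omega, by dsimp only; omega⟩,
    abs_le.2 ⟨by dsimp only; omega, by dsimp only; omega⟩,
    abs_le.2 ⟨by dsimp only; omega, by dsimp only; omega⟩, fun h => hne ?_, ?_⟩
  · have := nz_Rep _ _ _ _ le_rfl h
    exact Prod.ext (by omega) (Prod.ext (by omega) (by omega))
  · have := (ZMod.intCast_eq_intCast_iff_dvd_sub _ _ _).1 he.symm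
    dsimp only
    convert this using 1
    ring

theorem bd_Rep {a b : T ℤ} {x y z u v w : ℤ} (h1 : |a.1| ≤ x) (h2 : |a.2.1| ≤ y)
    (h3 : |a.2.2| ≤ z) (h4 : |b.1| ≤ u) (h5 : |b.2.1| ≤ v) (h6 : |b.2.2| ≤ w) :
    |(mul a b).1| ≤ x * u + 2 * y * w + 2 * z * v ∧
      |(mul a b).2.1| ≤ x * v + y * u + 2 * z * w ∧ |(mul a b).2.2| ≤ x * w + y * v + z * u := by
  have x0 := (abs_nonneg _).trans h1
  have y0 := (abs_nonneg _).trans h2
  have z0 := (abs_nonneg _).trans h3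
  simp only [mul]
  refine ⟨(abs_add_three _ _ _).trans ?_, (abs_add_three _ _ _).trans ?_,
    (abs_add_three _ _ _).trans ?_⟩ <;> simp only [abs_mul, abs_two] <;> gcongr

theorem cube_Rep {b p A l e : ℤ} (hl : 0 < l) (hp : 0 ≤ p) (hA : 0 ≤ A) (h1 : A ^ 3 ≤ l)
    (h2 : p ^ 3 ≤ e * l ^ 2) (h : |l ^ 2 * b| ≤ 75 * p * A ^ 4) : |b| ^ 3 ≤ 75 ^ 3 * e := by
  rw [abs_mul, abs_of_pos (by positivity)] at h
  have h3 : (l ^ 2 * |b|) ^ 3 ≤ (75 * p * A ^ 4) ^ 3 := by gcongr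
  have h4 : (A ^ 3) ^ 4 ≤ l ^ 4 := by gcongr
  have h5 : p ^ 3 * (A ^ 3) ^ 4 ≤ e * l ^ 2 * l ^ 4 :=
    mul_le_mul h2 h4 (by positivity) ((by positivity : (0 : ℤ) ≤ p ^ 3).trans h2)
  refine le_of_mul_le_mul_left (a := l ^ 6) ?_ (by positivity)
  nlinarith

theorem s_Rep : StRep := by
  intro p q l e hl hq hqp hF
  have hF' : (p : ℤ) ^ 3 + 2 * (q : ℤ) ^ 3 = e * (l : ℤ) ^ 2 := by exact_mod_cast hF
  have l0 : (0 : ℤ) < l := by exact_mod_cast hl.pos
  have hc : IsCoprime (q : ℤ) ((l : ℤ) ^ 2) :=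
    (Nat.isCoprime_iff_coprime.2 ((Nat.coprime_comm.1 (hl.coprime_iff_not_dvd.2 hq)))).pow_right
  obtain ⟨i, j, hij⟩ := hc
  set t : ℤ := -p * i with ht
  have e1 : ((p : ℤ) : ZMod (l ^ 2)) = -((q : ℤ) : ZMod (l ^ 2)) * (t : ℤ) := by
    rw [← Int.cast_neg, ← Int.cast_mul, ZMod.intCast_eq_intCast_iff_dvd_sub]
    exact ⟨-p * j, by push_cast; linear_combination (p : ℤ) * hij⟩
  have e2 : (l : ℤ) ^ 2 ∣ t ^ 3 - 2 :=
    ⟨-e * i ^ 3 - 2 * j * ((i * q) ^ 2 + i * q + 1), by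
      linear_combination (-i ^ 3) * hF' + 2 * ((i * q) ^ 2 + i * q + 1) * hij⟩
  have e3 : ((t : ℤ) : ZMod (l ^ 2)) ^ 3 = 2 := by
    have := (ZMod.intCast_zmod_eq_zero_iff_dvd (t ^ 3 - 2) (l ^ 2)).2 (by exact_mod_cast e2)
    push_cast at this
    linear_combination this
  obtain ⟨A, ⟨x, y, z⟩, A0, A1, a1, a2, a3, a4, s, hs⟩ := pig_Rep hl t
  dsimp only at a1 a2 a3 hs
  obtain ⟨w, hw⟩ := e2
  obtain ⟨c, hc⟩ : (l : ℤ) ∣ nm (x, y, z) := by
    have hx : x = l * s - y * t - z * t ^ 2 := by linarith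
    rw [← ZMod.intCast_zmod_eq_zero_iff_dvd]
    have h3 : ((t : ℤ) : ZMod l) ^ 3 = 2 := by
      have := (ZMod.intCast_zmod_eq_zero_iff_dvd (t ^ 3 - 2) l).2 ⟨l * w, by rw [hw]; ring⟩
      push_cast at this
      linear_combination this
    simp only [nm, hx]
    push_cast
    rw [ZMod.natCast_self]
    linear_combination (-3 * (t : ZMod l) * y ^ 2 * z - 3 * t ^ 2 * y * z ^ 2 - t ^ 3 * z ^ 3 -
      y ^ 3 - 2 * z ^ 3) * h3
  have hd := dv_Rep ((t : ℤ) : ZMod (l ^ 2)) ((q : ℤ) : _) (y : ℤ) (z : ℤ) ((l * s : ℤ) : _)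
    (by rw [← Int.cast_pow, ZMod.intCast_zmod_eq_zero_iff_dvd]; exact ⟨s ^ 2, by push_cast; ring⟩) e3
  have hx : ((l * s : ℤ) : ZMod (l ^ 2)) - (y : ℤ) * (t : ℤ) - (z : ℤ) * ((t : ℤ) : _) ^ 2 =
      (x : ℤ) := by
    rw [← hs]
    push_cast
    ring
  rw [← e1, hx] at hd
  set v := mul ((p : ℤ), (q : ℤ), 0) (mul (adj (x, y, z)) (adj (x, y, z))) with hv
  have hd' : c3 (l ^ 2) v = (0, 0, 0) := by
    rw [← hd, hv]
    simp only [c3, mul, adj]
    push_cast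
    simp only [mul_zero]
  simp only [c3, Prod.mk.injEq, ZMod.intCast_zmod_eq_zero_iff_dvd, Nat.cast_pow] at hd'
  obtain ⟨⟨b1, h1⟩, ⟨b2, h2⟩, ⟨b3, h3⟩⟩ := hd'
  have c0 : c ≠ 0 := fun h => a4 (by rw [hc, h, mul_zero])
  have l2 : (l : ℤ) ^ 2 ≠ 0 := by positivity
  have hm : mul (b1, b2, b3) (mul (x, y, z) (x, y, z)) = (c ^ 2 * p, c ^ 2 * q, 0) := by
    simp only [hv, mul, adj, nm] at h1 h2 h3 hc
    simp only [mul, Prod.mk.injEq]
    refine ⟨mul_left_cancel₀ l2 ?_, mul_left_cancel₀ l2 ?_, mul_left_cancel₀ l2 ?_⟩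
    · linear_combination (-(x * x + 2 * y * z + 2 * z * y)) * h1 - 2 * (x * z + y * y + z * x) * h2 -
        2 * (x * y + y * x + 2 * z * z) * h3 +
        p * (x ^ 3 + 2 * y ^ 3 + 4 * z ^ 3 - 6 * x * y * z + l * c) * hc
    · linear_combination (-(x * y + y * x + 2 * z * z)) * h1 - (x * x + 2 * y * z + 2 * z * y) * h2 -
        2 * (x * z + y * y + z * x) * h3 +
        q * (x ^ 3 + 2 * y ^ 3 + 4 * z ^ 3 - 6 * x * y * z + l * c) * hc
    · linear_combination (-(x * z + y * y + z * x)) * h1 - (x * y + y * x + 2 * z * z) * h2 -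
        (x * x + 2 * y * z + 2 * z * y) * h3
  have n1 : nm (b1, b2, b3) = e * c ^ 4 := by
    have := congrArg nm hm
    rw [nm_mul, nm_mul, hc] at this
    refine mul_left_cancel₀ (mul_ne_zero l2 (pow_ne_zero 2 c0)) ?_
    simp only [nm] at this ⊢
    linear_combination this + c ^ 6 * hF'
  have j1 : |(adj (x, y, z)).1| ≤ 3 * A ^ 2 := by
    simp only [adj]
    refine (abs_sub _ _).trans ?_
    simp only [abs_mul, abs_pow, abs_two]
    have : |x| ^ 2 + 2 * |y| * |z| ≤ A ^ 2 + 2 * A * A := by gcongr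
    linarith
  have j2 : |(adj (x, y, z)).2.1| ≤ 3 * A ^ 2 := by
    simp only [adj]
    refine (abs_sub _ _).trans ?_
    simp only [abs_mul, abs_pow, abs_two]
    have : 2 * |z| ^ 2 + |x| * |y| ≤ 2 * A ^ 2 + A * A := by gcongr
    linarith
  have j3 : |(adj (x, y, z)).2.2| ≤ 2 * A ^ 2 := by
    simp only [adj]
    refine (abs_sub _ _).trans ?_
    simp only [abs_mul, abs_pow]
    have : |y| ^ 2 + |x| * |z| ≤ A ^ 2 + A * A := by gcongr
    linarith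
  obtain ⟨k1, k2, k3⟩ := bd_Rep j1 j2 j3 j1 j2 j3
  have p0 : (0 : ℤ) ≤ p := by positivity
  obtain ⟨m1, m2, m3⟩ := bd_Rep (a := ((p : ℤ), (q : ℤ), 0)) (x := p) (y := p) (z := 0)
    (abs_of_nonneg p0).le (by simpa using hqp) (by simp) k1 k2 k3
  rw [← hv] at m1 m2 m3
  have p3 : (p : ℤ) ^ 3 ≤ e * (l : ℤ) ^ 2 := by
    have : (0 : ℤ) ≤ (q : ℤ) ^ 3 := by positivity
    linarith
  have pA : 0 ≤ (p : ℤ) * A ^ 4 := by positivity
  refine ⟨(b1, b2, b3), c, c0, ?_, n1, ⟨cube_Rep l0 p0 A0 A1 p3 (by rw [← h1]; linarith),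
    cube_Rep l0 p0 A0 A1 p3 (by rw [← h2]; linarith),
    cube_Rep l0 p0 A0 A1 p3 (by rw [← h3]; linarith)⟩, (x, y, z), hc, hm⟩
  have : |nm (x, y, z)| ≤ 13 * A ^ 3 := by
    simp only [nm]
    refine (abs_sub _ _).trans ((add_le_add_left (abs_add_three _ _ _) _).trans ?_)
    simp only [abs_mul, abs_pow, Nat.abs_ofNat]
    have : |x| ^ 3 + 2 * |y| ^ 3 + 4 * |z| ^ 3 + 6 * |x| * |y| * |z| ≤
      A ^ 3 + 2 * A ^ 3 + 4 * A ^ 3 + 6 * A * A * A := by gcongr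
    linarith
  rw [hc, abs_mul, abs_of_pos l0] at this
  refine le_of_mul_le_mul_left (a := (l : ℤ)) ?_ l0
  linarith

end Pool.Agent.MP_971f68_nt

end

section

/-! A variance bound of Turan-Kubilius type. -/

open Finset Filter Topology

namespace Pool.Agent.MP_971f68_nt

theorem inj_TK {ι : Type} (I : Finset ι) (g : ι → ℕ) (E : ℕ → ℝ) (J : Finset ℕ)
    (hE : ∀ d, 0 ≤ E d) (hg : Set.InjOn g I) (hJ : ∀ i ∈ I, g i ∈ J) :
    ∑ i ∈ I, E (g i) ≤ ∑ d ∈ J, E d := by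
  classical
  rw [← sum_image (f := E) hg]
  refine sum_le_sum_of_subset_of_nonneg (fun d hd => ?_) fun d _ _ => hE d
  obtain ⟨i, hi, rfl⟩ := mem_image.1 hd
  exact hJ i hi

theorem pair_TK (P : Finset ℕ) (E : ℕ → ℝ) (J : Finset ℕ) (hE : ∀ d, 0 ≤ E d)
    (hP : ∀ r ∈ P, r.Prime) (h1 : ∀ r ∈ P, r ∈ J) (h2 : ∀ r ∈ P, ∀ s ∈ P, r * s ∈ J) :
    ∑ r ∈ P, ∑ s ∈ P, E (if r = s then r else r * s) ≤ 3 * ∑ d ∈ J, E d := by
  have hlt : ∑ r ∈ P, ∑ s ∈ P, (if r < s then E (r * s) else 0) ≤ ∑ d ∈ J, E d := by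
    rw [← sum_product', ← sum_filter]
    refine inj_TK _ (fun x : ℕ × ℕ => x.1 * x.2) E J hE ?_ ?_
    · rintro ⟨a, b⟩ hx ⟨c, d⟩ hy h
      simp only [coe_filter, mem_product, Set.mem_ofPred_eq] at hx hy h
      have ha := hP a hx.1.1
      have hb := hP b hx.1.2
      have hc := hP c hy.1.1
      have hd := hP d hy.1.2
      have e1 : a = c ∨ a = d := by
        rcases (Nat.Prime.dvd_mul ha).1 ⟨b, h.symm⟩ with h' | h'
        · exact Or.inl ((Nat.prime_dvd_prime_iff_eq ha hc).1 h')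
        · exact Or.inr ((Nat.prime_dvd_prime_iff_eq ha hd).1 h')
      have e2 : c = a ∨ c = b := by
        rcases (Nat.Prime.dvd_mul hc).1 ⟨d, h⟩ with h' | h'
        · exact Or.inl ((Nat.prime_dvd_prime_iff_eq hc ha).1 h')
        · exact Or.inr ((Nat.prime_dvd_prime_iff_eq hc hb).1 h')
      have e3 : a = c := by omega
      subst e3
      rw [Nat.eq_of_mul_eq_mul_left ha.pos h]
    · rintro ⟨a, b⟩ hx
      simp only [mem_filter, mem_product] at hx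
      exact h2 a hx.1.1 b hx.1.2
  have hgt : ∑ r ∈ P, ∑ s ∈ P, (if s < r then E (r * s) else 0) ≤ ∑ d ∈ J, E d := by
    rw [sum_comm]
    simpa only [mul_comm] using hlt
  have heq : ∑ r ∈ P, ∑ s ∈ P, (if r = s then E r else 0) ≤ ∑ d ∈ J, E d := by
    refine le_trans (le_of_eq (sum_congr rfl fun r hr => ?_))
      (inj_TK P (fun r => r) E J hE (fun _ _ _ _ h => h) h1)
    rw [sum_ite_eq, if_pos hr]
  have : ∑ r ∈ P, ∑ s ∈ P, E (if r = s then r else r * s) =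
      ∑ r ∈ P, ∑ s ∈ P, (if r < s then E (r * s) else 0) +
      ∑ r ∈ P, ∑ s ∈ P, (if s < r then E (r * s) else 0) +
      ∑ r ∈ P, ∑ s ∈ P, (if r = s then E r else 0) := by
    simp only [← sum_add_distrib]
    refine sum_congr rfl fun r _ => sum_congr rfl fun s _ => ?_
    rcases lt_trichotomy r s with h | h | h
    · simp [h, h.ne, h.le]
    · simp [h]
    · simp [h, h.ne', h.le]
  linarith

theorem expand_TK (p : ℕ) (P : Finset ℕ) (a : ℕ → ℝ) (μ : ℝ) (hP : ∀ r ∈ P, r.Prime) :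
    ∑ q ∈ Icc 1 p, th q * (∑ r ∈ P.filter (fun r => r ∣ F p q), a r - μ) ^ 2 =
      ∑ r ∈ P, ∑ s ∈ P, a r * a s * TH p (fun q => (if r = s then r else r * s) ∣ F p q) -
      2 * μ * ∑ r ∈ P, a r * TH p (fun q => r ∣ F p q) + μ ^ 2 * TH p (fun q => 1 ∣ F p q) := by
  simp only [TH_ite, mul_sum]
  rw [sum_comm (s := P) (t := Icc 1 p)]
  have h : ∑ r ∈ P, ∑ s ∈ P, ∑ q ∈ Icc 1 p, a r * a s *
      (th q * if (if r = s then r else r * s) ∣ F p q then 1 else 0) =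
      ∑ q ∈ Icc 1 p, ∑ r ∈ P, ∑ s ∈ P, a r * a s *
      (th q * if (if r = s then r else r * s) ∣ F p q then 1 else 0) := by
    rw [sum_comm (s := Icc 1 p)]
    exact sum_congr rfl fun r _ => sum_comm
  rw [h, ← sum_sub_distrib, ← sum_add_distrib]
  refine sum_congr rfl fun q _ => ?_
  have h1 : ∑ r ∈ P, ∑ s ∈ P, a r * a s *
      (th q * if (if r = s then r else r * s) ∣ F p q then 1 else 0) =
      th q * (∑ r ∈ P.filter (fun r => r ∣ F p q), a r) ^ 2 := by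
    rw [sq, sum_filter, sum_mul_sum, mul_sum]
    refine sum_congr rfl fun r hr => ?_
    rw [mul_sum]
    refine sum_congr rfl fun s hs => ?_
    by_cases hrs : r = s
    · subst hrs
      rw [if_pos rfl]
      split_ifs <;> simp [mul_comm]
    · rw [if_neg hrs]
      have hc := (Nat.coprime_primes (hP r hr) (hP s hs)).2 hrs
      by_cases h1 : r ∣ F p q
      · by_cases h2 : s ∣ F p q
        · rw [if_pos (hc.mul_dvd_of_dvd_of_dvd h1 h2), if_pos h1, if_pos h2]; ring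
        · rw [if_neg (fun h => h2 (Dvd.dvd.trans (Dvd.intro_left r rfl) h)), if_neg h2]; ring
      · rw [if_neg (fun h => h1 (Dvd.dvd.trans (Dvd.intro s rfl) h)), if_neg h1]; ring
  have h2 : ∑ r ∈ P, 2 * μ * (a r * (th q * if r ∣ F p q then 1 else 0)) =
      2 * μ * th q * ∑ r ∈ P.filter (fun r => r ∣ F p q), a r := by
    rw [sum_filter, mul_sum]
    refine sum_congr rfl fun r _ => ?_
    split_ifs <;> ring
  rw [h1, h2, if_pos (one_dvd _)]
  ring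

theorem s_TK (h1 : StDv) (h2 : StRho) : StTK := by
  obtain ⟨hm, h3, -, -, h4⟩ := h2
  have hlog : ∀ᶠ p : ℕ in atTop, 1000 ≤ Real.log p :=
    (Real.tendsto_log_atTop.comp tendsto_natCast_atTop_atTop).eventually_ge_atTop 1000
  filter_upwards [h1 3, hlog] with p hE hL hp P a hP
  obtain ⟨E, hE0, hE, hS⟩ := hE
  set S := ∑ d ∈ (Icc 1 p).filter (fun d => d ^ 4 ≤ p), E d with hSdef
  have hp0 : (0 : ℝ) ≤ p := Nat.cast_nonneg p
  have hlt : ∀ r ∈ P, r < p := fun r hr => by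
    obtain ⟨-, h5, h6, -⟩ := hP r hr
    have := Nat.pow_lt_pow_right (show 1 < r by omega) (show 1 < 8 by norm_num)
    rw [pow_one] at this
    omega
  have hco : ∀ r ∈ P, p.Coprime r := fun r hr =>
    (Nat.coprime_primes hp (hP r hr).1).2 (hlt r hr).ne'
  have h44 : ∀ r ∈ P, ∀ s ∈ P, (r * s) ^ 4 ≤ p := fun r hr s hs => by
    have a1 := (hP r hr).2.2.1
    have a2 := (hP s hs).2.2.1
    have : ((r * s) ^ 4) ^ 2 ≤ p ^ 2 := by
      calc ((r * s) ^ 4) ^ 2 = r ^ 8 * s ^ 8 := by ring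
        _ ≤ p * p := Nat.mul_le_mul a1 a2
        _ = p ^ 2 := by ring
    exact (Nat.pow_le_pow_iff_left (by norm_num)).1 this
  have h41 : ∀ r ∈ P, r ^ 4 ≤ p := fun r hr =>
    le_trans (Nat.pow_le_pow_right (hP r hr).1.pos (by norm_num)) (hP r hr).2.2.1
  have hJ : ∀ d : ℕ, 0 < d → d ^ 4 ≤ p → d ∈ (Icc 1 p).filter (fun d => d ^ 4 ≤ p) :=
    fun d h5 h6 => mem_filter.2 ⟨mem_Icc.2 ⟨h5, le_trans (Nat.le_self_pow (by norm_num) d) h6⟩, h6⟩
  set c : ℕ → ℝ := fun r => rho0 r / ((r : ℝ) - 1) with hc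
  have hρ : ∀ r ∈ P, rho p r = rho0 r := fun r hr =>
    (h4 p r hp (hP r hr).1 (hlt r hr)).2 (hP r hr).2.1
  have hρ3 : ∀ r ∈ P, (rho0 r : ℝ) ≤ 3 := fun r hr => by exact_mod_cast (h3 r (hP r hr).1).1
  have hφ : ∀ r ∈ P, (r.totient : ℝ) = (r : ℝ) - 1 := fun r hr => by
    rw [Nat.totient_prime (hP r hr).1, Nat.cast_pred (hP r hr).1.pos]
  have hr3 : ∀ r ∈ P, (3 : ℝ) ≤ r := fun r hr => by exact_mod_cast (hP r hr).2.1
  have hc0 : ∀ r ∈ P, 0 ≤ c r := fun r hr =>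
    div_nonneg (Nat.cast_nonneg _) (by linarith [hr3 r hr])
  have hc6 : ∀ r ∈ P, c r ≤ 6 * (1 / (r : ℝ)) := fun r hr => by
    have := hr3 r hr
    rw [hc, mul_one_div, div_le_div_iff₀ (by linarith) (by linarith)]
    nlinarith [hρ3 r hr]
  have hT1 : ∀ r ∈ P, |TH p (fun q => r ∣ F p q) - c r * p| ≤ 3 * E r := fun r hr => by
    have := hE r (hP r hr).1.pos (h41 r hr) (hco r hr)
    rw [hρ r hr, hφ r hr] at this
    refine le_trans (le_of_eq ?_) (this.trans (mul_le_mul_of_nonneg_right (hρ3 r hr) (hE0 r)))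
    rw [hc]; congr 2; ring
  have hT2 : ∀ r ∈ P, ∀ s ∈ P, TH p (fun q => (if r = s then r else r * s) ∣ F p q) ≤
      c r * c s * p + (if r = s then c r * p else 0) + 9 * E (if r = s then r else r * s) := by
    intro r hr s hs
    by_cases hrs : r = s
    · simp only [if_pos hrs]
      have := (abs_le.1 (hT1 r hr)).2
      nlinarith [hE0 r, mul_nonneg (mul_nonneg (hc0 r hr) (hc0 s hs)) hp0]
    · simp only [if_neg hrs]
      have hcop := (Nat.coprime_primes (hP r hr).1 (hP s hs).1).2 hrs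
      have := (abs_le.1 (hE (r * s) (Nat.mul_pos (hP r hr).1.pos (hP s hs).1.pos) (h44 r hr s hs)
        ((hco r hr).mul_right (hco s hs)))).2
      rw [hm p r s hcop, Nat.totient_mul hcop, hρ r hr, hρ s hs, Nat.cast_mul, Nat.cast_mul,
        hφ r hr, hφ s hs] at this
      have h9 : (rho0 r : ℝ) * rho0 s ≤ 9 := by
        nlinarith [hρ3 r hr, hρ3 s hs, Nat.cast_nonneg (α := ℝ) (rho0 r),
          Nat.cast_nonneg (α := ℝ) (rho0 s)]
      have h10 : (rho0 r : ℝ) * rho0 s * p / (((r : ℝ) - 1) * ((s : ℝ) - 1)) = c r * c s * p := by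
        simp only [hc]; rw [div_mul_div_comm]; ring
      rw [h10] at this
      nlinarith [mul_le_mul_of_nonneg_right h9 (hE0 (r * s))]
  have hT0 : TH p (fun q => 1 ∣ F p q) ≤ p + S := by
    have := (abs_le.1 (hE 1 le_rfl (by simpa using hp.one_le) (by simp))).2
    have h5 : rho p 1 = 1 := by simp [rho]
    have h6 : E 1 ≤ S := single_le_sum (fun d _ => hE0 d) (hJ 1 one_pos (by simpa using hp.one_le))
    rw [h5] at this
    simp only [Nat.cast_one, Nat.totient_one, one_mul, div_one] at this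
    linarith
  have hμ : ∑ r ∈ P, a r * rho0 r / ((r : ℝ) - 1) = ∑ r ∈ P, a r * c r :=
    sum_congr rfl fun r _ => by rw [hc, mul_div_assoc]
  rw [hμ, expand_TK p P a _ fun r hr => (hP r hr).1]
  set μ := ∑ r ∈ P, a r * c r with hμd
  set R := ∑ r ∈ P, 1 / (r : ℝ) with hR
  have ha0 : ∀ r ∈ P, 0 ≤ a r := fun r hr => (hP r hr).2.2.2.1
  have ha2 : ∀ r ∈ P, a r ≤ 2 := fun r hr => (hP r hr).2.2.2.2
  have hμ0 : 0 ≤ μ := sum_nonneg fun r hr => mul_nonneg (ha0 r hr) (hc0 r hr)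
  have hμR : μ ≤ 12 * R := by
    rw [hR, mul_sum]
    refine sum_le_sum fun r hr => ?_
    nlinarith [ha0 r hr, ha2 r hr, hc0 r hr, hc6 r hr]
  have hRL : R ≤ 1 + Real.log p := by
    refine le_trans ?_ (harmonic_le_one_add_log p)
    rw [harmonic_eq_sum_Icc]
    push_cast
    rw [hR]
    simp only [one_div]
    exact sum_le_sum_of_subset_of_nonneg
      (fun r hr => mem_Icc.2 ⟨(hP r hr).1.pos, (hlt r hr).le⟩) fun _ _ _ => by positivity
  have hA : ∑ r ∈ P, ∑ s ∈ P, a r * a s * TH p (fun q => (if r = s then r else r * s) ∣ F p q) ≤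
      μ ^ 2 * p + 24 * R * p + 36 * (3 * S) := by
    have e1 : μ ^ 2 * p = ∑ r ∈ P, ∑ s ∈ P, a r * a s * (c r * c s * p) := by
      rw [sq, hμd, sum_mul_sum, sum_mul]
      refine sum_congr rfl fun r _ => ?_
      rw [sum_mul]
      exact sum_congr rfl fun s _ => by ring
    have e2 : ∑ r ∈ P, ∑ s ∈ P, a r * a s * (if r = s then c r * p else 0) ≤ 24 * R * p := by
      rw [hR, mul_sum, sum_mul]
      refine sum_le_sum fun r hr => ?_
      simp only [mul_ite, mul_zero]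
      rw [sum_ite_eq, if_pos hr, ← mul_assoc]
      refine mul_le_mul_of_nonneg_right ?_ hp0
      have : a r * a r ≤ 4 := by nlinarith [ha0 r hr, ha2 r hr]
      nlinarith [hc0 r hr, hc6 r hr]
    have e3 := pair_TK P E _ hE0 (fun r hr => (hP r hr).1)
      (fun r hr => hJ r (hP r hr).1.pos (h41 r hr))
      (fun r hr s hs => hJ _ (Nat.mul_pos (hP r hr).1.pos (hP s hs).1.pos) (h44 r hr s hs))
    refine le_trans ?_ (add_le_add (add_le_add e1.ge e2)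
      (mul_le_mul_of_nonneg_left e3 (by norm_num)))
    simp only [mul_sum, ← sum_add_distrib]
    refine sum_le_sum fun r hr => sum_le_sum fun s hs => ?_
    have f1 := mul_nonneg (ha0 r hr) (ha0 s hs)
    have f2 : a r * a s ≤ 4 := by nlinarith [ha0 r hr, ha2 r hr, ha0 s hs, ha2 s hs]
    have f3 := mul_le_mul_of_nonneg_left (hT2 r hr s hs) f1
    have f4 := mul_le_mul_of_nonneg_right f2 (hE0 (if r = s then r else r * s))
    linarith
  have hB : μ * p - 6 * S ≤ ∑ r ∈ P, a r * TH p (fun q => r ∣ F p q) := by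
    have e3 : ∑ r ∈ P, E r ≤ S := inj_TK P (fun r => r) E _ hE0 (fun _ _ _ _ h => h)
      fun r hr => hJ r (hP r hr).1.pos (h41 r hr)
    have : μ * p - 6 * ∑ r ∈ P, E r ≤ ∑ r ∈ P, a r * TH p (fun q => r ∣ F p q) := by
      rw [hμd, sum_mul, mul_sum, ← sum_sub_distrib]
      refine sum_le_sum fun r hr => ?_
      have f1 := (abs_le.1 (hT1 r hr)).1
      have f2 := mul_le_mul_of_nonneg_left f1 (ha0 r hr)
      have f3 := mul_le_mul_of_nonneg_right (ha2 r hr) (hE0 r)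
      linarith
    linarith
  have hS0 : 0 ≤ S := sum_nonneg fun d _ => hE0 d
  have hfin : S * (108 + 12 * μ + μ ^ 2) ≤ p := by
    have f1 : μ ≤ 24 * Real.log p := by linarith
    have f2 : 108 + 12 * μ + μ ^ 2 ≤ Real.log p ^ 3 := by
      have : μ ^ 2 ≤ (24 * Real.log p) ^ 2 := pow_le_pow_left₀ hμ0 f1 2
      nlinarith [mul_nonneg (sq_nonneg (Real.log p)) (sub_nonneg.2 hL)]
    rw [le_div_iff₀ (by positivity)] at hS
    exact (mul_le_mul_of_nonneg_left f2 hS0).trans hS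
  have g1 := mul_le_mul_of_nonneg_left hB hμ0
  have g2 := mul_le_mul_of_nonneg_left hT0 (sq_nonneg μ)
  nlinarith

end Pool.Agent.MP_971f68_nt

end
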