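import Pool.Agent.Mg.F436a94p.Gcdf306
import Pool.Agent.Mg.F436a94p.G08a52e

set_option linter.all false

section

/-!
Forms that may share a root modulo a site: definitions and statements.
-/

open Finset Filter

noncomputable section

namespace Pool.Agent.MP_43e117_nt.GP

open PG
open MP_fdd1d3_nt (PP LL SS)

section

variable {ι J : Type} [Fintype ι] [DecidableEq ι] [Fintype J] [DecidableEq J]

open Classical in
/-- erasing the labels that are not live -/
def el (Lb : ι → J → Prop) (o : ι → Option J) : ι → Option J :=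
  fun p => (o p).bind fun l => if Lb p l then some l else none

/-- `F` sees only the live labels -/
def Inv (Lb : ι → J → Prop) (F : (ι → Option J) → ℝ) : Prop := ∀ o, F (el Lb o) = F o

/-- relabelling -/
def tw (π : ι → Equiv.Perm J) (σ : ι → Option J) : ι → Option J := fun p => (σ p).map (π p)

/-- truncated product weights that depend on the label -/
def yG (q : ι → ℕ) (G : J → Finset ι → ℝ) (D : ℝ) (σ : ι → Option J) : ℝ :=
  if ∑ j, LL q (SS σ j) ≤ D then ∏ j, G j (SS σ j) else 0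

omit [Fintype ι] [DecidableEq ι] [Fintype J] [DecidableEq J] in
theorem el_some {Lb : ι → J → Prop} {o : ι → Option J} {p : ι} {l : J} :
    el Lb o p = some l ↔ o p = some l ∧ Lb p l := by
  unfold el
  cases o p with
  | none => simp
  | some a =>
    by_cases h : Lb p a
    · simp only [Option.bind_some, if_pos h, Option.some.injEq]
      exact ⟨fun e => ⟨e, e ▸ h⟩, fun e => e.1⟩
    · simp only [Option.bind_some, if_neg h, Option.some.injEq]
      exact ⟨fun e => (by cases e), fun e => absurd (e.1 ▸ e.2) h⟩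

omit [Fintype ι] [DecidableEq ι] [Fintype J] in
theorem pr_el {Lb : ι → J → Prop} {j : J} (hj : ∀ p, Lb p j) (o : ι → Option J) :
    pr j (el Lb o) = pr j o := funext fun p => by simp only [pr, el_some, hj p, and_true]

theorem inv_Psi {Lb : ι → J → Prop} (r : ι → ℝ) {C : (ι → Option J) → ℝ} (hC : Sup Lb C) :
    Inv Lb (Psi r C) := fun o => by
  refine sum_congr rfl fun σ _ => ?_
  by_cases h : C σ = 0
  · rw [h, zero_mul, zero_mul]
  · refine congrArg _ (prod_congr rfl fun p _ => ?_)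
    cases e : σ p with
    | none => rfl
    | some l => simp only [fr, el_some, hC σ h p l e, and_true]

/-- an expansion of a function that sees only live labels can be taken with live labels -/
theorem exp_live {Lb : ι → J → Prop} {q : ι → ℕ} {L0 : J → Prop} {F : (ι → Option J) → ℝ}
    {D B a : ℝ} (hI : Inv Lb F) (hE : Exp q L0 F D B a) :
    ∃ c : (ι → Option J) → ℝ, (∀ o, F o = ∑ τ, c τ * MM τ o) ∧ ∀ τ, |c τ| ≤ B * a ^ ct τ ∧
      (c τ ≠ 0 → (dn q τ : ℝ) ≤ D ∧ ∀ p l, τ p = some l → L0 l ∧ Lb p l) := by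
  classical
  obtain ⟨c, h1, h2⟩ := hE
  refine ⟨fun τ => if ∀ p l, τ p = some l → Lb p l then c τ else 0, fun o => ?_, fun τ => ⟨?_, ?_⟩⟩
  · rw [← hI o, h1]
    refine sum_congr rfl fun τ _ => ?_
    dsimp only
    split_ifs with h
    · refine congrArg _ (prod_congr rfl fun p _ => ?_)
      cases e : τ p with
      | none => simp
      | some l => simp only [el_some, h p l e, and_true]
    · push Not at h
      obtain ⟨p, l, e, h⟩ := h
      rw [zero_mul, MM, prod_eq_zero (mem_univ p), mul_zero]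
      simp [e, el_some, h]
  · dsimp only
    split_ifs
    · exact (h2 τ).1
    · rw [abs_zero]
      exact (abs_nonneg _).trans (h2 τ).1
  · dsimp only
    split_ifs with h
    · exact fun h0 => ⟨((h2 τ).2 h0).1, fun p l e => ⟨((h2 τ).2 h0).2 p l e, h p l e⟩⟩
    · exact fun h0 => absurd rfl h0

theorem psi_tw (r : ι → ℝ) (π : ι → Equiv.Perm J) {C C' : (ι → Option J) → ℝ}
    (h : ∀ σ, C' (tw π σ) = C σ) (o : ι → Option J) : Psi r C' (tw π o) = Psi r C o := by
  rw [Psi, Psi, ← Equiv.sum_comp (Equiv.piCongrRight fun p => (π p).optionCongr)]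
  refine sum_congr rfl fun σ _ => congrArg₂ _ (h σ) (prod_congr rfl fun p _ => ?_)
  show fr (r p) ((σ p).map (π p)) ((o p).map (π p)) = _
  cases σ p with
  | none => rfl
  | some l => cases o p <;> simp [fr]

end

/-- a system of forms `n + h l` on the class `b`, with live labels and the state map -/
structure Sy (J : Type) (w R : ℕ) : Type where
  b : ℕ
  h : J → ℕ
  Lb : Si w R → J → Prop
  st : ℕ → Si w R → Option J
  sp : ∀ n p l, st n p = some l ↔ Lb p l ∧ p.1 ∣ n + h l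

/-- the label `i` is in front -/
def Sy.Fr {J : Type} {w R : ℕ} (s : Sy J w R) (H : ℕ) (i : J) : Prop :=
  (∀ p, s.Lb p i) ∧ s.h i ≤ H ∧ (s.b + s.h i).Coprime (WW w)

def Sy.P {J : Type} [Fintype J] [DecidableEq J] {w R : ℕ} (s : Sy J w R)
    (C : (Si w R → Option J) → ℝ) (n : ℕ) : ℝ := Psi (rr w R) C (s.st n)

theorem Sy.pr_st {J : Type} [DecidableEq J] {w R : ℕ} (s : Sy J w R) {j : J} (hj : ∀ p, s.Lb p j)
    (n : ℕ) : pr j (s.st n) = st1 w R (n + s.h j) :=
  funext fun p => by simp only [pr, st1, s.sp, hj p, true_and]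

theorem Ew_of {P : ℕ → ℕ → Prop} (w0 : ℕ) (H : ∀ w, w0 ≤ w → ∀ᶠ N in atTop, P w N) : Ew P :=
  ⟨w0, H⟩

theorem Ew_ge (w0 : ℕ) : Ew fun w _ => w0 ≤ w := ⟨w0, fun _ hw => Eventually.of_forall fun _ => hw⟩

theorem Ew_RR {P : ℕ → ℕ → Prop} (hP : Ew P) {δ : ℝ} (hδ : δ < 1 / 4) :
    Ew fun w N => P w (RR δ N) := by
  obtain ⟨a, ha⟩ := hP
  exact ⟨a, fun w hw => (tendsto_RR hδ).eventually (ha w hw)⟩

/-- a property of all pairs of front labels and all admissible coefficients -/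
def Pair2 (J : Type) (δ : ℝ) (A H : ℕ) (P : ∀ (w N : ℕ), Sy J w (RR δ N) → J → J →
    ((Si w (RR δ N) → Option J) → ℝ) → Prop) : Prop :=
  Ew fun w N => ∀ (s : Sy J w (RR δ N)) i j, i ≠ j → s.Fr H i → s.Fr H j →
    ∀ C, Adm δ A N w (fun l => l ≠ i ∧ l ≠ j) C → Sup s.Lb C → P w N s i j C

def StTR2 : Prop := ∀ (J : Type) [Fintype J] [DecidableEq J] (w R : ℕ) (s : Sy J w R) (N c H : ℕ)
  (j : J) (f : ℕ → ℝ) (F : (Si w R → Option J) → ℝ) (D B a ε : ℝ), s.Fr H j → Inv s.Lb F →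
  Exp (qq w R) (fun l => l ≠ j) F D B a → 0 ≤ a → a * Fintype.card J ≤ 2 ^ c →
  Lev f (Ioc (N + s.h j) (N + N / 2 + s.h j)) (WW w * D) c ε →
  |∑ n ∈ II N w s.b, f (n + s.h j) * F (s.st n) -
    (∑ m ∈ IW N w (s.h j), f m * Ex (om (rr w R) j (dv w R m)) F) / (WW w).totient| ≤ B * ε

def StT02 : Prop := ∀ (J : Type) [Fintype J] [DecidableEq J] (w R : ℕ) (s : Sy J w R) (x X c : ℕ)
  (Lb : J → Prop) (F : (Si w R → Option J) → ℝ) (D B a : ℝ), Inv s.Lb F →
  Exp (qq w R) Lb F D B a → 0 ≤ a → a * Fintype.card J ≤ 2 ^ c → 1 ≤ D →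
  |∑ n ∈ (Ioc x (x + X)).filter (fun n => n ≡ s.b [MOD WW w]), F (s.st n) -
    X / WW w * Ex (un J w R) F| ≤ B * (D * (1 + Real.log D) ^ 2 ^ c)

def StTA2 : Prop := ∀ (J : Type) [Fintype J] [DecidableEq J] (H : ℕ) (δ ε a : ℝ) (A : ℕ),
  0 < δ → δ ≤ 1 / 2000 → 0 < ε → 0 ≤ a → Ew fun w N =>
    ∀ (s : Sy J w (RR δ N)) (i : J) (F : (Si w (RR δ N) → Option J) → ℝ), s.Fr H i →
    Inv s.Lb F → (∀ o, 0 ≤ F o) →
    Exp (qq w (RR δ N)) (fun l => l ≠ i) F ((N : ℝ) ^ (1 / 2 - 3 * δ / 2)) (Real.log N ^ A) a →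
    (1 - ε) * be w N * Ex (om (rr w (RR δ N)) i ∅) F - er N ≤
        ∑ n ∈ II N w s.b, th (n + s.h i) * F (s.st n) ∧
      ∑ n ∈ II N w s.b, th (n + s.h i) * F (s.st n) ≤
        (1 + ε) * be w N * Ex (om (rr w (RR δ N)) i ∅) F + er N

def StTB2 : Prop := ∀ (J : Type) [Fintype J] [DecidableEq J] (H : ℕ) (δ a : ℝ) (A : ℕ),
  0 < δ → δ ≤ 1 / 2000 → 0 ≤ a → Ew fun w N =>
    ∀ (s : Sy J w (RR δ N)) (j : J) (F : (Si w (RR δ N) → Option J) → ℝ), s.Fr H j →
    Inv s.Lb F →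
    Exp (qq w (RR δ N)) (fun l => l ≠ j) F ((N : ℝ) ^ (1 / 2 - 3 * δ / 2)) (Real.log N ^ A) a →
    |∑ n ∈ II N w s.b, fb w (RR δ N) (n + s.h j) * F (s.st n) -
      (∑ m ∈ IW N w (s.h j), fb w (RR δ N) m *
        Ex (om (rr w (RR δ N)) j (dv w (RR δ N) m)) F) / (WW w).totient| ≤ N / Real.log N ^ 4

def StS02 : Prop := ∀ (J : Type) [Fintype J] [DecidableEq J] (δ ε : ℝ) (A : ℕ),
  0 < δ → δ ≤ 1 / 2000 → 0 < ε → Ew fun w N => ∀ (s : Sy J w (RR δ N)) C,
    Adm δ A N w (fun _ : J => True) C → Sup s.Lb C → ∑ n ∈ II N w s.b, s.P C n ^ 2 ≤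
      (1 + ε) * (be w N * VV w) * QQ (rr w (RR δ N)) C + er N

def StS12 : Prop := ∀ (J : Type) [Fintype J] [DecidableEq J] (H : ℕ) (δ ε : ℝ) (A : ℕ),
  0 < δ → δ ≤ 1 / 2000 → 0 < ε → Ew fun w N => ∀ (s : Sy J w (RR δ N)) i C, s.Fr H i →
    Adm δ A N w (fun l => l ≠ i) C → Sup s.Lb C →
    (1 - ε) * be w N * QQ (rr w (RR δ N)) C - er N ≤
      ∑ n ∈ II N w s.b, th (n + s.h i) * s.P C n ^ 2

def StU12 : Prop := ∀ (J : Type) [Fintype J] [DecidableEq J] (H : ℕ) (δ ε : ℝ) (A : ℕ),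
  0 < δ → δ ≤ 1 / 2000 → 0 < ε → Pair2 J δ A H fun w N s i j C =>
    ∑ n ∈ II N w s.b, th (n + s.h i) *
        (SA w (RR δ N) (Real.log (RR δ N)) (n + s.h j) ^ 2 * s.P C n ^ 2) ≤
      (1 + ε) * be w N * QQ (rr w (RR δ N)) C / GA w (RR δ N) (Real.log (RR δ N)) + er N

def StL12 : Prop := ∀ (J : Type) [Fintype J] [DecidableEq J] (H : ℕ) (δ ε : ℝ) (A : ℕ),
  0 < δ → δ ≤ 1 / 2000 → 0 < ε → Pair2 J δ A H fun w N s i j C =>
    (1 - ε) * be w N * QQ (rr w (RR δ N)) C * Et w (RR δ N) /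
        GA w (RR δ N) (109 * ee (RR δ N)) - er N ≤
      ∑ n ∈ II N w s.b, th (n + s.h i) * (Tm w (RR δ N) (n + s.h j) * s.P C n ^ 2)

def StU22 : Prop := ∀ (J : Type) [Fintype J] [DecidableEq J] (H : ℕ) (δ : ℝ) (A : ℕ),
  0 < δ → δ ≤ 1 / 2000 → Pair2 J δ A H fun w N s i j C =>
    ∑ n ∈ II N w s.b, th (n + s.h i) *
        (nz w (RR δ N) (n + s.h j) * Tm w (RR δ N) (n + s.h j) * s.P C n ^ 2) ≤
      3 / 100 * be w N * QQ (rr w (RR δ N)) C * Et w (RR δ N) /
        GA w (RR δ N) (109 * ee (RR δ N)) + er N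

def StU32 : Prop := ∀ (J : Type) [Fintype J] [DecidableEq J] (H : ℕ) (δ ε : ℝ) (A : ℕ),
  0 < δ → δ ≤ 1 / 2000 → 0 < ε → Pair2 J δ A H fun w N s i j C =>
    ∑ n ∈ II N w s.b, th (n + s.h i) * (fb w (RR δ N) (n + s.h j) * s.P C n ^ 2) ≤
      (1 + ε) * Real.log (2 * N) * QQ (rr w (RR δ N)) C / GA w (RR δ N) (Real.log (RR δ N)) *
        ((∑ m ∈ IW N w (s.h j), fb w (RR δ N) m) / (WW w).totient) + er N

def StPair2 : Prop := ∀ (J : Type) [Fintype J] [DecidableEq J] (H : ℕ) (δ : ℝ) (A : ℕ),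
  0 < δ → δ ≤ 1 / 2000 → Pair2 J δ A H fun w N s i j C =>
    ∑ n ∈ II N w s.b, th (n + s.h i) *
        ((if (n + s.h j).Prime then 1 else 0) * s.P C n ^ 2) ≤
      (1 - 1 / 10 ^ 11) * be w N * QQ (rr w (RR δ N)) C / GA w (RR δ N) (Real.log (RR δ N)) +
        4 * er N

/-! The weights. -/

def StYA : Prop := ∀ (ι J : Type) [Fintype ι] [DecidableEq ι] [Fintype J] [DecidableEq J]
  (r : ι → ℝ) (q : ι → ℕ) (G : J → Finset ι → ℝ) (D : ℝ), (∀ p, 0 ≤ r p) → (∀ l, Gd (G l)) →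
  Mono (yG q G D) ∧ (∀ σ : ι → Option J, yG q G D σ ≤ 1) ∧
    QQ r (yG q G D) ≤ ∏ l, ga r (G l) ∧ ∀ i j, i ≠ j → QQ r (red r j (red r i (yG q G D))) ≤
      (m1 r (G i) * m1 r (G j)) ^ 2 * ∏ l ∈ (univ.erase j).erase i, ga r (G l)

def StYB : Prop := ∀ (ι J : Type) [Fintype ι] [DecidableEq ι] [Fintype J] [DecidableEq J]
  (r : ι → ℝ) (q : ι → ℕ) (G : J → Finset ι → ℝ) (k D T Z : ℝ) (i : J), (∀ p, 0 ≤ r p) →
  (∀ l, Gd (G l)) → (Fintype.card J : ℝ) ≤ k → 2 ≤ Fintype.card J →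
  (∀ s, G i s ≠ 0 → LL q s ≤ T) → T < D → (∀ l, ze r q (G l) ≤ Z * ga r (G l)) → 0 ≤ Z →
  m1 r (G i) ^ 2 * (∏ l ∈ univ.erase i, ga r (G l)) * (1 - 3 * k ^ 2 * eta r - k * Z / (D - T)) ≤
    QQ r (red r i (yG q G D))

/-- the coefficients for the live labels `Lb`, with the three diagonal forms -/
def Wt {J : Type} [Fintype J] [DecidableEq J] (δ ε : ℝ) (A N w : ℕ) (m γ g : ℝ)
    (Lb : Si w (RR δ N) → J → Prop) (y : (Si w (RR δ N) → Option J) → ℝ) : Prop :=
  Adm δ A N w (fun _ => True) y ∧ Sup Lb y ∧ QQ (rr w (RR δ N)) y ≤ g * γ ^ 2 ∧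
  (∀ i, Adm δ A N w (fun l => l ≠ i) (red (rr w (RR δ N)) i y) ∧
    Sup Lb (red (rr w (RR δ N)) i y) ∧ ((∀ p, Lb p i) →
      (1 - ε) * m ^ 2 * (g * γ) ≤ QQ (rr w (RR δ N)) (red (rr w (RR δ N)) i y))) ∧
  ∀ i j, Adm δ A N w (fun l => l ≠ i ∧ l ≠ j)
      (red (rr w (RR δ N)) j (red (rr w (RR δ N)) i y)) ∧
    Sup Lb (red (rr w (RR δ N)) j (red (rr w (RR δ N)) i y)) ∧
    (i ≠ j → (∀ p, Lb p i) → (∀ p, Lb p j) →
      QQ (rr w (RR δ N)) (red (rr w (RR δ N)) j (red (rr w (RR δ N)) i y)) ≤ m ^ 4 * g)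

def StMa2 : Prop := ∀ δ μ ε : ℝ, 0 < δ → δ ≤ 1 / 2000 → 0 < ε → ∃ k0 : ℕ,
  ∀ (J : Type) [Fintype J] [DecidableEq J], k0 ≤ Fintype.card J → ∀ B : ℝ, ∃ A : ℕ, Ew fun w N =>
  ∀ (Ir : Finset (Si w (RR δ N))) (Lb Lb' : Si w (RR δ N) → J → Prop)
    (π : Si w (RR δ N) → Equiv.Perm J), ∑ p ∈ Ir, Real.log p.1 ≤ B * Real.log N →
    (∀ p, p ∉ Ir → π p = 1 ∧ ∀ l, Lb p l) → (∀ p l, Lb' p (π p l) ↔ Lb p l) →
    (∃ i j, i ≠ j ∧ (∀ p, Lb p i) ∧ ∀ p, Lb p j) →
    ∃ (y y' : (Si w (RR δ N) → Option J) → ℝ) (m γ g : ℝ), 1 ≤ m ∧ 1 ≤ γ ∧ 1 ≤ g ∧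
      Wt δ ε A N w m γ g Lb y ∧ Wt δ ε A N w m γ g Lb' y' ∧ (∀ σ, y' (tw π σ) = y σ) ∧
      μ * VV w * Real.log (2 * N) * γ ≤ Fintype.card J * m ^ 2

/-- the centre of the reflection -/
def MN (N : ℕ) : ℕ := 2 * N + N / 2 + 1

/-- the side of a cell -/
def sd {K : ℕ} (l : Fin 4 × Fin K) : Bool := decide (l.1 < 2)

/-- the variable seen from a side -/
def ro (N : ℕ) (s : Bool) (n : ℕ) : ℕ := if s then n else MN N - n

def StM2 : Prop := ∃ K : ℕ, ∀ H : ℕ, Ew fun w N => ∀ (a : Fin 4 × Fin K → ℕ) (β : Bool → ℕ),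
  (∀ l, a l ≤ H) → (∀ l l', sd l = sd l' → a l = a l' → l = l') →
  (∀ l, (β (sd l) + a l).Coprime (WW w)) → β true + β false ≡ MN N [MOD WW w] →
  ∃ n ∈ II N w (β true), ∃ i j, i.1 ≠ j.1 ∧ (ro N (sd i) n + a i).Prime ∧
    (ro N (sd j) n + a j).Prime

def Cell2 (K : ℕ) (P : ℕ → Prop) : Prop := ∀ h : Fin 2 × Fin K → ℕ, Function.Injective h →
  (∀ p : ℕ, p.Prime → ∃ c : ℕ, ∀ l, ¬ p ∣ c + h l) →
  ∃ i j, i.1 ≠ j.1 ∧ h i < h j ∧ P (h j - h i)

/-- sums of two primes between n and 2n have bounded gaps -/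
def Gold (S : Set ℕ) : Prop := ∃ C n0 : ℕ, ∀ n ∈ S, n0 ≤ n → ∀ x : ℕ, 5 * n < 2 * x → x ≤ 3 * n →
  ∃ p q : ℕ, p.Prime ∧ q.Prime ∧ n < p ∧ p < 2 * n ∧ n < q ∧ q < 2 * n ∧ x ≤ p + q ∧
    p + q ≤ x + C

def StA2 : Prop := ∃ K : ℕ, ∀ S : Set ℕ, Cell2 K (Pol S) ∨ Gold S

def StK : Prop := ∀ K : ℕ, ∃ κ C : ℝ, κ < 1 ∧ ∀ P : ℕ → Prop, Cell2 K P → ∀ Y L : ℕ,
  ({m ∈ Set.Ioc Y (Y + L) | ¬ P (2 * m)}.ncard : ℝ) ≤ C * (L : ℝ) ^ κ

end Pool.Agent.MP_43e117_nt.GP

end
end

section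

/-!
Transfer of sums over integers to the independent model, for live labels.
-/

open Finset

noncomputable section

namespace Pool.Agent.MP_43e117_nt.GP

open PG

theorem cr2 {J : Type} [DecidableEq J] {w R : ℕ} (s : Sy J w R) (τ : Si w R → Option J)
    (hτ : ∀ p l, τ p = some l → s.Lb p l) : ∃ a : ℕ,
    (∀ n, (if n ≡ s.b [MOD WW w] then MM τ (s.st n) else 0) =
      if n ≡ a [MOD WW w * dn (qq w R) τ] then 1 else 0) ∧
    ∀ j, (∀ p, s.Lb p j) → (s.b + s.h j).Coprime (WW w) → (∀ p, τ p ≠ some j) →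
      (a + s.h j).Coprime (WW w * dn (qq w R) τ) := by
  obtain ⟨a, ha⟩ := CRA.crt s.h w R s.b τ univ
  refine ⟨a, fun n => ?_, fun j hl hj hτ' => ?_⟩
  · have h1 : MM τ (s.st n) =
        if ∀ p ∈ univ, ∀ l, τ p = some l → p.1 ∣ n + s.h l then 1 else 0 := by
      rw [MM, prod_boole]
      have h2 : (∀ p ∈ univ, τ p = none ∨ s.st n p = τ p) ↔
          ∀ p ∈ univ, ∀ l, τ p = some l → p.1 ∣ n + s.h l := by
        refine forall₂_congr fun p _ => ?_
        rcases e : τ p with _ | l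
        · simp
        · simp [s.sp, hτ p l e]
      simp only [h2]
    rw [h1, ← ite_and]
    exact if_congr (ha n) rfl rfl
  · obtain ⟨h1, h2⟩ := (ha a).2 (Nat.ModEq.refl a)
    refine Nat.Coprime.mul_right ?_ (Nat.Coprime.prod_right fun p _ => ?_)
    · rw [Nat.Coprime, (h1.add_right (s.h j)).gcd_eq]
      exact hj
    · rcases e : τ p with _ | l
      · exact Nat.coprime_one_right _
      · refine ((Nat.Prime.coprime_iff_not_dvd (si_mem p).2.2).2 fun hd => hτ' p ?_).symm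
        rw [e, ← (s.sp a p l).2 ⟨hτ p l e, h2 p (mem_univ p) l e⟩, (s.sp a p j).2 ⟨hl p, hd⟩]

open TRA

theorem s_TR2 (hEM : StEM) (hCN : StCN) : StTR2 := by
  intro J _ _ w R s N c H j f F D B a ε ⟨hl, _, hb⟩ hI hE ha hc ⟨E, e0, e1, e2⟩
  obtain ⟨C, hF, hC⟩ := exp_live hI hE
  obtain rfl : F = fun o => ∑ τ, C τ * MM τ o := funext hF
  have hW : (0 : ℝ) < WW w := Nat.cast_pos.2 (WW_pos w)
  have k1 : ∀ m, Ex (om (rr w R) j (dv w R m)) (fun o => ∑ τ, C τ * MM τ o) = ∑ τ, C τ *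
      ∏ p, (τ p).elim 1 fun l => if l = j ∨ p ∈ dv w R m then 0 else rr w R p :=
    fun m => hEM _ J _ C
  simp only [k1, mul_sum]
  rw [sum_comm, sum_comm (s := IW N w (s.h j)), sum_div, ← sum_sub_distrib]
  simp only [mul_left_comm _ (C _), ← mul_sum, mul_div_assoc, ← mul_sub]
  refine bound hCN (E := fun d => E (WW w * d)) (fun _ => e0 _) ha hc (fun τ => (hC τ).1)
    (fun τ hτ => ⟨((hC τ).2 hτ).1, ?_⟩) (le_trans ?_ e2)
  · obtain ⟨h1, h2⟩ := (hC τ).2 hτ
    obtain ⟨a', h3, h4⟩ := cr2 s τ fun p l e => (h2 p l e).2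
    refine le_of_eq_of_le (congrArg abs ?_) (e1 _ (a' + s.h j) (mul_pos (WW_pos w) (dn_pos τ))
      (by rw [Nat.cast_mul]; exact mul_le_mul_of_nonneg_left h1 hW.le)
      (h4 j hl hb fun p hp => (h2 p j hp).1 rfl))
    rw [Dl]
    congr 1
    · rw [II, sum_filter, sum_filter, ← map_add_right_Ioc, sum_map]
      refine sum_congr rfl fun n _ => ?_
      have e : n + s.h j ≡ a' + s.h j [MOD WW w * dn (qq w R) τ] ↔
          n ≡ a' [MOD WW w * dn (qq w R) τ] :=
        ⟨Nat.ModEq.add_right_cancel' _, Nat.ModEq.add_right _⟩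
      have := congrArg (f (n + s.h j) * ·) (h3 n)
      simpa only [addRightEmbedding_apply, e, mul_ite, mul_zero, mul_one] using this
    · rw [IW, sum_filter, sum_filter, Nat.totient_mul (cop_W τ), Nat.cast_mul, ← div_div,
        div_right_comm, sum_div _ _ ((dn (qq w R) τ).totient : ℝ)]
      congr 1
      refine sum_congr rfl fun m _ => ?_
      rw [om_prod fun p l e => (h2 p l e).1]
      simp only [Nat.coprime_mul_iff_right, ite_and, div_eq_mul_inv, mul_ite, ite_mul, mul_zero,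
        zero_mul]
  · have t0 : ∀ q, 0 ≤ ta q := fun q => Nat.cast_nonneg _
    refine le_trans (sum_le_sum (g := fun d => ta (WW w * d) ^ c * E (WW w * d)) fun d hd =>
      mul_le_mul_of_nonneg_right (pow_le_pow_left₀ (t0 d) (Nat.cast_le.2 (card_le_card
        (Nat.divisors_subset_of_dvd (mul_pos (WW_pos w) (mem_Icc.1 hd).1).ne'
          (dvd_mul_left _ _)))) _) (e0 _)) ?_
    rw [← sum_image (f := fun q => ta q ^ c * E q) (g := fun d => WW w * d)
      fun x _ y _ e => Nat.eq_of_mul_eq_mul_left (WW_pos w) e]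
    refine sum_le_sum_of_subset_of_nonneg (fun q hq => ?_)
      fun q _ _ => mul_nonneg (pow_nonneg (t0 q) _) (e0 q)
    obtain ⟨d, hd, rfl⟩ := mem_image.1 hq
    obtain ⟨d1, d2⟩ := mem_Icc.1 hd
    refine mem_Icc.2 ⟨mul_pos (WW_pos w) d1, Nat.le_floor ?_⟩
    rw [Nat.cast_mul]
    exact mul_le_mul_of_nonneg_left ((Nat.le_floor_iff' (by omega)).1 d2) hW.le

theorem s_T02 (hTau : StTau) (hEM : StEM) (hCN : StCN) : StT02 := by
  intro J _ _ w R s x X c Lb F D B a hI hE ha hc hD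
  obtain ⟨C, hF, hC⟩ := exp_live hI hE
  obtain rfl : F = fun o => ∑ τ, C τ * MM τ o := funext hF
  have k1 : Ex (un J w R) (fun o => ∑ τ, C τ * MM τ o) =
      ∑ τ, C τ * ∏ p, (τ p).elim 1 fun _ => 1 / (p.1 : ℝ) := hEM _ J _ C
  rw [k1, mul_sum, sum_comm, ← sum_sub_distrib]
  simp only [mul_left_comm _ (C _), ← mul_sum, ← mul_sub]
  refine bound hCN (E := fun _ => 1) (fun _ => zero_le_one) ha hc (fun τ => (hC τ).1)
    (fun τ hτ => ⟨((hC τ).2 hτ).1, ?_⟩) ?_
  · obtain ⟨a', h3, -⟩ := cr2 s τ fun p l e => (((hC τ).2 hτ).2 p l e).2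
    refine le_of_eq_of_le (congrArg abs ?_) (count x X _ a' (mul_pos (WW_pos w) (dn_pos τ)))
    rw [sum_filter, sum_congr rfl fun n _ => h3 n, sum_boole, un_prod, Nat.cast_mul,
      ← div_eq_mul_inv, div_div]
  · have h1 : (1 : ℝ) ≤ ⌊D⌋₊ := Nat.one_le_cast.2 (Nat.le_floor (by simpa using hD))
    have h2 : (⌊D⌋₊ : ℝ) ≤ D := Nat.floor_le (by linarith)
    simp only [mul_one]
    refine (hTau c _).2.trans (mul_le_mul h2 (pow_le_pow_left₀ ?_ ?_ _) ?_ (by linarith))
    · linarith [Real.log_nonneg h1]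
    · linarith [Real.log_le_log (by linarith) h2]
    · exact pow_nonneg (by linarith [Real.log_nonneg h1]) _

end Pool.Agent.MP_43e117_nt.GP

end
end

section

/-!
The diagonal forms of product weights that depend on the label.
-/

open Finset

noncomputable section

namespace Pool.Agent.MP_43e117_nt.GP

open PG
open MP_fdd1d3_nt (LL SS mem_SS sum_SS_le sum_le_SS sum_label LL_nonneg)

namespace YGA

variable {ι J : Type} [Fintype ι] [DecidableEq ι] [Fintype J] [DecidableEq J]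

theorem y_nn (q : ι → ℕ) {G : J → Finset ι → ℝ} (hg : ∀ l, Gd (G l)) (D : ℝ)
    (σ : ι → Option J) : 0 ≤ yG q G D σ := by
  unfold yG
  split_ifs
  exacts [prod_nonneg fun l _ => ((hg l).1 _).1, le_rfl]

theorem abs_y (q : ι → ℕ) {G : J → Finset ι → ℝ} (hg : ∀ l, Gd (G l)) (D : ℝ)
    (σ : ι → Option J) : |yG q G D σ| ≤ 1 * ∏ l, G l (SS σ l) := by
  have h : 0 ≤ ∏ l, G l (SS σ l) := prod_nonneg fun l _ => ((hg l).1 _).1
  unfold yG
  split_ifs
  · rw [abs_of_nonneg h, one_mul]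
  · simpa using h

open Y2A

theorem red_ge {r : ι → ℝ} (hr : ∀ p, 0 ≤ r p) {G : J → Finset ι → ℝ} (hg : ∀ l, Gd (G l))
    {q : ι → ℕ} {D T : ℝ} {i : J} (hT : ∀ s, G i s ≠ 0 → LL q s ≤ T) {τ : ι → Option J}
    (hi : SS τ i = ∅) (hL : ∑ j, LL q (SS τ j) ≤ D - T) :
    (∏ l ∈ univ.erase i, G l (SS τ l)) *
      ∑ s ∈ univ.filter (fun s : Finset ι => ∀ p ∈ s, τ p = none), hs r s * G i s ≤
      red r i (yG q G D) τ := by
  have hn : ∀ p, τ p ≠ some i := fun p h => by simpa [hi] using (mem_SS τ i p).2 h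
  have hy := y_nn q hg D
  rw [red, rd, if_pos fun p l h (e : l = i) => hn p (e ▸ h)]
  refine le_trans ?_ (sum_le_sum_of_subset_of_nonneg (s := image
    (fun (s : Finset ι) p => if p ∈ s then some i else none)
    (univ.filter fun s : Finset ι => ∀ p ∈ s, τ p = none)) (fun ρ h => ?_)
    fun ρ _ _ => mul_nonneg (hh_nonneg hr ρ) (hy _))
  · rw [sum_image fun s _ s' _ e => by
      ext p
      have := congrFun e p
      by_cases h1 : p ∈ s <;> by_cases h2 : p ∈ s' <;> simp_all, mul_sum]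
    refine sum_le_sum fun s h => ?_
    have h1 := (mem_filter.1 h).2
    have e1 : hh r (fun p => if p ∈ s then some i else none) = hs r s := by
      rw [hh, hs, ← univ_inter s, ← prod_ite_mem]
      exact prod_congr rfl fun p _ => by by_cases h2 : p ∈ s <;> simp [h2]
    have e2 : SS (jn (fun p => if p ∈ s then some i else none) τ) i = s := by
      ext p
      by_cases h2 : p ∈ s <;> simp [mem_SS, jn, h2, hn p]
    have e3 : ∀ l ∈ univ.erase i,
        SS (jn (fun p => if p ∈ s then some i else none) τ) l = SS τ l := fun l hl => by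
      ext p
      by_cases h2 : p ∈ s
      · simp [mem_SS, jn, h2, h1 p h2, (ne_of_mem_erase hl).symm]
      · simp [mem_SS, jn, h2]
    rw [e1, mul_left_comm]
    refine mul_le_mul_of_nonneg_left ?_ (hs_nonneg hr s)
    by_cases h2 : G i s = 0
    · rw [h2, mul_zero]
      exact hy _
    · rw [yG, if_pos, ← mul_prod_erase univ _ (mem_univ i), e2, mul_comm]
      · exact (congrArg _ (prod_congr rfl fun l hl => congrArg (G l) (e3 l hl).symm)).le
      rw [← add_sum_erase univ _ (mem_univ i), hi, LL, sum_empty, zero_add] at hL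
      rw [← add_sum_erase univ _ (mem_univ i), e2,
        sum_congr rfl fun l hl => congrArg (LL q) (e3 l hl)]
      linarith [hT s h2]
  · obtain ⟨s, h1, rfl⟩ := mem_image.1 h
    simp only [mem_filter, mem_univ, true_and]
    intro p
    by_cases h2 : p ∈ s
    · exact Or.inr ⟨(mem_filter.1 h1).2 p h2, i, if_pos h2, rfl⟩
    · exact Or.inl (if_neg h2)

/-- the weights of the labels -/
def nv (r : ι → ℝ) (G : J → Finset ι → ℝ) (i l : J) (s : Finset ι) : ℝ :=
  if l = i then (if s = ∅ then 1 else 0) else hs r s * G l s ^ 2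

theorem point {r : ι → ℝ} (hr : ∀ p, 0 ≤ r p) {G : J → Finset ι → ℝ} (hg : ∀ l, Gd (G l))
    {q : ι → ℕ} {D T : ℝ} {i : J} (hT : ∀ s, G i s ≠ 0 → LL q s ≤ T) (hD : T < D)
    (τ : ι → Option J) :
    m1 r (G i) ^ 2 * ((∏ l, nv r G i l (SS τ l)) *
      (1 - (∑ j, LL q (SS τ j)) / (D - T) - 2 * ∑ j, ∑ p ∈ SS τ j, r p)) ≤
      hh r τ * red r i (yG q G D) τ ^ 2 := by
  have h0 : 0 ≤ hh r τ * red r i (yG q G D) τ ^ 2 := mul_nonneg (hh_nonneg hr τ) (sq_nonneg _)
  have hy : 0 ≤ ∑ j, ∑ p ∈ SS τ j, r p := sum_nonneg fun j _ => sum_nonneg fun p _ => hr p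
  have hL0 : 0 ≤ (∑ j, LL q (SS τ j)) / (D - T) :=
    div_nonneg (sum_nonneg fun j _ => LL_nonneg q _) (sub_pos.2 hD).le
  by_cases hi : SS τ i = ∅
  swap
  · rwa [prod_eq_zero (mem_univ i) (by simp [nv, hi]), zero_mul, mul_zero]
  have e : ∏ l, nv r G i l (SS τ l) = hh r τ * (∏ l ∈ univ.erase i, G l (SS τ l)) ^ 2 := by
    rw [hh_eq, ← mul_prod_erase univ _ (mem_univ i), ← mul_prod_erase univ _ (mem_univ i), hi,
      ← prod_pow, mul_assoc, ← prod_mul_distrib]
    exact congrArg₂ _ (by simp [nv, hs]) (prod_congr rfl fun l h => if_neg (ne_of_mem_erase h))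
  have hP : 0 ≤ ∏ l ∈ univ.erase i, G l (SS τ l) := prod_nonneg fun l _ => ((hg l).1 _).1
  have hN : 0 ≤ hh r τ * (∏ l ∈ univ.erase i, G l (SS τ l)) ^ 2 :=
    mul_nonneg (hh_nonneg hr τ) (sq_nonneg _)
  rw [e]
  by_cases hb : 1 - (∑ j, LL q (SS τ j)) / (D - T) - 2 * ∑ j, ∑ p ∈ SS τ j, r p ≤ 0
  · exact (mul_nonpos_of_nonneg_of_nonpos (sq_nonneg _)
      (mul_nonpos_of_nonneg_of_nonpos hN hb)).trans h0
  have hb' := not_le.1 hb
  have h1 := red_ge hr hg hT hi (D := D) ((div_le_one (sub_pos.2 hD)).1 (by linarith))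
  have h2 := free_le hr (hg i) τ
  have hm : 0 ≤ m1 r (G i) :=
    sum_nonneg fun s _ => mul_nonneg (hs_nonneg hr s) ((hg i).1 s).1
  have h3 := pow_le_pow_left₀ (mul_nonneg hP (mul_nonneg hm (by linarith)))
    ((mul_le_mul_of_nonneg_left h2 hP).trans h1) 2
  refine le_trans ?_ (mul_le_mul_of_nonneg_left h3 (hh_nonneg hr τ))
  rw [mul_pow, mul_pow, ← mul_assoc (hh r τ), mul_left_comm]
  refine mul_le_mul_of_nonneg_left (mul_le_mul_of_nonneg_left ?_ (sq_nonneg _)) hN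
  nlinarith [sq_nonneg (∑ j, ∑ p ∈ SS τ j, r p)]

end YGA

open YGA Y1A in
theorem s_YA : StYA := by
  intro ι J _ _ _ _ r q G D hr hg
  have h0 := y_nn q hg D
  have g0 : ∀ l s, 0 ≤ G l s := fun l s => ((hg l).1 s).1
  refine ⟨⟨h0, fun σ p => ?_⟩, fun σ => ?_, ?_, fun i j hij => ?_⟩
  · have e : ∀ j, SS (Function.update σ p none) j = (SS σ j).erase p := fun j => by
      ext x
      rcases eq_or_ne x p with rfl | h
      · simp [mem_SS]
      · simp [mem_SS, h]
    by_cases h : ∑ j, LL q (SS σ j) ≤ D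
    · have h1 : ∑ j, LL q (SS (Function.update σ p none) j) ≤ D :=
        (sum_le_sum fun j _ => by
          rw [e]
          exact sum_le_sum_of_subset_of_nonneg (erase_subset _ _)
            fun x _ _ => Real.log_natCast_nonneg _).trans h
      rw [yG, yG, if_pos h, if_pos h1]
      exact prod_le_prod (fun j _ => g0 j _) fun j _ => by rw [e]; exact (hg j).2 _ _
    · rw [yG, if_neg h]
      exact h0 _
  · refine ((le_abs_self _).trans (abs_y q hg D σ)).trans ?_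
    rw [one_mul]
    exact prod_le_one (fun l _ => g0 l _) fun l _ => ((hg l).1 _).2
  · simpa [ga] using qq_le hr (abs_y q hg D)
  · have h1 := red_le hr i zero_le_one g0 (abs_y q hg D)
    have h2 := qq_le hr (red_le hr j (mul_nonneg zero_le_one
      (sum_nonneg fun s _ => mul_nonneg (hs_nonneg hr s) (g0 i s))) (upd_nonneg g0 i) h1)
    have e : ∑ s : Finset ι, hs r s * (if s = ∅ then (1 : ℝ) else 0) ^ 2 = 1 := by simp [hs]
    refine h2.trans_eq ?_
    rw [← mul_prod_erase univ _ (mem_univ j),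
      ← mul_prod_erase _ _ (mem_erase.2 ⟨hij, mem_univ i⟩), Function.update_self,
      Function.update_of_ne hij, Function.update_self, Function.update_of_ne hij.symm, e,
      prod_congr rfl (g := fun l => ga r (G l)) fun l hl => by
        rw [Function.update_of_ne (ne_of_mem_erase (mem_of_mem_erase hl)),
          Function.update_of_ne (ne_of_mem_erase hl), ga], m1, m1]
    ring

open YGA Y2A in
theorem s_YB : StYB := by
  intro ι J _ _ _ _ r q G k D T Z i hr hg hk h2 hT hD hZ' hZ0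
  have hν : ∀ l s, 0 ≤ nv r G i l s := fun l s => by
    unfold nv
    split_ifs
    exacts [zero_le_one, le_rfl, mul_nonneg (hs_nonneg hr s) (sq_nonneg _)]
  have hZ : ∀ l, ∑ s, nv r G i l s = if l = i then 1 else ga r (G l) := fun l => by
    by_cases h : l = i <;> simp [nv, h, ga]
  have hm : ∀ p l, ∑ s, (if p ∈ s then nv r G i l s else 0) ≤ r p * ∑ s, nv r G i l s :=
    fun p l => by
      by_cases h : l = i
      · rw [hZ, if_pos h, mul_one, sum_eq_zero fun s _ => ?_]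
        · exact hr p
        · by_cases h1 : s = ∅ <;> simp [nv, h, h1]
      · simp only [nv, if_neg h]
        exact mem_le hr (fun s => sq_nonneg _)
          (fun s p => pow_le_pow_left₀ ((hg l).1 s).1 ((hg l).2 s p) 2) p
  have hP : ∀ A : Finset J, i ∈ A →
      ∏ l ∈ A, ∑ s, nv r G i l s = ∏ l ∈ A.erase i, ga r (G l) := fun A h => by
    rw [← mul_prod_erase A _ h, hZ, if_pos rfl, one_mul]
    exact prod_congr rfl fun l h => by rw [hZ, if_neg (ne_of_mem_erase h)]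
  have hga : ∀ l, 0 ≤ ga r (G l) := fun l =>
    sum_nonneg fun s _ => mul_nonneg (hs_nonneg hr s) (sq_nonneg _)
  have he : 0 ≤ eta r := sum_nonneg fun p _ => sq_nonneg _
  have hG : ∀ S : J → Finset ι, 0 ≤ ∏ l, nv r G i l (S l) := fun S => prod_nonneg fun l _ => hν _ _
  have hQ : 0 ≤ ∏ l ∈ univ.erase i, ga r (G l) := prod_nonneg fun l _ => hga l
  have a1 := (sum_le_SS _ hG).trans (add_le_add le_rfl (nondisj hν hm))
  rw [← Fintype.prod_sum] at a1
  have a2 := (sum_SS_le _ fun S => mul_nonneg (hG S)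
    (sum_nonneg fun j _ => sum_nonneg fun p _ => hr p)).trans (supp_le hν hr hm)
  have a3 : ∑ τ : ι → Option J, (∏ l, nv r G i l (SS τ l)) * ∑ j, LL q (SS τ j) ≤
      k * Z * ∏ l ∈ univ.erase i, ga r (G l) := by
    refine (sum_SS_le (fun S => (∏ l, nv r G i l (S l)) * ∑ j, LL q (S j)) fun S =>
      mul_nonneg (hG S) (sum_nonneg fun j _ => LL_nonneg q _)).trans ?_
    simp only [mul_sum]
    rw [sum_comm]
    refine (sum_le_sum (g := fun _ => Z * ∏ l ∈ univ.erase i, ga r (G l))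
      fun j _ => ?_).trans ?_
    · rw [mark]
      by_cases h : j = i
      · rw [sum_eq_zero fun s _ => ?_, zero_mul]
        · positivity
        · by_cases h1 : s = ∅ <;> simp [nv, h, h1, LL]
      · rw [hP _ (mem_erase.2 ⟨Ne.symm h, mem_univ _⟩), erase_right_comm,
          ← mul_prod_erase _ _ (mem_erase.2 ⟨h, mem_univ j⟩), ← mul_assoc]
        simp only [nv, if_neg h]
        exact mul_le_mul_of_nonneg_right (hZ' j) (prod_nonneg fun l _ => hga l)
    · rw [sum_const, card_univ, nsmul_eq_mul, mul_assoc]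
      exact mul_le_mul_of_nonneg_right hk (by positivity)
  rw [hP _ (mem_univ i)] at a1 a2
  refine le_trans ?_ (sum_le_sum fun τ _ => point hr hg hT hD τ)
  rw [← mul_sum, mul_assoc]
  refine mul_le_mul_of_nonneg_left ?_ (sq_nonneg _)
  simp only [mul_sub, mul_one, sum_sub_distrib, ← mul_div_assoc, ← sum_div, mul_left_comm _ (2 : ℝ),
    ← mul_sum]
  have h3 : (2 : ℝ) ≤ Fintype.card J := by exact_mod_cast h2
  generalize ∏ l ∈ univ.erase i, ga r (G l) = P at *
  have h4 : 0 ≤ eta r * P := by positivity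
  have h5 : (Fintype.card J : ℝ) ^ 2 ≤ k ^ 2 := pow_le_pow_left₀ (by linarith) hk 2
  have h6 : (Fintype.card J : ℝ) ≤ k ^ 2 := by nlinarith
  have h7 := div_le_div_of_nonneg_right a3 (sub_pos.2 hD).le
  rw [mul_comm (k * Z)] at h7
  nlinarith [mul_le_mul_of_nonneg_right h5 h4, mul_le_mul_of_nonneg_right h6 h4]

end Pool.Agent.MP_43e117_nt.GP

end
end

section

/-!
Weights that ignore a set `T` of small sites and vanish on a set `U` of dead sites.
-/

open Finset

noncomputable section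

namespace Pool.Agent.MP_43e117_nt.GP

open PG
open MP_fdd1d3_nt (LL SS mem_SS sum_label LL_nonneg)

namespace FAA

variable {ι : Type} [Fintype ι] [DecidableEq ι] {r : ι → ℝ}

/-- restriction to the sets that avoid `A` -/
def cut (A : Finset ι) (g : Finset ι → ℝ) (s : Finset ι) : ℝ := if Disjoint s A then g s else 0

omit [Fintype ι] [DecidableEq ι] in
theorem hs_nn (hr : ∀ p, 0 ≤ r p) (s : Finset ι) : 0 ≤ hs r s := prod_nonneg fun p _ => hr p

theorem split (F : Finset ι → ℝ) (p : ι) : ∑ s, F s =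
    ∑ s ∈ (univ.erase p).powerset, (F s + F (insert p s)) := by
  rw [sum_add_distrib, ← sum_powerset_insert (notMem_erase p univ), insert_erase (mem_univ p),
    powerset_univ]

theorem one (hr : ∀ p, 0 ≤ r p) {ψ : Finset ι → ℝ} {p : ι}
    (h : ∀ s, p ∉ s → ψ (insert p s) ≤ ψ s) :
    ∑ s, hs r s * ψ s ≤ (1 + r p) * ∑ s, hs r s * cut {p} ψ s := by
  rw [split _ p, split _ p, mul_sum]
  refine sum_le_sum fun s h1 => ?_
  have h2 : p ∉ s := fun h3 => notMem_erase p univ (mem_powerset.1 h1 h3)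
  have e : hs r (insert p s) = r p * hs r s := prod_insert h2
  rw [cut, cut, if_pos (disjoint_singleton_right.2 h2),
    if_neg (by simp [disjoint_singleton_right]), e]
  nlinarith [mul_le_mul_of_nonneg_left (h s h2) (mul_nonneg (hr p) (hs_nn hr s))]

theorem fa_le (hr : ∀ p, 0 ≤ r p) (A : Finset ι) {ψ : Finset ι → ℝ}
    (h : ∀ p ∈ A, ∀ s, p ∉ s → ψ (insert p s) ≤ ψ s) :
    ∑ s, hs r s * ψ s ≤ (∏ p ∈ A, (1 + r p)) * ∑ s, hs r s * cut A ψ s := by
  induction A using Finset.induction_on with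
  | empty => simp [cut]
  | insert a A ha ih =>
    refine (ih fun p hp => h p (mem_insert_of_mem hp)).trans ?_
    rw [prod_insert ha, mul_comm (1 + r a), mul_assoc]
    refine mul_le_mul_of_nonneg_left ((one hr (p := a) fun s h1 => ?_).trans_eq ?_)
      (prod_nonneg fun p _ => by linarith [hr p])
    · simp only [cut, disjoint_insert_left, ha, not_false_eq_true, true_and]
      split_ifs
      exacts [h a (mem_insert_self a A) s h1, le_rfl]
    · refine congrArg _ (sum_congr rfl fun s _ => congrArg _ ?_)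
      simp only [cut, disjoint_insert_right, disjoint_singleton_right, ite_and]

theorem fa_eq (hr : ∀ p, 0 ≤ r p) (A : Finset ι) {ψ : Finset ι → ℝ}
    (h : ∀ p ∈ A, ∀ s, ψ (insert p s) = ψ s) :
    (∏ p ∈ A, (1 + r p)) * ∑ s, hs r s * cut A ψ s = ∑ s, hs r s * ψ s := by
  refine le_antisymm ?_ (fa_le hr A fun p hp s _ => (h p hp s).le)
  have h1 := fa_le hr A (ψ := fun s => -ψ s) fun p hp s _ => by rw [h p hp s]
  have e : ∀ s, cut A (fun s => -ψ s) s = -cut A ψ s := fun s => by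
    unfold cut
    split_ifs <;> simp
  simp only [e, mul_neg, sum_neg_distrib] at h1
  linarith

omit [Fintype ι] in
theorem gd_cut (A : Finset ι) {g : Finset ι → ℝ} (hg : Gd g) : Gd (cut A g) := by
  refine ⟨fun s => ?_, fun s p => ?_⟩
  · unfold cut
    split_ifs
    exacts [hg.1 s, ⟨le_rfl, zero_le_one⟩]
  · by_cases h : Disjoint s A
    · rw [cut, cut, if_pos h, if_pos (h.mono_left (erase_subset p s))]
      exact hg.2 s p
    · rw [cut, if_neg h, cut]
      split_ifs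
      exacts [(hg.1 _).1, le_rfl]

omit [Fintype ι] in
theorem cut_sq (A : Finset ι) (g L : Finset ι → ℝ) (s : Finset ι) :
    cut A g s ^ 2 * L s = cut A (fun s => g s ^ 2 * L s) s := by
  unfold cut
  split_ifs <;> simp

theorem hs_kill (U : Finset ι) (g : Finset ι → ℝ) :
    ∑ s, hs (fun p => if p ∈ U then 0 else r p) s * g s = ∑ s, hs r s * cut U g s := by
  refine sum_congr rfl fun s _ => ?_
  unfold cut
  split_ifs with h
  · exact congrArg (· * _) (prod_congr rfl fun p hp => if_neg (disjoint_left.1 h hp))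
  · obtain ⟨p, h1, h2⟩ := not_disjoint_iff.1 h
    rw [hs, prod_eq_zero (f := fun p => if p ∈ U then 0 else r p) h1 (if_pos h2), zero_mul,
      mul_zero]

omit [Fintype ι] in
theorem LL_ins {q : ι → ℕ} {p : ι} (h : q p = 1) (s : Finset ι) : LL q (insert p s) = LL q s := by
  by_cases h1 : p ∈ s
  · rw [insert_eq_of_mem h1]
  · rw [LL, sum_insert h1, h, Nat.cast_one, Real.log_one, zero_add, LL]

omit [Fintype ι] in
theorem LL_small (q : ι → ℕ) (T s : Finset ι) :
    LL (fun p => if p ∈ T then 1 else q p) s ≤ LL q s ∧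
      LL q s ≤ LL (fun p => if p ∈ T then 1 else q p) s + LL q T := by
  constructor
  · refine sum_le_sum fun p _ => ?_
    dsimp only
    split_ifs
    · simpa using Real.log_natCast_nonneg _
    · exact le_rfl
  · have h1 : ∑ p ∈ s, (if p ∈ T then Real.log (q p) else 0) ≤ LL q T := by
      rw [sum_ite_mem]
      exact sum_le_sum_of_subset_of_nonneg inter_subset_right
        fun _ _ _ => Real.log_natCast_nonneg _
    refine le_trans (le_of_eq ?_) (add_le_add le_rfl h1)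
    rw [LL, LL, ← sum_add_distrib]
    refine sum_congr rfl fun p _ => ?_
    split_ifs <;> simp

theorem GG_cmp (hr : ∀ p, 0 ≤ r p) (q : ι → ℕ) (T U : Finset ι) (t : ℝ) :
    GG r q t ≤ (∏ p ∈ U, (1 + r p)) *
      GG (fun p => if p ∈ U then 0 else r p) (fun p => if p ∈ T then 1 else q p) t ∧
    GG (fun p => if p ∈ U then 0 else r p) (fun p => if p ∈ T then 1 else q p) t ≤
      GG r q (t + LL q T) := by
  have e : ∀ (r : ι → ℝ) (q : ι → ℕ) t, GG r q t =
      ∑ s, hs r s * if LL q s ≤ t then 1 else 0 := fun r q t => by simp [GG]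
  rw [e, e, e, hs_kill]
  constructor
  · refine le_trans (sum_le_sum fun s _ => mul_le_mul_of_nonneg_left ?_ (hs_nn hr s))
      (fa_le hr U fun p _ s hp => ?_)
    · split_ifs with h1 h2
      exacts [le_rfl, absurd ((LL_small q T s).1.trans h1) h2, zero_le_one, le_rfl]
    · split_ifs with h1 h2
      · exact le_rfl
      · refine absurd (le_trans ?_ h1) h2
        exact sum_le_sum_of_subset_of_nonneg (subset_insert p s)
          fun _ _ _ => Real.log_natCast_nonneg _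
      exacts [zero_le_one, le_rfl]
  · refine sum_le_sum fun s _ => mul_le_mul_of_nonneg_left ?_ (hs_nn hr s)
    unfold cut
    dsimp only
    split_ifs with h1 h2 h3
    · exact le_rfl
    · exact absurd (by linarith [(LL_small q T s).2]) h3
    all_goals norm_num

open MYA in
theorem my2 (q : ι → ℕ) (V lam : ℝ) (n : ℕ) (hr : ∀ p, 0 ≤ r p) (hV : 0 < V) (hl : 0 < lam)
    (hG : ∀ j ≤ n, V * (2 ^ j * lam) / 2 ≤ GG r q (2 ^ j * lam) ∧
      GG r q (2 ^ j * lam) ≤ 2 * V * (2 ^ j * lam)) :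
    ∃ φ : ℝ → ℝ, Gd (fun s => φ (LL q s)) ∧ (∀ s, φ (LL q s) ≠ 0 → LL q s ≤ 2 ^ n * lam) ∧
      (n + 1) * V * lam / 4 ≤ m1 r (fun s => φ (LL q s)) ∧
      V * lam / 8 ≤ ga r (fun s => φ (LL q s)) ∧ ga r (fun s => φ (LL q s)) ≤ 4 * V * lam ∧
      ze r q (fun s => φ (LL q s)) ≤ 2 * (n + 1) * V * lam ^ 2 := by
  have hh : ∀ s, 0 ≤ hs r s := fun s => prod_nonneg fun p _ => hr p
  have hL : ∀ s, 0 ≤ LL q s := fun s => sum_nonneg fun p _ => Real.log_natCast_nonneg _
  have ha : ∀ j : ℕ, (0 : ℝ) ≤ (1 / 2) ^ (j + 1) := fun _ => by positivity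
  have ha4 : ∀ j : ℕ, (0 : ℝ) ≤ (1 / 4) ^ j := fun _ => by positivity
  have e2 : ∀ j : ℕ, (1 / 2 : ℝ) ^ j * 2 ^ j = 1 := fun j => by rw [← mul_pow]; norm_num
  have e4 : ∀ j : ℕ, (1 / 4 : ℝ) ^ j * 2 ^ j = (1 / 2) ^ j := fun j => by rw [← mul_pow]; norm_num
  refine ⟨st (fun j => (1 / 2) ^ (j + 1)) (fun j => 2 ^ j * lam) (n + 1),
    ⟨fun s => ⟨st_nonneg ha _ _ _, ?_⟩, fun s p => st_anti ha _ _ ?_⟩, fun s h => ?_, ?_, ?_, ?_, ?_⟩
  · have := st_le (fun j => 2 ^ j * lam) (n + 1) (LL q s)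
    linarith [ha n]
  · exact sum_le_sum_of_subset_of_nonneg (erase_subset _ _) fun _ _ _ => Real.log_natCast_nonneg _
  · by_contra hn
    refine h (sum_eq_zero fun j hj => if_neg fun h1 => hn (h1.trans ?_))
    have : (2 : ℝ) ^ j ≤ 2 ^ n := pow_le_pow_right₀ one_le_two (Nat.lt_succ_iff.1 (mem_range.1 hj))
    exact mul_le_mul_of_nonneg_right this hl.le
  · rw [m1, sum_st]
    calc (n + 1) * V * lam / 4 = ∑ _j ∈ range (n + 1), V * lam / 4 := by
          rw [sum_const, card_range, nsmul_eq_mul]; push_cast; ring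
      _ ≤ _ := sum_le_sum fun j hj => by
          refine le_trans (le_of_eq ?_) (mul_le_mul_of_nonneg_left
            (hG j (Nat.lt_succ_iff.1 (mem_range.1 hj))).1 (ha j))
          rw [pow_succ]
          linear_combination (-(V * lam / 4)) * e2 j
  · have h1 := sum_st r q (fun _ => 1 / 4) (fun j => 2 ^ j * lam) 1
    rw [sum_range_one] at h1
    have h2 := (hG 0 (Nat.zero_le n)).1
    refine le_trans (by rw [pow_zero] at h2 ⊢; linarith : _ ≤ 1 / 4 * GG r q (2 ^ 0 * lam)) ?_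
    rw [← h1]
    refine sum_le_sum fun s _ => mul_le_mul_of_nonneg_left ?_ (hh s)
    rw [st, sum_range_one]
    split_ifs with h3
    · have h4 : (1 / 2 : ℝ) ≤
          st (fun j => (1 / 2) ^ (j + 1)) (fun j => 2 ^ j * lam) (n + 1) (LL q s) := by
        refine le_trans (le_of_eq ?_) (single_le_sum (f := fun j =>
          if LL q s ≤ 2 ^ j * lam then (1 / 2 : ℝ) ^ (j + 1) else 0)
          (fun j _ => by split_ifs; exacts [ha j, le_rfl]) (mem_range.2 (Nat.succ_pos n)))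
        rw [if_pos h3]
        norm_num
      nlinarith
    · positivity
  · refine le_trans (sum_le_sum fun s _ => mul_le_mul_of_nonneg_left (st_sq _ _ _) (hh s)) ?_
    rw [sum_st]
    calc _ ≤ ∑ j ∈ range (n + 1), 2 * V * lam * (1 / 2 : ℝ) ^ j := sum_le_sum fun j hj => by
          refine le_trans (mul_le_mul_of_nonneg_left
            (hG j (Nat.lt_succ_iff.1 (mem_range.1 hj))).2 (ha4 j)) (le_of_eq ?_)
          linear_combination (2 * V * lam) * e4 j
      _ ≤ 2 * V * lam * 2 := by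
          rw [← mul_sum]
          exact mul_le_mul_of_nonneg_left (geo _) (by positivity)
      _ = _ := by ring
  · refine le_trans (sum_le_sum fun s _ => (mul_assoc _ _ _).le.trans (mul_le_mul_of_nonneg_left
      ((mul_le_mul_of_nonneg_right (st_sq _ _ _) (hL s)).trans (st_mul ha4 _ _ _)) (hh s))) ?_
    rw [sum_st]
    calc _ ≤ ∑ _j ∈ range (n + 1), 2 * V * lam ^ 2 := sum_le_sum fun j hj => by
          refine le_trans (mul_le_mul_of_nonneg_left
            (hG j (Nat.lt_succ_iff.1 (mem_range.1 hj))).2 (by positivity)) (le_of_eq ?_)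
          linear_combination (2 * V * lam ^ 2 * 2 ^ j) * e4 j + 2 * V * lam ^ 2 * e2 j
      _ = _ := by
          rw [sum_const, card_range, nsmul_eq_mul]; push_cast; ring

/-- a weight that ignores `T` and vanishes on `U` -/
theorem my3 (q : ι → ℕ) (T U : Finset ι) (V lam : ℝ) (n : ℕ) (hr : ∀ p, 0 ≤ r p) (hV : 0 < V)
    (hl : 0 < lam) (hT : LL q T ≤ lam / 4) (hU : ∏ p ∈ U, (1 + r p) ≤ 3 / 2)
    (hG : ∀ t, lam ≤ t → t ≤ 2 ^ n * lam + lam / 4 →
      3 / 4 * (V * t) ≤ GG r q t ∧ GG r q t ≤ 5 / 4 * (V * t)) :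
    ∃ φ : ℝ → ℝ, ∀ g, g = cut U (fun s => φ (LL (fun p => if p ∈ T then 1 else q p) s)) →
      Gd g ∧ (∀ s, g s ≠ 0 → LL (fun p => if p ∈ T then 1 else q p) s ≤ 2 ^ n * lam) ∧
      (n + 1) * V * lam / 4 ≤ m1 r g ∧ V * lam / 8 ≤ ga r g ∧ ga r g ≤ 4 * V * lam ∧
      ze r (fun p => if p ∈ T then 1 else q p) g ≤ 2 * (n + 1) * V * lam ^ 2 := by
  have hr' : ∀ p, 0 ≤ if p ∈ U then 0 else r p := fun p => by
    split_ifs
    exacts [le_rfl, hr p]
  obtain ⟨φ, g0, g1, g2, g3, g4, g5⟩ := my2 (fun p => if p ∈ T then 1 else q p) V lam n hr' hV hl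
    fun j hj => by
      have h1 : lam ≤ 2 ^ j * lam := le_mul_of_one_le_left hl.le (one_le_pow₀ one_le_two)
      have h2 : (2 : ℝ) ^ j * lam ≤ 2 ^ n * lam := by gcongr; norm_num
      have h0 := LL_nonneg q T
      obtain ⟨a1, a2⟩ := GG_cmp hr q T U (2 ^ j * lam)
      have a3 := (hG (2 ^ j * lam) h1 (by linarith)).1
      have a4 := (hG (2 ^ j * lam + LL q T) (by linarith) (by linarith)).2
      have a5 : 0 ≤ GG (fun p => if p ∈ U then 0 else r p) (fun p => if p ∈ T then 1 else q p)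
          (2 ^ j * lam) := sum_nonneg fun s _ => by
        split_ifs
        exacts [hs_nn hr' s, le_rfl]
      have a6 := mul_le_mul_of_nonneg_right hU a5
      have a7 := mul_le_mul_of_nonneg_left (show 2 ^ j * lam + LL q T ≤ 5 / 4 * (2 ^ j * lam) by
        linarith) hV.le
      have a8 : 0 ≤ V * (2 ^ j * lam) := by positivity
      constructor <;> linarith
  refine ⟨φ, ?_⟩
  rintro g rfl
  have e1 := fun s => cut_sq U (fun s => φ (LL (fun p => if p ∈ T then 1 else q p) s))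
    (fun _ => 1) s
  simp only [mul_one] at e1
  simp only [m1, ga, ze, mul_assoc] at g2 g3 g4 g5
  rw [hs_kill] at g2 g3 g4 g5
  refine ⟨gd_cut U g0, fun s h => g1 s fun h0 => h ?_, ?_, ?_, ?_, ?_⟩
  · simp [cut, h0]
  · simpa only [m1, mul_assoc] using g2
  · simpa only [ga, e1] using g3
  · simpa only [ga, e1, mul_assoc] using g4
  · simpa only [ze, mul_assoc, cut_sq] using g5

end FAA

end Pool.Agent.MP_43e117_nt.GP

end
end

section

/-!
The weights attached to a set of live labels.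
-/

open Finset

noncomputable section

namespace Pool.Agent.MP_43e117_nt.GP

open PG FAA
open MP_fdd1d3_nt (LL SS mem_SS sum_label LL_nonneg)

namespace WTA

variable {ι J : Type} [Fintype ι] [DecidableEq ι] [Fintype J] [DecidableEq J] {r : ι → ℝ}

open Classical in
/-- the small sites where a label is not live -/
def AL (T : Finset ι) (Lb : ι → J → Prop) (l : J) : Finset ι := T.filter fun p => ¬ Lb p l

/-- the weight of a label -/
def Gl (T : Finset ι) (g : Finset ι → ℝ) (Lb : ι → J → Prop) (l : J) : Finset ι → ℝ :=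
  cut (AL T Lb l) g

/-- the lost factor -/
def ka (r : ι → ℝ) (T : Finset ι) (Lb : ι → J → Prop) (l : J) : ℝ := ∏ p ∈ AL T Lb l, (1 + r p)

variable {T U : Finset ι} {g : Finset ι → ℝ} {Lb Lb' : ι → J → Prop} {q : ι → ℕ}

omit [Fintype ι] [DecidableEq ι] [Fintype J] [DecidableEq J] in
theorem mem_AL {l : J} {p : ι} : p ∈ AL T Lb l ↔ p ∈ T ∧ ¬ Lb p l := by
  classical
  simp [AL]

omit [Fintype J] [DecidableEq J] in
theorem ga_Gl (hr : ∀ p, 0 ≤ r p) (hg : ∀ p ∈ T, ∀ s, g (insert p s) = g s) (l : J) :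
    ka r T Lb l * ga r (Gl T g Lb l) = ga r g := by
  have e1 := fun s => cut_sq (AL T Lb l) g (fun _ => 1) s
  simp only [mul_one] at e1
  simp only [ga, Gl, e1]
  exact fa_eq hr _ fun p hp s => by rw [hg p (mem_AL.1 hp).1]

omit [Fintype J] [DecidableEq J] in
theorem ze_Gl (hr : ∀ p, 0 ≤ r p) (hg : ∀ p ∈ T, ∀ s, g (insert p s) = g s)
    (hq : ∀ p ∈ T, q p = 1) (l : J) : ka r T Lb l * ze r q (Gl T g Lb l) = ze r q g := by
  simp only [ze, Gl, mul_assoc, cut_sq]
  exact fa_eq hr _ fun p hp s => by rw [hg p (mem_AL.1 hp).1, LL_ins (hq p (mem_AL.1 hp).1)]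

omit [Fintype ι] [Fintype J] [DecidableEq J] in
theorem front {i : J} (hi : ∀ p, Lb p i) : Gl T g Lb i = g := by
  have : AL T Lb i = ∅ := eq_empty_of_forall_notMem fun p hp => (mem_AL.1 hp).2 (hi p)
  funext s
  simp [Gl, this, cut]

omit [Fintype ι] [Fintype J] [DecidableEq J] in
theorem ka_le (hr : ∀ p, 0 ≤ r p) (l : J) :
    1 ≤ ka r T Lb l ∧ ka r T Lb l ≤ ∏ p ∈ T, (1 + r p) := by
  have h : ∀ p, 1 ≤ 1 + r p := fun p => by linarith [hr p]
  refine ⟨le_trans (by simp) (prod_le_prod (f := fun _ => (1 : ℝ)) (fun _ _ => zero_le_one)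
    fun p _ => h p), ?_⟩
  exact prod_le_prod_of_subset_of_one_le (fun p hp => (mem_AL.1 hp).1)
    (fun p _ => by linarith [hr p]) fun p _ _ => h p

omit [Fintype ι] [DecidableEq ι] [DecidableEq J] in
theorem ka_tw {π : ι → Equiv.Perm J} (h : ∀ p l, Lb' p (π p l) ↔ Lb p l) :
    ∏ l, ka r T Lb' l = ∏ l, ka r T Lb l := by
  simp only [ka, AL, prod_filter]
  rw [prod_comm, prod_comm (s := univ)]
  refine prod_congr rfl fun p _ => ?_
  rw [← Equiv.prod_comp (π p)]
  refine prod_congr rfl fun l _ => ?_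
  by_cases h1 : Lb p l
  · rw [if_neg (not_not.2 h1), if_neg (not_not.2 ((h p l).2 h1))]
  · rw [if_pos h1, if_pos fun h2 => h1 ((h p l).1 h2)]

open Classical in
theorem y_form (D : ℝ) (σ : ι → Option J) : yG q (Gl T g Lb) D σ =
    if ∀ p ∈ T, ∀ l, σ p = some l → Lb p l then yy q g D σ else 0 := by
  split_ifs with h
  · have e : ∀ l, Gl T g Lb l (SS σ l) = g (SS σ l) := fun l =>
      if_pos (disjoint_left.2 fun p h1 h2 =>
        (mem_AL.1 h2).2 (h p (mem_AL.1 h2).1 l ((mem_SS _ _ _).1 h1)))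
    simp only [yG, yy, e]
  · push Not at h
    obtain ⟨p, h1, l, h2, h3⟩ := h
    rw [yG, prod_eq_zero (mem_univ l), ite_self]
    exact if_neg fun h4 => disjoint_left.1 h4 ((mem_SS _ _ _).2 h2) (mem_AL.2 ⟨h1, h3⟩)

theorem y_dead {ψ : Finset ι → ℝ} (D : ℝ) {σ : ι → Option J} {p : ι} {l : J} (hp : p ∈ U)
    (h : σ p = some l) : yy q (cut U ψ) D σ = 0 := by
  rw [yy, prod_eq_zero (mem_univ l), ite_self]
  exact if_neg fun h4 => disjoint_left.1 h4 ((mem_SS _ _ _).2 h) hp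

theorem y_sup {ψ : Finset ι → ℝ} (D : ℝ) (h : ∀ p, p ∉ T → p ∉ U → ∀ l, Lb p l) :
    Sup Lb (yG q (Gl T (cut U ψ) Lb) D) := by
  intro σ h0 p l e
  rw [y_form] at h0
  split_ifs at h0 with h1
  · by_cases h2 : p ∈ T
    · exact h1 p h2 l e
    · exact h p h2 (fun h3 => h0 (y_dead D h3 e)) l
  · exact absurd rfl h0

theorem y_tw {φ : ℝ → ℝ} {π : ι → Equiv.Perm J} (D : ℝ) (hq : ∀ p ∈ T, q p = 1)
    (hπ : ∀ p, p ∉ T → p ∉ U → π p = 1) (h : ∀ p l, Lb' p (π p l) ↔ Lb p l) (σ : ι → Option J) :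
    yG q (Gl T (cut U fun s => φ (LL q s)) Lb') D (tw π σ) =
      yG q (Gl T (cut U fun s => φ (LL q s)) Lb) D σ := by
  have e1 : (∀ p ∈ T, ∀ l, tw π σ p = some l → Lb' p l) ↔
      ∀ p ∈ T, ∀ l, σ p = some l → Lb p l := by
    refine forall₂_congr fun p _ => ?_
    unfold tw
    cases σ p <;> simp [h]
  have e2 : yy q (cut U fun s => φ (LL q s)) D (tw π σ) =
      yy q (cut U fun s => φ (LL q s)) D σ := by
    by_cases hU : ∀ p ∈ U, σ p = none
    · have e3 : ∀ j, LL q (SS (tw π σ) j) = LL q (SS σ j) := fun j => by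
        simp only [LL, SS, sum_filter]
        refine sum_congr rfl fun p _ => ?_
        by_cases h1 : p ∈ T
        · simp [hq p h1]
        · by_cases h2 : p ∈ U
          · simp [tw, hU p h2]
          · simp [tw, hπ p h1 h2]
      have e4 : ∀ j, Disjoint (SS σ j) U := fun j => disjoint_left.2 fun p h1 h2 => by
        simp [mem_SS, hU p h2] at h1
      have e5 : ∀ j, Disjoint (SS (tw π σ) j) U := fun j => disjoint_left.2 fun p h1 h2 => by
        simp [mem_SS, tw, hU p h2] at h1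
      simp only [yy, cut, e3, e4, e5, if_true]
    · push Not at hU
      obtain ⟨p, h1, h2⟩ := hU
      obtain ⟨l, h3⟩ := Option.ne_none_iff_exists'.1 h2
      rw [y_dead D h1 h3, y_dead D h1 (l := π p l) (by simp [tw, h3])]
  rw [y_form, y_form, e2]
  by_cases h1 : ∀ p ∈ T, ∀ l, σ p = some l → Lb p l
  · rw [if_pos h1, if_pos (e1.2 h1)]
  · rw [if_neg h1, if_neg fun h2 => h1 (e1.1 h2)]

omit [DecidableEq ι] in
theorem y_lev [DecidableEq ι] (hq : ∀ p, 1 ≤ q p) {G : J → Finset ι → ℝ} {D : ℝ}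
    {σ : ι → Option J} (h : yG (fun p => if p ∈ T then 1 else q p) G D σ ≠ 0) :
    (dn q σ : ℝ) ≤ Real.exp (D + LL q T) := by
  have e : (dn q σ : ℝ) = MP_fdd1d3_nt.dm q σ := by
    rw [dn, Nat.cast_prod]
    exact prod_congr rfl fun p _ => by cases σ p <;> simp
  rw [e, MP_fdd1d3_nt.dm_eq_exp q hq]
  have h1 : ∑ j, LL (fun p => if p ∈ T then 1 else q p) (SS σ j) ≤ D :=
    by_contra fun h1 => h (if_neg h1)
  refine Real.exp_le_exp.2 (le_trans ?_ (add_le_add h1 le_rfl))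
  simp only [LL, ← sum_label]
  rw [← univ_inter T, ← sum_ite_mem, ← sum_add_distrib]
  refine sum_le_sum fun p _ => ?_
  have := Real.log_natCast_nonneg (q p)
  cases σ p <;> by_cases h2 : p ∈ T <;> simp [h2, this]

end WTA

end Pool.Agent.MP_43e117_nt.GP

end
end

section

/-!
The count of exceptional terms in an arithmetic progression of even numbers.
-/

open Finset Filter

namespace Pool.Agent.MP_43e117_nt.GP

theorem few_K2 {K D c q : ℕ} (hq : 1 ≤ q)
    (hD : ∀ p : ℕ, p.Prime → p ≤ 2 * K → p ∣ D) (hD0 : 0 < D)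
    {P : ℕ → Prop} (hP : Cell2 K P) {F T : Finset ℕ} (hF : F.card = K)
    (hT : ∀ t ∈ T, ∀ s ∈ F, D * s < t ∧ ¬ P (2 * (c + q * (t - D * s)))) : T.card ≤ D * K := by
  by_contra hc
  obtain ⟨y, -, hy⟩ := exists_lt_card_fiber_of_mul_lt_card_of_maps_to (s := T) (t := range D)
    (f := fun t => t % D) (n := K) (fun t _ => mem_range.2 (Nat.mod_lt _ hD0))
    (by rw [card_range]; omega)
  obtain ⟨T', h1, h2⟩ := exists_subset_card_eq hy.le
  have hf : ∀ i, F.orderEmbOfFin hF i ∈ F := orderEmbOfFin_mem F hF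
  have hg : ∀ j, T'.orderEmbOfFin h2 j ∈ T ∧ T'.orderEmbOfFin h2 j % D = y := fun j =>
    mem_filter.1 (h1 (orderEmbOfFin_mem T' h2 j))
  have f1 := (F.orderEmbOfFin hF).injective
  have g1 := (T'.orderEmbOfFin h2).injective
  generalize ⇑(F.orderEmbOfFin hF) = f at hf f1
  generalize ⇑(T'.orderEmbOfFin h2) = g at hg g1
  have hx : ∀ i j, q * (D * f i) < q * g j ∧ ¬ P (2 * (c + q * (g j - D * f i))) := fun i j =>
    (hT _ (hg j).1 _ (hf i)).imp_left fun h => Nat.mul_lt_mul_of_pos_left h hq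
  obtain ⟨⟨a, i⟩, ⟨b, j⟩, h3, h4, h5⟩ := hP
    (fun l => if l.1 = 0 then 2 * (q * (D * f l.2)) else 2 * (c + q * g l.2)) (by
      rintro ⟨a, i⟩ ⟨b, j⟩ h
      have h3 := (hx i j).1
      have h4 := (hx j i).1
      dsimp only at h
      split_ifs at h with c1 c2 c2
      · rw [c1, c2, f1 (Nat.eq_of_mul_eq_mul_left hD0 (Nat.eq_of_mul_eq_mul_left hq
          (by omega : q * (D * f i) = q * (D * f j))))]
      · omega
      · omega
      · rw [g1 (Nat.eq_of_mul_eq_mul_left hq (by omega : q * g i = q * g j)), show a = b by omega]) (by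
      intro p hp
      have : Fact p.Prime := ⟨hp⟩
      have key : ∀ S : Finset (ZMod p), S.card < p → ∀ h : Fin 2 × Fin K → ℕ,
          (∀ l, -(h l : ZMod p) ∈ S) → ∃ c : ℕ, ∀ l, ¬ p ∣ c + h l := by
        intro S hS h hh
        obtain ⟨c, -, hc⟩ := exists_mem_notMem_of_card_lt_card (s := S) (t := univ)
          (by rwa [card_univ, ZMod.card])
        refine ⟨c.val, fun l h6 => hc ?_⟩
        rw [← ZMod.natCast_eq_zero_iff, Nat.cast_add, ZMod.natCast_zmod_val] at h6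
        rw [eq_neg_of_add_eq_zero_left h6]
        exact hh l
      by_cases c1 : p ≤ 2 * K
      · by_cases c2 : p = 2
        · subst c2
          refine ⟨1, fun l => ?_⟩
          split_ifs <;> omega
        · have c3 : 2 < p := lt_of_le_of_ne hp.two_le (Ne.symm c2)
          have c4 : (D : ZMod p) = 0 := (ZMod.natCast_eq_zero_iff _ _).2 (hD p hp c1)
          refine key {0, -(2 * (c + q * (y : ZMod p)))} (lt_of_le_of_lt card_le_two c3) _ fun l => ?_
          split_ifs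
          · simp [c4]
          · rw [← Nat.mod_add_div (g l.2) D, (hg l.2).2]
            simp [c4]
      · refine key (univ.image fun l : Fin 2 × Fin K =>
          -(((if l.1 = 0 then 2 * (q * (D * f l.2)) else 2 * (c + q * g l.2) : ℕ) : ZMod p)))
          (lt_of_le_of_lt card_image_le (by simp; omega)) _ fun l => mem_image_of_mem _ (mem_univ l))
  have h6 := (hx j i).1
  dsimp only at h3 h4 h5
  split_ifs at h4 h5 with c1 c2 c2
  · exact h3 (c1.trans c2.symm)
  · have h7 := (hx i j).1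
    exact (hx i j).2 (by
      rwa [Nat.mul_sub q, show 2 * (c + (q * g j - q * (D * f i))) =
        2 * (c + q * g j) - 2 * (q * (D * f i)) by omega])
  · omega
  · exact h3 (by omega)

theorem s_K2 (K : ℕ) : ∃ κ C : ℝ, κ < 1 ∧ ∀ P : ℕ → Prop, Cell2 K P → ∀ c q Y L : ℕ, 1 ≤ q →
    ({m ∈ Set.Ioc Y (Y + L) | ¬ P (2 * (c + q * m))}.ncard : ℝ) ≤ C * (L : ℝ) ^ κ := by
  classical
  rcases Nat.eq_zero_or_pos K with rfl | hK
  · refine ⟨0, 0, by norm_num, fun P hP => ?_⟩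
    obtain ⟨i, -⟩ := hP (fun _ => 0) (fun a => a.2.elim0) fun _ _ => ⟨0, fun l => l.2.elim0⟩
    exact i.2.elim0
  obtain ⟨D, hD0, hD⟩ : ∃ D : ℕ, 0 < D ∧ ∀ p : ℕ, p.Prime → p ≤ 2 * K → p ∣ D :=
    ⟨(2 * K).factorial, Nat.factorial_pos _, fun p hp h => hp.dvd_factorial.2 h⟩
  have hK1 : (0 : ℝ) < K + 1 := by positivity
  refine ⟨K / (K + 1), (D + 1) * (1 + K) + K.factorial * (D * K),
    (div_lt_one hK1).2 (by linarith), fun P hP c q Y L hq => ?_⟩
  obtain ⟨Q, hQ⟩ : ∃ Q : Finset ℕ, Q = (Ioc Y (Y + L)).filter fun m => ¬ P (2 * (c + q * m)) :=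
    ⟨_, rfl⟩
  have e1 : {m ∈ Set.Ioc Y (Y + L) | ¬ P (2 * (c + q * m))} = (Q : Set ℕ) := by
    ext m
    simp [hQ]
  rw [e1, Set.ncard_coe_finset]
  rcases Nat.eq_zero_or_pos L with rfl | hL
  · rw [hQ]
    simp only [add_zero, Ioc_self, filter_empty, card_empty, Nat.cast_zero]
    positivity
  obtain ⟨Nb, hNb⟩ : ∃ Nb : ℕ → Finset ℕ,
      Nb = fun t => (range L).filter fun s => D * s < t ∧ t - D * s ∈ Q := ⟨_, rfl⟩
  obtain ⟨T, hT⟩ : ∃ T : Finset ℕ, T = Ioc Y (Y + (D + 1) * L) := ⟨_, rfl⟩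
  have h1 : L * Q.card ≤ ∑ t ∈ T, (Nb t).card := by
    simp only [hNb, card_filter]
    rw [sum_comm]
    refine le_trans (by simp) (card_nsmul_le_sum (range L) _ Q.card fun s hs => ?_)
    rw [← card_filter]
    refine card_le_card_of_injOn (fun m => m + D * s) (fun m hm => ?_) fun a _ b _ h => by
      simpa using h
    have h2 := mem_Ioc.1 (mem_filter.1 (hQ ▸ mem_coe.1 hm)).1
    have h3 := Nat.mul_le_mul_left D (mem_range.1 hs).le
    simp only [hT, coe_filter, mem_Ioc, Set.mem_ofPred_eq, Nat.add_sub_cancel, add_mul, one_mul]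
    exact ⟨⟨by omega, by omega⟩, by omega, hm⟩
  have h2 : ∑ t ∈ T, (Nb t).card.choose K ≤ L ^ K * (D * K) := by
    have h3 : ∀ t, (Nb t).card.choose K =
        ((powersetCard K (range L)).filter fun F => F ⊆ Nb t).card := by
      intro t
      rw [← card_powersetCard]
      congr 1
      ext F
      simp only [mem_powersetCard, mem_filter]
      exact ⟨fun h => ⟨⟨h.1.trans (hNb ▸ filter_subset _ _), h.2⟩, h.1⟩, fun h => ⟨h.2, h.1.2⟩⟩
    simp only [h3, card_filter]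
    rw [sum_comm]
    refine (sum_le_card_nsmul _ _ (D * K) fun F hF => ?_).trans ?_
    · rw [← card_filter]
      refine few_K2 (c := c) hq hD hD0 hP (mem_powersetCard.1 hF).2 fun t ht s hs => ?_
      have h4 := (mem_filter.1 ht).2 hs
      simp only [hNb, hQ, mem_filter] at h4
      exact ⟨h4.2.1, h4.2.2.2⟩
    · rw [card_powersetCard, card_range, smul_eq_mul]
      exact Nat.mul_le_mul_right _ (Nat.choose_le_pow _ _)
  have hL1 : (1 : ℝ) ≤ L := by exact_mod_cast hL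
  obtain ⟨M, hM⟩ : ∃ M : ℝ, M = (L : ℝ) ^ ((K : ℝ) / (K + 1)) := ⟨_, rfl⟩
  have hM1 : 1 ≤ M := hM ▸ Real.one_le_rpow hL1 (by positivity)
  have hM2 : M ^ K * M = (L : ℝ) ^ K := by
    rw [← pow_succ, hM, ← Real.rpow_natCast, ← Real.rpow_mul (by positivity), Nat.cast_succ,
      div_mul_cancel₀ _ hK1.ne', Real.rpow_natCast]
  have hM3 : 0 < M ^ K := by positivity
  rw [← hM]
  have h3 : ∀ t ∈ T, ((Nb t).card : ℝ) ≤
      M + K + L * K.factorial / M ^ K * ((Nb t).card.choose K : ℕ) := by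
    intro t _
    have h4 : (Nb t).card ≤ L := by
      rw [hNb]
      exact (card_filter_le _ _).trans (card_range L).le
    generalize (Nb t).card = n at h4
    by_cases c : (n : ℝ) ≤ M + K
    · exact c.trans (le_add_of_nonneg_right (by positivity))
    · have h5 : K ≤ n + 1 := by
        have : (K : ℝ) ≤ n + 1 := by linarith
        exact_mod_cast this
      have h6 : M ^ K ≤ (K.factorial : ℝ) * (n.choose K : ℕ) := by
        have h7 := Nat.pow_sub_le_descFactorial n K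
        rw [Nat.descFactorial_eq_factorial_mul_choose] at h7
        refine le_trans (pow_le_pow_left₀ (b := ((n + 1 - K : ℕ) : ℝ)) (by linarith) ?_ K)
          (by exact_mod_cast h7)
        rw [Nat.cast_sub h5]
        push_cast
        linarith
      have h8 : (L : ℝ) ≤ L * K.factorial / M ^ K * (n.choose K : ℕ) := by
        rw [div_mul_eq_mul_div, le_div_iff₀ hM3, mul_assoc]
        exact mul_le_mul_of_nonneg_left h6 (by positivity)
      have h9 : (n : ℝ) ≤ L := by exact_mod_cast h4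
      have : (0 : ℝ) ≤ K := by positivity
      linarith
  have h4 := sum_le_sum h3
  rw [sum_add_distrib, sum_const, ← mul_sum, ← Nat.cast_sum, ← Nat.cast_sum, hT, Nat.card_Ioc,
    Nat.add_sub_cancel_left, ← hT, nsmul_eq_mul] at h4
  have h5 : (L : ℝ) * Q.card ≤ (∑ t ∈ T, (Nb t).card : ℕ) := by exact_mod_cast h1
  have h6 : ((∑ t ∈ T, (Nb t).card.choose K : ℕ) : ℝ) ≤ (L : ℝ) ^ K * (D * K) := by
    exact_mod_cast h2
  have h7 : (L : ℝ) * K.factorial / M ^ K * ((L : ℝ) ^ K * (D * K)) =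
      L * (K.factorial * (D * K) * M) := by
    rw [← hM2]
    field_simp
  have h8 := mul_le_mul_of_nonneg_left h6 (show (0 : ℝ) ≤ L * K.factorial / M ^ K by positivity)
  refine le_of_mul_le_mul_left ?_ (show (0 : ℝ) < L by positivity)
  have h9 : (K : ℝ) ≤ K * M := le_mul_of_one_le_right (by positivity) hM1
  have h10 : (((D + 1) * L : ℕ) : ℝ) * (M + K) ≤ L * ((D + 1) * (1 + K) * M) := by
    push_cast
    have : (0 : ℝ) ≤ (D + 1) * L := by positivity
    nlinarith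
  nlinarith

end Pool.Agent.MP_43e117_nt.GP

end
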