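import Pool.Agent.Mg.F436a94p.G9089d4
import Pool.Agent.Mg.F436a94p.G025e1e
import Pool.Agent.Mg.F436a94p.G204ca6
import Pool.Agent.Mg.F436a94p.Gefc083
import Pool.Agent.Mg.F436a94p.G184d2a
import Pool.Agent.Mg.F436a94p.G8f6ef8

set_option linter.all false

open Finset Filter Topology

namespace Pool.Agent.MP_971f68_nt

open Pool.Agent.MP_43e117_nt in
theorem lev_AP (A : ℕ) : ∀ᶠ N : ℕ in atTop,
    PG.Lev th (Icc 1 N) ((N : ℝ) ^ (1 / 2 - 1 / 4 : ℝ)) 0 (N / Real.log N ^ A) := by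
  have hLV := PG.s_LV PG.s_Tot PG.s_Tau PG.s_R1 PG.s_R2
  have hPT := PG.s_PT PG.s_Tau PG.s_Pm (PG.s_B2 (PG.s_B1 PG.s_LS PG.s_SC)) (PG.s_V1 PG.s_V0)
    PG.s_TL (PG.s_SW PG.s_Psi PG.s_TL)
  obtain ⟨A', hA⟩ := hLV A 0 1
  filter_upwards [hA, hPT (1 / 4) A' (by norm_num) le_rfl, eventually_ge_atTop 1] with N a1 a2 a4
  refine a1 _ _ _ (Icc_subset_Icc_right (by omega)) (PG.BVA.rpow_le a4 (by norm_num))
    (fun n hn => ?_) fun e he => a2 N e le_rfl (by omega) he
  rw [abs_of_nonneg (th_nonneg n), pow_one]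
  exact th_le (mem_Icc.1 hn).2

open Pool.Agent.MP_43e117_nt in
theorem ncop_AP (N d : ℕ) (hd : 1 ≤ d) :
    ∑ n ∈ (Icc 1 N).filter (fun n => ¬ n.Coprime d), th n ≤ Real.log d := by
  rw [← sum_filter_ne_zero, ← ArithmeticFunction.vonMangoldt_sum]
  refine (sum_le_sum fun n _ => PG.BVA.th_le n).trans (sum_le_sum_of_subset_of_nonneg
    (fun n hn => ?_) fun _ _ _ => ArithmeticFunction.vonMangoldt_nonneg)
  obtain ⟨h1, h2⟩ := mem_filter.1 hn
  have hp : n.Prime := by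
    by_contra h
    exact h2 (by simp [th, h])
  exact Nat.mem_divisors.2 ⟨hp.dvd_iff_not_coprime.2 (mem_filter.1 h1).2, by omega⟩

theorem root_AP {d N : ℕ} (h : d ^ 4 ≤ N) : (d : ℝ) ≤ (N : ℝ) ^ (1 / 2 - 1 / 4 : ℝ) := by
  rw [show (1 / 2 - 1 / 4 : ℝ) = (4 : ℝ)⁻¹ by norm_num,
    Real.le_rpow_inv_iff_of_pos (Nat.cast_nonneg d) (Nat.cast_nonneg N) (by norm_num)]
  exact_mod_cast h

theorem evl_AP (k : ℕ) : ∀ᶠ N : ℕ in atTop, Real.log N ^ k ≤ N := by
  have h := (Real.isLittleO_pow_log_id_atTop (n := k)).bound one_pos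
  filter_upwards [tendsto_natCast_atTop_atTop.eventually h] with N hN
  simp only [id, Real.norm_eq_abs, one_mul, Nat.abs_cast] at hN
  exact (le_abs_self _).trans hN

open Pool.Agent.MP_43e117_nt in
theorem s_AP : StAP := by
  intro A
  filter_upwards [lev_AP (A + 1), PG.s_PNT (A + 4), PG.BVA.ev_log 6, evl_AP (A + 5),
    eventually_ge_atTop 1] with N h1 h2 h3 h4 h5
  obtain ⟨E, e0, e1, e2⟩ := h1
  set L := Real.log N with hL
  have hL0 : 0 < L := by linarith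
  have hN0 : (0 : ℝ) < N := by exact_mod_cast h5
  have hδ : (0 : ℝ) ≤ N / L ^ (A + 4) := by positivity
  have hLδ : L ≤ N / L ^ (A + 4) := by
    rw [le_div_iff₀ (by positivity), ← pow_succ']; exact h4
  have hdN : ∀ d : ℕ, 1 ≤ d → d ^ 4 ≤ N → Real.log d ≤ L := fun d hd h =>
    Real.log_le_log (by exact_mod_cast hd)
      (by exact_mod_cast (Nat.le_self_pow (by norm_num) d).trans h)
  refine ⟨fun d => E d + 2 * (N / L ^ (A + 4)) / d.totient,
    fun d => add_nonneg (e0 d) (by positivity), fun d a hd h hc => ?_, ?_⟩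
  · have a1 := e1 d a hd (root_AP h) hc
    have a2 := ncop_AP N d hd
    have a3 := sum_filter_add_sum_filter_not (Icc 1 N) (fun n => n.Coprime d) th
    have a4 : 0 ≤ ∑ n ∈ (Icc 1 N).filter (fun n => ¬ n.Coprime d), th n :=
      sum_nonneg fun n _ => th_nonneg n
    have a5 := hdN d hd h
    have hφ : (0 : ℝ) < d.totient := by exact_mod_cast Nat.totient_pos.2 hd
    have a6 : |∑ n ∈ (Icc 1 N).filter (fun n => n.Coprime d), th n - N| ≤
        2 * (N / L ^ (A + 4)) := by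
      have h2' : |∑ n ∈ Icc 1 N, th n - N| ≤ N / L ^ (A + 4) := h2
      rw [abs_le] at h2' ⊢
      constructor <;> linarith [h2'.1, h2'.2]
    have a7 : |(∑ n ∈ (Icc 1 N).filter (fun n => n.Coprime d), th n) / d.totient -
        N / d.totient| ≤ 2 * (N / L ^ (A + 4)) / d.totient := by
      rw [← sub_div, abs_div, abs_of_pos hφ]
      exact div_le_div_of_nonneg_right a6 hφ.le
    rw [TH_eq]
    exact (abs_sub_le _ _ _).trans (add_le_add a1 a7)
  · rw [sum_add_distrib]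
    have b1 : ∑ d ∈ (Icc 1 N).filter (fun d => d ^ 4 ≤ N), E d ≤ N / L ^ (A + 1) := by
      refine le_trans ?_ e2
      simp only [pow_zero, one_mul]
      exact sum_le_sum_of_subset_of_nonneg (fun d hd => mem_Icc.2
        ⟨(mem_Icc.1 (mem_filter.1 hd).1).1, Nat.le_floor (root_AP (mem_filter.1 hd).2)⟩)
        fun d _ _ => e0 d
    have b2 : ∑ d ∈ Icc 1 N, (1 : ℝ) / d ≤ 1 + L := by
      simpa using (PG.s_Tau 0 N).1
    have b3 : ∑ d ∈ (Icc 1 N).filter (fun d => d ^ 4 ≤ N), 2 * (N / L ^ (A + 4)) / d.totient ≤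
        2 * (N / L ^ (A + 4)) * (1 + 2 * L) * (1 + L) := by
      refine le_trans ?_ (mul_le_mul_of_nonneg_left b2 (by positivity))
      rw [mul_sum]
      refine (sum_le_sum fun d hd => ?_).trans
        (sum_le_sum_of_subset_of_nonneg (filter_subset _ _) fun d _ _ => by positivity)
      obtain ⟨hd1, hd2⟩ := mem_filter.1 hd
      have hd := (mem_Icc.1 hd1).1
      have hφ : (0 : ℝ) < d.totient := by exact_mod_cast Nat.totient_pos.2 hd
      have hd0 : (0 : ℝ) < d := by exact_mod_cast hd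
      have c1 := PG.s_Tot d hd
      have c2 := hdN d hd hd2
      rw [mul_one_div, div_le_div_iff₀ hφ hd0, mul_assoc (2 * _)]
      refine mul_le_mul_of_nonneg_left ?_ (by positivity)
      nlinarith
    have b4 : 2 * (N / L ^ (A + 4)) * (1 + 2 * L) * (1 + L) ≤ N / L ^ (A + 1) := by
      have : (N : ℝ) / L ^ (A + 1) = N / L ^ (A + 4) * L ^ 3 := by field_simp; ring
      rw [this]
      have c1 : 2 * (1 + 2 * L) * (1 + L) ≤ L ^ 3 := by nlinarith [mul_nonneg hL0.le hL0.le]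
      nlinarith [mul_le_mul_of_nonneg_left c1 hδ]
    exact PG.BVA.half hN0.le (by linarith) le_rfl b1 (b3.trans b4)

theorem mod_AP {N d q a : ℕ} (h : q ≡ a [MOD d]) : d ∣ F N q ↔ d ∣ F N a := by
  have : F N q ≡ F N a [MOD d] := ((h.pow 3).mul_left 2).add_left _
  exact this.dvd_iff dvd_rfl

theorem s_Dv (h : StAP) : StDv := by
  intro A
  filter_upwards [h A] with N ⟨E, e0, e1, e2⟩
  refine ⟨E, e0, fun d hd h4 hc => ?_, e2⟩
  set R := (range d).filter fun x => d ∣ F N x with hR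
  have h1 : TH N (fun q => d ∣ F N q) = ∑ a ∈ R, TH N (fun q => q ≡ a [MOD d]) := by
    rw [TH_eq, ← sum_fiberwise_of_maps_to (t := R) (g := fun q => q % d) fun q hq =>
      mem_filter.2 ⟨mem_range.2 (Nat.mod_lt _ hd),
        (mod_AP (Nat.mod_modEq q d)).2 (mem_filter.1 hq).2⟩]
    refine sum_congr rfl fun a ha => ?_
    obtain ⟨ha1, ha2⟩ := mem_filter.1 ha
    have ha3 : a % d = a := Nat.mod_eq_of_lt (mem_range.1 ha1)
    rw [TH_eq, filter_filter]
    refine sum_congr (filter_congr fun q _ => ?_) fun _ _ => rfl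
    exact ⟨fun hq => hq.2.trans ha3.symm, fun hq => ⟨(mod_AP hq).2 ha2, Eq.trans hq ha3⟩⟩
  have h2 : ∀ a ∈ R, a.Coprime d := fun a ha => by
    refine Nat.Coprime.symm (Nat.coprime_of_dvd fun s hs hsd hsa => ?_)
    have b1 : s ∣ N ^ 3 + 2 * a ^ 3 := hsd.trans (mem_filter.1 ha).2
    have b2 : s ∣ N ^ 3 :=
      (Nat.dvd_add_left (Dvd.dvd.mul_left (dvd_pow hsa (by norm_num)) 2)).1 b1
    exact hs.one_lt.ne' (Nat.eq_one_of_dvd_coprimes hc (hs.dvd_of_dvd_pow b2) hsd)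
  have h3 : (rho N d : ℝ) * N / d.totient = ∑ _a ∈ R, (N : ℝ) / d.totient := by
    rw [sum_const, nsmul_eq_mul, mul_div_assoc]; rfl
  rw [h1, h3, ← sum_sub_distrib]
  refine (abs_sum_le_sum_abs _ _).trans ?_
  refine (sum_le_sum fun a ha => e1 d a hd h4 (h2 a ha)).trans ?_
  rw [sum_const, nsmul_eq_mul]; rfl

end Pool.Agent.MP_971f68_nt
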