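import Pool.Agent.Mg.F436a94p.G66a334
import Pool.Agent.Mg.F436a94p.Gb564e4
import Pool.Agent.Mg.F436a94p.Ga1c80b
import Pool.Agent.Mg.F436a94p.G0f45c8

set_option linter.all false

section

/-!
Transfer to the model for the weights `th` and `fb`, and the first two sums.
-/

open Finset Filter

noncomputable section

namespace Pool.Agent.MP_43e117_nt.GP

open PG

open TAA in
theorem s_TA2 (hBV : StBV) (hPNT : StPNT) (hSi : StSi) (hBF : StBF) (hTR : StTR2) : StTA2 := by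
  intro J _ _ H δ ε a A hδ hδ' hε ha
  obtain ⟨c, hc⟩ : ∃ c : ℕ, a * Fintype.card J ≤ 2 ^ c := by
    obtain ⟨c, hc⟩ := pow_unbounded_of_one_lt (a * Fintype.card J) (by norm_num : (1 : ℝ) < 2)
    exact ⟨c, hc.le⟩
  refine ⟨max 2 (max (Fintype.card J) H), fun w hw => ?_⟩
  have hw2 : 2 ≤ w := le_of_max_le_left hw
  have hwJ : Fintype.card J ≤ w := le_of_max_le_left (le_of_max_le_right hw)
  have hwh : H ≤ w := le_of_max_le_right (le_of_max_le_right hw)
  filter_upwards [hBV δ (A + 2) c hδ (by linarith), hBF δ hδ hδ', theta hPNT hε, lev w hδ,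
    eventually_ge_atTop (2 * w + 2)] with N h1 h2 h3 h4 h5 s i F hs hI hF hE
  have hi := hs.2.1
  have hx : N + N / 2 + s.h i ≤ 2 * N := by omega
  have hL : 0 < Real.log N := Real.log_pos (by exact_mod_cast (by omega : 1 < N))
  have t1 := hTR J w (RR δ N) s N c H i th F _ _ a _ hs hI hE ha hc
    ((h1 (N + s.h i) (N + N / 2 + s.h i) (by omega) (by omega) hx).mono h4)
  rw [main_sum h2.2.2.2.2.1 (by omega) fun S => Ex (om (rr w (RR δ N)) i S) F] at t1
  have e1 : Real.log N ^ A * (N / Real.log N ^ (A + 2)) = er N := by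
    unfold er
    field_simp
    ring
  rw [e1, abs_le] at t1
  have t2 := abs_le.1 (h3 (s.h i) hx)
  have t3 : 0 ≤ Ex (om (rr w (RR δ N)) i ∅) F :=
    ex_nonneg (hSi w (RR δ N) hw2).1 (by exact_mod_cast hwJ) i ∅ hF
  have hφ : (0 : ℝ) < (WW w).totient := Nat.cast_pos.2 (Nat.totient_pos.2 (WW_pos w))
  have t4 : 0 ≤ Ex (om (rr w (RR δ N)) i ∅) F / (WW w).totient := div_nonneg t3 hφ.le
  set Θ := ∑ m ∈ Ioc (N + s.h i) (N + N / 2 + s.h i), th m
  set E := Ex (om (rr w (RR δ N)) i ∅) F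
  have u1 : (1 - ε) * XX N * (E / (WW w).totient) ≤ Θ * (E / (WW w).totient) :=
    mul_le_mul_of_nonneg_right (by linarith [t2.1]) t4
  have u2 : Θ * (E / (WW w).totient) ≤ (1 + ε) * XX N * (E / (WW w).totient) :=
    mul_le_mul_of_nonneg_right (by linarith [t2.2]) t4
  have e2 : ∀ s : ℝ, s * be w N * E = s * XX N * (E / (WW w).totient) := fun s => by
    unfold be
    ring
  rw [e2, e2]
  rw [mul_div_assoc] at t1
  constructor <;> linarith [t1.1, t1.2]

open TBA in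
theorem s_TB2 (hBB : StBB) (hBF : StBF) (hTR : StTR2) (hFS : StFS) : StTB2 := by
  intro J _ _ H δ a A h0 h1 ha
  obtain ⟨c, hc⟩ := pow_unbounded_of_one_lt (a * Fintype.card J) (one_lt_two : (1 : ℝ) < 2)
  obtain ⟨B, hB⟩ : ∃ B : ℝ, ∀ w, 2 ≤ w → ∀ᶠ R : ℕ in atTop, ∀ m, |bb w R m| ≤ B :=
    ⟨_, fun w hw => (hFS 1 w one_pos hw).mono fun _ h => h.1⟩
  have hδ : δ < 1 / 4 := by linarith
  refine ⟨max 2 H, fun w hw => ?_⟩
  have hl : H ≤ w := le_of_max_le_right hw
  filter_upwards [hBF δ h0 h1, (tendsto_RR hδ).eventually (hB w (le_of_max_le_left hw)),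
    (tendsto_RR hδ).eventually (ev_ee 1), hBB δ B (A + 4) c h0 hδ.le,
    ev_pow (half_pos h0) (WW w), ev_pow (by norm_num : (0 : ℝ) < 1 / 10) w,
    eventually_ge_atTop (2 * w + 2)] with N a1 a2 a3 a4 a5 a6 a7 s j F hs hI hF
  obtain ⟨-, b1, -, b2, -, b3, -⟩ := a1
  generalize RR δ N = R at *
  have hN : (1 : ℝ) < N := Nat.one_lt_cast.2 (by omega)
  have hR : (0 : ℝ) < R := Nat.cast_pos.2 (by omega)
  have hL : Real.log R = 200 * ee R := by unfold ee; ring
  have c1 : (N : ℝ) ^ (1 / 10 : ℝ) ≤ ⌊Real.exp (180 * ee R)⌋₊ := by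
    have d1 : Real.log N ≤ Real.log (2 * N) := Real.log_le_log (by linarith) (by linarith)
    have d2 : (N : ℝ) ^ (1 / 10 : ℝ) ≤ Real.exp (90 * ee R) := by
      rw [Real.rpow_def_of_pos (by linarith)]
      exact Real.exp_le_exp.2 (by linarith)
    have d3 := Real.add_one_le_exp (90 * ee R)
    have d4 := Nat.lt_floor_add_one (Real.exp (180 * ee R))
    rw [show 180 * ee R = 90 * ee R + 90 * ee R by ring, Real.exp_add] at d4 ⊢
    nlinarith
  have c2 : ⌊Real.exp (181 * ee R)⌋₊ ≤ R := by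
    refine Nat.floor_le_of_le ?_
    conv_rhs => rw [← Real.exp_log hR]
    exact Real.exp_le_exp.2 (by linarith)
  have c3 := a4 (N + s.h j) (N + N / 2 + s.h j) _ _ (fun n => bb w R n / Real.log R) (by omega)
    (by omega) (by have := hs.2.1; omega) c1 ((Nat.cast_le.2 c2).trans (b2.trans
      (Real.rpow_le_rpow_of_exponent_le hN.le (by linarith)))) fun n => by
      rw [abs_div]
      exact (div_le_self (abs_nonneg _) (le_abs.2 (Or.inl (by linarith)))).trans (a2 n)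
  rw [← fb_eq (Nat.cast_le.1 (a6.trans c1)) c2] at c3
  have c4 : WW w * (N : ℝ) ^ (1 / 2 - 3 * δ / 2) ≤ (N : ℝ) ^ (1 / 2 - δ) := by
    refine (mul_le_mul_of_nonneg_right a5 (by positivity)).trans_eq ?_
    rw [← Real.rpow_add (by linarith)]
    ring_nf
  refine (hTR J w R s N c H j _ F _ _ a _ hs hI hF ha hc.le (c3.mono c4)).trans_eq ?_
  have := (Real.log_pos hN).ne'
  rw [pow_add]
  field_simp

theorem inv_sq {ι J : Type} [Fintype ι] [DecidableEq ι] [Fintype J] [DecidableEq J]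
    {Lb : ι → J → Prop} (r : ι → ℝ) {C : (ι → Option J) → ℝ} (hC : Sup Lb C) :
    Inv Lb fun o => Psi r C o ^ 2 := fun o => by simp only [inv_Psi r hC o]

open EAA in
theorem s_S02 (hMA : StMA) (hGU : StGU) (hSi : StSi) (hT0 : StT02) (hEA : StEA) : StS02 := by
  intro J _ _ δ ε A h0 h1 hε
  obtain ⟨A', hA⟩ := hEA J δ A h0 h1
  obtain ⟨w1, hw1⟩ := small (14 * 1 * ((Fintype.card J : ℝ) + 1) ^ 2)
    (Real.log_pos (show 1 < 1 + ε by linarith))
  refine ⟨2 + w1 + Fintype.card J, fun w hw => ?_⟩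
  filter_upwards [hA w (by omega), err h0 h1 A' (2 ^ (3 * Fintype.card J)),
    eventually_ge_atTop 1] with N e1 e2 hN s C hC hS
  obtain ⟨s1, s2, -, -, -, s6⟩ := hSi w (RR δ N) (by omega)
  have hr : ∀ p, 0 ≤ rr w (RR δ N) p := fun p => (s1 p).1
  have t0 := hT0 J w (RR δ N) s N (N / 2) (3 * Fintype.card J) _ _ _ _ _ (inv_sq _ hS)
    (e1.1 _ C hC) (by norm_num) (by exact_mod_cast Nat.lt_two_pow_self.le)
    (Real.one_le_rpow (by exact_mod_cast hN) (by positivity))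
  have g := hGU _ J _ ((Fintype.card J : ℝ) + 1) 1 _ _ ∅ _ C (by linarith)
    (le_add_of_nonneg_left (Nat.cast_nonneg _)) le_rfl
    (sm_mono s1 (by exact_mod_cast (show 1 ≤ w by omega))) (s6 J (by omega)) hC.2.1
    (hMA _ J _ C hr hC.1)
  rw [prod_empty, mul_one] at g
  have g1 : Real.exp (14 * 1 * ((Fintype.card J : ℝ) + 1) ^ 2 * eta (rr w (RR δ N))) ≤ 1 + ε :=
    (Real.le_log_iff_exp_le (by linarith)).1
      ((mul_le_mul_of_nonneg_left s2 (by positivity)).trans (hw1 w (by omega)))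
  have g2 := g.trans (mul_le_mul_of_nonneg_right g1 (qq_nonneg hr C))
  have e3 : be w N * VV w = ((N / 2 : ℕ) : ℝ) / WW w := by
    have : ((WW w).totient : ℝ) ≠ 0 := Nat.cast_ne_zero.2 (Nat.totient_pos.2 (WW_pos w)).ne'
    unfold be VV XX
    field_simp
  have g3 := mul_le_mul_of_nonneg_left g2
    (show 0 ≤ ((N / 2 : ℕ) : ℝ) / WW w by positivity)
  have t1 := (le_abs_self _).trans (t0.trans e2)
  rw [e3]
  unfold II Sy.P
  linarith

open EAA in
theorem s_S12 (hE0 : StE0) (hMA : StMA) (hGL : StGL) (hSi : StSi) (hTA : StTA2) (hEA : StEA) :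
    StS12 := by
  intro J _ _ H δ ε A h0 h1 hε
  obtain ⟨A', hA⟩ := hEA J δ A h0 h1
  have m0 : 0 < min ε 1 / 2 := half_pos (lt_min hε one_pos)
  have m1 := min_le_left ε 1
  have m2 := min_le_right ε 1
  generalize min ε 1 = η at m0 m1 m2
  obtain ⟨w1, hw1⟩ := small (14 * 1 * ((Fintype.card J : ℝ) + 1) ^ 2) m0
  refine ((hTA J H δ _ 3 A' h0 h1 m0 (by norm_num)).and ((Ew_of 2 hA).and
    ((Ew_ge (2 + w1 + 7 * (Fintype.card J + 1))).and
      (Ew_of 0 fun _ _ => eventually_ge_atTop 1)))).mono ?_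
  rintro w N ⟨t, e1, hw, hN⟩ s i C hs hC hS
  obtain ⟨s1, s2, -⟩ := hSi w (RR δ N) (by omega)
  have hr : ∀ p, 0 ≤ rr w (RR δ N) p := fun p => (s1 p).1
  have t0 := (t s i _ hs (inv_sq _ hS) (fun o => sq_nonneg _) (hE0 _ J _ _ _ _ _ _ _ _ _ _
    (e1.1 _ C hC)
    (Real.rpow_le_rpow_of_exponent_le (by exact_mod_cast hN) (by linarith)) le_rfl (by norm_num)
    le_rfl fun _ h => h)).1
  have g := hGL _ J _ ((Fintype.card J : ℝ) + 1) 1 _ _ ∅ _ C (by linarith)
    (le_add_of_nonneg_left (Nat.cast_nonneg _)) le_rfl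
    (sm_mono s1 (by exact_mod_cast (show 7 * 1 * (Fintype.card J + 1) ≤ w by omega)))
    (cl_om (sm_mono s1 (by exact_mod_cast (show Fintype.card J ≤ w by omega))) i) hC.2.1
    (hMA _ J _ C hr hC.1) hC.1.1
  rw [sum_empty, mul_zero, add_zero] at g
  have g1 := mul_le_mul_of_nonneg_right
    ((mul_le_mul_of_nonneg_left s2 (by positivity)).trans (hw1 w (by omega))) (qq_nonneg hr C)
  have q0 := qq_nonneg hr C
  have b0 : 0 ≤ be w N := by
    unfold be XX
    positivity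
  have g2 : (1 - η / 2) * QQ (rr w (RR δ N)) C ≤ _ := le_trans (by linarith) g
  have g3 := mul_le_mul_of_nonneg_left g2 (mul_nonneg (show 0 ≤ 1 - η / 2 by linarith) b0)
  have g4 := mul_le_mul_of_nonneg_right (show 1 - ε ≤ (1 - η / 2) * (1 - η / 2) by nlinarith)
    (mul_nonneg b0 q0)
  unfold Sy.P
  linarith

end Pool.Agent.MP_43e117_nt.GP

end
end

section

/-!
The two systems attached to forms `n + a` and `M - n + a`.
-/

open Finset

noncomputable section

namespace Pool.Agent.MP_43e117_nt.GP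

open PG
open MP_fdd1d3_nt (LL)

namespace SYA

variable {J : Type} (t : J → Bool) (a : J → ℕ) (M : ℕ)

/-- two forms of different sides share their root -/
def co (p : ℕ) (l l' : J) : Prop := t l ≠ t l' ∧ p ∣ M + a l + a l'

/-- the shifts seen from the side `s` -/
def hv (R : ℕ) (s : Bool) (l : J) : ℕ := if t l = s then a l else (R.factorial - 1) * (M + a l)

/-- the live labels seen from the side `s` -/
def lv (s : Bool) (p : ℕ) (l : J) : Prop := t l = s ∨ ¬ ∃ l', co t a M p l l'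

/-- the value of a form -/
def Lz (s : Bool) (l : J) (n : ℤ) : ℤ := if t l = s then n + a l else M + a l - n

open Classical in
/-- the partner of a label -/
def pa (p : ℕ) (l : J) : J := if H : ∃ l', co t a M p l l' then H.choose else l

variable {t a M}

theorem co_symm {p : ℕ} {l l' : J} (h : co t a M p l l') : co t a M p l' l :=
  ⟨h.1.symm, by rw [add_right_comm]; exact h.2⟩

theorem eq_of {p w : ℕ} (hp : w < p) (ha : ∀ l, a l ≤ w)
    (hi : ∀ l l', t l = t l' → a l = a l' → l = l') {l l' : J} (h : t l = t l')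
    (hd : (p : ℤ) ∣ (a l : ℤ) - a l') : l = l' := by
  refine hi l l' h ?_
  have h1 := ha l
  have h2 := ha l'
  have := Int.eq_zero_of_abs_lt_dvd hd (abs_lt.2 ⟨by omega, by omega⟩)
  omega

theorem co_pa {p w : ℕ} (hp : w < p) (ha : ∀ l, a l ≤ w)
    (hi : ∀ l l', t l = t l' → a l = a l' → l = l') {l l' : J} (h : co t a M p l l') :
    pa t a M p l = l' := by
  have H : ∃ l', co t a M p l l' := ⟨l', h⟩
  rw [pa, dif_pos H]
  obtain ⟨h1, h2⟩ := H.choose_spec
  generalize H.choose = x at h1 h2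
  refine eq_of hp ha hi ?_ ?_
  · have h3 := h.1
    revert h1 h3
    cases t l <;> cases t l' <;> cases t x <;> simp
  · have := dvd_sub (Int.natCast_dvd_natCast.2 h2) (Int.natCast_dvd_natCast.2 h.2)
    push_cast at this
    rwa [add_sub_add_left_eq_sub] at this

theorem pa_of {p : ℕ} {l : J} (h : ¬ ∃ l', co t a M p l l') : pa t a M p l = l := dif_neg h

theorem pa_pa {p w : ℕ} (hp : w < p) (ha : ∀ l, a l ≤ w)
    (hi : ∀ l l', t l = t l' → a l = a l' → l = l') : Function.Involutive (pa t a M p) := fun l => by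
  by_cases h : ∃ l', co t a M p l l'
  · obtain ⟨l', h⟩ := h
    rw [co_pa hp ha hi h, co_pa hp ha hi (co_symm h)]
  · rw [pa_of h, pa_of h]

theorem dvd_hv {p R : ℕ} (hp : p ∣ R.factorial) (s : Bool) (l : J) (n : ℕ) :
    p ∣ n + hv t a M R s l ↔ (p : ℤ) ∣ Lz t a M s l n := by
  rw [← Int.natCast_dvd_natCast, hv, Lz]
  split_ifs
  · rw [Nat.cast_add]
  · have h1 := (Int.natCast_dvd_natCast.2 hp).mul_right ((M : ℤ) + a l)
    rw [← dvd_sub_right h1]
    have e : ((n + (R.factorial - 1) * (M + a l) : ℕ) : ℤ) =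
        (R.factorial : ℤ) * (M + a l) - (M + a l - n) := by
      rw [Nat.cast_add, Nat.cast_mul, Nat.cast_sub R.factorial_pos]
      push_cast
      ring
    rw [e, sub_sub_cancel]

theorem inj {p w : ℕ} (hp : w < p) (ha : ∀ l, a l ≤ w)
    (hi : ∀ l l', t l = t l' → a l = a l' → l = l') {s : Bool} {n : ℤ} {l l' : J}
    (h1 : lv t a M s p l) (h2 : lv t a M s p l') (h3 : (p : ℤ) ∣ Lz t a M s l n)
    (h4 : (p : ℤ) ∣ Lz t a M s l' n) : l = l' := by
  have mix : ∀ l l', lv t a M s p l' → t l = s → t l' ≠ s → (p : ℤ) ∣ n + a l →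
      (p : ℤ) ∣ M + a l' - n → False := fun l l' h1 h2 h3 h4 h5 => by
    refine (h1.resolve_left h3) ⟨l, by rw [h2]; exact h3, Int.natCast_dvd_natCast.1 ?_⟩
    have e : ((M + a l' + a l : ℕ) : ℤ) = n + a l + (M + a l' - n) := by
      push_cast
      ring
    rw [e]
    exact dvd_add h4 h5
  unfold Lz at h3 h4
  split_ifs at h3 h4 with c1 c2 c2
  · refine eq_of hp ha hi (c1.trans c2.symm) ?_
    simpa using dvd_sub h3 h4
  · exact (mix l l' h2 c1 c2 h3 h4).elim
  · exact (mix l' l h1 c2 c1 h4 h3).elim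
  · refine eq_of hp ha hi (by revert c1 c2; cases t l <;> cases t l' <;> cases s <;> simp) ?_
    simpa using dvd_sub h3 h4

theorem fac {w R : ℕ} (p : Si w R) : p.1 ∣ R.factorial :=
  Nat.dvd_factorial (si_mem p).2.2.pos (si_mem p).2.1

open Classical in
/-- the system seen from the side `s` -/
def sy (M : ℕ) {w : ℕ} (R : ℕ) (ha : ∀ l, a l ≤ w)
    (hi : ∀ l l', t l = t l' → a l = a l' → l = l') (β : Bool → ℕ) (s : Bool) : Sy J w R where
  b := β s
  h := hv t a M R s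
  Lb := fun p l => lv t a M s p.1 l
  st := fun n p =>
    if H : ∃ l, lv t a M s p.1 l ∧ p.1 ∣ n + hv t a M R s l then some H.choose else none
  sp := fun n p l => by
    split_ifs with H
    · rw [Option.some_inj]
      exact ⟨fun e => e ▸ H.choose_spec, fun e => inj (si_mem p).1 ha hi H.choose_spec.1 e.1
        ((dvd_hv (fac p) s _ n).1 H.choose_spec.2) ((dvd_hv (fac p) s _ n).1 e.2)⟩
    · exact ⟨fun e => (by cases e), fun e => absurd ⟨l, e⟩ H⟩

/-- the exchange of partners -/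
def pi (M : ℕ) {w : ℕ} (R : ℕ) (ha : ∀ l, a l ≤ w)
    (hi : ∀ l l', t l = t l' → a l = a l' → l = l') (p : Si w R) : Equiv.Perm J :=
  (pa_pa (M := M) (si_mem p).1 ha hi).toPerm

theorem lv_pa {p w : ℕ} (hp : w < p) (ha : ∀ l, a l ≤ w)
    (hi : ∀ l l', t l = t l' → a l = a l' → l = l') (l : J) :
    lv t a M false p (pa t a M p l) ↔ lv t a M true p l := by
  by_cases h : ∃ l', co t a M p l l'
  · obtain ⟨l', h⟩ := h
    have h1 : ∃ x, co t a M p l x := ⟨l', h⟩
    have h2 : ∃ x, co t a M p l' x := ⟨l, co_symm h⟩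
    have h3 := h.1
    rw [co_pa hp ha hi h, lv, lv]
    simp only [h1, h2, not_true_eq_false, or_false]
    revert h3
    cases t l <;> cases t l' <;> simp
  · rw [pa_of h]
    exact ⟨fun _ => Or.inr h, fun _ => Or.inr h⟩

theorem Lz_pa {p w : ℕ} (hp : w < p) (ha : ∀ l, a l ≤ w)
    (hi : ∀ l l', t l = t l' → a l = a l' → l = l') (l : J) (n : ℤ) :
    (p : ℤ) ∣ Lz t a M false (pa t a M p l) (M - n) ↔ (p : ℤ) ∣ Lz t a M true l n := by
  have e : ∀ l, Lz t a M false l (M - n) = Lz t a M true l n := fun l => by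
    unfold Lz
    cases t l
    · simp only [if_true, Bool.false_eq_true, if_false]
      ring
    · simp only [if_true, Bool.true_eq_false, if_false]
      ring
  rw [e]
  by_cases h : ∃ l', co t a M p l l'
  · obtain ⟨l', h⟩ := h
    have h1 : Lz t a M true l' n = ((M + a l + a l' : ℕ) : ℤ) - Lz t a M true l n := by
      have h3 := h.1
      unfold Lz
      revert h3
      push_cast
      cases t l <;> cases t l' <;> simp <;> ring
    rw [co_pa hp ha hi h, h1, dvd_sub_right (Int.natCast_dvd_natCast.2 h.2)]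
  · rw [pa_of h]

theorem st_tw {w R : ℕ} (ha : ∀ l, a l ≤ w) (hi : ∀ l l', t l = t l' → a l = a l' → l = l')
    (β : Bool → ℕ) {n : ℕ} (hn : n ≤ M) :
    (sy M R ha hi β false).st (M - n) = tw (pi M R ha hi) ((sy M R ha hi β true).st n) := by
  funext p
  refine Option.ext fun l => ?_
  obtain ⟨l, rfl⟩ := (pi M R ha hi p).surjective l
  rw [tw, ← Option.map_some, (Option.map_injective (pi M R ha hi p).injective).eq_iff,
    Option.map_some, Sy.sp, Sy.sp]
  refine and_congr (lv_pa (si_mem p).1 ha hi l) ?_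
  refine (dvd_hv (fac p) _ _ _).trans (Iff.trans ?_ (dvd_hv (fac p) _ _ _).symm)
  rw [Nat.cast_sub hn]
  exact Lz_pa (si_mem p).1 ha hi l n

open Classical in
theorem irr [Fintype J] {w R X : ℕ} (hM : 0 < M) (hX : ∀ l l', M + a l + a l' ≤ X) :
    ∑ p ∈ univ.filter (fun p : Si w R => ∃ l l', co t a M p.1 l l'), Real.log p.1 ≤
      (Fintype.card J : ℝ) ^ 2 * Real.log X := by
  have h0 : ∀ x : J × J, 0 < M + a x.1 + a x.2 := fun x => by omega
  have h1 := MP_fdd1d3_nt.LL_le_log ((univ.filter fun p : Si w R =>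
    ∃ l l', co t a M p.1 l l').map (Function.Embedding.subtype _))
    (∏ x : J × J, (M + a x.1 + a x.2)) (prod_pos fun x _ => h0 x) fun p hp => by
      obtain ⟨q, hq, rfl⟩ := mem_map.1 hp
      obtain ⟨l, l', h⟩ := (mem_filter.1 hq).2
      exact ⟨(si_mem q).2.2, h.2.trans (dvd_prod_of_mem (fun x : J × J => M + a x.1 + a x.2)
        (mem_univ (l, l')))⟩
  rw [LL, sum_map] at h1
  refine h1.trans ?_
  rw [Nat.cast_prod, Real.log_prod fun x _ => Nat.cast_ne_zero.2 (h0 x).ne']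
  refine (sum_le_card_nsmul _ _ (Real.log X) fun x _ => Real.log_le_log (Nat.cast_pos.2 (h0 x))
    (Nat.cast_le.2 (hX _ _))).trans_eq ?_
  rw [card_univ, Fintype.card_prod, nsmul_eq_mul, Nat.cast_mul, sq]

theorem refl_mem {N w b b' n : ℕ} (h : b + b' ≡ MN N [MOD WW w]) (hn : n ∈ II N w b) :
    MN N - n ∈ II N w b' := by
  obtain ⟨h1, h2⟩ := mem_filter.1 hn
  rw [mem_Ioc] at h1
  refine mem_filter.2 ⟨mem_Ioc.2 (by unfold MN; omega), Nat.ModEq.add_left_cancel h2 ?_⟩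
  rw [Nat.add_sub_cancel' (by unfold MN; omega)]
  exact h.symm

theorem refl_sum {N w : ℕ} {β : Bool → ℕ} (h : β true + β false ≡ MN N [MOD WW w]) (s : Bool)
    (f : ℕ → ℝ) : ∑ n ∈ II N w (β true), f (ro N s n) = ∑ n ∈ II N w (β s), f n := by
  cases s
  · have h1 : ∀ b, ∀ n ∈ II N w b, MN N - (MN N - n) = n := fun b n hn => by
      have := mem_Ioc.1 (mem_filter.1 hn).1
      unfold MN
      omega
    exact sum_nbij' (fun n => MN N - n) (fun n => MN N - n) (fun n hn => refl_mem h hn)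
      (fun n hn => refl_mem (by rwa [add_comm]) hn) (h1 _) (h1 _) fun _ _ => rfl
  · rfl

end SYA

end Pool.Agent.MP_43e117_nt.GP

end
end

section

/-!
Primes in two different cells, two of the four cells being reflected.
-/

open Finset Filter

namespace Pool.Agent.MP_43e117_nt.GP

open PG SYA

namespace MbB

theorem n0 {S b Q e G : ℝ} (h : S ≤ (1 + 1 / 10 ^ 13) * b * Q + e) (hQ : Q ≤ G) (hb : 0 < b)
    (he : e ≤ 1 / 10 ^ 13 * b) (hG : 1 ≤ G) : S ≤ (1 + 2 / 10 ^ 13) * b * G := by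
  nlinarith [mul_le_mul_of_nonneg_left hQ hb.le, mul_le_mul_of_nonneg_left hG hb.le]

theorem n1 {S b Q e m G : ℝ} (h : (1 - 1 / 10 ^ 13) * b * Q - e ≤ S)
    (hQ : (1 - 1 / 10 ^ 13) * m * G ≤ Q) (hb : 0 ≤ b) (he : e ≤ 1 / 10 ^ 13 * b)
    (hG : 1 ≤ m * G) : (1 - 3 / 10 ^ 13) * b * (m * G) ≤ S := by
  nlinarith [mul_le_mul_of_nonneg_left hQ hb, mul_le_mul_of_nonneg_left hG hb]

theorem n2 {S b Q e x G : ℝ} (h : S ≤ (1 - 1 / 10 ^ 11) * b * Q / G + 4 * e) (hQ : Q ≤ x)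
    (hb : 0 ≤ b) (hG : 0 < G) (he : 4 * e ≤ 1 / 10 ^ 13 * b / G) (hx : 1 ≤ x) :
    S ≤ (1 - 99 / 10 ^ 13) * b * x / G := by
  have h3 : (1 - 1 / 10 ^ 11) * b * Q / G + 1 / 10 ^ 13 * b / G ≤
      (1 - 99 / 10 ^ 13) * b * x / G := by
    rw [← add_div]
    refine div_le_div_of_nonneg_right ?_ hG.le
    nlinarith [mul_le_mul_of_nonneg_left hQ hb, mul_le_mul_of_nonneg_left hx hb]
  linarith

theorem n3 {b V L g γ k m : ℝ} (hb : 0 ≤ b) (hV : 0 ≤ V) (hL : 0 ≤ L) (hg : 0 ≤ g) (hγ : 0 ≤ γ)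
    (h : 2 * 10 ^ 13 * V * L * γ ≤ (4 * k + 2 + 2) * m ^ 2) :
    10 ^ 13 * ((1 + 2 / 10 ^ 13) * (b * V) * (g * γ ^ 2)) * L ≤
      4 * (k + 1) * ((1 - 3 / 10 ^ 13) * b * (m ^ 2 * (g * γ))) := by
  have h1 : 0 ≤ b * (g * γ) := by positivity
  have h2 := mul_le_mul_of_nonneg_left h h1
  have h3 : 0 ≤ b * (g * γ) * (V * L * γ) := by positivity
  nlinarith

end MbB

theorem s_M2 (hRD : StRD) (hBF : StBF) (hGA : StGA) (hS0 : StS02) (hS1 : StS12)
    (hPair : StPair2) (hMa : StMa2) (hFI : StFI) : StM2 := by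
  have e0 : (0 : ℝ) < 1 / 10 ^ 13 := by norm_num
  obtain ⟨δ, hδ⟩ : ∃ δ : ℝ, δ = 1 / 10 ^ 13 := ⟨_, rfl⟩
  have d0 : 0 < δ := by rw [hδ]; norm_num
  have d1 : δ ≤ 1 / 2000 := by rw [hδ]; norm_num
  obtain ⟨k0, hk0⟩ := hMa δ (2 * 10 ^ 13) (1 / 10 ^ 13) d0 d1 e0
  refine ⟨k0 + 1, fun H => ?_⟩
  have hc : Fintype.card (Fin 4 × Fin (k0 + 1)) = (4 * k0 + 2) + 2 := by
    simp only [Fintype.card_prod, Fintype.card_fin]
    ring
  obtain ⟨A, hA⟩ := hk0 (Fin 4 × Fin (k0 + 1)) (by omega)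
    ((Fintype.card (Fin 4 × Fin (k0 + 1)) : ℝ) ^ 2 * 2)
  refine (((((((hS0 (Fin 4 × Fin (k0 + 1)) _ _ A d0 d1 e0).and
    (hS1 (Fin 4 × Fin (k0 + 1)) H _ _ A d0 d1 e0)).and
    (hPair (Fin 4 × Fin (k0 + 1)) H _ A d0 d1)).and hA).and
    (Ew_RR (hGA _ e0) (δ := δ) (by linarith))).and
    (Ew_of 0 fun w _ => ((hBF _ d0 d1).and (eventually_ge_atTop (2 * H + 5))).and
      (MA.err w e0))).and (Ew_ge H)).mono ?_
  rintro w N ⟨⟨⟨⟨⟨⟨s0, s1⟩, s2⟩, hW⟩, ga⟩, ⟨⟨b1, -, b3, -, b5, b6, -⟩, hN⟩, r1, r2, hβ⟩, hw⟩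
    a β ha hi hb hM
  classical
  have haw : ∀ l, a l ≤ w := fun l => (ha l).trans hw
  obtain ⟨S, hS⟩ : ∃ S, S = sy (MN N) (RR δ N) haw hi β := ⟨_, rfl⟩
  have hSb : ∀ s, (S s).b = β s := fun s => by rw [hS]; rfl
  have hSh : ∀ i, (S (sd i)).h i = a i := fun i => by rw [hS]; exact if_pos rfl
  have hFr : ∀ i, (S (sd i)).Fr H i := fun i =>
    ⟨fun p => by rw [hS]; exact Or.inl rfl, by rw [hSh]; exact ha i, by rw [hSh, hSb]; exact hb i⟩
  obtain ⟨y, y', m, γ, g, hm, hγ, hg1, W1, W2, hyy, hμ⟩ := hW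
    (univ.filter fun p => ∃ l l', co sd a (MN N) p.1 l l') (S true).Lb (S false).Lb
    (pi (MN N) (RR δ N) haw hi)
    ((irr (X := N ^ 2) (by unfold MN; omega) fun l l' => by
      have := ha l
      have := ha l'
      have : 5 * N ≤ N ^ 2 := by nlinarith
      unfold MN
      omega).trans_eq (by rw [Nat.cast_pow, Real.log_pow]; push_cast; ring))
    (fun p hp => by
      have h1 : ∀ l, ¬ ∃ l', co sd a (MN N) p.1 l l' := fun l h =>
        hp (mem_filter.2 ⟨mem_univ _, l, h⟩)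
      exact ⟨Equiv.ext fun l => pa_of (h1 l), fun l => by rw [hS]; exact Or.inr (h1 l)⟩)
    (fun p l => by rw [hS]; exact lv_pa (si_mem p).1 haw hi l)
    ⟨(0, 0), (1, 0), by simp, (hFr (0, 0)).1, (hFr (1, 0)).1⟩
  obtain ⟨Y, hY1, hY2⟩ : ∃ Y : Bool → _, Y true = y ∧ Y false = y' :=
    ⟨fun s => cond s y y', rfl, rfl⟩
  have WY : ∀ s, Wt δ (1 / 10 ^ 13) A N w m γ g (S s).Lb (Y s) := fun s => by
    cases s
    · rwa [hY2]
    · rwa [hY1]
  have hII : ∀ s, ∀ n ∈ II N w (β true), ro N s n ∈ II N w (β s) := fun s n hn => by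
    cases s
    exacts [refl_mem hM hn, hn]
  have hν : ∀ s, ∀ n ∈ II N w (β true), (S true).P y n = (S s).P (Y s) (ro N s n) :=
    fun s n hn => by
      cases s
      · have := mem_Ioc.1 (mem_filter.1 hn).1
        rw [hY2, hS]
        exact ((congrArg _ (st_tw haw hi β (by unfold MN; omega))).trans
          (psi_tw _ _ hyy _)).symm
      · rw [hY1]
        rfl
  by_contra hno
  push Not at hno
  have hL : 0 < Real.log (RR δ N) := Real.log_pos (by exact_mod_cast b6)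
  have hV := VV_pos w
  have hV1 := VV_le w
  have g1 := ga _ le_rfl
  rw [max_eq_left hL.le, abs_le] at g1
  have hLN : Real.log (RR δ N) ≤ Real.log N := by unfold ee at b1; linarith only [b1, hL]
  have hVL : VV w * Real.log (RR δ N) ≤ Real.log N :=
    (mul_le_of_le_one_left hL.le hV1).trans hLN
  have hx := mul_pos hV hL
  have hG0 : 0 < GA w (RR δ N) (Real.log (RR δ N)) := by linarith only [g1.1, hx]
  have hG2 : GA w (RR δ N) (Real.log (RR δ N)) ≤ 2 * Real.log N := by linarith only [g1.2, hVL, hx]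
  have her : 0 ≤ er N := by unfold er; positivity
  have hbV : be w N * VV w ≤ be w N := mul_le_of_le_one_right hβ.le hV1
  have r3 : er N ≤ 1 / 10 ^ 13 * (be w N * VV w) := by nlinarith only [r1, r2, her]
  have r4 : 4 * er N ≤ 1 / 10 ^ 13 * be w N / GA w (RR δ N) (Real.log (RR δ N)) := by
    rw [le_div_iff₀ hG0]
    nlinarith only [r1, her, hG2, hbV]
  rw [hc] at hμ
  have hmem : ∀ s, ∀ n ∈ II N w (β s), ∀ i, (RR δ N) < n + a i ∧ n + a i ≤ 2 * N :=
    fun s n hn i => by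
      have := mem_Ioc.1 (mem_filter.1 hn).1
      have := ha i
      omega
  have hle : ∀ s, ∀ n ∈ II N w (β s), ∀ i, Real.log ((n + a i : ℕ) : ℝ) ≤ Real.log (2 * N) :=
    fun s n hn i => Real.log_le_log (by exact_mod_cast (by have := (hmem s n hn i).1; omega))
      (by exact_mod_cast (hmem s n hn i).2)
  have hLg : 0 ≤ Real.log (2 * N) := Real.log_nonneg (by exact_mod_cast (by omega : 1 ≤ 2 * N))
  have hred : ∀ i, ∀ n ∈ II N w (β (sd i)), (n + a i).Prime → ∀ C,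
      (S (sd i)).P C n = (S (sd i)).P (red (rr w (RR δ N)) i C) n := fun i n hn hp C => by
    refine hRD _ _ _ _ _ _ fun p l hl e => ?_
    have h1 := (((S (sd i)).sp n p l).1 hl).2
    rw [e, hSh] at h1
    have h2 := (Nat.prime_dvd_prime_iff_eq (si_mem p).2.2 hp).1 h1
    have := (si_mem p).2.1
    have := (hmem _ n hn i).1
    omega
  have hmg : 1 ≤ m ^ 2 * (g * γ) :=
    one_le_mul_of_one_le_of_one_le (one_le_pow₀ hm) (one_le_mul_of_one_le_of_one_le hg1 hγ)
  have hz : ∀ n ∈ II N w (β true), ∀ i j : Fin 4 × Fin (k0 + 1), i.1 ≠ j.1 →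
      th (ro N (sd i) n + a i) * th (ro N (sd j) n + a j) = 0 := fun n hn i j hij => by
    unfold th
    split_ifs with p1 p2
    · exact absurd p2 (hno n hn i j hij p1)
    all_goals simp
  refine MA.fin hβ hV hm hg1 hγ hL (G := GA w (RR δ N) (Real.log (RR δ N)))
    (Lg := Real.log (2 * N))
    (by linarith only [g1.1, hx]) (by rw [← hδ]; exact b3)
    (hFI (k0 + 1) (II N w (β true)) (fun n => (S true).P y n ^ 2)
      (fun i n => th (ro N (sd i) n + a i))
      (Real.log (2 * N)) _ _ _ (10 ^ 13) (fun n => sq_nonneg _) (fun i n hn => ⟨MA.th_nonneg _, ?_⟩)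
      hz ?_ (fun i => ?_) (fun i j hij => ?_) (by omega) (by positivity)
      (by norm_num) ?_)
  · unfold th
    split_ifs
    exacts [hle _ _ (hII _ n hn) i, hLg]
  · have h1 := s0 (S true) y W1.1 W1.2.1
    rw [hSb] at h1
    exact MbB.n0 h1 W1.2.2.1 (mul_pos hβ hV) r3
      (one_le_mul_of_one_le_of_one_le hg1 (one_le_pow₀ hγ))
  · obtain ⟨a1, a2, a3⟩ := (WY (sd i)).2.2.2.1 i
    have h1 := s1 _ i _ (hFr i) a1 a2
    rw [hSb, hSh] at h1
    have h2 : ∑ n ∈ II N w (β (sd i)),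
          th (n + a i) * (S (sd i)).P (red (rr w (RR δ N)) i (Y (sd i))) n ^ 2 =
        ∑ n ∈ II N w (β true), th (ro N (sd i) n + a i) * (S true).P y n ^ 2 := by
      rw [← refl_sum hM]
      refine sum_congr rfl fun n hn => ?_
      by_cases hp : (ro N (sd i) n + a i).Prime
      · rw [← hred i _ (hII _ n hn) hp, hν (sd i) n hn]
      · simp [th, hp]
    rw [h2] at h1
    exact MbB.n1 h1 (a3 (hFr i).1) hβ.le (r3.trans (mul_le_mul_of_nonneg_left hbV e0.le)) hmg
  · have h2 : 1 ≤ m ^ 4 * g := one_le_mul_of_one_le_of_one_le (one_le_pow₀ hm) hg1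
    by_cases hij1 : i.1 = j.1
    swap
    · rw [sum_eq_zero fun n hn => by rw [hz n hn i j hij1, zero_mul]]
      exact mul_nonneg hLg (div_nonneg (mul_nonneg (mul_nonneg (by norm_num) hβ.le)
        (zero_le_one.trans h2)) hG0.le)
    have hsd : sd j = sd i := by rw [sd, sd, hij1]
    obtain ⟨a1, a2, a3⟩ := (WY (sd i)).2.2.2.2 i j
    have hFj := hFr j
    have hhj := hSh j
    have hrj := hred j
    rw [hsd] at hFj hhj hrj
    have h1 := s2 _ i j hij (hFr i) hFj _ a1 a2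
    dsimp only at h1
    rw [hSb, hSh, hhj] at h1
    refine le_trans ?_ (mul_le_mul_of_nonneg_left
      (MbB.n2 h1 (a3 hij (hFr i).1 hFj.1) hβ.le hG0 r4 h2) hLg)
    rw [← refl_sum hM (sd i), mul_sum, hsd]
    refine sum_le_sum fun n hn => ?_
    by_cases hp : (ro N (sd i) n + a i).Prime
    · by_cases hq : (ro N (sd i) n + a j).Prime
      · rw [← hrj _ (hII _ n hn) hq, ← hred i _ (hII _ n hn) hp, if_pos hq, one_mul,
          mul_comm (th _) (th _), mul_assoc, hν (sd i) n hn]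
        refine mul_le_mul_of_nonneg_right ?_ (mul_nonneg (MA.th_nonneg _) (sq_nonneg _))
        rw [th, if_pos hq]
        exact hle _ _ (hII _ n hn) j
      · simp [th, hq]
    · simp [th, hp]
  · push_cast at hμ ⊢
    exact MbB.n3 hβ.le hV.le hLg (zero_le_one.trans hg1) (zero_le_one.trans hγ) hμ

end Pool.Agent.MP_43e117_nt.GP

end
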