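import Pool.Agent.Mg.F436a94p.G58f7c4
import Pool.Agent.MP_2a1f0e_nt.Windows
import Pool.Agent.Mg.C853.Gee9e08
import Pool.Agent.Mg.C853.Gd0cebc

set_option linter.all false

/-!
The large sieve at the points `log n` and its dual.
-/

set_option autoImplicit false

open Finset Filter
open scoped ComplexConjugate

namespace Pool.Agent.MP_436a94_nt.A

open Pool.Agent.MP_2a1f0e_nt Pool.Agent.MP_43e117_nt.PG DirichletCharacter

lemma cm_LS {M T : ℕ} (hM : 1 ≤ M) (hT : 1 ≤ T) {S : Finset ℕ} (hS : S ⊆ Icc M (2 * M)) {σ : ℝ}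
    (hσ : |σ| = 1) : RF.CM S (fun n => σ * Real.log n) T (4 * M / T + 1) := by
  intro l s hs h
  have T1 : (1 : ℝ) ≤ T := by exact_mod_cast hT
  have M1 : (1 : ℝ) ≤ M := by exact_mod_cast hM
  rcases s.eq_empty_or_nonempty with rfl | ⟨i, hi⟩
  · rw [card_empty, Nat.cast_zero]
    positivity
  obtain ⟨k, k1, k2⟩ := h i hi
  have hb : ∀ j ∈ s, (M : ℝ) ≤ j ∧ (j : ℝ) ≤ 2 * M := fun j hj => by
    exact_mod_cast mem_Icc.1 (hS (hs hj))
  have hl : ∀ j ∈ s, Real.log M ≤ Real.log j ∧ Real.log j ≤ Real.log M + 1 := fun j hj => by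
    obtain ⟨a, b⟩ := hb j hj
    refine ⟨Real.log_le_log (by linarith) a, (Real.log_le_log (by linarith) b).trans ?_⟩
    rw [Real.log_mul (by norm_num) (by linarith)]
    linarith [Real.log_two_lt_d9]
  have key : s ⊆ Icc (i - 2 * M / T) (i + 2 * M / T) := fun j hj => by
    obtain ⟨k', l1, l2⟩ := h j hj
    have a1 : |σ * (Real.log j - Real.log i)| ≤ 1 := by
      rw [abs_mul, hσ, one_mul, abs_le]
      constructor <;> linarith [(hl i hi).1, (hl i hi).2, (hl j hj).1, (hl j hj).2]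
    have a2 : (1 : ℝ) / T ≤ 1 := (div_le_one (by linarith)).2 T1
    obtain ⟨a3, a4⟩ := abs_le.1 a1
    have a5 : k' = k := by
      have b1 : (k' : ℝ) < k + 1 := by nlinarith [Real.pi_gt_three]
      have b2 : (k : ℝ) < k' + 1 := by nlinarith [Real.pi_gt_three]
      have b3 : k' < k + 1 := by exact_mod_cast b1
      have b4 : k < k' + 1 := by exact_mod_cast b2
      omega
    subst a5
    have a6 : |σ * (Real.log j - Real.log i)| ≤ 1 / T := abs_le.2 ⟨by linarith, by linarith⟩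
    rw [abs_mul, hσ, one_mul] at a6
    have a7 := (abs_sub_div_le_log (by linarith [(hb j hj).1]) (by linarith [(hb i hi).1])
      (hb j hj).2 (hb i hi).2).trans a6
    rw [div_le_div_iff₀ (by linarith) (by linarith), one_mul] at a7
    have a8 : |(j : ℤ) - i| * T ≤ 2 * M := by exact_mod_cast a7
    have a9 : ((j : ℤ) - i).natAbs ≤ 2 * M / T := by
      rw [Nat.le_div_iff_mul_le hT]
      zify
      exact a8
    rw [mem_Icc]
    omega
  have c1 : s.card ≤ 2 * (2 * M / T) + 1 := (card_le_card key).trans (by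
    rw [Nat.card_Icc]
    omega)
  have c2 : ((2 * M / T : ℕ) : ℝ) ≤ (2 * M : ℕ) / T := Nat.cast_div_le
  have c3 : (s.card : ℝ) ≤ 2 * ((2 * M / T : ℕ) : ℝ) + 1 := by exact_mod_cast c1
  push_cast at c2
  have e : 4 * (M : ℝ) / T = 2 * (2 * M / T) := by ring
  linarith

lemma ls_LS : ∃ C : ℝ, 0 < C ∧ ∀ (M T : ℕ) (S : Finset ℕ) (σ : ℝ) (c : ℤ → ℂ), 1 ≤ M → 1 ≤ T →
    S ⊆ Icc M (2 * M) → |σ| = 1 →
    ∑ n ∈ S, ‖RF.trig T c (σ * Real.log n)‖ ^ 2 ≤ C * (M + T) * ∑ u ∈ RF.IT T, ‖c u‖ ^ 2 := by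
  obtain ⟨C, hC, h⟩ := RF.ls_stmt RF.kp_stmt
  refine ⟨4 * C, by positivity, fun M T S σ c hM hT hS hσ => ?_⟩
  refine (h ℕ S _ T _ hT (cm_LS hM hT hS hσ) c).trans
    (mul_le_mul_of_nonneg_right ?_ (by positivity))
  have T0 : (0 : ℝ) < T := by exact_mod_cast hT
  have e : C * (4 * M / T + 1) * T = C * (4 * M + T) := by field_simp
  rw [e]
  nlinarith [mul_pos hC T0]

theorem s_L2 : StL2 := by
  obtain ⟨C, hC, h⟩ := ls_LS
  refine ⟨6 * C + 1, by positivity, fun N T c hT hN => ?_⟩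
  have h1 := h (2 * N) T (Ico (2 * N) (4 * N)) (-1) c (by omega) hT
    (fun n hn => by rw [mem_Ico] at hn; rw [mem_Icc]; omega) (by simp)
  have e : ∀ t : ℕ, ∑ u ∈ RF.IT T, c u * GM.pw (t : ℝ) (-(u : ℝ)) =
      RF.trig T c (-1 * Real.log t) := fun t => by
    refine sum_congr rfl fun u _ => ?_
    rw [GM.pw]
    congr 2
    push_cast
    ring
  simp only [e]
  have h2 := sq_sum_le_card_mul_sum_sq (s := Ico (2 * N) (4 * N))
    (f := fun t : ℕ => ‖RF.trig T c (-1 * Real.log t)‖)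
  rw [Nat.card_Ico, show 4 * N - 2 * N = 2 * N by omega] at h2
  have S0 : 0 ≤ ∑ u ∈ RF.IT T, ‖c u‖ ^ 2 := by positivity
  refine le_of_sq_le_sq ?_ (by positivity)
  rw [mul_pow, Real.sq_sqrt S0]
  have h3 : (T : ℝ) ≤ N := by exact_mod_cast hN
  have N0 : (0 : ℝ) ≤ N := Nat.cast_nonneg N
  refine h2.trans ((mul_le_mul_of_nonneg_left h1 (by positivity)).trans ?_)
  rw [← mul_assoc]
  refine mul_le_mul_of_nonneg_right ?_ S0
  push_cast
  nlinarith [mul_le_mul_of_nonneg_left h3 (mul_nonneg hC.le N0), sq_nonneg (C * N),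
    mul_nonneg hC.le (sq_nonneg (N : ℝ)), sq_nonneg (N : ℝ)]

theorem s_MV : StMV := by
  obtain ⟨C, hC, h⟩ := ls_LS
  refine ⟨C, hC, fun M T b x hM hT => ?_⟩
  have h1 := h M T (dy M) 1 (fun u => conj (DP b (dy M) x u)) hM hT Ioc_subset_Icc_self (by simp)
  simp only [RCLike.norm_conj, one_mul] at h1
  set X := ∑ u ∈ RF.IT T, ‖DP b (dy M) x u‖ ^ 2 with hX
  have X0 : 0 ≤ X := by positivity
  have e : (X : ℂ) = ∑ n ∈ dy M, b n * (x.2 n *
      RF.trig T (fun u => conj (DP b (dy M) x u)) (Real.log n)) := by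
    have := phys T (fun u => conj (DP b (dy M) x u)) 1 x b (dy M)
    simp only [Nat.cast_one, GM.pw_one, mul_one, Real.log_one, sub_zero] at this
    rw [← this, hX, Complex.ofReal_sum]
    refine sum_congr rfl fun u _ => ?_
    rw [Complex.conj_mul']
    push_cast
    rfl
  have h2 : X ≤ ∑ n ∈ dy M, ‖b n‖ * ‖RF.trig T (fun u => conj (DP b (dy M) x u)) (Real.log n)‖ := by
    have : X = ‖(X : ℂ)‖ := by rw [Complex.norm_real, Real.norm_of_nonneg X0]
    rw [this, e]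
    refine norm_sum_le_of_le _ fun n _ => ?_
    rw [norm_mul, norm_mul]
    exact mul_le_mul_of_nonneg_left
      (mul_le_of_le_one_left (norm_nonneg _) (x.2.norm_le_one _)) (norm_nonneg _)
  have h3 := (pow_le_pow_left₀ X0 h2 2).trans ((sum_mul_sq_le_sq_mul_sq _ _ _).trans
    (mul_le_mul_of_nonneg_left h1 (by positivity)))
  rcases X0.eq_or_lt with h4 | h4
  · rw [← h4]
    positivity
  · refine le_of_mul_le_mul_right ?_ h4
    nlinarith

end Pool.Agent.MP_436a94_nt.A
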