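import Pool.Agent.Mg.F436a94p.G204ca6
import Pool.Agent.Mg.F436a94p.G397d9a
import Pool.Agent.MP_fdd1d3_nt.Mertens

set_option linter.all false

section

/-!
The arithmetic side: definitions and statements.
-/

open Finset Filter

noncomputable section

namespace Pool.Agent.MP_43e117_nt.PG

open MP_fdd1d3_nt (PP LL SS)

/-- the sites: primes of `(w, R]` -/
abbrev Si (w R : ℕ) : Type := ↥(PP w R)

def qq (w R : ℕ) (p : Si w R) : ℕ := p.1

def rr (w R : ℕ) (p : Si w R) : ℝ := 1 / ((p.1 : ℝ) - 1)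

def WW (w : ℕ) : ℕ := primorial w

def VV (w : ℕ) : ℝ := ((WW w).totient : ℝ) / WW w

def RR (δ : ℝ) (N : ℕ) : ℕ := ⌊(N : ℝ) ^ (1 / 4 - δ)⌋₊

def ee (R : ℕ) : ℝ := Real.log R / 200

def XX (N : ℕ) : ℝ := ((N / 2 : ℕ) : ℝ)

/-- the admitted error term -/
def er (N : ℕ) : ℝ := N / Real.log N ^ 2

open Classical in
def stt {J : Type} (h : J → ℕ) (w R n : ℕ) (p : Si w R) : Option J :=
  if H : ∃ l, p.1 ∣ n + h l then some H.choose else none

def st1 (w R m : ℕ) (p : Si w R) : Option Unit := if p.1 ∣ m then some () else none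

def dv (w R m : ℕ) : Finset (Si w R) := univ.filter fun p => p.1 ∣ m

def un (J : Type) [Fintype J] (w R : ℕ) (p : Si w R) : Option J → ℝ := mk fun _ => 1 / (p.1 : ℝ)

def II (N w b : ℕ) : Finset ℕ := (Ioc N (N + N / 2)).filter fun n => n ≡ b [MOD WW w]

def IW (N w x : ℕ) : Finset ℕ := (Ioc (N + x) (N + N / 2 + x)).filter fun m => m.Coprime (WW w)

def GA (w R : ℕ) (t : ℝ) : ℝ := GG (rr w R) (qq w R) t

def SA (w R : ℕ) (t : ℝ) (m : ℕ) : ℝ := Sel (rr w R) (qq w R) t (st1 w R m)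

def ww (w R : ℕ) (p : Si w R) : ℝ :=
  if 180 * ee R < Real.log p.1 ∧ Real.log p.1 ≤ 181 * ee R then Real.log p.1 / Real.log R else 0

def Et (w R : ℕ) : ℝ := ∑ p : Si w R, ww w R p / p.1

def Tm (w R m : ℕ) : ℝ := tt (ww w R) (st1 w R m) * SA w R (109 * ee R) m ^ 2

def ZZ (w R : ℕ) : Finset (Si w R) := univ.filter fun p => Real.log p.1 ≤ ee R

def nz (w R m : ℕ) : ℝ := ∑ l ∈ ZZ w R, ind l (st1 w R m)

/-- the small prime factors of a good number -/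
def Sh (e : ℝ) (s : Finset ℕ) : Prop := s.card ≤ 2 ∧
  (∀ p ∈ s, p.Prime ∧ 21 * e < Real.log p ∧ ¬ (180 * e < Real.log p ∧ Real.log p ≤ 181 * e)) ∧
  (s.card = 2 → ∑ p ∈ s, Real.log p ≤ 218 * e ∨ 221 * e ≤ ∑ p ∈ s, Real.log p)

def Good (e : ℝ) (m : ℕ) : Prop := ∃ (s : Finset ℕ) (q : ℕ), m = (∏ p ∈ s, p) * q ∧ q.Prime ∧
  200 * e < Real.log q ∧ (∀ p ∈ s, p < q) ∧ Sh e s

def Rough (w R m : ℕ) : Prop := m ≠ 0 ∧ Real.log m ≤ 802 * ee R ∧
  ∀ p : Si w R, p.1 ∣ m → ee R < Real.log p.1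

open Classical in
def TG (w R m : ℕ) : ℝ := ∑ p : Si w R,
  if p.1 ∣ m ∧ Good (ee R) (m / p.1) then ww w R p * SA w R (109 * ee R) (m / p.1) ^ 2 else 0

open Classical in
def bb (w R m : ℕ) : ℝ :=
  if Rough w R m ∧ ¬ Good (ee R) m then SA w R (109 * ee R) m ^ 2 else 0

def fb (w R m : ℕ) : ℝ := ∑ p : Si w R, if p.1 ∣ m then ww w R p * bb w R (m / p.1) else 0

def Phi (t : ℝ) (T : Finset ℕ) : ℝ :=
  ∑ v ∈ T.powerset, (-1) ^ v.card * max 0 (1 - (∑ p ∈ v, Real.log p) / t)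

/-- the primes with `x < log p ≤ y` -/
def PL (x y : ℝ) : Finset ℕ := (Ioc ⌊Real.exp x⌋₊ ⌊Real.exp y⌋₊).filter Nat.Prime

def HW (w : ℕ) (t : ℝ) : ℝ :=
  ∑ n ∈ (Icc 1 ⌊Real.exp t⌋₊).filter (fun n => n.Coprime (WW w)), 1 / (n : ℝ)

def c1 (i : ℕ) : ℝ := max 0 (min 1 ((i : ℝ) / 109) - 1 / 1000)

def c2 (i j : ℕ) : ℝ :=
  max 0 (min 1 ((i : ℝ) / 109) + min 1 ((j : ℝ) / 109) - min 1 (((i : ℝ) + j) / 109) - 1 / 1000)

def A1 : Finset ℕ := (Icc 21 308).erase 180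

def A2 : Finset (ℕ × ℕ) := (Icc 21 308 ×ˢ Icc 21 308).filter fun x => x.1 < x.2 ∧ x.1 ≠ 180 ∧
  x.2 ≠ 180 ∧ 2 * (x.2 + 1) + (x.1 + 1) ≤ 619 ∧ (x.1 + x.2 ≤ 216 ∨ 221 ≤ x.1 + x.2)

def grid : ℝ := (999 / 1000) ^ 2 / 622 + ∑ i ∈ A1, c1 i ^ 2 / ((i + 1) * (622 - i)) +
  ∑ x ∈ A2, c2 x.1 x.2 ^ 2 / ((x.1 + 1) * (x.2 + 1) * (622 - x.1 - x.2))

/-- for all large `w`, all classes `b` and all large `N` -/
def Ev {J : Type} (h : J → ℕ) (P : ℕ → ℕ → ℕ → Prop) : Prop :=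
  ∃ w0 : ℕ, ∀ w, w0 ≤ w → ∀ b, (∀ l, (b + h l).Coprime (WW w)) → ∀ᶠ N in atTop, P w b N

/-- for all large `w` and all large `R` -/
def Ew (P : ℕ → ℕ → Prop) : Prop := ∃ w0 : ℕ, ∀ w, w0 ≤ w → ∀ᶠ R in atTop, P w R

def Adm {J : Type} (δ : ℝ) (A N w : ℕ) (Lb : J → Prop)
    (C : (Si w (RR δ N) → Option J) → ℝ) : Prop :=
  Mono C ∧ Sup (fun _ l => Lb l) C ∧ (∀ σ, |C σ| ≤ Real.log N ^ A) ∧
    ∀ σ, C σ ≠ 0 → (dn (qq w (RR δ N)) σ : ℝ) ≤ (N : ℝ) ^ (δ / 4)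

def PC {J : Type} [Fintype J] [DecidableEq J] (h : J → ℕ) (w R : ℕ)
    (C : (Si w R → Option J) → ℝ) (n : ℕ) : ℝ := Psi (rr w R) C (stt h w R n)

/-- a property of all pairs of forms and all admissible coefficients -/
def Pair {J : Type} (δ : ℝ) (A : ℕ) (h : J → ℕ)
    (P : ∀ (w : ℕ) (_ : ℕ) (N : ℕ), J → J → ((Si w (RR δ N) → Option J) → ℝ) → Prop) : Prop :=
  Ev h fun w b N => ∀ i j, i ≠ j → ∀ C, Adm δ A N w (fun l => l ≠ i ∧ l ≠ j) C → P w b N i j C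

/-- the main factor `X / φ(W)` -/
def be (w N : ℕ) : ℝ := XX N / (WW w).totient

theorem Ev.and {J : Type} {h : J → ℕ} {P Q : ℕ → ℕ → ℕ → Prop} (hP : Ev h P) (hQ : Ev h Q) :
    Ev h fun w b N => P w b N ∧ Q w b N := by
  obtain ⟨a, ha⟩ := hP
  obtain ⟨c, hc⟩ := hQ
  exact ⟨max a c, fun w hw b hb =>
    (ha w (le_of_max_le_left hw) b hb).and (hc w (le_of_max_le_right hw) b hb)⟩

theorem Ev.mono {J : Type} {h : J → ℕ} {P Q : ℕ → ℕ → ℕ → Prop} (hP : Ev h P)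
    (H : ∀ w b N, P w b N → Q w b N) : Ev h Q := by
  obtain ⟨a, ha⟩ := hP
  exact ⟨a, fun w hw b hb => (ha w hw b hb).mono (H w b)⟩

theorem Ev.of_w {J : Type} (h : J → ℕ) {P : ℕ → ℕ → Prop} (w0 : ℕ)
    (H : ∀ w, w0 ≤ w → ∀ᶠ N in atTop, P w N) : Ev h fun w _ N => P w N :=
  ⟨w0, fun w hw _ _ => H w hw⟩

theorem Ev.cop {J : Type} (h : J → ℕ) (w0 : ℕ) :
    Ev h fun w b _ => w0 ≤ w ∧ ∀ l, (b + h l).Coprime (WW w) :=
  ⟨w0, fun _ hw _ hb => Eventually.of_forall fun _ => ⟨hw, hb⟩⟩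

theorem tendsto_RR {δ : ℝ} (hδ : δ < 1 / 4) : Tendsto (RR δ) atTop atTop :=
  tendsto_nat_floor_atTop.comp
    ((tendsto_rpow_atTop (by linarith)).comp tendsto_natCast_atTop_atTop)

theorem Ew.ev {J : Type} (h : J → ℕ) {P : ℕ → ℕ → Prop} (hP : Ew P) {δ : ℝ} (hδ : δ < 1 / 4) :
    Ev h fun w _ N => P w (RR δ N) := by
  obtain ⟨a, ha⟩ := hP
  exact Ev.of_w h a fun w hw => (tendsto_RR hδ).eventually (ha w hw)

theorem Ew.and {P Q : ℕ → ℕ → Prop} (hP : Ew P) (hQ : Ew Q) : Ew fun w R => P w R ∧ Q w R := by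
  obtain ⟨a, ha⟩ := hP
  obtain ⟨c, hc⟩ := hQ
  exact ⟨max a c, fun w hw => (ha w (le_of_max_le_left hw)).and (hc w (le_of_max_le_right hw))⟩

theorem Ew.mono {P Q : ℕ → ℕ → Prop} (hP : Ew P) (H : ∀ w R, P w R → Q w R) : Ew Q := by
  obtain ⟨a, ha⟩ := hP
  exact ⟨a, fun w hw => (ha w hw).mono (H w)⟩

theorem WW_pos (w : ℕ) : 0 < WW w := primorial_pos w

theorem VV_pos (w : ℕ) : 0 < VV w :=
  div_pos (Nat.cast_pos.2 (Nat.totient_pos.2 (WW_pos w))) (Nat.cast_pos.2 (WW_pos w))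

theorem VV_le (w : ℕ) : VV w ≤ 1 :=
  (div_le_one (Nat.cast_pos.2 (WW_pos w))).2 (Nat.cast_le.2 (Nat.totient_le _))

theorem si_mem {w R : ℕ} (p : Si w R) : w < p.1 ∧ p.1 ≤ R ∧ p.1.Prime := by
  have := (MP_fdd1d3_nt.mem_PP w R p.1).1 p.2
  exact ⟨this.1.1, this.1.2, this.2⟩

theorem SS_st1 (w R m : ℕ) : SS (st1 w R m) () = dv w R m := by
  ext p
  simp [MP_fdd1d3_nt.mem_SS, st1, dv]

theorem mem_PL {x y : ℝ} {p : ℕ} : p ∈ PL x y ↔ p.Prime ∧ x < Real.log p ∧ Real.log p ≤ y := by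
  rw [PL, mem_filter, mem_Ioc, and_comm]
  refine and_congr_right fun hp => ?_
  have h0 : (0 : ℝ) < p := Nat.cast_pos.2 hp.pos
  rw [Nat.floor_lt (Real.exp_pos x).le, Nat.le_floor_iff (Real.exp_pos y).le,
    Real.lt_log_iff_exp_lt h0, Real.log_le_iff_le_exp h0]

theorem Lev.mono {f : ℕ → ℝ} {I : Finset ℕ} {Q Q' ε : ℝ} {c : ℕ} (h : Lev f I Q c ε)
    (hQ : Q' ≤ Q) : Lev f I Q' c ε := by
  obtain ⟨E, h0, h1, h2⟩ := h
  refine ⟨E, h0, fun q a a1 a2 a3 => h1 q a a1 (a2.trans hQ) a3, le_trans ?_ h2⟩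
  exact sum_le_sum_of_subset_of_nonneg (Icc_subset_Icc_right (Nat.floor_mono hQ))
    fun q _ _ => mul_nonneg (pow_nonneg (Nat.cast_nonneg _) _) (h0 q)

/-! Sites, Mertens sums and the function `GA`. -/

def StSt : Prop := ∀ (J : Type) [DecidableEq J] (h : J → ℕ) (w R n : ℕ), Function.Injective h →
  (∀ l, h l ≤ w) → (∀ p l, stt h w R n p = some l ↔ p.1 ∣ n + h l) ∧
    ∀ j, pr j (stt h w R n) = st1 w R (n + h j)

def StSi : Prop := ∀ w R : ℕ, 2 ≤ w → Sm (rr w R) w ∧ eta (rr w R) ≤ 2 / w ∧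
  (∀ p, 1 ≤ qq w R p) ∧
  (∀ k : ℕ, 2 ≤ R → ∏ p, (1 + k * rr w R p) ≤ (15 * Real.log R) ^ (2 * k)) ∧
  (2 ≤ R → ∑ p, rr w R p ≤ 4 * Real.log (15 * Real.log R)) ∧
  ∀ (J : Type) [Fintype J], Fintype.card J ≤ w →
    Cl (rr w R) (fun _ _ => True) ∅ 1 (un J w R)

def StBF : Prop := ∀ δ : ℝ, 0 < δ → δ ≤ 1 / 2000 → ∀ᶠ N : ℕ in atTop,
  800 * ee (RR δ N) ≤ Real.log N ∧ Real.log (2 * N) ≤ 802 * ee (RR δ N) ∧
  Real.log (2 * N) ≤ (4 + 17 * δ) * Real.log (RR δ N) ∧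
  (RR δ N : ℝ) ≤ (N : ℝ) ^ (1 / 4 - δ) ∧ RR δ N < N ∧ 2 ≤ RR δ N ∧
  (RR δ N : ℝ) ^ 2 * (N : ℝ) ^ (δ / 2) ≤ (N : ℝ) ^ (1 / 2 - 3 * δ / 2)

def StMe : Prop := ∃ C : ℝ, ∀ x y : ℝ, 0 ≤ x → x ≤ y →
  |∑ p ∈ PL x y, Real.log p / p - (y - x)| ≤ C

def StEt : Prop := Ew fun w R => 1 / 250 ≤ Et w R ∧ Et w R ≤ 1 / 100 ∧
  Et w R ≤ ∑ p, ww w R p * rr w R p ∧ ∑ p, ww w R p * rr w R p ≤ 11 / 10 * Et w R ∧
  (∀ p, 0 ≤ ww w R p ∧ ww w R p ≤ 1) ∧
  ∑ l ∈ ZZ w R, rr w R l * Real.log l.1 ≤ 6 / 5 * ee R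

def StHH : Prop := ∀ w : ℕ, ∃ C : ℝ, ∀ t : ℝ, 0 ≤ t → |HW w t - VV w * t| ≤ C

def StG1 : Prop := ∀ (w R : ℕ) (C : ℝ), 2 ≤ w →
  (∀ a b : ℝ, a ≤ b → HW w b - HW w a ≤ VV w * (b - a) + C) → ∀ t' t : ℝ, t' ≤ t →
  GA w R t - GA w R t' ≤ Real.exp (2 / w) * (VV w * (t - t') + C)

def StG2 : Prop := ∀ (w R : ℕ) (C : ℝ), 2 ≤ w →
  (∀ a b : ℝ, a ≤ b → HW w b - HW w a ≤ VV w * (b - a) + C) → ∀ t' t : ℝ, t' ≤ t →
  t ≤ Real.log R → HW w t - HW w t' - (VV w * (t - t') + C) / w ≤ GA w R t - GA w R t'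

def StGI : Prop := ∃ w0 : ℕ, ∀ w, w0 ≤ w → ∃ C : ℝ, 0 ≤ C ∧ ∀ (R : ℕ) (t' t : ℝ), t' ≤ t →
  GA w R t - GA w R t' ≤ 3 / 2 * VV w * (t - t') + C

def StGA : Prop := ∀ ε : ℝ, 0 < ε → Ew fun w R => ∀ t ≤ Real.log R,
  |GA w R t - VV w * max t 0| ≤ ε * VV w * Real.log R

/-! Transfer from the integers to the model. -/

def StCR : Prop := ∀ (J : Type) [Fintype J] [DecidableEq J] (h : J → ℕ) (w R b : ℕ)
  (τ : Si w R → Option J), Function.Injective h → (∀ l, h l ≤ w) → ∃ a : ℕ,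
    (∀ n, (if n ≡ b [MOD WW w] then MM τ (stt h w R n) else 0) =
      if n ≡ a [MOD WW w * dn (qq w R) τ] then 1 else 0) ∧
    ∀ j, (b + h j).Coprime (WW w) → (∀ p, τ p ≠ some j) →
      (a + h j).Coprime (WW w * dn (qq w R) τ)

def StCN : Prop := ∀ (J : Type) [Fintype J] [DecidableEq J] (w R c : ℕ) (a D : ℝ) (E : ℕ → ℝ),
  (∀ d, 0 ≤ E d) → 0 ≤ a → a * Fintype.card J ≤ 2 ^ c →
  ∑ τ : Si w R → Option J,
      (if (dn (qq w R) τ : ℝ) ≤ D then a ^ ct τ * E (dn (qq w R) τ) else 0) ≤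
    ∑ d ∈ Icc 1 ⌊D⌋₊, ta d ^ c * E d

def StTR : Prop := ∀ (J : Type) [Fintype J] [DecidableEq J] (h : J → ℕ) (w R b N c : ℕ) (j : J)
  (f : ℕ → ℝ) (F : (Si w R → Option J) → ℝ) (D B a ε : ℝ), Function.Injective h →
  (∀ l, h l ≤ w) → (b + h j).Coprime (WW w) → Exp (qq w R) (fun l => l ≠ j) F D B a → 0 ≤ a →
  a * Fintype.card J ≤ 2 ^ c → Lev f (Ioc (N + h j) (N + N / 2 + h j)) (WW w * D) c ε →
  |∑ n ∈ II N w b, f (n + h j) * F (stt h w R n) -
    (∑ m ∈ IW N w (h j), f m * Ex (om (rr w R) j (dv w R m)) F) / (WW w).totient| ≤ B * ε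

def StT0 : Prop := ∀ (J : Type) [Fintype J] [DecidableEq J] (h : J → ℕ) (w R b x X c : ℕ)
  (Lb : J → Prop) (F : (Si w R → Option J) → ℝ) (D B a : ℝ), Function.Injective h →
  (∀ l, h l ≤ w) → Exp (qq w R) Lb F D B a → 0 ≤ a → a * Fintype.card J ≤ 2 ^ c → 1 ≤ D →
  |∑ n ∈ (Ioc x (x + X)).filter (fun n => n ≡ b [MOD WW w]), F (stt h w R n) -
    X / WW w * Ex (un J w R) F| ≤ B * (D * (1 + Real.log D) ^ 2 ^ c)

def StTA : Prop := ∀ (J : Type) [Fintype J] [DecidableEq J] (h : J → ℕ) (δ ε a : ℝ) (A : ℕ),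
  Function.Injective h → 0 < δ → δ ≤ 1 / 2000 → 0 < ε → 0 ≤ a → Ev h fun w b N =>
    ∀ (i : J) (F : (Si w (RR δ N) → Option J) → ℝ), (∀ o, 0 ≤ F o) →
    Exp (qq w (RR δ N)) (fun l => l ≠ i) F ((N : ℝ) ^ (1 / 2 - 3 * δ / 2)) (Real.log N ^ A) a →
    (1 - ε) * be w N * Ex (om (rr w (RR δ N)) i ∅) F - er N ≤
        ∑ n ∈ II N w b, th (n + h i) * F (stt h w (RR δ N) n) ∧
      ∑ n ∈ II N w b, th (n + h i) * F (stt h w (RR δ N) n) ≤
        (1 + ε) * be w N * Ex (om (rr w (RR δ N)) i ∅) F + er N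

def StFS : Prop := ∀ (ε : ℝ) (w : ℕ), 0 < ε → 2 ≤ w → ∀ᶠ R : ℕ in atTop,
  (∀ m, |bb w R m| ≤ 4 ^ 802) ∧ ∀ m, fb w R m ≠ 0 → ∑ p ∈ dv w R m, rr w R p ≤ ε

def StTB : Prop := ∀ (J : Type) [Fintype J] [DecidableEq J] (h : J → ℕ) (δ a : ℝ) (A : ℕ),
  Function.Injective h → 0 < δ → δ ≤ 1 / 2000 → 0 ≤ a → Ev h fun w b N =>
    ∀ (j : J) (F : (Si w (RR δ N) → Option J) → ℝ),
    Exp (qq w (RR δ N)) (fun l => l ≠ j) F ((N : ℝ) ^ (1 / 2 - 3 * δ / 2)) (Real.log N ^ A) a →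
    |∑ n ∈ II N w b, fb w (RR δ N) (n + h j) * F (stt h w (RR δ N) n) -
      (∑ m ∈ IW N w (h j), fb w (RR δ N) m *
        Ex (om (rr w (RR δ N)) j (dv w (RR δ N) m)) F) / (WW w).totient| ≤ N / Real.log N ^ 4

def StEA : Prop := ∀ (J : Type) [Fintype J] [DecidableEq J] (δ : ℝ) (A : ℕ), 0 < δ →
  δ ≤ 1 / 2000 → ∃ A' : ℕ, ∀ w, 2 ≤ w → ∀ᶠ N : ℕ in atTop,
    (∀ (Lb : J → Prop) (C : (Si w (RR δ N) → Option J) → ℝ), Adm δ A N w Lb C →
      Exp (qq w (RR δ N)) Lb (fun o => Psi (rr w (RR δ N)) C o ^ 2) ((N : ℝ) ^ (δ / 2))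
        (Real.log N ^ A') 3) ∧
    ∀ t : ℝ, 0 ≤ t → Exp (qq w (RR δ N)) (fun _ => True)
      (fun u => Sel (rr w (RR δ N)) (qq w (RR δ N)) t u ^ 2) (Real.exp (2 * t))
      (Real.log N ^ 6) 3

/-! The sums. -/

def StS0 : Prop := ∀ (J : Type) [Fintype J] [DecidableEq J] (h : J → ℕ) (δ ε : ℝ) (A : ℕ),
  Function.Injective h → 0 < δ → δ ≤ 1 / 2000 → 0 < ε → Ev h fun w b N =>
    ∀ C, Adm δ A N w (fun _ : J => True) C → ∑ n ∈ II N w b, PC h w (RR δ N) C n ^ 2 ≤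
      (1 + ε) * (be w N * VV w) * QQ (rr w (RR δ N)) C + er N

def StS1 : Prop := ∀ (J : Type) [Fintype J] [DecidableEq J] (h : J → ℕ) (δ ε : ℝ) (A : ℕ),
  Function.Injective h → 0 < δ → δ ≤ 1 / 2000 → 0 < ε → Ev h fun w b N =>
    ∀ i C, Adm δ A N w (fun l => l ≠ i) C → (1 - ε) * be w N * QQ (rr w (RR δ N)) C - er N ≤
      ∑ n ∈ II N w b, th (n + h i) * PC h w (RR δ N) C n ^ 2

def StU1 : Prop := ∀ (J : Type) [Fintype J] [DecidableEq J] (h : J → ℕ) (δ ε : ℝ) (A : ℕ),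
  Function.Injective h → 0 < δ → δ ≤ 1 / 2000 → 0 < ε → Pair δ A h fun w b N i j C =>
    ∑ n ∈ II N w b, th (n + h i) *
        (SA w (RR δ N) (Real.log (RR δ N)) (n + h j) ^ 2 * PC h w (RR δ N) C n ^ 2) ≤
      (1 + ε) * be w N * QQ (rr w (RR δ N)) C / GA w (RR δ N) (Real.log (RR δ N)) + er N

def StL1 : Prop := ∀ (J : Type) [Fintype J] [DecidableEq J] (h : J → ℕ) (δ ε : ℝ) (A : ℕ),
  Function.Injective h → 0 < δ → δ ≤ 1 / 2000 → 0 < ε → Pair δ A h fun w b N i j C =>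
    (1 - ε) * be w N * QQ (rr w (RR δ N)) C * Et w (RR δ N) /
        GA w (RR δ N) (109 * ee (RR δ N)) - er N ≤
      ∑ n ∈ II N w b, th (n + h i) * (Tm w (RR δ N) (n + h j) * PC h w (RR δ N) C n ^ 2)

def StU2 : Prop := ∀ (J : Type) [Fintype J] [DecidableEq J] (h : J → ℕ) (δ : ℝ) (A : ℕ),
  Function.Injective h → 0 < δ → δ ≤ 1 / 2000 → Pair δ A h fun w b N i j C =>
    ∑ n ∈ II N w b, th (n + h i) *
        (nz w (RR δ N) (n + h j) * Tm w (RR δ N) (n + h j) * PC h w (RR δ N) C n ^ 2) ≤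
      3 / 100 * be w N * QQ (rr w (RR δ N)) C * Et w (RR δ N) /
        GA w (RR δ N) (109 * ee (RR δ N)) + er N

def StU3 : Prop := ∀ (J : Type) [Fintype J] [DecidableEq J] (h : J → ℕ) (δ ε : ℝ) (A : ℕ),
  Function.Injective h → 0 < δ → δ ≤ 1 / 2000 → 0 < ε → Pair δ A h fun w b N i j C =>
    ∑ n ∈ II N w b, th (n + h i) * (fb w (RR δ N) (n + h j) * PC h w (RR δ N) C n ^ 2) ≤
      (1 + ε) * Real.log (2 * N) * QQ (rr w (RR δ N)) C / GA w (RR δ N) (Real.log (RR δ N)) *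
        ((∑ m ∈ IW N w (h j), fb w (RR δ N) m) / (WW w).totient) + er N

def StU4 : Prop := ∀ (J : Type) (h : J → ℕ) [Fintype J] (δ ε : ℝ), 0 < δ → δ ≤ 1 / 2000 → 0 < ε →
  Ev h fun w _ N => ∀ j, ∑ m ∈ IW N w (h j), Tm w (RR δ N) m ≤
    (1 + ε) * XX N * VV w * Et w (RR δ N) / GA w (RR δ N) (109 * ee (RR δ N))

/-! The good numbers. -/

def StPH : Prop := ∀ t : ℝ, 0 < t → Phi t ∅ = 1 ∧
  (∀ a : ℕ, Phi t {a} = min 1 (Real.log a / t)) ∧
  (∀ a b : ℕ, a ≠ b → Phi t {a, b} = min 1 (Real.log a / t) + min 1 (Real.log b / t) -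
    min 1 ((Real.log a + Real.log b) / t)) ∧
  (∀ (q : ℕ) (s : Finset ℕ), t ≤ Real.log q → q ∉ s → Phi t (insert q s) = Phi t s) ∧
  ∀ (p : ℕ) (s : Finset ℕ), p ∉ s → (∀ a ∈ s, t ≤ Real.log p + Real.log a) →
    Phi t (insert p s) = Phi t s - max 0 (1 - Real.log p / t)

def StPG : Prop := ∀ (e : ℝ) (m : ℕ), 0 < e → Good e m →
  m.primeFactors.card ≤ 3 ∧ (∀ p ∈ m.primeFactors, 21 * e < Real.log p) ∧ 1 < m ∧
  |Phi (109 * e) m.primeFactors| ≤ 1 ∧
  ∀ p : ℕ, p.Prime → 180 * e < Real.log p → Real.log p ≤ 181 * e →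
    (p * m).primeFactors.card ≤ 4 ∧ 1 / 200 ≤ |Phi (200 * e) (p * m).primeFactors|

def StPV : Prop := ∀ ε : ℝ, 0 < ε → Ew fun w R => ∀ (t : ℝ) (m : ℕ), 100 * ee R ≤ t →
  t ≤ Real.log R → m ≠ 0 → (∀ p ∈ m.primeFactors, ee R < Real.log p) →
  m.primeFactors.card ≤ 4 → |SA w R t m - Phi t m.primeFactors| ≤ ε

def StW1 : Prop := Ew fun w R => ∀ m : ℕ, R < m →
  (if m.Prime then 1 else 0) ≤ SA w R (Real.log R) m ^ 2 - 1 / 2560000 * TG w R m

def StW2 : Prop := ∀ w R m : ℕ, 2 ≤ w → 2 ≤ R → m ≠ 0 → Real.log m ≤ 802 * ee R →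
  Tm w R m - fb w R m - nz w R m * Tm w R m ≤ TG w R m ∧ fb w R m ≤ Tm w R m - TG w R m ∧
  0 ≤ fb w R m

def StPC : Prop := ∀ ε : ℝ, 0 < ε → ∀ᶠ y : ℝ in atTop, ∀ z : ℝ, 6 / 5 * y ≤ z → z ≤ 2 * y →
  (1 - ε) * (z - y) / Real.log z ≤ (((Ioc ⌊y⌋₊ ⌊z⌋₊).filter Nat.Prime).card : ℝ)

def StCE : Prop := ∀ ε : ℝ, 0 < ε → ∀ᶠ e : ℝ in atTop, ∀ i : ℕ,
  (1 - ε) / (i + 1) ≤ ∑ p ∈ PL (i * e) ((i + 1) * e), 1 / (p : ℝ)

open Classical in
def StGS : Prop := ∀ ε : ℝ, 0 < ε → ∀ᶠ e : ℝ in atTop, ∀ (y z : ℝ) (F : ℕ → ℝ)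
  (S : Finset (Finset ℕ)), 0 < y → 619 * e ≤ Real.log y → Real.log z ≤ 622 * e → 6 / 5 * y ≤ z →
  z ≤ 2 * y → (∀ m, 0 ≤ F m) →
  (∀ m, Good e m → max 0 (Phi (109 * e) m.primeFactors - 1 / 1000) ^ 2 ≤ F m) →
  (∀ s ∈ S, Sh e s ∧ ∑ p ∈ s, Real.log p ≤ 419 * e ∧
    ∀ p ∈ s, Real.log p + ∑ p ∈ s, Real.log p ≤ 619 * e) →
  (1 - ε) * (z - y) * ∑ s ∈ S, max 0 (Phi (109 * e) s - 1 / 1000) ^ 2 /
      ((∏ p ∈ s, (p : ℝ)) * (622 * e - ∑ p ∈ s, Real.log p)) ≤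
    ∑ m ∈ Ioc ⌊y⌋₊ ⌊z⌋₊, if Good e m then F m else 0

def StGT : Prop := ∀ ε : ℝ, 0 < ε → ∀ᶠ e : ℝ in atTop, ∃ S : Finset (Finset ℕ),
  (∀ s ∈ S, Sh e s ∧ ∑ p ∈ s, Real.log p ≤ 419 * e ∧
    ∀ p ∈ s, Real.log p + ∑ p ∈ s, Real.log p ≤ 619 * e) ∧
  (1 - ε) * grid / e ≤ ∑ s ∈ S, max 0 (Phi (109 * e) s - 1 / 1000) ^ 2 /
    ((∏ p ∈ s, (p : ℝ)) * (622 * e - ∑ p ∈ s, Real.log p))

def StGR : Prop := 1415 / 1000 ≤ 200 * grid

def StGM : Prop := ∀ (J : Type) (h : J → ℕ) [Fintype J] (δ : ℝ), 0 < δ → δ ≤ 1 / 2000 →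
  Ev h fun w _ N => ∀ j, 141 / 100 * XX N * Et w (RR δ N) / Real.log (RR δ N) ≤
    ∑ m ∈ IW N w (h j), TG w (RR δ N) m

/-! The final steps. -/

def StPair : Prop := ∀ (J : Type) [Fintype J] [DecidableEq J] (h : J → ℕ) (δ : ℝ) (A : ℕ),
  Function.Injective h → 0 < δ → δ ≤ 1 / 2000 → Pair δ A h fun w b N i j C =>
    ∑ n ∈ II N w b, th (n + h i) *
        ((if (n + h j).Prime then 1 else 0) * PC h w (RR δ N) C n ^ 2) ≤
      (1 - 1 / 10 ^ 11) * be w N * QQ (rr w (RR δ N)) C / GA w (RR δ N) (Real.log (RR δ N)) +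
        4 * er N

def StMa : Prop := ∀ δ μ ε : ℝ, 0 < δ → δ ≤ 1 / 2000 → 0 < ε → ∃ k0 : ℕ,
  ∀ (J : Type) [Fintype J] [DecidableEq J], k0 ≤ Fintype.card J → ∃ A w0 : ℕ, ∀ w, w0 ≤ w →
  ∀ᶠ N : ℕ in atTop, ∃ (y : (Si w (RR δ N) → Option J) → ℝ) (m γ : ℝ), 1 ≤ m ∧ 1 ≤ γ ∧
    Adm δ A N w (fun _ => True) y ∧
    (∀ i, Adm δ A N w (fun l => l ≠ i) (red (rr w (RR δ N)) i y)) ∧
    (∀ i j, Adm δ A N w (fun l => l ≠ i ∧ l ≠ j)
      (red (rr w (RR δ N)) j (red (rr w (RR δ N)) i y))) ∧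
    QQ (rr w (RR δ N)) y ≤ γ ^ Fintype.card J ∧
    (∀ i, (1 - ε) * m ^ 2 * γ ^ (Fintype.card J - 1) ≤
      QQ (rr w (RR δ N)) (red (rr w (RR δ N)) i y)) ∧
    (∀ i j, i ≠ j → QQ (rr w (RR δ N)) (red (rr w (RR δ N)) j (red (rr w (RR δ N)) i y)) ≤
      m ^ 4 * γ ^ (Fintype.card J - 2)) ∧
    μ * VV w * Real.log (2 * N) * γ ≤ Fintype.card J * m ^ 2

def StFI : Prop := ∀ (K : ℕ) (I : Finset ℕ) (ν : ℕ → ℝ) (θ : Fin 4 × Fin K → ℕ → ℝ)
  (L S0 s1 s2 μ : ℝ), (∀ n, 0 ≤ ν n) → (∀ i, ∀ n ∈ I, 0 ≤ θ i n ∧ θ i n ≤ L) →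
  (∀ n ∈ I, ∀ i j, i.1 ≠ j.1 → θ i n * θ j n = 0) → ∑ n ∈ I, ν n ≤ S0 →
  (∀ i, s1 ≤ ∑ n ∈ I, θ i n * ν n) → (∀ i j, i ≠ j → ∑ n ∈ I, θ i n * θ j n * ν n ≤ s2) →
  1 ≤ K → 0 < s1 → 1 < μ → μ * S0 * L ≤ 4 * K * s1 → 4 * s1 ^ 2 * (1 - 1 / μ) ≤ S0 * s2

def StM : Prop := ∃ K : ℕ, ∀ h : Fin 4 × Fin K → ℕ, Function.Injective h → Ev h fun w b N =>
  ∃ n ∈ II N w b, ∃ i j, i.1 ≠ j.1 ∧ (n + h i).Prime ∧ (n + h j).Prime

def StCl : Prop := ∀ (J : Type) [Fintype J] (h : J → ℕ) (w0 : ℕ),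
  (∀ p : ℕ, p.Prime → ∃ c : ℕ, ∀ l, ¬ p ∣ c + h l) → ∃ w, w0 ≤ w ∧ ∃ b : ℕ,
    (∀ l, (b + h l).Coprime (WW w)) ∧
    ∀ x, (∃ l, x ≤ h l) → (∀ l, h l ≠ x) → ∃ q, q.Prime ∧ q ≤ w ∧ q ∣ b + x

/-- `h` is a gap between consecutive primes inside `(n, 2n)` for infinitely many `n` of `S` -/
def Pol (S : Set ℕ) (h : ℕ) : Prop := {n ∈ S | ∃ p, n < p ∧ p + h < 2 * n ∧ p.Prime ∧
  (p + h).Prime ∧ ∀ q, p < q → q < p + h → ¬ q.Prime}.Infinite

def Cell (P : ℕ → Prop) : Prop := ∃ K : ℕ, ∀ h : Fin 4 × Fin K → ℕ, Function.Injective h →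
  (∀ p : ℕ, p.Prime → ∃ c : ℕ, ∀ l, ¬ p ∣ c + h l) →
  ∃ i j, i.1 ≠ j.1 ∧ h i < h j ∧ P (h j - h i)

open Classical in
def Str (P : ℕ → Prop) : Prop := ∃ K : ℕ, ∀ n : ℕ, ∃ (r : ℕ) (A : Fin r → Finset ℤ)
  (cl : Fin r → ℤ), r ≤ 3 ∧
  (∀ i, (A i).card = n ∧ (cl i = 0 ∨ cl i = 2) ∧ ∀ a ∈ A i, a % 6 = cl i) ∧
  {x : ℤ | (x % 6 = 0 ∨ x % 6 = 2) ∧
    ∀ i, K ≤ ((A i).filter fun a => ¬ P (x - a).natAbs).card}.Finite

def Den (P : ℕ → Prop) : Prop := ∀ ε : ℝ, 0 < ε → ∃ L0 : ℕ, ∀ L, L0 ≤ L → ∀ Y : ℕ,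
  (1 / 6 - ε) * L ≤ ({h ∈ Set.Ioc Y (Y + L) | P h}.ncard : ℝ)

def StA : Prop := ∀ S : Set ℕ, S.Infinite → Cell (Pol S)

def StC1 : Prop := ∀ P : ℕ → Prop, Cell P → Str P

def StC2 : Prop := ∀ P : ℕ → Prop, Str P → Den P

end Pool.Agent.MP_43e117_nt.PG

end
end

section

/-!
Passing to the multiples of an even number.
-/

open Finset

namespace Pool.Agent.MP_43e117_nt.PG

theorem Cell.mul {P : ℕ → Prop} (hP : Cell P) {q : ℕ} (hq : 1 ≤ q) :
    Cell fun h => 2 ∣ h ∧ P (q * h) := by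
  obtain ⟨K, hK⟩ := hP
  refine ⟨K, fun h hi ha => ?_⟩
  obtain ⟨i, j, h1, h2, h3⟩ := hK (fun l => q * h l)
    (fun a b e => hi (Nat.eq_of_mul_eq_mul_left hq e)) fun p hp => by
      by_cases hpq : p ∣ q
      · exact ⟨1, fun l hl => hp.one_lt.ne' (Nat.dvd_one.1
          ((Nat.dvd_add_left (hpq.mul_right _)).1 hl))⟩
      · obtain ⟨c, hc⟩ := ha p hp
        refine ⟨q * c, fun l hl => ?_⟩
        rw [← mul_add] at hl
        exact hc l ((hp.dvd_mul.1 hl).resolve_left hpq)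
  obtain ⟨c, hc⟩ := ha 2 Nat.prime_two
  have e1 := hc i
  have e2 := hc j
  refine ⟨i, j, h1, Nat.lt_of_mul_lt_mul_left h2, by omega, ?_⟩
  rwa [Nat.mul_sub]

theorem den_mul {P : ℕ → Prop} {q : ℕ} (h : Den fun h => 2 ∣ h ∧ P (q * h)) (ε : ℝ) (hε : 0 < ε) :
    ∃ L0 : ℕ, ∀ L, L0 ≤ L → ∀ Y : ℕ,
      (1 / 3 - ε) * L ≤ ({m ∈ Set.Ioc Y (Y + L) | P (2 * q * m)}.ncard : ℝ) := by
  obtain ⟨L0, H⟩ := h (ε / 2) (by positivity)
  refine ⟨L0, fun L hL Y => ?_⟩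
  have h1 := H (2 * L) (by omega) (2 * Y)
  have e : {h ∈ Set.Ioc (2 * Y) (2 * Y + 2 * L) | 2 ∣ h ∧ P (q * h)} =
      (fun m => 2 * m) '' {m ∈ Set.Ioc Y (Y + L) | P (2 * q * m)} := by
    ext x
    simp only [Set.mem_setOf_eq, Set.mem_Ioc, Set.mem_image]
    constructor
    · rintro ⟨h1, ⟨m, rfl⟩, h2⟩
      exact ⟨m, ⟨by omega, by rwa [show 2 * q * m = q * (2 * m) by ring]⟩, rfl⟩
    · rintro ⟨m, ⟨h1, h2⟩, rfl⟩
      exact ⟨by omega, ⟨m, rfl⟩, by rwa [show q * (2 * m) = 2 * q * m by ring]⟩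
  rw [e, Set.ncard_image_of_injective _ fun a b e => by simpa using e] at h1
  push_cast at h1
  linarith

end Pool.Agent.MP_43e117_nt.PG

end

section

/-!
The harmonic sum over integers coprime to `W`.
-/

open Finset

noncomputable section

namespace Pool.Agent.MP_43e117_nt.PG

namespace HHA

/-- summation by parts with bounded sums -/
theorem abel (a : ℕ → ℝ) (B : ℝ) (h : ∀ Y, |∑ n ∈ Icc 1 Y, a n| ≤ B) (Y : ℕ) :
    |∑ n ∈ Icc 1 Y, a n / n - (∑ n ∈ Icc 1 Y, a n) / (Y + 1)| ≤ B * (1 - 1 / (Y + 1)) := by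
  induction Y with
  | zero => simp
  | succ Y ih =>
    have h1 := h (Y + 1)
    rw [Finset.sum_Icc_succ_top (by omega)] at h1
    rw [Finset.sum_Icc_succ_top (by omega), Finset.sum_Icc_succ_top (by omega)]
    push_cast
    set S := ∑ n ∈ Icc 1 Y, a n / n
    set A := ∑ n ∈ Icc 1 Y, a n
    have hY : (0 : ℝ) < Y + 1 := by positivity
    have hd : (0 : ℝ) ≤ 1 / (Y + 1) - 1 / (Y + 1 + 1) :=
      sub_nonneg.2 (one_div_le_one_div_of_le hY (by linarith))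
    have e : S + a (Y + 1) / (Y + 1) - (A + a (Y + 1)) / (Y + 1 + 1) =
        (S - A / (Y + 1)) + (A + a (Y + 1)) * (1 / (Y + 1) - 1 / (Y + 1 + 1)) := by ring
    rw [e]
    refine (abs_add_le _ _).trans ?_
    rw [abs_mul, abs_of_nonneg hd]
    have := mul_le_mul_of_nonneg_right h1 hd
    linarith

theorem abel2 (a : ℕ → ℝ) (B : ℝ) (h : ∀ Y, |∑ n ∈ Icc 1 Y, a n| ≤ B) (Y : ℕ) :
    |∑ n ∈ Icc 1 Y, a n / n| ≤ B := by
  have h1 := abel a B h Y
  have hY : (0 : ℝ) < Y + 1 := by positivity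
  have h2 : |(∑ n ∈ Icc 1 Y, a n) / (Y + 1)| ≤ B * (1 / (Y + 1)) := by
    rw [abs_div, abs_of_pos hY, mul_one_div]
    exact div_le_div_of_nonneg_right (h Y) hY.le
  have h3 := abs_add_le (∑ n ∈ Icc 1 Y, a n / n - (∑ n ∈ Icc 1 Y, a n) / (Y + 1))
    ((∑ n ∈ Icc 1 Y, a n) / (Y + 1))
  rw [sub_add_cancel] at h3
  linarith

/-- the centred indicator of coprimality -/
def aa (w n : ℕ) : ℝ := (if n.Coprime (WW w) then 1 else 0) - VV w

theorem aa_abs (w n : ℕ) : |aa w n| ≤ 1 := by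
  have h1 := VV_pos w
  have h2 := VV_le w
  rw [aa, abs_le]
  split_ifs <;> constructor <;> linarith

theorem aa_block (w m : ℕ) : ∑ n ∈ Ico m (m + WW w), aa w n = 0 := by
  have hW : (0 : ℝ) < WW w := Nat.cast_pos.2 (WW_pos w)
  have h := Nat.filter_coprime_Ico_eq_totient (WW w) m
  simp only [aa, Finset.sum_sub_distrib, Finset.sum_boole, Finset.sum_const, Nat.card_Ico,
    Nat.add_sub_cancel_left, nsmul_eq_mul]
  rw [Finset.filter_congr (q := fun x => (WW w).Coprime x) fun x _ => Nat.coprime_comm, h, VV]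
  field_simp
  ring

theorem aa_sum (w Y : ℕ) : |∑ n ∈ Icc 1 Y, aa w n| ≤ WW w := by
  induction Y using Nat.strong_induction_on with
  | _ Y ih =>
    by_cases hY : Y < WW w
    · refine (Finset.abs_sum_le_sum_abs _ _).trans
        ((Finset.sum_le_card_nsmul _ _ 1 fun n _ => aa_abs w n).trans ?_)
      rw [Nat.card_Icc, nsmul_eq_mul, mul_one]
      exact Nat.cast_le.2 (by omega)
    · have hW := WW_pos w
      obtain ⟨Z, rfl⟩ := Nat.exists_eq_add_of_le' (not_lt.1 hY)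
      have h1 := ih Z (by omega)
      rw [← Finset.Ico_add_one_right_eq_Icc] at h1 ⊢
      rw [← Finset.sum_Ico_consecutive _ (show 1 ≤ Z + 1 by omega)
        (show Z + 1 ≤ Z + WW w + 1 by omega), show Z + WW w + 1 = Z + 1 + WW w by omega,
        aa_block, add_zero]
      exact h1

end HHA

theorem s_HH : StHH := by
  intro w
  refine ⟨WW w + 1, fun t ht => ?_⟩
  have h1 := HHA.abel2 _ _ (HHA.aa_sum w) ⌊Real.exp t⌋₊
  have h2 : ∑ n ∈ Icc 1 ⌊Real.exp t⌋₊, HHA.aa w n / n =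
      HW w t - VV w * ∑ n ∈ Icc 1 ⌊Real.exp t⌋₊, 1 / (n : ℝ) := by
    rw [HW, Finset.sum_filter, Finset.mul_sum, ← Finset.sum_sub_distrib]
    refine Finset.sum_congr rfl fun n _ => ?_
    rw [HHA.aa]
    split_ifs <;> ring
  have h3 := MP_fdd1d3_nt.harm_le ⌊Real.exp t⌋₊
  have h4 := MP_fdd1d3_nt.harm_ge ⌊Real.exp t⌋₊
  have h5 : (0 : ℝ) < (⌊Real.exp t⌋₊ : ℕ) :=
    Nat.cast_pos.2 (Nat.floor_pos.2 (Real.one_le_exp ht))
  have h6 := Real.log_le_log h5 (Nat.floor_le (Real.exp_pos t).le)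
  have h7 := Real.log_le_log (Real.exp_pos t) (Nat.lt_floor_add_one (Real.exp t)).le
  rw [Real.log_exp] at h6 h7
  have h8 := VV_pos w
  have h9 := VV_le w
  rw [h2, abs_le] at h1
  set H := ∑ n ∈ Icc 1 ⌊Real.exp t⌋₊, 1 / (n : ℝ)
  have a1 : VV w * (H - t) ≤ 1 * 1 := mul_le_mul h9 (by linarith) (by linarith) zero_le_one
  have a2 : 0 ≤ VV w * (H - t) := mul_nonneg h8.le (by linarith)
  rw [abs_le]
  constructor <;> linarith [h1.1, h1.2]

end Pool.Agent.MP_43e117_nt.PG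

end
end

section

/-!
Upper bound for the increments of the normalising sum.
-/

open Finset Filter

noncomputable section

namespace Pool.Agent.MP_43e117_nt.PG

open MP_fdd1d3_nt (PP LL SS)

namespace G1A

theorem split {ι : Type} [Fintype ι] [DecidableEq ι] (a b l : ι → ℝ) (F : ℝ → ℝ) (K : ℝ)
    (ha : ∀ p, 0 ≤ a p) (hb : ∀ p, 0 ≤ b p) (hF : ∀ x, 0 ≤ F x)
    (hK : ∀ x, ∑ s : Finset ι, F (∑ p ∈ s, l p + x) * ∏ p ∈ s, a p ≤ K) :
    ∑ s : Finset ι, F (∑ p ∈ s, l p) * ∏ p ∈ s, (b p + a p) ≤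
      (∑ v : Finset ι, ∏ p ∈ v, b p) * K := by
  have h1 : ∀ s : Finset ι, F (∑ p ∈ s, l p) * ∏ p ∈ s, (b p + a p) =
      ∑ v : Finset ι, if v ⊆ s then
        (∏ p ∈ v, b p) * (F (∑ p ∈ s, l p) * ∏ p ∈ s \ v, a p) else 0 := by
    intro s
    rw [Finset.prod_add, Finset.mul_sum, ← Finset.sum_filter]
    refine Finset.sum_congr (by ext v; simp) fun v _ => by ring
  simp_rw [h1]
  rw [Finset.sum_comm, Finset.sum_mul]
  refine Finset.sum_le_sum fun v _ => ?_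
  rw [← Finset.sum_filter, ← Finset.mul_sum]
  refine mul_le_mul_of_nonneg_left ?_ (Finset.prod_nonneg fun p _ => hb p)
  refine le_trans ?_ (hK (∑ p ∈ v, l p))
  have hinj : Set.InjOn (fun s : Finset ι => s \ v)
      (↑(univ.filter fun s : Finset ι => v ⊆ s) : Set (Finset ι)) := by
    intro s hs t ht hst
    have hs' : v ⊆ s := by simpa using hs
    have ht' : v ⊆ t := by simpa using ht
    have hst' : s \ v = t \ v := hst
    rw [← Finset.sdiff_union_of_subset hs', ← Finset.sdiff_union_of_subset ht', hst']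
  have h2 : ∑ s ∈ univ.filter (fun s : Finset ι => v ⊆ s),
      F (∑ p ∈ s, l p) * ∏ p ∈ s \ v, a p =
      ∑ u ∈ (univ.filter fun s : Finset ι => v ⊆ s).image (fun s => s \ v),
        F (∑ p ∈ u, l p + ∑ p ∈ v, l p) * ∏ p ∈ u, a p := by
    rw [Finset.sum_image hinj]
    refine Finset.sum_congr rfl fun s hs => ?_
    have hs' : v ⊆ s := by simpa using hs
    rw [Finset.sum_sdiff hs']
  rw [h2]
  exact Finset.sum_le_sum_of_subset_of_nonneg (Finset.subset_univ _) fun u _ _ =>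
    mul_nonneg (hF _) (Finset.prod_nonneg fun p _ => ha p)

theorem pf {w R : ℕ} (s : Finset (Si w R)) :
    (∏ p ∈ s, p.1).primeFactors = s.image Subtype.val := by
  rw [← Finset.prod_image (s := s) (g := Subtype.val) (f := fun p : ℕ => p)
    (fun x _ y _ h => Subtype.ext h)]
  refine Nat.primeFactors_prod fun p hp => ?_
  obtain ⟨x, _, rfl⟩ := Finset.mem_image.1 hp
  exact (si_mem x).2.2

theorem pinj {w R : ℕ} : Function.Injective fun s : Finset (Si w R) => ∏ p ∈ s, p.1 := by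
  intro s t h
  have h' : (∏ p ∈ s, p.1) = ∏ p ∈ t, p.1 := h
  have := pf s
  rw [h', pf t] at this
  exact (Finset.image_injective Subtype.val_injective this).symm

theorem ppos {w R : ℕ} (s : Finset (Si w R)) : 0 < ∏ p ∈ s, p.1 :=
  Finset.prod_pos fun p _ => (si_mem p).2.2.pos

theorem pcop {w R : ℕ} (s : Finset (Si w R)) : (∏ p ∈ s, p.1).Coprime (WW w) := by
  refine Nat.Coprime.prod_left fun p _ => ?_
  rw [(si_mem p).2.2.coprime_iff_not_dvd, WW, (si_mem p).2.2.dvd_primorial_iff]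
  exact not_le.2 (si_mem p).1

theorem plog {w R : ℕ} (s : Finset (Si w R)) :
    ∑ p ∈ s, Real.log (p.1 : ℝ) = Real.log ((∏ p ∈ s, p.1 : ℕ) : ℝ) := by
  rw [Nat.cast_prod, Real.log_prod]
  intro p _
  exact Nat.cast_ne_zero.2 (si_mem p).2.2.ne_zero

theorem le_floor_iff {n : ℕ} (hn : 0 < n) (t : ℝ) : n ≤ ⌊Real.exp t⌋₊ ↔ Real.log n ≤ t := by
  rw [Nat.le_floor_iff (Real.exp_pos t).le, Real.log_le_iff_le_exp (Nat.cast_pos.2 hn)]

theorem inner (w R : ℕ) (a b : ℝ) (hab : a ≤ b) :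
    ∑ s : Finset (Si w R), (if a < ∑ p ∈ s, Real.log (p.1 : ℝ) ∧
      ∑ p ∈ s, Real.log (p.1 : ℝ) ≤ b then (1 : ℝ) else 0) * ∏ p ∈ s, 1 / (p.1 : ℝ) ≤
      HW w b - HW w a := by
  have hsub : (Icc 1 ⌊Real.exp a⌋₊).filter (fun n => n.Coprime (WW w)) ⊆
      (Icc 1 ⌊Real.exp b⌋₊).filter (fun n => n.Coprime (WW w)) :=
    Finset.filter_subset_filter _
      (Finset.Icc_subset_Icc_right (Nat.floor_mono (Real.exp_le_exp.2 hab)))
  unfold HW
  rw [← Finset.sum_sdiff hsub, add_sub_cancel_right]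
  simp_rw [ite_mul, one_mul, zero_mul]
  rw [← Finset.sum_filter]
  have h1 : ∀ s : Finset (Si w R), ∏ p ∈ s, 1 / (p.1 : ℝ) = 1 / ((∏ p ∈ s, p.1 : ℕ) : ℝ) := by
    intro s
    rw [Nat.cast_prod, Finset.prod_div_distrib, Finset.prod_const_one]
  simp_rw [h1]
  rw [← Finset.sum_image (g := fun s : Finset (Si w R) => ∏ p ∈ s, p.1)
    (f := fun n : ℕ => 1 / (n : ℝ)) (fun x _ y _ h => pinj h)]
  refine Finset.sum_le_sum_of_subset_of_nonneg ?_ fun n _ _ => by positivity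
  intro n hn
  obtain ⟨s, hs, rfl⟩ := Finset.mem_image.1 hn
  have hs' := (Finset.mem_filter.1 hs).2
  rw [plog s] at hs'
  simp only [Finset.mem_sdiff, Finset.mem_filter, Finset.mem_Icc, le_floor_iff (ppos s)]
  exact ⟨⟨⟨ppos s, hs'.2⟩, pcop s⟩, fun h => absurd h.1.2 (not_le.2 hs'.1)⟩

end G1A

theorem s_G1 (hSi : StSi) : StG1 := by
  intro w R C hw hH t' t ht
  obtain ⟨hSm, heta, -⟩ := hSi w R hw
  have hC : 0 ≤ C := by simpa using hH 0 0 le_rfl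
  have hK0 : 0 ≤ VV w * (t - t') + C :=
    add_nonneg (mul_nonneg (VV_pos w).le (sub_nonneg.2 ht)) hC
  have hp2 : ∀ p : Si w R, (2 : ℝ) ≤ p.1 := fun p => by exact_mod_cast (si_mem p).2.2.two_le
  have hr : ∀ p : Si w R, rr w R p = rr w R p / p.1 + 1 / (p.1 : ℝ) := by
    intro p
    have h := hp2 p
    have h1 : (p.1 : ℝ) - 1 ≠ 0 := by linarith [h] |> fun (x : (0 : ℝ) < (p.1 : ℝ) - 1) => x.ne'
    have h2 : (p.1 : ℝ) ≠ 0 := by positivity
    unfold rr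
    field_simp
    ring
  have h1 : GA w R t - GA w R t' = ∑ s : Finset (Si w R),
      (fun x : ℝ => if t' < x ∧ x ≤ t then (1 : ℝ) else 0) (∑ p ∈ s, Real.log (p.1 : ℝ)) *
        ∏ p ∈ s, (rr w R p / p.1 + 1 / (p.1 : ℝ)) := by
    unfold GA GG
    rw [← Finset.sum_sub_distrib]
    refine Finset.sum_congr rfl fun s _ => ?_
    have e1 : ∏ p ∈ s, (rr w R p / p.1 + 1 / (p.1 : ℝ)) = hs (rr w R) s :=
      Finset.prod_congr rfl fun p _ => (hr p).symm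
    have e2 : LL (qq w R) s = ∑ p ∈ s, Real.log (p.1 : ℝ) := rfl
    rw [e1, e2]
    by_cases c1 : ∑ p ∈ s, Real.log (p.1 : ℝ) ≤ t'
    · have c2 := c1.trans ht
      simp [c1, c2, not_lt.2 c1]
    · by_cases c2 : ∑ p ∈ s, Real.log (p.1 : ℝ) ≤ t
      · simp [c1, c2, not_le.1 c1]
      · simp [c1, c2]
  rw [h1]
  have h2 := G1A.split (ι := Si w R) (fun p => 1 / (p.1 : ℝ)) (fun p => rr w R p / p.1)
    (fun p => Real.log (p.1 : ℝ)) (fun x : ℝ => if t' < x ∧ x ≤ t then (1 : ℝ) else 0)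
    (VV w * (t - t') + C) (fun p => by positivity)
    (fun p => div_nonneg (hSm p).1 (Nat.cast_nonneg _))
    (fun x => by positivity) (by
      intro x
      have h3 := G1A.inner w R (t' - x) (t - x) (by linarith)
      have h4 := hH (t' - x) (t - x) (by linarith)
      have e : t - x - (t' - x) = t - t' := by ring
      rw [e] at h4
      refine le_trans (le_of_eq ?_) (h3.trans h4)
      refine Finset.sum_congr rfl fun s _ => ?_
      simp only [sub_lt_iff_lt_add, le_sub_iff_add_le])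
  refine h2.trans (mul_le_mul_of_nonneg_right ?_ hK0)
  have h5 : ∑ v : Finset (Si w R), ∏ p ∈ v, rr w R p / p.1 =
      ∏ p : Si w R, (1 + rr w R p / p.1) := by
    rw [Finset.prod_one_add, Finset.powerset_univ]
  rw [h5]
  refine le_trans ?_ (Real.exp_le_exp.2 heta)
  unfold eta
  rw [Real.exp_sum]
  refine Finset.prod_le_prod (fun p _ => add_nonneg zero_le_one
    (div_nonneg (hSm p).1 (Nat.cast_nonneg _))) fun p _ => ?_
  have h := hp2 p
  have h6 : 1 / (p.1 : ℝ) ≤ rr w R p := by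
    unfold rr
    exact one_div_le_one_div_of_le (by linarith) (by linarith)
  have h7 : rr w R p / p.1 ≤ rr w R p ^ 2 := by
    rw [div_eq_mul_one_div, sq]
    exact mul_le_mul_of_nonneg_left h6 (hSm p).1
  linarith [Real.add_one_le_exp (rr w R p ^ 2)]

end Pool.Agent.MP_43e117_nt.PG

end
end

section

/-!
The lower bound for the increments of `GA`.
-/

open Finset

noncomputable section

namespace Pool.Agent.MP_43e117_nt.PG

open MP_fdd1d3_nt (LL)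

namespace G2A

def A (w : ℕ) (a b : ℝ) : Finset ℕ :=
  ((Icc 1 ⌊Real.exp b⌋₊).filter fun n => n.Coprime (WW w)).filter fun n => ¬ Real.log n ≤ a

theorem mem_I {t : ℝ} {n : ℕ} : n ∈ Icc 1 ⌊Real.exp t⌋₊ ↔ 0 < n ∧ Real.log n ≤ t := by
  rw [mem_Icc]
  refine and_congr_right fun h => ?_
  rw [Nat.le_floor_iff (Real.exp_pos t).le, Real.log_le_iff_le_exp (Nat.cast_pos.2 h)]

theorem mem_A {w n : ℕ} {a b : ℝ} :
    n ∈ A w a b ↔ ((0 < n ∧ Real.log n ≤ b) ∧ n.Coprime (WW w)) ∧ a < Real.log n := by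
  rw [A, mem_filter, mem_filter, mem_I, not_le]

theorem diff (w : ℕ) {a b : ℝ} (h : a ≤ b) : HW w b - HW w a = ∑ n ∈ A w a b, 1 / (n : ℝ) := by
  rw [sub_eq_iff_eq_add', HW, HW, ← sum_filter_add_sum_filter_not _ fun n : ℕ => Real.log n ≤ a, A]
  congr 2
  ext n
  simp only [mem_filter, mem_I]
  exact ⟨fun c => ⟨⟨c.1.1.1, c.2⟩, c.1.2⟩, fun c => ⟨⟨⟨c.1.1, c.1.2.trans h⟩, c.2⟩, c.1.2⟩⟩

theorem big {w n p : ℕ} (h : n.Coprime (WW w)) (hp : p.Prime) (hd : p ∣ n) : w < p :=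
  not_le.1 fun c => hp.one_lt.ne'
    (Nat.eq_one_of_dvd_coprimes h hd (hp.dvd_primorial_iff.2 c))

theorem prod_dv {w R n : ℕ} (h0 : 0 < n) (h : n.Coprime (WW w)) (hs : Squarefree n)
    (hR : Real.log n ≤ Real.log R) : ∏ p ∈ dv w R n, p.1 = n := by
  refine (prod_nbij Subtype.val (fun p hp => ?_) Subtype.val_injective.injOn (fun p hp => ?_)
    fun _ _ => rfl).trans (Nat.prod_primeFactors_of_squarefree hs)
  · exact Nat.mem_primeFactors.2 ⟨(si_mem p).2.2, (mem_filter.1 hp).2, h0.ne'⟩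
  · obtain ⟨h1, h2, -⟩ := Nat.mem_primeFactors.1 hp
    have h3 := Nat.le_of_dvd h0 h2
    have h4 : 0 < Real.log n := Real.log_pos (by exact_mod_cast h1.one_lt.trans_le h3)
    have h5 : 0 < R := Nat.pos_of_ne_zero fun e => by
      rw [e, Nat.cast_zero, Real.log_zero] at hR
      linarith
    rw [Real.log_le_log_iff (Nat.cast_pos.2 h0) (Nat.cast_pos.2 h5), Nat.cast_le] at hR
    exact ⟨⟨p, (MP_fdd1d3_nt.mem_PP _ _ _).2 ⟨⟨big h h1 h2, h3.trans hR⟩, h1⟩⟩,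
      mem_filter.2 ⟨mem_univ _, h2⟩, rfl⟩

theorem rr_pos {w R : ℕ} (p : Si w R) : 0 < (p.1 : ℝ) - 1 :=
  sub_pos.2 (by exact_mod_cast (si_mem p).2.2.one_lt)

theorem sqf (w R : ℕ) {a b : ℝ} (hab : a ≤ b) (hb : b ≤ Real.log R) :
    ∑ n ∈ (A w a b).filter Squarefree, 1 / (n : ℝ) ≤ GA w R b - GA w R a := by
  have hr : ∀ s, 0 ≤ hs (rr w R) s := fun s =>
    prod_nonneg fun p _ => (one_div_pos.2 (rr_pos p)).le
  have e : ∀ n ∈ (A w a b).filter Squarefree, ∏ p ∈ dv w R n, p.1 = n := fun n hn => by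
    obtain ⟨h1, h2⟩ := mem_filter.1 hn
    obtain ⟨⟨⟨h3, h4⟩, h5⟩, -⟩ := mem_A.1 h1
    exact prod_dv h3 h5 h2 (h4.trans hb)
  calc _ ≤ ∑ n ∈ (A w a b).filter Squarefree, hs (rr w R) (dv w R n) := by
        refine sum_le_sum fun n hn => ?_
        rw [← e n hn, Nat.cast_prod, one_div, ← prod_inv_distrib, e n hn]
        exact prod_le_prod (fun _ _ => by positivity) fun p _ => by
          rw [← one_div]
          exact one_div_le_one_div_of_le (rr_pos p) (by linarith)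
    _ = ∑ s ∈ ((A w a b).filter Squarefree).image (dv w R), hs (rr w R) s :=
        (sum_image fun x hx y hy c => by rw [← e x hx, c, e y hy]).symm
    _ ≤ ∑ s ∈ univ.filter fun s => ¬ LL (qq w R) s ≤ a ∧ LL (qq w R) s ≤ b, hs (rr w R) s := by
        refine sum_le_sum_of_subset_of_nonneg (fun s hs => ?_) fun s _ _ => hr s
        obtain ⟨n, hn, rfl⟩ := mem_image.1 hs
        have h1 : LL (qq w R) (dv w R n) = Real.log n := by
          conv_rhs => rw [← e n hn]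
          rw [Nat.cast_prod, Real.log_prod fun p _ => by linarith [rr_pos p]]
          rfl
        have h2 := mem_A.1 (mem_filter.1 hn).1
        rw [mem_filter, h1]
        exact ⟨mem_univ _, h2.2.not_ge, h2.1.1.2⟩
    _ = _ := by
        rw [GA, GA, GG, GG, ← sum_sub_distrib, sum_filter]
        refine sum_congr rfl fun s _ => ?_
        by_cases h1 : LL (qq w R) s ≤ a
        · simp [h1, h1.trans hab]
        · simp [h1]

theorem nsq (w : ℕ) (a b : ℝ) : ∑ n ∈ (A w a b).filter (fun n => ¬ Squarefree n), 1 / (n : ℝ) ≤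
    ∑ p ∈ Ioc w ⌊Real.exp b⌋₊, (1 / (p : ℝ)) ^ 2 *
      ∑ m ∈ A w (a - 2 * Real.log p) (b - 2 * Real.log p), 1 / (m : ℝ) := by
  calc _ ≤ ∑ n ∈ ((Ioc w ⌊Real.exp b⌋₊).sigma fun p => A w (a - 2 * Real.log p)
        (b - 2 * Real.log p)).image fun x => (x.1 * x.1 * x.2 : ℕ), 1 / ((n : ℕ) : ℝ) := by
        refine sum_le_sum_of_subset_of_nonneg (fun n hn => ?_) fun _ _ _ => by positivity
        obtain ⟨h1, h2⟩ := mem_filter.1 hn
        obtain ⟨⟨⟨h3, h4⟩, h5⟩, h6⟩ := mem_A.1 h1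
        rw [Nat.squarefree_iff_prime_squarefree] at h2
        push Not at h2
        obtain ⟨p, hp, m, rfl⟩ := h2
        have hd : p ∣ p * p * m := (dvd_mul_right p p).mul_right m
        have m0 : 0 < m := Nat.pos_of_mul_pos_left h3
        have e : Real.log (p * p * m : ℕ) = 2 * Real.log p + Real.log m := by
          have : (p : ℝ) ≠ 0 := Nat.cast_ne_zero.2 hp.ne_zero
          push_cast
          rw [Real.log_mul (mul_ne_zero this this) (Nat.cast_ne_zero.2 m0.ne'),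
            Real.log_mul this this, two_mul]
        refine mem_image.2 ⟨⟨p, m⟩, mem_sigma.2 ⟨mem_Ioc.2 ⟨big h5 hp hd, (Nat.le_of_dvd h3 hd).trans
          (mem_Icc.1 (mem_I.2 ⟨h3, h4⟩)).2⟩, mem_A.2 ⟨⟨⟨m0, ?_⟩, h5.coprime_mul_left⟩, ?_⟩⟩, rfl⟩
        all_goals
          dsimp only
          linarith
    _ ≤ _ := by
        refine (sum_image_le_of_nonneg fun _ _ => by positivity).trans (le_of_eq ?_)
        rw [sum_sigma]
        refine sum_congr rfl fun p _ => ?_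
        rw [mul_sum]
        refine sum_congr rfl fun m _ => ?_
        push_cast
        ring

end G2A

theorem s_G2 : StG2 := by
  intro w R C hw h t' t ht hR
  have h0 : 0 ≤ VV w * (t - t') + C := le_trans (by
    rw [G2A.diff w ht]
    positivity) (h t' t ht)
  have h1 := G2A.sqf w R ht hR
  have h2 : _ ≤ (VV w * (t - t') + C) / w := (G2A.nsq w t' t).trans <| by
    refine (sum_le_sum (g := fun p : ℕ => (1 / (p : ℝ)) ^ 2 * (VV w * (t - t') + C))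
      fun p _ => mul_le_mul_of_nonneg_left ?_ (sq_nonneg _)).trans ?_
    · rw [← G2A.diff w (by linarith)]
      refine (h _ _ (by linarith)).trans (le_of_eq ?_)
      ring
    · rw [← sum_mul, div_eq_mul_one_div _ (w : ℝ), mul_comm]
      exact mul_le_mul_of_nonneg_left (MP_fdd1d3_nt.inv_sq_tail w _ (by omega)) h0
  rw [G2A.diff w ht, ← sum_filter_add_sum_filter_not _ Squarefree]
  linarith

end Pool.Agent.MP_43e117_nt.PG

end
end

section

/-!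
Chinese remainders for labelled sites and the count of labellings.
-/

open Finset

noncomputable section

namespace Pool.Agent.MP_43e117_nt.PG

namespace CRA

theorem res {p : ℕ} (hp : 1 ≤ p) (n x : ℕ) : n ≡ (p - 1) * x [MOD p] ↔ p ∣ n + x := by
  obtain ⟨k, rfl⟩ : ∃ k, p = k + 1 := ⟨p - 1, by omega⟩
  have h : (k + 1 - 1) * x + x ≡ 0 [MOD k + 1] :=
    (Nat.modEq_zero_iff_dvd).2 ⟨x, by rw [Nat.add_sub_cancel]; ring⟩
  rw [← Nat.modEq_zero_iff_dvd]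
  exact ⟨fun h1 => (h1.add_right x).trans h, fun h1 => Nat.ModEq.add_right_cancel' x
    (h1.trans h.symm)⟩

theorem cop_W {w R : ℕ} (p : Si w R) : (WW w).Coprime p.1 := by
  obtain ⟨h1, -, h2⟩ := si_mem p
  refine ((Nat.Prime.coprime_iff_not_dvd h2).2 fun h => ?_).symm
  have := (Nat.Prime.dvd_primorial_iff h2).1 h
  omega

theorem crt {J : Type} (h : J → ℕ) (w R b : ℕ) (τ : Si w R → Option J) (s : Finset (Si w R)) :
    ∃ a : ℕ, ∀ n, (n ≡ b [MOD WW w] ∧ ∀ p ∈ s, ∀ l, τ p = some l → p.1 ∣ n + h l) ↔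
      n ≡ a [MOD WW w * ∏ p ∈ s, (τ p).elim 1 fun _ => qq w R p] := by
  induction s using Finset.cons_induction with
  | empty => exact ⟨b, fun n => by simp⟩
  | cons p s hp ih =>
    obtain ⟨a, ha⟩ := ih
    rcases hτ : τ p with _ | l
    · refine ⟨a, fun n => ?_⟩
      rw [prod_cons, hτ, Option.elim_none, one_mul, ← ha, forall_mem_cons, hτ]
      simp
    · have hc : (WW w * ∏ p ∈ s, (τ p).elim 1 fun _ => qq w R p).Coprime p.1 := by
        refine Nat.Coprime.mul_left (cop_W p) (Nat.Coprime.prod_left fun p' hp' => ?_)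
        cases τ p' with
        | none => exact Nat.coprime_one_left _
        | some _ =>
          exact (Nat.coprime_primes (si_mem p').2.2 (si_mem p).2.2).2
            fun e => hp ((Subtype.ext e : p' = p) ▸ hp')
      obtain ⟨a', h1, h2⟩ := Nat.chineseRemainder hc a ((p.1 - 1) * h l)
      refine ⟨a', fun n => ?_⟩
      rw [prod_cons, hτ, Option.elim_some, mul_left_comm, mul_comm, forall_mem_cons, hτ,
        and_left_comm, ha, qq, ← Nat.modEq_and_modEq_iff_modEq_mul hc, and_comm]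
      have h3 := res (si_mem p).2.2.one_le n (h l)
      refine and_congr ⟨fun e => e.trans h1.symm, fun e => e.trans h1⟩ ⟨fun e => ?_, fun e => ?_⟩
      · exact (h3.2 (e l rfl)).trans h2.symm
      · rintro _ ⟨⟩
        exact h3.1 (e.trans h2)

/-- the product of a set of sites -/
def pd {w R : ℕ} (s : Finset (Si w R)) : ℕ := ∏ p ∈ s, p.1

theorem pd_fac {w R : ℕ} (s : Finset (Si w R)) :
    (pd s).primeFactors = s.map (Function.Embedding.subtype _) := by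
  have h : pd s = ∏ p ∈ s.map (Function.Embedding.subtype _), p := by
    rw [prod_map]
    rfl
  rw [h]
  refine Nat.primeFactors_prod fun p hp => ?_
  obtain ⟨q, -, rfl⟩ := mem_map.1 hp
  exact (si_mem q).2.2

theorem pd_pos {w R : ℕ} (s : Finset (Si w R)) : 0 < pd s :=
  prod_pos fun p _ => (si_mem p).2.2.pos

theorem pd_inj {w R : ℕ} : Function.Injective (pd : Finset (Si w R) → ℕ) := fun s t h => by
  have := pd_fac s
  rw [h, pd_fac] at this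
  exact (map_injective _ this).symm

theorem pd_ta {w R : ℕ} (s : Finset (Si w R)) : (2 : ℝ) ^ s.card ≤ ta (pd s) := by
  have h : 2 ^ s.card ≤ (pd s).divisors.card := by
    rw [Nat.card_divisors (pd_pos s).ne', ← card_map (Function.Embedding.subtype _), ← pd_fac]
    refine pow_card_le_prod _ _ _ fun p hp => ?_
    have := (Nat.prime_of_mem_primeFactors hp).factorization_pos_of_dvd (pd_pos s).ne'
      (Nat.dvd_of_mem_primeFactors hp)
    omega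
  unfold ta
  exact_mod_cast h

theorem fib {ι J : Type} [Fintype ι] [DecidableEq ι] [Fintype J] [DecidableEq J] (s : Finset ι) :
    (univ.filter fun τ : ι → Option J => univ.filter (fun p => τ p ≠ none) = s).card =
      Fintype.card J ^ s.card := by
  have h : (univ.filter fun τ : ι → Option J => univ.filter (fun p => τ p ≠ none) = s) =
      Fintype.piFinset fun p => if p ∈ s then univ.erase none else {none} := by
    ext τ
    simp only [mem_filter, mem_univ, true_and, Fintype.mem_piFinset, Finset.ext_iff]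
    refine forall_congr' fun p => ?_
    split_ifs with hp <;> simp [hp]
  rw [h, Fintype.card_piFinset]
  simp [apply_ite Finset.card, card_erase_of_mem]

end CRA

open CRA

theorem s_CR (hSt : StSt) : StCR := by
  intro J _ _ h w R b τ hi hw
  obtain ⟨a, ha⟩ := crt h w R b τ univ
  refine ⟨a, fun n => ?_, fun j hj hτ => ?_⟩
  · have h1 : MM τ (stt h w R n) =
        if ∀ p ∈ univ, ∀ l, τ p = some l → p.1 ∣ n + h l then 1 else 0 := by
      rw [MM, prod_boole]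
      have h2 : (∀ p ∈ univ, τ p = none ∨ stt h w R n p = τ p) ↔
          ∀ p ∈ univ, ∀ l, τ p = some l → p.1 ∣ n + h l := by
        refine forall₂_congr fun p _ => ?_
        rcases τ p with _ | l
        · simp
        · simp [(hSt J h w R n hi hw).1]
      simp only [h2]
    rw [h1, ← ite_and]
    exact if_congr (ha n) rfl rfl
  · obtain ⟨h1, h2⟩ := (ha a).2 (Nat.ModEq.refl a)
    refine Nat.Coprime.mul_right ?_ (Nat.Coprime.prod_right fun p _ => ?_)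
    · rw [Nat.Coprime, (h1.add_right (h j)).gcd_eq]
      exact hj
    · rcases e : τ p with _ | l
      · exact Nat.coprime_one_right _
      · refine ((Nat.Prime.coprime_iff_not_dvd (si_mem p).2.2).2 fun hd => hτ p ?_).symm
        rw [e, ← ((hSt J h w R a hi hw).1 p l).2 (h2 p (mem_univ p) l e),
          ((hSt J h w R a hi hw).1 p j).2 hd]

theorem s_CN : StCN := by
  intro J _ _ w R c a D E hE ha hc
  have hd : ∀ τ : Si w R → Option J,
      dn (qq w R) τ = pd (univ.filter fun p => τ p ≠ none) := fun τ => by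
    rw [pd, prod_filter, dn]
    refine prod_congr rfl fun p _ => ?_
    cases τ p <;> simp [qq]
  rw [← sum_fiberwise univ fun τ : Si w R → Option J => univ.filter fun p => τ p ≠ none]
  calc _ ≤ ∑ s : Finset (Si w R), if (pd s : ℝ) ≤ D then ta (pd s) ^ c * E (pd s) else 0 := by
        refine sum_le_sum fun s _ => ?_
        rw [sum_congr rfl (g := fun _ => if (pd s : ℝ) ≤ D then a ^ s.card * E (pd s) else 0)
          fun τ hτ => by rw [hd, ct, (mem_filter.1 hτ).2], sum_const, fib, nsmul_eq_mul]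
        split_ifs
        · rw [← mul_assoc]
          refine mul_le_mul_of_nonneg_right ?_ (hE _)
          calc _ = (a * Fintype.card J) ^ s.card := by push_cast; ring
            _ ≤ (2 ^ c) ^ s.card := pow_le_pow_left₀ (by positivity) hc _
            _ = (2 ^ s.card) ^ c := pow_right_comm _ _ _
            _ ≤ _ := pow_le_pow_left₀ (by positivity) (pd_ta s) _
        · simp
    _ = ∑ d ∈ (univ.filter fun s : Finset (Si w R) => (pd s : ℝ) ≤ D).image pd,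
          ta d ^ c * E d := by
        rw [sum_image fun _ _ _ _ e => pd_inj e, sum_filter]
    _ ≤ _ := by
        refine sum_le_sum_of_subset_of_nonneg (fun d hd => ?_)
          fun d _ _ => mul_nonneg (pow_nonneg (Nat.cast_nonneg _) _) (hE d)
        obtain ⟨s, hs, rfl⟩ := mem_image.1 hd
        exact mem_Icc.2 ⟨pd_pos s, Nat.le_floor (mem_filter.1 hs).2⟩

end Pool.Agent.MP_43e117_nt.PG

end
end

section

/-!
Transfer of sums over integers to the independent model.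
-/

open Finset

noncomputable section

namespace Pool.Agent.MP_43e117_nt.PG

namespace TRA

variable {J : Type} {w R : ℕ}

theorem tot_prod {ι : Type} [DecidableEq ι] (g : ι → ℕ)
    (hg : ∀ a b, a ≠ b → (g a).Coprime (g b)) (s : Finset ι) :
    (∏ p ∈ s, g p).totient = ∏ p ∈ s, (g p).totient := by
  induction s using Finset.induction_on with
  | empty => simp
  | insert a s ha ih =>
    rw [prod_insert ha, prod_insert ha, Nat.totient_mul
      (Nat.coprime_prod_right_iff.2 fun b hb => hg a b (by rintro rfl; exact ha hb)), ih]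

theorem cop_dn (m : ℕ) (τ : Si w R → Option J) :
    m.Coprime (dn (qq w R) τ) ↔ ∀ p, τ p ≠ none → ¬ p.1 ∣ m := by
  rw [dn, Nat.coprime_fintype_prod_right_iff]
  refine forall_congr' fun p => ?_
  cases τ p with
  | none => simp
  | some l => simpa [qq] using Nat.coprime_comm.trans (si_mem p).2.2.coprime_iff_not_dvd

theorem tot_dn (τ : Si w R → Option J) :
    ((dn (qq w R) τ).totient : ℝ) = ∏ p, (τ p).elim 1 fun _ => (p.1 : ℝ) - 1 := by
  rw [dn, tot_prod, Nat.cast_prod]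
  · refine prod_congr rfl fun p _ => ?_
    cases τ p with
    | none => simp
    | some l => simp [qq, Nat.totient_prime (si_mem p).2.2, (si_mem p).2.2.pos]
  · intro a b hab
    cases τ a with
    | none => simp
    | some l =>
      cases τ b with
      | none => simp
      | some l' =>
        exact (Nat.coprime_primes (si_mem a).2.2 (si_mem b).2.2).2 fun e => hab (Subtype.ext e)

theorem dn_pos (τ : Si w R → Option J) : 0 < dn (qq w R) τ :=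
  prod_pos fun p _ => by
    cases τ p with
    | none => simp
    | some l => exact (si_mem p).2.2.pos

theorem cop_W (τ : Si w R → Option J) : (WW w).Coprime (dn (qq w R) τ) :=
  (cop_dn _ τ).2 fun p _ h =>
    absurd ((si_mem p).2.2.dvd_primorial_iff.1 h) (not_le.2 (si_mem p).1)

theorem om_prod [DecidableEq J] {j : J} {τ : Si w R → Option J} (hτ : ∀ p l, τ p = some l → l ≠ j)
    (m : ℕ) : (∏ p, (τ p).elim 1 fun l => if l = j ∨ p ∈ dv w R m then 0 else rr w R p) =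
      if m.Coprime (dn (qq w R) τ) then ((dn (qq w R) τ).totient : ℝ)⁻¹ else 0 := by
  split_ifs with h
  · rw [tot_dn, ← prod_inv_distrib]
    refine prod_congr rfl fun p _ => ?_
    have h1 := (cop_dn m τ).1 h p
    have h2 := hτ p
    cases e : τ p with
    | none => simp
    | some l => simp [h2 l e, dv, h1 (by simp [e]), rr]
  · rw [cop_dn] at h
    push Not at h
    obtain ⟨p, h1, h2⟩ := h
    refine prod_eq_zero (mem_univ p) ?_
    cases e : τ p with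
    | none => exact absurd e h1
    | some l => simp [dv, h2]

theorem un_prod (τ : Si w R → Option J) :
    (∏ p, (τ p).elim 1 fun _ => 1 / (p.1 : ℝ)) = (dn (qq w R) τ : ℝ)⁻¹ := by
  rw [dn, Nat.cast_prod, ← prod_inv_distrib]
  exact prod_congr rfl fun p _ => by cases τ p <;> simp [qq]

theorem bound (hCN : StCN) [Fintype J] [DecidableEq J] {c : ℕ} {a D B : ℝ} {E : ℕ → ℝ}
    {C Δ : (Si w R → Option J) → ℝ} (hE : ∀ d, 0 ≤ E d) (ha : 0 ≤ a)
    (hc : a * Fintype.card J ≤ 2 ^ c) (h1 : ∀ τ, |C τ| ≤ B * a ^ ct τ)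
    (h2 : ∀ τ, C τ ≠ 0 → (dn (qq w R) τ : ℝ) ≤ D ∧ |Δ τ| ≤ E (dn (qq w R) τ)) {ε : ℝ}
    (h3 : ∑ d ∈ Icc 1 ⌊D⌋₊, ta d ^ c * E d ≤ ε) : |∑ τ, C τ * Δ τ| ≤ B * ε := by
  have hB : 0 ≤ B := by
    have := (abs_nonneg _).trans (h1 fun _ => none)
    simpa [ct] using this
  refine le_trans ?_ (mul_le_mul_of_nonneg_left ((hCN J w R c a D E hE ha hc).trans h3) hB)
  rw [mul_sum]
  refine (abs_sum_le_sum_abs _ _).trans (sum_le_sum fun τ _ => ?_)
  by_cases h : C τ = 0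
  · rw [h, zero_mul, abs_zero]
    split_ifs
    · exact mul_nonneg hB (mul_nonneg (pow_nonneg ha _) (hE _))
    · rw [mul_zero]
  · rw [if_pos (h2 τ h).1, abs_mul, ← mul_assoc]
    exact mul_le_mul (h1 τ) (h2 τ h).2 (abs_nonneg _) ((abs_nonneg _).trans (h1 τ))

theorem count (x X M a : ℕ) (hM : 0 < M) :
    |(((Ioc x (x + X)).filter fun n => n ≡ a [MOD M]).card : ℝ) - X / M| ≤ 1 := by
  have h := Nat.Ioc_filter_modEq_card x (x + X) hM a
  have e : (((x + X : ℕ) : ℚ) - a) / M = ((x : ℚ) - a) / M + X / M := by push_cast; ring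
  rw [e] at h
  generalize ((x : ℚ) - a) / M = u at h
  have h0 : (0 : ℚ) ≤ X / M := by positivity
  rw [max_eq_left (sub_nonneg.2 (Int.floor_mono (le_add_of_nonneg_right h0)))] at h
  have h1 : (((Ioc x (x + X)).filter fun n => n ≡ a [MOD M]).card : ℚ) =
      (⌊u + X / M⌋ : ℚ) - ⌊u⌋ := by exact_mod_cast h
  have h2 : |(((Ioc x (x + X)).filter fun n => n ≡ a [MOD M]).card : ℚ) - X / M| ≤ 1 := by
    rw [h1, abs_le]
    constructor <;> linarith [Int.floor_le u, Int.lt_floor_add_one u, Int.floor_le (u + X / M),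
      Int.lt_floor_add_one (u + X / M)]
  have h3 := (Rat.cast_le (K := ℝ)).2 h2
  push_cast at h3
  exact h3

end TRA

open TRA

theorem s_TR (hEM : StEM) (hCR : StCR) (hCN : StCN) : StTR := by
  intro J _ _ h w R b N c j f F D B a ε hi hl hb ⟨C, hF, hC⟩ ha hc ⟨E, e0, e1, e2⟩
  obtain rfl : F = fun o => ∑ τ, C τ * MM τ o := funext hF
  have hW : (0 : ℝ) < WW w := Nat.cast_pos.2 (WW_pos w)
  have k1 : ∀ m, Ex (om (rr w R) j (dv w R m)) (fun o => ∑ τ, C τ * MM τ o) = ∑ τ, C τ *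
      ∏ p, (τ p).elim 1 fun l => if l = j ∨ p ∈ dv w R m then 0 else rr w R p :=
    fun m => hEM _ J _ C
  simp only [k1, mul_sum]
  rw [sum_comm, sum_comm (s := IW N w (h j)), sum_div, ← sum_sub_distrib]
  simp only [mul_left_comm _ (C _), ← mul_sum, mul_div_assoc, ← mul_sub]
  refine bound hCN (E := fun d => E (WW w * d)) (fun _ => e0 _) ha hc (fun τ => (hC τ).1)
    (fun τ hτ => ⟨((hC τ).2 hτ).1, ?_⟩) (le_trans ?_ e2)
  · obtain ⟨h1, h2⟩ := (hC τ).2 hτ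
    obtain ⟨a', h3, h4⟩ := hCR J h w R b τ hi hl
    refine le_of_eq_of_le (congrArg abs ?_) (e1 _ (a' + h j) (mul_pos (WW_pos w) (dn_pos τ))
      (by rw [Nat.cast_mul]; exact mul_le_mul_of_nonneg_left h1 hW.le)
      (h4 j hb fun p hp => h2 p j hp rfl))
    rw [Dl]
    congr 1
    · rw [II, sum_filter, sum_filter, ← map_add_right_Ioc, sum_map]
      refine sum_congr rfl fun n _ => ?_
      have e : n + h j ≡ a' + h j [MOD WW w * dn (qq w R) τ] ↔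
          n ≡ a' [MOD WW w * dn (qq w R) τ] :=
        ⟨Nat.ModEq.add_right_cancel' _, Nat.ModEq.add_right _⟩
      have := congrArg (f (n + h j) * ·) (h3 n)
      simpa only [addRightEmbedding_apply, e, mul_ite, mul_zero, mul_one] using this
    · rw [IW, sum_filter, sum_filter, Nat.totient_mul (cop_W τ), Nat.cast_mul, ← div_div,
        div_right_comm, sum_div _ _ ((dn (qq w R) τ).totient : ℝ)]
      congr 1
      refine sum_congr rfl fun m _ => ?_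
      rw [om_prod h2]
      simp only [Nat.coprime_mul_iff_right, ite_and, div_eq_mul_inv, mul_ite, ite_mul, mul_zero,
        zero_mul]
  · have t0 : ∀ q, 0 ≤ ta q := fun q => Nat.cast_nonneg _
    refine le_trans (sum_le_sum (g := fun d => ta (WW w * d) ^ c * E (WW w * d)) fun d hd =>
      mul_le_mul_of_nonneg_right (pow_le_pow_left₀ (t0 d) (Nat.cast_le.2 (card_le_card
        (Nat.divisors_subset_of_dvd (mul_pos (WW_pos w) (mem_Icc.1 hd).1).ne'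
          (dvd_mul_left _ _)))) _) (e0 _)) ?_
    rw [← sum_image (f := fun q => ta q ^ c * E q) (g := fun d => WW w * d)
      fun x _ y _ e => Nat.eq_of_mul_eq_mul_left (WW_pos w) e]
    refine sum_le_sum_of_subset_of_nonneg (fun q hq => ?_)
      fun q _ _ => mul_nonneg (pow_nonneg (t0 q) _) (e0 q)
    obtain ⟨d, hd, rfl⟩ := mem_image.1 hq
    obtain ⟨d1, d2⟩ := mem_Icc.1 hd
    refine mem_Icc.2 ⟨mul_pos (WW_pos w) d1, Nat.le_floor ?_⟩
    rw [Nat.cast_mul]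
    exact mul_le_mul_of_nonneg_left ((Nat.le_floor_iff' (by omega)).1 d2) hW.le

theorem s_T0 (hTau : StTau) (hEM : StEM) (hCR : StCR) (hCN : StCN) : StT0 := by
  intro J _ _ h w R b x X c Lb F D B a hi hl ⟨C, hF, hC⟩ ha hc hD
  obtain rfl : F = fun o => ∑ τ, C τ * MM τ o := funext hF
  have k1 : Ex (un J w R) (fun o => ∑ τ, C τ * MM τ o) =
      ∑ τ, C τ * ∏ p, (τ p).elim 1 fun _ => 1 / (p.1 : ℝ) := hEM _ J _ C
  rw [k1, mul_sum, sum_comm, ← sum_sub_distrib]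
  simp only [mul_left_comm _ (C _), ← mul_sum, ← mul_sub]
  refine bound hCN (E := fun _ => 1) (fun _ => zero_le_one) ha hc (fun τ => (hC τ).1)
    (fun τ hτ => ⟨((hC τ).2 hτ).1, ?_⟩) ?_
  · obtain ⟨a', h3, -⟩ := hCR J h w R b τ hi hl
    refine le_of_eq_of_le (congrArg abs ?_) (count x X _ a' (mul_pos (WW_pos w) (dn_pos τ)))
    rw [sum_filter, sum_congr rfl fun n _ => h3 n, sum_boole, un_prod, Nat.cast_mul,
      ← div_eq_mul_inv, div_div]
  · have h1 : (1 : ℝ) ≤ ⌊D⌋₊ := Nat.one_le_cast.2 (Nat.le_floor (by simpa using hD))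
    have h2 : (⌊D⌋₊ : ℝ) ≤ D := Nat.floor_le (by linarith)
    simp only [mul_one]
    refine (hTau c _).2.trans (mul_le_mul h2 (pow_le_pow_left₀ ?_ ?_ _) ?_ (by linarith))
    · linarith [Real.log_nonneg h1]
    · linarith [Real.log_le_log (by linarith) h2]
    · exact pow_nonneg (by linarith [Real.log_nonneg h1]) _

end Pool.Agent.MP_43e117_nt.PG

end
end

section

open Finset Filter

namespace Pool.Agent.MP_43e117_nt.PG

namespace U3A

lemma fb_nonneg (w R m : ℕ) : 0 ≤ fb w R m := by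
  refine sum_nonneg fun p _ => ?_
  unfold ww bb
  split_ifs <;> positivity

lemma th_le (hSB : StSB) {w R N m : ℕ} (hr : ∀ p, 0 ≤ rr w R p) {t : ℝ} (ht : 0 ≤ t)
    (h1 : R < m) (h2 : m ≤ 2 * N) : th m ≤ Real.log (2 * N) * SA w R t m ^ 2 := by
  have h3 : (m : ℝ) ≤ 2 * N := by exact_mod_cast h2
  have h4 : (1 : ℝ) ≤ m := by exact_mod_cast (by omega : 1 ≤ m)
  unfold th
  split_ifs with hm
  · have h5 : st1 w R m = fun _ => none := funext fun p => if_neg fun h => by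
      have := (Nat.prime_dvd_prime_iff_eq (si_mem p).2.2 hm).1 h
      have := (si_mem p).2.1
      omega
    rw [SA, h5, (hSB _ _ _ t hr ht).2.2.2.2.2.2.1, one_pow, mul_one]
    exact Real.log_le_log (by linarith) h3
  · exact mul_nonneg (Real.log_nonneg (by linarith)) (sq_nonneg _)

lemma er_le {N : ℕ} (hN : 1 ≤ N) (h : 2 ≤ Real.log N) :
    Real.log (2 * N) * (N / Real.log N ^ 4) ≤ er N := by
  have h1 : (0 : ℝ) < N := by exact_mod_cast hN
  have h2 : Real.log (2 * N) ≤ Real.log N ^ 2 := by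
    rw [Real.log_mul two_ne_zero h1.ne']
    nlinarith [Real.log_two_lt_d9]
  refine (mul_le_mul_of_nonneg_right h2 (by positivity)).trans_eq ?_
  have h3 : Real.log N ≠ 0 := by linarith
  unfold er
  field_simp

end U3A

open U3A in
theorem s_U3 (hE0 : StE0) (hE2 : StE2) (hE4 : StE4) (hSB : StSB) (hMU : StMU) (hSt : StSt)
    (hSi : StSi) (hBF : StBF) (hFS : StFS) (hTB : StTB) (hEA : StEA) (_hW2 : StW2) : StU3 := by
  intro J _ _ h δ ε A hinj hδ hδ' hε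
  obtain ⟨k, hk⟩ : ∃ k : ℝ, k = Fintype.card J + 1 := ⟨_, rfl⟩
  have hk1 : 1 ≤ k := hk ▸ le_add_of_nonneg_left (Nat.cast_nonneg _)
  have hη : 0 < Real.log (1 + ε) := Real.log_pos (by linarith)
  obtain ⟨A', hA'⟩ := hEA J δ A hδ hδ'
  have e1 := hTB J h δ (3 + 3 + 3 * 3) (6 + A') hinj hδ hδ' (by norm_num)
  have e2 := Ev.of_w h 2 fun w hw => ((hA' w hw).and ((tendsto_RR (by linarith : δ < 1 / 4)).eventually
    (hFS (Real.log (1 + ε) / (2 * (k + 1))) w (by positivity) hw))).and ((hBF δ hδ hδ').and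
      ((eventually_ge_atTop (2 * w)).and ((Real.tendsto_log_atTop.comp
        tendsto_natCast_atTop_atTop).eventually_ge_atTop 2)))
  have e3 := Ev.cop h (2 + ∑ l, h l + ⌈14 * k⌉₊ + ⌈168 * k ^ 2 / Real.log (1 + ε)⌉₊)
  refine ((e1.and e2).and e3).mono fun w b N H i j hij C hC => ?_
  obtain ⟨⟨hT, ⟨hE, -, hF⟩, ⟨-, -, -, -, b1, b2, b3⟩, hN, hlog⟩, hw, -⟩ := H
  have hw2 : 2 ≤ w := by omega
  have hw0 : (0 : ℝ) < w := by exact_mod_cast (by omega : 0 < w)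
  have hh' : ∀ l, h l ≤ w := fun l =>
    (single_le_sum (fun _ _ => Nat.zero_le _) (mem_univ l)).trans (by omega)
  have hw3 : 14 * k ≤ w := Nat.ceil_le.1 (by omega)
  have hw4 : 168 * k ^ 2 / Real.log (1 + ε) ≤ w := Nat.ceil_le.1 (by omega)
  have hE1 := hE.1 _ C hC
  have hE3 := hE.2
  obtain ⟨hC1, hC2, -⟩ := hC
  clear hE
  generalize RR δ N = R at *
  obtain ⟨s1, s2, s3, -⟩ := hSi w R hw2
  have hr : ∀ p, 0 ≤ rr w R p := fun p => (s1 p).1
  have hR : (0 : ℝ) < R := by exact_mod_cast (by omega : 0 < R)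
  have hL : 0 ≤ Real.log R := Real.log_natCast_nonneg R
  have hL2 : 0 ≤ Real.log (2 * N) := by
    rw [show (2 * N : ℝ) = (2 * N : ℕ) by push_cast; rfl]
    exact Real.log_natCast_nonneg _
  have hX := hE0 _ _ _ _ (fun l => l ≠ j) _ _ _ _ ((N : ℝ) ^ (1 / 2 - 3 * δ / 2))
    (Real.log N ^ (6 + A')) _ (hE2 _ _ _ (fun l => l ≠ j) _ _ _ _ _ _ _ _ s3 (by norm_num)
      (by norm_num) (hE4 _ _ _ _ i _ _ _ _ hij (hE3 _ hL))
      (hE0 _ _ _ _ _ _ _ _ _ _ _ _ hE1 le_rfl le_rfl (by norm_num) le_rfl fun l h => h.2))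
    (by rw [two_mul, Real.exp_add, Real.exp_log hR, ← sq]; exact b3) (pow_add _ _ _).ge
    (by norm_num) le_rfl fun _ h => h
  have h1 := (abs_le.1 (hT j _ hX)).2
  have hG := (hSB _ (rr w R) (qq w R) _ hr hL).1
  have hQ : 0 ≤ QQ (rr w R) C := sum_nonneg fun σ _ => mul_nonneg
    (prod_nonneg fun p _ => by cases σ p <;> simp [hr]) (sq_nonneg _)
  have h2 : ∀ m ∈ IW N w (h j), fb w R m * Ex (om (rr w R) j (dv w R m)) (fun o =>
      Sel (rr w R) (qq w R) (Real.log R) (pr i o) ^ 2 * Psi (rr w R) C o ^ 2) ≤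
      (1 + ε) * QQ (rr w R) C / GA w R (Real.log R) * fb w R m := by
    intro m _
    by_cases h0 : fb w R m = 0
    · simp [h0]
    rw [mul_comm]
    refine mul_le_mul_of_nonneg_right ((hMU _ _ _ _ k _ j i _ C (by linarith) hk1
      (fun p => ⟨hr p, (mul_le_mul_of_nonneg_right hw3 (hr p)).trans (s1 p).2⟩) hij.symm hL
      (fun σ a p l e => (hC2 σ a p l e).symm) hC1).trans ?_) (fb_nonneg _ _ _)
    refine div_le_div_of_nonneg_right (mul_le_mul_of_nonneg_right ?_ hQ) (by linarith)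
    rw [← Real.le_log_iff_exp_le (by linarith)]
    have h3 := mul_le_mul_of_nonneg_left (hF m h0) (by linarith : 0 ≤ k + 1)
    have h4 := mul_le_mul_of_nonneg_left s2 (by positivity : 0 ≤ 42 * k ^ 2)
    have h5 : (k + 1) * (Real.log (1 + ε) / (2 * (k + 1))) = Real.log (1 + ε) / 2 := by field_simp
    have h6 : 42 * k ^ 2 * (2 / w) ≤ Real.log (1 + ε) / 2 := by
      rw [div_le_iff₀ hη] at hw4
      rw [← mul_div_assoc, div_le_iff₀ hw0]
      linarith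
    linarith
  have h3 := div_le_div_of_nonneg_right (sum_le_sum h2)
    (Nat.cast_nonneg (α := ℝ) (WW w).totient)
  rw [← mul_sum] at h3
  have h4 : ∑ n ∈ II N w b, th (n + h i) * (fb w R (n + h j) * PC h w R C n ^ 2) ≤
      Real.log (2 * N) * ∑ n ∈ II N w b, fb w R (n + h j) *
        (Sel (rr w R) (qq w R) (Real.log R) (pr i (stt h w R n)) ^ 2 *
          Psi (rr w R) C (stt h w R n) ^ 2) := by
    rw [mul_sum]
    refine sum_le_sum fun n hn => ?_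
    have h5 := mem_Ioc.1 (mem_filter.1 hn).1
    have h6 := hh' i
    refine (mul_le_mul_of_nonneg_right (th_le hSB (N := N) hr hL (by omega) (by omega))
      (mul_nonneg (fb_nonneg _ _ _) (sq_nonneg _))).trans_eq ?_
    rw [(hSt J h w R n hinj hh').2 i, SA, PC]
    ring
  have h5 := mul_le_mul_of_nonneg_left ((sub_le_iff_le_add'.1 h1).trans (add_le_add h3 le_rfl)) hL2
  refine (h4.trans h5).trans ?_
  rw [mul_add]
  exact add_le_add (le_of_eq (by ring)) (er_le (by omega) hlog)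

end Pool.Agent.MP_43e117_nt.PG

end
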