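import Pool.Agent.Mg.F436a94p.G66a334
import Pool.Agent.Mg.F436a94p.G004524
import Pool.Agent.Mg.F436a94p.Gcdf306

set_option linter.all false

/-!
The sums with a prime in one front form and a sieve weight on another front form.
-/

open Finset Filter

noncomputable section

namespace Pool.Agent.MP_43e117_nt.GP

open PG

theorem big2 (M : ℝ) : Ew fun w _ => 2 ≤ w ∧ M ≤ w :=
  ⟨2 + ⌈M⌉₊, fun w hw => Eventually.of_forall fun _ =>
    ⟨by omega, (Nat.le_ceil M).trans (Nat.cast_le.2 (by omega))⟩⟩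

section

open U1A

theorem s_U12 (hE0 : StE0) (hE2 : StE2) (hE4 : StE4) (hMU : StMU) (hSi : StSi)
    (hBF : StBF) (hTA : StTA2) (hEA : StEA) : StU12 := by
  intro J _ _ H δ ε A h0 h1 hε
  obtain ⟨A', hA'⟩ := hEA J δ A h0 h1
  obtain ⟨e, he0, he1, he2⟩ : ∃ e : ℝ, 0 < e ∧ e ≤ 1 / 3 ∧ 3 * e ≤ ε :=
    ⟨min ε 1 / 3, by positivity, by linarith [min_le_right ε 1], by linarith [min_le_left ε 1]⟩
  obtain ⟨k, hk⟩ : ∃ k : ℝ, k = Fintype.card J + 1 := ⟨_, rfl⟩
  have k1 : (Fintype.card J : ℝ) ≤ k := by linarith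
  have k2 : 1 ≤ k := by linarith [Nat.cast_nonneg (α := ℝ) (Fintype.card J)]
  refine ((((hTA J H δ e (4 * 3 + 3) (6 + A') h0 h1 he0 (by norm_num)).and
    (big2 (max (14 * k) (2 * 42 * k ^ 2 / (e / 2))))).and (Ew_of 2 hA')).and
    (Ew_of (P := fun _ N => _) 0 fun _ _ => hBF δ h0 h1)).mono ?_
  rintro w N ⟨⟨⟨hT, w2, wM⟩, hP, hS⟩, -, -, -, -, -, R2, hD⟩ s i j hij hi hj C hC hLv
  obtain ⟨s1, s2, s3, -⟩ := hSi w (RR δ N) w2
  have hr : ∀ p, 0 ≤ rr w (RR δ N) p := fun p => (s1 p).1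
  have hL : 0 ≤ Real.log (RR δ N) := Real.log_natCast_nonneg _
  have hw : (0 : ℝ) < w := Nat.cast_pos.2 (by omega)
  have hX := ex hE0 hE2 hE4 s3 hij (by norm_num) (hS _ hL) (hP _ C hC) (by rw [exp2 R2]; exact hD :
    _ ≤ (N : ℝ) ^ (1 / 2 - 3 * δ / 2))
  have a1 := (hT s i _ hi (fun o => by simp only [pr_el hj.1, inv_Psi _ hLv o])
    (fun o => mul_nonneg (sq_nonneg _) (sq_nonneg _))
    hX).2
  have a2 := hMU _ J (rr w (RR δ N)) (qq w (RR δ N)) k (Real.log (RR δ N)) i j ∅ C k1 k2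
    (sm s1 (le_of_max_le_left wM)) hij hL hC.2.1 hC.1
  simp only [s.pr_st hj.1] at a1
  refine le_trans a1 (add_le_add_left ?_ _)
  rw [sum_empty, mul_zero, add_zero] at a2
  have a3 := small (half_pos he0) hw (by norm_num) s2 (le_of_max_le_right wM)
  have a4 : 0 ≤ 42 * k ^ 2 * eta (rr w (RR δ N)) :=
    mul_nonneg (by positivity) (sum_nonneg fun _ _ => sq_nonneg _)
  have a5 := (abs_le.1 (Real.abs_exp_sub_one_le (x := 42 * k ^ 2 * eta (rr w (RR δ N)))
    (by rw [abs_of_nonneg a4]; linarith))).2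
  rw [abs_of_nonneg a4] at a5
  have b1 := be_nn w N
  have b2 : 0 ≤ QQ (rr w (RR δ N)) C / GA w (RR δ N) (Real.log (RR δ N)) :=
    div_nonneg (QQ_nn hr C) (GG_nn hr _ _)
  refine (mul_le_mul_of_nonneg_left a2 (by positivity)).trans ?_
  rw [mul_div_assoc, mul_div_assoc]
  have b3 : (1 + e) * Real.exp (42 * k ^ 2 * eta (rr w (RR δ N))) ≤ 1 + ε := by nlinarith
  have b4 := mul_le_mul_of_nonneg_right b3 (mul_nonneg b1 b2)
  unfold GA at b4 ⊢
  linarith

theorem s_L12 (hE0 : StE0) (hE2 : StE2) (hE3 : StE3) (hE4 : StE4) (hML : StML)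
    (hSi : StSi) (hBF : StBF) (hEt : StEt) (hTA : StTA2) (hEA : StEA) : StL12 := by
  intro J _ _ H δ ε A h0 h1 hε
  obtain ⟨A', hA'⟩ := hEA J δ A h0 h1
  obtain ⟨e, he0, he1, he2⟩ : ∃ e : ℝ, 0 < e ∧ e ≤ 1 / 3 ∧ 3 * e ≤ ε :=
    ⟨min ε 1 / 3, by positivity, by linarith [min_le_right ε 1], by linarith [min_le_left ε 1]⟩
  obtain ⟨k, hk⟩ : ∃ k : ℝ, k = Fintype.card J + 1 := ⟨_, rfl⟩
  have k1 : (Fintype.card J : ℝ) ≤ k := by linarith
  have k2 : 1 ≤ k := by linarith [Nat.cast_nonneg (α := ℝ) (Fintype.card J)]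
  refine (((((hTA J H δ e (4 * (1 + 3 + 1 * 3) + 3) (6 + A') h0 h1 he0 (by norm_num)).and
    (big2 (max (14 * k) (2 * 110 * k ^ 2 / (e / 500))))).and (Ew_of 2 hA')).and
    (Ew_of (P := fun _ N => _) 0 fun _ _ => hBF δ h0 h1)).and
    (Ew_RR hEt (δ := δ) (by linarith))).mono ?_
  rintro w N ⟨⟨⟨⟨hT, w2, wM⟩, hP, hS⟩, -, -, -, -, -, R2, hD⟩, t1, t2, t3, t4, t5, -⟩
    s i j hij hi hj C hC hLv
  obtain ⟨s1, s2, s3, -⟩ := hSi w (RR δ N) w2
  have hr : ∀ p, 0 ≤ rr w (RR δ N) p := fun p => (s1 p).1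
  have hL : 0 ≤ Real.log (RR δ N) := Real.log_natCast_nonneg _
  have hE : 0 ≤ ee (RR δ N) := div_nonneg hL (by norm_num)
  have hw : (0 : ℝ) < w := Nat.cast_pos.2 (by omega)
  have hww : ∀ p, ww w (RR δ N) p ≠ 0 → 180 * ee (RR δ N) < Real.log (qq w (RR δ N) p) ∧
      Real.log (qq w (RR δ N) p) ≤ 181 * ee (RR δ N) := fun p hp => by
    by_contra hn
    exact hp (if_neg hn)
  have hY := hE2 _ _ _ _ _ _ _ _ _ _ _ _ s3 (by norm_num) (by norm_num)
    (hE3 _ (ww w (RR δ N)) (qq w (RR δ N)) (Real.exp (181 * ee (RR δ N)))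
      (fun p => by rw [abs_of_nonneg (t5 p).1]; exact (t5 p).2) fun p hp =>
        (Real.log_le_iff_le_exp (Nat.cast_pos.2 (s3 p))).1 (hww p hp).2)
    (hS (109 * ee (RR δ N)) (by positivity))
  rw [one_mul] at hY
  have hX := ex hE0 hE2 hE4 s3 hij (by norm_num) hY (hP _ C hC) (le_trans (by
    refine mul_le_mul_of_nonneg_right ?_ (by positivity)
    rw [← exp2 R2, ← Real.exp_add, Real.exp_le_exp]
    unfold ee
    linarith) hD)
  have a1 := (hT s i _ hi (fun o => by simp only [pr_el hj.1, inv_Psi _ hLv o])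
    (fun o => mul_nonneg (mul_nonneg (sum_nonneg fun p _ =>
    mul_nonneg (t5 p).1 (by unfold ind; split_ifs <;> norm_num)) (sq_nonneg _))
    (sq_nonneg _)) hX).1
  have a3 := small (show 0 < e / 500 by positivity) hw (by norm_num) s2 (le_of_max_le_right wM)
  have a4 : 0 ≤ eta (rr w (RR δ N)) := sum_nonneg fun _ _ => sq_nonneg _
  have a2 := hML _ J (rr w (RR δ N)) (ww w (RR δ N)) (qq w (RR δ N)) k (109 * ee (RR δ N)) i j C
    k1 k2 (sm s1 (le_of_max_le_left wM)) hij (by positivity) hC.2.1 hC.1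
    (by nlinarith [mul_le_mul_of_nonneg_right (one_le_pow₀ k2 (n := 2)) a4]) t5
    fun p hp => by linarith [(hww p hp).1]
  simp only [s.pr_st hj.1] at a1
  refine le_trans (sub_le_sub_right ?_ _) a1
  have b1 := be_nn w N
  have b2 : 0 ≤ QQ (rr w (RR δ N)) C / GA w (RR δ N) (109 * ee (RR δ N)) :=
    div_nonneg (QQ_nn hr C) (GG_nn hr _ _)
  refine le_trans ?_ (mul_le_mul_of_nonneg_left a2 (mul_nonneg (by linarith) b1))
  have b5 : 110 * k ^ 2 * eta (rr w (RR δ N)) * (1 + ∑ p, ww w (RR δ N) p * rr w (RR δ N) p) ≤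
      e * Et w (RR δ N) := by
    refine (mul_le_mul a3 (show _ ≤ (2 : ℝ) by linarith) (by linarith) (by positivity)).trans ?_
    nlinarith
  have b3 : (1 - ε) * Et w (RR δ N) ≤ (1 - e) * ((∑ p, ww w (RR δ N) p * rr w (RR δ N) p) -
      110 * k ^ 2 * eta (rr w (RR δ N)) * (1 + ∑ p, ww w (RR δ N) p * rr w (RR δ N) p)) := by
    refine le_trans ?_ (mul_le_mul_of_nonneg_left
      (show (1 - e) * Et w (RR δ N) ≤ _ by linarith) (by linarith))
    rw [← mul_assoc]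
    exact mul_le_mul_of_nonneg_right (by nlinarith) (by linarith)
  have b4 := mul_le_mul_of_nonneg_right b3 (mul_nonneg b1 b2)
  unfold GA at b4 ⊢
  refine le_trans (le_of_eq ?_) (b4.trans (le_of_eq ?_)) <;> ring

end

open U2A in
theorem s_U22 (hE0 : StE0) (hE2 : StE2) (hE3 : StE3) (hE4 : StE4) (hMG : StMG)
    (hSi : StSi) (hBF : StBF) (hEt : StEt) (hGI : StGI) (hGA : StGA) (hTA : StTA2) (hEA : StEA) :
    StU22 := by
  intro J _ _ H δ A hδ hδ2
  obtain ⟨A', hA'⟩ := hEA J δ A hδ hδ2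
  have hd : δ < 1 / 4 := by linarith
  refine (((((hTA J H δ (1 / 20) 63 (6 + A') hδ hδ2 (by norm_num) (by norm_num)).and
    (Ew_of 2 hA')).and (Ew_of 0 fun _ _ => hBF δ hδ hδ2)).and
    (Ew_RR (hEt.and ((incr hGI).and (hGA (1 / 200) (by norm_num)))) hd)).and
    (Ew_ge (7000 + 336 * (Fintype.card J + 1) ^ 2))).mono ?_
  rintro w N ⟨⟨⟨⟨hT, hP, hS⟩, -, -, -, -, -, hR2, hlev⟩, ⟨-, -, -, e4, e5, e6⟩, ⟨C0, hC0, hI, hC1⟩,
    hG⟩, hw⟩
  set R := RR δ N with hR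
  intro s i j hij hi hj C hC hLv
  obtain ⟨⟨s1, s2, s3, -, s5, -⟩⟩ : Nonempty _ := ⟨hSi w R (by omega)⟩
  have hRp : (2 : ℝ) ≤ R := by exact_mod_cast hR2
  have hL : 0 < Real.log R := Real.log_pos (by linarith)
  have hLe : Real.log R = 200 * ee R := by unfold ee; ring
  have he : 0 < ee R := by linarith
  have hV := VV_pos w
  have hr : ∀ p, 0 ≤ rr w R p := fun p => (s1 p).1
  have hq : ∀ p : Si w R, (0 : ℝ) < qq w R p := fun p => by exact_mod_cast s3 p
  have hww : ∀ p, ww w R p ≠ 0 → 180 * ee R < Real.log (qq w R p) ∧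
      Real.log (qq w R p) ≤ 181 * ee R := fun p hp => by
    by_contra H
    exact hp (if_neg H)
  have hZ : ∀ p, p ∈ ZZ w R → Real.log (qq w R p) ≤ ee R := fun p hp => (mem_filter.1 hp).2
  have x1 := hE3 _ (fun p => if p ∈ ZZ w R then 1 else 0) (qq w R) (Real.exp (ee R))
    (fun p => by split_ifs <;> norm_num) fun p hp =>
      (Real.log_le_iff_le_exp (hq p)).1 (hZ p (by by_contra H; exact hp (if_neg H)))
  have x2 := hE3 _ (ww w R) (qq w R) (Real.exp (181 * ee R))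
    (fun p => abs_le.2 ⟨by linarith [(e5 p).1], (e5 p).2⟩) fun p hp =>
      (Real.log_le_iff_le_exp (hq p)).1 (hww p hp).2
  have x3 := hE2 _ _ _ _ _ _ _ _ _ _ _ _ s3 (by norm_num) (by norm_num) x1
    (hE2 _ _ _ _ _ _ _ _ _ _ _ _ s3 (by norm_num) (by norm_num) x2 (hS (109 * ee R) (by linarith)))
  have x4 := hE2 _ _ _ _ _ _ _ _ _ _ _ _ s3 (by norm_num) (by norm_num)
    (hE4 _ J _ (fun l => l ≠ i) j _ _ _ _ hij.symm x3)
    (hE0 _ _ _ _ (fun l => l ≠ i) _ _ _ _ _ _ _ (hP _ C hC) le_rfl le_rfl (by norm_num) le_rfl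
      fun _ hl => hl.1)
  have x5 := hE0 _ _ _ _ (fun l => l ≠ i) _ _ _ _ ((N : ℝ) ^ (1 / 2 - 3 * δ / 2))
    (Real.log N ^ (6 + A')) 63 x4 (by
      refine le_trans (le_of_eq ?_) hlev
      rw [← Real.exp_add, ← Real.exp_add, show ee R + (181 * ee R + 2 * (109 * ee R)) =
        Real.log R + Real.log R by linarith, Real.exp_add, Real.exp_log (by linarith), sq])
    (by rw [pow_add, one_mul, one_mul]) (by norm_num) (by norm_num) fun _ hl => hl
  simp only [tt_ind] at x5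
  have t1 := (hT s i _ hi (fun o => by simp only [pr_el hj.1, inv_Psi _ hLv o])
    (fun o => mul_nonneg (mul_nonneg (sum_nonneg fun l _ => ind_nn _ _)
    (mul_nonneg (sum_nonneg fun p _ => mul_nonneg (e5 p).1 (ind_nn _ _)) (sq_nonneg _)))
    (sq_nonneg _)) x5).2
  simp only [s.pr_st hj.1] at t1
  refine le_trans (le_of_eq rfl) (t1.trans (add_le_add_left ?_ _))
  have hw' : (7000 : ℝ) + 336 * (Fintype.card J + 1) ^ 2 ≤ w := by
    exact_mod_cast (by omega : 7000 + 336 * (Fintype.card J + 1) ^ 2 ≤ w)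
  have hk : (0 : ℝ) ≤ Fintype.card J := Nat.cast_nonneg _
  have hw0 : (7000 : ℝ) ≤ w := by nlinarith
  have het : eta (rr w R) * w ≤ 2 := (le_div_iff₀ (by linarith)).1 s2
  have het0 : 0 ≤ eta (rr w R) := sum_nonneg fun _ _ => sq_nonneg _
  have m1 := hMG _ J (rr w R) (ww w R) (fun l => 3 / 2 * VV w * Real.log (qq w R l) + C0) (qq w R)
    (Fintype.card J + 1) (109 * ee R) i j (ZZ w R) C (by linarith) (by linarith)
    (fun p => ⟨hr p, le_trans (mul_le_mul_of_nonneg_right (by nlinarith) (hr p)) (s1 p).2⟩) hij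
    (by linarith) hC.2.1 hC.1 (by nlinarith) (fun p => (e5 p).1)
    (fun p hp => by linarith [(hww p hp).1])
    (fun l hl => by
      by_contra H
      linarith [(hww l H).1, hZ l hl])
    fun l _ x _ => by
      have := hI (x - Real.log (qq w R l)) x (by linarith [Real.log_natCast_nonneg (qq w R l)])
      rwa [sub_sub_cancel] at this
  have g1 : 108 * (VV w * ee R) ≤ GA w R (109 * ee R) := by
    have := (abs_le.1 (hG (109 * ee R) (by linarith))).1
    rw [max_eq_left (by linarith), hLe] at this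
    linarith
  have hVe : 0 < VV w * ee R := by positivity
  have hG0 : 0 < GA w R (109 * ee R) := by linarith
  refine num (QQ_nn hr C) (div_nonneg (Nat.cast_nonneg _) (Nat.cast_nonneg _)) hG0
    (sum_nonneg fun p _ => mul_nonneg (e5 p).1 (hr p)) (sum_nonneg fun l _ => ?_) e4 ?_ m1
  · have := hr l
    have := Real.log_natCast_nonneg (qq w R l)
    have : 0 < GG (rr w R) (qq w R) (109 * ee R) := hG0
    positivity
  · have a1 : ∑ l ∈ ZZ w R, rr w R l ≤ 4 * Real.log (15 * Real.log R) :=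
      (sum_le_univ_sum_of_nonneg hr).trans (s5 hR2)
    have a2 : ∑ l ∈ ZZ w R, rr w R l * rr w R l ^ 2 ≤ eta (rr w R) := by
      refine le_trans (sum_le_sum fun l _ => ?_) (sum_le_univ_sum_of_nonneg fun _ => sq_nonneg _)
      refine mul_le_of_le_one_left (sq_nonneg _) ?_
      nlinarith [(s1 l).2, hr l]
    have a3 : ∑ l ∈ ZZ w R, rr w R l * (3 / 2 * VV w * Real.log (qq w R l) + C0 +
        rr w R l ^ 2 * GG (rr w R) (qq w R) (109 * ee R)) =
        3 / 2 * VV w * ∑ l ∈ ZZ w R, rr w R l * Real.log l.1 + C0 * ∑ l ∈ ZZ w R, rr w R l +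
        GA w R (109 * ee R) * ∑ l ∈ ZZ w R, rr w R l * rr w R l ^ 2 := by
      simp only [mul_sum, ← sum_add_distrib]
      exact sum_congr rfl fun l _ => by unfold GA qq; ring
    have a4 : eta (rr w R) ≤ 1 / 3500 := by nlinarith
    rw [a3]
    nlinarith [mul_le_mul_of_nonneg_left a1 hC0, mul_le_mul_of_nonneg_left (a2.trans a4) hG0.le,
      mul_le_mul_of_nonneg_left e6 hV.le]

open U3A in
theorem s_U32 (hE0 : StE0) (hE2 : StE2) (hE4 : StE4) (hSB : StSB) (hMU : StMU)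
    (hSi : StSi) (hBF : StBF) (hFS : StFS) (hTB : StTB2) (hEA : StEA) : StU32 := by
  intro J _ _ H δ ε A hδ hδ' hε
  obtain ⟨k, hk⟩ : ∃ k : ℝ, k = Fintype.card J + 1 := ⟨_, rfl⟩
  have hk1 : 1 ≤ k := hk ▸ le_add_of_nonneg_left (Nat.cast_nonneg _)
  have hη : 0 < Real.log (1 + ε) := Real.log_pos (by linarith)
  obtain ⟨A', hA'⟩ := hEA J δ A hδ hδ'
  have e1 := hTB J H δ (3 + 3 + 3 * 3) (6 + A') hδ hδ' (by norm_num)
  have e2 := Ew_of 2 fun w hw => ((hA' w hw).and ((tendsto_RR (by linarith : δ < 1 / 4)).eventually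
    (hFS (Real.log (1 + ε) / (2 * (k + 1))) w (by positivity) hw))).and ((hBF δ hδ hδ').and
      ((eventually_ge_atTop (2 * w)).and ((Real.tendsto_log_atTop.comp
        tendsto_natCast_atTop_atTop).eventually_ge_atTop 2)))
  have e3 := Ew_ge (2 + H + ⌈14 * k⌉₊ + ⌈168 * k ^ 2 / Real.log (1 + ε)⌉₊)
  refine ((e1.and e2).and e3).mono fun w N HH s i j hij hi hj C hC hLv => ?_
  obtain ⟨⟨hT, ⟨hE, -, hF⟩, ⟨-, -, -, -, b1, b2, b3⟩, hN, hlog⟩, hw⟩ := HH
  have hw2 : 2 ≤ w := by omega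
  have hw0 : (0 : ℝ) < w := by exact_mod_cast (by omega : 0 < w)
  have hw3 : 14 * k ≤ w := Nat.ceil_le.1 (by omega)
  have hw4 : 168 * k ^ 2 / Real.log (1 + ε) ≤ w := Nat.ceil_le.1 (by omega)
  have hE1 := hE.1 _ C hC
  have hE3 := hE.2
  obtain ⟨hC1, hC2, -⟩ := hC
  clear hE
  generalize RR δ N = R at *
  obtain ⟨s1, s2, s3, -⟩ := hSi w R hw2
  have hr : ∀ p, 0 ≤ rr w R p := fun p => (s1 p).1
  have hR : (0 : ℝ) < R := by exact_mod_cast (by omega : 0 < R)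
  have hL : 0 ≤ Real.log R := Real.log_natCast_nonneg R
  have hL2 : 0 ≤ Real.log (2 * N) := by
    rw [show (2 * N : ℝ) = (2 * N : ℕ) by push_cast; rfl]
    exact Real.log_natCast_nonneg _
  have hX := hE0 _ _ _ _ (fun l => l ≠ j) _ _ _ _ ((N : ℝ) ^ (1 / 2 - 3 * δ / 2))
    (Real.log N ^ (6 + A')) _ (hE2 _ _ _ (fun l => l ≠ j) _ _ _ _ _ _ _ _ s3 (by norm_num)
      (by norm_num) (hE4 _ _ _ _ i _ _ _ _ hij (hE3 _ hL))
      (hE0 _ _ _ _ _ _ _ _ _ _ _ _ hE1 le_rfl le_rfl (by norm_num) le_rfl fun l h => h.2))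
    (by rw [two_mul, Real.exp_add, Real.exp_log hR, ← sq]; exact b3) (pow_add _ _ _).ge
    (by norm_num) le_rfl fun _ h => h
  have h1 := (abs_le.1 (hT s j _ hj (fun o => by simp only [pr_el hi.1, inv_Psi _ hLv o])
    hX)).2
  have hG := (hSB _ (rr w R) (qq w R) _ hr hL).1
  have hQ : 0 ≤ QQ (rr w R) C := sum_nonneg fun σ _ => mul_nonneg
    (prod_nonneg fun p _ => by cases σ p <;> simp [hr]) (sq_nonneg _)
  have h2 : ∀ m ∈ IW N w (s.h j), fb w R m * Ex (om (rr w R) j (dv w R m)) (fun o =>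
      Sel (rr w R) (qq w R) (Real.log R) (pr i o) ^ 2 * Psi (rr w R) C o ^ 2) ≤
      (1 + ε) * QQ (rr w R) C / GA w R (Real.log R) * fb w R m := by
    intro m _
    by_cases h0 : fb w R m = 0
    · simp [h0]
    rw [mul_comm]
    refine mul_le_mul_of_nonneg_right ((hMU _ _ _ _ k _ j i _ C (by linarith) hk1
      (fun p => ⟨hr p, (mul_le_mul_of_nonneg_right hw3 (hr p)).trans (s1 p).2⟩) hij.symm hL
      (fun σ a p l e => (hC2 σ a p l e).symm) hC1).trans ?_) (fb_nonneg _ _ _)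
    refine div_le_div_of_nonneg_right (mul_le_mul_of_nonneg_right ?_ hQ) (by linarith)
    rw [← Real.le_log_iff_exp_le (by linarith)]
    have h3 := mul_le_mul_of_nonneg_left (hF m h0) (by linarith : 0 ≤ k + 1)
    have h4 := mul_le_mul_of_nonneg_left s2 (by positivity : 0 ≤ 42 * k ^ 2)
    have h5 : (k + 1) * (Real.log (1 + ε) / (2 * (k + 1))) = Real.log (1 + ε) / 2 := by field_simp
    have h6 : 42 * k ^ 2 * (2 / w) ≤ Real.log (1 + ε) / 2 := by
      rw [div_le_iff₀ hη] at hw4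
      rw [← mul_div_assoc, div_le_iff₀ hw0]
      linarith
    linarith
  have h3 := div_le_div_of_nonneg_right (sum_le_sum h2)
    (Nat.cast_nonneg (α := ℝ) (WW w).totient)
  rw [← mul_sum] at h3
  have h4 : ∑ n ∈ II N w s.b, th (n + s.h i) * (fb w R (n + s.h j) * s.P C n ^ 2) ≤
      Real.log (2 * N) * ∑ n ∈ II N w s.b, fb w R (n + s.h j) *
        (Sel (rr w R) (qq w R) (Real.log R) (pr i (s.st n)) ^ 2 *
          Psi (rr w R) C (s.st n) ^ 2) := by
    rw [mul_sum]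
    refine sum_le_sum fun n hn => ?_
    have h5 := mem_Ioc.1 (mem_filter.1 hn).1
    have h6 := hi.2.1
    refine (mul_le_mul_of_nonneg_right (th_le hSB (N := N) hr hL (by omega) (by omega))
      (mul_nonneg (fb_nonneg _ _ _) (sq_nonneg _))).trans_eq ?_
    rw [s.pr_st hi.1, SA, Sy.P]
    ring
  have h5 := mul_le_mul_of_nonneg_left ((sub_le_iff_le_add'.1 h1).trans (add_le_add h3 le_rfl)) hL2
  refine (h4.trans h5).trans ?_
  rw [mul_add]
  exact add_le_add (le_of_eq (by ring)) (er_le (by omega) hlog)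

end Pool.Agent.MP_43e117_nt.GP
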