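import Pool.Agent.Mg.F436a94p.Gc25967
import Pool.Agent.Mg.F436a94p.G66a334
import Pool.Agent.Mg.F436a94p.G6ed3b5
import Pool.Agent.Mg.F436a94p.Gf8978c
import Pool.Agent.Mg.F436a94p.G571033

set_option linter.all false

/-!
Assembly.
-/

namespace Pool.Agent.MP_43e117_nt.GP

open PG

theorem a_TR2 : StTR2 := s_TR2 s_EM s_CN

theorem a_TA2 : StTA2 := s_TA2 a_BV s_PNT s_Si s_BF a_TR2

theorem a_Pair2 : StPair2 :=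
  s_Pair2 s_SB s_Si s_BF a_Et a_GA (s_U12 s_E0 s_E2 s_E4 a_MU s_Si s_BF a_TA2 a_EA)
    (s_L12 s_E0 s_E2 s_E3 s_E4 a_ML s_Si s_BF a_Et a_TA2 a_EA)
    (s_U22 s_E0 s_E2 s_E3 s_E4 a_MG s_Si s_BF a_Et a_GI a_GA a_TA2 a_EA)
    (s_U32 s_E0 s_E2 s_E4 s_SB a_MU s_Si s_BF a_FS (s_TB2 a_BB s_BF a_TR2 a_FS) a_EA)
    (s_U4 s_E2 s_E3 s_E4 a_TM s_SB s_St s_Si s_BF a_Et a_GA a_T0 a_EA)
    (s_W1 s_SB s_Si a_Et a_PG a_PV) a_W2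
    (s_GM s_BF a_Et a_PG a_PV (s_GS s_PH (s_PC s_PNT)) (s_GT s_PH (s_CE s_Me)) s_GR)

theorem a_M2 : StM2 :=
  s_M2 s_RD s_BF a_GA (s_S02 s_MA a_GU s_Si (s_T02 s_Tau s_EM s_CN) a_EA)
    (s_S12 s_E0 s_MA a_GL s_Si a_TA2 a_EA) a_Pair2 (s_Ma2 s_RM s_YA s_YB s_Si s_BF a_GA) s_FI

theorem main : ∃ κ C : ℝ, κ < 1 ∧ ∀ S : Set ℕ,
    (∀ a d L : ℕ, 1 ≤ d →
      ({m ∈ Set.Icc 1 L | ¬ Pol S (2 * (a + d * m))}.ncard : ℝ) ≤ C * (L : ℝ) ^ κ) ∨ Gold S := by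
  obtain ⟨K, hK⟩ := s_A2 a_M2 s_Cl
  obtain ⟨κ, C, h1, h2⟩ := s_K2 K
  refine ⟨κ, C, h1, fun S => (hK S).imp_left fun h a d L hd => ?_⟩
  have h3 := h2 _ h a d 0 L hd
  rw [zero_add] at h3
  exact h3

end Pool.Agent.MP_43e117_nt.GP
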