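import Pool.Agent.Mg.F436a94p.G9089d4

set_option linter.all false

section

/-!
Typical `q` in the critical range.
-/

open Finset Filter Topology

namespace Pool.Agent.MP_971f68_nt

theorem nm_Ty (r : ℕ) (b : T ℤ) : nm (c3 r b) = ((nm b : ℤ) : ZMod r) := by
  simp [nm, c3]

theorem mul_Ty (r : ℕ) (a b : T ℤ) : c3 r (mul a b) = mul (c3 r a) (c3 r b) := by
  simp [mul, c3]

theorem box_Ty (k : ℕ) : (2 * ((150 * 2 ^ k : ℕ) : ℝ) + 1) ^ 3 ≤ 301 ^ 3 * 8 ^ k := by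
  have h : (1 : ℝ) ≤ 2 ^ k := one_le_pow₀ (by norm_num)
  have e : (8 : ℝ) ^ k = (2 ^ k) ^ 3 := by
    rw [← pow_mul, mul_comm k, pow_mul]
    norm_num
  rw [e, ← mul_pow]
  push_cast
  gcongr
  linarith

theorem div_Ty {p e m k : ℕ} (h1 : 8 ^ k ≤ e) (h2 : e ≤ 169 * m) :
    ((p / m + 1 : ℕ) : ℝ) ≤ 169 * p / 8 ^ k + 1 := by
  have a1 : (8 : ℝ) ^ k ≤ 169 * m := by exact_mod_cast h1.trans h2
  have a2 : ((p / m : ℕ) : ℝ) * m ≤ p := by exact_mod_cast Nat.div_mul_le_self p m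
  have a3 : (0 : ℝ) ≤ (p / m : ℕ) := Nat.cast_nonneg _
  rw [Nat.cast_succ, add_le_add_iff_right, le_div_iff₀ (by positivity)]
  nlinarith

theorem one_Ty (h1 : StCov) (h2 : StSv) (h3 : StL0) (h4 : StL1) (h5 : StL2) {ε : ℝ}
    {p z H k : ℕ} (hp : p.Prime) (hP : Par p z H) (hz : (z : ℝ) ≤ ε * p)
    (hk : p ^ 3 ≤ (8 ^ k) ^ 4) :
    CN p (fun q => Typ p z H q ∧ ∃ e, Bd ε p q e ∧ 8 ^ k ≤ e ∧ e < 8 ^ (k + 1)) ≤
      81 * 301 ^ 3 * (169 * p + 8 ^ k) / Real.exp (1.01 * LL p) := by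
  classical
  obtain ⟨z1, H1, z2, H2, s1, -⟩ := hP
  have zp : z < p := lt_of_lt_of_le (by
    simpa using Nat.pow_lt_pow_right (a := z) (by omega) (show 1 < 12 * H by omega)) z2
  have hPP : ∀ r ∈ PP z, r.Prime ∧ 13 < r ∧ r ≤ z := fun r hr => by
    simp only [PP, mem_filter, mem_Ioc] at hr
    tauto
  have hs := h2 (PP z) (Gd p) (fun r x => nm x = 0) K z H (150 * 2 ^ k) (Real.exp (1.01 * LL p))
    (fun r hr => by
      obtain ⟨r1, r2, r3⟩ := hPP r hr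
      have r4 : ¬ r ∣ p := fun h => by
        have := (Nat.prime_dvd_prime_iff_eq r1 hp).1 h
        omega
      refine ⟨r1, r3, by unfold K; split_ifs <;> norm_num, by unfold K; split_ifs <;> norm_num,
        (h3 p r r1).1, ?_, (h3 p r r1).2⟩
      unfold K
      split_ifs with h
      · exact_mod_cast h5 p r r1 (by omega) r4 h
      · have : r % 3 ≠ 0 := fun h0 => by
          have := (Nat.prime_dvd_prime_iff_eq Nat.prime_three r1).1 (Nat.dvd_of_mod_eq_zero h0)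
          omega
        exact_mod_cast h4 p r r1 (by omega) r4 (by omega)) z1 H1
    (by
      have a1 : (z ^ (3 * H)) ^ 12 ≤ (2 ^ k) ^ 12 := by
        calc (z ^ (3 * H)) ^ 12 = (z ^ (12 * H)) ^ 3 := by ring
          _ ≤ p ^ 3 := Nat.pow_le_pow_left z2 3
          _ ≤ (8 ^ k) ^ 4 := hk
          _ = (2 ^ k) ^ 12 := by
            rw [← pow_mul, ← pow_mul, mul_comm k, mul_comm k, pow_mul, pow_mul]
            norm_num
      have := (Nat.pow_le_pow_iff_left (by norm_num)).1 a1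
      omega) (by linarith) (Real.exp_pos _)
  rw [CN_eq]
  refine (h1 ε (169 * p / 8 ^ k + 1) p k _ _ hp (by omega) (by positivity)
    (fun q hq => (mem_filter.1 hq).2.2) (fun q hq l e b c l1 l2 l3 r hb => ?_)
    fun e a m e1 _ _ _ m3 => ?_).trans ((mul_le_mul_of_nonneg_right
      (mul_le_mul_of_nonneg_left hs (by norm_num)) (by positivity)).trans ?_)
  · obtain ⟨c0, c1, n1, -, a, a1, a2⟩ := r
    have hc : ∀ r ∈ PP z, (c : ZMod r) ≠ 0 ∧ (l : ZMod r) ≠ 0 := fun r hr => by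
      obtain ⟨r1, r2, r3⟩ := hPP r hr
      refine ⟨fun h => ?_, fun h => ?_⟩
      · have := Int.le_of_dvd (abs_pos.2 c0)
          ((dvd_abs _ _).2 ((ZMod.intCast_zmod_eq_zero_iff_dvd c r).1 h))
        omega
      · obtain rfl := (Nat.prime_dvd_prime_iff_eq r1 l1).1 ((ZMod.natCast_eq_zero_iff l r).1 h)
        have : (r : ℝ) ≤ z := by exact_mod_cast r3
        linarith
    have hiff : ∀ r ∈ PP z, nm (c3 r b) = 0 ↔ r ∣ F p q := fun r hr => by
      have := Fact.mk (hPP r hr).1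
      rw [nm_Ty, n1, ← ZMod.natCast_eq_zero_iff, l3]
      simp [(hc r hr).1, (hc r hr).2]
    have hf : ∀ inst : DecidablePred fun r => nm (c3 r b) = 0,
        @filter _ _ inst (PP z) = (PP z).filter fun r => r ∣ F p q := fun _ => by
      ext r
      simp only [mem_filter]
      exact and_congr_right (hiff r)
    refine (@mem_filter _ _ (_) _ _).2 ⟨hb, fun r hr h0 => ?_, ?_⟩
    · have := Fact.mk (hPP r hr).1
      refine ⟨q, c, c3 r a, (hc r hr).1, ?_, ?_, ?_⟩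
      · rw [nm_Ty, a1]
        simp [(hc r hr).1, (hc r hr).2]
      · have := (ZMod.natCast_eq_zero_iff _ r).2 ((hiff r hr).1 h0)
        simpa [F] using this
      · rw [← mul_Ty, ← mul_Ty, a2]
        simp [c3]
    · rw [hf]
      exact (mem_filter.1 hq).2.1
  · exact le_trans (by exact_mod_cast (card_filter_le _ _).trans (card_range _).le) (div_Ty e1 m3)
  · have := box_Ty k
    have e8 : (0 : ℝ) < 8 ^ k := by positivity
    calc _ ≤ 27 * (3 * (301 ^ 3 * 8 ^ k) / Real.exp (1.01 * LL p)) * (169 * p / 8 ^ k + 1) := by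
          gcongr
      _ = _ := by field_simp; ring

theorem rng_Ty {ε L : ℝ} {p q e k1 J : ℕ} (hε : 0 < ε) (p0 : (0 : ℝ) < p) (a6 : 1 ≤ L)
    (hk : (p : ℝ) < 8 ^ (k1 + 1) * L ^ 10) (hmin : ∀ k, (p : ℝ) < 8 ^ (k + 1) * L ^ 10 → k1 ≤ k)
    (J3 : 24 / ε ^ 2 * L ^ 10 ≤ 8 ^ J) (b : Bd ε p q e) (he : p < e * L ^ 10) :
    ∃ k ∈ (Ico k1 (k1 + J)).filter (fun k => (8 : ℝ) ^ k ≤ 3 / ε ^ 2 * p),
      8 ^ k ≤ e ∧ e < 8 ^ (k + 1) := by
  have e0 : e ≠ 0 := by
    rintro rfl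
    simp at he
    linarith
  have e1 := Nat.pow_log_le_self 8 e0
  have e2 := Nat.lt_pow_succ_log_self (b := 8) (by norm_num) e
  have e3 : (8 : ℝ) ^ Nat.log 8 e ≤ 3 / ε ^ 2 * p := by
    obtain ⟨-, q2, l, -, l2, l3⟩ := b
    have b1 : (e : ℝ) * l ^ 2 ≤ 3 * p ^ 3 := by
      have : e * l ^ 2 ≤ 3 * p ^ 3 := by
        have := Nat.pow_le_pow_left q2.le 3
        rw [← l3, F]
        omega
      exact_mod_cast this
    have b2 : (e : ℝ) * (ε * p) ^ 2 ≤ e * l ^ 2 := by gcongr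
    refine le_trans (b := (e : ℝ)) (by exact_mod_cast e1) (le_of_mul_le_mul_right (a := (ε * p) ^ 2) ?_
      (by positivity))
    refine (b2.trans b1).trans (le_of_eq ?_)
    field_simp
  refine ⟨_, mem_filter.2 ⟨mem_Ico.2 ⟨hmin _ ?_, ?_⟩, e3⟩, e1, e2⟩
  · refine he.trans_le (mul_le_mul_of_nonneg_right ?_ (by positivity))
    exact_mod_cast e2.le
  · by_contra h
    have b1 : (8 : ℝ) ^ (k1 + J) ≤ 8 ^ Nat.log 8 e :=
      pow_le_pow_right₀ (by norm_num) (not_lt.1 h)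
    have b2 : 3 / ε ^ 2 * p < 3 / ε ^ 2 * (8 ^ (k1 + 1) * L ^ 10) := by gcongr
    have b3 : (8 : ℝ) ^ k1 * (24 / ε ^ 2 * L ^ 10) ≤ 8 ^ k1 * 8 ^ J := by gcongr
    rw [pow_add] at b1
    rw [pow_succ _ k1] at b2
    have : 3 / ε ^ 2 * ((8 : ℝ) ^ k1 * 8 * L ^ 10) = 8 ^ k1 * (24 / ε ^ 2 * L ^ 10) := by ring
    linarith

theorem s_Ty (h1 : StCov) (h2 : StSv) (h3 : StL0) (h4 : StL1) (h5 : StL2) : StTy := by
  classical
  intro ε η hε hη
  obtain ⟨C, hC⟩ : ∃ C : ℝ, C = 81 * 301 ^ 3 * (169 + 3 / ε ^ 2) := ⟨_, rfl⟩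
  have C0 : 0 < C := by rw [hC]; positivity
  have t1 : Tendsto (fun p : ℕ => (p : ℝ)) atTop atTop := tendsto_natCast_atTop_atTop
  have t2 := ((Real.isLittleO_pow_log_id_atTop (n := 40)).comp_tendsto t1).bound
    (c := 1 / 8 ^ 4) (by positivity)
  filter_upwards [t1.eventually_ge_atTop (1 / ε ^ 2), t2, tendsto_LL.eventually_ge_atTop 1,
    tendsto_LL.eventually_ge_atTop (140000 * C / η),
    (Real.tendsto_log_atTop.comp t1).eventually_ge_atTop (24 / ε ^ 2),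
    (Real.tendsto_log_atTop.comp t1).eventually_ge_atTop 1] with p a1 a2 a3 a4 a5 a6 hp z H hP
  simp only [Function.comp, id, Real.norm_eq_abs] at a2 a5 a6
  have p0 : (0 : ℝ) < p := by exact_mod_cast hp.pos
  have eL : Real.exp (LL p) = Real.log p := Real.exp_log (by linarith)
  generalize Real.log p = L at *
  rw [abs_of_nonneg (by positivity), abs_of_pos p0] at a2
  have hz : (z : ℝ) ≤ ε * p := by
    have b1 : z ^ 2 ≤ p := le_trans (Nat.pow_le_pow_right (by have := hP.1; omega)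
      (by have := hP.2.1; omega)) hP.2.2.1
    have b2 : (z : ℝ) ^ 2 ≤ p := by exact_mod_cast b1
    rw [div_le_iff₀ (by positivity)] at a1
    exact le_of_pow_le_pow_left₀ (n := 2) (by norm_num) (by positivity) (by nlinarith)
  have hex : ∃ k : ℕ, (p : ℝ) < 8 ^ (k + 1) * L ^ 10 := by
    refine ⟨p, ?_⟩
    have b1 : (p : ℝ) < 8 ^ (p + 1) := by
      exact_mod_cast (Nat.lt_succ_self p).trans (Nat.lt_pow_self (by norm_num))
    exact b1.trans_le (le_mul_of_one_le_right (by positivity) (one_le_pow₀ a6))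
  obtain ⟨k1, hk, hmin⟩ : ∃ k1 : ℕ, (p : ℝ) < 8 ^ (k1 + 1) * L ^ 10 ∧
      ∀ k, (p : ℝ) < 8 ^ (k + 1) * L ^ 10 → k1 ≤ k :=
    ⟨Nat.find hex, Nat.find_spec hex, fun k h => Nat.find_min' hex h⟩
  obtain ⟨J, J1, J2⟩ : ∃ J : ℕ, 6 * LL p ≤ J ∧ (J : ℝ) ≤ 7 * LL p :=
    ⟨⌈6 * LL p⌉₊, Nat.le_ceil _, by
      have := Nat.ceil_lt_add_one (a := 6 * LL p) (by linarith)
      linarith⟩
  have J3 : 24 / ε ^ 2 * L ^ 10 ≤ 8 ^ J := by
    have b1 : Real.exp 2 ≤ 8 := by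
      have := Real.exp_one_lt_d9
      have := Real.exp_pos 1
      rw [show (2 : ℝ) = 1 + 1 by norm_num, Real.exp_add]
      nlinarith
    calc 24 / ε ^ 2 * L ^ 10 ≤ L * L ^ 10 := by gcongr
      _ = Real.exp ((11 : ℕ) * LL p) := by rw [Real.exp_nat_mul, eL]; ring
      _ ≤ Real.exp (J * 2) := Real.exp_le_exp.2 (by push_cast; linarith)
      _ ≤ 8 ^ J := by rw [Real.exp_nat_mul]; gcongr
  obtain ⟨Ks, hKs⟩ : ∃ Ks, Ks = (Ico k1 (k1 + J)).filter (fun k => (8 : ℝ) ^ k ≤ 3 / ε ^ 2 * p) :=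
    ⟨_, rfl⟩
  have c0 := CN_ex p Ks fun k q => Typ p z H q ∧ ∃ e, Bd ε p q e ∧ 8 ^ k ≤ e ∧ e < 8 ^ (k + 1)
  have c1 : CN p (fun q => Typ p z H q ∧ ∃ e : ℕ, Bd ε p q e ∧ p < e * L ^ 10) ≤ _ :=
    le_trans (CN_mono fun q _ _ ⟨t, e, b, he⟩ => by
      obtain ⟨k, k2, k3⟩ := rng_Ty hε p0 a6 hk hmin J3 b he
      exact ⟨k, hKs ▸ k2, t, e, b, k3⟩) c0
  have c2 := c1.trans (sum_le_card_nsmul _ _ (C * p / Real.exp (1.01 * LL p)) fun k hk' => by
    rw [hKs] at hk'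
    obtain ⟨k2, k3⟩ := mem_filter.1 hk'
    refine (one_Ty h1 h2 h3 h4 h5 hp hP hz ?_).trans ?_
    · have b1 : (p : ℝ) ≤ 8 ^ k * (8 * L ^ 10) := by
        have : (8 : ℝ) ^ (k1 + 1) ≤ 8 ^ (k + 1) :=
          pow_le_pow_right₀ (by norm_num) (by have := (mem_Ico.1 k2).1; omega)
        have : (8 : ℝ) ^ (k1 + 1) * L ^ 10 ≤ 8 ^ (k + 1) * L ^ 10 := by gcongr
        rw [pow_succ _ k] at this
        linarith
      have b2 : (p : ℝ) ^ 4 ≤ (8 ^ k * (8 * L ^ 10)) ^ 4 := by gcongr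
      have b3 : (8 * L ^ 10) ^ 4 ≤ p := by linarith
      have b4 : (p : ℝ) ^ 3 * p ≤ (8 ^ k) ^ 4 * p := by
        rw [mul_pow] at b2
        exact (le_of_eq (by ring)).trans (b2.trans (by gcongr))
      exact_mod_cast le_of_mul_le_mul_right b4 p0
    · refine div_le_div_of_nonneg_right ?_ (Real.exp_pos _).le
      rw [hC]
      linarith)
  have c3 : (Ks.card : ℝ) ≤ 7 * LL p :=
    le_trans (by rw [hKs]; exact_mod_cast (card_filter_le _ _).trans (by simp)) J2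
  rw [nsmul_eq_mul] at c2
  have c4 : 7 * LL p * C ≤ η * Real.exp (0.01 * LL p) := by
    have b1 := Real.quadratic_le_exp_of_nonneg (x := 0.01 * LL p) (by linarith)
    rw [div_le_iff₀ hη] at a4
    have b2 : η * ((0.01 * LL p) ^ 2 / 2) ≤ η * Real.exp (0.01 * LL p) := by
      gcongr
      linarith
    nlinarith
  calc _ ≤ L * (7 * LL p * (C * p / Real.exp (1.01 * LL p))) := by
        gcongr
        exact c2.trans (by gcongr)
    _ = 7 * LL p * C / Real.exp (0.01 * LL p) * p := by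
        rw [show 1.01 * LL p = LL p + 0.01 * LL p by ring, Real.exp_add, eL]
        field_simp
    _ ≤ η * p := by
        gcongr
        rwa [div_le_iff₀ (Real.exp_pos _)]

end Pool.Agent.MP_971f68_nt

end

section

/-!
Small cofactors: the square sieve.
-/

open Finset Filter Topology

namespace Pool.Agent.MP_971f68_nt

theorem om_S3 {e n : ℕ} (h0 : e ≠ 0) (h : e < 2 ^ n) : e.primeFactors.card ≤ n := by
  have h1 := (pow_card_le_prod (s := e.primeFactors) (f := fun p => p) (n := 2)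
    fun p hp => (Nat.prime_of_mem_primeFactors hp).two_le).trans
    (Nat.le_of_dvd (Nat.pos_of_ne_zero h0) (Nat.prod_primeFactors_dvd e))
  exact ((Nat.pow_lt_pow_iff_right (by norm_num)).1 (h1.trans_lt h)).le

theorem one_S3 (h1 : StCov) (h2 : StSq) {ε V : ℝ} {p k Q : ℕ} {R0 : Finset ℕ} (hp : p.Prime)
    (p2 : 2 < p) (hR : ∀ r ∈ R0, r.Prime ∧ r % 3 = 2 ∧ 2 < r ∧ r ≤ Q) (hQ : (Q : ℝ) ≤ ε * p)
    (V0 : 0 < V) (hV : V + (3 * k + 3) ≤ R0.card) :
    CN p (fun q => ∃ e, Bd ε p q e ∧ 8 ^ k ≤ e ∧ e < 8 ^ (k + 1)) ≤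
      27 * 301 ^ 3 * (169 * p / V + 8 ^ k * (1 / V + (Q : ℝ) ^ 2)) := by
  classical
  rw [CN_eq]
  refine (h1 ε ((169 * p / 8 ^ k + 1) / V + (Q : ℝ) ^ 2) p k _ (box (150 * 2 ^ k)) hp p2
    (by positivity) (fun q hq => (mem_filter.1 hq).2) (fun _ _ _ _ _ _ _ _ _ _ hb => hb)
    fun e a m e1 e2 _ m2 m3 => ?_).trans ?_
  · have e0 : e ≠ 0 := (lt_of_lt_of_le (by positivity) e1).ne'
    have b1 := om_S3 (n := 3 * k + 3) e0 (by
      rwa [show 3 * k + 3 = 3 * (k + 1) by ring, pow_mul])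
    have b2 := le_card_sdiff e.primeFactors R0
    have b3 : V ≤ (R0 \ e.primeFactors).card := by
      have : (R0.card : ℝ) ≤ (R0 \ e.primeFactors).card + (3 * k + 3) := by
        exact_mod_cast (by omega : R0.card ≤ (R0 \ e.primeFactors).card + (3 * k + 3))
      linarith
    have b4 : ∀ r ∈ R0 \ e.primeFactors, ¬ r ∣ e := fun r hr h => (mem_sdiff.1 hr).2
      (Nat.mem_primeFactors.2 ⟨(hR r (mem_sdiff.1 hr).1).1, h, e0⟩)
    have b5 := h2 p e m a (p / m + 1) Q (R0 \ e.primeFactors)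
      (card_pos.1 (by exact_mod_cast V0.trans_le b3)) fun r hr => by
        obtain ⟨r1, r2, r3, r4⟩ := hR r (mem_sdiff.1 hr).1
        exact ⟨r1, r2, r3, r4, b4 r hr, fun h => b4 r hr (h.trans m2)⟩
    refine le_trans (Nat.cast_le.2 (card_le_card fun x hx => ?_)) (b5.trans ?_)
    · obtain ⟨x1, -, -, l, l1, l2, l3⟩ := mem_filter.1 hx
      refine (@mem_filter _ _ (_) _ _).2 ⟨x1, l, fun r hr h => ?_, l3⟩
      obtain ⟨r1, -, -, r4⟩ := hR r (mem_sdiff.1 hr).1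
      obtain rfl := (Nat.prime_dvd_prime_iff_eq r1 l1).1 h
      have : (r : ℝ) ≤ Q := by exact_mod_cast r4
      linarith
    · have := div_Ty (p := p) e1 m3
      gcongr
  · rw [card_box]
    have := box_Ty k
    have e8 : (0 : ℝ) < 8 ^ k := by positivity
    calc _ ≤ 27 * (301 ^ 3 * 8 ^ k) * ((169 * p / 8 ^ k + 1) / V + (Q : ℝ) ^ 2) := by gcongr
      _ = _ := by field_simp; ring

theorem cnt_S3 (h3 : StAP) : ∀ᶠ Q : ℕ in atTop, (Q : ℝ) / 4 ≤ Real.log Q *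
    (((range (Q + 1)).filter fun r => r.Prime ∧ r % 3 = 2 ∧ 2 < r).card + 1) := by
  classical
  filter_upwards [h3 1, eventually_ge_atTop 81, (Real.tendsto_log_atTop.comp
    tendsto_natCast_atTop_atTop).eventually_ge_atTop 4] with Q ⟨E, E0, E1, E2⟩ a1 a2
  simp only [Function.comp] at a2
  have b1 := (abs_le.1 (E1 3 2 (by norm_num) a1 (by norm_num))).1
  have b2 := (single_le_sum (fun d _ => E0 d) (a := 3)
    (mem_filter.2 ⟨mem_Icc.2 ⟨by norm_num, by omega⟩, a1⟩)).trans E2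
  have b3 : (Q : ℝ) / Real.log Q ^ 1 ≤ Q / 4 := by
    rw [pow_one]
    gcongr
  have b4 := (TH_mono (X := Q) (A := fun q => q ≡ 2 [MOD 3])
    (B := fun q => q.Prime ∧ q % 3 = 2) fun q _ _ h h' => ⟨h, h'⟩).trans (TH_le_CN _ _)
  have b5 : CN Q (fun q => q.Prime ∧ q % 3 = 2) ≤
      ((range (Q + 1)).filter fun r => r.Prime ∧ r % 3 = 2 ∧ 2 < r).card + 1 := by
    rw [CN_eq]
    norm_cast
    refine le_trans (card_le_card fun q hq => ?_) (card_insert_le 2 _)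
    simp only [mem_filter, mem_Icc, mem_insert, mem_range] at hq ⊢
    have := hq.2.1.two_le
    by_cases h : q = 2
    · exact Or.inl h
    · exact Or.inr ⟨by omega, hq.2.1, hq.2.2, by omega⟩
  have b6 := mul_le_mul_of_nonneg_left b5 (Real.log_natCast_nonneg Q)
  rw [show Nat.totient 3 = 2 from rfl] at b1
  push_cast at b1
  linarith

theorem geo_S3 (n : ℕ) : ∑ k ∈ range (n + 1), (8 : ℝ) ^ k ≤ 2 * 8 ^ n := by
  induction n with
  | zero => simp
  | succ n ih =>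
    rw [sum_range_succ, pow_succ]
    have : (0 : ℝ) < 8 ^ n := by positivity
    linarith

theorem s_S3 (h1 : StCov) (h2 : StSq) (h3 : StAP) : StS3 := by
  intro ε η hε hη
  have t1 : Tendsto (fun p : ℕ => (p : ℝ)) atTop atTop := tendsto_natCast_atTop_atTop
  have t2 := Real.tendsto_log_atTop.comp t1
  have t3 : Tendsto (fun p : ℕ => ⌊Real.log p ^ 4⌋₊) atTop atTop :=
    tendsto_nat_floor_atTop.comp ((tendsto_pow_atTop (by norm_num)).comp t2)
  have t4 := ((Real.isLittleO_pow_log_id_atTop (n := 4)).comp_tendsto t1).bound hε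
  have t5 := (Real.isLittleO_log_id_atTop.comp_tendsto t2).bound (c := 1 / 100) (by norm_num)
  filter_upwards [t3.eventually (cnt_S3 h3), t4, t5, t2.eventually_ge_atTop 3,
    t2.eventually_ge_atTop (27 * 301 ^ 3 * 173 / η), eventually_gt_atTop 2]
    with p a1 a2 a3 a4 a5 a6 hp
  simp only [Function.comp, id, Real.norm_eq_abs] at a2 a3 a4 a5
  have p0 : (0 : ℝ) < p := by exact_mod_cast hp.pos
  have hk2 : ∀ k : ℕ, (8 : ℝ) ^ k ≤ p → 2 * (k : ℝ) ≤ Real.log p := fun k hk => by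
    have b1 := Real.log_le_log (by positivity) hk
    have b2 := Real.log_two_gt_d9
    rw [show (8 : ℝ) = 2 ^ 3 by norm_num, Real.log_pow, Real.log_pow] at b1
    push_cast at b1
    nlinarith [(Nat.cast_nonneg k : (0 : ℝ) ≤ k)]
  generalize Real.log p = L at *
  have L0 : 0 < L := by linarith
  have Q1 : (⌊L ^ 4⌋₊ : ℝ) ≤ L ^ 4 := Nat.floor_le (by positivity)
  have Q2 : L ^ 4 < ⌊L ^ 4⌋₊ + 1 := Nat.lt_floor_add_one _
  generalize ⌊L ^ 4⌋₊ = Q at *
  have L3 : 27 ≤ L ^ 3 := by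
    have : (3 : ℝ) ^ 3 ≤ L ^ 3 := by gcongr
    linarith
  have L4 : L ^ 4 = L * L ^ 3 := by ring
  rw [abs_of_pos p0, abs_of_nonneg (by positivity)] at a2
  rw [abs_of_pos L0] at a3
  obtain ⟨R0, hR0⟩ : ∃ R0, R0 = (range (Q + 1)).filter fun r => r.Prime ∧ r % 3 = 2 ∧ 2 < r :=
    ⟨_, rfl⟩
  rw [← hR0] at a1
  have hR : ∀ r ∈ R0, r.Prime ∧ r % 3 = 2 ∧ 2 < r ∧ r ≤ Q := fun r hr => by
    simp only [hR0, mem_filter, mem_range] at hr
    exact ⟨hr.2.1, hr.2.2.1, hr.2.2.2, by omega⟩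
  have hc : 2 * L ^ 3 ≤ R0.card := by
    have b1 : Real.log Q ≤ L / 25 := by
      have := Real.log_le_log (by nlinarith) Q1
      rw [Real.log_pow] at this
      push_cast at this
      linarith [le_abs_self (Real.log L)]
    have b2 := a1.trans (mul_le_mul_of_nonneg_right b1 (by positivity))
    refine le_of_mul_le_mul_left (a := L) ?_ L0
    nlinarith
  have hex : ∃ k : ℕ, (p : ℝ) < 8 ^ k * L ^ 10 := by
    refine ⟨p, ?_⟩
    have b1 : (p : ℝ) < 8 ^ p := by exact_mod_cast Nat.lt_pow_self (by norm_num)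
    exact b1.trans_le (le_mul_of_one_le_right (by positivity) (one_le_pow₀ (by linarith)))
  obtain ⟨n, hn, hmin⟩ : ∃ n : ℕ, (p : ℝ) < 8 ^ n * L ^ 10 ∧ ∀ k < n, 8 ^ k * L ^ 10 ≤ (p : ℝ) :=
    ⟨Nat.find hex, Nat.find_spec hex, fun k h => not_lt.1 (Nat.find_min hex h)⟩
  have hk3 : ∀ k < n, 2 * (k : ℝ) ≤ L := fun k hk => hk2 k
    ((le_mul_of_one_le_right (by positivity) (one_le_pow₀ (by linarith))).trans (hmin k hk))
  have c0 := CN_ex p (range n) fun k q => ∃ e, Bd ε p q e ∧ 8 ^ k ≤ e ∧ e < 8 ^ (k + 1)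
  have c1 : CN p (fun q => ∃ e : ℕ, Bd ε p q e ∧ e * L ^ 10 ≤ p) ≤ _ :=
    le_trans (CN_mono fun q _ _ ⟨e, b, he⟩ => by
      have e0 : e ≠ 0 := by
        rintro rfl
        obtain ⟨-, -, l, -, -, h⟩ := b
        simp [F] at h
        omega
      have e1 := Nat.pow_log_le_self 8 e0
      refine ⟨_, mem_range.2 (lt_of_not_ge fun h => ?_), e, b, e1,
        Nat.lt_pow_succ_log_self (by norm_num) e⟩
      have b1 : (8 : ℝ) ^ n ≤ e := by
        exact_mod_cast (Nat.pow_le_pow_right (by norm_num) h).trans e1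
      have : 8 ^ n * L ^ 10 ≤ e * L ^ 10 := by gcongr
      linarith) c0
  have c2 := c1.trans (sum_le_sum fun k hk => one_S3 (V := L ^ 3) h1 h2 hp a6 hR (Q1.trans a2)
    (by positivity) (by
      have := hk3 k (mem_range.1 hk)
      have : L * 3 ^ 2 ≤ L * L ^ 2 := by gcongr
      nlinarith))
  rw [← mul_sum, sum_add_distrib, ← sum_mul, sum_const, card_range, nsmul_eq_mul] at c2
  have c3 : (n : ℝ) ≤ L ∧ ∑ k ∈ range n, (8 : ℝ) ^ k ≤ 2 * p / L ^ 10 := by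
    rcases n with _ | n
    · simp [L0.le]
      positivity
    · have := hk3 n (Nat.lt_succ_self n)
      have b2 := hmin n (Nat.lt_succ_self n)
      refine ⟨by push_cast; linarith, (geo_S3 n).trans ?_⟩
      rw [le_div_iff₀ (by positivity)]
      linarith
  have c4 : 1 / L ^ 3 + (Q : ℝ) ^ 2 ≤ 2 * L ^ 8 := by
    have b1 : (Q : ℝ) ^ 2 ≤ (L ^ 4) ^ 2 := by gcongr
    have b2 : 1 / L ^ 3 ≤ 1 := (div_le_one (by positivity)).2 (by linarith)
    have b3 : 1 ≤ L ^ 8 := one_le_pow₀ (by linarith)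
    linarith [show (L ^ 4) ^ 2 = L ^ 8 by ring]
  calc _ ≤ L * (27 * 301 ^ 3 * (L * (169 * p / L ^ 3) + 2 * p / L ^ 10 * (2 * L ^ 8))) := by
        gcongr
        refine c2.trans ?_
        gcongr
        exacts [c3.1, c3.2]
    _ = 27 * 301 ^ 3 * 173 / L * p := by field_simp; ring
    _ ≤ η * p := by
        gcongr
        rw [div_le_iff₀ hη] at a5
        rw [div_le_iff₀ L0]
        linarith

end Pool.Agent.MP_971f68_nt

end
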