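import Mathlib
import Pool.Agent.MP_384f6f_nt.PI.Kum

set_option linter.all false

section

/-!
Squarefree values of `p ^ 3 + 2 * q ^ 3`: definitions and statements.
-/

open Finset Filter Topology

noncomputable section

namespace Pool.Agent.MP_971f68_nt

/-- the value -/
def F (p q : ℕ) : ℕ := p ^ 3 + 2 * q ^ 3

/-- `log n` on primes, zero elsewhere -/
def th (n : ℕ) : ℝ := if n.Prime then Real.log n else 0

open Classical in
/-- logarithmic mass of the primes up to `X` with property `A` -/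
def TH (X : ℕ) (A : ℕ → Prop) : ℝ := ∑ q ∈ (Icc 1 X).filter A, th q

open Classical in
/-- the number of integers in `[1, X]` with property `A` -/
def CN (X : ℕ) (A : ℕ → Prop) : ℝ := (((Icc 1 X).filter A).card : ℝ)

/-- roots of `F p` modulo `m` -/
def rho (p m : ℕ) : ℕ := ((range m).filter fun x => m ∣ F p x).card

/-- roots of `x ^ 3 + 2` modulo `m` -/
def rho0 (m : ℕ) : ℕ := ((range m).filter fun x => m ∣ x ^ 3 + 2).card

/-- truncated Euler product -/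
def Pr (D : ℕ) : ℝ :=
  ∏ l ∈ (range D).filter Nat.Prime, (1 - (rho0 (l ^ 2) : ℝ) / ((l : ℝ) * ((l : ℝ) - 1)))

/-- coordinates in the basis `1, θ, θ ^ 2`, where `θ ^ 3 = 2` -/
abbrev T (R : Type) : Type := R × R × R

/-- product -/
def mul {R : Type} [CommRing R] (a b : T R) : T R :=
  (a.1 * b.1 + 2 * a.2.1 * b.2.2 + 2 * a.2.2 * b.2.1,
    a.1 * b.2.1 + a.2.1 * b.1 + 2 * a.2.2 * b.2.2, a.1 * b.2.2 + a.2.1 * b.2.1 + a.2.2 * b.1)

/-- adjugate -/
def adj {R : Type} [CommRing R] (a : T R) : T R :=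
  (a.1 ^ 2 - 2 * a.2.1 * a.2.2, 2 * a.2.2 ^ 2 - a.1 * a.2.1, a.2.1 ^ 2 - a.1 * a.2.2)

/-- norm -/
def nm {R : Type} [CommRing R] (a : T R) : R :=
  a.1 ^ 3 + 2 * a.2.1 ^ 3 + 4 * a.2.2 ^ 3 - 6 * a.1 * a.2.1 * a.2.2

/-- reduction modulo `r` -/
def c3 (r : ℕ) (b : T ℤ) : T (ZMod r) := ((b.1 : ZMod r), (b.2.1 : ZMod r), (b.2.2 : ZMod r))

/-- the cube `[-B, B] ^ 3` -/
def box (B : ℕ) : Finset (T ℤ) := Icc (-(B : ℤ)) B ×ˢ Icc (-(B : ℤ)) B ×ˢ Icc (-(B : ℤ)) B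

/-- the local gain -/
def K (r : ℕ) : ℝ := if r % 3 = 2 then 2 else 4

/-- the sieving primes -/
def PP (z : ℕ) : Finset ℕ := (Ioc 13 z).filter Nat.Prime

/-- `log log` -/
def LL (X : ℕ) : ℝ := Real.log (Real.log X)

/-- the descent datum -/
def Rep (p q l e : ℕ) (b : T ℤ) (c : ℤ) : Prop :=
  c ≠ 0 ∧ |c| ≤ 13 ∧ nm b = e * c ^ 4 ∧
    (|b.1| ^ 3 ≤ 75 ^ 3 * e ∧ |b.2.1| ^ 3 ≤ 75 ^ 3 * e ∧ |b.2.2| ^ 3 ≤ 75 ^ 3 * e) ∧
    ∃ a : T ℤ, nm a = l * c ∧ mul b (mul a a) = (c ^ 2 * p, c ^ 2 * q, 0)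

/-- the local condition -/
def Gd (p r : ℕ) (b : T (ZMod r)) : Prop :=
  ∃ (x c : ZMod r) (a : T (ZMod r)), c ≠ 0 ∧ nm a ≠ 0 ∧ (p : ZMod r) ^ 3 + 2 * x ^ 3 = 0 ∧
    mul b (mul a a) = (c ^ 2 * p, c ^ 2 * x, 0)

/-- a large prime square divides the value, with cofactor `e` -/
def Bd (ε : ℝ) (p q e : ℕ) : Prop :=
  q.Prime ∧ q < p ∧ ∃ l : ℕ, l.Prime ∧ ε * p < l ∧ F p q = e * l ^ 2

/-- typical `q` -/
def Typ (p z H q : ℕ) : Prop :=
  ((PP z).filter fun r => r ∣ F p q).card < H ∧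
    Real.exp (1.01 * LL p) ≤ ∏ r ∈ (PP z).filter fun r => r ∣ F p q, K r

/-- admissible parameters -/
def Par (X z H : ℕ) : Prop :=
  60 ≤ z ∧ 1 ≤ H ∧ z ^ (12 * H) ≤ X ∧ 100 * LL X ≤ H ∧ ∑ r ∈ PP z, 1 / (r : ℝ) ≤ 2 * LL X ∧
    1.02 * LL X ≤ ∑ r ∈ PP z, Real.log (K r) * rho0 r / r

/-- natural density of a weight on the primes -/
def Dn (w : ℕ → ℝ) (d : ℝ) : Prop := Tendsto (fun x : ℝ =>
  (∑ p ∈ (Ioc 0 ⌊x⌋₊).filter Nat.Prime, w p * Real.log p) / x) atTop (𝓝 d)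

def StRep : Prop := ∀ p q l e : ℕ, l.Prime → ¬ l ∣ q → q ≤ p → F p q = e * l ^ 2 →
  ∃ b c, Rep p q l e b c

def StFib : Prop := ∀ (p X e : ℕ) (b : T ℤ) (c : ℤ) (G : Finset ℕ), 0 < e →
  (∀ q ∈ G, q ≤ X ∧ p.Coprime (2 * q) ∧ ∃ l, Rep p q l e b c) →
  ∃ a m : ℕ, 1 ≤ m ∧ m ∣ e ∧ e ≤ 169 * m ∧ ∀ q ∈ G, ∃ x < X / m + 1, q = a + m * x

open Classical in
def StCov : Prop := ∀ (ε W : ℝ) (p k : ℕ) (G : Finset ℕ) (A : Finset (T ℤ)),
  p.Prime → 2 < p → 0 ≤ W → (∀ q ∈ G, ∃ e, Bd ε p q e ∧ 8 ^ k ≤ e ∧ e < 8 ^ (k + 1)) →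
  (∀ q ∈ G, ∀ (l e : ℕ) (b : T ℤ) (c : ℤ), l.Prime → ε * p < l → F p q = e * l ^ 2 →
    Rep p q l e b c → b ∈ box (150 * 2 ^ k) → b ∈ A) →
  (∀ e a m : ℕ, 8 ^ k ≤ e → e < 8 ^ (k + 1) → 1 ≤ m → m ∣ e → e ≤ 169 * m →
    (((range (p / m + 1)).filter fun x => Bd ε p (a + m * x) e).card : ℝ) ≤ W) →
  (G.card : ℝ) ≤ 27 * A.card * W

def StL0 : Prop := ∀ p r : ℕ, r.Prime → (∀ b, Gd p r b → nm b = 0) ∧
  Nat.card {b : T (ZMod r) // nm b = 0} ≤ 3 * r ^ 2

def StL2 : Prop := ∀ p r : ℕ, r.Prime → 3 < r → ¬ r ∣ p → r % 3 = 2 →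
  2 * Nat.card {b // Gd p r b} ≤ Nat.card {b : T (ZMod r) // nm b = 0}

def StL1 : Prop := ∀ p r : ℕ, r.Prime → 3 < r → ¬ r ∣ p → r % 3 = 1 →
  4 * Nat.card {b // Gd p r b} ≤ Nat.card {b : T (ZMod r) // nm b = 0}

def StBox : Prop := ∀ (S : Finset ℕ) (φ : ∀ r : ℕ, T (ZMod r) → ℝ) (M : ℝ) (B : ℕ),
  (∀ r ∈ S, r.Prime) → 0 ≤ M → (∀ r ∈ S, ∀ x, |φ r x| ≤ M) →
  |∑ b ∈ box B, ∏ r ∈ S, φ r (c3 r b) -
      (2 * B + 1 : ℝ) ^ 3 * ∏ r ∈ S, (∑ᶠ x, φ r x) / (r : ℝ) ^ 3| ≤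
    6 * (2 * B + 1 : ℝ) ^ 2 * M ^ S.card * ∏ r ∈ S, (r : ℝ)

open Classical in
def StSv : Prop := ∀ (P : Finset ℕ) (S Z : ∀ r : ℕ, T (ZMod r) → Prop) (k : ℕ → ℝ)
  (z H B : ℕ) (t : ℝ),
  (∀ r ∈ P, r.Prime ∧ r ≤ z ∧ 0 ≤ k r ∧ k r ≤ 4 ∧ (∀ x, S r x → Z r x) ∧
    k r * Nat.card {x // S r x} ≤ Nat.card {x // Z r x} ∧ Nat.card {x // Z r x} ≤ 3 * r ^ 2) →
  60 ≤ z → 1 ≤ H → z ^ (3 * H) ≤ 2 * B + 1 → 41 * ∑ r ∈ P, 1 / (r : ℝ) ≤ H → 0 < t →
  (((box B).filter fun b => (∀ r ∈ P, Z r (c3 r b) → S r (c3 r b)) ∧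
      (P.filter fun r => Z r (c3 r b)).card < H ∧
      t ≤ ∏ r ∈ P.filter fun r => Z r (c3 r b), k r).card : ℝ) ≤ 3 * (2 * B + 1 : ℝ) ^ 3 / t

def StAP : Prop := ∀ A : ℕ, ∀ᶠ N : ℕ in atTop, ∃ E : ℕ → ℝ, (∀ d, 0 ≤ E d) ∧
  (∀ d a : ℕ, 1 ≤ d → d ^ 4 ≤ N → a.Coprime d →
    |TH N (fun q => q ≡ a [MOD d]) - N / d.totient| ≤ E d) ∧
  ∑ d ∈ (Icc 1 N).filter (fun d => d ^ 4 ≤ N), E d ≤ N / Real.log N ^ A

def StDv : Prop := ∀ A : ℕ, ∀ᶠ N : ℕ in atTop, ∃ E : ℕ → ℝ, (∀ d, 0 ≤ E d) ∧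
  (∀ d : ℕ, 1 ≤ d → d ^ 4 ≤ N → N.Coprime d →
    |TH N (fun q => d ∣ F N q) - rho N d * N / d.totient| ≤ rho N d * E d) ∧
  ∑ d ∈ (Icc 1 N).filter (fun d => d ^ 4 ≤ N), E d ≤ N / Real.log N ^ A

def StRho : Prop := (∀ p m n : ℕ, m.Coprime n → rho p (m * n) = rho p m * rho p n) ∧
  (∀ l : ℕ, l.Prime → rho0 l ≤ 3 ∧ rho0 (l ^ 2) ≤ 3) ∧ rho0 4 = 0 ∧ rho0 9 = 0 ∧
  ∀ p l : ℕ, p.Prime → l.Prime → l < p →
    rho p (l ^ 2) = rho0 (l ^ 2) ∧ (2 < l → rho p l = rho0 l)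

def StAb : Prop := ∀ (w : ℕ → ℝ) (d : ℝ), (∀ n, 0 ≤ w n) → Dn w d →
  (∀ d' < d, ∀ᶠ z : ℕ in atTop, d' * LL z ≤ ∑ r ∈ PP z, w r / r) ∧
  (∀ d' > d, ∀ᶠ z : ℕ in atTop, ∑ r ∈ PP z, w r / r ≤ d' * LL z)

def StSp : Prop := Dn (fun _ => 1) 1 ∧ ∃ (w : ℕ → ℝ) (d : ℝ), 1.035 < d ∧ (∀ n, 0 ≤ w n) ∧
  Dn w d ∧ ∀ r : ℕ, r.Prime → 13 < r → w r ≤ Real.log (K r) * rho0 r

def StPar : Prop := ∀ᶠ X : ℕ in atTop, ∃ z H : ℕ, Par X z H

def StTK : Prop := ∀ᶠ p : ℕ in atTop, p.Prime → ∀ (P : Finset ℕ) (a : ℕ → ℝ),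
  (∀ r ∈ P, r.Prime ∧ 2 < r ∧ r ^ 8 ≤ p ∧ 0 ≤ a r ∧ a r ≤ 2) →
  ∑ q ∈ Icc 1 p, th q * (∑ r ∈ P.filter (fun r => r ∣ F p q), a r -
      ∑ r ∈ P, a r * rho0 r / ((r : ℝ) - 1)) ^ 2 ≤ p * (24 * ∑ r ∈ P, 1 / (r : ℝ) + 1)

open Classical in
def StSq : Prop := ∀ (p e m a Y Q : ℕ) (R : Finset ℕ), R.Nonempty →
  (∀ r ∈ R, r.Prime ∧ r % 3 = 2 ∧ 2 < r ∧ r ≤ Q ∧ ¬ r ∣ e ∧ ¬ r ∣ m) →
  (((range Y).filter fun x => ∃ l : ℕ, (∀ r ∈ R, ¬ r ∣ l) ∧
      F p (a + m * x) = e * l ^ 2).card : ℝ) ≤ Y / R.card + (Q : ℝ) ^ 2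

def StS1 : Prop := ∀ D : ℕ, 5 ≤ D → ∀ᶠ p : ℕ in atTop, p.Prime →
  TH p (fun q => ∃ l : ℕ, l.Prime ∧ D ≤ l ∧ l ^ 8 ≤ p ∧ l ^ 2 ∣ F p q) ≤ 5 * p / D

def StS2 : Prop := ∀ ε : ℝ, 0 < ε → ε < 1 → ∀ᶠ p : ℕ in atTop, p.Prime →
  Real.log p * CN p (fun q => ∃ l : ℕ, l.Prime ∧ p < l ^ 8 ∧ l ≤ ε * p ∧ l ^ 2 ∣ F p q) ≤
    10 * ε * p

def StS3 : Prop := ∀ ε η : ℝ, 0 < ε → 0 < η → ∀ᶠ p : ℕ in atTop, p.Prime →
  Real.log p * CN p (fun q => ∃ e : ℕ, Bd ε p q e ∧ e * Real.log p ^ 10 ≤ p) ≤ η * p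

def StAt : Prop := ∀ η : ℝ, 0 < η → ∀ᶠ p : ℕ in atTop, p.Prime → ∀ z H : ℕ, Par p z H →
  TH p (fun q => ¬ Typ p z H q) ≤ η * p

def StTy : Prop := ∀ ε η : ℝ, 0 < ε → 0 < η → ∀ᶠ p : ℕ in atTop, p.Prime →
  ∀ z H : ℕ, Par p z H → Real.log p *
    CN p (fun q => Typ p z H q ∧ ∃ e : ℕ, Bd ε p q e ∧ p < e * Real.log p ^ 10) ≤ η * p

def StMn : Prop := ∀ (D : ℕ) (η : ℝ), 0 < η → ∀ᶠ p : ℕ in atTop, p.Prime →
  |TH p (fun q => ∀ l : ℕ, l.Prime → l < D → ¬ l ^ 2 ∣ F p q) - Pr D * p| ≤ η * p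

def StPr : Prop := ∃ c : ℝ, 0 < c ∧ Tendsto Pr atTop (𝓝 c)

def StFin : Prop := ∀ c : ℝ, (∀ η : ℝ, 0 < η → ∀ᶠ p : ℕ in atTop, p.Prime →
    |TH p (fun q => Squarefree (F p q)) - c * p| ≤ η * p) →
  Tendsto (fun n : ℕ => (((range n).filter fun k =>
    Squarefree (Nat.nth Nat.Prime n ^ 3 + 2 * Nat.nth Nat.Prime k ^ 3)).card : ℝ) / n) atTop (𝓝 c)

theorem th_nonneg (n : ℕ) : 0 ≤ th n := by
  unfold th
  split_ifs
  exacts [Real.log_natCast_nonneg n, le_rfl]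

theorem th_le {n X : ℕ} (h : n ≤ X) : th n ≤ Real.log X := by
  unfold th
  split_ifs with hn
  · exact Real.log_le_log (by exact_mod_cast hn.pos) (by exact_mod_cast h)
  · exact Real.log_natCast_nonneg X

theorem TH_eq (X : ℕ) (A : ℕ → Prop) [DecidablePred A] :
    TH X A = ∑ q ∈ (Icc 1 X).filter A, th q := by
  unfold TH
  congr

theorem TH_ite (X : ℕ) (A : ℕ → Prop) [DecidablePred A] :
    TH X A = ∑ q ∈ Icc 1 X, th q * if A q then 1 else 0 := by
  rw [TH_eq, sum_filter]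
  exact sum_congr rfl fun q _ => by split_ifs <;> simp

theorem CN_eq (X : ℕ) (A : ℕ → Prop) [DecidablePred A] :
    CN X A = (((Icc 1 X).filter A).card : ℝ) := by
  unfold CN
  congr

theorem TH_nonneg (X : ℕ) (A : ℕ → Prop) : 0 ≤ TH X A := sum_nonneg fun q _ => th_nonneg q

theorem TH_mono {X : ℕ} {A B : ℕ → Prop} (h : ∀ q, 1 ≤ q → q ≤ X → q.Prime → A q → B q) :
    TH X A ≤ TH X B := by
  classical
  rw [TH_ite, TH_ite]
  refine sum_le_sum fun q hq => ?_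
  by_cases hp : q.Prime
  · refine mul_le_mul_of_nonneg_left ?_ (th_nonneg q)
    have := h q (mem_Icc.1 hq).1 (mem_Icc.1 hq).2 hp
    split_ifs <;> first | (exfalso; tauto) | norm_num
  · simp [th, hp]

theorem TH_or (X : ℕ) (A B : ℕ → Prop) : TH X (fun q => A q ∨ B q) ≤ TH X A + TH X B := by
  classical
  rw [TH_ite, TH_ite, TH_ite, ← sum_add_distrib]
  refine sum_le_sum fun q _ => ?_
  rw [← mul_add]
  refine mul_le_mul_of_nonneg_left ?_ (th_nonneg q)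
  split_ifs <;> first | (exfalso; tauto) | norm_num

theorem TH_ex (X : ℕ) {ι : Type} (s : Finset ι) (A : ι → ℕ → Prop) :
    TH X (fun q => ∃ i ∈ s, A i q) ≤ ∑ i ∈ s, TH X (A i) := by
  classical
  simp only [TH_ite]
  rw [sum_comm]
  refine sum_le_sum fun q _ => ?_
  rw [← mul_sum]
  refine mul_le_mul_of_nonneg_left ?_ (th_nonneg q)
  split_ifs with h
  · obtain ⟨i, hi, h⟩ := h
    refine le_trans ?_ (single_le_sum (fun j _ => by split_ifs <;> norm_num) hi)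
    rw [if_pos h]
  · exact sum_nonneg fun j _ => by split_ifs <;> norm_num

theorem TH_le_CN (X : ℕ) (A : ℕ → Prop) : TH X A ≤ Real.log X * CN X A := by
  classical
  rw [TH_eq, CN_eq, mul_comm, ← nsmul_eq_mul]
  exact sum_le_card_nsmul _ _ _ fun q hq => th_le (mem_Icc.1 (mem_filter.1 hq).1).2

theorem CN_mono {X : ℕ} {A B : ℕ → Prop} (h : ∀ q, 1 ≤ q → q ≤ X → A q → B q) :
    CN X A ≤ CN X B := by
  classical
  rw [CN_eq, CN_eq, Nat.cast_le]
  refine card_le_card fun q hq => ?_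
  rw [mem_filter, mem_Icc] at *
  exact ⟨hq.1, h q hq.1.1 hq.1.2 hq.2⟩

theorem CN_ex (X : ℕ) {ι : Type} (s : Finset ι) (A : ι → ℕ → Prop) :
    CN X (fun q => ∃ i ∈ s, A i q) ≤ ∑ i ∈ s, CN X (A i) := by
  classical
  simp only [CN_eq]
  rw [← Nat.cast_sum, Nat.cast_le]
  refine le_trans (card_le_card fun q hq => ?_) card_biUnion_le
  obtain ⟨h1, i, hi, h⟩ := mem_filter.1 hq
  exact mem_biUnion.2 ⟨i, hi, mem_filter.2 ⟨h1, h⟩⟩

theorem card_box (B : ℕ) : ((box B).card : ℝ) = (2 * B + 1 : ℝ) ^ 3 := by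
  have : ((B : ℤ) + 1 - -(B : ℤ)).toNat = 2 * B + 1 := by omega
  simp only [box, card_product, Int.card_Icc, this]
  push_cast
  ring

theorem nm_mul {R : Type} [CommRing R] (a b : T R) : nm (mul a b) = nm a * nm b := by
  simp only [nm, mul]
  ring

theorem tendsto_LL : Tendsto LL atTop atTop :=
  Real.tendsto_log_atTop.comp (Real.tendsto_log_atTop.comp tendsto_natCast_atTop_atTop)

end Pool.Agent.MP_971f68_nt

end
end

section

/-! Abel summation: from a natural density on the primes to a sum of reciprocals. -/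

open Finset Filter Topology

namespace Pool.Agent.MP_971f68_nt

theorem ll_Ab {x : ℝ} (hx : 2 ≤ x) :
    Real.log (Real.log (x + 1)) - Real.log (Real.log x) ≤ 1 / (x * Real.log x) ∧
    1 / ((x + 1) * Real.log (x + 1)) ≤ Real.log (Real.log (x + 1)) - Real.log (Real.log x) ∧
    1 / ((x + 1) * Real.log (x + 1)) ≤ 1 / (x * Real.log x) := by
  have a : 0 < Real.log x := Real.log_pos (by linarith)
  have b : 0 < Real.log (x + 1) := Real.log_pos (by linarith)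
  have x0 : 0 < x := by linarith
  have c : Real.log (x + 1) - Real.log x ≤ 1 / x := by
    rw [← Real.log_div (by linarith) x0.ne']
    refine (Real.log_le_sub_one_of_pos (by positivity)).trans (le_of_eq ?_)
    field_simp
    ring
  have d : Real.log x - Real.log (x + 1) ≤ -(1 / (x + 1)) := by
    rw [← Real.log_div x0.ne' (by linarith)]
    refine (Real.log_le_sub_one_of_pos (by positivity)).trans (le_of_eq ?_)
    field_simp
    ring
  refine ⟨?_, ?_, ?_⟩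
  · rw [← Real.log_div b.ne' a.ne']
    refine (Real.log_le_sub_one_of_pos (by positivity)).trans ?_
    rw [div_sub_one a.ne', ← div_div]
    exact div_le_div_of_nonneg_right c a.le
  · have e : Real.log (Real.log x) - Real.log (Real.log (x + 1)) ≤
        -(1 / ((x + 1) * Real.log (x + 1))) := by
      rw [← Real.log_div a.ne' b.ne']
      refine (Real.log_le_sub_one_of_pos (by positivity)).trans ?_
      rw [div_sub_one b.ne', ← div_div, ← neg_div]
      exact div_le_div_of_nonneg_right d b.le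
    linarith
  · have : Real.log x ≤ Real.log (x + 1) := Real.log_le_log x0 (by linarith)
    gcongr
    linarith

theorem step_Ab (w : ℕ → ℝ) {n : ℕ} (hn : 13 ≤ n) : ∃ a : ℝ,
    ∑ p ∈ (Ioc 0 (n + 1)).filter Nat.Prime, w p * Real.log p =
      ∑ p ∈ (Ioc 0 n).filter Nat.Prime, w p * Real.log p + a ∧
    ∑ r ∈ PP (n + 1), w r / r =
      ∑ r ∈ PP n, w r / r + a * (1 / (((n : ℝ) + 1) * Real.log (n + 1))) := by
  refine ⟨if (n + 1).Prime then w (n + 1) * Real.log ((n + 1 : ℕ) : ℝ) else 0, ?_, ?_⟩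
  · rw [sum_filter, sum_filter, sum_Ioc_succ_top (by omega)]
  · unfold PP
    rw [sum_filter, sum_filter, sum_Ioc_succ_top hn]
    congr 1
    split_ifs
    · have : (13 : ℝ) ≤ n := by exact_mod_cast hn
      have b : 0 < Real.log ((n : ℝ) + 1) := Real.log_pos (by linarith)
      push_cast
      field_simp
    · simp

theorem s_Ab : StAb := by
  intro w d hw hd
  set A : ℕ → ℝ := fun n => ∑ p ∈ (Ioc 0 n).filter Nat.Prime, w p * Real.log p with hA
  set S : ℕ → ℝ := fun n => ∑ r ∈ PP n, w r / r with hS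
  have hd' : Tendsto (fun n : ℕ => A n / n) atTop (𝓝 d) := by
    have := hd.comp tendsto_natCast_atTop_atTop
    simpa [Function.comp_def, hA] using this
  have d0 : 0 ≤ d := ge_of_tendsto' hd' fun n => div_nonneg
    (sum_nonneg fun p _ => mul_nonneg (hw p) (Real.log_natCast_nonneg p)) (Nat.cast_nonneg n)
  have S0 : ∀ n, 0 ≤ S n := fun n => sum_nonneg fun p _ => div_nonneg (hw p) (Nat.cast_nonneg p)
  have g0 : ∀ n : ℕ, 0 ≤ 1 / ((n : ℝ) * Real.log n) := fun n =>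
    div_nonneg zero_le_one (mul_nonneg (Nat.cast_nonneg n) (Real.log_natCast_nonneg n))
  refine ⟨fun d' h => ?_, fun d' h => ?_⟩
  · rcases le_or_gt d' 0 with h0 | h0
    · filter_upwards [tendsto_LL.eventually_ge_atTop 0] with z hz
      exact (mul_nonpos_of_nonpos_of_nonneg h0 hz).trans (S0 z)
    set e := (d' + d) / 2 with he
    obtain ⟨m, hm⟩ := eventually_atTop.1
      ((hd'.eventually (lt_mem_nhds (show e < d by linarith))).and (eventually_ge_atTop 13))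
    have hA1 : ∀ n, m ≤ n → e * n ≤ A n := fun n hn => by
      have : (13 : ℝ) ≤ n := by exact_mod_cast (hm n hn).2
      exact ((lt_div_iff₀ (by linarith)).1 (hm n hn).1).le
    set P : ℕ → ℝ := fun n => S n - (A n - e * n) * (1 / (n * Real.log n)) -
      e * Real.log (Real.log (n + 1)) with hP
    have mono : ∀ n, m ≤ n → P m ≤ P n := fun n hn => by
      induction n, hn using Nat.le_induction with
      | base => exact le_rfl
      | succ n hn ih =>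
        refine ih.trans ?_
        have n2 : (13 : ℝ) ≤ n := by exact_mod_cast (hm n hn).2
        obtain ⟨a, h1, h2⟩ := step_Ab w (hm n hn).2
        have h3 := (ll_Ab (x := n) (by linarith)).2.2
        have h4 := (ll_Ab (x := n + 1) (by linarith)).1
        have h5 := hA1 n hn
        simp only [hP, hA, hS] at h5 ⊢
        rw [h1, h2]
        push_cast
        have e0 : 0 ≤ e := by linarith
        nlinarith [mul_nonneg (sub_nonneg.2 h5) (sub_nonneg.2 h3),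
          mul_nonneg e0 (sub_nonneg.2 h4)]
    filter_upwards [eventually_ge_atTop m,
      tendsto_LL.eventually_ge_atTop (-P m / (e - d'))] with z hz hl
    have h1 := mono z hz
    have n2 : (13 : ℝ) ≤ z := by exact_mod_cast (hm z hz).2
    have h2 : LL z ≤ Real.log (Real.log (z + 1)) :=
      Real.log_le_log (Real.log_pos (by linarith)) (Real.log_le_log (by linarith) (by linarith))
    rw [div_le_iff₀ (by linarith)] at hl
    have h3 := mul_nonneg (sub_nonneg.2 (hA1 z hz)) (g0 z)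
    have h4 := mul_le_mul_of_nonneg_left h2 (show 0 ≤ e by linarith)
    have h5 : P z = S z - (A z - e * z) * (1 / (z * Real.log z)) -
      e * Real.log (Real.log (z + 1)) := rfl
    change d' * LL z ≤ S z
    linarith
  · set e := (d' + d) / 2 with he
    obtain ⟨m, hm⟩ := eventually_atTop.1
      ((hd'.eventually (gt_mem_nhds (show d < e by linarith))).and (eventually_ge_atTop 13))
    have hA1 : ∀ n, m ≤ n → A n ≤ e * n := fun n hn => by
      have : (13 : ℝ) ≤ n := by exact_mod_cast (hm n hn).2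
      exact ((div_lt_iff₀ (by linarith)).1 (hm n hn).1).le
    set P : ℕ → ℝ := fun n => S n + (e * n - A n) * (1 / (n * Real.log n)) -
      e * Real.log (Real.log n) with hP
    have mono : ∀ n, m ≤ n → P n ≤ P m := fun n hn => by
      induction n, hn using Nat.le_induction with
      | base => exact le_rfl
      | succ n hn ih =>
        refine le_trans ?_ ih
        have n2 : (13 : ℝ) ≤ n := by exact_mod_cast (hm n hn).2
        obtain ⟨a, h1, h2⟩ := step_Ab w (hm n hn).2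
        obtain ⟨-, h4, h3⟩ := ll_Ab (x := n) (by linarith)
        have h5 := hA1 n hn
        simp only [hP, hA, hS] at h5 ⊢
        rw [h1, h2]
        push_cast
        have e0 : 0 ≤ e := by linarith
        nlinarith [mul_nonneg (sub_nonneg.2 h5) (sub_nonneg.2 h3),
          mul_nonneg e0 (sub_nonneg.2 h4)]
    filter_upwards [eventually_ge_atTop m,
      tendsto_LL.eventually_ge_atTop (P m / (d' - e))] with z hz hl
    have h1 := mono z hz
    rw [div_le_iff₀ (by linarith)] at hl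
    have h3 := mul_nonneg (sub_nonneg.2 (hA1 z hz)) (g0 z)
    have h5 : P z = S z + (e * z - A z) * (1 / (z * Real.log z)) - e * LL z := rfl
    change S z ≤ d' * LL z
    linarith

end Pool.Agent.MP_971f68_nt

end

section

/-!
Assembly of the estimates.
-/

open Finset Filter Topology

namespace Pool.Agent.MP_971f68_nt

theorem logp_Asm {η : ℝ} (hη : 0 < η) : ∀ᶠ p : ℕ in atTop, Real.log p ≤ η * p := by
  have h := (Real.isLittleO_log_id_atTop.comp_tendsto tendsto_natCast_atTop_atTop).bound hη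
  filter_upwards [h] with p hp
  simp only [Function.comp, id, Real.norm_eq_abs] at hp
  rw [abs_of_nonneg (Nat.cast_nonneg p : (0 : ℝ) ≤ p)] at hp
  exact (le_abs_self _).trans hp

theorem one_Asm (p : ℕ) : TH p (fun q => q = p) ≤ Real.log p := by
  rw [TH_eq]
  refine le_trans (sum_le_sum_of_subset_of_nonneg (t := {p}) (fun q hq => ?_)
    fun q _ _ => th_nonneg q) (by simpa using th_le le_rfl)
  simpa using (mem_filter.1 hq).2

theorem tail_Asm (h1 : StS1) (h2 : StS2) (h3 : StS3) (h4 : StAt) (h5 : StTy) (h6 : StPar)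
    {η : ℝ} (hη : 0 < η) (hη1 : η < 1) {D : ℕ} (hD : 5 ≤ D) :
    ∀ᶠ p : ℕ in atTop, p.Prime →
      TH p (fun q => ∃ l : ℕ, l.Prime ∧ D ≤ l ∧ l ^ 2 ∣ F p q) ≤ (5 / D + 14 * η) * p := by
  filter_upwards [h1 D hD, h2 η hη hη1, h3 η η hη hη, h4 η hη, h5 η η hη hη, h6, logp_Asm hη]
    with p a1 a2 a3 a4 a5 a6 a7 hp
  obtain ⟨z, H, hz⟩ := a6
  have b1 := a1 hp
  have b2 := (TH_le_CN _ _).trans (a2 hp)
  have b3 := (TH_le_CN _ _).trans (a3 hp)
  have b4 := a4 hp z H hz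
  have b5 := (TH_le_CN _ _).trans (a5 hp z H hz)
  have b6 := (one_Asm p).trans a7
  have c := TH_mono (X := p) (A := fun q => ∃ l : ℕ, l.Prime ∧ D ≤ l ∧ l ^ 2 ∣ F p q)
    (B := fun q => (∃ l : ℕ, l.Prime ∧ D ≤ l ∧ l ^ 8 ≤ p ∧ l ^ 2 ∣ F p q) ∨
      ((∃ l : ℕ, l.Prime ∧ p < l ^ 8 ∧ l ≤ η * p ∧ l ^ 2 ∣ F p q) ∨
      ((∃ e : ℕ, Bd η p q e ∧ e * Real.log p ^ 10 ≤ p) ∨ (¬ Typ p z H q ∨
      ((Typ p z H q ∧ ∃ e : ℕ, Bd η p q e ∧ p < e * Real.log p ^ 10) ∨ q = p))))) (by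
    rintro q - hq hq' ⟨l, hl, hl1, e, he⟩
    rcases le_or_gt (l ^ 8) p with d1 | d1
    · exact Or.inl ⟨l, hl, hl1, d1, e, he⟩
    rcases le_or_gt (l : ℝ) (η * p) with d2 | d2
    · exact Or.inr (Or.inl ⟨l, hl, d1, d2, e, he⟩)
    rcases hq.eq_or_lt with d3 | d3
    · simp [d3]
    have hb : Bd η p q e := ⟨hq', d3, l, hl, d2, he.trans (mul_comm _ _)⟩
    rcases le_or_gt ((e : ℝ) * Real.log p ^ 10) p with d4 | d4
    · exact Or.inr (Or.inr (Or.inl ⟨e, hb, d4⟩))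
    by_cases d5 : Typ p z H q
    · exact Or.inr (Or.inr (Or.inr (Or.inr (Or.inl ⟨d5, e, hb, d4⟩))))
    · exact Or.inr (Or.inr (Or.inr (Or.inl d5))))
  have e := c.trans ((TH_or _ _ _).trans (add_le_add b1 ((TH_or _ _ _).trans (add_le_add b2
    ((TH_or _ _ _).trans (add_le_add b3 ((TH_or _ _ _).trans (add_le_add b4
    ((TH_or _ _ _).trans (add_le_add b5 b6))))))))))
  refine e.trans (le_of_eq ?_)
  ring

theorem s_Asm (h1 : StS1) (h2 : StS2) (h3 : StS3) (h4 : StAt) (h5 : StTy) (h6 : StPar)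
    (h7 : StMn) {c : ℝ} (hc : Tendsto Pr atTop (𝓝 c)) (η : ℝ) (hη : 0 < η) :
    ∀ᶠ p : ℕ in atTop, p.Prime → |TH p (fun q => Squarefree (F p q)) - c * p| ≤ η * p := by
  set δ : ℝ := min (η / 20) (1 / 2) with hδ
  have δ0 : 0 < δ := lt_min (by linarith) (by norm_num)
  have δ1 : δ < 1 := (min_le_right _ _).trans_lt (by norm_num)
  have δ2 : δ ≤ η / 20 := min_le_left _ _
  have t5 : Tendsto (fun D : ℕ => (5 : ℝ) / D) atTop (𝓝 0) :=
    tendsto_const_nhds.div_atTop tendsto_natCast_atTop_atTop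
  obtain ⟨D, d1, d2, d3⟩ := ((eventually_ge_atTop 5).and ((t5.eventually (gt_mem_nhds δ0)).and
    (Metric.tendsto_nhds.1 hc δ δ0))).exists
  rw [Real.dist_eq, abs_lt] at d3
  filter_upwards [tail_Asm h1 h2 h3 h4 h5 h6 δ0 δ1 d1, h7 D δ δ0] with p a1 a2 hp
  have b1 := a1 hp
  have b2 := abs_le.1 (a2 hp)
  have c1 := TH_mono (X := p) (A := fun q => Squarefree (F p q))
    (B := fun q => ∀ l : ℕ, l.Prime → l < D → ¬ l ^ 2 ∣ F p q) fun q _ _ _ h l hl _ => by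
      rw [sq]
      exact Nat.squarefree_iff_prime_squarefree.1 h l hl
  have c2 := (TH_mono (X := p) (A := fun q => ∀ l : ℕ, l.Prime → l < D → ¬ l ^ 2 ∣ F p q)
    (B := fun q => Squarefree (F p q) ∨ ∃ l : ℕ, l.Prime ∧ D ≤ l ∧ l ^ 2 ∣ F p q)
    fun q _ _ _ h => by
      by_contra h'
      rw [not_or] at h'
      refine h'.1 (Nat.squarefree_iff_prime_squarefree.2 fun l hl h2 => ?_)
      rw [← sq] at h2
      exact h'.2 ⟨l, hl, not_lt.1 fun h3 => h l hl h3 h2, h2⟩).trans (TH_or _ _ _)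
  have p0 : (0 : ℝ) ≤ p := Nat.cast_nonneg p
  have e1 := mul_le_mul_of_nonneg_right d3.1.le p0
  have e2 := mul_le_mul_of_nonneg_right d3.2.le p0
  have e3 := mul_le_mul_of_nonneg_right d2.le p0
  have e4 := mul_le_mul_of_nonneg_right δ2 p0
  have e5 := mul_nonneg δ0.le p0
  rw [abs_le]
  constructor <;> nlinarith

end Pool.Agent.MP_971f68_nt

end

section

/-!
Fibres of the descent map.
-/

open Finset Filter Topology

namespace Pool.Agent.MP_971f68_nt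

theorem key_Cov {p q q' l l' e : ℕ} {b : T ℤ} {c : ℤ} (hc : p.Coprime (2 * q))
    (h : Rep p q l e b c) (h' : Rep p q' l' e b c) : (e : ℤ) ∣ c ^ 2 * (q - q') := by
  obtain ⟨c0, -, n1, -, a, -, ha⟩ := h
  obtain ⟨-, -, -, -, a', -, ha'⟩ := h'
  set u := mul a a
  set u' := mul a' a'
  have h1 : ∀ b u u' : T ℤ, ∀ P Q Q' : ℤ, mul b u = (P, Q, 0) → mul b u' = (P, Q', 0) →
      nm b ∣ (Q - Q') * (2 * Q ^ 2) ∧ nm b ∣ (Q - Q') * P ^ 2 := by
    rintro ⟨b1, b2, b3⟩ ⟨u1, u2, u3⟩ ⟨v1, v2, v3⟩ P Q Q' h h'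
    have k : mul (0, Q - Q', 0) (adj (P, Q, 0)) = mul (nm (b1, b2, b3), 0, 0)
        (mul (u1 - v1, u2 - v2, u3 - v3) (adj (u1, u2, u3))) := by
      have e : ((0, Q - Q', 0) : T ℤ) = mul (b1, b2, b3) (u1 - v1, u2 - v2, u3 - v3) := by
        simp only [mul, Prod.mk.injEq] at h h' ⊢
        exact ⟨by linarith [h.1, h'.1], by linarith [h.2.1, h'.2.1], by linarith [h.2.2, h'.2.2]⟩
      rw [e, ← h]
      simp only [mul, adj, nm, Prod.mk.injEq]
      refine ⟨by ring, by ring, by ring⟩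
    generalize mul (u1 - v1, u2 - v2, u3 - v3) (adj (u1, u2, u3)) = w at k
    simp only [mul, adj, Prod.mk.injEq] at k
    exact ⟨⟨w.1, by linear_combination k.1⟩, ⟨w.2.1, by linear_combination k.2.1⟩⟩
  obtain ⟨⟨i, hi⟩, ⟨j, hj⟩⟩ := h1 b u u' _ _ _ ha ha'
  rw [n1] at hi hj
  have c4 : c ^ 4 ≠ 0 := pow_ne_zero 4 c0
  have d1 : (e : ℤ) ∣ c ^ 2 * (q - q') * (2 * q) ^ 2 :=
    ⟨2 * i, mul_left_cancel₀ c4 (by linear_combination 2 * hi)⟩
  have d2 : (e : ℤ) ∣ c ^ 2 * (q - q') * (p : ℤ) ^ 2 :=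
    ⟨j, mul_left_cancel₀ c4 (by linear_combination hj)⟩
  have hc' : IsCoprime ((p : ℤ) ^ 2) ((2 * (q : ℤ)) ^ 2) :=
    (by exact_mod_cast Nat.isCoprime_iff_coprime.2 hc : IsCoprime (p : ℤ) (2 * (q : ℤ))).pow
  obtain ⟨x, y, hxy⟩ := hc'
  have := (d2.mul_left x).add (d1.mul_left y)
  rwa [show x * (c ^ 2 * (q - q') * (p : ℤ) ^ 2) + y * (c ^ 2 * (q - q') * (2 * q) ^ 2) =
    c ^ 2 * (q - q') by linear_combination (c ^ 2 * ((q : ℤ) - q')) * hxy] at this

theorem s_Fib : StFib := by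
  intro p X e b c G he hG
  rcases G.eq_empty_or_nonempty with rfl | ⟨q0, h0⟩
  · exact ⟨0, e, he, dvd_rfl, by omega, by simp⟩
  obtain ⟨-, c1, l0, r0⟩ := hG q0 h0
  set g := e.gcd (c.natAbs ^ 2) with hg
  have g0 : 0 < g := Nat.gcd_pos_of_pos_left _ he
  have c2 : c.natAbs ≤ 13 := by
    have := r0.2.1
    rw [← Int.natCast_natAbs] at this
    omega
  have c0 : 0 < c.natAbs := Int.natAbs_pos.2 r0.1
  have g1 : g ≤ 169 := (Nat.gcd_le_right _ (by positivity)).trans (by nlinarith)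
  obtain ⟨m, hm⟩ : g ∣ e := Nat.gcd_dvd_left _ _
  obtain ⟨n, hn⟩ : g ∣ c.natAbs ^ 2 := Nat.gcd_dvd_right _ _
  have m0 : 0 < m := Nat.pos_of_ne_zero fun h => by simp [h] at hm; omega
  have hco : m.Coprime n := by
    have := Nat.coprime_div_gcd_div_gcd (m := e) (n := c.natAbs ^ 2) g0
    rwa [← hg, hn, hm, Nat.mul_div_cancel_left _ g0, Nat.mul_div_cancel_left _ g0] at this
  refine ⟨q0 % m, m, m0, ⟨g, by rw [hm, mul_comm]⟩, by nlinarith, fun q hq => ?_⟩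
  obtain ⟨q1, -, l, r⟩ := hG q hq
  refine ⟨q / m, Nat.lt_succ_of_le (Nat.div_le_div_right q1), ?_⟩
  have k := key_Cov c1 r0 r
  have hn' : c ^ 2 = g * n := by
    rw [← Int.natAbs_sq]
    exact_mod_cast hn
  rw [hn', hm, Nat.cast_mul, mul_assoc] at k
  have k2 := (Nat.isCoprime_iff_coprime.2 hco).dvd_of_dvd_mul_left
    (Int.dvd_of_mul_dvd_mul_left (by exact_mod_cast g0.ne') k)
  have k3 : q ≡ q0 [MOD m] := Nat.modEq_iff_dvd.2 k2
  rw [← k3, Nat.mod_add_div]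

theorem s_Cov (h1 : StRep) (h2 : StFib) : StCov := by
  classical
  intro ε W p k G A hp h2p hW hG hA hf
  set Fb : T ℤ × ℤ → Finset ℕ := fun y => G.filter fun q => ∃ l e : ℕ, l.Prime ∧ ε * p < l ∧
    F p q = e * l ^ 2 ∧ 8 ^ k ≤ e ∧ e < 8 ^ (k + 1) ∧ Rep p q l e y.1 y.2 with hFb
  have hsub : G ⊆ (A ×ˢ Icc (-13 : ℤ) 13).biUnion Fb := by
    intro q hq
    obtain ⟨e, ⟨q1, q2, l, l1, l2, l3⟩, e1, e2⟩ := hG q hq
    have hl : ¬ l ∣ q := fun h => by
      obtain rfl := (Nat.prime_dvd_prime_iff_eq l1 q1).1 h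
      have : l ∣ p ^ 3 := (Nat.dvd_add_left (Dvd.intro_left (2 * l ^ 2) (by ring))).1
        (show l ∣ F p l from ⟨e * l, by rw [l3]; ring⟩)
      have := (Nat.prime_dvd_prime_iff_eq l1 hp).1 (l1.dvd_of_dvd_pow this)
      omega
    obtain ⟨b, c, r⟩ := h1 p q l e l1 hl q2.le l3
    have hb : ∀ x : ℤ, |x| ^ 3 ≤ 75 ^ 3 * e → x ∈ Icc (-((150 * 2 ^ k : ℕ) : ℤ)) (150 * 2 ^ k : ℕ) := by
      intro x hx
      rw [mem_Icc, ← abs_le]
      refine le_of_pow_le_pow_left₀ (n := 3) (by norm_num) (by positivity) (hx.trans ?_)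
      have : (e : ℤ) ≤ 8 ^ (k + 1) := by exact_mod_cast e2.le
      have e8 : (8 : ℤ) ^ (k + 1) = (2 ^ k) ^ 3 * 8 := by
        rw [pow_succ, ← pow_mul, mul_comm k, pow_mul]
        norm_num
      push_cast
      rw [mul_pow]
      linarith
    refine mem_biUnion.2 ⟨(b, c), mem_product.2 ⟨hA q hq l e b c l1 l2 l3 r ?_,
      mem_Icc.2 (abs_le.1 r.2.1)⟩, mem_filter.2 ⟨hq, l, e, l1, l2, l3, e1, e2, r⟩⟩
    exact mem_product.2 ⟨hb _ r.2.2.2.1.1, mem_product.2 ⟨hb _ r.2.2.2.1.2.1, hb _ r.2.2.2.1.2.2⟩⟩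
  have hfib : ∀ y, ((Fb y).card : ℝ) ≤ W := by
    intro y
    rcases (Fb y).eq_empty_or_nonempty with h | ⟨q0, h0⟩
    · simpa [h] using hW
    obtain ⟨-, l0, e, -, -, -, e1, e2, r0⟩ := mem_filter.1 h0
    have hall : ∀ q ∈ Fb y, Bd ε p q e ∧ ∃ l, Rep p q l e y.1 y.2 := by
      intro q hq
      obtain ⟨hq', l, e', l1, l2, l3, -, -, r⟩ := mem_filter.1 hq
      obtain ⟨_, ⟨q1, q2, -⟩, -⟩ := hG q hq'
      obtain rfl : e' = e := by
        exact_mod_cast mul_right_cancel₀ (pow_ne_zero 4 r.1) (r.2.2.1.symm.trans r0.2.2.1)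
      exact ⟨⟨q1, q2, l, l1, l2, l3⟩, l, r⟩
    obtain ⟨a, m, m1, m2, m3, m4⟩ := h2 p p e y.1 y.2 (Fb y) (lt_of_lt_of_le (by positivity) e1)
      fun q hq => by
        obtain ⟨⟨q1, q2, -⟩, r⟩ := hall q hq
        exact ⟨q2.le, Nat.Coprime.mul_right ((Nat.coprime_primes hp Nat.prime_two).2 h2p.ne')
          ((Nat.coprime_primes hp q1).2 q2.ne'), r⟩
    refine le_trans (Nat.cast_le.2 ?_) (hf e a m e1 e2 m1 m2 m3)
    refine le_trans (card_le_card fun q hq => ?_) (card_image_le (f := fun x => a + m * x))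
    obtain ⟨x, x1, rfl⟩ := m4 q hq
    exact mem_image.2 ⟨x, mem_filter.2 ⟨mem_range.2 x1, (hall _ hq).1⟩, rfl⟩
  have h3 : (G.card : ℝ) ≤ ∑ y ∈ A ×ˢ Icc (-13 : ℤ) 13, ((Fb y).card : ℝ) := by
    exact_mod_cast (card_le_card hsub).trans card_biUnion_le
  refine h3.trans ((sum_le_card_nsmul _ _ _ fun y _ => hfib y).trans (le_of_eq ?_))
  rw [card_product, Int.card_Icc, nsmul_eq_mul, show ((13 : ℤ) + 1 - -13).toNat = 27 from rfl]
  push_cast
  ring

end Pool.Agent.MP_971f68_nt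

end

section

open Finset Filter Topology

namespace Pool.Agent.MP_971f68_nt

theorem cnt_Fin (n : ℕ) (A : ℕ → Prop) [DecidablePred A] :
    TH (Nat.nth Nat.Prime n) A ≤ Real.log (Nat.nth Nat.Prime n) *
      ((((range n).filter fun k => A (Nat.nth Nat.Prime k)).card : ℝ) + 1) := by
  refine le_trans (TH_mono (B := fun q => q.Prime ∧ A q) fun q _ _ h1 h2 => ⟨h1, h2⟩)
    ((TH_le_CN _ _).trans (mul_le_mul_of_nonneg_left ?_ (Real.log_natCast_nonneg _)))
  rw [CN_eq]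
  have h1 : ((Icc 1 (Nat.nth Nat.Prime n)).filter fun q => q.Prime ∧ A q) ⊆
      insert (Nat.nth Nat.Prime n)
        (((range n).filter fun k => A (Nat.nth Nat.Prime k)).image (Nat.nth Nat.Prime)) := by
    intro q hq
    obtain ⟨b1, b2, b3⟩ := mem_filter.mp hq
    rcases (mem_Icc.mp b1).2.eq_or_lt with h | h
    · exact mem_insert.mpr (Or.inl h)
    · have b4 := Nat.nth_count b2
      refine mem_insert_of_mem (mem_image.mpr ⟨Nat.count Nat.Prime q, mem_filter.mpr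
        ⟨mem_range.mpr ?_, b4.symm ▸ b3⟩, b4⟩)
      rw [← b4] at h
      exact (Nat.nth_lt_nth Nat.infinite_setOfPred_prime).mp h
  exact_mod_cast (card_le_card h1).trans
    ((card_insert_le _ _).trans (Nat.succ_le_succ card_image_le))

theorem theta_Fin (X : ℕ) : TH X (fun _ => True) = Chebyshev.theta X := by
  rw [TH_eq, filter_true, Chebyshev.theta, Nat.floor_natCast, sum_filter]
  rfl

theorem lim_Fin {f : ℕ → ℝ} {c : ℝ}
    (h : ∀ η : ℝ, 0 < η → ∀ᶠ p : ℕ in atTop, p.Prime → |f p - c * p| ≤ η * p) :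
    Tendsto (fun n : ℕ => f (Nat.nth Nat.Prime n) / (Nat.nth Nat.Prime n : ℝ)) atTop (𝓝 c) := by
  have t0 : Tendsto (Nat.nth Nat.Prime) atTop atTop :=
    (Nat.nth_strictMono Nat.infinite_setOfPred_prime).tendsto_atTop
  rw [Metric.tendsto_nhds]
  intro η hη
  filter_upwards [t0.eventually (h (η / 2) (half_pos hη))] with n hn
  have h1 := hn (Nat.prime_nth_prime n)
  have h2 : (0 : ℝ) < Nat.nth Nat.Prime n := by exact_mod_cast (Nat.prime_nth_prime n).pos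
  rw [Real.dist_eq, div_sub' h2.ne', abs_div, abs_of_pos h2, div_lt_iff₀ h2, mul_comm _ c]
  nlinarith

theorem s_Fin (h : StAP) : StFin := by
  classical
  intro c hc
  have hlog : Tendsto (fun p : ℕ => Real.log p) atTop atTop :=
    Real.tendsto_log_atTop.comp tendsto_natCast_atTop_atTop
  have t0 : Tendsto (Nat.nth Nat.Prime) atTop atTop :=
    (Nat.nth_strictMono Nat.infinite_setOfPred_prime).tendsto_atTop
  have t0' : Tendsto (fun n => (Nat.nth Nat.Prime n : ℝ)) atTop atTop :=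
    tendsto_natCast_atTop_atTop.comp t0
  have hp : ∀ n, (1 : ℝ) < Nat.nth Nat.Prime n := fun n => by
    exact_mod_cast (Nat.prime_nth_prime n).one_lt
  have t1 := lim_Fin (f := fun p => TH p fun _ => True) (c := 1) fun η hη => by
    filter_upwards [h 1, hlog.eventually_ge_atTop (1 / η), eventually_ge_atTop 1,
      hlog.eventually_gt_atTop 0] with p ⟨E, e1, e2, e3⟩ h4 h5 h6 _
    have e4 := e2 1 0 le_rfl (by simpa using h5) (by simp)
    have e5 : E 1 ≤ p / Real.log p ^ 1 := le_trans (single_le_sum (fun d _ => e1 d)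
      (mem_filter.mpr ⟨mem_Icc.mpr ⟨le_rfl, h5⟩, by simpa using h5⟩)) e3
    simp only [Nat.modEq_one, Nat.totient_one, Nat.cast_one, div_one] at e4
    rw [one_mul]
    refine e4.trans (e5.trans ?_)
    rw [pow_one, div_le_iff₀ h6]
    rw [div_le_iff₀ hη] at h4
    nlinarith [(Nat.cast_nonneg p : (0 : ℝ) ≤ p)]
  have t2 := lim_Fin (f := fun p => TH p fun q => Squarefree (F p q)) hc
  have t3 : Tendsto (fun n => Real.log (Nat.nth Nat.Prime n) / (Nat.nth Nat.Prime n : ℝ)) atTop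
      (𝓝 0) := Real.isLittleO_log_id_atTop.tendsto_div_nhds_zero.comp t0'
  have t4 : Tendsto (fun x : ℝ => (Nat.primeCounting ⌊x⌋₊ : ℝ) * Real.log x / x -
      Chebyshev.theta x / x) atTop (𝓝 0) := by
    obtain ⟨C, hC⟩ := Chebyshev.primeCounting_sub_theta_div_log_isBigO.bound
    refine squeeze_zero_norm' ?_ (Real.tendsto_log_atTop.const_div_atTop C)
    filter_upwards [hC, eventually_gt_atTop 1] with x b1 b2
    have b3 := Real.log_pos b2
    have b4 : (Nat.primeCounting ⌊x⌋₊ : ℝ) * Real.log x / x - Chebyshev.theta x / x =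
        ((Nat.primeCounting ⌊x⌋₊ : ℝ) - Chebyshev.theta x / Real.log x) * (Real.log x / x) := by
      field_simp
    have b5 : 0 ≤ Real.log x / x := by positivity
    rw [b4, norm_mul, Real.norm_of_nonneg b5]
    refine (mul_le_mul_of_nonneg_right b1 b5).trans (le_of_eq ?_)
    rw [Real.norm_of_nonneg (by positivity)]
    field_simp
  have t5 : Tendsto (fun n : ℕ => (n : ℝ) * Real.log (Nat.nth Nat.Prime n) /
      (Nat.nth Nat.Prime n : ℝ)) atTop (𝓝 1) := by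
    have b1 := ((t4.comp t0').add t1).sub t3
    rw [zero_add, sub_zero] at b1
    refine b1.congr fun n => ?_
    have b2 : Nat.primeCounting (Nat.nth Nat.Prime n) = n + 1 := by
      rw [Nat.primeCounting, Nat.primeCounting', Nat.count_succ,
        Nat.count_nth_of_infinite Nat.infinite_setOfPred_prime, if_pos (Nat.prime_nth_prime n)]
    simp only [Function.comp, Nat.floor_natCast, theta_Fin, b2]
    push_cast
    ring
  have t6 : Tendsto (fun n : ℕ => (((range n).filter fun k =>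
      Squarefree (F (Nat.nth Nat.Prime n) (Nat.nth Nat.Prime k))).card : ℝ) *
      Real.log (Nat.nth Nat.Prime n) / (Nat.nth Nat.Prime n : ℝ)) atTop (𝓝 c) := by
    have b1 := t2.sub t3
    have b2 := ((t5.sub t1).add t2).add t3
    rw [sub_zero] at b1
    rw [sub_self, zero_add, add_zero] at b2
    refine tendsto_of_tendsto_of_tendsto_of_le_of_le b1 b2 (fun n => ?_) fun n => ?_
    · have b3 := cnt_Fin n fun q => Squarefree (F (Nat.nth Nat.Prime n) q)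
      dsimp only
      rw [← sub_div]
      exact div_le_div_of_nonneg_right (by linarith) (by linarith [hp n])
    · have b3 := cnt_Fin n fun q => ¬ Squarefree (F (Nat.nth Nat.Prime n) q)
      have b4 := card_filter_add_card_filter_not (s := range n) fun k =>
        Squarefree (F (Nat.nth Nat.Prime n) (Nat.nth Nat.Prime k))
      rw [card_range] at b4
      have b5 : (((range n).filter fun k =>
          ¬ Squarefree (F (Nat.nth Nat.Prime n) (Nat.nth Nat.Prime k))).card : ℝ) =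
          n - ((range n).filter fun k =>
            Squarefree (F (Nat.nth Nat.Prime n) (Nat.nth Nat.Prime k))).card := by
        rw [eq_sub_iff_add_eq, add_comm]
        exact_mod_cast b4
      have b6 := TH_or (Nat.nth Nat.Prime n) (fun q => Squarefree (F (Nat.nth Nat.Prime n) q))
        fun q => ¬ Squarefree (F (Nat.nth Nat.Prime n) q)
      have b7 : TH (Nat.nth Nat.Prime n) (fun _ => True) ≤ TH (Nat.nth Nat.Prime n)
          fun q => Squarefree (F (Nat.nth Nat.Prime n) q) ∨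
            ¬ Squarefree (F (Nat.nth Nat.Prime n) q) := TH_mono fun q _ _ _ _ => em _
      rw [b5] at b3
      dsimp only
      rw [← sub_div, ← add_div, ← add_div]
      exact div_le_div_of_nonneg_right (by linarith) (by linarith [hp n])
  have t7 := t6.div t5 one_ne_zero
  rw [div_one] at t7
  refine t7.congr fun n => ?_
  have b1 := (Real.log_pos (hp n)).ne'
  have b2 : (Nat.nth Nat.Prime n : ℝ) ≠ 0 := by linarith [hp n]
  simp only [Pi.div_apply]
  rw [div_div_div_cancel_right₀ b2, mul_div_mul_right _ _ b1]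
  rfl

end Pool.Agent.MP_971f68_nt

end

section

open Finset Filter Topology

namespace Pool.Agent.MP_971f68_nt

/-- local density -/
noncomputable def g_Mn (l : ℕ) : ℝ := (rho0 (l ^ 2) : ℝ) / ((l : ℝ) * ((l : ℝ) - 1))

theorem split_Mn (X : ℕ) (A B : ℕ → Prop) :
    TH X (fun q => A q ∧ ¬ B q) = TH X A - TH X (fun q => A q ∧ B q) := by
  classical
  rw [TH_ite, TH_ite, TH_ite, ← sum_sub_distrib]
  refine sum_congr rfl fun q _ => ?_
  by_cases h1 : A q <;> by_cases h2 : B q <;> simp [h1, h2]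

theorem prod_Mn (h2 : StRho) {p : ℕ} (hp : p.Prime) (U : Finset ℕ)
    (hU : ∀ l ∈ U, l.Prime ∧ l < p) :
    rho p (∏ l ∈ U, l ^ 2) = ∏ l ∈ U, rho0 (l ^ 2) ∧
      ((∏ l ∈ U, l ^ 2).totient : ℝ) = ∏ l ∈ U, ((l : ℝ) * ((l : ℝ) - 1)) := by
  induction U using Finset.induction_on with
  | empty => simp [rho]
  | insert a U ha ih =>
    obtain ⟨i1, i2⟩ := ih fun l hl => hU l (mem_insert_of_mem hl)
    obtain ⟨a1, a2⟩ := hU a (mem_insert_self a U)
    have hc : (a ^ 2).Coprime (∏ l ∈ U, l ^ 2) :=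
      Nat.Coprime.prod_right fun l hl => Nat.Coprime.pow _ _
        ((Nat.coprime_primes a1 (hU l (mem_insert_of_mem hl)).1).mpr (by rintro rfl; exact ha hl))
    rw [prod_insert ha, prod_insert ha, prod_insert ha, h2.1 p _ _ hc, Nat.totient_mul hc, i1,
      Nat.cast_mul, i2, (h2.2.2.2.2 p a hp a1 a2).1, Nat.totient_prime_pow a1 two_pos]
    refine ⟨rfl, ?_⟩
    rw [Nat.cast_mul, Nat.cast_sub a1.one_le]
    simp

theorem base_Mn (h1 : StDv) (h2 : StRho) (U : Finset ℕ) (hU : ∀ l ∈ U, l.Prime) (η : ℝ)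
    (hη : 0 < η) : ∀ᶠ p : ℕ in atTop, p.Prime →
      |TH p (fun q => ∀ l ∈ U, l ^ 2 ∣ F p q) - (∏ l ∈ U, g_Mn l) * p| ≤ η * p := by
  have hlog : Tendsto (fun p : ℕ => Real.log p) atTop atTop :=
    Real.tendsto_log_atTop.comp tendsto_natCast_atTop_atTop
  have hd : 1 ≤ ∏ l ∈ U, l ^ 2 := prod_pos fun l hl => pow_pos (hU l hl).pos 2
  filter_upwards [h1 1, eventually_ge_atTop ((∏ l ∈ U, l ^ 2) ^ 4), eventually_gt_atTop (U.sup id),
    hlog.eventually_ge_atTop (((∏ l ∈ U, rho0 (l ^ 2) : ℕ) : ℝ) / η),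
    hlog.eventually_gt_atTop 0] with p ⟨E, e1, e2, e3⟩ h4 h5 h6 h7 hp
  have hlt : ∀ l ∈ U, l.Prime ∧ l < p := fun l hl => ⟨hU l hl, lt_of_le_of_lt (le_sup (f := id) hl) h5⟩
  obtain ⟨i1, i2⟩ := prod_Mn h2 hp U hlt
  have hc : p.Coprime (∏ l ∈ U, l ^ 2) := Nat.Coprime.prod_right fun l hl =>
    Nat.Coprime.pow_right _ ((Nat.coprime_primes hp (hU l hl)).mpr (hlt l hl).2.ne')
  have e4 := e2 _ hd h4 hc
  have e5 : E (∏ l ∈ U, l ^ 2) ≤ p / Real.log p ^ 1 := by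
    refine le_trans (single_le_sum (fun d _ => e1 d) (mem_filter.mpr ⟨mem_Icc.mpr ⟨hd, ?_⟩, h4⟩)) e3
    exact le_trans (Nat.le_self_pow (by norm_num) _) h4
  have e6 : (fun q => ∀ l ∈ U, l ^ 2 ∣ F p q) = fun q => (∏ l ∈ U, l ^ 2) ∣ F p q := by
    funext q
    refine propext ⟨fun h => Finset.prod_dvd_of_isRelPrime (fun a ha b hb hab => ?_) h,
      fun h l hl => (dvd_prod_of_mem (fun l => l ^ 2) hl).trans h⟩
    exact Nat.coprime_iff_isRelPrime.mp (Nat.Coprime.pow _ _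
      ((Nat.coprime_primes (hU a ha) (hU b hb)).mpr hab))
  have e7 : (∏ l ∈ U, g_Mn l) * p =
      rho p (∏ l ∈ U, l ^ 2) * p / ((∏ l ∈ U, l ^ 2).totient : ℝ) := by
    unfold g_Mn
    rw [prod_div_distrib, i1, i2, Nat.cast_prod]
    ring
  rw [e6, e7]
  refine e4.trans ?_
  rw [i1]
  rw [div_le_iff₀ hη] at h6
  rw [pow_one] at e5
  calc _ ≤ Real.log p * η * (p / Real.log p) :=
        mul_le_mul h6 e5 (e1 _) (by positivity)
    _ = η * p := by field_simp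

theorem ind_Mn (h1 : StDv) (h2 : StRho) (S : Finset ℕ) : (∀ l ∈ S, l.Prime) →
    ∀ U : Finset ℕ, (∀ l ∈ U, l.Prime) → Disjoint S U → ∀ η : ℝ, 0 < η →
      ∀ᶠ p : ℕ in atTop, p.Prime →
      |TH p (fun q => (∀ l ∈ U, l ^ 2 ∣ F p q) ∧ ∀ l ∈ S, ¬ l ^ 2 ∣ F p q) -
        (∏ l ∈ U, g_Mn l) * (∏ l ∈ S, (1 - g_Mn l)) * p| ≤ η * p := by
  induction S using Finset.induction_on with
  | empty =>
    intro _ U hU _ η hη
    simpa using base_Mn h1 h2 U hU η hη
  | insert a S ha ih =>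
    intro hS U hU hd η hη
    have hS' : ∀ l ∈ S, l.Prime := fun l hl => hS l (mem_insert_of_mem hl)
    obtain ⟨haU, hd'⟩ := disjoint_insert_left.mp hd
    filter_upwards [ih hS' U hU hd' (η / 2) (half_pos hη),
      ih hS' (insert a U) (fun l hl => (mem_insert.mp hl).elim
        (fun h => h ▸ hS a (mem_insert_self a S)) (hU l))
        (disjoint_insert_right.mpr ⟨ha, hd'⟩) (η / 2) (half_pos hη)] with p e1 e2 hp
    have e3 := e1 hp
    have e4 := e2 hp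
    have e5 : (fun q => (∀ l ∈ U, l ^ 2 ∣ F p q) ∧ ∀ l ∈ insert a S, ¬ l ^ 2 ∣ F p q) =
        fun q => ((∀ l ∈ U, l ^ 2 ∣ F p q) ∧ ∀ l ∈ S, ¬ l ^ 2 ∣ F p q) ∧ ¬ a ^ 2 ∣ F p q := by
      funext q
      rw [forall_mem_insert]
      exact propext (by tauto)
    have e6 : (fun q => (∀ l ∈ insert a U, l ^ 2 ∣ F p q) ∧ ∀ l ∈ S, ¬ l ^ 2 ∣ F p q) =
        fun q => ((∀ l ∈ U, l ^ 2 ∣ F p q) ∧ ∀ l ∈ S, ¬ l ^ 2 ∣ F p q) ∧ a ^ 2 ∣ F p q := by
      funext q
      rw [forall_mem_insert]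
      exact propext (by tauto)
    rw [e6, prod_insert haU] at e4
    rw [e5, split_Mn, prod_insert ha]
    rw [abs_le] at e3 e4 ⊢
    constructor <;> nlinarith [e3.1, e3.2, e4.1, e4.2]

theorem s_Mn (h1 : StDv) (h2 : StRho) : StMn := by
  intro D η hη
  filter_upwards [ind_Mn h1 h2 ((range D).filter Nat.Prime) (fun l hl => (mem_filter.mp hl).2) ∅
    (fun l hl => absurd hl (notMem_empty l)) (disjoint_empty_right _) η hη] with p e1 hp
  have e2 := e1 hp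
  have e3 : (fun q => ∀ l : ℕ, l.Prime → l < D → ¬ l ^ 2 ∣ F p q) =
      fun q => (∀ l ∈ (∅ : Finset ℕ), l ^ 2 ∣ F p q) ∧
        ∀ l ∈ (range D).filter Nat.Prime, ¬ l ^ 2 ∣ F p q := by
    funext q
    simp only [notMem_empty, false_imp_iff, implies_true, true_and, mem_filter, mem_range]
    exact propext ⟨fun h l hl => h l hl.2 hl.1, fun h l a b => h l ⟨b, a⟩⟩
  rw [prod_empty, one_mul] at e2
  rw [e3]
  exact e2

theorem step_Mn (h2 : StRho) (D : ℕ) : ∃ u : ℝ, Pr (D + 1) = Pr D * (1 - u) ∧ 0 ≤ u ∧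
    (D < 5 → u = 0) ∧ (5 ≤ D → u ≤ 3 / ((D : ℝ) * ((D : ℝ) - 1))) := by
  by_cases hD : D.Prime
  · have h3 : (2 : ℝ) ≤ D := by exact_mod_cast hD.two_le
    have h4 : (0 : ℝ) < (D : ℝ) * ((D : ℝ) - 1) := mul_pos (by linarith) (by linarith)
    refine ⟨g_Mn D, ?_, div_nonneg (Nat.cast_nonneg _) h4.le, fun h => ?_, fun _ => ?_⟩
    · unfold Pr
      rw [range_add_one, filter_insert, if_pos hD, prod_insert (by simp), mul_comm]
      rfl
    · have h5 := hD.two_le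
      unfold g_Mn
      interval_cases D
      · rw [show 2 ^ 2 = 4 by norm_num, h2.2.2.1]
        simp
      · rw [show 3 ^ 2 = 9 by norm_num, h2.2.2.2.1]
        simp
      · exact absurd hD (by norm_num)
    · exact div_le_div_of_nonneg_right (by exact_mod_cast (h2.2.1 D hD).2) h4.le
  · refine ⟨0, ?_, le_rfl, fun _ => rfl, fun h => ?_⟩
    · unfold Pr
      rw [range_add_one, filter_insert, if_neg hD, sub_zero, mul_one]
    · have h3 : (5 : ℝ) ≤ D := by exact_mod_cast h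
      exact div_nonneg (by norm_num) (mul_nonneg (by linarith) (by linarith))

theorem s_Pr (h2 : StRho) : StPr := by
  have h0 : ∀ D, D ≤ 5 → Pr D = 1 := by
    intro D
    induction D with
    | zero => intro _; simp [Pr]
    | succ D ih =>
      intro h
      obtain ⟨u, e1, -, e2, -⟩ := step_Mn h2 D
      rw [e1, e2 (by omega), ih (by omega)]
      norm_num
  have h1 : ∀ D : ℕ, 5 ≤ D → 1 / 4 + 3 / ((D : ℝ) - 1) ≤ Pr D ∧ Pr D ≤ 1 := by
    intro D hD
    induction D, hD using Nat.le_induction with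
    | base =>
      rw [h0 5 le_rfl]
      norm_num
    | succ D hD ih =>
      obtain ⟨u, e1, e2, -, e3⟩ := step_Mn h2 D
      have h3 : (5 : ℝ) ≤ D := by exact_mod_cast hD
      have e4 := e3 hD
      have e5 : 3 / ((D : ℝ) * ((D : ℝ) - 1)) = 3 / ((D : ℝ) - 1) - 3 / D := by
        have : (D : ℝ) - 1 ≠ 0 := by linarith
        field_simp
        ring
      have e6 : (0 : ℝ) ≤ 3 / ((D : ℝ) - 1) := div_nonneg (by norm_num) (by linarith)
      rw [e1]
      push_cast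
      rw [add_sub_cancel_right]
      constructor <;> nlinarith [ih.1, ih.2]
  have h3 : ∀ D, 1 / 4 ≤ Pr D := by
    intro D
    rcases le_total D 5 with h | h
    · rw [h0 D h]
      norm_num
    · have h4 : (5 : ℝ) ≤ D := by exact_mod_cast h
      have e6 : (0 : ℝ) ≤ 3 / ((D : ℝ) - 1) := div_nonneg (by norm_num) (by linarith)
      linarith [(h1 D h).1]
  have h4 : Antitone Pr := antitone_nat_of_succ_le fun D => by
    obtain ⟨u, e1, e2, -, -⟩ := step_Mn h2 D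
    rw [e1]
    nlinarith [h3 D]
  have h5 : BddBelow (Set.range Pr) := ⟨1 / 4, by rintro _ ⟨D, rfl⟩; exact h3 D⟩
  exact ⟨⨅ D, Pr D, lt_of_lt_of_le (by norm_num) (le_ciInf h3), tendsto_atTop_ciInf h4 h5⟩

end Pool.Agent.MP_971f68_nt

end

section

/-! Root counts modulo `m`. -/

open Finset Filter Topology

namespace Pool.Agent.MP_971f68_nt

theorem card_eq_Rho (m : ℕ) [NeZero m] (f : ℕ → ℕ) (g : ZMod m → ZMod m)
    (h : ∀ x : ℕ, (f x : ZMod m) = g x) :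
    ((range m).filter fun x => m ∣ f x).card = Nat.card {x : ZMod m // g x = 0} := by
  classical
  rw [Nat.card_eq_fintype_card, Fintype.card_subtype]
  refine card_bij (fun x _ => (x : ZMod m)) ?_ ?_ ?_
  · intro x hx
    rw [mem_filter] at hx ⊢
    refine ⟨mem_univ _, ?_⟩
    rw [← h, ZMod.natCast_eq_zero_iff]
    exact hx.2
  · intro x hx y hy hxy
    have h1 := mem_range.1 (mem_filter.1 hx).1
    have h2 := mem_range.1 (mem_filter.1 hy).1
    have h3 := (ZMod.natCast_eq_natCast_iff' x y m).1 hxy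
    rwa [Nat.mod_eq_of_lt h1, Nat.mod_eq_of_lt h2] at h3
  · intro y hy
    refine ⟨y.val, mem_filter.2 ⟨mem_range.2 (ZMod.val_lt y), ?_⟩, ZMod.natCast_zmod_val y⟩
    rw [← ZMod.natCast_eq_zero_iff, h, ZMod.natCast_zmod_val]
    exact (mem_filter.1 hy).2

theorem rho_eq_Rho (p m : ℕ) [NeZero m] :
    rho p m = Nat.card {x : ZMod m // (p : ZMod m) ^ 3 + 2 * x ^ 3 = 0} :=
  card_eq_Rho m (F p) (fun x => (p : ZMod m) ^ 3 + 2 * x ^ 3) fun x => by
    unfold F; push_cast; ring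

theorem rho0_eq_Rho (m : ℕ) [NeZero m] :
    rho0 m = Nat.card {x : ZMod m // x ^ 3 + 2 = 0} :=
  card_eq_Rho m (fun x => x ^ 3 + 2) (fun x => x ^ 3 + 2) fun x => by push_cast; ring

theorem mul_Rho (p m n : ℕ) (h : m.Coprime n) : rho p (m * n) = rho p m * rho p n := by
  rcases Nat.eq_zero_or_pos m with rfl | hm
  · simp [rho]
  rcases Nat.eq_zero_or_pos n with rfl | hn
  · simp [rho]
  haveI : NeZero m := ⟨hm.ne'⟩
  haveI : NeZero n := ⟨hn.ne'⟩
  haveI : NeZero (m * n) := ⟨(Nat.mul_pos hm hn).ne'⟩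
  rw [rho_eq_Rho, rho_eq_Rho, rho_eq_Rho, ← Nat.card_prod]
  refine Nat.card_congr ((Equiv.subtypeEquiv (ZMod.chineseRemainder h).toEquiv
    (q := fun y : ZMod m × ZMod n => (p : ZMod m) ^ 3 + 2 * y.1 ^ 3 = 0 ∧
      (p : ZMod n) ^ 3 + 2 * y.2 ^ 3 = 0) fun x => ?_).trans
    (Equiv.subtypeProdEquivProd (p := fun x : ZMod m => (p : ZMod m) ^ 3 + 2 * x ^ 3 = 0)
      (q := fun x : ZMod n => (p : ZMod n) ^ 3 + 2 * x ^ 3 = 0)))
  rw [← map_eq_zero_iff (ZMod.chineseRemainder h) (ZMod.chineseRemainder h).injective, map_add,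
    map_mul, map_pow, map_pow, map_natCast, map_ofNat, Prod.ext_iff]
  rfl

theorem prime_le_Rho (l : ℕ) (hl : l.Prime) : rho0 l ≤ 3 := by
  classical
  haveI := Fact.mk hl
  rw [rho0_eq_Rho, Nat.card_eq_fintype_card, Fintype.card_subtype]
  refine le_trans (card_le_card (t := (Polynomial.nthRoots 3 (-2 : ZMod l)).toFinset) ?_)
    ((Multiset.toFinset_card_le _).trans (Polynomial.card_nthRoots 3 _))
  intro x hx
  rw [Multiset.mem_toFinset, Polynomial.mem_nthRoots (by norm_num)]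
  exact eq_neg_of_add_eq_zero_left (mem_filter.1 hx).2

theorem sq_le_Rho (l : ℕ) (hl : l.Prime) (h2 : l ≠ 2) (h3 : l ≠ 3) : rho0 (l ^ 2) ≤ rho0 l := by
  unfold rho0
  have hd : l ∣ l ^ 2 := dvd_pow_self l (by norm_num)
  refine card_le_card_of_injOn (fun x => x % l) ?_ ?_
  · intro x hx
    have hx' := mem_filter.1 (mem_coe.1 hx)
    refine mem_coe.2 (mem_filter.2 ⟨mem_range.2 (Nat.mod_lt _ hl.pos), ?_⟩)
    have h1 : (x % l) ^ 3 + 2 ≡ x ^ 3 + 2 [MOD l] := ((Nat.mod_modEq x l).pow 3).add_right 2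
    exact (h1.dvd_iff dvd_rfl).2 (hd.trans hx'.2)
  · intro x hx y hy hxy
    have hx' := mem_filter.1 (mem_coe.1 hx)
    have hy' := mem_filter.1 (mem_coe.1 hy)
    have hx1 : ((l : ℤ) ^ 2) ∣ (x : ℤ) ^ 3 + 2 := by exact_mod_cast hx'.2
    have hy1 : ((l : ℤ) ^ 2) ∣ (y : ℤ) ^ 3 + 2 := by exact_mod_cast hy'.2
    have hm : (l : ℤ) ∣ (y : ℤ) - x := (Nat.modEq_iff_dvd).1 hxy
    have hp : Prime (l : ℤ) := Nat.prime_iff_prime_int.1 hl
    have hnd : ¬ (l : ℤ) ∣ (x : ℤ) ^ 2 + x * y + y ^ 2 := by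
      intro hq
      have h4 : (l : ℤ) ∣ 3 * (x : ℤ) ^ 2 := by
        have e : 3 * (x : ℤ) ^ 2 = ((x : ℤ) ^ 2 + x * y + y ^ 2) - (y - x) * (y + 2 * x) := by ring
        rw [e]
        exact dvd_sub hq (hm.mul_right _)
      rcases hp.dvd_or_dvd h4 with h | h
      · have h' : l ∣ 3 := by exact_mod_cast h
        exact h3 ((Nat.prime_dvd_prime_iff_eq hl Nat.prime_three).1 h')
      · have h5 : (l : ℤ) ∣ (x : ℤ) ^ 3 := (hp.dvd_of_dvd_pow h).trans (dvd_pow_self _ (by norm_num))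
        have h6 : (l : ℤ) ∣ (x : ℤ) ^ 3 + 2 := (dvd_pow_self _ (by norm_num)).trans hx1
        have h7 : (l : ℤ) ∣ 2 := (dvd_add_right h5).1 h6
        have h' : l ∣ 2 := by exact_mod_cast h7
        exact h2 ((Nat.prime_dvd_prime_iff_eq hl Nat.prime_two).1 h')
    have h8 : ((l : ℤ) ^ 2) ∣ ((y : ℤ) - x) * ((x : ℤ) ^ 2 + x * y + y ^ 2) := by
      have e : ((y : ℤ) - x) * ((x : ℤ) ^ 2 + x * y + y ^ 2)
          = ((y : ℤ) ^ 3 + 2) - ((x : ℤ) ^ 3 + 2) := by ring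
      rw [e]
      exact dvd_sub hy1 hx1
    have h9 : ((l : ℤ) ^ 2) ∣ (y : ℤ) - x := hp.pow_dvd_of_dvd_mul_right 2 hnd h8
    have h10 : x ≡ y [MOD l ^ 2] := (Nat.modEq_iff_dvd).2 (by exact_mod_cast h9)
    exact h10.eq_of_lt_of_lt (mem_range.1 hx'.1) (mem_range.1 hy'.1)

theorem ring_Rho {R : Type} [CommRing R] (u v h : R) (huv : u * v = 1) (hh : 2 * h = 1) :
    Nat.card {x : R // u ^ 3 + 2 * x ^ 3 = 0} = Nat.card {y : R // y ^ 3 + 2 = 0} := by
  refine Nat.card_congr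
    { toFun := fun x => ⟨-2 * x.1 ^ 2 * v ^ 2, ?_⟩
      invFun := fun y => ⟨-u * h * y.1 ^ 2, ?_⟩
      left_inv := fun x => Subtype.ext ?_
      right_inv := fun y => Subtype.ext ?_ }
  · linear_combination (-2 * v ^ 6 * (2 * x.1 ^ 3 - u ^ 3)) * x.2
      - 2 * (1 + u * v + (u * v) ^ 2 + (u * v) ^ 3 + (u * v) ^ 4 + (u * v) ^ 5) * huv
  · linear_combination (-2 * u ^ 3 * h ^ 3 * (y.1 ^ 3 - 2)) * y.2
      - u ^ 3 * (4 * h ^ 2 + 2 * h + 1) * hh
  · show -u * h * (-2 * x.1 ^ 2 * v ^ 2) ^ 2 = x.1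
    linear_combination (-u * x.1 * v ^ 4) * x.2 - 2 * u * x.1 ^ 4 * v ^ 4 * hh
      + x.1 * (1 + u * v + (u * v) ^ 2 + (u * v) ^ 3) * huv
  · show -2 * (-u * h * y.1 ^ 2) ^ 2 * v ^ 2 = y.1
    linear_combination (-2 * h ^ 2 * y.1) * y.2 - 2 * h ^ 2 * y.1 ^ 4 * (u * v + 1) * huv
      + y.1 * (2 * h + 1) * hh

theorem unit_Rho (p m : ℕ) (hm : 0 < m) (hp : p.Coprime m) (h2 : Nat.Coprime 2 m) :
    rho p m = rho0 m := by
  haveI : NeZero m := ⟨hm.ne'⟩
  rw [rho_eq_Rho, rho0_eq_Rho]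
  obtain ⟨v, hv⟩ := ((ZMod.isUnit_iff_coprime p m).2 hp).exists_right_inv
  obtain ⟨h, hh⟩ := ((ZMod.isUnit_iff_coprime 2 m).2 h2).exists_right_inv
  exact ring_Rho _ v h hv (by exact_mod_cast hh)

theorem s_Rho : StRho := by
  have h4 : rho0 4 = 0 := by decide
  have h9 : rho0 9 = 0 := by decide
  refine ⟨mul_Rho, fun l hl => ⟨prime_le_Rho l hl, ?_⟩, h4, h9, fun p l hp hl hlp => ?_⟩
  · by_cases h2 : l = 2
    · subst h2; rw [show 2 ^ 2 = 4 from rfl, h4]; norm_num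
    by_cases h3 : l = 3
    · subst h3; rw [show 3 ^ 2 = 9 from rfl, h9]; norm_num
    exact (sq_le_Rho l hl h2 h3).trans (prime_le_Rho l hl)
  have hc : p.Coprime l := (Nat.coprime_primes hp hl).2 hlp.ne'
  by_cases h2 : l = 2
  · subst h2
    refine ⟨?_, fun h => absurd h (lt_irrefl 2)⟩
    rw [show 2 ^ 2 = 4 from rfl, h4]
    unfold rho
    rw [card_eq_zero, filter_eq_empty_iff]
    intro x _ hx
    obtain ⟨k, hk⟩ := (hp.odd_of_ne_two hlp.ne').pow (n := 3)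
    unfold F at hx
    omega
  have hc2 : Nat.Coprime 2 l := (Nat.coprime_primes Nat.prime_two hl).2 (Ne.symm h2)
  exact ⟨unit_Rho p _ (pow_pos hl.pos 2) (hc.pow_right 2) (hc2.pow_right 2),
    fun _ => unit_Rho p l hl.pos hc hc2⟩

end Pool.Agent.MP_971f68_nt

end

section

/-! The primes that split in the field of the cube roots of two. -/

open Finset Filter Topology

namespace Pool.Agent.MP_971f68_nt

open MP_384f6f_nt.PI MP_d64882_nt MP_f68ac8_nt.Nd NumberField Polynomial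

theorem deg_Sp : dE (KF 3 2) ≤ 6 := by
  have hs : (X ^ 3 - C ((2 : ℕ) : ℚ) : ℚ[X]).Separable :=
    separable_X_pow_sub_C _ (by norm_num) (by norm_num)
  have : Fact (((X ^ 3 - C ((2 : ℕ) : ℚ) : ℚ[X]).map (algebraMap ℚ ℂ)).Splits) :=
    ⟨IsAlgClosed.splits _⟩
  have h1 := Nat.card_le_card_of_injective _
    (Gal.galActionHom_injective (X ^ 3 - C ((2 : ℕ) : ℚ) : ℚ[X]) ℂ)
  have h2 := ncard_rootSet_le (X ^ 3 - C ((2 : ℕ) : ℚ) : ℚ[X]) ℂ
  rw [natDegree_X_pow_sub_C] at h2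
  rw [Gal.card_of_separable hs, Nat.card_perm, ← (IsSplittingField.algEquiv (KF 3 2)
    (X ^ 3 - C ((2 : ℕ) : ℚ))).toLinearEquiv.finrank_eq] at h1
  exact h1.trans (Nat.factorial_le (n := 3) h2)

theorem rho_Sp {r : ℕ} [NeZero r] (S : Finset (ZMod r)) (h : ∀ s ∈ S, s ^ 3 + 2 = 0) :
    S.card ≤ rho0 r := by
  refine card_le_card_of_injOn ZMod.val (fun s hs => ?_) (ZMod.val_injective r).injOn
  refine mem_coe.2 (mem_filter.2 ⟨mem_range.2 (ZMod.val_lt s), ?_⟩)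
  rw [← ZMod.natCast_eq_zero_iff]
  simpa using h s hs

theorem inj_Sp {r : ℕ} [Fact r.Prime] (h : r % 3 = 2) :
    Function.Injective fun x : ZMod r => x ^ 3 := by
  refine Function.LeftInverse.injective (g := fun x => x ^ (2 * (r / 3) + 1)) fun x => ?_
  have e : 3 * (2 * (r / 3) + 1) = r + (r - 1) := by omega
  have e' : r = r - 1 + 1 := by omega
  show (x ^ 3) ^ (2 * (r / 3) + 1) = x
  rw [← pow_mul, e, pow_add, ZMod.pow_card, ← pow_succ', ← e', ZMod.pow_card]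

theorem roots_Sp {r : ℕ} (hr : r.Prime) (h : cnt (KF 3 2) r ≠ 0) :
    ∃ y z : ZMod r, y ^ 3 = 2 ∧ z ^ 3 = 2 ∧ y ^ 2 + y * z + z ^ 2 = 0 := by
  obtain ⟨⟨I, hI⟩⟩ := (Nat.card_ne_zero.1 h).1
  rw [Ideal.absNorm_apply, Submodule.cardQuot_apply] at hI
  have : Finite (𝓞 (KF 3 2) ⧸ I) := Nat.finite_of_card_ne_zero (hI ▸ hr.ne_zero)
  have := Fintype.ofFinite (𝓞 (KF 3 2) ⧸ I)
  let f := (ZMod.ringEquivOfPrime (𝓞 (KF 3 2) ⧸ I) hr
    (by rw [← Nat.card_eq_fintype_card, hI])).symm.toRingHom.comp (Ideal.Quotient.mk I)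
  have key : ∀ x : ℂ, x ^ 3 = 2 → ∃ y : 𝓞 (KF 3 2), ((y : KF 3 2) : ℂ) = x := fun x hx => by
    have hm : x ∈ KF 3 2 := mem_KF (by norm_num) (by simpa using hx)
    have hi : IsIntegral ℤ (⟨x, hm⟩ : KF 3 2) := IsIntegral.of_pow (n := 3) (by norm_num) (by
      rw [show (⟨x, hm⟩ : KF 3 2) ^ 3 = ((2 : ℕ) : KF 3 2) from Subtype.ext hx]
      exact isIntegral_natCast 2)
    exact ⟨⟨_, hi⟩, rfl⟩
  obtain ⟨x, hx⟩ := IsAlgClosed.exists_pow_nat_eq (2 : ℂ) (n := 3) (by norm_num)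
  have hw := Complex.isPrimitiveRoot_exp 3 (by norm_num)
  generalize Complex.exp _ = w at hw
  have w1 := hw.geom_sum_eq_zero (by norm_num)
  simp only [sum_range_succ, range_one, sum_singleton, pow_zero, pow_one] at w1
  have hx' : (w * x) ^ 3 = 2 := by rw [mul_pow, hw.pow_eq_one, one_mul, hx]
  obtain ⟨y, hy⟩ := key x hx
  obtain ⟨z, hz⟩ := key _ hx'
  have a1 : y ^ 3 = 2 := RingOfIntegers.ext (Subtype.ext (hy ▸ hx :))
  have a2 : z ^ 3 = 2 := RingOfIntegers.ext (Subtype.ext (hz ▸ hx' :))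
  have a3 : y ^ 2 + y * z + z ^ 2 = 0 := RingOfIntegers.ext (Subtype.ext (by
    have : x ^ 2 + x * (w * x) + (w * x) ^ 2 = 0 := by linear_combination x ^ 2 * w1
    simpa [hy, hz] using this))
  refine ⟨f y, f z, ?_, ?_, ?_⟩
  · rw [← map_pow, a1, map_ofNat]
  · rw [← map_pow, a2, map_ofNat]
  · rw [← map_pow, ← map_pow, ← map_mul, ← map_add, ← map_add, a3, map_zero]

theorem s_Sp : StSp := by
  refine ⟨nd_one, _, _, ?_, fun n => ?_, ((nd_cnt (KF 3 2)).mul (3 * Real.log 4)).add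
    ((nd_class (q := 3) (a := 2) (by decide)).mul (Real.log 2)), fun r hr h13 => ?_⟩
  · have d1 : (0 : ℝ) < dE (KF 3 2) := by exact_mod_cast Module.finrank_pos
    have d2 : (dE (KF 3 2) : ℝ) ≤ 6 := by exact_mod_cast deg_Sp
    have d3 := one_div_le_one_div_of_le d1 d2
    have l2 := Real.log_two_gt_d9
    rw [show (4 : ℝ) = 2 ^ 2 by norm_num, Real.log_pow, show Nat.totient 3 = 2 by decide]
    push_cast
    nlinarith
  · have := Real.log_nonneg (show (1 : ℝ) ≤ 4 by norm_num)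
    have := Real.log_nonneg (show (1 : ℝ) ≤ 2 by norm_num)
    split_ifs <;> positivity
  · have : Fact r.Prime := ⟨hr⟩
    have l4 := Real.log_nonneg (show (1 : ℝ) ≤ 4 by norm_num)
    have l2 := Real.log_nonneg (show (1 : ℝ) ≤ 2 by norm_num)
    have e : ((r : ZMod 3) = 2) ↔ r % 3 = 2 := ZMod.natCast_eq_natCast_iff' r 2 3
    have n : ∀ k : ℕ, 0 < k → k ≤ 13 → (k : ZMod r) ≠ 0 := fun k h0 h1 h => by
      have := Nat.le_of_dvd h0 ((ZMod.natCast_eq_zero_iff k r).1 h)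
      omega
    have n2 : (2 : ZMod r) ≠ 0 := n 2 (by norm_num) (by norm_num)
    have n3 : (3 : ZMod r) ≠ 0 := n 3 (by norm_num) (by norm_num)
    simp only [e, K]
    by_cases h : cnt (KF 3 2) r = 0
    · rw [h]
      split_ifs with h2
      · obtain ⟨s, hs⟩ := Finite.surjective_of_injective (inj_Sp h2) (-2)
        have h3 : (1 : ℝ) ≤ rho0 r := by
          exact_mod_cast (card_singleton s).ge.trans (rho_Sp {s} fun t ht => by
            rw [mem_singleton.1 ht, show s ^ 3 = -2 from hs, neg_add_cancel])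
        simpa using le_mul_of_one_le_right l2 h3
      · simpa using mul_nonneg l4 (Nat.cast_nonneg (rho0 r))
    · obtain ⟨y, z, hy, hz, hyz⟩ := roots_Sp hr h
      have y0 : ∀ t : ZMod r, t ^ 3 = 2 → 3 * t ^ 2 ≠ 0 := fun t ht =>
        mul_ne_zero n3 (pow_ne_zero _ fun h0 => n2 (by rw [← ht, h0]; norm_num))
      have d1 : y ≠ z := fun h0 => y0 z hz (by rw [h0] at hyz; linear_combination hyz)
      have h2 : ¬ r % 3 = 2 := fun h2 => d1 (inj_Sp h2 (hy.trans hz.symm))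
      have h3 : (3 : ℝ) ≤ rho0 r := by
        have := rho_Sp {-y, -z, y + z} fun t ht => by
          simp only [mem_insert, mem_singleton] at ht
          rcases ht with rfl | rfl | rfl
          · linear_combination -hy
          · linear_combination -hz
          · linear_combination hz - 2 * hy + 3 * y * hyz
        rw [card_eq_three.2 ⟨_, _, _, neg_injective.ne d1, fun h0 => y0 y hy (by
          linear_combination hyz + (z - y) * h0), fun h0 => y0 z hz (by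
          linear_combination hyz + (y - z) * h0), rfl⟩] at this
        exact_mod_cast this
      have d0 : (0 : ℝ) < dE (KF 3 2) := by exact_mod_cast Module.finrank_pos
      have h4 : (cnt (KF 3 2) r : ℝ) / dE (KF 3 2) ≤ 1 :=
        (div_le_one d0).2 (by exact_mod_cast (psum_stmt.2.2 (KF 3 2)).1 r hr)
      rw [if_neg h2, if_neg h2]
      nlinarith

end Pool.Agent.MP_971f68_nt

end

section

open Finset Filter Topology

namespace Pool.Agent.MP_971f68_nt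

theorem period_mul_Sq (m p : ℕ) (hm : 0 < m) (hp : 0 < p) (hcop : Nat.Coprime m p)
    (F H : ℕ → ℝ) (hF : Function.Periodic F m) (hH : Function.Periodic H p) :
    ∑ t ∈ range (m * p), F t * H t = (∑ t ∈ range m, F t) * ∑ t ∈ range p, H t := by
  rw [Finset.sum_mul_sum, ← Finset.sum_product']
  refine Finset.sum_nbij' (fun t => (t % m, t % p))
    (fun x => (Nat.chineseRemainder hcop x.1 x.2 : ℕ)) ?_ ?_ ?_ ?_ ?_
  · intro t _
    simp [Nat.mod_lt _ hm, Nat.mod_lt _ hp]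
  · intro x _
    simpa using Nat.chineseRemainder_lt_mul hcop x.1 x.2 hm.ne' hp.ne'
  · intro t ht
    have h1 := (Nat.chineseRemainder hcop (t % m) (t % p)).2
    have h2 : (Nat.chineseRemainder hcop (t % m) (t % p) : ℕ) ≡ t [MOD m * p] :=
      (Nat.modEq_and_modEq_iff_modEq_mul hcop).1
        ⟨h1.1.trans (Nat.mod_modEq t m), h1.2.trans (Nat.mod_modEq t p)⟩
    exact Nat.ModEq.eq_of_lt_of_lt h2
      (Nat.chineseRemainder_lt_mul hcop _ _ hm.ne' hp.ne') (by simpa using ht)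
  · intro x hx
    have h1 := (Nat.chineseRemainder hcop x.1 x.2).2
    simp only [Finset.mem_product, Finset.mem_range] at hx
    ext
    · simpa [Nat.ModEq, Nat.mod_eq_of_lt hx.1] using h1.1
    · simpa [Nat.ModEq, Nat.mod_eq_of_lt hx.2] using h1.2
  · intro t _
    simp only [hF.map_mod_nat, hH.map_mod_nat]

theorem incomplete_Sq (M : ℕ) (hM : 0 < M) (F : ℕ → ℝ) (hF : Function.Periodic F M)
    (h0 : ∑ t ∈ range M, F t = 0) (h1 : ∀ t, F t ≤ 1) (Y : ℕ) : ∑ t ∈ range Y, F t ≤ M := by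
  induction Y using Nat.strong_induction_on with
  | _ Y ih =>
    rcases lt_or_ge Y M with h | h
    · calc ∑ t ∈ range Y, F t ≤ ∑ _t ∈ range Y, (1 : ℝ) := sum_le_sum fun t _ => h1 t
        _ = Y := by simp
        _ ≤ M := by exact_mod_cast h.le
    · obtain ⟨Z, rfl⟩ := Nat.exists_eq_add_of_le h
      rw [sum_range_add, h0, zero_add]
      have : ∑ t ∈ range Z, F (M + t) = ∑ t ∈ range Z, F t :=
        sum_congr rfl fun t _ => by rw [add_comm]; exact hF t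
      rw [this]
      exact ih Z (by omega)

/-- the quadratic character used in the square sieve -/
def chi_Sq (p e m a r x : ℕ) : ℝ := (jacobiSym ((e * F p (a + m * x) : ℕ) : ℤ) r : ℤ)

theorem chi_abs_Sq (p e m a r x : ℕ) : -1 ≤ chi_Sq p e m a r x ∧ chi_Sq p e m a r x ≤ 1 := by
  unfold chi_Sq
  rcases jacobiSym.trichotomy ((e * F p (a + m * x) : ℕ) : ℤ) r with h | h | h <;> rw [h] <;>
    norm_num

theorem chi_per_Sq (p e m a r : ℕ) : Function.Periodic (chi_Sq p e m a r) r := by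
  intro x
  unfold chi_Sq
  congr 1
  refine jacobiSym.mod_left' ?_
  have h : e * F p (a + m * (x + r)) ≡ e * F p (a + m * x) [MOD r] := by
    unfold F
    have h1 : x + r ≡ x [MOD r] := by simp [Nat.ModEq]
    exact ((((h1.mul_left m).add_left a).pow 3).mul_left 2 |>.add_left _).mul_left e
  exact Int.natCast_modEq_iff.mpr h

theorem chi_sum_Sq {p e m a r : ℕ} (hr : r.Prime) (h3 : r % 3 = 2) (h2 : 2 < r) (he : ¬ r ∣ e)
    (hm : ¬ r ∣ m) : ∑ x ∈ range r, chi_Sq p e m a r x = 0 := by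
  have := Fact.mk hr
  obtain ⟨k, hk⟩ : ∃ k, r = 3 * k + 2 := ⟨r / 3, by omega⟩
  have hcube : ∀ x : ZMod r, (x ^ 3) ^ (2 * k + 1) = x := by
    intro x
    have e1 : 3 * (2 * k + 1) = r + (3 * k + 1) := by omega
    rw [← pow_mul, e1, pow_add, ZMod.pow_card, ← pow_succ', ← hk, ZMod.pow_card]
  have he' : (e : ZMod r) ≠ 0 := fun h => he ((ZMod.natCast_eq_zero_iff e r).mp h)
  have hm' : (m : ZMod r) ≠ 0 := fun h => hm ((ZMod.natCast_eq_zero_iff m r).mp h)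
  have h2' : (2 : ZMod r) ≠ 0 := fun h => by
    have h4 : ((2 : ℕ) : ZMod r) = 0 := by exact_mod_cast h
    exact absurd (Nat.le_of_dvd two_pos ((ZMod.natCast_eq_zero_iff 2 r).mp h4)) (by omega)
  have hinj : Function.Injective
      fun y : ZMod r => (e : ZMod r) * ((p : ZMod r) ^ 3 + 2 * (a + m * y) ^ 3) := by
    intro y y' h
    have h4 := mul_left_cancel₀ h2' (add_left_cancel (mul_left_cancel₀ he' h))
    have h5 : (a : ZMod r) + m * y = a + m * y' := by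
      rw [← hcube (a + m * y), h4, hcube]
    exact mul_left_cancel₀ hm' (add_left_cancel h5)
  have hbij := Finite.injective_iff_bijective.mp hinj
  have h6 := quadraticChar_sum_zero (F := ZMod r) (by rw [ZMod.ringChar_zmod_n]; omega)
  rw [← hbij.sum_comp] at h6
  have h7 : ∑ x ∈ range r, chi_Sq p e m a r x = ∑ y : ZMod r, ((quadraticChar (ZMod r)
      ((e : ZMod r) * ((p : ZMod r) ^ 3 + 2 * (a + m * y) ^ 3)) : ℤ) : ℝ) := by
    refine Finset.sum_nbij' (fun x => (x : ZMod r)) (fun y => y.val) (fun _ _ => mem_univ _)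
      (fun y _ => mem_range.mpr (ZMod.val_lt y))
      (fun x hx => ZMod.val_natCast_of_lt (mem_range.mp hx))
      (fun y _ => ZMod.natCast_zmod_val y) fun x _ => ?_
    unfold chi_Sq F
    rw [← jacobiSym.legendreSym.to_jacobiSym, legendreSym]
    push_cast
    rfl
  rw [h7, ← Int.cast_sum, h6, Int.cast_zero]

theorem s_Sq : StSq := by
  classical
  intro p e m a Y Q R hR hP
  have hc : (0 : ℝ) < R.card := by exact_mod_cast hR.card_pos
  have key : ∀ r ∈ R, ∀ r' ∈ R, ∑ x ∈ range Y, chi_Sq p e m a r x * chi_Sq p e m a r' x ≤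
      (if r = r' then (Y : ℝ) else 0) + (Q : ℝ) ^ 2 := by
    intro r hr r' hr'
    have hle : ∀ x, chi_Sq p e m a r x * chi_Sq p e m a r' x ≤ 1 := fun x => by
      obtain ⟨a1, a2⟩ := chi_abs_Sq p e m a r x
      obtain ⟨a3, a4⟩ := chi_abs_Sq p e m a r' x
      nlinarith
    split_ifs with h
    · calc _ ≤ ∑ _x ∈ range Y, (1 : ℝ) := sum_le_sum fun x _ => hle x
        _ = Y := by simp
        _ ≤ _ := le_add_of_nonneg_right (by positivity)
    · obtain ⟨a1, a2, a3, a4, a5, a6⟩ := hP r hr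
      obtain ⟨b1, b2, b3, b4, b5, b6⟩ := hP r' hr'
      have hper : Function.Periodic (fun x => chi_Sq p e m a r x * chi_Sq p e m a r' x)
          (r * r') := by
        intro x
        have e1 := (chi_per_Sq p e m a r).nat_mul r' x
        have e2 := (chi_per_Sq p e m a r').nat_mul r x
        simp only [Nat.cast_id] at e1 e2
        rw [mul_comm] at e1
        show chi_Sq p e m a r (x + r * r') * chi_Sq p e m a r' (x + r * r') = _
        rw [e1, e2]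
      have h0 := period_mul_Sq r r' a1.pos b1.pos ((Nat.coprime_primes a1 b1).mpr h) _ _
        (chi_per_Sq p e m a r) (chi_per_Sq p e m a r')
      rw [chi_sum_Sq a1 a2 a3 a5 a6, zero_mul] at h0
      refine (incomplete_Sq _ (Nat.mul_pos a1.pos b1.pos) _ hper h0 hle Y).trans ?_
      rw [zero_add, sq]
      exact_mod_cast Nat.mul_le_mul a4 b4
  have h1 : ∑ x ∈ range Y, (∑ r ∈ R, chi_Sq p e m a r x) ^ 2 ≤
      R.card * Y + (R.card : ℝ) ^ 2 * (Q : ℝ) ^ 2 := by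
    simp only [sq (∑ r ∈ R, _), sum_mul_sum]
    rw [sum_comm]
    calc _ ≤ ∑ r ∈ R, ((Y : ℝ) + R.card * (Q : ℝ) ^ 2) := by
          refine sum_le_sum fun r hr => ?_
          rw [sum_comm]
          refine (sum_le_sum fun r' hr' => key r hr r' hr').trans ?_
          rw [sum_add_distrib, sum_ite_eq, if_pos hr, sum_const, nsmul_eq_mul]
      _ = _ := by
          rw [sum_const, nsmul_eq_mul]
          ring
  set S := (range Y).filter fun x => ∃ l : ℕ, (∀ r ∈ R, ¬ r ∣ l) ∧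
      F p (a + m * x) = e * l ^ 2 with hS
  have h2 : (S.card : ℝ) * (R.card : ℝ) ^ 2 ≤
      ∑ x ∈ range Y, (∑ r ∈ R, chi_Sq p e m a r x) ^ 2 := by
    refine le_trans ?_ (sum_le_sum_of_subset_of_nonneg (filter_subset _ _ : S ⊆ range Y)
      fun _ _ _ => sq_nonneg _)
    rw [← nsmul_eq_mul, ← sum_const]
    refine sum_le_sum fun x hx => le_of_eq ?_
    obtain ⟨l, hl, hF⟩ := (mem_filter.mp hx).2
    congr 1
    rw [card_eq_sum_ones, Nat.cast_sum]
    refine sum_congr rfl fun r hr => ?_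
    obtain ⟨a1, -, -, -, a5, -⟩ := hP r hr
    have e1 : ((e * F p (a + m * x) : ℕ) : ℤ) = ((e * l : ℕ) : ℤ) ^ 2 := by
      rw [hF]
      push_cast
      ring
    unfold chi_Sq
    rw [e1, jacobiSym.sq_one']
    · simp
    · rw [Int.gcd_natCast_natCast]
      refine ((Nat.Prime.coprime_iff_not_dvd a1).mpr fun h => ?_).symm
      rcases (Nat.Prime.dvd_mul a1).mp h with h | h
      exacts [a5 h, hl r hr h]
  have h3 : (S.card : ℝ) * (R.card : ℝ) ^ 2 ≤ (Y / R.card + (Q : ℝ) ^ 2) * (R.card : ℝ) ^ 2 := by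
    refine (h2.trans h1).trans (le_of_eq ?_)
    field_simp
  exact le_of_mul_le_mul_right h3 (by positivity)

end Pool.Agent.MP_971f68_nt

end
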