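import Pool.Agent.Mg.F436a94p.G58f7c4
import Pool.Agent.Mg.C853.G132190
import Pool.Agent.MP_e23604_nt.P.SGrow
import Pool.Agent.Mg.C853.G6cfa21
import Pool.Agent.MP_e23604_nt.P.SPsi
import Pool.Agent.Mg.C853.Gf8de24
import Pool.Agent.Mg.C853.Gbe42ac

set_option linter.all false

section

/-!
Orthogonality of primitive characters and the inequality of Halász and Montgomery.
-/

set_option autoImplicit false

open Finset Filter
open scoped ComplexConjugate

namespace Pool.Agent.MP_436a94_nt.A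

open Pool.Agent.MP_2a1f0e_nt Pool.Agent.MP_43e117_nt.PG DirichletCharacter

theorem s_Orth : StOrth := by
  rintro R ⟨r, χ⟩ hx ⟨s, ξ⟩ hy hne
  obtain ⟨r1, -, p1⟩ := mem_XR.1 hx
  obtain ⟨s1, -, p2⟩ := mem_XR.1 hy
  simp only at r1 s1 p1 p2 ⊢
  have : NeZero (r * s) := ⟨by positivity⟩
  have d1 : r ∣ r * s := Dvd.intro _ rfl
  have d2 : s ∣ r * s := Dvd.intro_left _ rfl
  have hne' : changeLevel d1 χ * (changeLevel d2 ξ)⁻¹ ≠ 1 := fun h => by
    rw [mul_inv_eq_one] at h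
    have h1 := congrArg conductor h
    rw [conductor_changeLevel, conductor_changeLevel, p1, p2] at h1
    subst h1
    exact hne (by rw [changeLevel_injective d1 h])
  rw [← MulChar.sum_eq_zero_of_ne_one hne', ← MP_e23604_nt.P.xSGrow_sum_range]
  refine sum_congr rfl fun n _ => ?_
  rw [MulChar.mul_apply, ← MulChar.star_apply']
  by_cases h : IsCoprime (n : ℤ) ((r * s : ℕ) : ℤ)
  · have a1 := changeLevel_eq_cast_of_dvd' χ d1 h
    have a2 := changeLevel_eq_cast_of_dvd' ξ d2 h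
    rw [Int.cast_natCast, Int.cast_natCast] at a1 a2
    rw [a1, a2]
    rfl
  · have a1 := (apply_eq_zero_iff (changeLevel d1 χ) n).2 h
    rw [Int.cast_natCast] at a1
    rw [a1, zero_mul]
    rw [Nat.cast_mul, IsCoprime.mul_right_iff, not_and_or] at h
    rcases h with h | h
    · have a2 := (apply_eq_zero_iff χ n).2 h
      rw [Int.cast_natCast] at a2
      rw [a2, zero_mul]
    · have a2 := (apply_eq_zero_iff ξ n).2 h
      rw [Int.cast_natCast] at a2
      rw [a2, map_zero, mul_zero]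

lemma mn_le_one {q : ℕ} {ψ : ℕ → ℂ} (hq : 1 ≤ q) (h : Per q ψ) : mn q ψ ≤ 1 := by
  rw [mn, div_le_one (by exact_mod_cast hq)]
  refine (norm_sum_le_of_le _ fun n _ => h.2 n).trans_eq ?_
  simp

lemma per_HM (x y : CH) : Per (x.1 * y.1) fun n => x.2 n * conj (y.2 n) := by
  refine ⟨fun n => ?_, fun n => ?_⟩
  · simp
  · rw [norm_mul, RCLike.norm_conj]
    exact mul_le_one₀ (x.2.norm_le_one _) (norm_nonneg _) (y.2.norm_le_one _)

lemma row_HM (T : ℕ) {u : ℤ} (hu : u ∈ RF.IT T) :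
    ∑ v ∈ RF.IT T, 1 / (1 + |(u : ℝ) - v|) ≤ 6 * Real.log (4 * T + 2) := by
  have h := MP_c853c5_nt.Z.sum_PTop ((RF.IT T).map (addRightEmbedding (2 * T : ℤ))) (4 * T)
    (fun s hs => by
      obtain ⟨v, hv, rfl⟩ := mem_map.1 hs
      have := mem_Ioo.1 hv
      simp only [addRightEmbedding_apply]
      push_cast
      omega) (t := u + 2 * T) (mem_map.2 ⟨u, hu, rfl⟩)
  rw [sum_map] at h
  simpa using h

theorem s_HM (hK : StKer) (hO : StOrth) : StHM := by
  classical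
  intro k
  obtain ⟨A, hA, hK⟩ := hK
  have k1 : (1 : ℝ) ≤ ((max k 1 : ℕ) : ℝ) ^ 8 :=
    one_le_pow₀ (by exact_mod_cast le_max_right k 1)
  have a0 : 0 < A * ((max k 1 : ℕ) : ℝ) ^ 8 := by positivity
  replace hK := fun q ψ N M t => hK (max k 1) q ψ N M t (le_max_right _ _)
  generalize A * ((max k 1 : ℕ) : ℝ) ^ 8 = a at hK a0
  refine ⟨36 + Real.exp a, 1 / a, by positivity, by positivity,
    fun M R T E b hM hR hT hE => ?_⟩
  have M1 : (1 : ℝ) ≤ M := by exact_mod_cast hM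
  set P : ℝ := Real.exp a * (M : ℝ) ^ (1 - 1 / a) with hP
  have P0 : 0 ≤ P := by positivity
  set K : CH × ℤ → CH × ℤ → ℝ := fun z z' =>
    (if z.1 = z'.1 then 6 * M * (1 / (1 + |(z.2 : ℝ) - z'.2|)) else 0) + P with hKd
  have hker : ∀ z ∈ E, ∀ z' ∈ E,
      ‖∑ n ∈ dy M, cw z.1 z.2 n * conj (cw z'.1 z'.2 n)‖ ≤ K z z' := fun z hz z' hz' => by
    obtain ⟨x1, u1⟩ := mem_product.1 (hE hz)
    obtain ⟨x2, u2⟩ := mem_product.1 (hE hz')
    have q1 : 1 ≤ z.1.1 * z'.1.1 := Nat.mul_pos (mem_XR.1 x1).1 (mem_XR.1 x2).1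
    have q2 : (z.1.1 * z'.1.1) ^ 20 ≤ M := by
      refine le_trans (Nat.pow_le_pow_left
        (Nat.mul_le_mul (mem_XR.1 x1).2.1 (mem_XR.1 x2).2.1) 20) (le_trans (le_of_eq ?_) hR)
      ring
    have t1 : |(z.2 : ℝ) - z'.2| ≤ (M : ℝ) ^ max k 1 := by
      have := abs_sub (z.2 : ℝ) z'.2
      have := pow_le_pow_right₀ M1 (le_max_left k 1)
      linarith [abs_IT u1, abs_IT u2]
    have h1 := hK _ _ M (2 * M) ((z.2 : ℝ) - z'.2) q1 (per_HM z.1 z'.1) q2 (by omega) le_rfl t1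
    have e : ∑ n ∈ dy M, cw z.1 z.2 n * conj (cw z'.1 z'.2 n) =
        EP (fun n => z.1.2 n * conj (z'.1.2 n)) M (2 * M) ((z.2 : ℝ) - z'.2) := by
      refine sum_congr rfl fun n _ => ?_
      rw [cw, cw, map_mul, GM.pw_sub]
      ring
    rw [e]
    refine h1.trans (add_le_add ?_ le_rfl)
    split_ifs with h
    · rw [mul_one_div]
      exact mul_le_of_le_one_left (by positivity) (mn_le_one q1 (per_HM _ _))
    · rw [mn, hO R _ x1 _ x2 h]
      simp
  have K0 : ∀ z z', 0 ≤ K z z' := fun z z' =>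
    add_nonneg (by split_ifs <;> positivity) P0
  have L0 : 0 ≤ Real.log (4 * T + 2) :=
    Real.log_nonneg (by linarith [(Nat.cast_nonneg T : (0 : ℝ) ≤ T)])
  have hrow : ∀ z ∈ E, ∑ z' ∈ E, K z z' ≤ 36 * (M * Real.log (4 * T + 2)) + E.card * P :=
    fun z hz => by
    obtain ⟨x1, u1⟩ := mem_product.1 (hE hz)
    rw [sum_add_distrib, sum_const, nsmul_eq_mul]
    refine add_le_add ((sum_le_sum_of_subset_of_nonneg hE fun _ _ _ => by
      split_ifs <;> positivity).trans ?_) le_rfl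
    rw [sum_product, sum_comm]
    simp only [sum_ite_eq, if_pos x1]
    rw [← mul_sum]
    nlinarith [row_HM T u1]
  set D : CH × ℤ → ℝ := fun z => ‖DP b (dy M) z.1 z.2‖ with hD
  have h1 := MP_c853c5_nt.Z.dual_Hal (dy M) E b (fun z n => (D z : ℂ) * cw z.1 z.2 n)
    (fun z z' => D z * D z' * K z z') fun z hz z' hz' => by
      have e : ∑ n ∈ dy M, (D z : ℂ) * cw z.1 z.2 n * conj ((D z' : ℂ) * cw z'.1 z'.2 n) =
          ((D z * D z' : ℝ) : ℂ) * ∑ n ∈ dy M, cw z.1 z.2 n * conj (cw z'.1 z'.2 n) := by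
        rw [mul_sum]
        refine sum_congr rfl fun n _ => ?_
        rw [map_mul, Complex.conj_ofReal]
        push_cast
        ring
      rw [e, norm_mul, Complex.norm_real, Real.norm_of_nonneg (by positivity)]
      exact mul_le_mul_of_nonneg_left (hker z hz z' hz') (by positivity)
  have e1 : ∀ z : CH × ℤ, ‖∑ n ∈ dy M, b n * ((D z : ℂ) * cw z.1 z.2 n)‖ = D z ^ 2 := fun z => by
    have : ∑ n ∈ dy M, b n * ((D z : ℂ) * cw z.1 z.2 n) = (D z : ℂ) * DP b (dy M) z.1 z.2 := by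
      rw [DP, mul_sum]
      exact sum_congr rfl fun n _ => by ring
    rw [this, norm_mul, Complex.norm_real, Real.norm_of_nonneg (norm_nonneg _), sq]
  simp only [e1] at h1
  have h2 := schur E D K (fun z _ z' _ => K0 z z') (fun z _ z' _ => by
    simp only [hKd, eq_comm (a := z.1), abs_sub_comm (z.2 : ℝ)]) _ hrow
  have h3 := h1.trans (mul_le_mul_of_nonneg_left h2 (by positivity))
  have h4 : 36 * (M * Real.log (4 * T + 2)) + E.card * P ≤ (36 + Real.exp a) *
      (M * Real.log (4 * T + 2) + E.card * (M : ℝ) ^ (1 - 1 / a)) := by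
    have b1 : 0 ≤ Real.exp a * (M * Real.log (4 * T + 2)) := by positivity
    have b2 : 0 ≤ E.card * (M : ℝ) ^ (1 - 1 / a) := by positivity
    rw [hP]
    nlinarith
  refine le_trans ?_ (mul_le_mul_of_nonneg_right h4 (by positivity))
  have X0 : 0 ≤ ∑ z ∈ E, D z ^ 2 := by positivity
  change ∑ z ∈ E, D z ^ 2 ≤ _
  rcases X0.eq_or_lt with h5 | h5
  · rw [← h5]
    positivity
  · refine le_of_mul_le_mul_right ?_ h5
    nlinarith

end Pool.Agent.MP_436a94_nt.A

end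

section

/-!
The logarithmic derivative inside the zero free region.
-/

set_option autoImplicit false

open Finset Filter Metric

namespace Pool.Agent.MP_436a94_nt.A

open Pool.Agent.MP_c853c5_nt DirichletCharacter

lemma sum_Ld (Z : Finset ℂ) (m : ℂ → ℕ) (z : ℂ) {d : ℝ} (hd : 0 < d)
    (h : ∀ ρ ∈ Z, d ≤ z.re - ρ.re) :
    ‖∑ ρ ∈ Z, (m ρ : ℂ) / (z - ρ)‖ ≤ (∑ ρ ∈ Z, (m ρ : ℝ)) / d := by
  rw [Finset.sum_div]
  refine norm_sum_le_of_le _ fun ρ hρ => ?_
  rw [norm_div, Complex.norm_natCast]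
  refine div_le_div_of_nonneg_left (Nat.cast_nonneg _) hd ((h ρ hρ).trans ?_)
  rw [← Complex.sub_re]
  exact Complex.re_le_norm _

lemma bound_Ld (hT : StLT) {q : ℕ} [NeZero q] {χ : DirichletCharacter ℂ q} (hχ : χ ≠ 1) {T : ℝ}
    (h3 : 3 ≤ T) (hq : (q : ℝ) ≤ T) {z : ℂ} (h1 : 1 / 10 ≤ z.re) (h2 : ‖z‖ ≤ 2 * T) :
    ‖LFunction χ z‖ ≤ 100 * T ^ 2 := by
  have h := hT q χ hχ 1 z le_rfl (by linarith)
  simp only [Icc_self, sum_singleton, Nat.cast_one, Complex.one_cpow, Real.one_rpow, mul_one,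
    map_one] at h
  have h5 : ‖z‖ / z.re ≤ 20 * T := by
    rw [div_le_iff₀ (by linarith)]
    nlinarith [norm_nonneg z]
  have h6 : 2 * (q : ℝ) * (1 + ‖z‖ / z.re) ≤ 2 * T * (1 + 20 * T) := by
    have : 0 ≤ ‖z‖ / z.re := div_nonneg (norm_nonneg _) (by linarith)
    gcongr
  have h7 := norm_le_norm_sub_add (LFunction χ z) 1
  rw [norm_one] at h7
  nlinarith

theorem s_Ld (hZ : StZF) (hT : StLT) (h3 : StT341) : StLd := by
  obtain ⟨t₀, ht₀, hZ⟩ := hZ
  refine ⟨t₀ + 2, by linarith, fun B => ?_⟩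
  obtain ⟨T₀, hT₀, hZ⟩ := hZ B
  obtain ⟨T₁, hT₁⟩ := eventually_atTop.1 (MP_e23604_nt.P.xSPsi_log_pow B)
  refine ⟨240320, max T₀ T₁, by norm_num, le_max_of_le_left hT₀,
    fun T hT' q _ χ hχ hq z h1 h2 h4 h5 => ?_⟩
  obtain ⟨t1, t2⟩ := max_le_iff.1 hT'
  have hT3 : 3 ≤ T := hT₀.trans t1
  have qT : (q : ℝ) ≤ T := hq.trans (hT₁ T t2)
  have hl : 1 ≤ Real.log T := by
    rw [Real.le_log_iff_exp_le (by linarith)]
    exact (Real.exp_one_lt_d9.le.trans (by norm_num)).trans hT3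
  obtain ⟨d0, d1, d2⟩ := Z.delta_PLd hl
  have hne : LFunction χ z ≠ 0 := fun h => by
    have := hZ T t1 q χ hχ hq z h (by linarith) (by linarith)
    linarith
  refine ⟨hne, ?_⟩
  set c : ℂ := (2 : ℂ) + z.im * Complex.I with hc
  have hcre : c.re = 2 := by simp [hc]
  have hcim : c.im = z.im := by simp [hc]
  have hcn : ‖c‖ ≤ T := by
    have := Complex.norm_le_abs_re_add_abs_im c
    rw [hcre, hcim, abs_two] at this
    linarith
  have hlow : 1 / 2 ≤ ‖LFunction χ c‖ := by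
    have := (h3 q χ).2.2 c (by rw [hcre]; norm_num) (by rw [hcre])
    rw [hcre] at this
    linarith
  have hexp : 200 * T ^ 2 ≤ Real.exp (8 * Real.log T) := by
    have h1 : Real.exp (8 * Real.log T) = T ^ 8 := by
      rw [show (8 : ℝ) * Real.log T = Real.log (T ^ 8) by rw [Real.log_pow]; norm_num,
        Real.exp_log (by positivity)]
    rw [h1]
    have h2 : (3 : ℝ) ^ 6 ≤ T ^ 6 := pow_le_pow_left₀ (by norm_num) hT3 6
    have h3 : T ^ 8 = T ^ 6 * T ^ 2 := by ring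
    rw [h3]
    exact mul_le_mul_of_nonneg_right (by linarith [show (3 : ℝ) ^ 6 = 729 by norm_num])
      (by positivity)
  have hup : 100 * T ^ 2 ≤ Real.exp (8 * Real.log T) * ‖LFunction χ c‖ := by
    have : 200 * T ^ 2 * (1 / 2) ≤ Real.exp (8 * Real.log T) * ‖LFunction χ c‖ :=
      mul_le_mul hexp hlow (by norm_num) (Real.exp_pos _).le
    linarith
  obtain ⟨Z, z1, -, z3, z4⟩ := Z.local_structure (LFunction χ) c (8 * Real.log T) (by linarith)
    (fun z _ => (differentiable_LFunction hχ).analyticAt z)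
    (fun h => by rw [h, norm_zero] at hlow; norm_num at hlow)
    (fun w hw => by
      rw [mem_sphere, dist_eq_norm] at hw
      refine le_trans (bound_Ld hT hχ hT3 qT ?_ ?_) hup
      · have := Complex.abs_re_le_norm (w - c)
        rw [hw, Complex.sub_re, hcre, abs_le] at this
        linarith [this.1]
      · have : ‖w‖ ≤ ‖w - c‖ + ‖c‖ := by simpa using norm_add_le (w - c) c
        linarith)
    (by nlinarith)
  have hz : z ∈ closedBall c (8 / 5) := by
    have e : z - c = ((z.re - 2 : ℝ) : ℂ) := by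
      apply Complex.ext <;> simp [hc]
    rw [mem_closedBall_iff_norm, e, Complex.norm_real, Real.norm_eq_abs, abs_le]
    constructor <;> linarith
  have hs := sum_Ld Z (fun ρ => (analyticOrderAt (LFunction χ) ρ).toNat) z (half_pos d0)
    fun ρ hρ => by
      obtain ⟨r1, r2⟩ := (z1 ρ).1 hρ
      rw [mem_closedBall_iff_norm] at r1
      have r3 := (Complex.abs_im_le_norm _).trans r1
      rw [Complex.sub_im, hcim] at r3
      have r4 := abs_le.1 ((abs_abs_sub_abs_le_abs_sub ρ.im z.im).trans r3)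
      have := hZ T t1 q χ hχ hq ρ r2 (by linarith [r4.1]) (by linarith [r4.2])
      linarith
  have hs' : (∑ ρ ∈ Z, ((analyticOrderAt (LFunction χ) ρ).toNat : ℝ)) /
      (Real.log T ^ (-(39 / 40) : ℝ) / 2) ≤ 320 * Real.log T ^ 2 := by
    rw [div_le_iff₀ (half_pos d0)]
    nlinarith [mul_le_mul_of_nonneg_left d2 (show 0 ≤ Real.log T by linarith)]
  have h6 := norm_le_norm_sub_add (logDeriv (LFunction χ) z)
    (∑ ρ ∈ Z, ((analyticOrderAt (LFunction χ) ρ).toNat : ℂ) / (z - ρ))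
  have h7 := z4 z hz hne
  have h8 : Real.log T ≤ Real.log T ^ 2 := by nlinarith
  linarith

end Pool.Agent.MP_436a94_nt.A

end

section

/-!
The classical trigonometric inequality for characters.
-/

set_option autoImplicit false

open Finset Filter Complex

namespace Pool.Agent.MP_436a94_nt.A

open Pool.Agent.MP_c853c5_nt DirichletCharacter ArithmeticFunction

lemma LS_T341 {q : ℕ} [NeZero q] (χ : DirichletCharacter ℂ q) {s : ℂ} (hs : 1 < s.re) :
    LSeries (fun n => χ n * (vonMangoldt n : ℂ)) s = -logDeriv (LFunction χ) s := by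
  have h := DirichletCharacter.LSeries_twist_vonMangoldt_eq χ hs
  rw [logDeriv_apply, deriv_LFunction_eq_deriv_LSeries χ hs, LFunction_eq_LSeries χ hs, ← neg_div]
  exact h

lemma term_T341 (F : ℕ → ℂ) (σ τ : ℝ) {n : ℕ} (hn : n ≠ 0) :
    LSeries.term (fun n => F n * (vonMangoldt n : ℂ)) (σ + τ * I) n =
      ((vonMangoldt n * (n : ℝ) ^ (-σ) : ℝ) : ℂ) * (F n * (n : ℂ) ^ (((-τ : ℝ) : ℂ) * I)) := by
  have h := Z.cpow_neg_split (Nat.pos_of_ne_zero hn) ((σ : ℂ) + τ * I)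
  simp only [add_re, ofReal_re, mul_re, I_re, mul_zero, ofReal_im, I_im, mul_one, sub_self,
    add_zero, add_im, mul_im, zero_add] at h
  rw [LSeries.term_of_ne_zero hn, div_eq_mul_inv, ← cpow_neg, h, ofReal_mul]
  ring

lemma core_T341 (F G : ℕ → ℂ) {σ t : ℝ} (hσ : 1 < σ)
    (hF : LSeriesSummable (fun n => F n * (vonMangoldt n : ℂ)) (σ + t * I))
    (hG : LSeriesSummable (fun n => G n * (vonMangoldt n : ℂ)) (σ + (2 * t : ℝ) * I))
    (h : ∀ (n : ℕ) (u : ℂ), ‖u‖ = 1 → 0 ≤ 3 + 4 * (F n * u).re + (G n * u ^ 2).re) :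
    0 ≤ 3 * (-logDeriv riemannZeta σ).re +
      4 * (LSeries (fun n => F n * (vonMangoldt n : ℂ)) (σ + t * I)).re +
      (LSeries (fun n => G n * (vonMangoldt n : ℂ)) (σ + (2 * t : ℝ) * I)).re := by
  have h1 : 1 < ((σ : ℂ) + (0 : ℝ) * I).re := by simpa using hσ
  have h0 : LSeriesSummable (fun n => (1 : ℂ) * (vonMangoldt n : ℂ)) (σ + (0 : ℝ) * I) := by
    simpa only [one_mul] using LSeriesSummable_vonMangoldt h1
  have h2 := ((((hasSum_re h0.hasSum).mul_left 3).add ((hasSum_re hF.hasSum).mul_left 4)).add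
    (hasSum_re hG.hasSum)).nonneg fun n => by
      rcases eq_or_ne n 0 with rfl | hn
      · simp
      have n0 : (n : ℂ) ≠ 0 := by exact_mod_cast hn
      have e : (n : ℂ) ^ (((-(2 * t) : ℝ) : ℂ) * I) = ((n : ℂ) ^ (((-t : ℝ) : ℂ) * I)) ^ 2 := by
        rw [sq, ← cpow_add _ _ n0]
        congr 1
        push_cast
        ring
      have a := h n _ (Z.norm_cpow_I (Nat.pos_of_ne_zero hn) (-t))
      have b : 0 ≤ vonMangoldt n * (n : ℝ) ^ (-σ) := mul_nonneg vonMangoldt_nonneg (by positivity)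
      rw [term_T341 (fun _ => 1) _ _ hn, term_T341 _ _ _ hn, term_T341 _ _ _ hn, e, neg_zero,
        ofReal_zero, zero_mul, cpow_zero, re_ofReal_mul, re_ofReal_mul, re_ofReal_mul, one_mul,
        one_re]
      nlinarith [mul_nonneg b a]
  have h3 := Z.LS_eq h1
  simp only [one_mul] at h2
  rw [ofReal_zero, zero_mul, add_zero] at h3 h2
  rw [← h3]
  exact h2

lemma pos_T341 {z : ℂ} (hz : ‖z‖ ≤ 1) : 0 ≤ 3 + 4 * z.re + (z ^ 2).re := by
  have h1 : z.re ^ 2 + z.im ^ 2 ≤ 1 := by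
    have := pow_le_one₀ (norm_nonneg z) hz (n := 2)
    rw [Complex.sq_norm, normSq_apply] at this
    linarith
  rw [sq, mul_re]
  nlinarith [sq_nonneg (1 + z.re)]

lemma three_T341 {q : ℕ} [NeZero q] (χ : DirichletCharacter ℂ q) (s : ℂ) (h1 : 1 < s.re)
    (h2 : s.re ≤ 2) : (s.re - 1) / 2 ≤ ‖LFunction χ s‖ := by
  have a1 := ZetaAsymptotics.zeta_limit_aux1 h1
  have a2 : 0 ≤ ZetaAsymptotics.termTSum s.re :=
    tsum_nonneg fun n => ZetaAsymptotics.term_nonneg _ _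
  have a3 : Summable fun n : ℕ => 1 / (n + 1 : ℝ) ^ s.re := by
    simpa using (summable_nat_add_iff 1).2 (Real.summable_one_div_nat_rpow.2 h1)
  have a4 := (hasSum_nat_add_iff' 1).2
    (χ.LSeriesSummable_mul (LSeriesSummable_moebius_iff.2 h1)).hasSum
  simp only [sum_range_one, LSeries.term_zero, sub_zero] at a4
  have a5 := a4.norm_le_of_bounded a3.hasSum fun n => by
    rw [LSeries.norm_term_eq, if_neg n.succ_ne_zero, Pi.mul_apply, norm_mul, Complex.norm_intCast]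
    push_cast
    gcongr
    exact mul_le_one₀ (χ.norm_le_one _) (abs_nonneg _) (by exact_mod_cast abs_moebius_le_one)
  have a6 := congrArg norm (LSeries.mul_mu_eq_one χ h1)
  rw [← LFunction_eq_LSeries χ h1, norm_mul, norm_one] at a6
  have a7 : 0 < s.re - 1 := by linarith
  have a8 := a5.trans (show _ ≤ 1 + 1 / (s.re - 1) by nlinarith)
  have a9 := mul_le_mul_of_nonneg_left a8 (norm_nonneg (LFunction χ s))
  have a10 := mul_le_mul_of_nonneg_left (a6.symm.le.trans a9) a7.le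
  rw [mul_left_comm, mul_add, mul_one_div_cancel a7.ne'] at a10
  nlinarith [norm_nonneg (LFunction χ s)]

theorem s_T341 : StT341 := by
  intro q _ χ
  have h1 : ∀ {σ : ℝ} (τ : ℝ), 1 < σ → 1 < ((σ : ℂ) + τ * I).re := fun τ h => by simpa using h
  have hn : ∀ (n : ℕ) (u : ℂ), ‖u‖ = 1 → ‖χ n * u‖ ≤ 1 := fun n u hu => by
    rw [norm_mul, hu, mul_one]
    exact χ.norm_le_one _
  refine ⟨fun σ t hσ => ?_, fun h σ t hσ => ?_, three_T341 χ⟩
  · have := core_T341 (fun n => χ n) (fun n => (χ ^ 2) n) hσ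
      (χ.LSeriesSummable_twist_vonMangoldt (h1 t hσ))
      ((χ ^ 2).LSeriesSummable_twist_vonMangoldt (h1 (2 * t) hσ)) fun n u hu => by
        rw [MulChar.pow_apply' _ two_ne_zero, ← mul_pow]
        exact pos_T341 (hn n u hu)
    rw [LS_T341 χ (h1 t hσ), LS_T341 (χ ^ 2) (h1 (2 * t) hσ)] at this
    refine this.trans_eq ?_
    simp only [sub_re, neg_re, mul_re, re_ofNat, im_ofNat, neg_im]
    ring
  · have := core_T341 (fun n => χ n) (fun _ => 1) hσ
      (χ.LSeriesSummable_twist_vonMangoldt (h1 t hσ))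
      (by simpa only [one_mul] using LSeriesSummable_vonMangoldt (h1 (2 * t) hσ))
      fun n u hu => by
        by_cases c : IsUnit (n : ZMod q)
        · have e : χ n ^ 2 = 1 := by
            rw [← MulChar.pow_apply' _ two_ne_zero, h, MulChar.one_apply c]
          rw [← e, ← mul_pow]
          exact pos_T341 (hn n u hu)
        · have a := (abs_le.1 (abs_re_le_norm (u ^ 2))).1
          rw [norm_pow, hu] at a
          rw [χ.map_nonunit c, zero_mul, one_mul, zero_re]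
          linarith
    simp only [one_mul] at this
    rw [LS_T341 χ (h1 t hσ), Z.LS_eq (h1 (2 * t) hσ)] at this
    refine this.trans_eq ?_
    simp only [sub_re, neg_re, mul_re, re_ofNat, im_ofNat, neg_im]
    ring

end Pool.Agent.MP_436a94_nt.A

end

section

/-!
The twisted prime number theorem for characters of small modulus.
-/

set_option autoImplicit false

open Finset Filter

namespace Pool.Agent.MP_436a94_nt.A

open Pool.Agent.MP_2a1f0e_nt Pool.Agent.MP_c853c5_nt Pool.Agent.MP_e23604_nt DirichletCharacter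

lemma num_Tw (A : ℕ) {C K L x E : ℝ} (hC : 0 < C) (hK : 0 ≤ K) (hL : 1 ≤ L) (hx : 0 < x)
    (hE' : E * L ^ (2 * A + 5) ≤ 1) (hbig : C * (2 + 2 * K) ≤ L) :
    C * (x ^ 2 / (x / L ^ (A + 2)) * (L ^ 2 / L ^ (2 * A + 6) +
      K * L ^ 2 / (L ^ (2 * A + 6)) ^ 2 + K * L ^ 2 * E) + x / L ^ (A + 2) * L) ≤ x / L ^ A := by
  have L0 : 0 < L := by linarith
  obtain ⟨v, hv⟩ : ∃ v : ℝ, v = L ^ A := ⟨_, rfl⟩
  have hv1 : 1 ≤ v := by rw [hv]; exact one_le_pow₀ hL
  have hv0 : 0 < v := by linarith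
  have e2 : L ^ (A + 2) = v * L ^ 2 := by rw [hv]; ring
  have e3 : L ^ (2 * A + 6) = v ^ 2 * L ^ 6 := by rw [hv]; ring
  have e4 : L ^ (2 * A + 5) = v ^ 2 * L ^ 5 := by rw [hv]; ring
  rw [e4] at hE'
  rw [e2, e3, ← hv]
  have t1 : x ^ 2 / (x / (v * L ^ 2)) * (L ^ 2 / (v ^ 2 * L ^ 6)) ≤ x / (v * L) := by
    have : x ^ 2 / (x / (v * L ^ 2)) * (L ^ 2 / (v ^ 2 * L ^ 6)) = x / (v * L) / L := by
      field_simp
    rw [this]
    exact div_le_self (by positivity) hL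
  have t2 : x ^ 2 / (x / (v * L ^ 2)) * (K * L ^ 2 / (v ^ 2 * L ^ 6) ^ 2) ≤
      K * (x / (v * L)) := by
    have : x ^ 2 / (x / (v * L ^ 2)) * (K * L ^ 2 / (v ^ 2 * L ^ 6) ^ 2) =
        K * (x / (v * L)) / (v ^ 2 * L ^ 7) := by field_simp
    rw [this]
    exact div_le_self (by positivity)
      (one_le_mul_of_one_le_of_one_le (one_le_pow₀ hv1) (one_le_pow₀ hL))
  have t3 : x ^ 2 / (x / (v * L ^ 2)) * (K * L ^ 2 * E) ≤ K * (x / (v * L)) := by
    have : x ^ 2 / (x / (v * L ^ 2)) * (K * L ^ 2 * E) =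
        K * (x / (v * L)) * (E * (v ^ 2 * L ^ 5)) := by field_simp
    rw [this]
    exact mul_le_of_le_one_right (by positivity) hE'
  have t4 : x / (v * L ^ 2) * L = x / (v * L) := by field_simp
  have hy : 0 < x / (v * L) := by positivity
  have t5 : x / v = L * (x / (v * L)) := by field_simp
  rw [t4, t5, mul_add (x ^ 2 / (x / (v * L ^ 2))), mul_add (x ^ 2 / (x / (v * L ^ 2)))]
  calc _ ≤ C * ((2 + 2 * K) * (x / (v * L))) := by
        refine mul_le_mul_of_nonneg_left ?_ hC.le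
        linarith
    _ = C * (2 + 2 * K) * (x / (v * L)) := by ring
    _ ≤ _ := mul_le_mul_of_nonneg_right hbig hy.le

lemma coef_Tw {q : ℕ} (χ : DirichletCharacter ℂ q) (t : ℝ) (n : ℕ) :
    ‖La n * (χ n * GM.pw (n : ℝ) t)‖ ≤ 1 + Real.log n := by
  rw [norm_mul, norm_mul, GM.norm_pw, mul_one, La, Complex.norm_real,
    Real.norm_of_nonneg ArithmeticFunction.vonMangoldt_nonneg]
  have h1 : ‖χ n‖ ≤ 1 := DirichletCharacter.norm_le_one χ _
  have h2 := ArithmeticFunction.vonMangoldt_le_log (n := n)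
  have h3 := ArithmeticFunction.vonMangoldt_nonneg (n := n)
  nlinarith

lemma LS_Tw {q : ℕ} [NeZero q] (χ : DirichletCharacter ℂ q) (t : ℝ) {s : ℂ} (hs : 1 < s.re) :
    -logDeriv (LFunction χ) (s - t * Complex.I) =
      LSeries (fun n => La n * (χ n * GM.pw (n : ℝ) t)) s := by
  rw [← LS_T341 χ (by simpa using hs)]
  refine tsum_congr fun n => ?_
  rcases eq_or_ne n 0 with rfl | hn
  · simp
  have n0 : (n : ℂ) ≠ 0 := by exact_mod_cast hn
  rw [LSeries.term_of_ne_zero hn, LSeries.term_of_ne_zero hn, Complex.cpow_sub _ _ n0,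
    Z.pw_eq_cpow (Nat.pos_of_ne_zero hn), La, div_div_eq_mul_div]
  ring

lemma diff_Tw {q : ℕ} [NeZero q] {χ : DirichletCharacter ℂ q} (hχ : χ ≠ 1) (t : ℝ) {s : ℂ}
    (hs : LFunction χ (s - t * Complex.I) ≠ 0) :
    DifferentiableAt ℂ (fun s => -logDeriv (LFunction χ) (s - t * Complex.I)) s :=
  ((P.xSPsi_diff (differentiable_LFunction hχ) hs).comp s (differentiableAt_id.sub_const _)).neg

lemma low_Tw (A B : ℕ) : ∀ᶠ x : ℝ in atTop, ∀ (q : ℕ) [NeZero q] (χ : DirichletCharacter ℂ q)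
    (t : ℝ), (q : ℝ) ≤ Real.log x ^ B → χ ≠ 1 → |t| ≤ 2 * Real.log x ^ (2 * A + 6) →
    ‖∑ n ∈ Icc 1 ⌊x⌋₊, La n * (χ n * GM.pw (n : ℝ) t)‖ ≤ x / Real.log x ^ A := by
  have hn : 0 < B + (2 * A + 6 + 1) := by omega
  have hε : (0 : ℝ) < 1 / (2 * ((B + (2 * A + 6 + 1) : ℕ) : ℝ)) := by positivity
  obtain ⟨c, hc, hc2, H⟩ := P.zf_L hε
  filter_upwards [P.xSPsi_cor A hc hc2 (K := 1 / c) (by positivity),
    Real.tendsto_log_atTop.eventually_ge_atTop 3] with x hcor hL3 q _ χ t hq hχ ht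
  have hL1 : 1 ≤ Real.log x := by linarith
  have hq0 : (0 : ℝ) < q := by exact_mod_cast Nat.pos_of_ne_zero (NeZero.ne q)
  have hT1 : 1 ≤ Real.log x ^ (2 * A + 6) := one_le_pow₀ hL1
  have hqT : (0 : ℝ) < q * (3 * Real.log x ^ (2 * A + 6)) := by positivity
  have hr : ((q : ℝ) * (3 * Real.log x ^ (2 * A + 6))) ^
      (1 / (2 * ((B + (2 * A + 6 + 1) : ℕ) : ℝ))) ≤ √(Real.log x) := by
    refine P.xSPsi_rpow hn hL1 hqT.le ?_
    rw [pow_add (Real.log x) B, pow_succ' _ (2 * A + 6)]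
    gcongr
  have hz : ∀ s ∈ Set.Icc (1 - c / √(Real.log x)) (1 + c / √(Real.log x)) ×ℂ
        Set.Icc (-(Real.log x ^ (2 * A + 6))) (Real.log x ^ (2 * A + 6)),
      LFunction χ (s - t * Complex.I) ≠ 0 ∧
        ‖logDeriv (LFunction χ) (s - t * Complex.I)‖ ≤ 1 / c * √(Real.log x) := by
    intro s hs
    obtain ⟨h1, h2⟩ := P.xSPsi_mem hs
    obtain ⟨h3, h4⟩ := H q χ hχ (3 * Real.log x ^ (2 * A + 6)) (by linarith) (s - t * Complex.I)
      (by simpa using h1.trans (P.xSPsi_width hc.le hqT hr)) (by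
        have e : (s - t * Complex.I).im = s.im - t := by simp
        rw [e]
        linarith [abs_sub s.im t])
    refine ⟨h3, h4.trans ?_⟩
    rw [one_div_mul_eq_div]
    exact div_le_div_of_nonneg_right hr hc.le
  exact hcor _ (fun s => -logDeriv (LFunction χ) (s - t * Complex.I)) (coef_Tw χ t)
    (fun s hs => (diff_Tw hχ t (hz s hs).1).differentiableWithinAt) (fun s hs => LS_Tw χ t hs)
    fun s hs => by
      rw [norm_neg]
      exact (hz s hs).2

lemma high_Tw (hD : StLd) (k A B : ℕ) : ∀ᶠ x : ℝ in atTop, ∀ (q : ℕ) [NeZero q]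
    (χ : DirichletCharacter ℂ q) (t : ℝ), (q : ℝ) ≤ Real.log x ^ B → χ ≠ 1 →
    2 * Real.log x ^ (2 * A + 6) ≤ |t| → |t| ≤ x ^ k →
    ‖∑ n ∈ Icc 1 ⌊x⌋₊, La n * (χ n * GM.pw (n : ℝ) t)‖ ≤ x / Real.log x ^ A := by
  obtain ⟨t₀, -, hD⟩ := hD
  obtain ⟨D, T₀, hD1, -, hD⟩ := hD B
  obtain ⟨C, hC, H⟩ := P.tauber
  obtain ⟨κ, hκ⟩ : ∃ κ : ℝ, κ = ((k + 2 : ℕ) : ℝ) := ⟨_, rfl⟩
  have κ1 : 1 ≤ κ := by
    rw [hκ]
    exact_mod_cast (by omega : 1 ≤ k + 2)
  have hU := (tendsto_rpow_atTop (show (0 : ℝ) < 1 / 40 by norm_num)).comp Real.tendsto_log_atTop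
  filter_upwards [P.xSPsi_log_pow (A + 2), P.xSPsi_log_pow (2 * A + 6),
    eventually_ge_atTop (3 : ℝ), eventually_ge_atTop T₀,
    hU.eventually (P.xSPsi_pow_exp (40 * (2 * A + 5)) (c := 1 / (2 * κ)) (by positivity)),
    hU.eventually_ge_atTop (2 * κ), Real.tendsto_log_atTop.eventually_ge_atTop 1,
    Real.tendsto_log_atTop.eventually_ge_atTop t₀,
    Real.tendsto_log_atTop.eventually_ge_atTop (C * (2 + 2 * (D * κ ^ 2)))]
    with x h1 h2 h3 h3' h4 h5 hL1 h6 h7 q _ χ t hq hχ t1 t2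
  simp only [Function.comp_apply] at h4 h5
  have hx0 : 0 < x := by linarith
  have L0 : 0 < Real.log x := by linarith
  have hP : 0 < Real.log x ^ (A + 2) := by positivity
  have xk : 1 ≤ x ^ k := one_le_pow₀ (by linarith)
  have xT : x ^ k + x + 2 ≤ x ^ (k + 2) := by
    rw [pow_add]
    nlinarith [mul_le_mul_of_nonneg_left xk (show 0 ≤ x ^ 2 - 1 by nlinarith)]
  have lT : Real.log (x ^ (k + 2)) = κ * Real.log x := by rw [Real.log_pow, hκ]
  have l1 : Real.log x ≤ κ * Real.log x := le_mul_of_one_le_left L0.le κ1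
  have hD' := hD (x ^ (k + 2)) (by linarith) q χ hχ (by
    rw [lT]
    exact hq.trans (pow_le_pow_left₀ L0.le l1 B))
  rw [lT] at hD'
  have u40 : Real.log x = (Real.log x ^ (1 / 40 : ℝ)) ^ 40 := by
    rw [← Z.pow_ZF0 L0.le 40]
    norm_num
  have w1 : Real.log x ^ (1 / 40 : ℝ) / (2 * κ * Real.log x) ≤
      (κ * Real.log x) ^ (-(39 / 40) : ℝ) / 2 := by
    have b1 : κ ^ (-1 : ℝ) ≤ κ ^ (-(39 / 40) : ℝ) :=
      Real.rpow_le_rpow_of_exponent_le κ1 (by norm_num)
    have b2 : Real.log x ^ (-(39 / 40) : ℝ) = Real.log x ^ (1 / 40 : ℝ) / Real.log x := by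
      rw [← Real.rpow_sub_one L0.ne']
      norm_num
    rw [Real.mul_rpow (by linarith) L0.le, b2]
    rw [Real.rpow_neg_one] at b1
    calc _ = κ⁻¹ * (Real.log x ^ (1 / 40 : ℝ) / Real.log x) / 2 := by field_simp
      _ ≤ _ := by gcongr
  have w2 := (Z.delta_PLd (hL1.trans l1)).2.1
  generalize Real.log x ^ (1 / 40 : ℝ) = u at *
  have hH : Real.log x ≤ Real.log x ^ (2 * A + 6) := le_self_pow₀ hL1 (by omega)
  have hz : ∀ s ∈ Set.Icc (1 - u / (2 * κ * Real.log x)) (1 + u / (2 * κ * Real.log x)) ×ℂ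
        Set.Icc (-(Real.log x ^ (2 * A + 6))) (Real.log x ^ (2 * A + 6)),
      LFunction χ (s - t * Complex.I) ≠ 0 ∧
        ‖logDeriv (LFunction χ) (s - t * Complex.I)‖ ≤ D * (κ * Real.log x) ^ 2 := by
    intro s hs
    obtain ⟨b1, b2⟩ := P.xSPsi_mem hs
    have b3 := abs_le.1 b1
    have e1 : (s - t * Complex.I).re = s.re := by simp
    have e2 : (s - t * Complex.I).im = s.im - t := by simp
    have b4 := abs_sub_abs_le_abs_sub t s.im
    rw [abs_sub_comm] at b4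
    exact hD' _ (by rw [e1]; linarith [b3.1]) (by rw [e1]; linarith [b3.2])
      (by rw [e2]; linarith) (by rw [e2]; linarith [abs_sub s.im t])
  have key := H _ (fun s => -logDeriv (LFunction χ) (s - t * Complex.I))
    (u / (2 * κ * Real.log x)) (Real.log x ^ (2 * A + 6)) (D * κ ^ 2 * Real.log x ^ 2) x
    (x / Real.log x ^ (A + 2)) (coef_Tw χ t) h3 ((one_le_div hP).2 h1)
    (div_le_self hx0.le (one_le_pow₀ hL1)) (one_le_pow₀ hL1) (by linarith)
    (by
      rw [div_le_div_iff₀ L0 (by positivity)]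
      nlinarith)
    (fun s hs => (diff_Tw hχ t (hz s hs).1).differentiableWithinAt)
    (fun s hs _ _ => LS_Tw χ t hs) fun s hs => by
      rw [norm_neg, mul_assoc, ← mul_pow]
      exact (hz s hs).2
  refine key.trans (num_Tw A hC (by positivity) hL1 hx0 ?_ h7)
  have e : x ^ (-(u / (2 * κ * Real.log x))) = (Real.exp (1 / (2 * κ) * u))⁻¹ := by
    rw [Real.rpow_def_of_pos hx0, ← Real.exp_neg]
    congr 1
    field_simp
  rw [e, inv_mul_le_iff₀ (Real.exp_pos _), mul_one, u40, ← pow_mul]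
  exact h4

theorem s_Tw (hD : StLd) : StTw := by
  intro k A B
  filter_upwards [tendsto_natCast_atTop_atTop.eventually (low_Tw A B),
    tendsto_natCast_atTop_atTop.eventually (high_Tw hD k A B)] with x h1 h2 q χ t q1 hq hχ ht
  have : NeZero q := ⟨by omega⟩
  rw [Nat.floor_natCast] at h1 h2
  rcases le_total |t| (2 * Real.log x ^ (2 * A + 6)) with h | h
  · exact h1 q χ t hq hχ h
  · exact h2 q χ t hq hχ h ht

end Pool.Agent.MP_436a94_nt.A

end
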