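import Pool.Agent.Mg.F436a94p.Ga92a96
import Pool.Agent.Mg.F436a94p.G184d2a
import Pool.Agent.MP_357fb4_an.Nu

set_option linter.all false

section

/-!
The weight of the primes over one cell.
-/

set_option autoImplicit false

open Finset Filter

noncomputable section

namespace Pool.Agent.MP_9d0b4d_nt

open Pool.Agent.GT (av pr ind)
open Pool.Agent.MP_43e117_nt.PG (th PS)

namespace CellX

theorem th0 (n : ℕ) : 0 ≤ th n := by
  unfold th
  split_ifs
  · exact Real.log_natCast_nonneg n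
  · exact le_rfl

theorem ind0 (p : Prop) : 0 ≤ ind p := by
  unfold ind
  split_ifs <;> norm_num

theorem tot (s t : ℕ) : (t * s).totient ≤ t * s.totient := by
  induction t using induction_on_primes with
  | zero => simp
  | one => simp
  | prime_mul p a hp ih =>
    rw [mul_assoc, mul_assoc]
    refine le_trans ?_ (Nat.mul_le_mul_left p ih)
    by_cases h : p ∣ a * s
    · rw [Nat.totient_mul_of_prime_of_dvd hp h]
    · rw [Nat.totient_mul_of_prime_of_not_dvd hp h]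
      exact Nat.mul_le_mul_right _ (Nat.sub_le _ _)

theorem start {u r : ℕ} (h : u.Coprime r) (hr : 0 < r) (A m : ℕ) :
    ∃ a < r, u * (A + a) ≡ m [MOD r] := by
  have : NeZero r := ⟨hr.ne'⟩
  refine ⟨((u : ZMod r)⁻¹ * m - A).val, ZMod.val_lt _, (ZMod.natCast_eq_natCast_iff _ _ _).1 ?_⟩
  push_cast
  rw [ZMod.natCast_zmod_val, add_sub_cancel, ← mul_assoc, ZMod.coe_mul_inv_eq_one u h, one_mul]

/-- the primes of the progression lie over the cell -/
theorem inc {u r M' l a D N m β e : ℕ} (hk : 0 < u * a) (hr : 0 < r) (hL : 0 < r * M' * l)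
    (hm : m = u * a + r * β) (he : r * M' * l * (m / (r * M' * l)) = u * a + e)
    (h4 : 4 * (r * M' * l) ≤ N) (hD : 3 * N ≤ r * D) (hN : m < 2 * N) :
    ∑ n ∈ (Ioc (u * a * e) (u * a * e + u * a * (r * M' * l))).filter
        (fun n => n ≡ u * r * a * β + 1 [MOD u * r * a * M']), th n ≤
      ∑ d ∈ range D, th (u * r * a * d + 1) * ind (same (r * M') l (u * a + r * d) m) := by
  classical
  have hc : 0 < u * r * a := by rw [mul_right_comm]; exact Nat.mul_pos hk hr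
  have e1 : ∑ d ∈ range D, th (u * r * a * d + 1) * ind (same (r * M') l (u * a + r * d) m) =
      ∑ n ∈ ((range D).filter fun d => same (r * M') l (u * a + r * d) m).image
        fun d => u * r * a * d + 1, th n := by
    rw [sum_image fun x _ y _ h => Nat.eq_of_mul_eq_mul_left hc (Nat.add_right_cancel h),
      sum_filter]
    refine sum_congr rfl fun d _ => ?_
    unfold ind
    split_ifs <;> simp
  rw [e1]
  refine sum_le_sum_of_subset_of_nonneg (fun n hn => ?_) fun n _ _ => th0 n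
  obtain ⟨h1, h2⟩ := mem_filter.1 hn
  obtain ⟨h3, h5⟩ := mem_Ioc.1 h1
  have h6 : 1 ≡ n [MOD u * r * a] := by
    refine (((h2.of_mul_right M').trans ?_)).symm
    simp [Nat.ModEq]
  obtain ⟨d, hd⟩ := (Nat.modEq_iff_dvd' (by omega)).1 h6
  obtain rfl : n = u * r * a * d + 1 := by omega
  have h7 : d ≡ β [MOD M'] :=
    Nat.ModEq.mul_left_cancel' hc.ne' (Nat.ModEq.add_right_cancel' 1 h2)
  have e2 : u * r * a * d = u * a * (r * d) := by ring
  rw [e2] at h3 h5
  have h8 : e ≤ r * d := Nat.le_of_mul_le_mul_left (Nat.lt_succ_iff.1 h3) hk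
  have h9 : r * d < e + r * M' * l := by
    refine Nat.lt_of_mul_lt_mul_left (a := u * a) ?_
    rw [mul_add]
    omega
  have h10 := Nat.mul_div_le m (r * M' * l)
  refine mem_image.2 ⟨d, mem_filter.2 ⟨mem_range.2 ?_, ?_, ?_⟩, rfl⟩
  · exact Nat.lt_of_mul_lt_mul_left (a := r) (by omega)
  · rw [hm]
    exact (h7.mul_left' r).add_left _
  · rw [Nat.div_div_eq_div_mul, Nat.div_div_eq_div_mul, Nat.div_eq_iff hL, mul_comm, he]
    omega

/-- one value of `a` -/
theorem one {u r M' l A a D N Q m : ℕ} {E : ℕ → ℝ} {Y0 Y1 Y2 Err : ℝ}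
    (hB : BVD E Q Y0 Y1 Y2 Err) (hu : 0 < u) (hr : 0 < r) (hM : r * M' ∣ (u * r) ^ 4) (hl : 0 < l)
    (hA : 0 < A) (h4 : 4 * (r * M') * l ≤ N) (h8 : 8 * u * A ≤ N) (hD : 3 * N ≤ r * D)
    (hY0 : 2 * Y0 ≤ N) (hY1 : Y1 ≤ A * ((r * M' : ℕ) : ℝ) * l)
    (hY2 : 6 * (u : ℝ) * A * N ≤ Y2) (hN : N ≤ m) (hN' : m < 2 * N) (ha : A ≤ a) (ha' : a < 2 * A)
    (hc : u * a ≡ m [MOD r]) (hq : u * r * a * M' ≤ Q) :
    sg (u * r) * l / 4 - E (u * r * a * M') ≤
      ∑ d ∈ range D, th (u * r * a * d + 1) * ind (same (r * M') l (u * a + r * d) m) := by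
  have hs : 0 < u * r := Nat.mul_pos hu hr
  have ha0 : 0 < a := hA.trans_le ha
  have hM0 : 0 < M' := Nat.pos_of_mul_pos_left (Nat.pos_of_dvd_of_pos hM (by positivity))
  have hL : 0 < r * M' * l := by positivity
  have hk : 0 < u * a := Nat.mul_pos hu ha0
  have hk1 : u * a ≤ 2 * (u * A) := by nlinarith
  have hk2 : A ≤ u * a := ha.trans (Nat.le_mul_of_pos_left _ hu)
  rw [mul_assoc 8] at h8
  rw [mul_assoc 4] at h4
  obtain ⟨β, hβ⟩ := (Nat.modEq_iff_dvd' (by omega)).1 hc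
  have h1 := Nat.mul_div_le m (r * M' * l)
  have h2 := Nat.lt_mul_div_succ m hL
  rw [mul_add, mul_one] at h2
  obtain ⟨e, he⟩ := Nat.exists_eq_add_of_le
    (show u * a ≤ r * M' * l * (m / (r * M' * l)) by omega)
  refine le_trans ?_ (inc (β := β) hk hr hL (by omega) he h4 hD hN')
  have hco : (u * r * a * β + 1).Coprime (u * r * a * M') := by
    have c1 : (u * r * a * β + 1).Coprime (u * r * a) := by simp
    exact c1.mul_right (((c1.coprime_mul_right_right).pow_right 4).coprime_dvd_right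
      ((Dvd.intro_left r rfl).trans hM))
  refine le_trans ?_ (hB.2.2 _ _ _ _ (Nat.succ_le_of_lt (by positivity)) hq hco ?_ ?_ ?_)
  · refine sub_le_sub_right ?_ _
    have t1 : (u * r * a * M').totient ≤ a * M' * (u * r).totient := by
      rw [show u * r * a * M' = a * M' * (u * r) by ring]
      exact tot _ _
    have t2 : (0 : ℝ) < (u * r).totient := by exact_mod_cast Nat.totient_pos.2 hs
    have t3 : (0 : ℝ) < (u * r * a * M').totient := by
      exact_mod_cast Nat.totient_pos.2 (by positivity)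
    have t4 : ((u * r * a * M').totient : ℝ) ≤ a * M' * (u * r).totient := by exact_mod_cast t1
    rw [sg, Nat.cast_add, add_sub_cancel_left, div_mul_eq_mul_div, div_div,
      div_le_div_iff₀ (by positivity) (by positivity)]
    push_cast
    have t5 := mul_le_mul_of_nonneg_left t4 (show (0 : ℝ) ≤ 4 * (u * r * l) by positivity)
    linarith
  · have t1 : N ≤ 2 * (u * a * e) := by
      have : e ≤ u * a * e := Nat.le_mul_of_pos_left _ hk
      omega
    have t2 : (N : ℝ) ≤ 2 * (u * a * e : ℕ) := by exact_mod_cast t1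
    linarith
  · have t1 : A * (r * M') * l ≤ u * a * (r * M' * l) := by
      rw [mul_assoc]
      exact Nat.mul_le_mul_right _ hk2
    have t2 : (A : ℝ) * (r * M' : ℕ) * l ≤ (u * a * (r * M' * l) : ℕ) := by exact_mod_cast t1
    rw [Nat.cast_add]
    linarith
  · have t1 : u * a * e + u * a * (r * M' * l) ≤ 6 * u * A * N := by
      rw [← mul_add, show 6 * u * A * N = 2 * (u * A) * (3 * N) by ring]
      exact Nat.mul_le_mul hk1 (by omega)
    refine le_trans ?_ hY2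
    exact_mod_cast t1

end CellX

theorem sCell : StCell := by
  intro s u r M l A D N Q m E Y0 Y1 Y2 Err hB hs hco hu hr hrM hM hl hrA h4 h8 hD hQ hY0 hY1 hY2
    hN hN'
  obtain ⟨M', rfl⟩ := hrM
  subst hs
  have hA : 0 < A := hr.trans_le hrA
  have hM0 : 0 < M' := Nat.pos_of_mul_pos_left (Nat.pos_of_dvd_of_pos hM (by positivity))
  obtain ⟨a0, h0, hc⟩ := CellX.start hco hr A m
  have hlt : ∀ j ∈ range (A / r), a0 + r * j < A := fun j hj => by
    have h1 := Nat.mul_le_mul_left r (Nat.succ_le_of_lt (mem_range.1 hj))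
    have h2 := Nat.mul_div_le A r
    rw [Nat.mul_succ] at h1
    omega
  have hq : ∀ j ∈ range (A / r), u * r * (A + (a0 + r * j)) * M' ≤ Q := fun j hj => by
    have h1 := hlt j hj
    refine le_trans ?_ hQ
    rw [show 2 * (u * r) * A * (r * M') = u * r * (2 * A) * (r * M') by ring]
    exact Nat.mul_le_mul (Nat.mul_le_mul_left _ (by omega)) (Nat.le_mul_of_pos_left _ hr)
  have inj : ∀ x y, a0 + r * x = a0 + r * y → x = y := fun x y h =>
    Nat.eq_of_mul_eq_mul_left hr (Nat.add_left_cancel h)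
  have e1 := sum_le_sum fun j hj => CellX.one hB hu hr hM hl hA h4 h8 hD hY0 hY1 hY2 hN hN'
    (Nat.le_add_right A (a0 + r * j)) (by have := hlt j hj; omega) (by
      refine Nat.ModEq.trans ?_ hc
      rw [← add_assoc]
      exact Nat.ModEq.mul_left u (by simp [Nat.ModEq])) (hq j hj)
  have e2 : ∑ j ∈ range (A / r), E (u * r * (A + (a0 + r * j)) * M') ≤ Err := by
    refine le_trans ?_ hB.2.1
    rw [← sum_image (g := fun j => u * r * (A + (a0 + r * j)) * M') fun x _ y _ h => inj x y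
      (Nat.add_left_cancel (Nat.eq_of_mul_eq_mul_left (by positivity)
        (Nat.eq_of_mul_eq_mul_right hM0 h)))]
    refine sum_le_sum_of_subset_of_nonneg (fun q hq' => ?_) fun q _ _ => hB.1 q
    obtain ⟨j, hj, rfl⟩ := mem_image.1 hq'
    exact mem_Icc.2 ⟨Nat.succ_le_of_lt (by positivity), hq j hj⟩
  rw [sum_sub_distrib, sum_const, card_range, nsmul_eq_mul,
    ← sum_image (g := fun j => a0 + r * j) (f := fun a => ∑ d ∈ range D,
      th (u * r * (A + a) * d + 1) * ind (same (r * M') l (u * (A + a) + r * d) m))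
      fun x _ y _ h => inj x y h] at e1
  refine le_trans ?_ (e1.trans (sum_le_sum_of_subset_of_nonneg (fun a ha => ?_) fun a _ _ =>
    sum_nonneg fun d _ => mul_nonneg (CellX.th0 _) (CellX.ind0 _)))
  · have h1 : A ≤ 2 * r * (A / r) := by
      have h2 := Nat.lt_mul_div_succ A hr
      have h3 : r * 1 ≤ r * (A / r) := Nat.mul_le_mul_left r (Nat.div_pos hrA hr)
      rw [mul_add] at h2
      rw [mul_assoc]
      omega
    have h2 : (A : ℝ) ≤ 2 * r * (A / r : ℕ) := by exact_mod_cast h1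
    have h3 : 0 ≤ sg (u * r) * l := by unfold sg; positivity
    have h5 : sg (u * r) * A * l / (8 * r) ≤ (A / r : ℕ) * (sg (u * r) * l / 4) := by
      rw [div_le_iff₀ (by positivity)]
      nlinarith [mul_le_mul_of_nonneg_left h2 h3]
    linarith
  · obtain ⟨j, hj, rfl⟩ := mem_image.1 ha
    exact mem_range.2 (hlt j hj)

end Pool.Agent.MP_9d0b4d_nt

end
end

section

/-!
The parameters of the step: the conditions for primes in progressions.
-/

set_option autoImplicit false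

open Finset Filter

noncomputable section

namespace Pool.Agent.MP_9d0b4d_nt

open Pool.Agent.GT (av pr ind)
open Pool.Agent.MP_43e117_nt.PG (th PS)

namespace N2X

theorem sc_le {N k : ℕ} (hL : 0 < Real.log N) : (sc N k : ℝ) * Real.log N ^ k ≤ N :=
  (le_div_iff₀ (pow_pos hL k)).1 (Nat.floor_le (by positivity))

theorem sc_pos {N k : ℕ} (hL : 0 < Real.log N) (h : Real.log N ^ k ≤ N) : 1 ≤ sc N k :=
  Nat.le_floor (by rw [Nat.cast_one, le_div_iff₀ (pow_pos hL k), one_mul]; exact h)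

theorem dy_ge {N k : ℕ} (hL : 0 < Real.log N) (h : Real.log N ^ k ≤ N) :
    (N : ℝ) ≤ 4 * Real.log N ^ k * dy N k := by
  have h1 : (1 : ℝ) ≤ sc N k := by exact_mod_cast sc_pos hL h
  have h2 : (N : ℝ) / Real.log N ^ k < sc N k + 1 := Nat.lt_floor_add_one _
  have h3 : (sc N k : ℝ) ≤ 2 * dy N k := by
    have := Nat.lt_pow_succ_log_self (b := 2) (by norm_num) (sc N k)
    rw [Nat.pow_succ, mul_comm] at this
    exact_mod_cast this.le
  rw [div_lt_iff₀ (pow_pos hL k)] at h2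
  have h4 := pow_pos hL k
  nlinarith

theorem ev_pow (k : ℕ) : ∀ᶠ N : ℕ in atTop, Real.log N ^ k ≤ N := by
  have h := (Real.isLittleO_pow_log_id_atTop (n := k)).bound one_pos
  filter_upwards [tendsto_natCast_atTop_atTop.eventually h] with N hN
  rw [one_mul, Real.norm_eq_abs, id, Real.norm_natCast] at hN
  exact (le_abs_self _).trans hN

theorem ev_log (M : ℝ) : ∀ᶠ N : ℕ in atTop, M ≤ Real.log N :=
  (Real.tendsto_log_atTop.comp tendsto_natCast_atTop_atTop).eventually_ge_atTop M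

end N2X

open N2X in
theorem sN2 : StN2 := by
  intro s R α B τ hs hR hτ
  filter_upwards [ev_pow (α + 2 * B + 1), ev_log (12 * s), ev_log (2 * s ^ 9 * 4 ^ B),
    ev_log (4 * s * R / τ), eventually_gt_atTop 0] with N h1 h2 h3 h4 hN0 Y hY
  have s1 : (1 : ℝ) ≤ s := by exact_mod_cast hs
  have R0 : (0 : ℝ) < R := by exact_mod_cast hR
  have N0 : (0 : ℝ) < N := by exact_mod_cast hN0
  have L1 : 12 ≤ Real.log N := by linarith
  have L0 : 0 < Real.log N := by linarith
  have hA0 := sc_pos L0 h1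
  have hA1 := sc_le (k := α + 2 * B + 1) L0
  have hl := dy_ge (k := α) L0 ((pow_le_pow_right₀ (by linarith) (by omega)).trans h1)
  have hD : 3 * (N : ℝ) ≤ R * ((3 * N / R + 1 : ℕ) : ℝ) := by
    exact_mod_cast (Nat.lt_mul_div_succ (3 * N) hR).le
  have hNY : N ≤ Y := by
    rw [hY]
    exact Nat.le_mul_of_pos_left _ (by positivity)
  have hYr : (Y : ℝ) = 3 * s * sc N (α + 2 * B + 1) * N := by rw [hY]; push_cast; ring
  have hLY : Real.log N ≤ Real.log Y := Real.log_le_log N0 (by exact_mod_cast hNY)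
  have l0 : (0 : ℝ) < dy N α := by
    have : 0 < dy N α := pow_pos two_pos _
    exact_mod_cast this
  have A1 : (1 : ℝ) ≤ sc N (α + 2 * B + 1) := by exact_mod_cast hA0
  refine ⟨hNY, ?_⟩
  unfold G2
  generalize sc N (α + 2 * B + 1) = A at *
  generalize ((3 * N / R + 1 : ℕ) : ℝ) = D at *
  generalize (dy N α : ℝ) = l at *
  generalize hL : Real.log N = L at *
  have D0 : 0 < D := (mul_pos_iff_of_pos_left R0).1 (by linarith)
  have hA2 : (A : ℝ) * L ^ (2 * B) * L ≤ N := by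
    refine le_trans ?_ hA1
    rw [mul_assoc, ← pow_succ]
    exact mul_le_mul_of_nonneg_left (pow_le_pow_right₀ (by linarith) (by omega)) (by linarith)
  have hA3 : (A : ℝ) * L ≤ N := by
    refine le_trans (mul_le_mul_of_nonneg_right ?_ L0.le) hA2
    exact le_mul_of_one_le_right (by linarith) (one_le_pow₀ (by linarith))
  have hY4 : 4 * (Y : ℝ) ≤ (N : ℝ) ^ 2 := by
    have : 12 * s * (A : ℝ) ≤ N := by nlinarith
    rw [hYr]
    nlinarith
  have Y0 : (0 : ℝ) < Y := by rw [hYr]; positivity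
  have hLY2 : Real.log Y ≤ 2 * L := by
    have := Real.log_le_log Y0 (show (Y : ℝ) ≤ (N : ℝ) ^ 2 by linarith)
    rwa [Real.log_pow, hL, Nat.cast_ofNat] at this
  have LY0 : 0 < Real.log Y := by linarith
  have hdiv : ∀ j : ℕ, (Y : ℝ) / Real.log Y ^ j ≤ Y / L ^ j := fun j =>
    div_le_div_of_nonneg_left Y0.le (pow_pos L0 j) (pow_le_pow_left₀ L0.le hLY j)
  have P0 := pow_pos L0 α
  refine ⟨Nat.le_floor ?_, ?_, (hdiv _).trans ?_, by rw [hYr]; linarith, ?_⟩
  · rw [le_div_iff₀ (pow_pos LY0 B)]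
    refine le_trans (mul_le_mul_of_nonneg_left (pow_le_pow_left₀ LY0.le hLY2 B)
      (Nat.cast_nonneg _)) (Real.le_sqrt_of_sq_le ?_)
    have e : (((2 * s * A * s ^ 4 : ℕ) : ℝ) * (2 * L) ^ B) ^ 2 =
        (s * A) * (2 * (A * L ^ (2 * B) * (2 * s ^ 9 * 4 ^ B))) := by
      rw [show (4 : ℝ) = 2 ^ 2 by norm_num, ← pow_mul]
      push_cast
      ring
    have h5 : (A : ℝ) * L ^ (2 * B) * (2 * s ^ 9 * 4 ^ B) ≤ N :=
      (mul_le_mul_of_nonneg_left h3 (by positivity)).trans hA2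
    rw [e, hYr, show 3 * (s : ℝ) * A * N = (s * A) * (3 * N) by ring]
    exact mul_le_mul_of_nonneg_left (by linarith) (by positivity)
  · have : √(Y : ℝ) ≤ N / 2 := Real.sqrt_le_iff.2 ⟨by positivity, by linarith⟩
    linarith
  · rw [div_le_iff₀ (pow_pos L0 _), hYr, pow_succ]
    have h5 : (s : ℝ) ≤ s ^ 4 := le_self_pow₀ s1 (by norm_num)
    have h6 : 3 * (N : ℝ) ≤ l * (L ^ α * L) := by nlinarith [mul_pos P0 l0]
    calc 3 * (s : ℝ) * A * N = A * (s * (3 * N)) := by ring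
      _ ≤ A * (s ^ 4 * (l * (L ^ α * L))) :=
        mul_le_mul_of_nonneg_left (mul_le_mul h5 h6 (by positivity) (by positivity))
          (by positivity)
      _ = _ := by ring
  · have h5 : (N : ℝ) * (Y / Real.log Y ^ (α + 2) / l) / (A * D) ≤
        N * (Y / L ^ (α + 2) / l) / (A * D) := by
      have := hdiv (α + 2)
      gcongr
    refine h5.trans ?_
    rw [div_le_iff₀ hτ] at h4
    have e : (N : ℝ) * (Y / L ^ (α + 2) / l) / (A * D) =
        s * (3 * N) * N / (L ^ α * L ^ 2 * l * D) := by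
      rw [hYr, pow_add]
      field_simp
    rw [e, div_le_iff₀ (by positivity)]
    have h6 : 4 * (s : ℝ) * R ≤ τ * L ^ 2 := by nlinarith [mul_pos L0 hτ]
    calc (s : ℝ) * (3 * N) * N ≤ s * (R * D) * (4 * L ^ α * l) := by gcongr
      _ = 4 * s * R * (L ^ α * l * D) := by ring
      _ ≤ τ * L ^ 2 * (L ^ α * l * D) := mul_le_mul_of_nonneg_right h6 (by positivity)
      _ = _ := by ring

end Pool.Agent.MP_9d0b4d_nt

end
end

section

/-!
The mean value theorem for primes over the primitive characters, with a logarithmic level.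
-/

set_option autoImplicit false

open Finset Filter

noncomputable section

namespace Pool.Agent.MP_9d0b4d_nt

open Pool.Agent.MP_43e117_nt Pool.Agent.MP_43e117_nt.PG Pool.Agent.MP_43e117_nt.PG.PTA in
theorem sPTL (hTau : PG.StTau) (hPm : PG.StPm) (hB2 : PG.StB2) (hV1 : PG.StV1) (hTL : PG.StTL)
    (hSW : PG.StSW) : StPTL := by
  intro A
  refine ⟨(A + 7) * 4, ?_⟩
  obtain ⟨c, hc, hB⟩ := hB2
  filter_upwards [hSW (A + 1 + (A + 7)) (A + 7),
    (Real.tendsto_log_atTop.comp tendsto_natCast_atTop_atTop).eventually_ge_atTop (43 + 640 * c),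
    eventually_ge_atTop 1] with N h1 h3 hN x e hx hx' he
  change 43 + 640 * c ≤ Real.log N at h3
  have N1 : (1 : ℝ) ≤ N := by exact_mod_cast hN
  have N0 : (0 : ℝ) < N := by linarith
  have x1 : (1 : ℝ) ≤ x := (Real.one_le_sqrt.2 N1).trans hx
  have x0 : 1 ≤ x := by exact_mod_cast x1
  have x2 : (x : ℝ) ≤ 2 * N := by exact_mod_cast hx'
  have e1 := log_le (mem_Icc.1 he).2
  have l0 := Real.log_natCast_nonneg x
  have l1 : 1 + Real.log x ≤ 2 * Real.log N := by
    have a := Real.log_le_log (by linarith) x2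
    have b := Real.log_le_sub_one_of_pos (two_pos (α := ℝ))
    rw [Real.log_mul two_ne_zero N0.ne'] at a
    linarith
  have l2 : 1 ≤ (Real.log N ^ (A + 7)) ^ 4 := one_le_pow₀ (one_le_pow₀ (by linarith))
  rw [pow_mul]
  obtain ⟨E, hE⟩ : ∃ E, E = Real.log N ^ (A + 7) := ⟨_, rfl⟩
  have h2 : Real.log N ^ (A + 7) ≤ E := hE.ge
  rw [← hE] at l2 ⊢
  have hS : √(N : ℝ) / E ^ 4 * E ^ 4 = √N := div_mul_cancel₀ _ (by linarith)
  have P1 : √(N : ℝ) / E ^ 4 ≤ x := (div_le_self (Real.sqrt_nonneg _) l2).trans hx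
  have h4 := h1 x e
  have h5 : (N : ℝ) ^ (1 / 10 : ℝ) ≤ x := by
    refine le_trans ?_ hx
    rw [Real.sqrt_eq_rpow]
    exact Real.rpow_le_rpow_of_exponent_le N1 (by norm_num)
  have P0 : 0 ≤ √(N : ℝ) / E ^ 4 := div_nonneg (Real.sqrt_nonneg _) (by linarith)
  clear hE
  generalize √(N : ℝ) / E ^ 4 = P at *
  generalize Real.log N = L at *
  have L1 : 2 ≤ L := by linarith
  have L0 : 0 < L := by linarith
  have hW : L ^ (A + 7) = L ^ (A + 1) * L ^ 6 := by ring
  have Y1 : 1 ≤ L ^ (A + 1) := one_le_pow₀ (by linarith)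
  have W2 : 2 ≤ L ^ (A + 7) := L1.trans (le_self_pow₀ (by linarith) (by omega))
  rw [pow_add L (A + 1)] at h4
  have hA : L ^ (A + 1) = L ^ A * L := pow_succ _ _
  generalize L ^ (A + 7) = W at *
  have E1 : 1 ≤ E := by linarith
  have E4 : W ≤ E ^ 4 := h2.trans (le_self_pow₀ E1 (by norm_num))
  have S0 : 0 ≤ √(N : ℝ) := Real.sqrt_nonneg _
  have S1 : 1 ≤ √(N : ℝ) := Real.one_le_sqrt.2 N1
  have S2 : √(N : ℝ) * √N = N := Real.mul_self_sqrt N0.le
  have S3 : √(x : ℝ) ≤ 2 * √N := Real.sqrt_le_iff.2 ⟨by positivity, by nlinarith⟩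
  have S4 : 0 ≤ √(x : ℝ) := Real.sqrt_nonneg _
  obtain ⟨T, hT⟩ : ∃ T, T = N / W := ⟨_, rfl⟩
  have T0 : 0 ≤ T := by rw [hT]; positivity
  have T1 : P * √N ≤ T := by
    rw [hT, le_div_iff₀ (by linarith)]
    calc P * √N * W ≤ P * √N * E ^ 4 := by gcongr
      _ = N := by rw [mul_right_comm, hS, S2]
  have T2 : E ^ 4 * P ^ 2 ≤ T := by
    rw [hT, le_div_iff₀ (by linarith)]
    calc E ^ 4 * P ^ 2 * W ≤ E ^ 4 * P ^ 2 * E ^ 4 := by gcongr
      _ = P * E ^ 4 * (P * E ^ 4) := by ring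
      _ = (N : ℝ) := by rw [hS, S2]
  have D1 : W / 2 ≤ ⌊W⌋₊ := by linarith [Nat.lt_floor_add_one W]
  have D1' : (⌊W⌋₊ : ℝ) ≤ W := Nat.floor_le (by linarith)
  have D1'' : 1 ≤ ⌊W⌋₊ := (Nat.one_le_floor_iff _).2 (by linarith)
  have D2 : (⌊P⌋₊ : ℝ) ≤ P := Nat.floor_le P0
  have U1 : E ^ 2 ≤ ⌈E ^ 2⌉₊ := Nat.le_ceil _
  have U0 : 1 ≤ E ^ 2 := one_le_pow₀ E1
  have U2 : (⌈E ^ 2⌉₊ : ℝ) ≤ 2 * E ^ 2 := by linarith [Nat.ceil_lt_add_one (zero_le_one.trans U0)]
  have U3 : 1 ≤ ⌈E ^ 2⌉₊ := by exact_mod_cast U0.trans U1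
  have U4 : E ≤ √(⌈E ^ 2⌉₊ : ℝ) := Real.le_sqrt_of_sq_le U1
  generalize ⌊W⌋₊ = D₁ at *
  generalize ⌊P⌋₊ = D₂ at *
  generalize ⌈E ^ 2⌉₊ = U at *
  have a1 : PS th (Icc 1 x) e 1 D₂ ≤ PS th (Icc 1 x) e 1 D₁ + PS th (Icc 1 x) e D₁ D₂ := by
    unfold PS
    rw [← sum_union (disjoint_left.2 fun r a b => by
      rw [mem_Ioc] at a b
      omega)]
    refine sum_le_sum_of_subset_of_nonneg (fun r hr => ?_) fun r _ _ =>
      mul_nonneg (by positivity) (sum_nonneg fun _ _ => norm_nonneg _)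
    simp only [mem_union, mem_Ioc] at hr ⊢
    omega
  have a2 : PS th (Icc 1 x) e 1 D₁ ≤ 2 * (N / L ^ (A + 1)) := by
    refine (sum_le (M := x / (L ^ (A + 1) * W)) (by positivity) fun r hr => ?_).trans ?_
    · obtain ⟨r1, r2⟩ := mem_Ioc.1 hr
      exact avg hPm r1.le (by positivity) fun χ hχ => h4 r χ h5 hx' he r1.le
        (le_trans (by exact_mod_cast r2) D1') ((hPm r r1.le).2 r1 χ hχ)
    · calc (D₁ : ℝ) * (x / (L ^ (A + 1) * W)) ≤ W * (2 * N / (L ^ (A + 1) * W)) := by gcongr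
        _ = _ := by field_simp
  have a3 := hB x D₁ D₂ U U (1 + Real.log x) ((1 + Real.log x) ^ 2) (va U) (vb U) D1''
    (by exact_mod_cast D2.trans P1) (U0.trans U1) (U0.trans U1) (by positivity) (by positivity)
    (fun m hm => by
      have : U < m := by_contra fun a => hm (if_neg a)
      exact_mod_cast this) (fun n hn => by exact_mod_cast vb_ne hn) (va_sq U x) (vb_sq hTau U x)
  have a4 : c * (1 + Real.log x) * (1 + Real.log x) ^ 2 * (1 + Real.log x) ^ 3 *
      (x / D₁ + x / √U + x / √U + D₂ * √x) ≤ c * (2 * L) * (2 * L) ^ 2 * (2 * L) ^ 3 * (10 * T) := by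
    have b1 : (x : ℝ) / D₁ ≤ 4 * T :=
      calc (x : ℝ) / D₁ ≤ 2 * N / (W / 2) := by gcongr
        _ = _ := by rw [hT]; field_simp; norm_num
    have b2 : (x : ℝ) / √U ≤ 2 * T :=
      calc (x : ℝ) / √U ≤ 2 * N / W := by gcongr; exact h2.trans U4
        _ = _ := by rw [hT]; ring
    have b3 : (D₂ : ℝ) * √x ≤ 2 * T :=
      calc (D₂ : ℝ) * √x ≤ P * (2 * √N) := by gcongr
        _ ≤ _ := by linarith
    gcongr
    linarith
  have a5 : PS th (Icc 1 x) e D₁ D₂ ≤ D₂ * (2 * (2 * √N) * (2 * L) + L * √N +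
      4 * (2 * E ^ 2) * (2 * E ^ 2) * P * (2 * L)) +
      ∑ r ∈ Ioc D₁ D₂, (1 / (r : ℝ)) * ∑ χ ∈ pm r, ‖BS (va U) (vb U) x χ‖ := by
    rw [← sub_le_iff_le_add, PS, ← sum_sub_distrib]
    refine sum_le (by positivity) fun r hr => ?_
    obtain ⟨r1, r2⟩ := mem_Ioc.1 hr
    have r3 : 1 < r := by omega
    have r4 : (r : ℝ) ≤ P := le_trans (by exact_mod_cast r2) D2
    rw [← mul_sub, ← sum_sub_distrib]
    refine avg hPm r3.le (by positivity) fun χ hχ => ?_
    have b1 := hTL x e r χ x0 (mem_Icc.1 he).1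
    have b2 := hV1 U U x r χ U3 U3 x0 r3.le ((hPm r r3.le).2 r3 χ hχ)
    have b3 := norm_sub_norm_le (CS th (Icc 1 x) e χ) (PX x χ)
    have b4 := norm_sub_norm_le (PX x χ) (BS (va U) (vb U) x χ)
    have b5 : 2 * √x * Real.log x ≤ 2 * (2 * √N) * (2 * L) := by
      gcongr
      linarith
    have b6 : 4 * (U : ℝ) * U * r * (1 + Real.log x) ≤
      4 * (2 * E ^ 2) * (2 * E ^ 2) * P * (2 * L) := by gcongr
    have b7 : L ≤ L * √N := le_mul_of_one_le_right L0.le S1
    linarith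
  have a6 : D₂ * (2 * (2 * √N) * (2 * L) + L * √N + 4 * (2 * E ^ 2) * (2 * E ^ 2) * P * (2 * L)) ≤
      41 * (L ^ 6 * T) :=
    calc _ ≤ P * (2 * (2 * √N) * (2 * L) + L * √N +
          4 * (2 * E ^ 2) * (2 * E ^ 2) * P * (2 * L)) := by gcongr
      _ = L * (9 * (P * √N) + 32 * (E ^ 4 * P ^ 2)) := by ring
      _ ≤ L ^ 6 * (9 * T + 32 * T) := by
        gcongr
        exact le_self_pow₀ (by linarith) (by norm_num)
      _ = _ := by ring
  have a7 : L ^ 6 * T = N / L ^ (A + 1) := by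
    rw [hT, hW]
    field_simp
  have a8 : N / L ^ A = L * (N / L ^ (A + 1)) := by
    rw [hA]
    field_simp
  have a9 : (43 + 640 * c) * (N / L ^ (A + 1)) ≤ L * (N / L ^ (A + 1)) := by gcongr
  have a10 : c * (2 * L) * (2 * L) ^ 2 * (2 * L) ^ 3 * (10 * T) = 640 * c * (L ^ 6 * T) := by ring
  rw [a7] at a6 a10
  linarith

end Pool.Agent.MP_9d0b4d_nt

end
end

section

/-!
Elementary bounds for the majorant.
-/

set_option autoImplicit false

open Finset Filter

noncomputable section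

namespace Pool.Agent.MP_9d0b4d_nt

open Pool.Agent.GT (av pr ind)
open Pool.Agent.MP_43e117_nt.PG (th PS)
open Pool.Agent.MP_357fb4_an (Vp PI Nu_mem Nu_fac Vp_pos inv_Vp_le log_le_inv_Vp)

namespace VX

theorem pos (s z : ℕ) : 0 < Vs s z :=
  prod_pos fun _ hp => (Nu_fac (mem_filter.1 hp).2.1.two_le).1

theorem le (s z : ℕ) : Vp 0 z ≤ Vs s z :=
  Finset.prod_le_prod_of_subset_of_le_one
    (fun _ hp => Nu_mem.2 ⟨(mem_filter.1 hp).2.1.pos, (mem_Icc.1 (mem_filter.1 hp).1).2,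
      (mem_filter.1 hp).2.1⟩)
    (fun _ hp => (Nu_fac (Nu_mem.1 hp).2.2.two_le).1.le)
    fun _ hp _ => (Nu_fac (Nu_mem.1 hp).2.2.two_le).2

theorem tot {s : ℕ} (hs : 0 < s) : sg s * ∏ p ∈ s.primeFactors, (1 - 1 / (p : ℝ)) = 1 := by
  have h := congrArg (fun q : ℚ => (q : ℝ)) (Nat.totient_eq_mul_prod_factors s)
  push_cast at h
  have h0 : (s.totient : ℝ) ≠ 0 := by exact_mod_cast (Nat.totient_pos.2 hs).ne'
  rw [sg, div_mul_eq_mul_div, div_eq_one_iff_eq h0, h]
  simp only [one_div]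

theorem one_le {s : ℕ} (hs : 0 < s) : 1 ≤ sg s := by
  have h0 : (0 : ℝ) < s.totient := by exact_mod_cast Nat.totient_pos.2 hs
  rw [sg, one_le_div h0]
  exact_mod_cast Nat.totient_le s

theorem ge {s : ℕ} (hs : 0 < s) (z : ℕ) :
    Vs s z * ∏ p ∈ s.primeFactors, (1 - 1 / (p : ℝ)) ≤ Vp 0 z := by
  rw [Vs, ← prod_union (disjoint_left.2 fun p h1 h2 =>
    (mem_filter.1 h1).2.2 (Nat.dvd_of_mem_primeFactors h2))]
  have hp : ∀ p ∈ (Icc 1 z).filter (fun p => p.Prime ∧ ¬ p ∣ s) ∪ s.primeFactors, p.Prime :=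
    fun p hp => (mem_union.1 hp).elim (fun h => (mem_filter.1 h).2.1) Nat.prime_of_mem_primeFactors
  refine Finset.prod_le_prod_of_subset_of_le_one (fun p h => ?_)
    (fun p h => (Nu_fac (hp p h).two_le).1.le) fun p h _ => (Nu_fac (hp p h).two_le).2
  obtain ⟨a, b, c⟩ := Nu_mem.1 h
  by_cases e : p ∣ s
  · exact mem_union_right _ (Nat.mem_primeFactors.2 ⟨c, e, hs.ne'⟩)
  · exact mem_union_left _ (mem_filter.2 ⟨mem_Icc.2 ⟨a, b⟩, c, e⟩)

theorem log_le {s : ℕ} (hs : 0 < s) (z : ℕ) : Real.log (z + 1) ≤ sg s * (1 / Vs s z) := by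
  refine (log_le_inv_Vp z).trans ?_
  rw [mul_one_div, le_div_iff₀ (pos s z), inv_mul_le_iff₀ (Vp_pos 0 z)]
  calc Vs s z = Vs s z * (∏ p ∈ s.primeFactors, (1 - 1 / (p : ℝ))) * sg s := by
        rw [mul_assoc, mul_comm _ (sg s), tot hs, mul_one]
    _ ≤ Vp 0 z * sg s := mul_le_mul_of_nonneg_right (ge hs z) (zero_le_one.trans (one_le hs))

theorem nn (s z : ℕ) (m : ℤ) : 0 ≤ nu s z m := div_nonneg (GT.ind_nonneg _) (pos s z).le

end VX

theorem sV : StV := by
  refine ⟨VX.pos, fun _ => VX.one_le, fun s z m hz => ⟨VX.nn s z m, ?_⟩,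
    fun s z m Y L hs hz hm hY h1 hL => ?_⟩
  · have h1 : nu s z m ≤ z :=
      ((div_le_div_of_nonneg_right (GT.ind_le_one _) (VX.pos s z).le).trans
        (one_div_le_one_div_of_le (Vp_pos 0 z) (VX.le s z))).trans
        ((one_div _).trans_le (inv_Vp_le 0 hz))
    have h2 := VX.nn s z m
    have h3 : (0 : ℝ) ≤ z := Nat.cast_nonneg z
    rw [abs_le]
    constructor <;> linarith
  · have hz' : (1 : ℝ) ≤ z := by exact_mod_cast hz
    have hl : 0 < Real.log (z + 1) := Real.log_pos (by linarith)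
    have hL0 : 0 ≤ L := nonneg_of_mul_nonneg_left ((Real.log_nonneg h1).trans hL) hl
    rw [tz, th]
    split_ifs with hp
    · have h2 := hp.two_le
      have h3 : ((m.toNat : ℕ) : ℤ) = m := by omega
      have h4 : ((m.toNat : ℕ) : ℝ) = m := by exact_mod_cast h3
      have h5 : nu s z m = 1 / Vs s z := by
        rw [nu, GT.ind_of]
        intro p a b _ d
        rw [← h3, Int.natCast_dvd_natCast, Nat.prime_dvd_prime_iff_eq a hp] at d
        omega
      refine ⟨Real.log_natCast_nonneg _, ?_⟩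
      rw [h5, mul_assoc]
      refine ((Real.log_le_log (by exact_mod_cast hp.pos) (h4.trans_le hY)).trans hL).trans ?_
      exact mul_le_mul_of_nonneg_left (VX.log_le hs z) hL0
    · exact ⟨le_rfl, mul_nonneg (mul_nonneg hL0 (zero_le_one.trans (VX.one_le hs))) (VX.nn s z m)⟩

end Pool.Agent.MP_9d0b4d_nt

end
end
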