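import Pool.Agent.Mg.F436a94p.G58f7c4
import Pool.Agent.Mg.C853.Gbe42ac

set_option linter.all false

section

/-!
The bilinear terms.
-/

set_option autoImplicit false

open Finset Filter

namespace Pool.Agent.MP_436a94_nt.A

open Pool.Agent.MP_2a1f0e_nt Pool.Agent.MP_43e117_nt.PG DirichletCharacter

open Classical in
lemma sumE_Box {X : Finset CH} {I : Finset ℤ} {E : Finset (CH × ℤ)} (hE : E ⊆ X ×ˢ I)
    (g : CH → ℤ → ℝ) :
    ∑ x ∈ X, ∑ u ∈ I, (if (x, u) ∈ E then g x u else 0) = ∑ z ∈ E, g z.1 z.2 := by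
  rw [← sum_product', ← sum_filter, filter_mem_eq_inter, inter_eq_right.2 hE]

lemma core_Box {N T R D : ℕ} {C η a b f P Q S κ : ℝ} {w : ℕ → ℤ → ℂ} {A B : CH → ℤ → ℂ}
    {E : Finset (CH × ℤ)} {F : CH → Finset ℤ} (C0 : 0 ≤ C) (hC : ∀ c : ℤ → ℂ,
      ∑ t ∈ Ico (2 * N) (4 * N), ‖∑ u ∈ RF.IT T, c u * GM.pw (t : ℝ) (-(u : ℝ))‖ ≤
        C * N * √(∑ u ∈ RF.IT T, ‖c u‖ ^ 2)) (hA : Adm T η w) (hE : E ⊆ XR R ×ˢ RF.IT T)
    (a0 : 0 ≤ a) (b0 : 0 ≤ b) (f0 : 0 ≤ f) (P0 : 0 ≤ P) (Q0 : 0 ≤ Q) (S0 : 0 ≤ S) (κ0 : 0 ≤ κ)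
    (h1 : ∑ z ∈ E, ‖A z.1 z.2‖ ^ 2 ≤ a ^ 2) (h2 : ∑ z ∈ E, ‖B z.1 z.2‖ ^ 2 ≤ b ^ 2)
    (h3 : ∀ x ∈ XR R, (∀ u ∈ RF.IT T, (x, u) ∈ E ∨ u ∈ F x) ∧
      ∑ u ∈ F x, ‖A x u * B x u‖ ^ 2 ≤ f ^ 2)
    (h4 : ∀ x ∈ XR R, x.1 ≤ D → ∀ u ∈ RF.IT T,
      ‖A x u‖ ≤ (if x.1 = 1 then P / (1 + |(u : ℝ)|) else 0) + Q)
    (h5 : ∀ x u, ‖B x u‖ ≤ S) (h6 : ∀ x ∈ XR R, D < x.1 → 1 / (x.1.totient : ℝ) ≤ κ) :
    MS N T R w (fun x u => A x u * B x u) ≤
      C * N * (R * f) + C * N * (2 * (P * S * √η) + D * (2 * (Q * b))) + 2 * N * (κ * (a * b)) := by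
  classical
  have η0 := eta_nonneg hA
  have hw : ∀ (r : ℕ) (u : ℤ) (z : ℂ), ‖w r u * z‖ ≤ ‖z‖ := fun r u z => by
    rw [norm_mul]
    exact mul_le_of_le_one_left (norm_nonneg _) (hA.1 r u)
  have e : MS N T R w (fun x u => A x u * B x u) = MS N T R w fun x u =>
      (if (x, u) ∈ E then 0 else A x u * B x u) +
        (if (x, u) ∈ E ∧ x.1 ≤ D then A x u * B x u else 0) +
        if (x, u) ∈ E ∧ D < x.1 then A x u * B x u else 0 := MS_congr fun x _ u _ => by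
    by_cases c1 : (x, u) ∈ E
    · rcases le_or_gt x.1 D with c2 | c2
      · simp [c1, c2, c2.not_gt]
      · simp [c1, c2, c2.not_ge]
    · simp [c1]
  rw [e]
  refine (MS_add _ _ _ _ _ _).trans (add_le_add ((MS_add _ _ _ _ _ _).trans
    (add_le_add ?_ ?_)) ?_)
  · refine (MS_le_L2 hC w _).trans (le_trans (sum_le_sum fun x hx => ?_)
      ((sum_XR R (fun _ => C * N * f) fun _ => by positivity).trans_eq ?_))
    · refine mul_le_mul_of_nonneg_left (mul_le_mul_of_nonneg_left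
        (Real.sqrt_le_iff.2 ⟨f0, le_trans ?_ (h3 x hx).2⟩) (by positivity)) (by positivity)
      refine (sum_le_sum (g := fun u => if u ∈ F x then ‖A x u * B x u‖ ^ 2 else 0)
        fun u hu => ?_).trans ?_
      · by_cases c1 : (x, u) ∈ E
        · rw [if_pos c1, mul_zero, norm_zero, zero_pow two_ne_zero]
          positivity
        · rw [if_neg c1, if_pos (((h3 x hx).1 u hu).resolve_left c1)]
          exact pow_le_pow_left₀ (norm_nonneg _) (hw _ _ _) 2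
      · rw [← sum_filter]
        exact sum_le_sum_of_subset_of_nonneg (fun u hu => (mem_filter.1 hu).2)
          fun _ _ _ => by positivity
    · rw [sum_const, Nat.card_Icc, Nat.add_sub_cancel, nsmul_eq_mul]
      ring
  · refine (MS_le_L2 hC w _).trans (le_trans (sum_le_sum fun x hx => ?_)
      ((sum_XR R (fun r => C * N * ((if r = 1 then 2 * (P * S * √η) else 0) +
        if r ≤ D then 2 * (Q * b) else 0)) fun _ => by positivity).trans ?_))
    · refine mul_le_mul_of_nonneg_left (mul_le_mul_of_nonneg_left ?_ (by positivity))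
        (by positivity)
      refine sqrt_add_Pt (by positivity) (by positivity) ?_
      by_cases c2 : x.1 ≤ D
      swap
      · simp only [c2, and_false, if_false, mul_zero, norm_zero, zero_pow two_ne_zero,
          sum_const_zero]
        positivity
      have g1 : ∑ u ∈ RF.IT T, (if (x, u) ∈ E then ‖B x u‖ ^ 2 else 0) ≤ b ^ 2 := by
        refine le_trans ?_ h2
        rw [← sumE_Box hE fun x u => ‖B x u‖ ^ 2]
        exact single_le_sum (f := fun x => ∑ u ∈ RF.IT T,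
          if (x, u) ∈ E then ‖B x u‖ ^ 2 else 0)
          (fun x _ => sum_nonneg fun u _ => by positivity) hx
      refine (sum_le_sum (g := fun u => (if x.1 = 1 then
        2 * (P * S) ^ 2 * (‖w 1 u‖ ^ 2 / (1 + |(u : ℝ)|) ^ 2) else 0) +
          2 * Q ^ 2 * if (x, u) ∈ E then ‖B x u‖ ^ 2 else 0) fun u hu => ?_).trans ?_
      · by_cases c1 : (x, u) ∈ E
        swap
        · simp only [c1, false_and, if_false, mul_zero, norm_zero, zero_pow two_ne_zero]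
          positivity
        rw [if_pos ⟨c1, c2⟩, if_pos c1, norm_mul, norm_mul]
        have k1 := h4 x hx c2 u hu
        have k2 := h5 x u
        have k3 := hA.1 x.1 u
        have k4 := norm_nonneg (w x.1 u)
        have k5 := norm_nonneg (B x u)
        have k6 := norm_nonneg (A x u)
        split_ifs at k1 ⊢ with h
        · rw [h] at k3 k4 ⊢
          have e : 2 * (P * S) ^ 2 * (‖w 1 u‖ ^ 2 / (1 + |(u : ℝ)|) ^ 2) =
              2 * (‖w 1 u‖ * (P / (1 + |(u : ℝ)|) * S)) ^ 2 := by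
            field_simp
          have k7 : ‖w 1 u‖ * (‖A x u‖ * ‖B x u‖) ≤
              ‖w 1 u‖ * (P / (1 + |(u : ℝ)|) * S) + Q * ‖B x u‖ := by
            calc _ ≤ ‖w 1 u‖ * ((P / (1 + |(u : ℝ)|) + Q) * ‖B x u‖) := by gcongr
              _ = ‖w 1 u‖ * (P / (1 + |(u : ℝ)|) * ‖B x u‖) + ‖w 1 u‖ * (Q * ‖B x u‖) := by ring
              _ ≤ ‖w 1 u‖ * (P / (1 + |(u : ℝ)|) * S) + 1 * (Q * ‖B x u‖) := by gcongr
              _ = _ := by ring
          have k8 := pow_le_pow_left₀ (by positivity) k7 2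
          rw [e]
          nlinarith [sq_nonneg (‖w 1 u‖ * (P / (1 + |(u : ℝ)|) * S) - Q * ‖B x u‖)]
        · rw [zero_add] at k1
          have k7 : ‖w x.1 u‖ * (‖A x u‖ * ‖B x u‖) ≤ 1 * (Q * ‖B x u‖) := by gcongr
          have k8 := pow_le_pow_left₀ (by positivity) k7 2
          nlinarith [sq_nonneg (Q * ‖B x u‖)]
      · rw [sum_add_distrib, ← mul_sum, if_pos c2]
        refine add_le_add ?_ ?_
        · split_ifs
          · rw [← mul_sum, mul_pow 2, mul_pow _ √η, Real.sq_sqrt η0]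
            nlinarith [mul_le_mul_of_nonneg_left hA.2.1 (sq_nonneg (P * S)),
              mul_nonneg (sq_nonneg (P * S)) η0]
          · simp
        · nlinarith [mul_le_mul_of_nonneg_left g1 (sq_nonneg Q), sq_nonneg (Q * b)]
    · rw [← mul_sum, sum_add_distrib, sum_ite_eq', ← sum_filter, sum_const, nsmul_eq_mul]
      refine mul_le_mul_of_nonneg_left (add_le_add ?_ ?_) (by positivity)
      · split_ifs
        · exact le_rfl
        · positivity
      · have : ((Icc 1 R).filter fun r => r ≤ D).card ≤ D := by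
          refine (card_le_card (t := Icc 1 D) fun r hr => ?_).trans (by simp)
          rw [mem_filter, mem_Icc] at hr
          exact mem_Icc.2 ⟨hr.1.1, hr.2⟩
        have : (((Icc 1 R).filter fun r => r ≤ D).card : ℝ) ≤ D := by exact_mod_cast this
        gcongr
  · have g1 : ∑ z ∈ E, ‖A z.1 z.2‖ * ‖B z.1 z.2‖ ≤ a * b := by
      refine le_of_sq_le_sq ((sum_mul_sq_le_sq_mul_sq _ _ _).trans ?_) (by positivity)
      rw [mul_pow]
      exact mul_le_mul h1 h2 (by positivity) (by positivity)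
    refine (sum_le_card_nsmul _ _ (κ * (a * b)) fun t _ => ?_).trans (le_of_eq ?_)
    · refine le_trans ?_ (mul_le_mul_of_nonneg_left g1 κ0)
      rw [← sumE_Box hE fun x u => ‖A x u‖ * ‖B x u‖, mul_sum]
      refine sum_le_sum fun x hx => ?_
      rcases le_or_gt x.1 D with c2 | c2
      · simp only [Mt, c2.not_gt, and_false, if_false, mul_zero, sum_const_zero, norm_zero]
        positivity
      · refine mul_le_mul (h6 x hx c2) (norm_sum_le_of_le _ fun u _ => ?_) (norm_nonneg _) κ0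
        by_cases c1 : (x, u) ∈ E
        · beta_reduce
          rw [if_pos ⟨c1, c2⟩, if_pos c1, mul_assoc]
          refine (hw _ _ _).trans_eq ?_
          rw [norm_mul, norm_mul, GM.norm_pw, one_mul]
        · simp [c1]
    · rw [Nat.card_Ico, nsmul_eq_mul, show 4 * N - 2 * N = 2 * N by omega]
      push_cast
      ring

lemma sav_Box (n : ℕ) :
    ∀ᶠ M : ℕ in atTop, MP_c853c5_nt.Z.sav M ≤ 1 / Real.log M ^ n := by
  have h1 := (Real.tendsto_exp_div_pow_atTop (50 * n)).eventually_ge_atTop 1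
  have h2 := (tendsto_rpow_atTop (show (0 : ℝ) < 1 / 50 by norm_num)).comp tlog
  filter_upwards [h2.eventually h1, ev_L 1] with M h3 h4
  have h5 : 0 < Real.log M := by linarith
  simp only [Function.comp_apply] at h3
  rw [← Real.rpow_natCast, ← Real.rpow_mul h5.le, one_le_div (by positivity),
    show 1 / 50 * ((50 * n : ℕ) : ℝ) = (n : ℝ) by push_cast; ring, Real.rpow_natCast] at h3
  rw [MP_c853c5_nt.Z.sav, Real.exp_neg, ← one_div]
  exact one_div_le_one_div_of_le (by positivity) h3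

lemma sup_Box (hT : StTw) (hZ : MP_c853c5_nt.Z.TwStmt) (A B : ℕ) :
    ∀ᶠ N : ℕ in atTop, ∀ M R : ℕ, N ≤ M ^ 20 → ∀ x ∈ XR R, (x.1 : ℝ) ≤ Real.log N ^ B →
      ∀ u : ℤ, |(u : ℝ)| ≤ N → ‖DP La (dy M) x u‖ ≤
        (if x.1 = 1 then 5 * M / (1 + |(u : ℝ)|) else 0) + M / Real.log N ^ A := by
  obtain ⟨N₀, hZ⟩ := hZ 20
  obtain ⟨M₀, h⟩ := eventually_atTop.1 ((hT 20 (2 * A + 1) (2 * B)).and ((sav_Box (2 * A)).and
    ((ev_L 20).and (eventually_ge_atTop N₀))))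
  filter_upwards [eventually_ge_atTop (M₀ ^ 20), ev_L 1] with N hN l1 M R hM x hx hB u hu
  have m0 : M₀ ≤ M := le_of_pow_le_pow_left₀ (n := 20) (by norm_num) (Nat.zero_le _) (hN.trans hM)
  obtain ⟨a1, a2, a3, a4⟩ := h M m0
  obtain ⟨b1, -⟩ := h (2 * M) (by omega)
  have n0 : (0 : ℝ) < N := by
    rcases Nat.eq_zero_or_pos N with rfl | h
    · norm_num at l1
    · exact_mod_cast h
  have hM' : (N : ℝ) ≤ (M : ℝ) ^ 20 := by exact_mod_cast hM
  have M0 : (0 : ℝ) < M := by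
    rcases Nat.eq_zero_or_pos M with rfl | h
    · norm_num at a3
    · exact_mod_cast h
  have l2 : Real.log N ≤ Real.log M ^ 2 := by
    have := Real.log_le_log n0 hM'
    rw [Real.log_pow] at this
    push_cast at this
    nlinarith
  have l3 : ∀ n : ℕ, Real.log N ^ n ≤ Real.log M ^ (2 * n) := fun n => by
    rw [pow_mul]
    exact pow_le_pow_left₀ (by linarith) l2 n
  have l4 : (M : ℝ) / Real.log M ^ (2 * A) ≤ M / Real.log N ^ A :=
    div_le_div_of_nonneg_left M0.le (by positivity) (l3 A)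
  split_ifs with c
  · have e : DP La (dy M) x u = MP_c853c5_nt.Z.LT M (2 * M) u :=
      sum_congr rfl fun n _ => by rw [cw, val_one c, one_mul, La]
    have k1 := hZ M (2 * M) u a4 (by omega) le_rfl (hu.trans hM')
    have k2 := MP_c853c5_nt.Z.norm_MT_le (N := M) le_rfl (u : ℝ)
    have k3 := norm_le_norm_sub_add (MP_c853c5_nt.Z.LT M (2 * M) u)
      (MP_c853c5_nt.Z.MT M (2 * M) u)
    have k4 := mul_le_mul_of_nonneg_left a2 M0.le
    rw [mul_one_div] at k4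
    rw [e]
    linarith
  · have l5 : Real.log M ≤ Real.log (2 * M : ℕ) :=
      Real.log_le_log M0 (by push_cast; linarith)
    have k1 := a1 x.1 x.2 u (mem_XR.1 hx).1 (hB.trans (l3 B)) (ne_one_of_XR hx c) (hu.trans hM')
    have k2 := b1 x.1 x.2 u (mem_XR.1 hx).1
      ((hB.trans (l3 B)).trans (pow_le_pow_left₀ (by linarith) l5 _)) (ne_one_of_XR hx c)
      ((hu.trans hM').trans (pow_le_pow_left₀ M0.le (by push_cast; linarith) _))
    have e := sum_Ioc_consecutive (fun n => La n * (x.2 n * GM.pw (n : ℝ) u)) (Nat.zero_le M)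
      (show M ≤ 2 * M by omega)
    have e2 : DP La (dy M) x u = ∑ n ∈ Icc 1 (2 * M), La n * (x.2 n * GM.pw (n : ℝ) u) -
        ∑ n ∈ Icc 1 M, La n * (x.2 n * GM.pw (n : ℝ) u) := eq_sub_of_add_eq' e
    have k3 : ((2 * M : ℕ) : ℝ) / Real.log (2 * M : ℕ) ^ (2 * A + 1) ≤
        2 * (M / Real.log M ^ (2 * A + 1)) := by
      rw [← mul_div_assoc]
      push_cast at l5 ⊢
      exact div_le_div_of_nonneg_left (by positivity) (by positivity)
        (pow_le_pow_left₀ (by linarith) l5 _)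
    have k4 : 3 * (M / Real.log M ^ (2 * A + 1)) ≤ M / Real.log M ^ (2 * A) := by
      rw [pow_succ, ← div_div, ← mul_div_assoc, div_le_iff₀ (by linarith)]
      have : 0 ≤ M / Real.log M ^ (2 * A) := by positivity
      nlinarith
    rw [e2]
    linarith [norm_sub_le (∑ n ∈ Icc 1 (2 * M), La n * (x.2 n * GM.pw (n : ℝ) u))
      (∑ n ∈ Icc 1 M, La n * (x.2 n * GM.pw (n : ℝ) u))]

lemma norm_La (n : ℕ) : ‖La n‖ ≤ Real.log n := by
  rw [La, Complex.norm_real, Real.norm_of_nonneg ArithmeticFunction.vonMangoldt_nonneg]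
  exact ArithmeticFunction.vonMangoldt_le_log

lemma La_dy {M N : ℕ} (h : 2 * M ≤ N) (c : ℕ) :
    ∑ n ∈ dy M, ‖La n‖ ^ c ≤ M * Real.log N ^ c := by
  refine (sum_le_card_nsmul _ _ (Real.log N ^ c) fun n hn => ?_).trans_eq
    (by rw [card_dy, nsmul_eq_mul])
  obtain ⟨h1, h2⟩ := mem_Ioc.1 hn
  exact pow_le_pow_left₀ (norm_nonneg _) ((norm_La n).trans (Real.log_le_log
    (by exact_mod_cast (by omega : 0 < n)) (by exact_mod_cast (by omega : n ≤ N)))) c

lemma ta_dy (hT : StTau) {K N : ℕ} (hK : 1 ≤ K) (h : 2 * K ≤ N) (hL : 1 ≤ Real.log N) (c : ℕ)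
    {b : ℕ → ℂ} (hb : ∀ n, ‖b n‖ ≤ ta n) :
    ∑ n ∈ dy K, ‖b n‖ ^ c ≤ 2 * K * (2 * Real.log N) ^ 2 ^ c := by
  have h1 : Real.log (2 * K : ℕ) ≤ Real.log N :=
    Real.log_le_log (by exact_mod_cast (by omega : 0 < 2 * K)) (by exact_mod_cast h)
  have h2 := Real.log_natCast_nonneg (2 * K)
  calc _ ≤ ∑ n ∈ dy K, ta n ^ c :=
        sum_le_sum fun n _ => pow_le_pow_left₀ (norm_nonneg _) (hb n) c
    _ ≤ ∑ n ∈ Icc 1 (2 * K), ta n ^ c := sum_le_sum_of_subset_of_nonneg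
        (fun n hn => by have := mem_Ioc.1 hn; rw [mem_Icc]; omega)
        fun n _ _ => pow_nonneg (Nat.cast_nonneg _) c
    _ ≤ (2 * K : ℕ) * (1 + Real.log (2 * K : ℕ)) ^ 2 ^ c := (hT c _).2
    _ ≤ (2 * K : ℕ) * (2 * Real.log N) ^ 2 ^ c := by
        gcongr
        linarith
    _ = _ := by rw [Nat.cast_mul, Nat.cast_ofNat]

lemma half_Box {N M K : ℕ} (hN : 16 ^ 20 ≤ N) (hK : N ≤ K ^ 20) (h : M * K < 8 * N) :
    2 * M ≤ N := by
  have h1 : 16 ≤ K := le_of_pow_le_pow_left₀ (n := 20) (by norm_num) (Nat.zero_le _) (hN.trans hK)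
  have h2 := Nat.mul_le_mul_left M h1
  generalize 16 ^ 20 = z at hN
  omega

theorem s_Box (hV : StLV) (hL : StL2) (hT : StTw) (hZ : MP_c853c5_nt.Z.TwStmt) (hTa : StTau)
    (hTo : StTot) : StBox := by
  obtain ⟨θ, θ0, θ1, hV⟩ := hV
  obtain ⟨C, hC, hL⟩ := hL
  refine ⟨θ, θ0, θ1, fun A => ⟨2 * (A + 4), ?_⟩⟩
  filter_upwards [hV, sup_Box hT hZ (A + (A + 10) + 5) (A + 10), ev_TT, ev_L 192,
    ev_L (320 * C), ev_log (4 * C) A θ0, eventually_ge_atTop (16 ^ 20)]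
    with N hV hS hT l1 l2 l3 hN M K R η w b hM hK h1 h2 hR hη hA hb
  obtain ⟨t1, t2, -, -⟩ := hT
  have m2 := half_Box hN hK h2
  have k2 := half_Box hN hM (by rwa [mul_comm] at h2)
  have k1 : 1 ≤ K := Nat.pos_of_ne_zero fun h => by
    rw [h] at h1
    simp at h1
  have n1 : (1 : ℝ) ≤ N := by exact_mod_cast (by omega : 1 ≤ N)
  have n0 : (0 : ℝ) < N := by linarith
  have l0 : 1 ≤ Real.log N := by linarith
  have a1 := (La_dy m2 2).trans (mul_le_mul_of_nonneg_left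
    (pow_le_pow_right₀ l0 (show 2 ≤ 6 by norm_num)) (Nat.cast_nonneg M))
  have a2 : ∑ n ∈ dy K, ‖b n‖ ^ 2 ≤ K * Real.log N ^ 6 := by
    refine (ta_dy hTa k1 k2 l0 2 hb).trans ?_
    calc _ = K * Real.log N ^ 4 * 32 := by ring
      _ ≤ K * Real.log N ^ 4 * Real.log N ^ 2 := by
          gcongr
          nlinarith
      _ = _ := by ring
  have a3 : ∑ n ∈ dy K, ‖b n‖ ≤ K * Real.log N ^ 3 := by
    have := ta_dy hTa k1 k2 l0 1 hb
    simp only [pow_one] at this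
    refine this.trans ?_
    calc _ = K * Real.log N ^ 2 * 8 := by ring
      _ ≤ K * Real.log N ^ 2 * Real.log N := by
          gcongr
          linarith
      _ = _ := by ring
  obtain ⟨E, E1, E2, E3, F, hF⟩ := hV M K R La b hM hK h1 h2 hR a1 a2
  have mk : (M : ℝ) * K ≤ 8 * N := by exact_mod_cast h2.le
  have rN : (R : ℝ) ≤ N := by
    refine hR.trans ?_
    conv_rhs => rw [← Real.rpow_one (N : ℝ)]
    exact Real.rpow_le_rpow_of_exponent_le n1 (by linarith)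
  set L := Real.log N with hLd
  have L0 : 0 < L := by linarith
  have v0 : 0 < (N : ℝ) ^ θ := by positivity
  have key := core_Box (N := N) (T := TT N) (R := R) (D := ⌊L ^ (A + 10)⌋₊) (a := M * L ^ 4)
    (b := K * L ^ 4) (f := N / ((N : ℝ) ^ θ) ^ 2) (P := 5 * M) (Q := M / L ^ (A + (A + 10) + 5))
    (S := K * L ^ 3) (κ := 3 * L / L ^ (A + 10)) (A := DP La (dy M)) (B := DP b (dy K)) (F := F)
    hC.le (hL N (TT N) · t1 (by omega)) hA E1 (by positivity) (by positivity) (by positivity)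
    (by positivity) (by positivity) (by positivity) (by positivity)
    (E2.trans_eq (by ring)) (E3.trans_eq (by ring))
    (fun x hx => ⟨(hF x hx).1, (hF x hx).2.trans_eq (by
      rw [div_pow, ← pow_mul, ← Real.rpow_natCast ((N : ℝ) ^ θ), ← Real.rpow_mul n0.le,
        Real.rpow_sub n0, Real.rpow_two, mul_comm θ]
      norm_num)⟩)
    (fun x hx hD u hu => hS M R hM x hx ((Nat.le_floor_iff (by positivity)).1 hD) u
      ((abs_IT hu).trans (by exact_mod_cast (by omega : 2 * TT N ≤ N))))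
    (fun x u => (norm_DP_le _ _ _ _).trans a3) fun x hx hD => by
      obtain ⟨x1, x2, -⟩ := mem_XR.1 hx
      have b1 := hTo x.1 x1
      have b2 : L ^ (A + 10) < x.1 := Nat.lt_of_floor_lt hD
      have b3 : (0 : ℝ) < x.1.totient := by exact_mod_cast Nat.totient_pos.2 x1
      have b4 : Real.log x.1 ≤ L := Real.log_le_log (by exact_mod_cast x1)
        (le_trans (by exact_mod_cast x2) rN)
      rw [div_le_div_iff₀ b3 (by positivity)]
      nlinarith [mul_le_mul_of_nonneg_left b4 b3.le, mul_le_mul_of_nonneg_left l0 b3.le]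
  refine key.trans ?_
  have p0 : 0 < L ^ A := by positivity
  have c1 : C * N * (R * (N / ((N : ℝ) ^ θ) ^ 2)) ≤ 1 / 4 * (N ^ 2 / L ^ A) := by
    calc _ ≤ C * N * ((N : ℝ) ^ θ * (N / ((N : ℝ) ^ θ) ^ 2)) := by gcongr
      _ = C * N ^ 2 / (N : ℝ) ^ θ := by field_simp
      _ ≤ C * N ^ 2 / (4 * C * L ^ A) := by gcongr
      _ = _ := by field_simp
  have s1 : √η ≤ 1 / L ^ (A + 4) := Real.sqrt_le_iff.2 ⟨by positivity, hη.trans_eq (by
    rw [div_pow, one_pow, ← pow_mul, mul_comm])⟩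
  have c2 : C * N * (2 * (5 * M * (K * L ^ 3) * √η)) ≤ 1 / 4 * (N ^ 2 / L ^ A) := by
    calc _ = 10 * C * N * L ^ 3 * (M * K) * √η := by ring
      _ ≤ 10 * C * N * L ^ 3 * (8 * N) * (1 / L ^ (A + 4)) := by gcongr
      _ = 320 * C / L * (1 / 4 * (N ^ 2 / L ^ A)) := by
          rw [pow_add]
          field_simp
          norm_num
      _ ≤ _ := mul_le_of_le_one_left (by positivity) ((div_le_one L0).2 l2)
  have c3 : C * N * (⌊L ^ (A + 10)⌋₊ * (2 * (M / L ^ (A + (A + 10) + 5) * (K * L ^ 4)))) ≤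
      1 / 4 * (N ^ 2 / L ^ A) := by
    have := Nat.floor_le (show 0 ≤ L ^ (A + 10) by positivity)
    calc _ = 2 * C * N * L ^ 4 / L ^ (A + (A + 10) + 5) * (M * K) * ⌊L ^ (A + 10)⌋₊ := by ring
      _ ≤ 2 * C * N * L ^ 4 / L ^ (A + (A + 10) + 5) * (8 * N) * L ^ (A + 10) := by gcongr
      _ = 64 * C / L * (1 / 4 * (N ^ 2 / L ^ A)) := by
          rw [pow_add L (A + (A + 10)), pow_add L A (A + 10)]
          field_simp
          norm_num
      _ ≤ _ := mul_le_of_le_one_left (by positivity) ((div_le_one L0).2 (by linarith))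
  have c4 : 2 * N * (3 * L / L ^ (A + 10) * (M * L ^ 4 * (K * L ^ 4))) ≤
      1 / 4 * (N ^ 2 / L ^ A) := by
    calc _ = 6 * N * L ^ 9 / L ^ (A + 10) * (M * K) := by ring
      _ ≤ 6 * N * L ^ 9 / L ^ (A + 10) * (8 * N) := by gcongr
      _ = 192 / L * (1 / 4 * (N ^ 2 / L ^ A)) := by
          rw [pow_add]
          field_simp
          norm_num
      _ ≤ _ := mul_le_of_le_one_left (by positivity) ((div_le_one L0).2 l1)
  rw [mul_add (C * N)]
  linarith

end Pool.Agent.MP_436a94_nt.A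

end

section

/-!
The zero free region for characters of small modulus.
-/

set_option autoImplicit false

open Finset Filter

namespace Pool.Agent.MP_436a94_nt.A

open Pool.Agent.MP_c853c5_nt DirichletCharacter

lemma loc_ZF (hL : Z.LocStmt) {f : ℂ → ℂ} {c : ℂ} {r M : ℝ} (hc : 1 < c.re) (hr : 0 < r)
    (hM : 1 ≤ M) (hf : AnalyticOnNhd ℂ f (Metric.closedBall c (19 / 10 * r)))
    (hz : ∀ ρ : ℂ, 1 ≤ ρ.re → f ρ ≠ 0)
    (h1 : ∀ z ∈ Metric.closedBall c (19 / 10 * r), ‖f z‖ ≤ Real.exp M * ‖f c‖)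
    (h2 : 1 ≤ Real.exp M * ‖f c‖) :
    (-logDeriv f c).re ≤ 30000 * M / r ∧ ∀ ρ : ℂ, f ρ = 0 → ρ.im = c.im →
      c.re - ρ.re ≤ 9 / 5 * r → (-logDeriv f c).re ≤ 30000 * M / r - 1 / (c.re - ρ.re) := by
  obtain ⟨Z, hZ, hm, hb⟩ := hL f c r M hr hM hf (hz c hc.le)
    (fun z hz => h1 z (Metric.sphere_subset_closedBall hz)) h2
  have hlt : ∀ ρ : ℂ, f ρ = 0 → 0 < c.re - ρ.re := fun ρ hρ => by
    have : ρ.re < 1 := not_le.1 fun h => hz ρ h hρ
    linarith
  have h0 : ∀ ρ ∈ Z, 0 ≤ (((analyticOrderAt f ρ).toNat : ℂ) / (c - ρ)).re := fun ρ hρ => by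
    rw [div_eq_mul_inv, ← Complex.ofReal_natCast, Complex.re_ofReal_mul, Complex.inv_re,
      Complex.sub_re]
    exact mul_nonneg (Nat.cast_nonneg _)
      (div_nonneg (hlt ρ ((hZ ρ).1 hρ).2).le (Complex.normSq_nonneg _))
  have h3 := (abs_le.1 ((Complex.abs_re_le_norm _).trans hb)).1
  rw [Complex.sub_re, Complex.re_sum] at h3
  rw [Complex.neg_re]
  refine ⟨by linarith [sum_nonneg h0], fun ρ hρ hi hd => ?_⟩
  have e : c - ρ = ((c.re - ρ.re : ℝ) : ℂ) := Complex.ext (by simp) (by simp [hi])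
  have hρZ : ρ ∈ Z := (hZ ρ).2 ⟨by
    rw [Metric.mem_closedBall, dist_comm, dist_eq_norm, e, Complex.norm_real,
      Real.norm_of_nonneg (hlt ρ hρ).le]
    exact hd, hρ⟩
  have h4 := single_le_sum h0 hρZ
  have h5 : 1 / (c.re - ρ.re) ≤ (((analyticOrderAt f ρ).toNat : ℂ) / (c - ρ)).re := by
    rw [e, Complex.div_ofReal_re, Complex.natCast_re]
    exact div_le_div_of_nonneg_right (by exact_mod_cast hm ρ hρZ) (hlt ρ hρ).le
  linarith

lemma ball_ZF {T y : ℝ} (hT : 3 ≤ T) (hy : 1 ≤ y) {c : ℂ} (h1 : 1 ≤ c.re) (h2 : c.re ≤ 3 / 2)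
    (h4 : |c.im| ≤ 2 * T) {z : ℂ} (hz : z ∈ Metric.closedBall c (19 / 10 * (y⁻¹ / 4))) :
    1 - y⁻¹ / 2 ≤ z.re ∧ z.re ≤ 2 ∧ |z.im| ≤ 3 * T ∧ |c.im| - 1 ≤ |z.im| := by
  rw [Metric.mem_closedBall, dist_eq_norm] at hz
  have y1 : y⁻¹ ≤ 1 := inv_le_one_of_one_le₀ hy
  have y0 : 0 < y⁻¹ := by positivity
  have a1 := abs_le.1 ((Complex.abs_re_le_norm _).trans hz)
  have a2 := abs_le.1 ((abs_abs_sub_abs_le_abs_sub z.im c.im).trans
    ((Complex.abs_im_le_norm (z - c)).trans hz))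
  rw [Complex.sub_re] at a1
  exact ⟨by linarith [a1.1], by linarith [a1.2], by linarith [a2.2], by linarith [a2.1]⟩

lemma wid_ZF {T u y : ℝ} (hT : 3 ≤ T) (hu : 1 < u) (hu' : u ≤ 3 * T) (hy : 0 < y)
    (e : Real.log T ^ (-(19 / 20) : ℝ) = y⁻¹) :
    Real.log u ≤ 2 * Real.log T ∧ y⁻¹ / 2 ≤ Real.log u ^ (-(19 / 20) : ℝ) := by
  have a4 : Real.log u ≤ 2 * Real.log T := by
    have := Real.log_le_log (by linarith) (show u ≤ T ^ 2 by nlinarith)
    rwa [Real.log_pow, Nat.cast_ofNat] at this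
  have a5 : 0 < Real.log u := Real.log_pos hu
  refine ⟨a4, le_trans ?_ (Real.rpow_le_rpow_of_nonpos a5 a4 (by norm_num))⟩
  rw [Real.mul_rpow (by norm_num) (by linarith), e]
  have : (2 : ℝ) ^ (-1 : ℝ) ≤ 2 ^ (-(19 / 20) : ℝ) :=
    Real.rpow_le_rpow_of_exponent_le (by norm_num) (by norm_num)
  rw [Real.rpow_neg_one] at this
  have y0 : 0 < y⁻¹ := by positivity
  nlinarith

theorem s_ZF (hN : StNear) (hT : StT341) (hN' : Z.NearStmt) (hL : Z.LocStmt)
    (hT' : Z.T341Stmt) : StZF := by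
  obtain ⟨C₁, t₀, hC₁, ht, hN'⟩ := hN'
  obtain ⟨-, ⟨C', hC', hT2⟩, hT3⟩ := hT'
  refine ⟨t₀, ht, fun B => ?_⟩
  obtain ⟨C₂, T₁, hC₂, hT₁, hN⟩ := hN B
  obtain ⟨C, hC, c₁, c₂⟩ : ∃ C : ℝ, 1 ≤ C ∧ C₁ ≤ C ∧ C₂ ≤ C :=
    ⟨C₁ + C₂, by linarith, by linarith, by linarith⟩
  have ev : ∀ᶠ x : ℝ in Filter.atTop, 10 ^ 7 ≤ x ∧ 300 * C' < x ∧
      2 * C ≤ Real.exp (1 / 10 ^ 7 * x) / x ^ ((80 : ℕ) : ℝ) :=
    (Filter.eventually_ge_atTop _).and ((Filter.eventually_gt_atTop _).and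
      ((tendsto_exp_mul_div_rpow_atTop _ _ (by norm_num)).eventually_ge_atTop _))
  obtain ⟨G₀, hG₀⟩ := Filter.eventually_atTop.1 (((tendsto_rpow_atTop
    (show (0 : ℝ) < 1 / 40 by norm_num)).comp Real.tendsto_log_atTop).eventually ev)
  refine ⟨max T₁ G₀, le_max_of_le_left hT₁,
    fun T hG q _ χ hχ hq ρ hρ r1 r2 => not_lt.1 fun hβ => ?_⟩
  obtain ⟨hG1, hG2⟩ := max_le_iff.1 hG
  obtain ⟨x1, x2, x3⟩ := hG₀ _ hG2
  have T3 : 3 ≤ T := hT₁.trans hG1
  have hL0 : 0 ≤ Real.log T := Real.log_nonneg (by linarith)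
  have hq' : (q : ℝ) ≤ Real.log (3 * T) ^ B :=
    hq.trans (pow_le_pow_left₀ hL0 (Real.log_le_log (by linarith) (by linarith)) B)
  have e38 := Z.pow_ZF0 hL0 38
  have e39 := Z.pow_ZF0 hL0 39
  have e40 := Z.pow_ZF0 hL0 40
  simp only [Function.comp_apply] at x1 x2 x3
  generalize Real.log T ^ (1 / 40 : ℝ) = x at *
  have x0 : 0 < x := by linarith
  rw [Real.rpow_natCast, le_div_iff₀ (by positivity)] at x3
  have hy : 1 ≤ x ^ 38 := one_le_pow₀ (by linarith)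
  have hw : x ≤ x ^ 39 := le_self_pow₀ (by linarith) (by norm_num)
  have w0 : 0 < x ^ 39 := by positivity
  have f38 : Real.log T ^ (-(19 / 20) : ℝ) = (x ^ 38)⁻¹ := by
    rw [Real.rpow_neg hL0, ← e38]
    norm_num
  have f39 : Real.log T ^ (-(39 / 40) : ℝ) = (x ^ 39)⁻¹ := by
    rw [Real.rpow_neg hL0, ← e39]
    norm_num
  have f40 : Real.log T = x ^ 40 := by
    rw [← e40]
    norm_num
  rw [f39] at hβ
  have l0 : 0 < (x ^ 39)⁻¹ := by positivity
  have l1 : (x ^ 39)⁻¹ ≤ 1 / 12 := by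
    rw [one_div]
    exact inv_anti₀ (by norm_num) (by linarith)
  have key : ∀ (f : ℂ → ℂ) (c : ℂ), c.re = 1 + 6 * (x ^ 39)⁻¹ →
      AnalyticOnNhd ℂ f (Metric.closedBall c (19 / 10 * ((x ^ 38)⁻¹ / 4))) →
      (∀ ρ : ℂ, 1 ≤ ρ.re → f ρ ≠ 0) → (c.re - 1) / 2 ≤ ‖f c‖ →
      (∀ z ∈ Metric.closedBall c (19 / 10 * ((x ^ 38)⁻¹ / 4)), ‖f z‖ ≤ 2 * C * Real.log T) → _ :=
    fun f c c1 c2 c3 b2 c4 => by
      have b1 : 2 * C * Real.log T ≤ Real.exp (1 / 10 ^ 7 * x) * ‖f c‖ := by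
        have b3 : (x ^ 40)⁻¹ ≤ (x ^ 39)⁻¹ :=
          inv_anti₀ w0 (pow_le_pow_right₀ (by linarith) (by norm_num))
        refine le_trans (le_of_eq ?_) (mul_le_mul x3 (show (x ^ 40)⁻¹ ≤ _ by linarith)
          (by positivity) (by positivity))
        rw [f40]
        field_simp
      exact loc_ZF hL (f := f) (c := c) (r := (x ^ 38)⁻¹ / 4) (M := 1 / 10 ^ 7 * x) (by linarith)
        (by positivity) (by linarith) c2 c3 (fun z hz => (c4 z hz).trans b1) (le_trans (by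
          rw [f40]
          have := one_le_mul_of_one_le_of_one_le hC (one_le_pow₀ (n := 40) (show 1 ≤ x by linarith))
          linarith) b1)
  have keyL : ∀ (ψ : DirichletCharacter ℂ q) (c : ℂ), ψ ≠ 1 → c.re = 1 + 6 * (x ^ 39)⁻¹ →
      |c.im| ≤ 2 * T → _ := fun ψ c hψ c1 c2 =>
    key (LFunction ψ) c c1 (fun z _ => (differentiable_LFunction hψ).analyticAt z)
      (fun ρ h => LFunction_ne_zero_of_one_le_re ψ (Or.inl hψ) h)
      ((hT q ψ).2.2 c (by linarith) (by linarith)) fun z hz => by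
        obtain ⟨b1, b2, b3, -⟩ := ball_ZF T3 hy (by linarith) (by linarith) c2 hz
        obtain ⟨b4, b5⟩ := wid_ZF T3 (u := 3 * T) (by linarith) le_rfl (by linarith) f38
        refine (hN (3 * T) (by linarith) q ψ hψ hq' z b3 (by linarith) b2).trans ?_
        have := mul_le_mul c₂ b4 (Real.log_nonneg (by linarith)) (by linarith)
        linarith
  have keyZ : ∀ c : ℂ, c.re = 1 + 6 * (x ^ 39)⁻¹ → 2 * t₀ ≤ |c.im| → |c.im| ≤ 2 * T → _ :=
    fun c c1 c2 c3 => key riemannZeta c c1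
      (fun z hz => DifferentiableOn.analyticAt (s := {1}ᶜ)
        (fun w hw => (differentiableAt_riemannZeta hw).differentiableWithinAt)
        (isOpen_compl_singleton.mem_nhds fun h => by
          have b := (ball_ZF T3 hy (by linarith) (by linarith) c3 hz).2.2.2
          rw [Set.mem_singleton_iff.1 h, Complex.one_im, abs_zero] at b
          linarith))
      (fun ρ h => riemannZeta_ne_zero_of_one_le_re h) (hT3 c (by linarith) (by linarith))
      fun z hz => by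
        obtain ⟨b1, b2, b3, b6⟩ := ball_ZF T3 hy (by linarith) (by linarith) c3 hz
        obtain ⟨b4, b5⟩ := wid_ZF T3 (u := |z.im|) (by linarith) b3 (by linarith) f38
        refine (hN' z (by linarith) (by linarith) b2).trans ?_
        have := mul_le_mul c₁ b4 (Real.log_nonneg (by linarith)) (by linarith)
        linarith
  have hρ1 : ρ.re < 1 := not_le.1 fun h => LFunction_ne_zero_of_one_le_re χ (Or.inl hχ) h hρ
  have e1 : ∀ τ : ℝ, (((1 + 6 * (x ^ 39)⁻¹ : ℝ) : ℂ) + τ * Complex.I).re = 1 + 6 * (x ^ 39)⁻¹ :=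
    fun τ => by simp [-Complex.ofReal_add]
  have e1' : ∀ τ : ℝ, (((1 + 6 * (x ^ 39)⁻¹ : ℝ) : ℂ) + τ * Complex.I).im = τ :=
    fun τ => by simp [-Complex.ofReal_add]
  have i2 : |2 * ρ.im| = 2 * |ρ.im| := by rw [abs_mul, abs_two]
  have k1 := (keyL χ _ hχ (e1 ρ.im) (by rw [e1']; linarith)).2 ρ hρ (e1' _).symm
  have k4 := hT2 (1 + 6 * (x ^ 39)⁻¹) (by linarith) (by linarith)
  have e2 : 30000 * (1 / 10 ^ 7 * x) / ((x ^ 38)⁻¹ / 4) = 12 / 1000 * x ^ 39 := by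
    field_simp
    norm_num
  have e3 : 1 / (1 + 6 * (x ^ 39)⁻¹ - 1) = x ^ 39 / 6 := by
    field_simp
    ring
  have e4 : x ^ 39 / 7 ≤ 1 / (1 + 6 * (x ^ 39)⁻¹ - ρ.re) := by
    refine le_trans (le_of_eq ?_) (one_div_le_one_div_of_le (by linarith)
      (show _ ≤ 7 * (x ^ 39)⁻¹ by linarith))
    field_simp
  have e5 : 7 * (x ^ 39)⁻¹ ≤ 9 / 5 * ((x ^ 38)⁻¹ / 4) := by
    have : (x ^ 39)⁻¹ = x⁻¹ * (x ^ 38)⁻¹ := by
      field_simp
    have b : x⁻¹ ≤ 1 / 20 := by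
      rw [one_div]
      exact inv_anti₀ (by norm_num) (by linarith)
    have b' : 0 < (x ^ 38)⁻¹ := by positivity
    rw [this]
    nlinarith
  rw [e1, e2] at k1
  rw [e3] at k4
  have k5 := k1 (by linarith)
  by_cases h2 : χ ^ 2 = 1
  · have k2 := (keyZ _ (e1 (2 * ρ.im)) (by rw [e1', i2]; linarith) (by rw [e1', i2]; linarith)).1
    have k3 := (hT q χ).2.1 h2 (1 + 6 * (x ^ 39)⁻¹) ρ.im (by linarith)
    rw [e2] at k2
    simp only [Complex.sub_re, Complex.neg_re, neg_mul, Complex.mul_re, Complex.re_ofNat,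
      Complex.im_ofNat, zero_mul, sub_zero] at k2 k3 k4 k5
    linarith
  · have k2 := (keyL _ _ h2 (e1 (2 * ρ.im)) (by rw [e1', i2]; linarith)).1
    have k3 := (hT q χ).1 (1 + 6 * (x ^ 39)⁻¹) ρ.im (by linarith)
    rw [e2] at k2
    simp only [Complex.sub_re, Complex.neg_re, neg_mul, Complex.mul_re, Complex.re_ofNat,
      Complex.im_ofNat, zero_mul, sub_zero] at k2 k3 k4 k5
    linarith

end Pool.Agent.MP_436a94_nt.A

end
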