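import Pool.Agent.Mg.F436a94p.G58f7c4
import Pool.Agent.Mg.C853.G342b30
import Pool.Agent.Mg.C853.G6cfa21
import Pool.Agent.Mg.C853.Gf8de24

set_option linter.all false

section

/-!
The estimate of Vinogradov for sums with a shift.
-/

set_option autoImplicit false

open Finset

namespace Pool.Agent.MP_436a94_nt.A

open Pool.Agent.MP_2a1f0e_nt Pool.Agent.MP_c853c5_nt.Z

/-- the Taylor coefficients at a real point -/
noncomputable def alr (K : ℕ) (t n : ℝ) : Fin K → ℝ := fun j =>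
  (-1) ^ j.val * t / (2 * Real.pi * ((j.val : ℝ) + 1) * n ^ (j.val + 1))

/-- the sum with a shift -/
noncomputable def ESx (N M : ℕ) (x t : ℝ) : ℂ := ∑ n ∈ Ioc N M, GM.pw ((n : ℝ) - x) t

def U_ExS : Prop := ∃ A : ℝ, 10 ≤ A ∧ ∀ (k N Y : ℕ) (n t : ℝ), 1 ≤ k → 1 ≤ Y → Y ^ 3 ≤ N →
  N ≤ 8 * Y ^ 3 → (N : ℝ) ≤ n → n ≤ 2 * N → (N : ℝ) ^ (9 / 10 : ℝ) ≤ |t| → |t| ≤ (N : ℝ) ^ k →
    ‖UU (3 * k) Y (alr (3 * k) t n)‖ ≤
      Real.exp (A * (k : ℝ) ^ 8) * (Y : ℝ) ^ 2 * (N : ℝ) ^ (-(1 / (A * (k : ℝ) ^ 8)))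

theorem pow_ExS (hB : BilStmt) (hD : DStmt) {A0 v n : ℝ} {k Y : ℕ} {t : ℝ} (hk : 1 ≤ k)
    (hY : 1 ≤ Y) (hv : 1 ≤ v) (h1 : v ^ 54 ≤ |t|) (h2 : |t| ≤ v ^ (60 * k)) (hn : v ^ 60 ≤ n)
    (hn' : n ≤ 2 * v ^ 60) (hY1 : v ^ 20 ≤ 2 * Y) (hY2 : (Y : ℝ) ≤ v ^ 20)
    (hJ : (JJ (3 * k) (11 * (3 * k) ^ 3) Y : ℝ) ≤ Real.exp (A0 * ((3 * k : ℕ) : ℝ) ^ 8) *
      (Y : ℝ) ^ (22 * ((3 * k : ℕ) : ℝ) ^ 3 - ((3 * k : ℕ) : ℝ) * ((3 * k : ℕ) + 1) / 2 + 1 / 100)) :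
    ‖UU (3 * k) Y (alr (3 * k) t n)‖ ^ (2 * (11 * (3 * k) ^ 3) ^ 2) ≤
      Real.exp ((2 * A0 + 43) * ((3 * k : ℕ) : ℝ) ^ 8) *
        ((Y : ℝ) ^ 2) ^ (2 * (11 * (3 * k) ^ 3) ^ 2) * (1 / v ^ 6) := by
  obtain ⟨j, hj2, hjk, hj3, hj4⟩ := idx_U hv hk h1 h2
  have hjK : j ≤ 3 * k := by omega
  have hK : 1 ≤ 3 * k := by omega
  generalize 3 * k = K at hJ hjK hK ⊢
  have hc := const_U hK
  have hKs : 7 * K ≤ (11 * K ^ 3) ^ 2 := by
    have a : K ≤ K ^ 3 := Nat.le_self_pow (by norm_num) K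
    have b : 11 * K ^ 3 ≤ (11 * K ^ 3) ^ 2 := Nat.le_self_pow (by norm_num) _
    omega
  have hs : 1 ≤ 11 * K ^ 3 := by
    have a : K ≤ K ^ 3 := Nat.le_self_pow (by norm_num) K
    omega
  have es : 22 * (K : ℝ) ^ 3 = 2 * ((11 * K ^ 3 : ℕ) : ℝ) := by push_cast; ring
  rw [es] at hJ
  generalize 11 * K ^ 3 = s at hJ hc hKs hs ⊢
  have hv0 : 0 < v := by linarith
  have hn0 : 0 < n := lt_of_lt_of_le (by positivity) hn
  have hY0 : (0 : ℝ) < Y := by exact_mod_cast hY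
  obtain ⟨i, rfl⟩ : ∃ i, j = i + 1 := ⟨j - 1, by omega⟩
  have hpi : 2 * Real.pi * ((i + 1 : ℕ) : ℝ) ≤ (s : ℝ) ^ 2 := by
    have a : ((7 * (i + 1) : ℕ) : ℝ) ≤ ((s ^ 2 : ℕ) : ℝ) := Nat.cast_le.2 (by omega)
    have b : (0 : ℝ) ≤ ((i + 1 : ℕ) : ℝ) := Nat.cast_nonneg _
    rw [Nat.cast_mul, Nat.cast_pow, Nat.cast_ofNat] at a
    nlinarith [mul_le_mul_of_nonneg_right Real.pi_lt_d2.le b]
  have hx : |alr K t n ⟨i, hjK⟩| = |t| / (2 * Real.pi * ((i + 1 : ℕ) : ℝ) * n ^ (i + 1)) := by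
    rw [alr, abs_div, abs_mul, abs_pow, abs_neg, abs_one, one_pow, one_mul, Nat.cast_succ]
    congr 1
    exact abs_of_nonneg (by positivity)
  obtain ⟨hx0, hg⟩ := gain_U hv (by omega) hjK hj3 hj4 hn hn' hY1 (by exact_mod_cast hs) hpi hx
  have hd := (hD (s * Y ^ (i + 1)) _ (Nat.mul_pos hs (Nat.pow_pos hY))).2 (abs_pos.1 hx0)
  push_cast at hd
  have hd' : DD (s * Y ^ (i + 1)) (alr K t n ⟨i, hjK⟩) ≤
      5 * 8 ^ K / v ^ 7 * (2 * ((s : ℝ) * (Y : ℝ) ^ (i + 1)) ^ 2) := by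
    refine le_of_sq_le_sq ?_ (by positivity)
    refine hd.trans ((mul_le_mul_of_nonneg_left hg (by positivity)).trans (le_of_eq ?_))
    ring
  have hp := prodD_U hD hs hY (alr K t n) ⟨i, hjK⟩ hd'
  have hJ2 : (JJ K s Y : ℝ) ^ 2 * (Y : ℝ) ^ (K * (K + 1)) ≤
      Real.exp (2 * A0 * (K : ℝ) ^ 8) * (Y : ℝ) ^ (4 * s) * v := by
    have a : (Y : ℝ) ^ (1 / 50 : ℝ) ≤ v := by
      calc (Y : ℝ) ^ (1 / 50 : ℝ) ≤ (v ^ 50) ^ (1 / 50 : ℝ) :=
            Real.rpow_le_rpow hY0.le (hY2.trans (pow_le_pow_right₀ hv (by norm_num))) (by norm_num)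
        _ = v := by
            rw [← Real.rpow_natCast, ← Real.rpow_mul hv0.le]; norm_num
    calc (JJ K s Y : ℝ) ^ 2 * (Y : ℝ) ^ (K * (K + 1))
        ≤ (Real.exp (A0 * (K : ℝ) ^ 8) *
          (Y : ℝ) ^ (2 * (s : ℝ) - (K : ℝ) * (K + 1) / 2 + 1 / 100)) ^ 2 *
            (Y : ℝ) ^ (K * (K + 1)) := by gcongr
      _ = Real.exp (2 * A0 * (K : ℝ) ^ 8) * (Y : ℝ) ^ (4 * s) * (Y : ℝ) ^ (1 / 50 : ℝ) := by
          rw [mul_pow, ← Real.exp_nat_mul, mul_assoc, mul_assoc (Real.exp _)]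
          simp only [← Real.rpow_natCast (Y : ℝ), ← Real.rpow_natCast ((Y : ℝ) ^ (_ : ℝ)),
            ← Real.rpow_mul hY0.le, ← Real.rpow_add hY0]
          congr 2
          · push_cast; ring
          · push_cast; ring
      _ ≤ _ := by gcongr
  have ee : 4 * s * (s - 1) + 4 * s = 2 * (2 * s ^ 2) := by
    obtain ⟨r, rfl⟩ : ∃ r, s = r + 1 := ⟨s - 1, by omega⟩
    rw [Nat.add_sub_cancel]
    ring
  refine (hB K s Y _ hs hY).trans ?_
  calc (Y : ℝ) ^ (4 * s * (s - 1)) * (JJ K s Y : ℝ) ^ 2 *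
        ∏ j : Fin K, DD (s * Y ^ (j.val + 1)) (alr K t n j)
      ≤ (Y : ℝ) ^ (4 * s * (s - 1)) * (JJ K s Y : ℝ) ^ 2 *
        (5 * 8 ^ K / v ^ 7 * ((2 * (s : ℝ) ^ 2) ^ K * (Y : ℝ) ^ (K * (K + 1)))) := by gcongr
    _ = (Y : ℝ) ^ (4 * s * (s - 1)) * ((JJ K s Y : ℝ) ^ 2 * (Y : ℝ) ^ (K * (K + 1))) *
        (5 * 8 ^ K * (2 * (s : ℝ) ^ 2) ^ K) / v ^ 7 := by ring
    _ ≤ (Y : ℝ) ^ (4 * s * (s - 1)) * (Real.exp (2 * A0 * (K : ℝ) ^ 8) * (Y : ℝ) ^ (4 * s) * v) *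
        Real.exp (43 * (K : ℝ) ^ 8) / v ^ 7 := by gcongr
    _ = _ := by
        rw [← pow_mul, ← ee, add_mul, Real.exp_add, pow_add]
        field_simp

theorem uu_ExS (hV : VmStmt) (hB : BilStmt) (hD : DStmt) : U_ExS := by
  obtain ⟨A0, hA0, hV⟩ := hV
  refine ⟨(2 * A0 + 43) * 3 ^ 8 + 1764180, by nlinarith,
    fun k N Y n t hk hY hYN hNY hn hn' h1 h2 => ?_⟩
  have hN : 1 ≤ N := (Nat.pow_pos hY).trans_le hYN
  have hN1 : (1 : ℝ) ≤ N := by exact_mod_cast hN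
  have hN0 : (0 : ℝ) < N := by linarith
  have hk1 : (1 : ℝ) ≤ k := by exact_mod_cast hk
  have hp : ∀ m : ℕ, ((N : ℝ) ^ (1 / 60 : ℝ)) ^ m = (N : ℝ) ^ ((m : ℝ) / 60) := fun m => by
    rw [← Real.rpow_natCast, ← Real.rpow_mul hN0.le]
    congr 1
    ring
  have hv : 1 ≤ (N : ℝ) ^ (1 / 60 : ℝ) := Real.one_le_rpow hN1 (by norm_num)
  have h60 : ((N : ℝ) ^ (1 / 60 : ℝ)) ^ 60 = N := by rw [hp]; norm_num
  have h54 : ((N : ℝ) ^ (1 / 60 : ℝ)) ^ 54 = (N : ℝ) ^ (9 / 10 : ℝ) := by rw [hp]; norm_num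
  have h6 : 1 / ((N : ℝ) ^ (1 / 60 : ℝ)) ^ 6 = (N : ℝ) ^ (-(1 / 10) : ℝ) := by
    rw [hp, Real.rpow_neg hN0.le, one_div]; norm_num
  generalize (N : ℝ) ^ (1 / 60 : ℝ) = v at hv h60 h54 h6
  have hv0 : 0 < v := by linarith
  have key := pow_ExS hB hD (A0 := A0) (v := v) (n := n) (t := t) hk hY hv (h54 ▸ h1)
    (by rw [pow_mul, h60]; exact h2) (by rw [h60]; exact hn)
    (by rw [h60]; exact hn')
    (le_of_pow_le_pow_left₀ (n := 3) (by norm_num) (by positivity) (by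
      rw [← pow_mul, h60, mul_pow]; norm_num; exact_mod_cast hNY))
    (le_of_pow_le_pow_left₀ (n := 3) (by norm_num) (by positivity) (by
      rw [← pow_mul, h60]; exact_mod_cast hYN))
    (hV (3 * k) Y (by omega) hY)
  have hm : ((2 * (11 * (3 * k) ^ 3) ^ 2 : ℕ) : ℝ) = 176418 * (k : ℝ) ^ 6 := by push_cast; ring
  have hk6 : (1 : ℝ) ≤ (k : ℝ) ^ 6 := one_le_pow₀ hk1
  have hk8 : (k : ℝ) ^ 6 ≤ (k : ℝ) ^ 8 := pow_le_pow_right₀ hk1 (by norm_num)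
  have hm0 : 2 * (11 * (3 * k) ^ 3) ^ 2 ≠ 0 := by positivity
  generalize 2 * (11 * (3 * k) ^ 3) ^ 2 = m at key hm hm0
  refine le_of_pow_le_pow_left₀ hm0 (by positivity) (key.trans ?_)
  rw [mul_pow, mul_pow, h6]
  have hA : (0 : ℝ) < (2 * A0 + 43) * 3 ^ 8 := by positivity
  have e3 : (2 * A0 + 43) * ((3 * k : ℕ) : ℝ) ^ 8 = (2 * A0 + 43) * 3 ^ 8 * (k : ℝ) ^ 8 := by
    push_cast; ring
  rw [e3]
  generalize (2 * A0 + 43) * 3 ^ 8 = A at hA ⊢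
  have f1 : Real.exp (A * (k : ℝ) ^ 8) ≤ Real.exp ((A + 1764180) * (k : ℝ) ^ 8) ^ m :=
    (Real.exp_le_exp.2 (by nlinarith)).trans
      (le_self_pow₀ (Real.one_le_exp (by positivity)) hm0)
  have f2 : (N : ℝ) ^ (-(1 / 10) : ℝ) ≤
      ((N : ℝ) ^ (-(1 / ((A + 1764180) * (k : ℝ) ^ 8)))) ^ m := by
    rw [← Real.rpow_natCast, ← Real.rpow_mul hN0.le]
    refine Real.rpow_le_rpow_of_exponent_le hN1 ?_
    rw [neg_mul, neg_le_neg_iff, hm, div_mul_eq_mul_div, div_le_div_iff₀ (by positivity)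
      (by norm_num)]
    nlinarith
  gcongr

lemma norm_ESx (N M : ℕ) (x t : ℝ) : ‖ESx N M x t‖ ≤ ((M - N : ℕ) : ℝ) := by
  refine (norm_sum_le_of_le _ fun n _ => (GM.norm_pw _ _).le).trans_eq ?_
  simp

lemma shift_ExS {N M : ℕ} (hNM : N ≤ M) (h : ℕ) (x t : ℝ) :
    ‖ESx N M x t - ∑ n ∈ Ioc N M, GM.pw ((n : ℝ) - x + h) t‖ ≤ 2 * h := by
  have e1 : ∑ n ∈ Ioc N M, GM.pw ((n : ℝ) - x + h) t = ESx (N + h) (M + h) x t := by
    rw [ESx, ← map_add_right_Ioc, sum_map]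
    refine sum_congr rfl fun n _ => ?_
    rw [addRightEmbedding_apply, Nat.cast_add, add_sub_right_comm]
  have e2 : ESx N M x t + ESx M (M + h) x t = ESx N (M + h) x t :=
    sum_Ioc_consecutive _ hNM (Nat.le_add_right _ _)
  have e3 : ESx N (N + h) x t + ESx (N + h) (M + h) x t = ESx N (M + h) x t :=
    sum_Ioc_consecutive _ (Nat.le_add_right _ _) (by omega)
  have a1 := norm_ESx N (N + h) x t
  have a2 := norm_ESx M (M + h) x t
  rw [Nat.add_sub_cancel_left] at a1 a2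
  rw [e1, show ESx N M x t - ESx (N + h) (M + h) x t = ESx N (N + h) x t - ESx M (M + h) x t by
    linear_combination e2 - e3]
  linarith [norm_sub_le (ESx N (N + h) x t) (ESx M (M + h) x t)]

lemma pt_ExS {n h : ℝ} (K : ℕ) (t : ℝ) {δ : ℝ} (n0 : 0 < n) (h0 : 0 ≤ h) (h1 : h / n ≤ δ)
    (h2 : δ ≤ 1 / 2) :
    ‖GM.pw (n + h) t - GM.pw n t * ex (∑ j : Fin K, alr K t n j * h ^ (j.val + 1))‖ ≤
      2 * |t| * δ ^ (K + 1) := by
  have z0 : (0 : ℝ) ≤ h / n := by positivity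
  have pi0 := Real.pi_pos
  rw [GM.pw_eq_ex, GM.pw_eq_ex, ← ex_add]
  refine (lip_Tay _ _).trans ?_
  have k := Real.abs_log_sub_add_sum_range_le (x := -(h / n))
    (by rw [abs_neg, abs_of_nonneg z0]; linarith) K
  rw [abs_neg, abs_of_nonneg z0, sub_neg_eq_add] at k
  have e : Real.log (n + h) = Real.log n + Real.log (1 + h / n) := by
    rw [← Real.log_mul n0.ne' (by positivity)]
    congr 1
    field_simp
  have e2 : 2 * Real.pi * ∑ j : Fin K, alr K t n j * h ^ (j.val + 1) =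
      -(t * ∑ i ∈ range K, (-(h / n)) ^ (i + 1) / (i + 1)) := by
    rw [sum_range, mul_sum, mul_sum, ← sum_neg_distrib]
    refine sum_congr rfl fun j _ => ?_
    rw [alr, neg_pow (h / n), div_pow, pow_succ (-1 : ℝ)]
    field_simp
  have e3 : 2 * Real.pi * (t * (Real.log (n + h) / (2 * Real.pi)) -
      (t * (Real.log n / (2 * Real.pi)) + ∑ j : Fin K, alr K t n j * h ^ (j.val + 1))) =
      t * (∑ i ∈ range K, (-(h / n)) ^ (i + 1) / (i + 1) + Real.log (1 + h / n)) := by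
    rw [mul_sub, mul_add, e2, e]
    field_simp
    ring
  rw [e3, abs_mul, mul_comm 2, mul_assoc]
  refine mul_le_mul_of_nonneg_left (k.trans ?_) (abs_nonneg _)
  have p1 : (h / n) ^ (K + 1) ≤ δ ^ (K + 1) := pow_le_pow_left₀ z0 h1 _
  have p2 : 0 ≤ δ ^ (K + 1) := pow_nonneg (z0.trans h1) _
  rw [div_le_iff₀ (by linarith)]
  nlinarith

theorem tay_ExS (N M Y K : ℕ) (x t : ℝ) (hx : x ≤ 1) (hNM : N ≤ M) (hM : M ≤ 2 * N) (hY : 1 ≤ Y)
    (hYN : 2 * Y ^ 2 ≤ N) :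
    ‖ESx N M x t‖ ≤ (∑ n ∈ Ioc N M, ‖UU K Y (alr K t (n - x))‖) / (Y : ℝ) ^ 2 + 2 * (Y : ℝ) ^ 2 +
      N * (2 * |t| * ((Y : ℝ) ^ 2 / N) ^ (K + 1)) := by
  have Y0 : (0 : ℝ) < Y := by exact_mod_cast hY
  have N0 : 0 < N := by nlinarith
  have N0' : (0 : ℝ) < N := by exact_mod_cast N0
  have hδ : (Y : ℝ) ^ 2 / N ≤ 1 / 2 := by
    have : (2 * (Y : ℝ) ^ 2) ≤ N := by exact_mod_cast hYN
    rw [div_le_iff₀ N0']
    linarith
  set B : ℝ := 2 * (Y : ℝ) ^ 2 + N * (2 * |t| * ((Y : ℝ) ^ 2 / N) ^ (K + 1)) with hB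
  have key : ∀ a ∈ Icc (1 : ℤ) Y, ∀ b ∈ Icc (1 : ℤ) Y,
      ‖ESx N M x t - ∑ n ∈ Ioc N M, GM.pw ((n : ℝ) - x) t * ex (∑ j : Fin K,
        alr K t (n - x) j * ((a : ℝ) ^ (j.val + 1) * (b : ℝ) ^ (j.val + 1)))‖ ≤ B := fun a ha b hb => by
    rw [mem_Icc] at ha hb
    obtain ⟨h, hh⟩ := Int.eq_ofNat_of_zero_le (a := a * b) (mul_nonneg (by omega) (by omega))
    have e : (a : ℝ) * b = h := by exact_mod_cast hh
    have hh2 : (h : ℝ) ≤ (Y : ℝ) ^ 2 := by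
      have : (h : ℤ) ≤ (Y : ℤ) ^ 2 := by rw [← hh]; nlinarith
      exact_mod_cast this
    simp only [← mul_pow, e]
    refine (norm_sub_le_norm_sub_add_norm_sub _
      (∑ n ∈ Ioc N M, GM.pw ((n : ℝ) - x + h) t) _).trans
      (add_le_add ((shift_ExS hNM h x t).trans (by linarith)) ?_)
    rw [← sum_sub_distrib]
    refine (norm_sum_le _ _).trans ((sum_le_card_nsmul _ _
      (2 * |t| * ((Y : ℝ) ^ 2 / N) ^ (K + 1)) fun n hn => ?_).trans ?_)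
    · have h1 := (mem_Ioc.1 hn).1
      have h2 : (N : ℝ) + 1 ≤ n := by exact_mod_cast h1
      have h3 : (N : ℝ) ≤ n - x := by linarith
      exact pt_ExS K t (by linarith) (Nat.cast_nonneg h) (by gcongr) hδ
    · rw [Nat.card_Ioc, nsmul_eq_mul]
      have : ((M - N : ℕ) : ℝ) ≤ N := by exact_mod_cast (by omega : M - N ≤ N)
      gcongr
  have hc : (Icc (1 : ℤ) Y).card = Y := by simp
  have e : ((Y : ℂ) * Y) * ESx N M x t -
      ∑ n ∈ Ioc N M, GM.pw ((n : ℝ) - x) t * UU K Y (alr K t (n - x)) =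
      ∑ a ∈ Icc (1 : ℤ) Y, ∑ b ∈ Icc (1 : ℤ) Y, (ESx N M x t -
        ∑ n ∈ Ioc N M, GM.pw ((n : ℝ) - x) t * ex (∑ j : Fin K,
          alr K t (n - x) j * ((a : ℝ) ^ (j.val + 1) * (b : ℝ) ^ (j.val + 1)))) := by
    simp only [sum_sub_distrib, sum_const, hc, nsmul_eq_mul, UU, mul_sum, mul_assoc]
    congr 1
    rw [sum_comm]
    exact sum_congr rfl fun a _ => sum_comm
  have k1 : ‖((Y : ℂ) * Y) * ESx N M x t -
      ∑ n ∈ Ioc N M, GM.pw ((n : ℝ) - x) t * UU K Y (alr K t (n - x))‖ ≤ Y * (Y * B) := by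
    rw [e]
    refine (norm_sum_le _ _).trans ((sum_le_card_nsmul _ _ (Y * B) fun a ha => ?_).trans_eq ?_)
    · refine (norm_sum_le _ _).trans ((sum_le_card_nsmul _ _ B (key a ha)).trans_eq ?_)
      rw [hc, nsmul_eq_mul]
    · rw [hc, nsmul_eq_mul]
  have k2 : ‖∑ n ∈ Ioc N M, GM.pw ((n : ℝ) - x) t * UU K Y (alr K t (n - x))‖ ≤
      ∑ n ∈ Ioc N M, ‖UU K Y (alr K t (n - x))‖ :=
    (norm_sum_le _ _).trans_eq (sum_congr rfl fun n hn => by
      rw [norm_mul, GM.norm_pw, one_mul])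
  have k3 := norm_le_norm_sub_add (((Y : ℂ) * Y) * ESx N M x t)
    (∑ n ∈ Ioc N M, GM.pw ((n : ℝ) - x) t * UU K Y (alr K t (n - x)))
  rw [norm_mul, norm_mul, Complex.norm_natCast] at k3
  rw [add_assoc, ← hB, ← sub_le_iff_le_add, le_div_iff₀ (by positivity)]
  nlinarith

theorem s_ExS (hV : VmStmt) (hB : BilStmt) (hD : DStmt) : StExS := by
  obtain ⟨A, hA, hU⟩ := uu_ExS hV hB hD
  refine ⟨A + 1, by linarith, fun k N M x t hk hN h1 h2 x0 x1 h3 h4 => ?_⟩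
  change ‖ESx N M x t‖ ≤ _
  obtain ⟨Y, y1, y2, y3⟩ := root_Exp hN
  have hk1 : (1 : ℝ) ≤ (k : ℝ) ^ 8 := one_le_pow₀ (by exact_mod_cast hk)
  have hN1 : (1 : ℝ) ≤ N := by exact_mod_cast hN
  have hN0 : (0 : ℝ) < N := by linarith
  replace hU := fun n a b => hU k N Y n t hk y1 y2 y3.le a b h3 h4
  have a1 : 10 ≤ A * (k : ℝ) ^ 8 := by nlinarith
  have a2 : A * (k : ℝ) ^ 8 + 1 ≤ (A + 1) * (k : ℝ) ^ 8 := by linarith
  generalize (A + 1) * (k : ℝ) ^ 8 = a' at *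
  generalize A * (k : ℝ) ^ 8 = a at *
  have e1 := Real.add_one_le_exp a
  have e2 : Real.exp a + 4 ≤ Real.exp a' := by
    have := Real.exp_le_exp.2 a2
    rw [Real.exp_add] at this
    nlinarith [Real.add_one_le_exp 1]
  have a3 : 1 / a ≤ 1 / 10 := one_div_le_one_div_of_le (by norm_num) a1
  have a4 : 1 / a' ≤ 1 / a := one_div_le_one_div_of_le (by linarith) (by linarith)
  refine le_trans ?_ (mul_le_mul e2 (Real.rpow_le_rpow_of_exponent_le hN1 (sub_le_sub_left a4 1))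
    (by positivity) (by positivity))
  have hM : ((M - N : ℕ) : ℝ) ≤ N := by exact_mod_cast (by omega : M - N ≤ N)
  rcases y1.eq_or_lt with rfl | y4
  · have : (N : ℝ) ≤ 8 := by exact_mod_cast y3.le
    exact ((norm_ESx N M x t).trans (by linarith)).trans
      (le_mul_of_one_le_right (by positivity) (Real.one_le_rpow hN1 (by linarith)))
  have hY : (0 : ℝ) < (Y : ℝ) ^ 2 := by positivity
  have y5 : (Y : ℝ) ^ 3 ≤ N := by exact_mod_cast y2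
  have b1 : (∑ n ∈ Ioc N M, ‖UU (3 * k) Y (alr (3 * k) t (n - x))‖) / (Y : ℝ) ^ 2 ≤
      Real.exp a * (N : ℝ) ^ (1 - 1 / a) := by
    rw [div_le_iff₀ hY]
    refine (sum_le_card_nsmul _ _ _ fun (n : ℕ) hn =>
      hU (n - x) (by
        have : (N : ℝ) + 1 ≤ n := by exact_mod_cast (mem_Ioc.1 hn).1
        linarith) (by
        have : (n : ℝ) ≤ 2 * N := by exact_mod_cast (mem_Ioc.1 hn).2.trans h2
        linarith)).trans ?_
    rw [Nat.card_Ioc, nsmul_eq_mul, sub_eq_add_neg (1 : ℝ), Real.rpow_add hN0, Real.rpow_one]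
    exact (mul_le_mul_of_nonneg_right hM (by positivity)).trans_eq (by ring)
  have b2 : (Y : ℝ) ^ 2 ≤ (N : ℝ) ^ (1 - 1 / a) :=
    calc _ = ((Y : ℝ) ^ 3) ^ (2 / 3 : ℝ) := by
          rw [← Real.rpow_natCast_mul (Nat.cast_nonneg Y), ← Real.rpow_natCast]
          norm_num
      _ ≤ (N : ℝ) ^ (2 / 3 : ℝ) := by gcongr
      _ ≤ _ := Real.rpow_le_rpow_of_exponent_le hN1 (by linarith)
  have b3 : N * (2 * |t| * ((Y : ℝ) ^ 2 / N) ^ (3 * k + 1)) ≤ 2 * (Y : ℝ) ^ 2 := by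
    have h5 : N * ((Y : ℝ) ^ 2 / N) ^ 3 ≤ 1 :=
      calc _ = ((Y : ℝ) ^ 3 / N) ^ 2 := by field_simp
        _ ≤ 1 := pow_le_one₀ (by positivity) ((div_le_one hN0).2 y5)
    calc _ ≤ N * (2 * (N : ℝ) ^ k * ((Y : ℝ) ^ 2 / N) ^ (3 * k + 1)) := by gcongr
      _ = 2 * (Y : ℝ) ^ 2 * (N * ((Y : ℝ) ^ 2 / N) ^ 3) ^ k := by
          rw [pow_succ _ (3 * k), pow_mul, mul_pow]
          field_simp
      _ ≤ _ := mul_le_of_le_one_right (by positivity) (pow_le_one₀ (by positivity) h5)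
  have b4 := tay_ExS N M Y (3 * k) x t x1 h1 h2 y1 (le_trans (by nlinarith) y2)
  linarith

end Pool.Agent.MP_436a94_nt.A

end

section

/-!
Exponential sums with periodic coefficients.
-/

set_option autoImplicit false

open Finset Filter

namespace Pool.Agent.MP_436a94_nt.A

open Pool.Agent.MP_2a1f0e_nt

lemma split_Ker (F : ℕ → ℂ) (q a b : ℕ) (h : a ≤ b) :
    ∑ n ∈ Ioc (q * a) (q * b), F n = ∑ j ∈ range q, ∑ m ∈ Ioc a b, F (q * m - j) := by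
  induction b, h using Nat.le_induction with
  | base => simp
  | succ b h ih =>
    rw [← sum_Ioc_consecutive F (Nat.mul_le_mul_left q h)
      (Nat.mul_le_mul_left q (Nat.le_succ b)), ih]
    simp only [sum_Ioc_succ_top h, sum_add_distrib]
    congr 1
    rw [Nat.mul_succ]
    generalize q * b = c
    refine sum_nbij' (fun n => c + q - n) (fun j => c + q - j) ?_ ?_ ?_ ?_ ?_
    all_goals
      intro n hn
      simp only [mem_Ioc, mem_range] at hn ⊢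
      first | omega | (congr 1; omega)

lemma per_mul {q : ℕ} {ψ : ℕ → ℂ} (h : Per q ψ) (n k : ℕ) : ψ (n + q * k) = ψ n := by
  induction k with
  | zero => simp
  | succ k ih => rw [Nat.mul_succ, ← add_assoc, h.1, ih]

lemma triv_Ker {q : ℕ} {ψ : ℕ → ℂ} (h : Per q ψ) (a b : ℕ) (t : ℝ) :
    ‖EP ψ a b t‖ ≤ ((b - a : ℕ) : ℝ) := by
  refine (norm_sum_le_of_le _ (n := fun _ => (1 : ℝ)) fun n _ => ?_).trans_eq (by simp)
  rw [norm_mul, GM.norm_pw, mul_one]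
  exact h.2 n

lemma cls_Ker {q : ℕ} {ψ : ℕ → ℂ} (hq : 1 ≤ q) (h : Per q ψ) {a b : ℕ} (hab : a ≤ b) {t B : ℝ}
    (hB : ∀ x : ℝ, 0 ≤ x → x ≤ 1 → ‖∑ m ∈ Ioc a b, GM.pw ((m : ℝ) - x) t‖ ≤ B) :
    ‖EP ψ (q * a) (q * b) t‖ ≤ q * B := by
  have q0 : (0 : ℝ) < q := by exact_mod_cast hq
  rw [EP, split_Ker _ q a b hab]
  refine (norm_sum_le_of_le _ (n := fun _ => B) fun j hj => ?_).trans_eq (by simp)
  have j1 := mem_range.1 hj
  have j2 : (j : ℝ) / q < 1 := (div_lt_one q0).2 (by exact_mod_cast j1)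
  have e : ∑ m ∈ Ioc a b, ψ (q * m - j) * GM.pw ((q * m - j : ℕ) : ℝ) t =
      ψ (q - j) * GM.pw q t * ∑ m ∈ Ioc a b, GM.pw ((m : ℝ) - j / q) t := by
    rw [mul_sum]
    refine sum_congr rfl fun m hm => ?_
    obtain ⟨l, rfl⟩ : ∃ l, m = l + 1 := ⟨m - 1, by have := (mem_Ioc.1 hm).1; omega⟩
    have l0 : (0 : ℝ) ≤ l := Nat.cast_nonneg l
    have e1 : q * (l + 1) - j = q - j + q * l := by
      rw [Nat.mul_succ]
      omega
    have e2 : ((q - j + q * l : ℕ) : ℝ) = q * (((l + 1 : ℕ) : ℝ) - j / q) := by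
      rw [Nat.cast_add, Nat.cast_sub j1.le]
      push_cast
      field_simp
      ring
    rw [e1, per_mul h, e2, GM.pw_mul q0.ne' (by push_cast; linarith), mul_assoc]
  rw [e, norm_mul, norm_mul, GM.norm_pw, mul_one]
  exact (mul_le_of_le_one_left (norm_nonneg _) (h.2 _)).trans (hB _ (by positivity) j2.le)

theorem s_Ker (hE : StExS) (hP : StPer) : StKer := by
  obtain ⟨A, hA, hE⟩ := hE
  refine ⟨19683 * A, by linarith, fun k q ψ N M t hk hq hψ hN h1 h2 ht => ?_⟩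
  have k1 : (1 : ℝ) ≤ (k : ℝ) ^ 8 := one_le_pow₀ (by exact_mod_cast hk)
  have N1 : 1 ≤ N := (Nat.pow_pos hq).trans_le hN
  have n1 : (1 : ℝ) ≤ N := by exact_mod_cast N1
  have n0 : (0 : ℝ) < N := by linarith
  have q1 : (q : ℝ) ≤ (N : ℝ) ^ (1 / 20 : ℝ) := by
    have : (q : ℝ) ^ 20 ≤ N := by exact_mod_cast hN
    refine le_trans (le_of_eq ?_) (Real.rpow_le_rpow (by positivity) this (by norm_num))
    rw [← Real.rpow_natCast, ← Real.rpow_mul (by positivity)]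
    norm_num
  have ea : 19683 * A * (k : ℝ) ^ 8 = 3 * (A * ((3 * k : ℕ) : ℝ) ^ 8) := by
    push_cast
    ring
  have a1 : 10 ≤ A * ((3 * k : ℕ) : ℝ) ^ 8 := by nlinarith
  replace hE := fun N M x => hE (3 * k) N M x t (by omega)
  rw [ea]
  generalize A * ((3 * k : ℕ) : ℝ) ^ 8 = a at *
  have a2 : 1 / (3 * a) ≤ 1 / 20 := one_div_le_one_div_of_le (by norm_num) (by linarith)
  have a3 : Real.exp a + 15 ≤ Real.exp (3 * a) := by
    have b1 := Real.add_one_le_exp a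
    have b2 := Real.add_one_le_exp (2 * a)
    rw [show 3 * a = a + 2 * a by ring, Real.exp_add]
    nlinarith
  have a4 := Real.exp_pos a
  have m0 : 0 ≤ mn q ψ := by unfold mn; positivity
  have p0 : 0 < (N : ℝ) ^ (1 - 1 / (3 * a)) := by positivity
  rcases le_or_gt ((N : ℝ) ^ (9 / 10 : ℝ)) |t| with c | c
  · refine le_trans ?_ (le_add_of_nonneg_left (by positivity))
    have b1 : q ≤ N / q := (Nat.le_div_iff_mul_le hq).2
      (le_trans (by rw [← sq]; exact Nat.pow_le_pow_right hq (by norm_num)) hN)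
    have b2 : N < N / q * q + q := Nat.lt_div_mul_add hq
    have b3 : M < M / q * q + q := Nat.lt_div_mul_add hq
    have b4 : N / q * q ≤ N := Nat.div_mul_le_self _ _
    have b5 : M / q * q ≤ M := Nat.div_mul_le_self _ _
    have b6 : N / q ≤ M / q := Nat.div_le_div_right h1
    generalize N / q = n at *
    obtain ⟨m, m1, m2, m3, m4⟩ : ∃ m, n ≤ m ∧ m ≤ 2 * n ∧ q * m ≤ M ∧ M ≤ q * m + 2 * q := by
      rcases le_total (M / q) (2 * n) with c | c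
      · exact ⟨M / q, b6, c, by linarith, by linarith⟩
      · exact ⟨2 * n, by omega, le_rfl, by nlinarith, by nlinarith⟩
    have n3 : N ≤ n ^ 3 := by
      rcases (hq.trans b1).eq_or_lt with c | c
      · subst c
        omega
      · have : n * q + q ≤ n * n + n := by nlinarith
        nlinarith [Nat.mul_le_mul_left (n * n) c]
    have r0 : (1 : ℝ) ≤ n := by exact_mod_cast hq.trans b1
    have r1 : (N : ℝ) ≤ (n : ℝ) ^ 3 := by exact_mod_cast n3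
    have r2 : (q : ℝ) * n ≤ N := by exact_mod_cast (by linarith : q * n ≤ N)
    have r3 : (n : ℝ) ≤ N := by exact_mod_cast (by nlinarith : n ≤ N)
    have d1 := cls_Ker hq hψ m1 fun x x0 x1 => hE n m x (hq.trans b1) m1 m2 x0 x1
      ((Real.rpow_le_rpow (by positivity) r3 (by norm_num)).trans c)
      (ht.trans (by rw [pow_mul]; exact pow_le_pow_left₀ n0.le r1 k))
    have d2 : q * (Real.exp a * (n : ℝ) ^ (1 - 1 / a)) ≤
        Real.exp a * (N : ℝ) ^ (1 - 1 / (3 * a)) := by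
      have f1 : (n : ℝ) ^ (-(1 / a)) ≤ (N : ℝ) ^ (-(1 / (3 * a))) := by
        refine le_trans (le_of_eq ?_) (Real.rpow_le_rpow_of_nonpos n0 r1
          (neg_nonpos.2 (by positivity)))
        rw [← Real.rpow_natCast, ← Real.rpow_mul (by positivity)]
        congr 1
        push_cast
        field_simp
      rw [sub_eq_add_neg, sub_eq_add_neg, Real.rpow_add (by linarith), Real.rpow_add n0,
        Real.rpow_one, Real.rpow_one]
      calc _ = Real.exp a * (q * n * (n : ℝ) ^ (-(1 / a))) := by ring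
        _ ≤ _ := by gcongr
    have d3 : ‖EP ψ (q * m) M t‖ ≤ 2 * q :=
      (triv_Ker hψ _ _ t).trans (by exact_mod_cast (by omega : M - q * m ≤ 2 * q))
    have d4 : ‖EP ψ (q * n) N t‖ ≤ q :=
      (triv_Ker hψ _ _ t).trans (by
        rw [mul_comm] at b2
        exact_mod_cast (by omega : N - q * n ≤ q))
    have e1 : EP ψ (q * n) (q * m) t + EP ψ (q * m) M t = EP ψ (q * n) M t :=
      sum_Ioc_consecutive _ (Nat.mul_le_mul_left q m1) m3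
    have e2 : EP ψ (q * n) N t + EP ψ N M t = EP ψ (q * n) M t :=
      sum_Ioc_consecutive _ (by linarith) h1
    have d5 : (q : ℝ) ≤ (N : ℝ) ^ (1 - 1 / (3 * a)) :=
      q1.trans (Real.rpow_le_rpow_of_exponent_le n1 (by linarith))
    rw [show EP ψ N M t = EP ψ (q * n) (q * m) t + EP ψ (q * m) M t - EP ψ (q * n) N t by
      linear_combination e2 - e1]
    refine (norm_sub_le_of_le (norm_add_le_of_le (d1.trans d2) d3) d4).trans ?_
    nlinarith [mul_le_mul_of_nonneg_right a3 p0.le]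
  · have M2 : (M : ℝ) ≤ 2 * N := by exact_mod_cast h2
    refine (hP q ψ N M t hq hψ N1 h1).trans (add_le_add ?_ ?_)
    · exact mul_le_mul_of_nonneg_left
        (div_le_div_of_nonneg_right (by linarith) (by positivity)) m0
    · have b1 : 1 ≤ (N : ℝ) ^ (9 / 10 : ℝ) := Real.one_le_rpow n1 (by norm_num)
      have b2 : |t| * M / N ≤ 2 * |t| := by
        rw [div_le_iff₀ n0]
        nlinarith [abs_nonneg t]
      calc _ ≤ 5 * (N : ℝ) ^ (1 / 20 : ℝ) * (3 * (N : ℝ) ^ (9 / 10 : ℝ)) := by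
            gcongr
            linarith
        _ = 15 * (N : ℝ) ^ (19 / 20 : ℝ) := by
            rw [show (19 / 20 : ℝ) = 1 / 20 + 9 / 10 by norm_num, Real.rpow_add n0]
            ring
        _ ≤ _ := mul_le_mul (by linarith) (Real.rpow_le_rpow_of_exponent_le n1 (by linarith))
            (by positivity) (by positivity)

end Pool.Agent.MP_436a94_nt.A

end
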