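import Pool.Agent.Mg.F436a94p.G13b5b7
import Pool.Agent.Mg.F436a94p.G58f7c4
import Pool.Agent.Mg.F436a94p.G6faa49
import Pool.Agent.Mg.F436a94p.G993540
import Pool.Agent.Mg.F436a94p.Gfd6184
import Pool.Agent.Mg.F436a94p.G707398
import Pool.Agent.Mg.F436a94p.Gbd861e
import Pool.Agent.Mg.C853.G6aba3f
import Pool.Agent.Mg.F436a94p.G025e1e

set_option linter.all false

/-!
Assembly: the statement on almost all short intervals.
-/

set_option autoImplicit false

namespace Pool.Agent.MP_436a94_nt.A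

open Pool.Agent.MP_c853c5_nt Pool.Agent.MP_43e117_nt.PG

theorem ker_all : StKer := s_Ker (s_ExS Z.vm_all Z.bil Z.dd) s_Per

theorem zf_all : StZF := s_ZF (s_Near ker_all s_LT) s_T341 (Z.near Z.tail_all) Z.loc Z.t341

theorem tw_all : StTw := s_Tw (s_Ld zf_all s_LT s_T341)

theorem box_all : StBox :=
  s_Box (s_LV (s_HM ker_all s_Orth) s_MV) s_L2 tw_all Z.tw_all s_Tau s_Tot

theorem mean_all : StMean := s_Mean box_all s_Off s_Vau (s_T1 s_Per) (s_Pt s_L2) s_Tau

theorem ae_all : StAE :=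
  s_AE mean_all sv_all (s_Adm s_Fej) (s_Long s_Fej s_Fej2 s_PNT) s_Fej

end Pool.Agent.MP_436a94_nt.A
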