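import Pool.Agent.GT.Basic
import Pool.Agent.Mg.F436a94p.G204ca6

set_option linter.all false

section

/-!
Prime values of `k (n - k) + 1` for almost all `n`: definitions and statements.
-/

set_option autoImplicit false

open Finset Filter

noncomputable section

namespace Pool.Agent.MP_9d0b4d_nt

open Pool.Agent.GT (av pr ind)
open Pool.Agent.MP_43e117_nt.PG (th PS)

/-- the number of `k` with `1 ≤ k ≤ n / 2` and `k (n - k) + 1` prime -/
def BB (n : ℕ) : ℕ := ((Icc 1 (n / 2)).filter fun k => (k * (n - k) + 1).Prime).card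

/-- the average over the box `A ≤ a < 2 A`, `0 ≤ d < D` -/
def bx (A D : ℕ) (Φ : ℤ → ℤ → ℝ) : ℝ :=
  (∑ a ∈ range A, ∑ d ∈ range D, Φ ((A + a : ℕ) : ℤ) (d : ℤ)) / ((A : ℝ) * D)

/-- the logarithm on primes, zero elsewhere -/
def tz (m : ℤ) : ℝ := th m.toNat

/-- the indicator of a finite set of naturals -/
def hE (E : Finset ℕ) (n : ℤ) : ℝ := ind (∃ m ∈ E, (m : ℤ) = n)

/-- the average over the cell of `n`: same class modulo `M`, same block of length `M l` -/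
def cE (M l : ℕ) (h : ℤ → ℝ) (n : ℤ) : ℝ :=
  (∑ t ∈ range l, h (M * (l * (n / M / l) + t) + n % M)) / l

/-- to lie in the same cell -/
def same (M l n m : ℕ) : Prop := n % M = m % M ∧ n / M / l = m / M / l

/-- the sieve density of the primes up to `z` that do not divide `s` -/
def Vs (s z : ℕ) : ℝ :=
  ∏ p ∈ (Icc 1 z).filter (fun p => p.Prime ∧ ¬ p ∣ s), (1 - 1 / (p : ℝ))

/-- the majorant -/
def nu (s z : ℕ) (m : ℤ) : ℝ :=
  ind (∀ p : ℕ, p.Prime → p ≤ z → ¬ p ∣ s → ¬ (p : ℤ) ∣ m) / Vs s z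

def sg (s : ℕ) : ℝ := (s : ℝ) / s.totient

/-- the four shifted values of `s a d + 1` -/
def Qf {R : Type} [CommRing R] (c r r' a d : R) (h : Fin 3 × Fin 2 → R) (i : Fin 2 × Fin 2) : R :=
  c * r * r' * (a + h (0, 0) + r' * h (1, i.1) + r * h (2, i.2)) *
    (d + h (0, 1) - c * r * h (1, i.1) - c * r' * h (2, i.2)) + 1

def kap (κ k z H : ℕ) (ε : ℝ) : ℝ := ε + 16 / 2 ^ k + 6 * (z : ℝ) ^ (κ * (k + 1)) / H

/-- a bound for the box correlation of the majorant -/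
def CorrB (c r r' z H : ℕ) (β : ℝ) : Prop := ∀ a d : ℤ,
  av (fun h : Fin 3 × Fin 2 → Fin H => ∏ i : Fin 2 × Fin 2,
    (nu (c * r * r') z (Qf (c : ℤ) r r' a d (fun v => ((h v : ℕ) : ℤ)) i) - 1)) ≤ β

/-- a number `s` with `J` factorisations `s = u * r j` of comparable size -/
def Sys (J w s R : ℕ) (r : Fin J → ℕ) : Prop :=
  0 < s ∧ 0 < R ∧ (∀ p : ℕ, p.Prime → p ≤ w → p ∣ s) ∧
  (∀ j, R ≤ r j ∧ r j ≤ 2 * R ∧ ∃ u, s = u * r j ∧ u.Coprime (r j)) ∧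
  ∀ i j, i ≠ j → ∃ (c : ℕ) (t : ℤ), s = c * r i * r j ∧
    t * (c * ((r j : ℤ) ^ 2 - (r i : ℤ) ^ 2)) = (s : ℤ) ^ 4

/-- lower bounds for primes in progressions, uniformly in the interval -/
def BVD (E : ℕ → ℝ) (Q : ℕ) (Y0 Y1 Y2 Err : ℝ) : Prop :=
  (∀ q, 0 ≤ E q) ∧ ∑ q ∈ Icc 1 Q, E q ≤ Err ∧
  ∀ q b y1 y2 : ℕ, 1 ≤ q → q ≤ Q → b.Coprime q → Y0 ≤ y1 → y1 + Y1 ≤ y2 → (y2 : ℝ) ≤ Y2 →
    ((y2 : ℝ) - y1) / (4 * q.totient) - E q ≤
      ∑ n ∈ (Ioc y1 y2).filter (fun n => n ≡ b [MOD q]), th n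

def sc (N k : ℕ) : ℕ := ⌊(N : ℝ) / Real.log N ^ k⌋₊

def dy (N k : ℕ) : ℕ := 2 ^ Nat.log 2 (sc N k)

def G1 (s R N A X l l' D : ℕ) (Bm τ : ℝ) : Prop :=
  2 * R ≤ A ∧ 0 < X ∧ 0 < l ∧ 0 < l' ∧ 4 * s ^ 4 * l ≤ N ∧ 8 * s * A ≤ N ∧ 3 * N ≤ R * D ∧
  R * D ≤ 4 * N ∧ 4 ≤ N ∧
  2 * (l' : ℝ) / X + 2 * (X * (s : ℝ) ^ 4 * (2 * R) / A + X * (s : ℝ) ^ 4 * s / D) ≤ τ ∧
  N * Bm * (2 * Real.log (2 * N)) / (A * D) ≤ τ

def G2 (s N A l D Q : ℕ) (Y0 Y1 Y2 Err τ : ℝ) : Prop :=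
  2 * s * A * s ^ 4 ≤ Q ∧ 2 * Y0 ≤ N ∧ Y1 ≤ A * (s : ℝ) ^ 4 * l ∧ 6 * (s : ℝ) * A * N ≤ Y2 ∧
  N * (Err / l) / (A * D) ≤ τ

def G3 (s R N A D z H : ℕ) (u τ : ℝ) : Prop :=
  2 ≤ z ∧ z ≤ A ∧ 1 ≤ H ∧
  2 * ((z : ℝ) + 1) * (H * (1 + 4 * (R : ℝ)) / A + H * (1 + 2 * (s : ℝ)) / D) ≤ τ ∧
  Real.log N ≤ u * Real.log (z + 1)

/-! ### primes in progressions -/

def StPTL : Prop := ∀ A : ℕ, ∃ B : ℕ, ∀ᶠ N : ℕ in atTop, ∀ x e : ℕ,
  √(N : ℝ) ≤ x → x ≤ 2 * N → e ∈ Icc 1 N →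
  PS th (Icc 1 x) e 1 ⌊√(N : ℝ) / Real.log N ^ B⌋₊ ≤ N / Real.log N ^ A

def StBVL : Prop := ∀ A α : ℕ, ∃ B : ℕ, ∀ᶠ X : ℕ in atTop, ∃ E : ℕ → ℝ,
  BVD E ⌊√(X : ℝ) / Real.log X ^ B⌋₊ (√(X : ℝ)) (X / Real.log X ^ α) (2 * X) (X / Real.log X ^ A)

def StCell : Prop := ∀ (s u r M l A D N Q m : ℕ) (E : ℕ → ℝ) (Y0 Y1 Y2 Err : ℝ),
  BVD E Q Y0 Y1 Y2 Err → s = u * r → u.Coprime r → 0 < u → 0 < r → r ∣ M → M ∣ s ^ 4 → 0 < l →
  r ≤ A → 4 * M * l ≤ N → 8 * u * A ≤ N → 3 * N ≤ r * D → 2 * s * A * M ≤ Q → 2 * Y0 ≤ N →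
  Y1 ≤ A * (M : ℝ) * l → 6 * (u : ℝ) * A * N ≤ Y2 → N ≤ m → m < 2 * N →
  sg s * A * l / (8 * r) - Err ≤ ∑ a ∈ range A, ∑ d ∈ range D,
    th (s * (A + a) * d + 1) * ind (same M l (u * (A + a) + r * d) m)

def StStr : Prop := ∀ (s u r M l A D N Q : ℕ) (S : Finset ℕ) (E : ℕ → ℝ) (Y0 Y1 Y2 Err : ℝ),
  BVD E Q Y0 Y1 Y2 Err → s = u * r → u.Coprime r → 0 < u → 0 < r → r ∣ M → M ∣ s ^ 4 → 0 < l →
  r ≤ A → 4 * M * l ≤ N → 8 * u * A ≤ N → 3 * N ≤ r * D → 2 * s * A * M ≤ Q → 2 * Y0 ≤ N →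
  Y1 ≤ A * (M : ℝ) * l → 6 * (u : ℝ) * A * N ≤ Y2 → S ⊆ Ico N (2 * N) →
  S.card * (sg s * A / (8 * r) - Err / l) / (A * D) ≤
    bx A D fun a d => tz (s * a * d + 1) * cE M l (hE S) (u * a + r * d)

def StUp : Prop := ∀ (s u r A D N : ℕ) (S : Finset ℕ) (Bm : ℝ), s = u * r → 0 < u → 0 < r →
  0 < A → 0 < D → 4 * u * A ≤ N → S ⊆ Ico N (2 * N) → (∀ n ∈ S, (BB n : ℝ) ≤ Bm) → 0 ≤ Bm →
  (bx A D fun a d => tz (s * a * d + 1) * hE S (u * a + r * d)) ≤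
    N * Bm * (2 * Real.log (2 * N)) / (A * D)

/-! ### the majorant -/

def StV : Prop := (∀ s z : ℕ, 0 < Vs s z) ∧ (∀ s : ℕ, 0 < s → 1 ≤ sg s) ∧
  (∀ (s z : ℕ) (m : ℤ), 1 ≤ z → 0 ≤ nu s z m ∧ |nu s z m - 1| ≤ z + 1) ∧
  ∀ (s z : ℕ) (m : ℤ) (Y L : ℝ), 0 < s → 1 ≤ z → (m ≤ 1 ∨ (z : ℤ) < m) → (m : ℝ) ≤ Y → 1 ≤ Y →
    Real.log Y ≤ L * Real.log (z + 1) → 0 ≤ tz m ∧ tz m ≤ L * sg s * nu s z m

def StGF : Prop := ∃ κ k₀ : ℕ, ∀ ε : ℝ, 0 < ε → ∃ w : ℕ, ∀ s z H k m : ℕ,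
  (∀ p : ℕ, p.Prime → p ≤ w → p ∣ s) → k₀ ≤ k → 2 ≤ z → 1 ≤ H → m ≤ 4 →
  ∀ Z : (p : ℕ) → (Fin 3 × Fin 2 → ZMod p) → Prop,
    (∀ p : ℕ, p.Prime → ¬ p ∣ s → |1 - pr (Z p) - (1 - 1 / (p : ℝ)) ^ m| ≤ 40 / (p : ℝ) ^ 2) →
    |pr (fun h : Fin 3 × Fin 2 → Fin H => ∀ p : ℕ, p.Prime → p ≤ z → ¬ p ∣ s →
      ¬ Z p fun v => ((h v : ℕ) : ZMod p)) / Vs s z ^ m - 1| ≤ kap κ k z H ε

def StLoc : Prop := ∀ (p : ℕ), p.Prime → ∀ c r r' a d : ZMod p, c ≠ 0 → r ≠ 0 → r' ≠ 0 →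
  ∀ S : Finset (Fin 2 × Fin 2),
    |1 - pr (fun h : Fin 3 × Fin 2 → ZMod p => ∃ i ∈ S, Qf c r r' a d h i = 0) -
      (1 - 1 / (p : ℝ)) ^ S.card| ≤ 40 / (p : ℝ) ^ 2

def StCorr : Prop := ∃ κ k₀ : ℕ, ∀ ε : ℝ, 0 < ε → ∃ w : ℕ, ∀ c r r' z H k : ℕ,
  (∀ p : ℕ, p.Prime → p ≤ w → p ∣ c * r * r') → k₀ ≤ k → 2 ≤ z → 1 ≤ H →
  CorrB c r r' z H (16 * kap κ k z H ε)

def StShift : Prop := ∀ (A D : ℕ) (Φ : ℤ → ℤ → ℝ) (B : ℝ) (α β : ℤ), 0 < A → 0 < D →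
  (∀ a d, |Φ a d| ≤ B) →
  |(bx A D fun a d => Φ (a + α) (d + β)) - bx A D Φ| ≤ 2 * B * (|(α : ℝ)| / A + |(β : ℝ)| / D)

def StBox : Prop := ∀ (Ω X : Type) [Finite Ω] [Finite X] (G : Ω → X → X → ℝ) (φ ψ : Ω → X → ℝ),
  (∀ ω x, |φ ω x| ≤ 1) → (∀ ω y, |ψ ω y| ≤ 1) →
  (av fun ω => av fun x => av fun y => G ω x y * (φ ω x * ψ ω y)) ^ 4 ≤
    av fun ω => av fun x => av fun x' => av fun y => av fun y' =>
      G ω x y * G ω x y' * G ω x' y * G ω x' y'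

def StP : Prop := ∀ (c r r' z H A D : ℕ) (η : ℝ) (f f' : ℤ → ℝ), 1 ≤ z → 1 ≤ H → 0 < A → 0 < D →
  0 ≤ η → CorrB c r r' z H (η ^ 4) → (∀ n, |f n| ≤ 1) → (∀ n, |f' n| ≤ 1) →
  |bx A D fun a d => (nu (c * r * r') z ((c * r * r' : ℕ) * a * d + 1) - 1) *
      (f ((c * r' : ℕ) * a + r * d) * f' ((c * r : ℕ) * a + r' * d))| ≤
    η + 2 * ((z : ℝ) + 1) * (H * (1 + (r : ℝ) + r') / A + H * (1 + (c : ℝ) * r + c * r') / D)

/-! ### cells -/

def StEn : Prop := ∀ (M I m : ℕ) (e : ℕ → ℕ) (h : ℤ → ℝ), 0 < M → 0 < I →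
  (∀ i < I, e (i + 1) ≤ e i) → ∃ i < I,
    ∑ n ∈ range (M * 2 ^ e 0 * m), (cE M (2 ^ e (i + 1)) h n - cE M (2 ^ e i) h n) ^ 2 ≤
      (∑ n ∈ range (M * 2 ^ e 0 * m), h n ^ 2) / I

def StC3 : Prop := ∀ (M l : ℕ) (h : ℤ → ℝ), 0 < M → 0 < l → (∀ n, 0 ≤ h n ∧ h n ≤ 1) →
  (∀ n, 0 ≤ cE M l h n ∧ cE M l h n ≤ 1) ∧ ∀ (n : ℤ) (X : ℕ),
    |∑ x ∈ range X, (h (n + M * x) - cE M l h (n + M * x))| ≤ 2 * l

def StCnt : Prop := ∀ (u r A D Λ : ℕ) (G : ℤ → ℝ), u.Coprime r → 0 < r → r ≤ A → 0 < D →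
  (∀ n, 0 ≤ G n) → 2 * u * A + r * D ≤ Λ →
  (bx A D fun a d => G (u * a + r * d)) ≤ 2 / (r * D) * ∑ n ∈ range Λ, G n

def StB0 : Prop := ∀ (c r r' M l l' X A D Λ : ℕ) (t : ℤ) (h : ℤ → ℝ) (γ : ℝ), 0 < M → 0 < l →
  0 < l' → 0 < X → 0 < r → r ≤ A → 0 < D → (c * r').Coprime r →
  t * (c * ((r' : ℤ) ^ 2 - (r : ℤ) ^ 2)) = M → (∀ n, 0 ≤ h n ∧ h n ≤ 1) →
  2 * (c * r') * A + r * D ≤ Λ → 0 ≤ γ →
  2 / ((r : ℝ) * D) * ∑ n ∈ range Λ, (cE M l' h n - cE M l h n) ^ 2 ≤ γ ^ 2 →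
  (bx A D fun a d => (h ((c * r' : ℕ) * a + r * d) - cE M l h ((c * r' : ℕ) * a + r * d)) *
      (h ((c * r : ℕ) * a + r' * d) - cE M l h ((c * r : ℕ) * a + r' * d))) ≤
    γ + 2 * l' / X + 2 * (X * (M : ℝ) * r' / A + X * (M : ℝ) * (c * r) / D)

/-! ### assembly -/

def StAbs : Prop := ∀ (J A D : ℕ) (θ ν : ℤ → ℤ → ℝ) (f : Fin J → ℤ → ℤ → ℝ) (L b : ℝ), 0 < J →
  0 ≤ L → 0 ≤ b →
  (∀ a < A, ∀ d < D, 0 ≤ θ (A + a : ℕ) (d : ℕ) ∧
    θ (A + a : ℕ) (d : ℕ) ≤ L * ν (A + a : ℕ) (d : ℕ)) →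
  (∀ a d, 0 ≤ ν a d) → (∀ j a d, |f j a d| ≤ 1) → bx A D ν ≤ 2 →
  (∀ i j, i ≠ j → (bx A D fun a d => ν a d * (f i a d * f j a d)) ≤ b) →
  (∑ j, bx A D fun a d => θ a d * f j a d) ^ 2 ≤ (J * L) ^ 2 * (2 * (2 / J + b))

def StSys : Prop := ∀ J w : ℕ, ∃ (s R : ℕ) (r : Fin J → ℕ), Sys J w s R r

def StN1 : Prop := ∀ (s R α B : ℕ) (τ : ℝ), 0 < s → 0 < R → 1 ≤ α → 0 < τ → ∀ᶠ N : ℕ in atTop,
  G1 s R N (sc N (α + 2 * B + 1)) (sc N (α + 2 * B + 2)) (dy N α) (dy N (α + 2 * B + 3))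
    (3 * N / R + 1) (2 * N / Real.log N ^ (α + 2 * B + 3)) τ

def StN2 : Prop := ∀ (s R α B : ℕ) (τ : ℝ), 0 < s → 0 < R → 0 < τ → ∀ᶠ N : ℕ in atTop,
  ∀ Y : ℕ, Y = 3 * s * sc N (α + 2 * B + 1) * N → N ≤ Y ∧
    G2 s N (sc N (α + 2 * B + 1)) (dy N α) (3 * N / R + 1) ⌊√(Y : ℝ) / Real.log Y ^ B⌋₊
      (√(Y : ℝ)) (Y / Real.log Y ^ (α + 1)) (2 * Y) (Y / Real.log Y ^ (α + 2)) τ

def StN3 : Prop := ∀ (s R β u e : ℕ) (τ : ℝ), 0 < R → 4 ≤ u → 4 * e ≤ u → 0 < τ →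
  ∀ᶠ N : ℕ in atTop, 6 * (⌊(N : ℝ) ^ (1 / u : ℝ)⌋₊ : ℝ) ^ e / (Nat.sqrt N : ℕ) ≤ τ ∧
    G3 s R N (sc N β) (3 * N / R + 1) ⌊(N : ℝ) ^ (1 / u : ℝ)⌋₊ (Nat.sqrt N) u τ

def StStep : Prop := ∀ (J w s R N A X l l' D z H Q Λ : ℕ) (r : Fin J → ℕ) (S : Finset ℕ)
  (E : ℕ → ℝ) (Bm τ γ η u Y0 Y1 Y2 Err : ℝ), Sys J w s R r → 2 ≤ J → S ⊆ Ico N (2 * N) →
  (∀ n ∈ S, (BB n : ℝ) ≤ Bm) → 0 ≤ Bm → G1 s R N A X l l' D Bm τ →
  G2 s N A l D Q Y0 Y1 Y2 Err τ → G3 s R N A D z H u τ → BVD E Q Y0 Y1 Y2 Err →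
  (∀ c i j, s = c * r i * r j → CorrB c (r i) (r j) z H (η ^ 4)) → 0 ≤ η → 0 ≤ τ → η + τ ≤ 1 →
  0 ≤ γ → 0 ≤ u → 9 * N ≤ Λ →
  ∑ n ∈ range Λ, (cE (s ^ 4) l' (hE S) n - cE (s ^ 4) l (hE S) n) ^ 2 ≤ N * γ ^ 2 →
  (S.card : ℝ) ≤ 64 * (2 * τ + 2 * u * √(2 * (2 / J + (γ + η + 2 * τ)))) * N

def StMain : Prop := ∀ δ : ℝ, 0 < δ → ∃ C : ℕ, ∀ᶠ N : ℕ in atTop, ∀ S ⊆ Ico N (2 * N),
  (∀ n ∈ S, (BB n : ℝ) ≤ 2 * N / Real.log N ^ C) → (S.card : ℝ) ≤ δ * N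

def Goal : Prop := ∀ δ : ℝ, 0 < δ → ∃ C : ℕ, ∀ᶠ N : ℕ in atTop,
  (((Icc 1 N).filter fun n : ℕ => (BB n : ℝ) < n / Real.log n ^ C).card : ℝ) ≤ δ * N

end Pool.Agent.MP_9d0b4d_nt

end
end

section

set_option autoImplicit false

open Finset Filter

noncomputable section

namespace Pool.Agent.MP_9d0b4d_nt

open Pool.Agent.GT (av pr ind)
open Pool.Agent.MP_43e117_nt.PG (th PS)

namespace AbsX

theorem core {ι : Type} (T : Finset ι) (J : ℕ) (θ ν : ι → ℝ) (f : Fin J → ι → ℝ) (L b : ℝ)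
    (hJ : 0 < J) (hL : 0 ≤ L) (hb : 0 ≤ b) (hθ : ∀ x ∈ T, 0 ≤ θ x ∧ θ x ≤ L * ν x)
    (hν : ∀ x, 0 ≤ ν x) (hf : ∀ j x, |f j x| ≤ 1) (h2 : ∑ x ∈ T, ν x ≤ 2)
    (h3 : ∀ i j, i ≠ j → ∑ x ∈ T, ν x * (f i x * f j x) ≤ b) :
    (∑ j, ∑ x ∈ T, θ x * f j x) ^ 2 ≤ (J * L) ^ 2 * (2 * (2 / J + b)) := by
  have e1 : ∑ j, ∑ x ∈ T, θ x * f j x = ∑ x ∈ T, θ x * ∑ j, f j x := by
    rw [sum_comm]
    simp only [mul_sum]
  have c1 := sum_sq_le_sum_mul_sum_of_sq_le_mul T (r := fun x => θ x * ∑ j, f j x) (f := θ)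
    (g := fun x => θ x * (∑ j, f j x) ^ 2) (fun x hx => (hθ x hx).1)
    (fun x hx => mul_nonneg (hθ x hx).1 (sq_nonneg _)) fun x _ => le_of_eq (by ring)
  have c2 : ∑ x ∈ T, θ x ≤ L * 2 :=
    (sum_le_sum fun x hx => (hθ x hx).2).trans (by rw [← mul_sum]; gcongr)
  have c3 : ∀ i j, ∑ x ∈ T, ν x * (f i x * f j x) ≤ (if i = j then 2 else 0) + b := fun i j => by
    split_ifs with h
    · refine (sum_le_sum fun x _ => mul_le_of_le_one_right (hν x) ?_).trans (by linarith)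
      refine (le_abs_self _).trans ?_
      rw [abs_mul]
      exact mul_le_one₀ (hf i x) (abs_nonneg _) (hf j x)
    · rw [zero_add]
      exact h3 i j h
  have c4 : ∑ x ∈ T, ν x * (∑ j, f j x) ^ 2 ≤ J * (2 + J * b) := by
    have e2 : ∑ x ∈ T, ν x * (∑ j, f j x) ^ 2 = ∑ i, ∑ j, ∑ x ∈ T, ν x * (f i x * f j x) := by
      simp only [sq, sum_mul_sum]
      simp only [mul_sum]
      rw [sum_comm]
      exact sum_congr rfl fun i _ => sum_comm
    rw [e2]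
    refine (sum_le_sum fun i _ => sum_le_sum fun j _ => c3 i j).trans (le_of_eq ?_)
    simp [sum_add_distrib]
    ring
  have c5 : ∑ x ∈ T, θ x * (∑ j, f j x) ^ 2 ≤ L * (J * (2 + J * b)) :=
    (sum_le_sum fun x hx => mul_le_mul_of_nonneg_right (hθ x hx).2 (sq_nonneg _)).trans (by
      simp only [mul_assoc]
      rw [← mul_sum]
      gcongr)
  have hJ' : (J : ℝ) ≠ 0 := by positivity
  rw [e1]
  refine c1.trans ((mul_le_mul c2 c5 (sum_nonneg fun x hx =>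
    mul_nonneg (hθ x hx).1 (sq_nonneg _)) (by positivity)).trans (le_of_eq ?_))
  field_simp

theorem bx_eq (A D : ℕ) (Φ : ℤ → ℤ → ℝ) : bx A D Φ =
    ∑ x ∈ range A ×ˢ range D, Φ ((A + x.1 : ℕ) : ℤ) (x.2 : ℤ) / ((A : ℝ) * D) := by
  rw [bx, ← sum_div, sum_product]

end AbsX

theorem sAbs : StAbs := by
  intro J A D θ ν f L b hJ hL hb hθ hν hf h2 h3
  have w0 : 0 ≤ (A : ℝ) * D := by positivity
  have := AbsX.core (range A ×ˢ range D) J (fun x => θ ((A + x.1 : ℕ) : ℤ) (x.2 : ℤ) / (A * D))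
    (fun x => ν ((A + x.1 : ℕ) : ℤ) (x.2 : ℤ) / (A * D))
    (fun j x => f j ((A + x.1 : ℕ) : ℤ) (x.2 : ℤ)) L b hJ hL hb (fun x hx => by
      obtain ⟨h4, h5⟩ := hθ x.1 (mem_range.1 (mem_product.1 hx).1) x.2
        (mem_range.1 (mem_product.1 hx).2)
      exact ⟨div_nonneg h4 w0, by rw [← mul_div_assoc]; gcongr⟩)
    (fun x => div_nonneg (hν _ _) w0) (fun j x => hf j _ _) (by rwa [← AbsX.bx_eq])
    fun i j hij => by
      have h4 := h3 i j hij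
      rw [AbsX.bx_eq] at h4
      simpa only [div_mul_eq_mul_div] using h4
  simpa only [AbsX.bx_eq, div_mul_eq_mul_div] using this

end Pool.Agent.MP_9d0b4d_nt

end
end

section

/-!
The correlation of the balanced parts along two linear forms.
-/

set_option autoImplicit false

open Finset Filter

noncomputable section

namespace Pool.Agent.MP_9d0b4d_nt

namespace B0X

variable {A D : ℕ} {Φ Ψ : ℤ → ℤ → ℝ}

theorem bx_add (Φ Ψ : ℤ → ℤ → ℝ) : (bx A D fun a d => Φ a d + Ψ a d) = bx A D Φ + bx A D Ψ := by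
  simp only [bx, sum_add_distrib, add_div]

theorem bx_sum (X : ℕ) (Φ : ℕ → ℤ → ℤ → ℝ) :
    ∑ x ∈ range X, bx A D (Φ x) = bx A D fun a d => ∑ x ∈ range X, Φ x a d := by
  simp only [bx]
  rw [← sum_div, sum_comm]
  exact congrArg (· / _) (sum_congr rfl fun a _ => sum_comm)

theorem bx_mono (h : ∀ a d, Φ a d ≤ Ψ a d) : bx A D Φ ≤ bx A D Ψ :=
  div_le_div_of_nonneg_right (sum_le_sum fun _ _ => sum_le_sum fun _ _ => h _ _) (by positivity)

theorem bx_const (hA : 0 < A) (hD : 0 < D) (c : ℝ) : (bx A D fun _ _ => c) = c := by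
  simp only [bx, sum_const, card_range, nsmul_eq_mul]
  field_simp

theorem bx_sq (hA : 0 < A) (hD : 0 < D) (Φ : ℤ → ℤ → ℝ) :
    bx A D Φ ^ 2 ≤ bx A D fun a d => Φ a d ^ 2 := by
  have h := sq_sum_le_card_mul_sum_sq (s := range A ×ˢ range D)
    (f := fun p => Φ ((A + p.1 : ℕ) : ℤ) (p.2 : ℤ))
  rw [sum_product, sum_product, card_product, card_range, card_range, Nat.cast_mul] at h
  have h0 : (0 : ℝ) < A * D := by positivity
  rw [bx, bx, div_pow, div_le_div_iff₀ (by positivity) h0]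
  exact (mul_le_mul_of_nonneg_right h h0.le).trans_eq (by ring)

theorem abs_sub_le {x y : ℝ} (hx : 0 ≤ x ∧ x ≤ 1) (hy : 0 ≤ y ∧ y ≤ 1) : |x - y| ≤ 1 :=
  abs_le.2 ⟨by linarith [hx.1, hy.2], by linarith [hx.2, hy.1]⟩

end B0X

open B0X in
theorem sB0 (hS : StShift) (h3 : StC3) (hC : StCnt) : StB0 := by
  intro c r r' M l l' X A D Λ t h γ hM hl hl' hX hr hrA hD hcop ht hh hΛ hγ hE
  have hA : 0 < A := hr.trans_le hrA
  have c1 := (h3 M l h hM hl hh).1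
  obtain ⟨c2, c3⟩ := h3 M l' h hM hl' hh
  obtain ⟨F, hF⟩ : ∃ F : ℤ → ℝ, ∀ n, h n - cE M l h n = F n := ⟨_, fun _ => rfl⟩
  obtain ⟨f, hf⟩ : ∃ f : ℤ → ℝ, ∀ n, h n - cE M l' h n = f n := ⟨_, fun _ => rfl⟩
  obtain ⟨g, hg⟩ : ∃ g : ℤ → ℝ, ∀ n, cE M l' h n - cE M l h n = g n := ⟨_, fun _ => rfl⟩
  have hF1 : ∀ n, |F n| ≤ 1 := fun n => hF n ▸ abs_sub_le (hh n) (c1 n)
  have hf1 : ∀ n, |f n| ≤ 1 := fun n => hf n ▸ abs_sub_le (hh n) (c2 n)
  have e : ∀ n m, F n * m = g n * m + f n * m := fun n m => by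
    rw [← hF, ← hf, ← hg]
    ring
  simp only [hF, hf, hg] at hE c3 ⊢
  have p1 : (bx A D fun a d => g ((c * r' : ℕ) * a + r * d) * F ((c * r : ℕ) * a + r' * d)) ≤ γ := by
    refine (abs_le_of_sq_le_sq' ((bx_sq hA hD _).trans ((bx_mono fun a d => ?_).trans
      ((hC (c * r') r A D Λ (fun n => g n ^ 2) hcop hr hrA hD (fun n => sq_nonneg _) hΛ).trans hE)))
      hγ).2
    rw [mul_pow]
    exact mul_le_of_le_one_right (sq_nonneg _) ((sq_le_one_iff_abs_le_one _).2 (hF1 _))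
  have ht' : |(t : ℝ)| ≤ M := by
    have h1 : |t| ≤ |(M : ℤ)| := Int.le_of_dvd (abs_pos.2 (by exact_mod_cast hM.ne'))
      ((abs_dvd_abs _ _).2 ⟨_, ht.symm⟩)
    rw [Nat.abs_cast] at h1
    exact_mod_cast h1
  obtain ⟨E, hE'⟩ : ∃ E, 2 * (X * (M : ℝ) * r' / A + X * (M : ℝ) * (c * r) / D) = E := ⟨_, rfl⟩
  obtain ⟨b, hb⟩ : ∃ b, (bx A D fun a d =>
    f ((c * r' : ℕ) * a + r * d) * F ((c * r : ℕ) * a + r' * d)) = b := ⟨_, rfl⟩
  have p2 : ∀ x ∈ range X, b ≤ (bx A D fun a d =>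
      f ((c * r' : ℕ) * a + r * d + M * x) * F ((c * r : ℕ) * a + r' * d)) + E := fun x hx => by
    have h1 := hS A D (fun a d => f ((c * r' : ℕ) * a + r * d) * F ((c * r : ℕ) * a + r' * d)) 1
      (x * t * r') (-(x * t * (c * r))) hA hD fun a d => by
        rw [abs_mul]
        exact mul_le_one₀ (hf1 _) (abs_nonneg _) (hF1 _)
    have h2 : ∀ a d : ℤ, (c * r' : ℕ) * (a + x * t * r') + r * (d + -(x * t * (c * r))) =
        (c * r' : ℕ) * a + r * d + M * x := fun a d => by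
      rw [← ht]
      push_cast
      ring
    have h4 : ∀ a d : ℤ, (c * r : ℕ) * (a + x * t * r') + r' * (d + -(x * t * (c * r))) =
        (c * r : ℕ) * a + r' * d := fun a d => by
      push_cast
      ring
    simp only [h2, h4] at h1
    rw [hb] at h1
    have h5 : (x : ℝ) ≤ X := by exact_mod_cast (mem_range.1 hx).le
    have h6 : 2 * 1 * (|((x * t * r' : ℤ) : ℝ)| / A + |((-(x * t * (c * r)) : ℤ) : ℝ)| / D) ≤ E := by
      rw [← hE', mul_one]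
      push_cast
      simp only [abs_neg, abs_mul, Nat.abs_cast]
      gcongr
    linarith [(abs_le.1 h1).1]
  have p3 := sum_le_sum p2
  rw [sum_add_distrib, bx_sum, sum_const, sum_const, card_range, nsmul_eq_mul, nsmul_eq_mul] at p3
  have p4 : (bx A D fun a d => ∑ x ∈ range X,
      f ((c * r' : ℕ) * a + r * d + M * x) * F ((c * r : ℕ) * a + r' * d)) ≤ 2 * l' := by
    refine (bx_mono fun a d => ?_).trans_eq (bx_const hA hD _)
    rw [← sum_mul]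
    refine (le_abs_self _).trans ?_
    rw [abs_mul]
    exact (mul_le_of_le_one_right (abs_nonneg _) (hF1 _)).trans (c3 _ _)
  have hX' : (0 : ℝ) < X := by exact_mod_cast hX
  have p5 : b - E ≤ 2 * l' / X := by
    rw [le_div_iff₀ hX']
    linarith
  simp only [e (((c * r' : ℕ) : ℤ) * _ + _)]
  rw [bx_add, hb, hE']
  linarith

end Pool.Agent.MP_9d0b4d_nt

end
end

section

/-!
The box inequality.
-/

set_option autoImplicit false

open Finset Filter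

noncomputable section

namespace Pool.Agent.MP_9d0b4d_nt

open Pool.Agent.GT (av pr ind)
open Pool.Agent.MP_43e117_nt.PG (th PS)

namespace BoxX

open Pool.Agent.GT

theorem step {Ω Y : Type} [Finite Ω] [Finite Y] (b : Ω → ℝ) (hb : ∀ ω, |b ω| ≤ 1)
    (F : Ω → Y → ℝ) :
    (av fun ω => b ω * av (F ω)) ^ 2 ≤ av fun ω => av fun y => av fun y' => F ω y * F ω y' := by
  refine (sq_av_le _).trans (av_mono fun ω => ?_)
  have h1 : b ω ^ 2 ≤ 1 := by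
    rw [← sq_abs]
    exact pow_le_one₀ (abs_nonneg _) (hb ω)
  have h2 : (av fun y => av fun y' => F ω y * F ω y') = av (F ω) ^ 2 := by
    simp only [av_const_mul, av_mul_const, sq]
  rw [h2, mul_pow]
  exact mul_le_of_le_one_left (sq_nonneg _) h1

theorem one {X : Type} [Finite X] (G : X → X → ℝ) (φ ψ : X → ℝ) (hφ : ∀ x, |φ x| ≤ 1)
    (hψ : ∀ y, |ψ y| ≤ 1) :
    (av fun x => av fun y => G x y * (φ x * ψ y)) ^ 4 ≤
      av fun x => av fun x' => av fun y => av fun y' => G x y * G x y' * G x' y * G x' y' := by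
  have e1 : (av fun x => av fun y => G x y * (φ x * ψ y)) =
      av fun x => φ x * av fun y => G x y * ψ y := by
    refine av_congr fun x => ?_
    rw [← av_const_mul]
    exact av_congr fun y => by ring
  have h1 := step φ hφ fun x y => G x y * ψ y
  have e2 : (av fun x => av fun y => av fun y' => G x y * ψ y * (G x y' * ψ y')) =
      av fun p : X × X => ψ p.1 * ψ p.2 * av fun x => G x p.1 * G x p.2 := by
    rw [av_prod, av_comm]
    refine av_congr fun y => ?_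
    rw [av_comm]
    refine av_congr fun y' => ?_
    rw [← av_const_mul]
    exact av_congr fun x => by ring
  have h2 := step (fun p : X × X => ψ p.1 * ψ p.2) (fun p => by
    rw [abs_mul]
    exact mul_le_one₀ (hψ _) (abs_nonneg _) (hψ _)) fun p x => G x p.1 * G x p.2
  have e3 : (av fun p : X × X => av fun x => av fun x' =>
      G x p.1 * G x p.2 * (G x' p.1 * G x' p.2)) =
      av fun x => av fun x' => av fun y => av fun y' => G x y * G x y' * G x' y * G x' y' := by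
    rw [av_comm]
    refine av_congr fun x => ?_
    rw [av_comm]
    refine av_congr fun x' => ?_
    rw [av_prod]
    exact av_congr fun y => av_congr fun y' => by ring
  rw [e2] at h1
  rw [e1, ← e3, show (4 : ℕ) = 2 * 2 from rfl, pow_mul]
  exact (pow_le_pow_left₀ (sq_nonneg _) h1 2).trans h2

end BoxX

theorem sBox : StBox := by
  intro Ω X _ _ G φ ψ hφ hψ
  refine le_trans ?_ (GT.av_mono fun ω => BoxX.one (G ω) (φ ω) (ψ ω) (hφ ω) (hψ ω))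
  rw [show (4 : ℕ) = 2 * 2 from rfl]
  simp only [pow_mul]
  exact (pow_le_pow_left₀ (sq_nonneg _) (GT.sq_av_le _) 2).trans (GT.sq_av_le _)

end Pool.Agent.MP_9d0b4d_nt

end
end

section

set_option autoImplicit false

open Finset Filter

noncomputable section

namespace Pool.Agent.MP_9d0b4d_nt

open Pool.Agent.GT (av pr ind)
open Pool.Agent.MP_43e117_nt.PG (th PS)

namespace C3X

/-- the block average -/
def ψ (l : ℕ) (φ : ℤ → ℝ) (k : ℤ) : ℝ := (∑ t ∈ range l, φ (l * k + t)) / l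

/-- the sum over the initial part of a block -/
def T (l : ℕ) (φ : ℤ → ℝ) (j : ℤ) : ℝ :=
  ∑ i ∈ range (j % l).toNat, (φ (l * (j / l) + i) - ψ l φ (j / l))

variable {l : ℕ} {φ : ℤ → ℝ}

theorem ψ_mem (hl : 0 < l) (h : ∀ n, 0 ≤ φ n ∧ φ n ≤ 1) (k : ℤ) : 0 ≤ ψ l φ k ∧ ψ l φ k ≤ 1 := by
  have h0 : (0 : ℝ) < l := by exact_mod_cast hl
  refine ⟨div_nonneg (sum_nonneg fun t _ => (h _).1) h0.le, (div_le_one h0).2 ?_⟩
  refine (sum_le_sum fun t _ => (h _).2).trans ?_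
  simp

theorem T_le (hl : 0 < l) (h : ∀ n, 0 ≤ φ n ∧ φ n ≤ 1) (j : ℤ) : |T l φ j| ≤ l := by
  have h1 : j % l < l := Int.emod_lt_of_pos j (by exact_mod_cast hl)
  have h2 : (j % l).toNat ≤ l := by omega
  refine (abs_sum_le_sum_abs _ _).trans ((sum_le_sum (g := fun _ => 1) fun i _ => ?_).trans ?_)
  · have a := h (l * (j / l) + i)
    have b := ψ_mem hl h (j / l)
    rw [abs_le]
    constructor <;> linarith [a.1, a.2, b.1, b.2]
  · simpa using h2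

theorem T_step (hl : 0 < l) (j : ℤ) : T l φ (j + 1) - T l φ j = φ j - ψ l φ (j / l) := by
  have hl' : (0 : ℤ) < l := by exact_mod_cast hl
  have h0 : (l : ℝ) ≠ 0 := by exact_mod_cast hl.ne'
  obtain ⟨r, hr⟩ := Int.eq_ofNat_of_zero_le (Int.emod_nonneg j hl'.ne')
  have h1 : j % l < l := Int.emod_lt_of_pos j hl'
  have h2 : l * (j / l) + r = j := by rw [← hr]; exact Int.mul_ediv_add_emod j l
  have h3 : ∑ i ∈ range (r + 1), (φ (l * (j / l) + i) - ψ l φ (j / l)) =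
      T l φ j + (φ j - ψ l φ (j / l)) := by
    rw [sum_range_succ, T, hr, Int.toNat_natCast, h2]
  by_cases hc : r + 1 < l
  · have h4 := (Int.ediv_emod_unique (a := j + 1) (r := r + 1) (q := j / l) hl').2
      ⟨by linarith, by positivity, by exact_mod_cast hc⟩
    have h5 : ((r : ℤ) + 1).toNat = r + 1 := by omega
    rw [T, h4.1, h4.2, h5, h3]
    ring
  · have e : r + 1 = l := by omega
    have e' : (r : ℤ) + 1 = l := by exact_mod_cast e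
    have h4 := (Int.ediv_emod_unique (a := j + 1) (r := 0) (q := j / l + 1) hl').2
      ⟨by linarith, le_rfl, hl'⟩
    rw [e, sum_sub_distrib, sum_const, card_range, nsmul_eq_mul, ψ, mul_div_cancel₀ _ h0,
      sub_self] at h3
    rw [T, h4.2, Int.toNat_zero, sum_range_zero, ψ]
    linarith

end C3X

open C3X in
theorem sC3 : StC3 := by
  intro M l h hM hl hh
  have hM' : (M : ℤ) ≠ 0 := by exact_mod_cast hM.ne'
  refine ⟨fun n => ψ_mem (φ := fun j => h (M * j + n % M)) hl (fun _ => hh _) (n / M / l),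
    fun n X => ?_⟩
  have e : ∀ x : ℕ, h (n + M * x) - cE M l h (n + M * x) =
      T l (fun j => h (M * j + n % M)) (n / M + (x + 1 : ℕ)) -
        T l (fun j => h (M * j + n % M)) (n / M + x) := fun x => by
    rw [Nat.cast_succ, ← add_assoc, T_step hl, cE, ψ, Int.add_mul_ediv_left _ _ hM',
      Int.add_mul_emod_self_left]
    congr 2
    linarith [Int.mul_ediv_add_emod n M]
  rw [sum_congr rfl fun x _ => e x,
    sum_range_sub fun x : ℕ => T l (fun j => h (M * j + n % M)) (n / M + x)]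
  refine (abs_sub _ _).trans ?_
  have a := T_le (φ := fun j => h (M * j + n % M)) hl (fun _ => hh _) (n / M + X)
  have b := T_le (φ := fun j => h (M * j + n % M)) hl (fun _ => hh _) (n / M + (0 : ℕ))
  linarith

end Pool.Agent.MP_9d0b4d_nt

end
end

section

/-!
Counting the pairs with a given value of a linear form.
-/

set_option autoImplicit false

open Finset Filter

noncomputable section

namespace Pool.Agent.MP_9d0b4d_nt

open Pool.Agent.GT (av pr ind)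
open Pool.Agent.MP_43e117_nt.PG (th PS)

namespace CntX

theorem fib {u r : ℕ} (A D n : ℕ) (hu : u.Coprime r) (hr : 0 < r) :
    ((range A ×ˢ range D).filter fun p => u * (A + p.1) + r * p.2 = n).card ≤ A / r + 1 := by
  rw [← card_range (A / r + 1)]
  refine card_le_card_of_injOn (fun p => p.1 / r) (fun p hp => ?_) fun p hp p' hp' e => ?_
  · have h := mem_range.1 (mem_product.1 (mem_filter.1 (mem_coe.1 hp)).1).1
    exact mem_coe.2 (mem_range.2 (Nat.lt_succ_of_le (Nat.div_le_div_right h.le)))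
  · have h := (mem_filter.1 (mem_coe.1 hp)).2.trans (mem_filter.1 (mem_coe.1 hp')).2.symm
    have h1 : u * (A + p.1) ≡ u * (A + p'.1) [MOD r] := by
      have := congrArg (· % r) h
      simpa only [Nat.ModEq, Nat.add_mul_mod_self_left] using this
    have h2 : p.1 ≡ p'.1 [MOD r] :=
      Nat.ModEq.add_left_cancel' A (Nat.ModEq.cancel_left_of_coprime hu.symm h1)
    have h3 : p.1 = p'.1 := by
      rw [← Nat.div_add_mod p.1 r, ← Nat.div_add_mod p'.1 r, show p.1 / r = p'.1 / r from e,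
        show p.1 % r = p'.1 % r from h2]
    rw [h3] at h
    exact Prod.ext h3 (Nat.eq_of_mul_eq_mul_left hr (Nat.add_left_cancel h))

end CntX

theorem sCnt : StCnt := by
  intro u r A D Λ G hu hr hA hD hG hΛ
  have hr' : (0 : ℝ) < r := Nat.cast_pos.2 hr
  have hA' : (r : ℝ) ≤ A := Nat.cast_le.2 hA
  have hD' : (0 : ℝ) < D := Nat.cast_pos.2 hD
  have hA0 : (0 : ℝ) < A := hr'.trans_le hA'
  have hm : ∀ p ∈ range A ×ˢ range D, u * (A + p.1) + r * p.2 ∈ range Λ := fun p hp => by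
    obtain ⟨h1, h2⟩ := mem_product.1 hp
    rw [mem_range] at h1 h2 ⊢
    have a1 := Nat.mul_le_mul_left u h1.le
    have a2 := Nat.mul_lt_mul_of_pos_left h2 hr
    nlinarith
  have h1 : ∑ a ∈ range A, ∑ d ∈ range D, G (u * ((A + a : ℕ) : ℤ) + r * (d : ℤ)) ≤
      2 * A / r * ∑ n ∈ range Λ, G n := by
    rw [← sum_product', ← sum_fiberwise_of_maps_to hm, mul_sum]
    refine sum_le_sum fun n _ => ?_
    rw [sum_congr rfl (g := fun _ => G n) fun p hp => by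
      rw [← (mem_filter.1 hp).2]
      push_cast
      rfl, sum_const, nsmul_eq_mul]
    refine mul_le_mul_of_nonneg_right ?_ (hG n)
    have h2 : ((A / r + 1 : ℕ) : ℝ) ≤ 2 * A / r := by
      have a1 : ((A / r : ℕ) : ℝ) ≤ A / r := Nat.cast_div_le
      have a2 : (1 : ℝ) ≤ A / r := (one_le_div hr').2 hA'
      rw [Nat.cast_add, Nat.cast_one, mul_div_assoc]
      linarith
    exact (Nat.cast_le.2 (CntX.fib A D n hu hr)).trans h2
  rw [bx, div_le_iff₀ (by positivity)]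
  refine h1.trans (le_of_eq ?_)
  field_simp

end Pool.Agent.MP_9d0b4d_nt

end
end

section

/-!
The box correlation of the majorant.
-/

set_option autoImplicit false

open Finset Filter

noncomputable section

namespace Pool.Agent.MP_9d0b4d_nt

open Pool.Agent.GT (av pr ind)
open Pool.Agent.MP_43e117_nt.PG (th PS)

namespace CorrX

theorem cast_Qf (p : ℕ) (c r r' : ℕ) (a d : ℤ) {H : ℕ} (h : Fin 3 × Fin 2 → Fin H)
    (i : Fin 2 × Fin 2) :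
    ((Qf (c : ℤ) r r' a d (fun v => ((h v : ℕ) : ℤ)) i : ℤ) : ZMod p) =
      Qf (c : ZMod p) r r' a d (fun v => ((h v : ℕ) : ZMod p)) i := by
  simp only [Qf]
  push_cast
  rfl

theorem prod_nu (s z : ℕ) {ι : Type} (S : Finset ι) (Q : ι → ℤ) :
    ∏ i ∈ S, nu s z (Q i) =
      ind (∀ p : ℕ, p.Prime → p ≤ z → ¬ p ∣ s → ¬ ∃ i ∈ S, (p : ℤ) ∣ Q i) / Vs s z ^ S.card := by
  simp only [nu]
  rw [Finset.prod_div_distrib, Finset.prod_const, ← GT.ind_forall]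
  refine congrArg (· / Vs s z ^ S.card) (GT.ind_congr ⟨?_, ?_⟩)
  · rintro h p hp hz hs ⟨i, hi, hd⟩
    exact h i hi p hp hz hs hd
  · intro h i hi p hp hz hs hd
    exact h p hp hz hs ⟨i, hi, hd⟩

theorem expand {Ω ι : Type} [Finite Ω] [Fintype ι] [Nonempty ι] [DecidableEq ι] (f : ι → Ω → ℝ)
    (K : ℝ) (hK : ∀ S : Finset ι, |av (fun x => ∏ i ∈ S, f i x) - 1| ≤ K) :
    av (fun x => ∏ i, (f i x - 1)) ≤ 2 ^ Fintype.card ι * K := by
  have h1 : ∀ x, ∏ i, (f i x - 1) =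
      ∑ S ∈ (univ : Finset ι).powerset, (∏ i ∈ S, f i x) * ∏ _i ∈ univ \ S, (-1 : ℝ) := by
    intro x
    simp only [sub_eq_add_neg]
    exact Finset.prod_add _ _ _
  have h0 : ∑ S ∈ (univ : Finset ι).powerset, ∏ _i ∈ univ \ S, (-1 : ℝ) = 0 := by
    have := Finset.prod_add (fun _ : ι => (1 : ℝ)) (fun _ => (-1 : ℝ)) univ
    simp only [Finset.prod_const_one, one_mul] at this
    rw [← this, add_neg_cancel, Finset.prod_const, zero_pow]
    exact Finset.card_ne_zero.2 univ_nonempty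
  rw [GT.av_congr h1, GT.av_sum]
  have h2 : ∑ S ∈ (univ : Finset ι).powerset,
      av (fun x => (∏ i ∈ S, f i x) * ∏ _i ∈ univ \ S, (-1 : ℝ)) =
      ∑ S ∈ (univ : Finset ι).powerset,
        (av (fun x => ∏ i ∈ S, f i x) - 1) * ∏ _i ∈ univ \ S, (-1 : ℝ) := by
    simp only [GT.av_mul_const, sub_mul, one_mul, Finset.sum_sub_distrib]
    rw [h0, sub_zero]
  rw [h2]
  refine (Finset.sum_le_card_nsmul _ _ K fun S _ => ?_).trans ?_
  · refine (le_abs_self _).trans ?_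
    rw [abs_mul, Finset.prod_const, abs_pow, abs_neg, abs_one, one_pow, mul_one]
    exact hK S
  · rw [Finset.card_powerset, Finset.card_univ, nsmul_eq_mul]
    push_cast
    exact le_rfl

end CorrX

theorem sCorr (hGF : StGF) (hLoc : StLoc) : StCorr := by
  obtain ⟨κ, k₀, h⟩ := hGF
  refine ⟨κ, k₀, fun ε hε => ?_⟩
  obtain ⟨w, hw⟩ := h ε hε
  refine ⟨w, fun c r r' z H k hs hk hz hH a d => ?_⟩
  have := CorrX.expand (Ω := Fin 3 × Fin 2 → Fin H) (ι := Fin 2 × Fin 2)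
    (fun i h => nu (c * r * r') z (Qf (c : ℤ) r r' a d (fun v => ((h v : ℕ) : ℤ)) i))
    (kap κ k z H ε) (fun S => ?_)
  · rw [Fintype.card_prod, Fintype.card_fin] at this
    norm_num at this
    exact this
  have hS : S.card ≤ 4 := by
    have := Finset.card_le_univ S
    rwa [Fintype.card_prod, Fintype.card_fin] at this
  have h1 := hw (c * r * r') z H k S.card hs hk hz hH hS
    (fun p h => ∃ i ∈ S, Qf (c : ZMod p) r r' a d h i = 0) (fun p hp hd => ?_)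
  · simp only [CorrX.prod_nu]
    rw [GT.av_div_const]
    have e : av (fun h : Fin 3 × Fin 2 → Fin H => ind (∀ p : ℕ, p.Prime → p ≤ z →
        ¬ p ∣ c * r * r' → ¬ ∃ i ∈ S,
          (p : ℤ) ∣ Qf (c : ℤ) r r' a d (fun v => ((h v : ℕ) : ℤ)) i)) =
        pr (fun h : Fin 3 × Fin 2 → Fin H => ∀ p : ℕ, p.Prime → p ≤ z → ¬ p ∣ c * r * r' →
          ¬ ∃ i ∈ S, Qf (c : ZMod p) r r' a d (fun v => ((h v : ℕ) : ZMod p)) i = 0) := by
      refine GT.av_congr fun h => GT.ind_congr ?_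
      simp only [← ZMod.intCast_zmod_eq_zero_iff_dvd, CorrX.cast_Qf]
    rw [e]
    exact h1
  · refine hLoc p hp _ _ _ _ _ ?_ ?_ ?_ S
    · rw [Ne, ZMod.natCast_eq_zero_iff]
      exact fun h => hd ((h.mul_right _).mul_right _)
    · rw [Ne, ZMod.natCast_eq_zero_iff]
      exact fun h => hd ((h.mul_left _).mul_right _)
    · rw [Ne, ZMod.natCast_eq_zero_iff]
      exact fun h => hd (h.mul_left _)

end Pool.Agent.MP_9d0b4d_nt

end
end

section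

/-!
Energy increment along a chain of dyadic cells.
-/

set_option autoImplicit false

open Finset Filter

noncomputable section

namespace Pool.Agent.MP_9d0b4d_nt

open Pool.Agent.GT (av pr ind)
open Pool.Agent.MP_43e117_nt.PG (th PS)

namespace EnX

theorem blocks (f : ℕ → ℝ) (a m : ℕ) :
    ∑ n ∈ range (a * m), f n = ∑ i ∈ range m, ∑ j ∈ range a, f (a * i + j) := by
  induction m with
  | zero => simp
  | succ m ih => rw [Nat.mul_succ, sum_range_add, ih, sum_range_succ]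

/-- the average over a cell given by its coordinates -/
def cl (M l : ℕ) (h : ℤ → ℝ) (b Q : ℕ) : ℝ :=
  (∑ t ∈ range l, h ((M * (l * Q + t) + b : ℕ) : ℤ)) / l

theorem cE_eq (M l : ℕ) (h : ℤ → ℝ) (n : ℕ) : cE M l h n = cl M l h (n % M) (n / M / l) := by
  simp only [cE, cl, Nat.cast_add, Nat.cast_mul, Int.natCast_div, Int.natCast_mod]

theorem key {M l : ℕ} (hM : 0 < M) (hl : 0 < l) (h : ℤ → ℝ) (φ : ℕ → ℕ → ℝ) (m : ℕ) :
    ∑ n ∈ range (M * (l * m)), cE M l h n * φ (n % M) (n / M / l) =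
      ∑ n ∈ range (M * (l * m)), h n * φ (n % M) (n / M / l) := by
  have l0 : (l : ℝ) ≠ 0 := by positivity
  have e : ∀ Q, ∀ t ∈ range l, ∀ b ∈ range M,
      (M * (l * Q + t) + b) % M = b ∧ (M * (l * Q + t) + b) / M / l = Q := fun Q t ht b hb => by
    rw [Nat.mul_add_mod, Nat.mod_eq_of_lt (mem_range.1 hb), Nat.mul_add_div hM,
      Nat.div_eq_of_lt (mem_range.1 hb), add_zero, Nat.mul_add_div hl,
      Nat.div_eq_of_lt (mem_range.1 ht), add_zero]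
    exact ⟨rfl, rfl⟩
  rw [blocks, blocks, blocks, blocks]
  refine sum_congr rfl fun Q _ => ?_
  rw [sum_comm, sum_comm (s := range l)]
  refine sum_congr rfl fun b hb => ?_
  trans ∑ t ∈ range l, cl M l h b Q * φ b Q
  · exact sum_congr rfl fun t ht => by rw [cE_eq, (e Q t ht b hb).1, (e Q t ht b hb).2]
  trans ∑ t ∈ range l, h ((M * (l * Q + t) + b : ℕ) : ℤ) * φ b Q
  · rw [sum_const, card_range, nsmul_eq_mul, ← sum_mul, cl]
    field_simp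
  · exact sum_congr rfl fun t ht => by rw [(e Q t ht b hb).1, (e Q t ht b hb).2]

theorem cross {M l k : ℕ} (hM : 0 < M) (hl : 0 < l) (h : ℤ → ℝ) (m : ℕ) :
    ∑ n ∈ range (M * (l * m)), cE M l h n * cE M (l * k) h n =
      ∑ n ∈ range (M * (l * m)), h n * cE M (l * k) h n := by
  simpa only [cE_eq M (l * k), Nat.div_div_eq_div_mul _ l k] using
    key hM hl h (fun b Q => cl M (l * k) h b (Q / k)) m

theorem self {M l : ℕ} (hM : 0 < M) (hl : 0 < l) (h : ℤ → ℝ) (m : ℕ) :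
    ∑ n ∈ range (M * (l * m)), h n * cE M l h n = ∑ n ∈ range (M * (l * m)), cE M l h n ^ 2 := by
  have := cross (k := 1) hM hl h m
  simp only [mul_one] at this
  simp only [sq, this]

theorem diff {M l k : ℕ} (hM : 0 < M) (hl : 0 < l) (hk : 0 < k) (h : ℤ → ℝ) (m : ℕ) :
    ∑ n ∈ range (M * (l * k * m)), (cE M l h n - cE M (l * k) h n) ^ 2 =
      ∑ n ∈ range (M * (l * k * m)), cE M l h n ^ 2 -
        ∑ n ∈ range (M * (l * k * m)), cE M (l * k) h n ^ 2 := by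
  have h1 := cross (k := k) hM hl h (k * m)
  rw [← mul_assoc l, self hM (mul_pos hl hk)] at h1
  simp only [sub_sq, mul_assoc (2 : ℝ), sum_add_distrib, sum_sub_distrib, ← mul_sum, h1]
  ring

theorem le_sq {M l : ℕ} (hM : 0 < M) (hl : 0 < l) (h : ℤ → ℝ) (m : ℕ) :
    ∑ n ∈ range (M * (l * m)), cE M l h n ^ 2 ≤ ∑ n ∈ range (M * (l * m)), h n ^ 2 := by
  have h1 : 0 ≤ ∑ n ∈ range (M * (l * m)), (h n - cE M l h n) ^ 2 :=
    sum_nonneg fun _ _ => sq_nonneg _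
  simp only [sub_sq, mul_assoc (2 : ℝ), sum_add_distrib, sum_sub_distrib, ← mul_sum,
    self hM hl] at h1
  linarith

end EnX

theorem sEn : StEn := by
  intro M I m e h hM hI he
  have mono : ∀ i ≤ I, e i ≤ e 0 := fun i hi => by
    induction i with
    | zero => exact le_rfl
    | succ i ih => exact (he i hi).trans (ih (by omega))
  have split : ∀ j ≤ e 0, M * 2 ^ e 0 * m = M * (2 ^ j * (2 ^ (e 0 - j) * m)) := fun j hj => by
    rw [← mul_assoc (2 ^ j), ← pow_add, Nat.add_sub_cancel' hj, mul_assoc]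
  have step : ∀ i ∈ range I,
      ∑ n ∈ range (M * 2 ^ e 0 * m), (cE M (2 ^ e (i + 1)) h n - cE M (2 ^ e i) h n) ^ 2 =
      ∑ n ∈ range (M * 2 ^ e 0 * m), cE M (2 ^ e (i + 1)) h n ^ 2 -
        ∑ n ∈ range (M * 2 ^ e 0 * m), cE M (2 ^ e i) h n ^ 2 := fun i hi => by
    have hi' := mem_range.1 hi
    have := EnX.diff (l := 2 ^ e (i + 1)) (k := 2 ^ (e i - e (i + 1))) hM (by positivity)
      (by positivity) h (2 ^ (e 0 - e i) * m)
    rwa [← pow_add, Nat.add_sub_cancel' (he i hi'), ← split _ (mono i hi'.le)] at this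
  have top := EnX.le_sq (l := 2 ^ e I) hM (by positivity) h (2 ^ (e 0 - e I) * m)
  rw [← split _ (mono I le_rfl)] at top
  have I0 : (I : ℝ) ≠ 0 := by positivity
  obtain ⟨i, hi, h1⟩ := exists_le_of_sum_le (s := range I) (nonempty_range_iff.2 hI.ne')
    (f := fun i => ∑ n ∈ range (M * 2 ^ e 0 * m),
      (cE M (2 ^ e (i + 1)) h n - cE M (2 ^ e i) h n) ^ 2)
    (g := fun _ => (∑ n ∈ range (M * 2 ^ e 0 * m), h n ^ 2) / I) (by
      rw [sum_congr rfl step,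
        sum_range_sub fun i => ∑ n ∈ range (M * 2 ^ e 0 * m), cE M (2 ^ e i) h n ^ 2,
        sum_const, card_range, nsmul_eq_mul, mul_div_cancel₀ _ I0]
      have : 0 ≤ ∑ n ∈ range (M * 2 ^ e 0 * m), cE M (2 ^ e 0) h n ^ 2 :=
        sum_nonneg fun _ _ => sq_nonneg _
      linarith)
  exact ⟨i, mem_range.1 hi, h1⟩

end Pool.Agent.MP_9d0b4d_nt

end
end

section

/-!
Dyadic summation.
-/

set_option autoImplicit false

open Finset Filter

noncomputable section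

namespace Pool.Agent.MP_9d0b4d_nt

namespace FinX

theorem dyad (P : ℕ → Prop) [DecidablePred P] (δ : ℝ) (N0 : ℕ)
    (h : ∀ N, N0 ≤ N → (((Ico N (2 * N)).filter P).card : ℝ) ≤ δ * N) (hδ : 0 ≤ δ) (i : ℕ) :
    (((Ico N0 (N0 * 2 ^ i)).filter P).card : ℝ) ≤ δ * (N0 * 2 ^ i : ℕ) := by
  induction i with
  | zero => simp; positivity
  | succ i ih =>
    have h1 : N0 ≤ N0 * 2 ^ i := Nat.le_mul_of_pos_right _ (by positivity)
    have h2 : (Ico N0 (N0 * 2 ^ (i + 1))).filter P ⊆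
        (Ico N0 (N0 * 2 ^ i)).filter P ∪ (Ico (N0 * 2 ^ i) (2 * (N0 * 2 ^ i))).filter P := by
      intro n hn
      rw [mem_filter, mem_Ico] at hn
      rw [mem_union, mem_filter, mem_filter, mem_Ico, mem_Ico]
      have e : N0 * 2 ^ (i + 1) = 2 * (N0 * 2 ^ i) := by ring
      by_cases h3 : n < N0 * 2 ^ i
      · exact Or.inl ⟨⟨hn.1.1, h3⟩, hn.2⟩
      · exact Or.inr ⟨⟨not_lt.1 h3, e ▸ hn.1.2⟩, hn.2⟩
    have h3 := (card_le_card h2).trans (card_union_le _ _)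
    have h4 : (((Ico N0 (N0 * 2 ^ (i + 1))).filter P).card : ℝ) ≤
        ((Ico N0 (N0 * 2 ^ i)).filter P).card +
          ((Ico (N0 * 2 ^ i) (2 * (N0 * 2 ^ i))).filter P).card := by exact_mod_cast h3
    have h5 := h _ h1
    have e : ((N0 * 2 ^ (i + 1) : ℕ) : ℝ) = 2 * (N0 * 2 ^ i : ℕ) := by push_cast; ring
    rw [e]
    linarith

end FinX

theorem sFin (h : StMain) : Goal := by
  intro δ hδ
  obtain ⟨C, hC⟩ := h (δ / 4) (by positivity)
  obtain ⟨N1, hN1⟩ := eventually_atTop.1 hC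
  refine ⟨C, ?_⟩
  set N0 := N1 + 2 with hN0
  have key : ∀ N, N0 ≤ N → (((Ico N (2 * N)).filter
      fun n : ℕ => (BB n : ℝ) < n / Real.log n ^ C).card : ℝ) ≤ δ / 4 * N := by
    intro N hN
    refine hN1 N (by omega) _ (filter_subset _ _) fun n hn => ?_
    rw [mem_filter, mem_Ico] at hn
    have h2 : (2 : ℝ) ≤ N := by exact_mod_cast (by omega : 2 ≤ N)
    have h3 : (N : ℝ) ≤ n := by exact_mod_cast hn.1.1
    have h4 : (n : ℝ) ≤ 2 * N := by exact_mod_cast hn.1.2.le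
    have h5 : 0 < Real.log N := Real.log_pos (by linarith)
    have h6 : Real.log N ≤ Real.log n := Real.log_le_log (by linarith) h3
    refine hn.2.le.trans ?_
    gcongr
  have hT : Tendsto (fun N : ℕ => δ / 2 * (N : ℝ)) atTop atTop :=
    tendsto_natCast_atTop_atTop.const_mul_atTop (by positivity)
  filter_upwards [eventually_ge_atTop N0, hT.eventually_ge_atTop (N0 : ℝ)] with N hN hN'
  have hex : ∃ i, N < N0 * 2 ^ i :=
    ⟨N, lt_of_lt_of_le (Nat.lt_two_pow_self) (Nat.le_mul_of_pos_left _ (by omega))⟩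
  have hi := Nat.find_spec hex
  have hle : N0 * 2 ^ Nat.find hex ≤ 2 * N := by
    rcases h0 : Nat.find hex with _ | j
    · omega
    · have := Nat.find_min hex (m := j) (by omega)
      have e : N0 * 2 ^ (j + 1) = 2 * (N0 * 2 ^ j) := by ring
      omega
  have h1 := FinX.dyad _ (δ / 4) N0 key (by positivity) (Nat.find hex)
  have h2 : (Icc 1 N).filter (fun n : ℕ => (BB n : ℝ) < n / Real.log n ^ C) ⊆
      range N0 ∪ (Ico N0 (N0 * 2 ^ Nat.find hex)).filter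
        fun n : ℕ => (BB n : ℝ) < n / Real.log n ^ C := by
    intro n hn
    rw [mem_filter, mem_Icc] at hn
    rw [mem_union, mem_filter, mem_range, mem_Ico]
    by_cases h3 : n < N0
    · exact Or.inl h3
    · exact Or.inr ⟨⟨not_lt.1 h3, by omega⟩, hn.2⟩
  have h3 := (card_le_card h2).trans (card_union_le _ _)
  rw [card_range] at h3
  have h4 : (((Icc 1 N).filter fun n : ℕ => (BB n : ℝ) < n / Real.log n ^ C).card : ℝ) ≤
      N0 + ((Ico N0 (N0 * 2 ^ Nat.find hex)).filter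
        fun n : ℕ => (BB n : ℝ) < n / Real.log n ^ C).card := by exact_mod_cast h3
  have h5 : ((N0 * 2 ^ Nat.find hex : ℕ) : ℝ) ≤ 2 * N := by exact_mod_cast hle
  have h6 : δ / 4 * ((N0 * 2 ^ Nat.find hex : ℕ) : ℝ) ≤ δ / 4 * (2 * N) := by gcongr
  linarith

end Pool.Agent.MP_9d0b4d_nt

end
end

section

/-!
The choice of the parameters and the pigeonhole over the scales.
-/

set_option autoImplicit false

open Finset Filter

noncomputable section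

namespace Pool.Agent.MP_9d0b4d_nt

open Pool.Agent.GT (av pr ind)

namespace MainX

theorem par (δ : ℝ) (δ0 : 0 < δ) (κ k₀ : ℕ) : ∃ k : ℕ, k₀ ≤ k ∧
    768 / (2 : ℝ) ^ k ≤ ((δ / (256 * ((4 * (κ * (k + 1)) + 4 : ℕ) : ℝ))) ^ 2 / 8) ^ 4 := by
  have t := tendsto_pow_const_div_const_pow_of_one_lt 8 (show (1 : ℝ) < 2 by norm_num)
  have c0 : 0 < δ ^ 8 / (1536 * 256 ^ 8 * 4096 * (4 * (κ : ℝ) + 4) ^ 8) := by positivity
  obtain ⟨n, h1, h2⟩ := ((t.eventually (gt_mem_nhds c0)).and (eventually_ge_atTop (k₀ + 1))).exists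
  obtain ⟨k, rfl⟩ : ∃ k, n = k + 1 := ⟨n - 1, by omega⟩
  refine ⟨k, by omega, ?_⟩
  have u1 : ((4 * (κ * (k + 1)) + 4 : ℕ) : ℝ) ≤ (4 * (κ : ℝ) + 4) * (k + 1 : ℕ) := by
    push_cast
    nlinarith [(Nat.cast_nonneg k : (0 : ℝ) ≤ k)]
  have u0 : (0 : ℝ) < ((4 * (κ * (k + 1)) + 4 : ℕ) : ℝ) := by positivity
  generalize ((4 * (κ * (k + 1)) + 4 : ℕ) : ℝ) = u at u0 u1
  have n0 : (0 : ℝ) < (k + 1 : ℕ) := by positivity
  generalize ((k + 1 : ℕ) : ℝ) = x at h1 u1 n0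
  have q0 : 0 < 4 * (κ : ℝ) + 4 := by positivity
  generalize 4 * (κ : ℝ) + 4 = q at h1 u1 q0
  rw [div_lt_div_iff₀ (by positivity) (by positivity), pow_succ 2 k] at h1
  have e : ((δ / (256 * u)) ^ 2 / 8) ^ 4 = δ ^ 8 / (256 ^ 8 * 4096 * u ^ 8) := by
    field_simp
    norm_num
  rw [e, div_le_div_iff₀ (by positivity) (by positivity)]
  have u8 : u ^ 8 ≤ q ^ 8 * x ^ 8 := by
    rw [← mul_pow]
    gcongr
  nlinarith

/-- the exponents of the scales -/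
def al (B : ℕ → ℕ) : ℕ → ℕ
  | 0 => 1
  | i + 1 => al B i + 2 * B (al B i) + 3

theorem al_mono (B : ℕ → ℕ) : Monotone (al B) :=
  monotone_nat_of_le_succ fun i => by
    rw [al]
    omega

theorem sq_hE (S : Finset ℕ) (Λ : ℕ) : ∑ n ∈ range Λ, hE S n ^ 2 ≤ S.card := by
  have e : ∀ n : ℕ, hE S n ^ 2 = if n ∈ S then 1 else 0 := fun n => by
    by_cases h : n ∈ S
    · have : ∃ m ∈ S, (m : ℤ) = n := ⟨n, h, rfl⟩
      simp [hE, ind, this, h]
    · have : ¬ ∃ m ∈ S, (m : ℤ) = n := fun ⟨m, h1, h2⟩ => h (by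
        have : m = n := by exact_mod_cast h2
        exact this ▸ h1)
      rw [if_neg h, hE, ind, if_neg this]
      norm_num
  simp only [e, sum_boole]
  exact_mod_cast card_le_card fun n hn => (mem_filter.1 hn).2

theorem div_anti {N : ℕ} (h : 1 ≤ Real.log N) {a b : ℕ} (hab : a ≤ b) (x : ℝ) (hx : 0 ≤ x) :
    x / Real.log N ^ b ≤ x / Real.log N ^ a :=
  div_le_div_of_nonneg_left hx (by positivity) (pow_le_pow_right₀ h hab)

theorem card_le {N : ℕ} {S : Finset ℕ} (h : S ⊆ Ico N (2 * N)) : (S.card : ℝ) ≤ N := by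
  have := card_le_card h
  rw [Nat.card_Ico] at this
  exact_mod_cast (by omega : S.card ≤ N)

end MainX

open MainX in
theorem sMain (hStep : StStep) (hSys : StSys) (hCorr : StCorr) (hBVL : StBVL) (hEn : StEn)
    (hN1 : StN1) (hN2 : StN2) (hN3 : StN3) : StMain := by
  intro δ δ0
  rcases le_total 1 δ with δ1 | δ1
  · refine ⟨0, Eventually.of_forall fun N S hS _ => (card_le hS).trans ?_⟩
    exact le_mul_of_one_le_left (Nat.cast_nonneg _) δ1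
  obtain ⟨κ, k₀, hC⟩ := hCorr
  obtain ⟨k, hk, hk2⟩ := par δ δ0 κ k₀
  obtain ⟨u, hu⟩ : ∃ u : ℕ, u = 4 * (κ * (k + 1)) + 4 := ⟨_, rfl⟩
  rw [← hu] at hk2
  have u4 : (4 : ℝ) ≤ u := by exact_mod_cast (by omega : 4 ≤ u)
  obtain ⟨θ, hθ⟩ : ∃ θ : ℝ, θ = δ / (256 * u) := ⟨_, rfl⟩
  rw [← hθ] at hk2
  have θ0 : 0 < θ := by rw [hθ]; positivity
  have θu : 256 * u * θ = δ := by rw [hθ]; field_simp
  have θ1 : θ ≤ 1 := by nlinarith
  obtain ⟨η, hη⟩ : ∃ η : ℝ, η = θ ^ 2 / 8 := ⟨_, rfl⟩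
  rw [← hη] at hk2
  have η0 : 0 < η := by rw [hη]; positivity
  have η1 : η ≤ 1 / 8 := by rw [hη]; nlinarith
  obtain ⟨w, hw⟩ := hC (16 / 2 ^ k) (by positivity)
  obtain ⟨J, hJ⟩ := exists_nat_ge (2 / η + 2)
  have J2 : (2 : ℝ) ≤ J := le_trans (le_add_of_nonneg_left (by positivity)) hJ
  have J3 : 2 / (J : ℝ) ≤ η := by
    rw [div_le_iff₀ (by linarith), ← div_le_iff₀' η0]
    linarith
  obtain ⟨I, hI⟩ := exists_nat_ge (1 / η ^ 2)
  have I0 : (0 : ℝ) < I := lt_of_lt_of_le (by positivity) hI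
  have I1 : 1 / (I : ℝ) ≤ η ^ 2 := by
    rw [div_le_iff₀ I0, ← div_le_iff₀' (by positivity)]
    exact hI
  obtain ⟨τ, τ0, τ1, τ2, τ3⟩ : ∃ τ : ℝ, 0 < τ ∧ τ ≤ 16 / 2 ^ k ∧ τ ≤ η / 2 ∧ τ ≤ δ / 256 :=
    ⟨min (16 / 2 ^ k) (min (η / 2) (δ / 256)), by positivity, min_le_left _ _,
      (min_le_right _ _).trans (min_le_left _ _), (min_le_right _ _).trans (min_le_right _ _)⟩
  obtain ⟨s, R, r, hsys⟩ := hSys J w
  choose B hB using fun a : ℕ => hBVL (a + 2) (a + 1)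
  choose X0 hX0 using fun a : ℕ => eventually_atTop.1 (hB a)
  have a1 : ∀ i, 1 ≤ al B i := fun i => al_mono B (Nat.zero_le i)
  have ev := (range I).eventually_all.2 fun i _ =>
    (hN1 s R (al B i) (B (al B i)) τ hsys.1 hsys.2.1 (a1 i) τ0).and
      ((hN2 s R (al B i) (B (al B i)) τ hsys.1 hsys.2.1 τ0).and
        ((hN3 s R (al B i + 2 * B (al B i) + 1) u (κ * (k + 1)) τ hsys.2.1 (by omega) (by omega)
          τ0).and (eventually_ge_atTop (X0 (al B i)))))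
  have lg : ∀ᶠ N : ℕ in atTop, 1 ≤ Real.log N :=
    (Real.tendsto_log_atTop.comp tendsto_natCast_atTop_atTop).eventually_ge_atTop 1
  refine ⟨al B I, ?_⟩
  filter_upwards [ev, lg] with N hN hl S hS hBB
  obtain ⟨i, hi, hen⟩ := hEn (s ^ 4) I (9 * N) (fun i => Nat.log 2 (sc N (al B i))) (hE S)
    (pow_pos hsys.1 4) (by exact_mod_cast I0)
    (fun i _ => Nat.log_mono_right (Nat.floor_mono
      (div_anti hl (al_mono B (Nat.le_succ i)) _ (Nat.cast_nonneg _))))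
  obtain ⟨g1, g2, ⟨g0, g3⟩, g4⟩ := hN i (mem_range.2 hi)
  obtain ⟨y1, g2⟩ := g2 _ rfl
  obtain ⟨E, hE'⟩ := hX0 (al B i) _ (g4.trans y1)
  have N0 : (0 : ℝ) ≤ N := Nat.cast_nonneg _
  have x := hStep J w s R N _ _ _ _ _ _ _ _
    (s ^ 4 * 2 ^ Nat.log 2 (sc N (al B 0)) * (9 * N)) r S E _ τ η η u _ _ _ _ hsys
    (by exact_mod_cast J2) hS
    (fun n hn => (hBB n hn).trans (div_anti hl (al_mono B (Nat.succ_le_of_lt hi)) _
      (by positivity))) (by positivity) g1 g2 g3 hE'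
    (fun c i j e a d => by
      refine (hw c (r i) (r j) _ _ k (e ▸ hsys.2.2.1) hk g3.1 g3.2.2.1 a d).trans
        (le_trans ?_ hk2)
      rw [kap]
      have : 768 / (2 : ℝ) ^ k = 48 * (16 / 2 ^ k) := by ring
      linarith)
    η0.le τ0.le (by linarith) η0.le (by positivity)
    (Nat.le_mul_of_pos_left _ (by have := hsys.1; positivity))
    (hen.trans (by
      calc _ ≤ (N : ℝ) / I := by
            gcongr
            exact (sq_hE S _).trans (card_le hS)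
        _ = N * (1 / I) := by ring
        _ ≤ _ := by gcongr))
  refine x.trans (mul_le_mul_of_nonneg_right ?_ N0)
  have q : √(2 * (2 / (J : ℝ) + (η + η + 2 * τ))) ≤ θ := by
    rw [Real.sqrt_le_left θ0.le]
    linarith
  have : 2 * (u : ℝ) * √(2 * (2 / (J : ℝ) + (η + η + 2 * τ))) ≤ 2 * u * θ := by gcongr
  linarith

end Pool.Agent.MP_9d0b4d_nt

end
end

section

/-!
Removal of the majorant from a product of two bounded functions of linear forms.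
-/

set_option autoImplicit false

open Finset Filter

noncomputable section

namespace Pool.Agent.MP_9d0b4d_nt

open Pool.Agent.GT (av pr ind)

namespace PX

open Pool.Agent.GT

lemma bx_eq (A D : ℕ) (F : ℤ → ℤ → ℝ) :
    bx A D F = av fun p : Fin A × Fin D => F ((A + (p.1 : ℕ) : ℕ) : ℤ) ((p.2 : ℕ) : ℤ) := by
  rw [av_eq_sum, Fintype.sum_prod_type, bx, Fintype.card_prod, Fintype.card_fin,
    Fintype.card_fin, Nat.cast_mul, ← Fin.sum_univ_eq_sum_range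
      (fun a => ∑ d ∈ range D, F ((A + a : ℕ) : ℤ) (d : ℤ))]
  congr 1
  refine sum_congr rfl fun a _ => ?_
  rw [← Fin.sum_univ_eq_sum_range (fun d => F ((A + (a : ℕ) : ℕ) : ℤ) (d : ℤ))]

lemma av_six {X : Type} [Finite X] (P : X → X → X → X → X → X → ℝ) :
    (av fun h : Fin 3 × Fin 2 → X =>
      P (h (0, 0)) (h (0, 1)) (h (1, 0)) (h (1, 1)) (h (2, 0)) (h (2, 1))) =
    av fun k : X × X => av fun x => av fun x' => av fun y => av fun y' =>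
      P k.1 k.2 x x' y y' := by
  have hb : Function.Bijective (fun h : Fin 3 × Fin 2 → X =>
      (((h (0, 0), h (0, 1)), h (1, 0), h (1, 1), h (2, 0), h (2, 1)) :
        (X × X) × X × X × X × X)) := by
    constructor
    · intro h h' e
      simp only [Prod.mk.injEq] at e
      obtain ⟨⟨e1, e2⟩, e3, e4, e5, e6⟩ := e
      funext v
      obtain ⟨i, j⟩ := v
      fin_cases i <;> fin_cases j <;> assumption
    · rintro ⟨⟨a, b⟩, c, d, e, f⟩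
      exact ⟨fun v => ![![a, b], ![c, d], ![e, f]] v.1 v.2, rfl⟩
  have h1 := av_bij hb (fun q : (X × X) × X × X × X × X =>
    P q.1.1 q.1.2 q.2.1 q.2.2.1 q.2.2.2.1 q.2.2.2.2)
  refine h1.trans ?_
  rw [av_prod]
  refine av_congr fun k => ?_
  rw [av_prod]
  refine av_congr fun x => ?_
  rw [av_prod]
  refine av_congr fun x' => ?_
  rw [av_prod]

lemma av_move {Ω K X : Type} [Finite Ω] [Finite K] [Finite X] (F : Ω → K → X → X → ℝ) :
    (av fun ω : Ω × K => av fun x => av fun y => F ω.1 ω.2 x y) =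
      av fun k => av fun x => av fun y => av fun p => F p k x y := by
  rw [av_prod']
  refine av_congr fun k => ?_
  rw [av_comm (fun p x => av fun y => F p k x y)]
  refine av_congr fun x => ?_
  rw [av_comm (fun p y => F p k x y)]

lemma box (hB : StBox) {P K X : Type} [Finite P] [Finite K] [Finite X] (G : P → K → X → X → ℝ)
    (φ ψ : P → K → X → ℝ) (hφ : ∀ p k x, |φ p k x| ≤ 1) (hψ : ∀ p k x, |ψ p k x| ≤ 1) (β : ℝ)
    (hβ : 0 ≤ β) (h : ∀ p, (av fun k => av fun x => av fun x' => av fun y => av fun y' =>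
      G p k x y * G p k x y' * G p k x' y * G p k x' y') ≤ β) :
    (av fun k => av fun x => av fun y => av fun p => G p k x y * (φ p k x * ψ p k y)) ^ 4 ≤ β := by
  have h2 := hB (P × K) X (fun ω x y => G ω.1 ω.2 x y) (fun ω x => φ ω.1 ω.2 x)
    (fun ω y => ψ ω.1 ω.2 y) (fun _ _ => hφ _ _ _) (fun _ _ => hψ _ _ _)
  rw [← av_move (fun p k x y => G p k x y * (φ p k x * ψ p k y))]
  refine h2.trans ?_
  rw [av_prod]
  exact av_le_const' hβ h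

/-- the first shift -/
def al (r r' h x y : ℤ) : ℤ := h + r' * x + r * y

/-- the second shift -/
def be (c r r' h x y : ℤ) : ℤ := h - c * r * x - c * r' * y

/-- the centred majorant at a shifted point -/
def GG (c r r' z : ℕ) (a d h k x y : ℤ) : ℝ :=
  nu (c * r * r') z ((c * r * r' : ℕ) * (a + al r r' h x y) * (d + be c r r' k x y) + 1) - 1

lemma corr (c r r' z H : ℕ) (β : ℝ) (hC : CorrB c r r' z H β) (a d : ℤ) :
    (av fun k : Fin H × Fin H => av fun x : Fin H => av fun x' : Fin H => av fun y : Fin H =>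
      av fun y' : Fin H =>
        GG c r r' z a d ((k.1 : ℕ) : ℤ) ((k.2 : ℕ) : ℤ) ((x : ℕ) : ℤ) ((y : ℕ) : ℤ) *
        GG c r r' z a d ((k.1 : ℕ) : ℤ) ((k.2 : ℕ) : ℤ) ((x : ℕ) : ℤ) ((y' : ℕ) : ℤ) *
        GG c r r' z a d ((k.1 : ℕ) : ℤ) ((k.2 : ℕ) : ℤ) ((x' : ℕ) : ℤ) ((y : ℕ) : ℤ) *
        GG c r r' z a d ((k.1 : ℕ) : ℤ) ((k.2 : ℕ) : ℤ) ((x' : ℕ) : ℤ) ((y' : ℕ) : ℤ)) ≤ β := by
  have h1 := av_six (X := Fin H) fun h k x x' y y' =>
        GG c r r' z a d ((h : ℕ) : ℤ) ((k : ℕ) : ℤ) ((x : ℕ) : ℤ) ((y : ℕ) : ℤ) *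
        GG c r r' z a d ((h : ℕ) : ℤ) ((k : ℕ) : ℤ) ((x : ℕ) : ℤ) ((y' : ℕ) : ℤ) *
        GG c r r' z a d ((h : ℕ) : ℤ) ((k : ℕ) : ℤ) ((x' : ℕ) : ℤ) ((y : ℕ) : ℤ) *
        GG c r r' z a d ((h : ℕ) : ℤ) ((k : ℕ) : ℤ) ((x' : ℕ) : ℤ) ((y' : ℕ) : ℤ)
  refine h1.symm.le.trans (le_trans (le_of_eq (av_congr fun h => ?_)) (hC a d))
  have e : ∀ i : Fin 2 × Fin 2,
      nu (c * r * r') z (Qf (c : ℤ) r r' a d (fun v => ((h v : ℕ) : ℤ)) i) - 1 =
      GG c r r' z a d ((h (0, 0) : ℕ) : ℤ) ((h (0, 1) : ℕ) : ℤ) ((h (1, i.1) : ℕ) : ℤ)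
        ((h (2, i.2) : ℕ) : ℤ) := fun i => by
    have : Qf (c : ℤ) r r' a d (fun v => ((h v : ℕ) : ℤ)) i =
        (c * r * r' : ℕ) * (a + al r r' ((h (0, 0) : ℕ) : ℤ) ((h (1, i.1) : ℕ) : ℤ)
          ((h (2, i.2) : ℕ) : ℤ)) * (d + be c r r' ((h (0, 1) : ℕ) : ℤ) ((h (1, i.1) : ℕ) : ℤ)
          ((h (2, i.2) : ℕ) : ℤ)) + 1 := by
      simp only [Qf, al, be]
      push_cast
      ring
    rw [this, GG]
  simp only [e, Fintype.prod_prod_type, Fin.prod_univ_two]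
  ring

lemma al_le (r r' H : ℕ) (h x y : Fin H) :
    |((al r r' ((h : ℕ) : ℤ) ((x : ℕ) : ℤ) ((y : ℕ) : ℤ) : ℤ) : ℝ)| ≤
      H * (1 + (r : ℝ) + r') := by
  have h1 : ((h : ℕ) : ℝ) ≤ H := by exact_mod_cast h.2.le
  have h2 : ((x : ℕ) : ℝ) ≤ H := by exact_mod_cast x.2.le
  have h3 : ((y : ℕ) : ℝ) ≤ H := by exact_mod_cast y.2.le
  have h4 := mul_le_mul_of_nonneg_left h2 (Nat.cast_nonneg (α := ℝ) r')
  have h5 := mul_le_mul_of_nonneg_left h3 (Nat.cast_nonneg (α := ℝ) r)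
  simp only [al]
  push_cast
  rw [abs_of_nonneg (by positivity)]
  linarith

lemma be_le (c r r' H : ℕ) (h x y : Fin H) :
    |((be c r r' ((h : ℕ) : ℤ) ((x : ℕ) : ℤ) ((y : ℕ) : ℤ) : ℤ) : ℝ)| ≤
      H * (1 + (c : ℝ) * r + c * r') := by
  have h1 : ((h : ℕ) : ℝ) ≤ H := by exact_mod_cast h.2.le
  have h2 : ((x : ℕ) : ℝ) ≤ H := by exact_mod_cast x.2.le
  have h3 : ((y : ℕ) : ℝ) ≤ H := by exact_mod_cast y.2.le
  have p1 : (0 : ℝ) ≤ (c : ℝ) * r := by positivity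
  have p2 : (0 : ℝ) ≤ (c : ℝ) * r' := by positivity
  have h4 := mul_le_mul_of_nonneg_left h2 p1
  have h5 := mul_le_mul_of_nonneg_left h3 p2
  have q0 : (0 : ℝ) ≤ ((h : ℕ) : ℝ) := Nat.cast_nonneg _
  have q1 : (0 : ℝ) ≤ (c : ℝ) * r * ((x : ℕ) : ℝ) := by positivity
  have q2 : (0 : ℝ) ≤ (c : ℝ) * r' * ((y : ℕ) : ℝ) := by positivity
  have q3 : (0 : ℝ) ≤ (H : ℝ) := Nat.cast_nonneg _
  simp only [be]
  push_cast
  rw [abs_le]
  constructor <;> linarith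

end PX

open Pool.Agent.GT PX in
theorem sP (hV : StV) (hS : StShift) (hB : StBox) : StP := by
  intro c r r' z H A D η f f' hz hH hA hD hη hC hf hf'
  have : Nonempty (Fin H) := ⟨⟨0, hH⟩⟩
  obtain ⟨Φ, hΦ⟩ : ∃ Φ : ℤ → ℤ → ℝ, Φ = fun a d =>
      (nu (c * r * r') z ((c * r * r' : ℕ) * a * d + 1) - 1) *
      (f ((c * r' : ℕ) * a + r * d) * f' ((c * r : ℕ) * a + r' * d)) := ⟨_, rfl⟩
  rw [← hΦ]
  have hΦb : ∀ a d, |Φ a d| ≤ (z : ℝ) + 1 := fun a d => by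
    rw [hΦ]
    simp only [abs_mul]
    have h1 := (hV.2.2.1 (c * r * r') z ((c * r * r' : ℕ) * a * d + 1) hz).2
    have h2 := mul_le_one₀ (hf ((c * r' : ℕ) * a + r * d)) (abs_nonneg _)
      (hf' ((c * r : ℕ) * a + r' * d))
    exact (mul_le_of_le_one_right (abs_nonneg _) h2).trans h1
  obtain ⟨err, herr⟩ : ∃ err : ℝ, err = 2 * ((z : ℝ) + 1) *
      (H * (1 + (r : ℝ) + r') / A + H * (1 + (c : ℝ) * r + c * r') / D) := ⟨_, rfl⟩
  rw [← herr]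
  have herr0 : 0 ≤ err := by rw [herr]; positivity
  obtain ⟨T, hT⟩ : ∃ T : ℝ, T = av fun k : Fin H × Fin H => av fun x : Fin H => av fun y : Fin H =>
      bx A D fun a d => Φ (a + al r r' ((k.1 : ℕ) : ℤ) ((x : ℕ) : ℤ) ((y : ℕ) : ℤ))
        (d + be c r r' ((k.2 : ℕ) : ℤ) ((x : ℕ) : ℤ) ((y : ℕ) : ℤ)) := ⟨_, rfl⟩
  have h1 : |T - bx A D Φ| ≤ err := by
    have e0 : bx A D Φ = av fun _ : Fin H × Fin H => av fun _ : Fin H => av fun _ : Fin H =>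
        bx A D Φ := by simp only [av_const]
    rw [hT, e0]
    refine abs_av_sub_le herr0 fun k => abs_av_sub_le herr0 fun x =>
      abs_av_sub_le herr0 fun y => ?_
    refine (hS A D Φ _ _ _ hA hD hΦb).trans ?_
    rw [herr]
    have a1 := al_le r r' H k.1 x y
    have a2 := be_le c r r' H k.2 x y
    refine mul_le_mul_of_nonneg_left (add_le_add ?_ ?_) (by positivity)
    · exact div_le_div_of_nonneg_right a1 (Nat.cast_nonneg _)
    · exact div_le_div_of_nonneg_right a2 (Nat.cast_nonneg _)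
  have h2 := box hB (P := Fin A × Fin D) (K := Fin H × Fin H) (X := Fin H)
    (fun p k x y => GG c r r' z ((A + (p.1 : ℕ) : ℕ) : ℤ) ((p.2 : ℕ) : ℤ) ((k.1 : ℕ) : ℤ)
      ((k.2 : ℕ) : ℤ) ((x : ℕ) : ℤ) ((y : ℕ) : ℤ))
    (fun p k x => f ((c * r' : ℕ) * (((A + (p.1 : ℕ) : ℕ) : ℤ) + al r r' ((k.1 : ℕ) : ℤ)
      ((x : ℕ) : ℤ) 0) + r * (((p.2 : ℕ) : ℤ) + be c r r' ((k.2 : ℕ) : ℤ) ((x : ℕ) : ℤ) 0)))
    (fun p k y => f' ((c * r : ℕ) * (((A + (p.1 : ℕ) : ℕ) : ℤ) + al r r' ((k.1 : ℕ) : ℤ)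
      0 ((y : ℕ) : ℤ)) + r' * (((p.2 : ℕ) : ℤ) + be c r r' ((k.2 : ℕ) : ℤ) 0 ((y : ℕ) : ℤ))))
    (fun _ _ _ => hf _) (fun _ _ _ => hf' _) (η ^ 4) (by positivity)
    (fun p => corr c r r' z H (η ^ 4) hC ((A + (p.1 : ℕ) : ℕ) : ℤ) ((p.2 : ℕ) : ℤ))
  have h3 : T ^ 4 ≤ η ^ 4 := by
    refine le_trans (le_of_eq ?_) h2
    refine congrArg (fun t : ℝ => t ^ 4) ?_
    rw [hT]
    refine av_congr fun k => av_congr fun x => av_congr fun y => ?_
    rw [bx_eq]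
    refine av_congr fun p => ?_
    have e1 : ∀ a d h k u v : ℤ, (c * r' : ℕ) * (a + al r r' h u v) + r * (d + be c r r' k u v) =
        (c * r' : ℕ) * (a + al r r' h u 0) + r * (d + be c r r' k u 0) := fun a d h k u v => by
      simp only [al, be]; push_cast; ring
    have e2 : ∀ a d h k u v : ℤ, (c * r : ℕ) * (a + al r r' h u v) + r' * (d + be c r r' k u v) =
        (c * r : ℕ) * (a + al r r' h 0 v) + r' * (d + be c r r' k 0 v) := fun a d h k u v => by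
      simp only [al, be]; push_cast; ring
    rw [hΦ]
    beta_reduce
    rw [e1, e2, GG]
  have h4 : |T| ≤ η := by
    have : |T| ^ 4 ≤ η ^ 4 := by rwa [Even.pow_abs (by decide)]
    exact le_of_pow_le_pow_left₀ (by norm_num) hη this
  have h5 : bx A D Φ = T - (T - bx A D Φ) := by ring
  rw [h5]
  exact (abs_sub _ _).trans (add_le_add h4 h1)

end Pool.Agent.MP_9d0b4d_nt

end
end

section

/-! Shifting the box changes an average of a bounded function only slightly. -/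

set_option autoImplicit false

open Finset Filter

noncomputable section

namespace Pool.Agent.MP_9d0b4d_nt

open Pool.Agent.GT (av pr ind)
open Pool.Agent.MP_43e117_nt.PG (th PS)

namespace ShiftX

lemma one (φ : ℤ → ℝ) (B : ℝ) (hB : ∀ x, |φ x| ≤ B) (A : ℕ) (c : ℤ) :
    |∑ a ∈ range A, φ (a + (c + 1)) - ∑ a ∈ range A, φ (a + c)| ≤ 2 * B := by
  have h := Finset.sum_range_sub (fun a : ℕ => φ (a + c)) A
  have e : ∑ a ∈ range A, φ (a + (c + 1)) - ∑ a ∈ range A, φ (a + c) =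
      φ ((A : ℕ) + c) - φ ((0 : ℕ) + c) := by
    rw [← h, ← Finset.sum_sub_distrib]
    refine Finset.sum_congr rfl fun a _ => ?_
    have : ((a + 1 : ℕ) : ℤ) + c = a + (c + 1) := by push_cast; ring
    rw [this]
  rw [e]
  have h1 := abs_le.1 (hB ((A : ℕ) + c))
  have h2 := abs_le.1 (hB ((0 : ℕ) + c))
  rw [abs_le]
  constructor <;> linarith [h1.1, h1.2, h2.1, h2.2]

lemma nat (φ : ℤ → ℝ) (B : ℝ) (hB : ∀ x, |φ x| ≤ B) (A : ℕ) (c : ℤ) (k : ℕ) :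
    |∑ a ∈ range A, φ (a + (c + k)) - ∑ a ∈ range A, φ (a + c)| ≤ 2 * B * k := by
  induction k with
  | zero => simp
  | succ k ih =>
    have h := one φ B hB A (c + k)
    have e : c + ((k + 1 : ℕ) : ℤ) = c + k + 1 := by push_cast; ring
    rw [e]
    have h1 := abs_le.1 h
    have h2 := abs_le.1 ih
    rw [abs_le]
    push_cast
    constructor <;> linarith [h1.1, h1.2, h2.1, h2.2]

lemma int (φ : ℤ → ℝ) (B : ℝ) (hB : ∀ x, |φ x| ≤ B) (A : ℕ) (c α : ℤ) :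
    |∑ a ∈ range A, φ (a + (c + α)) - ∑ a ∈ range A, φ (a + c)| ≤ 2 * B * |(α : ℝ)| := by
  obtain ⟨k, rfl | rfl⟩ := Int.eq_nat_or_neg α
  · have h := nat φ B hB A c k
    rwa [Int.cast_natCast, Nat.abs_cast]
  · have h := nat φ B hB A (c + -(k : ℤ)) k
    have e : c + -(k : ℤ) + k = c := by ring
    rw [e, abs_sub_comm] at h
    rwa [Int.cast_neg, abs_neg, Int.cast_natCast, Nat.abs_cast]

end ShiftX

theorem sShift : StShift := by
  intro A D Φ B α β hA hD hB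
  have hA' : (0 : ℝ) < A := by exact_mod_cast hA
  have hD' : (0 : ℝ) < D := by exact_mod_cast hD
  have h1 : |∑ a ∈ range A, ∑ d ∈ range D, Φ (((A + a : ℕ) : ℤ) + α) ((d : ℤ) + β) -
      ∑ a ∈ range A, ∑ d ∈ range D, Φ ((A + a : ℕ) : ℤ) ((d : ℤ) + β)| ≤
      D * (2 * B * |(α : ℝ)|) := by
    rw [Finset.sum_comm, Finset.sum_comm (s := range A), ← Finset.sum_sub_distrib]
    refine (Finset.abs_sum_le_sum_abs _ _).trans ?_
    refine (Finset.sum_le_card_nsmul _ _ (2 * B * |(α : ℝ)|) fun d _ => ?_).trans ?_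
    · have h := ShiftX.int (fun x => Φ x ((d : ℤ) + β)) B (fun x => hB _ _) A A α
      have e1 : ∀ a : ℕ, ((A + a : ℕ) : ℤ) + α = a + (A + α) := fun a => by push_cast; ring
      have e2 : ∀ a : ℕ, ((A + a : ℕ) : ℤ) = a + A := fun a => by push_cast; ring
      simp only [e1]
      simp only [e2]
      exact h
    · rw [Finset.card_range, nsmul_eq_mul]
  have h2 : |∑ a ∈ range A, ∑ d ∈ range D, Φ ((A + a : ℕ) : ℤ) ((d : ℤ) + β) -
      ∑ a ∈ range A, ∑ d ∈ range D, Φ ((A + a : ℕ) : ℤ) (d : ℤ)| ≤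
      A * (2 * B * |(β : ℝ)|) := by
    rw [← Finset.sum_sub_distrib]
    refine (Finset.abs_sum_le_sum_abs _ _).trans ?_
    refine (Finset.sum_le_card_nsmul _ _ (2 * B * |(β : ℝ)|) fun a _ => ?_).trans ?_
    · have h := ShiftX.int (fun x => Φ ((A + a : ℕ) : ℤ) x) B (fun x => hB _ _) D 0 β
      simp only [zero_add, add_zero] at h
      exact h
    · rw [Finset.card_range, nsmul_eq_mul]
  unfold bx
  rw [← sub_div, abs_div, abs_of_pos (mul_pos hA' hD'), div_le_iff₀ (mul_pos hA' hD')]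
  have e : 2 * B * (|(α : ℝ)| / A + |(β : ℝ)| / D) * (A * D) =
      D * (2 * B * |(α : ℝ)|) + A * (2 * B * |(β : ℝ)|) := by
    field_simp
  rw [e]
  have h3 := abs_le.1 h1
  have h4 := abs_le.1 h2
  rw [abs_le]
  constructor <;> linarith [h3.1, h3.2, h4.1, h4.2]

end Pool.Agent.MP_9d0b4d_nt

end
end
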