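import Pool.Agent.Mg.F436a94p.Ga92a96
import Pool.Agent.Mg.F436a94p.G025e1e
import Pool.Agent.Mg.F436a94p.G204ca6
import Pool.Agent.Mg.F436a94p.Gefc083
import Pool.Agent.Mg.F436a94p.G154c2b
import Pool.Agent.Mg.F436a94p.Ga5422f
import Pool.Agent.Mg.F436a94p.G266a55

set_option linter.all false

section

set_option autoImplicit false

open Finset Filter

noncomputable section

namespace Pool.Agent.MP_9d0b4d_nt

open Pool.Agent.GT (av pr ind)
open Pool.Agent.MP_43e117_nt.PG (th PS)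

namespace StrX

theorem hE_nat (S : Finset ℕ) (x : ℕ) : hE S (x : ℤ) = ∑ m ∈ S, ind (m = x) := by
  unfold hE
  by_cases hx : x ∈ S
  · rw [GT.ind_of ⟨x, hx, rfl⟩, sum_eq_single_of_mem x hx fun m _ hm => GT.ind_of_not hm,
      GT.ind_of rfl]
  · rw [GT.ind_of_not, sum_eq_zero fun m hm => GT.ind_of_not fun e : m = x => hx (e ▸ hm)]
    rintro ⟨m, hm, e⟩
    exact hx (Int.natCast_inj.1 e ▸ hm)

theorem one {M l : ℕ} (hM : 0 < M) (hl : 0 < l) (n m : ℕ) :
    ∑ t ∈ range l, ind (m = M * (l * (n / M / l) + t) + n % M) = ind (same M l n m) := by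
  have key : ∀ t < l, m = M * (l * (n / M / l) + t) + n % M →
      same M l n m ∧ t = m / M % l := fun t ht e => by
    have h1 : m / M = l * (n / M / l) + t := by
      rw [e, Nat.mul_add_div hM, Nat.div_eq_of_lt (Nat.mod_lt n hM), add_zero]
    refine ⟨⟨?_, ?_⟩, ?_⟩
    · rw [e, Nat.mul_add_mod, Nat.mod_mod]
    · rw [h1, Nat.mul_add_div hl, Nat.div_eq_of_lt ht, add_zero]
    · rw [h1, Nat.mul_add_mod, Nat.mod_eq_of_lt ht]
  by_cases hs : same M l n m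
  · rw [GT.ind_of hs, sum_eq_single_of_mem (m / M % l) (mem_range.2 (Nat.mod_lt _ hl))
      fun t ht hne => GT.ind_of_not fun e => hne (key t (mem_range.1 ht) e).2, GT.ind_of]
    rw [hs.1, hs.2, Nat.div_add_mod, Nat.div_add_mod]
  · rw [GT.ind_of_not hs]
    exact sum_eq_zero fun t ht => GT.ind_of_not fun e => hs (key t (mem_range.1 ht) e).1

theorem cE_nat {M l : ℕ} (hM : 0 < M) (hl : 0 < l) (S : Finset ℕ) (n : ℕ) :
    cE M l (hE S) (n : ℤ) = (∑ m ∈ S, ind (same M l n m)) / l := by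
  unfold cE
  congr 1
  rw [← sum_congr rfl fun m _ => one hM hl n m, sum_comm]
  refine sum_congr rfl fun t _ => ?_
  rw [← hE_nat]
  simp only [Nat.cast_add, Nat.cast_mul, Int.natCast_div, Int.natCast_mod]

end StrX

theorem sStr (h : StCell) : StStr := by
  intro s u r M l A D N Q S E Y0 Y1 Y2 Err hB hs h1 hu hr h2 h3 hl h4 h5 h6 h7 h8 h9 h10 h11 hS
  have hM : 0 < M := Nat.pos_of_dvd_of_pos h3 (pow_pos (hs ▸ Nat.mul_pos hu hr) 4)
  have hl' : (0 : ℝ) < l := Nat.cast_pos.2 hl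
  unfold bx
  refine div_le_div_of_nonneg_right ?_ (by positivity)
  have e : ∀ a d : ℕ, tz (s * ((A + a : ℕ) : ℤ) * d + 1) *
      cE M l (hE S) (u * ((A + a : ℕ) : ℤ) + r * d) =
      ∑ m ∈ S, th (s * (A + a) * d + 1) * ind (same M l (u * (A + a) + r * d) m) / l :=
    fun a d => by
      have e1 : (s * ((A + a : ℕ) : ℤ) * d + 1) = ((s * (A + a) * d + 1 : ℕ) : ℤ) := by
        push_cast; ring
      have e2 : (u * ((A + a : ℕ) : ℤ) + r * d) = ((u * (A + a) + r * d : ℕ) : ℤ) := by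
        push_cast; ring
      rw [e1, e2, tz, Int.toNat_natCast, StrX.cE_nat hM hl, ← mul_div_assoc, mul_sum, sum_div]
  simp only [e]
  rw [sum_congr rfl fun a _ => sum_comm, sum_comm, ← nsmul_eq_mul]
  refine card_nsmul_le_sum _ _ _ fun m hm => ?_
  have hm' := mem_Ico.1 (hS hm)
  have := h s u r M l A D N Q m E Y0 Y1 Y2 Err hB hs h1 hu hr h2 h3 hl h4 h5 h6 h7 h8 h9 h10 h11
    hm'.1 hm'.2
  simp only [← sum_div]
  rw [le_div_iff₀ hl', sub_mul, div_mul_cancel₀ _ hl'.ne', div_mul_eq_mul_div]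
  exact this

end Pool.Agent.MP_9d0b4d_nt

end
end

section

/-!
A number with many factorisations of comparable size.
-/

set_option autoImplicit false

open Finset Filter

noncomputable section

namespace Pool.Agent.MP_9d0b4d_nt

open Pool.Agent.GT (av pr ind)
open Pool.Agent.MP_43e117_nt.PG (th PS)

namespace SysX

theorem ne_two {i k j : ℕ} (h : i < k) : 2 ^ i + 2 ^ k ≠ 2 * 2 ^ j := by
  intro e
  have h1 : 2 ^ i < 2 ^ k := Nat.pow_lt_pow_right one_lt_two h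
  have h2 : 0 < 2 ^ i := Nat.two_pow_pos i
  have h3 : k < j + 1 := (Nat.pow_lt_pow_iff_right one_lt_two).1 (by rw [pow_succ]; omega)
  have h4 : j + 1 < k + 1 :=
    (Nat.pow_lt_pow_iff_right one_lt_two).1 (by rw [pow_succ, pow_succ]; omega)
  omega

theorem exW (J w : ℕ) : ∃ W : ℕ, 0 < W ∧ (∀ p : ℕ, p.Prime → p ≤ w → p ∣ W) ∧
    ∀ i k j : Fin J, i ≠ k → ((2 : ℤ) ^ i.1 + 2 ^ k.1 - 2 * 2 ^ j.1) ∣ W := by
  refine ⟨(max w (2 * 2 ^ J)).factorial, Nat.factorial_pos _,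
    fun p hp h => Nat.dvd_factorial hp.pos (h.trans (le_max_left _ _)), fun i k j h => ?_⟩
  have h0 : 2 ^ i.1 + 2 ^ k.1 ≠ 2 * 2 ^ j.1 := by
    rcases lt_or_gt_of_ne (Fin.val_ne_of_ne h) with h | h
    · exact ne_two h
    · rw [add_comm]; exact ne_two h
  have b : ∀ l : Fin J, 2 ^ l.1 ≤ 2 ^ J := fun l => Nat.pow_le_pow_right two_pos l.2.le
  have e : ((2 : ℤ) ^ i.1 + 2 ^ k.1 - 2 * 2 ^ j.1) =
      ((2 ^ i.1 : ℕ) : ℤ) + ((2 ^ k.1 : ℕ) : ℤ) - 2 * ((2 ^ j.1 : ℕ) : ℤ) := by push_cast; rfl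
  have b1 := b i
  have b2 := b k
  have b3 := b j
  rw [e, ← Int.natAbs_dvd, Int.natCast_dvd_natCast]
  generalize 2 ^ i.1 = x at *
  generalize 2 ^ k.1 = y at *
  generalize 2 ^ j.1 = z at *
  exact Nat.dvd_factorial (by omega) (le_trans (by omega) (le_max_right _ _))

end SysX

theorem sSys : StSys := by
  intro J w
  obtain ⟨W, hW, hp, hd⟩ := SysX.exW J w
  let r : Fin J → ℕ := fun j => 1 + (2 ^ J + 2 ^ j.1) * W
  have hr : ∀ j, (r j : ℤ) = 1 + (2 ^ J + 2 ^ j.1) * W := fun j => by simp [r]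
  have r0 : ∀ j, 0 < r j := fun j => Nat.add_pos_left one_pos _
  let Q : ℕ := ∏ p ∈ (univ : Finset (Fin J)).offDiag, (r p.1 + r p.2)
  have c0 : ∀ j, IsCoprime (W : ℤ) (r j) := fun j => ⟨-(2 ^ J + 2 ^ j.1), 1, by rw [hr]; ring⟩
  have c1 : ∀ j (m : ℤ), m ∣ W → IsCoprime (m * W) (r j) := fun j m hm =>
    ((c0 j).of_isCoprime_of_dvd_left hm).mul_left (c0 j)
  have c2 : ∀ i k j, i ≠ k → (r i + r k).Coprime (r j) := fun i k j h => by
    rw [← Nat.isCoprime_iff_coprime]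
    have e : ((r i + r k : ℕ) : ℤ) = ((2 : ℤ) ^ i.1 + 2 ^ k.1 - 2 * 2 ^ j.1) * W + r j * 2 := by
      rw [Nat.cast_add, hr, hr, hr]; ring
    rw [e]
    exact (c1 j _ (hd i k j h)).add_mul_left_left 2
  have c3 : ∀ i j, i ≠ j → (r i).Coprime (r j) := fun i j h =>
    Nat.coprime_add_self_left.1 (c2 i j j h)
  refine ⟨W * Q * ∏ j, r j, 2 ^ J * W, r, ?_, by positivity,
    fun p h1 h2 => ((hp p h1 h2).mul_right _).mul_right _, fun j => ⟨?_, ?_, ?_⟩, fun i j h => ?_⟩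
  · exact Nat.mul_pos (Nat.mul_pos hW (prod_pos fun p _ => Nat.add_pos_left (r0 _) _))
      (prod_pos fun j _ => r0 j)
  · exact (Nat.mul_le_mul_right W (Nat.le_add_right _ _)).trans (Nat.le_add_left _ _)
  · have h1 : 2 ^ j.1 * W < 2 ^ J * W :=
      Nat.mul_lt_mul_of_pos_right (Nat.pow_lt_pow_right one_lt_two j.2) hW
    show 1 + (2 ^ J + 2 ^ j.1) * W ≤ _
    rw [add_mul]
    omega
  · refine ⟨W * Q * ∏ i ∈ univ.erase j, r i, ?_, ?_⟩
    · rw [mul_assoc (W * Q), prod_erase_mul _ _ (mem_univ j)]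
    · exact ((Nat.isCoprime_iff_coprime.1 (c0 j)).mul_left
        (Nat.Coprime.prod_left fun p hp => c2 _ _ j (mem_offDiag.1 hp).2.2)).mul_left
        (Nat.Coprime.prod_left fun i hi => c3 i j (ne_of_mem_erase hi))
  · have e : W * Q * ∏ j, r j = W * Q * (∏ l ∈ (univ.erase j).erase i, r l) * r i * r j := by
      rw [mul_assoc (W * Q), prod_erase_mul _ _ (mem_erase.2 ⟨h, mem_univ i⟩), mul_assoc (W * Q),
        prod_erase_mul _ _ (mem_univ j)]
    obtain ⟨s, hs⟩ : ∃ s, s = W * Q * ∏ j, r j := ⟨_, rfl⟩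
    rw [← hs] at e ⊢
    have d0 : ((W * Q * ∏ l ∈ (univ.erase j).erase i, r l : ℕ) : ℤ) ∣ s :=
      Int.natCast_dvd_natCast.2 ⟨r i * r j, by rw [e, mul_assoc]⟩
    have d1 : (W : ℤ) ∣ s := Int.natCast_dvd_natCast.2 ⟨Q * ∏ j, r j, by rw [hs, mul_assoc]⟩
    have d2 : ((r j + r i : ℕ) : ℤ) ∣ s := by
      refine Int.natCast_dvd_natCast.2 ?_
      rw [hs]
      exact ((dvd_prod_of_mem (fun p : Fin J × Fin J => r p.1 + r p.2) (a := (j, i))
        (mem_offDiag.2 ⟨mem_univ _, mem_univ _, h.symm⟩)).mul_left W).mul_right _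
    have d3 := mul_dvd_mul d0 (mul_dvd_mul d2 (mul_dvd_mul ((hd j i i h.symm).trans d1) d1))
    have e2 : ((r j + r i : ℕ) : ℤ) * (((2 : ℤ) ^ j.1 + 2 ^ i.1 - 2 * 2 ^ i.1) * W) =
        (r j : ℤ) ^ 2 - (r i : ℤ) ^ 2 := by
      rw [Nat.cast_add, hr, hr]; ring
    rw [e2] at d3
    obtain ⟨t, ht⟩ := d3
    exact ⟨_, t, e, by rw [mul_comm t, ← ht]; ring⟩

end Pool.Agent.MP_9d0b4d_nt

end
end

section

/-!
The upper bound for the weighted count of primes over a set with few representations.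
-/

set_option autoImplicit false

open Finset Filter

noncomputable section

namespace Pool.Agent.MP_9d0b4d_nt

open Pool.Agent.GT (av pr ind)
open Pool.Agent.MP_43e117_nt.PG (th PS)

namespace UpX

theorem term_le (u r k d N : ℕ) (S : Finset ℕ) (hN : 1 ≤ N) (hk : 1 ≤ u * k)
    (hS : S ⊆ Ico N (2 * N)) :
    tz (((u * r : ℕ) : ℤ) * (k : ℤ) * (d : ℤ) + 1) * hE S (u * (k : ℤ) + r * (d : ℤ)) ≤
      if u * k + r * d ∈ S ∧ (u * k * (r * d) + 1).Prime then 2 * Real.log (2 * N) else 0 := by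
  have e1 : ((u * r : ℕ) : ℤ) * (k : ℤ) * (d : ℤ) + 1 = ((u * k * (r * d) + 1 : ℕ) : ℤ) := by
    push_cast
    ring
  have e2 : (u : ℤ) * (k : ℤ) + r * (d : ℤ) = ((u * k + r * d : ℕ) : ℤ) := by
    push_cast
    ring
  rw [e1, e2, tz, Int.toNat_natCast, hE, th]
  by_cases h1 : u * k + r * d ∈ S
  · by_cases h2 : (u * k * (r * d) + 1).Prime
    · rw [if_pos h2, if_pos ⟨h1, h2⟩, GT.ind_of ⟨_, h1, rfl⟩, mul_one]
      have h3 := (mem_Ico.1 (hS h1)).2
      have h4 : u * k * (r * d) + 1 ≤ (2 * N) ^ 2 := by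
        generalize u * k = x at *
        generalize r * d = y at *
        nlinarith
      have h5 : ((u * k * (r * d) + 1 : ℕ) : ℝ) ≤ (2 * (N : ℝ)) ^ 2 := by exact_mod_cast h4
      refine (Real.log_le_log (by exact_mod_cast h2.pos) h5).trans (le_of_eq ?_)
      rw [Real.log_pow]
      norm_num
    · rw [if_neg h2, if_neg fun h => h2 h.2, zero_mul]
  · rw [if_neg fun h : _ ∧ _ => h1 h.1, GT.ind_of_not, mul_zero]
    rintro ⟨m, hm, e⟩
    exact h1 ((Nat.cast_injective (R := ℤ) e) ▸ hm)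

theorem card_le (u r A D N : ℕ) (S : Finset ℕ) (hu : 0 < u) (hr : 0 < r) (hA : 0 < A)
    (hN : 4 * u * A ≤ N) (hS : S ⊆ Ico N (2 * N)) :
    ((range A ×ˢ range D).filter fun p : ℕ × ℕ => u * (A + p.1) + r * p.2 ∈ S ∧
      (u * (A + p.1) * (r * p.2) + 1).Prime).card ≤ ∑ n ∈ S, BB n := by
  unfold BB
  rw [← card_sigma]
  refine card_le_card_of_injOn
    (fun p : ℕ × ℕ => (⟨u * (A + p.1) + r * p.2, u * (A + p.1)⟩ : (_ : ℕ) × ℕ)) ?_ ?_
  · intro p hp
    obtain ⟨h1, h2, h3⟩ := mem_filter.1 (mem_coe.1 hp)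
    have ha := mem_range.1 (mem_product.1 h1).1
    have hn := (mem_Ico.1 (hS h2)).1
    refine mem_coe.2 (mem_sigma.2 ⟨h2, mem_filter.2 ⟨mem_Icc.2 ⟨?_, ?_⟩, ?_⟩⟩)
    · exact Nat.mul_pos hu (by omega)
    · show u * (A + p.1) ≤ (u * (A + p.1) + r * p.2) / 2
      have h4 : u * (A + p.1) ≤ u * (2 * A) := Nat.mul_le_mul_left u (by omega)
      have h5 : 4 * u * A = 2 * (u * (2 * A)) := by ring
      omega
    · show (u * (A + p.1) * (u * (A + p.1) + r * p.2 - u * (A + p.1)) + 1).Prime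
      rw [Nat.add_sub_cancel_left]
      exact h3
  · intro p _ q _ e
    have e1 : u * (A + p.1) + r * p.2 = u * (A + q.1) + r * q.2 := congrArg Sigma.fst e
    have e2 : u * (A + p.1) = u * (A + q.1) := congrArg (fun x : (_ : ℕ) × ℕ => x.2) e
    have e3 := Nat.eq_of_mul_eq_mul_left hu e2
    have e4 : r * p.2 = r * q.2 := by omega
    exact Prod.ext (by omega) (Nat.eq_of_mul_eq_mul_left hr e4)

end UpX

theorem sUp : StUp := by
  intro s u r A D N S Bm hs hu hr hA hD hN hS hB hBm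
  subst hs
  have hN1 : 1 ≤ N := le_trans (Nat.mul_pos (Nat.mul_pos (by norm_num) hu) hA) hN
  have hL : 0 ≤ 2 * Real.log (2 * N) := by
    have : (1 : ℝ) ≤ N := by exact_mod_cast hN1
    exact mul_nonneg zero_le_two (Real.log_nonneg (by linarith))
  unfold bx
  refine div_le_div_of_nonneg_right ?_ (by positivity)
  rw [← sum_product']
  refine (sum_le_sum fun p _ => UpX.term_le u r (A + p.1) p.2 N S hN1
    (Nat.mul_pos hu (by omega)) hS).trans ?_
  rw [← sum_filter, sum_const, nsmul_eq_mul]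
  refine mul_le_mul_of_nonneg_right ?_ hL
  have h1 := UpX.card_le u r A D N S hu hr hA hN hS
  have h2 : S.card ≤ N := by
    have := card_le_card hS
    rw [Nat.card_Ico] at this
    omega
  calc _ ≤ ((∑ n ∈ S, BB n : ℕ) : ℝ) := by exact_mod_cast h1
    _ = ∑ n ∈ S, (BB n : ℝ) := by push_cast; rfl
    _ ≤ S.card • Bm := sum_le_card_nsmul _ _ _ hB
    _ ≤ N * Bm := by
      rw [nsmul_eq_mul]
      exact mul_le_mul_of_nonneg_right (by exact_mod_cast h2) hBm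

end Pool.Agent.MP_9d0b4d_nt

end
end

section

/-!
The theorem without hypotheses.
-/

namespace Pool.Agent.MP_9d0b4d_nt

open Pool.Agent.MP_43e117_nt.PG in
theorem aBVL : StBVL :=
  sBVL (s_LV s_Tot s_Tau s_R1 s_R2)
    (sPTL s_Tau s_Pm (s_B2 (s_B1 s_LS s_SC)) (s_V1 s_V0) s_TL (s_SW s_Psi s_TL)) s_PNT

theorem goal : Goal :=
  sFin (sMain
    (sStep sV (sP sV sShift sBox) sC3 (sB0 sShift sC3 sCnt) sAbs (sStr sCell) sUp)
    sSys (sCorr sGF sLoc) aBVL sEn sN1 sN2 sN3)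

end Pool.Agent.MP_9d0b4d_nt

end
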