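import Pool.Agent.Mg.F436a94p.G9089d4

set_option linter.all false

section

open Finset Filter Topology

namespace Pool.Agent.MP_971f68_nt

theorem core_At : ∀ᶠ X : ℕ in atTop, 1 ≤ ⌈100 * LL X⌉₊ ∧
    ⌊Real.exp (Real.log X / (12 * ⌈100 * LL X⌉₊))⌋₊ ^ (12 * ⌈100 * LL X⌉₊) ≤ X ∧
    102 / 103 * LL X ≤ LL ⌊Real.exp (Real.log X / (12 * ⌈100 * LL X⌉₊))⌋₊ := by
  have t1 : Tendsto (fun X : ℕ => 2400 * LL X + 24) atTop atTop :=
    tendsto_atTop_add_const_right _ _ (tendsto_LL.const_mul_atTop (by norm_num))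
  filter_upwards [tendsto_LL.eventually_ge_atTop 1, eventually_ge_atTop 2,
    t1.eventually (Real.isLittleO_log_id_atTop.bound (c := 1 / (103 * 2424)) (by norm_num))]
    with X h1 h2 h3
  have hX : (1 : ℝ) < X := by exact_mod_cast h2
  have hl : 0 < Real.log X := Real.log_pos hX
  set H := ⌈100 * LL X⌉₊ with hH
  have a1 : 1 ≤ H := Nat.ceil_pos.mpr (by linarith)
  have a1' : (1 : ℝ) ≤ H := by exact_mod_cast a1
  have a2 : (H : ℝ) ≤ 100 * LL X + 1 := (Nat.ceil_lt_add_one (by linarith)).le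
  have a3 : Real.log (24 * H) ≤ LL X / 103 := by
    rw [id, Real.norm_of_nonneg (by linarith : 0 ≤ 2400 * LL X + 24)] at h3
    have b1 : Real.log (24 * H) ≤ Real.log (2400 * LL X + 24) :=
      Real.log_le_log (by linarith) (by linarith)
    linarith [le_abs_self (Real.log (2400 * LL X + 24)), Real.norm_eq_abs
      (Real.log (2400 * LL X + 24))]
  set u := Real.log X / (12 * H) with hu
  have a4 : Real.log (u / 2) = LL X - Real.log (24 * H) := by
    rw [hu, div_div, Real.log_div hl.ne' (by positivity)]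
    congr 2
    ring
  have a5 : 0 < u := by positivity
  have a6 : 2 ≤ u := by
    have b1 : 0 ≤ Real.log (u / 2) := by linarith
    have b2 := (Real.log_nonneg_iff (by positivity : 0 < u / 2)).mp b1
    linarith
  have a7 : u / 2 ≤ Real.log (⌊Real.exp u⌋₊ : ℕ) := by
    have b1 := (Nat.lt_floor_add_one (Real.exp u)).le
    have b2 : Real.exp u = Real.exp (u / 2) * Real.exp (u / 2) := by
      rw [← Real.exp_add]
      congr 1
      ring
    have b3 := Real.add_one_le_exp (u / 2)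
    rw [Real.le_log_iff_exp_le (by nlinarith)]
    nlinarith
  refine ⟨a1, ?_, ?_⟩
  · have b1 : ((⌊Real.exp u⌋₊ : ℕ) : ℝ) ^ (12 * H) ≤ Real.exp u ^ (12 * H) :=
      pow_le_pow_left₀ (Nat.cast_nonneg _) (Nat.floor_le (Real.exp_pos u).le) _
    have b2 : Real.exp u ^ (12 * H) = X := by
      rw [← Real.exp_nat_mul, hu]
      push_cast
      rw [mul_div_cancel₀ _ (by positivity), Real.exp_log (by linarith)]
    exact_mod_cast b1.trans b2.le
  · have b1 : Real.log (u / 2) ≤ LL ⌊Real.exp u⌋₊ := Real.log_le_log (by positivity) a7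
    linarith

theorem s_Par (h1 : StAb) (h2 : StSp) : StPar := by
  obtain ⟨d1, w, d, hd, hw, d2, hK⟩ := h2
  have t1 : Tendsto (fun X : ℕ => ⌊Real.exp (Real.log X / (12 * ⌈100 * LL X⌉₊))⌋₊) atTop atTop := by
    rw [← tendsto_natCast_atTop_iff (R := ℝ)]
    refine tendsto_atTop_mono' _ ?_ (tendsto_LL.const_mul_atTop (by norm_num : (0 : ℝ) < 102 / 103))
    filter_upwards [core_At] with X h
    exact h.2.2.trans ((Real.log_le_self (Real.log_natCast_nonneg _)).trans
      (Real.log_le_self (Nat.cast_nonneg _)))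
  filter_upwards [core_At, t1.eventually_ge_atTop 60,
    t1.eventually ((h1 w d hw d2).1 1.03 (by linarith)),
    t1.eventually ((h1 (fun _ => 1) 1 (fun _ => zero_le_one) d1).2 2 (by norm_num))]
    with X ⟨a1, a2, a3⟩ a4 a5 a6
  refine ⟨_, _, a4, a1, a2, Nat.le_ceil _, a6.trans ?_, ?_⟩
  · refine mul_le_mul_of_nonneg_left (Real.log_le_log (Real.log_pos ?_) (Real.log_le_log ?_ ?_))
      (by norm_num)
    · exact_mod_cast lt_of_lt_of_le (by norm_num) a4
    · exact_mod_cast lt_of_lt_of_le (by norm_num) a4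
    · exact_mod_cast (Nat.le_self_pow (by omega) _).trans a2
  · refine le_trans (by linarith) (a5.trans (sum_le_sum fun r hr => ?_))
    obtain ⟨b1, b2⟩ := mem_filter.mp hr
    exact div_le_div_of_nonneg_right (hK r b2 (mem_Ioc.mp b1).1) (Nat.cast_nonneg r)

theorem cheb_At (p : ℕ) (A : ℕ → Prop) (Y : ℕ → ℝ) (δ V : ℝ) (hδ : 0 < δ)
    (h : ∀ q, A q → δ ≤ |Y q|) (hV : ∑ q ∈ Icc 1 p, th q * Y q ^ 2 ≤ V) : TH p A ≤ V / δ ^ 2 := by
  classical
  rw [le_div_iff₀ (by positivity), TH_ite, sum_mul]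
  refine le_trans (sum_le_sum fun q _ => ?_) hV
  rw [mul_assoc]
  refine mul_le_mul_of_nonneg_left ?_ (th_nonneg q)
  split_ifs with hq
  · rw [one_mul, ← sq_abs (Y q)]
    exact pow_le_pow_left₀ hδ.le (h q hq) 2
  · rw [zero_mul]
    exact sq_nonneg _

theorem K_At (r : ℕ) : 0 < K r ∧ 0 ≤ Real.log (K r) ∧ Real.log (K r) ≤ 2 := by
  have h4 : Real.log 4 = 2 * Real.log 2 := by
    rw [show (4 : ℝ) = 2 ^ 2 by norm_num, Real.log_pow]
    norm_num
  unfold K
  split_ifs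
  · exact ⟨by norm_num, Real.log_nonneg (by norm_num), by linarith [Real.log_two_lt_d9]⟩
  · exact ⟨by norm_num, Real.log_nonneg (by norm_num), by linarith [Real.log_two_lt_d9]⟩

theorem s_At (h1 : StTK) (h2 : StRho) : StAt := by
  intro η hη
  filter_upwards [h1, tendsto_LL.eventually_ge_atTop 1,
    tendsto_LL.eventually_ge_atTop (980000 / η)] with p c1 c2 c3 hp z H ⟨p1, p2, p3, p4, p5, p6⟩
  have hp0 : (0 : ℝ) < p := by exact_mod_cast hp.pos
  have hP : ∀ r ∈ PP z, r.Prime ∧ 13 < r ∧ r ^ 8 ≤ p := fun r hr => by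
    obtain ⟨b1, b2⟩ := mem_filter.mp hr
    exact ⟨b2, (mem_Ioc.mp b1).1, ((Nat.pow_le_pow_left (mem_Ioc.mp b1).2 8).trans
      (Nat.pow_le_pow_right (by omega) (by omega))).trans p3⟩
  have hV : (p : ℝ) * (24 * ∑ r ∈ PP z, 1 / (r : ℝ) + 1) ≤ p * (49 * LL p) :=
    mul_le_mul_of_nonneg_left (by linarith) hp0.le
  have hδ : 0 < 0.01 * LL p := by linarith
  have a1 := cheb_At p (fun q => ¬ ((PP z).filter fun r => r ∣ F p q).card < H) _ _ _ hδ
    (fun q hq => ?_) ((c1 hp (PP z) (fun _ => 1) fun r hr =>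
      ⟨(hP r hr).1, by linarith [(hP r hr).2.1], (hP r hr).2.2, zero_le_one, one_le_two⟩).trans hV)
  have a2 := cheb_At p (fun q => ¬ Real.exp (1.01 * LL p) ≤
      ∏ r ∈ (PP z).filter fun r => r ∣ F p q, K r) _ _ _ hδ
    (fun q hq => ?_) ((c1 hp (PP z) (fun r => Real.log (K r)) fun r hr =>
      ⟨(hP r hr).1, by linarith [(hP r hr).2.1], (hP r hr).2.2, (K_At r).2.1,
        (K_At r).2.2⟩).trans hV)
  · have a3 := TH_or p (fun q => ¬ ((PP z).filter fun r => r ∣ F p q).card < H)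
      (fun q => ¬ Real.exp (1.01 * LL p) ≤ ∏ r ∈ (PP z).filter fun r => r ∣ F p q, K r)
    have a4 : (p : ℝ) * (49 * LL p) / (0.01 * LL p) ^ 2 ≤ η * p / 2 := by
      rw [div_le_iff₀ hη] at c3
      rw [div_le_iff₀ (by positivity)]
      have : (p : ℝ) * LL p * 980000 ≤ p * LL p * (LL p * η) :=
        mul_le_mul_of_nonneg_left c3 (by positivity)
      nlinarith
    refine le_trans (TH_mono fun q _ _ _ hq => not_and_or.mp hq) ?_
    linarith
  · have b1 : ∑ r ∈ (PP z).filter fun r => r ∣ F p q, Real.log (K r) < 1.01 * LL p := by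
      rw [← Real.log_prod fun r _ => (K_At r).1.ne',
        Real.log_lt_iff_lt_exp (prod_pos fun r _ => (K_At r).1)]
      exact not_le.mp hq
    have b2 : ∑ r ∈ PP z, Real.log (K r) * rho0 r / r ≤
        ∑ r ∈ PP z, Real.log (K r) * rho0 r / ((r : ℝ) - 1) := sum_le_sum fun r hr => by
      have : (13 : ℝ) < r := by exact_mod_cast (hP r hr).2.1
      exact div_le_div_of_nonneg_left (mul_nonneg (K_At r).2.1 (Nat.cast_nonneg _)) (by linarith)
        (by linarith)
    rw [abs_sub_comm]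
    exact le_trans (by linarith) (le_abs_self _)
  · have b1 : (H : ℝ) ≤ ∑ _r ∈ (PP z).filter fun r => r ∣ F p q, (1 : ℝ) := by
      rw [sum_const, nsmul_eq_mul, mul_one]
      exact_mod_cast not_lt.mp hq
    have b2 : ∑ r ∈ PP z, 1 * (rho0 r : ℝ) / ((r : ℝ) - 1) ≤ 6 * ∑ r ∈ PP z, 1 / (r : ℝ) := by
      rw [mul_sum]
      refine sum_le_sum fun r hr => ?_
      have b3 : (13 : ℝ) < r := by exact_mod_cast (hP r hr).2.1
      have b4 : (rho0 r : ℝ) ≤ 3 := by exact_mod_cast (h2.2.1 r (hP r hr).1).1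
      rw [one_mul, mul_one_div, div_le_div_iff₀ (by linarith) (by linarith)]
      nlinarith
    exact le_trans (by linarith) (le_abs_self _)

end Pool.Agent.MP_971f68_nt

end

section

open Finset Filter Topology

namespace Pool.Agent.MP_971f68_nt

theorem cubic_L0 {F : Type} [Field F] (u v : F) (s : Finset F)
    (h : ∀ x ∈ s, x ^ 3 + u * x + v = 0) : s.card ≤ 3 := by
  have hd : (Polynomial.X ^ 3 + Polynomial.C u * Polynomial.X + Polynomial.C v :
      Polynomial F).natDegree = 3 := by compute_degree!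
  have h0 : (Polynomial.X ^ 3 + Polynomial.C u * Polynomial.X + Polynomial.C v :
      Polynomial F) ≠ 0 := by
    intro h1
    rw [h1] at hd
    simp at hd
  rw [← hd]
  refine Polynomial.card_le_degree_of_subset_roots fun x hx => ?_
  rw [Polynomial.mem_roots h0]
  simpa using h x hx

theorem gd_nm_L0 {p r : ℕ} (hr : r.Prime) {b : T (ZMod r)} (h : Gd p r b) : nm b = 0 := by
  have := Fact.mk hr
  obtain ⟨x, c, a, -, ha, hx, he⟩ := h
  have h1 := congrArg nm he
  rw [nm_mul, nm_mul] at h1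
  have h2 : nm ((c ^ 2 * p, c ^ 2 * x, 0) : T (ZMod r)) = 0 := by
    simp only [nm]
    linear_combination c ^ 6 * hx
  rw [h2] at h1
  exact (mul_eq_zero.mp h1).resolve_right (mul_ne_zero ha ha)

theorem s_L0 : StL0 := by
  intro p r hr
  have := Fact.mk hr
  refine ⟨fun b h => gd_nm_L0 hr h, ?_⟩
  rw [Nat.card_eq_fintype_card, Fintype.card_subtype]
  have h1 := Finset.card_le_mul_card_image_of_maps_to
    (f := fun b : T (ZMod r) => b.2) (s := univ.filter fun b : T (ZMod r) => nm b = 0)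
    (t := univ) (fun _ _ => mem_univ _) 3 (fun y _ => by
      rw [← Finset.card_image_of_injOn (f := fun b : T (ZMod r) => b.1)]
      · refine cubic_L0 (-(6 * y.1 * y.2)) (2 * y.1 ^ 3 + 4 * y.2 ^ 3) _ fun x hx => ?_
        obtain ⟨b, hb, rfl⟩ := mem_image.mp hx
        obtain ⟨hb1, rfl⟩ := mem_filter.mp hb
        have := (mem_filter.mp hb1).2
        simp only [nm] at this
        linear_combination this
      · intro b hb b' hb' h
        exact Prod.ext h ((mem_filter.mp (mem_coe.mp hb)).2.trans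
          (mem_filter.mp (mem_coe.mp hb')).2.symm))
  rw [card_univ, Fintype.card_prod, ZMod.card, ← sq] at h1
  exact h1

theorem cancel_L0 {F : Type} [Field F] {g b b' : T F} (hg : nm g ≠ 0) (h : mul g b = mul g b') :
    b = b' := by
  have h1 := congrArg (mul (adj g)) h
  have key : ∀ d : T F, mul (adj g) (mul g d) = (nm g * d.1, nm g * d.2.1, nm g * d.2.2) := by
    intro d
    simp only [mul, adj, nm]
    refine Prod.ext ?_ (Prod.ext ?_ ?_) <;> (dsimp only; ring)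
  rw [key, key] at h1
  simp only [Prod.mk.injEq] at h1
  exact Prod.ext (mul_left_cancel₀ hg h1.1)
    (Prod.ext (mul_left_cancel₀ hg h1.2.1) (mul_left_cancel₀ hg h1.2.2))

/-- evaluation at a cube root of two -/
def ev_L0 {F : Type} [Field F] (t : F) (b : T F) : F := b.1 + b.2.1 * t + b.2.2 * t ^ 2

/-- the complementary quadratic form -/
def qq_L0 {F : Type} [Field F] (t : F) (b : T F) : F :=
  (b.1 - b.2.2 * t ^ 2) ^ 2 - (b.1 - b.2.2 * t ^ 2) * (b.2.1 * t - b.2.2 * t ^ 2) +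
    (b.2.1 * t - b.2.2 * t ^ 2) ^ 2

theorem ev_mul_L0 {F : Type} [Field F] {t : F} (ht : t ^ 3 = 2) (a b : T F) :
    ev_L0 t (mul a b) = ev_L0 t a * ev_L0 t b := by
  simp only [ev_L0, mul]
  rw [← ht]
  ring

theorem qq_mul_L0 {F : Type} [Field F] {t : F} (ht : t ^ 3 = 2) (a b : T F) :
    qq_L0 t (mul a b) = qq_L0 t a * qq_L0 t b := by
  simp only [qq_L0, mul]
  rw [← ht]
  ring

theorem nm_eq_L0 {F : Type} [Field F] {t : F} (ht : t ^ 3 = 2) (b : T F) :
    nm b = ev_L0 t b * qq_L0 t b := by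
  simp only [qq_L0, ev_L0, nm]
  linear_combination (-(b.2.1 ^ 3) - b.2.2 ^ 3 * (t ^ 3 + 2) + 3 * b.1 * b.2.1 * b.2.2) * ht

theorem small_ne_L0 {r k : ℕ} (hr : r.Prime) (h3 : 3 < r) (hk : k ∣ 6) : ((k : ℕ) : ZMod r) ≠ 0 := by
  intro h
  have h1 : r ∣ 2 * 3 := ((ZMod.natCast_eq_zero_iff k r).mp h).trans hk
  rcases (Nat.Prime.dvd_mul hr).mp h1 with h2 | h2 <;>
    exact absurd (Nat.le_of_dvd (by norm_num) h2) (by omega)

theorem s_L2 : StL2 := by
  intro p r hr h3 hp hm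
  have := Fact.mk hr
  obtain ⟨k, hk⟩ : ∃ k, r = 3 * k + 2 := ⟨r / 3, by omega⟩
  have hcube : ∀ x : ZMod r, (x ^ 3) ^ (2 * k + 1) = x := by
    intro x
    have e1 : 3 * (2 * k + 1) = r + (3 * k + 1) := by omega
    rw [← pow_mul, e1, pow_add, ZMod.pow_card, ← pow_succ', ← hk, ZMod.pow_card]
  have h2 : (2 : ZMod r) ≠ 0 := by exact_mod_cast small_ne_L0 (k := 2) hr h3 (by norm_num)
  have h3' : (3 : ZMod r) ≠ 0 := by exact_mod_cast small_ne_L0 (k := 3) hr h3 (by norm_num)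
  have hp' : (p : ZMod r) ≠ 0 := fun h => hp ((ZMod.natCast_eq_zero_iff p r).mp h)
  obtain ⟨t, ht⟩ : ∃ t : ZMod r, t ^ 3 = 2 :=
    ⟨2 ^ (2 * k + 1), by rw [← pow_mul, mul_comm, pow_mul, hcube]⟩
  have ht0 : t ≠ 0 := by
    rintro rfl
    exact h2 (by rw [← ht]; norm_num)
  obtain ⟨n, hn⟩ : ∃ n : ZMod r, ¬ IsSquare n :=
    FiniteField.exists_nonsquare (by rw [ZMod.ringChar_zmod_n]; omega)
  have hn0 : n ≠ 0 := by
    rintro rfl
    exact hn ⟨0, by simp⟩
  obtain ⟨u, v, huv⟩ := FiniteField.exists_root_sum_quadratic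
    (f := (Polynomial.X ^ 2 - Polynomial.C n : Polynomial (ZMod r)))
    (g := Polynomial.C 3 * Polynomial.X ^ 2) (by compute_degree!) (by compute_degree!)
    (by rw [ZMod.card]; rcases hr.eq_two_or_odd with h | h <;> omega)
  simp only [Polynomial.eval_sub, Polynomial.eval_pow, Polynomial.eval_X, Polynomial.eval_C,
    Polynomial.eval_mul] at huv
  obtain ⟨g, hg1, hg2⟩ : ∃ g : T (ZMod r), ev_L0 t g = 1 ∧ qq_L0 t g = n := by
    refine ⟨(u + v + (1 - u - 3 * v) / 3, (2 * v + (1 - u - 3 * v) / 3) / t,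
      (1 - u - 3 * v) / 3 / t ^ 2), ?_, ?_⟩
    · simp only [ev_L0]
      field_simp
      ring
    · simp only [qq_L0]
      rw [div_mul_cancel₀ _ ht0, div_mul_cancel₀ _ (pow_ne_zero 2 ht0)]
      linear_combination huv
  have hg : nm g ≠ 0 := by rw [nm_eq_L0 ht, hg1, hg2, one_mul]; exact hn0
  have key : ∀ b, Gd p r b → ∃ c A : ZMod r, c ≠ 0 ∧ A ≠ 0 ∧
      qq_L0 t b * A ^ 2 = 3 * c ^ 4 * p ^ 2 := by
    rintro b ⟨x, c, a, hc, ha, hx, he⟩
    have e1 : (x * t) ^ 3 = (-(p : ZMod r)) ^ 3 := by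
      rw [mul_pow, ht]
      linear_combination hx
    have e2 : x * t = -p := by rw [← hcube (x * t), e1, hcube]
    have e3 := congrArg (qq_L0 t) he
    rw [qq_mul_L0 ht, qq_mul_L0 ht] at e3
    refine ⟨c, qq_L0 t a, hc, fun h => ha (by rw [nm_eq_L0 ht, h, mul_zero]), ?_⟩
    rw [sq, e3]
    simp only [qq_L0]
    rw [mul_assoc (c ^ 2) x t, e2]
    ring
  have mixed : ∀ b b', Gd p r b → Gd p r b' → b ≠ mul g b' := by
    intro b b' hb hb' h
    obtain ⟨c, A, hc, hA, e1⟩ := key b hb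
    obtain ⟨c', A', hc', hA', e2⟩ := key b' hb'
    rw [h, qq_mul_L0 ht, hg2] at e1
    refine hn ⟨c ^ 2 * A' / (c' ^ 2 * A), ?_⟩
    have e3 : 3 * (p : ZMod r) ^ 2 * (n * (c' ^ 2 * A) ^ 2) =
        3 * (p : ZMod r) ^ 2 * (c ^ 2 * A') ^ 2 := by
      linear_combination A' ^ 2 * e1 - n * A ^ 2 * e2
    have e4 := mul_left_cancel₀ (mul_ne_zero h3' (pow_ne_zero 2 hp')) e3
    field_simp
    linear_combination e4
  have hinj : Function.Injective fun z : Bool × {b // Gd p r b} =>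
      (⟨if z.1 then mul g z.2.1 else z.2.1, by
        split_ifs
        · rw [nm_mul, gd_nm_L0 hr z.2.2, mul_zero]
        · exact gd_nm_L0 hr z.2.2⟩ : {b : T (ZMod r) // nm b = 0}) := by
    rintro ⟨s, b, hb⟩ ⟨s', b', hb'⟩ h
    have h1 := congrArg Subtype.val h
    cases s <;> cases s' <;> simp only [if_true, Bool.false_eq_true, if_false] at h1
    · rw [Prod.mk.injEq, Subtype.mk.injEq]
      exact ⟨rfl, h1⟩
    · exact absurd h1 (mixed b b' hb hb')
    · exact absurd h1.symm (mixed b' b hb' hb)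
    · rw [Prod.mk.injEq, Subtype.mk.injEq]
      exact ⟨rfl, cancel_L0 hg h1⟩
  have := Nat.card_le_card_of_injective _ hinj
  rwa [Nat.card_prod, Nat.card_eq_fintype_card (α := Bool), Fintype.card_bool] at this

end Pool.Agent.MP_971f68_nt

end

section

open Finset Filter Topology

namespace Pool.Agent.MP_971f68_nt

/-- the three cube roots of two -/
def tt_L1 {F : Type} [Field F] (t w : F) : Fin 3 → F := ![t, t * w, t * w ^ 2]

/-- four sign patterns, separated by any two coordinates -/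
def pat_L1 (k : Bool × Bool) : Fin 3 → Bool := ![k.1, k.2, xor k.1 k.2]

theorem pat_inj_L1 : ∀ (k l : Bool × Bool) (i : Fin 3),
    (∀ j, j ≠ i → pat_L1 k j = pat_L1 l j) → k = l := by decide

theorem tt_cube_L1 {F : Type} [Field F] {t w : F} (ht : t ^ 3 = 2) (hw : w ^ 2 + w + 1 = 0)
    (i : Fin 3) : tt_L1 t w i ^ 3 = 2 := by
  fin_cases i
  · exact ht
  · show (t * w) ^ 3 = 2
    linear_combination w ^ 3 * ht + 2 * (w - 1) * hw
  · show (t * w ^ 2) ^ 3 = 2
    linear_combination w ^ 6 * ht + 2 * (w - 1) * (w ^ 3 + 1) * hw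

theorem tt_inj_L1 {F : Type} [Field F] {t w : F} (ht : t ≠ 0) (hw : w ^ 2 + w + 1 = 0)
    (h3 : (3 : F) ≠ 0) : Function.Injective (tt_L1 t w) := by
  have h1 : w - 1 ≠ 0 := fun h => h3 (by linear_combination hw - (w + 2) * h)
  have h2 : w ^ 2 - 1 ≠ 0 := fun h => h3 (by linear_combination (2 - w) * hw + (w - 1) * h)
  have h4 : w ^ 2 - w ≠ 0 := fun h => h3 (by linear_combination (3 - 2 * w) * hw + (2 * w + 1) * h)
  intro i j h
  fin_cases i <;> fin_cases j <;> first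
    | rfl
    | (exfalso
       simp only [tt_L1, Fin.reduceFinMk, Matrix.cons_val] at h
       first
        | exact mul_ne_zero ht h1 (by linear_combination h)
        | exact mul_ne_zero ht h1 (by linear_combination -h)
        | exact mul_ne_zero ht h2 (by linear_combination h)
        | exact mul_ne_zero ht h2 (by linear_combination -h)
        | exact mul_ne_zero ht h4 (by linear_combination h)
        | exact mul_ne_zero ht h4 (by linear_combination -h))

theorem nm_prod_L1 {F : Type} [Field F] {t w : F} (ht : t ^ 3 = 2) (hw : w ^ 2 + w + 1 = 0)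
    (b : T F) : nm b = ∏ j, ev_L0 (tt_L1 t w j) b := by
  rw [nm_eq_L0 ht, Fin.prod_univ_three, mul_assoc]
  congr 1
  show qq_L0 t b = ev_L0 (t * w) b * ev_L0 (t * w ^ 2) b
  simp only [qq_L0, ev_L0]
  linear_combination (-(b.1 * (b.2.1 * t)) - b.1 * (b.2.2 * t ^ 2) * (w ^ 2 - w + 1)
    - (b.2.1 * t) ^ 2 * (w - 1) - b.2.1 * t * (b.2.2 * t ^ 2) * (w ^ 3 - w + 1)
    - (b.2.2 * t ^ 2) ^ 2 * (w - 1) * (w ^ 3 + 1)) * hw

theorem ev_surj_L1 {F : Type} [Field F] {t w : F} (ht : t ≠ 0) (hw : w ^ 2 + w + 1 = 0)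
    (h3 : (3 : F) ≠ 0) (y : Fin 3 → F) : ∃ g : T F, ∀ j, ev_L0 (tt_L1 t w j) g = y j := by
  refine ⟨((y 0 + y 1 + y 2) / 3, (y 0 + w ^ 2 * y 1 + w * y 2) / 3 / t,
    (y 0 + w * y 1 + w ^ 2 * y 2) / 3 / t ^ 2), fun j => ?_⟩
  fin_cases j
  · show ev_L0 t _ = y 0
    simp only [ev_L0]
    field_simp
    linear_combination (y 1 + y 2) * hw
  · show ev_L0 (t * w) _ = y 1
    simp only [ev_L0]
    field_simp
    linear_combination (y 0 + 2 * (w - 1) * y 1 + (w ^ 2 - w + 1) * y 2) * hw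
  · show ev_L0 (t * w ^ 2) _ = y 2
    simp only [ev_L0]
    field_simp
    linear_combination ((w ^ 2 - w + 1) * y 0 + (w ^ 3 - w + 1) * y 1 +
      (w - 1) * (w ^ 3 + 2) * y 2) * hw

theorem s_L1 : StL1 := by
  intro p r hr h3 hp hm
  have := Fact.mk hr
  have h2 : (2 : ZMod r) ≠ 0 := by exact_mod_cast small_ne_L0 (k := 2) hr h3 (by norm_num)
  have h3' : (3 : ZMod r) ≠ 0 := by exact_mod_cast small_ne_L0 (k := 3) hr h3 (by norm_num)
  have hp' : (p : ZMod r) ≠ 0 := fun h => hp ((ZMod.natCast_eq_zero_iff p r).mp h)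
  rcases isEmpty_or_nonempty {b // Gd p r b} with he | ⟨⟨b0, x0, c0, a0, -, -, hx0, -⟩⟩
  · rw [Nat.card_of_isEmpty]
    exact Nat.zero_le _
  have hx1 : x0 ≠ 0 := by
    rintro rfl
    exact pow_ne_zero 3 hp' (by linear_combination hx0)
  obtain ⟨t, ht⟩ : ∃ t : ZMod r, t ^ 3 = 2 := ⟨-p / x0, by
    field_simp
    linear_combination -hx0⟩
  have ht0 : t ≠ 0 := by
    rintro rfl
    exact h2 (by rw [← ht]; norm_num)
  obtain ⟨w, hw⟩ : ∃ w : ZMod r, w ^ 2 + w + 1 = 0 := by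
    have := Fact.mk Nat.prime_three
    obtain ⟨u, hu⟩ := exists_prime_orderOf_dvd_card (G := (ZMod r)ˣ) 3
      (by rw [ZMod.card_units]; omega)
    have e1 : (u : ZMod r) ^ 3 = 1 := by
      rw [← Units.val_pow_eq_pow_val, ← hu, pow_orderOf_eq_one, Units.val_one]
    have e2 : (u : ZMod r) - 1 ≠ 0 := fun h => by
      have : u = 1 := Units.ext (sub_eq_zero.mp h)
      rw [this, orderOf_one] at hu
      omega
    exact ⟨u, mul_left_cancel₀ e2 (by linear_combination e1)⟩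
  obtain ⟨n, hn⟩ : ∃ n : ZMod r, ¬ IsSquare n :=
    FiniteField.exists_nonsquare (by rw [ZMod.ringChar_zmod_n]; omega)
  have hn0 : n ≠ 0 := by
    rintro rfl
    exact hn ⟨0, by simp⟩
  have hc3 := tt_cube_L1 ht hw
  have hinj := tt_inj_L1 ht0 hw h3'
  have ht1 : ∀ i, tt_L1 t w i ≠ 0 := fun i h => h2 (by rw [← hc3 i, h]; norm_num)
  choose G hG using fun k : Bool × Bool =>
    ev_surj_L1 ht0 hw h3' fun j => if pat_L1 k j then n else 1
  have hG0 : ∀ k j, ev_L0 (tt_L1 t w j) (G k) ≠ 0 := fun k j => by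
    rw [hG]
    split_ifs
    exacts [hn0, one_ne_zero]
  have hG1 : ∀ k, nm (G k) ≠ 0 := fun k => by
    rw [nm_prod_L1 ht hw]
    exact prod_ne_zero_iff.mpr fun j _ => hG0 k j
  have key : ∀ b, Gd p r b → ∃ (i : Fin 3) (c : ZMod r), c ≠ 0 ∧ ev_L0 (tt_L1 t w i) b = 0 ∧
      ∀ j, ∃ A : ZMod r, A ≠ 0 ∧ ev_L0 (tt_L1 t w j) b * A ^ 2 * tt_L1 t w i =
        c ^ 2 * p * (tt_L1 t w i - tt_L1 t w j) := by
    rintro b ⟨x, c, a, hc, ha, hx, he⟩
    have ha1 : ∀ j, ev_L0 (tt_L1 t w j) a ≠ 0 := fun j =>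
      prod_ne_zero_iff.mp (nm_prod_L1 ht hw a ▸ ha) j (mem_univ j)
    have e1 : ∀ j, ev_L0 (tt_L1 t w j) b * ev_L0 (tt_L1 t w j) a ^ 2 =
        c ^ 2 * (p + x * tt_L1 t w j) := fun j => by
      have e2 := congrArg (ev_L0 (tt_L1 t w j)) he
      rw [ev_mul_L0 (hc3 j), ev_mul_L0 (hc3 j)] at e2
      rw [sq, e2]
      simp only [ev_L0]
      ring
    have e3 : ∏ j, ev_L0 (tt_L1 t w j) (((p : ZMod r), x, 0) : T (ZMod r)) = 0 := by
      rw [← nm_prod_L1 ht hw]
      simp only [nm]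
      linear_combination hx
    obtain ⟨i, -, hi⟩ := prod_eq_zero_iff.mp e3
    have e4 : (p : ZMod r) + x * tt_L1 t w i = 0 := by
      simp only [ev_L0] at hi
      linear_combination hi
    refine ⟨i, c, hc, ?_, fun j => ⟨_, ha1 j, ?_⟩⟩
    · have := e1 i
      rw [e4, mul_zero] at this
      exact (mul_eq_zero.mp this).resolve_right (pow_ne_zero 2 (ha1 i))
    · rw [e1 j]
      linear_combination c ^ 2 * tt_L1 t w j * e4
  have hF : Function.Injective fun z : (Bool × Bool) × {b // Gd p r b} =>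
      (⟨mul (G z.1) z.2.1, by rw [nm_mul, gd_nm_L0 hr z.2.2, mul_zero]⟩ :
        {b : T (ZMod r) // nm b = 0}) := by
    rintro ⟨k, b, hb⟩ ⟨l, b', hb'⟩ h
    have h1 : mul (G k) b = mul (G l) b' := congrArg Subtype.val h
    have h4 : ∀ j, ev_L0 (tt_L1 t w j) (G k) * ev_L0 (tt_L1 t w j) b =
        ev_L0 (tt_L1 t w j) (G l) * ev_L0 (tt_L1 t w j) b' := fun j => by
      rw [← ev_mul_L0 (hc3 j), ← ev_mul_L0 (hc3 j), h1]
    obtain ⟨i, c, hc, e1, e2⟩ := key b hb
    obtain ⟨i', c', hc', -, e2'⟩ := key b' hb'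
    have hii : i' = i := by
      obtain ⟨A, -, e3⟩ := e2' i
      have e4 := h4 i
      rw [e1, mul_zero] at e4
      rw [(mul_eq_zero.mp e4.symm).resolve_left (hG0 l i), zero_mul, zero_mul] at e3
      exact hinj (sub_eq_zero.mp ((mul_eq_zero.mp e3.symm).resolve_left
        (mul_ne_zero (pow_ne_zero 2 hc') hp')))
    subst hii
    have hkl : k = l := by
      refine pat_inj_L1 k l i' fun j hj => ?_
      obtain ⟨A, hA, e3⟩ := e2 j
      obtain ⟨A', hA', e4⟩ := e2' j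
      have e5 := h4 j
      have e6 : (p : ZMod r) * (tt_L1 t w i' - tt_L1 t w j) ≠ 0 :=
        mul_ne_zero hp' (sub_ne_zero.mpr fun h => hj (hinj h).symm)
      have e7 : ev_L0 (tt_L1 t w j) (G k) * (c * A') ^ 2 =
          ev_L0 (tt_L1 t w j) (G l) * (c' * A) ^ 2 := by
        refine mul_left_cancel₀ e6 ?_
        linear_combination A ^ 2 * A' ^ 2 * tt_L1 t w i' * e5 -
          ev_L0 (tt_L1 t w j) (G k) * A' ^ 2 * e3 + ev_L0 (tt_L1 t w j) (G l) * A ^ 2 * e4
      rw [hG, hG] at e7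
      cases h5 : pat_L1 k j <;> cases h6 : pat_L1 l j <;> rw [h5, h6] at e7 <;>
        simp only [if_true, Bool.false_eq_true, if_false, one_mul] at e7
      · exact (hn ⟨c * A' / (c' * A), by field_simp; linear_combination -e7⟩).elim
      · exact (hn ⟨c' * A / (c * A'), by field_simp; linear_combination e7⟩).elim
    subst hkl
    rw [Prod.mk.injEq, Subtype.mk.injEq]
    exact ⟨rfl, cancel_L0 (hG1 k) h1⟩
  have := Nat.card_le_card_of_injective _ hF
  rwa [Nat.card_prod, Nat.card_eq_fintype_card (α := Bool × Bool), Fintype.card_prod,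
    Fintype.card_bool] at this

end Pool.Agent.MP_971f68_nt

end
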