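import Pool.Agent.Mg.F436a94p.G4b5bd6
import Pool.Agent.Mg.F436a94p.Gb8cf27

set_option linter.all false

/-!
Windows with many rough primes contain a prime with a primitive root in any independent family.
-/

set_option autoImplicit false

open Finset Filter
open scoped Classical

namespace Pool.Agent.MP_436a94_nt.E

/-- many rough primes just above `n` -/
def Many (al c : ℝ) (N n : ℕ) : Prop := c * Nat.sqrt N / Real.log N ^ 2 ≤
  (((Ioc n (n + Nat.sqrt N)).filter (Rg ((N : ℝ) ^ al))).card : ℝ)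

/-- every independent family contains a primitive root of a prime just above `n` -/
def Good (s : ℕ) (c : ℝ) (N n : ℕ) : Prop := ∀ S : Finset ℤ, S.card = s → Ind S →
  (∀ a ∈ S, (a.natAbs : ℝ) ≤ (N : ℝ) ^ c) →
    ∃ a ∈ S, ∃ p : ℕ, p.Prime ∧ n < p ∧ p ≤ n + Nat.sqrt N ∧ PR a p

lemma blocks (R : Finset ℕ) (t : ℕ) (b : ℝ) (S₀ : Finset ℤ)
    (h : ∀ T ⊆ S₀, T.card = t → ((R.filter fun p => ∀ a ∈ T, nr a p = 0).card : ℝ) ≤ b) :
    ∀ j : ℕ, ∀ S ⊆ S₀, S.card = j * t →
      ((R.filter fun p => (S.filter fun a => nr a p = 1).card < j).card : ℝ) ≤ j * b := by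
  intro j
  induction j with
  | zero => simp
  | succ j ih =>
    intro S hS hc
    obtain ⟨T, hT, hTc⟩ := exists_subset_card_eq (s := S) (n := t) (by rw [hc]; nlinarith)
    have h1 := ih (S \ T) (sdiff_subset.trans hS) (by
      rw [card_sdiff_of_subset hT, hc, hTc, add_mul, one_mul, Nat.add_sub_cancel])
    have h2 := h T (hT.trans hS) hTc
    have h3 : (R.filter fun p => (S.filter fun a => nr a p = 1).card < j + 1) ⊆
        (R.filter fun p => ((S \ T).filter fun a => nr a p = 1).card < j) ∪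
          R.filter fun p => ∀ a ∈ T, nr a p = 0 := by
      intro p hp
      obtain ⟨p1, p2⟩ := mem_filter.1 hp
      by_cases e : ∀ a ∈ T, nr a p = 0
      · exact mem_union_right _ (mem_filter.2 ⟨p1, e⟩)
      · refine mem_union_left _ (mem_filter.2 ⟨p1, ?_⟩)
        push Not at e
        obtain ⟨a, a1, a2⟩ := e
        have a3 : nr a p = 1 := (z2 _).resolve_left a2
        have a4 : ((S \ T).filter fun a => nr a p = 1) ⊂ S.filter fun a => nr a p = 1 :=
          (ssubset_iff_of_subset (filter_subset_filter _ sdiff_subset)).2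
            ⟨a, mem_filter.2 ⟨hT a1, a3⟩, fun e => (mem_sdiff.1 (mem_filter.1 e).1).2 a1⟩
        have := card_lt_card a4
        omega
    have h4 := (card_le_card h3).trans (card_union_le _ _)
    have h5 : ((R.filter fun p => (S.filter fun a => nr a p = 1).card < j + 1).card : ℝ) ≤
        (R.filter fun p => ((S \ T).filter fun a => nr a p = 1).card < j).card +
          (R.filter fun p => ∀ a ∈ T, nr a p = 0).card := by exact_mod_cast h4
    push_cast
    linarith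

lemma ev_pow (C : ℝ) (B : ℕ) {ε : ℝ} (hε : 0 < ε) :
    ∀ᶠ N : ℕ in atTop, C * Real.log N ^ B ≤ (N : ℝ) ^ ε := by
  have h := (isLittleO_log_rpow_rpow_atTop (B : ℝ) hε).bound (c := 1 / (|C| + 1)) (by positivity)
  filter_upwards [tendsto_natCast_atTop_atTop.eventually h] with N hN
  have h0 := pow_nonneg (Real.log_natCast_nonneg N) B
  rw [Real.rpow_natCast, Real.norm_of_nonneg h0, Real.norm_of_nonneg (by positivity),
    div_mul_eq_mul_div, one_mul, le_div_iff₀ (by positivity)] at hN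
  nlinarith [le_abs_self C]

/-- few primes have many independent integers in a small subgroup -/
lemma gm_few (hG : StGM) {al : ℝ} {u Z : ℕ} {x : ℝ} (hal : 0 < al) (h1 : al ≤ 1) (hx : 1 ≤ x)
    (hu : 4 / al ≤ u) (hZ : 1 ≤ Z) (hZx : (Z : ℝ) ^ (u + 1) ≤ x ^ (al / 8)) (P : Finset ℕ)
    (hP : ∀ p ∈ P, GMS u Z ⌊x ^ (1 - al / 2)⌋₊ p) :
    (P.card : ℝ) ≤ 15 ^ u * (5 * u) * x ^ (1 - al / 8) := by
  have hx0 : 0 < x := by linarith
  have hu4 : (4 : ℝ) ≤ u := by
    rw [div_le_iff₀ hal] at hu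
    nlinarith [Nat.cast_nonneg (α := ℝ) u]
  have hu0 : (0 : ℝ) < u := by linarith
  set v := x ^ ((1 - al / 2) / u) with hv
  have v1 : 1 ≤ v := Real.one_le_rpow hx (div_nonneg (by linarith) hu0.le)
  have v2 : v ^ u = x ^ (1 - al / 2) := by
    rw [hv, ← Real.rpow_natCast, ← Real.rpow_mul hx0.le, div_mul_cancel₀ _ hu0.ne']
  have v3 : v ≤ x ^ (al / 4) := by
    refine Real.rpow_le_rpow_of_exponent_le hx ?_
    rw [div_le_iff₀ hal] at hu
    rw [div_le_iff₀ hu0]
    linarith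
  set Y := ⌈v⌉₊ with hY
  have Y1 : v ≤ Y := Nat.le_ceil _
  have Y2 : (Y : ℝ) ≤ 2 * v := by
    have := Nat.ceil_lt_add_one (show 0 ≤ v by linarith)
    linarith
  have hy : ⌊x ^ (1 - al / 2)⌋₊ < (Y + 1) ^ u := by
    rw [Nat.floor_lt (by positivity), ← v2]
    push_cast
    exact pow_lt_pow_left₀ (by linarith) (by linarith) (by exact_mod_cast hu0.ne')
  have h := hG u Z _ Y P hZ hy hP
  have h' : (P.card : ℝ) ≤ (2 * Z + 1) ^ u * (2 * Y + 1) ^ u *
      (1 + u * Y * (Nat.log 2 Z + 1)) := by exact_mod_cast h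
  have Z1 : (1 : ℝ) ≤ Z := by exact_mod_cast hZ
  have Z2 : (Nat.log 2 Z : ℝ) ≤ Z := by exact_mod_cast Nat.log_le_self 2 Z
  have a3 : (1 : ℝ) + u * Y * (Nat.log 2 Z + 1) ≤ 5 * u * (v * Z) := by
    have b1 : (u : ℝ) * Y * (Nat.log 2 Z + 1) ≤ u * (2 * v) * (2 * Z) := by
      gcongr
      linarith
    have b2 : 1 ≤ v * Z := one_le_mul_of_one_le_of_one_le v1 Z1
    nlinarith
  refine h'.trans ?_
  calc _ ≤ (3 * Z : ℝ) ^ u * (5 * v) ^ u * (5 * u * (v * Z)) := by gcongr <;> linarith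
    _ = 15 ^ u * (5 * u) * ((Z : ℝ) ^ (u + 1) * v ^ u * v) := by
      rw [mul_pow, mul_pow, show (15 : ℝ) = 3 * 5 by norm_num, mul_pow]
      ring
    _ ≤ 15 ^ u * (5 * u) * (x ^ (al / 8) * x ^ (1 - al / 2) * x ^ (al / 4)) := by
      rw [v2]
      gcongr
    _ = _ := by
      rw [← Real.rpow_add hx0, ← Real.rpow_add hx0]
      congr 2
      ring

theorem main1 (hC : StCnt) (hG : StGM) (hK : StKey) {al c : ℝ} (hal : 0 < al) (h1 : al ≤ 1)
    (hc : 0 < c) : ∃ (s : ℕ) (c' : ℝ), 0 < c' ∧ ∀ B : ℕ, ∀ᶠ N : ℕ in atTop,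
      (((Ico (2 * N) (3 * N)).filter fun n => Many al c N n ∧ ¬ Good s c' N n).card : ℝ) ≤
        N / Real.log N ^ B := by
  obtain ⟨A, hC⟩ := hC
  obtain ⟨k, hk⟩ : ∃ k : ℕ, 2 / al ≤ k := ⟨_, Nat.le_ceil _⟩
  obtain ⟨u, hu⟩ : ∃ u : ℕ, 4 / al ≤ u := ⟨_, Nat.le_ceil _⟩
  have hk0 : 1 ≤ k := by
    have : (0 : ℝ) < k := lt_of_lt_of_le (by positivity) hk
    exact_mod_cast this
  set β := min al (1 / (8 * (A + 1))) with hβ
  have β0 : 0 < β := lt_min hal (by positivity)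
  have β1 : β ≤ al := min_le_left _ _
  have β2 : β * A ≤ 1 / 8 := by
    have : β ≤ 1 / (8 * (A + 1)) := min_le_right _ _
    rw [le_div_iff₀ (by positivity)] at this
    nlinarith
  obtain ⟨j, hj⟩ : ∃ j : ℕ, j = k * u + 1 := ⟨_, rfl⟩
  have j0 : (0 : ℝ) < j := by exact_mod_cast (show 0 < j by omega)
  obtain ⟨t₀, ht₀⟩ := exists_pow_lt_of_lt_one (show 0 < c * β ^ 2 / (16 * 864 * j) by positivity)
    (show (2 / 3 : ℝ) < 1 by norm_num)
  obtain ⟨t, ht1, ht⟩ : ∃ t : ℕ, 1 ≤ t ∧ (2 / 3 : ℝ) ^ t ≤ c * β ^ 2 / (16 * 864 * j) :=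
    ⟨t₀ + 1, by omega, by rw [pow_succ]; nlinarith [pow_pos (show (0 : ℝ) < 2 / 3 by norm_num) t₀]⟩
  have s1 : u + 1 ≤ j * t := by nlinarith
  have s2 : t ≤ j * t := Nat.le_mul_of_pos_left _ (by omega)
  have s0 : (1 : ℝ) ≤ (j * t : ℕ) := by exact_mod_cast (show 1 ≤ j * t by omega)
  refine ⟨j * t, al / (8 * (j * t : ℕ)), by positivity, fun B => ?_⟩
  filter_upwards [ev_pow 8 0 (half_pos hal), ev_pow 3 0 (half_pos β0),
    ev_pow (4 * (15 ^ u * (5 * u)) / c) (B + 2) (show 0 < al / 8 by positivity),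
    ev_pow (192 * j / c) 2 (show (0 : ℝ) < 1 / 8 by norm_num),
    ev_pow 2 0 (show (0 : ℝ) < 1 / 8 by norm_num), ev_log 1, eventually_ge_atTop 4] with
    N e1 e2 e3 e4 e5 hL hN
  rw [pow_zero, mul_one] at e1 e2 e5
  set L := Real.log N with hLd
  set H := Nat.sqrt N with hH
  have hHN : H ≤ N := Nat.sqrt_le_self N
  have hH1 : 1 ≤ H := Nat.le_sqrt.2 (by omega)
  have H1 : (1 : ℝ) ≤ H := by exact_mod_cast hH1
  have N4 : (4 : ℝ) ≤ N := by exact_mod_cast hN
  have N0 : (0 : ℝ) < N := by linarith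
  have N1 : (1 : ℝ) ≤ N := by linarith
  have L0 : 0 < L := by linarith
  have mono : ∀ {a b : ℝ}, a ≤ b → (N : ℝ) ^ a ≤ (N : ℝ) ^ b := fun h =>
    Real.rpow_le_rpow_of_exponent_le N1 h
  set w := (N : ℝ) ^ (1 / 8 : ℝ) with hw
  have w8 : (w ^ 4) ^ 2 = N := by
    rw [← pow_mul, hw, ← Real.rpow_natCast, ← Real.rpow_mul N0.le]
    norm_num
  have w4 : w ^ 4 ≤ 2 * H := by
    have a1 : (N : ℝ) ≤ (H + 1) ^ 2 := by exact_mod_cast (Nat.lt_succ_sqrt' N).le
    rw [← w8] at a1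
    have := (pow_le_pow_iff_left₀ (by positivity) (by positivity) two_ne_zero).1 a1
    linarith
  set Z := ⌊(N : ℝ) ^ (al / (8 * (j * t : ℕ)))⌋₊ with hZ
  have Z0 : (Z : ℝ) ≤ (N : ℝ) ^ (al / (8 * (j * t : ℕ))) := Nat.floor_le (by positivity)
  have Z1 : 1 ≤ Z := Nat.le_floor (by
    rw [Nat.cast_one]
    exact Real.one_le_rpow N1 (by positivity))
  have Z1' : (1 : ℝ) ≤ Z := by exact_mod_cast Z1
  have Z2 : ∀ m ≤ j * t, (Z : ℝ) ^ m ≤ (N : ℝ) ^ (al / 8) := fun m hm => by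
    refine (pow_le_pow_right₀ Z1' hm).trans ((pow_le_pow_left₀ (by positivity) Z0 _).trans_eq ?_)
    rw [← Real.rpow_natCast, ← Real.rpow_mul N0.le]
    congr 1
    field_simp
  have Z3 : (Z : ℝ) ≤ (N : ℝ) ^ al := by
    have := Z2 1 (by omega)
    rw [pow_one] at this
    exact this.trans (mono (by linarith))
  have Z4 : (Z : ℝ) ^ t ≤ w := (Z2 t s2).trans (mono (by linarith))
  have Na : (N : ℝ) ^ al ≤ N := (mono h1).trans_eq (Real.rpow_one _)
  set z := ⌊(N : ℝ) ^ β⌋₊ with hz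
  have z0 : (z : ℝ) ≤ (N : ℝ) ^ β := Nat.floor_le (by positivity)
  have z1 : (N : ℝ) ^ (β / 2) ≤ z := by
    have a1 : (N : ℝ) ^ β < z + 1 := Nat.lt_floor_add_one _
    have a2 : (N : ℝ) ^ β = (N : ℝ) ^ (β / 2) * (N : ℝ) ^ (β / 2) := by
      rw [← Real.rpow_add N0, add_halves]
    nlinarith
  have z2 : β / 2 * L ≤ Real.log z := by
    rw [hLd, ← Real.log_rpow N0]
    exact Real.log_le_log (by positivity) z1
  have z3 : (z : ℝ) ≤ (N : ℝ) ^ al := z0.trans (mono β1)
  have z4 : (z : ℝ) ^ A ≤ w := by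
    refine (pow_le_pow_left₀ (by positivity) z0 _).trans ?_
    rw [← Real.rpow_natCast, ← Real.rpow_mul N0.le]
    exact mono β2
  set y := ⌊(N : ℝ) ^ (1 - al / 2)⌋₊ with hy
  have y1 : 4 * (N : ℝ) ≤ y * (N : ℝ) ^ al := by
    have a1 : (N : ℝ) ^ (1 - al / 2) < y + 1 := Nat.lt_floor_add_one _
    have a2 : 1 ≤ y := Nat.le_floor (by
      rw [Nat.cast_one]
      exact Real.one_le_rpow N1 (by linarith))
    have a3 : (1 : ℝ) ≤ y := by exact_mod_cast a2
    have a4 : (N : ℝ) ^ (1 - al / 2) * (N : ℝ) ^ al = N * (N : ℝ) ^ (al / 2) := by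
      rw [← Real.rpow_add N0, show 1 - al / 2 + al = 1 + al / 2 by ring, Real.rpow_add N0,
        Real.rpow_one]
    have a5 : (N : ℝ) ^ (1 - al / 2) * (N : ℝ) ^ al ≤ 2 * y * (N : ℝ) ^ al :=
      mul_le_mul_of_nonneg_right (by linarith) (by positivity)
    nlinarith
  have k1 : 4 * (N : ℝ) ≤ ((N : ℝ) ^ al) ^ k := by
    rw [← Real.rpow_natCast, ← Real.rpow_mul N0.le]
    rw [div_le_iff₀ hal] at hk
    refine le_trans ?_ (mono (a := (2 : ℕ)) (by push_cast; linarith))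
    rw [Real.rpow_natCast]
    nlinarith
  set P := (range (4 * N + 1)).filter (GMS u Z y) with hP
  have hPc := gm_few hG hal h1 N1 hu Z1 (Z2 _ s1) P fun p hp => (mem_filter.1 hp).2
  set θ := c * H / L ^ 2 / 4 with hθ
  have θ0 : 0 < θ := by positivity
  have hM := markov (Ico (2 * N) (3 * N)) P 0 H θ
  have hsub : ((Ico (2 * N) (3 * N)).filter fun n =>
      Many al c N n ∧ ¬ Good (j * t) (al / (8 * (j * t : ℕ))) N n) ⊆
      (Ico (2 * N) (3 * N)).filter fun n =>
        θ ≤ ((P.filter fun m => m ∈ Ioc (n + 0) (n + 0 + H)).card : ℝ) := by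
    intro n hn
    obtain ⟨n1, n2, n3⟩ := mem_filter.1 hn
    refine mem_filter.2 ⟨n1, ?_⟩
    obtain ⟨n4, n5⟩ := mem_Ico.1 n1
    by_contra hcon
    rw [not_le] at hcon
    refine n3 fun S hS hI hb => ?_
    by_contra hno
    push Not at hno
    have hb' : ∀ a ∈ S, a.natAbs ≤ Z := fun a ha => Nat.le_floor (hb a ha)
    set R := (Ioc n (n + H)).filter (Rg ((N : ℝ) ^ al)) with hR
    have a1 := blocks R t (864 * (2 / 3) ^ t * H / Real.log z ^ 2 + 24 * (w * w)) S
      (fun T hT hTc => by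
        have b1 := hC n H z Z ((N : ℝ) ^ al) T (fun _ => 0)
          (by exact_mod_cast e2.trans z1) z3 Z3
          (by exact_mod_cast (Z3.trans Na).trans (Nat.cast_le.2 (by omega)))
          (by exact_mod_cast (z3.trans Na).trans (Nat.cast_le.2 (by omega))) Z1 (hI.mono hT)
          (fun a ha => hb' a (hT ha)) (by
            have : (Z : ℝ) ^ t ≤ H := by
              have : w * 8 ≤ w ^ 4 := by
                rw [show w ^ 4 = w * w ^ 3 by ring]
                gcongr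
                exact le_trans (by norm_num) (pow_le_pow_left₀ (by norm_num) e5 3)
              linarith
            rw [hTc]
            exact_mod_cast this)
        rw [hR, filter_filter]
        rw [hTc] at b1
        refine b1.trans (add_le_add le_rfl ?_)
        rw [mul_assoc]
        gcongr) j S Subset.rfl hS
    have a2 : R ⊆ (P.filter fun m => m ∈ Ioc (n + 0) (n + 0 + H)) ∪
        R.filter fun p => (S.filter fun a => nr a p = 1).card < j := by
      intro p hp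
      obtain ⟨p1, p2⟩ := mem_filter.1 hp
      obtain ⟨p3, p4⟩ := mem_Ioc.1 p1
      by_cases e : (S.filter fun a => nr a p = 1).card < j
      · exact mem_union_right _ (mem_filter.2 ⟨hp, e⟩)
      have p5 : (p : ℝ) ≤ 4 * N := by exact_mod_cast (show p ≤ 4 * N by omega)
      refine mem_union_left _ (mem_filter.2 ⟨mem_filter.2 ⟨mem_range.2 (by omega), ?_⟩, p1⟩)
      exact hK _ k u Z y p (S.filter fun a => nr a p = 1) (Real.one_le_rpow N1 hal.le) p2
        (p5.trans k1) (p5.trans y1) (hI.mono (filter_subset _ _)) (by omega)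
        (fun a ha => hb' a (mem_filter.1 ha).1) (fun a ha => (mem_filter.1 ha).2)
        fun a ha => hno a (mem_filter.1 ha).1 p p2.1 p3 p4
    have a3 : (R.card : ℝ) ≤ (P.filter fun m => m ∈ Ioc (n + 0) (n + 0 + H)).card +
        (R.filter fun p => (S.filter fun a => nr a p = 1).card < j).card := by
      exact_mod_cast (card_le_card a2).trans (card_union_le _ _)
    have a4 : 4 * θ ≤ R.card := by
      rw [hθ, mul_div_cancel₀ _ (by norm_num)]
      exact n2
    have a5 : j * (864 * (2 / 3) ^ t * H / Real.log z ^ 2) ≤ θ := by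
      calc _ ≤ j * (864 * (c * β ^ 2 / (16 * 864 * j)) * H / (β / 2 * L) ^ 2) := by gcongr
        _ = θ := by
          rw [hθ]
          field_simp
          ring
    have a6 : j * (24 * (w * w)) ≤ θ := by
      rw [div_mul_eq_mul_div, div_le_iff₀ hc] at e4
      rw [hθ, le_div_iff₀ (by norm_num), le_div_iff₀ (by positivity)]
      have b1 : w * (w * w) * 2 ≤ w ^ 4 := by
        rw [show w ^ 4 = w * (w * w) * w by ring]
        gcongr
      calc _ = 192 * j * L ^ 2 * (w * w) / 2 := by ring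
        _ ≤ w * c * (w * w) / 2 := by gcongr
        _ = c * (w * (w * w) * 2) / 4 := by ring
        _ ≤ c * (2 * H) / 4 := div_le_div_of_nonneg_right
            (mul_le_mul_of_nonneg_left (b1.trans w4) hc.le) (by norm_num)
        _ ≤ c * H := by nlinarith
    rw [mul_add] at a1
    linarith
  refine (Nat.cast_le.2 (card_le_card hsub)).trans (le_of_mul_le_mul_right (hM.trans ?_) θ0)
  have a7 : (N : ℝ) = (N : ℝ) ^ (1 - al / 8) * (N : ℝ) ^ (al / 8) := by
    rw [← Real.rpow_add N0, sub_add_cancel, Real.rpow_one]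
  calc _ ≤ 15 ^ u * (5 * u) * (N : ℝ) ^ (1 - al / 8) * H := by gcongr
    _ = (N : ℝ) ^ (1 - al / 8) * (4 * (15 ^ u * (5 * u)) / c * L ^ (B + 2)) / L ^ B * θ := by
      rw [hθ]
      field_simp
      ring
    _ ≤ (N : ℝ) ^ (1 - al / 8) * (N : ℝ) ^ (al / 8) / L ^ B * θ := by gcongr
    _ = _ := by rw [← a7]

theorem main2 (hC : StCnt) {al c : ℝ} (hal : 0 < al) (hc : 0 < c) :
    ∃ (s : ℕ) (c' : ℝ), 0 < c' ∧ ∀ B : ℕ, ∀ᶠ N : ℕ in atTop,
      (((Ico (2 * N) (3 * N)).filter fun n => Many al c N n ∧ ¬ Good s c' N n).card : ℝ) ≤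
        N / Real.log N ^ B := by
  obtain ⟨s, c', h0, h⟩ := main1 hC s_GM s_Key (lt_min hal one_pos) (min_le_right _ _) hc
  refine ⟨s, c', h0, fun B => ?_⟩
  filter_upwards [h B, eventually_ge_atTop 1] with N hN h1
  refine le_trans (Nat.cast_le.2 (card_le_card fun n hn => ?_)) hN
  obtain ⟨n1, n2, n3⟩ := mem_filter.1 hn
  refine mem_filter.2 ⟨n1, le_trans n2 (Nat.cast_le.2 (card_le_card fun p hp => ?_)), n3⟩
  obtain ⟨p1, p2, p3, p4⟩ := mem_filter.1 hp
  refine mem_filter.2 ⟨p1, p2, p3, fun l l1 l2 => (p4 l l1 l2).imp_right fun e => ?_⟩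
  exact (Real.rpow_le_rpow_of_exponent_le (by exact_mod_cast h1) (min_le_left _ _)).trans_lt e

theorem s_M (hW : StW) (hC : StCnt) : StM := by
  obtain ⟨al, c, hal, hc, hW⟩ := hW
  obtain ⟨s, c', h0, h⟩ := main2 hC hal hc
  refine ⟨s, c', h0, fun B => ?_⟩
  filter_upwards [h (B + 1), hW (B + 1), ev_log 2] with N h1 h2 hL
  have h3 : ((Ico (2 * N) (3 * N)).filter fun n => ¬ Good s c' N n) ⊆
      ((Ico (2 * N) (3 * N)).filter fun n => Many al c N n ∧ ¬ Good s c' N n) ∪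
      (Ico (2 * N) (3 * N)).filter fun n =>
        (((Ioc n (n + Nat.sqrt N)).filter (Rg ((N : ℝ) ^ al))).card : ℝ) <
          c * Nat.sqrt N / Real.log N ^ 2 := by
    intro n hn
    obtain ⟨n1, n2⟩ := mem_filter.1 hn
    by_cases e : Many al c N n
    · exact mem_union_left _ (mem_filter.2 ⟨n1, e, n2⟩)
    · exact mem_union_right _ (mem_filter.2 ⟨n1, not_le.1 e⟩)
  have h4 := (Nat.cast_le (α := ℝ)).2 ((card_le_card h3).trans (card_union_le _ _))
  rw [Nat.cast_add] at h4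
  have h5 : 2 * (N / Real.log N ^ (B + 1)) ≤ N / Real.log N ^ B := by
    rw [pow_succ, ← div_div, ← mul_div_assoc, div_le_iff₀ (by linarith), mul_comm]
    have : 0 < Real.log N := by linarith
    gcongr
  have h6 : (((Ico (2 * N) (3 * N)).filter fun n => ¬ Good s c' N n).card : ℝ) ≤
      N / Real.log N ^ B := by linarith
  convert h6 using 4
  rfl

end Pool.Agent.MP_436a94_nt.E
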